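import Pool.Agent.ART.NumT
import Pool.Agent.ARM.ExC

/-!
# ART, row D1 (helper9): double counting at both ends of a closed word rooted at its top

* `mid_T`: the middle part of a closed word rooted at its top is in the class TT;
* **`exCT_gen1`**, **`exCT_gen`**: any class of middle parts; **`exCTs_of`**: TipT2s → ExCTs; `exCT_of`: TipT2 → ExCT.
-/

set_option autoImplicit false

namespace HexObs

namespace ART

open Finset TS SDN NTA TIP ARM

open scoped ENNReal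

/-! ### numbers -/

private lemma sum_32 : ∃ S0 : ℝ, 0 ≤ S0 ∧ ∑' k : ℕ, ENNReal.ofReal (1 / ((k : ℝ) + 1) ^ (3 / 2 : ℝ)) = ENNReal.ofReal S0 := by
  have h1 : Summable fun k : ℕ => 1 / ((k : ℝ) + 1) ^ (3 / 2 : ℝ) := by
    have h2 := (summable_nat_add_iff 1).2 (Real.summable_one_div_nat_rpow.2 (show (1 : ℝ) < 3 / 2 by norm_num))
    refine h2.congr fun k => ?_
    push_cast
    rfl
  exact ⟨∑' k : ℕ, 1 / ((k : ℝ) + 1) ^ (3 / 2 : ℝ), tsum_nonneg fun k => by positivity,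
    (ENNReal.ofReal_tsum_of_nonneg (fun k => by positivity) h1).symm⟩

/-! ### closed words rooted at the top -/

private lemma c0t_sub {n : ℕ} {L : List Bool} (h : L ∈ C0T n) : L ∈ C0 n := by
  obtain ⟨b, h1, -⟩ := h
  exact ⟨b, h1⟩

/-- a closed word rooted at its top stays below its start -/
lemma C0T_top {n : ℕ} {L : List Bool} (h : L ∈ C0T n) : ∃ d ∈ dirs, ∀ s, s ≤ L.length → ip (vx oo up L s) d ≤ 0 := by
  obtain ⟨b, -, d, hd, h2⟩ := h
  refine ⟨d, hd, fun s hs => ?_⟩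
  have h3 := h2 s (by rw [List.length_append]; omega)
  rw [vx_append (by omega)] at h3
  omega

private lemma ip_adj (u p d : Pt) : ip p (mulE (conjE u) d) = ip (mulE u p) d := by
  simp only [ip, mulE, conjE]
  ring

private lemma dirs_conj {u d : Pt} (hu : nrm u = 1) (hd : d ∈ dirs) : mulE (conjE u) d ∈ dirs := by
  rw [mem_dirs] at hd ⊢
  have h : nrm (conjE u) = nrm u := by
    simp only [nrm, conjE]
    ring
  rw [nrm_mulE, h, hu, hd, one_mul]

/-- the middle part of a closed word rooted at its top -/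
lemma mid_T {n i c : ℕ} {Y2 M Y1 : List Bool} (hL : Y2 ++ (M ++ Y1) ∈ C0T n) (h2 : In (2 ^ (i + c)) Y2)
    (h1 : In (2 ^ (i + c)) Y1) : M ∈ SA ∧ M.length ≤ n ∧ TT M (2 ^ (i + c + 3)) := by
  obtain ⟨g1, g2, g3⟩ := mid_F (c0t_sub hL) h2 h1
  obtain ⟨-, -, g4⟩ := C0_mem (c0t_sub hL)
  obtain ⟨d, hd, htop⟩ := C0T_top hL
  have h3 := hn_In h2
  have h4 := hn_In h1
  push_cast at h3 h4
  have h9 : (1 : ℤ) ≤ 2 ^ (i + c) := one_le_pow₀ (by norm_num)
  have h10 : (2 : ℤ) ^ (i + c + 3) = 8 * 2 ^ (i + c) := by ring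
  have hv : ∀ s, s ≤ M.length → mulE (TIW.rt Y2) (vx oo up M s) =
      vx oo up (Y2 ++ (M ++ Y1)) (Y2.length + s) - TIW.en Y2 := by
    intro s hs
    rw [TIW.vx_app, vx_append (by omega)]
    abel
  have hlen : ∀ s, s ≤ M.length → Y2.length + s ≤ (Y2 ++ (M ++ Y1)).length := by
    intro s hs
    rw [List.length_append, List.length_append]
    omega
  have hY : -(3 * 2 ^ (i + c)) ≤ ip (TIW.en Y2) d := by
    have := TIW.neg_hn_le_ip (TIW.en Y2) hd
    linarith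
  have hE : ip (vx oo up (Y2 ++ (M ++ Y1)) (Y2.length + M.length)) d ≥ -2 - 3 * 2 ^ (i + c) := by
    have e1 : vx oo up (Y2 ++ (M ++ Y1)) (Y2.length + M.length) =
        TIW.en (Y2 ++ (M ++ Y1)) - mulE (TIW.rt (Y2 ++ M)) (TIW.en Y1) := by
      have e5 : vx oo up (Y2 ++ M ++ Y1) (Y2 ++ M).length = TIW.en (Y2 ++ M) := by
        rw [vx_append (by omega)]
        rfl
      rw [← List.append_assoc, ← List.length_append, e5, en_app (Y2 ++ M) Y1]
      abel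
    have e2 := TIW.neg_hn_le_ip (TIW.en (Y2 ++ (M ++ Y1))) hd
    have e3 := TIW.ip_le_hn (mulE (TIW.rt (Y2 ++ M)) (TIW.en Y1)) hd
    rw [TIW.hn_mulE (TIW.nrm_rt _)] at e3
    have e4 : ip (TIW.en (Y2 ++ (M ++ Y1)) - mulE (TIW.rt (Y2 ++ M)) (TIW.en Y1)) d =
        ip (TIW.en (Y2 ++ (M ++ Y1))) d - ip (mulE (TIW.rt (Y2 ++ M)) (TIW.en Y1)) d := ip_sub_left _ _ _
    rw [e1, e4]
    linarith
  refine ⟨g1, g2, ?_, mulE (conjE (TIW.rt Y2)) d, dirs_conj (TIW.nrm_rt Y2) hd, fun s hs => ⟨?_, ?_⟩⟩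
  · exact_mod_cast g3
  · have h5 : ip (vx oo up M s) (mulE (conjE (TIW.rt Y2)) d) ≤ 2 ^ (i + c + 3) := by
      rw [ip_adj, hv s hs, ip_sub_left]
      have := htop _ (hlen s hs)
      linarith
    exact_mod_cast h5
  · have h5 : ip (vx oo up M s - TIW.en M) (mulE (conjE (TIW.rt Y2)) d) ≤ 2 ^ (i + c + 3) := by
      have h6 : mulE (TIW.rt Y2) (TIW.en M) = vx oo up (Y2 ++ (M ++ Y1)) (Y2.length + M.length) - TIW.en Y2 :=
        hv M.length le_rfl
      rw [ip_adj, mulE_sub, hv s hs, h6, sub_sub_sub_cancel_right, ip_sub_left]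
      have := htop _ (hlen s hs)
      linarith
    exact_mod_cast h5

/-- **row D, general class G of the middle parts** (the mass only at the level i + (c + 3)) -/
theorem exCT_gen1 (c : ℕ) : ∃ K : ℝ, 0 < K ∧ ∀ (C D : ℝ) (n i b : ℕ) (G : Set (List Bool)), 0 < C → 0 ≤ D →
    (∀ n' : ℕ, n' ≤ n → gf {L | L ∈ FT n' (i + (c + 3)) ∧ L ∈ G} * Xb b ^ 2 ≤
      ENNReal.ofReal (C * D * prT n' (i + (c + 3)))) →
    ∀ (ρ : List Bool → List Bool → List Bool → Prop) (x : ℝ≥0∞) (q : ℝ), (∀ Y2 M Y1, ρ Y2 M Y1 → M ∈ G) →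
      (∀ M, ∑' p : {p : List Bool × List Bool | ρ p.1 M p.2 ∧ In (2 ^ (i + c)) p.1 ∧ In (2 ^ (i + c)) p.2 ∧
        p.1 ++ (M ++ p.2) ∈ C0T n}, wE (p : List Bool × List Bool).1 * wE (p : List Bool × List Bool).2 ≤
          x * ENNReal.ofReal (ARM.wt n M.length i)) → 0 < q →
      gf {L | L ∈ C0T n ∧ q ≤ ((tri (2 ^ (i + c)) ρ L).ncard : ℝ)} * (ENNReal.ofReal q * Xb b ^ 2) ≤
        ENNReal.ofReal (K * C * D * prT n i) * x := by
  classical
  obtain ⟨S0, hS0, hsum⟩ := sum_32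
  refine ⟨16 * 64 ^ (c + 3) * (S0 + 1), by positivity, fun C D n i b G hC hD hT ρ x q hρ hx hq => ?_⟩
  obtain ⟨i', hi'⟩ : ∃ i', i' = i + (c + 3) := ⟨_, rfl⟩
  obtain ⟨s, hs⟩ : ∃ s : ℕ, s = ⌊ml i'⌋₊ := ⟨_, rfl⟩
  have hs1 : (s : ℝ) ≤ ml i' := by rw [hs]; exact Nat.floor_le (ml_pos _).le
  have hs2 : ml i ≤ s := by
    have h1 := Nat.lt_floor_add_one (ml i')
    rw [← hs] at h1
    have h2 := ml_two i (c + 3) (by omega)
    rw [← hi'] at h2
    have h3 := one_le_ml i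
    linarith
  have hs3 : 1 ≤ s := by
    have h1 := (one_le_ml i).trans hs2
    exact_mod_cast h1
  obtain ⟨X, hX⟩ : ∃ X : Set (List Bool), X = {M | M ∈ G ∧ M ∈ SA ∧ M.length ≤ n ∧
      TT M (2 ^ i')} := ⟨_, rfl⟩
  obtain ⟨P, hP⟩ : ∃ P : List Bool → List Bool × List Bool → Prop, P = fun M p => ρ p.1 M p.2 ∧ In (2 ^ (i + c)) p.1 ∧
      In (2 ^ (i + c)) p.2 ∧ p.1 ++ (M ++ p.2) ∈ C0T n := ⟨_, rfl⟩
  obtain ⟨W, hW⟩ : ∃ W : ℕ → Set (List Bool), W = fun k => {L | L ∈ FT (n - k * s) i' ∧ L ∈ G} :=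
    ⟨_, rfl⟩
  have h1 : ENNReal.ofReal q * gf {L | L ∈ C0T n ∧ q ≤ ((tri (2 ^ (i + c)) ρ L).ncard : ℝ)} ≤
      ∑' M : List Bool, if M ∈ X then wE M * ∑' p : {p : List Bool × List Bool | P M p},
        wE (p : List Bool × List Bool).1 * wE (p : List Bool × List Bool).2 else 0 := by
    refine dct fun L hL => ?_
    obtain ⟨S, hS, hcut⟩ := tri_cuts (2 ^ (i + c)) ρ L
    refine ⟨S, ?_, fun k hk => ?_⟩
    · rw [← ENNReal.ofReal_natCast]
      refine ENNReal.ofReal_le_ofReal (hL.2.trans ?_)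
      exact_mod_cast hS
    · obtain ⟨h2, h3, h4, h5, h6⟩ := hcut k hk
      have h7 : L.take k.1 ++ ((L.take k.2).drop k.1 ++ L.drop k.2) ∈ C0T n := by
        have h8 : L.take k.1 = (L.take k.2).take k.1 := by rw [List.take_take, min_eq_left h2]
        rw [← List.append_assoc, h8, List.take_append_drop, List.take_append_drop]
        exact hL.1
      obtain ⟨h8, h9, h10⟩ := mid_T h7 h4 h5
      have h11 := hρ _ _ _ h6
      refine ⟨h2, h3, ?_, ?_⟩
      · rw [hX]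
        refine ⟨h11, h8, h9, ?_⟩
        rw [hi', ← add_assoc]
        exact h10
      · rw [hP]
        exact ⟨h6, h4, h5, h7⟩
  have h2 : (∑' M : List Bool, if M ∈ X then wE M * ∑' p : {p : List Bool × List Bool | P M p},
        wE (p : List Bool × List Bool).1 * wE (p : List Bool × List Bool).2 else 0) ≤
      ∑' M : List Bool, ∑' k : ℕ, if M ∈ W k then wE M * (x * ENNReal.ofReal (16 / ((k : ℝ) + 1) ^ 4)) else 0 := by
    refine ENNReal.tsum_le_tsum fun M => ?_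
    by_cases hM : M ∈ X
    · rw [if_pos hM]
      obtain ⟨k, hk1, hk2, hk3⟩ := window (n := n) (a := M.length) hs3 hs2
      have hM' := hM
      rw [hX] at hM'
      obtain ⟨g1, g3, g4, g5⟩ := hM'
      have hMW : M ∈ W k := by
        rw [hW]
        refine ⟨⟨g3, hk1, ?_, g5⟩, g1⟩
        rcases hk2 with h3 | ⟨h3, h4⟩
        · have h5 : (M.length : ℝ) < ((n - k * s : ℕ) : ℝ) + s := by exact_mod_cast h3
          linarith
        · rw [h3, zero_mul, Nat.sub_zero]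
          have h5 : (M.length : ℝ) ≤ n := by exact_mod_cast g4
          have := ml_pos i'
          linarith
      refine le_trans ?_ (ENNReal.le_tsum k)
      rw [if_pos hMW]
      refine mul_le_mul' le_rfl ?_
      rw [hP]
      exact (hx M).trans (mul_le_mul' le_rfl (ENNReal.ofReal_le_ofReal hk3))
    · rw [if_neg hM]
      exact zero_le
  rw [ENNReal.tsum_comm] at h2
  have h3 : ∀ k : ℕ, (∑' M : List Bool, if M ∈ W k then wE M * (x * ENNReal.ofReal (16 / ((k : ℝ) + 1) ^ 4)) else 0) *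
      Xb b ^ 2 ≤ ENNReal.ofReal (16 * C * 64 ^ (c + 3) * (D * prT n i)) * x * ENNReal.ofReal (1 / ((k : ℝ) + 1) ^ (3 / 2 : ℝ)) := by
    intro k
    have e1 : (∑' M : List Bool, if M ∈ W k then wE M * (x * ENNReal.ofReal (16 / ((k : ℝ) + 1) ^ 4)) else 0) =
        gf (W k) * (x * ENNReal.ofReal (16 / ((k : ℝ) + 1) ^ 4)) := by
      rw [gf_ind (W k), ← ENNReal.tsum_mul_right]
      refine tsum_congr fun A => ?_
      by_cases hA : A ∈ W k
      · rw [if_pos hA, if_pos hA]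
      · rw [if_neg hA, if_neg hA, zero_mul]
    have h4 : gf (W k) * Xb b ^ 2 ≤ ENNReal.ofReal (C * D * prT (n - k * s) i') := by
      rw [hW, hi']
      exact hT (n - k * s) (by omega)
    have h5 : C * D * prT (n - k * s) i' ≤ C * D * (((k : ℝ) + 1) ^ (5 / 2 : ℝ) * (64 ^ (c + 3) * prT n i)) := by
      refine mul_le_mul_of_nonneg_left ?_ (by positivity)
      refine (prT_back hs1).trans (mul_le_mul_of_nonneg_left ?_ (by positivity))
      rw [hi']
      exact prT_up64 n i (c + 3)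
    have hp := prT_nonneg n i
    rw [e1]
    calc gf (W k) * (x * ENNReal.ofReal (16 / ((k : ℝ) + 1) ^ 4)) * Xb b ^ 2
        = gf (W k) * Xb b ^ 2 * ENNReal.ofReal (16 / ((k : ℝ) + 1) ^ 4) * x := by ring
      _ ≤ ENNReal.ofReal (C * D * (((k : ℝ) + 1) ^ (5 / 2 : ℝ) * (64 ^ (c + 3) * prT n i))) *
          ENNReal.ofReal (16 / ((k : ℝ) + 1) ^ 4) * x :=
          mul_le_mul' (mul_le_mul' (h4.trans (ENNReal.ofReal_le_ofReal h5)) le_rfl) le_rfl
      _ = ENNReal.ofReal (16 * C * 64 ^ (c + 3) * (D * prT n i)) * x * ENNReal.ofReal (1 / ((k : ℝ) + 1) ^ (3 / 2 : ℝ)) := by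
          rw [← ENNReal.ofReal_mul (by positivity),
            mul_right_comm (ENNReal.ofReal (16 * C * 64 ^ (c + 3) * (D * prT n i))) x, ← ENNReal.ofReal_mul (by positivity)]
          have e2 : ((k : ℝ) + 1) ^ (5 / 2 : ℝ) * ((k : ℝ) + 1) ^ (3 / 2 : ℝ) = ((k : ℝ) + 1) ^ 4 := by
            rw [← Real.rpow_add (by positivity), ← Real.rpow_natCast]
            norm_num
          congr 2
          rw [← e2]
          field_simp
  have h4 : gf {L | L ∈ C0T n ∧ q ≤ ((tri (2 ^ (i + c)) ρ L).ncard : ℝ)} * (ENNReal.ofReal q * Xb b ^ 2) ≤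
      ENNReal.ofReal (16 * C * 64 ^ (c + 3) * (D * prT n i)) * x * ENNReal.ofReal S0 := by
    calc gf {L | L ∈ C0T n ∧ q ≤ ((tri (2 ^ (i + c)) ρ L).ncard : ℝ)} * (ENNReal.ofReal q * Xb b ^ 2)
        = ENNReal.ofReal q * gf {L | L ∈ C0T n ∧ q ≤ ((tri (2 ^ (i + c)) ρ L).ncard : ℝ)} * Xb b ^ 2 := by ring
      _ ≤ (∑' k : ℕ, ∑' A : List Bool, if A ∈ W k then wE A * (x * ENNReal.ofReal (16 / ((k : ℝ) + 1) ^ 4)) else 0) *
          Xb b ^ 2 := mul_le_mul' (h1.trans h2) le_rfl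
      _ = ∑' k : ℕ, (∑' A : List Bool, if A ∈ W k then wE A * (x * ENNReal.ofReal (16 / ((k : ℝ) + 1) ^ 4)) else 0) *
          Xb b ^ 2 := ENNReal.tsum_mul_right.symm
      _ ≤ ∑' k : ℕ, ENNReal.ofReal (16 * C * 64 ^ (c + 3) * (D * prT n i)) * x * ENNReal.ofReal (1 / ((k : ℝ) + 1) ^ (3 / 2 : ℝ)) :=
          ENNReal.tsum_le_tsum h3
      _ = _ := by rw [ENNReal.tsum_mul_left, hsum]
  refine h4.trans ?_
  rw [mul_right_comm]
  refine mul_le_mul' ?_ le_rfl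
  have hp := prT_nonneg n i
  rw [← ENNReal.ofReal_mul (by positivity)]
  refine ENNReal.ofReal_le_ofReal ?_
  have h5 : 0 ≤ 16 * C * 64 ^ (c + 3) * (D * prT n i) := by positivity
  calc 16 * C * 64 ^ (c + 3) * (D * prT n i) * S0 ≤ 16 * C * 64 ^ (c + 3) * (D * prT n i) * (S0 + 1) :=
        mul_le_mul_of_nonneg_left (by linarith) h5
    _ = 16 * 64 ^ (c + 3) * (S0 + 1) * C * D * prT n i := by ring

/-- **row D, general class G of the middle parts** -/
theorem exCT_gen (c : ℕ) : ∃ K : ℝ, 0 < K ∧ ∀ (C D : ℝ) (n i b : ℕ) (G : Set (List Bool)), 0 < C → 0 ≤ D →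
    (∀ n' i' : ℕ, n' ≤ n → i ≤ i' → gf {L | L ∈ FT n' i' ∧ L ∈ G} * Xb b ^ 2 ≤ ENNReal.ofReal (C * D * prT n' i')) →
    ∀ (ρ : List Bool → List Bool → List Bool → Prop) (x : ℝ≥0∞) (q : ℝ), (∀ Y2 M Y1, ρ Y2 M Y1 → M ∈ G) →
      (∀ M, ∑' p : {p : List Bool × List Bool | ρ p.1 M p.2 ∧ In (2 ^ (i + c)) p.1 ∧ In (2 ^ (i + c)) p.2 ∧
        p.1 ++ (M ++ p.2) ∈ C0T n}, wE (p : List Bool × List Bool).1 * wE (p : List Bool × List Bool).2 ≤
          x * ENNReal.ofReal (ARM.wt n M.length i)) → 0 < q →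
      gf {L | L ∈ C0T n ∧ q ≤ ((tri (2 ^ (i + c)) ρ L).ncard : ℝ)} * (ENNReal.ofReal q * Xb b ^ 2) ≤
        ENNReal.ofReal (K * C * D * prT n i) * x := by
  obtain ⟨K, hK, h⟩ := exCT_gen1 c
  exact ⟨K, hK, fun C D n i b G hC hD hT => h C D n i b G hC hD fun n' h1 => hT n' _ h1 (by omega)⟩

/-- **row D'** (disjoint local structures) -/
theorem exCTs_of (hT : TipT2s) : ExCTs := by
  intro η E c hη
  obtain ⟨C, hC, hT⟩ := hT η E hη
  obtain ⟨K, hK, h⟩ := exCT_gen c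
  refine ⟨K * C, by positivity, fun D n i b hD hF hbi ρ x q hρ hx hq => ?_⟩
  refine h C D n i b (TwoG η E b) hC hD (fun n' i' h1 h2 => ?_) ρ x q hρ hx hq
  exact hT D n' i' b hD (fun n'' i'' h5 h6 => hF n'' i'' (h5.trans h1) (h2.trans h6)) (hbi.trans h2)

/-- **row D1** -/
theorem exCT_of (hT : TipT2) : ExCT := by
  intro η c hη
  obtain ⟨C, hC, hT⟩ := hT η hη
  obtain ⟨K, hK, h⟩ := exCT_gen c
  refine ⟨K * C, by positivity, fun D n i b hD hF hbi ρ x q hρ hx hq => ?_⟩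
  refine h C D n i b {L | L ∈ GT b η ∧ rv L ∈ GT b η} hC hD (fun n' i' h1 h2 => ?_) ρ x q hρ hx hq
  exact hT D n' i' b hD (fun n'' i'' h5 h6 => hF n'' i'' (h5.trans h1) (h2.trans h6)) (hbi.trans h2)

end ART

end HexObs
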