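import Pool.Agent.ART.RootNT
import Pool.Agent.ARM.T2

/-!
# ART, row D2 (helper94): **row T2NT** (many good cuts on both sides of the root of a closed word rooted at its top)

* **`t2NT1_of`** : one end; **`t2NT_of_one`** : both ends; `t2NT_of` : T1T, ExCTs, the inner bound CaseAP, T2CT → T2NT.
-/

set_option autoImplicit false

namespace HexObs

namespace ART

open Finset TS SDN SIM NTA TIP ARM

open TIP.Nf (cz mem_cz nc_cz rank_lt rank_sum card_rank cz_split in_mid in_app in_mono Dt NeW)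

open scoped ENNReal

/-- the inner bound of the case A (helper4: `caseAT`) -/
def CaseAP : Prop := ∀ (η : ℝ) (E m : ℕ) (ε : ℝ), 0 < η → 0 < ε → ∃ (κ1 : ℝ) (a0 b0 : ℕ), 0 < κ1 ∧ a0 ≤ b0 ∧ 1 ≤ b0 ∧
  ∀ (b n h : ℕ) (M : List Bool), b0 ≤ b → η * Ub b ≤ (h : ℝ) →
      ∑' p : {p : List Bool × List Bool | RhA (κ1 * Ub b) (2 ^ (b - a0)) b E η h p.1 M p.2 ∧ In (2 ^ (b + m + 1)) p.1 ∧
        In (2 ^ (b + m + 1)) p.2 ∧ p.1 ++ (M ++ p.2) ∈ C0T n}, wE (p : List Bool × List Bool).1 * wE (p : List Bool × List Bool).2 ≤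
      ENNReal.ofReal (ε * (Ub b / (4 ^ b * ml b))) * ENNReal.ofReal (ARM.wt n M.length (b + m))

/-- row T2N, one end -/
def T2NT1 : Prop := ∀ ε : ℝ, 0 < ε → ∃ (η κ : ℝ) (a m b0 : ℕ), 0 < η ∧ 0 < κ ∧ a ≤ b0 ∧ ∀ n j : ℕ,
  b0 ≤ j → 2 ^ b0 * ml j ≤ n → gf {L | L ∈ C0T n ∧ gc j a m η L < κ * Ub j} ≤
    ENNReal.ofReal (ε * (n : ℝ) ^ (-(5 / 2) : ℝ))

/-- **row T2N from one end** -/
theorem t2NT_of_one (h : T2NT1) : T2NT := by
  intro ε hε
  obtain ⟨η, κ, a, m, b0, hη, hκ, hab, h⟩ := h (ε / 2) (by positivity)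
  obtain ⟨bU, hbU⟩ := T2.exU hκ 2
  refine ⟨η, κ / 2, a + 1, m, max (b0 + 1) bU, hη, by positivity, by omega, fun n j hj hn => ?_⟩
  have hj1 : b0 + 1 ≤ j := (le_max_left _ _).trans hj
  have hj2 : bU ≤ j := (le_max_right _ _).trans hj
  have hn' : 2 ^ b0 * ml j ≤ n := by
    refine le_trans (mul_le_mul_of_nonneg_right ?_ (ml_pos j).le) hn
    exact pow_le_pow_right₀ (by norm_num) ((Nat.le_succ b0).trans (le_max_left _ _))
  obtain ⟨T, hT⟩ : ∃ T : Set (List Bool), T = {L | L ∈ C0T n ∧ gc j a m η L < κ * Ub j} := ⟨_, rfl⟩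
  have hTm := h n j (by omega) hn'
  rw [← hT] at hTm
  have hU2 := hbU j hj2
  have hU : 0 < κ * Ub j := by linarith
  have hsub : {L | L ∈ C0T n ∧ (gc j (a + 1) m η L < κ / 2 * Ub j ∨ gc j (a + 1) m η (rv L) < κ / 2 * Ub j)} ⊆
      T ∪ {L | rev L ∈ T} := by
    rintro L ⟨h1, h2 | h2⟩
    · left
      rw [hT]
      refine ⟨h1, ?_⟩
      have := T2.gc_mono (j := j) (a := a) (m := m) (η := η) (L := L)
      linarith
    · right
      show rev L ∈ T
      rw [hT]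
      refine ⟨rev_C0T h1, ?_⟩
      have := T2.gc_rev (m := m) (η := η) (L := L) (show a + 1 ≤ j by omega)
      linarith
  calc gf {L | L ∈ C0T n ∧ (gc j (a + 1) m η L < κ / 2 * Ub j ∨ gc j (a + 1) m η (rv L) < κ / 2 * Ub j)}
      ≤ gf (T ∪ {L | rev L ∈ T}) := gf_mono hsub
    _ ≤ gf T + gf {L | rev L ∈ T} := gf_union_le _ _
    _ = gf T + gf T := by rw [TD.gf_rev_eq T]
    _ ≤ ENNReal.ofReal (ε / 2 * (n : ℝ) ^ (-(5 / 2) : ℝ)) + ENNReal.ofReal (ε / 2 * (n : ℝ) ^ (-(5 / 2) : ℝ)) :=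
        add_le_add hTm hTm
    _ = _ := by
        rw [← ENNReal.ofReal_add (by positivity) (by positivity)]
        congr 1
        ring


/-- **row T2N, one end** -/
theorem t2NT1_of {κ : ℝ} {C : ℕ} (hκ : 0 < κ) (hT : T1T) (hE : ExCTs) (hA : CaseAP) (hB : RootBT κ C)
    (hN : RootNT κ C) (hCf : T2CT) : T2NT1 := by
  intro ε hε
  obtain ⟨A1, J1, b1, hA1, h1⟩ := hB 1 1
  obtain ⟨A2, J2, b2, hA2, h2⟩ := hN 1
  obtain ⟨D, hD, hT⟩ := hT
  obtain ⟨C1, hC1, hE⟩ := hE (κ / 8) (2 * C) 1 (by positivity)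
  obtain ⟨K, hK, hF⟩ := final_numT TPC.xLow (κ := κ / 8) (by positivity)
  obtain ⟨m0, hm0⟩ : ∃ m0 : ℕ, (A1 + A2) * (16 / ε) < (2 : ℝ) ^ m0 := pow_unbounded_of_one_lt _ one_lt_two
  obtain ⟨m, hm⟩ : ∃ m : ℕ, m = m0 + J1 + J2 + 2 * C := ⟨_, rfl⟩
  obtain ⟨e1, he1⟩ : ∃ e1 : ℝ, e1 = ε / 8 / (K * (C1 * D) * 64 ^ m) := ⟨_, rfl⟩
  have he10 : 0 < e1 := by rw [he1]; positivity
  obtain ⟨κ1, a0, b3, hκ1, hab, hb3, hA⟩ := hA (κ / 8) (2 * C) m e1 (by positivity) he10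
  obtain ⟨b4, hconf⟩ := hCf (m + 6) (ε / 8) (by positivity)
  obtain ⟨b5, hb5⟩ := T2.exU hκ 8
  refine ⟨κ / 8, κ1, a0, m + 1, b1 + b2 + b3 + b4 + b5 + 1, by positivity, hκ1, by omega, fun n j hj hn => ?_⟩
  have hmj := ml_pos j
  have hm1 := one_le_ml j
  have hj0 : j ≠ 0 := by omega
  have hpow : ∀ a b : ℕ, a ≤ b → (2 : ℝ) ^ a * ml j ≤ 2 ^ b * ml j := fun a b h =>
    mul_le_mul_of_nonneg_right (pow_le_pow_right₀ (by norm_num) h) hmj.le
  have hn1 : 1 ≤ n := by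
    have h3 : (1 : ℝ) ≤ 2 ^ (b1 + b2 + b3 + b4 + b5 + 1) * ml j :=
      one_le_mul_of_one_le_of_one_le (one_le_pow₀ (by norm_num)) hm1
    exact_mod_cast h3.trans hn
  have hconf := hconf n j (by omega) ((hpow _ _ (by omega)).trans hn)
  have hU := Ub_pos j
  obtain ⟨h, hh1, hh2, hh3⟩ := T2.hh_of hκ (hb5 j (by omega))
  obtain ⟨ν, hν⟩ : ∃ ν : ℝ, ν = (n : ℝ) ^ (-(5 / 2) : ℝ) := ⟨_, rfl⟩
  have hν0 : 0 ≤ ν := by rw [hν]; positivity
  rw [← hν] at hconf ⊢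
  have hCm : 2 * C ≤ 2 ^ m := (show 2 * C ≤ m by omega).trans Nat.lt_two_pow_self.le
  -- the case A
  obtain ⟨GA, hGA⟩ : ∃ GA : Set (List Bool), GA = {L | L ∈ C0T n ∧ (h : ℝ) * h ≤
    ((tri (2 ^ (j + m + 1)) (RhA (κ1 * Ub j) (2 ^ (j - a0)) j (2 * C) (κ / 8) h) L).ncard : ℝ)} := ⟨_, rfl⟩
  have hGA1 : gf GA ≤ ENNReal.ofReal (ε / 8 * ν) := by
    have h3 := hE D n (j + m) j hD.le (fun n' i _ _ => hT n' i) (Nat.le_add_right j m)
      (RhA (κ1 * Ub j) (2 ^ (j - a0)) j (2 * C) (κ / 8) h) (ENNReal.ofReal (e1 * (Ub j / (4 ^ j * ml j)))) ((h : ℝ) * h)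
      (fun Y2 M Y1 hr => hr.1) (fun M => hA j n h M (by omega) hh2) (by
        have : (0 : ℝ) < h := by exact_mod_cast hh1
        positivity)
    rw [← hGA] at h3
    have h4 := hF _ j m n h (C1 * D) e1 hn1 (by positivity) he10.le hh2 h3
    refine h4.trans (ENNReal.ofReal_le_ofReal (le_of_eq ?_))
    rw [← hν, he1]
    field_simp
  -- the large ends
  obtain ⟨GB, hGB⟩ : ∃ GB : ℕ → Set (List Bool), GB = fun l => E2FT κ C j 1 (m + 1 + l) n := ⟨_, rfl⟩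
  obtain ⟨GC, hGC⟩ : ∃ GC : ℕ → Set (List Bool), GC = fun l => E1FT κ C j 1 (m + 1 + l) n := ⟨_, rfl⟩
  have hsm : A1 * (1 / 2) ^ m * ν ≤ ε / 16 * ν := by
    refine mul_le_mul_of_nonneg_right ?_ hν0
    have h3 : (A1 + A2) * (16 / ε) < (2 : ℝ) ^ m := hm0.trans_le (pow_le_pow_right₀ (by norm_num) (by omega))
    rw [one_div, inv_pow, ← div_eq_mul_inv, div_le_iff₀ (by positivity)]
    have h4 : A1 * (16 / ε) ≤ (2 : ℝ) ^ m := by
      have : 0 ≤ A2 * (16 / ε) := by positivity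
      linarith
    calc A1 = ε / 16 * (A1 * (16 / ε)) := by field_simp
      _ ≤ ε / 16 * 2 ^ m := mul_le_mul_of_nonneg_left h4 (by positivity)
  have hsm2 : A2 * (1 / 2) ^ m * ν ≤ ε / 16 * ν := by
    refine mul_le_mul_of_nonneg_right ?_ hν0
    have h3 : (A1 + A2) * (16 / ε) < (2 : ℝ) ^ m := hm0.trans_le (pow_le_pow_right₀ (by norm_num) (by omega))
    rw [one_div, inv_pow, ← div_eq_mul_inv, div_le_iff₀ (by positivity)]
    have h4 : A2 * (16 / ε) ≤ (2 : ℝ) ^ m := by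
      have : 0 ≤ A1 * (16 / ε) := by positivity
      linarith
    calc A2 = ε / 16 * (A2 * (16 / ε)) := by field_simp
      _ ≤ ε / 16 * 2 ^ m := mul_le_mul_of_nonneg_left h4 (by positivity)
  have hgeo : ∀ l : ℕ, A1 * (1 / 2) ^ (1 * (m + 1 + l)) * ν ≤ A1 * (1 / 2) ^ m * ν * (1 / 2) ^ l := by
    intro l
    have h3 : (1 / 2 : ℝ) ^ (1 * (m + 1 + l)) ≤ (1 / 2) ^ m * (1 / 2) ^ l := by
      rw [← pow_add]
      exact pow_le_pow_of_le_one (by norm_num) (by norm_num) (by omega)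
    calc A1 * (1 / 2) ^ (1 * (m + 1 + l)) * ν ≤ A1 * ((1 / 2) ^ m * (1 / 2) ^ l) * ν := by gcongr
      _ = _ := by ring
  have hGB1 : gf (⋃ l, GB l) ≤ ENNReal.ofReal (2 * (ε / 16 * ν)) := by
    refine (T2.geo_sum (A := A1 * (1 / 2) ^ m * ν) (by positivity) fun l => ?_).trans (ENNReal.ofReal_le_ofReal (by linarith))
    rw [hGB]
    refine ((h1 n j (m + 1 + l) hn1 (by omega) (by omega)).1).trans (ENNReal.ofReal_le_ofReal ?_)
    rw [← hν]
    exact hgeo l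
  have hGC1 : gf (⋃ l, GC l) ≤ ENNReal.ofReal (2 * (ε / 16 * ν)) := by
    refine (T2.geo_sum (A := A1 * (1 / 2) ^ m * ν) (by positivity) fun l => ?_).trans (ENNReal.ofReal_le_ofReal (by linarith))
    rw [hGC]
    refine ((h1 n j (m + 1 + l) hn1 (by omega) (by omega)).2).trans (ENNReal.ofReal_le_ofReal ?_)
    rw [← hν]
    exact hgeo l
  -- no factor
  obtain ⟨GN, hGN⟩ : ∃ GN : Set (List Bool), GN = {L | L ∈ C0T n ∧ L ∈ Nz κ C j ∧ ¬ In (2 ^ (j + m)) L} := ⟨_, rfl⟩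
  have hGN1 : gf GN ≤ ENNReal.ofReal (ε / 16 * ν) := by
    have h3 := h2 n j m hn1 (by omega) (by omega)
    rw [← hGN, ← hν, one_mul] at h3
    exact h3.trans (ENNReal.ofReal_le_ofReal hsm2)
  obtain ⟨GS, hGS⟩ : ∃ GS : Set (List Bool), GS = {L | L ∈ C0T n ∧ ∀ s, s ≤ L.length → dz L s ≤ 2 ^ (j + (m + 6))} := ⟨_, rfl⟩
  rw [← hGS] at hconf
  have hdz : ∀ L, L ∈ C0T n → In (2 ^ (j + m + 3)) L → L ∈ GS := by
    intro L hL hI
    rw [hGS]
    refine ⟨hL, fun s hs => ?_⟩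
    have h3 := T2.dz_of_In hI hs
    have h4 : (2 : ℤ) ^ (j + (m + 6)) = 8 * 2 ^ (j + m + 3) := by
      rw [show j + (m + 6) = j + m + 3 + 3 by omega, pow_add]
      ring
    have h5 : (0 : ℤ) < 2 ^ (j + m + 3) := by positivity
    rw [h4]
    push_cast at h3
    linarith
  -- the cover
  have hcov : {L | L ∈ C0T n ∧ gc j a0 (m + 1) (κ / 8) L < κ1 * Ub j} ⊆
      GA ∪ ((⋃ l, GB l) ∪ ((⋃ l, GC l) ∪ (GN ∪ GS))) := by
    rintro L ⟨hL, hg⟩
    by_cases hLN : L ∈ Nz κ C j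
    · by_cases hI : In (2 ^ (j + m)) L
      · right; right; right; right
        exact hdz L hL (YB.In_mono (Nat.pow_le_pow_right (by norm_num) (by omega)) hI)
      · right; right; right; left
        rw [hGN]
        exact ⟨hL, hLN, hI⟩
    · rcases T2.d2_of TIP.neW hLN with ⟨P, Z1, Z2, Z3, V, W1, W2, W3, Y, hd, hnP, hnY⟩ | ⟨X, Z1, Z2, Z3, Y, e0, hz, hnX, hnY⟩
      · by_cases hI : In (2 ^ (j + m)) P ∧ In (2 ^ (j + m)) Y
        · left
          rw [hGA]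
          refine ⟨hL, ?_⟩
          have h3 := T2.tri_A TIP.neW (C0_mem (C0T_sub n hL)).1 hd hnY hj0 (κ0 := κ1 * Ub j) (κ' := κ1) (h := h) (E := 2 * C) (m := m)
            (r := 2 ^ (j - a0)) (a := j - a0) hh1 hh2 (hh3 _ hd.z.n2) (hh3 _ hd.w.n2) rfl hCm hI.1 hI.2 le_rfl le_rfl hg
          exact_mod_cast h3
        · obtain ⟨l, hl1, hl2⟩ := T2.In_find2 hI
          rw [show j + m + 1 + l = j + (m + 1 + l) by omega] at hl1
          right; left
          rw [Set.mem_iUnion]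
          refine ⟨l, ?_⟩
          rw [hGB]
          refine ⟨hL, P, Z1 ++ (Z2 ++ Z3), V, W1 ++ (W2 ++ W3), Y, ?_, T2.Zc_of hd.z, T2.Zc_of hd.w, hl1.1, hl1.2, 2 ^ (m + l), ?_, ?_⟩
          · rw [hd.eq]
            simp only [List.append_assoc]
          · rw [← pow_add]
            exact Nat.pow_le_pow_right (by norm_num) (by omega)
          · exact T2.big_end hnP hnY (by rwa [← add_assoc])
      · by_cases hI : In (2 ^ (j + m)) X ∧ In (2 ^ (j + m)) Y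
        · right; right; right; right
          refine hdz L hL ?_
          have h3 := QB.In_app hI.1 (QB.In_app hz.inn hI.2)
          have e2 : X ++ (Z1 ++ (Z2 ++ Z3) ++ Y) = L := by
            rw [e0]
            simp only [List.append_assoc]
          rw [e2] at h3
          refine YB.In_mono ?_ h3
          have h4 : 2 * (C * 2 ^ j) ≤ 2 ^ (j + m) := by
            calc 2 * (C * 2 ^ j) = 2 * C * 2 ^ j := by ring
              _ ≤ 2 ^ m * 2 ^ j := Nat.mul_le_mul_right _ hCm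
              _ = 2 ^ (j + m) := by rw [← pow_add, add_comm]
          have h5 : 2 ^ (j + m + 3) = 8 * 2 ^ (j + m) := by rw [pow_add]; ring
          rw [h5]
          omega
        · obtain ⟨l, hl1, hl2⟩ := T2.In_find2 hI
          rw [show j + m + 1 + l = j + (m + 1 + l) by omega] at hl1
          right; right; left
          rw [Set.mem_iUnion]
          refine ⟨l, ?_⟩
          rw [hGC]
          refine ⟨hL, X, Z1 ++ (Z2 ++ Z3), Y, ?_, T2.Zc_of hz, hl1.1, hl1.2, j, 2 ^ (m + l), Or.inl rfl, ?_, ?_⟩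
          · rw [e0]
            simp only [List.append_assoc]
          · rw [← pow_add]
            exact Nat.pow_le_pow_right (by norm_num) (by omega)
          · exact T2.big_end hnX hnY (by rwa [← add_assoc])
  calc gf {L | L ∈ C0T n ∧ gc j a0 (m + 1) (κ / 8) L < κ1 * Ub j}
      ≤ gf (GA ∪ ((⋃ l, GB l) ∪ ((⋃ l, GC l) ∪ (GN ∪ GS)))) := gf_mono hcov
    _ ≤ gf GA + (gf (⋃ l, GB l) + (gf (⋃ l, GC l) + (gf GN + gf GS))) := by
        refine (gf_union_le _ _).trans (add_le_add le_rfl ?_)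
        refine (gf_union_le _ _).trans (add_le_add le_rfl ?_)
        refine (gf_union_le _ _).trans (add_le_add le_rfl ?_)
        exact gf_union_le _ _
    _ ≤ ENNReal.ofReal (ε / 8 * ν) + (ENNReal.ofReal (2 * (ε / 16 * ν)) + (ENNReal.ofReal (2 * (ε / 16 * ν)) +
          (ENNReal.ofReal (ε / 16 * ν) + ENNReal.ofReal (ε / 8 * ν)))) :=
        add_le_add hGA1 (add_le_add hGB1 (add_le_add hGC1 (add_le_add hGN1 hconf)))
    _ ≤ _ := by
        rw [← ENNReal.ofReal_add (by positivity) (by positivity), ← ENNReal.ofReal_add (by positivity) (by positivity),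
          ← ENNReal.ofReal_add (by positivity) (by positivity), ← ENNReal.ofReal_add (by positivity) (by positivity)]
        refine ENNReal.ofReal_le_ofReal ?_
        have h3 : 0 ≤ ε * ν := by positivity
        linarith


/-- **row T2NT** -/
theorem t2NT_of {κ : ℝ} {C : ℕ} (hκ : 0 < κ) (hR : RegZ κ C) (hT : T1T) (hE : ExCTs) (hQ : QPtBad κ C) (hA : CaseAP)
    (hCf : T2CT) : T2NT := by
  have hB : RootBT κ C := rootBT_of hκ hT hE hQ
  exact t2NT_of_one (t2NT1_of hκ hT hE hA hB (rootNT_of hR hB) hCf)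

end ART

end HexObs
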