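import Pool.Agent.ART.Tc
import Pool.Agent.ARM.TipG

/-!
ART, rows T, T' (helper73): **the tip lemma for the words with a gap at the top**, `tipT_all : TipT`, and the same with a
good local structure at BOTH ends (disjoint), `tipT2s : TipT2s`. Clones of ARM.TipF, ARM.TipG.
-/

set_option autoImplicit false

namespace HexObs

namespace ART

open Finset TS SDN NTW NTA SIM TIP ARM

open scoped ENNReal

/-- the words of FT n i from which at most t units have been removed -/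
def PT (a : ℝ) (n i t : ℕ) : Set (List Bool) :=
  {L | L ∈ SA ∧ (n : ℝ) - t * (a * ml i) ≤ L.length ∧ (L.length : ℝ) < n + (t + 1) * (a * ml i) ∧ TT L ((t + 1) * 2 ^ i)}

lemma PT_mono (a : ℝ) (ha : 1 ≤ a) (n i : ℕ) {t t' : ℕ} (h : t ≤ t') : PT a n i t ⊆ PT a n i t' := by
  rintro L ⟨h1, h2, h3, h4⟩
  have hm := ml_pos i
  have ht : (t : ℝ) ≤ t' := by exact_mod_cast h
  have hx : 0 ≤ a * ml i := by positivity
  refine ⟨h1, ?_, ?_, ?_⟩
  · have : (t : ℝ) * (a * ml i) ≤ t' * (a * ml i) := mul_le_mul_of_nonneg_right ht hx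
    linarith
  · have : ((t : ℝ) + 1) * (a * ml i) ≤ (t' + 1) * (a * ml i) := mul_le_mul_of_nonneg_right (by linarith) hx
    linarith
  · exact TT_mono (mul_le_mul_of_nonneg_right (by linarith) (by positivity)) h4

/-- the mass of the classes -/
lemma PT_mass {a D : ℝ} (ha : 1 ≤ a) (hD : 0 ≤ D) {n i : ℕ} (hH : HT D n i) (t : ℕ) :
    gf (PT a n i t) ≤ ENNReal.ofReal (8 * (8 * a) ^ 6 * D * (((t : ℝ) + 1) ^ 6 * prT n i)) := by
  have hm := ml_pos i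
  have hx : 0 ≤ a * ml i := by positivity
  have ha0 : 0 < a := by linarith
  -- the level
  have hex : ∃ s : ℕ, 4 * a * ((t : ℝ) + 1) ≤ 2 ^ s :=
    (pow_unbounded_of_one_lt (4 * a * ((t : ℝ) + 1)) (one_lt_two (α := ℝ))).imp fun s hs => hs.le
  obtain ⟨s, hs1, hs2⟩ : ∃ s : ℕ, 4 * a * ((t : ℝ) + 1) ≤ 2 ^ s ∧ (2 : ℝ) ^ s ≤ 8 * a * ((t : ℝ) + 1) := by
    classical
    refine ⟨Nat.find hex, Nat.find_spec hex, ?_⟩
    rcases Nat.eq_zero_or_pos (Nat.find hex) with h | h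
    · rw [h, pow_zero]
      have : (0 : ℝ) ≤ t := Nat.cast_nonneg t
      nlinarith
    · have h1 := Nat.find_min hex (show Nat.find hex - 1 < Nat.find hex by omega)
      rw [not_le] at h1
      have h2 : (2 : ℝ) ^ Nat.find hex = 2 * 2 ^ (Nat.find hex - 1) := by
        rw [← pow_succ']
        congr 1
        omega
      rw [h2]
      linarith
  obtain ⟨y, hy⟩ : ∃ y : ℕ, y = ⌊(t : ℝ) * (a * ml i)⌋₊ := ⟨_, rfl⟩
  have hy1 : (y : ℝ) ≤ t * (a * ml i) := by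
    rw [hy]
    exact Nat.floor_le (by positivity)
  have hms : (2 : ℝ) ^ s * ml i ≤ ml (i + s) := by
    rw [ml_add]
    refine mul_le_mul_of_nonneg_right ?_ hm.le
    rw [← Real.rpow_natCast]
    refine Real.rpow_le_rpow_of_exponent_le (by norm_num) ?_
    have : (0 : ℝ) ≤ s := Nat.cast_nonneg s
    linarith
  have ht0 : (0 : ℝ) ≤ t := Nat.cast_nonneg t
  have hbig : (2 * (t : ℝ) + 1) * (a * ml i) + t * (a * ml i) ≤ ml (i + s) := by
    refine le_trans ?_ hms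
    have h1 : 4 * a * ((t : ℝ) + 1) * ml i ≤ 2 ^ s * ml i := mul_le_mul_of_nonneg_right hs1 hm.le
    have h2 : (2 * (t : ℝ) + 1) * (a * ml i) + t * (a * ml i) = (3 * t + 1) * (a * ml i) := by ring
    rw [h2]
    nlinarith
  have hsub : PT a n i t ⊆ FT (n - y) (i + s) := by
    rintro L ⟨h1, h2, h3, h4⟩
    have hny : n - y ≤ L.length := by
      by_contra hcon
      have h5 : L.length + y + 1 ≤ n := by omega
      have h6 : (L.length : ℝ) + y + 1 ≤ n := by exact_mod_cast h5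
      have h7 : (t : ℝ) * (a * ml i) < y + 1 := by
        rw [hy]
        exact Nat.lt_floor_add_one _
      linarith
    refine ⟨h1, hny, ?_, TT_mono ?_ h4⟩
    · have h5 : (n : ℝ) ≤ ((n - y : ℕ) : ℝ) + y := by exact_mod_cast (by omega : n ≤ n - y + y)
      nlinarith
    · have h5 : ((t : ℝ) + 1) ≤ 2 ^ s := by
        refine le_trans ?_ hs1
        nlinarith
      rw [pow_add, mul_comm]
      exact mul_le_mul_of_nonneg_left h5 (by positivity)
  refine (gf_mono hsub).trans ((hH (n - y) (i + s) (by omega) (by omega)).trans (ENNReal.ofReal_le_ofReal ?_))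
  have k1 := prT_sub n y (i + s)
  have k2 := prT_up n i s
  have hp := prT_pos n i
  have hms0 := ml_pos (i + s)
  have k3 : (1 + (y : ℝ) / ml (i + s)) ^ (5 / 2 : ℝ) ≤ 8 := by
    have h1 : 1 + (y : ℝ) / ml (i + s) ≤ 2 := by
      have : (y : ℝ) / ml (i + s) ≤ 1 := by
        rw [div_le_one hms0]
        nlinarith
      linarith
    have h0 : (0 : ℝ) ≤ 1 + (y : ℝ) / ml (i + s) := by positivity
    have h4 : (1 + (y : ℝ) / ml (i + s)) ^ (5 / 2 : ℝ) ≤ (2 : ℝ) ^ (5 / 2 : ℝ) := Real.rpow_le_rpow h0 h1 (by norm_num)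
    have h5 : (2 : ℝ) ^ (5 / 2 : ℝ) ≤ (2 : ℝ) ^ (3 : ℝ) := Real.rpow_le_rpow_of_exponent_le (by norm_num) (by norm_num)
    have h6 : (2 : ℝ) ^ (3 : ℝ) = 8 := by
      rw [show (3 : ℝ) = ((3 : ℕ) : ℝ) by norm_num, Real.rpow_natCast]
      norm_num
    linarith
  have k4 : (2 : ℝ) ^ ((123 / 24 : ℝ) * (s : ℝ)) ≤ (8 * a * ((t : ℝ) + 1)) ^ 6 := by
    have h1 : (2 : ℝ) ^ ((123 / 24 : ℝ) * (s : ℝ)) ≤ (2 : ℝ) ^ ((6 : ℝ) * (s : ℝ)) := by
      refine Real.rpow_le_rpow_of_exponent_le (by norm_num) ?_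
      have : (0 : ℝ) ≤ s := Nat.cast_nonneg s
      linarith
    have h2 : (2 : ℝ) ^ ((6 : ℝ) * (s : ℝ)) = ((2 : ℝ) ^ s) ^ 6 := by
      rw [mul_comm, Real.rpow_mul (by norm_num), Real.rpow_natCast]
      rw [show (6 : ℝ) = ((6 : ℕ) : ℝ) by norm_num, Real.rpow_natCast]
    rw [h2] at h1
    exact h1.trans (pow_le_pow_left₀ (by positivity) hs2 _)
  have hpu := prT_pos n (i + s)
  calc D * prT (n - y) (i + s) ≤ D * (8 * ((8 * a * ((t : ℝ) + 1)) ^ 6 * prT n i)) := by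
        refine mul_le_mul_of_nonneg_left (k1.trans ?_) hD
        refine mul_le_mul k3 (k2.trans (mul_le_mul_of_nonneg_right k4 hp.le)) hpu.le (by norm_num)
    _ = 8 * (8 * a) ^ 6 * D * (((t : ℝ) + 1) ^ 6 * prT n i) := by ring

/-- short narrow words stay close -/
lemma shE_vx {k i : ℕ} (hk : k ≤ i) {e : List Bool} (he : ShE k e) {s : ℕ} (hs : s ≤ e.length) :
    TIW.hn (vx oo up e s) ≤ 10 * 2 ^ i := by
  have h1 := he.2.1 s hs
  have h2 : (2 : ℤ) ^ k ≤ 2 ^ i := pow_le_pow_right₀ (by norm_num) hk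
  have h3 : (1 : ℤ) ≤ 2 ^ k := one_le_pow₀ (by norm_num)
  have hf := h1 false
  have ht := h1 true
  push_cast at hf ht
  unfold row at hf ht
  have h4 : |lvl false (vx oo up e s)| ≤ 3 * 2 ^ k + 2 := by
    rw [abs_le] at hf ⊢
    constructor <;> omega
  have h5 : |lvl true (vx oo up e s)| ≤ 3 * 2 ^ k + 2 := by
    rw [abs_le] at ht ⊢
    constructor <;> omega
  have h6 : TIW.hn (vx oo up e s) ≤ (3 * 2 ^ k + 2) + (3 * 2 ^ k + 2) := by
    have e1 : ∀ p : Pt, lvl false p = ip p up := fun _ => rfl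
    have e2 : ∀ p : Pt, lvl true p = ip p (-1, 0) := fun _ => rfl
    rw [e1] at h4
    rw [e2] at h5
    clear hf ht h1
    unfold TIW.hn
    generalize vx oo up e s = q at h4 h5 ⊢
    obtain ⟨x, y⟩ := q
    simp only [ip, up, rotL, rotR] at h4 h5 ⊢
    rw [abs_le] at h4 h5
    refine max_le ?_ (max_le ?_ ?_) <;> rw [abs_le] <;> constructor <;> omega
  omega

/-- the masses of the classes PT -/
noncomputable def MPT (a D : ℝ) (n i c t : ℕ) : ℝ := 8 * (8 * a) ^ 6 * D * (((t : ℝ) + c) ^ 6 * prT n i)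

lemma MPT_grow {a D : ℝ} (ha : 0 < a) (hD : 0 ≤ D) (n i c t s : ℕ) (hc : 1 ≤ c) :
    MPT a D n i c (t + 2 ^ s) ≤ ((2 : ℝ) ^ 6) ^ (s + 1) * MPT a D n i c t := by
  have hp := prT_pos n i
  have hc' : (1 : ℝ) ≤ c := by exact_mod_cast hc
  unfold MPT
  push_cast
  have h1 : (t : ℝ) + 2 ^ s + c ≤ 2 ^ (s + 1) * (t + c) := by
    have h2 : (1 : ℝ) ≤ 2 ^ s := one_le_pow₀ (by norm_num)
    have h3 : (0 : ℝ) ≤ t := Nat.cast_nonneg t
    rw [pow_succ]
    nlinarith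
  have h2 : ((t : ℝ) + 2 ^ s + c) ^ 6 ≤ (2 ^ (s + 1) * (t + c)) ^ 6 := pow_le_pow_left₀ (by positivity) h1 _
  calc 8 * (8 * a) ^ 6 * D * (((t : ℝ) + 2 ^ s + c) ^ 6 * prT n i)
      ≤ 8 * (8 * a) ^ 6 * D * ((2 ^ (s + 1) * (t + c)) ^ 6 * prT n i) := by gcongr
    _ = ((2 : ℝ) ^ 6) ^ (s + 1) * (8 * (8 * a) ^ 6 * D * (((t : ℝ) + c) ^ 6 * prT n i)) := by
        rw [mul_pow ((2 : ℝ) ^ (s + 1)) _ 6, ← pow_mul, ← pow_mul, mul_comm (s + 1) 6]
        ring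

lemma MPT_nonneg {a D : ℝ} (ha : 0 < a) (hD : 0 ≤ D) (n i c t : ℕ) : 0 ≤ MPT a D n i c t := by
  have hp := prT_pos n i
  unfold MPT
  positivity

/-- removal of the end -/
lemma PT_pre {a : ℝ} (ha : 1 ≤ a) (hma : ∀ i : ℕ, PW.mZ (2 ^ i) ≤ a * ml i) {n i t s : ℕ} {A Z : List Bool}
    (hAZ : A ++ Z ∈ PT a n i t) (hs : Sz i (2 ^ s) Z) : A ∈ PT a n i (t + 2 ^ s) := by
  have hm := ml_pos i
  have ha0 : 0 < a := by linarith
  obtain ⟨h1, h2, h3, h4⟩ := hAZ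
  obtain ⟨g1, g2⟩ := hs
  have g3 : (Z.length : ℝ) ≤ 2 ^ s * (a * ml i) := g1.trans (mul_le_mul_of_nonneg_left (hma i) (by positivity))
  rw [List.length_append] at h2 h3
  push_cast at h2 h3 ⊢
  have hZ0 : (0 : ℝ) ≤ Z.length := Nat.cast_nonneg _
  refine ⟨?_, ?_, ?_, ?_⟩
  · have := SA_take h1 A.length
    rwa [List.take_left' rfl] at this
  · push_cast
    linarith
  · push_cast
    have : (0 : ℝ) ≤ 2 ^ s * (a * ml i) := by positivity
    linarith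
  · have h5 := TT_pre h4 g2
    have e : ((t : ℝ) + 1) * 2 ^ i + 2 ^ s * 2 ^ i = (((t + 2 ^ s : ℕ) : ℝ) + 1) * 2 ^ i := by
      push_cast
      ring
    rwa [e] at h5

/-- short narrow words added at the end -/
lemma PT_glue {a : ℝ} (ha : 1 ≤ a) (hma : ∀ i : ℕ, PW.mZ (2 ^ i) ≤ a * ml i) {n i t k : ℕ} (hk : k ≤ i) {L e : List Bool}
    (hL : L ∈ PT a n i t) (he : ShE k e) (hT : L ++ e ∈ SA) : L ++ e ∈ PT a n i (t + 20) := by
  have hm := ml_pos i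
  have hx : 0 < a * ml i := by positivity
  obtain ⟨h1, h2, h3, h4⟩ := hL
  have hel : (e.length : ℝ) ≤ a * ml i := by
    refine he.2.2.trans ?_
    obtain ⟨j, rfl⟩ := Nat.exists_eq_add_of_le hk
    exact (m_monoM k j).trans (hma _)
  have he0 : (0 : ℝ) ≤ e.length := Nat.cast_nonneg _
  refine ⟨hT, ?_, ?_, ?_⟩
  · rw [List.length_append]
    push_cast
    nlinarith
  · rw [List.length_append]
    push_cast
    nlinarith
  · have h5 : TT (L ++ e) (((t : ℝ) + 1) * 2 ^ i + 2 * (10 * 2 ^ i)) := TT_app h4 fun k' hk' => by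
      exact_mod_cast shE_vx hk he hk'
    have e1 : ((t : ℝ) + 1) * 2 ^ i + 2 * (10 * 2 ^ i) = (((t + 20 : ℕ) : ℝ) + 1) * 2 ^ i := by
      push_cast
      ring
    rwa [e1] at h5

/-- FT is the class with t = 0 -/
lemma FT_sub_PT {a : ℝ} (ha : 1 ≤ a) (n i : ℕ) : FT n i ⊆ PT a n i 0 := by
  rintro L ⟨h1, h2, h3, h4⟩
  have hm := ml_pos i
  refine ⟨h1, ?_, ?_, ?_⟩
  · have : (n : ℝ) ≤ L.length := by exact_mod_cast h2
    simpa using this
  · have : ml i ≤ a * ml i := le_mul_of_one_le_left hm.le ha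
    simp only [Nat.cast_zero, zero_add, one_mul]
    linarith
  · simpa using h4

/-- **the tip lemma in all the classes PT** -/
theorem tipPT {a : ℝ} (ha : 1 ≤ a) (hma : ∀ i : ℕ, PW.mZ (2 ^ i) ≤ a * ml i) {η : ℝ} (hη : 0 < η) : ∃ C : ℝ, 0 < C ∧
    ∀ (D : ℝ) (n i b t : ℕ), 0 ≤ D → HT D n i → b ≤ i →
      gf (PT a n i t ∩ GT b η) * Xb b ≤ ENNReal.ofReal (C * MPT a D n i 21 t) := by
  obtain ⟨C, hC, hT⟩ := tipT η ((2 : ℝ) ^ 6) hη (by norm_num)
  have ha0 : 0 < a := by linarith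
  refine ⟨C, hC, fun D n i b t hD hH hb => ?_⟩
  have hbound : ∀ t, gf (PT a n i (t + 20)) ≤ ENNReal.ofReal (MPT a D n i 21 t) := by
    intro t
    refine (PT_mass ha hD hH (t + 20)).trans (le_of_eq ?_)
    unfold MPT
    push_cast
    congr 3
    ring
  have hens : EnsT (PT a n i) (fun t => ENNReal.ofReal (MPT a D n i 21 t)) i ((2 : ℝ) ^ 6) := by
    refine ⟨fun t L hL => hL.1, fun t s A Z hAZ hZ hZh hs => PT_pre ha hma hAZ hs, fun t => ?_, fun t k hk => ?_,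
      fun t s => ?_⟩
    · exact (gf_mono (PT_mono a ha n i (by omega))).trans (hbound t)
    · refine (gf_mono ?_).trans (hbound t)
      rintro T ⟨hT1, L, hL, e, he, rfl⟩
      exact PT_glue ha hma hk hL he hT1
    · show ENNReal.ofReal _ ≤ _ * ENNReal.ofReal _
      rw [← ENNReal.ofReal_mul (by positivity)]
      exact ENNReal.ofReal_le_ofReal (MPT_grow ha0 hD n i 21 t s (by norm_num))
  have key := hT (PT a n i) _ i hens b t hb
  rwa [← ENNReal.ofReal_mul hC.le] at key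

/-- **row T** -/
theorem tipT_all : TipT := by
  intro η hη
  obtain ⟨a, ha, hma⟩ := mZ_ml
  obtain ⟨C, hC, hT⟩ := tipPT ha hma hη
  have ha0 : 0 < a := by linarith
  refine ⟨C * (8 * (8 * a) ^ 6 * 21 ^ 6), by positivity, fun D n i b hD hH hb => ?_⟩
  refine (mul_le_mul_left (gf_mono (Set.inter_subset_inter_left _ (FT_sub_PT ha n i))) _).trans
    ((hT D n i b 0 hD hH hb).trans (le_of_eq ?_))
  unfold MPT
  congr 1
  push_cast
  ring

/-! ### the start -/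

lemma PT_rv {a : ℝ} (ha : 1 ≤ a) {n i t : ℕ} {L : List Bool} (hL : L ∈ PT a n i t) (h1 : 1 ≤ L.length) :
    rv L ∈ PT a n i (t + 2) := by
  have hm : 1 ≤ ml i := by
    unfold ml
    exact Real.one_le_rpow (by norm_num) (by positivity)
  obtain ⟨g1, g2, g3, g4⟩ := hL
  have hx : 1 ≤ a * ml i := by nlinarith
  have e : (((rv L).length : ℕ) : ℝ) = (L.length : ℝ) - 1 := by
    rw [rv_length, Nat.cast_sub h1, Nat.cast_one]
  refine ⟨rv_SA g1, ?_, ?_, ?_⟩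
  · rw [e]
    push_cast
    nlinarith
  · rw [e]
    push_cast
    nlinarith
  · refine TT_mono ?_ (TT_rv h1 g4)
    have h7 : (1 : ℝ) ≤ 2 ^ i := one_le_pow₀ (by norm_num)
    push_cast
    nlinarith

/-- the transfer to the reversed walk -/
lemma PT_gf_rv {a : ℝ} (ha : 1 ≤ a) (n i t : ℕ) (X : Set (List Bool)) :
    gf {L | L ∈ PT a n i t ∧ 1 ≤ L.length ∧ rv L ∈ X} ≤ 2 * gf (PT a n i (t + 2) ∩ X) := by
  have hsub : {L | L ∈ PT a n i t ∧ 1 ≤ L.length ∧ rv L ∈ X} ⊆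
      {L | (L ∈ PT a n i t ∧ 1 ≤ L.length ∧ rv L ∈ X) ∧ (rev L).headD true = true} ∪
      {L | (L ∈ PT a n i t ∧ 1 ≤ L.length ∧ rv L ∈ X) ∧ (rev L).headD true = false} := by
    intro L hL
    cases hb : (rev L).headD true with
    | true => exact Or.inl ⟨hL, hb⟩
    | false => exact Or.inr ⟨hL, hb⟩
  have hb : ∀ b : Bool, gf {L | (L ∈ PT a n i t ∧ 1 ≤ L.length ∧ rv L ∈ X) ∧ (rev L).headD true = b} ≤
      gf (PT a n i (t + 2) ∩ X) := by
    intro b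
    have := gf_le_of_inj (P := {L | (L ∈ PT a n i t ∧ 1 ≤ L.length ∧ rv L ∈ X) ∧ (rev L).headD true = b})
      (Q := PT a n i (t + 2) ∩ X) rv (fun L hL => ⟨PT_rv ha hL.1.1 hL.1.2.1, hL.1.2.2⟩)
      (fun L hL L' hL' h => rv_inj hL.1.2.1 hL'.1.2.1 h (hL.2.trans hL'.2.symm)) 1
      (fun L hL => by rw [one_mul]; exact wE_rv hL.1.2.1)
    rwa [one_mul] at this
  calc gf {L | L ∈ PT a n i t ∧ 1 ≤ L.length ∧ rv L ∈ X} ≤ _ := gf_mono hsub
    _ ≤ _ := gf_union_le _ _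
    _ ≤ gf (PT a n i (t + 2) ∩ X) + gf (PT a n i (t + 2) ∩ X) := add_le_add (hb true) (hb false)
    _ = _ := (two_mul _).symm

/-- **the words of PT with a good start** -/
theorem startPT {a : ℝ} (ha : 1 ≤ a) (hma : ∀ i : ℕ, PW.mZ (2 ^ i) ≤ a * ml i) {η : ℝ} (hη : 0 < η) : ∃ C : ℝ, 0 < C ∧
    ∀ (D : ℝ) (n i b E t : ℕ), 0 ≤ D → HT D n i → b ≤ i → b ≠ 0 →
      gf {L | L ∈ PT a n i t ∧ ∃ V ∈ NPR.GS η E b, ∃ R, R ≠ [] ∧ L = V ++ R} * Xb b ≤
        ENNReal.ofReal (C * MPT a D n i 23 t) := by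
  obtain ⟨C, hC, h⟩ := tipPT ha hma hη
  refine ⟨2 * C, by positivity, fun D n i b E t hD hH hb hb0 => ?_⟩
  have h1 : gf {L | L ∈ PT a n i t ∧ ∃ V ∈ NPR.GS η E b, ∃ R, R ≠ [] ∧ L = V ++ R} ≤
      2 * gf (PT a n i (t + 2) ∩ GT b η) := by
    refine (gf_mono ?_).trans (PT_gf_rv ha n i t (GT b η))
    rintro L ⟨g1, V, hV, R, hR, rfl⟩
    refine ⟨g1, ?_, rv_GS hb0 hV hR⟩
    have : 0 < R.length := List.length_pos_iff.2 hR
    rw [List.length_append]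
    omega
  calc gf {L | L ∈ PT a n i t ∧ ∃ V ∈ NPR.GS η E b, ∃ R, R ≠ [] ∧ L = V ++ R} * Xb b
      ≤ 2 * gf (PT a n i (t + 2) ∩ GT b η) * Xb b := mul_le_mul_left h1 _
    _ = 2 * (gf (PT a n i (t + 2) ∩ GT b η) * Xb b) := by ring
    _ ≤ 2 * ENNReal.ofReal (C * MPT a D n i 21 (t + 2)) := mul_le_mul_right (h D n i b (t + 2) hD hH hb) _
    _ = ENNReal.ofReal (2 * C * MPT a D n i 23 t) := by
        rw [show (2 : ℝ≥0∞) = ENNReal.ofReal 2 by simp, ← ENNReal.ofReal_mul (by norm_num), ← mul_assoc]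
        congr 2
        unfold MPT
        push_cast
        ring

/-- **row T'** -/
theorem tipT2s : TipT2s := by
  intro η E hη
  obtain ⟨a, ha, hma⟩ := mZ_ml
  obtain ⟨C, hC, hT⟩ := tipU η ((2 : ℝ) ^ 6) hη (by norm_num)
  obtain ⟨C1, hC1, hst⟩ := startPT ha hma hη
  have ha0 : 0 < a := by linarith
  obtain ⟨X0, hX0, hX0'⟩ : ∃ X0 : ℝ, 0 ≤ X0 ∧ Xb 0 = ENNReal.ofReal X0 :=
    ⟨(Xb 0).toReal, ENNReal.toReal_nonneg, (ENNReal.ofReal_toReal (Xb_ne_top 0)).symm⟩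
  obtain ⟨K, hK⟩ : ∃ K : ℝ, K = C * (C1 * (8 * (8 * a) ^ 6 * 43 ^ 6)) + X0 ^ 2 := ⟨_, rfl⟩
  have hK1 : 0 < C * (C1 * (8 * (8 * a) ^ 6 * 43 ^ 6)) := by positivity
  refine ⟨K, by rw [hK]; positivity, fun D n i b hD hH hb => ?_⟩
  have hp := prT_pos n i
  by_cases hb0 : b = 0
  · subst hb0
    rw [hX0', ← ENNReal.ofReal_pow hX0]
    calc gf {L | L ∈ FT n i ∧ L ∈ TwoG η E 0} * ENNReal.ofReal (X0 ^ 2)
        ≤ ENNReal.ofReal (D * prT n i) * ENNReal.ofReal (X0 ^ 2) :=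
          mul_le_mul_left ((gf_mono fun L hL => hL.1).trans (hH n i le_rfl le_rfl)) _
      _ = ENNReal.ofReal (X0 ^ 2 * D * prT n i) := by
          rw [← ENNReal.ofReal_mul (by positivity)]
          congr 1
          ring
      _ ≤ _ := by
          refine ENNReal.ofReal_le_ofReal ?_
          gcongr
          rw [hK]
          linarith
  -- the family
  obtain ⟨P, hP⟩ : ∃ P : ℕ → ℕ → Set (List Bool), P = fun b' t => {L | L ∈ PT a n i t ∧ L ∈ SVs (NPR.GS η E b) b'} :=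
    ⟨_, rfl⟩
  obtain ⟨M, hM⟩ : ∃ M : ℕ → ℝ≥0∞, M = fun t : ℕ => ENNReal.ofReal (C1 * MPT a D n i 43 t) * (Xb b)⁻¹ := ⟨_, rfl⟩
  have hXt := Xb_ne_top b
  have hX0b : Xb b ≠ 0 := by
    intro h
    have := one_le_Xb b
    rw [h, mul_zero] at this
    simp at this
  have hbound : ∀ t, gf {L | L ∈ PT a n i (t + 20) ∧ ∃ V ∈ NPR.GS η E b, ∃ R, R ≠ [] ∧ L = V ++ R} ≤ M t := by
    intro t
    have h1 := hst D n i b E (t + 20) hD hH hb hb0
    have h2 : MPT a D n i 23 (t + 20) = MPT a D n i 43 t := by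
      unfold MPT
      push_cast
      ring
    rw [h2] at h1
    rw [hM]
    show _ ≤ _ * (Xb b)⁻¹
    calc gf {L | L ∈ PT a n i (t + 20) ∧ ∃ V ∈ NPR.GS η E b, ∃ R, R ≠ [] ∧ L = V ++ R}
        = gf {L | L ∈ PT a n i (t + 20) ∧ ∃ V ∈ NPR.GS η E b, ∃ R, R ≠ [] ∧ L = V ++ R} * Xb b * (Xb b)⁻¹ := by
          rw [mul_assoc, ENNReal.mul_inv_cancel hX0b hXt, mul_one]
      _ ≤ _ := mul_le_mul_left h1 _
  have hens : EnsU P M i ((2 : ℝ) ^ 6) := by
    rw [hP]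
    refine ⟨fun b' t L hL => hL.1.1, fun b' t s A Z hb' hAZ hZ hZh hs => ⟨PT_pre ha hma hAZ.1 hs, SVs_pre hAZ.2 hZ hZh⟩,
      fun b' t => ?_, fun b' t k hk => ?_, fun t s => ?_⟩
    · refine (gf_mono ?_).trans (hbound t)
      rintro L ⟨h1, h2⟩
      exact ⟨PT_mono a ha n i (by omega) h1, SVs_ne h2⟩
    · refine (gf_mono ?_).trans (hbound t)
      rintro T ⟨hT1, L, ⟨h1, h2⟩, e, he, rfl⟩
      obtain ⟨V, hV, R, hR, rfl⟩ := SVs_ne h2
      exact ⟨PT_glue ha hma hk h1 he hT1, V, hV, R ++ e, by simp [hR], by rw [List.append_assoc]⟩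
    · rw [hM]
      show ENNReal.ofReal _ * _ ≤ _ * (ENNReal.ofReal _ * _)
      rw [← mul_assoc, ← ENNReal.ofReal_mul (by positivity)]
      refine mul_le_mul_left (ENNReal.ofReal_le_ofReal ?_) _
      have := MPT_grow ha0 hD n i 43 t s (by norm_num)
      calc C1 * MPT a D n i 43 (t + 2 ^ s) ≤ C1 * (((2 : ℝ) ^ 6) ^ (s + 1) * MPT a D n i 43 t) :=
            mul_le_mul_of_nonneg_left this hC1.le
        _ = _ := by ring
  have key := hT P M i hens b 0 hb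
  have hsub : {L | L ∈ FT n i ∧ L ∈ TwoG η E b} ⊆ P b 0 ∩ GT b η := by
    rintro L ⟨h1, h2⟩
    obtain ⟨h3, h4⟩ := TwoG_SVs hb0 h2
    rw [hP]
    exact ⟨⟨FT_sub_PT ha n i h1, h3⟩, h4⟩
  calc gf {L | L ∈ FT n i ∧ L ∈ TwoG η E b} * Xb b ^ 2 = gf {L | L ∈ FT n i ∧ L ∈ TwoG η E b} * Xb b * Xb b := by ring
    _ ≤ gf (P b 0 ∩ GT b η) * Xb b * Xb b := mul_le_mul_left (mul_le_mul_left (gf_mono hsub) _) _
    _ ≤ ENNReal.ofReal C * M 0 * Xb b := mul_le_mul_left key _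
    _ = ENNReal.ofReal (C * (C1 * MPT a D n i 43 0)) := by
        rw [hM]
        show ENNReal.ofReal C * (ENNReal.ofReal _ * (Xb b)⁻¹) * Xb b = _
        rw [← mul_assoc, ← ENNReal.ofReal_mul hC.le, mul_assoc, ENNReal.inv_mul_cancel hX0b hXt, mul_one]
    _ ≤ _ := by
        refine ENNReal.ofReal_le_ofReal ?_
        have e : C * (C1 * MPT a D n i 43 0) = C * (C1 * (8 * (8 * a) ^ 6 * 43 ^ 6)) * D * prT n i := by
          unfold MPT
          push_cast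
          ring
        rw [e]
        gcongr
        rw [hK]
        have : 0 ≤ X0 ^ 2 := by positivity
        linarith

end ART

end HexObs
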