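import Pool.Agent.ART.CaseAT
import Pool.Agent.ART.T2NT
import Pool.Agent.ART.ExCT
import Pool.Agent.ART.TipT
import Pool.Agent.ARM.T2Fin

/-!
# ART (helper4): row D2 closed: `caseAP`, `exCTs_all`, `rootBNT_all`, **`t2NT_all : T1T → T2CT → T2NT`**
-/

set_option autoImplicit false

namespace HexObs

namespace ART

open ARM

/-- the inner bound of the case A -/
theorem caseAP : CaseAP := fun _ E m _ hη hε => caseAT smL pMJ hη E m hε

/-- row D1 -/
theorem exCTs_all : ExCTs := exCTs_of tipT2s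

/-- rows RootBT, RootNT from T1T -/
theorem rootBNT_all (hT : T1T) {κ : ℝ} {C : ℕ} (hκ : 0 < κ) (hR : TIP.RegZ κ C) : RootBT κ C ∧ RootNT κ C := by
  have hB : RootBT κ C := rootBT_of hκ hT exCTs_all (qPtBad_of smL pMJ fun η D a c1 hη => qBadM_core hR η D a c1 hη)
  exact ⟨hB, rootNT_of hR hB⟩

/-- **row T2N at the top**, from T1T and T2CT -/
theorem t2NT_all (hT : T1T) (hC : T2CT) : T2NT := by
  obtain ⟨κ, hκ, C, -, hR⟩ := TIP.regZ_all
  exact t2NT_of hκ hR hT exCTs_all (qPtBad_of smL pMJ fun η D a c1 hη => qBadM_core hR η D a c1 hη) caseAP hC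

end ART

end HexObs
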