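import Pool.Agent.ART.BadRootT
import Pool.Agent.ART.T2NF

/-!
# ART (helper4): row P4 from T1T
-/

set_option autoImplicit false

namespace HexObs

namespace ART

open ARM

/-- row P4 from T1T -/
theorem badRootT_all (hT : T1T) {κ : ℝ} {C : ℕ} (hκ : 0 < κ) (hR : TIP.RegZ κ C) : BadRootT κ C :=
  badRootT_of (rootBNT_all hT hκ hR).1 (rootBNT_all hT hκ hR).2

end ART

end HexObs
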