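import Pool.Agent.ART.LoopDefs
import Pool.Agent.ARM.T2SD

/-!
# ART, row T2ST (helper47, helper90): literals between the parts

Closed word rooted at its top with an extra strand `ESe l i` at the root: good cuts of the scale `b = l` on both sides of the
root, inside the ball of the level `r = l + s`, `s` a small multiple of `i - l`. The middle part `M` has the extra strand
(`ESw`: the reference point is moved from the root to the end of `M`), the part around the root has its top at the root.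
-/

set_option autoImplicit false

namespace HexObs

namespace ART

open Finset TS SDN SIM NTA TIP ARM

open scoped ENNReal

/-- good cuts on both sides of the root, the middle part with the extra strand -/
def RhoE (η : ℝ) (D b l i : ℕ) (Y2 M Y1 : List Bool) : Prop :=
  (M ∈ TwoG η D b ∧ M ∈ ESw l i) ∧ (∃ R, ∃ T ∈ NPR.GE η D b, Y2 = R ++ T) ∧ Y1 ∈ ARM.St η D b

/-- **row P1 (helper90)**: one word: h good cuts on both sides of the root inside the ball of the level l + s, or a long factor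
without rich window -/
def TopCr (κ : ℝ) (C : ℕ) : Prop := ∃ m00 b0 : ℕ, ∀ (n l i s h : ℕ) (η : ℝ) (L : List Bool), m00 ≤ s → b0 ≤ l → l + s + 8 ≤ i →
  1 ≤ h → η * Ub l ≤ (h : ℝ) → 4 * (h : ℝ) ≤ κ * Ub l → L ∈ C0 n → L ∈ ESe l i →
    h ^ 2 ≤ (tri (2 ^ (l + s + 3)) (RhoE η (2 * C) l (l + s + 4) i) L).ncard ∨
      ∃ N : ℕ, 2 ^ s ≤ N * 2 ^ 8 ∧ BadR κ C l N (2 ^ (l + s + 2)) L

/-- **row P2 (helper90)**: the two ends, the middle part M given: a word with two good ends through its top -/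
def PairT : Prop := ∀ (η : ℝ) (D : ℕ), 0 < η → ∃ (B : ℝ) (b0 : ℕ), 1 ≤ B ∧ ∀ (n b l i s : ℕ) (M : List Bool), b0 ≤ b →
  ∑' p : {p : List Bool × List Bool | RhoE η D b l i p.1 M p.2 ∧ In (2 ^ (b + s + 3)) p.1 ∧ In (2 ^ (b + s + 3)) p.2 ∧
      p.1 ++ (M ++ p.2) ∈ C0T n}, wE (p : List Bool × List Bool).1 * wE (p : List Bool × List Bool).2 ≤
    ENNReal.ofReal (B ^ (s + 1) * (Ub b / (4 ^ b * ml b))) * ENNReal.ofReal (ARM.wt n M.length (b + s))

/-- **row P4**: the mass of the exceptional closed words rooted at the top -/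
def BadRootT (κ : ℝ) (C : ℕ) : Prop := ∀ a c1 : ℕ, ∃ (A : ℝ) (J0 b0 : ℕ), 0 < A ∧ ∀ n b J N : ℕ, 1 ≤ n → b0 ≤ b → J0 ≤ J →
  2 ^ J ≤ N * 2 ^ c1 → gf {L | L ∈ C0T n ∧ BadR κ C b N (2 ^ (b + J)) L} ≤
    ENNReal.ofReal (A * (1 / 2) ^ (a * J) * (n : ℝ) ^ (-(5 / 2) : ℝ))

end ART

end HexObs
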