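import Pool.Agent.ART.RootNT
import Pool.Agent.ART.DefsS
import Pool.Agent.ARM.BadRoot

/-!
# ART, row P4 (helper4): closed words rooted at their top with a long factor without rich windows near the root

Clone of `ARM.badRoot_of` (helper15); the geometry `BR.cover` is used as it is.

* **`badRootT_of : RootBT κ C → RootNT κ C → BadRootT κ C`**.
-/

set_option autoImplicit false

namespace HexObs

namespace ART

open Finset TS SDN _root_.HexObs.SIM NTA TIP ARM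

open scoped ENNReal

/-- **row P4** -/
theorem badRootT_of {κ : ℝ} {C : ℕ} (hB : RootBT κ C) (hN : RootNT κ C) : BadRootT κ C := by
  intro a c1
  obtain ⟨A1, J1, b1, hA1, h1⟩ := hB (a + 1) (c1 + 6)
  obtain ⟨A2, J2, b2, hA2, h2⟩ := hN a
  refine ⟨4 * A1 + A2 * 2 ^ (a * (c1 + 2)), c1 + 3 + 8 * C + J1 + J2, b1 + b2, by positivity, fun n b J N hn hb hJ hJN => ?_⟩
  have hn0 : (0 : ℝ) < n := by exact_mod_cast hn
  obtain ⟨ν, hν⟩ : ∃ ν : ℝ, ν = (n : ℝ) ^ (-(5 / 2) : ℝ) := ⟨_, rfl⟩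
  have hν0 : 0 < ν := by rw [hν]; positivity
  have hC : 8 * C ≤ 2 ^ (J - c1 - 3) :=
    (show 8 * C ≤ J - c1 - 3 by omega).trans Nat.lt_two_pow_self.le
  have hcov : {L | L ∈ C0T n ∧ BadR κ C b N (2 ^ (b + J)) L} ⊆
      {L | L ∈ C0T n ∧ L ∈ Nz κ C b ∧ ¬ In (2 ^ (b + (J - c1 - 2))) L} ∪
      ((⋃ l, E2FT κ C b (c1 + 6) (J + 3 + l) n) ∪ ⋃ l, E1FT κ C b (c1 + 6) (J + 3 + l) n) := by
    rintro L ⟨hL, hbad⟩
    rcases BR.cover (n := n) (by omega) hC hJN (C0T_sub n hL) hbad with h | ⟨l, h⟩ | ⟨l, h⟩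
    · exact Or.inl ⟨hL, h.1, h.2⟩
    · exact Or.inr (Or.inl (Set.mem_iUnion.2 ⟨l, hL, h.2⟩))
    · exact Or.inr (Or.inr (Set.mem_iUnion.2 ⟨l, hL, h.2⟩))
  have hdec : ∀ l : ℕ, A1 * (1 / 2) ^ ((a + 1) * (J + 3 + l)) * ν ≤ A1 * (1 / 2) ^ (a * J) * ν * (1 / 2) ^ l := by
    intro l
    have e1 : (1 / 2 : ℝ) ^ ((a + 1) * (J + 3 + l)) ≤ (1 / 2) ^ (a * J) * (1 / 2) ^ l := by
      rw [← pow_add]
      refine pow_le_pow_of_le_one (by norm_num) (by norm_num) ?_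
      nlinarith [Nat.zero_le (a * (3 + l))]
    calc A1 * (1 / 2) ^ ((a + 1) * (J + 3 + l)) * ν ≤ A1 * ((1 / 2) ^ (a * J) * (1 / 2) ^ l) * ν := by gcongr
      _ = _ := by ring
  have g1 : gf (⋃ l, E2FT κ C b (c1 + 6) (J + 3 + l) n) ≤ ENNReal.ofReal (2 * (A1 * (1 / 2) ^ (a * J) * ν)) := by
    refine T2.geo_sum (by positivity) fun l => ?_
    refine ((h1 n b (J + 3 + l) hn (by omega) (by omega)).1).trans (ENNReal.ofReal_le_ofReal ?_)
    rw [← hν]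
    exact hdec l
  have g2 : gf (⋃ l, E1FT κ C b (c1 + 6) (J + 3 + l) n) ≤ ENNReal.ofReal (2 * (A1 * (1 / 2) ^ (a * J) * ν)) := by
    refine T2.geo_sum (by positivity) fun l => ?_
    refine ((h1 n b (J + 3 + l) hn (by omega) (by omega)).2).trans (ENNReal.ofReal_le_ofReal ?_)
    rw [← hν]
    exact hdec l
  have g3 : gf {L | L ∈ C0T n ∧ L ∈ Nz κ C b ∧ ¬ In (2 ^ (b + (J - c1 - 2))) L} ≤
      ENNReal.ofReal (A2 * 2 ^ (a * (c1 + 2)) * (1 / 2) ^ (a * J) * ν) := by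
    refine (h2 n b (J - c1 - 2) hn (by omega) (by omega)).trans (ENNReal.ofReal_le_ofReal (le_of_eq ?_))
    rw [← hν]
    have e1 : (1 / 2 : ℝ) ^ (a * J) = (1 / 2) ^ (a * (J - c1 - 2)) * (1 / 2) ^ (a * (c1 + 2)) := by
      rw [← pow_add, ← mul_add]
      congr 2
      omega
    have e2 : (2 : ℝ) ^ (a * (c1 + 2)) * (1 / 2) ^ (a * (c1 + 2)) = 1 := by
      rw [← mul_pow]
      norm_num
    rw [e1]
    calc A2 * (1 / 2) ^ (a * (J - c1 - 2)) * ν = A2 * (1 / 2) ^ (a * (J - c1 - 2)) * ν * 1 := (mul_one _).symm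
      _ = A2 * (1 / 2) ^ (a * (J - c1 - 2)) * ν * ((2 : ℝ) ^ (a * (c1 + 2)) * (1 / 2) ^ (a * (c1 + 2))) := by rw [e2]
      _ = _ := by ring
  rw [← hν]
  refine (gf_mono hcov).trans ((gf_union_le _ _).trans ((add_le_add g3 ((gf_union_le _ _).trans (add_le_add g1 g2))).trans ?_))
  rw [← ENNReal.ofReal_add (by positivity) (by positivity), ← ENNReal.ofReal_add (by positivity) (by positivity)]
  refine ENNReal.ofReal_le_ofReal (le_of_eq ?_)
  ring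

end ART

end HexObs
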