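import Pool.Agent.ART.NumT
import Pool.Agent.ARM.Conf
import Pool.Agent.ARM.Base

/-!
# ART, rows B1, B2 (helper94): `baseT : BaseT`, `confQ : ConfQ`
-/

set_option autoImplicit false

namespace HexObs

namespace ART

open Finset TS SDN SIM NTA TIP ARM

open scoped ENNReal

/-- **row B1** -/
theorem baseT : BaseT := by
  intro lam hlam
  obtain ⟨C, hC, h⟩ := NPR.Fast.short_mass
  obtain ⟨K, hK⟩ : ∃ K : ℝ, K = max lam 1 := ⟨_, rfl⟩
  have hK0 : 0 < K := by rw [hK]; exact lt_max_of_lt_right one_pos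
  have hK1 : 1 ≤ K := by rw [hK]; exact le_max_right _ _
  have hKl : lam ≤ K := by rw [hK]; exact le_max_left _ _
  refine ⟨C * (lam + 1) ^ (43 / 32 : ℝ) * K ^ (5 / 2 : ℝ), by positivity, fun n i hn => ?_⟩
  have hm := ml_pos i
  have hm1 := one_le_ml i
  have hw := pw_pos i
  have hsub : FT n i ⊆ {t | t ∈ SA ∧ (t.length : ℝ) ≤ (lam + 1) * ml i} := by
    intro L hL
    refine ⟨hL.1, ?_⟩
    have := hL.2.2.1
    linarith
  refine (gf_mono hsub).trans ((h ((lam + 1) * ml i) (by nlinarith)).trans (ENNReal.ofReal_le_ofReal ?_))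
  have e1 : (ml i) ^ (43 / 32 : ℝ) = pw i := by
    unfold ml pw
    rw [← Real.rpow_mul (by norm_num)]
    congr 1
    ring
  have e2 : pw i ≤ K ^ (5 / 2 : ℝ) * prT n i := by
    rw [prT_eq]
    have h1 : max (n : ℝ) (ml i) ≤ K * ml i := by
      apply max_le
      · exact hn.trans (mul_le_mul_of_nonneg_right hKl hm.le)
      · nlinarith
    have h2 : 1 ≤ K * (ml i / max (n : ℝ) (ml i)) := by
      rw [← mul_div_assoc, le_div_iff₀ (max_pos n i), one_mul]
      exact h1
    have h3 : 1 ≤ K ^ (5 / 2 : ℝ) * (ml i / max (n : ℝ) (ml i)) ^ (5 / 2 : ℝ) := by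
      rw [← Real.mul_rpow hK0.le (div_pos hm (max_pos n i)).le]
      exact Real.one_le_rpow h2 (by norm_num)
    nlinarith
  rw [Real.mul_rpow (by linarith) hm.le, e1]
  have e3 : 0 ≤ C * (lam + 1) ^ (43 / 32 : ℝ) := by positivity
  calc C * ((lam + 1) ^ (43 / 32 : ℝ) * pw i) = C * (lam + 1) ^ (43 / 32 : ℝ) * pw i := by ring
    _ ≤ C * (lam + 1) ^ (43 / 32 : ℝ) * (K ^ (5 / 2 : ℝ) * prT n i) := mul_le_mul_of_nonneg_left e2 e3
    _ = _ := by ring

/-- **row B2** -/
theorem confQ : ConfQ := by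
  intro q
  obtain ⟨C1, hC1, hT⟩ := NTA.tot_WL
  obtain ⟨C2, hC2, hI⟩ := NTA.ti_M
  obtain ⟨A, hA, hI⟩ := hI q
  obtain ⟨M0, hM0, hmu⟩ := VF.mUp VF.sharpZ
  obtain ⟨C3, hC3, hF⟩ := NPR.Fast.FK_up
  obtain ⟨M, hM⟩ : ∃ M : ℝ, M = 1 + M0 := ⟨_, rfl⟩
  have hM1 : 1 ≤ M := by rw [hM]; linarith
  have hA0 : 0 < A := by linarith
  have hC10 : 0 < C1 := by linarith
  refine ⟨(A + C1) * M ^ q * C3, by positivity, fun n i => ?_⟩
  have hml : 0 < ml i := by
    unfold ml
    positivity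
  have hmZ : PW.mZ (2 ^ i) ≤ M * ml i := by
    have h1 := hmu i
    have h2 : (2 : ℝ) ^ (4 / 3 * (i : ℝ)) = ml i := rfl
    rw [h2] at h1
    rw [hM]
    nlinarith
  have hsub : ∀ t ∈ {L : List Bool | L ∈ SA ∧ n ≤ L.length ∧ ∀ s, s ≤ L.length → dz L s ≤ 2 ^ i}, t ∈ WL i :=
    fun t ht => conf_WL ht.1 ht.2.2
  obtain ⟨x, hx⟩ : ∃ x : ℝ, x = (ml i / max (n : ℝ) (ml i)) ^ q := ⟨_, rfl⟩
  have hmax : 0 < max (n : ℝ) (ml i) := lt_max_of_lt_right hml
  have hx0 : 0 < x := by rw [hx]; positivity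
  have key : gf {L : List Bool | L ∈ SA ∧ n ≤ L.length ∧ ∀ s, s ≤ L.length → dz L s ≤ 2 ^ i} ≤
      ENNReal.ofReal ((A + C1) * M ^ q * x) * (ENNReal.ofReal (Ub i) * Xb i ^ 2) := by
    rcases le_or_gt (M * ml i) (n : ℝ) with h1 | h1
    · -- long
      have hn0 : (0 : ℝ) < n := lt_of_lt_of_le (by positivity) h1
      have hnm : ml i ≤ n := le_trans (by nlinarith) h1
      obtain ⟨lam, hlam⟩ : ∃ lam : ℝ, lam = n / (M * ml i) := ⟨_, rfl⟩
      have hl1 : 1 ≤ lam := by
        rw [hlam, le_div_iff₀ (by positivity)]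
        linarith
      have h2 := hI i i lam le_rfl hl1
      refine (gf_mono fun t ht => ?_).trans (h2.trans (mul_le_mul' (ENNReal.ofReal_le_ofReal ?_) le_rfl))
      · refine ⟨hsub t ht, 0, t.length, bx_all (hsub t ht), ?_⟩
        rw [Nat.cast_zero, sub_zero]
        have h3 : (n : ℝ) ≤ t.length := by exact_mod_cast ht.2.1
        refine le_trans ?_ h3
        calc lam * PW.mZ (2 ^ i) ≤ lam * (M * ml i) := mul_le_mul_of_nonneg_left hmZ (by linarith)
          _ = n := by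
            rw [hlam]
            field_simp
      · rw [Nat.sub_self, pow_zero, mul_one, hx, max_eq_left hnm, hlam]
        have e : A / ((n : ℝ) / (M * ml i)) ^ q = A * M ^ q * (ml i / n) ^ q := by
          have e0 : (n : ℝ) / (M * ml i) * (M * (ml i / n)) = 1 := by field_simp
          rw [div_eq_iff (by positivity), mul_assoc, mul_assoc, ← mul_pow, ← mul_pow]
          have e3 : M * (ml i / n * (n / (M * ml i))) = 1 := by
            rw [← e0]
            ring
          rw [e3, one_pow, mul_one]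
        rw [e]
        have : 0 ≤ C1 * M ^ q * (ml i / n) ^ q := by positivity
        nlinarith
    · -- the rest
      refine (gf_mono fun t ht => hsub t ht).trans ((hT i).trans (mul_le_mul' (ENNReal.ofReal_le_ofReal ?_) le_rfl))
      have h2 : 1 ≤ M * (ml i / max (n : ℝ) (ml i)) := by
        rw [← mul_div_assoc, le_div_iff₀ hmax, one_mul]
        refine max_le h1.le ?_
        nlinarith
      have h3 : 1 ≤ M ^ q * x := by
        rw [hx, ← mul_pow]
        exact one_le_pow₀ h2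
      have h4 : 0 ≤ A * (M ^ q * x) := by positivity
      nlinarith
  refine key.trans ((mul_le_mul' le_rfl (hF i)).trans (le_of_eq ?_))
  rw [← ENNReal.ofReal_mul (by positivity), ← hx]
  congr 1
  ring

end ART

end HexObs
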