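import Pool.Agent.ART.ExCT
import Pool.Agent.ARM.GoodCc

/-!
# ART (helper37): **(T2) at the top**, the final assembly (clone of `ARM.badCc`)

`t2T_of`: the rows T2NT, T2ST (with any exponent θ > 0), T2QcT, T2CT: for every ε the closed words rooted at their top are in
GFcT up to the mass ε n ^ (-5/2); the order of the constants is η κ a m, then k c0 (arbitrary, from JoinT), then c, u, e.
-/

set_option autoImplicit false

namespace HexObs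

namespace ART

open Finset TS SDN HexObs.SIM NTA TIP ARM

open scoped ENNReal

/-- **(T2) at the top** -/
def T2T : Prop := ∀ ε : ℝ, 0 < ε → ∃ (η κ : ℝ) (a m : ℕ), 0 < η ∧ 0 < κ ∧
    ∀ k c0 : ℕ, ∃ c1 : ℕ, c0 ≤ c1 ∧ ∀ c : ℕ, c1 ≤ c → ∃ u1 : ℕ, c ≤ u1 ∧ ∀ u : ℕ, u1 ≤ u → ∃ e b0 : ℕ, k ≤ e ∧ e ≤ b0 ∧
      ∀ n j : ℕ, b0 ≤ j → 2 ^ b0 * ml j ≤ n → gf {L | L ∈ C0T n ∧ L ∉ GFcT n j η κ a m c u e k} ≤
        ENNReal.ofReal (ε * (n : ℝ) ^ (-(5 / 2) : ℝ))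

/-- **row T2ST with an exponent** (the same as `T2STh` of ART/TopDefs) -/
def T2SX : Prop := ∃ (C θ : ℝ) (b0 : ℕ), 0 < C ∧ 0 < θ ∧ ∀ n l i : ℕ, b0 ≤ l → l ≤ i → 1 ≤ n →
  gf {L | L ∈ C0T n ∧ (L ∈ ESe l i ∨ rv L ∈ ESe l i)} ≤
    ENNReal.ofReal (C * (2 : ℝ) ^ (-θ * ((i : ℝ) - l)) * (n : ℝ) ^ (-(5 / 2) : ℝ))

/-! ### the sum of the extra strands -/

private lemma rr_lt {θ : ℝ} (hθ : 0 < θ) : (2 : ℝ) ^ (-θ) < 1 :=
  Real.rpow_lt_one_of_one_lt_of_neg (by norm_num) (by linarith)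

private lemma geoX {C N θ : ℝ} (hθ : 0 < θ) (hC : 0 ≤ C) (hN : 0 ≤ N) (t : ℕ) :
    ∑' s : ℕ, ENNReal.ofReal (C * (2 : ℝ) ^ (-θ * ((t : ℝ) + s)) * N) =
      ENNReal.ofReal (C * ((2 : ℝ) ^ (-θ)) ^ t / (1 - (2 : ℝ) ^ (-θ)) * N) := by
  obtain ⟨r, hr⟩ : ∃ r : ℝ, r = (2 : ℝ) ^ (-θ) := ⟨_, rfl⟩
  have h0 : 0 < r := by rw [hr]; positivity
  have h1 : r < 1 := by rw [hr]; exact rr_lt hθ
  rw [← hr]
  have e : ∀ s : ℕ, C * (2 : ℝ) ^ (-θ * ((t : ℝ) + s)) * N = C * r ^ t * N * r ^ s := by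
    intro s
    have h2 : (2 : ℝ) ^ (-θ * ((t : ℝ) + s)) = r ^ t * r ^ s := by
      rw [← pow_add, hr, ← Real.rpow_natCast, ← Real.rpow_mul (by norm_num)]
      push_cast
      rfl
    rw [h2]
    ring
  simp only [e]
  have hs : HasSum (fun s : ℕ => C * r ^ t * N * r ^ s) (C * r ^ t * N * (1 - r)⁻¹) :=
    (hasSum_geometric_of_lt_one h0.le h1).mul_left _
  rw [← ENNReal.ofReal_tsum_of_nonneg (fun s => by positivity) hs.summable, hs.tsum_eq]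
  congr 1
  ring

private lemma es_leX {C θ : ℝ} {n l i0 : ℕ} (hC : 0 < C) (hθ : 0 < θ) (h : ∀ i : ℕ, l ≤ i →
    gf {L | L ∈ C0T n ∧ (L ∈ ESe l i ∨ rv L ∈ ESe l i)} ≤
      ENNReal.ofReal (C * (2 : ℝ) ^ (-θ * ((i : ℝ) - l)) * (n : ℝ) ^ (-(5 / 2) : ℝ))) {t : ℕ} (ht : l + t ≤ i0) :
    gf {L | L ∈ C0T n ∧ ∃ i, i0 ≤ i ∧ (L ∈ ESe l i ∨ rv L ∈ ESe l i)} ≤
      ENNReal.ofReal (C * ((2 : ℝ) ^ (-θ)) ^ t / (1 - (2 : ℝ) ^ (-θ)) * (n : ℝ) ^ (-(5 / 2) : ℝ)) := by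
  have hsub : {L | L ∈ C0T n ∧ ∃ i, i0 ≤ i ∧ (L ∈ ESe l i ∨ rv L ∈ ESe l i)} ⊆
      ⋃ s : ℕ, {L | L ∈ C0T n ∧ (L ∈ ESe l (l + t + s) ∨ rv L ∈ ESe l (l + t + s))} := by
    rintro L ⟨h1, i, hi, h2⟩
    have e : l + t + (i - (l + t)) = i := by omega
    refine Set.mem_iUnion.2 ⟨i - (l + t), h1, ?_⟩
    rw [e]
    exact h2
  refine (gf_mono hsub).trans ((ENNReal.tsum_iUnion_le_tsum wE _).trans ?_)
  rw [← geoX hθ hC.le (by positivity) t]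
  refine ENNReal.tsum_le_tsum fun s => (h _ (by omega)).trans (le_of_eq ?_)
  congr 4
  push_cast
  ring

private lemma exists_tX {C ε θ : ℝ} (hθ : 0 < θ) (hε : 0 < ε) :
    ∃ t0 : ℕ, ∀ t ≥ t0, C * ((2 : ℝ) ^ (-θ)) ^ t / (1 - (2 : ℝ) ^ (-θ)) ≤ ε := by
  have h0 : (0 : ℝ) < (2 : ℝ) ^ (-θ) := by positivity
  have h1 := rr_lt hθ
  have h2 : Filter.Tendsto (fun t : ℕ => C * ((2 : ℝ) ^ (-θ)) ^ t / (1 - (2 : ℝ) ^ (-θ))) Filter.atTop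
      (nhds (C * 0 / (1 - (2 : ℝ) ^ (-θ)))) :=
    ((tendsto_pow_atTop_nhds_zero_of_lt_one h0.le h1).const_mul C).div_const _
  rw [mul_zero, zero_div] at h2
  obtain ⟨t0, h3⟩ := Filter.eventually_atTop.1 (h2.eventually_le_const hε)
  exact ⟨t0, h3⟩

/-! ### the class -/

/-- a closed word rooted at its top is in FT n j -/
lemma C0T_FT {n j : ℕ} {L : List Bool} (hj : 1 ≤ j) (hL : L ∈ C0T n) : L ∈ FT n j := by
  obtain ⟨b, hb⟩ := hL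
  obtain ⟨p1, p2, p3⟩ := C0_mem (show L ∈ C0 n from ⟨b, hb.1⟩)
  obtain ⟨d, hd, htop⟩ := C0T_top ⟨b, hb⟩
  have hml : 0 < ml j := by unfold ml; positivity
  have h2 : (2 : ℤ) ≤ 2 ^ j := by
    calc (2 : ℤ) = 2 ^ 1 := by norm_num
      _ ≤ 2 ^ j := pow_le_pow_right₀ (by norm_num) hj
  refine ⟨p1, p2.ge, by rw [p2]; linarith, ?_, d, hd, fun s hs => ⟨?_, ?_⟩⟩
  · have h3 : TIW.hn (TIW.en L) ≤ 2 ^ j := p3.trans h2
    exact_mod_cast h3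
  · have h3 : ip (vx oo up L s) d ≤ 2 ^ j := (htop s hs).trans (by positivity)
    exact_mod_cast h3
  · have h4 := TIW.neg_hn_le_ip (TIW.en L) hd
    have h3 : ip (vx oo up L s - TIW.en L) d ≤ 2 ^ j := by
      rw [ip_sub_left]
      have := htop s hs
      linarith
    exact_mod_cast h3

/-- **(T2) at the top** -/
theorem t2T_of (hN : T2NT) (hS : T2SX) (hQ : T2QcT) (hC : T2CT) : T2T := by
  intro ε hε
  obtain ⟨δ, hδ⟩ : ∃ δ : ℝ, δ = ε / 5 := ⟨_, rfl⟩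
  have hδ0 : 0 < δ := by rw [hδ]; positivity
  obtain ⟨η, κ, a, m, b1, hη, hκ, -, g1⟩ := hN δ hδ0
  obtain ⟨C, θ, b2, hC0, hθ, g2⟩ := hS
  obtain ⟨t0, ht0⟩ := exists_tX (C := C) hθ hδ0
  refine ⟨η, κ, a, m, hη, hκ, fun k c0 => ⟨max c0 (m + 5 + t0), le_max_left _ _, fun c hc => ⟨c + t0, by omega,
    fun u hu => ?_⟩⟩⟩
  have hc2 : m + 5 + t0 ≤ c := (le_max_right _ _).trans hc
  obtain ⟨e, b3, he, hb3, g3⟩ := hQ u c k δ (by omega) hδ0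
  obtain ⟨b4, g4⟩ := hC u δ hδ0
  refine ⟨e, max (max b1 b2) (max b3 (max b4 1)), he, by omega, fun n j hj hn => ?_⟩
  have hml : 0 < ml j := by unfold ml; positivity
  have hle : ∀ b : ℕ, b ≤ max (max b1 b2) (max b3 (max b4 1)) → (2 : ℝ) ^ b * ml j ≤ n := fun b hb =>
    (mul_le_mul_of_nonneg_right (pow_le_pow_right₀ (by norm_num) hb) hml.le).trans hn
  have hn1 : 1 ≤ n := by
    have h1 := hle 1 (by omega)
    have h2 : (1 : ℝ) ≤ ml j := by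
      unfold ml
      exact Real.one_le_rpow (by norm_num) (by positivity)
    have h3 : (1 : ℝ) ≤ n := by nlinarith
    exact_mod_cast h3
  have f1 := g1 n j (by omega) (hle b1 (by omega))
  have f2 := es_leX (n := n) (l := j + m + 4) (i0 := j + c - 1) (t := t0) hC0 hθ
    (fun i hi => g2 n (j + m + 4) i (by omega) hi hn1) (by omega)
  have f3 := es_leX (n := n) (l := j + c) (i0 := j + u) (t := t0) hC0 hθ
    (fun i hi => g2 n (j + c) i (by omega) hi hn1) (by omega)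
  have f4 := g3 n j (by omega) (hle b3 (by omega))
  have f5 := g4 n j (by omega) (hle b4 (by omega))
  have hN0 : 0 ≤ (n : ℝ) ^ (-(5 / 2) : ℝ) := by positivity
  have ht := mul_le_mul_of_nonneg_right (ht0 t0 le_rfl) hN0
  have f2' := f2.trans (ENNReal.ofReal_le_ofReal ht)
  have f3' := f3.trans (ENNReal.ofReal_le_ofReal ht)
  have hsub : {L | L ∈ C0T n ∧ L ∉ GFcT n j η κ a m c u e k} ⊆
      {L | L ∈ C0T n ∧ (gc j a m η L < κ * Ub j ∨ gc j a m η (rv L) < κ * Ub j)} ∪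
      ({L | L ∈ C0T n ∧ ∃ i, j + c - 1 ≤ i ∧ (L ∈ ESe (j + m + 4) i ∨ rv L ∈ ESe (j + m + 4) i)} ∪
      ({L | L ∈ C0T n ∧ ∃ i, j + u ≤ i ∧ (L ∈ ESe (j + c) i ∨ rv L ∈ ESe (j + c) i)} ∪
      ({L | L ∈ C0T n ∧ L ∈ NTc (j + c) (j + u) (2 ^ (j - e)) (2 ^ (j - k))} ∪
      {L | L ∈ C0T n ∧ ∀ s, s ≤ L.length → dz L s ≤ 2 ^ (j + u)}))) := by
    rintro L ⟨hL, hG⟩
    by_contra hno
    simp only [Set.mem_union, Set.mem_ofPred_eq, not_or, not_and, not_exists, not_lt, not_forall, not_le] at hno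
    obtain ⟨q1, q2, q3, q4, q5⟩ := hno
    refine hG ⟨C0T_FT (by omega) hL, ?_, q4 hL, ?_⟩
    · obtain ⟨s, hs1, hs2⟩ := q5 hL
      exact ⟨s, hs1, hs2⟩
    · rintro T (rfl | rfl)
      · exact ⟨(q1 hL).1, fun i hi => (q2 hL i (by omega)).1, fun i hi => (q3 hL i hi).1⟩
      · exact ⟨(q1 hL).2, fun i hi => (q2 hL i (by omega)).2, fun i hi => (q3 hL i hi).2⟩
  refine (gf_mono hsub).trans ?_
  refine (gf_union_le _ _).trans ((add_le_add f1 ((gf_union_le _ _).trans (add_le_add f2' ((gf_union_le _ _).trans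
    (add_le_add f3' ((gf_union_le _ _).trans (add_le_add f4 f5))))))).trans (le_of_eq ?_))
  rw [← ENNReal.ofReal_add (by positivity) (by positivity), ← ENNReal.ofReal_add (by positivity) (by positivity),
    ← ENNReal.ofReal_add (by positivity) (by positivity), ← ENNReal.ofReal_add (by positivity) (by positivity)]
  congr 1
  rw [hδ]
  ring

end ART

end HexObs
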