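import Pool.Agent.ART.Len
import Pool.Agent.ART.GoodCT
import Pool.Agent.ROT.A6W
import Pool.Agent.ARM.Rv

/-!
# ART / ROT, row CAP at word level (helper91): the cap of a shallow double cut row is not macroscopic

* `es_of_loop` : near - far - near - far: an extra strand of some level, of the word or of the reversed word;
* `cap_es` : a closed word rooted at its top with a shallow double cut row and a wide cap has an extra strand;
* **`capW_of : T2SX → CapW`**, **`capD_of : T2SX → CapD`** (the same in terms of `cdW` of helper22).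
-/

set_option autoImplicit false

namespace HexObs

namespace ART

open Finset TS SDN HexObs.SIM NTA TIP ARM

open scoped ENNReal

/-! ### 1. Extra strands -/

lemma lev_ex {M : ℤ} {i0 : ℕ} (h : 2 ^ (i0 + 2) < M) : ∃ i, i0 ≤ i ∧ 2 ^ (i + 1) < M ∧ M ≤ 2 ^ (i + 2) := by
  classical
  have hex : ∃ k : ℕ, M ≤ 2 ^ k := by
    refine ⟨M.toNat, ?_⟩
    have h1 : M.toNat < 2 ^ M.toNat := Nat.lt_two_pow_self
    have h2 : M ≤ (M.toNat : ℤ) := Int.self_le_toNat M
    have h3 : ((M.toNat : ℕ) : ℤ) < 2 ^ M.toNat := by exact_mod_cast h1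
    linarith
  obtain ⟨k, hk⟩ : ∃ k, k = Nat.find hex := ⟨_, rfl⟩
  have h1 : M ≤ 2 ^ k := by rw [hk]; exact Nat.find_spec hex
  have h2 : i0 + 2 < k := by
    by_contra h0
    have h3 : (2 : ℤ) ^ k ≤ 2 ^ (i0 + 2) := pow_le_pow_right₀ (by norm_num) (by omega)
    linarith
  have h3 : ¬ M ≤ 2 ^ (k - 1) := by
    rw [hk]
    exact Nat.find_min hex (by omega)
  refine ⟨k - 2, by omega, ?_, ?_⟩
  · rw [show k - 2 + 1 = k - 1 by omega]
    exact not_le.1 h3
  · rw [show k - 2 + 2 = k by omega]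
    exact h1

/-- the distances from the end of a closed word -/
lemma dz_near {L : List Bool} (hcl : TIW.hn (TIW.en L) ≤ 2) (s : ℕ) :
    TIW.hn (vx oo up L s) - 2 ≤ dz L s ∧ dz L s ≤ TIW.hn (vx oo up L s) + 2 := by
  unfold dz
  have h1 := TIW.hn_sub (vx oo up L s) (TIW.en L)
  have h2 := TIW.hn_add (vx oo up L s - TIW.en L) (TIW.en L)
  rw [sub_add_cancel] at h2
  constructor <;> linarith

/-- the distances from the end of the reversed word -/
lemma dz_rv_near {L : List Bool} (hL : 1 ≤ L.length) {k : ℕ} (hk : k ≤ L.length) :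
    TIW.hn (vx oo up L (L.length - k)) - 2 ≤ dz (rv L) k ∧ dz (rv L) k ≤ TIW.hn (vx oo up L (L.length - k)) + 2 := by
  obtain ⟨c, hc, hf⟩ := rv_vx L
  have h1 := hf (L.length - 1) (by omega)
  rw [show L.length - (L.length - 1) = 1 by omega] at h1
  have e : TIW.en (rv L) = vx oo up (rv L) (L.length - 1) := by
    unfold TIW.en
    rw [rv_length]
  have h2 := hf k hk
  have h3 : mulE c (vx oo up (rv L) k - TIW.en (rv L)) = vx oo up L (L.length - k) - vx oo up L 1 := by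
    rw [mulE_sub, e, h1, h2]
    abel
  have h4 : dz (rv L) k = TIW.hn (vx oo up L (L.length - k) - vx oo up L 1) := by
    unfold dz
    rw [← h3, hn_mulE' hc]
  rw [h4]
  have h5 := hn_vx_one L
  have h6 := TIW.hn_sub (vx oo up L (L.length - k)) (vx oo up L 1)
  have h7 := TIW.hn_add (vx oo up L (L.length - k) - vx oo up L 1) (vx oo up L 1)
  rw [sub_add_cancel] at h7
  constructor <;> linarith

/-- the maximum on an interval -/
lemma max_ex (f : ℕ → ℤ) {a b : ℕ} (h : a ≤ b) : ∃ s, a ≤ s ∧ s ≤ b ∧ ∀ t, a ≤ t → t ≤ b → f t ≤ f s := by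
  obtain ⟨s, hs, hm⟩ := (Icc a b).exists_max_image f ⟨a, mem_Icc.2 ⟨le_rfl, h⟩⟩
  rw [mem_Icc] at hs
  exact ⟨s, hs.1, hs.2, fun t h1 h2 => hm t (mem_Icc.2 ⟨h1, h2⟩)⟩

/-- **near - far - near - far** -/
theorem es_of_loop {L : List Bool} {l i0 q f1 f2 : ℕ} (hcl : TIW.hn (TIW.en L) ≤ 2) (h1 : f1 < q) (h2 : q < f2)
    (h3 : f2 ≤ L.length) (hl : 2 ≤ l) (hli : l ≤ i0) (hq : TIW.hn (vx oo up L q) ≤ 2 ^ l)
    (hf1 : 2 ^ (i0 + 2) + 8 ≤ TIW.hn (vx oo up L f1)) (hf2 : 2 ^ (i0 + 2) + 8 ≤ TIW.hn (vx oo up L f2)) :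
    ∃ i, i0 ≤ i ∧ (L ∈ ESe l i ∨ rv L ∈ ESe l i) := by
  have e2 : (4 : ℤ) ≤ 2 ^ l := by
    calc (4 : ℤ) = 2 ^ 2 := by norm_num
      _ ≤ 2 ^ l := pow_le_pow_right₀ (by norm_num) hl
  have eli : (2 : ℤ) ^ l ≤ 2 ^ i0 := pow_le_pow_right₀ (by norm_num) hli
  have e4 : (2 : ℤ) ^ (i0 + 2) = 4 * 2 ^ i0 := by ring
  have el1 : (2 : ℤ) ^ (l + 1) = 2 * 2 ^ l := by ring
  obtain ⟨s1, a1, a2, a3⟩ := max_ex (dz L) (show q ≤ L.length by omega)
  obtain ⟨s0, b1, b2, b3⟩ := max_ex (dz L) (Nat.zero_le q)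
  have hM1 : 2 ^ (i0 + 2) + 6 ≤ dz L s1 := by
    have := a3 f2 (by omega) h3
    have := (dz_near hcl f2).1
    linarith
  have hM0 : 2 ^ (i0 + 2) + 6 ≤ dz L s0 := by
    have := b3 f1 (by omega) (by omega)
    have := (dz_near hcl f1).1
    linarith
  have hdq : dz L q ≤ 2 ^ l + 2 := by
    have := (dz_near hcl q).2
    linarith
  have hs1 : q < s1 := by
    rcases a1.lt_or_eq with h | h
    · exact h
    · rw [← h] at hM1
      linarith
  have hs0 : s0 < q := by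
    rcases b2.lt_or_eq with h | h
    · exact h
    · rw [h] at hM0
      linarith
  rcases le_or_gt (dz L s1) (2 * dz L s0) with hA | hB
  · -- the end part is not larger
    obtain ⟨i, i1, i2, i3⟩ := lev_ex (M := dz L s1) (i0 := i0) (by linarith)
    have ei : (2 : ℤ) ^ (i + 1) = 2 * 2 ^ i := by ring
    have ei0 : (0 : ℤ) < 2 ^ i := by positivity
    refine ⟨i, i1, Or.inl ⟨s0, q, s1, hs0, hs1, a2, by linarith, by linarith, by linarith, fun s c1 c2 => ?_⟩⟩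
    exact (a3 s c1 c2).trans i3
  · -- the start part is smaller
    have hlen : 1 ≤ L.length := by omega
    have hVl : (rv L).length = L.length - 1 := rv_length L
    have hf10 : 1 ≤ f1 := by
      by_contra h0
      have h00 : f1 = 0 := by omega
      rw [h00] at hf1
      have h01 : TIW.hn (vx oo up L 0) = 0 := by
        show TIW.hn (0 : Pt) = 0
        decide
      rw [h01] at hf1
      linarith [show (0 : ℤ) < 2 ^ (i0 + 2) by positivity]
    obtain ⟨k0, c1, c2, c3⟩ := max_ex (dz (rv L)) (show L.length - q ≤ (rv L).length by omega)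
    have hK0 : 2 ^ (i0 + 2) + 6 ≤ dz (rv L) k0 := by
      have e1 := c3 (L.length - f1) (by omega) (by omega)
      have e2 := (dz_rv_near hlen (k := L.length - f1) (by omega)).1
      rw [show L.length - (L.length - f1) = f1 by omega] at e2
      linarith
    have hK1 : dz (rv L) k0 ≤ dz L s0 + 4 := by
      have e1 := (dz_rv_near hlen (k := k0) (by omega)).2
      have e2 := (dz_near hcl (L.length - k0)).1
      have e3 := b3 (L.length - k0) (by omega) (by omega)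
      linarith
    have hdq' : dz (rv L) (L.length - q) ≤ 2 ^ l + 2 := by
      have e1 := (dz_rv_near hlen (k := L.length - q) (by omega)).2
      rw [show L.length - (L.length - q) = q by omega] at e1
      linarith
    have hk0 : L.length - q < k0 := by
      rcases c1.lt_or_eq with h | h
      · exact h
      · rw [← h] at hK0
        linarith
    have hT : dz L s1 - 4 ≤ dz (rv L) (L.length - s1) := by
      have e1 := (dz_rv_near hlen (k := L.length - s1) (by omega)).1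
      rw [show L.length - (L.length - s1) = s1 by omega] at e1
      have e2 := (dz_near hcl s1).2
      linarith
    obtain ⟨i, i1, i2, i3⟩ := lev_ex (M := dz (rv L) k0) (i0 := i0) (by linarith)
    have ei : (2 : ℤ) ^ (i + 1) = 2 * 2 ^ i := by ring
    have ei0 : (0 : ℤ) < 2 ^ i := by positivity
    refine ⟨i, i1, Or.inr ⟨L.length - s1, L.length - q, k0, by omega, hk0, c2, by linarith, by linarith, by linarith,
      fun s d1 d2 => ?_⟩⟩
    exact (c3 s d1 d2).trans i3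

/-! ### 2. Caps -/

/-- **a shallow double cut row with a wide cap is an extra strand** -/
theorem cap_es {d : Pt} (hd : d ∈ dirs) {w R O S : List Bool} {z : Pt × Pt} (hw : w = R ++ (O ++ S)) (hC : Cap d z R S)
    (hO : Out d z O) {l i0 : ℕ} (hl : 2 ≤ l) (hli : l ≤ i0) (hz1 : TIW.hn z.1 ≤ 2 ^ l) (hz2 : TIW.hn z.2 ≤ 2 ^ l)
    (hbot : ∃ s, s ≤ w.length ∧ 2 ^ (i0 + 2) + 8 ≤ -(ip (vx oo up w s) d))
    (hcap : ∃ i, (i ≤ R.length ∨ R.length + O.length < i) ∧ i ≤ w.length ∧ 2 ^ (i0 + 2) + 8 ≤ TIW.hn (vx oo up w i))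
    {L : List Bool} {b : Bool} (hL : w = L ++ [b]) : ∃ i, i0 ≤ i ∧ (L ∈ ESe l i ∨ rv L ∈ ESe l i) := by
  have hwt := cap_out hd hC hO
  rw [← hw] at hwt
  obtain ⟨e1, e2, e3, e4⟩ := dec_vx (S := S) hC.enR hC.hdR hO.en hO.hd
  rw [← hw] at e1 e2 e3 e4
  have hSp := hC.posS hd
  have hOp := hO.pos hd
  have hlen : w.length = R.length + O.length + S.length := by
    rw [hw, List.length_append, List.length_append, Nat.add_assoc]
  have hLl : w.length = L.length + 1 := by rw [hL, List.length_append, List.length_singleton]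
  have hLv : ∀ s, s ≤ L.length → vx oo up w s = vx oo up L s := fun s hs => by rw [hL, vx_append (by omega)]
  have hcl : vx oo up w w.length = oo := hwt.1.2.1
  have h0 : TIW.hn (oo : Pt) = 0 := by decide
  have hp2 : (0 : ℤ) < 2 ^ (i0 + 2) := by positivity
  have eli : (2 : ℤ) ^ l ≤ 2 ^ (i0 + 2) := pow_le_pow_right₀ (by norm_num) (by omega)
  -- the end of L
  have hen : TIW.hn (TIW.en L) ≤ 2 := by
    have h1 : vx oo up w (L.length + 1) = vx oo up w L.length + dx up w L.length := rfl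
    rw [← hLl, hcl, hLv _ le_rfl] at h1
    have h2 : TIW.en L = -(dx up w L.length) := by
      have : vx oo up L L.length = -(dx up w L.length) := by
        have h3 : (0 : Pt) = vx oo up L L.length + dx up w L.length := h1
        exact eq_neg_of_add_eq_zero_left h3.symm
      exact this
    rw [h2, TIW.hn_neg]
    have h3 := dx_mem (show up ∈ dirs by decide) w L.length
    have h4 : ∀ g ∈ dirs, TIW.hn g ≤ 2 := by decide
    exact h4 _ h3
  -- the depth of the row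
  have hz0 : -(2 ^ l) ≤ ip z.1 d := by
    have := TIW.neg_hn_le_ip z.1 hd
    linarith
  -- the deep vertex
  obtain ⟨s, hs, hdeep⟩ := hbot
  have hsO : R.length < s ∧ s ≤ R.length + O.length := by
    constructor
    · by_contra h
      have h1 := hC.loR s (by omega)
      rw [← e1 s (by omega)] at h1
      linarith
    · by_contra h
      have h1 := hC.loS (s - (R.length + O.length)) (by omega) (by omega)
      have h2 := e3 (s - (R.length + O.length))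
      rw [show R.length + O.length + (s - (R.length + O.length)) = s by omega] at h2
      rw [← h2] at h1
      linarith
  have hsd : 2 ^ (i0 + 2) + 8 ≤ TIW.hn (vx oo up L s) := by
    rw [← hLv s (by omega)]
    have := TIW.neg_hn_le_ip (vx oo up w s) hd
    linarith
  obtain ⟨i, hi, hiw, hfar⟩ := hcap
  have hiL : i ≤ L.length := by
    by_contra h
    have h1 : i = w.length := by omega
    rw [h1, hcl, h0] at hfar
    linarith
  rw [hLv i hiL] at hfar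
  rcases hi with hi | hi
  · -- the first arm
    have hq : vx oo up L R.length = z.1 := by
      rw [← hLv _ (by omega), e1 _ le_rfl, hC.enR]
    refine es_of_loop (q := R.length) (f1 := i) (f2 := s) hen ?_ hsO.1 (by omega) hl hli (by rw [hq]; exact hz1) hfar hsd
    rcases hi.lt_or_eq with h | h
    · exact h
    · rw [h, hq] at hfar
      linarith
  · -- the second arm
    have hq : vx oo up w (R.length + O.length + 1) = z.2 := by
      rw [e3 1, vx_one', sub_add_cancel]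
    have hi1 : R.length + O.length + 1 < i := by
      rcases (Nat.succ_le_of_lt hi).lt_or_eq with h | h
      · exact h
      · rw [← hLv i hiL, ← h] at hfar
        have h1 : vx oo up w (R.length + O.length).succ = z.2 := hq
        rw [h1] at hfar
        linarith
    refine es_of_loop (q := R.length + O.length + 1) (f1 := s) (f2 := i) hen (by omega) hi1 hiL hl hli ?_ hsd hfar
    rw [← hLv _ (by omega), hq]
    exact hz2

/-! ### 3. Sums over the lengths and the levels -/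

/-- the sum over the long words -/
lemma sum_tail {N : ℕ} (hN : 1 ≤ N) {δ : ℝ} (hδ : 0 ≤ δ) :
    ∑' k : ℕ, ENNReal.ofReal (δ * ((N + k : ℕ) : ℝ) ^ (-(5 / 2) : ℝ)) ≤
      ENNReal.ofReal (2 * δ * (N : ℝ) ^ (-(3 / 2) : ℝ)) := by
  have key : ∀ x : ℝ, 1 ≤ x → x ^ (-(5 / 2) : ℝ) ≤ 2 * (x ^ (-(3 / 2) : ℝ) - (x + 1) ^ (-(3 / 2) : ℝ)) := by
    intro x hx
    have hx0 : 0 < x := by linarith
    have h1 : (x + 1) ^ (-(3 / 2) : ℝ) = x ^ (-(3 / 2) : ℝ) * (x / (x + 1)) ^ (3 / 2 : ℝ) := by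
      rw [Real.div_rpow hx0.le (by linarith), Real.rpow_neg hx0.le, Real.rpow_neg (by linarith : (0 : ℝ) ≤ x + 1)]
      have : (0 : ℝ) < x ^ (3 / 2 : ℝ) := by positivity
      field_simp
    have h2 : (x / (x + 1)) ^ (3 / 2 : ℝ) ≤ x / (x + 1) := by
      have h3 : x / (x + 1) ≤ 1 := by
        rw [div_le_one (by linarith)]
        linarith
      calc (x / (x + 1)) ^ (3 / 2 : ℝ) ≤ (x / (x + 1)) ^ (1 : ℝ) :=
            Real.rpow_le_rpow_of_exponent_ge (by positivity) h3 (by norm_num)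
        _ = x / (x + 1) := Real.rpow_one _
    have h4 : x / (x + 1) ≤ 1 - 1 / (2 * x) := by
      rw [div_le_iff₀ (by linarith)]
      have h5 : (1 - 1 / (2 * x)) * (x + 1) = x + 1 / 2 - 1 / (2 * x) := by
        field_simp
        ring
      rw [h5]
      have h6 : 1 / (2 * x) ≤ 1 / 2 := one_div_le_one_div_of_le (by norm_num) (by linarith)
      linarith
    have h7 : x ^ (-(5 / 2) : ℝ) = x ^ (-(3 / 2) : ℝ) * (1 / x) := by
      rw [one_div, ← Real.rpow_neg_one x, ← Real.rpow_add hx0]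
      norm_num
    have h8 : 0 < x ^ (-(3 / 2) : ℝ) := by positivity
    have h9 : x ^ (-(3 / 2) : ℝ) * (x / (x + 1)) ^ (3 / 2 : ℝ) ≤ x ^ (-(3 / 2) : ℝ) * (1 - 1 / (2 * x)) :=
      mul_le_mul_of_nonneg_left (h2.trans h4) h8.le
    rw [h7, h1]
    have h10 : 1 / (2 * x) = 1 / x / 2 := by
      field_simp
    rw [h10] at h9
    linarith
  refine ENNReal.tsum_le_of_sum_range_le fun m => ?_
  rw [← ENNReal.ofReal_sum_of_nonneg (fun k _ => by positivity)]
  refine ENNReal.ofReal_le_ofReal ?_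
  have hind : ∀ m : ℕ, ∑ k ∈ range m, δ * ((N + k : ℕ) : ℝ) ^ (-(5 / 2) : ℝ) ≤
      2 * δ * ((N : ℝ) ^ (-(3 / 2) : ℝ) - ((N + m : ℕ) : ℝ) ^ (-(3 / 2) : ℝ)) := by
    intro m
    induction m with
    | zero =>
      rw [sum_range_zero, Nat.add_zero, sub_self, mul_zero]
    | succ m ih =>
      rw [sum_range_succ]
      have h1 := key ((N + m : ℕ) : ℝ) (by exact_mod_cast (by omega : 1 ≤ N + m))
      have h2 : ((N + m : ℕ) : ℝ) + 1 = ((N + (m + 1) : ℕ) : ℝ) := by push_cast; ring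
      rw [h2] at h1
      have h3 := mul_le_mul_of_nonneg_left h1 hδ
      nlinarith
  refine (hind m).trans ?_
  have h1 : 0 ≤ ((N + m : ℕ) : ℝ) ^ (-(3 / 2) : ℝ) := by positivity
  have h2 : 0 ≤ 2 * δ * ((N + m : ℕ) : ℝ) ^ (-(3 / 2) : ℝ) := by positivity
  nlinarith

/-- the sum over the levels -/
lemma es_lev {C θ : ℝ} {n l t : ℕ} (hC : 0 < C) (hθ : 0 < θ) (h : ∀ i : ℕ, l ≤ i →
    gf {L | L ∈ C0T n ∧ (L ∈ ESe l i ∨ rv L ∈ ESe l i)} ≤
      ENNReal.ofReal (C * (2 : ℝ) ^ (-θ * ((i : ℝ) - l)) * (n : ℝ) ^ (-(5 / 2) : ℝ))) :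
    gf {L | L ∈ C0T n ∧ ∃ i, l + t ≤ i ∧ (L ∈ ESe l i ∨ rv L ∈ ESe l i)} ≤
      ENNReal.ofReal (C * ((2 : ℝ) ^ (-θ)) ^ t / (1 - (2 : ℝ) ^ (-θ)) * (n : ℝ) ^ (-(5 / 2) : ℝ)) := by
  obtain ⟨r, hr⟩ : ∃ r : ℝ, r = (2 : ℝ) ^ (-θ) := ⟨_, rfl⟩
  have h0 : 0 < r := by rw [hr]; positivity
  have h1 : r < 1 := by
    rw [hr]
    exact Real.rpow_lt_one_of_one_lt_of_neg (by norm_num) (by linarith)
  obtain ⟨x, hx⟩ : ∃ x : ℝ, x = (n : ℝ) ^ (-(5 / 2) : ℝ) := ⟨_, rfl⟩
  have hx0 : 0 ≤ x := by rw [hx]; positivity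
  have hsub : {L | L ∈ C0T n ∧ ∃ i, l + t ≤ i ∧ (L ∈ ESe l i ∨ rv L ∈ ESe l i)} ⊆
      ⋃ s : ℕ, {L | L ∈ C0T n ∧ (L ∈ ESe l (l + t + s) ∨ rv L ∈ ESe l (l + t + s))} := by
    rintro L ⟨h1, i, hi, h2⟩
    have e : l + t + (i - (l + t)) = i := by omega
    refine Set.mem_iUnion.2 ⟨i - (l + t), h1, ?_⟩
    rw [e]
    exact h2
  refine (gf_mono hsub).trans ((ENNReal.tsum_iUnion_le_tsum wE _).trans ?_)
  have hs : HasSum (fun s : ℕ => C * r ^ t * x * r ^ s) (C * r ^ t * x * (1 - r)⁻¹) :=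
    (hasSum_geometric_of_lt_one h0.le h1).mul_left _
  have e3 : ENNReal.ofReal (C * r ^ t / (1 - r) * x) = ∑' s : ℕ, ENNReal.ofReal (C * r ^ t * x * r ^ s) := by
    rw [← ENNReal.ofReal_tsum_of_nonneg (fun s => by positivity) hs.summable, hs.tsum_eq]
    congr 1
    ring
  rw [← hr, ← hx, e3]
  refine ENNReal.tsum_le_tsum fun s => (h _ (by omega)).trans (ENNReal.ofReal_le_ofReal (le_of_eq ?_))
  have h2 : (2 : ℝ) ^ (-θ * (((l + t + s : ℕ) : ℝ) - l)) = r ^ t * r ^ s := by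
    rw [← pow_add, hr, ← Real.rpow_natCast, ← Real.rpow_mul (by norm_num)]
    congr 1
    push_cast
    ring
  rw [h2, hx]
  ring

/-! ### 4. The theorem -/

/-- **CAP, word level**: few closed words rooted at the top, of depth at least `a h`, have a double cut row with feet within
`h ^ (1 / 2)` of the top and a vertex of the cap at distance at least `r h` -/
def CapW : Prop := ∀ d ∈ dirs, ∀ a r ε : ℝ, 0 < a → 0 < r → 0 < ε → ∃ h0 : ℝ, 0 < h0 ∧ ∀ h : ℝ, h0 ≤ h →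
  gf {w | w ∈ WT d ∧ a * h ≤ bot d w ∧ ∃ (R O S : List Bool) (z : Pt × Pt), w = R ++ (O ++ S) ∧ Cap d z R S ∧ Out d z O ∧
      ((TIW.hn z.1 : ℤ) : ℝ) ≤ h ^ (1 / 2 : ℝ) ∧ ((TIW.hn z.2 : ℤ) : ℝ) ≤ h ^ (1 / 2 : ℝ) ∧
      ∃ i, (i ≤ R.length ∨ R.length + O.length < i) ∧ i ≤ w.length ∧ r * h ≤ ((TIW.hn (vx oo up w i) : ℤ) : ℝ)} ≤
    ENNReal.ofReal (ε / h ^ 2)

lemma wt_cyT {d : Pt} (hd : d ∈ dirs) {w : List Bool} (h : w ∈ WT d) : w ∈ CyT w.length := ⟨h.1, d, hd, h.2.1⟩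

theorem capW_of (hS : T2SX) : CapW := by
  obtain ⟨C, θ, b0, hC, hθ, hS⟩ := hS
  intro d hd a r ε ha hr hε
  obtain ⟨c, R0, hc, hR0, hlen⟩ := lenT (ε * a ^ 2 / 2) (by positivity)
  obtain ⟨m, hm⟩ : ∃ m : ℝ, m = min a r := ⟨_, rfl⟩
  have hm0 : 0 < m := by rw [hm]; exact lt_min ha hr
  have hma : m ≤ a := by rw [hm]; exact min_le_left _ _
  have hmr : m ≤ r := by rw [hm]; exact min_le_right _ _
  -- the exponent
  have hq0 : (0 : ℝ) < (2 : ℝ) ^ (-θ) := by positivity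
  have hq1 : (2 : ℝ) ^ (-θ) < 1 := Real.rpow_lt_one_of_one_lt_of_neg (by norm_num) (by linarith)
  obtain ⟨X, hX⟩ : ∃ X : ℝ, X = 4 * (c / 2 * a ^ (4 / 3 : ℝ)) ^ (-(3 / 2) : ℝ) := ⟨_, rfl⟩
  have hX0 : 0 < X := by rw [hX]; positivity
  obtain ⟨t, ht⟩ : ∃ t : ℕ, C * ((2 : ℝ) ^ (-θ)) ^ t / (1 - (2 : ℝ) ^ (-θ)) ≤ ε / (2 * X) := by
    have h2 : Filter.Tendsto (fun t : ℕ => C * ((2 : ℝ) ^ (-θ)) ^ t / (1 - (2 : ℝ) ^ (-θ))) Filter.atTop
        (nhds (C * 0 / (1 - (2 : ℝ) ^ (-θ)))) :=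
      ((tendsto_pow_atTop_nhds_zero_of_lt_one hq0.le hq1).const_mul C).div_const _
    rw [mul_zero, zero_div] at h2
    exact (h2.eventually_le_const (show 0 < ε / (2 * X) by positivity)).exists
  obtain ⟨δ, hδ⟩ : ∃ δ : ℝ, δ = C * ((2 : ℝ) ^ (-θ)) ^ t / (1 - (2 : ℝ) ^ (-θ)) := ⟨_, rfl⟩
  rw [← hδ] at ht
  have hδ0 : 0 ≤ δ := by
    rw [hδ]
    exact div_nonneg (by positivity) (by linarith)
  -- the threshold
  obtain ⟨h1, hh1⟩ : ∃ h1 : ℝ, h1 = 1 + R0 / a + (4 * (2 : ℝ) ^ (t + 3) / m) ^ 2 + 16 / m + (2 : ℝ) ^ (2 * (b0 + 2)) +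
    (4 / c) ^ (3 / 4 : ℝ) / a := ⟨_, rfl⟩
  have q1 : 0 ≤ R0 / a := by positivity
  have q2 : 0 ≤ (4 * (2 : ℝ) ^ (t + 3) / m) ^ 2 := by positivity
  have q3 : 0 ≤ 16 / m := by positivity
  have q4 : (0 : ℝ) ≤ (2 : ℝ) ^ (2 * (b0 + 2)) := by positivity
  have q5 : 0 ≤ (4 / c) ^ (3 / 4 : ℝ) / a := by positivity
  refine ⟨h1, by rw [hh1]; linarith, fun h hh => ?_⟩
  have hhp : 1 ≤ h := by linarith
  have hh0 : 0 < h := by linarith
  obtain ⟨g, hg⟩ : ∃ g : ℝ, g = h ^ (1 / 2 : ℝ) := ⟨_, rfl⟩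
  have hg0 : 0 < g := by rw [hg]; positivity
  have hgg : g * g = h := by
    rw [hg, ← Real.rpow_add hh0]
    norm_num
  have hg1 : 1 ≤ g := by
    by_contra hcon
    rw [not_le] at hcon
    nlinarith
  rw [← hg]
  -- the level l
  obtain ⟨l0, hl0a, hl0b⟩ : ∃ l0 : ℕ, (2 : ℝ) ^ l0 ≤ g ∧ g < 2 ^ (l0 + 1) := by
    obtain ⟨K, hK⟩ := exists_nat_pow_near (x := g) (y := 2) hg1 (by norm_num)
    exact ⟨K, hK.1, hK.2⟩
  obtain ⟨l, hl⟩ : ∃ l, l = l0 + 1 := ⟨_, rfl⟩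
  have hlb : b0 + 2 ≤ l := by
    by_contra hcon
    have h3 : (2 : ℝ) ^ (l0 + 1) ≤ 2 ^ (b0 + 2) := pow_le_pow_right₀ (by norm_num) (by omega)
    have h4 : g < 2 ^ (b0 + 2) := by linarith
    have h5 : (2 : ℝ) ^ (2 * (b0 + 2)) = 2 ^ (b0 + 2) * 2 ^ (b0 + 2) := by rw [two_mul, pow_add]
    have h6 : g * g < 2 ^ (b0 + 2) * 2 ^ (b0 + 2) := mul_lt_mul'' h4 h4 hg0.le hg0.le
    rw [hgg, ← h5] at h6
    linarith
  have hl2 : 2 ≤ l := by omega
  -- the level of the loops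
  have hlev : (2 : ℝ) ^ (l + t + 2) + 8 ≤ m * h := by
    have h3 : (2 : ℝ) ^ (l + t + 2) = 2 ^ l0 * 2 ^ (t + 3) := by
      rw [← pow_add]
      congr 1
      omega
    have h4 : (2 : ℝ) ^ l0 * 2 ^ (t + 3) ≤ g * 2 ^ (t + 3) := by gcongr
    have h5 : 4 * (2 : ℝ) ^ (t + 3) / m ≤ g := by
      have h6 : (4 * (2 : ℝ) ^ (t + 3) / m) ^ 2 ≤ g ^ 2 := by
        rw [pow_two g, hgg]
        linarith
      exact (pow_le_pow_iff_left₀ (by positivity) hg0.le two_ne_zero).1 h6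
    have h6 : 2 ^ (t + 3) ≤ m * g / 4 := by
      rw [div_le_iff₀ hm0] at h5
      linarith
    have h7 : g * 2 ^ (t + 3) ≤ m * h / 4 := by
      calc g * 2 ^ (t + 3) ≤ g * (m * g / 4) := by gcongr
        _ = m * (g * g) / 4 := by ring
        _ = m * h / 4 := by rw [hgg]
    have h8 : 16 ≤ m * h := by
      have h9 : 16 / m ≤ h := by linarith
      rw [div_le_iff₀ hm0] at h9
      linarith
    have h10 : 0 ≤ m * h := by positivity
    linarith
  -- the length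
  obtain ⟨N, hN⟩ : ∃ N : ℕ, N = ⌊c * (a * h) ^ (4 / 3 : ℝ)⌋₊ := ⟨_, rfl⟩
  have hbig : 4 ≤ c * (a * h) ^ (4 / 3 : ℝ) := by
    have h3 : (4 / c) ^ (3 / 4 : ℝ) ≤ a * h := by
      have h4 : (4 / c) ^ (3 / 4 : ℝ) / a ≤ h := by linarith
      rw [div_le_iff₀ ha] at h4
      linarith
    have h4 : 4 / c ≤ (a * h) ^ (4 / 3 : ℝ) := by
      calc 4 / c = ((4 / c) ^ (3 / 4 : ℝ)) ^ (4 / 3 : ℝ) := by
            rw [← Real.rpow_mul (by positivity)]
            norm_num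
        _ ≤ _ := Real.rpow_le_rpow (by positivity) h3 (by norm_num)
    rw [div_le_iff₀ hc] at h4
    linarith
  have hN1 : 1 ≤ N := by
    rw [hN]
    exact Nat.le_floor (by push_cast; linarith)
  have hNc : c / 2 * (a * h) ^ (4 / 3 : ℝ) ≤ N := by
    have h3 : c * (a * h) ^ (4 / 3 : ℝ) < N + 1 := by
      rw [hN]
      exact Nat.lt_floor_add_one _
    linarith
  have hsub : {w | w ∈ WT d ∧ a * h ≤ bot d w ∧ ∃ (R O S : List Bool) (z : Pt × Pt), w = R ++ (O ++ S) ∧ Cap d z R S ∧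
      Out d z O ∧ ((TIW.hn z.1 : ℤ) : ℝ) ≤ g ∧ ((TIW.hn z.2 : ℤ) : ℝ) ≤ g ∧
      ∃ i, (i ≤ R.length ∨ R.length + O.length < i) ∧ i ≤ w.length ∧ r * h ≤ ((TIW.hn (vx oo up w i) : ℤ) : ℝ)} ⊆
      {w | w ∈ CyT w.length ∧ (w.length : ℝ) ≤ c * (a * h) ^ (4 / 3 : ℝ) ∧
        ∃ s, s ≤ w.length ∧ a * h ≤ ((TIW.hn (vx oo up w s) : ℤ) : ℝ)} ∪
      {w | ∃ (L : List Bool) (b : Bool), w = L ++ [b] ∧
        L ∈ ⋃ k : ℕ, {L | L ∈ C0T (N + k) ∧ ∃ i, l + t ≤ i ∧ (L ∈ ESe l i ∨ rv L ∈ ESe l i)}} := by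
    rintro w ⟨hw, hb, R, O, S, z, hwe, hCp, hOt, hz1, hz2, i, hi, hiw, hfar⟩
    -- the deep vertex
    have hdeep : ∃ s, s ≤ w.length ∧ a * h ≤ ((-(ip (vx oo up w s) d) : ℤ) : ℝ) := by
      by_contra hcon
      push Not at hcon
      have h3 : (bot d w : ℝ) < a * h := by
        obtain ⟨s, hs, he⟩ := Finset.exists_mem_eq_sup (Finset.range (w.length + 1)) ⟨0, by simp⟩
          (fun s => (-(ip (vx oo up w s) d)).toNat)
        have h4 := hcon s (by have := Finset.mem_range.1 hs; omega)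
        have h5 : bot d w = (-(ip (vx oo up w s) d)).toNat := he
        have h6 : (((-(ip (vx oo up w s) d)).toNat : ℤ) : ℝ) < a * h := by
          rcases le_total 0 (-(ip (vx oo up w s) d)) with h7 | h7
          · rw [Int.toNat_of_nonneg h7]
            exact h4
          · rw [Int.toNat_of_nonpos h7]
            push_cast
            positivity
        rw [h5]
        exact_mod_cast h6
      linarith
    have hCw := wt_cyT hd hw
    rcases le_or_gt (w.length : ℝ) (c * (a * h) ^ (4 / 3 : ℝ)) with h3 | h3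
    · left
      obtain ⟨s, hs, hsd⟩ := hdeep
      refine ⟨hCw, h3, s, hs, hsd.trans ?_⟩
      have h4 := TIW.neg_hn_le_ip (vx oo up w s) hd
      have h5 : -(ip (vx oo up w s) d) ≤ TIW.hn (vx oo up w s) := by linarith
      exact_mod_cast h5
    · right
      have hne : w ≠ [] := hw.2.2
      have hLb : w.dropLast ++ [w.getLast hne] = w := List.dropLast_append_getLast hne
      refine ⟨w.dropLast, w.getLast hne, hLb.symm, Set.mem_iUnion.2 ?_⟩
      have hwN : N < w.length := by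
        have h4 : (N : ℝ) ≤ c * (a * h) ^ (4 / 3 : ℝ) := by
          rw [hN]
          exact Nat.floor_le (by positivity)
        exact_mod_cast h4.trans_lt h3
      refine ⟨w.length - 1 - N, ?_, ?_⟩
      · refine ⟨w.getLast hne, ?_⟩
        rw [hLb, show N + (w.length - 1 - N) + 1 = w.length by omega]
        exact hCw
      · have hzl : ∀ p : Pt, ((TIW.hn p : ℤ) : ℝ) ≤ g → TIW.hn p ≤ 2 ^ l := by
          intro p hp
          have h4 : ((TIW.hn p : ℤ) : ℝ) ≤ 2 ^ l := by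
            rw [hl]
            linarith
          exact_mod_cast h4
        refine cap_es hd hwe hCp hOt hl2 (by omega) (hzl _ hz1) (hzl _ hz2) ?_ ?_ hLb.symm
        · obtain ⟨s, hs, hsd⟩ := hdeep
          refine ⟨s, hs, ?_⟩
          have h4 : ((2 ^ (l + t + 2) + 8 : ℤ) : ℝ) ≤ ((-(ip (vx oo up w s) d) : ℤ) : ℝ) := by
            push_cast
            push_cast at hsd
            nlinarith
          exact_mod_cast h4
        · refine ⟨i, hi, hiw, ?_⟩
          have h4 : ((2 ^ (l + t + 2) + 8 : ℤ) : ℝ) ≤ ((TIW.hn (vx oo up w i) : ℤ) : ℝ) := by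
            push_cast
            nlinarith
          exact_mod_cast h4
  refine (gf_mono hsub).trans ((gf_union_le _ _).trans ?_)
  have hshort := hlen (a * h) (by
    have h3 : R0 / a ≤ h := by linarith
    rw [div_le_iff₀ ha] at h3
    linarith)
  -- the long words
  have hlong : gf {w | ∃ (L : List Bool) (b : Bool), w = L ++ [b] ∧
        L ∈ ⋃ k : ℕ, {L | L ∈ C0T (N + k) ∧ ∃ i, l + t ≤ i ∧ (L ∈ ESe l i ∨ rv L ∈ ESe l i)}} ≤
      ENNReal.ofReal (4 * δ * (N : ℝ) ^ (-(3 / 2) : ℝ)) := by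
    have h3 : gf {w | ∃ (L : List Bool) (b : Bool), w = L ++ [b] ∧
        L ∈ ⋃ k : ℕ, {L | L ∈ C0T (N + k) ∧ ∃ i, l + t ≤ i ∧ (L ∈ ESe l i ∨ rv L ∈ ESe l i)}} ≤
      gf (⋃ k : ℕ, {L | L ∈ C0T (N + k) ∧ ∃ i, l + t ≤ i ∧ (L ∈ ESe l i ∨ rv L ∈ ESe l i)}) *
        gf (({[true], [false]} : Finset (List Bool)) : Set (List Bool)) := by
      refine gf_le_mul ?_
      rintro w ⟨L, b, hw, hL⟩
      refine ⟨L, hL, [b], ?_, hw⟩
      cases b <;> simp
    have h4 : gf (({[true], [false]} : Finset (List Bool)) : Set (List Bool)) ≤ ENNReal.ofReal 2 := by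
      rw [gf_finset, Finset.sum_pair (by decide)]
      refine ENNReal.ofReal_le_ofReal ?_
      have := xc_bounds.2
      simp only [List.length_singleton, pow_one]
      linarith
    have h5 : gf (⋃ k : ℕ, {L | L ∈ C0T (N + k) ∧ ∃ i, l + t ≤ i ∧ (L ∈ ESe l i ∨ rv L ∈ ESe l i)}) ≤
        ENNReal.ofReal (2 * δ * (N : ℝ) ^ (-(3 / 2) : ℝ)) := by
      refine (ENNReal.tsum_iUnion_le_tsum wE _).trans (le_trans ?_ (sum_tail hN1 hδ0))
      refine ENNReal.tsum_le_tsum fun k => ?_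
      have h6 := es_lev (n := N + k) (l := l) (t := t) hC hθ fun i hi => hS (N + k) l i (by omega) hi (by omega)
      rw [← hδ] at h6
      exact h6
    refine h3.trans ((mul_le_mul' h5 h4).trans (le_of_eq ?_))
    rw [← ENNReal.ofReal_mul (by positivity)]
    congr 1
    ring
  refine (add_le_add hshort hlong).trans ?_
  rw [← ENNReal.ofReal_add (by positivity) (by positivity)]
  refine ENNReal.ofReal_le_ofReal ?_
  have h3 : (N : ℝ) ^ (-(3 / 2) : ℝ) ≤ (c / 2 * a ^ (4 / 3 : ℝ)) ^ (-(3 / 2) : ℝ) * (1 / h ^ 2) := by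
    have h4 : (N : ℝ) ^ (-(3 / 2) : ℝ) ≤ (c / 2 * (a * h) ^ (4 / 3 : ℝ)) ^ (-(3 / 2) : ℝ) :=
      Real.rpow_le_rpow_of_nonpos (by positivity) hNc (by norm_num)
    refine h4.trans (le_of_eq ?_)
    rw [Real.mul_rpow ha.le hh0.le, ← mul_assoc, Real.mul_rpow (by positivity) (by positivity)]
    congr 1
    rw [← Real.rpow_mul hh0.le, one_div, ← Real.rpow_natCast h 2, ← Real.rpow_neg hh0.le]
    congr 1
    norm_num
  have h5 : 4 * δ * (N : ℝ) ^ (-(3 / 2) : ℝ) ≤ δ * X * (1 / h ^ 2) := by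
    rw [hX]
    calc 4 * δ * (N : ℝ) ^ (-(3 / 2) : ℝ) ≤ 4 * δ * ((c / 2 * a ^ (4 / 3 : ℝ)) ^ (-(3 / 2) : ℝ) * (1 / h ^ 2)) := by gcongr
      _ = _ := by ring
  have h6 : δ * X ≤ ε / 2 := by
    have h7 := mul_le_mul_of_nonneg_right ht hX0.le
    have h8 : ε / (2 * X) * X = ε / 2 := by
      field_simp
    linarith
  have h7 : ε * a ^ 2 / 2 / (a * h) ^ 2 = ε / 2 * (1 / h ^ 2) := by
    field_simp
  have h8 : (0 : ℝ) < 1 / h ^ 2 := by positivity
  have h9 : δ * X * (1 / h ^ 2) ≤ ε / 2 * (1 / h ^ 2) := mul_le_mul_of_nonneg_right h6 h8.le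
  have h10 : ε / h ^ 2 = ε / 2 * (1 / h ^ 2) + ε / 2 * (1 / h ^ 2) := by
    field_simp
    ring
  rw [h7, h10]
  linarith

/-- **CAP, word level**, in terms of the radius of the cap of the deepest shallow double cut row -/
def CapD : Prop := ∀ d ∈ dirs, ∀ a r ε : ℝ, 0 < a → 0 < r → 0 < ε → ∃ h0 : ℝ, 0 < h0 ∧ ∀ h : ℝ, h0 ≤ h →
  gf {w | w ∈ WT d ∧ a * h ≤ bot d w ∧ r * h ≤ cdW d ⌊h ^ (1 / 2 : ℝ)⌋₊ w} ≤ ENNReal.ofReal (ε / h ^ 2)

theorem capD_of (hS : T2SX) : CapD := by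
  intro d hd a r ε ha hr hε
  obtain ⟨h0, hh0, h⟩ := capW_of hS d hd a (r / 2) ε ha (by positivity) hε
  refine ⟨max h0 (2 / r), lt_max_of_lt_left hh0, fun x hx => ?_⟩
  have hx1 : h0 ≤ x := (le_max_left _ _).trans hx
  have hx0 : 0 < x := by linarith
  have hx2 : 2 ≤ r * x := by
    have := (le_max_right _ _).trans hx
    rw [div_le_iff₀ hr] at this
    linarith
  refine (gf_mono ?_).trans (h x hx1)
  rintro w ⟨hw, hb, hc⟩
  obtain ⟨m, hm⟩ : ∃ m : ℕ, m = ⌊r / 2 * x⌋₊ := ⟨_, rfl⟩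
  have hm1 : (m : ℝ) ≤ r / 2 * x := by
    rw [hm]
    exact Nat.floor_le (by positivity)
  have hm2 : r / 2 * x < m + 1 := by
    rw [hm]
    exact Nat.lt_floor_add_one _
  have hm3 : m < cdW d ⌊x ^ (1 / 2 : ℝ)⌋₊ w := by
    have : (m : ℝ) < cdW d ⌊x ^ (1 / 2 : ℝ)⌋₊ w := by linarith
    exact_mod_cast this
  obtain ⟨z, i, hz, hi, hlev, hfar⟩ := lt_cdW hd hm3
  obtain ⟨hzs, ⟨R, O, S, he, hC, hO⟩, -⟩ := hz
  have hfl : ((⌊x ^ (1 / 2 : ℝ)⌋₊ : ℕ) : ℝ) ≤ x ^ (1 / 2 : ℝ) := Nat.floor_le (by positivity)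
  refine ⟨hw, hb, R, O, S, z, he, hC, hO, ?_, ?_, i, ?_, hi, ?_⟩
  · have h1 : ((TIW.hn z.1 : ℤ) : ℝ) ≤ ((⌊x ^ (1 / 2 : ℝ)⌋₊ : ℕ) : ℝ) := by exact_mod_cast hzs.2.1
    exact h1.trans hfl
  · have h1 : ((TIW.hn z.2 : ℤ) : ℝ) ≤ ((⌊x ^ (1 / 2 : ℝ)⌋₊ : ℕ) : ℝ) := by exact_mod_cast hzs.2.2
    exact h1.trans hfl
  · by_contra hcon
    push Not at hcon
    obtain ⟨e1, e2, e3, e4⟩ := dec_vx (S := S) hC.enR hC.hdR hO.en hO.hd
    have h1 := hO.lo (i - R.length) (by omega) (by omega)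
    have h2 := e2 (i - R.length) (by omega)
    rw [show R.length + (i - R.length) = i by omega, ← he] at h2
    rw [← h2] at h1
    linarith
  · have h1 : (m : ℤ) + 1 ≤ TIW.hn (vx oo up w i) := by
      have : (m : ℤ) < TIW.hn (vx oo up w i) := by exact_mod_cast hfar
      linarith
    have h2 : (m : ℝ) + 1 ≤ ((TIW.hn (vx oo up w i) : ℤ) : ℝ) := by exact_mod_cast h1
    linarith

end ART

end HexObs
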