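import Pool.Agent.ART.TopJ
import Pool.Agent.ARM.CaseA

/-!
# ART, row D2 (T2NT; helper4): **case A**, the inner bound for closed words rooted at their top

Clone of `ARM.CaseA` (helper9): the root piece keeps the property that the joint of its two parts is its top (`TopJ`); a suffix of
the front part keeps it (`topJ_suf`), so the sum over the position of the root costs 6 and not the length (`pair_sumT`): the bound
is smaller by the factor `ml b`.

* `front_ptT` : the part in front of the root, exact length and exact end;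
* **`caseAT`**.
-/

set_option autoImplicit false

namespace HexObs

namespace ART

open Finset TS SDN _root_.HexObs.SIM NTA TIP ARM

open TIP.Nf (cz mem_cz nc_cz rank_lt rank_sum card_rank cz_split in_mid in_app in_mono Dt NeW)

open ARM.T2 (Fw letter_sum pair_split few_mom len_num4 exU En twoG_ne w2_of gf_cy st_cuts2 GE_mono wt_split pmj_b)

open scoped ENNReal

open BM (Lb gf_Lb)

/-- the rests behind the cuts of the root piece, the part Y2 behind the root is kept, the root is the top -/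
def WWrT (η : ℝ) (E b J : ℕ) (Y2 : List Bool) : Set (List Bool) := {U | U ++ Y2 ∈ W2E η E b J ∧ TopJ U Y2}

/-- the part in front of the root with exact length and exact end, the root is the top -/
lemma front_ptT (hS : SmL) {η : ℝ} (hη : 0 < η) (E : ℕ) : ∃ (C : ℝ) (b0 : ℕ), 0 < C ∧ 1 ≤ b0 ∧
    ∀ (b J y : ℕ) (z : Pt) (Y2 : List Bool), b0 ≤ b → Y2 ∈ En η E b →
    gf {U | (U ∈ ARM.St η E b ∧ U ++ Y2 ∈ SA ∧ In (2 ^ (b + J)) (U ++ Y2) ∧ TopJ U Y2) ∧ U.length = y ∧ TIW.en U = z} ≤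
      ENNReal.ofReal (C / (4 ^ b * ml b) / (1 + ((y + Y2.length : ℕ) : ℝ) / ml b) ^ 4) *
      ∑' U : WWrT (η / 4) (2 * E) b (J + 1) Y2, wE (U : List Bool) *
        ENNReal.ofReal ((1 + (((U : List Bool) ++ Y2).length : ℝ) / ml b) ^ 4) := by
  obtain ⟨C, b1, hC, h⟩ := hS (η / 2) 4 (by positivity)
  obtain ⟨bU, hbU⟩ := exU hη 4
  refine ⟨C, b1 + bU + 1, hC, by omega, fun b J y z Y2 hb hY2 => ?_⟩
  have hm := ml_pos b
  have hb0 : b ≠ 0 := by omega
  have hU := hbU b (by omega)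
  have hy : (0 : ℝ) < (1 + ((y + Y2.length : ℕ) : ℝ) / ml b) ^ 4 := by positivity
  have h1 := h b y z (by omega) {U | (U ∈ ARM.St η E b ∧ U ++ Y2 ∈ SA ∧ In (2 ^ (b + J)) (U ++ Y2) ∧ TopJ U Y2) ∧ U.length = y ∧
      TIW.en U = z}
    (WWrT (η / 4) (2 * E) b (J + 1) Y2)
    (fun U => ENNReal.ofReal ((1 + ((U ++ Y2).length : ℝ) / ml b) ^ 4 / (1 + ((y + Y2.length : ℕ) : ℝ) / ml b) ^ 4)) ?_
  · refine h1.trans (le_of_eq ?_)
    rw [← ENNReal.tsum_mul_left, ← ENNReal.tsum_mul_left]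
    refine tsum_congr fun U => ?_
    rw [div_eq_mul_inv (((1 : ℝ) + ((((U : List Bool) ++ Y2).length : ℕ) : ℝ) / ml b) ^ 4),
      ENNReal.ofReal_mul (by positivity), div_eq_mul_inv (C / (4 ^ b * ml b)), ENNReal.ofReal_mul (by positivity)]
    ring
  · rintro U ⟨⟨⟨S, hSg, R0, hUS⟩, hsa, hin, htop⟩, hUy, hUz⟩
    obtain ⟨R2, T2, hT2, rfl⟩ := hY2
    obtain ⟨T, g1, g2, g3⟩ := st_cuts2 hb0 hU (X := R0) hSg
    rw [← hUS] at g2 g3
    refine ⟨hUy, hUz, T, g1, fun c hc => ?_, g3⟩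
    obtain ⟨a1, a2, a3, ⟨S', hS', R, hR⟩, a5⟩ := g2 c hc
    have ed : (U ++ (R2 ++ T2)).drop c = U.drop c ++ (R2 ++ T2) := List.drop_append_of_le_length a1
    have et : (U ++ (R2 ++ T2)).take c = U.take c := List.take_append_of_le_length a1
    refine ⟨a1, a2, a3, ⟨⟨?_, ?_, S', hS', R ++ (R0 ++ R2), T2, GE_mono hb0 (by linarith) (by omega) hT2, ?_⟩, ?_⟩, ?_⟩
    · have := SDN.SA_drop hsa c
      rwa [ed] at this
    · have e := In_bu (P := U.take c) (W := U.drop c ++ (R2 ++ T2)) (E := 2 ^ (b + J)) a2 (by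
        rw [← ed, ← et, List.take_append_drop]
        exact hin)
      have e3 : 2 ^ (b + (J + 1)) = 2 * 2 ^ (b + J) := by rw [← add_assoc, pow_succ]; ring
      rw [e3]
      exact e
    · rw [hR]
      simp only [List.append_assoc]
    · refine topJ_suf (A := U.take c) ?_
      rw [List.take_append_drop]
      exact htop
    · rw [← ENNReal.ofReal_mul (by positivity), ← ENNReal.ofReal_one]
      refine ENNReal.ofReal_le_ofReal ?_
      refine wt_split ?_
      simp only [List.length_append, List.length_drop]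
      omega

/-- **the inner bound of the case A**, closed words rooted at their top -/
theorem caseAT (hS : SmL) (hP : PMJ) {η : ℝ} (hη : 0 < η) (E m : ℕ) {ε : ℝ} (hε : 0 < ε) :
    ∃ (κ1 : ℝ) (a0 b0 : ℕ), 0 < κ1 ∧ a0 ≤ b0 ∧ 1 ≤ b0 ∧ ∀ (b n h : ℕ) (M : List Bool), b0 ≤ b → η * Ub b ≤ (h : ℝ) →
      ∑' p : {p : List Bool × List Bool | RhA (κ1 * Ub b) (2 ^ (b - a0)) b E η h p.1 M p.2 ∧ In (2 ^ (b + m + 1)) p.1 ∧
        In (2 ^ (b + m + 1)) p.2 ∧ p.1 ++ (M ++ p.2) ∈ C0T n}, wE (p : List Bool × List Bool).1 * wE (p : List Bool × List Bool).2 ≤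
      ENNReal.ofReal (ε * (Ub b / (4 ^ b * ml b))) * ENNReal.ofReal (ARM.wt n M.length (b + m)) := by
  obtain ⟨C, b1, hC, hb1, hfr⟩ := front_ptT hS hη E
  obtain ⟨K, hK, hP⟩ := pmj_b hP (η / 4) (2 * E) 4 (by positivity)
  have hxc := xc_pos
  obtain ⟨κ1, a0, b2, hκ1, hab, hfew⟩ := few_mom (ε := ε * η / (6 * xc⁻¹ * C * K ^ (m + 5 + 1))) (by positivity)
  refine ⟨κ1, a0, b1 + b2, hκ1, by omega, by omega, fun b n h M hb hh => ?_⟩
  have hU := Ub_pos b
  have hm := ml_pos b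
  have hb0 : b ≠ 0 := by omega
  obtain ⟨R, hR⟩ : ∃ R : Set (List Bool × List Bool), R = {p : List Bool × List Bool |
    RhA (κ1 * Ub b) (2 ^ (b - a0)) b E η h p.1 M p.2 ∧ In (2 ^ (b + m + 1)) p.1 ∧
        In (2 ^ (b + m + 1)) p.2 ∧ p.1 ++ (M ++ p.2) ∈ C0T n} := ⟨_, rfl⟩
  rw [← hR]
  obtain ⟨G, hG⟩ : ∃ G : List Bool → ℝ≥0∞, G = fun Y2 => ∑' U : WWrT (η / 4) (2 * E) b (m + 5) Y2, wE (U : List Bool) *
        ENNReal.ofReal ((1 + (((U : List Bool) ++ Y2).length : ℝ) / ml b) ^ 4) := ⟨_, rfl⟩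
  obtain ⟨g0, hg0⟩ : ∃ g0 : ℝ, g0 = C / (4 ^ b * ml b) / (1 + ((n + 1 - M.length : ℕ) : ℝ) / ml b) ^ 4 := ⟨_, rfl⟩
  have hg00 : 0 ≤ g0 := by rw [hg0]; positivity
  obtain ⟨e1, he1⟩ : ∃ e1 : ℝ, e1 = ε * η / (6 * xc⁻¹ * C * K ^ (m + 5 + 1)) := ⟨_, rfl⟩
  have he10 : 0 < e1 := by rw [he1]; positivity
  rw [← he1] at hfew
  -- one Y2
  have hone : ∀ Y2 : List Bool, (h : ℝ≥0∞) * gf {Y1 | (Y2, Y1) ∈ R} ≤
      ENNReal.ofReal (xc⁻¹ * g0) * ENNReal.ofReal (e1 * Ub b) * G Y2 := by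
    intro Y2
    by_cases hne : ∃ Y1, (Y2, Y1) ∈ R
    · obtain ⟨Y10, hY10⟩ := hne
      rw [hR] at hY10
      obtain ⟨⟨hM, hY2, -⟩, hi2, -, -⟩ := hY10
      have hM0 := twoG_ne hb0 hM
      obtain ⟨Wc, hWc⟩ : ∃ Wc : List Bool → Set (List Bool), Wc = fun V => {W | W ∈ ARM.St η E b ∧ In (2 ^ (b + (m + 2))) W ∧
        Y2 ++ (M ++ (V ++ W)) ∈ C0T n} := ⟨_, rfl⟩
      have h1 := ARM.T2.cut_sum (A := {Y1 | (Y2, Y1) ∈ R}) (Fw := Fw (κ1 * Ub b) (2 ^ (b - a0)) b (Y2 ++ M)) (Wc := Wc)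
        (q := (h : ℝ≥0∞)) (by
          intro Y1 hY1
          have hY1' : (Y2, Y1) ∈ R := hY1
          rw [hR] at hY1'
          obtain ⟨⟨-, -, S, hS1, hS2⟩, -, hi1, hc0⟩ := hY1'
          refine ⟨S, by exact_mod_cast hS1, fun k hk => ?_⟩
          obtain ⟨k1, ⟨k2, k3, k4, k5⟩, k6⟩ := hS2 k hk
          refine ⟨k1, ⟨k2, k3, k4, k5⟩, ?_⟩
          rw [hWc]
          refine ⟨k6, ?_, ?_⟩
          · have e := In_bu (P := Y1.take k) (W := Y1.drop k) (E := 2 ^ (b + m + 1)) k2 (by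
              rw [List.take_append_drop]
              exact hi1)
            have e3 : 2 ^ (b + (m + 2)) = 2 * 2 ^ (b + m + 1) := by
              rw [show b + (m + 2) = b + m + 1 + 1 by omega, pow_succ]
              ring
            rw [e3]
            exact e
          · rw [List.take_append_drop]
            exact hc0)
      refine h1.trans ?_
      have h2 : ∀ V : List Bool, V ∈ Fw (κ1 * Ub b) (2 ^ (b - a0)) b (Y2 ++ M) → gf (Wc V) ≤ ENNReal.ofReal xc⁻¹ *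
          (ENNReal.ofReal (g0 * (1 + (V.length : ℝ) / ml b) ^ 4) * G Y2) := by
        intro V hV
        have h3 := letter_sum (A := Wc V) (B := {U | U ∈ {U | U ∈ ARM.St η E b ∧ U ++ Y2 ∈ SA ∧ In (2 ^ (b + (m + 4))) (U ++ Y2) ∧
          TopJ U Y2} ∧ (Y2 ++ (M ++ V)) ++ U ∈ POL.Cy (n + 1)}) (by
            intro W hW
            rw [hWc] at hW
            obtain ⟨w1, w2, w3⟩ := hW
            obtain ⟨β, w5, w6⟩ := topJ_C0T w3
            have w5' : (M ++ V) ++ ((W ++ [β]) ++ Y2) ∈ POL.Cy (n + 1) := by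
              simpa only [List.append_assoc] using w5
            have w4 : (Y2 ++ (M ++ V)) ++ (W ++ [β]) ∈ POL.Cy (n + 1) := by
              have w7 : ((M ++ V) ++ (W ++ [β])) ++ Y2 ∈ POL.Cy (n + 1) := by
                simpa only [List.append_assoc] using w5
              have := POL.cy_rot w7
              simpa only [List.append_assoc] using this
            have w8 : TopJ (W ++ [β]) Y2 := by
              refine topJ_suf (A := V) ?_
              rwa [← List.append_assoc]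
            have w7 := w2_of (J := m + 2) hb0 (M := M ++ V) (by
              intro h0
              exact hM0 (List.append_eq_nil_iff.1 h0).1) hY2 w1 (YB.In_mono (Nat.pow_le_pow_right (by norm_num) (by omega)) hi2) w2 w5'
            obtain ⟨S, hSg, R1, hW1⟩ := w1
            refine ⟨β, ⟨⟨S, hSg, R1 ++ [β], ?_⟩, w7.1, w7.2.1, w8⟩, w4⟩
            rw [hW1, List.append_assoc])
        refine h3.trans (mul_le_mul' le_rfl ?_)
        refine gf_cy (fun z => ?_)
        have h4 := hfr b (m + 4) (n + 1 - (Y2 ++ (M ++ V)).length) z Y2 (by omega) hY2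
        refine h4.trans ?_
        rw [hG]
        refine mul_le_mul' (ENNReal.ofReal_le_ofReal ?_) le_rfl
        have h5 := len_num4 (b := b) (n := n) (p := V.length) (m' := M.length)
          (y := n + 1 - (Y2 ++ (M ++ V)).length + Y2.length) (by
            simp only [List.length_append]
            omega)
        have h6 : (0 : ℝ) ≤ C / (4 ^ b * ml b) := by positivity
        calc C / (4 ^ b * ml b) / (1 + ((n + 1 - (Y2 ++ (M ++ V)).length + Y2.length : ℕ) : ℝ) / ml b) ^ 4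
            = C / (4 ^ b * ml b) * (1 / (1 + ((n + 1 - (Y2 ++ (M ++ V)).length + Y2.length : ℕ) : ℝ) / ml b) ^ 4) := by ring
          _ ≤ C / (4 ^ b * ml b) * ((1 + (V.length : ℝ) / ml b) ^ 4 / (1 + ((n + 1 - M.length : ℕ) : ℝ) / ml b) ^ 4) :=
              mul_le_mul_of_nonneg_left h5 h6
          _ = g0 * (1 + (V.length : ℝ) / ml b) ^ 4 := by rw [hg0]; ring
      calc ∑' V : Fw (κ1 * Ub b) (2 ^ (b - a0)) b (Y2 ++ M), wE (V : List Bool) * gf (Wc V)
          ≤ ∑' V : Fw (κ1 * Ub b) (2 ^ (b - a0)) b (Y2 ++ M), ENNReal.ofReal (xc⁻¹ * g0) * G Y2 *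
            (wE (V : List Bool) * ENNReal.ofReal ((1 + ((V : List Bool).length : ℝ) / ml b) ^ 4)) := by
            refine ENNReal.tsum_le_tsum fun V => ?_
            refine (mul_le_mul' le_rfl (h2 _ V.2)).trans (le_of_eq ?_)
            rw [ENNReal.ofReal_mul hg00, ENNReal.ofReal_mul (by positivity)]
            ring
        _ = ENNReal.ofReal (xc⁻¹ * g0) * G Y2 * _ := ENNReal.tsum_mul_left
        _ ≤ ENNReal.ofReal (xc⁻¹ * g0) * G Y2 * ENNReal.ofReal (e1 * Ub b) := mul_le_mul' le_rfl (hfew b (by omega) (Y2 ++ M))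
        _ = _ := by ring
    · have he : {Y1 | (Y2, Y1) ∈ R} = ∅ := Set.eq_empty_of_forall_notMem fun Y1 hY1 => hne ⟨Y1, hY1⟩
      rw [he]
      have : gf (∅ : Set (List Bool)) = 0 := by
        unfold gf
        simp
      rw [this, mul_zero]
      exact zero_le
  -- all Y2
  have hsum : ∑' Y2 : List Bool, wE Y2 * G Y2 ≤ ENNReal.ofReal (6 * (K ^ (m + 5 + 1) * Ub b)) := by
    have h1 : ∑' Y2 : List Bool, wE Y2 * G Y2 = ∑' p : {p : List Bool × List Bool | p.2 ++ p.1 ∈ W2E (η / 4) (2 * E) b (m + 5) ∧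
        TopJ p.2 p.1}, wE (p : List Bool × List Bool).1 * wE (p : List Bool × List Bool).2 *
        ENNReal.ofReal ((1 + ((((p : List Bool × List Bool).2 ++ (p : List Bool × List Bool).1).length : ℕ) : ℝ) / ml b) ^ 4) := by
      rw [pair_split {p : List Bool × List Bool | p.2 ++ p.1 ∈ W2E (η / 4) (2 * E) b (m + 5) ∧ TopJ p.2 p.1}
        (fun a b' => wE a * wE b' * ENNReal.ofReal ((1 + (((b' ++ a).length : ℕ) : ℝ) / ml b) ^ 4))]
      refine tsum_congr fun Y2 => ?_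
      rw [hG]
      simp only
      rw [← ENNReal.tsum_mul_left]
      exact tsum_congr fun U => by rw [mul_assoc]
    rw [h1]
    refine (pair_sumT (S := W2E (η / 4) (2 * E) b (m + 5)) (fun T => ENNReal.ofReal ((1 + ((T.length : ℕ) : ℝ) / ml b) ^ 4))
      (fun T hT => hT.1) (fun p hp => hp)).trans ?_
    rw [ENNReal.ofReal_mul (by norm_num)]
    refine mul_le_mul' (le_of_eq ?_) (hP b (m + 5) (by omega))
    norm_num
  have hh0 : (0 : ℝ) < h := lt_of_lt_of_le (by positivity) hh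
  have htot : (∑' p : R, wE (p : List Bool × List Bool).1 * wE (p : List Bool × List Bool).2) * ENNReal.ofReal h ≤
      ENNReal.ofReal (xc⁻¹ * g0 * (e1 * Ub b) * (6 * (K ^ (m + 5 + 1) * Ub b))) * 1 := by
    rw [mul_one, pair_split R (fun a b' => wE a * wE b'), ENNReal.ofReal_natCast, ← ENNReal.tsum_mul_right]
    calc ∑' Y2 : List Bool, (∑' Y1 : {Y1 | (Y2, Y1) ∈ R}, wE Y2 * wE (Y1 : List Bool)) * (h : ℝ≥0∞)
        ≤ ∑' Y2 : List Bool, ENNReal.ofReal (xc⁻¹ * g0) * ENNReal.ofReal (e1 * Ub b) * (wE Y2 * G Y2) := by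
          refine ENNReal.tsum_le_tsum fun Y2 => ?_
          rw [ENNReal.tsum_mul_left]
          calc wE Y2 * (∑' Y1 : {Y1 | (Y2, Y1) ∈ R}, wE (Y1 : List Bool)) * (h : ℝ≥0∞)
              = wE Y2 * ((h : ℝ≥0∞) * gf {Y1 | (Y2, Y1) ∈ R}) := by
                unfold gf
                ring
            _ ≤ wE Y2 * (ENNReal.ofReal (xc⁻¹ * g0) * ENNReal.ofReal (e1 * Ub b) * G Y2) := mul_le_mul' le_rfl (hone Y2)
            _ = _ := by ring
      _ = ENNReal.ofReal (xc⁻¹ * g0) * ENNReal.ofReal (e1 * Ub b) * ∑' Y2 : List Bool, wE Y2 * G Y2 := ENNReal.tsum_mul_left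
      _ ≤ ENNReal.ofReal (xc⁻¹ * g0) * ENNReal.ofReal (e1 * Ub b) * ENNReal.ofReal (6 * (K ^ (m + 5 + 1) * Ub b)) :=
          mul_le_mul' le_rfl hsum
      _ = _ := by
          rw [← ENNReal.ofReal_mul (by positivity), ← ENNReal.ofReal_mul (by positivity)]
  have h1 := div_of_mul hh0 (by positivity) htot
  rw [mul_one] at h1
  refine h1.trans ?_
  have hwt0 : 0 ≤ ARM.wt n M.length (b + m) := by
    unfold ARM.wt
    have := ml_pos (b + m)
    positivity
  rw [← ENNReal.ofReal_mul (by positivity)]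
  refine ENNReal.ofReal_le_ofReal ?_
  rw [div_le_iff₀ hh0]
  -- the weight
  obtain ⟨y, hy⟩ : ∃ y : ℕ, y = n + 1 - M.length := ⟨_, rfl⟩
  obtain ⟨x, hx⟩ : ∃ x : ℕ, x = n - M.length := ⟨_, rfl⟩
  have hxy : (x : ℝ) ≤ y := by exact_mod_cast (show x ≤ y by omega)
  have hy0 : (0 : ℝ) ≤ y := Nat.cast_nonneg y
  have hx0 : (0 : ℝ) ≤ x := Nat.cast_nonneg x
  have hmi := ml_pos (b + m)
  have hwt : ARM.wt n M.length (b + m) = ((1 + (x : ℝ) / ml (b + m)) ^ 4)⁻¹ := by
    unfold ARM.wt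
    rw [← hx, Real.rpow_neg (by positivity)]
    norm_cast
  have h2 : ((1 + (y : ℝ) / ml b) ^ 4)⁻¹ ≤ ARM.wt n M.length (b + m) := by
    rw [hwt]
    refine inv_anti₀ (by positivity) (pow_le_pow_left₀ (by positivity) ?_ 4)
    have : (x : ℝ) / ml (b + m) ≤ (y : ℝ) / ml b := div_le_div₀ hy0 hxy hm (ml_le (Nat.le_add_right b m))
    linarith
  have h3 : 6 * xc⁻¹ * C * K ^ (m + 5 + 1) * e1 = ε * η := by
    rw [he1]
    field_simp
  calc xc⁻¹ * g0 * (e1 * Ub b) * (6 * (K ^ (m + 5 + 1) * Ub b))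
      = (6 * xc⁻¹ * C * K ^ (m + 5 + 1) * e1) * (Ub b / (4 ^ b * ml b)) * ((1 + (y : ℝ) / ml b) ^ 4)⁻¹ * Ub b := by
        rw [hg0, ← hy]
        field_simp
    _ = ε * (Ub b / (4 ^ b * ml b)) * ((1 + (y : ℝ) / ml b) ^ 4)⁻¹ * (η * Ub b) := by
        rw [h3]
        ring
    _ ≤ ε * (Ub b / (4 ^ b * ml b)) * ARM.wt n M.length (b + m) * h := by gcongr

end ART

end HexObs
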