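import Pool.Agent.ARM.DefsC
import Pool.Agent.ARM.DefsQ

/-!
# ART: two arms at the TOP. Definitions and literals (captain helper53).

The class `FT n j`: words of `ARM.F n j` (both ends within 2 ^ j) that stay below the row 2 ^ j above both ends, in SOME lattice
direction d (rows = level sets of `ip . d`). The class is closed under `rv`, under prefixes and under small changes of the end
(`TT_pre`, `TT_app`, `TT_rv` in `ART.Tc`). Prediction `prT`: exponent 5 / 2 instead of 3 / 2 (the outer reference is the closed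
word rooted at its top). The rows are those of `ARM.Defs` with F, Fp, pr, HF replaced by FT, FTp, prT, HT.
-/

set_option autoImplicit false

namespace HexObs

namespace ART

open Finset TS SDN SIM NTA TIP ARM

open scoped ENNReal

/-- the constraint with the radius r: both ends within r, the word below the row r above both ends (direction d) -/
def TT (L : List Bool) (r : ℝ) : Prop :=
  ((TIW.hn (TIW.en L) : ℤ) : ℝ) ≤ r ∧ ∃ d ∈ dirs, ∀ s, s ≤ L.length →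
    ((ip (vx oo up L s) d : ℤ) : ℝ) ≤ r ∧ ((ip (vx oo up L s - TIW.en L) d : ℤ) : ℝ) ≤ r

/-- **words with a gap of the scale j at the top** -/
def FT (n j : ℕ) : Set (List Bool) := {L | L ∈ SA ∧ n ≤ L.length ∧ (L.length : ℝ) < n + ml j ∧ TT L (2 ^ j)}

/-- the same with a slightly larger radius -/
def FTp (n j : ℕ) : Set (List Bool) := {L | L ∈ SA ∧ n ≤ L.length ∧ (L.length : ℝ) < n + ml j ∧ TT L (2 ^ j + 2)}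

/-- the predicted mass of FT n i -/
noncomputable def prT (n i : ℕ) : ℝ := (2 : ℝ) ^ ((43 / 24 : ℝ) * (i : ℝ)) * (ml i / max (n : ℝ) (ml i)) ^ (5 / 2 : ℝ)

/-- the hypothesis of the sandwich -/
def HT (D : ℝ) (n j : ℕ) : Prop := ∀ n' i, n' ≤ n → j ≤ i → gf (FT n' i) ≤ ENNReal.ofReal (D * prT n' i)

/-- **(T1) at the top** -/
def T1T : Prop := ∃ D : ℝ, 0 < D ∧ ∀ n i : ℕ, gf (FT n i) ≤ ENNReal.ofReal (D * prT n i)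

/-! ### base rows -/

/-- **row B1** (lengths at most lam m_i; from `ARM.baseSt` and FT ⊆ F) -/
def BaseT : Prop := ∀ lam : ℝ, 0 < lam → ∃ C : ℝ, 0 < C ∧ ∀ n i : ℕ, (n : ℝ) ≤ lam * ml i →
  gf (FT n i) ≤ ENNReal.ofReal (C * prT n i)

/-- **row B2** (long words in a small ball, any power) -/
def ConfQ : Prop := ∀ q : ℕ, ∃ C : ℝ, 0 < C ∧ ∀ n i : ℕ,
  gf {L | L ∈ SA ∧ n ≤ L.length ∧ ∀ s, s ≤ L.length → dz L s ≤ 2 ^ i} ≤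
    ENNReal.ofReal (C * ((2 : ℝ) ^ ((43 / 24 : ℝ) * (i : ℝ)) * (ml i / max (n : ℝ) (ml i)) ^ q))

/-- the constant of the hypothesis is not small -/
def HfLowT : Prop := ∃ c0 : ℝ, 0 < c0 ∧ ∀ (D : ℝ) (n j : ℕ), 0 ≤ D → HT D n j → c0 ≤ D

/-! ### rows T, E, N -/

/-- **row T** -/
def TipT : Prop := ∀ η : ℝ, 0 < η → ∃ C : ℝ, 0 < C ∧ ∀ (D : ℝ) (n i b : ℕ), 0 ≤ D → HT D n i → b ≤ i →
  gf (FT n i ∩ GT b η) * Xb b ≤ ENNReal.ofReal (C * D * prT n i)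

/-- **row T'** (two good ends) -/
def TipT2 : Prop := ∀ η : ℝ, 0 < η → ∃ C : ℝ, 0 < C ∧ ∀ (D : ℝ) (n i b : ℕ), 0 ≤ D → HT D n i → b ≤ i →
  gf {L | L ∈ FT n i ∧ L ∈ GT b η ∧ rv L ∈ GT b η} * Xb b ^ 2 ≤ ENNReal.ofReal (C * D * prT n i)

/-- **row T'' (helper73)** (two good ends with disjoint local structures) -/
def TipT2s : Prop := ∀ (η : ℝ) (E : ℕ), 0 < η → ∃ C : ℝ, 0 < C ∧ ∀ (D : ℝ) (n i b : ℕ), 0 ≤ D → HT D n i → b ≤ i →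
  gf {L | L ∈ FT n i ∧ L ∈ TwoG η E b} * Xb b ^ 2 ≤ ENNReal.ofReal (C * D * prT n i)

/-- **row E** -/
def ExT : Prop := ∀ (η : ℝ) (c : ℕ), 0 < η → ∃ C : ℝ, 0 < C ∧ ∀ (D : ℝ) (n j i b : ℕ), 0 ≤ D → HT D n i → j ≤ i → b ≤ i →
  ∀ (ρ : List Bool → List Bool → Prop) (x : ℝ≥0∞) (q : ℝ), (∀ A Y, ρ A Y → A ∈ GT b η) →
    (∀ A, gf {Y | ρ A Y ∧ In (2 ^ (i + c)) Y ∧ A ++ Y ∈ FTp n j} ≤ x * ENNReal.ofReal (ARM.wt n A.length i)) → 0 < q →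
    gf {L | L ∈ FTp n j ∧ q ≤ (nD (2 ^ (i + c)) ρ L : ℝ)} * (ENNReal.ofReal q * Xb b) ≤ ENNReal.ofReal (C * D * prT n i) * x

/-- words without a rich factor -/
def NoRT (κ : ℝ) (C : ℕ) : Prop := ∀ ε : ℝ, 0 < ε → ∃ b0 : ℕ, ∀ n j : ℕ, b0 ≤ j → 2 ^ b0 * ml j ≤ n →
  gf {L | L ∈ FTp n j ∧ L ∈ Nz κ C j} ≤ ENNReal.ofReal (ε * prT n j)

/-- words with a long factor without rich window -/
def NoRichT (κ : ℝ) (C : ℕ) : Prop := ∀ a c1 : ℕ, ∃ J0 b0 : ℕ, ∀ b J n : ℕ, b0 ≤ b → J0 ≤ J →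
  gf {L | L ∈ SA ∧ n ≤ L.length ∧ In (2 ^ (b + J)) L ∧ ∃ N : ℕ, 2 ^ J ≤ N * 2 ^ c1 ∧ L ∈ Lz κ C b N} ≤
    ENNReal.ofReal (prT n (b + J) / 2 ^ (a * J))

/-- a rich factor near the end -/
def NWinT (κ : ℝ) (C : ℕ) : Prop := ∀ ε : ℝ, 0 < ε → ∃ m b0 : ℕ, ∀ (D : ℝ) (n j : ℕ), 0 ≤ D → HT D n j → b0 ≤ j →
  2 ^ b0 * ml j ≤ n → gf {L | L ∈ FTp n j ∧ ¬ ∃ X Z Y, L = X ++ (Z ++ Y) ∧ Y ≠ [] ∧ Z ∈ Zc κ C j ∧ In (2 ^ (j + m)) Y} ≤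
    ENNReal.ofReal (ε * D * prT n j)

/-- **row N** (many good cuts near the end) -/
def NFT : Prop := ∀ ε : ℝ, 0 < ε → ∃ (η κ : ℝ) (a m b0 : ℕ), 0 < η ∧ 0 < κ ∧ a ≤ b0 ∧ ∀ (D : ℝ) (n j : ℕ), 0 ≤ D →
  HT D n j → b0 ≤ j → 2 ^ b0 * ml j ≤ n → gf {L | L ∈ FTp n j ∧ gc j a m η L < κ * Ub j} ≤ ENNReal.ofReal (ε * D * prT n j)

/-! ### row Q: near touches -/

/-- **row Q** -/
def NtT : Prop := ∀ (u c k : ℕ) (ε : ℝ), c ≤ u → 0 < ε → ∃ e b0 : ℕ, k ≤ e ∧ e ≤ b0 ∧ ∀ (D : ℝ) (n j : ℕ), 0 ≤ D →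
  HT D n j → b0 ≤ j → 2 ^ b0 * ml j ≤ n →
    gf {L | L ∈ FTp n j ∧ L ∈ NTs (j + c) (j + u) (2 ^ (j - e)) (2 ^ (j - k))} ≤ ENNReal.ofReal (ε * D * prT n j)

/-! ### row S: extra strands (helper37: cut just before the visit, at the level l; the loop of the level i is a bulk loop) -/

/-- **row S** -/
def EsT : Prop := ∃ (C : ℝ) (b0 : ℕ), 0 < C ∧ ∀ (D : ℝ) (n j l i : ℕ), 0 ≤ D → HT D n j → b0 ≤ j → j ≤ l → l ≤ i →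
  gf {L | L ∈ FTp n j ∧ L ∈ ESe l i} ≤
    ENNReal.ofReal (C * D * (2 : ℝ) ^ (43 / 24 * ((l : ℝ) - j) - 1 / 4 * ((i : ℝ) - l)) * prT n j)

/-! ### row G: the good words -/

/-- the good words of the level j -/
def GFT (n j : ℕ) (η κ : ℝ) (a m c u e k : ℕ) : Set (List Bool) :=
  {L | L ∈ FT n j ∧ (∃ s, s ≤ L.length ∧ 2 ^ (j + u) < dz L s) ∧ ∀ T, T = L ∨ T = rv L → κ * Ub j ≤ gc j a m η T ∧
    (∀ i, j + c ≤ i + 1 → T ∉ ESe (j + m + 4) i) ∧ (∀ i, j + u ≤ i → T ∉ ESe (j + c) i) ∧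
    T ∉ NTs (j + c) (j + u) (2 ^ (j - e)) (2 ^ (j - k))}

/-- **row G** -/
def GoodT : Prop := ∀ (η κ : ℝ) (a m : ℕ), 0 < η → 0 < κ → ∃ k c0 : ℕ, ∀ c u e : ℕ, c0 ≤ c → c ≤ u → k ≤ e →
  ∃ (C : ℝ) (b0 : ℕ), 0 < C ∧ ∀ n j : ℕ, b0 ≤ j → 2 ^ b0 * ml j ≤ n →
    gf (GFT n j η κ a m c u e k) ≤ ENNReal.ofReal (C * prT n j)

/-! ### (T2) at the top: closed words rooted at their top -/

/-- the start is the lexicographic top, in some direction -/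
def TopR (L : List Bool) : Prop := ∃ d ∈ dirs, ∀ s, s ≤ L.length →
  ip (vx oo up L s) d < 0 ∨ (ip (vx oo up L s) d = 0 ∧ ip (vx oo up L s) (rotL d) ≤ 0)

/-- closed words with N edges rooted at the top -/
def CyT (N : ℕ) : Set (List Bool) := {L | L ∈ POL.Cy N ∧ TopR L}

/-- **row P** (one top per polygon and direction: N gf (CyT N) <= 6 gf (Cy N)) -/
def CyTSt : Prop := ∃ C : ℝ, 0 < C ∧ ∀ N : ℕ, 1 ≤ N → gf (CyT N) ≤ ENNReal.ofReal (C * (N : ℝ) ^ (-(5 / 2) : ℝ))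

/-- closed words with n + 1 edges rooted at the top, without the last letter -/
def C0T (n : ℕ) : Set (List Bool) := {L | ∃ b : Bool, L ++ [b] ∈ CyT (n + 1)}

/-- **row D** (double counting at both ends of a closed word rooted at the top) -/
def ExCT : Prop := ∀ (η : ℝ) (c : ℕ), 0 < η → ∃ C : ℝ, 0 < C ∧ ∀ (D : ℝ) (n i b : ℕ), 0 ≤ D → HT D n i → b ≤ i →
  ∀ (ρ : List Bool → List Bool → List Bool → Prop) (x : ℝ≥0∞) (q : ℝ),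
    (∀ Y2 M Y1, ρ Y2 M Y1 → M ∈ GT b η ∧ rv M ∈ GT b η) →
    (∀ M, ∑' p : {p : List Bool × List Bool | ρ p.1 M p.2 ∧ In (2 ^ (i + c)) p.1 ∧ In (2 ^ (i + c)) p.2 ∧
      p.1 ++ (M ++ p.2) ∈ C0T n}, wE (p : List Bool × List Bool).1 * wE (p : List Bool × List Bool).2 ≤
        x * ENNReal.ofReal (ARM.wt n M.length i)) → 0 < q →
    gf {L | L ∈ C0T n ∧ q ≤ ((tri (2 ^ (i + c)) ρ L).ncard : ℝ)} * (ENNReal.ofReal q * Xb b ^ 2) ≤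
      ENNReal.ofReal (C * D * prT n i) * x

/-- **row D'** (the form of `ARM.ExCs`, used by all rows of block B) -/
def ExCTs : Prop := ∀ (η : ℝ) (E c : ℕ), 0 < η → ∃ C : ℝ, 0 < C ∧ ∀ (D : ℝ) (n i b : ℕ), 0 ≤ D → HT D n i → b ≤ i →
  ∀ (ρ : List Bool → List Bool → List Bool → Prop) (x : ℝ≥0∞) (q : ℝ), (∀ Y2 M Y1, ρ Y2 M Y1 → M ∈ TwoG η E b) →
    (∀ M, ∑' p : {p : List Bool × List Bool | ρ p.1 M p.2 ∧ In (2 ^ (i + c)) p.1 ∧ In (2 ^ (i + c)) p.2 ∧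
      p.1 ++ (M ++ p.2) ∈ C0T n}, wE (p : List Bool × List Bool).1 * wE (p : List Bool × List Bool).2 ≤
        x * ENNReal.ofReal (ARM.wt n M.length i)) → 0 < q →
    gf {L | L ∈ C0T n ∧ q ≤ ((tri (2 ^ (i + c)) ρ L).ncard : ℝ)} * (ENNReal.ofReal q * Xb b ^ 2) ≤
      ENNReal.ofReal (C * D * prT n i) * x

/-- **row T2N** -/
def T2NT : Prop := ∀ ε : ℝ, 0 < ε → ∃ (η κ : ℝ) (a m b0 : ℕ), 0 < η ∧ 0 < κ ∧ a ≤ b0 ∧ ∀ n j : ℕ,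
  b0 ≤ j → 2 ^ b0 * ml j ≤ n → gf {L | L ∈ C0T n ∧ (gc j a m η L < κ * Ub j ∨ gc j a m η (rv L) < κ * Ub j)} ≤
    ENNReal.ofReal (ε * (n : ℝ) ^ (-(5 / 2) : ℝ))

/-- **row T2S** -/
def T2ST : Prop := ∃ (C : ℝ) (b0 : ℕ), 0 < C ∧ ∀ n l i : ℕ, b0 ≤ l → l ≤ i → 1 ≤ n →
  gf {L | L ∈ C0T n ∧ (L ∈ ESe l i ∨ rv L ∈ ESe l i)} ≤
    ENNReal.ofReal (C * (2 : ℝ) ^ (-(1 / 8 : ℝ) * ((i : ℝ) - l)) * (n : ℝ) ^ (-(5 / 2) : ℝ))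

/-- **row T2Q** (form of `ARM.T2Qc`) -/
def T2QcT : Prop := ∀ (u c k : ℕ) (ε : ℝ), c ≤ u → 0 < ε → ∃ e b0 : ℕ, k ≤ e ∧ e ≤ b0 ∧ ∀ n j : ℕ, b0 ≤ j → 2 ^ b0 * ml j ≤ n →
  gf {L | L ∈ C0T n ∧ L ∈ NTc (j + c) (j + u) (2 ^ (j - e)) (2 ^ (j - k))} ≤ ENNReal.ofReal (ε * (n : ℝ) ^ (-(5 / 2) : ℝ))

/-- **row T2C** -/
def T2CT : Prop := ∀ (u : ℕ) (ε : ℝ), 0 < ε → ∃ b0 : ℕ, ∀ n j : ℕ, b0 ≤ j → 2 ^ b0 * ml j ≤ n →
  gf {L | L ∈ C0T n ∧ ∀ s, s ≤ L.length → dz L s ≤ 2 ^ (j + u)} ≤ ENNReal.ofReal (ε * (n : ℝ) ^ (-(5 / 2) : ℝ))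

/-- the good words of the level j, also for closed words (as `ARM.GFc`) -/
def GFcT (n j : ℕ) (η κ : ℝ) (a m c u e k : ℕ) : Set (List Bool) :=
  {L | L ∈ FT n j ∧ (∃ s, s ≤ L.length ∧ 2 ^ (j + u) < dz L s) ∧ L ∉ NTc (j + c) (j + u) (2 ^ (j - e)) (2 ^ (j - k)) ∧
    ∀ T, T = L ∨ T = rv L → κ * Ub j ≤ gc j a m η T ∧
      (∀ i, j + c ≤ i + 1 → T ∉ ESe (j + m + 4) i) ∧ (∀ i, j + u ≤ i → T ∉ ESe (j + c) i)}

end ART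

end HexObs
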