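import Pool.Agent.ARM.DefsG
import Pool.Agent.ART.Defs

/-!
# ART, row G (helper87): literals

As `ARM.DefsG`. New: `Jp E r D k R M`: outside of the ball of radius R around the start, the word M is lower than some vertex
of the path (by at least `2 ^ (k + 12)`, in some direction): then the top of the closed word is in the tube or in the ball.
-/

set_option autoImplicit false

namespace HexObs

namespace ART

open Finset TS SDN SIM NTA TIP ARM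

open scoped ENNReal

/-- in some direction, every vertex of M is in the ball of radius R around the start or lower than some vertex of the path -/
def Jp (E : ℕ → Pt) (r : ℕ) (D : ℤ) (k : ℕ) (R : ℤ) (M : List Bool) : Prop :=
  ∃ d ∈ dirs, ∃ j, j ≤ r ∧ ∀ i, i ≤ M.length →
    TIW.hn (vx oo up M i) ≤ R ∨ ip (vx oo up M i) d + 2 ^ (k + 12) ≤ ip (qv E D r j) d

/-- **row G2**: the mass of the joinable words with the top near the path, window of the length `ml k` -/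
def JMassT : Prop := ∃ H0 : ℕ, 2 ^ 13 ≤ H0 ∧ ∀ H : ℕ, H0 ≤ H → ∀ Mx K : ℕ, ∃ (C : ℝ) (k0 : ℕ), 0 < C ∧
  ∀ (k r n : ℕ) (D : ℤ) (E : ℕ → Pt), k0 ≤ k → 18 * (H * 2 ^ k) ≤ D → D ≤ 36 * (H * 2 ^ k) → 3 ≤ r → r ≤ Mx →
    IPg E r → E (r - 1) = up →
    gf {M | Jn E r D k M ∧ Jp E r D k (K * 2 ^ k) M ∧ n ≤ M.length ∧ (M.length : ℝ) < n + ml k} ≤
      ENNReal.ofReal (C * (4 ^ k * Ub k) * (ml k * (max (n : ℝ) (ml k)) ^ (-(5 / 2 : ℝ))))

/-- **row G1**: as `ARM.JoinSt`, and the top is near the path -/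
def JoinT : Prop := ∀ (η κ : ℝ) (a m : ℕ), 0 < η → 0 < κ → ∃ k c0 : ℕ, ∀ c u e : ℕ, c0 ≤ c → c ≤ u → k ≤ e →
  ∀ H : ℕ, 2 ^ 13 ≤ H → ∃ Mx sx K b0 : ℕ, ∀ j : ℕ, b0 ≤ j → ∃ DD : Finset ℤ, DD.card ≤ Mx ∧ ∀ n : ℕ, 2 ^ b0 * ml j ≤ n →
    ∀ X M Y : List Bool, X ++ (M ++ Y) ∈ GFT n j η κ a m c u e k → CutP j a m η X M Y →
      ∃ (k' r : ℕ) (D : ℤ) (E : ℕ → Pt), D ∈ DD ∧ k' ≤ j ∧ j ≤ k' + sx ∧ 18 * (H * 2 ^ k') ≤ D ∧
        D ≤ 36 * (H * 2 ^ k') ∧ 4 ≤ r ∧ r ≤ Mx ∧ IPg E r ∧ E (r - 1) = up ∧ E (r - 2) = up ∧ Jn E r D k' M ∧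
        Jp E r D k' (K * 2 ^ k') M

/-- row G3: the double count -/
def GlueT : Prop := JoinT → JMassT → YMassW → GoodT

end ART

end HexObs
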