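import Pool.Agent.ART.NumT
import Pool.Agent.ARM.Rv
import Pool.Agent.ARM.NumB

/-!
ART: the constraint TT and the classes FT, FTp (helper53): prefixes, small appends, the reversed word; monotonicity;
`gf_rvT` (clone of `ARM.gf_rv`).
-/

set_option autoImplicit false

namespace HexObs

namespace ART

open Finset TS SDN SIM NTA TIP ARM

open scoped ENNReal

/-! ### vertices -/

lemma vx_pre (A Z : List Bool) {i : ℕ} (h : i ≤ A.length) : vx oo up (A ++ Z) i = vx oo up A i := by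
  exact vx_append (by omega)

lemma en_appT (A Z : List Bool) : TIW.en (A ++ Z) = TIW.en A + mulE (TIW.rt A) (TIW.en Z) := by
  have h := TIW.vx_app A Z Z.length
  unfold TIW.en at h ⊢
  rw [List.length_append]
  exact h

lemma hn_rt (A : List Bool) (p : Pt) : TIW.hn (mulE (TIW.rt A) p) = TIW.hn p := TIW.hn_mulE (TIW.nrm_rt A) p

/-- scalar products of rotated points -/
lemma ip_mulE_left {u : Pt} (hu : nrm u = 1) (p d : Pt) : ip (mulE u p) d = ip p (mulE (conjE u) d) := by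
  have h4 : ip (mulE u p) (mulE u (mulE (conjE u) d)) = ip p (mulE (conjE u) d) := by
    rw [ip_mulE, hu, one_mul]
  rw [← h4, mulE_assoc, mulE_conjE, hu, mulE_one]

lemma conj_mem {u d : Pt} (hu : nrm u = 1) (hd : d ∈ dirs) : mulE (conjE u) d ∈ dirs := by
  rw [mem_dirs, nrm_mulE, nrm_conjE, hu, one_mul]
  exact mem_dirs.1 hd

/-! ### the constraint -/

lemma TT_mono {L : List Bool} {r r' : ℝ} (h : r ≤ r') (hL : TT L r) : TT L r' := by
  obtain ⟨h1, d, hd, h2⟩ := hL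
  exact ⟨h1.trans h, d, hd, fun s hs => ⟨(h2 s hs).1.trans h, (h2 s hs).2.trans h⟩⟩

lemma TT_nonneg {L : List Bool} {r : ℝ} (hL : TT L r) : 0 ≤ r := by
  refine le_trans ?_ hL.1
  exact_mod_cast TIW.hn_nonneg _

/-- removal of the end -/
lemma TT_pre {A Z : List Bool} {r s : ℝ} (h : TT (A ++ Z) r)
    (hZ : ∀ k, k ≤ Z.length → ((TIW.hn (vx oo up Z k) : ℤ) : ℝ) ≤ s) : TT A (r + s) := by
  obtain ⟨h1, d, hd, h2⟩ := h
  have hs := hZ Z.length le_rfl
  have hs0 : 0 ≤ s := le_trans (by exact_mod_cast TIW.hn_nonneg _) hs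
  have e1 : TIW.en A = TIW.en (A ++ Z) - mulE (TIW.rt A) (TIW.en Z) := by
    rw [en_appT]
    abel
  refine ⟨?_, d, hd, fun t ht => ?_⟩
  · have h3 := TIW.hn_sub (TIW.en (A ++ Z)) (mulE (TIW.rt A) (TIW.en Z))
    rw [← e1, hn_rt] at h3
    have h4 : ((TIW.hn (TIW.en A) : ℤ) : ℝ) ≤ ((TIW.hn (TIW.en (A ++ Z)) : ℤ) : ℝ) + ((TIW.hn (TIW.en Z) : ℤ) : ℝ) := by
      exact_mod_cast h3
    have h5 : ((TIW.hn (TIW.en Z) : ℤ) : ℝ) ≤ s := hs
    linarith
  · have h3 := h2 t (by rw [List.length_append]; omega)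
    rw [vx_pre A Z ht] at h3
    refine ⟨h3.1.trans (by linarith), ?_⟩
    have h4 : ip (vx oo up A t - TIW.en A) d = ip (vx oo up A t - TIW.en (A ++ Z)) d + ip (mulE (TIW.rt A) (TIW.en Z)) d := by
      rw [← ip_add_left]
      congr 1
      rw [en_appT]
      abel
    have h5 := TIW.ip_le_hn (mulE (TIW.rt A) (TIW.en Z)) hd
    rw [hn_rt] at h5
    have h6 : ((ip (vx oo up A t - TIW.en A) d : ℤ) : ℝ) ≤ ((ip (vx oo up A t - TIW.en (A ++ Z)) d : ℤ) : ℝ) +
        ((TIW.hn (TIW.en Z) : ℤ) : ℝ) := by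
      rw [h4]
      push_cast
      have h7 : ((ip (mulE (TIW.rt A) (TIW.en Z)) d : ℤ) : ℝ) ≤ ((TIW.hn (TIW.en Z) : ℤ) : ℝ) := by exact_mod_cast h5
      linarith
    have h8 : ((TIW.hn (TIW.en Z) : ℤ) : ℝ) ≤ s := hs
    linarith [h3.2]

/-- a small append -/
lemma TT_app {A e : List Bool} {r s : ℝ} (h : TT A r)
    (he : ∀ k, k ≤ e.length → ((TIW.hn (vx oo up e k) : ℤ) : ℝ) ≤ s) : TT (A ++ e) (r + 2 * s) := by
  have hr := TT_nonneg h
  obtain ⟨h1, d, hd, h2⟩ := h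
  have hs := he e.length le_rfl
  have hs0 : 0 ≤ s := le_trans (by exact_mod_cast TIW.hn_nonneg _) hs
  have hsE : ((TIW.hn (TIW.en e) : ℤ) : ℝ) ≤ s := hs
  have hA := h2 A.length le_rfl
  have hA0 : ((ip (TIW.en A) d : ℤ) : ℝ) ≤ r := hA.1
  refine ⟨?_, d, hd, fun t ht => ?_⟩
  · have h3 := TIW.hn_add (TIW.en A) (mulE (TIW.rt A) (TIW.en e))
    rw [← en_appT, hn_rt] at h3
    have h4 : ((TIW.hn (TIW.en (A ++ e)) : ℤ) : ℝ) ≤ ((TIW.hn (TIW.en A) : ℤ) : ℝ) + ((TIW.hn (TIW.en e) : ℤ) : ℝ) := by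
      exact_mod_cast h3
    linarith
  · -- the rotated direction
    have hneg := TIW.neg_hn_le_ip (mulE (TIW.rt A) (TIW.en e)) hd
    rw [hn_rt] at hneg
    have hneg' : -((TIW.hn (TIW.en e) : ℤ) : ℝ) ≤ ((ip (mulE (TIW.rt A) (TIW.en e)) d : ℤ) : ℝ) := by exact_mod_cast hneg
    rcases Nat.lt_or_ge A.length t with h3 | h3
    · obtain ⟨k, rfl⟩ : ∃ k, t = A.length + k := ⟨t - A.length, by omega⟩
      have hk : k ≤ e.length := by
        rw [List.length_append] at ht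
        omega
      have h4 := TIW.vx_app A e k
      have h5 := TIW.ip_le_hn (mulE (TIW.rt A) (vx oo up e k)) hd
      rw [hn_rt] at h5
      have h6 : ((ip (mulE (TIW.rt A) (vx oo up e k)) d : ℤ) : ℝ) ≤ ((TIW.hn (vx oo up e k) : ℤ) : ℝ) := by exact_mod_cast h5
      have h7 := he k hk
      constructor
      · rw [h4, ip_add_left]
        push_cast
        linarith
      · have h8 : ip (vx oo up (A ++ e) (A.length + k) - TIW.en (A ++ e)) d =
            ip (mulE (TIW.rt A) (vx oo up e k)) d - ip (mulE (TIW.rt A) (TIW.en e)) d := by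
          rw [← ip_sub_left]
          congr 1
          rw [h4, en_appT]
          abel
        rw [h8]
        push_cast
        linarith
    · have h4 := h2 t h3
      rw [vx_pre A e h3]
      refine ⟨h4.1.trans (by linarith), ?_⟩
      have h8 : ip (vx oo up A t - TIW.en (A ++ e)) d = ip (vx oo up A t - TIW.en A) d - ip (mulE (TIW.rt A) (TIW.en e)) d := by
        rw [← ip_sub_left]
        congr 1
        rw [en_appT]
        abel
      rw [h8]
      push_cast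
      linarith [h4.2]

/-- the reversed word -/
lemma TT_rv {L : List Bool} {r : ℝ} (h1 : 1 ≤ L.length) (h : TT L r) : TT (rv L) (r + 2) := by
  obtain ⟨h2, d, hd, h3⟩ := h
  obtain ⟨c, hc, hf⟩ := rv_vx L
  have hn : nrm c = 1 := mem_dirs.1 hc
  have hone := hf (L.length - 1) (by omega)
  rw [show L.length - (L.length - 1) = 1 by omega] at hone
  have hen : TIW.en (rv L) = vx oo up (rv L) (L.length - 1) := by
    unfold TIW.en
    rw [rv_length]
  refine ⟨?_, mulE (conjE c) d, conj_mem hn hd, fun s hs => ?_⟩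
  · have h4 := hn_en_rv h1
    have h5 : ((TIW.hn (TIW.en (rv L)) : ℤ) : ℝ) ≤ ((TIW.hn (TIW.en L) : ℤ) : ℝ) + 2 := by exact_mod_cast h4
    linarith
  · rw [rv_length] at hs
    have h4 := hf s (by omega)
    have h5 := h3 (L.length - s) (by omega)
    have e1 : mulE c (vx oo up (rv L) s) = vx oo up L (L.length - s) - TIW.en L := by
      rw [h4]
      abel
    have e2 : mulE c (vx oo up (rv L) s - TIW.en (rv L)) = vx oo up L (L.length - s) - vx oo up L 1 := by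
      rw [mulE_sub, e1, hen]
      have : mulE c (vx oo up (rv L) (L.length - 1)) = vx oo up L 1 - TIW.en L := by
        rw [hone]
        abel
      rw [this]
      abel
    rw [← ip_mulE_left hn, ← ip_mulE_left hn, e1, e2]
    constructor
    · linarith [h5.2]
    · rw [ip_sub_left]
      have h6 := TIW.neg_hn_le_ip (vx oo up L 1) hd
      have h7 := hn_vx_one L
      have h8 : (-2 : ℝ) ≤ ((ip (vx oo up L 1) d : ℤ) : ℝ) := by
        have : (-2 : ℤ) ≤ ip (vx oo up L 1) d := by linarith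
        exact_mod_cast this
      push_cast
      linarith [h5.1]

/-! ### the classes -/

lemma FT_sub_F (n j : ℕ) : FT n j ⊆ F n j := by
  rintro L ⟨h1, h2, h3, h4⟩
  rw [mem_F]
  refine ⟨h1, h2, h3, ?_⟩
  exact_mod_cast h4.1

lemma FTp_sub_Fp (n j : ℕ) : FTp n j ⊆ Fp n j := by
  rintro L ⟨h1, h2, h3, h4⟩
  refine ⟨h1, h2, h3, ?_⟩
  exact_mod_cast h4.1

lemma FT_sub_FTp (n j : ℕ) : FT n j ⊆ FTp n j := fun _ h => ⟨h.1, h.2.1, h.2.2.1, TT_mono (by linarith) h.2.2.2⟩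

lemma FT_mono {n j i : ℕ} (h : j ≤ i) : FT n j ⊆ FT n i := by
  rintro L ⟨h1, h2, h3, h4⟩
  refine ⟨h1, h2, h3.trans_le (by have := ml_le h; linarith), TT_mono ?_ h4⟩
  exact pow_le_pow_right₀ (by norm_num) h

lemma FTp_sub_FT {n j : ℕ} (h : 1 ≤ j) : FTp n j ⊆ FT n (j + 1) := by
  rintro L ⟨h1, h2, h3, h4⟩
  refine ⟨h1, h2, h3.trans_le (by have := ml_le (Nat.le_succ j); linarith), TT_mono ?_ h4⟩
  have h5 : (2 : ℝ) ^ 1 ≤ 2 ^ j := pow_le_pow_right₀ (by norm_num) h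
  rw [pow_succ]
  linarith

lemma HT.mono {D : ℝ} {n n' j j' : ℕ} (h : HT D n j) (hn : n' ≤ n) (hj : j ≤ j') : HT D n' j' :=
  fun m i hm hi => h m i (hm.trans hn) (hj.trans hi)

lemma FTp_mass {D : ℝ} {n j : ℕ} (hD : 0 ≤ D) (h : HT D n j) (hj : 1 ≤ j) :
    gf (FTp n j) ≤ ENNReal.ofReal ((2 : ℝ) ^ (123 / 24 : ℝ) * D * prT n j) := by
  refine (gf_mono (FTp_sub_FT hj)).trans ((h n (j + 1) le_rfl (by omega)).trans (ENNReal.ofReal_le_ofReal ?_))
  have h1 := prT_up n j 1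
  rw [Nat.cast_one, mul_one] at h1
  calc D * prT n (j + 1) ≤ D * ((2 : ℝ) ^ (123 / 24 : ℝ) * prT n j) := by gcongr
    _ = _ := by ring

/-- the class FT goes to the class FTp -/
lemma rv_memT {n j : ℕ} {L : List Bool} (hn : 1 ≤ n) (h : L ∈ FT n j) : rv L ∈ FTp (n - 1) j := by
  obtain ⟨h1, h2, h3, h4⟩ := h
  have e : ((n - 1 : ℕ) : ℝ) = (n : ℝ) - 1 := by
    rw [Nat.cast_sub hn, Nat.cast_one]
  have e2 : (((L.length - 1 : ℕ)) : ℝ) = (L.length : ℝ) - 1 := by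
    rw [Nat.cast_sub (hn.trans h2), Nat.cast_one]
  refine ⟨rv_SA h1, ?_, ?_, TT_rv (hn.trans h2) h4⟩
  · rw [rv_length]
    omega
  · rw [rv_length, e2, e]
    linarith

/-- **the transfer to the reversed walk** -/
theorem gf_rvT {n j : ℕ} (hn : 1 ≤ n) (X : Set (List Bool)) :
    gf {L | L ∈ FT n j ∧ rv L ∈ X} ≤ 2 * gf {L | L ∈ FTp (n - 1) j ∧ L ∈ X} := by
  have hsub : {L | L ∈ FT n j ∧ rv L ∈ X} ⊆ {L | (L ∈ FT n j ∧ rv L ∈ X) ∧ (rev L).headD true = true} ∪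
      {L | (L ∈ FT n j ∧ rv L ∈ X) ∧ (rev L).headD true = false} := by
    intro L hL
    cases hb : (rev L).headD true with
    | true => exact Or.inl ⟨hL, hb⟩
    | false => exact Or.inr ⟨hL, hb⟩
  have hlen : ∀ L, L ∈ FT n j → 1 ≤ L.length := fun L hL => hn.trans hL.2.1
  have hb : ∀ b : Bool, gf {L | (L ∈ FT n j ∧ rv L ∈ X) ∧ (rev L).headD true = b} ≤ gf {L | L ∈ FTp (n - 1) j ∧ L ∈ X} := by
    intro b
    have := gf_le_of_inj (P := {L | (L ∈ FT n j ∧ rv L ∈ X) ∧ (rev L).headD true = b})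
      (Q := {L | L ∈ FTp (n - 1) j ∧ L ∈ X}) rv (fun L hL => ⟨rv_memT hn hL.1.1, hL.1.2⟩)
      (fun L hL L' hL' h => rv_inj (hlen L hL.1.1) (hlen L' hL'.1.1) h (hL.2.trans hL'.2.symm)) 1
      (fun L hL => by rw [one_mul]; exact wE_rv (hlen L hL.1.1))
    rwa [one_mul] at this
  calc gf {L | L ∈ FT n j ∧ rv L ∈ X} ≤ _ := gf_mono hsub
    _ ≤ _ := gf_union_le _ _
    _ ≤ gf {L | L ∈ FTp (n - 1) j ∧ L ∈ X} + gf {L | L ∈ FTp (n - 1) j ∧ L ∈ X} := add_le_add (hb true) (hb false)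
    _ = _ := (two_mul _).symm

end ART

end HexObs
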