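import Pool.Agent.ARM.Mid
import Pool.Agent.ARM.JoinR
import Pool.Agent.ART.DefsG
import Pool.Agent.ART.Tc

/-!
# ART, row G1 (helper51): chains of free cells between any two free points near the tip (clone of `ARM.Mctx.chn`), the row
-/

set_option autoImplicit false

namespace HexObs

namespace ART

open Finset TS SDN SIM NTA TIP TIW ARM

section ctx

variable {j a m c u e k : ℕ} {L M : List Bool} {x σ : ℕ}

/-- **the corridor between two free points** (frame: end of M = 0) -/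
theorem chnZ (h : Mctx j a m c u e k L M x σ) (hak : a + 6 ≤ k) (hke : k ≤ e) (hmc : m + 7 ≤ c) (hcu : c ≤ u)
    (hej : e + 4 ≤ j) {q : ℕ} {r : ℤ} (hq : 1 ≤ q) (hr : 0 ≤ r) (hrq : 3 * (2 * r + 3) * q ≤ 2 ^ (j - e)) {z1 z2 : Pt}
    (hz1 : hn z1 ≤ 8 * 2 ^ (j + m)) (hz2 : hn z2 ≤ 8 * 2 ^ (j + m))
    (f1 : ∀ t, t ≤ M.length → 7 * (2 : ℤ) ^ (j - a) ≤ 32 * hn (wv M t - z1) + 64)
    (f2 : ∀ t, t ≤ M.length → 7 * (2 : ℤ) ^ (j - a) ≤ 32 * hn (wv M t - z2) + 64) :
    Relation.ReflTransGen (fun f g => adj f g ∧ nr (2 ^ (j + c - 1) / q) 0 g ∧ ∀ t, t ≤ M.length → ¬ nr r (cel q (wv M t)) g)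
      (cel q z1) (cel q z2) := by
  -- the numbers
  obtain ⟨H, hH⟩ : ∃ H : ℤ, H = q := ⟨_, rfl⟩
  have hH1 : 1 ≤ H := by rw [hH]; exact_mod_cast hq
  rw [← hH] at hrq ⊢
  obtain ⟨B, hB⟩ : ∃ B : ℤ, B = 2 ^ (j - a - 6) := ⟨_, rfl⟩
  obtain ⟨E, hE⟩ : ∃ E : ℤ, E = 2 ^ (j + m) := ⟨_, rfl⟩
  obtain ⟨T, hT⟩ : ∃ T : ℤ, T = 2 ^ j := ⟨_, rfl⟩
  obtain ⟨G, hG⟩ : ∃ G : ℤ, G = 2 ^ (j + c - 2) := ⟨_, rfl⟩
  obtain ⟨xe, hxe⟩ : ∃ xe : ℤ, xe = 2 ^ (j - e) := ⟨_, rfl⟩
  obtain ⟨xk, hxk⟩ : ∃ xk : ℤ, xk = 2 ^ (j - k) := ⟨_, rfl⟩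
  have pA : (2 : ℤ) ^ (j - a) = 64 * B := by
    rw [hB, show j - a = (j - a - 6) + 6 by omega, pow_add]
    norm_num
    ring
  have pB : 16 ≤ B := by
    have : (2 : ℤ) ^ 4 ≤ 2 ^ (j - a - 6) := pow_le_pow_right₀ (by norm_num) (by omega)
    rw [hB]
    linarith
  have pk : xk ≤ B := by rw [hxk, hB]; exact pow_le_pow_right₀ (by norm_num) (by omega)
  have pe : xe ≤ xk := by rw [hxk, hxe]; exact pow_le_pow_right₀ (by norm_num) (by omega)
  have pT : 64 * B ≤ T := by rw [← pA, hT]; exact pow_le_pow_right₀ (by norm_num) (by omega)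
  have pE : T ≤ E := by rw [hE, hT]; exact pow_le_pow_right₀ (by norm_num) (by omega)
  have pG : 32 * E ≤ G := by
    have h1 : (2 : ℤ) ^ (j + m + 5) ≤ 2 ^ (j + c - 2) := pow_le_pow_right₀ (by norm_num) (by omega)
    rw [pow_add] at h1
    rw [hG, hE]
    linarith
  have pc : (2 : ℤ) ^ (j + c) = 4 * G := by
    rw [hG, show j + c = (j + c - 2) + 2 by omega, pow_add]
    norm_num
    ring
  have pc1 : (2 : ℤ) ^ (j + c - 1) = 2 * G := by
    rw [hG, show j + c - 1 = (j + c - 2) + 1 by omega, pow_succ]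
    ring
  have pm4 : (2 : ℤ) ^ (j + m + 4 + 1) = 32 * E := by
    rw [hE, show j + m + 4 + 1 = (j + m) + 5 by omega, pow_add]
    norm_num
    ring
  have pu : (2 : ℤ) ^ (j + c) ≤ 2 ^ (j + u) := pow_le_pow_right₀ (by norm_num) (by omega)
  rw [← hxe] at hrq
  have hrH : 0 ≤ r * H := by positivity
  have h9 : 6 * (r * H) + 9 * H ≤ xe := by linarith
  obtain ⟨ρ, hρ⟩ : ∃ ρ : ℤ, ρ = 4 * B / H - 1 := ⟨_, rfl⟩
  have r1 : (ρ + 1) * H ≤ 4 * B := by
    rw [hρ, sub_add_cancel]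
    exact Int.ediv_mul_le _ (by omega)
  have r2 : 4 * B < (ρ + 1) * H + H := by
    have := Int.lt_ediv_add_one_mul_self (4 * B) (show 0 < H by omega)
    rw [hρ, sub_add_cancel]
    linarith
  obtain ⟨R0, hR0⟩ : ∃ R0 : ℤ, R0 = 6 * E / H + 1 := ⟨_, rfl⟩
  have r3 : 6 * E < R0 * H := by
    have := Int.lt_ediv_add_one_mul_self (6 * E) (show 0 < H by omega)
    rw [hR0]
    exact this
  have r4 : R0 * H ≤ 6 * E + H := by
    have := Int.ediv_mul_le (6 * E) (show H ≠ 0 by omega)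
    rw [hR0]
    linarith
  obtain ⟨R1, hR1⟩ : ∃ R1 : ℤ, R1 = G / H + 1 := ⟨_, rfl⟩
  have r5 : G < R1 * H := by
    have := Int.lt_ediv_add_one_mul_self G (show 0 < H by omega)
    rw [hR1]
    exact this
  have r6 : R1 * H ≤ G + H := by
    have := Int.ediv_mul_le G (show H ≠ 0 by omega)
    rw [hR1]
    linarith
  have hqpos : 0 < q := by omega
  have nz : ∀ {t : ℕ}, t ≤ M.length → dz L (x + t) ≤ hn (wv M t) + 3 * E ∧ hn (wv M t) ≤ dz L (x + t) + 3 * E := by
    rw [hE]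
    exact h.near
  have hj1 : 1 ≤ j := by omega
  have hc1 : 1 ≤ c := by omega
  have hu3 : 3 ≤ u := by omega
  have en0 := h.en0
  rw [← hT] at en0
  have hS : hn (vx oo up L 1 - en L) ≤ T + 2 := hn_one en0
  have hlen := h.len
  have hsg := h.sg2
  have hfar := h.far
  -- words
  obtain ⟨tm, htm⟩ : ∃ tm : Bool → ℕ → ℕ, tm = fun s i => bif s then σ + i else σ - i := ⟨_, rfl⟩
  obtain ⟨nn, hnn⟩ : ∃ nn : Bool → ℕ, nn = fun s => bif s then M.length - σ else σ := ⟨_, rfl⟩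
  have tt : ∀ i, tm true i = σ + i := fun i => by rw [htm]; rfl
  have tf : ∀ i, tm false i = σ - i := fun i => by rw [htm]; rfl
  have nt : nn true = M.length - σ := by rw [hnn]; rfl
  have nf : nn false = σ := by rw [hnn]; rfl
  have tle : ∀ s i, i ≤ nn s → tm s i ≤ M.length := by
    intro s i hi
    cases s
    · rw [tf]; omega
    · rw [nt] at hi
      rw [tt]; omega
  -- small distance to the tip: small distance to the end
  have dzc : ∀ t, t ≤ M.length → nr (R1 + r + 2 + r + 2) 0 (cel q (wv M t)) → dz L (x + t) + xe ≤ 2 ^ (j + c) := by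
    intro t ht hn1
    rw [← cel_zero q] at hn1
    have h1 := hn_of_nr hqpos hn1
    rw [← hH, zero_sub, hn_neg] at h1
    have h2 := (nz ht).1
    rw [pc]
    nlinarith
  have key := corridor (n := nn) (γ := fun s i => cel q (wv M (tm s i))) (p := 0) (q1 := cel q z1)
    (q2 := cel q z2) (r := r) (ρ := ρ) (R0 := R0) (R1 := R1) (R' := R1 + r + 2) hr ?_ ?_ ?_ ?_ ?_
    ?_ ?_ ?_ ?_ ?_ ?_
  · refine Relation.ReflTransGen.mono (r := fun f g => adj f g ∧ nr (R1 + r + 2) 0 g ∧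
      ∀ (s : Bool) (i : ℕ), i ≤ nn s → ¬nr r (cel q (wv M (tm s i))) g) ?_ _ _ key
    rintro f g ⟨g1, g2, g3⟩
    refine ⟨g1, nr_mono ?_ g2, ?_⟩
    · rw [pc1]
      refine (Int.le_ediv_iff_mul_le (by omega)).2 ?_
      linarith
    · intro t ht
      rcases le_total σ t with hc | hc
      · have := g3 true (t - σ) (by rw [nt]; omega)
        simp only [tt] at this
        rwa [show σ + (t - σ) = t by omega] at this
      · have := g3 false (σ - t) (by rw [nf]; omega)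
        simp only [tf] at this
        rwa [show σ - (σ - t) = t by omega] at this
  · -- 2 (r + 1) ≤ ρ
    have : 2 * (r + 1) * H < ρ * H := by linarith
    exact (lt_of_mul_lt_mul_right this (by omega)).le
  · -- 0 ≤ R0
    rw [hR0]
    have : 0 ≤ 6 * E / H := Int.ediv_nonneg (by omega) (by omega)
    omega
  · -- R0 + r + 2 ≤ R1
    have : (R0 + r + 2) * H < R1 * H := by linarith
    exact (lt_of_mul_lt_mul_right this (by omega)).le
  · exact le_rfl
  · -- steps
    intro s i hi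
    cases s
    · rw [nf] at hi
      simp only [tf]
      refine nr_of_hn hqpos ?_
      rw [← hH]
      obtain ⟨v, hv⟩ : ∃ v, σ - i = v + 1 ∧ σ - (i + 1) = v := ⟨σ - (i + 1), by omega, rfl⟩
      rw [hv.1, hv.2, Mctx.stp]
      linarith
    · simp only [tt]
      refine nr_of_hn hqpos ?_
      rw [← hH, hn_sub_comm, ← add_assoc, Mctx.stp]
      linarith
  · -- q1
    rw [← cel_zero q]
    refine nr_of_hn hqpos ?_
    rw [← hH, zero_sub, hn_neg]
    rw [← hE] at hz1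
    linarith
  · -- q2
    rw [← cel_zero q]
    refine nr_of_hn hqpos ?_
    rw [← hH, zero_sub, hn_neg]
    rw [← hE] at hz2
    linarith
  · -- far from the two points
    intro s i hi
    have ht := tle s i hi
    constructor
    · intro hn1
      have h1 := hn_of_nr hqpos hn1
      have h2 := f1 _ ht
      rw [pA] at h2
      rw [← hH] at h1
      linarith
    · intro hn1
      have h1 := hn_of_nr hqpos hn1
      have h2 := f2 _ ht
      rw [pA] at h2
      rw [← hH] at h1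
      linarith
  · -- near touches of one word
    intro s i i' hii hi' hn1 hn2 k' hk1 hk2
    have ht := tle s i (by omega)
    have ht' := tle s i' hi'
    have d1 := dzc _ ht hn2
    have h1 := hn_of_nr hqpos hn1
    rw [← hH] at h1
    have h1' : hn (wv M (tm s i) - wv M (tm s i')) ≤ xe := by linarith
    have d2 : dz L (x + tm s i') ≤ 2 ^ (j + c) := by
      have e1 := h.iso (tm s i') (tm s i) ht' ht
      have e2 := hn_tri (vx oo up L (x + tm s i')) (vx oo up L (x + tm s i)) (en L)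
      rw [e1, hn_sub_comm (wv M (tm s i'))] at e2
      unfold dz at d1 ⊢
      linarith
    have d1' : dz L (x + tm s i) ≤ 2 ^ (j + c) := by
      have : 0 ≤ xe := by rw [hxe]; positivity
      linarith
    refine nr_of_hn hqpos ?_
    rw [← hH]
    have hlast : hn (wv M (tm s i) - wv M (tm s k')) < 2 * xk := by
      rw [hxe] at h1'
      cases s
      · rw [nf] at hi'
        rw [tf, tf] at *
        have a1 := h.nt1 hj1 hc1 hcu hu3 (t1 := σ - i') (t2 := σ - i) (Or.inr (by omega)) (by omega) (by omega) d2 d1'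
          (by rw [hn_sub_comm]; exact h1') (s := σ - k') (by omega) (by omega)
        have a2 := hn_tri (wv M (σ - i)) (wv M (σ - i')) (wv M (σ - k'))
        rw [← hxe] at h1'
        rw [← hxk] at a1
        linarith
      · rw [nt] at hi'
        rw [tt, tt] at *
        have a1 := h.nt1 hj1 hc1 hcu hu3 (t1 := σ + i) (t2 := σ + i') (Or.inl (by omega)) (by omega) (by omega) d1' d2
          h1' (s := σ + k') (by omega) (by omega)
        rw [← hxk] at a1
        have : 0 < xk := by rw [hxk]; positivity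
        linarith
    linarith
  · -- the two words do not come near each other
    intro i i' hi hi' hn2 hn1
    have ht := tle false i hi
    have ht' := tle true i' hi'
    have d1 := dzc _ ht hn2
    have h1 := hn_of_nr hqpos hn1
    rw [← hH] at h1
    have h1' : hn (wv M (tm false i) - wv M (tm true i')) ≤ xe := by linarith
    have d2 : dz L (x + tm true i') ≤ 2 ^ (j + c) := by
      have e1 := h.iso (tm true i') (tm false i) ht' ht
      have e2 := hn_tri (vx oo up L (x + tm true i')) (vx oo up L (x + tm false i)) (en L)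
      rw [e1, hn_sub_comm (wv M (tm true i'))] at e2
      unfold dz at d1 ⊢
      linarith
    have d1' : dz L (x + tm false i) ≤ 2 ^ (j + c) := by
      have : 0 ≤ xe := by rw [hxe]; positivity
      linarith
    rw [tf, tt] at *
    have := h.nt2 hj1 hc1 hcu hu3 (t1 := σ - i) (t2 := σ + i') (by omega) (by omega) (by omega) d1' d2
    rw [← hxe] at this
    linarith
  · -- no extra strand
    intro s i hi hn1 k' hk' hn2
    have ht := tle s i hi
    have htk := tle s k' (by omega)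
    have b1 : 3 * (R1 * H + 1) ≤ 2 * hn (wv M (tm s i)) := by
      by_contra hcon
      push Not at hcon
      apply hn1
      rw [← cel_zero q]
      refine nr_of_hn hqpos ?_
      rw [← hH, zero_sub, hn_neg]
      exact hcon
    have b2 : hn (wv M (tm s k')) < 3 * ((R0 + 1 + 1) * H) := by
      rw [← cel_zero q] at hn2
      have := hn_of_nr hqpos hn2
      rwa [← hH, zero_sub, hn_neg] at this
    have c1 := (nz ht).2
    have c2 := (nz htk).1
    have c3 : dz L (x + tm s k') + (T + 2) ≤ 2 ^ (j + m + 4 + 1) := by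
      rw [pm4]
      linarith
    have hsmall : dz L (x + tm s k') < dz L (x + tm s i) := by
      rw [pm4] at c3
      linarith
    have hsmall2 : dz L (x + tm s k') < dz L (x + σ) := by
      rw [pm4] at c3
      linarith
    have hES : ∀ T', T' = L ∨ T' = rv L → ∀ i, j + c - 1 ≤ i → T' ∉ ESe (j + m + 4) i := by
      intro T' hT' i hi
      exact h.es1 T' hT' i (by omega)
    have h5 : (2 : ℤ) ^ (j + c - 1) + 2 * (T + 2) < 2 * dz L (x + σ) := by
      rw [pc1]
      linarith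
    have h6 : (2 : ℤ) ^ (j + c - 1) + 2 * (T + 2) < 2 * dz L (x + tm s i) := by
      rw [pc1]
      linarith
    have h4 : T + 2 ≤ (2 : ℤ) ^ (j + c - 1) := by
      rw [pc1]
      linarith
    have one : ∀ t, 2 ^ (j + c - 1) + 2 * (T + 2) < 2 * dz L t → 1 ≤ t := by
      intro t ht
      by_contra hcon
      rw [show t = 0 by omega, dz_zero, pc1] at ht
      linarith
    cases s
    · rw [nf] at hi
      simp only [tf] at *
      exact noES hS hES (t := x + (σ - i)) (a := x + (σ - k')) (b := x + σ) (one _ h6) (by omega) (by omega) (by omega) c3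
        hsmall hsmall2 h4 h6 h5
    · rw [nt] at hi
      simp only [tt] at *
      exact noES hS hES (t := x + σ) (a := x + (σ + k')) (b := x + (σ + i)) (one _ h5) (by omega) (by omega) (by omega) c3
        hsmall2 hsmall h4 h5 h6

/-- the corridor from the point in front of the tip to a free point -/
theorem chnFree (h : Mctx j a m c u e k L M x σ) (hak : a + 6 ≤ k) (hke : k ≤ e) (hmc : m + 7 ≤ c) (hcu : c ≤ u)
    (hej : e + 4 ≤ j) {q w : ℕ} {r : ℤ} (hq : 1 ≤ q) (hr : 0 ≤ r) (hrq : 3 * (2 * r + 3) * q ≤ 2 ^ (j - e)) {z : Pt}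
    (hw1 : 2 ^ (j - a) ≤ 8 * w) (hw2 : 8 * w ≤ 3 * 2 ^ (j - a)) (hz : hn z ≤ 8 * 2 ^ (j + m))
    (f : ∀ t, t ≤ M.length → 7 * (2 : ℤ) ^ (j - a) ≤ 32 * hn (wv M t - z) + 64) :
    Relation.ReflTransGen (fun f g => adj f g ∧ nr (2 ^ (j + c - 1) / q) 0 g ∧ ∀ t, t ≤ M.length → ¬ nr r (cel q (wv M t)) g)
      (cel q ((w : ℤ) • de M)) (cel q z) := by
  refine chnZ h hak hke hmc hcu hej hq hr hrq ?_ hz (fun t ht => ?_) f
  swap
  · have h1 := h.far1 hw1 hw2 ht
    have h2 : (0 : ℤ) < 2 ^ (j - a) := by positivity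
    linarith
  have hw2' : 8 * (w : ℤ) ≤ 3 * 2 ^ (j - a) := by exact_mod_cast hw2
  have h1 : (2 : ℤ) ^ (j - a) ≤ 2 ^ (j + m) := pow_le_pow_right₀ (by norm_num) (by omega)
  rw [mid_hn_smul_dir (de_mem M)]
  have : (0 : ℤ) < 2 ^ (j + m) := by positivity
  linarith

end ctx

/-! ### the words of the top class -/

/-- M has a chain of cells of the mesh h from the point w • de M in front of the tip to the point z (frame: end of M = 0), in the
box of radius R, at distance more than r from M -/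
def ChnU (h w : ℕ) (r R : ℤ) (z : Pt) (M : List Bool) : Prop :=
  Relation.ReflTransGen (fun f g => adj f g ∧ nr R 0 g ∧ ∀ t, t ≤ M.length → ¬ nr r (cel h (wv M t)) g)
    (cel h ((w : ℤ) • de M)) (cel h z)

/-- **what row G1 gives for the middle word of a word of the top class**: `MidOk`, a row above the word (frame: end of M = 0), and
chains to all points above the row -/
structure MidU (a m c e j : ℕ) (M : List Bool) : Prop where
  ok : MidOk a m c e j M
  up : ∃ d ∈ dirs, (∀ t, t ≤ M.length → ip (wv M t) d ≤ 2 ^ (j + m + 2)) ∧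
    ∀ (h w : ℕ) (r : ℤ) (z : Pt), 1 ≤ h → 0 ≤ r → 3 * (2 * r + 3) * h ≤ 2 ^ (j - e) → 2 ^ (j - a) ≤ 8 * w →
      8 * w ≤ 3 * 2 ^ (j - a) → hn z ≤ 8 * 2 ^ (j + m) → 2 ^ (j + m + 2) + 2 ^ (j - a) ≤ ip z d →
        ChnU h w r ((2 ^ (j + c - 1) / h : ℕ) : ℤ) z M

section top

variable {n j a m c u e k : ℕ} {η κ : ℝ} {X M Y : List Bool}

lemma GFcT_sub : GFcT n j η κ a m c u e k ⊆ GFc n j η κ a m c u e k := fun _ h => ⟨FT_sub_F n j h.1, h.2⟩

lemma GFT_sub_GFcT : GFT n j η κ a m c u e k ⊆ GFcT n j η κ a m c u e k := by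
  rintro L ⟨h1, h2, h3⟩
  exact ⟨h1, h2, fun h => (h3 L (Or.inl rfl)).2.2.2 (NTs_of_NTc h2 h), fun T hT =>
    ⟨(h3 T hT).1, (h3 T hT).2.1, (h3 T hT).2.2.1⟩⟩

/-- **the row** -/
lemma rowM (hT : TT (X ++ (M ++ Y)) (2 ^ j)) (hY : In (2 ^ (j + m)) Y) :
    ∃ d ∈ dirs, ∀ t, t ≤ M.length → ip (wv M t) d ≤ 2 ^ (j + m + 2) := by
  obtain ⟨-, d, hd, h⟩ := hT
  refine ⟨mulE (conjE (rt X)) d, conj_mem (nrm_rt X) hd, fun t ht => ?_⟩
  rw [← ip_mulE_left (nrm_rt X)]
  have vM : ∀ t, t ≤ M.length + 1 → vx oo up (X ++ (M ++ Y)) (X.length + t) = en X + mulE (rt X) (vx oo up M t) := by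
    intro t ht
    rw [vx_app, vx_append ht]
  have e1 : mulE (rt X) (wv M t) = vx oo up (X ++ (M ++ Y)) (X.length + t) -
      vx oo up (X ++ (M ++ Y)) (X.length + M.length) := by
    rw [vM t (by omega), vM M.length (by omega)]
    unfold wv
    rw [mulE_sub]
    show mulE (rt X) (vx oo up M t) - mulE (rt X) (vx oo up M M.length) = _
    abel
  have e2 : vx oo up (X ++ (M ++ Y)) (X.length + M.length) - en (X ++ (M ++ Y)) = -mulE (rt (X ++ M)) (en Y) := by
    have hass : X ++ (M ++ Y) = (X ++ M) ++ Y := (List.append_assoc X M Y).symm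
    have h0 : vx oo up (X ++ (M ++ Y)) (X.length + M.length) = en (X ++ M) := by
      rw [hass, vx_append (by rw [List.length_append]; omega)]
      unfold TIW.en
      rw [List.length_append]
    rw [h0, hass, mid_en_app (X ++ M) Y]
    abel
  have hlen : (X ++ (M ++ Y)).length = X.length + M.length + Y.length := by
    rw [List.length_append, List.length_append]
    omega
  have h1 := (h (X.length + t) (by rw [hlen]; omega)).2
  have h1' : ip (vx oo up (X ++ (M ++ Y)) (X.length + t) - en (X ++ (M ++ Y))) d ≤ 2 ^ j := by exact_mod_cast h1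
  have h2 := mid_hn_In hY (le_refl Y.length)
  have h3 := neg_hn_le_ip (vx oo up (X ++ (M ++ Y)) (X.length + M.length) - en (X ++ (M ++ Y))) hd
  rw [e2, hn_neg, hn_mulE (nrm_rt _)] at h3
  have h4 : vx oo up (X ++ (M ++ Y)) (X.length + t) - vx oo up (X ++ (M ++ Y)) (X.length + M.length) =
      (vx oo up (X ++ (M ++ Y)) (X.length + t) - en (X ++ (M ++ Y))) -
        (vx oo up (X ++ (M ++ Y)) (X.length + M.length) - en (X ++ (M ++ Y))) := by abel
  rw [e1, h4, ip_sub', e2]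
  have cE : ((2 ^ (j + m) : ℕ) : ℤ) = 2 ^ (j + m) := by push_cast; rfl
  rw [cE] at h2
  have pE : (2 : ℤ) ^ j ≤ 2 ^ (j + m) := pow_le_pow_right₀ (by norm_num) (by omega)
  have p4 : (2 : ℤ) ^ (j + m + 2) = 2 ^ (j + m) * 4 := by rw [pow_add]; norm_num
  have h5 : hn (en Y) ≤ 3 * 2 ^ (j + m) := h2
  rw [p4]
  linarith

/-- points above the row are free -/
lemma free_row {d z : Pt} (hd : d ∈ dirs) (hrow : ∀ t, t ≤ M.length → ip (wv M t) d ≤ 2 ^ (j + m + 2))
    (hz : 2 ^ (j + m + 2) + 2 ^ (j - a) ≤ ip z d) {t : ℕ} (ht : t ≤ M.length) :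
    (2 : ℤ) ^ (j - a) ≤ hn (wv M t - z) := by
  have h1 := hrow t ht
  have h2 := neg_hn_le_ip (wv M t - z) hd
  rw [ip_sub'] at h2
  linarith

/-- **rows G1 for the words of the top class** (also closed words) -/
theorem midU_ofc (hη : 0 < η) (hak : a + 6 ≤ k) (hke : k ≤ e) (hmc : m + 7 ≤ c) (hcu : c ≤ u) (hej : e + 4 ≤ j)
    (hL : X ++ (M ++ Y) ∈ GFcT n j η κ a m c u e k) (hC : CutP j a m η X M Y) : MidU a m c e j M := by
  have hL' := GFcT_sub hL
  obtain ⟨σ, h1, h2, hM⟩ := mctx_of hη hmc hcu (by omega) hL' hC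
  obtain ⟨d, hd, hrow⟩ := rowM hL.1.2.2.2 hC.1.2.1
  refine ⟨midOk_of hη hak hke hmc hcu hej hL' hC, d, hd, hrow, fun h w r z hh hr hrh hw1 hw2 hz hzd => ?_⟩
  unfold ChnU
  have key := chnFree hM hak hke hmc hcu hej hh hr hrh hw1 hw2 hz (fun t ht => by
    have := free_row hd hrow hzd ht
    have h0 := hn_nonneg (wv M t - z)
    linarith)
  push_cast
  exact key

/-- the same for the words of GFT -/
theorem midU_of (hη : 0 < η) (hak : a + 6 ≤ k) (hke : k ≤ e) (hmc : m + 7 ≤ c) (hcu : c ≤ u) (hej : e + 4 ≤ j)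
    (hL : X ++ (M ++ Y) ∈ GFT n j η κ a m c u e k) (hC : CutP j a m η X M Y) : MidU a m c e j M :=
  midU_ofc hη hak hke hmc hcu hej (GFT_sub_GFcT hL) hC

/-! ### a given direction (row JoinTc) -/

/-- **the middle word in a given direction d** (frame: end of M = 0): row, chains to all free points near the tip -/
structure MidD (a m c e j : ℕ) (d : Pt) (M : List Bool) : Prop where
  ok : MidOk a m c e j M
  sta : hn (en M) ≤ 6 * 2 ^ (j + m) + 2 ^ j + 4
  row : ∀ t, t ≤ M.length → ip (wv M t) d ≤ 5 * 2 ^ (j + m)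
  chu : ∀ (h w : ℕ) (r : ℤ) (z : Pt), 1 ≤ h → 0 ≤ r → 3 * (2 * r + 3) * h ≤ 2 ^ (j - e) → 2 ^ (j - a) ≤ 8 * w →
    8 * w ≤ 3 * 2 ^ (j - a) → hn z ≤ 8 * 2 ^ (j + m) →
      (∀ t, t ≤ M.length → 7 * (2 : ℤ) ^ (j - a) ≤ 32 * hn (wv M t - z) + 64) →
        ChnU h w r ((2 ^ (j + c - 1) / h : ℕ) : ℤ) z M
  far2 : ∀ w : ℕ, 2 ^ (j - a) ≤ 8 * w → 8 * w ≤ 3 * 2 ^ (j - a) → ∀ t, t ≤ M.length →
    (2 : ℤ) ^ (j - a) ≤ 4 * hn (wv M t - (-(en M) - (w : ℤ) • up)) + 8

/-- **row G1 in a given direction** (open and closed words) -/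
theorem midD_ofc (hη : 0 < η) (hak : a + 6 ≤ k) (hke : k ≤ e) (hmc : m + 7 ≤ c) (hcu : c ≤ u) (hej : e + 4 ≤ j)
    (hL : X ++ (M ++ Y) ∈ GFc n j η κ a m c u e k) (hC : CutP j a m η X M Y) {d : Pt} (hd : d ∈ dirs)
    (hrow : ∀ s, s ≤ (X ++ (M ++ Y)).length → ip (vx oo up (X ++ (M ++ Y)) s) d ≤ 2 ^ j) :
    MidD a m c e j (mulE (conjE (rt X)) d) M := by
  obtain ⟨σ, h1, h2, hM⟩ := mctx_of hη hmc hcu (by omega) hL hC
  have hE0 : (0 : ℤ) < 2 ^ (j + m) := by positivity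
  have pE : (2 : ℤ) ^ j ≤ 2 ^ (j + m) := pow_le_pow_right₀ (by norm_num) (by omega)
  refine ⟨midOk_of hη hak hke hmc hcu hej hL hC, ?_, fun t ht => ?_, fun h w r z hh hr hrh hw1 hw2 hz hf => ?_,
    fun w hw1 hw2 t ht => hM.far2 hw1 hw2 ht⟩
  · have := hM.sta
    rwa [wv_zero, hn_neg] at this
  · rw [← ip_mulE_left (nrm_rt X)]
    have vM : ∀ t, t ≤ M.length + 1 → vx oo up (X ++ (M ++ Y)) (X.length + t) = en X + mulE (rt X) (vx oo up M t) := by
      intro t ht
      rw [vx_app, vx_append ht]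
    have e1 : mulE (rt X) (wv M t) = vx oo up (X ++ (M ++ Y)) (X.length + t) -
        vx oo up (X ++ (M ++ Y)) (X.length + M.length) := by
      rw [vM t (by omega), vM M.length (by omega)]
      unfold wv
      rw [mulE_sub]
      show mulE (rt X) (vx oo up M t) - mulE (rt X) (vx oo up M M.length) = _
      abel
    have hlen : (X ++ (M ++ Y)).length = X.length + M.length + Y.length := by
      rw [List.length_append, List.length_append]
      omega
    have h3 := hrow (X.length + t) (by rw [hlen]; omega)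
    have h4 := neg_hn_le_ip (vx oo up (X ++ (M ++ Y)) (X.length + M.length)) hd
    have h5 := hn_add (vx oo up (X ++ (M ++ Y)) (X.length + M.length) - en (X ++ (M ++ Y))) (en (X ++ (M ++ Y)))
    rw [sub_add_cancel] at h5
    have h6 := hM.tip
    have h7 := hM.en0
    rw [e1, ip_sub']
    linarith
  · unfold ChnU
    have key := chnFree hM hak hke hmc hcu hej hh hr hrh hw1 hw2 hz hf
    push_cast
    exact key

end top

/-! ### the chains in the form of `PathTSt` -/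

/-- the vertices of a word -/
def Vs (M : List Bool) : Set Pt := {p | ∃ i, i ≤ M.length ∧ p = vx oo up M i}

lemma ce_cast (D : ℕ) (v : Pt) : ce (8 * (D : ℤ)) v = cel (8 * D) v := by
  unfold ce cel
  push_cast
  rfl

section chains

variable {a m c e j : ℕ} {d : Pt} {M : List Bool}

lemma chain_of {D w : ℕ} {R : ℤ} {z : Pt} (h : ChnU (8 * D) w 3 R z M) :
    Relation.ReflTransGen (fun f g => adj f g ∧ nr R 0 g ∧ ∀ p ∈ Vs M, ¬ nr 3 (ce (8 * (D : ℤ)) (p - en M)) g)
      (ce (8 * (D : ℤ)) ((w : ℤ) • de M)) (ce (8 * (D : ℤ)) z) := by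
  unfold ChnU at h
  rw [ce_cast, ce_cast]
  refine Relation.ReflTransGen.mono (r := fun f g => adj f g ∧ nr R 0 g ∧ ∀ t, t ≤ M.length → ¬ nr 3 (cel (8 * D) (wv M t)) g)
    ?_ _ _ h
  rintro f g ⟨h1, h2, h3⟩
  refine ⟨h1, h2, ?_⟩
  rintro p ⟨i, hi, rfl⟩
  rw [ce_cast]
  exact h3 i hi

/-- **the chain to the node behind the start** -/
theorem chain_start (hM : MidD a m c e j d M) (hae : a + 6 ≤ e) (hej : e + 4 ≤ j) {D K : ℕ} (hD : 1 ≤ D)
    (hDe : 216 * D ≤ 2 ^ (j - e))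
    (hK1 : 2 ^ (j - a) ≤ 8 * (K * D)) (hK2 : 8 * (K * D) ≤ 3 * 2 ^ (j - a)) {g0 : Pt} {κ : ℤ}
    (hg : hn (en M - (D : ℤ) • g0) ≤ κ) (hκ : 32 * κ ≤ 2 ^ (j - a)) :
    Relation.ReflTransGen (fun f g => adj f g ∧ nr ((2 ^ (j + c - 1) / (8 * D) : ℕ) : ℤ) 0 g ∧
      ∀ p ∈ Vs M, ¬ nr 3 (ce (8 * (D : ℤ)) (p - en M)) g)
      (ce (8 * (D : ℤ)) (((K : ℤ) * D) • de M)) (ce (8 * (D : ℤ)) ((D : ℤ) • (-g0 - (K : ℤ) • up))) := by
  have hKD : (((K * D : ℕ) : ℤ)) = (K : ℤ) * D := by push_cast; rfl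
  have hK2' : 8 * ((K : ℤ) * D) ≤ 3 * 2 ^ (j - a) := by exact_mod_cast hK2
  have hK0 : (0 : ℤ) ≤ (K : ℤ) * D := by positivity
  have e0 : (D : ℤ) • (-g0 - (K : ℤ) • up) = (-(en M) - ((K * D : ℕ) : ℤ) • up) + (en M - (D : ℤ) • g0) := by
    rw [hKD, smul_sub, smul_smul, smul_neg, mul_comm (D : ℤ)]
    abel
  have pE : (2 : ℤ) ^ j ≤ 2 ^ (j + m) := pow_le_pow_right₀ (by norm_num) (by omega)
  have pa : (2 : ℤ) ^ (j - a) ≤ 2 ^ j := pow_le_pow_right₀ (by norm_num) (by omega)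
  have p6 : (2 : ℤ) ^ 10 ≤ 2 ^ (j - a) := pow_le_pow_right₀ (by norm_num) (by omega)
  have key := hM.chu (8 * D) (K * D) 3 ((D : ℤ) • (-g0 - (K : ℤ) • up)) (by omega) (by norm_num) (by
      push_cast
      have : (216 : ℤ) * D ≤ 2 ^ (j - e) := by exact_mod_cast hDe
      linarith) hK1 hK2 ?_ ?_
  · have := chain_of key
    rwa [hKD] at this
  · have h1 := hn_add (-(en M) - ((K * D : ℕ) : ℤ) • up) (en M - (D : ℤ) • g0)
    rw [← e0] at h1
    have h2 := hn_sub (-(en M)) (((K * D : ℕ) : ℤ) • up)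
    rw [mid_hn_smul_dir upd', hn_neg] at h2
    rw [hKD] at h1 h2
    have h3 := hM.sta
    linarith
  · intro t ht
    have h1 := hM.far2 (K * D) hK1 hK2 t ht
    have h2 := hn_add (wv M t - (D : ℤ) • (-g0 - (K : ℤ) • up)) (en M - (D : ℤ) • g0)
    have e1 : wv M t - (D : ℤ) • (-g0 - (K : ℤ) • up) + (en M - (D : ℤ) • g0) =
        wv M t - (-(en M) - ((K * D : ℕ) : ℤ) • up) := by
      rw [e0]
      abel
    rw [e1] at h2
    linarith

/-- **the chain to a point above the row** -/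
theorem chain_top (hM : MidD a m c e j d M) (hd : d ∈ dirs) {D K x : ℕ} (hD : 1 ≤ D) (hDe : 216 * D ≤ 2 ^ (j - e))
    (hK1 : 2 ^ (j - a) ≤ 8 * (K * D)) (hK2 : 8 * (K * D) ≤ 3 * 2 ^ (j - a))
    (hx1 : 5 * 2 ^ (j + m) + 2 ^ (j - a) ≤ 2 * x) (hx2 : 2 * x ≤ 8 * 2 ^ (j + m)) :
    Relation.ReflTransGen (fun f g => adj f g ∧ nr ((2 ^ (j + c - 1) / (8 * D) : ℕ) : ℤ) 0 g ∧
      ∀ p ∈ Vs M, ¬ nr 3 (ce (8 * (D : ℤ)) (p - en M)) g)
      (ce (8 * (D : ℤ)) (((K : ℤ) * D) • de M)) (ce (8 * (D : ℤ)) ((x : ℤ) • d)) := by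
  have hKD : (((K * D : ℕ) : ℤ)) = (K : ℤ) * D := by push_cast; rfl
  have hx1' : (5 : ℤ) * 2 ^ (j + m) + 2 ^ (j - a) ≤ 2 * x := by exact_mod_cast hx1
  have hx2' : 2 * (x : ℤ) ≤ 8 * 2 ^ (j + m) := by exact_mod_cast hx2
  have key := hM.chu (8 * D) (K * D) 3 ((x : ℤ) • d) (by omega) (by norm_num) (by
      push_cast
      have : (216 : ℤ) * D ≤ 2 ^ (j - e) := by exact_mod_cast hDe
      linarith) hK1 hK2 (by rw [mid_hn_smul_dir hd]; exact hx2') ?_
  · have := chain_of key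
    rwa [hKD] at this
  · intro t ht
    have h1 := hM.row t ht
    have h2 := neg_hn_le_ip (wv M t - (x : ℤ) • d) hd
    rw [ip_sub', ip_smul, ip_self_dir hd] at h2
    have h3 := hn_nonneg (wv M t - (x : ℤ) • d)
    have h4 : (0 : ℤ) < 2 ^ (j - a) := by positivity
    linarith

/-- the row in the frame of the start -/
lemma row_start (hM : MidD a m c e j d M) : ∀ p ∈ Vs M, ip p d ≤ ip (en M) d + 5 * 2 ^ (j + m) := by
  rintro p ⟨i, hi, rfl⟩
  have h1 := hM.row i hi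
  have e1 : vx oo up M i = wv M i + en M := by
    unfold wv
    abel
  rw [e1, ip_add_left]
  linarith

end chains

end ART

end HexObs
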