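import Pool.Agent.ART.TopJ
import Pool.Agent.ARM.JLow
import Pool.Agent.ARM.SmL
import Pool.Agent.ARM.T1

/-!
# ART, block C, row Cc (helper94): the sum over the two ends of a closed word rooted at the top, all lengths

* `innerT` : the middle part M fixed, the sum over the pairs (X, Y) of good ends with X ++ (M ++ Y) in `C0T n` for SOME n is at
  most C Ub j / 4 ^ j (clone of `ARM.JL.inner`; the root is the top of the root piece, `TopJ`: no factor for its position);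
* `outT` : a set of closed words with many good cuts at both ends weighs at most C / (κ ^ 2 Ub j 4 ^ j) times the set of its
  middle parts (clone of the first half of `ARM.JL.key`).
-/

set_option autoImplicit false

namespace HexObs

namespace ART

open Finset TS SDN SIM NTA TIP ARM

open scoped ENNReal

/-- the class of the outer parts of a closed word rooted at the top -/
def OPT (η : ℝ) (m n j : ℕ) (M : List Bool) : Set (List Bool × List Bool) :=
  {p | p.1 ∈ GT j η ∧ rev p.2 ∈ GT j η ∧ In (2 ^ (j + m)) (rev p.1) ∧ In (2 ^ (j + m)) p.2 ∧ p.1 ++ (M ++ p.2) ∈ C0T n}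

namespace IT

/-- the root piece has two rich ends -/
lemma pp_root {η : ℝ} {m n j : ℕ} {M : List Bool} (hM : M ≠ []) {p : List Bool × List Bool} (hp : p ∈ OPT η m n j M)
    (β : Bool) (hc : M ++ ((p.2 ++ [β]) ++ p.1) ∈ POL.Cy (n + 1)) : (p.2 ++ [β]) ++ p.1 ∈ PM.PP η j (m + 6) := by
  obtain ⟨h1, h2, h3, h4, -⟩ := hp
  have e0 : (p.2 ++ [β]) ++ p.1 = p.2 ++ (β :: p.1) := by simp
  refine ⟨POL.cy_take (POL.cy_rot hc) hM, ?_, p.2, β :: p.1, e0, h2, NPR.GT_left (X := [β]) h1⟩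
  rw [e0]
  have a1 : In (6 * 2 ^ (j + m) + 4) p.1 := by
    intro i hi
    refine Bl_of_hn ?_
    have := G2.near_start (L := p.1) (q := p.1.length) (s := i) (by rw [List.take_length]; exact h3) hi le_rfl
    push_cast at this ⊢
    exact this
  have a2 : In 2 [β] := by
    intro i hi
    rw [List.length_singleton] at hi
    have hh : ∀ (l : Bool) (i : Fin 2), vx oo up [l] i ∈ Bl oo 2 := by
      intro l i
      rw [mem_Bl]
      revert l i
      decide
    exact hh β ⟨i, by omega⟩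
  have a3 := NPR.In_app h4 (NPR.In_app a2 a1)
  have a4 : ([β] ++ p.1) = β :: p.1 := rfl
  rw [a4] at a3
  intro i hi
  refine Bl_mono _ ?_ (a3 i hi)
  have e1 : 2 ^ (j + (m + 6)) = 64 * 2 ^ (j + m) := by ring
  have e2 : 1 ≤ 2 ^ (j + m) := Nat.one_le_two_pow
  rw [e1]
  omega

lemma sum_le5 {m : ℝ} (hm : 1 ≤ m) (N : ℕ) :
    ∑ y ∈ range N, ((1 + ((y + 1 : ℕ) : ℝ) / m) ^ 5)⁻¹ ≤ m - m ^ 2 / (m + N) := by
  have hm0 : 0 < m := by linarith
  induction N with
  | zero =>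
    rw [range_zero, sum_empty, Nat.cast_zero, add_zero, pow_two, mul_div_assoc, div_self hm0.ne', mul_one, sub_self]
  | succ N ih =>
    rw [sum_range_succ]
    have hN : (0 : ℝ) ≤ N := Nat.cast_nonneg N
    have h1 : ((1 + ((N + 1 : ℕ) : ℝ) / m) ^ 5)⁻¹ ≤ m ^ 2 / (m + N) - m ^ 2 / (m + (N + 1 : ℕ)) := by
      have h2 : (1 : ℝ) ≤ 1 + ((N + 1 : ℕ) : ℝ) / m := by
        have : 0 ≤ ((N + 1 : ℕ) : ℝ) / m := by positivity
        linarith
      have h3 : ((1 + ((N + 1 : ℕ) : ℝ) / m) ^ 5)⁻¹ ≤ ((1 + ((N + 1 : ℕ) : ℝ) / m) ^ 2)⁻¹ :=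
        inv_anti₀ (by positivity) (pow_le_pow_right₀ h2 (by norm_num))
      refine h3.trans ?_
      have e1 : 1 + ((N + 1 : ℕ) : ℝ) / m = (m + (N + 1)) / m := by
        push_cast
        field_simp
      rw [e1, div_pow, inv_div]
      push_cast
      rw [div_sub_div _ _ (by positivity) (by positivity), div_le_div_iff₀ (by positivity) (by positivity)]
      have h4 : m ^ 2 * (m + (N + 1)) - (m + N) * m ^ 2 = m ^ 2 := by ring
      rw [h4]
      have h5 : (m + N) * (m + (N + 1)) ≤ (m + (N + 1)) ^ 2 := by nlinarith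
      exact mul_le_mul_of_nonneg_left h5 (by positivity)
    linarith

/-- the sum of the weights -/
lemma tsum_le5 {m : ℝ} (hm : 1 ≤ m) :
    ∑' y : ℕ, ENNReal.ofReal (((1 + ((y + 1 : ℕ) : ℝ) / m) ^ 5)⁻¹) ≤ ENNReal.ofReal m := by
  refine ENNReal.tsum_le_of_sum_range_le fun N => ?_
  have hm0 : 0 < m := by linarith
  rw [← ENNReal.ofReal_sum_of_nonneg (fun y _ => by positivity)]
  refine ENNReal.ofReal_le_ofReal ((sum_le5 hm N).trans ?_)
  have : 0 ≤ m ^ 2 / (m + N) := by positivity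
  linarith

end IT

/-- **row Cc1: the sum over the outer parts** -/
theorem innerT (η : ℝ) (m : ℕ) (hη : 0 < η) : ∃ (C : ℝ) (b0 : ℕ), 0 < C ∧ ∀ j : ℕ, b0 ≤ j → ∀ M : List Bool, M ≠ [] →
    ∑' p : {p : List Bool × List Bool | ∃ n, p ∈ OPT η m n j M},
      wE (p : List Bool × List Bool).1 * wE (p : List Bool × List Bool).2 ≤ ENNReal.ofReal (C * (Ub j / 4 ^ j)) := by
  obtain ⟨C, b0, hC, h⟩ := JL.pp_pt smL (pm2_of yMassW) η (m + 6) 5 hη
  have hx := xc_pos
  refine ⟨6 * xc⁻¹ * C, b0, by positivity, fun j hj M hM => ?_⟩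
  have hml := ml_pos j
  have hml1 : 1 ≤ ml j := Real.one_le_rpow (by norm_num) (by positivity)
  have hU := Ub_pos j
  have hsub : {p : List Bool × List Bool | ∃ n, p ∈ OPT η m n j M} ⊆ ⋃ y : ℕ, OPT η m (M.length + y) j M := by
    rintro p ⟨n, hp⟩
    have h1 := (C0_mem (C0T_sub n hp.2.2.2.2)).2.1
    simp only [List.length_append] at h1
    obtain ⟨y, rfl⟩ : ∃ y, n = M.length + y := ⟨n - M.length, by omega⟩
    exact Set.mem_iUnion.2 ⟨y, hp⟩
  have h1 : ∀ y : ℕ, ∑' p : OPT η m (M.length + y) j M,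
      wE (p : List Bool × List Bool).1 * wE (p : List Bool × List Bool).2 ≤
        ENNReal.ofReal (6 * xc⁻¹ * (C * (Ub j / (4 ^ j * ml j)))) *
          ENNReal.ofReal (((1 + ((y + 1 : ℕ) : ℝ) / ml j) ^ 5)⁻¹) := by
    intro y
    refine (root_inT (n := M.length + y) (Q := PM.PP η j (m + 6)) hM
      (X := ENNReal.ofReal (C * (Ub j / (4 ^ j * ml j)) * ((1 + ((y + 1 : ℕ) : ℝ) / ml j) ^ 5)⁻¹))
      (fun p hp => ⟨hp.2.2.2.2, fun β hc => IT.pp_root hM hp β hc⟩) (fun z => ?_)).trans (le_of_eq ?_)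
    · have e1 : M.length + y + 1 - M.length = y + 1 := by omega
      rw [e1]
      exact h j (y + 1) z hj
    · rw [← ENNReal.ofReal_mul (by positivity), ← ENNReal.ofReal_mul (by positivity)]
      congr 1
      ring
  calc ∑' p : {p : List Bool × List Bool | ∃ n, p ∈ OPT η m n j M},
        wE (p : List Bool × List Bool).1 * wE (p : List Bool × List Bool).2
      ≤ ∑' p : (⋃ y : ℕ, OPT η m (M.length + y) j M : Set (List Bool × List Bool)),
          wE (p : List Bool × List Bool).1 * wE (p : List Bool × List Bool).2 :=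
        ENNReal.tsum_mono_subtype (fun p : List Bool × List Bool => wE p.1 * wE p.2) hsub
    _ ≤ ∑' y : ℕ, ∑' p : OPT η m (M.length + y) j M,
          wE (p : List Bool × List Bool).1 * wE (p : List Bool × List Bool).2 :=
        ENNReal.tsum_iUnion_le_tsum (fun p : List Bool × List Bool => wE p.1 * wE p.2) _
    _ ≤ ∑' y : ℕ, ENNReal.ofReal (6 * xc⁻¹ * (C * (Ub j / (4 ^ j * ml j)))) *
          ENNReal.ofReal (((1 + ((y + 1 : ℕ) : ℝ) / ml j) ^ 5)⁻¹) := ENNReal.tsum_le_tsum h1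
    _ ≤ ENNReal.ofReal (6 * xc⁻¹ * (C * (Ub j / (4 ^ j * ml j)))) * ENNReal.ofReal (ml j) := by
        rw [ENNReal.tsum_mul_left]
        exact mul_le_mul' le_rfl (IT.tsum_le5 hml1)
    _ = _ := by
        rw [← ENNReal.ofReal_mul (by positivity)]
        congr 1
        field_simp

/-- closed words rooted at the top with many good cuts at both ends -/
def CTg (j : ℕ) (η κ : ℝ) (a m u : ℕ) : Set (List Bool) :=
  {L | (∃ n, 1 ≤ n ∧ L ∈ C0T n) ∧ (∃ s, s ≤ L.length ∧ 2 ^ (j + u) < dz L s) ∧ κ * Ub j ≤ gc j a m η L ∧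
    κ * Ub j ≤ gc j a m η (rv L)}

lemma ctg_of {n j : ℕ} {η κ : ℝ} {a m c u e k : ℕ} (hn : 1 ≤ n) {L : List Bool} (h0 : L ∈ C0T n)
    (hL : L ∈ GFc n j η κ a m c u e k) : L ∈ CTg j η κ a m u := by
  obtain ⟨-, h1, -, hT⟩ := hL
  exact ⟨⟨n, hn, h0⟩, h1, (hT L (Or.inl rfl)).1, (hT (rv L) (Or.inr rfl)).1⟩

lemma ctg_ofT {n j : ℕ} {η κ : ℝ} {a m c u e k : ℕ} (hn : 1 ≤ n) {L : List Bool} (h0 : L ∈ C0T n)
    (hL : L ∈ GFcT n j η κ a m c u e k) : L ∈ CTg j η κ a m u := by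
  obtain ⟨-, h1, -, hT⟩ := hL
  exact ⟨⟨n, hn, h0⟩, h1, (hT L (Or.inl rfl)).1, (hT (rv L) (Or.inr rfl)).1⟩

/-- **a good closed word has many pairs of cuts** -/
theorem pairsT {j : ℕ} {η κ : ℝ} {a m u : ℕ} (hj : 1 ≤ j) (hκ : 0 < κ) (hu : m + 5 ≤ u) {L : List Bool}
    (hL : L ∈ CTg j η κ a m u) : ∃ S : Finset (ℕ × ℕ), ENNReal.ofReal ((κ * Ub j) ^ 2) ≤ (S.card : ℝ≥0∞) ∧
      ∀ q ∈ S, q.1 < q.2 ∧ q.2 ≤ L.length ∧ CutP j a m η (L.take q.1) ((L.take q.2).drop q.1) (L.drop q.2) := by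
  obtain ⟨⟨n, hn, h0⟩, ⟨s, hs, hfar⟩, hg1, hg2⟩ := hL
  obtain ⟨-, hlen, hend⟩ := C0_mem (C0T_sub n h0)
  have hL1 : 1 ≤ L.length := by omega
  obtain ⟨S1, hS1, hq1⟩ := G2.cuts_start j a m η hL1
  obtain ⟨S2, hS2, hq2⟩ := G2.cuts_end j a m η L
  have h1 := hg1.trans hS2
  have h2 := hg2.trans hS1
  have hU : 0 ≤ κ * Ub j := by
    have := Ub_pos j
    positivity
  have hend' : TIW.hn (TIW.en L) ≤ 2 ^ j := by
    have : (2 : ℤ) ^ 1 ≤ 2 ^ j := pow_le_pow_right₀ (by norm_num) hj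
    linarith
  have hbig : (6 : ℤ) * ((2 ^ (j + m) : ℕ) : ℤ) + 4 + 2 ^ j < 2 ^ (j + u) := by
    have e1 : (2 : ℤ) ^ (j + u) = 2 ^ (j + m + 5) * 2 ^ (u - (m + 5)) := by
      rw [← pow_add]
      congr 1
      omega
    have e2 : (1 : ℤ) ≤ 2 ^ (u - (m + 5)) := one_le_pow₀ (by norm_num)
    have e3 : (2 : ℤ) ^ (j + m + 5) = 32 * 2 ^ (j + m) := by ring
    have e4 : (2 : ℤ) ^ j ≤ 2 ^ (j + m) := pow_le_pow_right₀ (by norm_num) (by omega)
    have e5 : (1 : ℤ) ≤ 2 ^ (j + m) := one_le_pow₀ (by norm_num)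
    rw [e1, e3]
    push_cast
    nlinarith
  refine ⟨S1 ×ˢ S2, ?_, fun q hq => ?_⟩
  · rw [card_product]
    have e : ((S1.card * S2.card : ℕ) : ℝ≥0∞) = ENNReal.ofReal ((S1.card : ℝ) * S2.card) := by
      rw [← Nat.cast_mul, ENNReal.ofReal_natCast]
    rw [e]
    refine ENNReal.ofReal_le_ofReal ?_
    rw [pow_two]
    exact mul_le_mul h2 h1 hU (hU.trans h2)
  · rw [mem_product] at hq
    obtain ⟨a1, a2, a3, a4⟩ := hq1 q.1 hq.1
    obtain ⟨b1, b2, b3, b4⟩ := hq2 q.2 hq.2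
    have hlt1 : q.1 < s := by
      by_contra hc
      have h3 := G2.near_start a3 (not_lt.1 hc) a1.le
      have h4 : dz L s ≤ TIW.hn (vx oo up L s) + TIW.hn (TIW.en L) := TIW.hn_sub _ _
      linarith
    have hlt2 : s < q.2 := by
      by_contra hc
      have h3 := G2.near_end b1 b3 (not_lt.1 hc) hs
      have h5 : (0 : ℤ) < 2 ^ j := by positivity
      linarith
    have hlt : q.1 < q.2 := by omega
    have hle : q.1 ≤ q.2 := hlt.le
    have hcat : L.take q.1 ++ (L.take q.2).drop q.1 = L.take q.2 := by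
      have h3 : L.take q.1 = (L.take q.2).take q.1 := by rw [List.take_take, min_eq_left hle]
      rw [h3, List.take_append_drop]
    have hcat2 : (L.take q.2).drop q.1 ++ L.drop q.2 = L.drop q.1 := by
      conv_rhs => rw [← List.take_append_drop q.2 L]
      rw [List.drop_append_of_le_length (by rw [List.length_take]; omega)]
    refine ⟨hlt, b1, ⟨b2, b3, ?_⟩, a2, a3, ?_⟩
    · rw [hcat]
      exact b4
    · rw [hcat2]
      exact a4

/-- the middle parts of the good decompositions -/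
def MidT (EE : Set (List Bool)) (j a m : ℕ) (η : ℝ) : Set (List Bool) :=
  {M | M ≠ [] ∧ ∃ X Y : List Bool, X ++ (M ++ Y) ∈ EE ∧ CutP j a m η X M Y}

/-- **row Cc2: closed words and their middle parts** -/
theorem outT (η : ℝ) (m : ℕ) (hη : 0 < η) : ∃ (C : ℝ) (b0 : ℕ), 0 < C ∧ ∀ (j : ℕ) (κ : ℝ) (a u : ℕ), b0 ≤ j → 0 < κ →
    m + 5 ≤ u → ∀ EE : Set (List Bool), EE ⊆ CTg j η κ a m u →
      ENNReal.ofReal ((κ * Ub j) ^ 2) * gf EE ≤ ENNReal.ofReal (C * (Ub j / 4 ^ j)) * gf (MidT EE j a m η) := by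
  classical
  obtain ⟨C, b0, hC, h⟩ := innerT η m hη
  refine ⟨C, b0 + 1, hC, fun j κ a u hj hκ hu EE hEE => ?_⟩
  have h2 := dct (G := EE) (X := MidT EE j a m η) (P := fun M p => ∃ n, p ∈ OPT η m n j M)
    (c := ENNReal.ofReal ((κ * Ub j) ^ 2)) (fun L hL => by
    obtain ⟨S, h1, h2⟩ := pairsT (by omega) hκ hu (hEE hL)
    refine ⟨S, h1, fun q hq => ?_⟩
    obtain ⟨h3, h4, h5⟩ := h2 q hq
    have h6 : L.take q.1 ++ ((L.take q.2).drop q.1 ++ L.drop q.2) = L := by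
      have h6 : L.take q.1 = (L.take q.2).take q.1 := by rw [List.take_take, min_eq_left h3.le]
      rw [← List.append_assoc, h6, List.take_append_drop, List.take_append_drop]
    obtain ⟨⟨n, -, h0⟩, -⟩ := hEE hL
    refine ⟨h3.le, h4, ⟨?_, L.take q.1, L.drop q.2, by rw [h6]; exact hL, h5⟩, n, h5.2.1, h5.1.1, h5.2.2.1, h5.1.2.1,
      by rw [h6]; exact h0⟩
    rw [← List.length_pos_iff, List.length_drop, List.length_take]
    omega)
  refine h2.trans ?_
  unfold gf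
  rw [_root_.tsum_subtype (MidT EE j a m η) wE, ← ENNReal.tsum_mul_left]
  refine ENNReal.tsum_le_tsum fun M => ?_
  by_cases hM : M ∈ MidT EE j a m η
  · rw [if_pos hM, Set.indicator_of_mem hM, mul_comm]
    exact mul_le_mul' (h j (by omega) M hM.1) le_rfl
  · rw [if_neg hM]
    exact zero_le

end ART

end HexObs
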