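import Pool.Agent.ART.OutG
import Pool.Agent.ART.InnerT

/-!
# ART, block C, row Cc (helper87): the claim of ROT/C4_53 (7)

`claim`: a set EE of closed words with many rich cuts, and for every middle part M of a word of EE one path from the finite
family (levels between j - sx and j, D in DD, at most Mx segments) for which M is joinable and every confined minimal part of M
has tubes of the mass at least v whose closed word, seen from some vertex near the path, is in A. Then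
`(κ Ub j) ^ 2 gf EE v <= C (Ub j / 4 ^ j) Ub j ^ 2 gf A`.
-/

set_option autoImplicit false

namespace HexObs

namespace ART

namespace OG

open Finset TS SDN SIM NTA TIP ARM ARM.G3 ARM.G2 JT

open scoped ENNReal

/-- the hypothesis of `out_glue` for one word M -/
def HV (E : ℕ → Pt) (r : ℕ) (D : ℤ) (k : ℕ) (B : ℤ) (A : Set (List Bool)) (v : ℝ≥0∞) (M : List Bool) : Prop :=
  ∀ s : Pt, TIW.hn s ≤ 2 ^ k → ∀ Z1 I Z2 : List Bool, M = Z1 ++ (I ++ Z2) → Cf E r D k s Z1 I Z2 →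
    Wc E r D k (s + TIW.en Z1) I → v ≤ gf (Im E r D k B A (s + TIW.en Z1) I)

/-- the outer glue for the finite family of paths -/
theorem glue_family (K H Mx sx : ℕ) (hH : 2 ^ 13 ≤ H) : ∃ C : ℝ, 0 < C ∧ ∀ (j : ℕ) (DD : Finset ℤ), sx ≤ j → DD.card ≤ Mx →
    ∀ (W A : Set (List Bool)) (v : ℝ≥0∞), (∀ M ∈ W, ∃ (k' r : ℕ) (D : ℤ) (E : ℕ → Pt), D ∈ DD ∧
      Cnd H Mx sx j k' r D E ∧ E ∈ G2.EE Mx ∧ Jn E r D k' M ∧ HV E r D k' (K * 2 ^ k') A v M) →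
    gf W * v ≤ ENNReal.ofReal (C * Ub j ^ 2) * gf A := by
  classical
  obtain ⟨C, hC, h⟩ := out_glue K
  refine ⟨(((sx + 1) * ((Mx + 1) * (Mx * 6 ^ Mx)) : ℕ) : ℝ) * C + 1, by positivity, fun j DD hj hDD W A v hW => ?_⟩
  obtain ⟨I, hI⟩ : ∃ I, I = (Icc (j - sx) j) ×ˢ (range (Mx + 1)) ×ˢ DD ×ˢ G2.EE Mx := ⟨_, rfl⟩
  have hcard : I.card ≤ (sx + 1) * ((Mx + 1) * (Mx * 6 ^ Mx)) := by
    rw [hI, card_product, card_product, card_product, Nat.card_Icc, card_range]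
    exact Nat.mul_le_mul (by omega) (Nat.mul_le_mul_left _ (Nat.mul_le_mul hDD (EE_card Mx)))
  obtain ⟨Wi, hWi⟩ : ∃ Wi : (ℕ × ℕ × ℤ × (ℕ → Pt)) → Set (List Bool), Wi = fun ι => {M | M ∈ W ∧
    Cnd H Mx sx j ι.1 ι.2.1 ι.2.2.1 ι.2.2.2 ∧ Jn ι.2.2.2 ι.2.1 ι.2.2.1 ι.1 M ∧
    HV ι.2.2.2 ι.2.1 ι.2.2.1 ι.1 (K * 2 ^ ι.1) A v M} := ⟨_, rfl⟩
  have hcov : W ⊆ ⋃ ι ∈ I, Wi ι := by
    intro M hM
    obtain ⟨k', r, D, E, hD, hc, hE, hJn, hv⟩ := hW M hM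
    simp only [Set.mem_iUnion, exists_prop]
    refine ⟨(k', r, D, E), ?_, ?_⟩
    · rw [hI]
      simp only [mem_product, mem_Icc, mem_range]
      obtain ⟨c1, c2, c3, c4, c5, c6, c7, c8⟩ := hc
      exact ⟨⟨by omega, c1⟩, by omega, hD, hE⟩
    · rw [hWi]
      exact ⟨hM, hc, hJn, hv⟩
  have hB : ∀ ι ∈ I, gf (Wi ι) * v ≤ ENNReal.ofReal (C * Ub j ^ 2) * gf A := by
    rintro ⟨k', r, D, E⟩ -
    by_cases hc : Cnd H Mx sx j k' r D E
    · obtain ⟨c1, c2, c3, c4, c5, c6, c7, c8⟩ := id hc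
      have h1 : gf (Wi (k', r, D, E)) * v ≤ ENNReal.ofReal (C * Ub k' ^ 2) * gf A := by
        refine h k' r D E c5 ?_ c7 c8 (Wi (k', r, D, E)) A v (fun M hM => ?_) (fun M hM => ?_)
        · refine le_trans ?_ c3
          have h2 : (2 : ℤ) ^ 13 ≤ (H : ℤ) := by exact_mod_cast hH
          have h3 : (0 : ℤ) < 2 ^ k' := by positivity
          rw [show (2 : ℤ) ^ (k' + 12) = 2 ^ 12 * 2 ^ k' by rw [pow_add]; ring]
          nlinarith
        · rw [hWi] at hM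
          exact hM.2.2.1
        · rw [hWi] at hM
          exact hM.2.2.2
      refine h1.trans (mul_le_mul' (ENNReal.ofReal_le_ofReal ?_) le_rfl)
      have hU1 : Ub k' ≤ Ub j := Num2Aux.UU_mono (Nat.pow_le_pow_right (by norm_num) c1)
      have hU0 : 0 < Ub k' := U_pos _
      gcongr
    · have h2 : Wi (k', r, D, E) = ∅ := by
        ext M
        rw [hWi]
        simp only [Set.mem_ofPred_eq, Set.mem_empty_iff_false, iff_false]
        exact fun hM => hc hM.2.1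
      rw [h2]
      unfold gf
      simp
  calc gf W * v ≤ (∑ ι ∈ I, gf (Wi ι)) * v := by
        refine mul_le_mul' ((gf_mono hcov).trans ?_) le_rfl
        unfold gf
        exact ENNReal.tsum_biUnion_le wE _ _
    _ = ∑ ι ∈ I, gf (Wi ι) * v := Finset.sum_mul _ _ _
    _ ≤ ∑ _ι ∈ I, ENNReal.ofReal (C * Ub j ^ 2) * gf A := sum_le_sum hB
    _ = (I.card : ℝ≥0∞) * (ENNReal.ofReal (C * Ub j ^ 2) * gf A) := by rw [sum_const, nsmul_eq_mul]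
    _ ≤ ENNReal.ofReal (((sx + 1) * ((Mx + 1) * (Mx * 6 ^ Mx)) : ℕ) : ℝ) * (ENNReal.ofReal (C * Ub j ^ 2) * gf A) := by
        rw [ENNReal.ofReal_natCast]
        exact mul_le_mul' (Nat.cast_le.2 hcard) le_rfl
    _ = ENNReal.ofReal ((((sx + 1) * ((Mx + 1) * (Mx * 6 ^ Mx)) : ℕ) : ℝ) * (C * Ub j ^ 2)) * gf A := by
        rw [← mul_assoc, ← ENNReal.ofReal_mul (Nat.cast_nonneg _)]
    _ ≤ _ := by
        refine mul_le_mul' (ENNReal.ofReal_le_ofReal ?_) le_rfl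
        have h5 : 0 ≤ Ub j ^ 2 := sq_nonneg _
        nlinarith

/-- **the claim** -/
theorem claim (η : ℝ) (m : ℕ) (hη : 0 < η) (K H Mx sx : ℕ) (hH : 2 ^ 13 ≤ H) : ∃ (C : ℝ) (b0 : ℕ), 0 < C ∧
    ∀ (j : ℕ) (κ : ℝ) (a u : ℕ), b0 ≤ j → 0 < κ → m + 5 ≤ u → ∀ EE : Set (List Bool), EE ⊆ CTg j η κ a m u →
    ∀ DD : Finset ℤ, DD.card ≤ Mx → ∀ (A : Set (List Bool)) (v : ℝ≥0∞),
    (∀ M ∈ MidT EE j a m η, ∃ (k' r : ℕ) (D : ℤ) (E : ℕ → Pt), D ∈ DD ∧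
      Cnd H Mx sx j k' r D E ∧ E ∈ G2.EE Mx ∧ Jn E r D k' M ∧ HV E r D k' (K * 2 ^ k') A v M) →
    ENNReal.ofReal ((κ * Ub j) ^ 2) * (gf EE * v) ≤ ENNReal.ofReal (C * (Ub j / 4 ^ j) * Ub j ^ 2) * gf A := by
  obtain ⟨C1, b1, hC1, h1⟩ := outT η m hη
  obtain ⟨C2, hC2, h2⟩ := glue_family K H Mx sx hH
  refine ⟨C1 * C2, max b1 sx, by positivity, fun j κ a u hj hκ hu EE hEE DD hDD A v hM => ?_⟩
  have hUj : 0 < Ub j := U_pos j
  have h3 := h1 j κ a u ((le_max_left _ _).trans hj) hκ hu EE hEE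
  have h4 := h2 j DD ((le_max_right _ _).trans hj) hDD (MidT EE j a m η) A v hM
  calc ENNReal.ofReal ((κ * Ub j) ^ 2) * (gf EE * v) = ENNReal.ofReal ((κ * Ub j) ^ 2) * gf EE * v := by ring
    _ ≤ ENNReal.ofReal (C1 * (Ub j / 4 ^ j)) * gf (MidT EE j a m η) * v := mul_le_mul' h3 le_rfl
    _ = ENNReal.ofReal (C1 * (Ub j / 4 ^ j)) * (gf (MidT EE j a m η) * v) := by ring
    _ ≤ ENNReal.ofReal (C1 * (Ub j / 4 ^ j)) * (ENNReal.ofReal (C2 * Ub j ^ 2) * gf A) := mul_le_mul' le_rfl h4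
    _ = _ := by
        rw [← mul_assoc, ← ENNReal.ofReal_mul (by positivity)]
        congr 2
        ring

/-- the claim with the mass of the tubes `c Ub j / 4 ^ j` -/
theorem claim2 (η : ℝ) (m : ℕ) (hη : 0 < η) (K H Mx sx : ℕ) (hH : 2 ^ 13 ≤ H) : ∃ (C : ℝ) (b0 : ℕ), 0 < C ∧
    ∀ (j : ℕ) (κ : ℝ) (a u : ℕ), b0 ≤ j → 0 < κ → m + 5 ≤ u → ∀ EE : Set (List Bool), EE ⊆ CTg j η κ a m u →
    ∀ DD : Finset ℤ, DD.card ≤ Mx → ∀ (A : Set (List Bool)) (c : ℝ), 0 < c →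
    (∀ M ∈ MidT EE j a m η, ∃ (k' r : ℕ) (D : ℤ) (E : ℕ → Pt), D ∈ DD ∧
      Cnd H Mx sx j k' r D E ∧ E ∈ G2.EE Mx ∧ Jn E r D k' M ∧
      HV E r D k' (K * 2 ^ k') A (ENNReal.ofReal (c * (Ub j / 4 ^ j))) M) →
    gf EE ≤ ENNReal.ofReal (C / (κ ^ 2 * c)) * gf A := by
  obtain ⟨C, b0, hC, h⟩ := claim η m hη K H Mx sx hH
  refine ⟨C, b0, hC, fun j κ a u hj hκ hu EE hEE DD hDD A c hc hM => ?_⟩
  have hUj : 0 < Ub j := U_pos j
  have h4 : (0 : ℝ) < 4 ^ j := by positivity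
  have h1 := h j κ a u hj hκ hu EE hEE DD hDD A _ hM
  have h2 : ENNReal.ofReal (κ ^ 2 * c * (Ub j / 4 ^ j * Ub j ^ 2)) * gf EE ≤
      ENNReal.ofReal (κ ^ 2 * c * (Ub j / 4 ^ j * Ub j ^ 2)) * (ENNReal.ofReal (C / (κ ^ 2 * c)) * gf A) := by
    calc ENNReal.ofReal (κ ^ 2 * c * (Ub j / 4 ^ j * Ub j ^ 2)) * gf EE
        = ENNReal.ofReal ((κ * Ub j) ^ 2) * (gf EE * ENNReal.ofReal (c * (Ub j / 4 ^ j))) := by
          rw [show κ ^ 2 * c * (Ub j / 4 ^ j * Ub j ^ 2) = (κ * Ub j) ^ 2 * (c * (Ub j / 4 ^ j)) by ring,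
            ENNReal.ofReal_mul (by positivity)]
          ring
      _ ≤ ENNReal.ofReal (C * (Ub j / 4 ^ j) * Ub j ^ 2) * gf A := h1
      _ = _ := by
          rw [← mul_assoc, ← ENNReal.ofReal_mul (by positivity)]
          congr 2
          field_simp
  have hpos : ENNReal.ofReal (κ ^ 2 * c * (Ub j / 4 ^ j * Ub j ^ 2)) ≠ 0 := (ENNReal.ofReal_pos.2 (by positivity)).ne'
  exact (ENNReal.mul_le_mul_iff_right hpos ENNReal.ofReal_ne_top).1 h2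

end OG

end ART

end HexObs
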