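import Pool.Agent.ARM.Corr

/-!
# The corridor lemma, near touches in the form of crossing numbers (helper51)

In `ARM.corridor` the near touches of the words are excursions in a box which misses both cells `q1`, `q2`. For the second
corridor (one arm prolonged by the first corridor) the cell `q2` must be close to a tip, where the arms may have excursions of a
larger size. Only the additivity of the crossing number along the excursion is used (`corridor3`). It is additive in the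
dual path (`cr_tri`, `sv_tri`): so it may be proved for a far cell `q2` and for the straight segment from `q2` to the near cell
`q3`, which the arms do not meet (`sv_of`).
-/

set_option autoImplicit false

namespace HexObs

namespace ART

open ARM

variable {q1 q2 q3 : ℤ × ℤ}

/-- the winding number of the dual triangle q1, q2, q3 -/
def phw (q1 q2 q3 x : ℤ × ℤ) : ℤ := (sA q2 x - sA q3 x) * (sB q1 x - sB q2 x)

/-- **additivity in the dual path** -/
lemma cr_tri (u w : ℤ × ℤ) : cr q1 q2 u w + cr q2 q3 u w - cr q1 q3 u w = phw q1 q2 q3 u - phw q1 q2 q3 w := by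
  unfold cr phw
  ring

lemma kap_tri (γ : ℕ → ℤ × ℤ) (i : ℕ) : kap q1 q2 γ i + kap q2 q3 γ i - kap q1 q3 γ i = phw q1 q2 q3 (γ 0) - phw q1 q2 q3 (γ i) := by
  induction i with
  | zero =>
    unfold kap
    simp
  | succ i ih =>
    rw [kap_succ, kap_succ, kap_succ]
    have := cr_tri (q1 := q1) (q2 := q2) (q3 := q3) (γ i) (γ (i + 1))
    linarith

/-- **single valued for (q1, q2) and for (q2, q3): single valued for (q1, q3)** -/
lemma sv_tri {γ : ℕ → ℤ × ℤ} {i j : ℕ} (h12 : kap q1 q2 γ j = kap q1 q2 γ i + cr q1 q2 (γ i) (γ j))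
    (h23 : kap q2 q3 γ j = kap q2 q3 γ i + cr q2 q3 (γ i) (γ j)) :
    kap q1 q3 γ j = kap q1 q3 γ i + cr q1 q3 (γ i) (γ j) := by
  have a := kap_tri (q1 := q1) (q2 := q2) (q3 := q3) γ i
  have b := kap_tri (q1 := q1) (q2 := q2) (q3 := q3) γ j
  have c := cr_tri (q1 := q1) (q2 := q2) (q3 := q3) (γ i) (γ j)
  linarith

/-- a step which does not meet the vertical segment from q2 to q3 -/
lemma cr_seg {d : ℤ} {u w : ℤ × ℤ} (hcol : q2.1 = q3.1) (hrow : q2.2 ≤ q3.2)
    (h : q2.2 < u.2 → u.2 ≤ q3.2 → d < |u.1 - q3.1|) (hw : nr d u w) : cr q2 q3 u w = 0 := by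
  have e : sA q2 w = sA q3 w := by
    unfold sA
    rw [hcol]
  unfold cr
  rw [e, sub_self, zero_mul, add_zero]
  by_cases h1 : q2.2 < u.2
  · by_cases h2 : u.2 ≤ q3.2
    · have h3 := h h1 h2
      rw [nr_iff] at hw
      have h4 : sA q3 w = sA q3 u := by
        unfold sA
        rcases lt_abs.1 h3 with h5 | h5
        · rw [if_pos (by omega), if_pos (by omega)]
        · rw [if_neg (by omega), if_neg (by omega)]
      rw [h4, sub_self, neg_zero, zero_mul]
    · have h4 : sB q2 u = 1 := if_pos h1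
      have h5 : sB q3 u = 1 := if_pos (by omega)
      rw [h4, h5, sub_self, mul_zero]
  · have h4 : sB q2 u = 0 := if_neg h1
    have h5 : sB q3 u = 0 := if_neg (by omega)
    rw [h4, h5, sub_self, mul_zero]

/-- a word which does not meet the vertical segment from q2 to q3 -/
lemma kap_seg {d : ℤ} {γ : ℕ → ℤ × ℤ} {i : ℕ} (hcol : q2.1 = q3.1) (hrow : q2.2 ≤ q3.2) (hd : 1 ≤ d) (j : ℕ) (hij : i ≤ j)
    (hst : ∀ k, i ≤ k → k < j → nr 1 (γ k) (γ (k + 1)))
    (h : ∀ k, i ≤ k → k ≤ j → q2.2 < (γ k).2 → (γ k).2 ≤ q3.2 → d < |(γ k).1 - q3.1|) :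
    kap q2 q3 γ j = kap q2 q3 γ i := by
  induction j, hij using Nat.le_induction with
  | base => rfl
  | succ j hij ih =>
    rw [kap_succ, ih (fun k hk hk' => hst k hk (by omega)) (fun k hk hk' => h k hk (by omega)),
      cr_seg hcol hrow (h j hij (by omega)) (nr_mono hd (hst j hij (by omega))), add_zero]

/-- **an excursion in a box which misses q1 and q2, which does not meet the vertical segment from q2 to q3** -/
theorem sv_of {d ρ : ℤ} {γ : ℕ → ℤ × ℤ} {i j : ℕ} (hij : i ≤ j) (hρ : 0 ≤ ρ) (h1 : Fr ρ (γ i) q1) (h2 : Fr ρ (γ i) q2)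
    (hbox : ∀ k, i ≤ k → k ≤ j → nr ρ (γ i) (γ k)) (hcol : q2.1 = q3.1) (hrow : q2.2 ≤ q3.2) (hd : 1 ≤ d)
    (hst : ∀ k, i ≤ k → k < j → nr 1 (γ k) (γ (k + 1))) (hnear : nr d (γ i) (γ j))
    (hseg : ∀ k, i ≤ k → k ≤ j → q2.2 < (γ k).2 → (γ k).2 ≤ q3.2 → d < |(γ k).1 - q3.1|) :
    kap q1 q3 γ j = kap q1 q3 γ i + cr q1 q3 (γ i) (γ j) := by
  refine sv_tri (kap_box hρ h1 h2 j hij hbox) ?_
  rw [kap_seg hcol hrow hd j hij hst hseg, cr_seg hcol hrow (hseg i le_rfl hij) hnear, add_zero]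

/-- **THE CORRIDOR LEMMA**, near touches in the form of crossing numbers; the words keep away `ρ ≥ 2 (r + 1)` from q1, q2 -/
theorem corridor3 {n : Bool → ℕ} {γ : Bool → ℕ → ℤ × ℤ} {p : ℤ × ℤ} {r ρ R0 R1 R' : ℤ} (hr : 0 ≤ r)
    (hρ : 2 * (r + 1) ≤ ρ) (hR0 : 0 ≤ R0) (hR : R0 + r + 2 ≤ R1) (hR' : R1 + r + 2 ≤ R')
    (hstep : ∀ s i, i < n s → nr 1 (γ s i) (γ s (i + 1))) (hq1 : nr R0 p q1) (hq2 : nr R0 p q2)
    (hfar : ∀ s i, i ≤ n s → ¬ nr ρ (γ s i) q1 ∧ ¬ nr ρ (γ s i) q2)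
    (hsv : ∀ s i j, i ≤ j → j ≤ n s → nr (2 * (r + 1)) (γ s i) (γ s j) → nr (R' + r + 2) p (γ s i) →
      kap q1 q2 (γ s) j = kap q1 q2 (γ s) i + cr q1 q2 (γ s i) (γ s j))
    (hmix : ∀ i j, i ≤ n false → j ≤ n true → nr (R' + r + 2) p (γ false i) → ¬ nr (2 * (r + 1)) (γ false i) (γ true j))
    (hes : ∀ s i, i ≤ n s → ¬ nr R1 p (γ s i) → ∀ k, k ≤ i → ¬ nr (R0 + 1) p (γ s k)) :
    Relation.ReflTransGen (fun f g => adj f g ∧ nr R' p g ∧ ∀ s i, i ≤ n s → ¬ nr r (γ s i) g) q1 q2 := by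
  classical
  obtain ⟨ok, hok⟩ : ∃ ok : ℤ × ℤ → Prop, ok = fun g => nr R' p g ∧ ∀ s i, i ≤ n s → ¬ nr r (γ s i) g := ⟨_, rfl⟩
  have hρ0 : 0 ≤ ρ := by omega
  have okq : ok q1 := by
    rw [hok]
    exact ⟨nr_mono (by omega) hq1, fun s i hi h => (hfar s i hi).1 (nr_mono (by omega) h)⟩
  -- the reachable set
  obtain ⟨Re, hRe⟩ : ∃ Re : ℤ × ℤ → Prop, Re = Relation.ReflTransGen (fun f g => adj f g ∧ ok g) q1 := ⟨_, rfl⟩
  have ReOk : ∀ f, Re f → ok f := by
    intro f hf
    rw [hRe] at hf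
    induction hf with
    | refl => exact okq
    | tail _ h _ => exact h.2
  have ReSt : ∀ f g, Re f → adj f g → ok g → Re g := by
    intro f g hf h1 h2
    rw [hRe] at hf ⊢
    exact hf.tail ⟨h1, h2⟩
  obtain ⟨O, hO⟩ : ∃ O : Finset (ℤ × ℤ), O = (Finset.Icc (p.1 - R', p.2 - R') (p.1 + R', p.2 + R')).filter Re := ⟨_, rfl⟩
  have memO : ∀ f, f ∈ O ↔ Re f := by
    intro f
    rw [hO, Finset.mem_filter]
    refine ⟨fun h => h.2, fun h => ⟨?_, h⟩⟩
    have h1 := ReOk f h
    rw [hok] at h1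
    have h2 := h1.1
    rw [nr_iff] at h2
    rw [Finset.mem_Icc, Prod.le_def, Prod.le_def]
    simp only
    omega
  -- the potential
  obtain ⟨val, hval⟩ : ∃ val : Bool × ℕ → ℤ × ℤ → ℤ, val = fun a x => kap q1 q2 (γ a.1) a.2 + cr q1 q2 (γ a.1 a.2) x :=
    ⟨_, rfl⟩
  obtain ⟨Nr, hNr⟩ : ∃ Nr : Bool × ℕ → ℤ × ℤ → Prop, Nr = fun a x => a.2 ≤ n a.1 ∧ nr (r + 1) (γ a.1 a.2) x := ⟨_, rfl⟩
  -- single valued
  have single : ∀ a b : Bool × ℕ, ∀ x, nr (R' + 1) p x → Nr a x → Nr b x → val a x = val b x := by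
    have key : ∀ (s : Bool) (i j : ℕ) (x : ℤ × ℤ), nr (R' + 1) p x → i ≤ j → j ≤ n s → nr (r + 1) (γ s i) x →
        nr (r + 1) (γ s j) x → val (s, i) x = val (s, j) x := by
      intro s i j x hx hij hj h1 h2
      have h3 : nr (2 * (r + 1)) (γ s i) (γ s j) := by
        have := nr_trans h1 (nr_symm h2)
        rwa [← two_mul] at this
      have h4 : nr (R' + r + 2) p (γ s i) := by
        have := nr_trans hx (nr_symm h1)
        rwa [show R' + 1 + (r + 1) = R' + r + 2 by ring] at this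
      have f1 := (hfar s i (hij.trans hj)).1
      have f2 := (hfar s i (hij.trans hj)).2
      have h6 := hsv s i j hij hj h3 h4
      rw [hval]
      simp only
      rw [h6, add_assoc, cr_add f1 f2 (nr_self hρ0 _) (nr_mono hρ h3) (nr_mono (by omega) h1)]
    intro a b x hx ha hb
    rw [hNr] at ha hb
    obtain ⟨s, i⟩ := a
    obtain ⟨s', j⟩ := b
    simp only at ha hb
    by_cases hs : s = s'
    · subst hs
      rcases le_total i j with h | h
      · exact key s i j x hx h hb.1 ha.2 hb.2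
      · exact (key s j i x hx h ha.1 hb.2 ha.2).symm
    · exfalso
      have h4 : ∀ {v : ℤ × ℤ}, nr (r + 1) v x → nr (R' + r + 2) p v := by
        intro v h1
        have := nr_trans hx (nr_symm h1)
        rwa [show R' + 1 + (r + 1) = R' + r + 2 by ring] at this
      have h3 : ∀ {v w : ℤ × ℤ}, nr (r + 1) v x → nr (r + 1) w x → nr (2 * (r + 1)) v w := by
        intro v w h1 h2
        have := nr_trans h1 (nr_symm h2)
        rwa [← two_mul] at this
      cases s <;> cases s'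
      · exact hs rfl
      · exact hmix i j ha.1 hb.1 (h4 ha.2) (h3 ha.2 hb.2)
      · exact hmix j i hb.1 ha.1 (h4 hb.2) (h3 hb.2 ha.2)
      · exact hs rfl
  obtain ⟨θ, hθ⟩ : ∃ θ : ℤ × ℤ → ℤ, θ = fun x => if h : ∃ a, Nr a x then val h.choose x else 0 := ⟨_, rfl⟩
  have hθ1 : ∀ a x, nr (R' + 1) p x → Nr a x → θ x = val a x := by
    intro a x hx ha
    have h : ∃ a, Nr a x := ⟨a, ha⟩
    rw [hθ]
    simp only
    rw [dif_pos h]
    exact single _ _ x hx h.choose_spec ha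
  -- near the boundary of the box
  have hθ2 : ∀ x, nr (R' + 1) p x → ¬ nr (R' - 1) p x → θ x = 0 := by
    intro x hx hx'
    by_cases h : ∃ a, Nr a x
    · obtain ⟨⟨s, i⟩, ha⟩ := h
      rw [hθ1 _ x hx ha, hval]
      rw [hNr] at ha
      simp only at ha ⊢
      have h1 : ¬ nr R1 p (γ s i) := fun h1 => hx' (nr_mono (by omega) (nr_trans h1 ha.2))
      have h2 := hes s i ha.1 h1
      rw [kap_out hq1 hq2 i (fun k hk => hstep s k (hk.trans_le ha.1)) h2, zero_add]
      exact cr_out hq1 hq2 (d := r + 1) (fun h3 => h1 (nr_mono (by omega) h3)) ha.2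
    · rw [hθ]
      simp only
      rw [dif_neg h]
  -- the crossing number is exact on an edge of a forbidden face
  have edge : ∀ g x y, ¬ ok g → nr (R' + 1) p g → nr 1 x y → (∀ v, nr r v g → nr (r + 1) v x ∧ nr (r + 1) v y) →
      (¬ nr R' p g → ¬ nr (R' - 1) p x ∧ ¬ nr (R' - 1) p y) → nr (R' + 1) p x → nr (R' + 1) p y →
      cr q1 q2 x y = θ y - θ x := by
    intro g x y hg _ hxy hv hb hx hy
    by_cases h : nr R' p g
    · have h1 : ∃ s i, i ≤ n s ∧ nr r (γ s i) g := by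
        by_contra hcon
        push Not at hcon
        apply hg
        rw [hok]
        exact ⟨h, fun s i hi => hcon s i hi⟩
      obtain ⟨s, i, hi, h2⟩ := h1
      obtain ⟨h3, h4⟩ := hv _ h2
      have a1 : Nr (s, i) x := by rw [hNr]; exact ⟨hi, h3⟩
      have a2 : Nr (s, i) y := by rw [hNr]; exact ⟨hi, h4⟩
      rw [hθ1 _ x hx a1, hθ1 _ y hy a2, hval]
      simp only
      have f1 := (hfar s i hi).1
      have f2 := (hfar s i hi).2
      rw [← cr_add f1 f2 (nr_self hρ0 _) (nr_mono (by omega) h3) (nr_mono (by omega) h4)]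
      ring
    · obtain ⟨b1, b2⟩ := hb h
      rw [hθ2 x hx b1, hθ2 y hy b2, sub_self]
      exact cr_out hq1 hq2 (d := 1) (fun h3 => b1 (nr_mono (by omega) h3)) hxy
  have inO : ∀ f ∈ O, nr R' p f := by
    intro f hf
    have := ReOk f ((memO f).1 hf)
    rw [hok] at this
    exact this.1
  have notok : ∀ f ∈ O, ∀ g, adj f g → g ∉ O → ¬ ok g := by
    intro f hf g h1 h2 h3
    exact h2 ((memO g).2 (ReSt f g ((memO f).1 hf) h1 h3))
  have fin : q2 ∈ O := by
    refine stokes (q1 := q1) (q2 := q2) θ ((memO q1).2 ?_) ?_ ?_ ?_ ?_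
    · rw [hRe]
    · intro f hf h
      have h1 := inO f hf
      rw [nr_iff] at h1
      refine edge (f - (0, 1)) f (f + (1, 0)) (notok f hf _ (Or.inr (Or.inr (Or.inr rfl))) h) ?_ ?_ ?_ ?_ ?_ ?_
      all_goals simp only [nr_iff, Prod.fst_sub, Prod.snd_sub, Prod.fst_add, Prod.snd_add]
      all_goals omega
    · intro f hf h
      have h1 := inO f hf
      rw [nr_iff] at h1
      refine edge (f + (0, 1)) (f + (0, 1)) (f + (0, 1) + (1, 0)) (notok f hf _ (Or.inr (Or.inr (Or.inl rfl))) h) ?_ ?_ ?_ ?_ ?_ ?_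
      all_goals simp only [nr_iff, Prod.fst_sub, Prod.snd_sub, Prod.fst_add, Prod.snd_add]
      all_goals omega
    · intro f hf h
      have h1 := inO f hf
      rw [nr_iff] at h1
      refine edge (f - (1, 0)) f (f + (0, 1)) (notok f hf _ (Or.inr (Or.inl rfl)) h) ?_ ?_ ?_ ?_ ?_ ?_
      all_goals simp only [nr_iff, Prod.fst_sub, Prod.snd_sub, Prod.fst_add, Prod.snd_add]
      all_goals omega
    · intro f hf h
      have h1 := inO f hf
      rw [nr_iff] at h1
      refine edge (f + (1, 0)) (f + (1, 0)) (f + (1, 0) + (0, 1)) (notok f hf _ (Or.inl rfl) h) ?_ ?_ ?_ ?_ ?_ ?_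
      all_goals simp only [nr_iff, Prod.fst_sub, Prod.snd_sub, Prod.fst_add, Prod.snd_add]
      all_goals omega
  have h := (memO q2).1 fin
  rw [hRe, hok] at h
  exact h

end ART

end HexObs
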