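import Pool.Agent.POL.Bot
import Pool.Agent.POL.Fin
import Pool.Agent.ARM.PlcS

/-!
# ART / TopCy (helper87): closed words rooted at their top

`Lx d p q`: p is below q in the direction d (ties: direction `rotL d`). `TopCy N`: the closed words whose root is the
unique highest vertex in one of the six directions. `N gf (TopCy N)` is between `gf (Cy N)` and `6 gf (Cy N)`.
-/

set_option autoImplicit false

namespace HexObs

namespace ART

open Finset TS SDN SIM NTA TIP POL

open scoped ENNReal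

/-- p is below q in the direction d, ties broken by `rotL d` -/
def Lx (d p q : Pt) : Prop := ip p d < ip q d ∨ (ip p d = ip q d ∧ ip p (rotL d) < ip q (rotL d))

/-- closed words rooted at the highest vertex in one of the six directions -/
def TopCy (N : ℕ) : Set (List Bool) := {w | w ∈ Cy N ∧ ∃ d ∈ dirs, ∀ i, 1 ≤ i → i < N → Lx d (vx oo up w i) oo}

lemma lx_asymm {d p q : Pt} (h1 : Lx d p q) (h2 : Lx d q p) : False := by
  unfold Lx at h1 h2
  omega

lemma lx_trans {d p q r : Pt} (h1 : Lx d p q) (h2 : Lx d q r) : Lx d p r := by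
  unfold Lx at *
  omega

lemma lx_total {d : Pt} (hd : d ∈ dirs) {p q : Pt} (h : p ≠ q) : Lx d p q ∨ Lx d q p := by
  by_contra hcon
  apply h
  unfold Lx at hcon
  have h1 : ip p d = ip q d := by omega
  have h2 : ip p (rotL d) = ip q (rotL d) := by omega
  simp only [dirs, mem_insert, mem_singleton] at hd
  unfold ip rotL at h2
  unfold ip at h1
  rcases hd with rfl | rfl | rfl | rfl | rfl | rfl <;> simp only at h1 h2 <;> refine Prod.ext ?_ ?_ <;> omega

lemma rotL_mulE (c d : Pt) : rotL (mulE c d) = mulE c (rotL d) := by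
  unfold rotL mulE
  refine Prod.ext ?_ ?_ <;> simp only <;> ring

lemma ip_turn {c : Pt} (hc : nrm c = 1) (p d : Pt) : ip (mulE c p) d = ip p (mulE (conjE c) d) := by
  have h1 : mulE c (mulE (conjE c) d) = d := by
    rw [mulE_assoc, mulE_conjE, hc, mulE_one]
  conv_lhs => rw [← h1]
  rw [ip_mulE, hc, one_mul]

lemma lx_mulE {c : Pt} (hc : nrm c = 1) (d p q : Pt) : Lx d (mulE c p) (mulE c q) ↔ Lx (mulE (conjE c) d) p q := by
  unfold Lx
  rw [ip_turn hc, ip_turn hc, ip_turn hc, ip_turn hc, rotL_mulE]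

lemma lx_sub (d p q r : Pt) : Lx d (p - r) (q - r) ↔ Lx d p q := by
  unfold Lx
  simp only [ip_sub_left]
  omega

lemma mul_dirs {c d : Pt} (hc : nrm c = 1) (hd : d ∈ dirs) : mulE (conjE c) d ∈ dirs := by
  rw [mem_dirs] at hd ⊢
  have h1 : nrm (mulE (conjE c) d) = nrm c * nrm d := by
    unfold nrm mulE conjE
    simp only
    ring
  rw [h1, hc, hd, one_mul]

/-- the vertex number a of the closed word is the top in the direction d -/
def Tp (N : ℕ) (s : List Bool) (d : Pt) (a : ℕ) : Prop := ∀ i, 1 ≤ i → i < N → Lx d (pv s (a + i)) (pv s a)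

lemma mulE_zero' (c : Pt) : mulE c 0 = 0 := by
  show mulE c (0, 0) = (0, 0)
  unfold mulE
  simp

variable {N : ℕ} {s : List Bool}

lemma top_iff (h : s ∈ Cy N) (a : ℕ) : s.rotate a ∈ TopCy N ↔ ∃ d ∈ dirs, Tp N s d a := by
  have hc := nrm_rotTo_pd s a
  have hlen := h.1
  have key : ∀ d i, i < N → (Lx d (vx oo up (s.rotate a) i) oo ↔
      Lx (mulE (conjE (rotTo (pd s a) up)) d) (pv s (a + i)) (pv s a)) := by
    intro d i hi
    rw [rot_vx (by omega)]
    have h0 : (oo : Pt) = mulE (rotTo (pd s a) up) (pv s a - pv s a) := by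
      rw [sub_self, mulE_zero']
      rfl
    conv_lhs => rw [h0]
    rw [lx_mulE hc, lx_sub]
  constructor
  · rintro ⟨-, d, hd, h1⟩
    exact ⟨_, mul_dirs hc hd, fun i hi hi' => (key d i hi').1 (h1 i hi hi')⟩
  · rintro ⟨d, hd, h1⟩
    refine ⟨Cy.rot h a, mulE (rotTo (pd s a) up) d, ?_, fun i hi hi' => ?_⟩
    · have h2 : conjE (conjE (rotTo (pd s a) up)) = rotTo (pd s a) up := conjE_conjE _
      have h3 : nrm (conjE (rotTo (pd s a) up)) = 1 := by
        rw [← hc]
        unfold nrm conjE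
        simp only
        ring
      have := mul_dirs h3 hd
      rwa [h2] at this
    · rw [key _ i hi']
      have h2 : mulE (conjE (rotTo (pd s a) up)) (mulE (rotTo (pd s a) up) d) = d := by
        rw [mulE_assoc, mulE_comm (conjE _), mulE_conjE, hc, mulE_one]
      rw [h2]
      exact h1 i hi hi'

lemma tp_unique (h : s ∈ Cy N) {d : Pt} {a b : ℕ} (ha : a < N) (hb : b < N) (h1 : Tp N s d a) (h2 : Tp N s d b) : a = b := by
  have hc := Cy.clo h
  have hlen := h.1
  by_contra hne
  wlog hlt : a < b generalizing a b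
  · exact this hb ha h2 h1 (Ne.symm hne) (by omega)
  have h3 := h1 (b - a) (by omega) (by omega)
  have h4 := h2 (N + a - b) (by omega) (by omega)
  rw [show a + (b - a) = b by omega] at h3
  rw [show b + (N + a - b) = N + a by omega, ← hlen, pv_per hc] at h4
  exact lx_asymm h3 h4

lemma tp_ex (h : s ∈ Cy N) (hN : 0 < N) {d : Pt} (hd : d ∈ dirs) : ∃ a, a < N ∧ Tp N s d a := by
  classical
  have hc := Cy.clo h
  have hlen := h.1
  -- the maximum of the sequence
  have key : ∀ m, 0 < m → m ≤ N → ∃ a, a < m ∧ ∀ b, b < m → b ≠ a → Lx d (pv s b) (pv s a) := by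
    intro m hm
    induction m, hm using Nat.le_induction with
    | base =>
      intro _
      exact ⟨0, by omega, fun b hb hb' => absurd (by omega) hb'⟩
    | succ m hm ih =>
      intro hmN
      obtain ⟨a, ha, h1⟩ := ih (by omega)
      have hne : pv s a ≠ pv s m := by
        intro he
        have := Cy.pv_inj h hN he
        rw [Nat.mod_eq_of_lt (by omega), Nat.mod_eq_of_lt (by omega)] at this
        omega
      rcases lx_total hd hne with h2 | h2
      · refine ⟨m, by omega, fun b hb hb' => ?_⟩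
        rcases eq_or_ne b a with h3 | h3
        · rw [h3]
          exact h2
        · exact lx_trans (h1 b (by omega) h3) h2
      · refine ⟨a, by omega, fun b hb hb' => ?_⟩
        rcases eq_or_ne b m with h3 | h3
        · rw [h3]
          exact h2
        · exact h1 b (by omega) hb'
  obtain ⟨a, ha, h1⟩ := key N hN le_rfl
  refine ⟨a, ha, fun i hi hi' => ?_⟩
  rcases Nat.lt_or_ge (a + i) N with h2 | h2
  · exact h1 _ h2 (by omega)
  · have h3 : pv s (a + i) = pv s (a + i - N) := by
      rw [show a + i = s.length + (a + i - N) by omega, pv_per hc, show s.length + (a + i - N) - N = a + i - N by omega]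
    rw [h3]
    exact h1 _ (by omega) (by omega)

lemma rotate_back {s : List Bool} {N a : ℕ} (hs : s.length = N) (ha : a ≤ N) : (s.rotate a).rotate (N - a) = s := by
  rw [List.rotate_rotate, show a + (N - a) = N by omega, ← hs, List.rotate_length]

lemma wE_rotate (s : List Bool) (a : ℕ) : wE (s.rotate a) = wE s := by
  unfold wE
  rw [List.length_rotate]

lemma gf_rot {a : ℕ} (ha : a ≤ N) : gf {w | w ∈ Cy N ∧ w.rotate a ∈ TopCy N} = gf (TopCy N) := by
  apply le_antisymm
  · refine ARM.G3.inj_sum (S := {w | w ∈ Cy N ∧ w.rotate a ∈ TopCy N}) (T := TopCy N) (f := wE) (g := wE)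
      (fun w => w.rotate a) (fun w hw => hw.2) ?_ (fun w _ => le_of_eq (wE_rotate w a).symm)
    rintro w hw w' hw' he
    simp only at he
    rw [← rotate_back hw.1.1 ha, he, rotate_back hw'.1.1 ha]
  · refine ARM.G3.inj_sum (S := TopCy N) (T := {w | w ∈ Cy N ∧ w.rotate a ∈ TopCy N}) (f := wE) (g := wE)
      (fun w => w.rotate (N - a)) (fun w hw => ⟨Cy.rot hw.1 _, ?_⟩) ?_ (fun w _ => le_of_eq (wE_rotate w _).symm)
    · rw [List.rotate_rotate, show N - a + a = N by omega, ← hw.1.1, List.rotate_length, hw.1.1]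
      exact hw
    · rintro w hw w' hw' he
      simp only at he
      have h1 := congrArg (fun u : List Bool => u.rotate a) he
      simp only [List.rotate_rotate] at h1
      rw [show N - a + a = N by omega] at h1
      have h2 : w.rotate N = w := by rw [← hw.1.1, List.rotate_length]
      have h3 : w'.rotate N = w' := by rw [← hw'.1.1, List.rotate_length]
      rw [← h2, h1, h3]

/-- the number of the roots at a top -/
lemma top_count (h : s ∈ Cy N) (hN : 0 < N) [DecidablePred fun a => s.rotate a ∈ TopCy N] :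
    1 ≤ ((range N).filter fun a => s.rotate a ∈ TopCy N).card ∧ ((range N).filter fun a => s.rotate a ∈ TopCy N).card ≤ 6 := by
  classical
  constructor
  · obtain ⟨a, ha, h1⟩ := tp_ex h hN up_dirs
    exact Finset.card_pos.2 ⟨a, mem_filter.2 ⟨mem_range.2 ha, (top_iff h a).2 ⟨_, up_dirs, h1⟩⟩⟩
  · have key : ∀ a, s.rotate a ∈ TopCy N → ∃ d ∈ dirs, Tp N s d a := fun a ha => (top_iff h a).1 ha
    choose! f hf1 hf2 using key
    have h1 : ((range N).filter fun a => s.rotate a ∈ TopCy N).card ≤ dirs.card := by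
      refine Finset.card_le_card_of_injOn f ?_ ?_
      · intro a ha
        rw [mem_coe, mem_filter] at ha
        exact hf1 a ha.2
      · intro a ha b hb he
        rw [mem_coe, mem_filter, mem_range] at ha hb
        exact tp_unique h ha.1 hb.1 (hf2 a ha.2) (by rw [he]; exact hf2 b hb.2)
    exact h1.trans (by decide)

lemma sum_rot (N : ℕ) [∀ s : List Bool, DecidablePred fun a => s.rotate a ∈ TopCy N] [DecidablePred (· ∈ Cy N)] :
    (N : ℝ≥0∞) * gf (TopCy N) = ∑' w : List Bool, if w ∈ Cy N then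
      wE w * (((range N).filter fun a => w.rotate a ∈ TopCy N).card : ℝ≥0∞) else 0 := by
  classical
  have h1 : (N : ℝ≥0∞) * gf (TopCy N) = ∑ a ∈ range N, gf {w | w ∈ Cy N ∧ w.rotate a ∈ TopCy N} := by
    rw [sum_congr rfl (g := fun _ => gf (TopCy N)) (fun a ha => gf_rot (mem_range.1 ha).le), sum_const, card_range,
      nsmul_eq_mul]
  rw [h1]
  have h2 : ∀ a, gf {w | w ∈ Cy N ∧ w.rotate a ∈ TopCy N} = ∑' w : List Bool, if w ∈ Cy N then
      (if w.rotate a ∈ TopCy N then wE w else 0) else 0 := by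
    intro a
    rw [AR.gf_ite]
    refine tsum_congr fun w => ?_
    by_cases hw : w ∈ Cy N
    · by_cases hw' : w.rotate a ∈ TopCy N
      · rw [if_pos (show w ∈ {w | w ∈ Cy N ∧ w.rotate a ∈ TopCy N} from ⟨hw, hw'⟩), if_pos hw, if_pos hw']
      · rw [if_neg (show ¬ w ∈ {w | w ∈ Cy N ∧ w.rotate a ∈ TopCy N} from fun h => hw' h.2), if_pos hw, if_neg hw']
    · rw [if_neg (show ¬ w ∈ {w | w ∈ Cy N ∧ w.rotate a ∈ TopCy N} from fun h => hw h.1), if_neg hw]
  simp only [h2]
  rw [← Summable.tsum_finsetSum (fun _ _ => ENNReal.summable)]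
  refine tsum_congr fun w => ?_
  by_cases hw : w ∈ Cy N
  · simp only [if_pos hw]
    rw [← sum_filter, sum_const, nsmul_eq_mul, mul_comm]
  · simp only [if_neg hw, sum_const_zero]

/-- **upper bound** -/
theorem topCy_le {N : ℕ} (hN : 0 < N) : (N : ℝ≥0∞) * gf (TopCy N) ≤ 6 * gf (Cy N) := by
  classical
  rw [sum_rot, AR.gf_ite, ← ENNReal.tsum_mul_left]
  refine ENNReal.tsum_le_tsum fun w => ?_
  by_cases hw : w ∈ Cy N
  · rw [if_pos hw, if_pos hw, mul_comm]
    refine mul_le_mul' ?_ le_rfl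
    exact_mod_cast (top_count hw hN).2
  · rw [if_neg hw]
    exact zero_le

/-- **lower bound** -/
theorem cy_le {N : ℕ} (hN : 0 < N) : gf (Cy N) ≤ (N : ℝ≥0∞) * gf (TopCy N) := by
  classical
  rw [sum_rot, AR.gf_ite]
  refine ENNReal.tsum_le_tsum fun w => ?_
  by_cases hw : w ∈ Cy N
  · rw [if_pos hw, if_pos hw]
    calc wE w = wE w * 1 := (mul_one _).symm
      _ ≤ _ := mul_le_mul' le_rfl (by exact_mod_cast (top_count hw hN).1)
  · rw [if_neg hw]
    exact zero_le

/-- **P1 at the top** -/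
theorem topP1 : ∃ C : ℝ, 0 < C ∧ ∀ N : ℕ, 1 ≤ N → gf (TopCy N) ≤ ENNReal.ofReal (C * (N : ℝ) ^ (-(5 / 2) : ℝ)) := by
  obtain ⟨C, hC, h⟩ := POL.P1
  refine ⟨6 * C, by positivity, fun N hN => ?_⟩
  have hN0 : (0 : ℝ) < N := by exact_mod_cast hN
  have h1 := (topCy_le hN).trans (mul_le_mul' (le_refl (6 : ℝ≥0∞)) (h N hN))
  have h2 : gf (TopCy N) ≤ (6 * ENNReal.ofReal (C * (N : ℝ) ^ (-(3 / 2) : ℝ))) / (N : ℝ≥0∞) := by
    rw [ENNReal.le_div_iff_mul_le (Or.inl (by exact_mod_cast (by omega : N ≠ 0))) (Or.inl (ENNReal.natCast_ne_top N)), mul_comm]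
    exact h1
  refine h2.trans (le_of_eq ?_)
  have e6 : (6 : ℝ≥0∞) = ENNReal.ofReal 6 := by norm_num
  rw [e6, ← ENNReal.ofReal_mul (by norm_num), ← ENNReal.ofReal_natCast, ← ENNReal.ofReal_div_of_pos hN0]
  congr 1
  rw [show (-(3 / 2) : ℝ) = -(5 / 2) + 1 by norm_num, Real.rpow_add hN0, Real.rpow_one]
  field_simp

end ART

end HexObs
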