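import Pool.Agent.ART.Defs
import Pool.Agent.ART.TopCy

/-!
# ART, row G4 (helper87): `cyTSt : CyTSt`, and the lower bound
-/

set_option autoImplicit false

namespace HexObs

namespace ART

open Finset TS SDN SIM NTA TIP

open scoped ENNReal

/-- the two forms of the class -/
theorem cyT_eq (N : ℕ) : CyT N = TopCy N := by
  ext w
  constructor
  · rintro ⟨hw, d, hd, h⟩
    refine ⟨hw, d, hd, fun i hi hi' => ?_⟩
    have hlen := hw.1
    have h1 := h i (by omega)
    have h0 : ∀ e : Pt, ip (oo : Pt) e = 0 := by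
      intro e
      unfold ip oo
      simp
    have hne : vx oo up w i ≠ oo := by
      intro he
      have h2 := hw.2.2.2 i 0 hi' (by omega) (he.trans rfl)
      omega
    rcases lx_total hd hne with h2 | h2
    · exact h2
    · unfold Lx at h2
      rw [h0, h0] at h2
      omega
  · rintro ⟨hw, d, hd, h⟩
    refine ⟨hw, d, hd, fun i hi => ?_⟩
    have hlen := hw.1
    have h0 : ∀ e : Pt, ip (oo : Pt) e = 0 := by
      intro e
      unfold ip oo
      simp
    rcases Nat.eq_zero_or_pos i with h1 | h1
    · rw [h1]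
      show ip oo d < 0 ∨ (ip oo d = 0 ∧ ip oo (rotL d) ≤ 0)
      rw [h0, h0]
      omega
    · rcases Nat.lt_or_ge i N with h2 | h2
      · have h3 := h i h1 h2
        unfold Lx at h3
        rw [h0, h0] at h3
        omega
      · have h3 : i = N := by omega
        rw [h3, hw.2.1, h0, h0]
        omega

/-- **row G4** -/
theorem cyTSt : CyTSt := by
  obtain ⟨C, hC, h⟩ := topP1
  refine ⟨C, hC, fun N hN => ?_⟩
  rw [cyT_eq]
  exact h N hN

/-- the lower bound: `gf (Cy N) <= N gf (CyT N)` -/
theorem cy_le_cyT {N : ℕ} (hN : 0 < N) : gf (POL.Cy N) ≤ (N : ℝ≥0∞) * gf (CyT N) := by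
  rw [cyT_eq]
  exact cy_le hN

end ART

end HexObs
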