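import Pool.Agent.ART.TopRot

/-!
# ART, row Cd (helper22): double cut rows of a closed word rooted at its top

A STATE `z = (P, Q)`: the upper ends of the two edges (parallel to d) that cross a row, relative to the top; the word goes
down from P to P - d, and comes up from Q - d to Q. `Cap d z R S`: the two arms of the top, down to the row; `Out d z O`: the
part below the row. `CutA d w z` : z is a double cut row of w.

* `cap_out` : `Cap d z R S` and `Out d z O` give `R ++ (O ++ S) ∈ WT d` (**exact product**); `dec_uniq` : uniqueness;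
  `cutA_of` : the geometric description;
* `Mid d z y M1 M2` : the two legs between two states; `cap_mid`, `mid_out`, **`nested`** (two double cut rows);
* `one_state` : at most one state for every depth.
-/

set_option autoImplicit false

namespace HexObs

namespace ART

open Finset TS SDN SIM NTA TIP ARM

open scoped ENNReal

/-! ### 0. Appended words -/

lemma vx_apR (v0 d0 : Pt) (A B : List Bool) (i : ℕ) :
    vx v0 d0 (A ++ B) (A.length + i) = vx (vx v0 d0 A A.length) (dx d0 A A.length) B i := by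
  unfold vx dx
  rw [vs_shift]
  have e1 : vs v0 d0 (tf (A ++ B)) A.length = vs v0 d0 (tf A) A.length :=
    vs_congr _ fun k hk => tf_append_left (by omega)
  have e2 : ds d0 (tf (A ++ B)) A.length = ds d0 (tf A) A.length := ds_congr _ fun k hk => tf_append_left hk
  rw [e1, e2]
  exact vs_congr _ fun k _ => tf_append_right k

lemma dx_apR (d0 : Pt) (A B : List Bool) (i : ℕ) : dx d0 (A ++ B) (A.length + i) = dx (dx d0 A A.length) B i := by
  unfold dx
  rw [ds_shift]
  have e2 : ds d0 (tf (A ++ B)) A.length = ds d0 (tf A) A.length := ds_congr _ fun k hk => tf_append_left hk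
  rw [e2]
  exact ds_congr _ fun k _ => tf_append_right k

lemma vx_apL (v0 d0 : Pt) {A : List Bool} (B : List Bool) {i : ℕ} (h : i ≤ A.length + 1) :
    vx v0 d0 (A ++ B) i = vx v0 d0 A i := vx_append h

lemma dx_apL (d0 : Pt) {A : List Bool} (B : List Bool) {i : ℕ} (h : i ≤ A.length) : dx d0 (A ++ B) i = dx d0 A i :=
  dx_append h

lemma vx_zero' (v0 d0 : Pt) (A : List Bool) : vx v0 d0 A 0 = v0 := rfl

lemma vx_one' (v0 d0 : Pt) (A : List Bool) : vx v0 d0 A 1 = v0 + d0 := rfl

lemma ip_dd {d : Pt} (hd : d ∈ dirs) : ip d d = 2 := by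
  revert d
  decide

lemma ne_neg {d : Pt} (hd : d ∈ dirs) : -d ≠ d := by
  revert d
  decide

lemma ip_negl (p q : Pt) : ip (-p) q = - ip p q := by
  unfold ip
  simp only [Prod.fst_neg, Prod.snd_neg]
  ring

/-! ### 1. The definitions -/

/-- the closed words rooted at their top in the direction d -/
def WT (d : Pt) : Set (List Bool) := {w | w ∈ POL.Cy w.length ∧ TR.TopD d w ∧ w ≠ []}

/-- below the top in the lexicographic order -/
def LexB (d p : Pt) : Prop := ip p d < 0 ∨ (ip p d = 0 ∧ ip p (rotL d) ≤ 0)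

/-- the two arms of the top, down to the state z -/
structure Cap (d : Pt) (z : Pt × Pt) (R S : List Bool) : Prop where
  lev : ip z.1 d = ip z.2 d
  enR : vx oo up R R.length = z.1
  hdR : dx up R R.length = -d
  loR : ∀ i, i ≤ R.length → ip z.1 d ≤ ip (vx oo up R i) d
  enS : vx (z.2 - d) d S S.length = oo
  hdS : dx d S S.length = up
  loS : ∀ i, 1 ≤ i → i ≤ S.length → ip z.1 d ≤ ip (vx (z.2 - d) d S i) d
  injR : ∀ i j, i ≤ R.length → j ≤ R.length → vx oo up R i = vx oo up R j → i = j
  injS : ∀ i j, 1 ≤ i → i ≤ S.length → 1 ≤ j → j ≤ S.length → vx (z.2 - d) d S i = vx (z.2 - d) d S j → i = j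
  dis : ∀ i j, i ≤ R.length → 1 ≤ j → j < S.length → vx oo up R i ≠ vx (z.2 - d) d S j
  tpR : ∀ i, i ≤ R.length → LexB d (vx oo up R i)
  tpS : ∀ i, 1 ≤ i → i ≤ S.length → LexB d (vx (z.2 - d) d S i)

/-- the part below the row of the state z -/
structure Out (d : Pt) (z : Pt × Pt) (O : List Bool) : Prop where
  lev : ip z.1 d = ip z.2 d
  en : vx z.1 (-d) O O.length = z.2 - d
  hd : dx (-d) O O.length = d
  lo : ∀ i, 1 ≤ i → i ≤ O.length → ip (vx z.1 (-d) O i) d < ip z.1 d
  inj : ∀ i j, 1 ≤ i → i ≤ O.length → 1 ≤ j → j ≤ O.length → vx z.1 (-d) O i = vx z.1 (-d) O j → i = j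

/-- **z is a double cut row of w** -/
def CutA (d : Pt) (w : List Bool) (z : Pt × Pt) : Prop := ∃ R O S, w = R ++ (O ++ S) ∧ Cap d z R S ∧ Out d z O

/-- w and w' have the same part below the row of the state z -/
def SameO (d : Pt) (z : Pt × Pt) (w w' : List Bool) : Prop :=
  ∃ R O S R' S', w = R ++ (O ++ S) ∧ w' = R' ++ (O ++ S') ∧ Cap d z R S ∧ Cap d z R' S' ∧ Out d z O

/-- the two legs between the state z and the deeper state y -/
structure Mid (d : Pt) (z y : Pt × Pt) (M1 M2 : List Bool) : Prop where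
  levz : ip z.1 d = ip z.2 d
  levy : ip y.1 d = ip y.2 d
  lt : ip y.1 d < ip z.1 d
  en1 : vx z.1 (-d) M1 M1.length = y.1
  hd1 : dx (-d) M1 M1.length = -d
  en2 : vx (y.2 - d) d M2 M2.length = z.2 - d
  hd2 : dx d M2 M2.length = d
  lo1 : ∀ i, 1 ≤ i → i ≤ M1.length → ip y.1 d ≤ ip (vx z.1 (-d) M1 i) d
  hi1 : ∀ i, 1 ≤ i → i ≤ M1.length → ip (vx z.1 (-d) M1 i) d < ip z.1 d
  lo2 : ∀ i, 1 ≤ i → i ≤ M2.length → ip y.1 d ≤ ip (vx (y.2 - d) d M2 i) d
  hi2 : ∀ i, 1 ≤ i → i ≤ M2.length → ip (vx (y.2 - d) d M2 i) d < ip z.1 d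
  inj1 : ∀ i j, 1 ≤ i → i ≤ M1.length → 1 ≤ j → j ≤ M1.length → vx z.1 (-d) M1 i = vx z.1 (-d) M1 j → i = j
  inj2 : ∀ i j, 1 ≤ i → i ≤ M2.length → 1 ≤ j → j ≤ M2.length → vx (y.2 - d) d M2 i = vx (y.2 - d) d M2 j → i = j
  dis : ∀ i j, 1 ≤ i → i ≤ M1.length → 1 ≤ j → j ≤ M2.length → vx z.1 (-d) M1 i ≠ vx (y.2 - d) d M2 j

/-! ### 2. Simple facts -/

lemma Out.pos {d : Pt} {z : Pt × Pt} {O : List Bool} (hd : d ∈ dirs) (h : Out d z O) : 1 ≤ O.length := by
  rcases Nat.eq_zero_or_pos O.length with h0 | h0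
  · have h1 := h.hd
    rw [h0] at h1
    exact absurd h1 (ne_neg hd)
  · exact h0

lemma Cap.le0 {d : Pt} {z : Pt × Pt} {R S : List Bool} (h : Cap d z R S) : ip z.1 d ≤ 0 := by
  have h1 := h.loR 0 (Nat.zero_le _)
  rw [vx_zero'] at h1
  have h2 : ip oo d = 0 := by simp [ip, oo]
  omega

lemma ip_sub_d {d : Pt} (hd : d ∈ dirs) (p : Pt) : ip (p - d) d = ip p d - 2 := by
  rw [ip_sub_left, ip_dd hd]

lemma ip_oo (d : Pt) : ip oo d = 0 := by simp [ip, oo]

lemma Cap.posS {d : Pt} {z : Pt × Pt} {R S : List Bool} (hd : d ∈ dirs) (h : Cap d z R S) : 1 ≤ S.length := by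
  rcases Nat.eq_zero_or_pos S.length with h0 | h0
  · have h1 := h.enS
    rw [h0, vx_zero'] at h1
    have h2 : ip (z.2 - d) d = 0 := by rw [h1, ip_oo]
    rw [ip_sub_d hd] at h2
    have h3 := h.le0
    have h4 := h.lev
    omega
  · exact h0

/-- the vertices of the three parts -/
lemma dec_vx {d : Pt} {z : Pt × Pt} {R O S : List Bool} (h1 : vx oo up R R.length = z.1) (h2 : dx up R R.length = -d)
    (h3 : vx z.1 (-d) O O.length = z.2 - d) (h4 : dx (-d) O O.length = d) :
    (∀ i, i ≤ R.length → vx oo up (R ++ (O ++ S)) i = vx oo up R i) ∧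
    (∀ i, i ≤ O.length → vx oo up (R ++ (O ++ S)) (R.length + i) = vx z.1 (-d) O i) ∧
    (∀ i, vx oo up (R ++ (O ++ S)) (R.length + O.length + i) = vx (z.2 - d) d S i) ∧
    (∀ i, dx up (R ++ (O ++ S)) (R.length + O.length + i) = dx d S i) := by
  refine ⟨fun i hi => vx_apL _ _ _ (by omega), fun i hi => ?_, fun i => ?_, fun i => ?_⟩
  · rw [vx_apR, h1, h2, vx_apL _ _ _ (by omega)]
  · rw [Nat.add_assoc, vx_apR, h1, h2, vx_apR, h3, h4]
  · rw [Nat.add_assoc, dx_apR, h2, dx_apR, h4]

/-! ### 3. The exact product -/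

/-- **the product** -/
theorem cap_out {d : Pt} (hd : d ∈ dirs) {z : Pt × Pt} {R O S : List Bool} (hC : Cap d z R S) (hO : Out d z O) :
    R ++ (O ++ S) ∈ WT d := by
  obtain ⟨e1, e2, e3, e4⟩ := dec_vx (S := S) hC.enR hC.hdR hO.en hO.hd
  have hOp := hO.pos hd
  have hSp := hC.posS hd
  have hlen : (R ++ (O ++ S)).length = R.length + O.length + S.length := by
    rw [List.length_append, List.length_append, Nat.add_assoc]
  have hz0 := hC.le0
  -- the three kinds of vertices
  have kind : ∀ i, i ≤ R.length + O.length + S.length → (i ≤ R.length ∧ vx oo up (R ++ (O ++ S)) i = vx oo up R i) ∨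
      (∃ j, 1 ≤ j ∧ j ≤ O.length ∧ i = R.length + j ∧ vx oo up (R ++ (O ++ S)) i = vx z.1 (-d) O j) ∨
      (∃ j, 1 ≤ j ∧ j ≤ S.length ∧ i = R.length + O.length + j ∧
        vx oo up (R ++ (O ++ S)) i = vx (z.2 - d) d S j) := by
    intro i hi
    rcases Nat.lt_or_ge R.length i with h | h
    · rcases Nat.lt_or_ge (R.length + O.length) i with h' | h'
      · right; right
        refine ⟨i - (R.length + O.length), by omega, by omega, by omega, ?_⟩
        conv_lhs => rw [show i = R.length + O.length + (i - (R.length + O.length)) by omega]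
        exact e3 _
      · right; left
        refine ⟨i - R.length, by omega, by omega, by omega, ?_⟩
        conv_lhs => rw [show i = R.length + (i - R.length) by omega]
        exact e2 _ (by omega)
    · exact Or.inl ⟨h, e1 i h⟩
  refine ⟨⟨rfl, ?_, ?_, ?_⟩, ?_, ?_⟩
  · rw [hlen, e3]
    exact hC.enS
  · rw [hlen, e4]
    exact hC.hdS
  · intro i j hi hj hij
    rw [hlen] at hi hj
    rcases kind i (by omega) with ⟨a1, a2⟩ | ⟨a, a1, a2, a3, a4⟩ | ⟨a, a1, a2, a3, a4⟩
    · rw [a2] at hij
      rcases kind j (by omega) with ⟨b1, b2⟩ | ⟨b, b1, b2, b3, b4⟩ | ⟨b, b1, b2, b3, b4⟩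
      · rw [b2] at hij
        exact hC.injR i j a1 b1 hij
      · rw [b4] at hij
        have h1 := hC.loR i a1
        have h2 := hO.lo b b1 b2
        rw [hij] at h1
        omega
      · rw [b4] at hij
        exact absurd hij (hC.dis i b a1 b1 (by omega))
    · rw [a4] at hij
      rcases kind j (by omega) with ⟨b1, b2⟩ | ⟨b, b1, b2, b3, b4⟩ | ⟨b, b1, b2, b3, b4⟩
      · rw [b2] at hij
        have h1 := hC.loR j b1
        have h2 := hO.lo a a1 a2
        rw [hij] at h2
        omega
      · rw [b4] at hij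
        have := hO.inj a b a1 a2 b1 b2 hij
        omega
      · rw [b4] at hij
        have h1 := hC.loS b b1 b2
        have h2 := hO.lo a a1 a2
        rw [hij] at h2
        omega
    · rw [a4] at hij
      rcases kind j (by omega) with ⟨b1, b2⟩ | ⟨b, b1, b2, b3, b4⟩ | ⟨b, b1, b2, b3, b4⟩
      · rw [b2] at hij
        exact absurd hij.symm (hC.dis j a b1 a1 (by omega))
      · rw [b4] at hij
        have h1 := hC.loS a a1 a2
        have h2 := hO.lo b b1 b2
        rw [hij] at h1
        omega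
      · rw [b4] at hij
        have := hC.injS a b a1 a2 b1 b2 hij
        omega
  · intro s hs
    rw [hlen] at hs
    rcases kind s hs with ⟨a1, a2⟩ | ⟨a, a1, a2, a3, a4⟩ | ⟨a, a1, a2, a3, a4⟩
    · rw [a2]
      exact hC.tpR s a1
    · rw [a4]
      have := hO.lo a a1 a2
      exact Or.inl (by omega)
    · rw [a4]
      exact hC.tpS a a1 a2
  · intro h
    rw [h, List.length_nil] at hlen
    omega

/-- the vertices of a word of WT -/
lemma WT.inj {d : Pt} {w : List Bool} (h : w ∈ WT d) {i j : ℕ} (hi : i < w.length) (hj : j < w.length)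
    (hij : vx oo up w i = vx oo up w j) : i = j := h.1.2.2.2 i j hi hj hij

/-- **the geometric description** -/
theorem cutA_of {d : Pt} {z : Pt × Pt} {R O S : List Bool} (hw : R ++ (O ++ S) ∈ WT d)
    (hlev : ip z.1 d = ip z.2 d) (h1 : vx oo up R R.length = z.1) (h2 : dx up R R.length = -d)
    (h3 : vx z.1 (-d) O O.length = z.2 - d) (h4 : dx (-d) O O.length = d) (hS : S ≠ [])
    (l1 : ∀ i, i ≤ R.length → ip z.1 d ≤ ip (vx oo up R i) d)
    (l2 : ∀ i, 1 ≤ i → i ≤ O.length → ip (vx z.1 (-d) O i) d < ip z.1 d)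
    (l3 : ∀ i, 1 ≤ i → i ≤ S.length → ip z.1 d ≤ ip (vx (z.2 - d) d S i) d) : Cap d z R S ∧ Out d z O := by
  obtain ⟨e1, e2, e3, e4⟩ := dec_vx (S := S) h1 h2 h3 h4
  have hlen : (R ++ (O ++ S)).length = R.length + O.length + S.length := by
    rw [List.length_append, List.length_append, Nat.add_assoc]
  have hSp : 1 ≤ S.length := List.length_pos_iff.2 hS
  have hinj := @WT.inj d _ hw
  obtain ⟨hcy, htop, -⟩ := hw
  have hcl := hcy.2.1
  have hcd := hcy.2.2.1
  rw [hlen, e3] at hcl
  rw [hlen, e4] at hcd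
  have htop' : ∀ s, s ≤ R.length + O.length + S.length → LexB d (vx oo up (R ++ (O ++ S)) s) := by
    intro s hs
    exact htop s (by rw [hlen]; exact hs)
  refine ⟨⟨hlev, h1, h2, l1, hcl, hcd, l3, ?_, ?_, ?_, ?_, ?_⟩, ⟨hlev, h3, h4, l2, ?_⟩⟩
  · intro i j hi hj hij
    rw [← e1 i hi, ← e1 j hj] at hij
    exact hinj (by omega) (by omega) hij
  · intro i j hi1 hi hj1 hj hij
    -- the vertices number < m
    have key : ∀ i j, 1 ≤ i → i < S.length → 1 ≤ j → j ≤ S.length → vx (z.2 - d) d S i = vx (z.2 - d) d S j → i = j := by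
      intro i j hi1 hi hj1 hj hij
      rcases Nat.lt_or_ge j S.length with h | h
      · rw [← e3 i, ← e3 j] at hij
        have := hinj (by omega) (by omega) hij
        omega
      · have h5 : j = S.length := by omega
        rw [h5, hcl, ← e3 i] at hij
        have h6 : vx oo up (R ++ (O ++ S)) (R.length + O.length + i) = vx oo up (R ++ (O ++ S)) 0 := by
          rw [hij]
          rfl
        have := hinj (by omega) (by omega) h6
        omega
    rcases Nat.lt_or_ge i S.length with h | h
    · exact key i j hi1 h hj1 hj hij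
    · rcases Nat.lt_or_ge j S.length with h' | h'
      · exact (key j i hj1 h' hi1 hi hij.symm).symm
      · omega
  · intro i j hi hj1 hj hij
    rw [← e1 i hi, ← e3 j] at hij
    have h5 := hinj (by omega) (by omega) hij
    omega
  · intro i hi
    rw [← e1 i hi]
    exact htop' i (by omega)
  · intro i hi1 hi
    rw [← e3 i]
    exact htop' _ (by omega)
  · intro i j hi1 hi hj1 hj hij
    rw [← e2 i hi, ← e2 j hj] at hij
    have := hinj (by omega) (by omega) hij
    omega

/-- the numbers of the letters of the parts -/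
lemma dec_len {d : Pt} (hd : d ∈ dirs) {z : Pt × Pt} {R O S R' O' S' : List Bool} (hC : Cap d z R S) (hO : Out d z O)
    (hC' : Cap d z R' S') (hO' : Out d z O') (h : R ++ (O ++ S) = R' ++ (O' ++ S')) :
    R.length = R'.length ∧ O.length = O'.length := by
  have hw := cap_out hd hC hO
  obtain ⟨e1, e2, e3, -⟩ := dec_vx (S := S) hC.enR hC.hdR hO.en hO.hd
  obtain ⟨f1, f2, f3, -⟩ := dec_vx (S := S') hC'.enR hC'.hdR hO'.en hO'.hd
  have hSp := hC.posS hd
  have hSp' := hC'.posS hd
  have hlen : (R ++ (O ++ S)).length = R.length + O.length + S.length := by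
    rw [List.length_append, List.length_append, Nat.add_assoc]
  have hlen' : (R ++ (O ++ S)).length = R'.length + O'.length + S'.length := by
    rw [h, List.length_append, List.length_append, Nat.add_assoc]
  have k1 : R.length = R'.length := by
    refine WT.inj hw (by omega) (by omega) ?_
    rw [e1 _ le_rfl, hC.enR]
    conv_rhs => rw [h]
    rw [f1 _ le_rfl, hC'.enR]
  have k2 : R.length + O.length = R'.length + O'.length := by
    refine WT.inj hw (by omega) (by omega) ?_
    rw [e2 _ le_rfl, hO.en]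
    conv_rhs => rw [h]
    rw [f2 _ le_rfl, hO'.en]
  exact ⟨k1, by omega⟩

/-- **uniqueness** -/
theorem dec_uniq {d : Pt} (hd : d ∈ dirs) {z : Pt × Pt} {R O S R' O' S' : List Bool} (hC : Cap d z R S) (hO : Out d z O)
    (hC' : Cap d z R' S') (hO' : Out d z O') (h : R ++ (O ++ S) = R' ++ (O' ++ S')) : R = R' ∧ O = O' ∧ S = S' := by
  obtain ⟨k1, k2⟩ := dec_len hd hC hO hC' hO' h
  obtain ⟨a1, a2⟩ := List.append_inj h k1
  obtain ⟨b1, b2⟩ := List.append_inj a2 k2
  exact ⟨a1, b1, b2⟩

/-! ### 4. Two double cut rows -/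

/-- an arm and a leg -/
theorem cap_mid {d : Pt} (hd : d ∈ dirs) {z y : Pt × Pt} {R S M1 M2 : List Bool} (hC : Cap d z R S) (hM : Mid d z y M1 M2) :
    Cap d y (R ++ M1) (M2 ++ S) := by
  have hlt := hM.lt
  have hz := hC.le0
  have hSp := hC.posS hd
  have hlR : (R ++ M1).length = R.length + M1.length := List.length_append
  have hlS : (M2 ++ S).length = M2.length + S.length := List.length_append
  have eR : ∀ i, i ≤ R.length → vx oo up (R ++ M1) i = vx oo up R i := fun i hi => vx_apL _ _ _ (by omega)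
  have eM : ∀ i, vx oo up (R ++ M1) (R.length + i) = vx z.1 (-d) M1 i := fun i => by
    rw [vx_apR, hC.enR, hC.hdR]
  have fM : ∀ i, i ≤ M2.length → vx (y.2 - d) d (M2 ++ S) i = vx (y.2 - d) d M2 i := fun i hi =>
    vx_apL _ _ _ (by omega)
  have fS : ∀ i, vx (y.2 - d) d (M2 ++ S) (M2.length + i) = vx (z.2 - d) d S i := fun i => by
    rw [vx_apR, hM.en2, hM.hd2]
  -- the two kinds of vertices
  have kR : ∀ i, i ≤ R.length + M1.length → (i ≤ R.length ∧ vx oo up (R ++ M1) i = vx oo up R i) ∨
      (∃ j, 1 ≤ j ∧ j ≤ M1.length ∧ i = R.length + j ∧ vx oo up (R ++ M1) i = vx z.1 (-d) M1 j) := by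
    intro i hi
    rcases Nat.lt_or_ge R.length i with h | h
    · right
      refine ⟨i - R.length, by omega, by omega, by omega, ?_⟩
      conv_lhs => rw [show i = R.length + (i - R.length) by omega]
      exact eM _
    · exact Or.inl ⟨h, eR i h⟩
  have kS : ∀ i, 1 ≤ i → i ≤ M2.length + S.length → (i ≤ M2.length ∧ vx (y.2 - d) d (M2 ++ S) i = vx (y.2 - d) d M2 i) ∨
      (∃ j, 1 ≤ j ∧ j ≤ S.length ∧ i = M2.length + j ∧ vx (y.2 - d) d (M2 ++ S) i = vx (z.2 - d) d S j) := by
    intro i _ hi
    rcases Nat.lt_or_ge M2.length i with h | h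
    · right
      refine ⟨i - M2.length, by omega, by omega, by omega, ?_⟩
      conv_lhs => rw [show i = M2.length + (i - M2.length) by omega]
      exact fS _
    · exact Or.inl ⟨h, fM i h⟩
  refine ⟨hM.levy, ?_, ?_, ?_, ?_, ?_, ?_, ?_, ?_, ?_, ?_, ?_⟩
  · rw [hlR, eM]
    exact hM.en1
  · rw [hlR, dx_apR, hC.hdR]
    exact hM.hd1
  · intro i hi
    rw [hlR] at hi
    rcases kR i hi with ⟨a1, a2⟩ | ⟨a, a1, a2, a3, a4⟩
    · rw [a2]
      exact hlt.le.trans (hC.loR i a1)
    · rw [a4]
      exact hM.lo1 a a1 a2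
  · rw [hlS, fS]
    exact hC.enS
  · rw [hlS, dx_apR, hM.hd2]
    exact hC.hdS
  · intro i hi1 hi
    rw [hlS] at hi
    rcases kS i hi1 hi with ⟨a1, a2⟩ | ⟨a, a1, a2, a3, a4⟩
    · rw [a2]
      exact hM.lo2 i hi1 a1
    · rw [a4]
      exact hlt.le.trans (hC.loS a a1 a2)
  · intro i j hi hj hij
    rw [hlR] at hi hj
    rcases kR i hi with ⟨a1, a2⟩ | ⟨a, a1, a2, a3, a4⟩
    · rw [a2] at hij
      rcases kR j hj with ⟨b1, b2⟩ | ⟨b, b1, b2, b3, b4⟩
      · rw [b2] at hij
        exact hC.injR i j a1 b1 hij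
      · rw [b4] at hij
        have h1 := hC.loR i a1
        have h2 := hM.hi1 b b1 b2
        rw [hij] at h1
        omega
    · rw [a4] at hij
      rcases kR j hj with ⟨b1, b2⟩ | ⟨b, b1, b2, b3, b4⟩
      · rw [b2] at hij
        have h1 := hC.loR j b1
        have h2 := hM.hi1 a a1 a2
        rw [hij] at h2
        omega
      · rw [b4] at hij
        have := hM.inj1 a b a1 a2 b1 b2 hij
        omega
  · intro i j hi1 hi hj1 hj hij
    rw [hlS] at hi hj
    rcases kS i hi1 hi with ⟨a1, a2⟩ | ⟨a, a1, a2, a3, a4⟩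
    · rw [a2] at hij
      rcases kS j hj1 hj with ⟨b1, b2⟩ | ⟨b, b1, b2, b3, b4⟩
      · rw [b2] at hij
        exact hM.inj2 i j hi1 a1 hj1 b1 hij
      · rw [b4] at hij
        have h1 := hC.loS b b1 b2
        have h2 := hM.hi2 i hi1 a1
        rw [hij] at h2
        omega
    · rw [a4] at hij
      rcases kS j hj1 hj with ⟨b1, b2⟩ | ⟨b, b1, b2, b3, b4⟩
      · rw [b2] at hij
        have h1 := hC.loS a a1 a2
        have h2 := hM.hi2 j hj1 b1
        rw [hij] at h1
        omega
      · rw [b4] at hij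
        have := hC.injS a b a1 a2 b1 b2 hij
        omega
  · intro i j hi hj1 hj hij
    rw [hlR] at hi
    rw [hlS] at hj
    rcases kR i hi with ⟨a1, a2⟩ | ⟨a, a1, a2, a3, a4⟩
    · rw [a2] at hij
      rcases kS j hj1 (by omega) with ⟨b1, b2⟩ | ⟨b, b1, b2, b3, b4⟩
      · rw [b2] at hij
        have h1 := hC.loR i a1
        have h2 := hM.hi2 j hj1 b1
        rw [hij] at h1
        omega
      · rw [b4] at hij
        exact hC.dis i b a1 b1 (by omega) hij
    · rw [a4] at hij
      rcases kS j hj1 (by omega) with ⟨b1, b2⟩ | ⟨b, b1, b2, b3, b4⟩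
      · rw [b2] at hij
        exact hM.dis a j a1 a2 hj1 b1 hij
      · rw [b4] at hij
        have h1 := hC.loS b b1 b2
        have h2 := hM.hi1 a a1 a2
        rw [hij] at h2
        omega
  · intro i hi
    rw [hlR] at hi
    rcases kR i hi with ⟨a1, a2⟩ | ⟨a, a1, a2, a3, a4⟩
    · rw [a2]
      exact hC.tpR i a1
    · rw [a4]
      have := hM.hi1 a a1 a2
      exact Or.inl (by omega)
  · intro i hi1 hi
    rw [hlS] at hi
    rcases kS i hi1 hi with ⟨a1, a2⟩ | ⟨a, a1, a2, a3, a4⟩
    · rw [a2]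
      have := hM.hi2 i hi1 a1
      exact Or.inl (by omega)
    · rw [a4]
      exact hC.tpS a a1 a2

/-- the legs and the part below -/
theorem mid_out {d : Pt} {z y : Pt × Pt} {M1 M2 O : List Bool} (hM : Mid d z y M1 M2) (hO : Out d y O) :
    Out d z (M1 ++ (O ++ M2)) := by
  have hlt := hM.lt
  have hl : (M1 ++ (O ++ M2)).length = M1.length + O.length + M2.length := by
    rw [List.length_append, List.length_append, Nat.add_assoc]
  have e1 : ∀ i, i ≤ M1.length → vx z.1 (-d) (M1 ++ (O ++ M2)) i = vx z.1 (-d) M1 i := fun i hi => vx_apL _ _ _ (by omega)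
  have e2 : ∀ i, i ≤ O.length → vx z.1 (-d) (M1 ++ (O ++ M2)) (M1.length + i) = vx y.1 (-d) O i := fun i hi => by
    rw [vx_apR, hM.en1, hM.hd1, vx_apL _ _ _ (by omega)]
  have e3 : ∀ i, vx z.1 (-d) (M1 ++ (O ++ M2)) (M1.length + O.length + i) = vx (y.2 - d) d M2 i := fun i => by
    rw [Nat.add_assoc, vx_apR, hM.en1, hM.hd1, vx_apR, hO.en, hO.hd]
  have e4 : ∀ i, dx (-d) (M1 ++ (O ++ M2)) (M1.length + O.length + i) = dx d M2 i := fun i => by
    rw [Nat.add_assoc, dx_apR, hM.hd1, dx_apR, hO.hd]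
  have kind : ∀ i, 1 ≤ i → i ≤ M1.length + O.length + M2.length →
      (i ≤ M1.length ∧ vx z.1 (-d) (M1 ++ (O ++ M2)) i = vx z.1 (-d) M1 i) ∨
      (∃ j, 1 ≤ j ∧ j ≤ O.length ∧ i = M1.length + j ∧ vx z.1 (-d) (M1 ++ (O ++ M2)) i = vx y.1 (-d) O j) ∨
      (∃ j, 1 ≤ j ∧ j ≤ M2.length ∧ i = M1.length + O.length + j ∧
        vx z.1 (-d) (M1 ++ (O ++ M2)) i = vx (y.2 - d) d M2 j) := by
    intro i _ hi
    rcases Nat.lt_or_ge M1.length i with h | h
    · rcases Nat.lt_or_ge (M1.length + O.length) i with h' | h'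
      · right; right
        refine ⟨i - (M1.length + O.length), by omega, by omega, by omega, ?_⟩
        conv_lhs => rw [show i = M1.length + O.length + (i - (M1.length + O.length)) by omega]
        exact e3 _
      · right; left
        refine ⟨i - M1.length, by omega, by omega, by omega, ?_⟩
        conv_lhs => rw [show i = M1.length + (i - M1.length) by omega]
        exact e2 _ (by omega)
    · exact Or.inl ⟨h, e1 i h⟩
  refine ⟨hM.levz, ?_, ?_, ?_, ?_⟩
  · rw [hl, e3]
    exact hM.en2
  · rw [hl, e4]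
    exact hM.hd2
  · intro i hi1 hi
    rw [hl] at hi
    rcases kind i hi1 hi with ⟨a1, a2⟩ | ⟨a, a1, a2, a3, a4⟩ | ⟨a, a1, a2, a3, a4⟩
    · rw [a2]
      exact hM.hi1 i hi1 a1
    · rw [a4]
      exact (hO.lo a a1 a2).trans hlt
    · rw [a4]
      exact hM.hi2 a a1 a2
  · intro i j hi1 hi hj1 hj hij
    rw [hl] at hi hj
    rcases kind i hi1 hi with ⟨a1, a2⟩ | ⟨a, a1, a2, a3, a4⟩ | ⟨a, a1, a2, a3, a4⟩
    · rw [a2] at hij
      rcases kind j hj1 hj with ⟨b1, b2⟩ | ⟨b, b1, b2, b3, b4⟩ | ⟨b, b1, b2, b3, b4⟩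
      · rw [b2] at hij
        exact hM.inj1 i j hi1 a1 hj1 b1 hij
      · rw [b4] at hij
        have h1 := hM.lo1 i hi1 a1
        have h2 := hO.lo b b1 b2
        rw [hij] at h1
        omega
      · rw [b4] at hij
        exact absurd hij (hM.dis i b hi1 a1 b1 b2)
    · rw [a4] at hij
      rcases kind j hj1 hj with ⟨b1, b2⟩ | ⟨b, b1, b2, b3, b4⟩ | ⟨b, b1, b2, b3, b4⟩
      · rw [b2] at hij
        have h1 := hM.lo1 j hj1 b1
        have h2 := hO.lo a a1 a2
        rw [hij] at h2
        omega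
      · rw [b4] at hij
        have := hO.inj a b a1 a2 b1 b2 hij
        omega
      · rw [b4] at hij
        have h1 := hM.lo2 b b1 b2
        have h2 := hO.lo a a1 a2
        rw [hij] at h2
        omega
    · rw [a4] at hij
      rcases kind j hj1 hj with ⟨b1, b2⟩ | ⟨b, b1, b2, b3, b4⟩ | ⟨b, b1, b2, b3, b4⟩
      · rw [b2] at hij
        exact absurd hij.symm (hM.dis j a hj1 b1 a1 a2)
      · rw [b4] at hij
        have h1 := hM.lo2 a a1 a2
        have h2 := hO.lo b b1 b2
        rw [hij] at h1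
        omega
      · rw [b4] at hij
        have := hM.inj2 a b a1 a2 b1 b2 hij
        omega

/-- **two double cut rows**: the legs between them -/
theorem nested {d : Pt} (hd : d ∈ dirs) {z y : Pt × Pt} {R O S R' O' S' : List Bool} (hC : Cap d z R S) (hO : Out d z O)
    (hC' : Cap d y R' S') (hO' : Out d y O') (h : R ++ (O ++ S) = R' ++ (O' ++ S')) (hlt : ip y.1 d < ip z.1 d) :
    ∃ M1 M2, R' = R ++ M1 ∧ S' = M2 ++ S ∧ O = M1 ++ (O' ++ M2) ∧ Mid d z y M1 M2 := by
  obtain ⟨e1, e2, e3, -⟩ := dec_vx (S := S) hC.enR hC.hdR hO.en hO.hd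
  obtain ⟨f1, f2, f3, -⟩ := dec_vx (S := S') hC'.enR hC'.hdR hO'.en hO'.hd
  rw [← h] at f1 f2 f3
  have hOp := hO.pos hd
  have hOp' := hO'.pos hd
  have hSp := hC.posS hd
  have hSp' := hC'.posS hd
  have hlen : (R ++ (O ++ S)).length = R.length + O.length + S.length := by
    rw [List.length_append, List.length_append, Nat.add_assoc]
  have hlen' : (R ++ (O ++ S)).length = R'.length + O'.length + S'.length := by
    rw [h, List.length_append, List.length_append, Nat.add_assoc]
  -- R is shorter than R'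
  have k1 : R.length < R'.length := by
    by_contra hcon
    rw [not_lt] at hcon
    have h1 := hC.loR
    rcases Nat.lt_or_ge R.length (R'.length + 1) with h2 | h2
    · -- the same length
      have h3 : R.length = R'.length := by omega
      have h4 := e1 _ le_rfl
      have h5 := f1 _ le_rfl
      rw [h3, h5, hC'.enR, ← h3, hC.enR] at h4
      rw [h4] at hlt
      exact absurd hlt (lt_irrefl _)
    · have h3 := f2 1 hOp'
      rw [e1 (R'.length + 1) (by omega)] at h3
      have h4 := h1 (R'.length + 1) (by omega)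
      have h5 := hO'.lo 1 le_rfl hOp'
      rw [h3] at h4
      omega
  have k2 : R'.length + O'.length < R.length + O.length := by
    by_contra hcon
    rw [not_lt] at hcon
    rcases Nat.lt_or_ge (R.length + O.length) (R'.length + O'.length) with h2 | h2
    · have h3 := e3 (R'.length + O'.length - (R.length + O.length))
      rw [show R.length + O.length + (R'.length + O'.length - (R.length + O.length)) = R'.length + O'.length by omega,
        f2 _ le_rfl] at h3
      have h4 := hC.loS (R'.length + O'.length - (R.length + O.length)) (by omega) (by omega)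
      have h5 := hO'.lo O'.length hOp' le_rfl
      rw [h3] at h5
      omega
    · have h6 : R.length + O.length = R'.length + O'.length := by omega
      have h3 := e2 _ (le_refl O.length)
      rw [h6, f2 _ le_rfl, hO.en, hO'.en] at h3
      have h4 : y.2 = z.2 := sub_left_injective h3
      have h5 := hC.lev
      have h7 := hC'.lev
      rw [h4] at h7
      omega
  -- the words
  obtain ⟨M1, hM1⟩ : ∃ M1, M1 = (R'.drop R.length) := ⟨_, rfl⟩
  have hR' : R' = R ++ M1 := by
    have h1 : R'.take R.length = R := by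
      have h2 := congrArg (List.take R.length) h
      rw [List.take_left' rfl, List.take_append_of_le_length (by omega)] at h2
      exact h2.symm
    rw [hM1, ← h1]
    conv_lhs => rw [← List.take_append_drop R.length R']
    rw [List.length_take, min_eq_left (by omega)]
  have hOS : O ++ S = M1 ++ (O' ++ S') := by
    rw [hR', List.append_assoc] at h
    exact List.append_cancel_left h
  have hl1 : M1.length = R'.length - R.length := by rw [hM1, List.length_drop]
  have hO2 : O.take M1.length = M1 ∧ O.drop M1.length ++ S = O' ++ S' := by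
    have h1 : M1.length ≤ O.length := by omega
    constructor
    · have h2 := congrArg (List.take M1.length) hOS
      rw [List.take_append_of_le_length h1, List.take_left' rfl] at h2
      exact h2
    · have h2 := congrArg (List.drop M1.length) hOS
      rw [List.drop_append_of_le_length h1, List.drop_left' rfl] at h2
      exact h2
  obtain ⟨M2, hM2⟩ : ∃ M2, M2 = (O.drop M1.length).drop O'.length := ⟨_, rfl⟩
  have hle : O'.length ≤ (O.drop M1.length).length := by
    rw [List.length_drop]
    omega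
  have hO3 : (O.drop M1.length).take O'.length = O' ∧ M2 ++ S = S' := by
    constructor
    · have h2 := congrArg (List.take O'.length) hO2.2
      rw [List.take_append_of_le_length hle, List.take_left' rfl] at h2
      exact h2
    · have h2 := congrArg (List.drop O'.length) hO2.2
      rw [List.drop_append_of_le_length hle, List.drop_left' rfl] at h2
      rw [hM2]
      exact h2
  have hO4 : O = M1 ++ (O' ++ M2) := by
    conv_lhs => rw [← List.take_append_drop M1.length O, hO2.1, ← List.take_append_drop O'.length (O.drop M1.length),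
      hO3.1, ← hM2]
  refine ⟨M1, M2, hR', hO3.2.symm, hO4, ?_⟩
  have g1 : ∀ i, vx oo up R' (R.length + i) = vx z.1 (-d) M1 i := fun i => by
    rw [hR', vx_apR, hC.enR, hC.hdR]
  have en1 : vx z.1 (-d) M1 M1.length = y.1 := by
    rw [← g1, hl1, show R.length + (R'.length - R.length) = R'.length by omega]
    exact hC'.enR
  have hd1 : dx (-d) M1 M1.length = -d := by
    have h1 := hC'.hdR
    rw [hR', List.length_append, dx_apR, hC.hdR] at h1
    exact h1
  have g2 : ∀ i, i ≤ O'.length → vx z.1 (-d) O (M1.length + i) = vx y.1 (-d) O' i := fun i hi => by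
    rw [hO4, vx_apR, en1, hd1, vx_apL _ _ _ (by omega)]
  have g3 : ∀ i, vx z.1 (-d) O (M1.length + O'.length + i) = vx (y.2 - d) d M2 i := fun i => by
    rw [hO4, Nat.add_assoc, vx_apR, en1, hd1, vx_apR, hO'.en, hO'.hd]
  have g0 : ∀ i, i ≤ M1.length → vx z.1 (-d) O i = vx z.1 (-d) M1 i := fun i hi => by
    rw [hO4, vx_apL _ _ _ (by omega)]
  have hlO : O.length = M1.length + O'.length + M2.length := by
    rw [hO4, List.length_append, List.length_append, Nat.add_assoc]
  have hS2 : ∀ i, i ≤ M2.length → vx (y.2 - d) d S' i = vx (y.2 - d) d M2 i := fun i hi => by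
    rw [← hO3.2, vx_apL _ _ _ (by omega)]
  refine ⟨hC.lev, hC'.lev, hlt, en1, hd1, ?_, ?_, ?_, ?_, ?_, ?_, ?_, ?_, ?_⟩
  · rw [← g3, ← hlO]
    exact hO.en
  · have h1 := hO.hd
    rw [hlO] at h1
    have h2 : dx (-d) O (M1.length + O'.length + M2.length) = dx d M2 M2.length := by
      rw [hO4, Nat.add_assoc, dx_apR, hd1, dx_apR, hO'.hd]
    exact h2.symm.trans h1
  · intro i hi1 hi
    rw [← g1 i]
    exact hC'.loR _ (by omega)
  · intro i hi1 hi
    rw [← g0 i hi]
    exact hO.lo i hi1 (by omega)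
  · intro i hi1 hi
    rw [← hS2 i hi]
    refine hC'.loS i hi1 ?_
    rw [← hO3.2, List.length_append]
    omega
  · intro i hi1 hi
    rw [← g3 i]
    exact hO.lo _ (by omega) (by omega)
  · intro i j hi1 hi hj1 hj hij
    rw [← g0 i hi, ← g0 j hj] at hij
    exact hO.inj i j hi1 (by omega) hj1 (by omega) hij
  · intro i j hi1 hi hj1 hj hij
    rw [← g3 i, ← g3 j] at hij
    have := hO.inj _ _ (by omega) (by omega) (by omega) (by omega) hij
    omega
  · intro i j hi1 hi hj1 hj hij
    rw [← g0 i hi, ← g3 j] at hij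
    have := hO.inj _ _ hi1 (by omega) (by omega) (by omega) hij
    omega

/-- **at most one state for every depth** -/
theorem one_state {d : Pt} (hd : d ∈ dirs) {w : List Bool} {z y : Pt × Pt} (hz : CutA d w z) (hy : CutA d w y)
    (h : ip z.1 d = ip y.1 d) : z = y := by
  obtain ⟨R, O, S, rfl, hC, hO⟩ := hz
  obtain ⟨R', O', S', h', hC', hO'⟩ := hy
  obtain ⟨e1, e2, e3, -⟩ := dec_vx (S := S) hC.enR hC.hdR hO.en hO.hd
  obtain ⟨f1, f2, f3, -⟩ := dec_vx (S := S') hC'.enR hC'.hdR hO'.en hO'.hd
  rw [← h'] at f1 f2 f3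
  have hOp := hO.pos hd
  have hOp' := hO'.pos hd
  have hSp := hC.posS hd
  have hSp' := hC'.posS hd
  have hlen : (R ++ (O ++ S)).length = R.length + O.length + S.length := by
    rw [List.length_append, List.length_append, Nat.add_assoc]
  have hlen' : (R ++ (O ++ S)).length = R'.length + O'.length + S'.length := by
    rw [h', List.length_append, List.length_append, Nat.add_assoc]
  have a1 : R'.length ≤ R.length := by
    by_contra hcon
    have h1 := e2 1 hOp
    rw [f1 _ (by omega)] at h1
    have h2 := hC'.loR (R.length + 1) (by omega)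
    have h3 := hO.lo 1 le_rfl hOp
    rw [← h1] at h3
    omega
  have a2 : R.length ≤ R'.length := by
    by_contra hcon
    have h1 := f2 1 hOp'
    rw [e1 _ (by omega)] at h1
    have h2 := hC.loR (R'.length + 1) (by omega)
    have h3 := hO'.lo 1 le_rfl hOp'
    rw [← h1] at h3
    omega
  have a3 : R.length = R'.length := le_antisymm a2 a1
  have b1 : R'.length + O'.length ≤ R.length + O.length := by
    by_contra hcon
    have h1 := f2 O'.length le_rfl
    have h2 := e3 (R'.length + O'.length - (R.length + O.length))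
    rw [show R.length + O.length + (R'.length + O'.length - (R.length + O.length)) = R'.length + O'.length by omega,
      h1] at h2
    have h3 := hC.loS (R'.length + O'.length - (R.length + O.length)) (by omega) (by omega)
    have h4 := hO'.lo O'.length hOp' le_rfl
    rw [h2] at h4
    omega
  have b2 : R.length + O.length ≤ R'.length + O'.length := by
    by_contra hcon
    have h1 := e2 O.length le_rfl
    have h2 := f3 (R.length + O.length - (R'.length + O'.length))
    rw [show R'.length + O'.length + (R.length + O.length - (R'.length + O'.length)) = R.length + O.length by omega,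
      h1] at h2
    have h3 := hC'.loS (R.length + O.length - (R'.length + O'.length)) (by omega) (by omega)
    have h4 := hO.lo O.length hOp le_rfl
    rw [h2] at h4
    omega
  have b3 : O.length = O'.length := by omega
  apply Prod.ext
  · have h1 := e1 _ (le_refl R.length)
    rw [a3, f1 _ le_rfl, hC'.enR, ← a3, hC.enR] at h1
    exact h1.symm
  · have h1 := e2 _ (le_refl O.length)
    rw [a3, b3, f2 _ le_rfl, hO'.en, ← b3, hO.en] at h1
    exact (sub_left_injective h1).symm

lemma CutA.mem {d : Pt} (hd : d ∈ dirs) {w : List Bool} {z : Pt × Pt} (h : CutA d w z) : w ∈ WT d := by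
  obtain ⟨R, O, S, rfl, hC, hO⟩ := h
  exact cap_out hd hC hO

/-- **the deeper double cut rows do not see the cap** -/
theorem cutA_same {d : Pt} (hd : d ∈ dirs) {z y : Pt × Pt} {w w' : List Bool} (h : SameO d z w w')
    (hlt : ip y.1 d < ip z.1 d) : CutA d w y ↔ CutA d w' y := by
  have key : ∀ {w w' : List Bool}, SameO d z w w' → CutA d w y → CutA d w' y := by
    rintro w w' ⟨R, O, S, R', S', rfl, rfl, hC, hC', hO⟩ ⟨R1, O1, S1, h1, hC1, hO1⟩
    obtain ⟨M1, M2, -, -, hO2, hM⟩ := nested hd hC hO hC1 hO1 h1 hlt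
    refine ⟨R' ++ M1, O1, M2 ++ S', ?_, cap_mid hd hC' hM, hO1⟩
    rw [hO2]
    simp only [List.append_assoc]
  refine ⟨key h, key ?_⟩
  obtain ⟨R, O, S, R', S', h1, h2, hC, hC', hO⟩ := h
  exact ⟨R', O, S', R, S, h2, h1, hC', hC, hO⟩

/-- **the same part below a state, seen from a deeper state** -/
theorem same_deeper {d : Pt} (hd : d ∈ dirs) {z y : Pt × Pt} {w w' : List Bool} (h : SameO d z w w') (hy : CutA d w y)
    (hlt : ip y.1 d < ip z.1 d) : SameO d y w w' := by
  obtain ⟨R, O, S, R', S', rfl, rfl, hC, hC', hO⟩ := h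
  obtain ⟨R1, O1, S1, h1, hC1, hO1⟩ := hy
  obtain ⟨M1, M2, h2, h3, hO2, hM⟩ := nested hd hC hO hC1 hO1 h1 hlt
  refine ⟨R ++ M1, O1, M2 ++ S, R' ++ M1, M2 ++ S', ?_, ?_, cap_mid hd hC hM, cap_mid hd hC' hM, hO1⟩
  · rw [hO2]
    simp only [List.append_assoc]
  · rw [hO2]
    simp only [List.append_assoc]

end ART

end HexObs
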