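import Pool.Agent.ART.DCut
import Pool.Agent.PHW.Base

/-!
# ART, row Cd (helper22), part 2

* **`cutA_iff`** : the intrinsic form of a double cut row;
* `vx_dn`, `vx_up` : words read downwards and upwards from a given vertex; **`mid_iff`** : the legs are bridges;
* `mid_comp`, **`mid_split`** : a common cut of the two legs is a double cut row; `cutA_between`.
-/

set_option autoImplicit false

namespace HexObs

namespace ART

open Finset TS SDN SIM NTA TIP ARM

open scoped ENNReal

/-! ### 1. The intrinsic form -/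

/-- **the intrinsic form** -/
theorem cutA_iff {d : Pt} (hd : d ∈ dirs) {w : List Bool} (hw : w ∈ WT d) {P Q : Pt} :
    CutA d w (P, Q) ↔ ip P d = ip Q d ∧ ∃ i j, i < j ∧ j < w.length ∧ vx oo up w i = P ∧ vx oo up w (i + 1) = P - d ∧
      vx oo up w j = Q - d ∧ vx oo up w (j + 1) = Q ∧
      ∀ s, s ≤ w.length → (ip (vx oo up w s) d < ip P d ↔ i < s ∧ s ≤ j) := by
  constructor
  · rintro ⟨R, O, S, rfl, hC, hO⟩
    obtain ⟨e1, e2, e3, -⟩ := dec_vx (S := S) hC.enR hC.hdR hO.en hO.hd
    have hOp := hO.pos hd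
    have hSp := hC.posS hd
    have hlen : (R ++ (O ++ S)).length = R.length + O.length + S.length := by
      rw [List.length_append, List.length_append, Nat.add_assoc]
    refine ⟨hC.lev, R.length, R.length + O.length, by omega, by omega, ?_, ?_, ?_, ?_, fun s hs => ?_⟩
    · rw [e1 _ le_rfl]
      exact hC.enR
    · rw [e2 1 hOp, vx_one']
      show P + -d = P - d
      rw [sub_eq_add_neg]
    · rw [e2 _ le_rfl]
      exact hO.en
    · rw [e3 1, vx_one']
      show Q - d + d = Q
      rw [sub_add_cancel]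
    · rw [hlen] at hs
      rcases Nat.lt_or_ge R.length s with h | h
      · rcases Nat.lt_or_ge (R.length + O.length) s with h' | h'
        · constructor
          · intro h1
            have h2 := hC.loS (s - (R.length + O.length)) (by omega) (by omega)
            rw [← e3, show R.length + O.length + (s - (R.length + O.length)) = s by omega] at h2
            exact absurd h1 (not_lt.2 h2)
          · rintro ⟨-, h2⟩
            omega
        · constructor
          · intro _
            exact ⟨h, h'⟩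
          · intro _
            have h2 := hO.lo (s - R.length) (by omega) (by omega)
            rw [← e2 _ (by omega), show R.length + (s - R.length) = s by omega] at h2
            exact h2
      · constructor
        · intro h1
          have h2 := hC.loR s h
          rw [← e1 s h] at h2
          exact absurd h1 (not_lt.2 h2)
        · rintro ⟨h2, -⟩
          omega
  · rintro ⟨hlev, i, j, hij, hj, h1, h2, h3, h4, h5⟩
    obtain ⟨R, hR⟩ : ∃ R, R = w.take i := ⟨_, rfl⟩
    obtain ⟨O, hO⟩ : ∃ O, O = (w.drop i).take (j - i) := ⟨_, rfl⟩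
    obtain ⟨S, hS⟩ : ∃ S, S = w.drop j := ⟨_, rfl⟩
    have hwe : w = R ++ (O ++ S) := by
      rw [hR, hO, hS]
      conv_lhs => rw [← List.take_append_drop i w, ← List.take_append_drop (j - i) (w.drop i), List.drop_drop]
      rw [show i + (j - i) = j by omega]
    have lR : R.length = i := by rw [hR, List.length_take]; omega
    have lO : O.length = j - i := by rw [hO, List.length_take, List.length_drop]; omega
    have lS : S.length = w.length - j := by rw [hS, List.length_drop]
    have sv : ∀ n, dx up w n = vx oo up w (n + 1) - vx oo up w n := by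
      intro n
      have : vx oo up w (n + 1) = vx oo up w n + dx up w n := rfl
      rw [this]
      abel
    have eR : vx oo up R R.length = P := by
      rw [← h1, lR, hwe, vx_apL _ _ _ (by omega)]
    have dR : dx up R R.length = -d := by
      have e : dx up w i = -d := by
        rw [sv, h2, h1]
        abel
      rw [← e, lR, hwe, dx_apL _ _ (by omega)]
    have eO : ∀ s, s ≤ O.length + 1 → vx P (-d) O s = vx oo up w (i + s) := by
      intro s hs
      rw [hwe, ← lR, vx_apR, eR, dR, vx_apL _ _ _ hs]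
    have eOd : ∀ s, s ≤ O.length → dx (-d) O s = dx up w (i + s) := by
      intro s hs
      rw [hwe, ← lR, dx_apR, dR, dx_apL _ _ hs]
    have enO : vx P (-d) O O.length = Q - d := by
      rw [eO _ (by omega), lO, show i + (j - i) = j by omega]
      exact h3
    have dO : dx (-d) O O.length = d := by
      rw [eOd _ le_rfl, lO, show i + (j - i) = j by omega, sv, h4, h3]
      abel
    have eS : ∀ s, vx (Q - d) d S s = vx oo up w (j + s) := by
      intro s
      have h6 := vx_apR oo up R (O ++ S) (O.length + s)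
      have h7 := vx_apR P (-d) O S s
      rw [enO, dO] at h7
      rw [eR, dR, h7, ← hwe, lR, lO] at h6
      rw [← h6]
      congr 1
      omega
    have hw' : R ++ (O ++ S) ∈ WT d := by rw [← hwe]; exact hw
    have hlv : ip (vx oo up w (j + 1)) d = ip P d := by rw [h4]; exact hlev.symm
    have hSne : S ≠ [] := by
      intro h
      rw [h, List.length_nil] at lS
      omega
    have q1 : ∀ s, s ≤ R.length → ip P d ≤ ip (vx oo up R s) d := by
      intro s hs
      have h6 : vx oo up R s = vx oo up w s := by rw [hwe, vx_apL _ _ _ (by omega)]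
      rw [h6]
      by_contra hcon
      have := (h5 s (by omega)).1 (not_le.1 hcon)
      omega
    have q2 : ∀ s, 1 ≤ s → s ≤ O.length → ip (vx P (-d) O s) d < ip P d := by
      intro s hs1 hs
      rw [eO s (by omega)]
      exact (h5 (i + s) (by omega)).2 (by omega)
    have q3 : ∀ s, 1 ≤ s → s ≤ S.length → ip P d ≤ ip (vx (Q - d) d S s) d := by
      intro s hs1 hs
      rw [eS]
      by_contra hcon
      have := (h5 (j + s) (by omega)).1 (not_le.1 hcon)
      omega
    obtain ⟨c1, c2⟩ := cutA_of (z := (P, Q)) hw' hlev eR dR enO dO hSne q1 q2 q3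
    exact ⟨R, O, S, hwe, c1, c2⟩

/-! ### 2. Words read from a vertex in a direction -/

/-- the word read from P in the direction e -/
lemma vx_rd {e : Pt} (he : e ∈ dirs) (P : Pt) (M : List Bool) (i : ℕ) :
    vx P e M i = P + mulE (rotTo up e) (vx oo up M i) := by
  have h := vx_mulE (rotTo up e) oo P up M i
  rw [rotTo_apply e upd] at h
  rw [h]
  congr 2
  first | done | exact sub_zero _

lemma dx_rd {e : Pt} (he : e ∈ dirs) (M : List Bool) (i : ℕ) : dx e M i = mulE (rotTo up e) (dx up M i) := by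
  have h := dx_mulE (rotTo up e) up M i
  rwa [rotTo_apply e upd] at h

lemma dx_rd_iff {e : Pt} (he : e ∈ dirs) (M : List Bool) (i : ℕ) : dx e M i = e ↔ dx up M i = up := by
  have hn := nrm_rotTo upd he
  have h0 : mulE (rotTo up e) up = e := rotTo_apply e upd
  rw [dx_rd he]
  constructor
  · intro h
    exact mulE_inj hn (h.trans h0.symm)
  · intro h
    rw [h, h0]

lemma vx_rd_inj {e : Pt} (he : e ∈ dirs) (P : Pt) (M : List Bool) {i j : ℕ} :
    vx P e M i = vx P e M j ↔ vx oo up M i = vx oo up M j := by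
  rw [vx_rd he, vx_rd he]
  constructor
  · intro h
    exact mulE_inj (nrm_rotTo upd he) (add_left_cancel h)
  · intro h
    rw [h]

/-- levels of a word read upwards -/
lemma lev_rdU {d : Pt} (hd : d ∈ dirs) (P : Pt) (M : List Bool) (i : ℕ) : ip (vx P d M i) d = ip P d + lev M i := by
  rw [vx_rd hd, ip_add_left]
  congr 1
  have h0 : mulE (rotTo up d) up = d := rotTo_apply d upd
  have h1 : ip (mulE (rotTo up d) (vx oo up M i)) (mulE (rotTo up d) up) = ip (vx oo up M i) up := by
    rw [ip_mulE, nrm_rotTo upd hd, one_mul]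
  rw [h0] at h1
  exact h1

lemma neg_mem {d : Pt} (hd : d ∈ dirs) : -d ∈ dirs := by
  revert d
  decide

/-- levels of a word read downwards -/
lemma lev_rdD {d : Pt} (hd : d ∈ dirs) (P : Pt) (M : List Bool) (i : ℕ) : ip (vx P (-d) M i) d = ip P d - lev M i := by
  have h1 := lev_rdU (neg_mem hd) P M i
  rw [ip_neg_right, ip_neg_right] at h1
  omega

/-! ### 3. The legs are bridges -/

/-- **the legs between two states are bridges** -/
theorem mid_iff {d : Pt} (hd : d ∈ dirs) {z y : Pt × Pt} {M1 M2 : List Bool} {h : ℕ}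
    (hh : ip z.1 d - ip y.1 d = 3 * h) :
    Mid d z y M1 M2 ↔ ip z.1 d = ip z.2 d ∧ ip y.1 d = ip y.2 d ∧ 0 < h ∧ M1 ∈ Brd h ∧ M2 ∈ Brd h ∧
      vx z.1 (-d) M1 M1.length = y.1 ∧ vx (y.2 - d) d M2 M2.length = z.2 - d ∧
      ∀ i j, 1 ≤ i → i ≤ M1.length → 1 ≤ j → j ≤ M2.length → vx z.1 (-d) M1 i ≠ vx (y.2 - d) d M2 j := by
  have hnd := neg_mem hd
  constructor
  · intro hM
    have hlt := hM.lt
    have hz := hM.levz
    have hy := hM.levy
    have h0 : 0 < h := by
      have : (0 : ℤ) < 3 * h := by omega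
      omega
    have a1 : ∀ i, 1 ≤ i → i ≤ M1.length → 0 < lev M1 i ∧ lev M1 i ≤ 3 * h := by
      intro i h1 h2
      have h3 := hM.lo1 i h1 h2
      have h4 := hM.hi1 i h1 h2
      rw [lev_rdD hd] at h3 h4
      omega
    have a2 : ∀ i, 1 ≤ i → i ≤ M2.length → 0 < lev M2 i ∧ lev M2 i ≤ 3 * h := by
      intro i h1 h2
      have h3 := hM.lo2 i h1 h2
      have h4 := hM.hi2 i h1 h2
      rw [lev_rdU hd, ip_sub_d hd] at h3 h4
      have h5 := lev_mod M2 i
      split_ifs at h5 <;> omega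
    refine ⟨hz, hy, h0, mem_Brd.2 ⟨a1, ?_, (dx_rd_iff hnd _ _).1 hM.hd1, ?_⟩,
      mem_Brd.2 ⟨a2, ?_, (dx_rd_iff hd _ _).1 hM.hd2, ?_⟩, hM.en1, hM.en2, hM.dis⟩
    · intro i k hik hk he
      rcases Nat.eq_zero_or_pos i with h1 | h1
      · have h2 := a1 k (by omega) hk
        have h3 : lev M1 k = 0 := by
          unfold lev
          rw [← he, h1]
          exact lev_zero M1
        omega
      · have := hM.inj1 i k h1 (by omega) (by omega) hk ((vx_rd_inj hnd _ _).2 he)
        omega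
    · have h1 := lev_rdD hd z.1 M1 M1.length
      rw [hM.en1] at h1
      omega
    · intro i k hik hk he
      rcases Nat.eq_zero_or_pos i with h1 | h1
      · have h2 := a2 k (by omega) hk
        have h3 : lev M2 k = 0 := by
          unfold lev
          rw [← he, h1]
          exact lev_zero M2
        omega
      · have := hM.inj2 i k h1 (by omega) (by omega) hk ((vx_rd_inj hd _ _).2 he)
        omega
    · have h1 := lev_rdU hd (y.2 - d) M2 M2.length
      rw [hM.en2, ip_sub_d hd, ip_sub_d hd] at h1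
      omega
  · rintro ⟨hz, hy, h0, hB1, hB2, e1, e2, hdis⟩
    obtain ⟨b1, b2, b3, b4⟩ := mem_Brd.1 hB1
    obtain ⟨c1, c2, c3, c4⟩ := mem_Brd.1 hB2
    have h0' : (0 : ℤ) < h := by exact_mod_cast h0
    refine ⟨hz, hy, by omega, e1, (dx_rd_iff hnd _ _).2 b3, e2, (dx_rd_iff hd _ _).2 c3, ?_, ?_, ?_, ?_, ?_, ?_, hdis⟩
    · intro i h1 h2
      rw [lev_rdD hd]
      have := b1 i h1 h2
      omega
    · intro i h1 h2
      rw [lev_rdD hd]
      have := b1 i h1 h2
      omega
    · intro i h1 h2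
      rw [lev_rdU hd, ip_sub_d hd]
      have h3 := c1 i h1 h2
      have h5 := lev_mod M2 i
      split_ifs at h5 <;> omega
    · intro i h1 h2
      rw [lev_rdU hd, ip_sub_d hd]
      have h3 := c1 i h1 h2
      omega
    · intro i j hi1 hi hj1 hj hij
      rw [vx_rd_inj hnd] at hij
      rcases lt_trichotomy i j with h3 | h3 | h3
      · exact absurd hij (b2 i j h3 hj)
      · exact h3
      · exact absurd hij.symm (b2 j i h3 hi)
    · intro i j hi1 hi hj1 hj hij
      rw [vx_rd_inj hd] at hij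
      rcases lt_trichotomy i j with h3 | h3 | h3
      · exact absurd hij (c2 i j h3 hj)
      · exact h3
      · exact absurd hij.symm (c2 j i h3 hi)

/-! ### 4. Composition of legs -/

/-- **composition** -/
theorem mid_comp {d : Pt} {z x y : Pt × Pt} {A1 A2 B1 B2 : List Bool} (hA : Mid d z x A1 A2) (hB : Mid d x y B1 B2) :
    Mid d z y (A1 ++ B1) (B2 ++ A2) := by
  have hAl := hA.lt
  have hBl := hB.lt
  have l1 : (A1 ++ B1).length = A1.length + B1.length := List.length_append
  have l2 : (B2 ++ A2).length = B2.length + A2.length := List.length_append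
  have k1 : ∀ i, 1 ≤ i → i ≤ A1.length + B1.length → (i ≤ A1.length ∧ vx z.1 (-d) (A1 ++ B1) i = vx z.1 (-d) A1 i) ∨
      (∃ j, 1 ≤ j ∧ j ≤ B1.length ∧ i = A1.length + j ∧ vx z.1 (-d) (A1 ++ B1) i = vx x.1 (-d) B1 j) := by
    intro i _ hi
    rcases Nat.lt_or_ge A1.length i with h | h
    · right
      refine ⟨i - A1.length, by omega, by omega, by omega, ?_⟩
      conv_lhs => rw [show i = A1.length + (i - A1.length) by omega]
      rw [vx_apR, hA.en1, hA.hd1]
    · exact Or.inl ⟨h, vx_apL _ _ _ (by omega)⟩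
  have k2 : ∀ i, 1 ≤ i → i ≤ B2.length + A2.length →
      (i ≤ B2.length ∧ vx (y.2 - d) d (B2 ++ A2) i = vx (y.2 - d) d B2 i) ∨
      (∃ j, 1 ≤ j ∧ j ≤ A2.length ∧ i = B2.length + j ∧ vx (y.2 - d) d (B2 ++ A2) i = vx (x.2 - d) d A2 j) := by
    intro i _ hi
    rcases Nat.lt_or_ge B2.length i with h | h
    · right
      refine ⟨i - B2.length, by omega, by omega, by omega, ?_⟩
      conv_lhs => rw [show i = B2.length + (i - B2.length) by omega]
      rw [vx_apR, hB.en2, hB.hd2]
    · exact Or.inl ⟨h, vx_apL _ _ _ (by omega)⟩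
  refine ⟨hA.levz, hB.levy, by omega, ?_, ?_, ?_, ?_, ?_, ?_, ?_, ?_, ?_, ?_, ?_⟩
  · rw [l1, vx_apR, hA.en1, hA.hd1]
    exact hB.en1
  · rw [l1, dx_apR, hA.hd1]
    exact hB.hd1
  · rw [l2, vx_apR, hB.en2, hB.hd2]
    exact hA.en2
  · rw [l2, dx_apR, hB.hd2]
    exact hA.hd2
  · intro i hi1 hi
    rw [l1] at hi
    rcases k1 i hi1 hi with ⟨a1, a2⟩ | ⟨a, a1, a2, a3, a4⟩
    · rw [a2]
      exact hBl.le.trans (hA.lo1 i hi1 a1)
    · rw [a4]
      exact hB.lo1 a a1 a2
  · intro i hi1 hi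
    rw [l1] at hi
    rcases k1 i hi1 hi with ⟨a1, a2⟩ | ⟨a, a1, a2, a3, a4⟩
    · rw [a2]
      exact hA.hi1 i hi1 a1
    · rw [a4]
      exact (hB.hi1 a a1 a2).trans hAl
  · intro i hi1 hi
    rw [l2] at hi
    rcases k2 i hi1 hi with ⟨a1, a2⟩ | ⟨a, a1, a2, a3, a4⟩
    · rw [a2]
      exact hB.lo2 i hi1 a1
    · rw [a4]
      exact hBl.le.trans (hA.lo2 a a1 a2)
  · intro i hi1 hi
    rw [l2] at hi
    rcases k2 i hi1 hi with ⟨a1, a2⟩ | ⟨a, a1, a2, a3, a4⟩
    · rw [a2]
      exact (hB.hi2 i hi1 a1).trans hAl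
    · rw [a4]
      exact hA.hi2 a a1 a2
  · intro i j hi1 hi hj1 hj hij
    rw [l1] at hi hj
    rcases k1 i hi1 hi with ⟨a1, a2⟩ | ⟨a, a1, a2, a3, a4⟩
    · rw [a2] at hij
      rcases k1 j hj1 hj with ⟨b1, b2⟩ | ⟨b, b1, b2, b3, b4⟩
      · rw [b2] at hij
        exact hA.inj1 i j hi1 a1 hj1 b1 hij
      · rw [b4] at hij
        have h1 := hA.lo1 i hi1 a1
        have h2 := hB.hi1 b b1 b2
        rw [hij] at h1
        omega
    · rw [a4] at hij
      rcases k1 j hj1 hj with ⟨b1, b2⟩ | ⟨b, b1, b2, b3, b4⟩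
      · rw [b2] at hij
        have h1 := hA.lo1 j hj1 b1
        have h2 := hB.hi1 a a1 a2
        rw [hij] at h2
        omega
      · rw [b4] at hij
        have := hB.inj1 a b a1 a2 b1 b2 hij
        omega
  · intro i j hi1 hi hj1 hj hij
    rw [l2] at hi hj
    rcases k2 i hi1 hi with ⟨a1, a2⟩ | ⟨a, a1, a2, a3, a4⟩
    · rw [a2] at hij
      rcases k2 j hj1 hj with ⟨b1, b2⟩ | ⟨b, b1, b2, b3, b4⟩
      · rw [b2] at hij
        exact hB.inj2 i j hi1 a1 hj1 b1 hij
      · rw [b4] at hij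
        have h1 := hB.hi2 i hi1 a1
        have h2 := hA.lo2 b b1 b2
        rw [hij] at h1
        omega
    · rw [a4] at hij
      rcases k2 j hj1 hj with ⟨b1, b2⟩ | ⟨b, b1, b2, b3, b4⟩
      · rw [b2] at hij
        have h1 := hB.hi2 j hj1 b1
        have h2 := hA.lo2 a a1 a2
        rw [hij] at h2
        omega
      · rw [b4] at hij
        have := hA.inj2 a b a1 a2 b1 b2 hij
        omega
  · intro i j hi1 hi hj1 hj hij
    rw [l1] at hi
    rw [l2] at hj
    rcases k1 i hi1 hi with ⟨a1, a2⟩ | ⟨a, a1, a2, a3, a4⟩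
    · rw [a2] at hij
      rcases k2 j hj1 hj with ⟨b1, b2⟩ | ⟨b, b1, b2, b3, b4⟩
      · rw [b2] at hij
        have h1 := hA.lo1 i hi1 a1
        have h2 := hB.hi2 j hj1 b1
        rw [hij] at h1
        omega
      · rw [b4] at hij
        exact hA.dis i b hi1 a1 b1 b2 hij
    · rw [a4] at hij
      rcases k2 j hj1 hj with ⟨b1, b2⟩ | ⟨b, b1, b2, b3, b4⟩
      · rw [b2] at hij
        exact hB.dis a j a1 a2 hj1 b1 hij
      · rw [b4] at hij
        have h1 := hA.lo2 b b1 b2
        have h2 := hB.hi1 a a1 a2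
        rw [hij] at h2
        omega

/-- **a common cut of the two legs is a state between them** -/
theorem mid_split {d : Pt} (hd : d ∈ dirs) {z y : Pt × Pt} {A1 A2 B1 B2 : List Bool} {s t : ℕ} (hs : 0 < s) (ht : 0 < t)
    (hM : Mid d z y (A1 ++ B1) (B2 ++ A2)) (hA1 : A1 ∈ Brd s) (hA2 : A2 ∈ Brd s) (hB1 : B1 ∈ Brd t) (hB2 : B2 ∈ Brd t) :
    ∃ x : Pt × Pt, x = (vx z.1 (-d) A1 A1.length, vx (y.2 - d) d B2 B2.length + d) ∧ Mid d z x A1 A2 ∧ Mid d x y B1 B2 := by
  have hnd := neg_mem hd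
  obtain ⟨a1, a2, a3, a4⟩ := mem_Brd.1 hA1
  obtain ⟨b1, b2, b3, b4⟩ := mem_Brd.1 hA2
  obtain ⟨c1, c2, c3, c4⟩ := mem_Brd.1 hB1
  obtain ⟨f1, f2, f3, f4⟩ := mem_Brd.1 hB2
  have a3' := (dx_rd_iff hnd A1 A1.length).2 a3
  have f3' := (dx_rd_iff hd B2 B2.length).2 f3
  obtain ⟨x1, hx1⟩ : ∃ p : Pt, p = vx z.1 (-d) A1 A1.length := ⟨_, rfl⟩
  obtain ⟨x2, hx2⟩ : ∃ p : Pt, p = vx (y.2 - d) d B2 B2.length + d := ⟨_, rfl⟩
  have hx2' : x2 - d = vx (y.2 - d) d B2 B2.length := by rw [hx2, add_sub_cancel_right]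
  have g1 : ∀ i, vx z.1 (-d) (A1 ++ B1) (A1.length + i) = vx x1 (-d) B1 i := fun i => by
    rw [vx_apR, a3', ← hx1]
  have g2 : ∀ i, vx (y.2 - d) d (B2 ++ A2) (B2.length + i) = vx (x2 - d) d A2 i := fun i => by
    rw [vx_apR, f3', hx2']
  have g3 : ∀ i, i ≤ A1.length → vx z.1 (-d) (A1 ++ B1) i = vx z.1 (-d) A1 i := fun i hi => vx_apL _ _ _ (by omega)
  have g4 : ∀ i, i ≤ B2.length → vx (y.2 - d) d (B2 ++ A2) i = vx (y.2 - d) d B2 i := fun i hi => vx_apL _ _ _ (by omega)
  have l1 : (A1 ++ B1).length = A1.length + B1.length := List.length_append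
  have l2 : (B2 ++ A2).length = B2.length + A2.length := List.length_append
  have eB1 : vx x1 (-d) B1 B1.length = y.1 := by
    rw [← g1, ← l1]
    exact hM.en1
  have eA2 : vx (x2 - d) d A2 A2.length = z.2 - d := by
    rw [← g2, ← l2]
    exact hM.en2
  have lz := hM.levz
  have ly := hM.levy
  have v1 : ip x1 d = ip z.1 d - 3 * s := by
    rw [hx1, lev_rdD hd, a4]
  have v2 : ip x2 d = ip y.2 d + 3 * t := by
    have h1 := lev_rdU hd (y.2 - d) B2 B2.length
    rw [← hx2', ip_sub_d hd, ip_sub_d hd, f4] at h1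
    omega
  have v3 : ip y.1 d = ip x1 d - 3 * t := by
    rw [← eB1, lev_rdD hd, c4]
  have dis : ∀ i j, 1 ≤ i → i ≤ A1.length + B1.length → 1 ≤ j → j ≤ B2.length + A2.length →
      vx z.1 (-d) (A1 ++ B1) i ≠ vx (y.2 - d) d (B2 ++ A2) j := by
    intro i j h1 h2 h3 h4
    exact hM.dis i j h1 (by omega) h3 (by omega)
  refine ⟨(x1, x2), by rw [hx1, hx2], ?_, ?_⟩
  · rw [mid_iff hd (h := s) (by show ip z.1 d - ip x1 d = _; omega)]
    refine ⟨lz, by show ip x1 d = ip x2 d; omega, hs, hA1, hA2, hx1.symm, eA2, ?_⟩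
    intro i j h1 h2 h3 h4
    rw [← g3 i h2]
    show _ ≠ vx (x2 - d) d A2 j
    rw [← g2 j]
    exact dis _ _ h1 (by omega) (by omega) (by omega)
  · rw [mid_iff hd (h := t) (by show ip x1 d - ip y.1 d = _; omega)]
    refine ⟨by show ip x1 d = ip x2 d; omega, ly, ht, hB1, hB2, eB1, ?_, ?_⟩
    · show _ = x2 - d
      exact hx2'.symm
    · intro i j h1 h2 h3 h4
      show vx x1 (-d) B1 i ≠ _
      rw [← g1 i, ← g4 j h4]
      exact dis _ _ (by omega) (by omega) h3 (by omega)

/-- **the state between is a double cut row** -/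
theorem cutA_between {d : Pt} (hd : d ∈ dirs) {z x y : Pt × Pt} {R S A1 A2 B1 B2 O : List Bool} (hC : Cap d z R S)
    (hA : Mid d z x A1 A2) (hB : Mid d x y B1 B2) (hO : Out d y O) :
    CutA d (R ++ ((A1 ++ B1) ++ (O ++ ((B2 ++ A2) ++ S)))) x := by
  refine ⟨R ++ A1, B1 ++ (O ++ B2), A2 ++ S, ?_, cap_mid hd hC hA, mid_out hB hO⟩
  simp only [List.append_assoc]

/-- the state z itself -/
theorem cutA_self {d : Pt} {z y : Pt × Pt} {R S M1 M2 O : List Bool} (hC : Cap d z R S) (hM : Mid d z y M1 M2)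
    (hO : Out d y O) : CutA d (R ++ (M1 ++ (O ++ (M2 ++ S)))) z := by
  refine ⟨R, M1 ++ (O ++ M2), S, ?_, hC, mid_out hM hO⟩
  simp only [List.append_assoc]

end ART

end HexObs
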