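import Pool.Agent.ROT.LBot

/-!
# ART, block C: the windows of double cut rows and the literals of (H3) (helper49; C4_53, LR3_49)

* `WdS d l r` : the window of states of scale l (one parameter r for all shape constants);
* `nC d w V` : the number of the states of V which are double cut rows of w;
* `Rich d κ l r w` : at least `κ 2 ^ (l / 2)` of them;
* **`H3B`** : block form (no level of a block rich; what the outermost level trick gives);
* **`H3T`** : the form of R-final (one window); `h3t_of : H3B → H3T`.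
-/

set_option autoImplicit false

open MeasureTheory

open scoped ENNReal

namespace HexObs

namespace ART

open Finset Pool.Agent.ROT

/-- the states of the window of scale l -/
def WdSs (d : Pt) (l r : ℕ) : Set (Pt × Pt) := {z | ip z.1 d = ip z.2 d ∧ (2 : ℤ) ^ l ≤ -ip z.1 d ∧
  -ip z.1 d ≤ r * 2 ^ l ∧ TIW.hn z.1 ≤ r * 2 ^ l ∧ TIW.hn z.2 ≤ r * 2 ^ l ∧ (2 : ℤ) ^ l ≤ r * TIW.hn (z.1 - z.2)}

lemma wdSs_fin (d : Pt) (l r : ℕ) : (WdSs d l r).Finite :=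
  (fin_states (r * 2 ^ l)).subset fun z hz => by
    obtain ⟨-, -, -, h1, h2, -⟩ := hz
    refine ⟨?_, ?_⟩ <;> push_cast <;> assumption

/-- **the window of scale l** -/
noncomputable def WdS (d : Pt) (l r : ℕ) : Finset (Pt × Pt) := (wdSs_fin d l r).toFinset

lemma mem_WdS {d : Pt} {l r : ℕ} {z : Pt × Pt} : z ∈ WdS d l r ↔ ip z.1 d = ip z.2 d ∧ (2 : ℤ) ^ l ≤ -ip z.1 d ∧
    -ip z.1 d ≤ r * 2 ^ l ∧ TIW.hn z.1 ≤ r * 2 ^ l ∧ TIW.hn z.2 ≤ r * 2 ^ l ∧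
    (2 : ℤ) ^ l ≤ r * TIW.hn (z.1 - z.2) := by
  unfold WdS
  rw [Set.Finite.mem_toFinset]
  exact Iff.rfl

open Classical in
/-- the number of the states in V which are double cut rows of w -/
noncomputable def nC (d : Pt) (w : List Bool) (V : Finset (Pt × Pt)) : ℕ := (V.filter fun z => CutA d w z).card

/-- **rich level** -/
def Rich (d : Pt) (κ : ℝ) (l r : ℕ) (w : List Bool) : Prop := κ * (2 : ℝ) ^ ((l : ℝ) / 2) ≤ (nC d w (WdS d l r) : ℝ)

/-- **(H3), block form**: no level of the block is rich -/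
def H3B : Prop := ∀ d ∈ dirs, ∀ ε : ℝ, 0 < ε → ∃ (r J b0 : ℕ) (κ : ℝ), 0 < κ ∧ ∀ l h : ℕ, b0 ≤ l → 2 ^ (l + J + b0) ≤ h →
  gf {w | w ∈ WTw d h (2 * h) ∧ ∀ i, i ≤ J → ¬ Rich d κ (l + i) r w} ≤ ENNReal.ofReal (ε / (h : ℝ) ^ 2)

/-- **(H3), one window** (the literal of R-final) -/
def H3T : Prop := ∀ d ∈ dirs, ∀ ε : ℝ, 0 < ε → ∃ (r : ℕ) (κ : ℝ) (l0 : ℕ), 0 < κ ∧ ∀ l : ℕ, l0 ≤ l → ∃ h0 : ℕ, ∀ h : ℕ,
  h0 ≤ h → gf {w | w ∈ WTw d h (2 * h) ∧ ¬ Rich d κ l r w} ≤ ENNReal.ofReal (ε / (h : ℝ) ^ 2)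

lemma hn_nn (p : Pt) : 0 ≤ TIW.hn p := (abs_nonneg (ip p up)).trans (le_max_left _ _)

/-- the window of a level of the block is contained in the large window -/
lemma wdS_block {d : Pt} {l i J r : ℕ} (hi : i ≤ J) : WdS d (l + i) r ⊆ WdS d l (r * 2 ^ J) := by
  intro z hz
  rw [mem_WdS] at hz ⊢
  obtain ⟨h0, h1, h2, h3, h4, h5⟩ := hz
  have e : (2 : ℤ) ^ (l + i) = 2 ^ i * 2 ^ l := by ring
  have e1 : (1 : ℤ) ≤ 2 ^ i := one_le_pow₀ (by norm_num)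
  have e2 : (2 : ℤ) ^ i ≤ 2 ^ J := pow_le_pow_right₀ (by norm_num) hi
  have e3 : (0 : ℤ) < 2 ^ l := by positivity
  have e4 : (0 : ℤ) ≤ r := Int.natCast_nonneg r
  have key : (r : ℤ) * 2 ^ (l + i) ≤ ((r * 2 ^ J : ℕ) : ℤ) * 2 ^ l := by
    push_cast
    rw [e]
    have : (2 : ℤ) ^ i * 2 ^ l ≤ 2 ^ J * 2 ^ l := mul_le_mul_of_nonneg_right e2 e3.le
    calc (r : ℤ) * (2 ^ i * 2 ^ l) ≤ r * (2 ^ J * 2 ^ l) := mul_le_mul_of_nonneg_left this e4
      _ = _ := by ring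
  have low : (2 : ℤ) ^ l ≤ 2 ^ (l + i) := pow_le_pow_right₀ (by norm_num) (by omega)
  refine ⟨h0, low.trans h1, h2.trans key, h3.trans key, h4.trans key, low.trans (h5.trans ?_)⟩
  push_cast
  have hn0 := hn_nn (z.1 - z.2)
  have : (r : ℤ) * 1 ≤ r * 2 ^ J := mul_le_mul_of_nonneg_left (one_le_pow₀ (by norm_num)) e4
  nlinarith

lemma nC_mono {d : Pt} {w : List Bool} {V V' : Finset (Pt × Pt)} (h : V ⊆ V') : nC d w V ≤ nC d w V' := by
  classical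
  unfold nC
  exact Finset.card_le_card (Finset.filter_subset_filter _ h)

/-- a rich level of the block makes the large window rich -/
lemma rich_block {d : Pt} {κ : ℝ} (hκ : 0 < κ) {l i J r : ℕ} {w : List Bool} (hi : i ≤ J)
    (h : Rich d κ (l + i) r w) : Rich d κ l (r * 2 ^ J) w := by
  unfold Rich at h ⊢
  have h1 : ((nC d w (WdS d (l + i) r) : ℕ) : ℝ) ≤ (nC d w (WdS d l (r * 2 ^ J)) : ℕ) := by
    exact_mod_cast nC_mono (wdS_block hi)
  have h2 : (2 : ℝ) ^ ((l : ℝ) / 2) ≤ (2 : ℝ) ^ (((l + i : ℕ) : ℝ) / 2) := by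
    apply Real.rpow_le_rpow_of_exponent_le (by norm_num)
    push_cast
    have : (0 : ℝ) ≤ i := Nat.cast_nonneg i
    linarith
  exact (mul_le_mul_of_nonneg_left h2 hκ.le).trans (h.trans h1)

/-- **from the block form to one window** -/
theorem h3t_of (h : H3B) : H3T := by
  intro d hd ε hε
  obtain ⟨r, J, b0, κ, hκ, hb⟩ := h d hd ε hε
  refine ⟨r * 2 ^ J, κ, b0, hκ, fun l hl => ⟨2 ^ (l + J + b0), fun h hh => ?_⟩⟩
  refine (gf_mono ?_).trans (hb l h hl hh)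
  rintro w ⟨hw, hr⟩
  exact ⟨hw, fun i hi hc => hr (rich_block hκ hi hc)⟩

end ART

end HexObs
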