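import Pool.Agent.ART.LoopDefs

/-!
# ART, row E4 (helper63, helper73): `EsTL2`, literals between the deterministic part and the double counts

`L` of `FTp n l`, with a good start and a good end of the scale b (`TwoG`), of `ESw l i`; `r = l + (i - l) / K + c`. The last
crossing from distance `2 ^ (r - 1)` to `2 ^ (r - 2)` of the end before the visit:

* (A) a rich factor in it: both parts of the cut are loops with a good start and a good end (`RhoL2`);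
* (B) the last rich factor is older, disjoint from the start structure: `RhoG2`;
* (C) there is none: `L` itself has a long factor in `Nz`.
-/

set_option autoImplicit false

namespace HexObs

namespace ART

open Finset TS SDN HexObs.SIM NTA TIP ARM

open scoped ENNReal

/-- case A: both parts are loops with two good ends which reach the level i -/
def RhoL2 (η : ℝ) (E b r i : ℕ) (A Y : List Bool) : Prop :=
  A ∈ SA ∧ Y ∈ SA ∧ A ∈ TwoG η E b ∧ Y ∈ TwoG η E b ∧ TIW.hn (TIW.en Y) ≤ 2 ^ r ∧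
    (∃ s, s ≤ A.length ∧ 2 ^ i < 8 * dz A s) ∧ ∃ s, s ≤ Y.length ∧ 2 ^ i < 8 * dz Y s

/-- case B: the part behind the cut has a factor of extent n 2 ^ b without rich window, 2 ^ J ≤ n ^ k -/
def RhoG2 (κ η : ℝ) (C E b J k : ℕ) (A Y : List Bool) : Prop :=
  A ∈ TwoG η E b ∧ Y ∈ SA ∧ Y ∈ TwoG η E b ∧ ∃ N : ℕ, 2 ^ J ≤ N ^ k ∧ Y ∈ Lz κ C b N

/-- **row E4, deterministic part** (helper63): the three cases -/
def EsW2 (κ : ℝ) (C : ℕ) : Prop := ∀ E k : ℕ, 2 ≤ k → ∃ m0 : ℕ, ∀ (η : ℝ) (n b l r i h : ℕ) (L : List Bool),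
  1 ≤ b → b ≤ l → l + m0 ≤ r → r + 4 ≤ i → i + 9 ≤ b + k * (r - b - 6) → 1 ≤ h → η * Ub b ≤ (h : ℝ) →
  4 * (h : ℝ) ≤ κ * Ub b → L ∈ FTp n l → L ∈ TwoG η E b → L ∈ ESw l i →
    (∃ S : Finset ℕ, h ≤ S.card ∧ ∀ q ∈ S, q ≤ L.length ∧ RhoL2 η (E + 2 * C) b r i (L.take q) (L.drop q)) ∨
    (∃ J : ℕ, h ≤ nD (2 ^ (i + J + 1)) (RhoG2 κ η C (E + 2 * C) b (i - b + J + 1) k) L) ∨
    (∃ J : ℕ, In (2 ^ (i + J)) L ∧ ∃ N : ℕ, 2 ^ (i - b + J) ≤ N ^ k ∧ L ∈ Lz κ C b N)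

/-- **case A, mass** (helper73): TipT2s for the long part, LoopM for the short one -/
def EsP2A : Prop := ∀ (η : ℝ) (E : ℕ), 0 < η → ∃ (C B : ℝ) (b0 : ℕ), 0 < C ∧ 1 ≤ B ∧ ∀ (D : ℝ) (n b l r i : ℕ) (q : ℝ),
  0 ≤ D → HT D n l → b0 ≤ b → b ≤ l → l ≤ r → r + 5 ≤ i → 0 < q →
  gf {L | L ∈ FTp n l ∧ ∃ S : Finset ℕ, q ≤ (S.card : ℝ) ∧ ∀ s ∈ S, s ≤ L.length ∧ RhoL2 η E b r i (L.take s) (L.drop s)} *
      (ENNReal.ofReal q * Xb b ^ 2) ≤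
    ENNReal.ofReal (C * B ^ (r - b) * D * (2 : ℝ) ^ (-(1 / 8 : ℝ) * ((i : ℝ) - r)) * prT n l * Ub b)

/-- **case B, mass** (helper73): the double count with `YBadG2` -/
def EsP2B (κ : ℝ) (C : ℕ) : Prop := ∀ (η : ℝ) (E a k : ℕ), 0 < η → ∃ (C' : ℝ) (J0 b0 : ℕ), 0 < C' ∧
  ∀ (D : ℝ) (n b l i J : ℕ) (q : ℝ), 0 ≤ D → HT D n l → b0 ≤ b → b ≤ l → l ≤ i → J0 ≤ i - b + J + 1 → 0 < q →
  gf {L | L ∈ FTp n l ∧ q ≤ (nD (2 ^ (i + J + 1)) (RhoG2 κ η C E b (i - b + J + 1) k) L : ℝ)} *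
      (ENNReal.ofReal q * Xb b ^ 2) ≤
    ENNReal.ofReal (C' * D * (1 / 2) ^ (a * (i - b + J)) * prT n l * Ub b)

end ART

end HexObs
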