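import Pool.Agent.ART.Defs
import Pool.Agent.ARM.DefsC
import Pool.Agent.ARM.NWin

/-!
# ART, rows E1, E2, E3 (helper37): extra strands by the cut just BEFORE the visit. Literals

`L` of `FTp n l` with `ESe l i`: far (2 ^ (i - 1)), visit (2 ^ (l + 1)), far, end. Cut at the last rich factor of the scale b (about l)
in front of the visit. It is within `2 ^ r` of the end, r = l + (i - l) / K + c, or there is a long factor in `Nz` of the scale b and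
extent 2 ^ r.

* first case: `A` (class of the level r, good tip) and the LOOP `Y` (both ends within 2 ^ r, extent more than 2 ^ (i - 2), good start)
  both reach the distance 2 ^ (i - 2). The shorter one is bounded by its total mass (`LoopM`, bulk), the longer one by `TipT`
  (length at least n / 2);
* second case: as in `esSt_of` (case B, C) with `YBadG`, `NoRichT`.
-/

set_option autoImplicit false

namespace HexObs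

namespace ART

open Finset TS SDN SIM NTA TIP ARM

open scoped ENNReal

/-- loops: both ends within 2 ^ r, a vertex at distance more than 2 ^ i from the end -/
def Lp (r i : ℕ) : Set (List Bool) := {W | W ∈ SA ∧ TIW.hn (TIW.en W) ≤ 2 ^ r ∧ ∃ s, s ≤ W.length ∧ 2 ^ i < dz W s}

/-- **row E1** (bulk, no top): loops with a good end, with a good start, with both (scale b ≤ r; from `ARM.t1`, `tipF`, `tipF2s`,
`fs_tip`; any negative exponent is enough) -/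
def LoopM : Prop := ∀ (η : ℝ) (E : ℕ), 0 < η → ∃ (B : ℝ) (b0 : ℕ), 1 ≤ B ∧ ∀ b r i : ℕ, b0 ≤ b → b ≤ r → r ≤ i →
  gf {W | W ∈ Lp r i ∧ W ∈ GT b η} ≤
    ENNReal.ofReal (B ^ (r - b + 1) * (2 : ℝ) ^ (-(1 / 8 : ℝ) * ((i : ℝ) - r)) * Ub b) * Xb b ∧
  gf {W | W ∈ Lp r i ∧ rev W ∈ GT b η} ≤
    ENNReal.ofReal (B ^ (r - b + 1) * (2 : ℝ) ^ (-(1 / 8 : ℝ) * ((i : ℝ) - r)) * Ub b) * Xb b ∧
  gf {W | W ∈ Lp r i ∧ W ∈ TwoG η E b} ≤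
    ENNReal.ofReal (B ^ (r - b + 1) * (2 : ℝ) ^ (-(1 / 8 : ℝ) * ((i : ℝ) - r)) * Ub b)

/-- **row E2** (bulk): `YBadWSt` with a shorter factor: `2 ^ J ≤ n ^ k` instead of `2 ^ J ≤ n * 2 ^ c1` -/
def YBadG (κ : ℝ) (C : ℕ) : Prop := ∀ (η : ℝ) (a k : ℕ), 0 < η → ∃ J0 b0 : ℕ, ∀ b J y : ℕ, b0 ≤ b → J0 ≤ J →
  gf {Y | Y ∈ SA ∧ rev Y ∈ GT b η ∧ In (2 ^ (b + J)) Y ∧ y ≤ Y.length ∧ ∃ n : ℕ, 2 ^ J ≤ n ^ k ∧ Y ∈ Lz κ C b n} ≤
    ENNReal.ofReal (Ub b / (2 : ℝ) ^ (a * J) * (1 + (y : ℝ) / ml (b + J)) ^ (-(4 : ℝ))) * Xb b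

/-- **row E2'** (bulk): the same with a good end structure of the scale b -/
def YBadG2 (κ : ℝ) (C : ℕ) : Prop := ∀ (η : ℝ) (E a k : ℕ), 0 < η → ∃ J0 b0 : ℕ, ∀ b J y : ℕ, b0 ≤ b → J0 ≤ J →
  gf {Y | Y ∈ SA ∧ Y ∈ TwoG η E b ∧ In (2 ^ (b + J)) Y ∧ y ≤ Y.length ∧ ∃ n : ℕ, 2 ^ J ≤ n ^ k ∧ Y ∈ Lz κ C b n} ≤
    ENNReal.ofReal (Ub b / (2 : ℝ) ^ (a * J) * (1 + (y : ℝ) / ml (b + J)) ^ (-(4 : ℝ)))

/-- extra strands, wide form (contains `ESe l i`; stable under small changes of the end) -/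
def ESw (l i : ℕ) : Set (List Bool) :=
  {L | ∃ t a b, t < a ∧ a < b ∧ b ≤ L.length ∧ 2 ^ i < 4 * dz L t ∧ dz L a ≤ 2 ^ (l + 1) ∧ 2 ^ i < 4 * dz L b ∧
    ∀ s, a ≤ s → s ≤ L.length → dz L s ≤ 2 ^ (i + 3)}

/-- **row E3** (replaces `EsT`; the constant may depend on l - j: use FTp n j ⊆ FTp n l) -/
def EsTL : Prop := ∃ (C : ℝ) (b0 : ℕ), 0 < C ∧ ∀ (D : ℝ) (n l i : ℕ), 0 ≤ D → HT D n l → b0 ≤ l → l ≤ i →
  gf {L | L ∈ FTp n l ∧ L ∈ ESe l i} ≤ ENNReal.ofReal (C * D * (2 : ℝ) ^ (-(1 / 100 : ℝ) * ((i : ℝ) - l)) * prT n l)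

/-- **row E3**, wide form -/
def EsTLw : Prop := ∃ (C : ℝ) (b0 : ℕ), 0 < C ∧ ∀ (D : ℝ) (n l i : ℕ), 0 ≤ D → HT D n l → b0 ≤ l → l ≤ i →
  gf {L | L ∈ FTp n l ∧ L ∈ ESw l i} ≤ ENNReal.ofReal (C * D * (2 : ℝ) ^ (-(1 / 100 : ℝ) * ((i : ℝ) - l)) * prT n l)

/-- **row E4** (for T2ST: the middle part between two good cuts of the scale b ≤ l near the root) -/
def EsTL2 : Prop := ∀ (η : ℝ) (E : ℕ), 0 < η → ∃ (C B : ℝ) (b0 : ℕ), 0 < C ∧ 1 ≤ B ∧ ∀ (D : ℝ) (n b l i : ℕ), 0 ≤ D →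
  HT D n l → b0 ≤ b → b ≤ l → l ≤ i →
  gf {L | L ∈ FTp n l ∧ L ∈ TwoG η E b ∧ L ∈ ESw l i} * Xb b ^ 2 ≤
    ENNReal.ofReal (C * B ^ (l - b) * D * (2 : ℝ) ^ (-(1 / 100 : ℝ) * ((i : ℝ) - l)) * prT n l)

lemma ESe_sub_ESw (l i : ℕ) : ESe l i ⊆ ESw l i := by
  rintro L ⟨t, a, b, h1, h2, h3, h4, h5, h6, h7⟩
  have hi : (0 : ℤ) < 2 ^ i := by positivity
  have e : (2 : ℤ) ^ (i + 3) = 2 * 2 ^ (i + 2) := by ring
  have hi2 : (0 : ℤ) < 2 ^ (i + 2) := by positivity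
  exact ⟨t, a, b, h1, h2, h3, by linarith, h5, by linarith, fun s hs1 hs2 => by have := h7 s hs1 hs2; linarith⟩

lemma esTL_of_w (h : EsTLw) : EsTL := by
  obtain ⟨C, b0, hC, h⟩ := h
  refine ⟨C, b0, hC, fun D n l i hD hH hl hli => ?_⟩
  have hs : {L | L ∈ FTp n l ∧ L ∈ ESe l i} ⊆ {L | L ∈ FTp n l ∧ L ∈ ESw l i} := fun L hL => ⟨hL.1, ESe_sub_ESw l i hL.2⟩
  exact (gf_mono hs).trans (h D n l i hD hH hl hli)

end ART

end HexObs
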