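import Pool.Agent.ART.Defs
import Pool.Agent.ARM.Num

/-!
ART: the numbers prT (helper53; clones of the lemmas of ARM.Num, ARM.ExF, ARM.NumB).
-/

set_option autoImplicit false

namespace HexObs

namespace ART

open Finset TS SDN SIM NTA TIP ARM

open scoped ENNReal

private lemma ml_mono' {i k : ℕ} (h : i ≤ k) : ml i ≤ ml k := ml_le h

lemma prT_eq (n i : ℕ) : prT n i = pw i * (ml i / max (n : ℝ) (ml i)) ^ (5 / 2 : ℝ) := rfl

lemma prT_pos (n i : ℕ) : 0 < prT n i := by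
  rw [prT_eq]
  exact mul_pos (pw_pos i) (Real.rpow_pos_of_pos (div_pos (ml_pos i) (max_pos n i)) _)

lemma prT_anti {n n' : ℕ} (h : n ≤ n') (i : ℕ) : prT n' i ≤ prT n i := by
  rw [prT_eq, prT_eq]
  have h1 : (n : ℝ) ≤ n' := by exact_mod_cast h
  have h2 : max (n : ℝ) (ml i) ≤ max (n' : ℝ) (ml i) := max_le_max h1 le_rfl
  refine mul_le_mul_of_nonneg_left ?_ (pw_pos i).le
  apply Real.rpow_le_rpow (div_pos (ml_pos i) (max_pos n' i)).le _ (by norm_num)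
  exact div_le_div_of_nonneg_left (ml_pos i).le (max_pos n i) h2

/-- one factor (123 / 24) per level -/
lemma prT_up (n j s : ℕ) : prT n (j + s) ≤ (2 : ℝ) ^ ((123 / 24 : ℝ) * (s : ℝ)) * prT n j := by
  rw [prT_eq, prT_eq]
  have h0 : ml (j + s) / max (n : ℝ) (ml (j + s)) ≤ (2 : ℝ) ^ ((4 / 3 : ℝ) * (s : ℝ)) * (ml j / max (n : ℝ) (ml j)) := by
    rw [ml_add, ← mul_div_assoc]
    apply div_le_div_of_nonneg_left (by have := ml_pos j; positivity) (max_pos n j)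
    apply max_le_max le_rfl
    have h1 : (1 : ℝ) ≤ (2 : ℝ) ^ ((4 / 3 : ℝ) * (s : ℝ)) := Real.one_le_rpow (by norm_num) (by positivity)
    have := ml_pos j
    nlinarith
  have h1 : (ml (j + s) / max (n : ℝ) (ml (j + s))) ^ (5 / 2 : ℝ) ≤
      ((2 : ℝ) ^ ((4 / 3 : ℝ) * (s : ℝ)) * (ml j / max (n : ℝ) (ml j))) ^ (5 / 2 : ℝ) :=
    Real.rpow_le_rpow (div_pos (ml_pos _) (max_pos n _)).le h0 (by norm_num)
  have h2 : ((2 : ℝ) ^ ((4 / 3 : ℝ) * (s : ℝ)) * (ml j / max (n : ℝ) (ml j))) ^ (5 / 2 : ℝ) =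
      (2 : ℝ) ^ ((10 / 3 : ℝ) * (s : ℝ)) * (ml j / max (n : ℝ) (ml j)) ^ (5 / 2 : ℝ) := by
    rw [Real.mul_rpow (by positivity) (div_pos (ml_pos j) (max_pos n j)).le, ← Real.rpow_mul (by norm_num)]
    congr 2
    ring
  have h3 : (2 : ℝ) ^ ((123 / 24 : ℝ) * (s : ℝ)) = (2 : ℝ) ^ ((43 / 24 : ℝ) * (s : ℝ)) * (2 : ℝ) ^ ((10 / 3 : ℝ) * (s : ℝ)) := by
    rw [← Real.rpow_add (by norm_num)]
    congr 1
    ring
  rw [h2] at h1
  rw [pw_add, h3]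
  have hp := pw_pos j
  have hq : 0 < (2 : ℝ) ^ ((43 / 24 : ℝ) * (s : ℝ)) := by positivity
  calc (2 : ℝ) ^ ((43 / 24 : ℝ) * (s : ℝ)) * pw j * (ml (j + s) / max (n : ℝ) (ml (j + s))) ^ (5 / 2 : ℝ)
      ≤ (2 : ℝ) ^ ((43 / 24 : ℝ) * (s : ℝ)) * pw j * ((2 : ℝ) ^ ((10 / 3 : ℝ) * (s : ℝ)) *
        (ml j / max (n : ℝ) (ml j)) ^ (5 / 2 : ℝ)) := by gcongr
    _ = _ := by ring

/-- prT increases with the level -/
lemma prT_mono (n j s : ℕ) : prT n j ≤ prT n (j + s) := by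
  rw [prT_eq, prT_eq]
  have h1 : (1 : ℝ) ≤ (2 : ℝ) ^ ((43 / 24 : ℝ) * (s : ℝ)) := Real.one_le_rpow (by norm_num) (by positivity)
  have h2 : pw j ≤ pw (j + s) := by
    rw [pw_add]
    have := pw_pos j
    nlinarith
  have h3 : ml j / max (n : ℝ) (ml j) ≤ ml (j + s) / max (n : ℝ) (ml (j + s)) := by
    have hm : ml j ≤ ml (j + s) := ml_le (Nat.le_add_right j s)
    have hj := ml_pos j
    have hjs := ml_pos (j + s)
    rw [div_le_div_iff₀ (max_pos n j) (max_pos n (j + s))]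
    rcases le_total (n : ℝ) (ml j) with h | h
    · rw [max_eq_right h, max_eq_right (h.trans hm)]
      linarith
    · rw [max_eq_left h]
      rcases le_total (n : ℝ) (ml (j + s)) with h' | h'
      · rw [max_eq_right h']
        nlinarith
      · rw [max_eq_left h']
        have : (0 : ℝ) ≤ n := Nat.cast_nonneg n
        nlinarith
  have h4 : 0 ≤ ml j / max (n : ℝ) (ml j) := (div_pos (ml_pos j) (max_pos n j)).le
  exact mul_le_mul h2 (Real.rpow_le_rpow h4 h3 (by norm_num)) (Real.rpow_nonneg h4 _) (pw_pos _).le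

/-- a missing length -/
lemma prT_sub (n y i : ℕ) : prT (n - y) i ≤ (1 + (y : ℝ) / ml i) ^ (5 / 2 : ℝ) * prT n i := by
  rw [prT_eq, prT_eq]
  have hm := ml_pos i
  have hy : (0 : ℝ) ≤ y := Nat.cast_nonneg y
  have h1 : (1 : ℝ) ≤ 1 + (y : ℝ) / ml i := by
    have : 0 ≤ (y : ℝ) / ml i := by positivity
    linarith
  have h0 : max (n : ℝ) (ml i) ≤ (1 + (y : ℝ) / ml i) * max ((n - y : ℕ) : ℝ) (ml i) := by
    have e : (n : ℝ) ≤ ((n - y : ℕ) : ℝ) + y := by exact_mod_cast (by omega : n ≤ n - y + y)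
    have e1 : ml i ≤ max ((n - y : ℕ) : ℝ) (ml i) := le_max_right _ _
    have e2 : ((n - y : ℕ) : ℝ) ≤ max ((n - y : ℕ) : ℝ) (ml i) := le_max_left _ _
    have e3 : (y : ℝ) ≤ (y : ℝ) / ml i * max ((n - y : ℕ) : ℝ) (ml i) := by
      calc (y : ℝ) = (y : ℝ) / ml i * ml i := by field_simp
        _ ≤ _ := by gcongr
    apply max_le
    · nlinarith
    · nlinarith
  have h2 : ml i / max ((n - y : ℕ) : ℝ) (ml i) ≤ (1 + (y : ℝ) / ml i) * (ml i / max (n : ℝ) (ml i)) := by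
    rw [← mul_div_assoc, div_le_div_iff₀ (max_pos _ i) (max_pos n i)]
    nlinarith
  have h3 : (ml i / max ((n - y : ℕ) : ℝ) (ml i)) ^ (5 / 2 : ℝ) ≤
      (1 + (y : ℝ) / ml i) ^ (5 / 2 : ℝ) * (ml i / max (n : ℝ) (ml i)) ^ (5 / 2 : ℝ) := by
    rw [← Real.mul_rpow (by linarith) (div_pos hm (max_pos n i)).le]
    exact Real.rpow_le_rpow (div_pos hm (max_pos _ i)).le h2 (by norm_num)
  have hp := pw_pos i
  calc pw i * (ml i / max ((n - y : ℕ) : ℝ) (ml i)) ^ (5 / 2 : ℝ) ≤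
      pw i * ((1 + (y : ℝ) / ml i) ^ (5 / 2 : ℝ) * (ml i / max (n : ℝ) (ml i)) ^ (5 / 2 : ℝ)) := by gcongr
    _ = _ := by ring

/-- one letter less -/
lemma prT_pred (n i : ℕ) : prT (n - 1) i ≤ 8 * prT n i := by
  refine (prT_sub n 1 i).trans ?_
  have h1 := one_le_ml i
  have h2 : 1 + ((1 : ℕ) : ℝ) / ml i ≤ 2 := by
    have : (1 : ℝ) / ml i ≤ 1 := by
      rw [div_le_one (ml_pos i)]
      exact h1
    push_cast
    linarith
  have h3 : (1 + ((1 : ℕ) : ℝ) / ml i) ^ (5 / 2 : ℝ) ≤ 8 := by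
    have h4 : (1 + ((1 : ℕ) : ℝ) / ml i) ^ (5 / 2 : ℝ) ≤ (2 : ℝ) ^ (5 / 2 : ℝ) :=
      Real.rpow_le_rpow (by have := ml_pos i; positivity) h2 (by norm_num)
    have h5 : (2 : ℝ) ^ (5 / 2 : ℝ) ≤ (2 : ℝ) ^ (3 : ℝ) := Real.rpow_le_rpow_of_exponent_le (by norm_num) (by norm_num)
    have h6 : (2 : ℝ) ^ (3 : ℝ) = 8 := by
      rw [show (3 : ℝ) = ((3 : ℕ) : ℝ) by norm_num, Real.rpow_natCast]
      norm_num
    linarith
  exact mul_le_mul_of_nonneg_right h3 (prT_pos n i).le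

lemma prT_nonneg (n i : ℕ) : 0 ≤ prT n i := by
  unfold prT
  have := ml_pos i
  positivity

/-- shorter words -/
lemma prT_back {n k s i : ℕ} (hs : (s : ℝ) ≤ ml i) : prT (n - k * s) i ≤ ((k : ℝ) + 1) ^ (5 / 2 : ℝ) * prT n i := by
  have hM := ml_pos i
  have hk : (0 : ℝ) ≤ k := Nat.cast_nonneg k
  have h0 : 0 < max (n : ℝ) (ml i) := lt_of_lt_of_le hM (le_max_right _ _)
  have h0' : 0 < max ((n - k * s : ℕ) : ℝ) (ml i) := lt_of_lt_of_le hM (le_max_right _ _)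
  have h1 : max (n : ℝ) (ml i) ≤ (k + 1) * max ((n - k * s : ℕ) : ℝ) (ml i) := by
    have h2 : (n : ℝ) ≤ ((n - k * s : ℕ) : ℝ) + k * s := by
      have : n ≤ (n - k * s) + k * s := by omega
      exact_mod_cast this
    have h3 : (k : ℝ) * s ≤ k * max ((n - k * s : ℕ) : ℝ) (ml i) :=
      mul_le_mul_of_nonneg_left (hs.trans (le_max_right _ _)) hk
    have h4 := le_max_left ((n - k * s : ℕ) : ℝ) (ml i)
    have h5 := le_max_right ((n - k * s : ℕ) : ℝ) (ml i)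
    refine max_le (by linarith) ?_
    nlinarith
  have h2 : ml i / max ((n - k * s : ℕ) : ℝ) (ml i) ≤ (k + 1) * (ml i / max (n : ℝ) (ml i)) := by
    rw [div_le_iff₀ h0', mul_div_assoc', div_mul_eq_mul_div, le_div_iff₀ h0]
    nlinarith
  have h3 : (ml i / max ((n - k * s : ℕ) : ℝ) (ml i)) ^ (5 / 2 : ℝ) ≤
      ((k : ℝ) + 1) ^ (5 / 2 : ℝ) * (ml i / max (n : ℝ) (ml i)) ^ (5 / 2 : ℝ) := by
    refine (Real.rpow_le_rpow (by positivity) h2 (by norm_num)).trans ?_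
    rw [Real.mul_rpow (by positivity) (by positivity)]
  unfold prT
  calc (2 : ℝ) ^ ((43 / 24 : ℝ) * (i : ℝ)) * (ml i / max ((n - k * s : ℕ) : ℝ) (ml i)) ^ (5 / 2 : ℝ)
      ≤ (2 : ℝ) ^ ((43 / 24 : ℝ) * (i : ℝ)) * (((k : ℝ) + 1) ^ (5 / 2 : ℝ) * (ml i / max (n : ℝ) (ml i)) ^ (5 / 2 : ℝ)) :=
        mul_le_mul_of_nonneg_left h3 (by positivity)
    _ = _ := by ring

/-- higher levels -/
lemma prT_up64 (n i d : ℕ) : prT n (i + d) ≤ 64 ^ d * prT n i := by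
  have hM := ml_pos i
  have hM' := ml_pos (i + d)
  have h0 : 0 < max (n : ℝ) (ml i) := lt_of_lt_of_le hM (le_max_right _ _)
  have h1 : ml (i + d) / max (n : ℝ) (ml (i + d)) ≤ (2 : ℝ) ^ ((4 / 3 : ℝ) * (d : ℝ)) * (ml i / max (n : ℝ) (ml i)) := by
    rw [← mul_div_assoc, ← ml_add]
    refine div_le_div_of_nonneg_left hM'.le h0 ?_
    exact max_le_max le_rfl (ml_mono' (by omega))
  have h2 : (ml (i + d) / max (n : ℝ) (ml (i + d))) ^ (5 / 2 : ℝ) ≤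
      (2 : ℝ) ^ ((10 / 3 : ℝ) * (d : ℝ)) * (ml i / max (n : ℝ) (ml i)) ^ (5 / 2 : ℝ) := by
    refine (Real.rpow_le_rpow (by positivity) h1 (by norm_num)).trans ?_
    rw [Real.mul_rpow (by positivity) (by positivity), ← Real.rpow_mul (by norm_num)]
    refine le_of_eq ?_
    congr 2
    ring
  unfold prT
  have e1 : (2 : ℝ) ^ ((43 / 24 : ℝ) * ((i + d : ℕ) : ℝ)) = (2 : ℝ) ^ ((43 / 24 : ℝ) * (i : ℝ)) *
      (2 : ℝ) ^ ((43 / 24 : ℝ) * (d : ℝ)) := by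
    rw [← Real.rpow_add (by norm_num)]
    congr 1
    push_cast
    ring
  have e2 : (2 : ℝ) ^ ((43 / 24 : ℝ) * (d : ℝ)) * (2 : ℝ) ^ ((10 / 3 : ℝ) * (d : ℝ)) ≤ 64 ^ d := by
    rw [← Real.rpow_add (by norm_num)]
    calc (2 : ℝ) ^ ((43 / 24 : ℝ) * (d : ℝ) + (10 / 3 : ℝ) * (d : ℝ)) ≤ (2 : ℝ) ^ ((6 : ℝ) * (d : ℝ)) := by
          refine Real.rpow_le_rpow_of_exponent_le (by norm_num) ?_
          have : (0 : ℝ) ≤ d := Nat.cast_nonneg d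
          linarith
      _ = 64 ^ d := by
          rw [Real.rpow_mul (by norm_num), Real.rpow_natCast]
          norm_num
  calc (2 : ℝ) ^ ((43 / 24 : ℝ) * ((i + d : ℕ) : ℝ)) * (ml (i + d) / max (n : ℝ) (ml (i + d))) ^ (5 / 2 : ℝ)
      ≤ (2 : ℝ) ^ ((43 / 24 : ℝ) * (i : ℝ)) * (2 : ℝ) ^ ((43 / 24 : ℝ) * (d : ℝ)) *
        ((2 : ℝ) ^ ((10 / 3 : ℝ) * (d : ℝ)) * (ml i / max (n : ℝ) (ml i)) ^ (5 / 2 : ℝ)) := by
        rw [e1]
        exact mul_le_mul_of_nonneg_left h2 (by positivity)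
    _ = (2 : ℝ) ^ ((43 / 24 : ℝ) * (d : ℝ)) * (2 : ℝ) ^ ((10 / 3 : ℝ) * (d : ℝ)) * ((2 : ℝ) ^ ((43 / 24 : ℝ) * (i : ℝ)) *
        (ml i / max (n : ℝ) (ml i)) ^ (5 / 2 : ℝ)) := by ring
    _ ≤ 64 ^ d * ((2 : ℝ) ^ ((43 / 24 : ℝ) * (i : ℝ)) * (ml i / max (n : ℝ) (ml i)) ^ (5 / 2 : ℝ)) :=
        mul_le_mul_of_nonneg_right e2 (by positivity)

lemma prT_z (i : ℕ) : prT 0 i = (2 : ℝ) ^ ((43 / 24 : ℝ) * (i : ℝ)) := by
  have h := ml_pos i
  unfold prT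
  rw [Nat.cast_zero, max_eq_right h.le, div_self h.ne', Real.one_rpow, mul_one]

/-- the predicted mass of a higher level -/
lemma prT_lev {j i : ℕ} (n : ℕ) (h : j ≤ i) : prT n i ≤ (2 : ℝ) ^ ((123 / 24 : ℝ) * ((i : ℝ) - j)) * prT n j := by
  obtain ⟨k, rfl⟩ : ∃ k, i = j + k := ⟨i - j, by omega⟩
  have h1 := prT_up n j k
  rwa [show ((j + k : ℕ) : ℝ) - j = k by push_cast; ring]


end ART

end HexObs
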