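import Pool.Agent.ART.TipT
import Pool.Agent.ART.NumT
import Pool.Agent.ART.LoopDefs
import Pool.Agent.ARM.ExF

/-!
# ART, row E3, the double counting (helper89): pairs (A, Y), the shorter part is summed first

* `TT_fst`, `TT_suf` : the first and the last part of a word at the top, only the end of the last part is bounded;
* `pair_of` : double counting over pairs, generic; **`pairT_gen`** : the same in the class FTp, any classes, any factor Z;
* `startT` : the words of FT with a good start;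
* **`caseA_of`** : both parts have a far vertex (loops), in the class FTp n l.
-/

set_option autoImplicit false

namespace HexObs

namespace ART

open Finset TS SDN _root_.HexObs.SIM NTA TIP ARM

open scoped ENNReal

/-! ### the constraint -/

/-- the first part of a word at the top; h bounds the distance of the ends -/
lemma TT_fst {A Y : List Bool} {r h : ℝ} (hT : TT (A ++ Y) r) (hY : ((TIW.hn (TIW.en Y) : ℤ) : ℝ) ≤ h) : TT A (r + h) := by
  obtain ⟨h1, d, hd, h2⟩ := hT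
  have hh : 0 ≤ h := le_trans (by exact_mod_cast TIW.hn_nonneg _) hY
  have h6 : TIW.en A = TIW.en (A ++ Y) - mulE (TIW.rt A) (TIW.en Y) := by rw [en_app]; abel
  have h7 := TIW.hn_sub (TIW.en (A ++ Y)) (mulE (TIW.rt A) (TIW.en Y))
  rw [← h6, TIW.hn_mulE (TIW.nrm_rt A)] at h7
  have h7' : ((TIW.hn (TIW.en A) : ℤ) : ℝ) ≤ ((TIW.hn (TIW.en (A ++ Y)) : ℤ) : ℝ) + ((TIW.hn (TIW.en Y) : ℤ) : ℝ) := by
    exact_mod_cast h7
  refine ⟨by linarith, d, hd, fun s hs => ?_⟩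
  have hs' : s ≤ (A ++ Y).length := by rw [List.length_append]; omega
  obtain ⟨h3, h4⟩ := h2 s hs'
  have hv : vx oo up (A ++ Y) s = vx oo up A s := vx_append (by omega)
  rw [hv] at h3 h4
  refine ⟨by linarith, ?_⟩
  have e1 : vx oo up A s - TIW.en A = (vx oo up A s - TIW.en (A ++ Y)) + mulE (TIW.rt A) (TIW.en Y) := by
    rw [h6]; abel
  have e2 : ip (vx oo up A s - TIW.en A) d = ip (vx oo up A s - TIW.en (A ++ Y)) d + ip (mulE (TIW.rt A) (TIW.en Y)) d := by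
    rw [e1, ip_add_left]
  have e3 := TIW.ip_le_hn (mulE (TIW.rt A) (TIW.en Y)) hd
  rw [TIW.hn_mulE (TIW.nrm_rt A)] at e3
  have e5 : ((ip (mulE (TIW.rt A) (TIW.en Y)) d : ℤ) : ℝ) ≤ ((TIW.hn (TIW.en Y) : ℤ) : ℝ) := by exact_mod_cast e3
  rw [e2]
  push_cast
  linarith

/-- the last part of a word at the top -/
lemma TT_suf {A Y : List Bool} {r h : ℝ} (hT : TT (A ++ Y) r) (hY : ((TIW.hn (TIW.en Y) : ℤ) : ℝ) ≤ h) : TT Y (r + h) := by
  have hr := TT_nonneg hT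
  obtain ⟨h1, d, hd, h2⟩ := hT
  have hh : 0 ≤ h := le_trans (by exact_mod_cast TIW.hn_nonneg _) hY
  have hn := TIW.nrm_rt A
  refine ⟨by linarith, mulE (conjE (TIW.rt A)) d, conj_mem hn hd, fun s hs => ?_⟩
  have hs' : A.length + s ≤ (A ++ Y).length := by rw [List.length_append]; omega
  obtain ⟨-, h4⟩ := h2 (A.length + s) hs'
  have hv : vx oo up (A ++ Y) (A.length + s) = TIW.en A + mulE (TIW.rt A) (vx oo up Y s) := TIW.vx_app A Y s
  have he : TIW.en (A ++ Y) = TIW.en A + mulE (TIW.rt A) (TIW.en Y) := en_app A Y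
  rw [← ip_mulE_left hn, ← ip_mulE_left hn]
  have e1 : mulE (TIW.rt A) (vx oo up Y s - TIW.en Y) = vx oo up (A ++ Y) (A.length + s) - TIW.en (A ++ Y) := by
    rw [mulE_sub, hv, he]; abel
  have e2 : mulE (TIW.rt A) (vx oo up Y s) = (vx oo up (A ++ Y) (A.length + s) - TIW.en (A ++ Y)) +
      mulE (TIW.rt A) (TIW.en Y) := by
    rw [hv, he]; abel
  rw [e1, e2]
  refine ⟨?_, by linarith⟩
  rw [ip_add_left]
  have e3 := TIW.ip_le_hn (mulE (TIW.rt A) (TIW.en Y)) hd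
  rw [TIW.hn_mulE hn] at e3
  have e5 : ((ip (mulE (TIW.rt A) (TIW.en Y)) d : ℤ) : ℝ) ≤ ((TIW.hn (TIW.en Y) : ℤ) : ℝ) := by exact_mod_cast e3
  push_cast
  linarith

/-! ### double counting over pairs -/

open Classical in
/-- the pairs, the first parts summed first -/
lemma sum_swap (P : List Bool → List Bool → Prop) : (∑' A : List Bool, wE A * gf {Y | P A Y}) =
    ∑' Y : List Bool, wE Y * gf {A | P A Y} := by
  have e1 : ∀ A : List Bool, wE A * gf {Y | P A Y} = ∑' Y : List Bool, if P A Y then wE A * wE Y else 0 := by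
    intro A
    rw [gf_ind, ← ENNReal.tsum_mul_left]
    refine tsum_congr fun Y => ?_
    by_cases h : P A Y
    · rw [if_pos (show Y ∈ {Y | P A Y} from h), if_pos h]
    · rw [if_neg (show Y ∉ {Y | P A Y} from h), if_neg h, mul_zero]
  have e2 : ∀ Y : List Bool, wE Y * gf {A | P A Y} = ∑' A : List Bool, if P A Y then wE A * wE Y else 0 := by
    intro Y
    rw [gf_ind, ← ENNReal.tsum_mul_left]
    refine tsum_congr fun A => ?_
    by_cases h : P A Y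
    · rw [if_pos (show A ∈ {A | P A Y} from h), if_pos h, mul_comm]
    · rw [if_neg (show A ∉ {A | P A Y} from h), if_neg h, mul_zero]
  rw [tsum_congr e1, tsum_congr e2, ENNReal.tsum_comm]

/-- a sum over pairs, the second parts bounded uniformly -/
lemma sum_pair {P : List Bool → List Bool → Prop} {S : Set (List Bool)} {x Z : ℝ≥0∞} (h1 : ∀ A Y, P A Y → A ∈ S)
    (h2 : ∀ A, gf {Y | P A Y} * Z ≤ x) : (∑' A : List Bool, wE A * gf {Y | P A Y}) * Z ≤ x * gf S := by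
  classical
  have e : x * gf S = ∑' A : List Bool, x * (if A ∈ S then wE A else 0) := by
    rw [gf_ind S, ENNReal.tsum_mul_left]
  rw [e, ← ENNReal.tsum_mul_right]
  refine ENNReal.tsum_le_tsum fun A => ?_
  by_cases hA : A ∈ S
  · rw [if_pos hA, mul_assoc, mul_comm]
    exact mul_le_mul' (h2 A) le_rfl
  · have : {Y | P A Y} = ∅ := by
      ext Y
      simp only [Set.mem_ofPred_eq, Set.mem_empty_iff_false, iff_false]
      exact fun h => hA (h1 A Y h)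
    rw [this, if_neg hA, mul_zero]
    simp [gf]

/-- **double counting over pairs**: each pair is of the first kind (the last parts in S1 are summed last) or of the second -/
theorem pair_of {G S1 S2 : Set (List Bool)} {P P1 P2 : List Bool → List Bool → Prop} {c Z x1 x2 : ℝ≥0∞}
    (h : ∀ L ∈ G, ∃ S : Finset ℕ, c ≤ (S.card : ℝ≥0∞) ∧ ∀ k ∈ S, k ≤ L.length ∧ P (L.take k) (L.drop k))
    (hP : ∀ A Y, P A Y → P1 A Y ∨ P2 A Y) (h1 : ∀ A Y, P1 A Y → Y ∈ S1) (h1' : ∀ Y, gf {A | P1 A Y} * Z ≤ x1)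
    (h2 : ∀ A Y, P2 A Y → A ∈ S2) (h2' : ∀ A, gf {Y | P2 A Y} * Z ≤ x2) : gf G * (c * Z) ≤ x1 * gf S1 + x2 * gf S2 := by
  classical
  have k1 := dcs (G := G) (X := Set.univ) (Y := fun A => {Y | P A Y}) (c := c) fun L hL => by
    obtain ⟨S, hS, hk⟩ := h L hL
    exact ⟨S, hS, fun k hkS => ⟨(hk k hkS).1, Set.mem_univ _, (hk k hkS).2⟩⟩
  have k2 : c * gf G ≤ ∑' A : List Bool, (wE A * gf {Y | P1 A Y} + wE A * gf {Y | P2 A Y}) := by
    refine k1.trans (ENNReal.tsum_le_tsum fun A => ?_)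
    rw [if_pos (Set.mem_univ A), ← mul_add]
    refine mul_le_mul' le_rfl ((gf_mono ?_).trans (gf_union_le _ _))
    intro Y hY
    exact hP A Y hY
  calc gf G * (c * Z) = c * gf G * Z := by ring
    _ ≤ (∑' A : List Bool, (wE A * gf {Y | P1 A Y} + wE A * gf {Y | P2 A Y})) * Z := mul_le_mul' k2 le_rfl
    _ ≤ x1 * gf S1 + x2 * gf S2 := by
      rw [ENNReal.tsum_add, add_mul]
      refine add_le_add ?_ (sum_pair h2 h2')
      rw [sum_swap]
      exact sum_pair (P := fun Y A => P1 A Y) (fun Y A => h1 A Y) h1'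

/-! ### good starts -/

/-- words with a good local start, not the whole word -/
def Sg (η : ℝ) (E b : ℕ) : Set (List Bool) := {Y | ∃ V ∈ NPR.GS η E b, ∃ R, R ≠ [] ∧ Y = V ++ R}

lemma Sg_rev {η : ℝ} {E b : ℕ} (hb : b ≠ 0) {Y : List Bool} (h : Y ∈ Sg η E b) : rev Y ∈ GT b η := by
  obtain ⟨V, hV, R, -, rfl⟩ := h
  exact NPR.GS_rev hb hV R

/-- **the words of FT with a good start** -/
theorem startT {η : ℝ} (hη : 0 < η) : ∃ C : ℝ, 0 < C ∧ ∀ (D : ℝ) (n i b E : ℕ), 0 ≤ D → HT D n i → b ≤ i → b ≠ 0 →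
    gf {L | L ∈ FT n i ∧ L ∈ Sg η E b} * Xb b ≤ ENNReal.ofReal (C * D * prT n i) := by
  obtain ⟨a, ha, hma⟩ := mZ_ml
  obtain ⟨C, hC, hT⟩ := startPT ha hma hη
  have ha0 : 0 < a := by linarith
  refine ⟨C * (8 * (8 * a) ^ 6 * 23 ^ 6), by positivity, fun D n i b E hD hH hb hb0 => ?_⟩
  refine (mul_le_mul_left (gf_mono ?_) _).trans ((hT D n i b E 0 hD hH hb hb0).trans (le_of_eq ?_))
  · rintro L ⟨h1, V, hV, R, hR, h2⟩
    exact ⟨FT_sub_PT ha n i h1, V, hV, R, hR, h2⟩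
  unfold MPT
  congr 1
  push_cast
  ring

/-! ### numbers -/

/-- comparable lengths -/
lemma prT_cmp {n n' i : ℕ} (h : max (n : ℝ) (ml i) ≤ 4 * max (n' : ℝ) (ml i)) : prT n' i ≤ 32 * prT n i := by
  have hM := ml_pos i
  have h0 : 0 < max (n : ℝ) (ml i) := lt_of_lt_of_le hM (le_max_right _ _)
  have h0' : 0 < max (n' : ℝ) (ml i) := lt_of_lt_of_le hM (le_max_right _ _)
  have h2 : ml i / max (n' : ℝ) (ml i) ≤ 4 * (ml i / max (n : ℝ) (ml i)) := by
    rw [div_le_iff₀ h0', mul_div_assoc', div_mul_eq_mul_div, le_div_iff₀ h0]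
    nlinarith
  have h3 : (ml i / max (n' : ℝ) (ml i)) ^ (5 / 2 : ℝ) ≤ 32 * (ml i / max (n : ℝ) (ml i)) ^ (5 / 2 : ℝ) := by
    refine (Real.rpow_le_rpow (by positivity) h2 (by norm_num)).trans (le_of_eq ?_)
    rw [Real.mul_rpow (by positivity) (by positivity)]
    congr 1
    rw [show (4 : ℝ) = 2 ^ (2 : ℝ) by norm_num, ← Real.rpow_mul (by norm_num), show (2 : ℝ) * (5 / 2) = ((5 : ℕ) : ℝ) by norm_num,
      Real.rpow_natCast]
    norm_num
  unfold prT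
  calc (2 : ℝ) ^ ((43 / 24 : ℝ) * (i : ℝ)) * (ml i / max (n' : ℝ) (ml i)) ^ (5 / 2 : ℝ)
      ≤ (2 : ℝ) ^ ((43 / 24 : ℝ) * (i : ℝ)) * (32 * (ml i / max (n : ℝ) (ml i)) ^ (5 / 2 : ℝ)) :=
        mul_le_mul_of_nonneg_left h3 (by positivity)
    _ = _ := by ring

/-! ### the pairs in the class FTp -/

lemma len_ap {n l : ℕ} {A Y : List Bool} (h : A ++ Y ∈ FTp n l) : n ≤ A.length + Y.length ∧
    (A.length : ℝ) + Y.length < n + ml l := by
  obtain ⟨-, h2, h3, -⟩ := h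
  rw [List.length_append] at h2 h3
  push_cast at h3
  exact ⟨h2, h3⟩

/-- both parts of a word of FTp n l, the end of the last part within 2 ^ r of its start -/
lemma both_T {n l r : ℕ} (hlr : l ≤ r) {A Y : List Bool} (h : A ++ Y ∈ FTp n l) (hr : TIW.hn (TIW.en Y) ≤ 2 ^ r) :
    TT A (2 ^ (r + 3)) ∧ TT Y (2 ^ (r + 3)) ∧ A ∈ SA ∧ TIW.hn (TIW.en A) ≤ 2 ^ (r + 2) := by
  have hlr' : (2 : ℝ) ^ l ≤ 2 ^ r := pow_le_pow_right₀ (by norm_num) hlr
  have h1r : (1 : ℝ) ≤ 2 ^ r := one_le_pow₀ (by norm_num)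
  have g4 : ((TIW.hn (TIW.en Y) : ℤ) : ℝ) ≤ 2 ^ r := by exact_mod_cast hr
  have g5 : (2 : ℝ) ^ l + 2 + 2 ^ r ≤ 2 ^ (r + 3) := by
    have : (2 : ℝ) ^ (r + 3) = 8 * 2 ^ r := by ring
    linarith
  refine ⟨TT_mono g5 (TT_fst h.2.2.2 g4), TT_mono g5 (TT_suf h.2.2.2 g4), SLW.SA_take h.1, ?_⟩
  have g4 := TIW.hn_sub (TIW.en (A ++ Y)) (mulE (TIW.rt A) (TIW.en Y))
  have g5 : TIW.en (A ++ Y) - mulE (TIW.rt A) (TIW.en Y) = TIW.en A := by rw [en_app]; abel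
  rw [g5, TIW.hn_mulE (TIW.nrm_rt A)] at g4
  have g6 : TIW.hn (TIW.en (A ++ Y)) ≤ 2 ^ l + 2 := by exact_mod_cast h.2.2.2.1
  have g7 : (2 : ℤ) ^ l ≤ 2 ^ r := pow_le_pow_right₀ (by norm_num) hlr
  have g8 : (1 : ℤ) ≤ 2 ^ r := one_le_pow₀ (by norm_num)
  have g9 : (2 : ℤ) ^ (r + 2) = 4 * 2 ^ r := by ring
  rw [g9]
  linarith

/-- **pairs in the class FTp n l**: G, H the classes of the long parts (with the factor Z), PA, PY the classes of the short
parts, C1, C2 the bounds for the long ones -/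
theorem pairT_gen {G H PA PY Gs : Set (List Bool)} {ρ : List Bool → List Bool → Prop} {Z q : ℝ≥0∞} {C1 C2 : ℝ} {n l r : ℕ}
    (hlr : l ≤ r)
    (hG : ∀ n', n' ≤ n → gf {A | A ∈ FT n' (r + 3) ∧ A ∈ G} * Z ≤ ENNReal.ofReal (C1 * prT n' (r + 3)))
    (hH : ∀ n', n' ≤ n → gf {Y | Y ∈ FT n' (r + 3) ∧ Y ∈ H} * Z ≤ ENNReal.ofReal (C2 * prT n' (r + 3)))
    (hC1 : 0 ≤ C1) (hC2 : 0 ≤ C2)
    (hρ : ∀ A Y, A ++ Y ∈ FTp n l → ρ A Y → A ∈ G ∧ Y ∈ H ∧ Y ∈ SA ∧ TIW.hn (TIW.en Y) ≤ 2 ^ r ∧ A ∈ PA ∧ Y ∈ PY)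
    (hs : ∀ L ∈ Gs, L ∈ FTp n l ∧ ∃ S : Finset ℕ, q ≤ (S.card : ℝ≥0∞) ∧ ∀ k ∈ S, k ≤ L.length ∧ ρ (L.take k) (L.drop k)) :
    gf Gs * (q * Z) ≤ ENNReal.ofReal (32 * (C1 * prT n (r + 3))) * gf PY + ENNReal.ofReal (32 * (C2 * prT n (r + 3))) * gf PA := by
  have hp := prT_pos n (r + 3)
  have hml : ml l ≤ ml (r + 3) := ml_le (by omega)
  have hm := ml_pos (r + 3)
  obtain ⟨P, hP⟩ : ∃ P : List Bool → List Bool → Prop, P = fun A Y => A ++ Y ∈ FTp n l ∧ ρ A Y := ⟨_, rfl⟩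
  have hPd : ∀ A Y, P A Y → A ++ Y ∈ FTp n l ∧ A ∈ G ∧ Y ∈ H ∧ Y ∈ SA ∧ A ∈ PA ∧ Y ∈ PY ∧ TT A (2 ^ (r + 3)) ∧
      TT Y (2 ^ (r + 3)) ∧ A ∈ SA := by
    intro A Y h
    rw [hP] at h
    obtain ⟨g1, g2⟩ := h
    obtain ⟨k1, k2, k3, k4, k5, k6⟩ := hρ A Y g1 g2
    obtain ⟨m1, m2, m3, -⟩ := both_T hlr g1 k4
    exact ⟨g1, k1, k2, k3, k5, k6, m1, m2, m3⟩
  refine pair_of (P := P) (P1 := fun A Y => P A Y ∧ 2 * Y.length ≤ n) (P2 := fun A Y => P A Y ∧ n < 2 * Y.length)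
    ?_ ?_ ?_ ?_ ?_ ?_
  · intro L hL
    obtain ⟨g1, S, hS, hk⟩ := hs L hL
    refine ⟨S, hS, fun k hkS => ⟨(hk k hkS).1, ?_⟩⟩
    rw [hP]
    refine ⟨?_, (hk k hkS).2⟩
    rw [List.take_append_drop]
    exact g1
  · intro A Y h
    rcases Nat.lt_or_ge n (2 * Y.length) with g | g
    · exact Or.inr ⟨h, g⟩
    · exact Or.inl ⟨h, g⟩
  · rintro A Y ⟨h, -⟩
    exact (hPd A Y h).2.2.2.2.2.1
  · intro Y
    by_cases hY : 2 * Y.length ≤ n
    · have h2 : gf {A | P A Y ∧ 2 * Y.length ≤ n} ≤ gf {A | A ∈ FT (n - Y.length) (r + 3) ∧ A ∈ G} := by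
        refine gf_mono ?_
        rintro A ⟨h, -⟩
        obtain ⟨k1, k2, -, -, -, -, k7, -, k9⟩ := hPd A Y h
        obtain ⟨g3, g4⟩ := len_ap k1
        refine ⟨⟨k9, by omega, ?_, k7⟩, k2⟩
        rw [Nat.cast_sub (by omega)]
        linarith
      have h3 : prT (n - Y.length) (r + 3) ≤ 32 * prT n (r + 3) := by
        refine prT_cmp (max_le ?_ ?_)
        · have g1 : (n : ℝ) ≤ 2 * ((n - Y.length : ℕ) : ℝ) := by exact_mod_cast (by omega : n ≤ 2 * (n - Y.length))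
          have g2 := le_max_left ((n - Y.length : ℕ) : ℝ) (ml (r + 3))
          have g3 : (0 : ℝ) ≤ ((n - Y.length : ℕ) : ℝ) := Nat.cast_nonneg _
          linarith
        · have g2 := le_max_right ((n - Y.length : ℕ) : ℝ) (ml (r + 3))
          linarith
      refine (mul_le_mul' h2 le_rfl).trans ((hG _ (by omega)).trans (ENNReal.ofReal_le_ofReal ?_))
      calc C1 * prT (n - Y.length) (r + 3) ≤ C1 * (32 * prT n (r + 3)) := mul_le_mul_of_nonneg_left h3 hC1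
        _ = _ := by ring
    · have : {A | P A Y ∧ 2 * Y.length ≤ n} = ∅ := by
        ext A
        simp only [Set.mem_ofPred_eq, Set.mem_empty_iff_false, iff_false]
        exact fun h => hY h.2
      rw [this]
      simp [gf]
  · rintro A Y ⟨h, -⟩
    exact (hPd A Y h).2.2.2.2.1
  · intro A
    by_cases hne : ∃ Y, P A Y ∧ n < 2 * Y.length
    · obtain ⟨Y0, hY0, hn0⟩ := hne
      have h2 : gf {Y | P A Y ∧ n < 2 * Y.length} ≤ gf {Y | Y ∈ FT (n - A.length) (r + 3) ∧ Y ∈ H} := by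
        refine gf_mono ?_
        rintro Y ⟨h, -⟩
        obtain ⟨k1, -, k3, k4, -, -, -, k8, -⟩ := hPd A Y h
        obtain ⟨g3, g4⟩ := len_ap k1
        refine ⟨⟨k4, by omega, ?_, k8⟩, k3⟩
        have g5 : (n : ℝ) ≤ ((n - A.length : ℕ) : ℝ) + A.length := by exact_mod_cast (by omega : n ≤ (n - A.length) + A.length)
        linarith
      have h3 : prT (n - A.length) (r + 3) ≤ 32 * prT n (r + 3) := by
        obtain ⟨g3, g4⟩ := len_ap (hPd A Y0 hY0).1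
        refine prT_cmp (max_le ?_ ?_)
        · have g5 : (n : ℝ) ≤ ((n - A.length : ℕ) : ℝ) + A.length := by exact_mod_cast (by omega : n ≤ (n - A.length) + A.length)
          have g6 : (n : ℝ) < 2 * Y0.length := by exact_mod_cast hn0
          have g7 := le_max_left ((n - A.length : ℕ) : ℝ) (ml (r + 3))
          have g8 := le_max_right ((n - A.length : ℕ) : ℝ) (ml (r + 3))
          linarith
        · have g2 := le_max_right ((n - A.length : ℕ) : ℝ) (ml (r + 3))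
          linarith
      refine (mul_le_mul' h2 le_rfl).trans ((hH _ (by omega)).trans (ENNReal.ofReal_le_ofReal ?_))
      calc C2 * prT (n - A.length) (r + 3) ≤ C2 * (32 * prT n (r + 3)) := mul_le_mul_of_nonneg_left h3 hC2
        _ = _ := by ring
    · have : {Y | P A Y ∧ n < 2 * Y.length} = ∅ := by
        ext Y
        simp only [Set.mem_ofPred_eq, Set.mem_empty_iff_false, iff_false]
        exact fun h => hne ⟨Y, h⟩
      rw [this]
      simp [gf]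

/-! ### case A -/

/-- the cuts of the case A: both parts have a far vertex, the end of the last part is within 2 ^ r of its start -/
def CutE (η : ℝ) (E b r i : ℕ) (A Y : List Bool) : Prop :=
  A ∈ GT b η ∧ Y ∈ Sg η E b ∧ Y ∈ SA ∧ TIW.hn (TIW.en Y) ≤ 2 ^ r ∧ (∃ s, s ≤ A.length ∧ 2 ^ i < dz A s) ∧
    ∃ s, s ≤ Y.length ∧ 2 ^ i < dz Y s

/-- **case A**: both parts have a far vertex -/
theorem caseA_of (hT : TipT) (hM : LoopM) {η : ℝ} {E : ℕ} (hη : 0 < η) : ∃ (K B : ℝ) (b0 : ℕ), 0 < K ∧ 1 ≤ B ∧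
    ∀ (D : ℝ) (n l i b r : ℕ), 0 ≤ D → HT D n l → b0 ≤ b → 1 ≤ b → b ≤ l → l ≤ r → r + 2 ≤ i →
    ∀ (G : Set (List Bool)) (q : ℝ≥0∞), (∀ L ∈ G, L ∈ FTp n l ∧ ∃ S : Finset ℕ, q ≤ (S.card : ℝ≥0∞) ∧
      ∀ k ∈ S, k ≤ L.length ∧ CutE η E b r i (L.take k) (L.drop k)) →
    gf G * (q * Xb b) ≤ ENNReal.ofReal (K * D * prT n (r + 3) *
      (B ^ (r - b) * (2 : ℝ) ^ (-(1 / 8 : ℝ) * ((i : ℝ) - r)) * Ub b)) * Xb b := by
  obtain ⟨C1, hC1, hT1⟩ := hT η hη
  obtain ⟨C2, hC2, hT2⟩ := startT hη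
  obtain ⟨B, b0, hB, hM⟩ := hM η E hη
  refine ⟨32 * (C1 + C2) * (B ^ 3 * 2 ^ (1 / 4 : ℝ)), B, b0, by positivity, hB, fun D n l i b r hD hH hb hb1 hbl hlr hri G q hG => ?_⟩
  have hH3 : HT D n (r + 3) := hH.mono le_rfl (by omega)
  have hp := prT_pos n (r + 3)
  have hU := Ub_pos b
  have key := pairT_gen (G := GT b η) (H := Sg η E b) (PA := {W | W ∈ Lp (r + 2) i ∧ W ∈ GT b η})
    (PY := {W | W ∈ Lp (r + 2) i ∧ rev W ∈ GT b η}) (Gs := G) (ρ := CutE η E b r i) (Z := Xb b) (q := q) (C1 := C1 * D)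
    (C2 := C2 * D) hlr (fun n' hn' => hT1 D n' (r + 3) b hD (hH3.mono hn' le_rfl) (by omega))
    (fun n' hn' => hT2 D n' (r + 3) b E hD (hH3.mono hn' le_rfl) (by omega) (by omega)) (by positivity) (by positivity) ?_ hG
  · have hm1 := (hM b (r + 2) i hb (by omega) (by omega)).2.1
    have hm2 := (hM b (r + 2) i hb (by omega) (by omega)).1
    obtain ⟨w, hw⟩ : ∃ w : ℝ, w = B ^ (r + 2 - b + 1) * (2 : ℝ) ^ (-(1 / 8 : ℝ) * ((i : ℝ) - ((r + 2 : ℕ) : ℝ))) * Ub b := ⟨_, rfl⟩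
    rw [← hw] at hm1 hm2
    have hw0 : 0 ≤ w := by rw [hw]; positivity
    have hwe : w = (B ^ 3 * 2 ^ (1 / 4 : ℝ)) * (B ^ (r - b) * (2 : ℝ) ^ (-(1 / 8 : ℝ) * ((i : ℝ) - r)) * Ub b) := by
      rw [hw, show r + 2 - b + 1 = 3 + (r - b) by omega, pow_add]
      have e : (2 : ℝ) ^ (-(1 / 8 : ℝ) * ((i : ℝ) - ((r + 2 : ℕ) : ℝ))) = 2 ^ (1 / 4 : ℝ) * (2 : ℝ) ^ (-(1 / 8 : ℝ) * ((i : ℝ) - r)) := by
        rw [← Real.rpow_add (by norm_num)]
        congr 1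
        push_cast
        ring
      rw [e]
      ring
    refine key.trans ?_
    calc ENNReal.ofReal (32 * (C1 * D * prT n (r + 3))) * gf {W | W ∈ Lp (r + 2) i ∧ rev W ∈ GT b η} +
          ENNReal.ofReal (32 * (C2 * D * prT n (r + 3))) * gf {W | W ∈ Lp (r + 2) i ∧ W ∈ GT b η}
        ≤ ENNReal.ofReal (32 * (C1 * D * prT n (r + 3))) * (ENNReal.ofReal w * Xb b) +
          ENNReal.ofReal (32 * (C2 * D * prT n (r + 3))) * (ENNReal.ofReal w * Xb b) :=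
          add_le_add (mul_le_mul' le_rfl hm1) (mul_le_mul' le_rfl hm2)
      _ = (ENNReal.ofReal (32 * (C1 * D * prT n (r + 3))) + ENNReal.ofReal (32 * (C2 * D * prT n (r + 3)))) * ENNReal.ofReal w *
          Xb b := by ring
      _ = _ := by
          rw [← ENNReal.ofReal_add (by positivity) (by positivity), ← ENNReal.ofReal_mul (by positivity), hwe]
          congr 2
          ring
  · rintro A Y h ⟨g1, g2, g3, g4, g5, g6⟩
    obtain ⟨-, -, m3, m4⟩ := both_T hlr h g4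
    exact ⟨g1, g2, g3, g4, ⟨⟨m3, m4, g5⟩, g1⟩,
      ⟨⟨g3, g4.trans (pow_le_pow_right₀ (by norm_num) (by omega)), g6⟩, Sg_rev (by omega) g2⟩⟩

end ART

end HexObs
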