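import Pool.Agent.ART.ExTG
import Pool.Agent.ART.EsP
import Pool.Agent.ART.EsDefs2

/-!
# ART, row E4 (helper73): the double counts of the cases A and B of `EsTL2`

* `esP2A_of : TipT2s → LoopM → EsP2A` (helper89's `pairT_gen`, both classes `TwoG`, the factor `Xb b ^ 2`);
* `esP2B_of : TipT2s → YBadG2 → EsP2B` (`exT_gen`).
-/

set_option autoImplicit false

namespace HexObs

namespace ART

open Finset TS SDN _root_.HexObs.SIM NTA TIP ARM

open scoped ENNReal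

/-- **case A, mass** -/
theorem esP2A_of (hT : TipT2s) (hM : LoopM) : EsP2A := by
  intro η E hη
  obtain ⟨C1, hC1, hT⟩ := hT η E hη
  obtain ⟨B, b0, hB, hM⟩ := hM η E hη
  refine ⟨64 * C1 * 64 ^ 3 * (B ^ 3 * 2 ^ (5 / 8 : ℝ)), 64 * B, b0, by positivity, by linarith,
    fun D n b l r i q hD hH hb hbl hlr hri hq => ?_⟩
  have hH3 : HT D n (r + 3) := hH.mono le_rfl (by omega)
  have hp := prT_pos n (r + 3)
  have hp0 := prT_pos n l
  have hU := Ub_pos b
  have hB0 : 0 < B := by linarith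
  have key := pairT_gen (G := TwoG η E b) (H := TwoG η E b) (PA := {W | W ∈ Lp (r + 2) (i - 3) ∧ W ∈ TwoG η E b})
    (PY := {W | W ∈ Lp (r + 2) (i - 3) ∧ W ∈ TwoG η E b})
    (Gs := {L | L ∈ FTp n l ∧ ∃ S : Finset ℕ, q ≤ (S.card : ℝ) ∧ ∀ s ∈ S, s ≤ L.length ∧ RhoL2 η E b r i (L.take s) (L.drop s)})
    (ρ := RhoL2 η E b r i) (Z := Xb b ^ 2) (q := ENNReal.ofReal q) (C1 := C1 * D)
    (C2 := C1 * D) hlr (fun n' hn' => hT D n' (r + 3) b hD (hH3.mono hn' le_rfl) (by omega))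
    (fun n' hn' => hT D n' (r + 3) b hD (hH3.mono hn' le_rfl) (by omega)) (by positivity) (by positivity) ?_ ?_
  · have hm := (hM b (r + 2) (i - 3) hb (by omega) (by omega)).2.2
    obtain ⟨w, hw⟩ : ∃ w : ℝ, w = B ^ (r + 2 - b + 1) * (2 : ℝ) ^ (-(1 / 8 : ℝ) * (((i - 3 : ℕ) : ℝ) - ((r + 2 : ℕ) : ℝ))) * Ub b :=
      ⟨_, rfl⟩
    rw [← hw] at hm
    have hw0 : 0 ≤ w := by rw [hw]; positivity
    have hwe : w = (B ^ 3 * 2 ^ (5 / 8 : ℝ)) * (B ^ (r - b) * (2 : ℝ) ^ (-(1 / 8 : ℝ) * ((i : ℝ) - r)) * Ub b) := by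
      rw [hw, show r + 2 - b + 1 = 3 + (r - b) by omega, pow_add]
      have e : (2 : ℝ) ^ (-(1 / 8 : ℝ) * (((i - 3 : ℕ) : ℝ) - ((r + 2 : ℕ) : ℝ))) =
          2 ^ (5 / 8 : ℝ) * (2 : ℝ) ^ (-(1 / 8 : ℝ) * ((i : ℝ) - r)) := by
        rw [← Real.rpow_add (by norm_num), Nat.cast_sub (by omega)]
        congr 1
        push_cast
        ring
      rw [e]
      ring
    have hup : prT n (r + 3) ≤ 64 ^ 3 * 64 ^ (r - b) * prT n l := by
      obtain ⟨d, hd⟩ : ∃ d, r + 3 = l + d := ⟨r + 3 - l, by omega⟩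
      rw [hd]
      refine (prT_up64 n l d).trans (mul_le_mul_of_nonneg_right ?_ hp0.le)
      rw [← pow_add]
      exact pow_le_pow_right₀ (by norm_num) (by omega)
    refine key.trans ?_
    calc ENNReal.ofReal (32 * (C1 * D * prT n (r + 3))) * gf {W | W ∈ Lp (r + 2) (i - 3) ∧ W ∈ TwoG η E b} +
          ENNReal.ofReal (32 * (C1 * D * prT n (r + 3))) * gf {W | W ∈ Lp (r + 2) (i - 3) ∧ W ∈ TwoG η E b}
        ≤ ENNReal.ofReal (32 * (C1 * D * prT n (r + 3))) * ENNReal.ofReal w +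
          ENNReal.ofReal (32 * (C1 * D * prT n (r + 3))) * ENNReal.ofReal w :=
          add_le_add (mul_le_mul' le_rfl hm) (mul_le_mul' le_rfl hm)
      _ = ENNReal.ofReal (64 * C1 * D * prT n (r + 3) * w) := by
          rw [← add_mul, ← ENNReal.ofReal_add (by positivity) (by positivity), ← ENNReal.ofReal_mul (by positivity)]
          congr 1
          ring
      _ ≤ _ := by
          refine ENNReal.ofReal_le_ofReal ?_
          calc 64 * C1 * D * prT n (r + 3) * w ≤ 64 * C1 * D * (64 ^ 3 * 64 ^ (r - b) * prT n l) * w := by gcongr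
            _ = _ := by
              rw [hwe, mul_pow]
              ring
  · rintro A Y h ⟨g1, g2, g3, g4, g5, ⟨s, g6, g6'⟩, t, g7, g7'⟩
    obtain ⟨-, -, m3, m4⟩ := both_T hlr h g5
    have e : (2 : ℤ) ^ i = 8 * 2 ^ (i - 3) := by
      rw [show (8 : ℤ) = 2 ^ 3 by norm_num, ← pow_add]
      congr 1
      omega
    rw [e] at g6' g7'
    exact ⟨g3, g4, g2, g5, ⟨⟨m3, m4, s, g6, by linarith⟩, g3⟩,
      ⟨⟨g2, g5.trans (pow_le_pow_right₀ (by norm_num) (by omega)), t, g7, by linarith⟩, g4⟩⟩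
  · rintro L ⟨h1, S, hS, hk⟩
    refine ⟨h1, S, ?_, hk⟩
    rw [← ENNReal.ofReal_natCast]
    exact ENNReal.ofReal_le_ofReal hS

/-- **case B, mass** -/
theorem esP2B_of {κ : ℝ} {C : ℕ} (hT : TipT2s) (hY : YBadG2 κ C) : EsP2B κ C := by
  intro η E a k hη
  obtain ⟨C1, hC1, hT⟩ := hT η E hη
  obtain ⟨K, hK, hE⟩ := exT_gen 0
  obtain ⟨J0, b0, hY⟩ := hY η E (a + 6) k hη
  refine ⟨K * C1, J0, b0, by positivity, fun D n b l i J q hD hH hb hbl hli hJ hq => ?_⟩
  obtain ⟨J', hJ'⟩ : ∃ J', J' = i - b + J + 1 := ⟨_, rfl⟩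
  have hbJ : b + J' = i + J + 1 := by omega
  have hHi : HT D n (i + J + 1 + 3) := hH.mono le_rfl (by omega)
  have hU := Ub_pos b
  have hp0 := prT_pos n l
  have h1 := hE C1 D n l (i + J + 1) (TwoG η E b) (Xb b ^ 2) hC1 hD
    (fun n' hn' => hT D n' (i + J + 1 + (0 + 3)) b hD (hHi.mono hn' (by omega)) (by omega)) (by omega)
    (RhoG2 κ η C E b J' k) (ENNReal.ofReal (Ub b / 2 ^ ((a + 6) * J'))) q (fun A Y h => h.1) (fun A => ?_) hq
  · rw [add_zero] at h1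
    rw [← hJ']
    refine h1.trans ?_
    have hp := prT_pos n (i + J + 1)
    rw [← ENNReal.ofReal_mul (by positivity)]
    refine ENNReal.ofReal_le_ofReal ?_
    have hup : prT n (i + J + 1) ≤ 64 ^ J' * prT n l := by
      obtain ⟨d, hd⟩ : ∃ d, i + J + 1 = l + d := ⟨i + J + 1 - l, by omega⟩
      rw [hd]
      refine (prT_up64 n l d).trans (mul_le_mul_of_nonneg_right ?_ hp0.le)
      exact pow_le_pow_right₀ (by norm_num) (by omega)
    have h64 : (64 : ℝ) ^ J' / 2 ^ ((a + 6) * J') ≤ (1 / 2) ^ (a * (i - b + J)) := by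
      have e1 : (64 : ℝ) ^ J' = 2 ^ (6 * J') := by
        rw [pow_mul]
        norm_num
      rw [e1, add_mul, pow_add, div_mul_cancel_right₀ (by positivity), one_div, inv_pow]
      refine inv_anti₀ (by positivity) (pow_le_pow_right₀ (by norm_num) (Nat.mul_le_mul_left _ (by omega)))
    calc K * C1 * D * prT n (i + J + 1) * (Ub b / 2 ^ ((a + 6) * J'))
        ≤ K * C1 * D * (64 ^ J' * prT n l) * (Ub b / 2 ^ ((a + 6) * J')) := by gcongr
      _ = K * C1 * D * (64 ^ J' / 2 ^ ((a + 6) * J')) * prT n l * Ub b := by ring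
      _ ≤ K * C1 * D * (1 / 2) ^ (a * (i - b + J)) * prT n l * Ub b := by gcongr
  · have h2 := hY b J' (n - A.length) hb (by omega)
    rw [← ENNReal.ofReal_mul (by positivity)]
    rw [hbJ] at h2
    refine (gf_mono ?_).trans h2
    rintro Y ⟨⟨-, r2, r3, r4⟩, r5, r6⟩
    rw [add_zero] at r5
    obtain ⟨-, r7, -, -⟩ := r6
    rw [List.length_append] at r7
    exact ⟨r2, r3, r5, by omega, r4⟩

end ART

end HexObs
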