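import Pool.Agent.ART.LoopDefs
import Pool.Agent.ARM.EsW

/-!
# ART, row E3, the deterministic part (helper37): the words with an extra strand, crossing just before the visit

`Cq l r i L t0 t1` : the last crossing from distance `2 ^ (r - 1)` to distance `2 ^ (r - 2)` of the end before the visit of the small
ball `2 ^ (l + 1)`; in front of it a vertex `t` at distance more than `2 ^ (i - 2)`, behind it another one (class `ESw`).
Rich factors of the scale b, `r = b + m`.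

* `esL_A` : good cuts in the crossing: `A` and the loop `Y` (`RhoL`);
* `esL_B` : the last rich factor is older: `RhoG` (long factor, `2 ^ J ≤ n ^ k`);
* `esL_C` : there is none.
-/

set_option autoImplicit false

namespace HexObs

namespace ART

open Finset TS SDN HexObs.SIM NTA TIP TIP.Nf ARM

open scoped ENNReal

/-- the last crossing of the level r before the visit -/
structure Cq (l r i : ℕ) (L : List Bool) (t0 t1 : ℕ) : Prop where
  lt : t0 < t1
  le : t1 ≤ L.length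
  far : 2 ^ r < 2 * dz L t0
  near : 4 * dz L t1 ≤ 2 ^ r
  up : ∀ s, t0 < s → s ≤ t1 → 2 * dz L s ≤ 2 ^ r
  rest : ∀ s, t0 < s → s ≤ L.length → dz L s ≤ 2 ^ (i + 3)
  tfar : ∃ t, t ≤ t0 ∧ 2 ^ i < 4 * dz L t
  vis : ∃ a b, t1 ≤ a ∧ a < b ∧ b ≤ L.length ∧ dz L a ≤ 2 ^ (l + 1) ∧ 2 ^ i < 4 * dz L b

lemma cq_of {l r i : ℕ} {L : List Bool} (hlr : l + 3 ≤ r) (hri : r + 1 ≤ i) (h : L ∈ ESw l i) : ∃ t0 t1, Cq l r i L t0 t1 := by
  classical
  obtain ⟨t, a, b, ht, hab, hb, h1, h2, h3, h4⟩ := h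
  have hp : (2 : ℤ) ^ (l + 3) ≤ 2 ^ r := pow_le_pow_right₀ (by norm_num) hlr
  have hp2 : (2 : ℤ) ^ r * 2 ≤ 2 ^ i := by
    rw [← pow_succ]
    exact pow_le_pow_right₀ (by norm_num) hri
  have h2' : 4 * dz L a ≤ 2 ^ r := by
    have e : (2 : ℤ) ^ (l + 3) = 4 * 2 ^ (l + 1) := by ring
    linarith
  have hi : (0 : ℤ) < 2 ^ r := by positivity
  obtain ⟨t0, ht0⟩ : ∃ t0, t0 = Nat.findGreatest (fun s => 2 ^ r < 2 * dz L s) a := ⟨_, rfl⟩
  have h1r : 2 ^ r < 2 * dz L t := by linarith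
  have k0 : t ≤ t0 := by
    rw [ht0]
    exact Nat.le_findGreatest (P := fun s => 2 ^ r < 2 * dz L s) ht.le h1r
  have k1 : 2 ^ r < 2 * dz L t0 := by
    rw [ht0]
    exact Nat.findGreatest_spec (P := fun s => 2 ^ r < 2 * dz L s) ht.le h1r
  have k2 : ∀ s, t0 < s → s ≤ a → 2 * dz L s ≤ 2 ^ r := by
    intro s hs1 hs2
    rw [ht0] at hs1
    exact not_lt.1 (Nat.findGreatest_is_greatest hs1 hs2)
  have k3 : t0 ≤ a := by
    rw [ht0]
    exact Nat.findGreatest_le a
  have k4 : t0 < a := by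
    rcases Nat.lt_or_ge t0 a with h | h
    · exact h
    · have e : t0 = a := by omega
      rw [e] at k1
      linarith
  have hex : ∃ s, t0 < s ∧ 4 * dz L s ≤ 2 ^ r := ⟨a, k4, h2'⟩
  obtain ⟨m1, m2⟩ := Nat.find_spec hex
  have m3 : Nat.find hex ≤ a := Nat.find_min' hex ⟨k4, h2'⟩
  refine ⟨t0, Nat.find hex, m1, by omega, k1, m2, fun s hs1 hs2 => k2 s hs1 (hs2.trans m3), fun s hs1 hs2 => ?_,
    ⟨t, k0, h1⟩, a, b, m3, hab, hb, h2, h3⟩
  rcases Nat.lt_or_ge s a with h | h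
  · have h5 := k2 s hs1 h.le
    have e : (2 : ℤ) ^ (i + 3) = 8 * 2 ^ i := by ring
    linarith
  · exact h4 s h hs2

variable {κ η : ℝ} {C b l r i m t0 t1 h k : ℕ} {L X Z1 Z2 Z3 Y0 : List Bool}

/-- good cuts in the crossing: both parts reach the level i, both have their ends within 2 ^ r -/
def RhoL (η : ℝ) (b r i : ℕ) (A Y : List Bool) : Prop :=
  A ∈ GT b η ∧ Y ∈ SA ∧ rev Y ∈ GT b η ∧ dz Y 0 ≤ 2 ^ r ∧ (∃ s, s ≤ Y.length ∧ 2 ^ i < 4 * dz Y s) ∧
    ∃ s, s ≤ A.length ∧ 2 ^ i < 8 * dz A s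

/-- the part behind the cut has a factor of extent n 2 ^ b without rich window, 2 ^ J ≤ n ^ k -/
def RhoG (κ η : ℝ) (C b J k : ℕ) (A Y : List Bool) : Prop :=
  A ∈ GT b η ∧ Y ∈ SA ∧ rev Y ∈ GT b η ∧ ∃ n : ℕ, 2 ^ J ≤ n ^ k ∧ Y ∈ Lz κ C b n

lemma dz_take {L : List Bool} {q s : ℕ} (hq : q ≤ L.length) (hs : s ≤ q) : dz L s ≤ dz (L.take q) s + dz L q := by
  have e : vx oo up (L.take q) s = vx oo up L s := by
    conv_rhs => rw [← List.take_append_drop q L]
    rw [vx_append (by rw [List.length_take]; omega)]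
  have e2 : TIW.en (L.take q) = vx oo up L q := by
    unfold TIW.en
    rw [List.length_take, min_eq_left hq]
    conv_rhs => rw [← List.take_append_drop q L]
    rw [vx_append (by rw [List.length_take]; omega)]
  unfold dz
  rw [e, e2]
  have h1 := TIW.hn_add (vx oo up L s - vx oo up L q) (vx oo up L q - TIW.en L)
  rwa [sub_add_sub_cancel] at h1

/-- the cuts of the rich factor, in the whole word -/
lemma cut_Lq (hd : Dt κ C b (L.take t1) X Z1 Z2 Z3 Y0) (ht : t1 ≤ L.length) {c : ℕ} (hc : c ≤ Z2.length) :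
    (X ++ Z1).length + c < t1 ∧ L.take ((X ++ Z1).length + c) = (L.take t1).take ((X ++ Z1).length + c) ∧
      L.drop ((X ++ Z1).length + c) = Z2.drop c ++ (Z3 ++ (Y0 ++ L.drop t1)) := cut_L hd ht hc

open Classical in
/-- **case A**, the positions of the cuts -/
theorem esL_A' (hc : Cq l r i L t0 t1) (hri : r + 2 ≤ i) (hsa : L ∈ SA) (hd : Dt κ C b (L.take t1) X Z1 Z2 Z3 Y0)
    (hh : 1 ≤ h) (hη : η * Ub b ≤ (h : ℝ)) (h4 : 4 * h ≤ nc Z2) (hX : t0 < (X ++ Z1).length) :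
    ∃ S : Finset ℕ, h ≤ S.card ∧ ∀ q ∈ S, q ≤ L.length ∧ RhoL η b r i (L.take q) (L.drop q) ∧ In (2 ^ (i + 4)) (L.drop q) := by
  have h1 := card_rank neW (Z := Z2) (lo := h) (hi := 2 * h) hh (by omega)
  have h2 : 2 * h - h = h := by omega
  rw [h2] at h1
  refine ⟨_, le_of_eq (h1.symm.trans (card_image_of_injective _
    (fun x y h => Nat.add_left_cancel h : Function.Injective fun c => (X ++ Z1).length + c)).symm), fun q hq => ?_⟩
  obtain ⟨c, hcm, rfl⟩ := mem_image.1 hq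
  rw [mem_filter] at hcm
  obtain ⟨hc1, hc2, hc3⟩ := hcm
  obtain ⟨a1, a2, a3⟩ := mem_cz.1 hc1
  obtain ⟨f1, f2, f3⟩ := cut_Lq hd hc.le a1
  obtain ⟨g1, g2⟩ := hd.gt neW hη h4 hc1 hc2 (by omega)
  have hh' : hgt (Z2.take c) + hgt (Z2.drop c) = hgt Z2 := by
    rw [← hgt_app a2 a3, List.take_append_drop]
  have hs := rank_sum neW hc1
  have hZ2 := hd.h2
  obtain ⟨q, hqd⟩ : ∃ q, q = (X ++ Z1).length + c := ⟨_, rfl⟩
  rw [← hqd] at f1 f2 f3 g1 ⊢
  have hqt : t0 < q := by omega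
  have hqL : q ≤ L.length := by have := hc.le; omega
  have hz0 : dz (L.drop q) 0 = dz L q := by
    have := dz_drop L (le_refl q) hqL
    rwa [Nat.sub_self] at this
  have hup := hc.up q hqt f1.le
  have hr2 : (2 : ℤ) ^ r * 4 ≤ 2 ^ i := by
    calc (2 : ℤ) ^ r * 4 = 2 ^ (r + 2) := by ring
      _ ≤ 2 ^ i := pow_le_pow_right₀ (by norm_num) hri
  have hr0 : (0 : ℤ) < 2 ^ r := by positivity
  refine ⟨hqL, ⟨by rw [f2]; exact g1, SA_drop hsa _, ?_, ?_, ?_, ?_⟩, ?_⟩
  · rw [f3]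
    refine neW.B η b _ Z3 _ a3 (by omega) hd.b3 hd.h3 (hη.trans ?_)
    have : h ≤ nc (Z2.drop c) := by omega
    exact_mod_cast this
  · rw [hz0]
    linarith
  · obtain ⟨a, b', v1, v2, v3, v4, v5⟩ := hc.vis
    refine ⟨b' - q, ?_, ?_⟩
    · rw [List.length_drop]
      omega
    · rwa [dz_drop L (by omega) (by omega)]
  · obtain ⟨t, u1, u2⟩ := hc.tfar
    refine ⟨t, ?_, ?_⟩
    · rw [List.length_take]
      omega
    · have h5 := dz_take hqL (show t ≤ q by omega)
      linarith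
  · refine In_of_dz fun s hs => ?_
    rw [List.length_drop] at hs
    have h5 := dz_drop L (show q ≤ q + s by omega) (by omega)
    rw [show q + s - q = s by omega] at h5
    rw [h5, hz0]
    have h6 := hc.rest (q + s) (by omega) (by omega)
    have h7 := hc.rest q hqt hqL
    push_cast
    have e : (2 : ℤ) ^ (i + 4) = 2 ^ (i + 3) + 2 ^ (i + 3) := by ring
    rw [e]
    exact add_le_add h6 h7

open Classical in
/-- **case A** -/
theorem esL_A (hc : Cq l r i L t0 t1) (hri : r + 2 ≤ i) (hsa : L ∈ SA) (hd : Dt κ C b (L.take t1) X Z1 Z2 Z3 Y0)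
    (hh : 1 ≤ h) (hη : η * Ub b ≤ (h : ℝ)) (h4 : 4 * h ≤ nc Z2) (hX : t0 < (X ++ Z1).length) :
    h ≤ nD (2 ^ (i + 4)) (RhoL η b r i) L := by
  obtain ⟨S, hS, hS'⟩ := esL_A' hc hri hsa hd hh hη h4 hX
  exact hS.trans (nD_ge fun q hq => hS' q hq)

/-- the long factor in front of the end of the crossing, near -/
lemma near_factor {r b m t1 s0 : ℕ} {L P Y0 : List Bool} (ht : t1 ≤ L.length) (hT : L.take t1 = P ++ Y0)
    (hP : P.length ≤ s0) (hs1 : s0 ≤ t1) (hfar : 3 * 2 ^ r ≤ 8 * dz L s0) (hnear : 4 * dz L t1 ≤ 2 ^ r)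
    (him : r = b + m) (hm : 6 ≤ m) : ¬ In (2 ^ (m - 6) * 2 ^ b) Y0 := by
  have hL : L = P ++ (Y0 ++ L.drop t1) := by
    conv_lhs => rw [← List.take_append_drop t1 L, hT, List.append_assoc]
  have hlen : t1 = P.length + Y0.length := by
    have h := congrArg List.length hT
    rw [List.length_take, List.length_append, min_eq_left ht] at h
    exact h
  intro hin
  have h1 := hn_fac (B := L.drop t1) hin hP (show s0 ≤ (P ++ Y0).length by rw [List.length_append]; omega)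
    (show P.length ≤ t1 by omega) (show t1 ≤ (P ++ Y0).length by rw [List.length_append]; omega)
  rw [← hL] at h1
  have h2 := dz_hn L s0 t1
  have h3 : (2 : ℤ) ^ r = 64 * ((2 ^ (m - 6) * 2 ^ b : ℕ) : ℤ) := by
    push_cast
    rw [← pow_add, show (64 : ℤ) = 2 ^ 6 by norm_num, ← pow_add]
    congr 1
    omega
  have h4 : (0 : ℤ) < 2 ^ r := by positivity
  linarith

/-- the long factor in front of the end of the crossing, far -/
lemma far_factor {i b m t1 : ℕ} {L P Y0 : List Bool} (ht : t1 ≤ L.length) (hT : L.take t1 = P ++ Y0)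
    (hrest : ∀ s, t1 ≤ s → s ≤ L.length → dz L s ≤ 2 ^ (i + 3)) (him : i = b + m) {J : ℕ} (hJ : 6 < J)
    (hJn : ¬ In (2 ^ (i + J - 1)) (Y0 ++ L.drop t1)) : ¬ In (2 ^ (m + J - 2) * 2 ^ b) Y0 := by
  have hL : L = P ++ (Y0 ++ L.drop t1) := by
    conv_lhs => rw [← List.take_append_drop t1 L, hT, List.append_assoc]
  have hlen : t1 = P.length + Y0.length := by
    have h := congrArg List.length hT
    rw [List.length_take, List.length_append, min_eq_left ht] at h
    exact h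
  refine fun hin => hJn ?_
  rw [← pow_add, show m + J - 2 + b = i + J - 2 by omega] at hin
  have hdbl : 2 ^ (i + J - 1) = 2 ^ (i + J - 2) + 2 ^ (i + J - 2) := by
    rw [← two_mul, ← pow_succ']
    congr 1
    omega
  intro s hs
  rcases le_or_gt s Y0.length with h | h
  · rw [vx_append (by omega)]
    exact Bl_mono _ (by rw [hdbl]; exact Nat.le_add_right _ _) (hin s h)
  · obtain ⟨k, rfl⟩ : ∃ k, s = Y0.length + k := ⟨s - Y0.length, by omega⟩
    rw [List.length_append, List.length_drop] at hs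
    have h1 := hn_app P (Y0 ++ L.drop t1) (Y0.length + k) Y0.length
    rw [← hL, ← add_assoc, ← hlen] at h1
    have h2 := hn_dz L (t1 + k) t1
    have h3 := hrest (t1 + k) (by omega) (by omega)
    have h3' := hrest t1 le_rfl ht
    have h4 : TIW.hn (vx oo up (Y0 ++ L.drop t1) (Y0.length + k) - vx oo up (Y0 ++ L.drop t1) Y0.length) ≤
        ((2 ^ (i + J - 2) : ℕ) : ℤ) := by
      rw [← h1]
      have e1 : (2 : ℤ) ^ (i + 3) = 8 * 2 ^ i := by ring
      have e2 : (2 : ℤ) ^ i * 32 ≤ ((2 ^ (i + J - 2) : ℕ) : ℤ) := by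
        push_cast
        rw [show (32 : ℤ) = 2 ^ 5 by norm_num, ← pow_add]
        exact pow_le_pow_right₀ (by norm_num) (by omega)
      have e3 : (0 : ℤ) < 2 ^ i := by positivity
      linarith
    have h5 := Bl_of_hn h4
    have h6' := hin Y0.length le_rfl
    have h7 : vx oo up (Y0 ++ L.drop t1) Y0.length = vx oo up Y0 Y0.length := vx_append (by omega)
    rw [h7] at h5
    have h8 := Bl_add' h5 h6'
    rw [sub_add_cancel, ← hdbl] at h8
    exact h8

open Classical in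
/-- **case B** -/
theorem esL_B (hc : Cq l r i L t0 t1) (hri : r ≤ i) (hsa : L ∈ SA) (hd : Dt κ C b (L.take t1) X Z1 Z2 Z3 Y0)
    (hh : 1 ≤ h) (hη : η * Ub b ≤ (h : ℝ)) (h4 : 4 * h ≤ nc Z2) (hX : (X ++ Z1).length ≤ t0) (him : r = b + m)
    (hm : 6 ≤ m) (hC : 48 * C ≤ 2 ^ m) (hk : i + 7 ≤ b + k * (m - 6)) (hk2 : 2 ≤ k) :
    ∃ J, 6 ≤ J ∧ h ≤ nD (2 ^ (i + J + 1)) (RhoG κ η C b (i - b + J + 1) k) L := by
  obtain ⟨P, hP⟩ : ∃ P, P = X ++ (Z1 ++ (Z2 ++ Z3)) := ⟨_, rfl⟩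
  have hT : L.take t1 = P ++ Y0 := by
    rw [hd.eq, hP]
    simp only [List.append_assoc]
  obtain ⟨J, hJ1, hJ2, hJ3⟩ := ex_J i (Y0 ++ L.drop t1)
  have hlen : P.length + Y0.length = t1 := by
    have h := congrArg List.length hT
    rw [List.length_take, List.length_append, min_eq_left hc.le] at h
    exact h.symm
  have hr0 : (0 : ℤ) < 2 ^ r := by positivity
  have hCi : (48 * C : ℤ) * 2 ^ b ≤ 2 ^ r := by
    have h5 : 48 * C * 2 ^ b ≤ 2 ^ m * 2 ^ b := Nat.mul_le_mul_right _ hC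
    rw [← pow_add, show m + b = r by omega] at h5
    exact_mod_cast h5
  have hnf : ¬ In (2 ^ (m - 6) * 2 ^ b) Y0 := by
    rcases le_or_gt P.length t0 with h0 | h0
    · exact near_factor (s0 := t0) hc.le hT h0 hc.lt.le (by have := hc.far; linarith) hc.near him hm
    · refine near_factor (s0 := P.length) hc.le hT le_rfl (by omega) ?_ hc.near him hm
      have hL : L = X ++ ((Z1 ++ (Z2 ++ Z3)) ++ (Y0 ++ L.drop t1)) := by
        conv_lhs => rw [← List.take_append_drop t1 L, hT, hP]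
        simp only [List.append_assoc]
      have hXl : X.length ≤ (X ++ Z1).length := by
        rw [List.length_append]
        omega
      have h1 := hn_fac (A := X) (B := Y0 ++ L.drop t1) hd.inn (s := t0) (s' := P.length) (by omega) (by rw [← hP]; omega)
        (by rw [hP, List.length_append]; omega) (by rw [← hP])
      rw [← hL] at h1
      have h2 := dz_hn L t0 P.length
      have h3 := hc.far
      push_cast at h1
      linarith
  have hbig : ∃ n : ℕ, 2 ^ (i - b + J + 1) ≤ n ^ k ∧ ¬ In (n * 2 ^ b) Y0 := by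
    rcases Nat.eq_or_lt_of_le hJ1 with h6 | h6
    · refine ⟨2 ^ (m - 6), ?_, hnf⟩
      rw [← pow_mul]
      refine Nat.pow_le_pow_right (by norm_num) ?_
      have : (m - 6) * k = k * (m - 6) := mul_comm _ _
      omega
    · have hJn : ¬ In (2 ^ (i + J - 1)) (Y0 ++ L.drop t1) := by
        rcases hJ3 with h | h
        · omega
        · exact h
      refine ⟨2 ^ (i - b + J - 2), ?_, far_factor (P := P) hc.le hT
        (fun s h1 h2 => hc.rest s (lt_of_lt_of_le hc.lt h1) h2) (show i = b + (i - b) by omega) h6 hJn⟩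
      rw [← pow_mul]
      refine Nat.pow_le_pow_right (by norm_num) ?_
      have : (i - b + J - 2) * 2 ≤ (i - b + J - 2) * k := Nat.mul_le_mul_left _ hk2
      omega
  refine ⟨J, hJ1, ?_⟩
  obtain ⟨n, hn1, hn2⟩ := hbig
  have h1 := card_rank neW (Z := Z2) (lo := h) (hi := 2 * h) hh (by omega)
  have h2 : 2 * h - h = h := by omega
  rw [h2] at h1
  rw [← h1, ← card_image_of_injective _ (fun x y h => Nat.add_left_cancel h : Function.Injective fun c => (X ++ Z1).length + c)]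
  refine nD_ge fun q hq => ?_
  obtain ⟨c, hcm, rfl⟩ := mem_image.1 hq
  rw [mem_filter] at hcm
  obtain ⟨hc1, hc2, hc3⟩ := hcm
  obtain ⟨a1, a2, a3⟩ := mem_cz.1 hc1
  obtain ⟨f1, f2, f3⟩ := cut_Lq hd hc.le a1
  obtain ⟨g1, g2⟩ := hd.gt neW hη h4 hc1 hc2 (by omega)
  have hcl := hc.le
  refine ⟨by omega, ⟨by rw [f2]; exact g1, SA_drop hsa _, ?_, n, hn1, ?_⟩, ?_⟩
  · obtain ⟨-, -, e2⟩ := hd.cut a1
    have hh' : hgt (Z2.take c) + hgt (Z2.drop c) = hgt Z2 := by
      rw [← hgt_app a2 a3, List.take_append_drop]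
    have hs := rank_sum neW hc1
    have hZ2 := hd.h2
    rw [f3]
    refine neW.B η b _ Z3 _ a3 (by omega) hd.b3 hd.h3 (hη.trans ?_)
    have : h ≤ nc (Z2.drop c) := by omega
    exact_mod_cast this
  · rw [f3]
    exact ⟨Z2.drop c ++ Z3, Y0, L.drop t1, by simp only [List.append_assoc], hd.nz, hn2⟩
  · rw [f3, ← List.append_assoc]
    have hin1 : In (2 * (C * 2 ^ b)) (Z2.drop c ++ Z3) := by
      refine in_mid (X := Z1 ++ Z2.take c) (R := []) (BU_dx (BU_app hd.b1 a2)) ?_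
      have e : (Z1 ++ Z2.take c) ++ ((Z2.drop c ++ Z3) ++ []) = Z1 ++ (Z2 ++ Z3) := by
        rw [List.append_nil, List.append_assoc]
        conv_rhs => rw [← List.take_append_drop c Z2]
        simp only [List.append_assoc]
      rw [e]
      exact hd.inn
    refine in_mono (in_app (BU_dx (BU_app a3 hd.b3)) hin1 hJ2) ?_
    have h5 : 48 * C * 2 ^ b ≤ 2 ^ m * 2 ^ b := Nat.mul_le_mul_right _ hC
    rw [← pow_add, show m + b = r by omega] at h5
    have h6 : 2 ^ (i + J + 1) = 2 ^ (i + J) + 2 ^ (i + J) := by rw [pow_succ]; ring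
    have h7 : 2 ^ r ≤ 2 ^ (i + J) := Nat.pow_le_pow_right (by norm_num) (by omega)
    rw [mul_assoc] at h5
    rw [h6]
    generalize C * 2 ^ b = y at h5 ⊢
    omega

/-- **case C** -/
theorem esL_C (hc : Cq l r i L t0 t1) (hri : r + 1 ≤ i) (hN : L.take t1 ∈ Nz κ C b) (him : i = b + m) (hm : 7 ≤ m) :
    ∃ J, 6 ≤ J ∧ In (2 ^ (i + J)) L ∧ ∃ n : ℕ, 2 ^ (m + J) ≤ n * 2 ^ 13 ∧ L ∈ Lz κ C b n := by
  obtain ⟨J, hJ1, hJ2, hJ3⟩ := ex_J i L
  refine ⟨J, hJ1, hJ2, ?_⟩
  have hT : L.take t1 = [] ++ L.take t1 := by rw [List.nil_append]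
  have key : ∃ n : ℕ, 2 ^ (m + J) ≤ n * 2 ^ 13 ∧ ¬ In (n * 2 ^ b) (L.take t1) := by
    rcases Nat.eq_or_lt_of_le hJ1 with h6 | h6
    · obtain ⟨t, u1, u2⟩ := hc.tfar
      have e : (2 : ℤ) ^ i = 2 * 2 ^ (i - 1) := by
        rw [← pow_succ']
        congr 1
        omega
      have hp : (2 : ℤ) ^ r ≤ 2 ^ (i - 1) := pow_le_pow_right₀ (by norm_num) (by omega)
      have h0 : (0 : ℤ) < 2 ^ (i - 1) := by positivity
      have hne := hc.near
      refine ⟨2 ^ (m - 1 - 6), ?_, near_factor (r := i - 1) (m := m - 1) (s0 := t) hc.le hT (Nat.zero_le _)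
        (u1.trans hc.lt.le) (by linarith) (by linarith) (by omega) (by omega)⟩
      rw [← pow_add]
      exact Nat.pow_le_pow_right (by norm_num) (by omega)
    · have hJn : ¬ In (2 ^ (i + J - 1)) (L.take t1 ++ L.drop t1) := by
        rw [List.take_append_drop]
        rcases hJ3 with h | h
        · omega
        · exact h
      refine ⟨2 ^ (m + J - 2), ?_, far_factor (P := []) hc.le hT
        (fun s h1 h2 => hc.rest s (lt_of_lt_of_le hc.lt h1) h2) him h6 hJn⟩
      rw [← pow_add]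
      exact Nat.pow_le_pow_right (by norm_num) (by omega)
  obtain ⟨n, hn1, hn2⟩ := key
  exact ⟨n, hn1, [], L.take t1, L.drop t1, by rw [List.nil_append, List.take_append_drop], hN, hn2⟩

end ART

end HexObs
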