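import Pool.Agent.ART.EsP
import Pool.Agent.ART.EsWT
import Pool.Agent.ART.ExT
import Pool.Agent.ARM.EsSt

/-!
# ART, row E3 (helper89): `esTLw_of : TipT → LoopM → YBadG κ C → NoRichT κ C → HfLowT → EsTLw`

Extra strands at the top. Cases A (pairs of loops, `caseA_of`), B (`exT_of` with `YBadG`), C (`NoRichT`).
-/

set_option autoImplicit false

namespace HexObs

namespace ART

open Finset TS SDN _root_.HexObs.SIM NTA TIP TIP.Nf ARM

open scoped ENNReal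

variable {κ η : ℝ} {C b l r i m t0 t1 h k : ℕ} {L X Z1 Z2 Z3 Y0 : List Bool}

private lemma dz_z {L : List Bool} : dz L 0 = TIW.hn (TIW.en L) := by
  have h4 : vx oo up L 0 = 0 := rfl
  unfold dz
  rw [h4, zero_sub, TIW.hn_neg]

open Classical in
/-- **case A**, the positions of the cuts, with the good start of the last part -/
theorem esL_AS (hc : Cq l r i L t0 t1) (hri : r + 3 ≤ i) (hsa : L ∈ SA) (hd : Dt κ C b (L.take t1) X Z1 Z2 Z3 Y0) (hb : 1 ≤ b)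
    (hh : 1 ≤ h) (hη : η * Ub b ≤ (h : ℝ)) (h4 : 4 * h ≤ nc Z2) (hX : t0 < (X ++ Z1).length) :
    ∃ S : Finset ℕ, h ≤ S.card ∧ ∀ q ∈ S, q ≤ L.length ∧ CutE η (2 * C) b r (i - 3) (L.take q) (L.drop q) := by
  have h1 := card_rank neW (Z := Z2) (lo := h) (hi := 2 * h) hh (by omega)
  have h2 : 2 * h - h = h := by omega
  rw [h2] at h1
  refine ⟨_, le_of_eq (h1.symm.trans (card_image_of_injective _
    (fun x y h => Nat.add_left_cancel h : Function.Injective fun c => (X ++ Z1).length + c)).symm), fun q hq => ?_⟩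
  obtain ⟨c, hcm, rfl⟩ := mem_image.1 hq
  rw [mem_filter] at hcm
  obtain ⟨hc1, hc2, hc3⟩ := hcm
  obtain ⟨a1, a2, a3⟩ := mem_cz.1 hc1
  obtain ⟨f1, f2, f3⟩ := cut_Lq hd hc.le a1
  obtain ⟨g1, g2⟩ := hd.gt neW hη h4 hc1 hc2 (by omega)
  have hh' : hgt (Z2.take c) + hgt (Z2.drop c) = hgt Z2 := by
    rw [← hgt_app a2 a3, List.take_append_drop]
  have hs := rank_sum neW hc1
  have hZ2 := hd.h2
  obtain ⟨q, hqd⟩ : ∃ q, q = (X ++ Z1).length + c := ⟨_, rfl⟩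
  rw [← hqd] at f1 f2 f3 g1 ⊢
  have hqt : t0 < q := by omega
  have hqL : q ≤ L.length := by have := hc.le; omega
  have hz0 : dz (L.drop q) 0 = dz L q := by
    have := dz_drop L (le_refl q) hqL
    rwa [Nat.sub_self] at this
  have hup := hc.up q hqt f1.le
  have hr2 : (2 : ℤ) ^ r * 4 ≤ 2 ^ i := by
    calc (2 : ℤ) ^ r * 4 = 2 ^ (r + 2) := by ring
      _ ≤ 2 ^ i := pow_le_pow_right₀ (by norm_num) (by omega)
  have hr0 : (0 : ℤ) < 2 ^ r := by positivity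
  have hi3 : 8 * (2 : ℤ) ^ (i - 3) = 2 ^ i := by
    rw [show (8 : ℤ) = 2 ^ 3 by norm_num, ← pow_add]
    congr 1
    omega
  obtain ⟨a, b', v1, v2, v3, v4, v5⟩ := hc.vis
  refine ⟨hqL, by rw [f2]; exact g1, ⟨Z2.drop c ++ Z3, ?_, Y0 ++ L.drop t1, ?_, ?_⟩, SA_drop hsa _, ?_, ?_, ?_⟩
  · show (if b = 0 then _ else _)
    rw [if_neg (by omega)]
    refine ⟨Z2.drop c, Z3, rfl, a3, hd.b3, by omega, hd.h3, hη.trans ?_, ?_⟩
    · have : h ≤ nc (Z2.drop c) := by omega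
      exact_mod_cast this
    · rw [mul_assoc]
      refine in_mid (X := Z1 ++ Z2.take c) (R := []) (BU_dx (BU_app hd.b1 a2)) ?_
      have e : (Z1 ++ Z2.take c) ++ ((Z2.drop c ++ Z3) ++ []) = Z1 ++ (Z2 ++ Z3) := by
        rw [List.append_nil, List.append_assoc]
        conv_rhs => rw [← List.take_append_drop c Z2]
        simp only [List.append_assoc]
      rw [e]
      exact hd.inn
  · intro he
    have h5 := congrArg List.length he
    rw [List.length_append, List.length_drop, List.length_nil] at h5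
    omega
  · rw [f3]
    simp only [List.append_assoc]
  · rw [← dz_z, hz0]
    linarith
  · obtain ⟨t, u1, u2⟩ := hc.tfar
    refine ⟨t, ?_, ?_⟩
    · rw [List.length_take]
      omega
    · have h5 := dz_take hqL (show t ≤ q by omega)
      linarith
  · refine ⟨b' - q, ?_, ?_⟩
    · rw [List.length_drop]
      omega
    · rw [dz_drop L (by omega) (by omega)]
      have h6 : (0 : ℤ) < 2 ^ (i - 3) := by positivity
      linarith

open Classical in
/-- **row E3** -/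
theorem esTLw_of (hκ : 0 < κ) (hT : TipT) (hM : LoopM) (hY : YBadG κ C) (hN : NoRichT κ C) (hL : HfLowT) : EsTLw := by
  have hE := exT_of hT
  obtain ⟨η, hηd⟩ : ∃ η : ℝ, η = κ / 8 := ⟨_, rfl⟩
  have hη : 0 < η := by rw [hηd]; positivity
  obtain ⟨K1, B, b1, hK1, hB, hA⟩ := caseA_of hT hM (E := 2 * C) hη
  obtain ⟨G, hGd⟩ : ∃ G : ℝ, G = 64 * B := ⟨_, rfl⟩
  have hG : 1 ≤ G := by rw [hGd]; linarith
  obtain ⟨δ1, hδ1, hsm⟩ := Es.small_pow hG (show (0 : ℝ) < 1 / 20 by norm_num)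
  obtain ⟨δ, hδd⟩ : ∃ δ : ℝ, δ = min δ1 (1 / 100) := ⟨_, rfl⟩
  have hδ : 0 < δ := by rw [hδd]; exact lt_min hδ1 (by norm_num)
  have hδ1' : δ ≤ δ1 := by rw [hδd]; exact min_le_left _ _
  have hδ2 : δ ≤ 1 / 100 := by rw [hδd]; exact min_le_right _ _
  obtain ⟨k, hk2, hk7, hkδ⟩ : ∃ k : ℕ, 2 ≤ k ∧ 7 ≤ k ∧ 1 ≤ (k : ℝ) * δ := by
    obtain ⟨k, hk⟩ := exists_nat_ge (1 / δ)
    refine ⟨k + 7, by omega, by omega, ?_⟩
    rw [div_le_iff₀ hδ] at hk
    push_cast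
    nlinarith
  obtain ⟨J0, b2, hY⟩ := hY η 7 k hη
  obtain ⟨J2, b3, hN⟩ := hN 7 13
  obtain ⟨CB, hCB, hEB⟩ := hE η 1 hη
  obtain ⟨c0, hc0, hL⟩ := hL
  obtain ⟨m0, hm0⟩ : ∃ m0 : ℕ, m0 = 10 + 48 * C := ⟨_, rfl⟩
  obtain ⟨M1, hM1⟩ : ∃ M1 : ℕ, M1 = 2 * (m0 + J0 + J2 + 20) := ⟨_, rfl⟩
  obtain ⟨bU, hbU⟩ : ∃ bU : ℕ, ∀ b, bU ≤ b → 8 ≤ κ * Ub b := by
    obtain ⟨B, hB⟩ := Ub_big
    obtain ⟨n, hn⟩ := exists_nat_ge (8 / κ)
    refine ⟨B * n, fun b hb => ?_⟩
    have h1 := hB b n hb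
    have h2 : (n : ℝ) ≤ 8 ^ n := by
      exact_mod_cast (Nat.lt_pow_self (by norm_num : 1 < 8)).le
    have h3 : 8 / κ ≤ Ub b := hn.trans (h2.trans h1)
    rw [div_le_iff₀ hκ] at h3
    linarith
  obtain ⟨KA, hKA⟩ : ∃ KA : ℝ, KA = 8 / κ * K1 * (64 ^ 3 * 2 * (G ^ m0 * 2 ^ m0)) := ⟨_, rfl⟩
  obtain ⟨KB, hKB⟩ : ∃ KB : ℝ, KB = CB * (2048 / κ) := ⟨_, rfl⟩
  obtain ⟨KT, hKT⟩ : ∃ KT : ℝ, KT = 2 ^ (123 / 24 : ℝ) * 2 ^ M1 := ⟨_, rfl⟩
  have hB0 : 0 < B := by linarith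
  have hG0 : 0 < G := by linarith
  have hKA0 : 0 < KA := by rw [hKA]; positivity
  have hKB0 : 0 < KB := by rw [hKB]; positivity
  have hKT0 : 0 < KT := by rw [hKT]; positivity
  refine ⟨KA + 2 * KB + 2 / c0 + KT, b1 + b2 + b3 + bU + 1, by positivity, fun D n l i hD hF hl hli => ?_⟩
  obtain ⟨s, hs⟩ : ∃ s : ℝ, s = (i : ℝ) - l := ⟨_, rfl⟩
  have hs' : s = ((i - l : ℕ) : ℝ) := by rw [hs, Nat.cast_sub hli]
  have hs0 : 0 ≤ s := by rw [hs']; positivity
  obtain ⟨W, hW⟩ : ∃ W : ℝ, W = (2 : ℝ) ^ (-(1 / 100 : ℝ) * s) := ⟨_, rfl⟩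
  have hW0 : 0 < W := by rw [hW]; positivity
  have hp := prT_pos n l
  rw [← hs, ← hW]
  -- small distance of the levels
  rcases Nat.lt_or_ge i (l + M1) with hil | hil
  · refine (gf_mono fun L hL => hL.1).trans ((FTp_mass hD hF (by omega)).trans (ENNReal.ofReal_le_ofReal ?_))
    have hW1 : 1 ≤ 2 ^ M1 * W := by
      have hu2 : s ≤ M1 := by
        rw [hs']
        have : i - l ≤ M1 := by omega
        exact_mod_cast this
      rw [hW, ← Real.rpow_natCast (2 : ℝ) M1, ← Real.rpow_add (by norm_num)]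
      refine Real.one_le_rpow (by norm_num) ?_
      have : (0 : ℝ) ≤ M1 := Nat.cast_nonneg _
      linarith
    calc (2 : ℝ) ^ (123 / 24 : ℝ) * D * prT n l ≤ (2 : ℝ) ^ (123 / 24 : ℝ) * D * prT n l * (2 ^ M1 * W) :=
          le_mul_of_one_le_right (by positivity) hW1
      _ = KT * D * W * prT n l := by rw [hKT]; ring
      _ ≤ (KA + 2 * KB + 2 / c0 + KT) * D * W * prT n l := by
        have : 0 ≤ KA + 2 * KB + 2 / c0 := by positivity
        gcongr
        linarith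
  -- the scale of the cuts
  obtain ⟨m, hm⟩ : ∃ m : ℕ, m = ⌊δ * s⌋₊ + m0 := ⟨_, rfl⟩
  have hfl1 : (⌊δ * s⌋₊ : ℝ) ≤ δ * s := Nat.floor_le (by positivity)
  have hfl2 := Nat.lt_floor_add_one (δ * s)
  have hmr : (m : ℝ) = (⌊δ * s⌋₊ : ℝ) + m0 := by
    rw [hm]
    push_cast
    ring
  have hm0r : (m0 : ℝ) = 10 + 48 * C := by
    rw [hm0]
    push_cast
    ring
  have hm6 : 6 ≤ m := by omega
  have hmC : 48 * C ≤ 2 ^ m := by
    have h1 : 48 * C ≤ m := by omega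
    exact h1.trans Nat.lt_two_pow_self.le
  have hfl3 : ⌊δ * s⌋₊ * 2 ≤ i - l := by
    have h1 : (⌊δ * s⌋₊ : ℝ) * 2 ≤ ((i - l : ℕ) : ℝ) := by
      rw [← hs']
      nlinarith
    exact_mod_cast h1
  obtain ⟨r, hr⟩ : ∃ r, r = l + m := ⟨_, rfl⟩
  have hri : r + 2 + 3 ≤ i := by omega
  have hkm : i + 7 ≤ l + k * (m - 6) := by
    have h1 : ((i - l : ℕ) : ℝ) + 7 ≤ ((k * (m - 6) : ℕ) : ℝ) := by
      rw [Nat.cast_mul, Nat.cast_sub hm6, ← hs']
      have h2 : δ * s + 3 ≤ (m : ℝ) - 6 := by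
        have : (0 : ℝ) ≤ 48 * C := by positivity
        linarith
      have h3 : (7 : ℝ) ≤ k := by exact_mod_cast hk7
      have h4 : (k : ℝ) * (δ * s + 3) ≤ k * ((m : ℝ) - 6) := mul_le_mul_of_nonneg_left h2 (by positivity)
      have h5 : s ≤ (k : ℝ) * δ * s := le_mul_of_one_le_left hs0 hkδ
      push_cast
      nlinarith
    have h2 : i - l + 7 ≤ k * (m - 6) := by exact_mod_cast h1
    omega
  have h8 := hbU l (by omega)
  have hU := Ub_pos l
  have hFi : HT D n i := hF.mono le_rfl hli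
  -- the numbers
  obtain ⟨h, hh⟩ : ∃ h : ℕ, h = ⌈κ * Ub l / 8⌉₊ := ⟨_, rfl⟩
  have hh1 : 1 ≤ h := by
    rw [hh, Nat.one_le_iff_ne_zero, Nat.ne_zero_iff_zero_lt, Nat.ceil_pos]
    positivity
  have hq : κ * Ub l / 8 ≤ (h : ℝ) := by
    rw [hh]
    exact Nat.le_ceil _
  have hh2 : (h : ℝ) < κ * Ub l / 8 + 1 := by
    rw [hh]
    exact Nat.ceil_lt_add_one (by positivity)
  have hηh : η * Ub l ≤ (h : ℝ) := by
    rw [hηd]
    calc κ / 8 * Ub l = κ * Ub l / 8 := by ring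
      _ ≤ h := hq
  have hq0 : 0 < κ * Ub l / 8 := by positivity
  -- the events
  obtain ⟨EA, hEAd⟩ : ∃ EA : Set (List Bool), EA = {L | L ∈ FTp n l ∧ ∃ S : Finset ℕ,
    ENNReal.ofReal (κ * Ub l / 8) ≤ (S.card : ℝ≥0∞) ∧ ∀ k ∈ S, k ≤ L.length ∧
      CutE η (2 * C) l r (i - 3) (L.take k) (L.drop k)} := ⟨_, rfl⟩
  obtain ⟨EB, hEBd⟩ : ∃ EB : ℕ → Set (List Bool), EB = fun J => {L | L ∈ FTp n l ∧ κ * Ub l / 8 ≤
    (nD (2 ^ (i + J + 1)) (RhoG κ η C l (i - l + J + 1) k) L : ℝ)} := ⟨_, rfl⟩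
  obtain ⟨EC, hECd⟩ : ∃ EC : ℕ → Set (List Bool), EC = fun J => {L | L ∈ SA ∧ n ≤ L.length ∧ In (2 ^ (l + (i - l + J))) L ∧
    ∃ N : ℕ, 2 ^ (i - l + J) ≤ N * 2 ^ 13 ∧ L ∈ Lz κ C l N} := ⟨_, rfl⟩
  have hcov : {L | L ∈ FTp n l ∧ L ∈ ESw l i} ⊆ EA ∪ ((⋃ J, EB J) ∪ ⋃ J, EC J) := by
    rintro L ⟨hLF, hLe⟩
    obtain ⟨t0, t1, hc⟩ := cq_of (r := r) (by omega) (by omega) hLe
    have hsa : L ∈ SA := hLF.1
    by_cases hNz : L.take t1 ∈ Nz κ C l
    · obtain ⟨J, -, hJ1, hJ2⟩ := esL_C hc (by omega) hNz (m := i - l) (by omega) (by omega)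
      refine Or.inr (Or.inr (Set.mem_iUnion.2 ⟨J, ?_⟩))
      rw [hECd]
      refine ⟨hsa, hLF.2.1, ?_, hJ2⟩
      rw [show l + (i - l + J) = i + J by omega]
      exact hJ1
    · obtain ⟨X, Z1, Z2, Z3, Y0, hd⟩ := dt_of neW (SA_take hsa t1) hNz
      have h4 : 4 * h ≤ nc Z2 := by
        have h5 : (4 : ℝ) * h ≤ nc Z2 := by
          have := hd.n2
          linarith
        exact_mod_cast h5
      rcases Nat.lt_or_ge t0 (X ++ Z1).length with hX | hX
      · refine Or.inl ?_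
        rw [hEAd]
        obtain ⟨S, hS1, hS2⟩ := esL_AS hc (by omega) hsa hd (by omega) hh1 hηh h4 hX
        refine ⟨hLF, S, ?_, hS2⟩
        rw [← ENNReal.ofReal_natCast]
        refine ENNReal.ofReal_le_ofReal (hq.trans ?_)
        exact_mod_cast hS1
      · obtain ⟨J, -, hJ⟩ := esL_B (k := k) hc (by omega) hsa hd hh1 hηh h4 hX hr hm6 hmC hkm hk2
        refine Or.inr (Or.inl (Set.mem_iUnion.2 ⟨J, ?_⟩))
        rw [hEBd]
        refine ⟨hLF, hq.trans ?_⟩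
        exact_mod_cast hJ
  have hlev : prT n i ≤ (2 : ℝ) ^ ((123 / 24 : ℝ) * s) * prT n l := by
    rw [hs]
    exact prT_lev n hli
  have hpi := prT_pos n i
  -- case A
  have hA' : gf EA ≤ ENNReal.ofReal (KA * D * W * prT n l) := by
    have h1 := hA D n l (i - 3) l r hD hF (by omega) (by omega) le_rfl (by omega) (by omega) EA
      (ENNReal.ofReal (κ * Ub l / 8)) (fun L hL => by rw [hEAd] at hL; exact hL)
    have hpr := prT_pos n (r + 3)
    obtain ⟨w, hw⟩ : ∃ w : ℝ, w = B ^ (r - l) * (2 : ℝ) ^ (-(1 / 8 : ℝ) * (((i - 3 : ℕ) : ℝ) - r)) := ⟨_, rfl⟩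
    have hw0 : 0 < w := by rw [hw]; positivity
    rw [← hw] at h1
    have h2 : ENNReal.ofReal (K1 * D * prT n (r + 3) * (w * Ub l)) * Xb l =
        ENNReal.ofReal (K1 * D * prT n (r + 3)) * (ENNReal.ofReal (w * Ub l) * Xb l) := by
      rw [ENNReal.ofReal_mul (by positivity : (0 : ℝ) ≤ K1 * D * prT n (r + 3)), mul_assoc]
    rw [h2] at h1
    refine (cancelF hq0 (by positivity) h1).trans (ENNReal.ofReal_le_ofReal ?_)
    have hUne : Ub l ≠ 0 := hU.ne'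
    have hpr3 : prT n (r + 3) ≤ 64 ^ (m + 3) * prT n l := by
      rw [hr, show l + m + 3 = l + (m + 3) by omega]
      exact prT_up64 n l (m + 3)
    have hw2 : w ≤ B ^ m * (2 * 2 ^ m0 * (2 : ℝ) ^ ((1 / 100 - 1 / 8 : ℝ) * s)) := by
      rw [hw, show r - l = m by omega]
      refine mul_le_mul_of_nonneg_left ?_ (by positivity)
      have e1 : (2 : ℝ) * 2 ^ m0 * (2 : ℝ) ^ ((1 / 100 - 1 / 8 : ℝ) * s) = (2 : ℝ) ^ (1 + (m0 : ℝ) + (1 / 100 - 1 / 8 : ℝ) * s) := by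
        rw [Real.rpow_add (by norm_num), Real.rpow_add (by norm_num), Real.rpow_one, Real.rpow_natCast]
      rw [e1]
      refine Real.rpow_le_rpow_of_exponent_le (by norm_num) ?_
      rw [Nat.cast_sub (by omega), hr]
      push_cast
      have h3 : (i : ℝ) = l + s := by rw [hs]; ring
      rw [h3, hmr]
      have h4 : (⌊δ * s⌋₊ : ℝ) ≤ 1 / 100 * s := hfl1.trans (mul_le_mul_of_nonneg_right hδ2 hs0)
      have h5 : (0 : ℝ) ≤ m0 := Nat.cast_nonneg _
      nlinarith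
    have hGm : G ^ m ≤ G ^ m0 * (2 : ℝ) ^ (1 / 20 * s) := by
      rw [hm, pow_add, mul_comm]
      exact mul_le_mul_of_nonneg_left (hsm δ hδ.le hδ1' s hs0) (by positivity)
    have hGm' : (64 : ℝ) ^ m * B ^ m = G ^ m := by rw [hGd, mul_pow]
    calc K1 * D * prT n (r + 3) * (w * Ub l) / (κ * Ub l / 8)
        = 8 / κ * K1 * D * prT n (r + 3) * w := by
          field_simp
      _ ≤ 8 / κ * K1 * D * (64 ^ (m + 3) * prT n l) * (B ^ m * (2 * 2 ^ m0 * (2 : ℝ) ^ ((1 / 100 - 1 / 8 : ℝ) * s))) := by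
          gcongr
      _ = 8 / κ * K1 * (64 ^ 3 * 2 * ((64 ^ m * B ^ m) * 2 ^ m0)) * D * (2 : ℝ) ^ ((1 / 100 - 1 / 8 : ℝ) * s) * prT n l := by
          rw [pow_add]
          ring
      _ ≤ 8 / κ * K1 * (64 ^ 3 * 2 * ((G ^ m0 * (2 : ℝ) ^ (1 / 20 * s)) * 2 ^ m0)) * D *
          (2 : ℝ) ^ ((1 / 100 - 1 / 8 : ℝ) * s) * prT n l := by
          rw [hGm']
          gcongr
      _ = KA * D * ((2 : ℝ) ^ (1 / 20 * s) * (2 : ℝ) ^ ((1 / 100 - 1 / 8 : ℝ) * s)) * prT n l := by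
          rw [hKA]
          ring
      _ ≤ KA * D * W * prT n l := by
          have h9 : (2 : ℝ) ^ (1 / 20 * s) * (2 : ℝ) ^ ((1 / 100 - 1 / 8 : ℝ) * s) ≤ W := by
            rw [hW, ← Real.rpow_add (by norm_num)]
            refine Real.rpow_le_rpow_of_exponent_le (by norm_num) ?_
            nlinarith
          gcongr
  -- the loss of the distance of the levels
  have hprJ : ∀ J : ℕ, prT n (i + J) / 2 ^ (7 * (i - l + J)) ≤ W * prT n l * (1 / 2) ^ J := by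
    intro J
    rw [div_le_iff₀ (by positivity)]
    have h16 : (64 : ℝ) ^ J = (1 / 2) ^ J * 2 ^ (7 * J) := by
      rw [pow_mul, ← mul_pow]
      norm_num
    have hWlow : (2 : ℝ) ^ ((123 / 24 : ℝ) * s) ≤ W * 2 ^ (7 * (i - l)) := by
      rw [hW, ← Real.rpow_natCast (2 : ℝ) (7 * (i - l)), ← Real.rpow_add (by norm_num)]
      refine Real.rpow_le_rpow_of_exponent_le (by norm_num) ?_
      push_cast
      rw [← hs']
      nlinarith
    calc prT n (i + J) ≤ 64 ^ J * prT n i := prT_up64 n i J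
      _ ≤ ((1 / 2) ^ J * 2 ^ (7 * J)) * ((2 : ℝ) ^ ((123 / 24 : ℝ) * s) * prT n l) :=
        mul_le_mul h16.le hlev hpi.le (by positivity)
      _ ≤ ((1 / 2) ^ J * 2 ^ (7 * J)) * ((W * 2 ^ (7 * (i - l))) * prT n l) := by gcongr
      _ = _ := by
        rw [mul_add, pow_add]
        ring
  -- case B
  have hBc : ∀ J, gf (EB J) ≤ ENNReal.ofReal ((KB * D * W * prT n l) * (1 / 2) ^ J) := by
    intro J
    have hFJ : HT D n (i + J) := hF.mono le_rfl (by omega)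
    have h1 := hEB D n l (i + J) l hD hFJ (by omega) (by omega) (RhoG κ η C l (i - l + J + 1) k)
      (ENNReal.ofReal (256 * (Ub l / 2 ^ (7 * (i - l + J + 1)))) * Xb l) (κ * Ub l / 8) (fun A Y h => h.1) (fun A => ?_) hq0
    · have h2 : gf (EB J) * (ENNReal.ofReal (κ * Ub l / 8) * Xb l) ≤ ENNReal.ofReal (CB * D * prT n (i + J)) *
          (ENNReal.ofReal (256 * (Ub l / 2 ^ (7 * (i - l + J + 1)))) * Xb l) := by
        rw [hEBd]
        exact h1
      have hpJ := prT_pos n (i + J)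
      refine (cancelF hq0 (by positivity) h2).trans (ENNReal.ofReal_le_ofReal ?_)
      have h3 : (0 : ℝ) < 2 ^ (7 * (i - l + J)) := by positivity
      have h4 : (2 : ℝ) ^ (7 * (i - l + J)) ≤ 2 ^ (7 * (i - l + J + 1)) :=
        pow_le_pow_right₀ (by norm_num) (by omega)
      calc CB * D * prT n (i + J) * (256 * (Ub l / 2 ^ (7 * (i - l + J + 1)))) / (κ * Ub l / 8)
          = CB * (2048 / κ) * D * (prT n (i + J) / 2 ^ (7 * (i - l + J + 1))) := by
            field_simp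
            ring
        _ ≤ CB * (2048 / κ) * D * (prT n (i + J) / 2 ^ (7 * (i - l + J))) := by gcongr
        _ ≤ CB * (2048 / κ) * D * (W * prT n l * (1 / 2) ^ J) := by
          have := hprJ J
          gcongr
        _ = _ := by rw [hKB]; ring
    · have h2 := hY l (i - l + J + 1) (n - A.length) (by omega) (by omega)
      rw [show l + (i - l + J + 1) = i + J + 1 by omega] at h2
      refine (gf_mono ?_).trans (h2.trans ?_)
      · rintro Y ⟨⟨-, r2, r3, r4⟩, r5, r6⟩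
        obtain ⟨g1, g2⟩ := len_ap r6
        exact ⟨r2, r3, r5, by omega, r4⟩
      · rw [mul_right_comm, ← ENNReal.ofReal_mul (by positivity)]
        refine mul_le_mul' (ENNReal.ofReal_le_ofReal ?_) le_rfl
        have h3 := Es.wt_up (n - A.length) (i + J)
        unfold ARM.wt
        calc Ub l / 2 ^ (7 * (i - l + J + 1)) * (1 + ((n - A.length : ℕ) : ℝ) / ml (i + J + 1)) ^ (-(4 : ℝ))
            ≤ Ub l / 2 ^ (7 * (i - l + J + 1)) * (256 * (1 + ((n - A.length : ℕ) : ℝ) / ml (i + J)) ^ (-(4 : ℝ))) := by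
              gcongr
          _ = _ := by ring
  -- case C
  have hCc : ∀ J, gf (EC J) ≤ ENNReal.ofReal ((1 / c0 * D * W * prT n l) * (1 / 2) ^ J) := by
    intro J
    rw [hECd]
    refine (hN l (i - l + J) n (by omega) (by omega)).trans (ENNReal.ofReal_le_ofReal ?_)
    rw [show l + (i - l + J) = i + J by omega]
    have h1 := hL D n l hD hF
    have h2 : 1 ≤ 1 / c0 * D := by
      rw [one_div, inv_mul_eq_div, le_div_iff₀ hc0, one_mul]
      exact h1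
    calc prT n (i + J) / 2 ^ (7 * (i - l + J)) ≤ W * prT n l * (1 / 2) ^ J := hprJ J
      _ ≤ W * prT n l * (1 / 2) ^ J * (1 / c0 * D) := le_mul_of_one_le_right (by positivity) h2
      _ = _ := by ring
  -- the sum
  refine (gf_mono hcov).trans ((gf_union_le _ _).trans ?_)
  have hsum : ENNReal.ofReal ((KA + 2 * KB + 2 / c0 + KT) * D * W * prT n l) =
      ENNReal.ofReal (KA * D * W * prT n l) + ((ENNReal.ofReal (2 * (KB * D * W * prT n l)) +
        ENNReal.ofReal (2 * (1 / c0 * D * W * prT n l))) + ENNReal.ofReal (KT * D * W * prT n l)) := by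
    rw [← ENNReal.ofReal_add (by positivity) (by positivity), ← ENNReal.ofReal_add (by positivity) (by positivity),
      ← ENNReal.ofReal_add (by positivity) (by positivity)]
    congr 1
    ring
  rw [hsum]
  refine add_le_add hA' (le_trans ?_ (le_add_of_nonneg_right zero_le))
  refine (gf_union_le _ _).trans (add_le_add ?_ ?_)
  · refine (Crw.gf_iUnion_le _).trans ((ENNReal.tsum_le_tsum hBc).trans ?_)
    rw [Es.tsum_half (by positivity)]
  · refine (Crw.gf_iUnion_le _).trans ((ENNReal.tsum_le_tsum hCc).trans ?_)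
    rw [Es.tsum_half (by positivity)]

end ART

end HexObs
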