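import Pool.Agent.ART.EsDefs2
import Pool.Agent.ART.Tc
import Pool.Agent.ARM.NoRich
import Pool.Agent.ARM.T2Nb

/-!
# ART, row E4 (helper63): **`esTL2_of`**, the assembly of `EsTL2`

`r = l + (i - l) / q + m1`; case A (EsP2A), case B (EsP2B, sum over J), case C (YBadG2, sum over J).
-/

set_option autoImplicit false

namespace HexObs

namespace ART

open Finset TS SDN HexObs.SIM NTA TIP ARM

open ARM.T2 (mem_GS mem_GE)

open scoped ENNReal

lemma twoG_anti {η η' : ℝ} {E b : ℕ} (hb : b ≠ 0) (h : η' ≤ η) : TwoG η E b ⊆ TwoG η' E b := by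
  rintro L ⟨S, hS, R, T, hT, e⟩
  have hU := mul_le_mul_of_nonneg_right h (Ub_pos b).le
  obtain ⟨N, N3, e1, e2, e3, e4, e5, e6, e7⟩ := (mem_GS hb).1 hS
  obtain ⟨M, M3, f1, f2, f3, f4, f5, f6, f7⟩ := (mem_GE hb).1 hT
  exact ⟨S, (mem_GS hb).2 ⟨N, N3, e1, e2, e3, e4, e5, hU.trans e6, e7⟩, R, T,
    (mem_GE hb).2 ⟨M, M3, f1, f2, f3, f4, f5, hU.trans f6, f7⟩, e⟩

/-- the number h of the cuts -/
lemma cut_h {κ : ℝ} (hκ : 0 < κ) : ∃ b0 : ℕ, ∀ b, b0 ≤ b → ∃ h : ℕ, 1 ≤ h ∧ κ / 8 * Ub b ≤ (h : ℝ) ∧ 4 * (h : ℝ) ≤ κ * Ub b := by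
  obtain ⟨B, hB⟩ := Ub_big
  obtain ⟨n, hn⟩ := exists_nat_ge (8 / κ)
  refine ⟨B * n, fun b hb => ?_⟩
  have hU := Ub_pos b
  have h1 := hB b n hb
  have h2 : (n : ℝ) ≤ 8 ^ n := by
    exact_mod_cast (Nat.lt_pow_self (by norm_num : 1 < 8)).le
  have h3 : 8 / κ ≤ Ub b := hn.trans (h2.trans h1)
  rw [div_le_iff₀ hκ] at h3
  refine ⟨⌈κ / 8 * Ub b⌉₊, Nat.one_le_ceil_iff.2 (by positivity), Nat.le_ceil _, ?_⟩
  have h4 : (⌈κ / 8 * Ub b⌉₊ : ℝ) < κ / 8 * Ub b + 1 := Nat.ceil_lt_add_one (by positivity)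
  linarith

/-- the trivial bound -/
lemma two_triv (hT : TipT2s) {η : ℝ} (hη : 0 < η) (E : ℕ) : ∃ C : ℝ, 0 < C ∧ ∀ (D : ℝ) (n b l : ℕ), 0 ≤ D → HT D n l →
    1 ≤ b → b ≤ l → gf {L | L ∈ FTp n l ∧ L ∈ TwoG η E b} * Xb b ^ 2 ≤ ENNReal.ofReal (C * D * prT n l) := by
  obtain ⟨C, hC, h⟩ := hT η E hη
  refine ⟨C * 64, by positivity, fun D n b l hD hH hb hbl => ?_⟩
  have h1 := h D n (l + 1) b hD (hH.mono le_rfl (by omega)) (by omega)
  refine (mul_le_mul' (gf_mono ?_) le_rfl).trans (h1.trans (ENNReal.ofReal_le_ofReal ?_))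
  · rintro L ⟨h2, h3⟩
    exact ⟨FTp_sub_FT (by omega) h2, h3⟩
  · have h2 := prT_up64 n l 1
    rw [pow_one] at h2
    calc C * D * prT n (l + 1) ≤ C * D * (64 * prT n l) := by gcongr
      _ = _ := by ring

/-- the numbers of the case C -/
lemma numC {n b K l : ℕ} (hbK : b ≤ K) (hlK : l ≤ K) :
    (2 : ℝ) ^ ((43 / 24 : ℝ) * (b : ℝ)) * (1 + (n : ℝ) / ml K) ^ (-(4 : ℝ)) ≤ 64 ^ (K - l) * prT n l := by
  have hm := ml_pos K
  have hmax : 0 < max (n : ℝ) (ml K) := lt_max_of_lt_right hm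
  obtain ⟨x, hx⟩ : ∃ x : ℝ, x = ml K / max (n : ℝ) (ml K) := ⟨_, rfl⟩
  have hx0 : 0 < x := by rw [hx]; positivity
  have hx1 : x ≤ 1 := by
    rw [hx, div_le_one hmax]
    exact le_max_right _ _
  have h1 : (1 + (n : ℝ) / ml K)⁻¹ ≤ x := by
    rw [hx, inv_eq_one_div, div_le_div_iff₀ (by positivity) hmax, one_mul]
    have e : ml K * (1 + (n : ℝ) / ml K) = ml K + n := by
      field_simp
    rw [e]
    refine max_le ?_ ?_
    · linarith
    · have : (0 : ℝ) ≤ n := Nat.cast_nonneg n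
      linarith
  have h2 : (1 + (n : ℝ) / ml K) ^ (-(4 : ℝ)) ≤ x ^ (5 / 2 : ℝ) := by
    have h3 : (0 : ℝ) < 1 + (n : ℝ) / ml K := by positivity
    rw [Real.rpow_neg h3.le, ← Real.inv_rpow h3.le]
    calc ((1 + (n : ℝ) / ml K)⁻¹) ^ (4 : ℝ) ≤ x ^ (4 : ℝ) := Real.rpow_le_rpow (by positivity) h1 (by norm_num)
      _ ≤ x ^ (5 / 2 : ℝ) := Real.rpow_le_rpow_of_exponent_ge hx0 hx1 (by norm_num)
  have h3 : (2 : ℝ) ^ ((43 / 24 : ℝ) * (b : ℝ)) ≤ (2 : ℝ) ^ ((43 / 24 : ℝ) * (K : ℝ)) := by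
    refine Real.rpow_le_rpow_of_exponent_le (by norm_num) ?_
    have : (b : ℝ) ≤ K := by exact_mod_cast hbK
    linarith
  calc (2 : ℝ) ^ ((43 / 24 : ℝ) * (b : ℝ)) * (1 + (n : ℝ) / ml K) ^ (-(4 : ℝ))
      ≤ (2 : ℝ) ^ ((43 / 24 : ℝ) * (K : ℝ)) * x ^ (5 / 2 : ℝ) := by gcongr
    _ = prT n K := by rw [hx]; rfl
    _ ≤ _ := by
      obtain ⟨d, rfl⟩ : ∃ d, K = l + d := ⟨K - l, by omega⟩
      rw [Nat.add_sub_cancel_left]
      exact prT_up64 n l d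

/-- **row E4** -/
theorem esTL2_of {κ : ℝ} {C : ℕ} (hκ : 0 < κ) (hW : EsW2 κ C) (hT : TipT2s) (hA : EsP2A) (hB : EsP2B κ C)
    (hY : YBadG2 κ C) (hL : HfLowT) : EsTL2 := by
  intro η0 E hη0
  obtain ⟨η, hηd⟩ : ∃ η : ℝ, η = min η0 (κ / 8) := ⟨_, rfl⟩
  have hη : 0 < η := by rw [hηd]; exact lt_min hη0 (by positivity)
  have hη1 : η ≤ η0 := by rw [hηd]; exact min_le_left _ _
  have hη2 : η ≤ κ / 8 := by rw [hηd]; exact min_le_right _ _
  obtain ⟨CT, hCT, htriv⟩ := two_triv hT hη E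
  obtain ⟨CA, BA, bA, hCA, hBA, hA⟩ := hA η (E + 2 * C) hη
  -- the number q
  obtain ⟨q0, hq0⟩ := pow_unbounded_of_one_lt (2 * BA) (one_lt_two (α := ℝ))
  obtain ⟨q, hq⟩ : ∃ q, q = 16 * (q0 + 1) := ⟨_, rfl⟩
  have hq16 : 16 ≤ q := by omega
  have hBq : 2 * BA ≤ (2 : ℝ) ^ ((q : ℝ) / 16) := by
    have e : (q : ℝ) / 16 = ((q0 + 1 : ℕ) : ℝ) := by
      rw [hq]
      push_cast
      ring
    rw [e, Real.rpow_natCast]
    exact hq0.le.trans (pow_le_pow_right₀ (by norm_num) (by omega))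
  obtain ⟨CB, JB, bB, hCB, hB⟩ := hB η (E + 2 * C) 1 q hη
  obtain ⟨JY, bY, hY⟩ := hY η E 7 q hη
  obtain ⟨m0, hW⟩ := hW E q (by omega)
  obtain ⟨C3, hC3, hF⟩ := NPR.Fast.FK_up
  obtain ⟨c0, hc0, hL⟩ := hL
  obtain ⟨bh, hbh⟩ := cut_h hκ
  obtain ⟨m1, hm1⟩ : ∃ m1, m1 = m0 + 16 := ⟨_, rfl⟩
  obtain ⟨M, hM⟩ : ∃ M, M = 2 * (m1 + 5) + JB + JY := ⟨_, rfl⟩
  obtain ⟨KA, hKA⟩ : ∃ KA : ℝ, KA = 8 / κ * CA * BA ^ m1 * 2 ^ ((m1 : ℝ) / 8) := ⟨_, rfl⟩
  obtain ⟨K0, hK0⟩ : ∃ K0 : ℝ, K0 = CT * 2 ^ ((M : ℝ) / 100) := ⟨_, rfl⟩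
  obtain ⟨KB, hKB⟩ : ∃ KB : ℝ, KB = 2 * (8 / κ * CB) := ⟨_, rfl⟩
  obtain ⟨KC, hKC⟩ : ∃ KC : ℝ, KC = 2 * (C3 / c0) := ⟨_, rfl⟩
  have hBA0 : 0 < BA := by linarith
  have hKA0 : 0 < KA := by rw [hKA]; positivity
  have hK00 : 0 < K0 := by rw [hK0]; positivity
  have hKB0 : 0 < KB := by rw [hKB]; positivity
  have hKC0 : 0 < KC := by rw [hKC]; positivity
  refine ⟨K0 + (KA + KB + KC), BA, bA + bB + bY + bh + 1, by positivity, hBA, fun D n b l i hD hH hb hbl hli => ?_⟩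
  have hb0 : b ≠ 0 := by omega
  have hU := Ub_pos b
  have hp0 := prT_pos n l
  have hBl : 1 ≤ BA ^ (l - b) := one_le_pow₀ hBA
  obtain ⟨δ, hδ⟩ : ∃ δ, i = l + δ := ⟨i - l, by omega⟩
  have hδr : (i : ℝ) - l = δ := by
    rw [hδ]
    push_cast
    ring
  rw [hδr]
  obtain ⟨y, hy⟩ : ∃ y : ℝ, y = (2 : ℝ) ^ (-(1 / 100 : ℝ) * (δ : ℝ)) := ⟨_, rfl⟩
  have hy0 : 0 < y := by rw [hy]; positivity
  have hδ0 : (0 : ℝ) ≤ δ := Nat.cast_nonneg δ
  rw [← hy]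
  have hD0 : c0 ≤ D := hL D n l hD hH
  have hsub0 : {L | L ∈ FTp n l ∧ L ∈ TwoG η0 E b ∧ L ∈ ESw l i} ⊆ {L | L ∈ FTp n l ∧ L ∈ TwoG η E b} := by
    rintro L ⟨h1, h2, -⟩
    exact ⟨h1, twoG_anti hb0 hη1 h2⟩
  rcases Nat.lt_or_ge δ M with hs | hs
  · -- the difference of the levels is bounded
    refine (mul_le_mul' (gf_mono hsub0) le_rfl).trans ((htriv D n b l hD hH (by omega) hbl).trans
      (ENNReal.ofReal_le_ofReal ?_))
    have h1 : 1 ≤ 2 ^ ((M : ℝ) / 100) * y := by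
      rw [hy, ← Real.rpow_add (by norm_num)]
      refine Real.one_le_rpow (by norm_num) ?_
      have h2 : (δ : ℝ) ≤ (M : ℝ) := by exact_mod_cast hs.le
      linarith
    have h2 : CT ≤ K0 * y := by
      rw [hK0]
      nlinarith
    calc CT * D * prT n l ≤ (K0 * y) * D * prT n l := by gcongr
      _ = K0 * 1 * D * y * prT n l := by ring
      _ ≤ (K0 + (KA + KB + KC)) * BA ^ (l - b) * D * y * prT n l := by
        gcongr
        linarith
  -- the main case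
  obtain ⟨h, hh1, hh2, hh3⟩ := hbh b (by omega)
  have hh0 : (0 : ℝ) < h := by exact_mod_cast hh1
  obtain ⟨s, hsd⟩ : ∃ s, s = δ / q := ⟨_, rfl⟩
  have hsq : q * s ≤ δ := by rw [hsd]; exact Nat.mul_div_le δ q
  have hsq2 : δ < q * (s + 1) := by
    have := Nat.lt_mul_div_succ δ (show 0 < q by omega)
    rw [hsd]
    exact this
  have hs16 : 16 * s ≤ δ := le_trans (Nat.mul_le_mul_right s hq16) hsq
  obtain ⟨r, hr⟩ : ∃ r, r = l + s + m1 := ⟨_, rfl⟩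
  have hri5 : r + 5 ≤ i := by omega
  have hri : r + 4 ≤ i := by omega
  have hk : i + 9 ≤ b + q * (r - b - 6) := by
    have e1 : r - b - 6 = (l - b) + s + (m1 - 6) := by omega
    have e2 : q * (r - b - 6) = q * (l - b) + q * s + q * (m1 - 6) := by
      rw [e1]
      ring
    have e3 : l - b ≤ q * (l - b) := Nat.le_mul_of_pos_left _ (by omega)
    have e4 : q * 10 ≤ q * (m1 - 6) := Nat.mul_le_mul_left q (by omega)
    have e5 : q * (s + 1) = q * s + q := by ring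
    rw [e2]
    omega
  obtain ⟨SA', hSA⟩ : ∃ SA' : Set (List Bool), SA' = {L | L ∈ FTp n l ∧ ∃ S : Finset ℕ, (h : ℝ) ≤ (S.card : ℝ) ∧
      ∀ s ∈ S, s ≤ L.length ∧ RhoL2 η (E + 2 * C) b r i (L.take s) (L.drop s)} := ⟨_, rfl⟩
  obtain ⟨SB, hSB⟩ : ∃ SB : ℕ → Set (List Bool), SB = fun J => {L | L ∈ FTp n l ∧
      (h : ℝ) ≤ (nD (2 ^ (i + J + 1)) (RhoG2 κ η C (E + 2 * C) b (i - b + J + 1) q) L : ℝ)} := ⟨_, rfl⟩
  obtain ⟨SC, hSC⟩ : ∃ SC : ℕ → Set (List Bool), SC = fun J => {L | L ∈ SA ∧ L ∈ TwoG η E b ∧ In (2 ^ (b + (i - b + J))) L ∧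
      n ≤ L.length ∧ ∃ N : ℕ, 2 ^ (i - b + J) ≤ N ^ q ∧ L ∈ Lz κ C b N} := ⟨_, rfl⟩
  have hcov : {L | L ∈ FTp n l ∧ L ∈ TwoG η0 E b ∧ L ∈ ESw l i} ⊆ SA' ∪ ((⋃ J, SB J) ∪ ⋃ J, SC J) := by
    rintro L ⟨h1, h2, h3⟩
    have h2' := twoG_anti hb0 hη1 h2
    rcases hW η n b l r i h L (by omega) hbl (by omega) hri hk hh1
      ((mul_le_mul_of_nonneg_right hη2 hU.le).trans hh2) hh3 h1 h2' h3 with ⟨S, h4, h5⟩ | ⟨J, h4⟩ | ⟨J, h4, h5⟩
    · left
      rw [hSA]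
      exact ⟨h1, S, by exact_mod_cast h4, h5⟩
    · right; left
      rw [Set.mem_iUnion]
      refine ⟨J, ?_⟩
      rw [hSB]
      exact ⟨h1, by exact_mod_cast h4⟩
    · right; right
      rw [Set.mem_iUnion]
      refine ⟨J, ?_⟩
      rw [hSC]
      refine ⟨h1.1, h2', ?_, h1.2.1, h5⟩
      rwa [show b + (i - b + J) = i + J by omega]
  have hhκ : Ub b / h ≤ 8 / κ := by
    rw [div_le_div_iff₀ hh0 hκ]
    linarith
  -- case A
  have gA : gf SA' * Xb b ^ 2 ≤ ENNReal.ofReal (KA * BA ^ (l - b) * D * y * prT n l) := by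
    have h1 := hA D n b l r i h hD hH (by omega) hbl (by omega) hri5 hh0
    rw [← hSA] at h1
    have h2 : gf SA' * Xb b ^ 2 * ENNReal.ofReal h ≤
        ENNReal.ofReal (CA * BA ^ (r - b) * D * (2 : ℝ) ^ (-(1 / 8 : ℝ) * ((i : ℝ) - r)) * prT n l * Ub b) * 1 := by
      rw [mul_one]
      refine le_trans (le_of_eq ?_) h1
      ring
    have h3 := div_of_mul hh0 (by positivity) h2
    rw [mul_one] at h3
    refine h3.trans (ENNReal.ofReal_le_ofReal ?_)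
    have e1 : BA ^ (r - b) = BA ^ (l - b) * BA ^ m1 * BA ^ s := by
      rw [← pow_add, ← pow_add]
      congr 1
      omega
    have e2 : (2 : ℝ) ^ (-(1 / 8 : ℝ) * ((i : ℝ) - r)) = 2 ^ ((m1 : ℝ) / 8) * (2 : ℝ) ^ ((s : ℝ) / 8 - (δ : ℝ) / 8) := by
      rw [← Real.rpow_add (by norm_num)]
      congr 1
      rw [hδ, hr]
      push_cast
      ring
    have e3 : BA ^ s * (2 : ℝ) ^ ((s : ℝ) / 8 - (δ : ℝ) / 8) ≤ y := by
      have h4 : (2 : ℝ) ^ ((s : ℝ) / 8) ≤ 2 ^ s := by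
        rw [← Real.rpow_natCast 2 s]
        refine Real.rpow_le_rpow_of_exponent_le (by norm_num) ?_
        have : (0 : ℝ) ≤ s := Nat.cast_nonneg s
        linarith
      have h5 : (2 * BA) ^ s ≤ (2 : ℝ) ^ ((δ : ℝ) / 16) := by
        calc (2 * BA) ^ s ≤ ((2 : ℝ) ^ ((q : ℝ) / 16)) ^ s := pow_le_pow_left₀ (by positivity) hBq s
          _ = (2 : ℝ) ^ ((q : ℝ) / 16 * s) := by rw [← Real.rpow_natCast, ← Real.rpow_mul (by norm_num)]
          _ ≤ (2 : ℝ) ^ ((δ : ℝ) / 16) := by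
              refine Real.rpow_le_rpow_of_exponent_le (by norm_num) ?_
              have : ((q * s : ℕ) : ℝ) ≤ (δ : ℝ) := by exact_mod_cast hsq
              push_cast at this
              linarith
      calc BA ^ s * (2 : ℝ) ^ ((s : ℝ) / 8 - (δ : ℝ) / 8) = BA ^ s * (2 : ℝ) ^ ((s : ℝ) / 8) * (2 : ℝ) ^ (-((δ : ℝ) / 8)) := by
            rw [mul_assoc, ← Real.rpow_add (by norm_num)]
            rfl
        _ ≤ BA ^ s * 2 ^ s * (2 : ℝ) ^ (-((δ : ℝ) / 8)) := by gcongr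
        _ = (2 * BA) ^ s * (2 : ℝ) ^ (-((δ : ℝ) / 8)) := by rw [mul_pow]; ring
        _ ≤ (2 : ℝ) ^ ((δ : ℝ) / 16) * (2 : ℝ) ^ (-((δ : ℝ) / 8)) := by gcongr
        _ ≤ y := by
            rw [hy, ← Real.rpow_add (by norm_num)]
            refine Real.rpow_le_rpow_of_exponent_le (by norm_num) ?_
            linarith
    calc CA * BA ^ (r - b) * D * (2 : ℝ) ^ (-(1 / 8 : ℝ) * ((i : ℝ) - r)) * prT n l * Ub b / h
        = (Ub b / h) * CA * BA ^ m1 * 2 ^ ((m1 : ℝ) / 8) * (BA ^ (l - b) * D * prT n l) *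
          (BA ^ s * (2 : ℝ) ^ ((s : ℝ) / 8 - (δ : ℝ) / 8)) := by
          rw [e1, e2]
          ring
      _ ≤ (8 / κ) * CA * BA ^ m1 * 2 ^ ((m1 : ℝ) / 8) * (BA ^ (l - b) * D * prT n l) * y := by gcongr
      _ = _ := by
          rw [hKA]
          ring
  -- sums
  have hyδ : (1 / 2 : ℝ) ^ δ ≤ y := by
    have e : (1 / 2 : ℝ) ^ δ = (2 : ℝ) ^ (-(δ : ℝ)) := by
      rw [Real.rpow_neg (by norm_num), Real.rpow_natCast, one_div, inv_pow]
    rw [e, hy]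
    refine Real.rpow_le_rpow_of_exponent_le (by norm_num) ?_
    linarith
  have hhalf : ∀ J : ℕ, (1 / 2 : ℝ) ^ (i - b + J) ≤ y * (1 / 2) ^ J := by
    intro J
    rw [pow_add]
    refine mul_le_mul_of_nonneg_right ?_ (by positivity)
    exact (pow_le_pow_of_le_one (by norm_num) (by norm_num) (by omega)).trans hyδ
  have hsum : ∀ (S : ℕ → Set (List Bool)) (x : ℝ), 0 ≤ x → (∀ J, gf (S J) * Xb b ^ 2 ≤ ENNReal.ofReal (x * (1 / 2) ^ J)) →
      gf (⋃ J, S J) * Xb b ^ 2 ≤ ENNReal.ofReal (2 * x) := by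
    intro S x hx hS
    refine (mul_le_mul' (Crw.gf_iUnion_le S) le_rfl).trans ?_
    rw [← ENNReal.tsum_mul_right]
    refine (ENNReal.tsum_le_tsum hS).trans (le_of_eq ?_)
    exact tsum_half hx
  -- case B
  have gB : gf (⋃ J, SB J) * Xb b ^ 2 ≤ ENNReal.ofReal (KB * BA ^ (l - b) * D * y * prT n l) := by
    refine (hsum SB (8 / κ * CB * D * y * prT n l) (by positivity) fun J => ?_).trans (ENNReal.ofReal_le_ofReal ?_)
    · have h1 := hB D n b l i J h hD hH (by omega) hbl hli (by omega) hh0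
      have h2 : gf (SB J) * Xb b ^ 2 * ENNReal.ofReal h ≤
          ENNReal.ofReal (CB * D * (1 / 2) ^ (1 * (i - b + J)) * prT n l * Ub b) * 1 := by
        rw [mul_one, hSB]
        refine le_trans (le_of_eq ?_) h1
        ring
      have h3 := div_of_mul hh0 (by positivity) h2
      rw [mul_one, one_mul] at h3
      refine h3.trans (ENNReal.ofReal_le_ofReal ?_)
      have h4 := hhalf J
      calc CB * D * (1 / 2) ^ (i - b + J) * prT n l * Ub b / h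
          = (Ub b / h) * CB * D * prT n l * (1 / 2) ^ (i - b + J) := by ring
        _ ≤ (8 / κ) * CB * D * prT n l * (y * (1 / 2) ^ J) := by gcongr
        _ = _ := by ring
    · calc 2 * (8 / κ * CB * D * y * prT n l) = KB * 1 * D * y * prT n l := by rw [hKB]; ring
        _ ≤ _ := by gcongr
  -- case C
  have gC : gf (⋃ J, SC J) * Xb b ^ 2 ≤ ENNReal.ofReal (KC * BA ^ (l - b) * D * y * prT n l) := by
    refine (hsum SC (C3 / c0 * D * y * prT n l) (by positivity) fun J => ?_).trans (ENNReal.ofReal_le_ofReal ?_)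
    · obtain ⟨J', hJ'⟩ : ∃ J', J' = i - b + J := ⟨_, rfl⟩
      have hK : b + J' = i + J := by omega
      have h1 := hY b J' n (by omega) (by omega)
      have h1' : gf (SC J) ≤ ENNReal.ofReal (Ub b / (2 : ℝ) ^ (7 * J') * (1 + (n : ℝ) / ml (b + J')) ^ (-(4 : ℝ))) := by
        rw [hSC]
        simp only
        rw [← hJ']
        exact h1
      have hF' := hF b
      have hFK : ENNReal.ofReal (Ub b) * Xb b ^ 2 ≤ ENNReal.ofReal (C3 * 2 ^ (43 / 24 * (b : ℝ))) := hF'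
      have hw0 : 0 ≤ (1 + (n : ℝ) / ml (b + J')) ^ (-(4 : ℝ)) := by
        have := ml_pos (b + J')
        positivity
      calc gf (SC J) * Xb b ^ 2
          ≤ ENNReal.ofReal (Ub b / (2 : ℝ) ^ (7 * J') * (1 + (n : ℝ) / ml (b + J')) ^ (-(4 : ℝ))) * Xb b ^ 2 :=
            mul_le_mul' h1' le_rfl
        _ = ENNReal.ofReal (1 / (2 : ℝ) ^ (7 * J') * (1 + (n : ℝ) / ml (b + J')) ^ (-(4 : ℝ))) *
            (ENNReal.ofReal (Ub b) * Xb b ^ 2) := by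
            rw [← mul_assoc, ← ENNReal.ofReal_mul (by positivity)]
            congr 2
            ring
        _ ≤ ENNReal.ofReal (1 / (2 : ℝ) ^ (7 * J') * (1 + (n : ℝ) / ml (b + J')) ^ (-(4 : ℝ))) *
            ENNReal.ofReal (C3 * 2 ^ (43 / 24 * (b : ℝ))) := mul_le_mul' le_rfl hFK
        _ = ENNReal.ofReal (C3 * (1 / (2 : ℝ) ^ (7 * J')) *
            ((2 : ℝ) ^ ((43 / 24 : ℝ) * (b : ℝ)) * (1 + (n : ℝ) / ml (b + J')) ^ (-(4 : ℝ)))) := by
            rw [← ENNReal.ofReal_mul (by positivity)]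
            congr 1
            ring
        _ ≤ _ := by
            refine ENNReal.ofReal_le_ofReal ?_
            have h2 := numC (n := n) (b := b) (K := b + J') (l := l) (by omega) (by omega)
            have h3 : (64 : ℝ) ^ (b + J' - l) ≤ 64 ^ J' := pow_le_pow_right₀ (by norm_num) (by omega)
            have h4 : 1 / (2 : ℝ) ^ (7 * J') * 64 ^ J' = (1 / 2) ^ J' := by
              rw [show (64 : ℝ) = 2 ^ 6 by norm_num, ← pow_mul, one_div, one_div, inv_pow, show 7 * J' = J' + 6 * J' by ring,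
                pow_add]
              field_simp
            have h5 := hhalf J
            rw [← hJ'] at h5
            calc C3 * (1 / (2 : ℝ) ^ (7 * J')) *
                ((2 : ℝ) ^ ((43 / 24 : ℝ) * (b : ℝ)) * (1 + (n : ℝ) / ml (b + J')) ^ (-(4 : ℝ)))
                ≤ C3 * (1 / (2 : ℝ) ^ (7 * J')) * (64 ^ J' * prT n l) := by
                  refine mul_le_mul_of_nonneg_left (h2.trans ?_) (by positivity)
                  exact mul_le_mul_of_nonneg_right h3 hp0.le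
              _ = C3 * prT n l * (1 / (2 : ℝ) ^ (7 * J') * 64 ^ J') := by ring
              _ = C3 * prT n l * (1 / 2) ^ J' := by rw [h4]
              _ ≤ C3 * prT n l * (y * (1 / 2) ^ J) := by gcongr
              _ = C3 / c0 * c0 * y * prT n l * (1 / 2) ^ J := by
                  field_simp
              _ ≤ C3 / c0 * D * y * prT n l * (1 / 2) ^ J := by gcongr
    · calc 2 * (C3 / c0 * D * y * prT n l) = KC * 1 * D * y * prT n l := by rw [hKC]; ring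
        _ ≤ _ := by gcongr
  calc gf {L | L ∈ FTp n l ∧ L ∈ TwoG η0 E b ∧ L ∈ ESw l i} * Xb b ^ 2
      ≤ gf (SA' ∪ ((⋃ J, SB J) ∪ ⋃ J, SC J)) * Xb b ^ 2 := mul_le_mul' (gf_mono hcov) le_rfl
    _ ≤ (gf SA' + (gf (⋃ J, SB J) + gf (⋃ J, SC J))) * Xb b ^ 2 :=
        mul_le_mul' ((gf_union_le _ _).trans (add_le_add le_rfl (gf_union_le _ _))) le_rfl
    _ = gf SA' * Xb b ^ 2 + (gf (⋃ J, SB J) * Xb b ^ 2 + gf (⋃ J, SC J) * Xb b ^ 2) := by ring
    _ ≤ ENNReal.ofReal (KA * BA ^ (l - b) * D * y * prT n l) + (ENNReal.ofReal (KB * BA ^ (l - b) * D * y * prT n l) +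
        ENNReal.ofReal (KC * BA ^ (l - b) * D * y * prT n l)) := add_le_add gA (add_le_add gB gC)
    _ ≤ _ := by
        have hD1 : 0 ≤ D := hD
        rw [← ENNReal.ofReal_add (by positivity) (by positivity), ← ENNReal.ofReal_add (by positivity) (by positivity)]
        refine ENNReal.ofReal_le_ofReal ?_
        have : 0 ≤ K0 * BA ^ (l - b) * D * y * prT n l := by positivity
        calc KA * BA ^ (l - b) * D * y * prT n l + (KB * BA ^ (l - b) * D * y * prT n l + KC * BA ^ (l - b) * D * y * prT n l)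
            ≤ K0 * BA ^ (l - b) * D * y * prT n l + (KA * BA ^ (l - b) * D * y * prT n l +
              (KB * BA ^ (l - b) * D * y * prT n l + KC * BA ^ (l - b) * D * y * prT n l)) := by linarith
          _ = _ := by ring

end ART

end HexObs
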