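import Pool.Agent.TIP.YBad
import Pool.Agent.ARM.YBadW
import Pool.Agent.ARM.LMass
import Pool.Agent.ART.LoopDefs

/-!
# ART, row E2 (helper59): parts behind a good tip with a long factor without rich window, `2 ^ J ≤ n ^ k`

* `numk` : the numbers; `yBad0` : the mass (proof of `TIP.yBad`, helper41); **`yBadG`** : with the weight of the length
  (proof of `ARM.yBadW`, helper63).
-/

set_option autoImplicit false

namespace HexObs

namespace ART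

open Finset TS SDN NTW NTA HexObs.SIM TIP ARM

open TIP.YB

open scoped ENNReal

/-- the numbers -/
lemma numk {kk : ℕ} (hk : 1 ≤ kk) (k B c : ℝ) (d : ℕ) (hk0 : 0 ≤ k) (hB : 1 ≤ B) (hc : 0 < c) :
    ∃ J0 : ℕ, ∀ J : ℕ, J0 ≤ J → k * B ^ J * Real.exp (-(c * (2 : ℝ) ^ (J / kk - d))) ≤ 1 := by
  have hBk : 1 ≤ B ^ kk := one_le_pow₀ hB
  obtain ⟨J1, h1⟩ := TIP.YB.num (k * B ^ kk) (B ^ kk) c d (by positivity) hBk hc
  refine ⟨kk * J1, fun J hJ => ?_⟩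
  have h2 : J1 ≤ J / kk := (Nat.le_div_iff_mul_le (by omega)).2 (by rw [mul_comm]; exact hJ)
  refine le_trans ?_ (h1 _ h2)
  have h3 : J ≤ kk + kk * (J / kk) := by
    have h4 := Nat.div_add_mod J kk
    have h5 := Nat.mod_lt J (show 0 < kk by omega)
    omega
  have h6 : B ^ J ≤ B ^ kk * (B ^ kk) ^ (J / kk) := by
    rw [← pow_mul, ← pow_add]
    exact pow_le_pow_right₀ hB h3
  calc k * B ^ J * Real.exp (-(c * (2 : ℝ) ^ (J / kk - d)))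
      ≤ k * (B ^ kk * (B ^ kk) ^ (J / kk)) * Real.exp (-(c * (2 : ℝ) ^ (J / kk - d))) := by gcongr
    _ = _ := by ring

lemma root_le {J n k : ℕ} (hk : 1 ≤ k) (h : 2 ^ J ≤ n ^ k) : 2 ^ (J / k) ≤ n := by
  by_contra hn
  have h1 : n < 2 ^ (J / k) := Nat.lt_of_not_le hn
  have h2 : n ^ k < (2 ^ (J / k)) ^ k := Nat.pow_lt_pow_left h1 (by omega)
  rw [← pow_mul] at h2
  have h3 : 2 ^ (J / k * k) ≤ 2 ^ J := Nat.pow_le_pow_right (by norm_num) (Nat.div_mul_le_self J k)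
  omega

/-- **row Nd with a shorter factor** -/
theorem yBad0 {κ : ℝ} {C : ℕ} (hR : RegZ κ C) (η : ℝ) (a k : ℕ) (hη : 0 < η) (hk : 1 ≤ k) : ∃ J0 b0 : ℕ, ∀ b J : ℕ, b0 ≤ b →
    J0 ≤ J → gf {Y | Y ∈ SA ∧ rev Y ∈ GT b η ∧ In (2 ^ (b + J)) Y ∧ ∃ n : ℕ, 2 ^ J ≤ n ^ k ∧ Y ∈ Lz κ C b n} ≤
    ENNReal.ofReal (Ub b / (2 : ℝ) ^ (a * J)) * Xb b := by
  obtain ⟨C1, c, b1, J1, n1, hC1, hc, hreg⟩ := hR
  obtain ⟨C2, lam, j0, hC2, hlam, htip⟩ := tipxJ η hη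
  obtain ⟨C3, c3, hC3, hc3, hwide⟩ := wide_range
  obtain ⟨D, hD, hup⟩ := EnsW.ref_up
  obtain ⟨E, hE, hXE⟩ := Xb_pow
  obtain ⟨x0, hx0⟩ : ∃ x0 : ℝ, x0 = (Xb 0).toReal := ⟨_, rfl⟩
  have hx00 : 0 ≤ x0 := by rw [hx0]; exact ENNReal.toReal_nonneg
  have hX0 : Xb 0 = ENNReal.ofReal x0 := by rw [hx0]; exact (ENNReal.ofReal_toReal (Xb_ne_top 0)).symm
  obtain ⟨A, hA⟩ : ∃ A : ℕ, (2 : ℝ) ^ (a + 1) * D < lam ^ A := pow_unbounded_of_one_lt _ hlam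
  obtain ⟨d, hd⟩ : ∃ d : ℕ, d = 5 := ⟨_, rfl⟩
  have hl2 : 0 < Real.log 2 := Real.log_pos one_lt_two
  -- the numbers
  obtain ⟨Ja, hJa⟩ : ∃ Ja : ℕ, 12 * C2 * D ^ 3 < 2 ^ Ja := pow_unbounded_of_one_lt _ one_lt_two
  have h2a : (1 : ℝ) ≤ 2 ^ a := one_le_pow₀ (by norm_num)
  obtain ⟨Jb, hJb⟩ := numk hk (12 * (C2 * C3 * D ^ 3)) (D * 2 ^ a) c3 d (by positivity)
    (one_le_mul_of_one_le_of_one_le hD h2a) hc3
  obtain ⟨Jc, hJc⟩ := numk hk (12 * (3 * C2 * C1 ^ 12 * D ^ 12)) (C2 ^ A * (C1 * D) * 2 ^ a) (c * Real.log 2) d (by positivity)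
    (one_le_mul_of_one_le_of_one_le (one_le_mul_of_one_le_of_one_le (one_le_pow₀ hC2)
      (one_le_mul_of_one_le_of_one_le hC1 hD)) h2a) (by positivity)
  obtain ⟨Jd, hJd⟩ := numk hk (12 * (3 * C1 ^ 12 * D ^ 12 * E ^ j0 * x0)) (E ^ A * (C1 * D) * 2 ^ a) (c * Real.log 2) d
    (by positivity)
    (one_le_mul_of_one_le_of_one_le (one_le_mul_of_one_le_of_one_le (one_le_pow₀ hE)
      (one_le_mul_of_one_le_of_one_le hC1 hD)) h2a) (by positivity)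
  refine ⟨J1 + Ja + Jb + Jc + Jd + k * (d + n1 + 1) + 1, b1, fun b J hb hJ => ?_⟩
  have hJk : d + n1 + 1 ≤ J / k := (Nat.le_div_iff_mul_le (by omega)).2 (by rw [mul_comm]; omega)
  obtain ⟨N, hN⟩ : ∃ N : ℕ, N = 2 ^ (J / k - d) := ⟨_, rfl⟩
  have hN1 : 1 ≤ N := by rw [hN]; exact Nat.one_le_two_pow
  have hNn : n1 ≤ N := by
    rw [hN]
    exact (show n1 ≤ J / k - d by omega).trans Nat.lt_two_pow_self.le
  have hNr : (N : ℝ) = 2 ^ (J / k - d) := by rw [hN]; push_cast; rfl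
  have hUb : (0 : ℝ) < Ub b := Ub_pos b
  obtain ⟨K, hK⟩ : ∃ K : ℕ, K = b + J + 3 := ⟨_, rfl⟩
  obtain ⟨W, hW⟩ : ∃ W : ℝ≥0∞, W = ENNReal.ofReal (Ub b) * Xb b ^ 2 := ⟨_, rfl⟩
  obtain ⟨g, hg⟩ : ∃ g : ℝ, g = C1 ^ (J + 12) * (2 : ℝ) ^ (-(c * N)) * D ^ (J + 12) := ⟨_, rfl⟩
  have hg0 : 0 ≤ g := by rw [hg]; positivity
  have hup' : ∀ i, ENNReal.ofReal (Ub (b + i)) * Xb (b + i) ^ 2 ≤ ENNReal.ofReal (D ^ i) * W := by
    intro i
    rw [hW]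
    exact hup b i
  -- the words of the box
  have hbox : ∀ K' : ℕ, K' + 6 ≤ b + (J + 12) → gf {t | t ∈ WL K' ∧ rev t ∈ Lz κ C b (4 * N)} ≤
      ENNReal.ofReal (3 * g) * W := by
    intro K' hK'
    refine (rev_box hN1).trans ?_
    have h1 : gf {t | t ∈ WL (K' + 6) ∧ t ∈ Lz κ C b N} ≤ gf {t | t ∈ WL (b + (J + 12)) ∧ t ∈ Lz κ C b N} :=
      gf_mono fun t ht => ⟨WL_up hK' ht.1, ht.2⟩
    have h2 := hreg b (J + 12) N hb (by omega) hNn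
    have h3 : ENNReal.ofReal (C1 ^ (J + 12) * (2 : ℝ) ^ (-(c * N)) * Ub (b + (J + 12))) * Xb (b + (J + 12)) ^ 2 ≤
        ENNReal.ofReal g * W := by
      rw [hg]
      exact mulW (by positivity) (hup' (J + 12))
    exact three (h1.trans (h2.trans h3))
  -- the class of the reversed words
  obtain ⟨P, hP⟩ : ∃ P : Set (List Bool), P = {L | L ∈ WL K ∧ rev L ∈ Lz κ C b (16 * N)} := ⟨_, rfl⟩
  have hrev : gf {Y | Y ∈ SA ∧ rev Y ∈ GT b η ∧ In (2 ^ (b + J)) Y ∧ ∃ n : ℕ, 2 ^ J ≤ n ^ k ∧ Y ∈ Lz κ C b n} ≤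
      4 * gf (P ∩ GT b η) := by
    have h1 := rev_le (b := b) (D := 2 ^ (b + J)) (K := K) (η := η) (Q := Lz κ C b (32 * N))
      (Q' := {L | rev L ∈ Lz κ C b (16 * N)}) (by
        have e : (2 : ℕ) ^ K = 8 * 2 ^ (b + J) := by rw [hK, pow_add]; ring
        have : 1 ≤ 2 ^ (b + J) := Nat.one_le_two_pow
        omega)
      (fun Y hY _ _ => by
        show rev (rev Y) ∈ Lz κ C b (16 * N)
        rw [rev_rev]
        exact Lz_anti (by omega) hY)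
      (fun Y hY _ => by
        show rev ((rev Y).drop 1) ∈ Lz κ C b (16 * N)
        rw [rev_drop_one]
        exact Lz_init (by omega) (by rwa [show 2 * (16 * N) = 32 * N by ring]))
    refine (gf_mono ?_).trans (h1.trans (mul_le_mul' le_rfl (gf_mono ?_)))
    · rintro Y ⟨h2, h3, h4, n, h5, h6⟩
      refine ⟨h2, h3, h4, Lz_anti ?_ h6⟩
      have e1 : 32 * N = 2 ^ (J / k) := by
        rw [hN, hd, show (32 : ℕ) = 2 ^ 5 by norm_num, ← pow_add]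
        congr 1
        omega
      rw [e1]
      exact root_le hk h5
    · rintro L ⟨h2, h3, h4⟩
      rw [hP]
      exact ⟨⟨h2, h4⟩, h3⟩
  -- the main bound
  have hmain : gf (P ∩ GT b η) * Xb b ≤ ENNReal.ofReal ((2 ^ (a * J))⁻¹ / 4) * W := by
    have hpow : (0 : ℝ) < 2 ^ (a * J) := by positivity
    have hexp : (2 : ℝ) ^ (-(c * N)) = Real.exp (-(c * Real.log 2 * 2 ^ (J / k - d))) := by
      rw [Real.rpow_def_of_pos (by norm_num), hNr]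
      congr 1
      ring
    by_cases hbj : A * J + 1 + j0 ≤ b
    · obtain ⟨w, hw⟩ : ∃ w : ℝ, w = C3 * Real.exp (-(c3 * N)) := ⟨_, rfl⟩
      have hw0 : 0 ≤ w := by rw [hw]; positivity
      have h1 := htip b (A * J + 1) K P {L | L ∈ WL K ∧ rev L ∈ Lz κ C b (4 * N)} (WdR (N * 2 ^ b)) w
        (ENNReal.ofReal (3 * g) * W) (by omega) hbj (by omega) (by rw [hP]; exact fun L hL => hL.1)
        (fun A Z1 Z2 hL h2 h3 h4 h5 => by
          rw [hP] at hL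
          refine ⟨WL_pre (Z := Z2) (by rw [List.append_assoc]; exact hL.1), ?_⟩
          rw [rev_append]
          exact Lz_left _ (Lz_cut hN1 h5 hL.2)) hw0
        ((gf_mono (Q := {Z | Z ∈ BU ∧ hgt Z ≤ 2 ^ (b + 1) ∧ Z ∈ WdR (N * 2 ^ b)}) (fun Z hZ =>
          ⟨hZ.1, hZ.2.1.trans (Nat.pow_le_pow_right (by norm_num) (by omega)), hZ.2.2⟩)).trans
          (by rw [hw]; exact hwide b N))
        ((gf_mono (Q := {t | t ∈ WL (K + 3) ∧ rev t ∈ Lz κ C b (4 * N)}) (by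
          rintro t ⟨ht, L, hL, x, hx, rfl⟩
          refine ⟨EnsW.glue_WL (Nat.pow_le_pow_right (by norm_num) (by omega)) hL.1 hx ht, ?_⟩
          rw [rev_append]
          exact Lz_left _ hL.2)).trans (hbox (K + 3) (by omega)))
      refine h1.trans ?_
      have h2 : ENNReal.ofReal (C2 * ((lam ^ (A * J + 1))⁻¹ + w) * Ub K) * Xb K ^ 2 ≤
          ENNReal.ofReal (C2 * ((lam ^ (A * J + 1))⁻¹ + w) * D ^ (J + 3)) * W := by
        have hq : 0 ≤ C2 * ((lam ^ (A * J + 1))⁻¹ + w) := by positivity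
        rw [hK, show b + J + 3 = b + (J + 3) by ring]
        exact mulW hq (hup' (J + 3))
      refine (add_le_add h2 le_rfl).trans ?_
      rw [← mul_assoc, ← add_mul, ← ENNReal.ofReal_mul (by positivity), ← ENNReal.ofReal_add (by positivity) (by positivity)]
      refine mul_le_mul' (ENNReal.ofReal_le_ofReal ?_) le_rfl
      have t1 := term1 (a := a) (J := J) hC2 hlam hD hA hJa (by omega)
      have t2 : C2 * w * D ^ (J + 3) ≤ (2 ^ (a * J))⁻¹ / 12 := by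
        refine fin (hJb J (by omega)) ?_
        rw [hw, hNr]
        ring
      have t3 : C2 ^ (A * J + 1) * (3 * g) ≤ (2 ^ (a * J))⁻¹ / 12 := by
        refine fin (hJc J (by omega)) ?_
        rw [hg, hexp, mul_pow, ← pow_mul, mul_pow]
        ring
      calc C2 * ((lam ^ (A * J + 1))⁻¹ + w) * D ^ (J + 3) + C2 ^ (A * J + 1) * (3 * g)
          = C2 * (lam ^ (A * J + 1))⁻¹ * D ^ (J + 3) + C2 * w * D ^ (J + 3) + C2 ^ (A * J + 1) * (3 * g) := by ring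
        _ ≤ (2 ^ (a * J))⁻¹ / 12 + (2 ^ (a * J))⁻¹ / 12 + (2 ^ (a * J))⁻¹ / 12 := by linarith
        _ = _ := by ring
    · -- no room: the trivial bound
      have h1 : gf (P ∩ GT b η) ≤ ENNReal.ofReal (3 * g) * W := by
        refine (gf_mono (Q := {t | t ∈ WL K ∧ rev t ∈ Lz κ C b (4 * N)}) ?_).trans (hbox K (by omega))
        rintro L ⟨hL, -⟩
        rw [hP] at hL
        exact ⟨hL.1, Lz_anti (by omega) hL.2⟩
      have h2 : Xb b ≤ ENNReal.ofReal (E ^ (A * J + j0) * x0) := by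
        have h3 := hXE 0 b
        rw [Nat.zero_add, hX0, ← ENNReal.ofReal_mul (by positivity)] at h3
        refine h3.trans (ENNReal.ofReal_le_ofReal ?_)
        exact mul_le_mul_of_nonneg_right (pow_le_pow_right₀ hE (by omega)) hx00
      refine (mul_le_mul' h1 h2).trans ?_
      rw [mul_right_comm, ← ENNReal.ofReal_mul (by positivity)]
      refine mul_le_mul' (ENNReal.ofReal_le_ofReal ?_) le_rfl
      have t4 : 3 * g * (E ^ (A * J + j0) * x0) ≤ (2 ^ (a * J))⁻¹ / 12 := by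
        refine fin (hJd J (by omega)) ?_
        rw [hg, hexp, mul_pow, ← pow_mul, mul_pow]
        ring
      have : (0 : ℝ) ≤ (2 ^ (a * J))⁻¹ := by positivity
      linarith
  -- the end
  have hXz : Xb b ≠ 0 := Xb_ne_zero b
  have hXt : Xb b ≠ ∞ := Xb_ne_top b
  have h1 : gf (P ∩ GT b η) ≤ ENNReal.ofReal ((2 ^ (a * J))⁻¹ / 4 * Ub b) * Xb b := by
    refine (ENNReal.mul_le_mul_iff_left hXz hXt).1 (hmain.trans (le_of_eq ?_))
    rw [hW, ENNReal.ofReal_mul (by positivity)]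
    ring
  refine hrev.trans ((mul_le_mul' le_rfl h1).trans (le_of_eq ?_))
  rw [← mul_assoc, ← ENNReal.ofReal_ofNat, ← ENNReal.ofReal_mul (by norm_num)]
  congr 2
  field_simp

/-- **row E2**: parts with a long factor without rich window, with the weight of the length -/
theorem yBadG_of {κ : ℝ} {C : ℕ} (hM : YMassJ) (hR : RegZ κ C) : YBadG κ C := by
  intro η a k hη
  rcases Nat.eq_zero_or_pos k with rfl | hk
  · refine ⟨1, 0, fun b J y _ hJ => ?_⟩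
    have e : {Y | Y ∈ SA ∧ rev Y ∈ GT b η ∧ In (2 ^ (b + J)) Y ∧ y ≤ Y.length ∧
        ∃ n : ℕ, 2 ^ J ≤ n ^ 0 ∧ Y ∈ Lz κ C b n} = (∅ : Set (List Bool)) := by
      ext Y
      simp only [Set.mem_ofPred_eq, Set.mem_empty_iff_false, iff_false]
      rintro ⟨-, -, -, -, n, h, -⟩
      rw [pow_zero] at h
      have : 2 ^ 1 ≤ 2 ^ J := Nat.pow_le_pow_right (by norm_num) hJ
      omega
    rw [e]
    unfold gf
    rw [tsum_empty]
    exact zero_le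
  obtain ⟨C1, hC1, hM⟩ := hM η 8 hη
  obtain ⟨a1, ha1⟩ : ∃ a1 : ℕ, C1 ^ 2 * 4 ^ a ≤ 2 ^ a1 := by
    obtain ⟨a1, h⟩ := pow_unbounded_of_one_lt (C1 ^ 2 * 4 ^ a) (one_lt_two)
    exact ⟨a1, h.le⟩
  obtain ⟨J0, b0, hY⟩ := yBad0 hR η a1 k hη hk
  refine ⟨J0 + 1, b0, fun b J y hb hJ => ?_⟩
  have hU : (0 : ℝ) < Ub b := Ub_pos b
  have hm := ml_pos (b + J)
  obtain ⟨w, hw⟩ : ∃ w : ℝ, w = 1 + (y : ℝ) / ml (b + J) := ⟨_, rfl⟩
  have hw1 : 1 ≤ w := by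
    rw [hw]
    have : 0 ≤ (y : ℝ) / ml (b + J) := by positivity
    linarith
  have h1 : gf {Y | Y ∈ SA ∧ rev Y ∈ GT b η ∧ In (2 ^ (b + J)) Y ∧ y ≤ Y.length ∧
      ∃ n : ℕ, 2 ^ J ≤ n ^ k ∧ Y ∈ Lz κ C b n} ≤ ENNReal.ofReal (Ub b / (2 : ℝ) ^ (a1 * J)) * Xb b := by
    refine (gf_mono ?_).trans (hY b J hb (by omega))
    rintro Y ⟨k1, k2, k3, -, k5⟩
    exact ⟨k1, k2, k3, k5⟩
  have h2 : gf {Y | Y ∈ SA ∧ rev Y ∈ GT b η ∧ In (2 ^ (b + J)) Y ∧ y ≤ Y.length ∧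
      ∃ n : ℕ, 2 ^ J ≤ n ^ k ∧ Y ∈ Lz κ C b n} ≤ ENNReal.ofReal ((w ^ 8)⁻¹ * (C1 ^ (J + 1) * Ub b)) * Xb b := by
    have h3 := mass_len (y := y) hm (hM b J)
    rw [← hw, ← mul_assoc, ← ENNReal.ofReal_mul (by positivity)] at h3
    refine (gf_mono ?_).trans h3
    rintro Y ⟨k1, k2, k3, k4, -⟩
    exact ⟨⟨k1, k2, k3⟩, k4⟩
  refine (sqrt_mul (by positivity) (by positivity) h1 h2).trans (mul_le_mul' (ENNReal.ofReal_le_ofReal ?_) le_rfl)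
  rw [wt_pow _ (by positivity), ← hw]
  refine Real.sqrt_le_iff.2 ⟨by positivity, ?_⟩
  have hp : (0 : ℝ) < 2 ^ (a1 * J) := by positivity
  have h3 : C1 ^ (J + 1) * 4 ^ (a * J) ≤ 2 ^ (a1 * J) := by
    calc C1 ^ (J + 1) * 4 ^ (a * J) ≤ C1 ^ (2 * J) * 4 ^ (a * J) := by
          have : J + 1 ≤ 2 * J := by omega
          gcongr
      _ = (C1 ^ 2 * 4 ^ a) ^ J := by rw [mul_pow, ← pow_mul, ← pow_mul]
      _ ≤ (2 ^ a1) ^ J := by gcongr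
      _ = 2 ^ (a1 * J) := (pow_mul _ _ _).symm
  have h4 : (4 : ℝ) ^ (a * J) = (2 ^ (a * J)) ^ 2 := by
    rw [show (4 : ℝ) = 2 ^ 2 by norm_num, ← pow_mul, ← pow_mul, mul_comm 2]
  have h5 : C1 ^ (J + 1) / 2 ^ (a1 * J) ≤ 1 / (2 ^ (a * J)) ^ 2 := by
    rw [div_le_div_iff₀ hp (by positivity), one_mul, ← h4]
    exact h3
  calc Ub b / 2 ^ (a1 * J) * ((w ^ 8)⁻¹ * (C1 ^ (J + 1) * Ub b))
      = Ub b ^ 2 * (w ^ 8)⁻¹ * (C1 ^ (J + 1) / 2 ^ (a1 * J)) := by ring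
    _ ≤ Ub b ^ 2 * (w ^ 8)⁻¹ * (1 / (2 ^ (a * J)) ^ 2) := by gcongr
    _ = (Ub b / 2 ^ (a * J) * (w ^ 4)⁻¹) ^ 2 := by
      rw [mul_pow, div_pow, inv_pow, ← pow_mul]
      ring

/-- **row E2** without hypotheses -/
theorem yBadG {κ : ℝ} {C : ℕ} (hR : RegZ κ C) : YBadG κ C := yBadG_of yMassJ hR

end ART

end HexObs
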