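import Pool.Agent.ARM.QBadM
import Pool.Agent.ART.YBadG

/-!
# ART, row E2' (helper59): two-ended words with a long factor without rich window, `2 ^ J ≤ n ^ k`

* `w2Bad` : the mass (proof of `ARM.qBadM_core`, helper28); **`yBadG2`** : with the weight of the length.
-/

set_option autoImplicit false

namespace HexObs

namespace ART

open Finset TS SDN NTW NTA HexObs.SIM TIP ARM

open scoped ENNReal

/-- **two-ended words with a long factor without rich window, the factor shorter** -/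
theorem w2Bad {κ : ℝ} {C : ℕ} (hR : RegZ κ C) (η : ℝ) (D a k : ℕ) (hη : 0 < η) (hk : 1 ≤ k) : ∃ J0 b0 : ℕ, ∀ b J : ℕ, b0 ≤ b →
    J0 ≤ J → gf {Q | Q ∈ W2E η D b J ∧ ∃ n : ℕ, 2 ^ J ≤ n ^ k ∧ Q ∈ Lz κ C b n} ≤
      ENNReal.ofReal ((1 / 2) ^ (a * J) * Ub b) := by
  obtain ⟨C', c, b1, J1, n1, hC', hc, hreg⟩ := hR
  obtain ⟨C0, c2, B, hC0, hc2, hB, htwo⟩ := QB.two_mass hη D
  have hl2 : 0 < Real.log 2 := Real.log_pos one_lt_two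
  have hC14 : 1 ≤ C' ^ 14 := one_le_pow₀ hC'
  obtain ⟨J2, hJ2⟩ := numk hk (C' ^ 14) C' (c * Real.log 2) 3 (by positivity) hC' (by positivity)
  obtain ⟨J3, hJ3⟩ := numk hk (C0 * (C' ^ 14) ^ c2) (C' ^ c2 * B * 2 ^ a) (c * Real.log 2 * c2) 3 (by positivity)
    (by
      have h1 : 1 ≤ C' ^ c2 := Real.one_le_rpow hC' hc2.le
      have h2 : (1 : ℝ) ≤ 2 ^ a := one_le_pow₀ (by norm_num)
      exact one_le_mul_of_one_le_of_one_le (one_le_mul_of_one_le_of_one_le h1 hB) h2) (by positivity)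
  refine ⟨J1 + J2 + J3 + k * (n1 + 3 + 2 * D), b1 + 1, fun b J hb hJ => ?_⟩
  have hJk : n1 + 3 + 2 * D ≤ J / k := (Nat.le_div_iff_mul_le (by omega)).2 (by rw [mul_comm]; omega)
  have hb0 : b ≠ 0 := by omega
  have hU : 0 < Ub b := Ub_pos b
  obtain ⟨n', hn'⟩ : ∃ n', n' = 2 ^ (J / k - 3) := ⟨_, rfl⟩
  have hn1 : n1 ≤ n' := by
    rw [hn']
    exact (show n1 ≤ J / k - 3 by omega).trans Nat.lt_two_pow_self.le
  have hnD : 2 * D ≤ n' := by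
    rw [hn']
    exact (show 2 * D ≤ J / k - 3 by omega).trans Nat.lt_two_pow_self.le
  have hnr : (n' : ℝ) = 2 ^ (J / k - 3) := by rw [hn']; push_cast; rfl
  obtain ⟨x, hx⟩ : ∃ x : ℝ, x = Real.exp (-(c * Real.log 2 * 2 ^ (J / k - 3))) := ⟨_, rfl⟩
  have hx0 : 0 < x := by rw [hx]; positivity
  have hx2 : (2 : ℝ) ^ (-(c * (n' : ℝ))) = x := by
    rw [hx, Real.rpow_def_of_pos (by norm_num), hnr]
    congr 1
    ring
  obtain ⟨δ, hδ⟩ : ∃ δ : ℝ, δ = C' ^ 14 * C' ^ J * x := ⟨_, rfl⟩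
  have hδ0 : 0 < δ := by rw [hδ]; positivity
  have hδ1 : δ ≤ 1 := by
    rw [hδ, hx]
    exact hJ2 J (by omega)
  have hδc : C0 * δ ^ c2 * B ^ J ≤ (1 / 2) ^ (a * J) := by
    have h1 := hJ3 J (by omega)
    have e1 : δ ^ c2 = (C' ^ 14) ^ c2 * (C' ^ c2) ^ J * Real.exp (-(c * Real.log 2 * c2 * 2 ^ (J / k - 3))) := by
      rw [hδ, Real.mul_rpow (by positivity) hx0.le, Real.mul_rpow (by positivity) (by positivity)]
      congr 1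
      · congr 1
        rw [← Real.rpow_natCast C' J, ← Real.rpow_mul (by positivity), mul_comm (J : ℝ), Real.rpow_mul (by positivity),
          Real.rpow_natCast]
      · rw [hx, ← Real.exp_mul]
        congr 1
        ring
    have h2 : (0 : ℝ) < 2 ^ (a * J) := by positivity
    rw [one_div, inv_pow, ← one_div, le_div_iff₀ h2]
    refine le_trans (le_of_eq ?_) h1
    rw [e1, mul_pow, mul_pow, ← pow_mul]
    ring
  obtain ⟨QQ, hQQ⟩ : ∃ QQ : Set (List Bool), QQ = {Q | Q ∈ Nz κ C b ∧ ¬ In (n' * 2 ^ b) Q} := ⟨_, rfl⟩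
  have hFac : NPR.Fac QQ = Lz κ C b n' := by rw [hQQ]; rfl
  have hrg := hreg b (J + 14) n' (by omega) (by omega) hn1
  rw [show b + (J + 14) = b + J + 14 by ring] at hrg
  have h1 : gf {t | t ∈ WL (b + J + 14) ∧ t ∈ NPR.Fac QQ} ≤ ENNReal.ofReal δ * NPR.FK (b + J + 14) := by
    rw [hFac]
    refine hrg.trans ?_
    rw [ENNReal.ofReal_mul (by positivity), mul_assoc]
    refine mul_le_mul' (ENNReal.ofReal_le_ofReal ?_) le_rfl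
    rw [hx2, hδ, ← pow_add]
    have h2 : C' ^ (J + 14) ≤ C' ^ (14 + J) := pow_le_pow_right₀ hC' (by omega)
    exact mul_le_mul_of_nonneg_right h2 hx0.le
  refine (gf_mono ?_).trans ((htwo b J QQ δ (by omega) hδ0 hδ1 h1).trans
    (ENNReal.ofReal_le_ofReal (mul_le_mul_of_nonneg_right hδc hU.le)))
  rintro Q ⟨⟨q1, q2, S, hS, R, T, hT, rfl⟩, n, hn, X, F, Y, hF1, hF2, hF3⟩
  refine ⟨In_WL q1 q2, S, hS, R, ?_, T, hT, rfl⟩
  rw [hFac]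
  have hn8 : 8 * n' ≤ n := by
    refine le_trans (le_of_eq ?_) (root_le hk hn)
    rw [hn', show (8 : ℕ) = 2 ^ 3 by norm_num, ← pow_add]
    congr 1
    omega
  refine QB.core (N' := n' * 2 ^ b) (QB.GS_In hb0 hS) (QB.GE_In hb0 hT) ?_ ⟨X, F, Y, hF1, hF2, hF3⟩
  have h5 : 8 * n' * 2 ^ b ≤ n * 2 ^ b := Nat.mul_le_mul_right _ hn8
  have h6 : 2 * D * 2 ^ b ≤ n' * 2 ^ b := Nat.mul_le_mul_right _ hnD
  nlinarith

/-- **row E2'** -/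
theorem yBadG2 {κ : ℝ} {C : ℕ} (hR : RegZ κ C) : YBadG2 κ C := by
  intro η E a k hη
  rcases Nat.eq_zero_or_pos k with rfl | hk
  · refine ⟨1, 0, fun b J y _ hJ => ?_⟩
    have e : {Y | Y ∈ SA ∧ Y ∈ TwoG η E b ∧ In (2 ^ (b + J)) Y ∧ y ≤ Y.length ∧
        ∃ n : ℕ, 2 ^ J ≤ n ^ 0 ∧ Y ∈ Lz κ C b n} = (∅ : Set (List Bool)) := by
      ext Y
      simp only [Set.mem_ofPred_eq, Set.mem_empty_iff_false, iff_false]
      rintro ⟨-, -, -, -, n, h, -⟩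
      rw [pow_zero] at h
      have : 2 ^ 1 ≤ 2 ^ J := Nat.pow_le_pow_right (by norm_num) hJ
      omega
    rw [e]
    unfold gf
    rw [tsum_empty]
    exact zero_le
  obtain ⟨C1, hC1, hM⟩ := pmj_of yMassJ η E 8 hη
  obtain ⟨a1, ha1⟩ : ∃ a1 : ℕ, C1 ^ 2 * 4 ^ a ≤ 2 ^ a1 := by
    obtain ⟨a1, h⟩ := pow_unbounded_of_one_lt (C1 ^ 2 * 4 ^ a) (one_lt_two)
    exact ⟨a1, h.le⟩
  obtain ⟨J0, b0, hY⟩ := w2Bad hR η E a1 k hη hk
  refine ⟨J0 + 1, b0 + 1, fun b J y hb hJ => ?_⟩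
  have hU : (0 : ℝ) < Ub b := Ub_pos b
  have hm := ml_pos (b + J)
  obtain ⟨w, hw⟩ : ∃ w : ℝ, w = 1 + (y : ℝ) / ml (b + J) := ⟨_, rfl⟩
  have hw1 : 1 ≤ w := by
    rw [hw]
    have : 0 ≤ (y : ℝ) / ml (b + J) := by positivity
    linarith
  have h1 : gf {Y | Y ∈ SA ∧ Y ∈ TwoG η E b ∧ In (2 ^ (b + J)) Y ∧ y ≤ Y.length ∧
      ∃ n : ℕ, 2 ^ J ≤ n ^ k ∧ Y ∈ Lz κ C b n} ≤ ENNReal.ofReal ((1 / 2) ^ (a1 * J) * Ub b) * 1 := by
    rw [mul_one]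
    refine (gf_mono ?_).trans (hY b J (by omega) (by omega))
    rintro Y ⟨k1, k2, k3, -, k5⟩
    exact ⟨⟨k1, k3, k2⟩, k5⟩
  have h2 : gf {Y | Y ∈ SA ∧ Y ∈ TwoG η E b ∧ In (2 ^ (b + J)) Y ∧ y ≤ Y.length ∧
      ∃ n : ℕ, 2 ^ J ≤ n ^ k ∧ Y ∈ Lz κ C b n} ≤ ENNReal.ofReal ((w ^ 8)⁻¹ * (C1 ^ (J + 1) * Ub b)) * 1 := by
    rw [mul_one]
    have h3 := mass_len (y := y) hm (hM b J (by omega))
    rw [← hw, ← ENNReal.ofReal_mul (by positivity)] at h3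
    refine (gf_mono ?_).trans h3
    rintro Y ⟨k1, k2, k3, k4, -⟩
    exact ⟨⟨k1, k3, k2⟩, k4⟩
  have h0 := sqrt_mul (by positivity) (by positivity) h1 h2
  rw [mul_one] at h0
  refine h0.trans (ENNReal.ofReal_le_ofReal ?_)
  rw [wt_pow _ (by positivity), ← hw]
  refine Real.sqrt_le_iff.2 ⟨by positivity, ?_⟩
  have hp : (0 : ℝ) < 2 ^ (a1 * J) := by positivity
  have h3 : C1 ^ (J + 1) * 4 ^ (a * J) ≤ 2 ^ (a1 * J) := by
    calc C1 ^ (J + 1) * 4 ^ (a * J) ≤ C1 ^ (2 * J) * 4 ^ (a * J) := by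
          have : J + 1 ≤ 2 * J := by omega
          gcongr
      _ = (C1 ^ 2 * 4 ^ a) ^ J := by rw [mul_pow, ← pow_mul, ← pow_mul]
      _ ≤ (2 ^ a1) ^ J := by gcongr
      _ = 2 ^ (a1 * J) := (pow_mul _ _ _).symm
  have h4 : (4 : ℝ) ^ (a * J) = (2 ^ (a * J)) ^ 2 := by
    rw [show (4 : ℝ) = 2 ^ 2 by norm_num, ← pow_mul, ← pow_mul, mul_comm 2]
  have h5 : C1 ^ (J + 1) / 2 ^ (a1 * J) ≤ 1 / (2 ^ (a * J)) ^ 2 := by
    rw [div_le_div_iff₀ hp (by positivity), one_mul, ← h4]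
    exact h3
  calc (1 / 2) ^ (a1 * J) * Ub b * ((w ^ 8)⁻¹ * (C1 ^ (J + 1) * Ub b))
      = Ub b ^ 2 * (w ^ 8)⁻¹ * (C1 ^ (J + 1) / 2 ^ (a1 * J)) := by
        rw [one_div, inv_pow]
        ring
    _ ≤ Ub b ^ 2 * (w ^ 8)⁻¹ * (1 / (2 ^ (a * J)) ^ 2) := by gcongr
    _ = (Ub b / 2 ^ (a * J) * (w ^ 4)⁻¹) ^ 2 := by
      rw [mul_pow, div_pow, inv_pow, ← pow_mul]
      ring

end ART

end HexObs
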