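import Pool.Agent.ART.EsW2T
import Pool.Agent.ART.EsP2T
import Pool.Agent.ART.EsTL2
import Pool.Agent.ART.YBadG2
import Pool.Agent.ART.HfLowT
import Pool.Agent.ART.TipT
import Pool.Agent.TIP.GeoZ

/-!
# ART, row E4: `esTL2_all : LoopM → EsTL2` (helper63)
-/

set_option autoImplicit false

namespace HexObs

namespace ART

open TIP ARM

theorem esTL2_all (hM : LoopM) : EsTL2 := by
  obtain ⟨κ, hκ, C, -, hR⟩ := TIP.regZ_all
  exact esTL2_of hκ esW2 tipT2s (esP2A_of tipT2s hM) (esP2B_of tipT2s (yBadG2 hR)) (yBadG2 hR) hfLowT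

end ART

end HexObs
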