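import Pool.Agent.ART.EsDefs2
import Pool.Agent.ART.Tc
import Pool.Agent.ARM.EsW
import Pool.Agent.ARM.T2Nb

/-!
# ART, row E4, the deterministic part (helper63): **`esW2 : EsW2 κ C`**

The words with two good ends and an extra strand, crossing just before the visit (`Cw`: as `Cq` of helper37, for `ESw`).
-/

set_option autoImplicit false

namespace HexObs

namespace ART

open Finset TS SDN HexObs.SIM NTA TIP TIP.Nf ARM

open ARM.T2 (mem_GS mem_GE Zd in_app2)

open scoped ENNReal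

namespace W2

/-- the last crossing of the level r before the visit -/
structure Cw (l r i : ℕ) (L : List Bool) (t0 t1 : ℕ) : Prop where
  lt : t0 < t1
  le : t1 ≤ L.length
  far : 2 ^ r < 2 * dz L t0
  near : 4 * dz L t1 ≤ 2 ^ r
  up : ∀ s, t0 < s → s ≤ t1 → 2 * dz L s ≤ 2 ^ r
  rest : ∀ s, t0 < s → s ≤ L.length → dz L s ≤ 2 ^ (i + 3)
  tfar : ∃ t, t ≤ t0 ∧ 2 ^ i < 4 * dz L t
  vis : ∃ b, t1 < b ∧ b ≤ L.length ∧ 2 ^ i < 4 * dz L b

lemma cw_of {l r i : ℕ} {L : List Bool} (hlr : l + 3 ≤ r) (hri : r + 1 ≤ i) (h : L ∈ ESw l i) :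
    ∃ t0 t1, Cw l r i L t0 t1 := by
  classical
  obtain ⟨t, a, b, ht, hab, hb, h1, h2, h3, h4⟩ := h
  have hp : (2 : ℤ) ^ (l + 3) ≤ 2 ^ r := pow_le_pow_right₀ (by norm_num) hlr
  have hp2 : (2 : ℤ) ^ (r + 1) ≤ 2 ^ i := pow_le_pow_right₀ (by norm_num) hri
  rw [pow_succ] at hp2
  have h2' : 4 * dz L a ≤ 2 ^ r := by
    have e : (2 : ℤ) ^ (l + 3) = 4 * 2 ^ (l + 1) := by ring
    linarith
  have hi : (0 : ℤ) < 2 ^ r := by positivity
  obtain ⟨t0, ht0⟩ : ∃ t0, t0 = Nat.findGreatest (fun s => 2 ^ r < 2 * dz L s) a := ⟨_, rfl⟩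
  have h1r : 2 ^ r < 2 * dz L t := by linarith
  have k0 : t ≤ t0 := by
    rw [ht0]
    exact Nat.le_findGreatest (P := fun s => 2 ^ r < 2 * dz L s) ht.le h1r
  have k1 : 2 ^ r < 2 * dz L t0 := by
    rw [ht0]
    exact Nat.findGreatest_spec (P := fun s => 2 ^ r < 2 * dz L s) ht.le h1r
  have k2 : ∀ s, t0 < s → s ≤ a → 2 * dz L s ≤ 2 ^ r := by
    intro s hs1 hs2
    rw [ht0] at hs1
    exact not_lt.1 (Nat.findGreatest_is_greatest hs1 hs2)
  have k3 : t0 ≤ a := by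
    rw [ht0]
    exact Nat.findGreatest_le a
  have k4 : t0 < a := by
    rcases Nat.lt_or_ge t0 a with h | h
    · exact h
    · have e : t0 = a := by omega
      rw [e] at k1
      linarith
  have hex : ∃ s, t0 < s ∧ 4 * dz L s ≤ 2 ^ r := ⟨a, k4, h2'⟩
  obtain ⟨m1, m2⟩ := Nat.find_spec hex
  have m3 : Nat.find hex ≤ a := Nat.find_min' hex ⟨k4, h2'⟩
  refine ⟨t0, Nat.find hex, m1, by omega, k1, m2, fun s hs1 hs2 => k2 s hs1 (hs2.trans m3), fun s hs1 hs2 => ?_,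
    ⟨t, k0, h1⟩, b, by omega, hb, h3⟩
  rcases Nat.lt_or_ge s a with h | h
  · have h5 := k2 s hs1 h.le
    have e : (2 : ℤ) ^ (i + 3) = 8 * 2 ^ i := by ring
    have hd := dz_nonneg L s
    linarith
  · exact h4 s h hs2

lemma dz_tk {L : List Bool} {q s : ℕ} (hq : q ≤ L.length) (hs : s ≤ q) : dz L s ≤ dz (L.take q) s + dz L q := by
  have e : vx oo up (L.take q) s = vx oo up L s := by
    conv_rhs => rw [← List.take_append_drop q L]
    rw [vx_append (by rw [List.length_take]; omega)]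
  have e2 : TIW.en (L.take q) = vx oo up L q := by
    unfold TIW.en
    rw [List.length_take, min_eq_left hq]
    conv_rhs => rw [← List.take_append_drop q L]
    rw [vx_append (by rw [List.length_take]; omega)]
  unfold dz
  rw [e, e2]
  have h1 := TIW.hn_add (vx oo up L s - vx oo up L q) (vx oo up L q - TIW.en L)
  rwa [sub_add_sub_cancel] at h1

/-- the long factor in front of the end of the crossing, near -/
lemma near_fac {r b m t1 s0 : ℕ} {L P Y0 : List Bool} (ht : t1 ≤ L.length) (hT : L.take t1 = P ++ Y0)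
    (hP : P.length ≤ s0) (hs1 : s0 ≤ t1) (hfar : 3 * 2 ^ r ≤ 8 * dz L s0) (hnear : 4 * dz L t1 ≤ 2 ^ r)
    (him : r = b + m) (hm : 6 ≤ m) : ¬ In (2 ^ (m - 6) * 2 ^ b) Y0 := by
  have hL : L = P ++ (Y0 ++ L.drop t1) := by
    conv_lhs => rw [← List.take_append_drop t1 L, hT, List.append_assoc]
  have hlen : t1 = P.length + Y0.length := by
    have h := congrArg List.length hT
    rw [List.length_take, List.length_append, min_eq_left ht] at h
    exact h
  intro hin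
  have h1 := hn_fac (B := L.drop t1) hin hP (show s0 ≤ (P ++ Y0).length by rw [List.length_append]; omega)
    (show P.length ≤ t1 by omega) (show t1 ≤ (P ++ Y0).length by rw [List.length_append]; omega)
  rw [← hL] at h1
  have h2 := dz_hn L s0 t1
  have h3 : (2 : ℤ) ^ r = 64 * ((2 ^ (m - 6) * 2 ^ b : ℕ) : ℤ) := by
    push_cast
    rw [← pow_add, show (64 : ℤ) = 2 ^ 6 by norm_num, ← pow_add]
    congr 1
    omega
  have h4 : (0 : ℤ) < 2 ^ r := by positivity
  linarith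

/-- the long factor in front of the end of the crossing, far -/
lemma far_fac {i t1 K : ℕ} {L P Y0 : List Bool} (ht : t1 ≤ L.length) (hT : L.take t1 = P ++ Y0)
    (hrest : ∀ s, t1 ≤ s → s ≤ L.length → dz L s ≤ 2 ^ (i + 3)) (hK : i + 6 ≤ K)
    (hn : ¬ In (2 ^ (K + 1)) (Y0 ++ L.drop t1)) : ¬ In (2 ^ K) Y0 := by
  have hL : L = P ++ (Y0 ++ L.drop t1) := by
    conv_lhs => rw [← List.take_append_drop t1 L, hT, List.append_assoc]
  have hlen : t1 = P.length + Y0.length := by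
    have h := congrArg List.length hT
    rw [List.length_take, List.length_append, min_eq_left ht] at h
    exact h
  refine fun hin => hn ?_
  have hdbl : 2 ^ (K + 1) = 2 ^ K + 2 ^ K := by
    rw [← two_mul, ← pow_succ']
  intro s hs
  rcases le_or_gt s Y0.length with h | h
  · rw [vx_append (by omega)]
    exact Bl_mono _ (by rw [hdbl]; exact Nat.le_add_right _ _) (hin s h)
  · obtain ⟨k, rfl⟩ : ∃ k, s = Y0.length + k := ⟨s - Y0.length, by omega⟩
    rw [List.length_append, List.length_drop] at hs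
    have h1 := hn_app P (Y0 ++ L.drop t1) (Y0.length + k) Y0.length
    rw [← hL, ← add_assoc, ← hlen] at h1
    have h2 := hn_dz L (t1 + k) t1
    have h3 := hrest (t1 + k) (by omega) (by omega)
    have h3' := hrest t1 le_rfl ht
    have h4 : TIW.hn (vx oo up (Y0 ++ L.drop t1) (Y0.length + k) - vx oo up (Y0 ++ L.drop t1) Y0.length) ≤
        ((2 ^ K : ℕ) : ℤ) := by
      rw [← h1]
      have e1 : (2 : ℤ) ^ (i + 3) = 8 * 2 ^ i := by ring
      have e2 : (2 : ℤ) ^ i * 64 ≤ ((2 ^ K : ℕ) : ℤ) := by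
        push_cast
        rw [show (64 : ℤ) = 2 ^ 6 by norm_num, ← pow_add]
        exact pow_le_pow_right₀ (by norm_num) (by omega)
      have e3 : (0 : ℤ) < 2 ^ i := by positivity
      linarith
    have h5 := Bl_of_hn h4
    have h6' := hin Y0.length le_rfl
    have h7 : vx oo up (Y0 ++ L.drop t1) Y0.length = vx oo up Y0 Y0.length := vx_append (by omega)
    rw [h7] at h5
    have h8 := Bl_add' h5 h6'
    rw [sub_add_cancel, ← hdbl] at h8
    exact h8

/-! ### the two ends -/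

/-- the distances of the vertices of the start structure -/
lemma start_near {n l b E : ℕ} {L S R : List Bool} (hL : L ∈ FTp n l) (he : L = S ++ R) (hS : In (E * 2 ^ b) S) {s : ℕ}
    (hs : s ≤ S.length) : dz L s ≤ 2 ^ l + 2 + 3 * (E * 2 ^ b : ℕ) := by
  have h1 := TIW.hn_le_Bl (hS s hs)
  have h2 := dz_hn L s 0
  have h0 : vx oo up L 0 = 0 := rfl
  have h3 : vx oo up L s = vx oo up S s := by
    rw [he]
    exact vx_append (by omega)
  rw [h0, sub_zero, h3] at h2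
  have h4 : dz L 0 ≤ 2 ^ l + 2 := by
    have h5 := hL.2.2.2.1
    have h6 : dz L 0 = TIW.hn (TIW.en L) := by
      unfold dz
      rw [h0, zero_sub, TIW.hn_neg]
    rw [h6]
    exact_mod_cast h5
  linarith

/-- the distances of the vertices of the end structure -/
lemma end_near {b E : ℕ} {L R T : List Bool} (he : L = R ++ T) (hT : In (E * 2 ^ b) T) {s : ℕ} (h1 : R.length ≤ s)
    (h2 : s ≤ L.length) : dz L s ≤ 6 * (E * 2 ^ b : ℕ) := by
  have hl : L.length = R.length + T.length := by rw [he, List.length_append]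
  have h3 := hn_fac (A := R) (B := []) hT (s := s) (s' := L.length) h1 (by rw [List.length_append]; omega) (by omega)
    (by rw [List.length_append]; omega)
  rw [List.append_nil, ← he] at h3
  exact h3

lemma pre_of_len {X S Z R : List Bool} (he : S ++ R = X ++ Z) (h : S.length ≤ X.length) : ∃ V, X = S ++ V := by
  refine ⟨X.drop S.length, ?_⟩
  have h1 : (S ++ R).take S.length = (X ++ Z).take S.length := by rw [he]
  rw [List.take_left, List.take_append_of_le_length h] at h1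
  conv_lhs => rw [← List.take_append_drop S.length X, ← h1]

/-- the part in front of a cut -/
lemma twoG_A {η η' : ℝ} {C b E h c : ℕ} {κ : ℝ} {X Z1 Z2 Z3 S V : List Bool} (hb : b ≠ 0) (hS : S ∈ NPR.GS η E b)
    (hX : X = S ++ V) (hz : Zd κ C b Z1 Z2 Z3) (hc : c ∈ cz Z2) (hη' : η' ≤ η) (hη : η' * Ub b ≤ (h : ℝ))
    (c1 : h ≤ nc (Z2.take c)) : X ++ (Z1 ++ Z2.take c) ∈ TwoG η' (E + 2 * C) b := by
  have hU := Ub_pos b
  obtain ⟨N, N3, e1, e2, e3, e4, e5, e6, e7⟩ := (mem_GS hb).1 hS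
  refine ⟨S, (mem_GS hb).2 ⟨N, N3, e1, e2, e3, e4, e5, ?_, in_mono e7 (Nat.mul_le_mul_right _ (by omega))⟩, V,
    Z1 ++ Z2.take c, hz.ge hb hc hη c1 (by omega), ?_⟩
  · exact (mul_le_mul_of_nonneg_right hη' hU.le).trans e6
  · rw [hX, List.append_assoc]

/-- the part behind a cut -/
lemma twoG_Y {η η' : ℝ} {C b E h c : ℕ} {κ : ℝ} {Z1 Z2 Z3 W V T : List Bool} (hb : b ≠ 0) (hT : T ∈ NPR.GE η E b)
    (hW : W = V ++ T) (hz : Zd κ C b Z1 Z2 Z3) (hc : c ∈ cz Z2) (hη' : η' ≤ η) (hη : η' * Ub b ≤ (h : ℝ))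
    (c1 : h ≤ nc (Z2.drop c)) : Z2.drop c ++ (Z3 ++ W) ∈ TwoG η' (E + 2 * C) b := by
  have hU := Ub_pos b
  obtain ⟨N, N3, e1, e2, e3, e4, e5, e6, e7⟩ := (mem_GE hb).1 hT
  refine ⟨Z2.drop c ++ Z3, hz.gs hb hc hη c1 (by omega), V, T,
    (mem_GE hb).2 ⟨N, N3, e1, e2, e3, e4, e5, (mul_le_mul_of_nonneg_right hη' hU.le).trans e6,
      in_mono e7 (Nat.mul_le_mul_right _ (by omega))⟩, ?_⟩
  rw [hW]
  simp only [List.append_assoc]

variable {κ η : ℝ} {C b l r i m n h k E t0 t1 : ℕ} {L X Z1 Z2 Z3 Y0 S R T : List Bool}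

/-- the cuts of the rich factor, in the whole word -/
lemma cut_w (hd : Dt κ C b (L.take t1) X Z1 Z2 Z3 Y0) (ht : t1 ≤ L.length) {c : ℕ} (hc : c ≤ Z2.length) :
    (X ++ Z1).length + c < t1 ∧ L.take ((X ++ Z1).length + c) = X ++ (Z1 ++ Z2.take c) ∧
      L.drop ((X ++ Z1).length + c) = Z2.drop c ++ (Z3 ++ (Y0 ++ L.drop t1)) := by
  obtain ⟨f1, f2, f3⟩ := cut_L hd ht hc
  exact ⟨f1, f2.trans (hd.cut hc).2.1, f3⟩

lemma zd_of (hd : Dt κ C b (L.take t1) X Z1 Z2 Z3 Y0) : Zd κ C b Z1 Z2 Z3 :=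
  ⟨hd.b1, hd.b2, hd.b3, hd.h1, hd.h3, hd.h2, hd.n2, hd.inn⟩

lemma eq_w (hd : Dt κ C b (L.take t1) X Z1 Z2 Z3 Y0) : L = X ++ ((Z1 ++ (Z2 ++ Z3)) ++ (Y0 ++ L.drop t1)) := by
  conv_lhs => rw [← List.take_append_drop t1 L, hd.eq]
  simp only [List.append_assoc]

/-- the end structure is behind the crossing -/
lemma end_w (hc : Cw l r i L t0 t1) (he : L = S ++ (R ++ T)) (hT : In (E * 2 ^ b) T) (hE : 24 * (E * 2 ^ b) ≤ 2 ^ i) :
    ∃ V, L.drop t1 = V ++ T := by
  obtain ⟨b', v1, v2, v3⟩ := hc.vis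
  have he' : L = (S ++ R) ++ T := by rw [he, List.append_assoc]
  have hlen : t1 ≤ (S ++ R).length := by
    by_contra hcon
    have h1 := end_near he' hT (s := b') (by omega) v2
    have h2 : ((24 * (E * 2 ^ b) : ℕ) : ℤ) ≤ 2 ^ i := by exact_mod_cast hE
    push_cast at h1 h2
    linarith
  refine ⟨(S ++ R).drop t1, ?_⟩
  conv_lhs => rw [he']
  exact List.drop_append_of_le_length hlen

/-- the start structure is in front of a rich factor which comes close to the start of the crossing -/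
lemma start_w (hc : Cw l r i L t0 t1) (hL : L ∈ FTp n l) (he : L = S ++ (R ++ T)) (hS : In (E * 2 ^ b) S)
    (hd : Dt κ C b (L.take t1) X Z1 Z2 Z3 Y0) (hX : t0 < (X ++ Z1).length)
    (hE : 2 * (2 ^ l + 2 + 3 * (E * 2 ^ b) + 6 * (C * 2 ^ b)) ≤ 2 ^ r) : S.length ≤ X.length := by
  by_contra hcon
  rw [not_le] at hcon
  have hE' : ((2 * (2 ^ l + 2 + 3 * (E * 2 ^ b) + 6 * (C * 2 ^ b)) : ℕ) : ℤ) ≤ 2 ^ r := by exact_mod_cast hE
  push_cast at hE'
  have hfar := hc.far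
  have hC0 : (0 : ℤ) ≤ 6 * (C * 2 ^ b) := by positivity
  rcases Nat.lt_or_ge t0 X.length with h1 | h1
  · have h2 := start_near hL he hS (s := t0) (by omega)
    push_cast at h2
    linarith
  · have h2 := start_near hL he hS (s := X.length) hcon.le
    have h3 := hn_fac (A := X) (B := Y0 ++ L.drop t1) hd.inn (s := t0) (s' := X.length) h1 (by
      rw [List.length_append] at hX ⊢
      rw [List.length_append]
      omega) le_rfl (by rw [List.length_append]; omega)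
    rw [← eq_w hd] at h3
    have h4 := dz_hn L t0 X.length
    push_cast at h2 h3
    linarith

open Classical in
/-- **case A** -/
theorem w2_A (hc : Cw l r i L t0 t1) (hri : r + 4 ≤ i) (hL : L ∈ FTp n l) (hb : 1 ≤ b)
    (hd : Dt κ C b (L.take t1) X Z1 Z2 Z3 Y0) (hh : 1 ≤ h) (hη : η * Ub b ≤ (h : ℝ)) (h4 : 4 * h ≤ nc Z2)
    (hX : t0 < (X ++ Z1).length) (hS : S ∈ NPR.GS η E b) (hT : T ∈ NPR.GE η E b) (he : L = S ++ (R ++ T))
    (hE : 2 * (2 ^ l + 2 + 3 * (E * 2 ^ b) + 6 * (C * 2 ^ b)) ≤ 2 ^ r) (hE2 : 24 * (E * 2 ^ b) ≤ 2 ^ i) :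
    ∃ Q : Finset ℕ, h ≤ Q.card ∧ ∀ q ∈ Q, q ≤ L.length ∧ RhoL2 η (E + 2 * C) b r i (L.take q) (L.drop q) := by
  have hsa := hL.1
  have hb0 : b ≠ 0 := by omega
  have hSi : In (E * 2 ^ b) S := by
    obtain ⟨N, N3, e1, e2, e3, e4, e5, e6, e7⟩ := (mem_GS hb0).1 hS
    exact e7
  have hTi : In (E * 2 ^ b) T := by
    obtain ⟨N, N3, e1, e2, e3, e4, e5, e6, e7⟩ := (mem_GE hb0).1 hT
    exact e7
  obtain ⟨V, hV⟩ := end_w hc he hTi hE2
  obtain ⟨U, hU⟩ := pre_of_len (S := S) (R := R ++ T) (X := X) (Z := (Z1 ++ (Z2 ++ Z3)) ++ (Y0 ++ L.drop t1))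
    (by rw [← he]; exact eq_w hd) (start_w hc hL he hSi hd hX hE)
  have h1 := card_rank neW (Z := Z2) (lo := h) (hi := 2 * h) hh (by omega)
  have h2 : 2 * h - h = h := by omega
  rw [h2] at h1
  refine ⟨((cz Z2).filter fun c => h ≤ nc (Z2.take c) ∧ nc (Z2.take c) < 2 * h).image fun c => (X ++ Z1).length + c, ?_, ?_⟩
  · rw [card_image_of_injective _ (fun x y h => Nat.add_left_cancel h : Function.Injective fun c => (X ++ Z1).length + c), h1]
  intro q hq
  obtain ⟨c, hcm, rfl⟩ := mem_image.1 hq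
  rw [mem_filter] at hcm
  obtain ⟨hc1, hc2, hc3⟩ := hcm
  obtain ⟨a1, a2, a3⟩ := mem_cz.1 hc1
  obtain ⟨f1, f2, f3⟩ := cut_w hd hc.le a1
  have hs := rank_sum neW hc1
  obtain ⟨q, hqd⟩ : ∃ q, q = (X ++ Z1).length + c := ⟨_, rfl⟩
  rw [← hqd] at f1 f2 f3 ⊢
  have hqt : t0 < q := by omega
  have hqL : q ≤ L.length := by have := hc.le; omega
  have hz0 : dz (L.drop q) 0 = dz L q := by
    have := dz_drop L (le_refl q) hqL
    rwa [Nat.sub_self] at this
  have hz1 : dz (L.drop q) 0 = TIW.hn (TIW.en (L.drop q)) := by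
    unfold dz
    have h0 : vx oo up (L.drop q) 0 = 0 := rfl
    rw [h0, zero_sub, TIW.hn_neg]
  have hup := hc.up q hqt f1.le
  have hr2 : (2 : ℤ) ^ r * 16 ≤ 2 ^ i := by
    calc (2 : ℤ) ^ r * 16 = 2 ^ (r + 4) := by ring
      _ ≤ 2 ^ i := pow_le_pow_right₀ (by norm_num) hri
  have hr0 : (0 : ℤ) < 2 ^ r := by positivity
  refine ⟨hqL, ?_, SA_drop hsa _, ?_, ?_, ?_, ?_, ?_⟩
  · exact SLW.SA_take (A := L.take q) (by rw [List.take_append_drop]; exact hsa)
  · rw [f2]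
    exact twoG_A hb0 hS hU (zd_of hd) hc1 le_rfl hη (by omega)
  · rw [f3]
    refine twoG_Y (V := Y0 ++ V) hb0 hT ?_ (zd_of hd) hc1 le_rfl hη (by omega)
    rw [hV, List.append_assoc]
  · rw [← hz1, hz0]
    linarith
  · obtain ⟨t, u1, u2⟩ := hc.tfar
    refine ⟨t, ?_, ?_⟩
    · rw [List.length_take]
      omega
    · have h5 := dz_tk hqL (show t ≤ q by omega)
      linarith
  · obtain ⟨b', v1, v2, v3⟩ := hc.vis
    refine ⟨b' - q, ?_, ?_⟩
    · rw [List.length_drop]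
      omega
    · rw [dz_drop L (by omega) (by omega)]
      have := dz_nonneg L b'
      linarith

/-- the long factor of the cases B and C -/
lemma big_w (hc : Cw l r i L t0 t1) (hd : Dt κ C b (L.take t1) X Z1 Z2 Z3 Y0) (hX : (X ++ Z1).length ≤ t0)
    (him : r = b + m) (hm : 6 ≤ m) (hC : 48 * C ≤ 2 ^ m) : ¬ In (2 ^ (m - 6) * 2 ^ b) Y0 := by
  obtain ⟨P, hP⟩ : ∃ P, P = X ++ (Z1 ++ (Z2 ++ Z3)) := ⟨_, rfl⟩
  have hT : L.take t1 = P ++ Y0 := by
    rw [hd.eq, hP]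
    simp only [List.append_assoc]
  have hlen : P.length + Y0.length = t1 := by
    have h := congrArg List.length hT
    rw [List.length_take, List.length_append, min_eq_left hc.le] at h
    exact h.symm
  have hr0 : (0 : ℤ) < 2 ^ r := by positivity
  have hCi : (48 * C : ℤ) * 2 ^ b ≤ 2 ^ r := by
    have h5 : 48 * C * 2 ^ b ≤ 2 ^ m * 2 ^ b := Nat.mul_le_mul_right _ hC
    rw [← pow_add, show m + b = r by omega] at h5
    exact_mod_cast h5
  rcases le_or_gt P.length t0 with h0 | h0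
  · exact near_fac (s0 := t0) hc.le hT h0 hc.lt.le (by have := hc.far; linarith) hc.near him hm
  · refine near_fac (s0 := P.length) hc.le hT le_rfl (by omega) ?_ hc.near him hm
    have hXl : X.length ≤ (X ++ Z1).length := by
      rw [List.length_append]
      omega
    have h1 := hn_fac (A := X) (B := Y0 ++ L.drop t1) hd.inn (s := t0) (s' := P.length) (by omega) (by rw [← hP]; omega)
      (by rw [hP, List.length_append]; omega) (by rw [← hP])
    rw [← eq_w hd] at h1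
    have h2 := dz_hn L t0 P.length
    have h3 := hc.far
    push_cast at h1
    linarith

open Classical in
/-- **case B** -/
theorem w2_B (hc : Cw l r i L t0 t1) (hri : r ≤ i) (hL : L ∈ FTp n l) (hb : 1 ≤ b)
    (hd : Dt κ C b (L.take t1) X Z1 Z2 Z3 Y0) (hh : 1 ≤ h) (hη : η * Ub b ≤ (h : ℝ)) (h4 : 4 * h ≤ nc Z2)
    (hX : (X ++ Z1).length ≤ t0) (hS : S ∈ NPR.GS η E b) (hT : T ∈ NPR.GE η E b) (he : L = S ++ (R ++ T))
    (hSX : S.length ≤ X.length) (hE2 : 24 * (E * 2 ^ b) ≤ 2 ^ i) (him : r = b + m) (hm : 6 ≤ m) (hC : 48 * C ≤ 2 ^ m)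
    (hk : i + 9 ≤ b + k * (m - 6)) (hk2 : 2 ≤ k) :
    ∃ J, h ≤ nD (2 ^ (i + J + 1)) (RhoG2 κ η C (E + 2 * C) b (i - b + J + 1) k) L := by
  have hsa := hL.1
  have hb0 : b ≠ 0 := by omega
  have hTi : In (E * 2 ^ b) T := by
    obtain ⟨N, N3, e1, e2, e3, e4, e5, e6, e7⟩ := (mem_GE hb0).1 hT
    exact e7
  obtain ⟨V, hV⟩ := end_w hc he hTi hE2
  obtain ⟨U, hU⟩ := pre_of_len (S := S) (R := R ++ T) (X := X) (Z := (Z1 ++ (Z2 ++ Z3)) ++ (Y0 ++ L.drop t1))
    (by rw [← he]; exact eq_w hd) hSX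
  obtain ⟨P, hP⟩ : ∃ P, P = X ++ (Z1 ++ (Z2 ++ Z3)) := ⟨_, rfl⟩
  have hPT : L.take t1 = P ++ Y0 := by
    rw [hd.eq, hP]
    simp only [List.append_assoc]
  obtain ⟨J, hJ1, hJ2, hJ3⟩ := ex_J i (Y0 ++ L.drop t1)
  have hnf := big_w hc hd hX him hm hC
  have hbig : ∃ N : ℕ, 2 ^ (i - b + J + 1) ≤ N ^ k ∧ ¬ In (N * 2 ^ b) Y0 := by
    rcases Nat.lt_or_ge J 8 with h6 | h6
    · refine ⟨2 ^ (m - 6), ?_, hnf⟩
      rw [← pow_mul]
      refine Nat.pow_le_pow_right (by norm_num) ?_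
      have : (m - 6) * k = k * (m - 6) := mul_comm _ _
      omega
    · have hJn : ¬ In (2 ^ (i + J - 1)) (Y0 ++ L.drop t1) := by
        rcases hJ3 with h | h
        · omega
        · exact h
      refine ⟨2 ^ (i - b + J - 2), ?_, ?_⟩
      · rw [← pow_mul]
        refine Nat.pow_le_pow_right (by norm_num) ?_
        have : (i - b + J - 2) * 2 ≤ (i - b + J - 2) * k := Nat.mul_le_mul_left _ hk2
        omega
      · rw [← pow_add, show i - b + J - 2 + b = i + J - 2 by omega]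
        refine far_fac (P := P) (K := i + J - 2) hc.le hPT
          (fun s h1 h2 => hc.rest s (lt_of_lt_of_le hc.lt h1) h2) (by omega) ?_
        rw [show i + J - 2 + 1 = i + J - 1 by omega]
        exact hJn
  refine ⟨J, ?_⟩
  obtain ⟨N, hn1, hn2⟩ := hbig
  have h1 := card_rank neW (Z := Z2) (lo := h) (hi := 2 * h) hh (by omega)
  have h2 : 2 * h - h = h := by omega
  rw [h2] at h1
  rw [← h1, ← card_image_of_injective _ (fun x y h => Nat.add_left_cancel h : Function.Injective fun c => (X ++ Z1).length + c)]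
  refine nD_ge fun q hq => ?_
  obtain ⟨c, hcm, rfl⟩ := mem_image.1 hq
  rw [mem_filter] at hcm
  obtain ⟨hc1, hc2, hc3⟩ := hcm
  obtain ⟨a1, a2, a3⟩ := mem_cz.1 hc1
  obtain ⟨f1, f2, f3⟩ := cut_w hd hc.le a1
  have hs := rank_sum neW hc1
  have hcl := hc.le
  refine ⟨by omega, ⟨?_, SA_drop hsa _, ?_, N, hn1, ?_⟩, ?_⟩
  · rw [f2]
    exact twoG_A hb0 hS hU (zd_of hd) hc1 le_rfl hη (by omega)
  · rw [f3]
    refine twoG_Y (V := Y0 ++ V) hb0 hT ?_ (zd_of hd) hc1 le_rfl hη (by omega)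
    rw [hV, List.append_assoc]
  · rw [f3]
    exact ⟨Z2.drop c ++ Z3, Y0, L.drop t1, by simp only [List.append_assoc], hd.nz, hn2⟩
  · rw [f3, ← List.append_assoc]
    have hin1 : In (2 * (C * 2 ^ b)) (Z2.drop c ++ Z3) := by
      refine in_mid (X := Z1 ++ Z2.take c) (R := []) (BU_dx (BU_app hd.b1 a2)) ?_
      have e : (Z1 ++ Z2.take c) ++ ((Z2.drop c ++ Z3) ++ []) = Z1 ++ (Z2 ++ Z3) := by
        rw [List.append_nil, List.append_assoc]
        conv_rhs => rw [← List.take_append_drop c Z2]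
        simp only [List.append_assoc]
      rw [e]
      exact hd.inn
    refine in_mono (in_app (BU_dx (BU_app a3 hd.b3)) hin1 hJ2) ?_
    have h5 : 48 * C * 2 ^ b ≤ 2 ^ m * 2 ^ b := Nat.mul_le_mul_right _ hC
    rw [← pow_add, show m + b = r by omega] at h5
    have h6 : 2 ^ (i + J + 1) = 2 ^ (i + J) + 2 ^ (i + J) := by rw [pow_succ]; ring
    have h7 : 2 ^ r ≤ 2 ^ (i + J) := Nat.pow_le_pow_right (by norm_num) (by omega)
    rw [mul_assoc] at h5
    rw [h6]
    generalize C * 2 ^ b = y at h5 ⊢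
    omega

/-- **case C** -/
theorem w2_C {P : List Bool} (hc : Cw l r i L t0 t1) (hPT : L.take t1 = P ++ Y0) (hN : Y0 ∈ Nz κ C b)
    (hP : In (2 ^ (i + 8)) P) (hnf : ¬ In (2 ^ (m - 6) * 2 ^ b) Y0) (hbi : b ≤ i) (hk : i + 9 ≤ b + k * (m - 6))
    (hk2 : 2 ≤ k) : ∃ J : ℕ, In (2 ^ (i + J)) L ∧ ∃ N : ℕ, 2 ^ (i - b + J) ≤ N ^ k ∧ L ∈ Lz κ C b N := by
  obtain ⟨J, hJ1, hJ2, hJ3⟩ := ex_J i L
  have hL : L = P ++ (Y0 ++ L.drop t1) := by
    conv_lhs => rw [← List.take_append_drop t1 L, hPT, List.append_assoc]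
  refine ⟨J, hJ2, ?_⟩
  have hbig : ∃ N : ℕ, 2 ^ (i - b + J) ≤ N ^ k ∧ ¬ In (N * 2 ^ b) Y0 := by
    rcases Nat.lt_or_ge J 10 with h6 | h6
    · refine ⟨2 ^ (m - 6), ?_, hnf⟩
      rw [← pow_mul]
      refine Nat.pow_le_pow_right (by norm_num) ?_
      have : (m - 6) * k = k * (m - 6) := mul_comm _ _
      omega
    · have hJn : ¬ In (2 ^ (i + J - 1)) L := by
        rcases hJ3 with h | h
        · omega
        · exact h
      refine ⟨2 ^ (i - b + J - 4), ?_, ?_⟩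
      · rw [← pow_mul]
        refine Nat.pow_le_pow_right (by norm_num) ?_
        have : (i - b + J - 4) * 2 ≤ (i - b + J - 4) * k := Nat.mul_le_mul_left _ hk2
        omega
      · rw [← pow_add, show i - b + J - 4 + b = i + J - 4 by omega]
        refine far_fac (P := P) (K := i + J - 4) hc.le hPT
          (fun s h1 h2 => hc.rest s (lt_of_lt_of_le hc.lt h1) h2) (by omega) fun hin => hJn ?_
        rw [hL]
        have h7 := in_app2 hP hin
        refine in_mono h7 ?_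
        have e1 : i + J - 1 = (i + J - 4 + 1) + 2 := by omega
        have e2 : 2 ^ (i + 8) ≤ 2 ^ (i + J - 4 + 1 + 1) := Nat.pow_le_pow_right (by norm_num) (by omega)
        rw [e1, pow_add 2 (i + J - 4 + 1) 2]
        rw [pow_succ 2 (i + J - 4 + 1)] at e2
        omega
  obtain ⟨N, hn1, hn2⟩ := hbig
  exact ⟨N, hn1, P, Y0, L.drop t1, hL, hN, hn2⟩

end W2

open W2

/-- **row E4, deterministic part** -/
theorem esW2 {κ : ℝ} {C : ℕ} : EsW2 κ C := by
  intro E k hk2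
  obtain ⟨m0, hm0⟩ : ∃ m0 : ℕ, 48 * C + 24 * E + 12 < 2 ^ m0 := ⟨48 * C + 24 * E + 12, Nat.lt_two_pow_self⟩
  refine ⟨m0 + 6, fun η n b l r i h L hb hbl hlr hri hk hh hη h4 hL hG hE => ?_⟩
  obtain ⟨S, hS, R, T, hT, he⟩ := hG
  have hb0 : b ≠ 0 := by omega
  have hSi : In (E * 2 ^ b) S := by
    obtain ⟨N, N3, e1, e2, e3, e4, e5, e6, e7⟩ := (mem_GS hb0).1 hS
    exact e7
  have hp0 : 1 ≤ 2 ^ l := Nat.one_le_two_pow
  have hbl2 : 2 ^ b ≤ 2 ^ l := Nat.pow_le_pow_right (by norm_num) hbl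
  have hr : (48 * C + 24 * E + 12) * 2 ^ l ≤ 2 ^ r := by
    calc (48 * C + 24 * E + 12) * 2 ^ l ≤ 2 ^ m0 * 2 ^ l := Nat.mul_le_mul_right _ hm0.le
      _ = 2 ^ (m0 + l) := (pow_add _ _ _).symm
      _ ≤ 2 ^ r := Nat.pow_le_pow_right (by norm_num) (by omega)
  have hri2 : 2 ^ r ≤ 2 ^ i := Nat.pow_le_pow_right (by norm_num) (by omega)
  have hEb : E * 2 ^ b ≤ E * 2 ^ l := Nat.mul_le_mul_left _ hbl2
  have hCb : C * 2 ^ b ≤ C * 2 ^ l := Nat.mul_le_mul_left _ hbl2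
  have hsum : 48 * (C * 2 ^ l) + 24 * (E * 2 ^ l) + 12 * 2 ^ l ≤ 2 ^ r := by
    calc 48 * (C * 2 ^ l) + 24 * (E * 2 ^ l) + 12 * 2 ^ l = (48 * C + 24 * E + 12) * 2 ^ l := by ring
      _ ≤ _ := hr
  have hE1 : 2 * (2 ^ l + 2 + 3 * (E * 2 ^ b) + 6 * (C * 2 ^ b)) ≤ 2 ^ r := by omega
  have hE2 : 24 * (E * 2 ^ b) ≤ 2 ^ i := by omega
  obtain ⟨m, hm⟩ : ∃ m, r = b + m := ⟨r - b, by omega⟩
  have hm6 : 6 ≤ m := by omega
  have hC : 48 * C ≤ 2 ^ m := by
    have h5 : 2 ^ m0 ≤ 2 ^ m := Nat.pow_le_pow_right (by norm_num) (by omega)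
    omega
  have hk' : i + 9 ≤ b + k * (m - 6) := by
    rwa [hm, Nat.add_sub_cancel_left] at hk
  obtain ⟨t0, t1, hc⟩ := cw_of (r := r) (by omega) (by omega) hE
  by_cases hN : L.take t1 ∈ Nz κ C b
  · right; right
    have hPT : L.take t1 = [] ++ L.take t1 := by rw [List.nil_append]
    refine w2_C (P := []) (m := m) hc hPT hN ?_ ?_ (by omega) hk' hk2
    · intro s hs
      rw [List.length_nil] at hs
      have : s = 0 := by omega
      rw [this]
      exact Bl_of_hn (by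
        show TIW.hn (0 : Pt) ≤ _
        have : TIW.hn (0 : Pt) = 0 := by decide
        rw [this]
        positivity)
    · have hr0 : (0 : ℤ) < 2 ^ r := by positivity
      exact near_fac (s0 := t0) hc.le hPT (Nat.zero_le _) hc.lt.le (by have := hc.far; linarith) hc.near hm hm6
  have hsa : L.take t1 ∈ SA := SLW.SA_take (A := L.take t1) (by rw [List.take_append_drop]; exact hL.1)
  obtain ⟨X, Z1, Z2, Z3, Y0, hd⟩ := dt_of neW hsa hN
  have hnz : 4 * h ≤ nc Z2 := by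
    have h5 := h4.trans hd.n2
    exact_mod_cast h5
  rcases Nat.lt_or_ge t0 (X ++ Z1).length with hX | hX
  · exact Or.inl (w2_A hc hri hL hb hd hh hη hnz hX hS hT he hE1 hE2)
  · right
    rcases Nat.lt_or_ge X.length S.length with hSX | hSX
    · right
      obtain ⟨U, hU⟩ := pre_of_len (S := X) (R := (Z1 ++ (Z2 ++ Z3)) ++ (Y0 ++ L.drop t1)) (X := S) (Z := R ++ T)
        (by rw [← he]; exact (eq_w hd).symm) hSX.le
      have hPT : L.take t1 = (X ++ (Z1 ++ (Z2 ++ Z3))) ++ Y0 := by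
        rw [hd.eq]
        simp only [List.append_assoc]
      refine w2_C (m := m) hc hPT hd.nz ?_ (big_w hc hd hX hm hm6 hC) (by omega) hk' hk2
      have hXi : In (E * 2 ^ b) X := by
        intro s hs
        have h5 := hSi s (by rw [hU, List.length_append]; omega)
        rw [hU, vx_append (by omega)] at h5
        exact h5
      refine in_mono (in_app2 hXi hd.inn) ?_
      have h6 : 2 ^ i ≤ 2 ^ (i + 8) := Nat.pow_le_pow_right (by norm_num) (by omega)
      omega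
    · left
      exact w2_B hc (by omega) hL hb hd hh hη hnz hX hS hT he hSX hE2 hm hm6 hC hk' hk2

end ART

end HexObs
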