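import Pool.Agent.ART.ExT

/-!
# ART (helper73): double counting in the class `FTp` with any class `G` of the first part and any factor `Z`

**`exT_gen`**: `ART.exT_of` (helper89) with `G` instead of `GT b η` and `Z` instead of `Xb b`; the mass of `G` is used at the level
`i + (c + 3)` only.
-/

set_option autoImplicit false

namespace HexObs

namespace ART

open Finset TS SDN _root_.HexObs.SIM NTA TIP ARM

open scoped ENNReal

private lemma sum_32x : ∃ S0 : ℝ, 0 ≤ S0 ∧ ∑' k : ℕ, ENNReal.ofReal (((k : ℝ) + 1) ^ (-(3 / 2) : ℝ)) = ENNReal.ofReal S0 := by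
  have h1 : Summable fun k : ℕ => ((k : ℝ) + 1) ^ (-(3 / 2) : ℝ) := by
    have h2 := (summable_nat_add_iff 1).2 (Real.summable_nat_rpow.2 (show (-(3 / 2) : ℝ) < -1 by norm_num))
    refine h2.congr fun k => ?_
    push_cast
    rfl
  exact ⟨∑' k : ℕ, ((k : ℝ) + 1) ^ (-(3 / 2) : ℝ), tsum_nonneg fun k => by positivity,
    (ENNReal.ofReal_tsum_of_nonneg (fun k => by positivity) h1).symm⟩

/-- **double counting, generic** -/
theorem exT_gen (c : ℕ) : ∃ K : ℝ, 0 < K ∧ ∀ (C D : ℝ) (n j i : ℕ) (G : Set (List Bool)) (Z : ℝ≥0∞), 0 < C → 0 ≤ D →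
    (∀ n', n' ≤ n → gf {L | L ∈ FT n' (i + (c + 3)) ∧ L ∈ G} * Z ≤ ENNReal.ofReal (C * D * prT n' (i + (c + 3)))) → j ≤ i →
    ∀ (ρ : List Bool → List Bool → Prop) (x : ℝ≥0∞) (q : ℝ), (∀ A Y, ρ A Y → A ∈ G) →
      (∀ A, gf {Y | ρ A Y ∧ In (2 ^ (i + c)) Y ∧ A ++ Y ∈ FTp n j} ≤ x * ENNReal.ofReal (ARM.wt n A.length i)) → 0 < q →
      gf {L | L ∈ FTp n j ∧ q ≤ (nD (2 ^ (i + c)) ρ L : ℝ)} * (ENNReal.ofReal q * Z) ≤
        ENNReal.ofReal (K * C * D * prT n i) * x := by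
  classical
  obtain ⟨S0, hS0, hsum⟩ := sum_32x
  refine ⟨16 * 64 ^ (c + 3) * (S0 + 1), by positivity, fun C D n j i G Z hC hD hT hji ρ x q hρ hx hq => ?_⟩
  obtain ⟨i', hi'⟩ : ∃ i', i' = i + (c + 3) := ⟨_, rfl⟩
  obtain ⟨s, hs⟩ : ∃ s : ℕ, s = ⌊ml i'⌋₊ := ⟨_, rfl⟩
  have hs1 : (s : ℝ) ≤ ml i' := by rw [hs]; exact Nat.floor_le (ml_pos _).le
  have hs2 : ml i ≤ s := by
    have h1 := Nat.lt_floor_add_one (ml i')
    rw [← hs] at h1
    have h2 := ml_two i (c + 3) (by omega)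
    rw [← hi'] at h2
    have h3 := one_le_ml i
    linarith
  have hs3 : 1 ≤ s := by
    have h1 := (one_le_ml i).trans hs2
    exact_mod_cast h1
  obtain ⟨X, hX⟩ : ∃ X : Set (List Bool), X = {A | A ∈ G ∧ A ∈ SA ∧ (A.length : ℝ) < n + ml j ∧
      TT A (2 ^ i')} := ⟨_, rfl⟩
  obtain ⟨Y, hY⟩ : ∃ Y : List Bool → Set (List Bool), Y = fun A => {Y | ρ A Y ∧ In (2 ^ (i + c)) Y ∧ A ++ Y ∈ FTp n j} :=
    ⟨_, rfl⟩
  obtain ⟨W, hW⟩ : ∃ W : ℕ → Set (List Bool), W = fun k => FT (n - k * s) i' ∩ G := ⟨_, rfl⟩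
  have h1 : ENNReal.ofReal q * gf {L | L ∈ FTp n j ∧ q ≤ (nD (2 ^ (i + c)) ρ L : ℝ)} ≤
      ∑' A : List Bool, if A ∈ X then wE A * gf (Y A) else 0 := by
    refine dcs fun L hL => ?_
    obtain ⟨S, hS, hcut⟩ := nD_cuts (2 ^ (i + c)) ρ L
    refine ⟨S, ?_, fun k hk => ?_⟩
    · rw [← ENNReal.ofReal_natCast]
      refine ENNReal.ofReal_le_ofReal (hL.2.trans ?_)
      exact_mod_cast hS
    · obtain ⟨h2, h3, h4⟩ := hcut k hk
      have h5 : L.take k ++ L.drop k ∈ FTp n j := by rw [List.take_append_drop]; exact hL.1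
      obtain ⟨h6, h7, h8⟩ := fst_FT hji h5 h4
      refine ⟨h2, ?_, ?_⟩
      · rw [hX]
        refine ⟨hρ _ _ h3, h6, h7, ?_⟩
        rw [hi', ← add_assoc]
        exact h8
      · rw [hY]
        exact ⟨h3, h4, h5⟩
  have h2 : (∑' A : List Bool, if A ∈ X then wE A * gf (Y A) else 0) ≤
      ∑' A : List Bool, ∑' k : ℕ, if A ∈ W k then wE A * (x * ENNReal.ofReal (16 / ((k : ℝ) + 1) ^ 4)) else 0 := by
    refine ENNReal.tsum_le_tsum fun A => ?_
    by_cases hA : A ∈ X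
    · rw [if_pos hA]
      obtain ⟨k, hk1, hk2, hk3⟩ := window (n := n) (a := A.length) hs3 hs2
      have hA' := hA
      rw [hX] at hA'
      obtain ⟨g1, g2, g3, g4⟩ := hA'
      have hAW : A ∈ W k := by
        rw [hW]
        refine ⟨⟨g2, hk1, ?_, g4⟩, g1⟩
        rcases hk2 with h3 | ⟨h3, h4⟩
        · have h5 : (A.length : ℝ) < ((n - k * s : ℕ) : ℝ) + s := by exact_mod_cast h3
          linarith
        · rw [h3, zero_mul, Nat.sub_zero]
          have := ml_mono (show j ≤ i' by omega)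
          linarith
      refine le_trans ?_ (ENNReal.le_tsum k)
      rw [if_pos hAW]
      refine mul_le_mul' le_rfl ?_
      rw [hY]
      exact (hx A).trans (mul_le_mul' le_rfl (ENNReal.ofReal_le_ofReal hk3))
    · rw [if_neg hA]
      exact zero_le
  rw [ENNReal.tsum_comm] at h2
  have h3 : ∀ k : ℕ, (∑' A : List Bool, if A ∈ W k then wE A * (x * ENNReal.ofReal (16 / ((k : ℝ) + 1) ^ 4)) else 0) * Z ≤
      ENNReal.ofReal (16 * C * 64 ^ (c + 3) * (D * prT n i)) * x * ENNReal.ofReal (((k : ℝ) + 1) ^ (-(3 / 2) : ℝ)) := by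
    intro k
    have e1 : (∑' A : List Bool, if A ∈ W k then wE A * (x * ENNReal.ofReal (16 / ((k : ℝ) + 1) ^ 4)) else 0) =
        gf (W k) * (x * ENNReal.ofReal (16 / ((k : ℝ) + 1) ^ 4)) := by
      rw [gf_ind (W k), ← ENNReal.tsum_mul_right]
      refine tsum_congr fun A => ?_
      by_cases hA : A ∈ W k
      · rw [if_pos hA, if_pos hA]
      · rw [if_neg hA, if_neg hA, zero_mul]
    have h4 : gf (W k) * Z ≤ ENNReal.ofReal (C * D * prT (n - k * s) i') := by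
      have h := hT (n - k * s) (by omega)
      rw [← hi'] at h
      rw [hW]
      exact h
    have h5 : C * D * prT (n - k * s) i' ≤ C * D * (((k : ℝ) + 1) ^ (5 / 2 : ℝ) * (64 ^ (c + 3) * prT n i)) := by
      refine mul_le_mul_of_nonneg_left ?_ (by positivity)
      refine (prT_back hs1).trans (mul_le_mul_of_nonneg_left ?_ (by positivity))
      rw [hi']
      exact prT_up64 n i (c + 3)
    have hp := prT_nonneg n i
    rw [e1]
    calc gf (W k) * (x * ENNReal.ofReal (16 / ((k : ℝ) + 1) ^ 4)) * Z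
        = gf (W k) * Z * ENNReal.ofReal (16 / ((k : ℝ) + 1) ^ 4) * x := by ring
      _ ≤ ENNReal.ofReal (C * D * (((k : ℝ) + 1) ^ (5 / 2 : ℝ) * (64 ^ (c + 3) * prT n i))) *
          ENNReal.ofReal (16 / ((k : ℝ) + 1) ^ 4) * x :=
          mul_le_mul' (mul_le_mul' (h4.trans (ENNReal.ofReal_le_ofReal h5)) le_rfl) le_rfl
      _ = ENNReal.ofReal (16 * C * 64 ^ (c + 3) * (D * prT n i)) * x * ENNReal.ofReal (((k : ℝ) + 1) ^ (-(3 / 2) : ℝ)) := by
          rw [← ENNReal.ofReal_mul (by positivity),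
            mul_right_comm (ENNReal.ofReal (16 * C * 64 ^ (c + 3) * (D * prT n i))) x, ← ENNReal.ofReal_mul (by positivity)]
          congr 2
          have hk1 : (0 : ℝ) < (k : ℝ) + 1 := by positivity
          have e5 : ((k : ℝ) + 1) ^ (5 / 2 : ℝ) = ((k : ℝ) + 1) ^ (4 : ℕ) * ((k : ℝ) + 1) ^ (-(3 / 2) : ℝ) := by
            rw [← Real.rpow_natCast, ← Real.rpow_add hk1]
            norm_num
          rw [e5]
          field_simp
  have h4 : gf {L | L ∈ FTp n j ∧ q ≤ (nD (2 ^ (i + c)) ρ L : ℝ)} * (ENNReal.ofReal q * Z) ≤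
      ENNReal.ofReal (16 * C * 64 ^ (c + 3) * (D * prT n i)) * x * ENNReal.ofReal S0 := by
    calc gf {L | L ∈ FTp n j ∧ q ≤ (nD (2 ^ (i + c)) ρ L : ℝ)} * (ENNReal.ofReal q * Z)
        = ENNReal.ofReal q * gf {L | L ∈ FTp n j ∧ q ≤ (nD (2 ^ (i + c)) ρ L : ℝ)} * Z := by ring
      _ ≤ (∑' k : ℕ, ∑' A : List Bool, if A ∈ W k then wE A * (x * ENNReal.ofReal (16 / ((k : ℝ) + 1) ^ 4)) else 0) *
          Z := mul_le_mul' (h1.trans h2) le_rfl
      _ = ∑' k : ℕ, (∑' A : List Bool, if A ∈ W k then wE A * (x * ENNReal.ofReal (16 / ((k : ℝ) + 1) ^ 4)) else 0) *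
          Z := ENNReal.tsum_mul_right.symm
      _ ≤ ∑' k : ℕ, ENNReal.ofReal (16 * C * 64 ^ (c + 3) * (D * prT n i)) * x * ENNReal.ofReal (((k : ℝ) + 1) ^ (-(3 / 2) : ℝ)) :=
          ENNReal.tsum_le_tsum h3
      _ = _ := by rw [ENNReal.tsum_mul_left, hsum]
  refine h4.trans ?_
  rw [mul_right_comm]
  refine mul_le_mul' ?_ le_rfl
  have hp := prT_nonneg n i
  rw [← ENNReal.ofReal_mul (by positivity)]
  refine ENNReal.ofReal_le_ofReal ?_
  have h5 : 0 ≤ 16 * C * 64 ^ (c + 3) * (D * prT n i) := by positivity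
  calc 16 * C * 64 ^ (c + 3) * (D * prT n i) * S0 ≤ 16 * C * 64 ^ (c + 3) * (D * prT n i) * (S0 + 1) :=
        mul_le_mul_of_nonneg_left (by linarith) h5
    _ = 16 * 64 ^ (c + 3) * (S0 + 1) * C * D * prT n i := by ring

end ART

end HexObs
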