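import Mathlib

/-!
# ART, row G1 (J4c, helper90): the forced passage

`G1`, `G2` : two parts without contact; `x 0, .., x L` : a path from `G1` to `G2`, every inner point of it has no other neighbours
than its two neighbours on the path. **`forced`**: a path without repetition from `G1` to `G2` in the union is: in `G1`, then the
whole path `x`, then in `G2`.
-/

set_option autoImplicit false

namespace HexObs

namespace ART

/-- **the forced passage** -/
theorem forced {α : Type*} {R : α → α → Prop} {G1 G2 : α → Prop} {x f : ℕ → α} {L n : ℕ}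
    (h12 : ∀ a b, G1 a → G2 b → a ≠ b ∧ ¬ R a b ∧ ¬ R b a) (xL : G2 (x L))
    (xi : ∀ j, 0 < j → j < L → ¬ G1 (x j) ∧ ¬ G2 (x j))
    (xa : ∀ j, 0 < j → j < L → ∀ y, (G1 y ∨ G2 y ∨ ∃ k, 0 < k ∧ k < L ∧ y = x k) → (R (x j) y ∨ R y (x j)) →
      y = x (j - 1) ∨ y = x (j + 1))
    (f0 : G1 (f 0)) (fn : G2 (f n)) (fU : ∀ i, i ≤ n → G1 (f i) ∨ G2 (f i) ∨ ∃ k, 0 < k ∧ k < L ∧ f i = x k)
    (fR : ∀ i, i < n → R (f i) (f (i + 1))) (finj : ∀ i j, i < j → j ≤ n → f i ≠ f j) :
    ∃ i0, i0 + L ≤ n ∧ (∀ j, j ≤ L → f (i0 + j) = x j) ∧ (∀ i, i < i0 → G1 (f i)) ∧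
      ∀ i, i0 + L < i → i ≤ n → G2 (f i) := by
  classical
  have hex : ∃ i, ¬ G1 (f i) := ⟨n, fun h => (h12 _ _ h fn).1 rfl⟩
  obtain ⟨i1, hi1⟩ : ∃ i1, i1 = Nat.find hex := ⟨_, rfl⟩
  have h1 : ¬ G1 (f i1) := by
    rw [hi1]
    exact Nat.find_spec hex
  have h2 : ∀ i, i < i1 → G1 (f i) := fun i hi => by
    rw [hi1] at hi
    exact not_not.1 (Nat.find_min hex hi)
  have h3 : i1 ≤ n := by
    rw [hi1]
    exact Nat.find_min' hex fun h => (h12 _ _ h fn).1 rfl
  obtain ⟨i0, rfl⟩ : ∃ i0, i1 = i0 + 1 := by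
    refine ⟨i1 - 1, ?_⟩
    rcases Nat.eq_zero_or_pos i1 with h | h
    · rw [h] at h1
      exact absurd f0 h1
    · omega
  have hg0 : G1 (f i0) := h2 i0 (by omega)
  have hR0 := fR i0 (by omega)
  -- the first point outside of G1
  have hfirst : f i0 = x 0 ∧ f (i0 + 1) = x 1 ∧ 1 < L := by
    rcases fU (i0 + 1) h3 with h | h | ⟨k, hk1, hk2, hk3⟩
    · exact absurd h h1
    · exact absurd hR0 (h12 _ _ hg0 h).2.1
    · rcases xa k hk1 hk2 (f i0) (Or.inl hg0) (Or.inr (by rw [← hk3]; exact hR0)) with h | h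
      · rcases Nat.eq_or_lt_of_le hk1 with hk | hk
        · subst hk
          exact ⟨h, hk3, hk2⟩
        · rw [h] at hg0
          exact absurd hg0 (xi (k - 1) (by omega) (by omega)).1
      · rcases Nat.eq_or_lt_of_le (show k + 1 ≤ L by omega) with hk | hk
        · rw [h, hk] at hg0
          exact absurd rfl (h12 _ _ hg0 xL).1
        · rw [h] at hg0
          exact absurd hg0 (xi (k + 1) (by omega) hk).1
  have key : ∀ j, j < L → i0 + (j + 1) ≤ n ∧ f (i0 + j) = x j ∧ f (i0 + (j + 1)) = x (j + 1) := by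
    intro j
    induction j with
    | zero => exact fun _ => ⟨h3, hfirst.1, hfirst.2.1⟩
    | succ j ih =>
      intro hj
      obtain ⟨a1, a2, a3⟩ := ih (by omega)
      have hne : i0 + (j + 1) ≠ n := by
        intro h
        rw [← h, a3] at fn
        exact (xi (j + 1) (by omega) hj).2 fn
      refine ⟨by omega, a3, ?_⟩
      have b1 := fR (i0 + (j + 1)) (by omega)
      rw [a3] at b1
      have b2 := fU (i0 + (j + 1) + 1) (by omega)
      rcases xa (j + 1) (by omega) hj _ b2 (Or.inl b1) with h | h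
      · exfalso
        rw [show j + 1 - 1 = j by omega, ← a2] at h
        exact finj (i0 + j) (i0 + (j + 1) + 1) (by omega) (by omega) h.symm
      · exact h
  have hL : 1 < L := hfirst.2.2
  have hall : ∀ j, j ≤ L → i0 + j ≤ n ∧ f (i0 + j) = x j := by
    intro j hj
    rcases Nat.eq_or_lt_of_le hj with h | h
    · obtain ⟨a1, a2, a3⟩ := key (L - 1) (by omega)
      rw [show L - 1 + 1 = L by omega] at a1 a3
      rw [h]
      exact ⟨a1, a3⟩
    · obtain ⟨a1, a2, a3⟩ := key j h
      exact ⟨by omega, a2⟩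
  refine ⟨i0, (hall L le_rfl).1, fun j hj => (hall j hj).2, fun i hi => h2 i (by omega), fun i => ?_⟩
  have hind : ∀ k, i0 + L + k ≤ n → G2 (f (i0 + L + k)) := by
    intro k
    induction k with
    | zero =>
      intro _
      rw [add_zero, (hall L le_rfl).2]
      exact xL
    | succ k ih =>
      intro hk
      have b1 := ih (by omega)
      have b2 := fR (i0 + L + k) (by omega)
      rcases fU (i0 + L + (k + 1)) hk with h | h | ⟨m, hm1, hm2, hm3⟩
      · exact absurd b2 (h12 _ _ h b1).2.2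
      · exact h
      · exfalso
        rw [← (hall m (by omega)).2] at hm3
        exact finj (i0 + m) (i0 + L + (k + 1)) (by omega) hk hm3.symm
  intro hi hin
  obtain ⟨k, rfl⟩ : ∃ k, i = i0 + L + k := ⟨i - (i0 + L), by omega⟩
  exact hind k hin

end ART

end HexObs
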