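import Pool.Agent.ARM.GlueG
import Pool.Agent.ART.DefsG
import Pool.Agent.ART.Tc

/-!
# ART, row G3 (helper87): `glueT : GlueT` (clone of `ARM.GlueGB`, `ARM.GlueG` by helper26)
-/

set_option autoImplicit false

namespace HexObs

namespace ART

open Finset TS SDN SIM NTA TIP ARM ARM.G2

open scoped ENNReal

namespace G3T

lemma GFT_sub {n j : ℕ} {η κ : ℝ} {a m c u e k : ℕ} {L : List Bool} (h : L ∈ GFT n j η κ a m c u e k) :
    L ∈ ARM.GF n j η κ a m c u e k := by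
  obtain ⟨⟨h1, h2, h3, h4⟩, h5⟩ := h
  refine ⟨⟨h1, h2, h3, ?_⟩, h5⟩
  rw [sub_zero]
  have h6 := h4.1
  exact_mod_cast h6

lemma four_powT (s : ℕ) : ((4 : ℝ) ^ s) ^ (5 / 2 : ℝ) = 32 ^ s := by
  rw [← Real.rpow_natCast 4 s, ← Real.rpow_mul (by norm_num), mul_comm, Real.rpow_mul (by norm_num), Real.rpow_natCast]
  congr 1
  rw [show (4 : ℝ) = 2 ^ (2 : ℝ) by norm_num, ← Real.rpow_mul (by norm_num)]
  norm_num

lemma Jp_cut {E : ℕ → Pt} {r : ℕ} {D : ℤ} {k : ℕ} {R : ℤ} {M : List Bool} (h : Jp E r D k R M) :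
    Jp (cutE E r) r D k R M := by
  obtain ⟨d, hd, j, hj, h⟩ := h
  refine ⟨d, hd, j, hj, ?_⟩
  rw [cutE_qv hj]
  exact h

/-- a missing length -/
lemma num1T (n x y j : ℕ) : (max ((n - (x + y) : ℕ) : ℝ) (ml j)) ^ (-(5 / 2 : ℝ)) ≤
    (max (n : ℝ) (ml j)) ^ (-(5 / 2 : ℝ)) * ((1 + (x : ℝ) / ml j) ^ 3 * (1 + (y : ℝ) / ml j) ^ 3) := by
  have hm := m_pos j
  have hx : (0 : ℝ) ≤ (x : ℝ) / ml j := by positivity
  have hy : (0 : ℝ) ≤ (y : ℝ) / ml j := by positivity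
  obtain ⟨A, hA⟩ : ∃ A, A = max ((n - (x + y) : ℕ) : ℝ) (ml j) := ⟨_, rfl⟩
  obtain ⟨B, hB⟩ : ∃ B, B = max (n : ℝ) (ml j) := ⟨_, rfl⟩
  obtain ⟨w, hw⟩ : ∃ w, w = (1 + (x : ℝ) / ml j) * (1 + (y : ℝ) / ml j) := ⟨_, rfl⟩
  have hA0 : 0 < A := by rw [hA]; exact lt_max_of_lt_right hm
  have hB0 : 0 < B := by rw [hB]; exact lt_max_of_lt_right hm
  have hw1 : 1 ≤ w := by
    rw [hw]
    nlinarith [mul_nonneg hx hy]
  have hw0 : 0 < w := by linarith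
  have hmA : ml j ≤ A := by rw [hA]; exact le_max_right _ _
  have h1 : B ≤ A * w := by
    rw [hB]
    refine max_le ?_ ?_
    · have e : (n : ℝ) ≤ ((n - (x + y) : ℕ) : ℝ) + (x + y) := by
        exact_mod_cast (by omega : n ≤ n - (x + y) + (x + y))
      have e1 : ((n - (x + y) : ℕ) : ℝ) ≤ A := by rw [hA]; exact le_max_left _ _
      have e2 : (x : ℝ) ≤ A * ((x : ℝ) / ml j) := by
        calc (x : ℝ) = ml j * ((x : ℝ) / ml j) := by field_simp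
          _ ≤ _ := by gcongr
      have e3 : (y : ℝ) ≤ A * ((y : ℝ) / ml j) := by
        calc (y : ℝ) = ml j * ((y : ℝ) / ml j) := by field_simp
          _ ≤ _ := by gcongr
      rw [hw]
      nlinarith [mul_nonneg hA0.le (mul_nonneg hx hy)]
    · nlinarith
  have h2 : A ^ (-(5 / 2 : ℝ)) ≤ (B / w) ^ (-(5 / 2 : ℝ)) := by
    apply Real.rpow_le_rpow_of_nonpos (by positivity)
    · rw [div_le_iff₀ hw0]
      exact h1
    · norm_num
  have h3 : (B / w) ^ (-(5 / 2 : ℝ)) = B ^ (-(5 / 2 : ℝ)) * w ^ (5 / 2 : ℝ) := by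
    rw [Real.div_rpow hB0.le hw0.le, Real.rpow_neg hw0.le, div_inv_eq_mul]
  have h4 : w ^ (5 / 2 : ℝ) ≤ w ^ 3 := by
    rw [← Real.rpow_natCast w 3]
    apply Real.rpow_le_rpow_of_exponent_le hw1
    norm_num
  rw [← hA, ← hB, ← mul_pow, ← hw]
  refine h2.trans (h3.le.trans ?_)
  have : 0 ≤ B ^ (-(5 / 2 : ℝ)) := by positivity
  gcongr

/-- a window of `ml j` by windows of `ml k` -/
lemma winT {Q : Set (List Bool)} {C : ℝ} {k j sx : ℕ} (hC : 0 < C) (hk : k ≤ j) (hj : j ≤ k + sx)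
    (h : ∀ n' : ℕ, gf {M | M ∈ Q ∧ n' ≤ M.length ∧ (M.length : ℝ) < n' + ml k} ≤
      ENNReal.ofReal (C * (4 ^ k * Ub k) * (ml k * (max (n' : ℝ) (ml k)) ^ (-(5 / 2 : ℝ))))) (N : ℕ) :
    gf {M | M ∈ Q ∧ N ≤ M.length ∧ (M.length : ℝ) < N + ml j} ≤
      ENNReal.ofReal ((2 * 4 ^ sx + 1) * (C * (4 ^ j * Ub j) * (ml j * (32 ^ sx * (max (N : ℝ) (ml j)) ^ (-(5 / 2 : ℝ)))))) := by
  classical
  have hm := m_pos k
  have hm1 := m_one k
  obtain ⟨s, hs⟩ : ∃ s, s = ⌊ml k⌋₊ := ⟨_, rfl⟩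
  have hs1 : 1 ≤ s := by
    rw [hs]
    exact Nat.le_floor (by exact_mod_cast hm1)
  have hs2 : (s : ℝ) ≤ ml k := by
    rw [hs]
    exact Nat.floor_le hm.le
  have hs3 : ml k ≤ 2 * (s : ℝ) := by
    have h1 : ml k < (s : ℝ) + 1 := by
      rw [hs]
      exact Nat.lt_floor_add_one _
    have h2 : (1 : ℝ) ≤ s := by exact_mod_cast hs1
    linarith
  have hcov : {M | M ∈ Q ∧ N ≤ M.length ∧ (M.length : ℝ) < N + ml j} ⊆
      ⋃ t ∈ range (2 * 4 ^ sx + 1), {M | M ∈ Q ∧ N + t * s ≤ M.length ∧ (M.length : ℝ) < ((N + t * s : ℕ) : ℝ) + ml k} := by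
    intro M hM
    obtain ⟨h1, h2, h3⟩ := hM
    simp only [Set.mem_iUnion, exists_prop]
    have h4 := Nat.div_add_mod (M.length - N) s
    have h5 := Nat.mod_lt (M.length - N) hs1
    refine ⟨(M.length - N) / s, ?_, h1, ?_, ?_⟩
    · rw [mem_range]
      have h6 : ((M.length - N : ℕ) : ℝ) < 4 ^ sx * (2 * s) := by
        rw [Nat.cast_sub h2]
        have h7 := m_up hj
        have h8 : (0 : ℝ) < 4 ^ sx := by positivity
        nlinarith
      have h7 : M.length - N < 4 ^ sx * (2 * s) := by exact_mod_cast h6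
      have h8 : (M.length - N) / s < 2 * 4 ^ sx := by
        rw [Nat.div_lt_iff_lt_mul hs1]
        calc M.length - N < 4 ^ sx * (2 * s) := h7
          _ = 2 * 4 ^ sx * s := by ring
      omega
    · have : s * ((M.length - N) / s) = (M.length - N) / s * s := mul_comm _ _
      omega
    · have h6 : M.length < N + (M.length - N) / s * s + s := by
        have : s * ((M.length - N) / s) = (M.length - N) / s * s := mul_comm _ _
        omega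
      have h7 : (M.length : ℝ) < ((N + (M.length - N) / s * s : ℕ) : ℝ) + s := by exact_mod_cast h6
      linarith
  have hA : ∀ t : ℕ, C * (4 ^ k * Ub k) * (ml k * (max ((N + t * s : ℕ) : ℝ) (ml k)) ^ (-(5 / 2 : ℝ))) ≤
      C * (4 ^ j * Ub j) * (ml j * (32 ^ sx * (max (N : ℝ) (ml j)) ^ (-(5 / 2 : ℝ)))) := by
    intro t
    have hUk := U_pos k
    have hUj := U_pos j
    have h1 : Ub k ≤ Ub j := Num2Aux.UU_mono (Nat.pow_le_pow_right (by norm_num) hk)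
    have h2 : (4 : ℝ) ^ k ≤ 4 ^ j := pow_le_pow_right₀ (by norm_num) hk
    have h8 : (0 : ℝ) < 4 ^ sx := by positivity
    have hmj := m_pos j
    have hB0 : 0 < max (N : ℝ) (ml j) := lt_max_of_lt_right hmj
    have h3 : max (N : ℝ) (ml j) / 4 ^ sx ≤ max ((N + t * s : ℕ) : ℝ) (ml k) := by
      rw [div_le_iff₀ h8]
      refine max_le ?_ ?_
      · have e1 : (N : ℝ) ≤ ((N + t * s : ℕ) : ℝ) := by exact_mod_cast (by omega : N ≤ N + t * s)
        have e2 : ((N + t * s : ℕ) : ℝ) ≤ max ((N + t * s : ℕ) : ℝ) (ml k) := le_max_left _ _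
        have e3 : (1 : ℝ) ≤ 4 ^ sx := one_le_pow₀ (by norm_num)
        have e4 : 0 ≤ max ((N + t * s : ℕ) : ℝ) (ml k) := (Nat.cast_nonneg _).trans e2
        nlinarith
      · have e1 := m_up hj
        have e2 : ml k ≤ max ((N + t * s : ℕ) : ℝ) (ml k) := le_max_right _ _
        nlinarith
    have h4 : (max ((N + t * s : ℕ) : ℝ) (ml k)) ^ (-(5 / 2 : ℝ)) ≤ 32 ^ sx * (max (N : ℝ) (ml j)) ^ (-(5 / 2 : ℝ)) := by
      refine (Real.rpow_le_rpow_of_nonpos (by positivity) h3 (by norm_num)).trans (le_of_eq ?_)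
      rw [Real.div_rpow hB0.le h8.le, Real.rpow_neg h8.le, div_inv_eq_mul, four_powT]
      ring
    have h5 : 0 ≤ (max ((N + t * s : ℕ) : ℝ) (ml k)) ^ (-(5 / 2 : ℝ)) := by positivity
    have h6 : 0 ≤ C * (4 ^ j * Ub j) := by positivity
    have hmk := m_pos k
    have hmm : ml k ≤ ml j := ml_le hk
    refine mul_le_mul ?_ (mul_le_mul hmm h4 h5 (m_pos j).le) (by positivity) h6
    gcongr
  calc gf {M | M ∈ Q ∧ N ≤ M.length ∧ (M.length : ℝ) < N + ml j}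
      ≤ gf (⋃ t ∈ range (2 * 4 ^ sx + 1),
          {M | M ∈ Q ∧ N + t * s ≤ M.length ∧ (M.length : ℝ) < ((N + t * s : ℕ) : ℝ) + ml k}) := gf_mono hcov
    _ ≤ ∑ t ∈ range (2 * 4 ^ sx + 1),
          gf {M | M ∈ Q ∧ N + t * s ≤ M.length ∧ (M.length : ℝ) < ((N + t * s : ℕ) : ℝ) + ml k} := by
        unfold gf
        exact ENNReal.tsum_biUnion_le wE _ _
    _ ≤ ∑ _t ∈ range (2 * 4 ^ sx + 1),
          ENNReal.ofReal (C * (4 ^ j * Ub j) * (ml j * (32 ^ sx * (max (N : ℝ) (ml j)) ^ (-(5 / 2 : ℝ))))) :=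
        sum_le_sum fun t _ => (h (N + t * s)).trans (ENNReal.ofReal_le_ofReal (hA t))
    _ = _ := by
        have e : ((2 * 4 ^ sx + 1 : ℕ) : ℝ≥0∞) = ENNReal.ofReal (2 * 4 ^ sx + 1) := by
          rw [← ENNReal.ofReal_natCast]
          push_cast
          rfl
        rw [sum_const, card_range, nsmul_eq_mul, e, ← ENNReal.ofReal_mul (by positivity)]

theorem mid_massT {H Mx sx k0 K : ℕ} {C1 : ℝ} (hC1 : 0 < C1)
    (hJ : ∀ (k r n : ℕ) (D : ℤ) (E : ℕ → Pt), k0 ≤ k → 18 * (H * 2 ^ k) ≤ D → D ≤ 36 * (H * 2 ^ k) → 3 ≤ r → r ≤ Mx →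
      IPg E r → E (r - 1) = up → gf {M | Jn E r D k M ∧ Jp E r D k (K * 2 ^ k) M ∧ n ≤ M.length ∧ (M.length : ℝ) < n + ml k} ≤
        ENNReal.ofReal (C1 * (4 ^ k * Ub k) * (ml k * (max (n : ℝ) (ml k)) ^ (-(5 / 2 : ℝ)))))
    {j : ℕ} (hj : k0 + sx ≤ j) {DD : Finset ℤ} (hDD : DD.card ≤ Mx) {Q : Set (List Bool)} {N : ℕ}
    (hQ : ∀ M ∈ Q, N ≤ M.length ∧ (M.length : ℝ) < N + ml j ∧ ∃ (k' r : ℕ) (D : ℤ) (E : ℕ → Pt), D ∈ DD ∧
      Cnd H Mx sx j k' r D E ∧ Jn E r D k' M ∧ Jp E r D k' (K * 2 ^ k') M) :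
    gf Q ≤ ENNReal.ofReal ((((sx + 1) * ((Mx + 1) * (Mx * 6 ^ Mx)) : ℕ) : ℝ) *
      ((2 * 4 ^ sx + 1) * (C1 * (4 ^ j * Ub j) * (ml j * (32 ^ sx * (max (N : ℝ) (ml j)) ^ (-(5 / 2 : ℝ))))))) := by
  classical
  obtain ⟨I, hI⟩ : ∃ I, I = (Icc (j - sx) j) ×ˢ (range (Mx + 1)) ×ˢ DD ×ˢ G2.EE Mx := ⟨_, rfl⟩
  have hcard : I.card ≤ (sx + 1) * ((Mx + 1) * (Mx * 6 ^ Mx)) := by
    rw [hI, card_product, card_product, card_product, Nat.card_Icc, card_range]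
    exact Nat.mul_le_mul (by omega) (Nat.mul_le_mul_left _ (Nat.mul_le_mul hDD (EE_card Mx)))
  have hcov : Q ⊆ ⋃ ι ∈ I, {M | (Cnd H Mx sx j ι.1 ι.2.1 ι.2.2.1 ι.2.2.2 ∧ Jn ι.2.2.2 ι.2.1 ι.2.2.1 ι.1 M ∧ Jp ι.2.2.2 ι.2.1 ι.2.2.1 ι.1 (K * 2 ^ ι.1) M) ∧
      N ≤ M.length ∧ (M.length : ℝ) < N + ml j} := by
    intro M hM
    obtain ⟨h1, h2, k', r, D, E, hD, hc, hJn, hJp⟩ := hQ M hM
    obtain ⟨c1, c2, c3, c4, c5, c6, c7, c8⟩ := hc
    simp only [Set.mem_iUnion, exists_prop]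
    refine ⟨(k', r, D, cutE E r), ?_, ⟨⟨c1, c2, c3, c4, c5, c6, IPg_cut c7, ?_⟩, Jn_cut c5 hJn, Jp_cut hJp⟩, h1, h2⟩
    · rw [hI]
      simp only [mem_product, mem_Icc, mem_range]
      exact ⟨⟨by omega, c1⟩, by omega, hD, cutE_mem c6 c7⟩
    · show cutE E r (r - 1) = up
      rw [cutE_lt (by omega)]
      exact c8
  have hB : ∀ ι ∈ I, gf {M | (Cnd H Mx sx j ι.1 ι.2.1 ι.2.2.1 ι.2.2.2 ∧ Jn ι.2.2.2 ι.2.1 ι.2.2.1 ι.1 M ∧ Jp ι.2.2.2 ι.2.1 ι.2.2.1 ι.1 (K * 2 ^ ι.1) M) ∧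
      N ≤ M.length ∧ (M.length : ℝ) < N + ml j} ≤
      ENNReal.ofReal ((2 * 4 ^ sx + 1) * (C1 * (4 ^ j * Ub j) * (ml j * (32 ^ sx * (max (N : ℝ) (ml j)) ^ (-(5 / 2 : ℝ)))))) := by
    rintro ⟨k', r, D, E⟩ -
    by_cases hc : Cnd H Mx sx j k' r D E
    · obtain ⟨c1, c2, c3, c4, c5, c6, c7, c8⟩ := hc
      refine (gf_mono (Q := {M | M ∈ {M | Jn E r D k' M ∧ Jp E r D k' (K * 2 ^ k') M} ∧ N ≤ M.length ∧ (M.length : ℝ) < N + ml j})
        fun M hM => ⟨hM.1.2, hM.2⟩).trans ?_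
      refine winT hC1 c1 c2 (fun n' => ?_) N
      refine (gf_mono fun M hM => ?_).trans (hJ k' r n' D E (by omega) c3 c4 c5 c6 c7 c8)
      exact ⟨hM.1.1, hM.1.2, hM.2⟩
    · refine (gf_mono (Q := ∅) fun M hM => hc hM.1.1).trans ?_
      unfold gf
      simp
  calc gf Q ≤ gf (⋃ ι ∈ I, {M | (Cnd H Mx sx j ι.1 ι.2.1 ι.2.2.1 ι.2.2.2 ∧ Jn ι.2.2.2 ι.2.1 ι.2.2.1 ι.1 M ∧ Jp ι.2.2.2 ι.2.1 ι.2.2.1 ι.1 (K * 2 ^ ι.1) M) ∧
          N ≤ M.length ∧ (M.length : ℝ) < N + ml j}) := gf_mono hcov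
    _ ≤ ∑ ι ∈ I, gf {M | (Cnd H Mx sx j ι.1 ι.2.1 ι.2.2.1 ι.2.2.2 ∧ Jn ι.2.2.2 ι.2.1 ι.2.2.1 ι.1 M ∧ Jp ι.2.2.2 ι.2.1 ι.2.2.1 ι.1 (K * 2 ^ ι.1) M) ∧
          N ≤ M.length ∧ (M.length : ℝ) < N + ml j} := by
        unfold gf
        exact ENNReal.tsum_biUnion_le wE _ _
    _ ≤ ∑ _ι ∈ I, ENNReal.ofReal ((2 * 4 ^ sx + 1) *
          (C1 * (4 ^ j * Ub j) * (ml j * (32 ^ sx * (max (N : ℝ) (ml j)) ^ (-(5 / 2 : ℝ)))))) := sum_le_sum hB
    _ ≤ _ := by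
        rw [sum_const, nsmul_eq_mul]
        refine (mul_le_mul_left (Nat.cast_le.2 hcard) _).trans (le_of_eq ?_)
        rw [← ENNReal.ofReal_natCast, ← ENNReal.ofReal_mul (Nat.cast_nonneg _)]

/-- the numbers -/
lemma num2T {C3 C4 : ℝ} (hC3 : 0 < C3) (hC4 : 0 < C4) {κ C2 K : ℝ} (hκ : 0 < κ) (hC2 : 0 < C2) (hK : 0 < K)
    (hU : ∀ k : ℕ, Ub k ≤ C4 * 2 ^ (3 / 4 * (k : ℝ))) (n j : ℕ) :
    K * (4 ^ j * Ub j) * (ml j * (max (n : ℝ) (ml j)) ^ (-(5 / 2 : ℝ))) * ((C2 * Ub j) ^ 2 * (C3 * 2 ^ (25 / 24 * (j : ℝ)))) /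
      (κ * Ub j) ^ 2 ≤ (K * C2 ^ 2 * C3 * C4 / κ ^ 2) * prT n j := by
  have hUj := U_pos j
  have hm := m_pos j
  have hB0 : 0 < max (n : ℝ) (ml j) := lt_max_of_lt_right hm
  have e1 : prT n j = 2 ^ ((43 / 24 : ℝ) * (j : ℝ)) * (4 ^ j * (ml j * (max (n : ℝ) (ml j)) ^ (-(5 / 2 : ℝ)))) := by
    unfold prT
    rw [Real.div_rpow hm.le hB0.le, Real.rpow_neg hB0.le, ← div_eq_mul_inv]
    have e2 : (ml j) ^ (5 / 2 : ℝ) = 4 ^ j * ml j := by
      rw [show (5 / 2 : ℝ) = 3 / 2 + 1 by norm_num, Real.rpow_add hm, Real.rpow_one]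
      congr 1
      unfold ml
      rw [← Real.rpow_mul (by norm_num), show (4 / 3 : ℝ) * (j : ℝ) * (3 / 2) = 2 * (j : ℝ) by ring,
        Real.rpow_mul (by norm_num), Real.rpow_natCast]
      norm_num
    rw [e2]
    ring
  have e3 : (2 : ℝ) ^ ((43 / 24 : ℝ) * (j : ℝ)) = 2 ^ (3 / 4 * (j : ℝ)) * 2 ^ (25 / 24 * (j : ℝ)) := by
    rw [← Real.rpow_add (by norm_num)]
    congr 1
    ring
  obtain ⟨B, hB⟩ : ∃ B, B = ml j * (max (n : ℝ) (ml j)) ^ (-(5 / 2 : ℝ)) := ⟨_, rfl⟩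
  have hBp : 0 < B := by
    rw [hB]
    positivity
  rw [e1, e3, ← hB, div_le_iff₀ (by positivity)]
  have h1 := hU j
  have h2 : (0 : ℝ) < 2 ^ (3 / 4 * (j : ℝ)) := by positivity
  have h3 : (0 : ℝ) < 2 ^ (25 / 24 * (j : ℝ)) := by positivity
  calc K * (4 ^ j * Ub j) * B * ((C2 * Ub j) ^ 2 * (C3 * 2 ^ (25 / 24 * (j : ℝ))))
      = K * C2 ^ 2 * C3 * (4 ^ j * B * 2 ^ (25 / 24 * (j : ℝ)) * Ub j ^ 2) * Ub j := by ring
    _ ≤ K * C2 ^ 2 * C3 * (4 ^ j * B * 2 ^ (25 / 24 * (j : ℝ)) * Ub j ^ 2) * (C4 * 2 ^ (3 / 4 * (j : ℝ))) := by gcongr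
    _ = _ := by
        field_simp

/-- **row G3** -/
theorem glueT : GlueT := by
  classical
  intro hJoin hJM hY η κ a m hη hκ
  obtain ⟨k, c0, hJoin⟩ := hJoin η κ a m hη hκ
  refine ⟨k, max c0 (m + 5), fun c u e hc hcu hke => ?_⟩
  obtain ⟨H0, hH0, hJM⟩ := hJM
  obtain ⟨Mx, sx, K, b1, hJoin⟩ := hJoin c u e ((le_max_left _ _).trans hc) hcu hke H0 hH0
  obtain ⟨C1, k0, hC1, hJM⟩ := hJM H0 le_rfl Mx K
  obtain ⟨C2, hC2, hY⟩ := hY η m 3 hη
  obtain ⟨C3, hC3, hX⟩ := TPC.xUp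
  obtain ⟨c4, C4, -, hC4, hU⟩ := TPC.An.Ub_two
  have hu : m + 5 ≤ u := (le_max_right _ _).trans (hc.trans hcu)
  obtain ⟨K0, hK0⟩ : ∃ K0 : ℝ, K0 = (((sx + 1) * ((Mx + 1) * (Mx * 6 ^ Mx)) : ℕ) : ℝ) * ((2 * 4 ^ sx + 1) * (C1 * 32 ^ sx)) + 1 :=
    ⟨_, rfl⟩
  have hK1 : (((sx + 1) * ((Mx + 1) * (Mx * 6 ^ Mx)) : ℕ) : ℝ) * ((2 * 4 ^ sx + 1) * (C1 * 32 ^ sx)) ≤ K0 := by
    rw [hK0]
    linarith
  have hKp : 0 < K0 := by
    rw [hK0]
    positivity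
  refine ⟨K0 * C2 ^ 2 * C3 * C4 / κ ^ 2, max b1 (k0 + sx), by positivity, fun n j hj hn => ?_⟩
  have hj1 : b1 ≤ j := (le_max_left _ _).trans hj
  have hj2 : k0 + sx ≤ j := (le_max_right _ _).trans hj
  have hm := m_pos j
  have hm1 := m_one j
  have hUj := U_pos j
  have hn1 : 2 ^ b1 * ml j ≤ n := by
    refine le_trans ?_ hn
    have : (2 : ℝ) ^ b1 ≤ 2 ^ max b1 (k0 + sx) := pow_le_pow_right₀ (by norm_num) (le_max_left _ _)
    gcongr
  have hn0 : 1 ≤ n := by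
    have h1 : (1 : ℝ) ≤ 2 ^ max b1 (k0 + sx) := one_le_pow₀ (by norm_num)
    have h2 : (1 : ℝ) ≤ n := by nlinarith
    exact_mod_cast h2
  obtain ⟨DD, hDD, hJoin⟩ := hJoin j hj1
  have hJoin := hJoin n hn1
  -- the class of the outer parts and its weight
  obtain ⟨YY, hYY⟩ : ∃ YY : Set (List Bool), YY = {Y | Y ∈ SA ∧ rev Y ∈ GT j η ∧ In (2 ^ (j + m)) Y} := ⟨_, rfl⟩
  obtain ⟨g, hg⟩ : ∃ g : List Bool → ℝ≥0∞, g = fun Y => if Y ∈ YY then
    wE Y * ENNReal.ofReal ((1 + (Y.length : ℝ) / ml j) ^ 3) else 0 := ⟨_, rfl⟩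
  have hgs : ∑' Y : List Bool, g Y ≤ ENNReal.ofReal (C2 * Ub j) * Xb j := by
    refine le_trans (le_of_eq ?_) (hY j)
    rw [← hYY, _root_.tsum_subtype YY (fun Y => wE Y * ENNReal.ofReal ((1 + (Y.length : ℝ) / ml j) ^ 3))]
    refine tsum_congr fun Y => ?_
    rw [hg, Set.indicator_apply]
  obtain ⟨B, hB⟩ : ∃ B, B = (max (n : ℝ) (ml j)) ^ (-(5 / 2 : ℝ)) := ⟨_, rfl⟩
  have hBp : 0 < B := by
    have hB0 : 0 < max (n : ℝ) (ml j) := lt_max_of_lt_right hm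
    rw [hB]
    positivity
  have key : ENNReal.ofReal ((κ * Ub j) ^ 2) * gf (GFT n j η κ a m c u e k) ≤
      ENNReal.ofReal (K0 * (4 ^ j * Ub j) * (ml j * B)) * (∑' Y : List Bool, g Y) ^ 2 := by
    refine G2.dsum (P := fun M p => p.1 ++ (M ++ p.2) ∈ GFT n j η κ a m c u e k ∧ CutP j a m η p.1 M p.2) ?_ ?_
    · intro L hL
      obtain ⟨S, h1, h2⟩ := pairs hκ hu hn0 (GFT_sub hL)
      refine ⟨S, h1, fun q hq => ?_⟩
      obtain ⟨h3, h4, h5⟩ := h2 q hq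
      refine ⟨h3, h4, ?_, h5⟩
      have h6 : L.take q.1 = (L.take q.2).take q.1 := by rw [List.take_take, min_eq_left h3]
      show L.take q.1 ++ ((L.take q.2).drop q.1 ++ L.drop q.2) ∈ GFT n j η κ a m c u e k
      rw [← List.append_assoc, h6, List.take_append_drop, List.take_append_drop]
      exact hL
    · intro X Y
      by_cases hne : ∃ M, X ++ (M ++ Y) ∈ GFT n j η κ a m c u e k ∧ CutP j a m η X M Y
      · obtain ⟨M0, hM0, hc0⟩ := hne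
        have hSA : X ++ (M0 ++ Y) ∈ SA := hM0.1.1
        have hYm : Y ∈ YY := by
          rw [hYY]
          exact ⟨TIP.Nf.SA_suf (TIP.Nf.SA_suf hSA), hc0.1.1, hc0.1.2.1⟩
        have hlenM : 1 ≤ (M0 ++ Y).length := by
          by_contra hlt
          have h0 : M0 ++ Y = [] := List.length_eq_zero_iff.1 (by omega)
          obtain ⟨s, hs, hfar⟩ := hM0.2.1
          rw [h0, List.append_nil] at hs hfar
          have h1 := near_start (D := 2 ^ (j + m)) (L := X) (q := X.length) (s := s)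
            (by rw [List.take_length]; exact hc0.2.2.1) hs le_rfl
          have h2 := near_start (D := 2 ^ (j + m)) (L := X) (q := X.length) (s := X.length)
            (by rw [List.take_length]; exact hc0.2.2.1) le_rfl le_rfl
          have h3 : dz X s ≤ TIW.hn (vx oo up X s) + TIW.hn (vx oo up X X.length) := TIW.hn_sub _ _
          have e1 : (2 : ℤ) ^ (j + u) = 2 ^ (j + m + 5) * 2 ^ (u - (m + 5)) := by
            rw [← pow_add]
            congr 1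
            omega
          have e2 : (1 : ℤ) ≤ 2 ^ (u - (m + 5)) := one_le_pow₀ (by norm_num)
          have e3 : (2 : ℤ) ^ (j + m + 5) = 32 * 2 ^ (j + m) := by ring
          have e5 : (1 : ℤ) ≤ 2 ^ (j + m) := one_le_pow₀ (by norm_num)
          rw [e1, e3] at hfar
          push_cast at h1 h2
          nlinarith
        have hXm : rev X ∈ YY := by
          rw [hYY]
          refine ⟨?_, by rw [rev_rev]; exact hc0.2.1, hc0.2.2.1⟩
          have h1 : ARM.rv (X ++ (M0 ++ Y)) ∈ SA := RevM.rev_SA hSA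
          have h2 : ARM.rv (X ++ (M0 ++ Y)) = (rev (M0 ++ Y)).drop 1 ++ rev X := by
            unfold ARM.rv
            rw [rev_app, List.drop_append_of_le_length (by rw [rev_length]; exact hlenM)]
          rw [h2] at h1
          exact TIP.Nf.SA_suf h1
        have hbd : gf {M | X ++ (M ++ Y) ∈ GFT n j η κ a m c u e k ∧ CutP j a m η X M Y} ≤
            ENNReal.ofReal (K0 * (4 ^ j * Ub j) * (ml j * B)) * (ENNReal.ofReal ((1 + (X.length : ℝ) / ml j) ^ 3) *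
              ENNReal.ofReal ((1 + (Y.length : ℝ) / ml j) ^ 3)) := by
          have h1 := mid_massT (K := K) (H := H0) (Mx := Mx) (sx := sx) (k0 := k0) hC1
            (fun k r n D E hk h2 h3 h4 h5 h6 h7 => hJM k r n D E hk h2 h3 h4 h5 h6 h7) hj2 hDD
            (Q := {M | X ++ (M ++ Y) ∈ GFT n j η κ a m c u e k ∧ CutP j a m η X M Y}) (N := n - (X.length + Y.length)) ?_
          · refine h1.trans ?_
            rw [← ENNReal.ofReal_mul (by positivity), ← ENNReal.ofReal_mul (by positivity)]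
            refine ENNReal.ofReal_le_ofReal ?_
            have h2 := num1T n X.length Y.length j
            rw [← hB] at h2
            obtain ⟨W, hW⟩ : ∃ W : ℝ, W = (1 + (X.length : ℝ) / ml j) ^ 3 * (1 + (Y.length : ℝ) / ml j) ^ 3 := ⟨_, rfl⟩
            have hW0 : 0 ≤ W := by
              rw [hW]
              positivity
            rw [← hW] at h2 ⊢
            calc (((sx + 1) * ((Mx + 1) * (Mx * 6 ^ Mx)) : ℕ) : ℝ) * ((2 * 4 ^ sx + 1) * (C1 * (4 ^ j * Ub j) *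
                  (ml j * (32 ^ sx * (max ((n - (X.length + Y.length) : ℕ) : ℝ) (ml j)) ^ (-(5 / 2 : ℝ))))))
                ≤ (((sx + 1) * ((Mx + 1) * (Mx * 6 ^ Mx)) : ℕ) : ℝ) * ((2 * 4 ^ sx + 1) * (C1 * (4 ^ j * Ub j) *
                  (ml j * (32 ^ sx * (B * W))))) := by gcongr
              _ = (((sx + 1) * ((Mx + 1) * (Mx * 6 ^ Mx)) : ℕ) : ℝ) * ((2 * 4 ^ sx + 1) * (C1 * 32 ^ sx)) *
                  (4 ^ j * Ub j) * (ml j * B) * W := by ring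
              _ ≤ K0 * (4 ^ j * Ub j) * (ml j * B) * W := by gcongr
          · intro M hM
            obtain ⟨hM1, hM2⟩ := hM
            obtain ⟨k', r, D, E, hD, c1, c2, c3, c4, c5, c6, c7, c8, -, c9, c10⟩ := hJoin X M Y hM1 hM2
            have h2 : n ≤ (X ++ (M ++ Y)).length := hM1.1.2.1
            have h3 : ((X ++ (M ++ Y)).length : ℝ) < n + ml j := hM1.1.2.2.1
            rw [List.length_append, List.length_append] at h2 h3
            refine ⟨by omega, ?_, k', r, D, E, hD, ⟨c1, c2, c3, c4, by omega, c6, c7, c8⟩, c9, c10⟩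
            have h4 : (n : ℝ) ≤ ((n - (X.length + Y.length) : ℕ) : ℝ) + (X.length + Y.length) := by
              exact_mod_cast (by omega : n ≤ n - (X.length + Y.length) + (X.length + Y.length))
            push_cast at h3
            linarith
        rw [hg]
        simp only
        rw [if_pos hXm, if_pos hYm, rev_length]
        have e1 : wE (rev X) = wE X := by
          unfold wE
          rw [rev_length]
        rw [e1]
        calc wE X * wE Y * gf {M | X ++ (M ++ Y) ∈ GFT n j η κ a m c u e k ∧ CutP j a m η X M Y}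
            ≤ wE X * wE Y * (ENNReal.ofReal (K0 * (4 ^ j * Ub j) * (ml j * B)) * (ENNReal.ofReal ((1 + (X.length : ℝ) / ml j) ^ 3) *
              ENNReal.ofReal ((1 + (Y.length : ℝ) / ml j) ^ 3))) := mul_le_mul_right hbd _
          _ = _ := by ring
      · have h0 : gf {M | X ++ (M ++ Y) ∈ GFT n j η κ a m c u e k ∧ CutP j a m η X M Y} = 0 := by
          have : {M | X ++ (M ++ Y) ∈ GFT n j η κ a m c u e k ∧ CutP j a m η X M Y} = ∅ := by
            ext M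
            simp only [Set.mem_ofPred_eq, Set.mem_empty_iff_false, iff_false]
            exact fun h => hne ⟨M, h⟩
          rw [this]
          unfold gf
          simp
        show wE X * wE Y * gf {M | X ++ (M ++ Y) ∈ GFT n j η κ a m c u e k ∧ CutP j a m η X M Y} ≤ _
        rw [h0, mul_zero]
        exact zero_le
  have h2 : ENNReal.ofReal ((κ * Ub j) ^ 2) * gf (GFT n j η κ a m c u e k) ≤
      ENNReal.ofReal (K0 * (4 ^ j * Ub j) * (ml j * B) * ((C2 * Ub j) ^ 2 * (C3 * 2 ^ (25 / 24 * (j : ℝ))))) := by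
    refine key.trans ?_
    rw [ENNReal.ofReal_mul (by positivity : (0 : ℝ) ≤ K0 * (4 ^ j * Ub j) * (ml j * B))]
    refine mul_le_mul_right ?_ (ENNReal.ofReal (K0 * (4 ^ j * Ub j) * (ml j * B)))
    calc (∑' Y : List Bool, g Y) ^ 2 ≤ (ENNReal.ofReal (C2 * Ub j) * Xb j) ^ 2 := pow_le_pow_left' hgs 2
      _ = ENNReal.ofReal ((C2 * Ub j) ^ 2) * Xb j ^ 2 := by rw [mul_pow, ENNReal.ofReal_pow (by positivity)]
      _ ≤ ENNReal.ofReal ((C2 * Ub j) ^ 2) * ENNReal.ofReal (C3 * 2 ^ (25 / 24 * (j : ℝ))) := mul_le_mul_right (hX j) _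
      _ = _ := by rw [← ENNReal.ofReal_mul (by positivity)]
  have h3 : gf (GFT n j η κ a m c u e k) ≤ ENNReal.ofReal (K0 * (4 ^ j * Ub j) * (ml j * B) * ((C2 * Ub j) ^ 2 *
      (C3 * 2 ^ (25 / 24 * (j : ℝ)))) / (κ * Ub j) ^ 2) := by
    have hp : 0 < (κ * Ub j) ^ 2 := by positivity
    rw [ENNReal.ofReal_div_of_pos hp, ENNReal.le_div_iff_mul_le (Or.inl (ENNReal.ofReal_pos.2 hp).ne') (Or.inl ENNReal.ofReal_ne_top),
      mul_comm]
    exact h2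
  refine h3.trans (ENNReal.ofReal_le_ofReal ?_)
  rw [hB]
  exact num2T hC3 hC4 hκ hC2 hKp (fun k => (hU k).2) n j

end G3T

end ART

end HexObs
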