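import Pool.Agent.ART.GoodCT
import Pool.Agent.ART.DCut
import Pool.Agent.TH.FarC
import Pool.Agent.ARM.QIn
import Pool.Agent.TPC.CylLift

/-!
# ART, block C (helper4): the closed words that reach the distance h and are not good at the level l

* `LenT` : the literal of row LEN (short closed words do not reach far);
* `tail52` : the sum of `n ^ (-5/2)` over `n ≥ N`;
* **`goodR : T2T → LenT → ...`** : the mass of the closed words (rooted at their top, all lengths) that reach the distance h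
  from the root and are not good at the level l is at most `ε / h ^ 2`, for every l with `2 ^ (l + b0) ≤ h`.
-/

set_option autoImplicit false

namespace HexObs

namespace ART

open Finset TS SDN _root_.HexObs.SIM NTA TIP ARM

open scoped ENNReal

/-- **row LEN** -/
def LenT : Prop := ∀ ε : ℝ, 0 < ε → ∃ c R0 : ℝ, 0 < c ∧ 0 < R0 ∧ ∀ R : ℝ, R0 ≤ R →
  gf {w | w ∈ CyT w.length ∧ (w.length : ℝ) ≤ c * R ^ (4 / 3 : ℝ) ∧ ∃ s, s ≤ w.length ∧
    R ≤ ((TIW.hn (vx oo up w s) : ℤ) : ℝ)} ≤ ENNReal.ofReal (ε / R ^ 2)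

/-! ### numbers -/

lemma step52 {x : ℝ} (hx : 1 ≤ x) : x ^ (-(5 / 2) : ℝ) ≤ 8 / 3 * (x ^ (-(3 / 2) : ℝ) - (x + 1) ^ (-(3 / 2) : ℝ)) := by
  have hx0 : 0 < x := by linarith
  have hy0 : 0 < x + 1 := by linarith
  obtain ⟨a, ha⟩ : ∃ a : ℝ, a = x ^ (-(1 / 2) : ℝ) := ⟨_, rfl⟩
  obtain ⟨b, hb⟩ : ∃ b : ℝ, b = (x + 1) ^ (-(1 / 2) : ℝ) := ⟨_, rfl⟩
  have a0 : 0 < a := by rw [ha]; positivity
  have b0 : 0 < b := by rw [hb]; positivity
  have a5 : x ^ (-(5 / 2) : ℝ) = a ^ 5 := by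
    rw [ha, ← Real.rpow_natCast, ← Real.rpow_mul hx0.le]
    norm_num
  have a3 : x ^ (-(3 / 2) : ℝ) = a ^ 3 := by
    rw [ha, ← Real.rpow_natCast, ← Real.rpow_mul hx0.le]
    norm_num
  have b3 : (x + 1) ^ (-(3 / 2) : ℝ) = b ^ 3 := by
    rw [hb, ← Real.rpow_natCast, ← Real.rpow_mul hy0.le]
    norm_num
  have a2 : a ^ 2 * x = 1 := by
    rw [ha, ← Real.rpow_natCast, ← Real.rpow_mul hx0.le]
    norm_num
    rw [Real.rpow_neg_one, inv_mul_cancel₀ hx0.ne']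
  have b2 : b ^ 2 * (x + 1) = 1 := by
    rw [hb, ← Real.rpow_natCast, ← Real.rpow_mul hy0.le]
    norm_num
    rw [Real.rpow_neg_one, inv_mul_cancel₀ hy0.ne']
  rw [a5, a3, b3]
  have e1 : a ^ 2 - b ^ 2 = a ^ 2 * b ^ 2 := by
    have : a ^ 2 * (b ^ 2 * (x + 1)) - b ^ 2 * (a ^ 2 * x) = a ^ 2 * b ^ 2 := by ring
    rw [a2, b2, mul_one, mul_one] at this
    exact this
  have h1 : a ^ 2 ≤ 2 * b ^ 2 := by
    have : b ^ 2 * (x + 1) ≤ b ^ 2 * (2 * x) := mul_le_mul_of_nonneg_left (by linarith) (by positivity)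
    have h3 : a ^ 2 * x ≤ 2 * b ^ 2 * x := by linarith
    exact le_of_mul_le_mul_right h3 hx0
  have hba : b ≤ a := by
    have : b ^ 2 ≤ a ^ 2 := by nlinarith [sq_nonneg (a * b)]
    exact (abs_le_of_sq_le_sq' this a0.le).2
  have h2 : a ^ 2 * b ^ 2 ≤ 2 * a * (a - b) := by
    rw [← e1]
    nlinarith
  have h3 : 3 * b ^ 2 * (a - b) ≤ a ^ 3 - b ^ 3 := by
    nlinarith [mul_nonneg (sub_nonneg.2 hba) (sub_nonneg.2 hba), mul_pos a0 b0,
      mul_nonneg (mul_nonneg (sub_nonneg.2 hba) (sub_nonneg.2 hba)) a0.le,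
      mul_nonneg (mul_nonneg (sub_nonneg.2 hba) (sub_nonneg.2 hba)) b0.le]
  have h4 : 3 * b ^ 2 * (a ^ 2 * b ^ 2) ≤ 2 * a * (a ^ 3 - b ^ 3) := by
    calc 3 * b ^ 2 * (a ^ 2 * b ^ 2) ≤ 3 * b ^ 2 * (2 * a * (a - b)) := mul_le_mul_of_nonneg_left h2 (by positivity)
      _ = 2 * a * (3 * b ^ 2 * (a - b)) := by ring
      _ ≤ _ := mul_le_mul_of_nonneg_left h3 (by positivity)
  have h5 : a ^ 2 * a ^ 2 ≤ 2 * b ^ 2 * (2 * b ^ 2) := mul_le_mul h1 h1 (by positivity) (by positivity)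
  have h6 : 3 / 4 * a ^ 6 ≤ 2 * a * (a ^ 3 - b ^ 3) := by
    have : 3 / 4 * a ^ 2 * (a ^ 2 * a ^ 2) ≤ 3 / 4 * a ^ 2 * (2 * b ^ 2 * (2 * b ^ 2)) :=
      mul_le_mul_of_nonneg_left h5 (by positivity)
    nlinarith
  have h7 : 2 * a * (3 / 8 * a ^ 5) ≤ 2 * a * (a ^ 3 - b ^ 3) := by
    calc 2 * a * (3 / 8 * a ^ 5) = 3 / 4 * a ^ 6 := by ring
      _ ≤ _ := h6
  have h8 := le_of_mul_le_mul_left h7 (by positivity)
  linarith

/-- the sum of n ^ (-5/2) behind N -/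
lemma tail52 {N : ℕ} (hN : 1 ≤ N) :
    ∑' k : ℕ, ENNReal.ofReal (((N + k : ℕ) : ℝ) ^ (-(5 / 2) : ℝ)) ≤ ENNReal.ofReal (3 * (N : ℝ) ^ (-(3 / 2) : ℝ)) := by
  have hN0 : (0 : ℝ) < N := by exact_mod_cast hN
  refine ENNReal.tsum_le_of_sum_range_le fun K => ?_
  rw [← ENNReal.ofReal_sum_of_nonneg (fun k _ => by positivity)]
  refine ENNReal.ofReal_le_ofReal ?_
  have key : ∀ K : ℕ, ∑ k ∈ range K, ((N + k : ℕ) : ℝ) ^ (-(5 / 2) : ℝ) ≤
      8 / 3 * ((N : ℝ) ^ (-(3 / 2) : ℝ) - ((N + K : ℕ) : ℝ) ^ (-(3 / 2) : ℝ)) := by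
    intro K
    induction K with
    | zero => simp
    | succ K ih =>
      rw [sum_range_succ]
      have h1 := step52 (x := ((N + K : ℕ) : ℝ)) (by exact_mod_cast (show 1 ≤ N + K by omega))
      have h2 : ((N + (K + 1) : ℕ) : ℝ) = ((N + K : ℕ) : ℝ) + 1 := by push_cast; ring
      rw [h2]
      linarith
  have h := key K
  have h0 : (0 : ℝ) ≤ 8 / 3 * ((N + K : ℕ) : ℝ) ^ (-(3 / 2) : ℝ) := by positivity
  have h1 : (0 : ℝ) ≤ (N : ℝ) ^ (-(3 / 2) : ℝ) := by positivity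
  linarith

/-- one more letter -/
lemma gf_last (S : Set (List Bool)) : gf {w | ∃ L ∈ S, ∃ β : Bool, w = L ++ [β]} ≤ 2 * gf S := by
  have h1 : ∀ β : Bool, gf {w | ∃ L ∈ S, w = L ++ [β]} ≤ gf S := by
    intro β
    have hex : ∀ w : {w | ∃ L ∈ S, w = L ++ [β]}, ∃ L : S, (w : List Bool) = (L : List Bool) ++ [β] := by
      rintro ⟨w, L, hL, rfl⟩
      exact ⟨⟨L, hL⟩, rfl⟩
    choose f hf using hex
    have hinj : Function.Injective f := by
      intro w w' h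
      refine Subtype.ext ?_
      rw [hf w, hf w', h]
    calc gf {w | ∃ L ∈ S, w = L ++ [β]} ≤ ∑' w : {w | ∃ L ∈ S, w = L ++ [β]}, (fun L : S => wE (L : List Bool)) (f w) := by
          refine ENNReal.tsum_le_tsum fun w => ?_
          rw [hf w, wE_append, ARM.T2.wE_letter]
          refine mul_le_of_le_one_right' ?_
          rw [← ENNReal.ofReal_one]
          exact ENNReal.ofReal_le_ofReal TH.xc_le_one
      _ ≤ _ := ENNReal.tsum_comp_le_tsum_of_injective hinj _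
  have h2 : {w | ∃ L ∈ S, ∃ β : Bool, w = L ++ [β]} ⊆ {w | ∃ L ∈ S, w = L ++ [true]} ∪ {w | ∃ L ∈ S, w = L ++ [false]} := by
    rintro w ⟨L, hL, β, rfl⟩
    cases β
    · exact Or.inr ⟨L, hL, rfl⟩
    · exact Or.inl ⟨L, hL, rfl⟩
  calc gf {w | ∃ L ∈ S, ∃ β : Bool, w = L ++ [β]} ≤ gf {w | ∃ L ∈ S, w = L ++ [true]} + gf {w | ∃ L ∈ S, w = L ++ [false]} :=
        (gf_mono h2).trans (gf_union_le _ _)
    _ ≤ gf S + gf S := add_le_add (h1 true) (h1 false)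
    _ = 2 * gf S := (two_mul _).symm

/-- the closed words that reach the distance h and are not good at the level l -/
def BadW (h : ℝ) (l : ℕ) (η κ : ℝ) (a m c u e k : ℕ) : Set (List Bool) :=
  {w | w ∈ CyT w.length ∧ (∃ s, s ≤ w.length ∧ h ≤ ((TIW.hn (vx oo up w s) : ℤ) : ℝ)) ∧
    w.dropLast ∉ GFcT (w.length - 1) l η κ a m c u e k}

/-- **row GoodR** -/
theorem goodR (hT : T2T) (hL : LenT) : ∀ ε : ℝ, 0 < ε → ∃ (η κ : ℝ) (a m : ℕ), 0 < η ∧ 0 < κ ∧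
    ∀ k c0 : ℕ, ∃ c1 : ℕ, c0 ≤ c1 ∧ ∀ c : ℕ, c1 ≤ c → ∃ u1 : ℕ, c ≤ u1 ∧ ∀ u : ℕ, u1 ≤ u → ∃ e b0 : ℕ, k ≤ e ∧ e ≤ b0 ∧
      ∀ (h : ℝ) (l : ℕ), b0 ≤ l → (2 : ℝ) ^ (l + b0) ≤ h →
        gf (BadW h l η κ a m c u e k) ≤ ENNReal.ofReal (ε / h ^ 2) := by
  intro ε hε
  obtain ⟨c', R0, hc', hR0, hlen⟩ := hL (ε / 2) (by positivity)
  obtain ⟨ε', hε'⟩ : ∃ ε' : ℝ, ε' = ε * c' ^ (3 / 2 : ℝ) / 36 := ⟨_, rfl⟩
  have hε'0 : 0 < ε' := by rw [hε']; positivity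
  obtain ⟨η, κ, a, m, hη, hκ, hT⟩ := hT ε' hε'0
  obtain ⟨b2, hb2⟩ : ∃ b2 : ℕ, 2 / c' < (2 : ℝ) ^ b2 := pow_unbounded_of_one_lt _ one_lt_two
  obtain ⟨b3, hb3⟩ : ∃ b3 : ℕ, R0 < (2 : ℝ) ^ b3 := pow_unbounded_of_one_lt _ one_lt_two
  refine ⟨η, κ, a, m, hη, hκ, fun k c0 => ?_⟩
  obtain ⟨c1, hc01, hT⟩ := hT k c0
  refine ⟨c1, hc01, fun c hc => ?_⟩
  obtain ⟨u1, hu1, hT⟩ := hT c hc
  refine ⟨u1, hu1, fun u hu => ?_⟩
  obtain ⟨e, b1, hke, heb, hT⟩ := hT u hu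
  refine ⟨e, b1 + b2 + b3, hke, by omega, fun h l hl hh => ?_⟩
  -- numbers
  have hml := ml_pos l
  have hml1 := one_le_ml l
  have hp1 : (1 : ℝ) ≤ (2 : ℝ) ^ (l + (b1 + b2 + b3)) := one_le_pow₀ (by norm_num)
  have hh1 : 1 ≤ h := hp1.trans hh
  have hh0 : 0 < h := by linarith
  have hhR : R0 ≤ h := by
    refine (hb3.le.trans ?_).trans hh
    exact pow_le_pow_right₀ (by norm_num) (by omega)
  obtain ⟨X, hX⟩ : ∃ X : ℝ, X = c' * h ^ (4 / 3 : ℝ) := ⟨_, rfl⟩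
  have hX1 : 2 * (2 ^ b1 * ml l) ≤ X := by
    have e1 : (2 : ℝ) ^ b1 * (2 / c') * ml l ≤ h ^ (4 / 3 : ℝ) := by
      calc (2 : ℝ) ^ b1 * (2 / c') * ml l ≤ (2 : ℝ) ^ b1 * 2 ^ b2 * ml l := by gcongr
        _ ≤ (2 : ℝ) ^ (b1 + b2 + b3) * ml l := by
            refine mul_le_mul_of_nonneg_right ?_ hml.le
            rw [← pow_add]
            exact pow_le_pow_right₀ (by norm_num) (by omega)
        _ ≤ ((2 : ℝ) ^ (l + (b1 + b2 + b3))) ^ (4 / 3 : ℝ) := by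
            unfold ml
            rw [← Real.rpow_natCast, ← Real.rpow_natCast, ← Real.rpow_mul (by norm_num), ← Real.rpow_add (by norm_num)]
            refine Real.rpow_le_rpow_of_exponent_le (by norm_num) ?_
            push_cast
            have h1 : (0 : ℝ) ≤ b1 := Nat.cast_nonneg _
            have h2 : (0 : ℝ) ≤ b2 := Nat.cast_nonneg _
            have h3 : (0 : ℝ) ≤ b3 := Nat.cast_nonneg _
            linarith
        _ ≤ h ^ (4 / 3 : ℝ) := Real.rpow_le_rpow (by positivity) hh (by norm_num)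
    rw [hX]
    calc 2 * (2 ^ b1 * ml l) = c' * ((2 : ℝ) ^ b1 * (2 / c') * ml l) := by field_simp
      _ ≤ _ := mul_le_mul_of_nonneg_left e1 hc'.le
  have hX2 : 2 ≤ X := by
    refine le_trans ?_ hX1
    have : (1 : ℝ) ≤ 2 ^ b1 * ml l := one_le_mul_of_one_le_of_one_le (one_le_pow₀ (by norm_num)) hml1
    linarith
  obtain ⟨N, hN⟩ : ∃ N : ℕ, N = ⌊X⌋₊ := ⟨_, rfl⟩
  have hNle : (N : ℝ) ≤ X := by rw [hN]; exact Nat.floor_le (by linarith)
  have hNge : X / 2 ≤ N := by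
    have := Nat.lt_floor_add_one X
    rw [← hN] at this
    linarith
  have hN1 : 1 ≤ N := by
    have : (1 : ℝ) ≤ N := by linarith
    exact_mod_cast this
  -- the cover
  obtain ⟨S1, hS1⟩ : ∃ S1 : Set (List Bool), S1 = {w | w ∈ CyT w.length ∧ (w.length : ℝ) ≤ c' * h ^ (4 / 3 : ℝ) ∧
    ∃ s, s ≤ w.length ∧ h ≤ ((TIW.hn (vx oo up w s) : ℤ) : ℝ)} := ⟨_, rfl⟩
  obtain ⟨S2, hS2⟩ : ∃ S2 : ℕ → Set (List Bool), S2 = fun i => {L | L ∈ C0T (N + i) ∧ L ∉ GFcT (N + i) l η κ a m c u e k} :=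
    ⟨_, rfl⟩
  have hcov : BadW h l η κ a m c u e k ⊆ S1 ∪ ⋃ i, {w | ∃ L ∈ S2 i, ∃ β : Bool, w = L ++ [β]} := by
    rintro w ⟨h1, h2, h3⟩
    by_cases hlw : (w.length : ℝ) ≤ X
    · left
      rw [hS1]
      exact ⟨h1, by rw [← hX]; exact hlw, h2⟩
    · right
      rw [not_le] at hlw
      have h4 : N < w.length := by
        have : (N : ℝ) < w.length := lt_of_le_of_lt hNle hlw
        exact_mod_cast this
      have hw0 : w ≠ [] := by
        rintro rfl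
        simp at h4
      have e1 : w.dropLast ++ [w.getLast hw0] = w := List.dropLast_append_getLast hw0
      have e2 : w.dropLast.length = w.length - 1 := List.length_dropLast
      rw [Set.mem_iUnion]
      refine ⟨w.length - 1 - N, w.dropLast, ?_, w.getLast hw0, e1.symm⟩
      rw [hS2]
      have e3 : N + (w.length - 1 - N) = w.length - 1 := by omega
      show w.dropLast ∈ C0T (N + (w.length - 1 - N)) ∧ w.dropLast ∉ GFcT (N + (w.length - 1 - N)) l η κ a m c u e k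
      rw [e3]
      refine ⟨⟨w.getLast hw0, ?_⟩, h3⟩
      rw [e1, show w.length - 1 + 1 = w.length by omega]
      exact h1
  have hm1 : gf S1 ≤ ENNReal.ofReal (ε / 2 / h ^ 2) := by
    rw [hS1]
    exact hlen h hhR
  have hm2 : gf (⋃ i, {w | ∃ L ∈ S2 i, ∃ β : Bool, w = L ++ [β]}) ≤ ENNReal.ofReal (ε / 2 / h ^ 2) := by
    refine (TPC.gf_iUnion_le _).trans ?_
    calc ∑' i, gf {w | ∃ L ∈ S2 i, ∃ β : Bool, w = L ++ [β]} ≤ ∑' i : ℕ, ENNReal.ofReal (2 * ε') *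
          ENNReal.ofReal (((N + i : ℕ) : ℝ) ^ (-(5 / 2) : ℝ)) := by
          refine ENNReal.tsum_le_tsum fun i => (gf_last (S2 i)).trans ?_
          have h5 : gf (S2 i) ≤ ENNReal.ofReal (ε' * ((N + i : ℕ) : ℝ) ^ (-(5 / 2) : ℝ)) := by
            rw [hS2]
            refine hT (N + i) l (by omega) ?_
            have : (N : ℝ) ≤ ((N + i : ℕ) : ℝ) := by exact_mod_cast Nat.le_add_right N i
            linarith
          refine (mul_le_mul' le_rfl h5).trans (le_of_eq ?_)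
          rw [ENNReal.ofReal_mul hε'0.le, ENNReal.ofReal_mul (by norm_num : (0 : ℝ) ≤ 2), ENNReal.ofReal_ofNat, ← mul_assoc]
      _ = ENNReal.ofReal (2 * ε') * _ := ENNReal.tsum_mul_left
      _ ≤ ENNReal.ofReal (2 * ε') * ENNReal.ofReal (3 * (N : ℝ) ^ (-(3 / 2) : ℝ)) := mul_le_mul' le_rfl (tail52 hN1)
      _ = ENNReal.ofReal (2 * ε' * (3 * (N : ℝ) ^ (-(3 / 2) : ℝ))) := (ENNReal.ofReal_mul (by positivity)).symm
      _ ≤ _ := by
          refine ENNReal.ofReal_le_ofReal ?_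
          have hX0 : 0 < X := by linarith
          have hN0 : (0 : ℝ) < N := by linarith
          have e1 : (N : ℝ) ^ (-(3 / 2) : ℝ) ≤ (X / 2) ^ (-(3 / 2) : ℝ) :=
            Real.rpow_le_rpow_of_nonpos (by positivity) hNge (by norm_num)
          have e2 : (X / 2) ^ (-(3 / 2) : ℝ) = 2 ^ (3 / 2 : ℝ) * (c' ^ (3 / 2 : ℝ))⁻¹ * (h ^ 2)⁻¹ := by
            rw [Real.div_rpow hX0.le (by norm_num), hX, Real.mul_rpow hc'.le (by positivity), ← Real.rpow_mul hh0.le,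
              Real.rpow_neg hc'.le, Real.rpow_neg (by norm_num : (0 : ℝ) ≤ 2), div_inv_eq_mul]
            have : h ^ (4 / 3 * (-(3 / 2)) : ℝ) = (h ^ 2)⁻¹ := by
              rw [show (4 / 3 * (-(3 / 2)) : ℝ) = -((2 : ℕ) : ℝ) by norm_num, Real.rpow_neg hh0.le, Real.rpow_natCast]
            rw [this]
            ring
          have e3 : (2 : ℝ) ^ (3 / 2 : ℝ) ≤ 3 := by
            have h6 : ((2 : ℝ) ^ (3 / 2 : ℝ)) ^ 2 = 8 := by
              rw [← Real.rpow_natCast, ← Real.rpow_mul (by norm_num)]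
              norm_num
            have h7 : (0 : ℝ) ≤ (2 : ℝ) ^ (3 / 2 : ℝ) := by positivity
            nlinarith
          have hc3 : 0 < c' ^ (3 / 2 : ℝ) := by positivity
          calc 2 * ε' * (3 * (N : ℝ) ^ (-(3 / 2) : ℝ)) ≤ 2 * ε' * (3 * (3 * (c' ^ (3 / 2 : ℝ))⁻¹ * (h ^ 2)⁻¹)) := by
                refine mul_le_mul_of_nonneg_left (mul_le_mul_of_nonneg_left (e1.trans ?_) (by norm_num)) (by positivity)
                rw [e2]
                gcongr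
            _ = ε / 2 / h ^ 2 := by
                rw [hε']
                field_simp
                norm_num
  refine (gf_mono hcov).trans ((gf_union_le _ _).trans ((add_le_add hm1 hm2).trans (le_of_eq ?_)))
  rw [← ENNReal.ofReal_add (by positivity) (by positivity)]
  congr 1
  ring

end ART

end HexObs
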