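import Pool.Agent.ART.OutMost
import Pool.Agent.ART.DefsC3

/-!
# ART, block C (helper4): literals of the assembly of (H3), over helper49's `DefsC3`

* `nW d w l r` : the number of double cut rows of w in the window `WdS d l r`; `Rc d r kap l` : the rich words;
  `Poor d B r kap h` : the words of the height in `[h, 2 h]` that are poor at every level of the block B;
  `UU d h` : the doubled window of heights;
* **`OutSt`** (row (7) of ROT/C4_53: claim2 applied; helper87). The image is rich one level up (25: the lower edge of the depth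
  moves), the good words are taken at the level `l + s1` (87: the mesh of JoinTc).
-/

set_option autoImplicit false

namespace HexObs

namespace ART

open Finset TS SDN SIM NTA TIP ARM

open scoped ENNReal

/-- larger windows -/
lemma WdS_sub {d : Pt} {l l' r r' : ℕ} (h1 : l ≤ l') (h2 : r' * 2 ^ (l' - l) ≤ r) : WdS d l' r' ⊆ WdS d l r := by
  intro z hz
  rw [mem_WdS] at hz ⊢
  obtain ⟨a1, a2, a3, a4, a5, a6⟩ := hz
  have e1 : (2 : ℤ) ^ l' = 2 ^ (l' - l) * 2 ^ l := by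
    rw [← pow_add]
    congr 1
    omega
  have p0 : (0 : ℤ) < 2 ^ l := by positivity
  have p1 : (1 : ℤ) ≤ 2 ^ (l' - l) := one_le_pow₀ (by norm_num)
  have e2 : (r' : ℤ) * 2 ^ (l' - l) ≤ r := by exact_mod_cast h2
  have e3 : (r' : ℤ) * 2 ^ l' ≤ r * 2 ^ l := by
    rw [e1, ← mul_assoc]
    exact mul_le_mul_of_nonneg_right e2 p0.le
  have e4 : (2 : ℤ) ^ l ≤ 2 ^ l' := by
    rw [e1]
    nlinarith
  have r0 : (0 : ℤ) ≤ r' := Int.natCast_nonneg _
  have e5 : (r' : ℤ) ≤ r := by nlinarith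
  have e6 : 0 ≤ TIW.hn (z.1 - z.2) := TIW.hn_nonneg _
  refine ⟨a1, by linarith, by linarith, by linarith, by linarith, ?_⟩
  calc (2 : ℤ) ^ l ≤ 2 ^ l' := e4
    _ ≤ r' * TIW.hn (z.1 - z.2) := a6
    _ ≤ r * TIW.hn (z.1 - z.2) := mul_le_mul_of_nonneg_right e5 e6

/-- the number of double cut rows in the window -/
noncomputable def nW (d : Pt) (w : List Bool) (l r : ℕ) : ℕ := nC d w (WdS d l r)

lemma nW_mono {d : Pt} {w : List Bool} {l l' r r' : ℕ} (h1 : l ≤ l') (h2 : r' * 2 ^ (l' - l) ≤ r) :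
    nW d w l' r' ≤ nW d w l r := nC_mono (WdS_sub h1 h2)

/-- rich at the level l -/
def Rc (d : Pt) (r : ℕ) (kap : ℝ) (l : ℕ) : Set (List Bool) := {w | kap * (2 : ℝ) ^ ((l : ℝ) / 2) ≤ nW d w l r}

/-- height in [h, 2 h], poor at every level of the block B -/
def Poor (d : Pt) (B : Finset ℕ) (r : ℕ) (kap : ℝ) (h : ℕ) : Set (List Bool) :=
  {w | w ∈ WT d ∧ h ≤ bot d w ∧ bot d w ≤ 2 * h ∧ ∀ l ∈ B, (nW d w l r : ℝ) < kap * (2 : ℝ) ^ ((l : ℝ) / 2)}

/-- height in [h / 2, 4 h] -/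
def UU (d : Pt) (h : ℕ) : Set (List Bool) := {w | w ∈ WT d ∧ h ≤ 2 * bot d w ∧ bot d w ≤ 4 * h}

/-- **row (7) of ROT/C4_53**: the outer surgery at the level l, on good words that are poor in a block of levels with gaps c4
above l (claim2 applied to JoinTc, TopTube, IMG, INV) -/
def OutSt : Prop := ∀ (η κ : ℝ) (a m : ℕ), 0 < η → 0 < κ → ∃ k c0 : ℕ, ∀ c u e : ℕ, c0 ≤ c → c ≤ u → m + 5 ≤ u → k ≤ e →
  ∃ (C kap : ℝ) (r1 r2 c4 s1 b0 : ℕ), 0 < C ∧ 0 < kap ∧ ∀ (l h : ℕ) (B : Finset ℕ), b0 ≤ l → 4 ^ (l + b0) ≤ h →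
    (∀ l' ∈ B, l < l' → l + c4 ≤ l') → ∀ d ∈ dirs, ∀ EE : Set (List Bool),
      (∀ L ∈ EE, L ∈ GFcT L.length (l + s1) η κ a m c u e k ∧ ∃ β : Bool, L ++ [β] ∈ Poor d B r2 kap h) →
        gf EE ≤ ENNReal.ofReal C * ∑ d' ∈ dirs, gf (UU d' h ∩ OutL B (fun i => Rc d' r1 kap (i + 1)) l)

end ART

end HexObs
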