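import Pool.Agent.ART.T2CT

/-!
# ART, row LEN (helper91): short closed words of a large diameter

* `far_layer` : closed words with two vertices further than `r` from each other are in the layers;
* `far_mass` : their mass is at most `C N R ^ (-10 / 3)`;
* `far_top` : rooted at the top: `C R ^ (-10 / 3)`, every length;
* **`lenT`** : the closed words rooted at the top with at most `c R ^ (4 / 3)` edges and diameter at least `R`: `ε / R ^ 2`.
-/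

set_option autoImplicit false

namespace HexObs

namespace ART

open Finset TS SDN SIM NTA TIP ARM

open scoped ENNReal

lemma hn_sq_nrm (p : Pt) : TIW.hn p ^ 2 ≤ 4 * nrm p := by
  obtain ⟨a, b⟩ := p
  have h : ∀ d ∈ dirs, ip (a, b) d ^ 2 ≤ 4 * nrm (a, b) := by
    intro d hd
    simp only [dirs, Finset.mem_insert, Finset.mem_singleton] at hd
    rcases hd with rfl | rfl | rfl | rfl | rfl | rfl <;> simp only [ip, nrm] <;>
      nlinarith [sq_nonneg a, sq_nonneg b, sq_nonneg (a + b), sq_nonneg (a - b)]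
  have h1 := h up (by decide)
  have h2 := h (rotL up) (by decide)
  have h3 := h (rotR up) (by decide)
  unfold TIW.hn
  rcases max_cases |ip (a, b) up| (max |ip (a, b) (rotL up)| |ip (a, b) (rotR up)|) with ⟨e, _⟩ | ⟨e, _⟩
  · rw [e, sq_abs]
    exact h1
  · rcases max_cases |ip (a, b) (rotL up)| |ip (a, b) (rotR up)| with ⟨e', _⟩ | ⟨e', _⟩
    · rw [e, e', sq_abs]
      exact h2
    · rw [e, e', sq_abs]
      exact h3

/-- a closed word in the box has a small diameter -/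
lemma wc_dmC {N K : ℕ} {w : List Bool} (hw : w ∈ POL.WC N K) {r : ℤ} (hr : 20 * 2 ^ K ≤ r) : w ∈ DmC r := by
  intro a b ha hb
  have hl : w.length = N := hw.1.1
  have h1 := POL.WC_nrm hw a b (by omega) (by omega)
  have h2 := hn_sq_nrm (vx oo up w a - vx oo up w b)
  have h3 := TIW.hn_nonneg (vx oo up w a - vx oo up w b)
  generalize TIW.hn (vx oo up w a - vx oo up w b) = x at h2 h3 ⊢
  have h4 : nrm (vx oo up w a - vx oo up w b) ≤ 100 * 4 ^ K := by exact_mod_cast h1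
  have h5 : (4 : ℤ) ^ K = (2 ^ K) ^ 2 := by
    rw [← pow_mul, mul_comm, pow_mul]
    norm_num
  rw [h5] at h4
  have h6 : (0 : ℤ) < 2 ^ K := by positivity
  generalize (2 : ℤ) ^ K = y at h4 h6 hr
  have h7 : x ^ 2 ≤ (20 * y) ^ 2 := by nlinarith
  have h8 : x ≤ 20 * y := by
    by_contra h
    rw [not_le] at h
    nlinarith
  linarith

/-- the rotations of a closed word with a large diameter -/
lemma dmC_rot_not {N : ℕ} {r : ℤ} {w : List Bool} (hw : w ∈ POL.Cy N) (h : w ∉ DmC r) (k : ℕ) : w.rotate k ∉ DmC r := by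
  intro h1
  refine h ?_
  have h2 := dmC_rot (POL.Cy.rot hw k) h1 (N * (k + 1) - k)
  rcases Nat.eq_zero_or_pos N with h0 | h0
  · have h3 : w.length = 0 := hw.1.trans h0
    intro a b ha
    omega
  rw [List.rotate_rotate] at h2
  have h3 : k + (N * (k + 1) - k) = N * (k + 1) := by
    have : k ≤ N * (k + 1) := by nlinarith
    omega
  rw [h3] at h2
  have h4 : w.rotate (N * (k + 1)) = w := by
    have h5 : w.rotate (w.length * (k + 1)) = w := List.rotate_length_mul w (k + 1)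
    rwa [hw.1] at h5
  rwa [h4] at h2

/-- **closed words of a large diameter** -/
theorem far_mass : ∃ (C R0 : ℝ), 0 < C ∧ 1 ≤ R0 ∧ ∀ (N : ℕ) (R : ℝ) (r : ℤ), 1 ≤ N → R0 ≤ R → R ≤ r + 1 →
    gf {w | w ∈ POL.Cy N ∧ w ∈ {w | w ∉ DmC r}} ≤ ENNReal.ofReal (C * N * R ^ (-(10 / 3) : ℝ)) := by
  obtain ⟨c1, hc1, hlow⟩ := VF.mLow VF.sharpZ
  obtain ⟨C, k0, hC, hU⟩ := POL.upU
  refine ⟨2 * (C / c1) * 80 ^ (10 / 3 : ℝ) + 1, 80 * 2 ^ k0, by positivity, ?_, fun N R r hN hR hr => ?_⟩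
  · have : (1 : ℝ) ≤ 2 ^ k0 := one_le_pow₀ (by norm_num)
    linarith
  have h2k : (1 : ℝ) ≤ 2 ^ k0 := one_le_pow₀ (by norm_num)
  have hR80 : 80 ≤ R := by linarith
  have hR0 : 0 < R := by linarith
  -- the level
  obtain ⟨K, hK1, hK2⟩ : ∃ K : ℕ, (2 : ℝ) ^ K ≤ R / 40 ∧ R / 40 < 2 ^ (K + 1) := by
    obtain ⟨K, hK⟩ := exists_nat_pow_near (x := R / 40) (y := 2) (by linarith) (by norm_num)
    exact ⟨K, hK.1, hK.2⟩
  have hk0 : k0 ≤ K := by
    by_contra h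
    rw [not_le] at h
    have h1 : (2 : ℝ) ^ (K + 1) ≤ 2 ^ k0 := pow_le_pow_right₀ (by norm_num) (by omega)
    linarith
  have hrK : 20 * 2 ^ K ≤ r := by
    have h1 : (20 * 2 ^ K : ℝ) ≤ r := by linarith
    exact_mod_cast h1
  have hml : ∀ i : ℕ, ml i * 4 ^ i = (2 : ℝ) ^ ((10 / 3 : ℝ) * i) := by
    intro i
    have h6 : (4 : ℝ) ^ i = 2 ^ (2 * (i : ℝ)) := by
      rw [Real.rpow_mul (by norm_num), Real.rpow_natCast]
      norm_num
    unfold ml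
    rw [h6, ← Real.rpow_add (by norm_num)]
    congr 1
    ring
  have hcov : {w | w ∈ POL.Cy N ∧ w ∈ {w | w ∉ DmC r}} ⊆ ⋃ j : ℕ, (POL.WC N (K + j + 1) \ POL.WC N (K + j)) := by
    rintro w ⟨hw, hn⟩
    rcases POL.Cy_cover N K hw with h | h
    · exact absurd (wc_dmC h hrK) hn
    · exact h
  refine (gf_mono hcov).trans ((ENNReal.tsum_iUnion_le_tsum wE _).trans ?_)
  have hj : ∀ j : ℕ, gf (POL.WC N (K + j + 1) \ POL.WC N (K + j)) ≤
      ENNReal.ofReal (C * N / c1 * (2 : ℝ) ^ (-(10 / 3 : ℝ) * (K + 1 : ℕ)) * ((2 : ℝ) ^ (-(10 / 3) : ℝ)) ^ j) := by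
    intro j
    refine (hU N (K + j) hN (by omega)).trans (ENNReal.ofReal_le_ofReal ?_)
    have h1 : c1 * (ml (K + j + 1) * 4 ^ (K + j + 1)) ≤ JNT.w4 (JNT.mM) (K + j + 1) := by
      have := mul_le_mul_of_nonneg_right (hlow (K + j + 1)) (show (0 : ℝ) ≤ 4 ^ (K + j + 1) by positivity)
      rw [mul_assoc] at this
      exact this
    rw [hml] at h1
    have h2 : 0 < c1 * (2 : ℝ) ^ ((10 / 3 : ℝ) * (K + j + 1 : ℕ)) := by positivity
    refine (div_le_div_of_nonneg_left (by positivity) h2 h1).trans (le_of_eq ?_)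
    have h3 : (2 : ℝ) ^ (-(10 / 3 : ℝ) * (K + 1 : ℕ)) * ((2 : ℝ) ^ (-(10 / 3) : ℝ)) ^ j *
        (2 : ℝ) ^ ((10 / 3 : ℝ) * (K + j + 1 : ℕ)) = 1 := by
      rw [← Real.rpow_natCast, ← Real.rpow_mul (by norm_num), ← Real.rpow_add (by norm_num), ← Real.rpow_add (by norm_num)]
      have : -(10 / 3 : ℝ) * ((K + 1 : ℕ) : ℝ) + -(10 / 3) * (j : ℝ) + (10 / 3 : ℝ) * ((K + j + 1 : ℕ) : ℝ) = 0 := by
        push_cast
        ring
      rw [this, Real.rpow_zero]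
    rw [div_eq_iff h2.ne']
    calc C * N = C * N / c1 * c1 * 1 := by field_simp
      _ = C * N / c1 * c1 * ((2 : ℝ) ^ (-(10 / 3 : ℝ) * (K + 1 : ℕ)) * ((2 : ℝ) ^ (-(10 / 3) : ℝ)) ^ j *
        (2 : ℝ) ^ ((10 / 3 : ℝ) * (K + j + 1 : ℕ))) := by rw [h3]
      _ = _ := by ring
  refine (ENNReal.tsum_le_tsum hj).trans ?_
  have hq0 : (0 : ℝ) ≤ (2 : ℝ) ^ (-(10 / 3) : ℝ) := by positivity
  have hq1 : (2 : ℝ) ^ (-(10 / 3) : ℝ) ≤ 1 / 2 := by
    calc (2 : ℝ) ^ (-(10 / 3) : ℝ) ≤ 2 ^ (-1 : ℝ) := Real.rpow_le_rpow_of_exponent_le (by norm_num) (by norm_num)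
      _ = 1 / 2 := by
        rw [Real.rpow_neg_one]
        norm_num
  refine (POL.geo_sum hq0 hq1 _ (by positivity)).trans (ENNReal.ofReal_le_ofReal ?_)
  have h4 : (2 : ℝ) ^ (-(10 / 3 : ℝ) * (K + 1 : ℕ)) ≤ 80 ^ (10 / 3 : ℝ) * R ^ (-(10 / 3) : ℝ) := by
    have h5 : R / 80 ≤ 2 ^ (K + 1) := by linarith
    have h6 : (2 : ℝ) ^ (-(10 / 3 : ℝ) * (K + 1 : ℕ)) = ((2 : ℝ) ^ (K + 1)) ^ (-(10 / 3) : ℝ) := by
      rw [← Real.rpow_natCast 2 (K + 1), ← Real.rpow_mul (by norm_num)]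
      congr 1
      ring
    rw [h6]
    refine (Real.rpow_le_rpow_of_nonpos (by positivity) h5 (by norm_num)).trans (le_of_eq ?_)
    rw [Real.div_rpow hR0.le (by norm_num), Real.rpow_neg (by norm_num : (0 : ℝ) ≤ 80), div_inv_eq_mul, mul_comm]
  have hCN : 0 ≤ C * N / c1 := by positivity
  have hRp : 0 ≤ N * R ^ (-(10 / 3) : ℝ) := by positivity
  calc 2 * (C * N / c1 * (2 : ℝ) ^ (-(10 / 3 : ℝ) * (K + 1 : ℕ)))
      ≤ 2 * (C * N / c1 * (80 ^ (10 / 3 : ℝ) * R ^ (-(10 / 3) : ℝ))) := by gcongr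
    _ = 2 * (C / c1) * 80 ^ (10 / 3 : ℝ) * (N * R ^ (-(10 / 3) : ℝ)) := by ring
    _ ≤ (2 * (C / c1) * 80 ^ (10 / 3 : ℝ) + 1) * (N * R ^ (-(10 / 3) : ℝ)) := by nlinarith
    _ = _ := by ring

/-- **rooted at the top** -/
theorem far_top : ∃ (C R0 : ℝ), 0 < C ∧ 1 ≤ R0 ∧ ∀ (N : ℕ) (R : ℝ), R0 ≤ R →
    gf {w | w ∈ CyT N ∧ ∃ s, s ≤ w.length ∧ R ≤ ((TIW.hn (vx oo up w s) : ℤ) : ℝ)} ≤
      ENNReal.ofReal (C * R ^ (-(10 / 3) : ℝ)) := by
  obtain ⟨C, R0, hC, hR0, h⟩ := far_mass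
  refine ⟨6 * C, R0, by positivity, hR0, fun N R hR => ?_⟩
  have hRp : 0 < R := by linarith
  have h0 : ∀ w : List Bool, TIW.hn (vx oo up w 0) = 0 := fun w => by
    show TIW.hn (0 : Pt) = 0
    decide
  obtain ⟨r, hr⟩ : ∃ r : ℤ, r = ⌈R⌉ - 1 := ⟨_, rfl⟩
  have hr1 : R ≤ r + 1 := by
    rw [hr]
    push_cast
    have := Int.le_ceil R
    linarith
  have hr2 : (r : ℝ) < R := by
    rw [hr]
    push_cast
    have := Int.ceil_lt_add_one R
    linarith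
  have hsub : {w | w ∈ CyT N ∧ ∃ s, s ≤ w.length ∧ R ≤ ((TIW.hn (vx oo up w s) : ℤ) : ℝ)} ⊆
      {w | w ∈ CyT N ∧ w ∈ {w : List Bool | w ∉ DmC r}} := by
    rintro w ⟨hw, s, hs, hR'⟩
    refine ⟨hw, fun hd => ?_⟩
    have hlen : w.length = N := hw.1.1
    have hcl : vx oo up w w.length = oo := by
      rw [hlen]
      exact hw.1.2.1
    have hs1 : s < w.length := by
      rcases hs.lt_or_eq with h1 | h1
      · exact h1
      · rw [h1, hcl] at hR'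
        have h2 : TIW.hn (oo : Pt) = 0 := by decide
        rw [h2] at hR'
        push_cast at hR'
        linarith
    have h1 := hd s 0 hs1 (by omega)
    have h2 : vx oo up w 0 = 0 := rfl
    rw [h2, sub_zero] at h1
    have h3 : ((TIW.hn (vx oo up w s) : ℤ) : ℝ) ≤ r := by exact_mod_cast h1
    linarith
  refine (gf_mono hsub).trans ?_
  rcases Nat.eq_zero_or_pos N with hN | hN
  · have : {w | w ∈ CyT N ∧ w ∈ {w : List Bool | w ∉ DmC r}} ⊆ ∅ := by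
      rintro w ⟨hw, hd⟩
      have hlen : w.length = 0 := hw.1.1.trans hN
      exact absurd (fun a b ha => by omega) hd
    refine (gf_mono this).trans ?_
    unfold gf
    simp
  · have h1 := topMul N {w | w ∉ DmC r} {w | w ∉ DmC r} fun L k hL hP => dmC_rot_not hL hP k
    have h2 := h1.trans (mul_le_mul' le_rfl (h N R r hN hR hr1))
    have hN0 : (0 : ℝ) < N := by exact_mod_cast hN
    have e6 : (6 : ℝ≥0∞) = ENNReal.ofReal 6 := by norm_num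
    have e1 : (N : ℝ≥0∞) = ENNReal.ofReal (N : ℝ) := (ENNReal.ofReal_natCast N).symm
    have h3 : ENNReal.ofReal (N : ℝ) * gf {w | w ∈ CyT N ∧ w ∈ {w : List Bool | w ∉ DmC r}} ≤
        ENNReal.ofReal (N : ℝ) * ENNReal.ofReal (6 * C * R ^ (-(10 / 3) : ℝ)) := by
      rw [← e1]
      refine h2.trans (le_of_eq ?_)
      rw [e6, ← ENNReal.ofReal_mul (by norm_num), e1, ← ENNReal.ofReal_mul hN0.le]
      congr 1
      ring
    exact (ENNReal.mul_le_mul_iff_right (ENNReal.ofReal_pos.2 hN0).ne' ENNReal.ofReal_ne_top).1 h3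

/-- **row LEN** -/
theorem lenT : ∀ ε : ℝ, 0 < ε → ∃ c R0 : ℝ, 0 < c ∧ 0 < R0 ∧ ∀ R : ℝ, R0 ≤ R →
    gf {w | w ∈ CyT w.length ∧ (w.length : ℝ) ≤ c * R ^ (4 / 3 : ℝ) ∧
      ∃ s, s ≤ w.length ∧ R ≤ ((TIW.hn (vx oo up w s) : ℤ) : ℝ)} ≤ ENNReal.ofReal (ε / R ^ 2) := by
  intro ε hε
  obtain ⟨C, R0, hC, hR0, h⟩ := far_top
  refine ⟨ε / C, R0, by positivity, by linarith, fun R hR => ?_⟩
  have hRp : 0 < R := by linarith
  obtain ⟨M, hM⟩ : ∃ M : ℕ, M = ⌊ε / C * R ^ (4 / 3 : ℝ)⌋₊ := ⟨_, rfl⟩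
  have hM1 : (M : ℝ) ≤ ε / C * R ^ (4 / 3 : ℝ) := by
    rw [hM]
    exact Nat.floor_le (by positivity)
  have hsub : {w | w ∈ CyT w.length ∧ (w.length : ℝ) ≤ ε / C * R ^ (4 / 3 : ℝ) ∧
      ∃ s, s ≤ w.length ∧ R ≤ ((TIW.hn (vx oo up w s) : ℤ) : ℝ)} ⊆
      ⋃ N ∈ Icc 1 M, {w | w ∈ CyT N ∧ ∃ s, s ≤ w.length ∧ R ≤ ((TIW.hn (vx oo up w s) : ℤ) : ℝ)} := by
    rintro w ⟨hw, hl, s, hs, hR'⟩
    have h1 : w.length ≤ M := by
      rw [hM]
      exact Nat.le_floor hl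
    have h2 : 1 ≤ w.length := by
      by_contra h0
      have h3 : s = 0 := by omega
      rw [h3] at hR'
      have h4 : TIW.hn (vx oo up w 0) = 0 := by
        show TIW.hn (0 : Pt) = 0
        decide
      rw [h4] at hR'
      push_cast at hR'
      linarith
    exact Set.mem_biUnion (show w.length ∈ (Icc 1 M : Set ℕ) from by
      rw [Finset.coe_Icc]
      exact ⟨h2, h1⟩) ⟨hw, s, hs, hR'⟩
  refine (gf_mono hsub).trans ((NTA.TI.gf_bU _ _).trans ?_)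
  refine (sum_le_sum fun N _ => h N R hR).trans ?_
  rw [sum_const, Nat.card_Icc, Nat.add_sub_cancel, nsmul_eq_mul, ← ENNReal.ofReal_natCast,
    ← ENNReal.ofReal_mul (Nat.cast_nonneg _)]
  refine ENNReal.ofReal_le_ofReal ?_
  have hp : 0 ≤ C * R ^ (-(10 / 3) : ℝ) := by positivity
  refine (mul_le_mul_of_nonneg_right hM1 hp).trans (le_of_eq ?_)
  have e : R ^ (4 / 3 : ℝ) * R ^ (-(10 / 3) : ℝ) = (R ^ 2)⁻¹ := by
    rw [← Real.rpow_add hRp, ← Real.rpow_natCast R 2, ← Real.rpow_neg hRp.le]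
    norm_num
  calc ε / C * R ^ (4 / 3 : ℝ) * (C * R ^ (-(10 / 3) : ℝ)) = ε / C * C * (R ^ (4 / 3 : ℝ) * R ^ (-(10 / 3) : ℝ)) := by ring
    _ = ε * (R ^ 2)⁻¹ := by
      rw [e, div_mul_cancel₀ _ hC.ne']
    _ = ε / R ^ 2 := by rw [div_eq_mul_inv]

end ART

end HexObs
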