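import Pool.Agent.ART.H3Defs
import Pool.Agent.ART.GoodR
import Pool.Agent.ART.Len

/-!
# ART, block C (helper4): assembly of (H3)

* `topU` : the closed words rooted at their top that reach the distance R: mass `C / R ^ 2`;
* **`h3T_of : T2T → OutSt → H3T`** : every closed word of the height `h` is either bad at the level l' (goodR), or the outer
  surgery of the level l' makes l' its outermost rich level (OutSt); the images are disjoint for the K levels of a block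
  (outMostR), so the words that are poor at all levels of the block have mass at most `ε / h ^ 2`.
-/

set_option autoImplicit false

namespace HexObs

namespace ART

open Finset TS SDN _root_.HexObs.SIM NTA TIP ARM

open scoped ENNReal

/-- **the closed words rooted at the top that reach the distance R** -/
theorem topU : ∃ C R0 : ℝ, 0 < C ∧ 0 < R0 ∧ ∀ R : ℝ, R0 ≤ R →
    gf {w | w ∈ CyT w.length ∧ ∃ s, s ≤ w.length ∧ R ≤ ((TIW.hn (vx oo up w s) : ℤ) : ℝ)} ≤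
      ENNReal.ofReal (C / R ^ 2) := by
  obtain ⟨C1, hC1, hcy⟩ := cyTSt
  obtain ⟨c, R0, hc, hR0, hlen⟩ := lenT 1 one_pos
  refine ⟨1 + C1 * 3 * (c ^ (3 / 2 : ℝ))⁻¹, R0, by positivity, hR0, fun R hR => ?_⟩
  have hRp : 0 < R := by linarith
  obtain ⟨X, hX⟩ : ∃ X : ℝ, X = c * R ^ (4 / 3 : ℝ) := ⟨_, rfl⟩
  have hX0 : 0 < X := by rw [hX]; positivity
  obtain ⟨N, hN⟩ : ∃ N : ℕ, N = ⌊X⌋₊ + 1 := ⟨_, rfl⟩
  have hN1 : 1 ≤ N := by omega
  have hNX : X ≤ N := by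
    rw [hN]
    push_cast
    exact (Nat.lt_floor_add_one X).le
  obtain ⟨S1, hS1⟩ : ∃ S1 : Set (List Bool), S1 = {w | w ∈ CyT w.length ∧ (w.length : ℝ) ≤ c * R ^ (4 / 3 : ℝ) ∧
    ∃ s, s ≤ w.length ∧ R ≤ ((TIW.hn (vx oo up w s) : ℤ) : ℝ)} := ⟨_, rfl⟩
  have hcov : {w | w ∈ CyT w.length ∧ ∃ s, s ≤ w.length ∧ R ≤ ((TIW.hn (vx oo up w s) : ℤ) : ℝ)} ⊆
      S1 ∪ ⋃ i, CyT (N + i) := by
    rintro w ⟨h1, h2⟩
    by_cases hlw : (w.length : ℝ) ≤ X
    · left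
      rw [hS1]
      exact ⟨h1, by rw [← hX]; exact hlw, h2⟩
    · right
      rw [not_le] at hlw
      have h3 : ⌊X⌋₊ < w.length := Nat.floor_lt hX0.le |>.2 hlw
      rw [Set.mem_iUnion]
      refine ⟨w.length - N, ?_⟩
      rw [show N + (w.length - N) = w.length by omega]
      exact h1
  have hm1 : gf S1 ≤ ENNReal.ofReal (1 / R ^ 2) := by
    rw [hS1]
    exact hlen R hR
  have hm2 : gf (⋃ i, CyT (N + i)) ≤ ENNReal.ofReal (C1 * 3 * (c ^ (3 / 2 : ℝ))⁻¹ / R ^ 2) := by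
    refine (TPC.gf_iUnion_le _).trans ?_
    calc ∑' i, gf (CyT (N + i)) ≤ ∑' i : ℕ, ENNReal.ofReal C1 * ENNReal.ofReal (((N + i : ℕ) : ℝ) ^ (-(5 / 2) : ℝ)) := by
          refine ENNReal.tsum_le_tsum fun i => (hcy (N + i) (by omega)).trans (le_of_eq ?_)
          rw [ENNReal.ofReal_mul hC1.le]
      _ = ENNReal.ofReal C1 * _ := ENNReal.tsum_mul_left
      _ ≤ ENNReal.ofReal C1 * ENNReal.ofReal (3 * (N : ℝ) ^ (-(3 / 2) : ℝ)) := mul_le_mul' le_rfl (tail52 hN1)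
      _ = ENNReal.ofReal (C1 * (3 * (N : ℝ) ^ (-(3 / 2) : ℝ))) := (ENNReal.ofReal_mul hC1.le).symm
      _ ≤ _ := by
          refine ENNReal.ofReal_le_ofReal ?_
          have e1 : (N : ℝ) ^ (-(3 / 2) : ℝ) ≤ X ^ (-(3 / 2) : ℝ) :=
            Real.rpow_le_rpow_of_nonpos hX0 hNX (by norm_num)
          have e2 : X ^ (-(3 / 2) : ℝ) = (c ^ (3 / 2 : ℝ))⁻¹ * (R ^ 2)⁻¹ := by
            rw [hX, Real.mul_rpow hc.le (by positivity), ← Real.rpow_mul hRp.le, Real.rpow_neg hc.le]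
            have : R ^ (4 / 3 * (-(3 / 2)) : ℝ) = (R ^ 2)⁻¹ := by
              rw [show (4 / 3 * (-(3 / 2)) : ℝ) = -((2 : ℕ) : ℝ) by norm_num, Real.rpow_neg hRp.le, Real.rpow_natCast]
            rw [this]
          rw [e2] at e1
          calc C1 * (3 * (N : ℝ) ^ (-(3 / 2) : ℝ)) ≤ C1 * (3 * ((c ^ (3 / 2 : ℝ))⁻¹ * (R ^ 2)⁻¹)) := by gcongr
            _ = _ := by
                rw [div_eq_mul_inv]
                ring
  refine (gf_mono hcov).trans ((gf_union_le _ _).trans ((add_le_add hm1 hm2).trans (le_of_eq ?_)))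
  rw [← ENNReal.ofReal_add (by positivity) (by positivity)]
  congr 1
  ring

lemma wT_cyT {d : Pt} (hd : d ∈ dirs) {w : List Bool} (h : w ∈ WT d) : w ∈ CyT w.length :=
  ⟨h.1, d, hd, h.2.1⟩

/-- a high word reaches far -/
lemma bot_far {d : Pt} (hd : d ∈ dirs) {w : List Bool} {h : ℕ} (hh : 1 ≤ h) (hb : h ≤ bot d w) :
    ∃ s, s ≤ w.length ∧ (h : ℤ) ≤ TIW.hn (vx oo up w s) := by
  obtain ⟨s, hs, h1⟩ := (le_bot_iff hh).1 hb
  refine ⟨s, hs, h1.trans ?_⟩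
  have := TIW.neg_hn_le_ip (vx oo up w s) hd
  linarith

/-- **assembly of (H3)** -/
theorem h3T_of (hT : T2T) (hO : OutSt) : H3T := by
  classical
  intro d hd ε hε
  obtain ⟨CU, RU, hCU, hRU, hU⟩ := topU
  obtain ⟨η, κ, a, m, hη, hκ, hG⟩ := goodR hT lenT (ε / 2) (by positivity)
  obtain ⟨k, c0, hO⟩ := hO η κ a m hη hκ
  obtain ⟨c1, hc1, hG⟩ := hG k c0
  obtain ⟨u1, hu1, hG⟩ := hG c1 le_rfl
  obtain ⟨u, hu⟩ : ∃ u : ℕ, u = max u1 (m + 5) := ⟨_, rfl⟩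
  have hu2 : u1 ≤ u := by rw [hu]; exact le_max_left _ _
  have hu3 : m + 5 ≤ u := by rw [hu]; exact le_max_right _ _
  obtain ⟨e, b1, hke, heb, hG⟩ := hG u hu2
  obtain ⟨C, kap, r1, r2, c4, s1, b0, hC, hkap, hO⟩ := hO c1 u e hc1 (hu1.trans hu2) hu3 hke
  obtain ⟨K, hK1, hK2⟩ : ∃ K : ℕ, 1 ≤ K ∧ 2 * C * (24 * CU) ≤ K * (ε / 2) := by
    obtain ⟨K, hK⟩ := exists_nat_ge (2 * C * (24 * CU) / (ε / 2))
    refine ⟨K + 1, by omega, ?_⟩
    rw [div_le_iff₀ (by positivity)] at hK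
    push_cast
    nlinarith
  obtain ⟨g, hg⟩ : ∃ g : ℕ, g = (c4 + 1) * K := ⟨_, rfl⟩
  refine ⟨r2 * 2 ^ g, kap, max b0 b1, hkap, fun l hl => ?_⟩
  obtain ⟨B, hB⟩ : ∃ B : Finset ℕ, B = (range K).image fun i => l + (c4 + 1) * i := ⟨_, rfl⟩
  have hBc : B.card = K := by
    rw [hB, card_image_of_injective, card_range]
    intro i j hij
    have h1 : (c4 + 1) * i = (c4 + 1) * j := by
      have : l + (c4 + 1) * i = l + (c4 + 1) * j := hij
      omega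
    exact Nat.eq_of_mul_eq_mul_left (by omega) h1
  have hBne : B.Nonempty := by
    rw [← card_pos, hBc]
    omega
  have hBm : ∀ l' ∈ B, l ≤ l' ∧ l' ≤ l + g := by
    intro l' hl'
    rw [hB, mem_image] at hl'
    obtain ⟨i, hi, rfl⟩ := hl'
    rw [mem_range] at hi
    refine ⟨by omega, ?_⟩
    rw [hg]
    have := Nat.mul_le_mul_left (c4 + 1) hi.le
    omega
  have hBg : ∀ j ∈ B, ∀ l' ∈ B, j < l' → j + c4 ≤ l' := by
    intro j hj l' hl' hjl
    rw [hB, mem_image] at hj hl'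
    obtain ⟨i, -, rfl⟩ := hj
    obtain ⟨i', -, rfl⟩ := hl'
    have h1 : (c4 + 1) * i < (c4 + 1) * i' := by
      have : l + (c4 + 1) * i < l + (c4 + 1) * i' := hjl
      omega
    have h2 : i < i' := lt_of_mul_lt_mul_left h1 (by omega)
    have h3 : (c4 + 1) * (i + 1) ≤ (c4 + 1) * i' := Nat.mul_le_mul_left _ h2
    have h4 : (c4 + 1) * (i + 1) = (c4 + 1) * i + (c4 + 1) := by ring
    show l + (c4 + 1) * i + c4 ≤ l + (c4 + 1) * i'
    omega
  obtain ⟨P4, hP4⟩ : ∃ P4 : ℕ, P4 = 4 ^ (l + g + b0) := ⟨_, rfl⟩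
  obtain ⟨P2, hP2⟩ : ∃ P2 : ℕ, P2 = 2 ^ (l + g + s1 + b1) := ⟨_, rfl⟩
  refine ⟨P4 + P2 + ⌈2 * RU⌉₊ + 1, fun h hh => ?_⟩
  have hh1 : 1 ≤ h := by omega
  have hhR : (1 : ℝ) ≤ h := by exact_mod_cast hh1
  have hh0 : (0 : ℝ) < h := by linarith
  have hRUh : RU ≤ (h : ℝ) / 2 := by
    have h1 : 2 * RU ≤ ⌈2 * RU⌉₊ := Nat.le_ceil _
    have h2 : ((⌈2 * RU⌉₊ : ℕ) : ℝ) ≤ h := by exact_mod_cast (show ⌈2 * RU⌉₊ ≤ h by omega)
    linarith
  -- the class
  obtain ⟨E, hE⟩ : ∃ E : Set (List Bool), E = {w | w ∈ WTw d h (2 * h) ∧ ¬ Rich d kap l (r2 * 2 ^ g) w} := ⟨_, rfl⟩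
  rw [← hE]
  have hEP : E ⊆ Poor d B r2 kap h := by
    intro w hw
    rw [hE] at hw
    obtain ⟨⟨h1, h2, h3⟩, h4⟩ := hw
    replace h4 : (nW d w l (r2 * 2 ^ g) : ℝ) < kap * (2 : ℝ) ^ ((l : ℝ) / 2) := not_le.1 h4
    refine ⟨h1, h2, h3, fun l' hl' => ?_⟩
    obtain ⟨h5, h6⟩ := hBm l' hl'
    have h7 : nW d w l' r2 ≤ nW d w l (r2 * 2 ^ g) :=
      nW_mono h5 (Nat.mul_le_mul_left _ (Nat.pow_le_pow_right (by norm_num) (by omega)))
    have h8 : ((nW d w l' r2 : ℕ) : ℝ) ≤ nW d w l (r2 * 2 ^ g) := by exact_mod_cast h7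
    have h9 : (2 : ℝ) ^ ((l : ℝ) / 2) ≤ 2 ^ ((l' : ℝ) / 2) := by
      refine Real.rpow_le_rpow_of_exponent_le (by norm_num) ?_
      have : (l : ℝ) ≤ l' := by exact_mod_cast h5
      linarith
    have h10 := mul_le_mul_of_nonneg_left h9 hkap.le
    linarith
  obtain ⟨EE, hEE⟩ : ∃ EE : ℕ → Set (List Bool), EE = fun l' => {L | L ∈ GFcT L.length (l' + s1) η κ a m c1 u e k ∧
    ∃ β : Bool, L ++ [β] ∈ Poor d B r2 kap h} := ⟨_, rfl⟩
  obtain ⟨G, hGd⟩ : ∃ G : ℕ → Set (List Bool), G = fun l' => {w | ∃ L ∈ EE l', ∃ β : Bool, w = L ++ [β]} := ⟨_, rfl⟩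
  have hfin := outMostR (E := E) (B := B) (G := G) (R := fun d' i => Rc d' r1 kap (i + 1)) (U := fun d' => UU d' h) (C := 2 * C)
    (T := 24 * CU / (h : ℝ) ^ 2) (x := ε / 2 / (h : ℝ) ^ 2) (y := ε / 2 / (h : ℝ) ^ 2) hBne (by positivity) (by positivity)
    (by positivity) ?_ ?_ ?_ ?_
  · refine hfin.trans (le_of_eq ?_)
    congr 1
    ring
  · -- the surgery
    intro l' hl'
    obtain ⟨h5, h6⟩ := hBm l' hl'
    have h7 : gf (G l') ≤ 2 * gf (EE l') := by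
      rw [hGd]
      exact gf_last _
    have h8 := hO l' h B ((le_max_left _ _).trans (hl.trans h5)) (by
      have : 4 ^ (l' + b0) ≤ 4 ^ (l + g + b0) := Nat.pow_le_pow_right (by norm_num) (by omega)
      rw [← hP4] at this
      exact this.trans (by omega)) (hBg l' hl') d hd (EE l') (fun L hL => by
        rw [hEE] at hL
        exact hL)
    refine h7.trans ((mul_le_mul' le_rfl h8).trans (le_of_eq ?_))
    rw [ENNReal.ofReal_mul (by norm_num : (0 : ℝ) ≤ 2), ENNReal.ofReal_ofNat, mul_assoc]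
  · -- the bad words
    intro l' hl'
    obtain ⟨h5, h6⟩ := hBm l' hl'
    have h7 : E ⊆ G l' ∪ BadW h (l' + s1) η κ a m c1 u e k := by
      intro w hw
      have hP := hEP hw
      obtain ⟨g1, g2, g3, g4⟩ := id hP
      have hw0 : w ≠ [] := g1.2.2
      have e1 : w.dropLast ++ [w.getLast hw0] = w := List.dropLast_append_getLast hw0
      have e2 : w.dropLast.length = w.length - 1 := List.length_dropLast
      by_cases hg1 : w.dropLast ∈ GFcT (w.length - 1) (l' + s1) η κ a m c1 u e k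
      · left
        rw [hGd]
        refine ⟨w.dropLast, ?_, w.getLast hw0, e1.symm⟩
        rw [hEE]
        refine ⟨?_, w.getLast hw0, ?_⟩
        · rw [e2]
          exact hg1
        · rw [e1]
          exact hP
      · right
        obtain ⟨s, hs, hs2⟩ := bot_far hd hh1 g2
        refine ⟨wT_cyT hd g1, ⟨s, hs, ?_⟩, hg1⟩
        exact_mod_cast hs2
    refine (gf_mono h7).trans ((gf_union_le _ _).trans (add_le_add le_rfl ?_))
    refine hG h (l' + s1) ((le_max_right _ _).trans (hl.trans (h5.trans (Nat.le_add_right _ _)))) ?_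
    have h8 : 2 ^ (l' + s1 + b1) ≤ 2 ^ (l + g + s1 + b1) := Nat.pow_le_pow_right (by norm_num) (by omega)
    rw [← hP2] at h8
    have h9 : 2 ^ (l' + s1 + b1) ≤ h := h8.trans (by omega)
    exact_mod_cast h9
  · -- the total mass
    have h1 : ∀ d' ∈ dirs, gf (UU d' h) ≤ ENNReal.ofReal (4 * CU / (h : ℝ) ^ 2) := by
      intro d' hd'
      have h2 : UU d' h ⊆ {w | w ∈ CyT w.length ∧ ∃ s, s ≤ w.length ∧ (h : ℝ) / 2 ≤ ((TIW.hn (vx oo up w s) : ℤ) : ℝ)} := by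
        rintro w ⟨g1, g2, g3⟩
        have hb : 1 ≤ bot d' w := by omega
        obtain ⟨s, hs, hs2⟩ := bot_far hd' hb le_rfl
        refine ⟨wT_cyT hd' g1, s, hs, ?_⟩
        have h3 : ((bot d' w : ℕ) : ℝ) ≤ ((TIW.hn (vx oo up w s) : ℤ) : ℝ) := by exact_mod_cast hs2
        have h4 : (h : ℝ) ≤ 2 * (bot d' w : ℕ) := by exact_mod_cast g2
        linarith
      refine (gf_mono h2).trans ((hU _ hRUh).trans (le_of_eq ?_))
      congr 1
      field_simp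
      ring
    refine (sum_le_sum h1).trans (le_of_eq ?_)
    rw [sum_const, show dirs.card = 6 by decide, nsmul_eq_mul, ← ENNReal.ofReal_natCast,
      ← ENNReal.ofReal_mul (Nat.cast_nonneg _)]
    congr 1
    push_cast
    ring
  · rw [hBc]
    have hq : 0 < ((h : ℝ) ^ 2)⁻¹ := by positivity
    calc 2 * C * (24 * CU / (h : ℝ) ^ 2) = 2 * C * (24 * CU) * ((h : ℝ) ^ 2)⁻¹ := by rw [div_eq_mul_inv]; ring
      _ ≤ K * (ε / 2) * ((h : ℝ) ^ 2)⁻¹ := mul_le_mul_of_nonneg_right hK2 hq.le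
      _ = _ := by rw [div_eq_mul_inv (ε / 2)]; ring

end ART

end HexObs
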