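import Pool.Agent.ART.DCut2
import Pool.Agent.ROT.LBot

/-!
# ART, row INV (helper25): the deep double cut rows do not see the part around the top

`w = A ++ (I ++ B)`, `w' = A' ++ (I ++ B')` closed words rooted at their tops in the directions d, d', which are the same
direction in the frame of I (`mulE (rho A A') d' = d`); the vertices outside of I have depth at most ρ (`Sh`).
`mv A A'` is the rigid motion that maps the part I of w' to the part I of w.

* **`cutA_mv`** : a double cut row of w' of depth at least 2 ρ is a double cut row of w (moved);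
* `card_mv`, `card_mvF` : the number of double cut rows in a window;
* `ip_mv`, `hn_mv`, `hn_mv_sub`, `ip_mv_sub` : levels (moved by at most ρ), norms, gap, orientation;
* **`bot_mv`** : the depths of the bottoms differ by at most ρ.
-/

set_option autoImplicit false

namespace HexObs

namespace ART

namespace IV

open Finset TS SDN SIM NTA TIP ARM

variable {A A' I B B' : List Bool} {d d' : Pt} {ρ : ℤ}

/-! ### 1. The rigid motion -/

/-- the rotation from the frame behind A' to the frame behind A -/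
def rho (A A' : List Bool) : Pt := mulE (TIW.rt A) (conjE (TIW.rt A'))

lemma nrm_rho (A A' : List Bool) : nrm (rho A A') = 1 := by
  unfold rho
  rw [nrm_mulE, nrm_conjE, TIW.nrm_rt, TIW.nrm_rt, one_mul]

lemma rho_rt (A A' : List Bool) (q : Pt) : mulE (rho A A') (mulE (TIW.rt A') q) = mulE (TIW.rt A) q := by
  unfold rho
  rw [← mulE_assoc, mulE_assoc (conjE (TIW.rt A')), mulE_comm (conjE (TIW.rt A')), mulE_conjE, TIW.nrm_rt, mulE_one]

/-- **the rigid motion** that maps the part behind A' to the part behind A -/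
def mv (A A' : List Bool) (p : Pt) : Pt := TIW.en A + mulE (rho A A') (p - TIW.en A')

lemma mv_sub (A A' : List Bool) (p q : Pt) : mv A A' p - mv A A' q = mulE (rho A A') (p - q) := by
  unfold mv
  rw [add_sub_add_left_eq_sub, ← mulE_sub, sub_sub_sub_cancel_right]

lemma mv_inj {p q : Pt} (h : mv A A' p = mv A A' q) : p = q := by
  have h1 : mulE (rho A A') p = mulE (rho A A') q := by
    have h2 := mv_sub A A' p q
    rw [h, sub_self, mulE_sub] at h2
    exact (sub_eq_zero.1 h2.symm)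
  exact mulE_inj (nrm_rho A A') h1

/-- the part I of w' goes to the part I of w -/
lemma mv_I {i : ℕ} (hi : i ≤ I.length + 1) :
    mv A A' (vx oo up (A' ++ (I ++ B')) (A'.length + i)) = vx oo up (A ++ (I ++ B)) (A.length + i) := by
  unfold mv
  rw [TIW.vx_app, TIW.vx_app, add_sub_cancel_left, rho_rt, vx_apL _ _ _ hi, vx_apL _ _ _ hi]

/-- the rotations from A' to A and back -/
lemma rho_rho (A A' : List Bool) (q : Pt) : mulE (rho A' A) (mulE (rho A A') q) = q := by
  obtain ⟨x, hx⟩ : ∃ x, mulE (TIW.rt A') x = q := by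
    refine ⟨mulE (conjE (TIW.rt A')) q, ?_⟩
    rw [mulE_assoc, mulE_conjE, TIW.nrm_rt, mulE_one]
  rw [← hx, rho_rt, rho_rt]

lemma mv_mv (A A' : List Bool) (p : Pt) : mv A' A (mv A A' p) = p := by
  unfold mv
  rw [add_sub_cancel_left, rho_rho]
  abel

lemma rho_symm (h : mulE (rho A A') d' = d) : mulE (rho A' A) d = d' := by
  rw [← h, rho_rho]

/-- the same direction in the frame of I -/
lemma rho_dir (h : mulE (conjE (TIW.rt A)) d = mulE (conjE (TIW.rt A')) d') : mulE (rho A A') d' = d := by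
  unfold rho
  rw [← mulE_assoc, ← h, mulE_assoc, mulE_conjE, TIW.nrm_rt, mulE_one]

/-! ### 2. Levels, norms, orientation -/

lemma ip_mv_sub (h : mulE (rho A A') d' = d) (p q : Pt) : ip (mv A A' p - mv A A' q) d = ip (p - q) d' := by
  rw [mv_sub, ← h, ip_mulE, nrm_rho, one_mul]

/-- the orientation is kept -/
lemma ip_mv_rotL (h : mulE (rho A A') d' = d) (p q : Pt) :
    ip (mv A A' p - mv A A' q) (rotL d) = ip (p - q) (rotL d') := by
  rw [mv_sub, ← h, TR.rotL_mulE, ip_mulE, nrm_rho, one_mul]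

/-- **the levels are shifted** -/
lemma ip_mv (h : mulE (rho A A') d' = d) (p : Pt) :
    ip (mv A A' p) d = ip p d' + (ip (TIW.en A) d - ip (TIW.en A') d') := by
  unfold mv
  conv_lhs => rw [ip_add_left]
  have h1 : ip (mulE (rho A A') (p - TIW.en A')) d = ip (p - TIW.en A') d' := by
    conv_lhs => rw [← h]
    rw [ip_mulE, nrm_rho, one_mul]
  rw [h1, ip_sub_left]
  ring

/-- the gap is kept -/
lemma hn_mv_sub (A A' : List Bool) (p q : Pt) : TIW.hn (mv A A' p - mv A A' q) = TIW.hn (p - q) := by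
  rw [mv_sub, TIW.hn_mulE (nrm_rho A A')]

lemma hn_mv (A A' : List Bool) (p : Pt) : TIW.hn (mv A A' p) ≤ TIW.hn p + (TIW.hn (TIW.en A) + TIW.hn (TIW.en A')) := by
  unfold mv
  have h1 := TIW.hn_add (TIW.en A) (mulE (rho A A') (p - TIW.en A'))
  rw [TIW.hn_mulE (nrm_rho A A')] at h1
  have h2 := TIW.hn_sub p (TIW.en A')
  linarith

lemma mv_subd (h : mulE (rho A A') d' = d) (p : Pt) : mv A A' (p - d') = mv A A' p - d := by
  have h1 := mv_sub A A' p (p - d')
  rw [sub_sub_cancel, h] at h1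
  rw [← h1]
  abel

/-! ### 3. The part outside of I is above the depth ρ -/

/-- the vertices of A and of B have depth at most ρ -/
def Sh (d : Pt) (ρ : ℤ) (A I B : List Bool) : Prop := ∀ s, s ≤ A.length + I.length + B.length →
  (s ≤ A.length ∨ A.length + I.length ≤ s) → -ρ ≤ ip (vx oo up (A ++ (I ++ B)) s) d

/-- from a ball around the top -/
lemma sh_of_hn (hd : d ∈ dirs) (h : ∀ s, s ≤ A.length + I.length + B.length → (s ≤ A.length ∨ A.length + I.length ≤ s) →
    TIW.hn (vx oo up (A ++ (I ++ B)) s) ≤ ρ) : Sh d ρ A I B := by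
  intro s hs h1
  have h2 := h s hs h1
  have h3 := TIW.neg_hn_le_ip (vx oo up (A ++ (I ++ B)) s) hd
  linarith

lemma Sh.nonneg (h : Sh d ρ A I B) : 0 ≤ ρ := by
  have h1 := h 0 (Nat.zero_le _) (Or.inl (Nat.zero_le _))
  rw [vx_zero', ip_oo] at h1
  omega

lemma Sh.en (h : Sh d ρ A I B) : -ρ ≤ ip (TIW.en A) d := by
  have h1 := h A.length (by omega) (Or.inl le_rfl)
  rw [vx_apL _ _ _ (by omega)] at h1
  exact h1

lemma len3 (A I B : List Bool) : (A ++ (I ++ B)).length = A.length + I.length + B.length := by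
  rw [List.length_append, List.length_append, Nat.add_assoc]

lemma en_le {d : Pt} {A X : List Bool} (hw : A ++ X ∈ WT d) : ip (TIW.en A) d ≤ 0 := by
  have h1 := hw.2.1 A.length (by rw [List.length_append]; omega)
  rw [vx_apL _ _ _ (by omega)] at h1
  have h2 : TIW.en A = vx oo up A A.length := rfl
  rw [h2]
  rcases h1 with h1 | h1
  · exact h1.le
  · exact h1.1.le

/-! ### 4. The double cut rows -/

/-- **a deep double cut row of w' is a double cut row of w** -/
theorem cutA_mv (hd : d ∈ dirs) (hd' : d' ∈ dirs) (hdir : mulE (rho A A') d' = d) (hw : A ++ (I ++ B) ∈ WT d)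
    (hw' : A' ++ (I ++ B') ∈ WT d') (h : Sh d ρ A I B) (h' : Sh d' ρ A' I B') {P Q : Pt}
    (hz : CutA d' (A' ++ (I ++ B')) (P, Q)) (hdeep : ip P d' ≤ -(2 * ρ)) :
    CutA d (A ++ (I ++ B)) (mv A A' P, mv A A' Q) := by
  rw [cutA_iff hd' hw'] at hz
  obtain ⟨hlev, i, j, hij, hj, h1, h2, h3, h4, h5⟩ := hz
  rw [len3] at hj h5
  have hρ := h.nonneg
  have e1 := h.en
  have e2 := en_le hw
  have e3 := h'.en
  have e4 := en_le hw'
  -- the feet lie in the part I
  have key : ∀ s, s ≤ A'.length + I.length + B'.length → ip (vx oo up (A' ++ (I ++ B')) s) d' < ip P d' →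
      A'.length < s ∧ s < A'.length + I.length := by
    intro s hs hlt
    by_contra hcon
    have h6 := h' s hs (by omega)
    omega
  have ki := key (i + 1) (by omega) ((h5 (i + 1) (by omega)).2 (by omega))
  have kj := key j (by omega) ((h5 j (by omega)).2 (by omega))
  obtain ⟨i0, hi0⟩ : ∃ i0, i = A'.length + i0 := ⟨i - A'.length, by omega⟩
  obtain ⟨j0, hj0⟩ : ∃ j0, j = A'.length + j0 := ⟨j - A'.length, by omega⟩
  subst hi0
  subst hj0
  have hQ : ip P d' = ip Q d' := hlev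
  rw [cutA_iff hd hw]
  refine ⟨?_, A.length + i0, A.length + j0, by omega, ?_, ?_, ?_, ?_, ?_, ?_⟩
  · show ip (mv A A' P) d = ip (mv A A' Q) d
    rw [ip_mv hdir, ip_mv hdir, hQ]
  · rw [len3]
    omega
  · rw [← mv_I (A' := A') (B' := B') (by omega), h1]
  · rw [Nat.add_assoc, ← mv_I (A' := A') (B' := B') (by omega), ← Nat.add_assoc, h2, mv_subd hdir]
  · rw [← mv_I (A' := A') (B' := B') (by omega), h3, mv_subd hdir]
  · rw [Nat.add_assoc, ← mv_I (A' := A') (B' := B') (by omega), ← Nat.add_assoc, h4]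
  · intro s hs
    rw [len3] at hs
    by_cases hin : A.length ≤ s ∧ s ≤ A.length + I.length
    · obtain ⟨t, ht⟩ : ∃ t, s = A.length + t := ⟨s - A.length, by omega⟩
      subst ht
      rw [← mv_I (A' := A') (B' := B') (by omega), ip_mv hdir, ip_mv hdir]
      have h6 := h5 (A'.length + t) (by omega)
      constructor
      · intro h7
        have := h6.1 (by omega)
        omega
      · intro h7
        have := h6.2 (by omega)
        omega
    · have h6 := h s hs (by omega)
      rw [ip_mv hdir]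
      constructor
      · intro h7
        exfalso
        omega
      · intro h7
        exfalso
        omega

/-- the double cut rows of a word are finitely many -/
lemma cutA_fin {d : Pt} (hd : d ∈ dirs) (w : List Bool) : {z : Pt × Pt | CutA d w z}.Finite := by
  by_cases hw : w ∈ WT d
  · have hf : ((Finset.range (w.length + 1)).image (vx oo up w) : Set Pt).Finite := Finset.finite_toSet _
    refine (hf.prod hf).subset ?_
    rintro ⟨P, Q⟩ hz
    obtain ⟨-, i, j, hij, hj, h1, -, -, h4, -⟩ := (cutA_iff hd hw).1 hz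
    exact ⟨Finset.mem_coe.2 (Finset.mem_image.2 ⟨i, Finset.mem_range.2 (by omega), h1⟩),
      Finset.mem_coe.2 (Finset.mem_image.2 ⟨j + 1, Finset.mem_range.2 (by omega), h4⟩)⟩
  · convert Set.finite_empty
    ext z
    exact ⟨fun h => hw (h.mem hd), fun h => h.elim⟩

/-- the moved state -/
def mv2 (A A' : List Bool) (z : Pt × Pt) : Pt × Pt := (mv A A' z.1, mv A A' z.2)

lemma mv2_inj (A A' : List Bool) : Function.Injective (mv2 A A') := by
  rintro ⟨p, q⟩ ⟨p', q'⟩ h
  have h1 : mv A A' p = mv A A' p' := congrArg Prod.fst h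
  have h2 : mv A A' q = mv A A' q' := congrArg Prod.snd h
  rw [mv_inj h1, mv_inj h2]

/-- **the number of double cut rows in a window** -/
theorem card_mv (hd : d ∈ dirs) (hd' : d' ∈ dirs) (hdir : mulE (rho A A') d' = d) (hw : A ++ (I ++ B) ∈ WT d)
    (hw' : A' ++ (I ++ B') ∈ WT d') (h : Sh d ρ A I B) (h' : Sh d' ρ A' I B') {W W' : Set (Pt × Pt)}
    (hW : ∀ z ∈ W', ip z.1 d' ≤ -(2 * ρ) ∧ mv2 A A' z ∈ W) :
    {z | z ∈ W' ∧ CutA d' (A' ++ (I ++ B')) z}.ncard ≤ {z | z ∈ W ∧ CutA d (A ++ (I ++ B)) z}.ncard := by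
  have hfin : {z | z ∈ W ∧ CutA d (A ++ (I ++ B)) z}.Finite := (cutA_fin hd _).subset fun z hz => hz.2
  rw [← Set.ncard_image_of_injective _ (mv2_inj A A')]
  refine Set.ncard_le_ncard ?_ hfin
  rintro _ ⟨⟨P, Q⟩, ⟨hz, hc⟩, rfl⟩
  exact ⟨(hW _ hz).2, cutA_mv hd hd' hdir hw hw' h h' hc (hW _ hz).1⟩

open Classical in
/-- the same for finite windows -/
theorem card_mvF (hd : d ∈ dirs) (hd' : d' ∈ dirs) (hdir : mulE (rho A A') d' = d) (hw : A ++ (I ++ B) ∈ WT d)
    (hw' : A' ++ (I ++ B') ∈ WT d') (h : Sh d ρ A I B) (h' : Sh d' ρ A' I B') {W W' : Finset (Pt × Pt)}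
    (hW : ∀ z ∈ W', ip z.1 d' ≤ -(2 * ρ) ∧ mv2 A A' z ∈ W) :
    (W'.filter fun z => CutA d' (A' ++ (I ++ B')) z).card ≤ (W.filter fun z => CutA d (A ++ (I ++ B)) z).card := by
  refine Finset.card_le_card_of_injOn (mv2 A A') ?_ ((mv2_inj A A').injOn)
  rintro ⟨P, Q⟩ hz
  rw [Finset.mem_coe, Finset.mem_filter] at hz
  rw [Finset.mem_coe, Finset.mem_filter]
  exact ⟨(hW _ hz.1).2, cutA_mv hd hd' hdir hw hw' h h' hz.2 (hW _ hz.1).1⟩

/-! ### 5. The bottom -/

/-- **the depth of the bottom** -/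
theorem bot_mv (hdir : mulE (rho A A') d' = d) (hw' : A' ++ (I ++ B') ∈ WT d')
    (h : Sh d ρ A I B) : (bot d (A ++ (I ++ B)) : ℤ) ≤ bot d' (A' ++ (I ++ B')) + ρ := by
  have hρ := h.nonneg
  have e1 := h.en
  have e4 := en_le hw'
  have key : bot d (A ++ (I ++ B)) ≤ (bot d' (A' ++ (I ++ B')) + ρ.toNat) := by
    rw [bot_le_iff]
    intro s hs
    rw [len3] at hs
    have hr : ((bot d' (A' ++ (I ++ B')) + ρ.toNat : ℕ) : ℤ) = bot d' (A' ++ (I ++ B')) + ρ := by
      push_cast
      rw [Int.toNat_of_nonneg hρ]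
    rw [hr]
    have h0 : (0 : ℤ) ≤ bot d' (A' ++ (I ++ B')) := Int.natCast_nonneg _
    by_cases hin : A.length ≤ s ∧ s ≤ A.length + I.length
    · obtain ⟨t, ht⟩ : ∃ t, s = A.length + t := ⟨s - A.length, by omega⟩
      subst ht
      rw [← mv_I (A' := A') (B' := B') (by omega), ip_mv hdir]
      have h6 := neg_le_bot (d := d') (w := A' ++ (I ++ B')) (s := A'.length + t) (by rw [len3]; omega)
      omega
    · have h6 := h s hs (by omega)
      omega
  have h2 : ((bot d (A ++ (I ++ B)) : ℕ) : ℤ) ≤ ((bot d' (A' ++ (I ++ B')) + ρ.toNat : ℕ) : ℤ) := by exact_mod_cast key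
  push_cast at h2
  rw [Int.toNat_of_nonneg hρ] at h2
  exact h2

/-! ### 6. Windows -/

/-- the windows of states: the depth in [a, b], the feet in the ball c, the gap at least g -/
def Wn (d : Pt) (a b c g : ℤ) : Set (Pt × Pt) :=
  {z | ip z.1 d = ip z.2 d ∧ a ≤ -(ip z.1 d) ∧ -(ip z.1 d) ≤ b ∧ TIW.hn z.1 ≤ c ∧ TIW.hn z.2 ≤ c ∧ g ≤ TIW.hn (z.1 - z.2)}

/-- **a window goes to a slightly larger window** -/
theorem wn_mv (hdir : mulE (rho A A') d' = d) (hw : A ++ (I ++ B) ∈ WT d) (hw' : A' ++ (I ++ B') ∈ WT d')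
    (h : Sh d ρ A I B) (h' : Sh d' ρ A' I B') {R : ℤ} (hR : TIW.hn (TIW.en A) ≤ R) (hR' : TIW.hn (TIW.en A') ≤ R)
    {a b c g : ℤ} {z : Pt × Pt} (hz : z ∈ Wn d' a b c g) : mv2 A A' z ∈ Wn d (a - ρ) (b + ρ) (c + 2 * R) g := by
  obtain ⟨z1, z2, z3, z4, z5, z6⟩ := hz
  have e1 := h.en
  have e2 := en_le hw
  have e3 := h'.en
  have e4 := en_le hw'
  have f1 := hn_mv A A' z.1
  have f2 := hn_mv A A' z.2
  refine ⟨?_, ?_, ?_, ?_, ?_, ?_⟩
  · show ip (mv A A' z.1) d = ip (mv A A' z.2) d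
    rw [ip_mv hdir, ip_mv hdir, z1]
  · show a - ρ ≤ -(ip (mv A A' z.1) d)
    rw [ip_mv hdir]
    omega
  · show -(ip (mv A A' z.1) d) ≤ b + ρ
    rw [ip_mv hdir]
    omega
  · show TIW.hn (mv A A' z.1) ≤ c + 2 * R
    omega
  · show TIW.hn (mv A A' z.2) ≤ c + 2 * R
    omega
  · show g ≤ TIW.hn (mv A A' z.1 - mv A A' z.2)
    rw [hn_mv_sub]
    exact z6

/-- **the number of double cut rows in the windows** -/
theorem card_wn (hd : d ∈ dirs) (hd' : d' ∈ dirs) (hdir : mulE (rho A A') d' = d) (hw : A ++ (I ++ B) ∈ WT d)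
    (hw' : A' ++ (I ++ B') ∈ WT d') (h : Sh d ρ A I B) (h' : Sh d' ρ A' I B') {R : ℤ} (hR : TIW.hn (TIW.en A) ≤ R)
    (hR' : TIW.hn (TIW.en A') ≤ R) {a b c g : ℤ} (ha : 2 * ρ ≤ a) :
    {z | z ∈ Wn d' a b c g ∧ CutA d' (A' ++ (I ++ B')) z}.ncard ≤
      {z | z ∈ Wn d (a - ρ) (b + ρ) (c + 2 * R) g ∧ CutA d (A ++ (I ++ B)) z}.ncard := by
  refine card_mv hd hd' hdir hw hw' h h' fun z hz => ⟨?_, wn_mv hdir hw hw' h h' hR hR' hz⟩
  have := hz.2.1
  omega

end IV

end ART

end HexObs
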