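import Pool.Agent.ARM.DefsG

/-!
# ART, block C-b (helper69): rows which are crossed by exactly two edges of a word

The form of `cutA_iff` (ART/DCut2, helper22), for a word that is a part of a closed word.
-/

set_option autoImplicit false

namespace HexObs

namespace ART

/-- the row with the upper ends P, P' is crossed by the edge i (upwards) and the edge j (downwards) of the word Q, and by no
other edge of Q -/
structure RowC (d : Pt) (Q : List Bool) (i j : ℕ) (P P' : Pt) : Prop where
  lt : i < j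
  le : j < Q.length
  v1 : vx oo up Q i = P - d
  v2 : vx oo up Q (i + 1) = P
  v3 : vx oo up Q j = P'
  v4 : vx oo up Q (j + 1) = P' - d
  lev : ip P d = ip P' d
  iff : ∀ s, s ≤ Q.length → (ip P d ≤ ip (vx oo up Q s) d ↔ i < s ∧ s ≤ j)

/-- many such rows with the upper ends in W -/
def RichQ (d : Pt) (κ : ℝ) (k : ℕ) (W : Set (Pt × Pt)) (Q : List Bool) : Prop :=
  ∃ S : Finset (Pt × Pt), κ * Real.sqrt (2 ^ k) ≤ (S.card : ℝ) ∧ ∀ z ∈ S, z ∈ W ∧ ∃ i j, RowC d Q i j z.1 z.2

/-- the window: between the nodes a + 1 and a + N - 1 of the upward column (from the node a, N steps), between the same rows of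
the downward column (N steps from the node a + N + 2) -/
def WinQ (e : ℕ → Pt) (D w : ℤ) (a N : ℕ) : Set (Pt × Pt) :=
  {z | (∃ j, a + 1 ≤ j ∧ j + 2 ≤ a + N ∧ AR.NS (AR.pv e D j) (e j) D w z.1) ∧
    ∃ j, a + N + 3 ≤ j ∧ j + 2 ≤ a + N + 2 + N ∧ AR.NS (AR.pv e D j) (e j) D w z.2}

end ART

end HexObs
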