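import Pool.Agent.ART.JoinDefs
import Pool.Agent.ART.RichDefs
import Pool.Agent.ART.Inv
import Pool.Agent.ARM.PlcA

/-!
# ART, row HV (helper87): the literals of TopTube (helper79, helper69) and IMG (helper21)

* `ColE` : the column pattern of the path alone; `QR` : the tubes that close I, with many rows crossed by exactly two edges;
* **`TopTubeS N`** : their mass; **`ImgS`** : the closed word `I ++ Q`, read from its top, has many double cut rows.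
-/

set_option autoImplicit false

namespace HexObs

namespace ART

open Finset TS SDN SIM NTA TIP ARM ARM.G3

open scoped ENNReal

/-- **the column pattern** in the direction d, without the word -/
structure ColE (E : ℕ → Pt) (r : ℕ) (D : ℤ) (N i0 : ℕ) (d : Pt) : Prop where
  one : 2 ≤ i0
  le : i0 + 2 * N + 4 ≤ r
  ups : ∀ i, i < N → E (i0 + i) = d
  cap : (E (i0 + N) = rotR d ∧ E (i0 + N + 1) = rotR (rotR d)) ∨ (E (i0 + N) = rotL d ∧ E (i0 + N + 1) = rotL (rotL d))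
  dns : ∀ i, i < N → E (i0 + N + 2 + i) = -d
  lowE : ∀ i, i ≤ r → (i < i0 ∨ i0 + 2 * N + 2 < i) → ip (qv E D r i) d + D ≤ ip (qv E D r i0) d

lemma Col.toE {E : ℕ → Pt} {r : ℕ} {D : ℤ} {N i0 : ℕ} {d : Pt} {M : List Bool} (h : Col E r D N i0 d M) :
    ColE E r D N i0 d := ⟨h.one, h.le, h.ups, h.cap, h.dns, h.lowE⟩

/-- the tubes that close I (d = the direction of the columns in the frame of the start of I), with at least `κ 2 ^ (k / 2)`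
rows crossed by exactly two edges, in the frame of the end of I -/
def QR (E : ℕ → Pt) (r : ℕ) (D : ℤ) (k N i0 : ℕ) (d : Pt) (κ : ℝ) (I : List Bool) : Set (List Bool) :=
  {Q | TP E r D k I Q ∧ RichQ (mulE (rc I) d) κ k (WinQ (fun i => mulE (rc I) (E i)) D (2 ^ (k + 9)) i0 N) Q}

/-- **TopTube** -/
def TopTubeS (N : ℕ) : Prop := ∃ H0 : ℕ, 2 ^ 13 ≤ H0 ∧ ∀ H : ℕ, H0 ≤ H → ∀ Mx : ℕ, ∃ (c κ : ℝ) (k0 : ℕ), 0 < c ∧ 0 < κ ∧
  ∀ (k r i0 : ℕ) (D : ℤ) (E : ℕ → Pt) (d s : Pt) (I : List Bool), k0 ≤ k → 18 * (H * 2 ^ k) ≤ D → D ≤ 36 * (H * 2 ^ k) →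
    4 ≤ r → r ≤ Mx → IPg E r → E (r - 1) = up → E (r - 2) = up → d ∈ dirs → ColE E r D N i0 d → Plc E r D k s I →
    ENNReal.ofReal (c * (Ub k / 4 ^ k)) ≤ gf (QR E r D k N i0 d κ I)

/-- **IMG**: the closed word, read from its top: `Q2 ++ (I ++ Q1)` -/
def ImgS (N : ℕ) : Prop := ∀ (H : ℕ), 2 ^ 13 ≤ H → ∀ (κ : ℝ) (k r i0 : ℕ) (D : ℤ) (E : ℕ → Pt) (d s : Pt) (I Q : List Bool),
  0 < κ → 18 * (H * 2 ^ k) ≤ D → D ≤ 36 * (H * 2 ^ k) → 4 ≤ r → IPg E r → E (r - 1) = up → E (r - 2) = up → d ∈ dirs →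
    ColE E r D N i0 d → Plc E r D k s I →
    (∀ i, i ≤ I.length → ip (s + vx oo up I i) d + D ≤ ip (qv E D r i0) d + 2 ^ k) → Q ∈ QR E r D k N i0 d κ I →
    ∃ (Q1 Q2 : List Bool) (d' : Pt), Q = Q1 ++ Q2 ∧ Q2 ≠ [] ∧ d' ∈ dirs ∧ mulE (conjE (TIW.rt Q2)) d' = d ∧
      Q2 ++ (I ++ Q1) ∈ WT d' ∧ ∃ S : Finset (Pt × Pt), κ * Real.sqrt (2 ^ k) ≤ (S.card : ℝ) ∧ ∀ z ∈ S,
        CutA d' (Q2 ++ (I ++ Q1)) z ∧ D ≤ -ip z.1 d' ∧ TIW.hn z.1 ≤ (2 * N + 8) * D ∧ TIW.hn z.2 ≤ (2 * N + 8) * D ∧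
        D ≤ TIW.hn (z.1 - z.2)

end ART

end HexObs
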