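import Pool.Agent.ART.Inv
import Pool.Agent.ART.H3Defs

/-!
# ART, row INV, part 2 (helper25): the form with one ball

`Bl R A I B` : the vertices of A and of B are in the ball R around the start of I.
`inv_cut`, `inv_ip`, `inv_hn`, `inv_bot`, **`nW_inv`** (the windows `WdS`: the level l + 1 of w' with r goes into the level
l of w with 4 r).
-/

set_option autoImplicit false

namespace HexObs

namespace ART

namespace IV

open Finset TS SDN TIP ARM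

variable {A A' I B B' : List Bool} {d d' : Pt} {R : ℤ}

/-- the vertices of A and of B are in the ball R around the start of I -/
def Bl (R : ℤ) (A I B : List Bool) : Prop := ∀ s, s ≤ A.length + I.length + B.length →
  (s ≤ A.length ∨ A.length + I.length ≤ s) → TIW.hn (vx oo up (A ++ (I ++ B)) s - TIW.en A) ≤ R

lemma Bl.en (h : Bl R A I B) : TIW.hn (TIW.en A) ≤ R := by
  have h1 := h 0 (Nat.zero_le _) (Or.inl (Nat.zero_le _))
  rw [vx_zero', show (oo : Pt) - TIW.en A = -TIW.en A from zero_sub _, TIW.hn_neg] at h1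
  exact h1

lemma Bl.nonneg (h : Bl R A I B) : 0 ≤ R := (TIW.hn_nonneg _).trans h.en

lemma Bl.sh (hd : d ∈ dirs) (h : Bl R A I B) : Sh d (2 * R) A I B := by
  refine sh_of_hn hd fun s hs h1 => ?_
  have h2 := h s hs h1
  have h3 := TIW.hn_add (vx oo up (A ++ (I ++ B)) s - TIW.en A) (TIW.en A)
  rw [sub_add_cancel] at h3
  have h4 := h.en
  linarith

/-- **a deep double cut row of w' is a double cut row of w** -/
theorem inv_cut (hd : d ∈ dirs) (hd' : d' ∈ dirs) (hdir : mulE (rho A A') d' = d) (hw : A ++ (I ++ B) ∈ WT d)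
    (hw' : A' ++ (I ++ B') ∈ WT d') (h : Bl R A I B) (h' : Bl R A' I B') {z : Pt × Pt}
    (hz : CutA d' (A' ++ (I ++ B')) z) (hdeep : 4 * R ≤ -(ip z.1 d')) : CutA d (A ++ (I ++ B)) (mv2 A A' z) := by
  obtain ⟨P, Q⟩ := z
  refine cutA_mv hd hd' hdir hw hw' (h.sh hd) (h'.sh hd') hz ?_
  dsimp only at hdeep
  linarith

/-- the depth moves by at most 2 R -/
theorem inv_ip (hd : d ∈ dirs) (hd' : d' ∈ dirs) (hdir : mulE (rho A A') d' = d) (hw : A ++ (I ++ B) ∈ WT d)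
    (hw' : A' ++ (I ++ B') ∈ WT d') (h : Bl R A I B) (h' : Bl R A' I B') (p : Pt) :
    |ip (mv A A' p) d - ip p d'| ≤ 2 * R := by
  rw [ip_mv hdir, abs_le]
  have e1 := (h.sh hd).en
  have e2 := en_le hw
  have e3 := (h'.sh hd').en
  have e4 := en_le hw'
  constructor <;> linarith

/-- the norm grows by at most 2 R -/
theorem inv_hn (h : Bl R A I B) (h' : Bl R A' I B') (p : Pt) : TIW.hn (mv A A' p) ≤ TIW.hn p + 2 * R := by
  have h1 := hn_mv A A' p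
  have h2 := h.en
  have h3 := h'.en
  linarith

/-- **the depth of the bottom** -/
theorem inv_bot (hd : d ∈ dirs) (hdir : mulE (rho A A') d' = d) (hw' : A' ++ (I ++ B') ∈ WT d')
    (h : Bl R A I B) : (bot d (A ++ (I ++ B)) : ℤ) ≤ bot d' (A' ++ (I ++ B')) + 2 * R :=
  bot_mv hdir hw' (h.sh hd)

/-- **a window goes to a larger window** -/
theorem inv_win (hd : d ∈ dirs) (hd' : d' ∈ dirs) (hdir : mulE (rho A A') d' = d) (hw : A ++ (I ++ B) ∈ WT d)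
    (hw' : A' ++ (I ++ B') ∈ WT d') (h : Bl R A I B) (h' : Bl R A' I B') {l r : ℕ} (hr : 1 ≤ r) (hl : 2 * R ≤ 2 ^ l)
    {z : Pt × Pt} (hz : z ∈ WdS d' (l + 1) r) : mv2 A A' z ∈ WdS d l (4 * r) := by
  rw [mem_WdS] at hz ⊢
  obtain ⟨z1, z2, z3, z4, z5, z6⟩ := hz
  have e := abs_le.1 (inv_ip hd hd' hdir hw hw' h h' z.1)
  have f1 := inv_hn h h' z.1
  have f2 := inv_hn h h' z.2
  have hr' : (1 : ℤ) ≤ r := by exact_mod_cast hr
  have hp : (0 : ℤ) < 2 ^ l := by positivity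
  have hpr : (2 : ℤ) ^ l ≤ r * 2 ^ l := by nlinarith
  have hs : (2 : ℤ) ^ (l + 1) = 2 * 2 ^ l := by rw [pow_succ]; ring
  have hn0 := TIW.hn_nonneg (z.1 - z.2)
  have hq : (((4 * r : ℕ) : ℤ)) * 2 ^ l = 4 * (r * 2 ^ l) := by push_cast; ring
  have hq2 : (r : ℤ) * 2 ^ (l + 1) = 2 * (r * 2 ^ l) := by rw [hs]; ring
  rw [hq2] at z3 z4 z5
  rw [hs] at z2 z6
  refine ⟨?_, ?_, ?_, ?_, ?_, ?_⟩
  · show ip (mv A A' z.1) d = ip (mv A A' z.2) d
    rw [ip_mv hdir, ip_mv hdir, z1]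
  · show (2 : ℤ) ^ l ≤ -(ip (mv A A' z.1) d)
    linarith
  · show -(ip (mv A A' z.1) d) ≤ ((4 * r : ℕ) : ℤ) * 2 ^ l
    rw [hq]
    linarith
  · show TIW.hn (mv A A' z.1) ≤ ((4 * r : ℕ) : ℤ) * 2 ^ l
    rw [hq]
    linarith
  · show TIW.hn (mv A A' z.2) ≤ ((4 * r : ℕ) : ℤ) * 2 ^ l
    rw [hq]
    linarith
  · show (2 : ℤ) ^ l ≤ ((4 * r : ℕ) : ℤ) * TIW.hn (mv A A' z.1 - mv A A' z.2)
    rw [hn_mv_sub]
    push_cast
    nlinarith

/-- **the number of double cut rows in the windows** -/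
theorem nW_inv (hd : d ∈ dirs) (hd' : d' ∈ dirs) (hdir : mulE (rho A A') d' = d) (hw : A ++ (I ++ B) ∈ WT d)
    (hw' : A' ++ (I ++ B') ∈ WT d') (h : Bl R A I B) (h' : Bl R A' I B') {l r : ℕ} (hr : 1 ≤ r) (hl : 2 * R ≤ 2 ^ l) :
    nW d' (A' ++ (I ++ B')) (l + 1) r ≤ nW d (A ++ (I ++ B)) l (4 * r) := by
  classical
  refine card_mvF hd hd' hdir hw hw' (h.sh hd) (h'.sh hd') fun z hz =>
    ⟨?_, inv_win hd hd' hdir hw hw' h h' hr hl hz⟩
  have h1 := (mem_WdS.1 hz).2.1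
  rw [pow_succ] at h1
  linarith

/-- **poor goes to poor**: a level above the one of the surgery -/
theorem rc_inv (hd : d ∈ dirs) (hd' : d' ∈ dirs) (hdir : mulE (rho A A') d' = d) (hw : A ++ (I ++ B) ∈ WT d)
    (hw' : A' ++ (I ++ B') ∈ WT d') (h : Bl R A I B) (h' : Bl R A' I B') {l r : ℕ} (hr : 1 ≤ r) (hl : 2 * R ≤ 2 ^ l)
    {kap : ℝ} (hk : 0 ≤ kap) (hp : (nW d (A ++ (I ++ B)) l (4 * r) : ℝ) < kap * (2 : ℝ) ^ ((l : ℝ) / 2)) :
    A' ++ (I ++ B') ∉ Rc d' r kap (l + 1) := by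
  intro hc
  have h1 : kap * (2 : ℝ) ^ (((l + 1 : ℕ) : ℝ) / 2) ≤ (nW d' (A' ++ (I ++ B')) (l + 1) r : ℝ) := hc
  have h2 : (nW d' (A' ++ (I ++ B')) (l + 1) r : ℝ) ≤ (nW d (A ++ (I ++ B)) l (4 * r) : ℝ) := by
    exact_mod_cast nW_inv hd hd' hdir hw hw' h h' hr hl
  have h3 : (2 : ℝ) ^ ((l : ℝ) / 2) ≤ (2 : ℝ) ^ (((l + 1 : ℕ) : ℝ) / 2) := by
    refine Real.rpow_le_rpow_of_exponent_le (by norm_num) ?_
    push_cast
    linarith
  have h4 := mul_le_mul_of_nonneg_left h3 hk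
  linarith

end IV

end ART

end HexObs
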