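import Pool.Agent.ART.HVtA
import Pool.Agent.ART.HVDefs
import Pool.Agent.ART.InvW

/-!
# ART, row HV (helper87): row (7) of ROT/C4_53

* `qr_im` : the tubes of TopTube are images of the outer surgery;
* **`outSt_of : JoinTc → TopTubeS N → ImgS N → OutSt`**: the outer surgery at the level l + s1.
-/

set_option autoImplicit false

namespace HexObs

namespace ART

namespace OG

open Finset TS SDN SIM NTA TIP ARM ARM.G3 ARM.G2 JT IV

open scoped ENNReal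

lemma GFcT_sub {n j : ℕ} {η κ : ℝ} {a m c u e k : ℕ} {L : List Bool} (h : L ∈ GFcT n j η κ a m c u e k) :
    L ∈ GFc n j η κ a m c u e k := by
  obtain ⟨⟨h1, h2, h3, h4⟩, h5⟩ := h
  refine ⟨⟨h1, h2, h3, ?_⟩, h5⟩
  rw [sub_zero]
  have h6 := h4.1
  exact_mod_cast h6

/-- the depth of the bottom and the length -/
lemma bot_len {d : Pt} (hd : d ∈ dirs) (w : List Bool) : bot d w ≤ 2 * w.length := by
  rw [bot_le_iff]
  intro s hs
  have h1 : ∀ s, TIW.hn (vx oo up w s) ≤ 2 * s := by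
    intro s
    induction s with
    | zero =>
      show TIW.hn oo ≤ _
      decide
    | succ s ih =>
      have e1 : vx oo up w (s + 1) = vx oo up w s + dx up w s := rfl
      rw [e1]
      refine (TIW.hn_add _ _).trans ?_
      have h4 : TIW.hn (dx up w s) = 2 := by
        have := dx_mem up_dirs w s
        revert this
        generalize dx up w s = d
        revert d
        decide
      push_cast
      linarith
  have h2 := TIW.neg_hn_le_ip (vx oo up w s) hd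
  have h3 := h1 s
  have h4 : (s : ℤ) ≤ w.length := by exact_mod_cast hs
  push_cast
  linarith

/-- the class without the last letter -/
lemma c0T_of {d : Pt} (hd : d ∈ dirs) {L : List Bool} {β : Bool} (h : L ++ [β] ∈ WT d) : L ∈ C0T L.length := by
  obtain ⟨h1, h2, h3⟩ := h
  refine ⟨β, ?_, d, hd, h2⟩
  rw [List.length_append, List.length_singleton] at h1
  exact h1

variable {E : ℕ → Pt} {r : ℕ} {D : ℤ} {k : ℕ}

/-- **the tubes of TopTube are images** -/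
lemma qr_im {N H : ℕ} (hN : ImgS N) (hH : 2 ^ 13 ≤ H) {κT : ℝ} (hκT : 0 < κT) {i0 : ℕ} {d d0 s : Pt}
    {X M Y Z1 I Z2 : List Bool} {β : Bool} {j l m h K r1 : ℕ} {R : ℤ} {B : Finset ℕ} {kap : ℝ} (hd : d ∈ dirs)
    (hD1 : 18 * (H * 2 ^ k) ≤ D) (hD2 : D ≤ 36 * (H * 2 ^ k)) (hr4 : 4 ≤ r) (hE : IPg E r) (hup : E (r - 1) = up)
    (hup2 : E (r - 2) = up) (hcol : Col E r D N i0 d0 M) (hd0 : d0 = mulE (conjE (TIW.rt X)) d) (hJ : Jn E r D k M)
    (hs : TIW.hn s ≤ 2 ^ k) (hM : M = Z1 ++ (I ++ Z2)) (hC : Cf E r D k s Z1 I Z2) (hW : Wc E r D k (s + TIW.en Z1) I)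
    (hX : In (2 ^ (j + m)) (rev X)) (hY : In (2 ^ (j + m)) Y) (hw : X ++ (M ++ Y) ++ [β] ∈ Poor d B (4 * r1) kap h)
    (hK : Rad r D k ≤ K * 2 ^ k) (hR : 6 * 2 ^ (j + m) + 4 * Rad r D k + 4 ≤ R) (hRl : ∀ l' ∈ B, l < l' → 2 * R ≤ 2 ^ l')
    (hRh : 4 * R ≤ h) (hDa : 2 ^ (l + 1) ≤ D) (hDb : (2 * (N : ℤ) + 8) * D ≤ r1 * 2 ^ (l + 1)) (hr1 : 1 ≤ r1) (hkap0 : 0 ≤ kap)
    (hkap : kap * (2 : ℝ) ^ (((l + 1 : ℕ) : ℝ) / 2) ≤ κT * Real.sqrt (2 ^ k)) :
    QR E r D k N i0 d0 κT I ⊆ Im E r D k (K * 2 ^ k)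
      (⋃ d' ∈ dirs, UU d' h ∩ OutL B (fun i => Rc d' r1 kap (i + 1)) l) (s + TIW.en Z1) I := by
  intro Q hQ
  have hD0 : 0 < D := by
    have : (0 : ℤ) < 2 ^ (l + 1) := by positivity
    linarith
  have hZ1 : Z1 ∈ BU := hC.1
  have hP := hW.1
  have hd0m : d0 ∈ dirs := by
    rw [hd0]
    refine TIW.mulE_mem ?_ hd
    rw [nrm_conjE, TIW.nrm_rt]
  have hQTP : TP E r D k I Q := hQ.1
  have hDk : 2 ^ (k + 12) ≤ D := by
    refine le_trans ?_ hD1
    have h2 : (2 : ℤ) ^ 13 ≤ (H : ℤ) := by exact_mod_cast hH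
    have h3 : (0 : ℤ) < 2 ^ k := by positivity
    rw [show (2 : ℤ) ^ (k + 12) = 2 ^ 12 * 2 ^ k by rw [pow_add]; ring]
    nlinarith
  -- the placed minimal part is below the columns
  have hlow : ∀ i, i ≤ I.length → ip (s + TIW.en Z1 + vx oo up I i) d0 + D ≤ ip (qv E D r i0) d0 + 2 ^ k := by
    intro i hi
    have h1 := hcol.lowM (Z1.length + i) (by rw [hM]; simp only [List.length_append]; omega)
    have h2 := vx_bu (s := s) (A := I ++ Z2) hZ1 i
    rw [vx_append (by omega : i ≤ I.length + 1), ← hM] at h2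
    rw [← h2, ip_add_left]
    have h3 := TIW.ip_le_hn s hd0m
    linarith
  obtain ⟨Q1, Q2, d', hQe, hQ2, hd', hdd, hwt, S, hS, hS2⟩ := hN H hH κT k r i0 D E d0 (s + TIW.en Z1) I Q hκT hD1 hD2 hr4 hE
    hup hup2 hd0m hcol.toE hP hlow hQ
  have hcy := cy_of hE (by omega) hup hDk hP hQTP
  -- the two words
  have ew : X ++ (M ++ Y) ++ [β] = (X ++ Z1) ++ (I ++ (Z2 ++ (Y ++ [β]))) := by
    rw [hM]
    simp only [List.append_assoc]
  obtain ⟨hwT, hb1, hb2, hpoor⟩ := hw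
  have hBl : Bl R (X ++ Z1) I (Z2 ++ (Y ++ [β])) := by
    have h1 := out_w (R := 2 ^ (j + m)) (b := β) hE (by omega) hD0.le hs hM hJ hC hX hY
    rw [ew] at h1
    obtain ⟨h2, h3⟩ := h1
    have e1 : vx oo up ((X ++ Z1) ++ (I ++ (Z2 ++ (Y ++ [β])))) (X ++ Z1).length = TIW.en (X ++ Z1) := vx_append (by omega)
    rw [e1] at h2 h3
    push_cast at h2 h3
    intro i hi hi'
    rcases hi' with h4 | h4
    · exact (h2 i h4).trans hR
    · exact (h3 i h4 (by rw [len3]; exact hi)).trans hR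
  have hBl' : Bl R Q2 I Q1 := by
    rw [hQe] at hQTP hcy
    have h1 := out_w' hE hD0.le hP hQTP (by rw [hcy.1]; exact hcy.2.1)
    obtain ⟨h2, h3⟩ := h1
    have e1 : vx oo up (Q2 ++ (I ++ Q1)) Q2.length = TIW.en Q2 := vx_append (by omega)
    rw [e1] at h2 h3
    have hp := Rad_pos (r := r) (k := k) hD0.le
    have h5 : (0 : ℤ) < 2 ^ (j + m) := by positivity
    have h6 : (0 : ℤ) < 2 ^ (k + 10) := by positivity
    intro i hi hi'
    rcases hi' with h4 | h4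
    · have := h2 i h4
      linarith
    · have := h3 i h4 (by rw [len3]; exact hi)
      linarith
  have hdir : mulE (rho (X ++ Z1) Q2) d' = d := by
    refine rho_dir ?_
    rw [hdd, hd0]
    have e1 : TIW.rt (X ++ Z1) = TIW.rt X := by
      unfold TIW.rt
      congr 1
      have h1 : TIW.de (X ++ Z1) = mulE (TIW.rt X) (TIW.de Z1) := by
        unfold TIW.de
        rw [List.length_append]
        exact TIW.dx_app X Z1 Z1.length
      rw [h1, (AR.BU_facts hZ1).2.1, TIW.rt_up]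
    rw [e1]
  rw [ew] at hwT hb1 hb2 hpoor
  -- the image
  refine ⟨hQTP, I.length + Q1.length, ?_, ?_, ?_⟩
  · have : 0 < Q2.length := List.length_pos_iff.2 hQ2
    rw [hQe, List.length_append]
    omega
  · have e2 : (I ++ Q).rotate (I.length + Q1.length) = Q2 ++ (I ++ Q1) := by
      rw [hQe, ← List.append_assoc, ← List.length_append, List.rotate_append_length_eq]
    rw [e2]
    simp only [Set.mem_iUnion, exists_prop]
    refine ⟨d', hd', ⟨hwt, ?_, ?_⟩, ?_, ?_⟩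
    · -- the height from below
      have h1 := inv_bot hd hdir hwt hBl
      have h2 : ((h : ℕ) : ℤ) ≤ bot d (X ++ Z1 ++ (I ++ (Z2 ++ (Y ++ [β])))) := by exact_mod_cast hb1
      have h3 : (h : ℤ) ≤ 2 * (bot d' (Q2 ++ (I ++ Q1)) : ℤ) := by linarith
      exact_mod_cast h3
    · have h1 := inv_bot hd' (rho_symm hdir) hwT hBl'
      have h2 : ((bot d (X ++ Z1 ++ (I ++ (Z2 ++ (Y ++ [β])))) : ℕ) : ℤ) ≤ 2 * h := by exact_mod_cast hb2
      have h3 : (bot d' (Q2 ++ (I ++ Q1)) : ℤ) ≤ 4 * h := by linarith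
      exact_mod_cast h3
    · -- the rich level
      show kap * (2 : ℝ) ^ (((l + 1 : ℕ) : ℝ) / 2) ≤ (nW d' (Q2 ++ (I ++ Q1)) (l + 1) r1 : ℝ)
      refine hkap.trans (hS.trans ?_)
      have hsub : S.card ≤ nW d' (Q2 ++ (I ++ Q1)) (l + 1) r1 := by
        classical
        unfold nW nC
        refine card_le_card fun z hz => ?_
        obtain ⟨c1, c2, c3, c4, c5⟩ := hS2 z hz
        rw [mem_filter, mem_WdS]
        have hlev : ip z.1 d' = ip z.2 d' := by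
          obtain ⟨A1, A2, A3, -, hA, -⟩ := c1
          exact hA.lev
        have hup1 : -ip z.1 d' ≤ TIW.hn z.1 := by
          have := TIW.neg_hn_le_ip z.1 hd'
          linarith
        have hr1' : (1 : ℤ) ≤ r1 := by exact_mod_cast hr1
        have hn0 := TIW.hn_nonneg (z.1 - z.2)
        refine ⟨⟨hlev, hDa.trans c2, ?_, c3.trans hDb, c4.trans hDb, ?_⟩, c1⟩
        · exact hup1.trans (c3.trans hDb)
        · calc (2 : ℤ) ^ (l + 1) ≤ D := hDa
            _ ≤ TIW.hn (z.1 - z.2) := c5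
            _ ≤ r1 * TIW.hn (z.1 - z.2) := by nlinarith
      exact_mod_cast hsub
    · intro l' hl' hll'
      exact rc_inv hd hd' hdir hwT hwt hBl hBl' hr1 (hRl l' hl' hll') hkap0 (hpoor l' hl')
  · rw [POL.pv_eq (by rw [hQe]; simp only [List.length_append]; omega)]
    have h1 := near_q0 hE hD0.le hP hQTP (i := Q1.length) (by rw [hQe, List.length_append]; omega)
    exact h1.trans hK

lemma Rad_le {H Mx : ℕ} (hr : r ≤ Mx) (hD : D ≤ 36 * (H * 2 ^ k)) :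
    Rad r D k ≤ (((2 * Mx + 2) * (36 * H) + 1024 : ℕ) : ℤ) * 2 ^ k := by
  have h1 : (r : ℤ) ≤ Mx := by exact_mod_cast hr
  have h2 : (0 : ℤ) < 2 ^ k := by positivity
  have h3 : (0 : ℤ) ≤ H := Int.natCast_nonneg _
  have h4 : (0 : ℤ) ≤ r := Int.natCast_nonneg _
  have h5 : (2 : ℤ) ^ (k + 10) = 1024 * 2 ^ k := by rw [pow_add]; ring
  have h6 : (r : ℤ) * D ≤ r * (36 * (H * 2 ^ k)) := mul_le_mul_of_nonneg_left hD h4
  have h7 : (r : ℤ) * (36 * (H * 2 ^ k)) ≤ Mx * (36 * (H * 2 ^ k)) := mul_le_mul_of_nonneg_right h1 (by positivity)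
  unfold Rad
  rw [h5]
  push_cast
  calc 2 * ((r : ℤ) * D) + 2 * D + 1024 * 2 ^ k ≤ 2 * (Mx * (36 * (H * 2 ^ k))) + 2 * (36 * (H * 2 ^ k)) + 1024 * 2 ^ k := by
        linarith
    _ = _ := by ring

/-- the numbers: the mass -/
lemma num_v {sx k j : ℕ} {c : ℝ} (hc : 0 < c) (hkj : k ≤ j) (hj : j ≤ k + sx) :
    ENNReal.ofReal (c / 2 ^ sx * (Ub j / 4 ^ j)) ≤ ENNReal.ofReal (c * (Ub k / 4 ^ k)) := by
  refine ENNReal.ofReal_le_ofReal ?_
  have h1 : Ub j ≤ 2 ^ (j - k) * Ub k := by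
    have := TPC.Ub_pow k (j - k)
    rw [show k + (j - k) = j by omega] at this
    exact this
  have hUk := U_pos k
  have hUj := U_pos j
  have h2 : (2 : ℝ) ^ (j - k) ≤ 2 ^ sx := pow_le_pow_right₀ (by norm_num) (by omega)
  have h3 : (4 : ℝ) ^ k ≤ 4 ^ j := pow_le_pow_right₀ (by norm_num) hkj
  have h4 : (0 : ℝ) < 4 ^ k := by positivity
  have h5 : Ub j / 4 ^ j ≤ 2 ^ sx * Ub k / 4 ^ k := by
    refine div_le_div₀ (by positivity) ?_ h4 h3
    exact h1.trans (mul_le_mul_of_nonneg_right h2 hUk.le)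
  calc c / 2 ^ sx * (Ub j / 4 ^ j) ≤ c / 2 ^ sx * (2 ^ sx * Ub k / 4 ^ k) := by gcongr
    _ = c * (Ub k / 4 ^ k) := by field_simp

/-- the numbers: the rich level -/
lemma num_k {k l : ℕ} {κ : ℝ} (hκ : 0 < κ) (hl : l ≤ k) :
    κ / 2 * (2 : ℝ) ^ (((l + 1 : ℕ) : ℝ) / 2) ≤ κ * Real.sqrt (2 ^ k) := by
  have h1 : (2 : ℝ) ^ (((l + 1 : ℕ) : ℝ) / 2) = Real.sqrt (2 ^ (l + 1)) := by
    rw [Real.sqrt_eq_rpow, ← Real.rpow_natCast 2 (l + 1), ← Real.rpow_mul (by norm_num)]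
    congr 1
    ring
  have h2 : Real.sqrt (2 ^ (l + 1)) ≤ 2 * Real.sqrt (2 ^ k) := by
    rw [show (2 : ℝ) * Real.sqrt (2 ^ k) = Real.sqrt (2 ^ 2 * 2 ^ k) by
      rw [Real.sqrt_mul (by positivity), Real.sqrt_sq (by norm_num)]]
    refine Real.sqrt_le_sqrt ?_
    rw [← pow_add]
    exact pow_le_pow_right₀ (by norm_num) (by omega)
  rw [h1]
  calc κ / 2 * Real.sqrt (2 ^ (l + 1)) ≤ κ / 2 * (2 * Real.sqrt (2 ^ k)) := by gcongr
    _ = _ := by ring

/-- the numbers: the length -/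
lemma num_n {l h b b0 s1 n : ℕ} (hb : b + s1 + 2 ≤ b0) (hh : 4 ^ (l + b0) ≤ h) (hn : h ≤ 2 * (n + 1)) :
    2 ^ b * ml (l + s1) ≤ n := by
  have h1 : ml (l + s1) ≤ 4 ^ (l + s1) := by
    unfold ml
    have h2 : (4 : ℝ) ^ (l + s1) = 2 ^ (2 * (l + s1 : ℕ) : ℝ) := by
      rw [Real.rpow_mul (by norm_num), Real.rpow_natCast]
      norm_num
    rw [h2]
    refine Real.rpow_le_rpow_of_exponent_le (by norm_num) ?_
    have : (0 : ℝ) ≤ ((l + s1 : ℕ) : ℝ) := Nat.cast_nonneg _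
    linarith
  have h3 : (4 : ℝ) ^ (l + b0) ≤ 2 * ((n : ℝ) + 1) := by
    have : 4 ^ (l + b0) ≤ 2 * (n + 1) := hh.trans hn
    exact_mod_cast this
  have h4 : (4 : ℝ) ^ (l + s1) * 4 ^ b * 16 ≤ 4 ^ (l + b0) := by
    rw [show (16 : ℝ) = 4 ^ 2 by norm_num, ← pow_add, ← pow_add]
    exact pow_le_pow_right₀ (by norm_num) (by omega)
  have h5 : (2 : ℝ) ^ b ≤ 4 ^ b := pow_le_pow_left₀ (by norm_num) (by norm_num) b
  have h6 : (1 : ℝ) ≤ 4 ^ (l + s1) * 4 ^ b := by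
    rw [← pow_add]
    exact one_le_pow₀ (by norm_num)
  calc 2 ^ b * ml (l + s1) ≤ 4 ^ b * 4 ^ (l + s1) := by
        have := m_pos (l + s1)
        gcongr
    _ ≤ n := by nlinarith

/-- **row (7)** -/
theorem outSt_of {N : ℕ} (hJoin : JoinTc) (hTop : TopTubeS N) (hImg : ImgS N) : OutSt := by
  classical
  intro η κ a m hη hκ
  obtain ⟨k, c0, hJoin⟩ := hJoin η κ a m N hη hκ
  refine ⟨k, c0, fun c u e hc hcu hmu hke => ?_⟩
  obtain ⟨H, hH, hTop⟩ := hTop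
  obtain ⟨Mx, sx, b1, hJoin⟩ := hJoin c u e hc hcu hke H hH
  obtain ⟨cT, κT, k0, hcT, hκT, hTop⟩ := hTop H le_rfl Mx
  obtain ⟨K, hKd⟩ : ∃ K, K = (2 * Mx + 2) * (36 * H) + 1024 := ⟨_, rfl⟩
  obtain ⟨C, b2, hC, hcl⟩ := claim2 η m hη K H Mx sx hH
  obtain ⟨r1, hr1⟩ : ∃ r1, r1 = (2 * N + 8) * (36 * H) * 2 ^ sx := ⟨_, rfl⟩
  obtain ⟨CR, hCR⟩ : ∃ CR, CR = (6 * 2 ^ m + 4 * K + 4) * 2 ^ sx := ⟨_, rfl⟩
  obtain ⟨c4, hc4⟩ : ∃ c4, c4 = 4 * CR := ⟨_, rfl⟩
  have hH1 : 1 ≤ H := le_trans (by norm_num) hH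
  have hr1p : 1 ≤ r1 := by
    rw [hr1]
    have : 0 < (2 * N + 8) * (36 * H) * 2 ^ sx := by positivity
    omega
  have h4CR : 4 * CR ≤ 2 ^ c4 := by
    rw [← hc4]
    exact Nat.lt_two_pow_self.le
  refine ⟨C / (κ ^ 2 * (cT / 2 ^ sx)), κT / 2, r1, 4 * r1, c4, sx, max b1 (max b2 k0) + sx + c4 + 2, by positivity, by positivity,
    fun l h B hl hh hB d hd EE hEE => ?_⟩
  obtain ⟨j, hj⟩ : ∃ j, j = l + sx := ⟨_, rfl⟩
  have hb1 : b1 ≤ max b1 (max b2 k0) := le_max_left _ _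
  have hb2 : b2 ≤ max b1 (max b2 k0) := (le_max_left _ _).trans (le_max_right _ _)
  have hk0 : k0 ≤ max b1 (max b2 k0) := (le_max_right _ _).trans (le_max_right _ _)
  obtain ⟨b3, hb3⟩ : ∃ b3, b3 = max b1 (max b2 k0) := ⟨_, rfl⟩
  rw [← hb3] at hb1 hb2 hk0 hl hh
  obtain ⟨DD, hDD, hJoin⟩ := hJoin j (by omega)
  obtain ⟨A, hA⟩ : ∃ A : Set (List Bool), A = ⋃ d' ∈ dirs, UU d' h ∩ OutL B (fun i => Rc d' r1 (κT / 2) (i + 1)) l := ⟨_, rfl⟩
  -- the numbers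
  have hCRp : 0 < CR := by
    rw [hCR]
    positivity
  have hRh : 4 * (CR * 2 ^ l) ≤ h := by
    calc 4 * (CR * 2 ^ l) = 4 * CR * 2 ^ l := by ring
      _ ≤ 2 ^ c4 * 2 ^ l := Nat.mul_le_mul_right _ h4CR
      _ ≤ 4 ^ c4 * 4 ^ l := Nat.mul_le_mul (Nat.pow_le_pow_left (by norm_num) _) (Nat.pow_le_pow_left (by norm_num) _)
      _ = 4 ^ (c4 + l) := by rw [pow_add]
      _ ≤ 4 ^ (l + (b3 + sx + c4 + 2)) := Nat.pow_le_pow_right (by norm_num) (by omega)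
      _ ≤ h := hh
  have hRl : ∀ l' ∈ B, l < l' → 2 * (CR * 2 ^ l) ≤ 2 ^ l' := by
    intro l' hl' hll'
    have h1 := hB l' hl' hll'
    calc 2 * (CR * 2 ^ l) ≤ 4 * CR * 2 ^ l := by
          have : 0 ≤ CR * 2 ^ l := Nat.zero_le _
          nlinarith
      _ ≤ 2 ^ c4 * 2 ^ l := Nat.mul_le_mul_right _ h4CR
      _ = 2 ^ (l + c4) := by rw [← pow_add, add_comm]
      _ ≤ 2 ^ l' := Nat.pow_le_pow_right (by norm_num) h1
  have hEEc : EE ⊆ CTg j η κ a m u := by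
    intro L hL
    obtain ⟨h1, β, hβ⟩ := hEE L hL
    rw [← hj] at h1
    have h2 := c0T_of hd hβ.1
    have h3 : L.length ≠ 0 := by
      intro h4
      have h5 := bot_len hd (L ++ [β])
      rw [List.length_append, h4] at h5
      have h6 := hβ.2.1
      simp only [List.length_singleton] at h5
      have h7 : 4 ^ (l + (b3 + sx + c4 + 2)) ≤ h := hh
      have h8 : 4 ^ 2 ≤ 4 ^ (l + (b3 + sx + c4 + 2)) := Nat.pow_le_pow_right (by norm_num) (by omega)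
      omega
    exact ctg_ofT (by omega) h2 h1
  have hfin := hcl j κ a u (by omega) hκ hmu EE hEEc DD hDD A (cT / 2 ^ sx) (by positivity) (fun M hM => ?_)
  · refine hfin.trans (mul_le_mul' le_rfl ?_)
    rw [hA]
    unfold gf
    exact ENNReal.tsum_biUnion_le wE _ _
  · obtain ⟨-, X, Y, hXY, hcut⟩ := hM
    obtain ⟨h1, β, hβ⟩ := hEE _ hXY
    rw [← hj] at h1
    have hlen : 2 ^ b1 * ml j ≤ (X ++ (M ++ Y)).length := by
      rw [hj]
      refine num_n (b0 := b3 + sx + c4 + 2) (by omega) hh ?_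
      have h5 := bot_len hd (X ++ (M ++ Y) ++ [β])
      have h6 := hβ.2.1
      rw [List.length_append, List.length_singleton] at h5
      omega
    have htop : ∀ s, s ≤ (X ++ (M ++ Y)).length → ip (vx oo up (X ++ (M ++ Y)) s) d ≤ 2 ^ j := by
      intro s hs
      have h5 := hβ.1.2.1 s (by rw [List.length_append]; omega)
      rw [vx_append (by omega)] at h5
      have h6 : (0 : ℤ) < 2 ^ j := by positivity
      rcases h5 with h5 | h5
      · linarith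
      · rw [h5.1]
        exact h6.le
    obtain ⟨k', r, i0, D, E, hDm, g1, g2, g3, g4, g5, g6, g7, g8, g9, g10, g11⟩ := hJoin (X ++ (M ++ Y)).length hlen X M Y
      (GFcT_sub h1) hcut d hd htop
    have hlk : l ≤ k' := by omega
    have hup : cutE E r (r - 1) = up := by
      rw [cutE_lt (by omega)]
      exact g8
    have hup2 : cutE E r (r - 2) = up := by
      rw [cutE_lt (by omega)]
      exact g9
    have hJn := Jn_cut (by omega : 3 ≤ r) g10
    have hcol := Col_cut g11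
    have hIP := IPg_cut g7
    have hRad := Rad_le (r := r) (D := D) (k := k') (H := H) (Mx := Mx) g6 g4
    rw [← hKd] at hRad
    refine ⟨k', r, D, cutE E r, hDm, ⟨g1, g2, g3, g4, by omega, g6, hIP, hup⟩, cutE_mem g6 g7, hJn, ?_⟩
    intro s hs Z1 I Z2 hMe hCf hWc
    have hv := hTop k' r i0 D (cutE E r) (mulE (conjE (TIW.rt X)) d) (s + TIW.en Z1) I (by omega) g3 g4 g5 g6 hIP hup hup2
      (TIW.mulE_mem (by rw [nrm_conjE, TIW.nrm_rt]) hd) hcol.toE hWc.1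
    refine (num_v hcT g1 g2).trans (hv.trans (gf_mono ?_))
    have hp2k : (0 : ℤ) < 2 ^ k' := by positivity
    have hkj : (2 : ℤ) ^ k' ≤ 2 ^ j := pow_le_pow_right₀ (by norm_num) g1
    have hjl : (2 : ℤ) ^ j = 2 ^ sx * 2 ^ l := by
      rw [hj, pow_add]
      ring
    have hHz : (2 : ℤ) ^ 13 ≤ (H : ℤ) := by exact_mod_cast hH
    have hlk2 : (2 : ℤ) ^ l ≤ 2 ^ k' := pow_le_pow_right₀ (by norm_num) hlk
    have hl0 : (0 : ℤ) < 2 ^ l := by positivity
    rw [hA]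
    refine qr_im (j := j) (m := m) (R := (CR * 2 ^ l : ℕ)) hImg hH hκT hd g3 g4 g5 hIP hup hup2 hcol rfl hJn hs hMe hCf hWc
      hcut.2.2.1 hcut.1.2.1 hβ hRad ?_ ?_ ?_ ?_ ?_ hr1p (by positivity) (num_k hκT hlk)
    · -- the radius
      have e1 : (6 * (2 : ℤ) ^ (j + m) + 4 * ((K : ℤ) * 2 ^ k') + 4) ≤ 6 * 2 ^ (j + m) + 4 * (K * 2 ^ j) + 4 * 2 ^ j := by
        have h6 : (K : ℤ) * 2 ^ k' ≤ K * 2 ^ j := mul_le_mul_of_nonneg_left hkj (Int.natCast_nonneg _)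
        have h7 : (1 : ℤ) ≤ 2 ^ j := one_le_pow₀ (by norm_num)
        linarith
      have e2 : 6 * (2 : ℤ) ^ (j + m) + 4 * (K * 2 ^ j) + 4 * 2 ^ j = ((CR * 2 ^ l : ℕ) : ℤ) := by
        rw [hCR, pow_add, hjl]
        push_cast
        ring
      linarith
    · intro l' hl' hll'
      have := hRl l' hl' hll'
      exact_mod_cast this
    · exact_mod_cast hRh
    · rw [pow_succ]
      nlinarith
    · have e1 : D ≤ 36 * (H * 2 ^ j) := by
        refine g4.trans ?_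
        have h6 : (H : ℤ) * 2 ^ k' ≤ H * 2 ^ j := mul_le_mul_of_nonneg_left hkj (Int.natCast_nonneg _)
        linarith
      have h7 : (0 : ℤ) ≤ 2 * (N : ℤ) + 8 := by positivity
      calc (2 * (N : ℤ) + 8) * D ≤ (2 * (N : ℤ) + 8) * (36 * (H * 2 ^ j)) := mul_le_mul_of_nonneg_left e1 h7
        _ = (r1 : ℤ) * 2 ^ l := by
            rw [hr1, hjl]
            push_cast
            ring
        _ ≤ r1 * 2 ^ (l + 1) := by
            refine mul_le_mul_of_nonneg_left ?_ (Int.natCast_nonneg _)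
            exact pow_le_pow_right₀ (by norm_num) (by omega)

end OG

end ART

end HexObs
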