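import Pool.Agent.ARM.Corr

/-!
# ART, row G1 (J1, helper39): the doubling lemma

A walk of cells of the square lattice, S = the visited cells. The 2 x 2 refinement of S has a Hamiltonian list which starts and
ends at the two subcells of a given free side (u, δ0); for every other free side the two subcells are consecutive in the list.
`two_strands`: hence two disjoint strands of subcells from two free sides to the side (u, δ0).
-/

set_option autoImplicit false

namespace HexObs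

namespace ART

namespace Lane

open ARM (adj)

/-- the four directions -/
def D4 : Finset (ℤ × ℤ) := {(1, 0), (-1, 0), (0, 1), (0, -1)}

lemma mem_D4 {δ : ℤ × ℤ} : δ ∈ D4 ↔ δ = (1, 0) ∨ δ = (-1, 0) ∨ δ = (0, 1) ∨ δ = (0, -1) := by
  simp [D4]

lemma adj_sub {f g : ℤ × ℤ} : adj f g ↔ g - f ∈ D4 := by
  rw [mem_D4]
  unfold adj
  obtain ⟨f1, f2⟩ := f
  obtain ⟨g1, g2⟩ := g
  simp only [Prod.mk_add_mk, Prod.mk_sub_mk, Prod.mk.injEq]
  omega

lemma adj_comm {f g : ℤ × ℤ} (h : adj f g) : adj g f := by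
  unfold adj at *
  obtain ⟨f1, f2⟩ := f
  obtain ⟨g1, g2⟩ := g
  simp only [Prod.mk_add_mk, Prod.mk_sub_mk, Prod.mk.injEq] at *
  omega

/-! ### consecutive elements -/

/-- x and y are consecutive in l -/
def Con (l : List (ℤ × ℤ)) (x y : ℤ × ℤ) : Prop := ∃ s t, l = s ++ x :: y :: t

lemma con_cons {l : List (ℤ × ℤ)} {a x y : ℤ × ℤ} : Con (a :: l) x y ↔ (a = x ∧ ∃ t, l = y :: t) ∨ Con l x y := by
  constructor
  · rintro ⟨s, t, h⟩
    cases s with
    | nil =>
      rw [List.nil_append, List.cons.injEq] at h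
      exact Or.inl ⟨h.1, t, h.2⟩
    | cons b s =>
      rw [List.cons_append, List.cons.injEq] at h
      exact Or.inr ⟨s, t, h.2⟩
  · rintro (⟨rfl, t, rfl⟩ | ⟨s, t, rfl⟩)
    · exact ⟨[], t, rfl⟩
    · exact ⟨a :: s, t, rfl⟩

lemma not_con_nil {x y : ℤ × ℤ} : ¬ Con [] x y := by
  rintro ⟨s, t, h⟩
  cases s <;> simp at h

lemma Con.app {l : List (ℤ × ℤ)} {x y : ℤ × ℤ} (h : Con l x y) (m : List (ℤ × ℤ)) : Con (m ++ l) x y := by
  obtain ⟨s, t, rfl⟩ := h
  exact ⟨m ++ s, t, by rw [List.append_assoc]⟩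

lemma Con.appr {l : List (ℤ × ℤ)} {x y : ℤ × ℤ} (h : Con l x y) (m : List (ℤ × ℤ)) : Con (l ++ m) x y := by
  obtain ⟨s, t, rfl⟩ := h
  exact ⟨s, t ++ m, by simp⟩

lemma con_ins {l1 l2 : List (ℤ × ℤ)} {p q x y : ℤ × ℤ} (i : List (ℤ × ℤ)) (h : Con (l1 ++ p :: q :: l2) x y) :
    (x = p ∧ y = q) ∨ Con (l1 ++ p :: (i ++ q :: l2)) x y := by
  induction l1 with
  | nil =>
    rw [List.nil_append, con_cons] at h
    rcases h with ⟨rfl, t, h⟩ | h
    · rw [List.cons.injEq] at h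
      exact Or.inl ⟨rfl, h.1.symm⟩
    · exact Or.inr (h.app (p :: i))
  | cons a l1 ih =>
    rw [List.cons_append, con_cons] at h
    rcases h with ⟨rfl, t, h⟩ | h
    · right
      cases l1 with
      | nil =>
        rw [List.nil_append, List.cons.injEq] at h
        rw [← h.1]
        exact ⟨[], _, rfl⟩
      | cons b l1 =>
        rw [List.cons_append, List.cons.injEq] at h
        rw [← h.1]
        exact ⟨[], _, rfl⟩
    · rcases ih h with h | h
      · exact Or.inl h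
      · exact Or.inr (con_cons.2 (Or.inr h))

lemma con_split {s t : List (ℤ × ℤ)} {x y z w : ℤ × ℤ} (h : Con (s ++ x :: y :: t) z w) (h1 : z ≠ x) (h2 : z ≠ y) (h3 : w ≠ x) :
    Con s z w ∨ Con t z w := by
  induction s with
  | nil =>
    rw [List.nil_append, con_cons] at h
    rcases h with ⟨h, -⟩ | h
    · exact absurd h.symm h1
    · rw [con_cons] at h
      rcases h with ⟨h, -⟩ | h
      · exact absurd h.symm h2
      · exact Or.inr h
  | cons c s ih =>
    rw [List.cons_append, con_cons] at h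
    rcases h with ⟨rfl, t', h⟩ | h
    · cases s with
      | nil =>
        rw [List.nil_append, List.cons.injEq] at h
        exact absurd h.1.symm h3
      | cons b s =>
        rw [List.cons_append, List.cons.injEq] at h
        rw [← h.1]
        exact Or.inl ⟨[], s, rfl⟩
    · rcases ih h with h | h
      · exact Or.inl (con_cons.2 (Or.inr h))
      · exact Or.inr h

/-! ### sides and subcells -/

/-- offset of the first subcell of a side -/
def lo (a : ℤ) : ℤ := if a = 1 then 1 else 0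

/-- offset of the second subcell of a side -/
def hi (a : ℤ) : ℤ := if a = -1 then 0 else 1

/-- first subcell of the side δ of the cell v -/
def sa (v δ : ℤ × ℤ) : ℤ × ℤ := (2 * v.1 + lo δ.1, 2 * v.2 + lo δ.2)

/-- second subcell of the side δ of the cell v -/
def sb (v δ : ℤ × ℤ) : ℤ × ℤ := (2 * v.1 + hi δ.1, 2 * v.2 + hi δ.2)

/-- the cell of a subcell -/
def bl (c : ℤ × ℤ) : ℤ × ℤ := (c.1 / 2, c.2 / 2)

lemma bl_sa {v δ : ℤ × ℤ} : bl (sa v δ) = v := by
  unfold bl sa lo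
  obtain ⟨v1, v2⟩ := v
  simp only [Prod.mk.injEq]
  constructor <;> split_ifs <;> omega

lemma bl_sb {v δ : ℤ × ℤ} : bl (sb v δ) = v := by
  unfold bl sb hi
  obtain ⟨v1, v2⟩ := v
  simp only [Prod.mk.injEq]
  constructor <;> split_ifs <;> omega

lemma sa_ne_sb {v δ : ℤ × ℤ} (hδ : δ ∈ D4) : sa v δ ≠ sb v δ := by
  obtain ⟨v1, v2⟩ := v
  rw [mem_D4] at hδ
  rcases hδ with rfl | rfl | rfl | rfl <;>
    · unfold sa sb lo hi
      intro h
      rw [Prod.mk.injEq] at h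
      norm_num at h

/-- the state -/
structure Ham (S : Finset (ℤ × ℤ)) (u δ0 : ℤ × ℤ) (l : List (ℤ × ℤ)) : Prop where
  nd : l.Nodup
  ch : l.IsChain adj
  mem : ∀ c, c ∈ l ↔ bl c ∈ S
  hd : l.head? = some (sa u δ0)
  tl : l.getLast? = some (sb u δ0)
  side : ∀ v ∈ S, ∀ δ ∈ D4, v + δ ∉ S → (v ≠ u ∨ δ ≠ δ0) → Con l (sa v δ) (sb v δ) ∨ Con l (sb v δ) (sa v δ)

/-- one cell -/
lemma ham_one (u : ℤ × ℤ) {δ0 : ℤ × ℤ} (hδ : δ0 ∈ D4) :
    Ham {u} u δ0 [sa u δ0, sa u δ0 - δ0, sb u δ0 - δ0, sb u δ0] := by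
  obtain ⟨u1, u2⟩ := u
  rw [mem_D4] at hδ
  refine ⟨?_, ?_, ?_, rfl, rfl, ?_⟩
  · rcases hδ with rfl | rfl | rfl | rfl <;> simp [sa, sb, lo, hi]
  · rcases hδ with rfl | rfl | rfl | rfl <;> simp [sa, sb, lo, hi, adj]
  · rintro ⟨c1, c2⟩
    rcases hδ with rfl | rfl | rfl | rfl <;>
      · simp only [sa, sb, lo, hi, bl, Finset.mem_singleton, List.mem_cons, List.not_mem_nil, or_false, Prod.mk.injEq,
          Prod.mk_sub_mk]
        norm_num
        omega
  · rintro ⟨v1, v2⟩ hv δ hd - hne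
    rw [Finset.mem_singleton, Prod.mk.injEq] at hv
    obtain ⟨rfl, rfl⟩ := hv
    rw [mem_D4] at hd
    have hne' : δ ≠ δ0 := by
      rcases hne with h | h
      · exact absurd rfl h
      · exact h
    rcases hδ with rfl | rfl | rfl | rfl <;> rcases hd with rfl | rfl | rfl | rfl <;>
      first
        | exact absurd rfl hne'
        | (simp only [con_cons, sa, sb, lo, hi, Prod.mk.injEq, Prod.mk_sub_mk]
           norm_num
           try simp [not_con_nil])

/-- the new block -/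
lemma block {v δ p q : ℤ × ℤ} (hδ : δ ∈ D4) (hpq : (p = sa v δ ∧ q = sb v δ) ∨ (p = sb v δ ∧ q = sa v δ)) :
    (∀ c, c ∈ [p + δ, p + (δ + δ), q + (δ + δ), q + δ] ↔ bl c = v + δ) ∧
    [p + δ, p + (δ + δ), q + (δ + δ), q + δ].Nodup ∧
    (p :: ([p + δ, p + (δ + δ), q + (δ + δ), q + δ] ++ [q])).IsChain adj := by
  obtain ⟨v1, v2⟩ := v
  rw [mem_D4] at hδ
  rcases hpq with ⟨rfl, rfl⟩ | ⟨rfl, rfl⟩ <;> rcases hδ with rfl | rfl | rfl | rfl <;>
    (refine ⟨?_, ?_, ?_⟩
     · rintro ⟨c1, c2⟩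
       simp only [sa, sb, lo, hi, bl, List.mem_cons, List.not_mem_nil, or_false, Prod.mk.injEq, Prod.mk_add_mk]
       norm_num
       omega
     · simp only [sa, sb, lo, hi, List.nodup_cons, List.mem_cons, List.not_mem_nil, or_false, Prod.mk.injEq, Prod.mk_add_mk]
       norm_num
     · simp only [sa, sb, lo, hi, adj, List.cons_append, List.nil_append, List.isChain_cons_cons, Prod.mk.injEq,
         Prod.mk_add_mk, Prod.mk_sub_mk]
       norm_num
       all_goals omega)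

/-- the sides of the new block -/
lemma block_side {v δ p q δ' : ℤ × ℤ} (hδ : δ ∈ D4) (hpq : (p = sa v δ ∧ q = sb v δ) ∨ (p = sb v δ ∧ q = sa v δ))
    (hδ' : δ' ∈ D4) (hne : δ' ≠ -δ) :
    Con [p + δ, p + (δ + δ), q + (δ + δ), q + δ] (sa (v + δ) δ') (sb (v + δ) δ') ∨
    Con [p + δ, p + (δ + δ), q + (δ + δ), q + δ] (sb (v + δ) δ') (sa (v + δ) δ') := by
  obtain ⟨v1, v2⟩ := v
  rw [mem_D4] at hδ hδ'
  rcases hδ with rfl | rfl | rfl | rfl <;> rcases hδ' with rfl | rfl | rfl | rfl <;>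
    first
      | exact absurd (by decide) hne
      | (rcases hpq with ⟨rfl, rfl⟩ | ⟨rfl, rfl⟩ <;>
         (simp only [con_cons, sa, sb, lo, hi, Prod.mk.injEq, Prod.mk_add_mk, List.cons.injEq]
          norm_num
          simp only [not_con_nil, or_false]
          try omega))

/-- different sides have different pairs -/
lemma pair_ne {v δ v' δ' : ℤ × ℤ} (hδ : δ ∈ D4) (hδ' : δ' ∈ D4) (hne : v ≠ v' ∨ δ ≠ δ') :
    ¬ (sa v' δ' = sa v δ ∧ sb v' δ' = sb v δ) ∧ ¬ (sa v' δ' = sb v δ ∧ sb v' δ' = sa v δ) := by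
  obtain ⟨v1, v2⟩ := v
  obtain ⟨w1, w2⟩ := v'
  rw [mem_D4] at hδ hδ'
  simp only [ne_eq, Prod.mk.injEq] at hne
  rcases hδ with rfl | rfl | rfl | rfl <;> rcases hδ' with rfl | rfl | rfl | rfl <;>
    (simp only [sa, sb, lo, hi, Prod.mk.injEq]
     norm_num at hne ⊢
     constructor <;> intros <;> omega)

lemma ham_aux {S : Finset (ℤ × ℤ)} {u δ0 v δ p q : ℤ × ℤ} {s t : List (ℤ × ℤ)} (h : Ham S u δ0 (s ++ p :: q :: t)) (hv : v ∈ S)
    (hδ : δ ∈ D4) (hn : v + δ ∉ S) (hpq : (p = sa v δ ∧ q = sb v δ) ∨ (p = sb v δ ∧ q = sa v δ)) :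
    Ham (insert (v + δ) S) u δ0 (s ++ p :: ([p + δ, p + (δ + δ), q + (δ + δ), q + δ] ++ q :: t)) := by
  obtain ⟨b1, b2, b3⟩ := block (v := v) hδ hpq
  have hside := fun δ' : ℤ × ℤ => block_side (v := v) (δ' := δ') hδ hpq
  generalize [p + δ, p + (δ + δ), q + (δ + δ), q + δ] = i at b1 b2 b3 hside ⊢
  have hperm : (s ++ p :: (i ++ q :: t)).Perm (i ++ (s ++ p :: q :: t)) := by
    have e1 : s ++ p :: (i ++ q :: t) = (s ++ [p]) ++ (i ++ q :: t) := by simp
    have e2 : s ++ p :: q :: t = (s ++ [p]) ++ q :: t := by simp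
    rw [e1, e2]
    exact List.perm_append_comm_assoc _ _ _
  have hmem : ∀ c, c ∈ s ++ p :: (i ++ q :: t) ↔ bl c = v + δ ∨ bl c ∈ S := by
    intro c
    rw [hperm.mem_iff, List.mem_append, b1, h.mem]
  refine ⟨?_, ?_, ?_, ?_, ?_, ?_⟩
  · rw [hperm.nodup_iff, List.nodup_append']
    refine ⟨b2, h.nd, ?_⟩
    intro c hc1 hc2
    rw [b1] at hc1
    rw [h.mem, hc1] at hc2
    exact hn hc2
  · have h1 := h.ch
    rw [List.isChain_append_cons_cons] at h1
    rw [List.isChain_split]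
    refine ⟨h1.1, ?_⟩
    have e : p :: (i ++ q :: t) = (p :: i) ++ q :: t := rfl
    rw [e, List.isChain_split]
    exact ⟨by simpa using b3, h1.2.2⟩
  · intro c
    rw [hmem, Finset.mem_insert]
  · have h1 := h.hd
    cases s with
    | nil => simpa using h1
    | cons a s => simpa using h1
  · have h1 := h.tl
    have e1 : s ++ p :: (i ++ q :: t) = (s ++ p :: i) ++ q :: t := by simp
    have e2 : s ++ p :: q :: t = (s ++ [p]) ++ q :: t := by simp
    rw [e2, List.getLast?_append_cons] at h1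
    rw [e1, List.getLast?_append_cons]
    exact h1
  · intro v' hv' δ' hδ' hn' hne'
    rw [Finset.mem_insert] at hv' hn'
    rw [not_or] at hn'
    rcases eq_or_ne v' (v + δ) with rfl | hvv
    · have h1 : δ' ≠ -δ := by
        rintro rfl
        exact hn'.2 (by simpa using hv)
      rcases hside δ' hδ' h1 with h2 | h2
      · left
        have := (h2.appr (q :: t)).app (s ++ [p])
        simpa using this
      · right
        have := (h2.appr (q :: t)).app (s ++ [p])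
        simpa using this
    · have hv2 : v' ∈ S := hv'.resolve_left hvv
      have hne2 : v ≠ v' ∨ δ ≠ δ' := by
        by_contra hcon
        push Not at hcon
        obtain ⟨rfl, rfl⟩ := hcon
        exact hn'.1 rfl
      obtain ⟨p1, p2⟩ := pair_ne hδ hδ' hne2
      rcases h.side v' hv2 δ' hδ' hn'.2 hne' with h2 | h2
      · rcases con_ins i h2 with ⟨h3, h4⟩ | h3
        · exfalso
          rcases hpq with ⟨rfl, rfl⟩ | ⟨rfl, rfl⟩
          · exact p1 ⟨h3, h4⟩
          · exact p2 ⟨h3, h4⟩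
        · exact Or.inl h3
      · rcases con_ins i h2 with ⟨h3, h4⟩ | h3
        · exfalso
          rcases hpq with ⟨rfl, rfl⟩ | ⟨rfl, rfl⟩
          · exact p2 ⟨h4, h3⟩
          · exact p1 ⟨h4, h3⟩
        · exact Or.inr h3

lemma ham_step {S : Finset (ℤ × ℤ)} {u δ0 v δ : ℤ × ℤ} {l : List (ℤ × ℤ)} (h : Ham S u δ0 l) (hv : v ∈ S)
    (hδ : δ ∈ D4) (hn : v + δ ∉ S) (hne : v ≠ u ∨ δ ≠ δ0) : ∃ l', Ham (insert (v + δ) S) u δ0 l' := by
  rcases h.side v hv δ hδ hn hne with ⟨s, t, rfl⟩ | ⟨s, t, rfl⟩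
  · exact ⟨_, ham_aux h hv hδ hn (Or.inl ⟨rfl, rfl⟩)⟩
  · exact ⟨_, ham_aux h hv hδ hn (Or.inr ⟨rfl, rfl⟩)⟩

/-- **the doubling lemma**: the visited cells of a walk -/
theorem ham_walk {u δ0 : ℤ × ℤ} (hδ : δ0 ∈ D4) {w : ℕ → ℤ × ℤ} (h0 : w 0 = u) {n : ℕ} (hw : ∀ i, i < n → adj (w i) (w (i + 1)))
    (hu : ∀ i, i ≤ n → w i ≠ u + δ0) : ∃ l, Ham ((Finset.range (n + 1)).image w) u δ0 l := by
  classical
  induction n with
  | zero =>
    have e : (Finset.range (0 + 1)).image w = {u} := by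
      rw [zero_add, Finset.range_one, Finset.image_singleton, h0]
    rw [e]
    exact ⟨_, ham_one u hδ⟩
  | succ n ih =>
    obtain ⟨l, hl⟩ := ih (fun i hi => hw i (by omega)) (fun i hi => hu i (by omega))
    have e : (Finset.range (n + 1 + 1)).image w = insert (w (n + 1)) ((Finset.range (n + 1)).image w) := by
      rw [Finset.range_add_one, Finset.image_insert]
    rw [e]
    by_cases hin : w (n + 1) ∈ (Finset.range (n + 1)).image w
    · rw [Finset.insert_eq_of_mem hin]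
      exact ⟨l, hl⟩
    · have h1 := adj_sub.1 (hw n (by omega))
      have h2 : w n + (w (n + 1) - w n) = w (n + 1) := by abel
      have h3 : w n ∈ (Finset.range (n + 1)).image w := Finset.mem_image_of_mem w (Finset.mem_range.2 (by omega))
      obtain ⟨l', hl'⟩ := ham_step hl h3 h1 (by rw [h2]; exact hin) (by
        by_contra hcon
        push Not at hcon
        rw [hcon.2] at h2
        rw [hcon.1] at h2
        exact hu (n + 1) le_rfl h2.symm)
      rw [h2] at hl'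
      exact ⟨l', hl'⟩

/-- two strands from the sides (a, δa), (b, δb) to the side (u, δ0) -/
structure Two (S : Finset (ℤ × ℤ)) (u δ0 a δa b δb : ℤ × ℤ) (A B : List (ℤ × ℤ)) : Prop where
  chA : A.IsChain adj
  chB : B.IsChain adj
  dis : ∀ x ∈ A, x ∉ B
  inA : ∀ x ∈ A, bl x ∈ S
  inB : ∀ x ∈ B, bl x ∈ S
  hdA : A.head? = some (sa a δa) ∨ A.head? = some (sb a δa)
  hdB : B.head? = some (sa b δb) ∨ B.head? = some (sb b δb)
  tl : (A.getLast? = some (sa u δ0) ∧ B.getLast? = some (sb u δ0)) ∨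
    (A.getLast? = some (sb u δ0) ∧ B.getLast? = some (sa u δ0))
  exA : ∀ x ∈ A, x ≠ sa b δb ∧ x ≠ sb b δb
  exB : ∀ x ∈ B, x ≠ sa a δa ∧ x ≠ sb a δa

lemma two_aux {S : Finset (ℤ × ℤ)} {u δ0 a δa b δb x y z w : ℤ × ℤ} {s t r : List (ℤ × ℤ)}
    (h : Ham S u δ0 (s ++ x :: y :: (t ++ z :: w :: r)))
    (hxy : (x = sa a δa ∧ y = sb a δa) ∨ (x = sb a δa ∧ y = sa a δa))
    (hzw : (z = sa b δb ∧ w = sb b δb) ∨ (z = sb b δb ∧ w = sa b δb)) :
    Two S u δ0 a δa b δb (s ++ [x]).reverse (w :: r) ∧ Two S u δ0 b δb a δa (w :: r) (s ++ [x]).reverse := by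
  have hch := h.ch
  have hnd := h.nd
  rw [List.isChain_append_cons_cons] at hch
  have hch2 := hch.2.2
  have e : y :: (t ++ z :: w :: r) = (y :: t) ++ z :: w :: r := rfl
  rw [e, List.isChain_append_cons_cons] at hch2
  have hA : (s ++ [x]).reverse.IsChain adj := by
    rw [List.isChain_reverse]
    exact hch.1.imp fun _ _ h => adj_comm h
  have hB : (w :: r).IsChain adj := hch2.2.2
  have hmA : ∀ c ∈ (s ++ [x]).reverse, c ∈ s ++ x :: y :: (t ++ z :: w :: r) := by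
    intro c hc
    simp only [List.mem_reverse, List.mem_append, List.mem_singleton] at hc
    simp only [List.mem_append, List.mem_cons]
    tauto
  have hmB : ∀ c ∈ w :: r, c ∈ s ++ x :: y :: (t ++ z :: w :: r) := by
    intro c hc
    simp only [List.mem_cons] at hc
    simp only [List.mem_append, List.mem_cons]
    tauto
  have hnd2 : (s ++ [x]).Nodup ∧ ([y] ++ (t ++ [z])).Nodup ∧ (w :: r).Nodup ∧ (∀ c ∈ s ++ [x], c ∉ [y] ++ (t ++ [z])) ∧
      (∀ c ∈ s ++ [x], c ∉ w :: r) ∧ (∀ c ∈ [y] ++ (t ++ [z]), c ∉ w :: r) := by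
    have e2 : s ++ x :: y :: (t ++ z :: w :: r) = (s ++ [x]) ++ (([y] ++ (t ++ [z])) ++ (w :: r)) := by simp
    rw [e2] at hnd
    obtain ⟨n1, n0, n5⟩ := List.nodup_append'.1 hnd
    obtain ⟨n2, n3, n4⟩ := List.nodup_append'.1 n0
    refine ⟨n1, n2, n3, ?_, ?_, fun c hc hc' => n4 hc hc'⟩
    · intro c hc hc'
      exact n5 hc (List.mem_append_left _ hc')
    · intro c hc hc'
      exact n5 hc (List.mem_append_right _ hc')
  obtain ⟨-, -, -, d1, d2, d3⟩ := hnd2
  have hdis : ∀ c ∈ (s ++ [x]).reverse, c ∉ w :: r := fun c hc => d2 c (List.mem_reverse.1 hc)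
  have hinA : ∀ c ∈ (s ++ [x]).reverse, bl c ∈ S := fun c hc => (h.mem c).1 (hmA c hc)
  have hinB : ∀ c ∈ w :: r, bl c ∈ S := fun c hc => (h.mem c).1 (hmB c hc)
  have hhA : (s ++ [x]).reverse.head? = some x := by simp
  have hhB : (w :: r).head? = some w := rfl
  have htA : (s ++ [x]).reverse.getLast? = some (sa u δ0) := by
    have h1 := h.hd
    rw [List.getLast?_reverse]
    cases s with
    | nil => simpa using h1
    | cons c s => simpa using h1
  have htB : (w :: r).getLast? = some (sb u δ0) := by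
    have h1 := h.tl
    have e3 : s ++ x :: y :: (t ++ z :: w :: r) = (s ++ x :: y :: (t ++ [z])) ++ w :: r := by simp
    rw [e3, List.getLast?_append_cons] at h1
    exact h1
  have hAz : ∀ c ∈ (s ++ [x]).reverse, c ≠ z ∧ c ≠ w := by
    intro c hc
    constructor
    · rintro rfl
      exact d1 c (List.mem_reverse.1 hc) (by simp)
    · rintro rfl
      exact d2 c (List.mem_reverse.1 hc) (by simp)
  have hBx : ∀ c ∈ w :: r, c ≠ x ∧ c ≠ y := by
    intro c hc
    constructor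
    · rintro rfl
      exact d2 c (by simp) hc
    · rintro rfl
      exact d3 c (by simp) hc
  have hexA : ∀ c ∈ (s ++ [x]).reverse, c ≠ sa b δb ∧ c ≠ sb b δb := by
    intro c hc
    have h1 := hAz c hc
    rcases hzw with ⟨rfl, rfl⟩ | ⟨rfl, rfl⟩
    · exact h1
    · exact ⟨h1.2, h1.1⟩
  have hexB : ∀ c ∈ w :: r, c ≠ sa a δa ∧ c ≠ sb a δa := by
    intro c hc
    have h1 := hBx c hc
    rcases hxy with ⟨rfl, rfl⟩ | ⟨rfl, rfl⟩
    · exact h1
    · exact ⟨h1.2, h1.1⟩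
  have hh1 : (s ++ [x]).reverse.head? = some (sa a δa) ∨ (s ++ [x]).reverse.head? = some (sb a δa) := by
    rw [hhA]
    rcases hxy with ⟨rfl, -⟩ | ⟨rfl, -⟩
    · exact Or.inl rfl
    · exact Or.inr rfl
  have hh2 : (w :: r).head? = some (sa b δb) ∨ (w :: r).head? = some (sb b δb) := by
    rw [hhB]
    rcases hzw with ⟨-, rfl⟩ | ⟨-, rfl⟩
    · exact Or.inr rfl
    · exact Or.inl rfl
  exact ⟨⟨hA, hB, hdis, hinA, hinB, hh1, hh2, Or.inl ⟨htA, htB⟩, hexA, hexB⟩,
    ⟨hB, hA, fun c hc hc' => hdis c hc' hc, hinB, hinA, hh2, hh1, Or.inr ⟨htB, htA⟩, hexB, hexA⟩⟩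

/-- **two strands** -/
theorem two_strands {S : Finset (ℤ × ℤ)} {u δ0 a δa b δb : ℤ × ℤ} {l : List (ℤ × ℤ)} (h : Ham S u δ0 l) (ha : a ∈ S) (hb : b ∈ S)
    (hδa : δa ∈ D4) (hδb : δb ∈ D4) (ha' : a + δa ∉ S) (hb' : b + δb ∉ S) (hau : a ≠ u ∨ δa ≠ δ0) (hbu : b ≠ u ∨ δb ≠ δ0)
    (hab : a ≠ b) : ∃ A B, Two S u δ0 a δa b δb A B := by
  have key : ∀ x y : ℤ × ℤ, ((x = sa a δa ∧ y = sb a δa) ∨ (x = sb a δa ∧ y = sa a δa)) → Con l x y →
      ∃ A B, Two S u δ0 a δa b δb A B := by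
    intro x y hxy hcon
    have hx : bl x = a ∧ bl y = a := by
      rcases hxy with ⟨rfl, rfl⟩ | ⟨rfl, rfl⟩
      · exact ⟨bl_sa, bl_sb⟩
      · exact ⟨bl_sb, bl_sa⟩
    have key2 : ∀ z w : ℤ × ℤ, ((z = sa b δb ∧ w = sb b δb) ∨ (z = sb b δb ∧ w = sa b δb)) → Con l z w →
        ∃ A B, Two S u δ0 a δa b δb A B := by
      intro z w hzw hcon2
      have hz : bl z = b ∧ bl w = b := by
        rcases hzw with ⟨rfl, rfl⟩ | ⟨rfl, rfl⟩
        · exact ⟨bl_sa, bl_sb⟩
        · exact ⟨bl_sb, bl_sa⟩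
      obtain ⟨s, t, rfl⟩ := hcon
      rcases con_split hcon2 (fun h => hab (by rw [← hx.1, ← hz.1, h])) (fun h => hab (by rw [← hx.2, ← hz.1, h]))
        (fun h => hab (by rw [← hx.1, ← hz.2, h])) with ⟨s1, s2, rfl⟩ | ⟨s1, s2, rfl⟩
      · have e : s1 ++ z :: w :: s2 ++ x :: y :: t = s1 ++ z :: w :: (s2 ++ x :: y :: t) := by simp
        rw [e] at h
        exact ⟨_, _, (two_aux h hzw hxy).2⟩
      · exact ⟨_, _, (two_aux h hxy hzw).1⟩
    rcases h.side b hb δb hδb hb' hbu with h2 | h2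
    · exact key2 _ _ (Or.inl ⟨rfl, rfl⟩) h2
    · exact key2 _ _ (Or.inr ⟨rfl, rfl⟩) h2
  rcases h.side a ha δa hδa ha' hau with h2 | h2
  · exact key _ _ (Or.inl ⟨rfl, rfl⟩) h2
  · exact key _ _ (Or.inr ⟨rfl, rfl⟩) h2

end Lane

end ART

end HexObs
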