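import Pool.Agent.ART.DefsG
import Pool.Agent.ART.Lane
import Pool.Agent.ARM.PathX
import Pool.Agent.ARM.DefsQ

/-!
# ART, row G1 (captain helper39): literals

* `Col`: the column pattern of the path; **`JoinTc`**: the final row (open and closed words, the direction is given);
* `PathTSt`: the path of the lattice with the columns, from the two chains of cells of the mesh 8 D (rows J3 + J4);
* `c8`, `ctr`, `SN`: coarse cells, centres of the subcells, nodes of a strand.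
-/

set_option autoImplicit false

namespace HexObs

namespace ART

open Finset TS SDN NTA TIP ARM

open scoped ENNReal

/-- **the column pattern** in the direction d: N steps up from the node i0, cap, N steps down to the node i0 + 2 N + 2; every
vertex of M and every other vertex of the path is lower than the feet of the columns by at least D -/
structure Col (E : ℕ → Pt) (r : ℕ) (D : ℤ) (N i0 : ℕ) (d : Pt) (M : List Bool) : Prop where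
  one : 2 ≤ i0
  le : i0 + 2 * N + 4 ≤ r
  ups : ∀ i, i < N → E (i0 + i) = d
  cap : (E (i0 + N) = rotR d ∧ E (i0 + N + 1) = rotR (rotR d)) ∨ (E (i0 + N) = rotL d ∧ E (i0 + N + 1) = rotL (rotL d))
  dns : ∀ i, i < N → E (i0 + N + 2 + i) = -d
  lowM : ∀ i, i ≤ M.length → ip (vx oo up M i) d + D ≤ ip (qv E D r i0) d
  lowE : ∀ i, i ≤ r → (i < i0 ∨ i0 + 2 * N + 2 < i) → ip (qv E D r i) d + D ≤ ip (qv E D r i0) d

/-- **rows G1, C-a**: the middle part between two good cuts is joinable by a path with columns above everything; d = any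
direction in which the word is at most 2 ^ j above its start -/
def JoinTc : Prop := ∀ (η κ : ℝ) (a m N : ℕ), 0 < η → 0 < κ → ∃ k c0 : ℕ, ∀ c u e : ℕ, c0 ≤ c → c ≤ u → k ≤ e →
  ∀ H : ℕ, 2 ^ 13 ≤ H → ∃ Mx sx b0 : ℕ, ∀ j, b0 ≤ j → ∃ DD : Finset ℤ, DD.card ≤ Mx ∧ ∀ n : ℕ, 2 ^ b0 * ml j ≤ n →
    ∀ X M Y : List Bool, X ++ (M ++ Y) ∈ GFc n j η κ a m c u e k → CutP j a m η X M Y →
      ∀ d ∈ dirs, (∀ s, s ≤ (X ++ (M ++ Y)).length → ip (vx oo up (X ++ (M ++ Y)) s) d ≤ 2 ^ j) →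
      ∃ (k' r i0 : ℕ) (D : ℤ) (E : ℕ → Pt), D ∈ DD ∧ k' ≤ j ∧ j ≤ k' + sx ∧ 18 * (H * 2 ^ k') ≤ D ∧
        D ≤ 36 * (H * 2 ^ k') ∧ 4 ≤ r ∧ r ≤ Mx ∧ IPg E r ∧ E (r - 1) = up ∧ E (r - 2) = up ∧ Jn E r D k' M ∧
        Col E r D N i0 (mulE (conjE (TIW.rt X)) d) M

/-- coarse cell (mesh 8) of a node -/
def c8 (n : Pt) : ℤ × ℤ := (n.1 / 8, n.2 / 8)

/-- centre of a subcell (mesh 4) -/
def ctr (p : ℤ × ℤ) : Pt := (4 * p.1 + 2, 4 * p.2 + 2)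

/-- the nodes of a strand (a list of subcells) -/
def SN (A : List (ℤ × ℤ)) : Set Pt :=
  {n | (∃ p ∈ A, n = ctr p) ∨ ∃ p q, Lane.Con A p q ∧ ∃ i : ℤ, 0 ≤ i ∧ i ≤ 4 ∧ n = ctr p + i • (q - p)}

/-- **rows J3 + J4**: as `ARM.exists_path` (absolute lattice points, 0 = start of M, t = end of M, g0 the node near t), from the
chains of cells of the mesh 8 D, seen from t: one to the node behind the start, one to a point zU above the row T -/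
def PathTSt : Prop := ∀ N : ℕ, ∃ C : ℕ, ∀ (V : Set Pt) (t dt g0 d zU : Pt) (D ρ κ N0 R T : ℤ) (K : ℕ), 0 < D → 0 ≤ κ → κ < D →
  dt ∈ dirs → d ∈ dirs → (0 : Pt) ∈ V → t ∈ V → TIW.hn (t - D • g0) ≤ κ →
  (∀ p ∈ V, 0 < ip (p - t) dt → ρ ≤ TIW.hn (p - t)) → (∀ p ∈ V, ip p up < 0 → ρ ≤ TIW.hn p) →
  1000 * D ≤ TIW.hn t → 1000 ≤ K → 2 * (K * D) + 1000 * D ≤ ρ → |g0.1| ≤ N0 → |g0.2| ≤ N0 → 0 ≤ R →
  (∀ p ∈ V, ip p d ≤ T) → T + 100 * D ≤ ip (t + zU) d →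
  Relation.ReflTransGen (fun f g => adj f g ∧ nr R 0 g ∧ ∀ p ∈ V, ¬ nr 3 (ce (8 * D) (p - t)) g)
    (ce (8 * D) (((K : ℤ) * D) • dt)) (ce (8 * D) (D • (-g0 - (K : ℤ) • up))) →
  Relation.ReflTransGen (fun f g => adj f g ∧ nr R 0 g ∧ ∀ p ∈ V, ¬ nr 3 (ce (8 * D) (p - t)) g)
    (ce (8 * D) (((K : ℤ) * D) • dt)) (ce (8 * D) zU) →
  ∃ (n i0 : ℕ) (f : ℕ → Pt), n ≤ ((C * (R + N0 + K + 1)).toNat) ^ 2 ∧ 2 ≤ i0 ∧ i0 + 2 * N + 4 ≤ n ∧
    f 0 = g0 ∧ f n = 0 ∧ f 1 = g0 + dt ∧ f (n - 1) = -up ∧ f (n - 2) = -up - up ∧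
    (∀ i, i < n → f (i + 1) - f i ∈ dirs) ∧
    (∀ i, i + 1 < n → f (i + 1 + 1) - f (i + 1) = f (i + 1) - f i ∨
      f (i + 1 + 1) - f (i + 1) = rotL (f (i + 1) - f i) ∨ f (i + 1 + 1) - f (i + 1) = rotR (f (i + 1) - f i)) ∧
    (∀ i j, i + 1 < j → j ≤ n → 3 ≤ nrm (f j - f i)) ∧
    (∀ i, 1 ≤ i → i + 1 < n → ∀ s : ℤ, 0 ≤ s → s ≤ D → ∀ p ∈ V,
      D - κ ≤ TIW.hn (p - (D • f i + s • (f (i + 1) - f i)))) ∧
    (∀ i, i < N → f (i0 + i + 1) = f (i0 + i) + d) ∧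
    ((f (i0 + N + 1) = f (i0 + N) + rotR d ∧ f (i0 + N + 2) = f (i0 + N + 1) + rotR (rotR d)) ∨
      (f (i0 + N + 1) = f (i0 + N) + rotL d ∧ f (i0 + N + 2) = f (i0 + N + 1) + rotL (rotL d))) ∧
    (∀ i, i < N → f (i0 + N + 2 + i + 1) = f (i0 + N + 2 + i) - d) ∧
    (∀ p ∈ V, ip p d + D ≤ D * ip (f i0) d) ∧
    (∀ i, i ≤ n → (i < i0 ∨ i0 + 2 * N + 2 < i) → ip (f i) d + 1 ≤ ip (f i0) d)

end ART

end HexObs
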