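import Pool.Agent.ART.Claim
import Pool.Agent.ART.JoinDefs
import Pool.Agent.ART.DCut2

/-!
# ART, row HV (helper87), part A: distances

* `Col_cut` : the column pattern of the truncated path;
* `nearR` : points near the path are within `Rad r D k` of the start;
* `out_w` : the vertices of w = X ++ (M ++ Y) ++ [b] outside of the minimal part I of M are near the start of I;
* `out_w'` : the same for the rotated image.
-/

set_option autoImplicit false

namespace HexObs

namespace ART

namespace OG

open Finset TS SDN SIM NTA TIP ARM ARM.G3 ARM.G2 JT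

open scoped ENNReal

variable {E : ℕ → Pt} {r : ℕ} {D : ℤ} {k : ℕ}

lemma Col_cut {N i0 : ℕ} {d : Pt} {M : List Bool} (h : Col E r D N i0 d M) : Col (cutE E r) r D N i0 d M := by
  obtain ⟨h1, h2, h3, h4, h5, h6, h7⟩ := h
  refine ⟨h1, h2, fun i hi => ?_, ?_, fun i hi => ?_, fun i hi => ?_, fun i hi hi' => ?_⟩
  · rw [cutE_lt (by omega)]
    exact h3 i hi
  · rw [cutE_lt (by omega), cutE_lt (by omega)]
    exact h4
  · rw [cutE_lt (by omega)]
    exact h5 i hi
  · rw [cutE_qv (by omega)]
    exact h6 i hi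
  · rw [cutE_qv hi, cutE_qv (by omega)]
    exact h7 i hi hi'

/-- the radius of the path -/
def Rad (r : ℕ) (D : ℤ) (k : ℕ) : ℤ := 2 * ((r : ℤ) * D) + 2 * D + 2 ^ (k + 10)

lemma ip_dirs_le {d d' : Pt} (hd : d ∈ dirs) (hd' : d' ∈ dirs) : ip d d' ≤ 2 := by
  have h : ∀ d ∈ dirs, ∀ d' ∈ dirs, ip d d' ≤ 2 := by decide
  exact h d hd d' hd'

lemma hn_smul_le {d : Pt} (hd : d ∈ dirs) {t D : ℤ} (h0 : 0 ≤ t) (h : t ≤ D) : TIW.hn (t • d) ≤ 2 * D := by
  refine TIW.hn_le fun d' hd' => ?_
  have h1 : ip (t • d) d' = t * ip d d' := by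
    unfold ip
    simp only [Prod.smul_fst, Prod.smul_snd, smul_eq_mul]
    ring
  have h2 := ip_dirs_le hd hd'
  rw [h1]
  nlinarith

lemma qv_hn (hE : IPg E r) (hD : 0 ≤ D) : ∀ q i : ℕ, i + q = r → TIW.hn (qv E D r i) ≤ 2 * ((q : ℤ) * D) := by
  intro q
  induction q with
  | zero =>
    intro i hi
    rw [Nat.add_zero] at hi
    subst hi
    unfold qv
    rw [sub_self, smul_zero, show TIW.hn (0 : Pt) = 0 by decide]
    simp
  | succ q ih =>
    intro i hi
    have h1 := ih (i + 1) (by omega)
    have e1 : qv E D r i = qv E D r (i + 1) - D • E i := by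
      unfold qv
      rw [AR.ps_succ, ← smul_sub]
      congr 1
      abel
    rw [e1]
    refine (TIW.hn_sub _ _).trans ?_
    have h2 := hn_smul_le (hE.dir i (by omega)) hD le_rfl
    push_cast
    linarith

/-- points near the path -/
lemma nearR (hE : IPg E r) (hD : 0 ≤ D) {j : ℕ} (hj : j < r) {y : Pt}
    (h : AR.NS (qv E D r j) (E j) D (2 ^ (k + 10)) y) : TIW.hn y ≤ Rad r D k := by
  obtain ⟨t, h1, h2, h3⟩ := h
  have h4 := qv_hn hE hD (r - j) j (by omega)
  have h5 := hn_smul_le (hE.dir j hj) h1 h2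
  have e1 : y = (y - (qv E D r j + t • E j)) + (qv E D r j + t • E j) := by abel
  have h6 := TIW.hn_add (y - (qv E D r j + t • E j)) (qv E D r j + t • E j)
  rw [← e1] at h6
  have h7 := TIW.hn_add (qv E D r j) (t • E j)
  have h8 : ((r - j : ℕ) : ℤ) * D ≤ r * D := by
    refine mul_le_mul_of_nonneg_right ?_ hD
    exact_mod_cast Nat.sub_le r j
  unfold Rad
  linarith

lemma Rad_pos (hD : 0 ≤ D) : 2 ^ (k + 10) ≤ Rad r D k := by
  unfold Rad
  have : 0 ≤ (r : ℤ) * D := mul_nonneg (Int.natCast_nonneg _) hD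
  linarith

/-- box and distance -/
lemma hn_In {R : ℕ} {Y : List Bool} (h : In R Y) {i : ℕ} (hi : i ≤ Y.length) : TIW.hn (vx oo up Y i) ≤ 3 * R := by
  obtain ⟨h1, h2⟩ := RevM.In_coord h hi
  rw [abs_le] at h1 h2
  refine TIW.hn_le fun d hd => ?_
  have h3 : ∀ p : Pt, ∀ d ∈ dirs, ip p d ≤ 3 * max |p.1| |p.2| := by
    intro p d hd
    obtain ⟨x, y⟩ := p
    have a1 := le_max_left |x| |y|
    have a2 := le_max_right |x| |y|
    have a3 := le_abs_self x
    have a4 := neg_abs_le x
    have a5 := le_abs_self y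
    have a6 := neg_abs_le y
    simp only [dirs, mem_insert, mem_singleton] at hd
    unfold ip
    rcases hd with rfl | rfl | rfl | rfl | rfl | rfl <;> simp only [] <;> linarith
  refine (h3 _ d hd).trans ?_
  have h4 : max |(vx oo up Y i).1| |(vx oo up Y i).2| ≤ R := max_le (abs_le.2 h1) (abs_le.2 h2)
  linarith

lemma nrm_dirs {c : Pt} (hc : c ∈ dirs) : nrm c = 1 := by
  revert c
  decide

/-- the vertices of a word whose reversal is in a box -/
lemma dz_rev {R : ℕ} {X : List Bool} (h : In R (rev X)) {i : ℕ} (hi : i ≤ X.length) :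
    TIW.hn (vx oo up X i - TIW.en X) ≤ 6 * R + 2 := by
  obtain ⟨c, hc, hf⟩ := RevM.rev_frame X
  have hc1 := nrm_dirs hc
  have key : ∀ i, 1 ≤ i → i ≤ X.length → TIW.hn (vx oo up X i - TIW.en X) ≤ 6 * R := by
    intro i hi0 hi
    have h1 := hf (X.length + 1 - i) (by omega)
    have h2 := hf 1 (by omega)
    rw [show X.length + 1 - (X.length + 1 - i) = i by omega] at h1
    rw [show X.length + 1 - 1 = X.length by omega] at h2
    have e1 : vx oo up X i - TIW.en X = mulE c (vx oo up (rev X) (X.length + 1 - i) - vx oo up (rev X) 1) := by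
      unfold TIW.en
      rw [h1, h2, mulE_sub]
      abel
    rw [e1, TIW.hn_mulE hc1]
    refine (TIW.hn_sub _ _).trans ?_
    have h3 := hn_In h (i := X.length + 1 - i) (by rw [rev_length]; omega)
    have h4 := hn_In h (i := 1) (by rw [rev_length]; omega)
    linarith
  rcases Nat.eq_zero_or_pos X.length with h0 | h0
  · have hi0 : i = X.length := by omega
    rw [hi0]
    have : vx oo up X X.length - TIW.en X = 0 := sub_self _
    rw [this, show TIW.hn (0 : Pt) = 0 by decide]
    positivity
  · rcases Nat.eq_zero_or_pos i with hi0 | hi0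
    · subst hi0
      have h1 := key 1 le_rfl h0
      have e1 : vx oo up X 0 - TIW.en X = (vx oo up X 1 - TIW.en X) - up := by
        have : vx oo up X 1 = vx oo up X 0 + up := rfl
        rw [this]
        abel
      rw [e1]
      refine (TIW.hn_sub _ _).trans ?_
      have h2 : TIW.hn up = 2 := by decide
      linarith
    · have := key i hi0 hi
      linarith

/-! ### The vertices outside of the minimal part -/

/-- **the word w**: I in M = Z1 ++ (I ++ Z2), confined -/
theorem out_w (hE : IPg E r) (hr : 1 ≤ r) (hD : 0 ≤ D) {R : ℕ} {s : Pt} {X Y M Z1 I Z2 : List Bool} {b : Bool}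
    (hs : TIW.hn s ≤ 2 ^ k) (hM : M = Z1 ++ (I ++ Z2)) (hJ : Jn E r D k M) (hC : Cf E r D k s Z1 I Z2)
    (hX : In R (rev X)) (hY : In R Y) :
    (∀ i, i ≤ (X ++ Z1).length → TIW.hn (vx oo up (X ++ (M ++ Y) ++ [b]) i - vx oo up (X ++ (M ++ Y) ++ [b]) (X ++ Z1).length) ≤
      6 * R + 4 * Rad r D k + 4) ∧
    (∀ i, (X ++ Z1).length + I.length ≤ i → i ≤ (X ++ (M ++ Y) ++ [b]).length →
      TIW.hn (vx oo up (X ++ (M ++ Y) ++ [b]) i - vx oo up (X ++ (M ++ Y) ++ [b]) (X ++ Z1).length) ≤
      6 * R + 4 * Rad r D k + 4) := by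
  have hp := Rad_pos (r := r) (k := k) hD
  have h2k : (2 : ℤ) ^ k ≤ Rad r D k := by
    refine le_trans ?_ hp
    exact pow_le_pow_right₀ (by norm_num) (by omega)
  have h2k0 : (0 : ℤ) < 2 ^ k := by positivity
  obtain ⟨L, hL⟩ : ∃ L, L = X ++ (M ++ Y) ++ [b] := ⟨_, rfl⟩
  obtain ⟨V, hV⟩ : ∃ V : ℕ → Pt, V = fun i => mulE (TIW.rt X) (vx oo up M i) := ⟨_, rfl⟩
  have hlM : M.length = Z1.length + (I.length + Z2.length) := by
    rw [hM]
    simp only [List.length_append]
  have hlL : L.length = X.length + (M.length + Y.length) + 1 := by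
    rw [hL]
    simp only [List.length_append, List.length_cons, List.length_nil]
  -- the vertices of the three parts
  have f1 : ∀ i, i ≤ X.length → vx oo up L i = vx oo up X i := by
    intro i hi
    rw [hL, List.append_assoc, vx_append (by omega)]
  have f2 : ∀ i, i ≤ M.length → vx oo up L (X.length + i) = TIW.en X + V i := by
    intro i hi
    rw [hL, List.append_assoc, TIW.vx_app, List.append_assoc, vx_append (by omega), hV]
  have f3 : ∀ i, i ≤ Y.length → vx oo up L (X.length + M.length + i) = TIW.en X + V M.length +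
      mulE (TIW.rt (X ++ M)) (vx oo up Y i) := by
    intro i hi
    have e1 : X ++ (M ++ Y) ++ [b] = (X ++ M) ++ (Y ++ [b]) := by simp only [List.append_assoc]
    have e2 : X.length + M.length = (X ++ M).length := by rw [List.length_append]
    have e3 : TIW.en (X ++ M) = TIW.en X + V M.length := by
      rw [hV]
      unfold TIW.en
      rw [List.length_append]
      exact TIW.vx_app X M M.length
    rw [hL, e1, e2, TIW.vx_app, vx_append (by omega), e3]
  -- distances from the end of X
  have hsR : ∀ {j : ℕ} {p : Pt}, j < r → AR.NS (qv E D r j) (E j) D (2 ^ (k + 10)) (s + p) → TIW.hn p ≤ 2 * Rad r D k := by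
    intro j p hj h1
    have h2 := nearR hE hD hj h1
    have e1 : p = (s + p) - s := by abel
    have h3 := TIW.hn_sub (s + p) s
    rw [← e1] at h3
    linarith
  obtain ⟨hC1, hC2, hC3, hC4⟩ := hC
  rw [← hM] at hC3 hC4
  have g1 : ∀ i, i ≤ X.length → TIW.hn (vx oo up L i - TIW.en X) ≤ 6 * R + 2 := by
    intro i hi
    rw [f1 i hi]
    exact dz_rev hX hi
  have g2 : ∀ i, i ≤ Z1.length → TIW.hn (vx oo up L (X.length + i) - TIW.en X) ≤ 2 * Rad r D k := by
    intro i hi
    rw [f2 i (by omega), add_sub_cancel_left, hV]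
    simp only
    rw [TIW.hn_mulE (TIW.nrm_rt X)]
    exact hsR (by omega) (hC3 i hi)
  have g3 : ∀ i, i ≤ Z2.length → TIW.hn (vx oo up L (X.length + Z1.length + I.length + i) - TIW.en X) ≤ 2 * Rad r D k := by
    intro i hi
    rw [show X.length + Z1.length + I.length + i = X.length + (Z1.length + I.length + i) by omega, f2 _ (by omega),
      add_sub_cancel_left, hV]
    simp only
    rw [TIW.hn_mulE (TIW.nrm_rt X)]
    exact hsR (by omega) (hC4 i hi)
  have g4 : TIW.hn (V M.length) ≤ 2 * Rad r D k := by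
    rw [hV]
    simp only
    rw [TIW.hn_mulE (TIW.nrm_rt X)]
    have := hC4 Z2.length le_rfl
    rw [show Z1.length + I.length + Z2.length = M.length by omega] at this
    exact hsR (by omega) this
  have g5 : ∀ i, i ≤ Y.length → TIW.hn (vx oo up L (X.length + M.length + i) - TIW.en X) ≤ 2 * Rad r D k + 3 * R := by
    intro i hi
    rw [f3 i hi]
    have e1 : TIW.en X + V M.length + mulE (TIW.rt (X ++ M)) (vx oo up Y i) - TIW.en X =
        V M.length + mulE (TIW.rt (X ++ M)) (vx oo up Y i) := by abel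
    rw [e1]
    refine (TIW.hn_add _ _).trans (add_le_add g4 ?_)
    rw [TIW.hn_mulE (TIW.nrm_rt _)]
    exact hn_In hY hi
  have g6 : ∀ i, X.length + Z1.length + I.length ≤ i → i ≤ L.length →
      TIW.hn (vx oo up L i - TIW.en X) ≤ 2 * Rad r D k + 3 * R + 2 := by
    intro i hi hi'
    rcases Nat.lt_or_ge (X.length + M.length) i with h1 | h1
    · rcases Nat.lt_or_ge (X.length + M.length + Y.length) i with h2 | h2
      · have h3 := g5 Y.length le_rfl
        have e0 : i = X.length + M.length + Y.length + 1 := by omega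
        have e1 : vx oo up L i = vx oo up L (X.length + M.length + Y.length) + dx up L (X.length + M.length + Y.length) := by
          rw [e0]
          rfl
        have e2 : vx oo up L i - TIW.en X = (vx oo up L (X.length + M.length + Y.length) - TIW.en X) +
            dx up L (X.length + M.length + Y.length) := by
          rw [e1]
          abel
        rw [e2]
        refine (TIW.hn_add _ _).trans ?_
        have h4 : TIW.hn (dx up L (X.length + M.length + Y.length)) = 2 := by
          have := dx_mem up_dirs L (X.length + M.length + Y.length)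
          revert this
          generalize dx up L (X.length + M.length + Y.length) = d
          revert d
          decide
        linarith
      · have h3 := g5 (i - (X.length + M.length)) (by omega)
        rw [show X.length + M.length + (i - (X.length + M.length)) = i by omega] at h3
        linarith
    · have h3 := g3 (i - (X.length + Z1.length + I.length)) (by omega)
      rw [show X.length + Z1.length + I.length + (i - (X.length + Z1.length + I.length)) = i by omega] at h3
      have : (0 : ℤ) ≤ R := Int.natCast_nonneg R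
      linarith
  have g7 : ∀ i, i ≤ X.length + Z1.length → TIW.hn (vx oo up L i - TIW.en X) ≤ 2 * Rad r D k + 6 * R + 2 := by
    intro i hi
    rcases Nat.lt_or_ge X.length i with h1 | h1
    · have h3 := g2 (i - X.length) (by omega)
      rw [show X.length + (i - X.length) = i by omega] at h3
      have : (0 : ℤ) ≤ R := Int.natCast_nonneg R
      linarith
    · have h3 := g1 i h1
      linarith
  have g8 := g2 Z1.length le_rfl
  have hR : (0 : ℤ) ≤ R := Int.natCast_nonneg R
  rw [← hL, List.length_append]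
  refine ⟨fun i hi => ?_, fun i hi hi' => ?_⟩
  · have h3 := TIW.hn_tri (vx oo up L i) (TIW.en X) (vx oo up L (X.length + Z1.length))
    rw [TIW.hn_sub_comm (TIW.en X)] at h3
    have := g7 i hi
    linarith
  · have h3 := TIW.hn_tri (vx oo up L i) (TIW.en X) (vx oo up L (X.length + Z1.length))
    rw [TIW.hn_sub_comm (TIW.en X)] at h3
    have := g6 i hi hi'
    linarith

/-- the tube vertices of a closed word `I ++ Q`, I placed at s0 -/
lemma near_q (hE : IPg E r) (hD : 0 ≤ D) {s0 : Pt} {I Q : List Bool} (hP : Plc E r D k s0 I) (hQ : TP E r D k I Q)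
    {i : ℕ} (hi : i ≤ Q.length) : TIW.hn (vx oo up (I ++ Q) (I.length + i)) ≤ 2 * Rad r D k := by
  obtain ⟨j, hj, h1⟩ := hQ.rgA hP hi
  have h2 := nearR hE hD hj h1
  have hp := Rad_pos (r := r) (k := k) hD
  have h3 : (2 : ℤ) ^ (k + 1) ≤ 2 ^ (k + 10) := pow_le_pow_right₀ (by norm_num) (by omega)
  have e1 : vx oo up (I ++ Q) (I.length + i) = (s0 + vx oo up (I ++ Q) (I.length + i)) - s0 := by abel
  have h4 := TIW.hn_sub (s0 + vx oo up (I ++ Q) (I.length + i)) s0
  rw [← e1] at h4
  have := hP.hs
  linarith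

/-- the position of a vertex of the closed word `I ++ Q`, in the place s0, is near the path -/
lemma near_q0 (hE : IPg E r) (hD : 0 ≤ D) {s0 : Pt} {I Q : List Bool} (hP : Plc E r D k s0 I) (hQ : TP E r D k I Q)
    {i : ℕ} (hi : i ≤ Q.length) : TIW.hn (s0 + vx oo up (I ++ Q) (I.length + i)) ≤ Rad r D k := by
  obtain ⟨j, hj, h1⟩ := hQ.rgA hP hi
  exact nearR hE hD hj h1

/-- **the image w' = Q2 ++ (I ++ Q1)** -/
theorem out_w' (hE : IPg E r) (hD : 0 ≤ D) {s0 : Pt} {I Q1 Q2 : List Bool} (hP : Plc E r D k s0 I)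
    (hQ : TP E r D k I (Q1 ++ Q2)) (hcl : vx oo up (I ++ (Q1 ++ Q2)) (I ++ (Q1 ++ Q2)).length = oo) :
    (∀ i, i ≤ Q2.length → TIW.hn (vx oo up (Q2 ++ (I ++ Q1)) i - vx oo up (Q2 ++ (I ++ Q1)) Q2.length) ≤ 2 * Rad r D k) ∧
    (∀ i, Q2.length + I.length ≤ i → i ≤ (Q2 ++ (I ++ Q1)).length →
      TIW.hn (vx oo up (Q2 ++ (I ++ Q1)) i - vx oo up (Q2 ++ (I ++ Q1)) Q2.length) ≤ 2 * Rad r D k) := by
  have e0 : vx oo up (Q2 ++ (I ++ Q1)) Q2.length = TIW.en Q2 := vx_append (by omega)
  refine ⟨fun i hi => ?_, fun i hi hi' => ?_⟩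
  · have e1 : vx oo up (Q2 ++ (I ++ Q1)) i = vx oo up Q2 i := vx_append (by omega)
    have h1 := near_q hE hD hP hQ (i := Q1.length + i) (by rw [List.length_append]; omega)
    have e2 : I ++ (Q1 ++ Q2) = (I ++ Q1) ++ Q2 := by simp only [List.append_assoc]
    have e3 : I.length + (Q1.length + i) = (I ++ Q1).length + i := by rw [List.length_append]; omega
    rw [e2, e3, TIW.vx_app] at h1
    rw [e2, List.length_append, TIW.vx_app] at hcl
    have e4 : TIW.en (I ++ Q1) + mulE (TIW.rt (I ++ Q1)) (vx oo up Q2 i) =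
        mulE (TIW.rt (I ++ Q1)) (vx oo up Q2 i - TIW.en Q2) := by
      have h2 : TIW.en (I ++ Q1) = - mulE (TIW.rt (I ++ Q1)) (TIW.en Q2) := by
        have h3 : TIW.en (I ++ Q1) + mulE (TIW.rt (I ++ Q1)) (TIW.en Q2) = 0 := hcl
        exact eq_neg_of_add_eq_zero_left h3
      rw [h2, mulE_sub]
      abel
    rw [e4, TIW.hn_mulE (TIW.nrm_rt _)] at h1
    rw [e1, e0]
    exact h1
  · rw [List.length_append, List.length_append] at hi'
    have e1 : i = Q2.length + (I.length + (i - (Q2.length + I.length))) := by omega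
    obtain ⟨q, hq⟩ : ∃ q, q = i - (Q2.length + I.length) := ⟨_, rfl⟩
    rw [← hq] at e1
    have h1 := near_q hE hD hP hQ (i := q) (by rw [List.length_append]; omega)
    have e2 : I ++ (Q1 ++ Q2) = (I ++ Q1) ++ Q2 := by simp only [List.append_assoc]
    rw [e2, vx_append (by rw [List.length_append]; omega)] at h1
    rw [e0, e1, TIW.vx_app, add_sub_cancel_left, TIW.hn_mulE (TIW.nrm_rt _)]
    exact h1

end OG

end ART

end HexObs
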