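import Pool.Agent.ART.RichDefs

/-!
# ART, row C-b (helper69, helper79): literal of the hairpin

* `HPt e n`: n steps up, cap, n steps down;
* **`HairpinS n`**: the mass of the tubes along a hairpin with a free end and many rich rows.
-/

set_option autoImplicit false

namespace HexObs

namespace ART

open TIW TS SDN ARM

open scoped ENNReal

/-- the path of a hairpin -/
structure HPt (e : ℕ → Pt) (n : ℕ) : Prop where
  ups : ∀ i, i < n → e i = up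
  cap : (e n = rotR up ∧ e (n + 1) = rotR (rotR up)) ∨ (e n = rotL up ∧ e (n + 1) = rotL (rotL up))
  dns : ∀ i, i < n → e (n + 2 + i) = -up

/-- **the hairpin** -/
def HairpinS (n : ℕ) : Prop := ∃ H0 : ℕ, 2 ^ 13 ≤ H0 ∧ ∀ H : ℕ, H0 ≤ H → ∃ (c κ : ℝ) (k0 : ℕ), 0 < c ∧ 0 < κ ∧
  ∀ (k : ℕ) (D : ℤ) (e : ℕ → Pt), k0 ≤ k → 18 * (H * 2 ^ k) ≤ D → D ≤ 36 * (H * 2 ^ k) → AR.IPath e (2 * n + 2) → HPt e n →
    ENNReal.ofReal (c * Ub k) ≤ gf {X | TubeQ e D (2 ^ (k + 11)) (2 * n + 2) (TIW.en X) X ∧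
      TIW.hn (TIW.en X - AR.pv e D (2 * n + 2)) ≤ 2 ^ k ∧ RichQ up κ k (WinQ e D (2 ^ (k + 11)) 0 n) X}

end ART

end HexObs
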