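import Pool.Agent.ART.HpD
import Pool.Agent.ART.TubeSum
import Pool.Agent.ART.HairDefs
import Pool.Agent.PHW.Num2

/-!
# ART, block C-b (helper69): **the hairpin**

`hairpin`: the mass of the tube words along m + 1 steps up, the cap, m + 1 steps down, free end, with at least `κ 2 ^ (k / 2)`
rows which are crossed by exactly two edges, is at least `c Ub k`.
-/

set_option autoImplicit false

namespace HexObs

namespace ART

namespace HP

open Finset TIW TS SDN ARM ARM.G3 AR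

open scoped ENNReal

variable {e : ℕ → Pt} {m : ℕ} {D w ρ v : ℤ} {s z : Pt} {K : List Bool}

/-- the path of the middle part -/
lemma ipg_mid (h : IPath e (m + (4 + m))) : IPg (fun j => e (m + j)) 4 := by
  refine ⟨fun i hi => h.dir _ (by omega), fun i hi => ?_, fun i j hij hj => ?_⟩
  · exact h.tur (m + i) (by omega)
  · rw [ps_add', ps_add', sub_sub_sub_cancel_right]
    exact h.ind _ _ (by omega) (by omega)

lemma bl_mass (k : ℕ) : gf (BLr (2 * 2 ^ k)) ≤ ENNReal.ofReal (UU (2 * 2 ^ k)) := by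
  refine le_trans (gf_mono ?_) (TIP.gf_low (2 * 2 ^ k))
  rintro Z ⟨h1, h2⟩
  refine ⟨h1, ?_⟩
  have h3 : (hgt Z : ℤ) ≤ ((2 * 2 ^ k : ℕ) : ℤ) := by
    push_cast
    have : (0 : ℤ) < 2 ^ k := by positivity
    linarith
  exact_mod_cast h3

/-- **the hairpin** -/
theorem hairpin (m : ℕ) (hm : 9 ≤ m) : ∃ H0 : ℕ, 2 ^ 13 ≤ H0 ∧ ∀ H : ℕ, H0 ≤ H → ∃ (c κ : ℝ) (k0 : ℕ), 0 < c ∧ 0 < κ ∧
    ∀ (k : ℕ) (D : ℤ) (e : ℕ → Pt), k0 ≤ k → 18 * (H * 2 ^ k) ≤ D → D ≤ 36 * (H * 2 ^ k) → IPath e (m + (4 + m)) →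
      HPt e (m + 1) → ENNReal.ofReal (c * Ub k) ≤ gf {X | TubeQ e D (2 ^ (k + 11)) (m + (4 + m)) (en X) X ∧
        hn (en X - pv e D (m + (4 + m))) ≤ 2 ^ k ∧ RichQ up κ k (WinQ e D (2 ^ (k + 11)) 0 (m + 1)) X} := by
  classical
  obtain ⟨H0, hH0, hT⟩ := tubeSum
  refine ⟨H0, hH0, fun H hH => ?_⟩
  have hH13 : 2 ^ 13 ≤ H := hH0.trans hH
  obtain ⟨cK, kK, hcK, hT⟩ := hT H hH 4 1 one_pos (by norm_num)
  have hmr : (9 : ℝ) ≤ m := by exact_mod_cast hm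
  have hHr : (8192 : ℝ) ≤ H := by exact_mod_cast hH13
  obtain ⟨η, hη⟩ : ∃ η : ℝ, η = 1 / (4 * m * H) := ⟨_, rfl⟩
  have hη0 : 0 < η := by
    rw [hη]
    positivity
  obtain ⟨c5, κ, t0, hc5, hκ, hV⟩ := vpair2 1 hη0
  obtain ⟨CB, hCB, hB⟩ := UU_scale 2
  have hCB0 : 0 < CB := by linarith
  obtain ⟨C2, hC2, hcomp⟩ := SumUU.uu_comp (24 * m * H)
  obtain ⟨C1, hC1⟩ : ∃ C1 : ℝ, C1 = 6 + CW := ⟨_, rfl⟩
  have hC10 : 0 < C1 := by
    have h1 := UU_le_mul (le_refl 1)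
    rw [← hC1] at h1
    have h2 : 0 < UU 1 := Num2Aux.UU_pos 1
    have h3 := uu_pos 1
    push_cast at h1
    by_contra hcon
    push Not at hcon
    nlinarith
  obtain ⟨K3, hK3⟩ : ∃ K3 : ℝ, K3 = C1 * C2 * (24 * m * H) := ⟨_, rfl⟩
  have hK30 : 0 < K3 := by
    rw [hK3]
    positivity
  obtain ⟨c, hc⟩ : ∃ c : ℝ, c = cK * c5 / (324 ^ 2 * CB ^ 2 * K3 ^ 2) := ⟨_, rfl⟩
  have hc0 : 0 < c := by
    rw [hc]
    positivity
  refine ⟨c, κ, max kK (max t0 5), hc0, hκ, fun k D e hk hD1 hD2 hI hP => ?_⟩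
  have hkK : kK ≤ k := (le_max_left _ _).trans hk
  have hkt : t0 ≤ k := (le_max_left _ _).trans ((le_max_right _ _).trans hk)
  have hk5 : 5 ≤ k := (le_max_right _ _).trans ((le_max_right _ _).trans hk)
  have hU : 0 < Ub k := Ub_pos k
  -- numbers
  obtain ⟨X, hX⟩ : ∃ X : ℤ, X = m * D := ⟨_, rfl⟩
  have hR32 : (32 : ℤ) ≤ 2 ^ k := by
    calc (32 : ℤ) = 2 ^ 5 := by norm_num
      _ ≤ 2 ^ k := pow_le_pow_right₀ (by norm_num) hk5
  have hHz : (8192 : ℤ) ≤ H := by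
    have : 8192 ≤ H := hH13
    exact_mod_cast this
  have hHR : 8192 * (2 : ℤ) ^ k ≤ H * 2 ^ k := mul_le_mul_of_nonneg_right hHz (by linarith)
  have hD147 : 147456 * (2 : ℤ) ^ k ≤ D := by linarith
  have hmz : (9 : ℤ) ≤ m := by exact_mod_cast hm
  have hX9 : 9 * D ≤ X := by
    rw [hX]
    exact mul_le_mul_of_nonneg_right hmz (by linarith)
  have hX36 : X ≤ 36 * (m * (H * 2 ^ k)) := by
    have h5 : m * D ≤ m * (36 * (H * 2 ^ k)) := mul_le_mul_of_nonneg_left hD2 (by linarith)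
    rw [← hX] at h5
    linarith
  obtain ⟨h, hh⟩ : ∃ h : ℕ, h = ((2 * X - 4 * 2 ^ k) / 3).toNat := ⟨_, rfl⟩
  have hh1 : 3 * (h : ℤ) ≤ 2 * X - 4 * 2 ^ k := by omega
  have hh2 : 2 * X - 4 * 2 ^ k < 3 * (h : ℤ) + 3 := by omega
  have hhR : 2 ^ k ≤ h := by
    have : (2 : ℤ) ^ k ≤ h := by linarith
    exact_mod_cast this
  have hht : t0 ≤ h := hkt.trans (Nat.lt_two_pow_self.le.trans hhR)
  have hhK : h ≤ 24 * m * H * 2 ^ k := by
    have : (h : ℤ) ≤ 24 * m * H * 2 ^ k := by linarith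
    exact_mod_cast this
  -- the points
  obtain ⟨M, hM⟩ : ∃ M : ℕ, M = (2 ^ k - 6) / 9 := ⟨_, rfl⟩
  have hRn : 32 ≤ 2 ^ k := by exact_mod_cast hR32
  have hM1 : 9 * M + 6 ≤ 2 ^ k := by omega
  have hM2 : 2 ^ k ≤ 18 * M := by omega
  have hM1z : 9 * (M : ℤ) + 6 ≤ 2 ^ k := by exact_mod_cast hM1
  have hM2r : (2 : ℝ) ^ k ≤ 18 * M := by exact_mod_cast hM2
  obtain ⟨S, hS1, hS2⟩ := TSum.disc_pts (pv e D m) 0 M
  obtain ⟨F, hF1, hF2⟩ := TSum.disc_pts (pv e D (m + (4 + m))) 2 M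
  -- the middle parts
  obtain ⟨KK, hKK⟩ : ∃ KK : Set (List Bool), KK = {Q | TubeQ (fun j => e (m + j)) D (2 ^ (k + 9)) 4 (en Q) Q ∧
    ((hn (en Q - pv (fun j => e (m + j)) D 4) : ℤ) : ℝ) ≤ 1 * 2 ^ k} := ⟨_, rfl⟩
  have hk9 : (2 : ℤ) ^ (k + 9) = 512 * 2 ^ k := by ring
  have g1 : ENNReal.ofReal (cK * Ub k) ≤ gf KK := by
    rw [hKK]
    refine (hT k 4 D (fun j => e (m + j)) hkK hD1 hD2 (by norm_num) le_rfl (ipg_mid hI) ?_).2 _ ?_
    · exact hP.up0 le_rfl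
    · rw [sub_self, show hn (0 : Pt) = 0 by decide]
      positivity
  have g2 : (S.card : ℝ≥0∞) * gf KK ≤ ∑' x : KcS e m D (1024 * 2 ^ k) (2 * 2 ^ k), wE (x : Pt × List Bool).2 := by
    refine sum_kc S KK fun s hs K hK => ?_
    rw [hKK] at hK
    obtain ⟨k1, k2⟩ := hK
    obtain ⟨s1, s2⟩ := hS2 s hs
    have k3 : hn (en K - pv (fun j => e (m + j)) D 4) ≤ 2 ^ k := by
      rw [one_mul] at k2
      exact_mod_cast k2
    exact kc_of s1 (s2.trans hM1z) hP k1 k3 (by rw [hk9]; linarith) (by linarith)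
  obtain ⟨σ, hσ⟩ : ∃ σ : ℝ≥0∞, σ = ∑' y : KmS e m D (1024 * 2 ^ k) (2 * 2 ^ k), wE (y : Pt × List Bool).2 := ⟨_, rfl⟩
  have g3 := sum_min (e := e) (m := m) (D := D) (w := 1024 * 2 ^ k) (ρ := 2 * 2 ^ k)
  rw [← hσ] at g3
  have g4 : gf (BLr (2 * 2 ^ k)) ≤ ENNReal.ofReal (CB * Ub k) := (bl_mass k).trans (ENNReal.ofReal_le_ofReal (hB k))
  have g5 : ENNReal.ofReal (M ^ 2 * cK / (CB ^ 2 * Ub k)) ≤ σ := by
    have q1 : ENNReal.ofReal (M ^ 2 * (cK * Ub k)) ≤ ENNReal.ofReal (CB ^ 2 * Ub k ^ 2) * σ := by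
      calc ENNReal.ofReal (M ^ 2 * (cK * Ub k)) = (S.card : ℝ≥0∞) * ENNReal.ofReal (cK * Ub k) := by
            rw [hS1, ENNReal.ofReal_mul (by positivity), ← ENNReal.ofReal_natCast]
            push_cast
            rfl
        _ ≤ (S.card : ℝ≥0∞) * gf KK := mul_le_mul' le_rfl g1
        _ ≤ _ := g2
        _ ≤ _ := g3
        _ ≤ ENNReal.ofReal (CB * Ub k) * (ENNReal.ofReal (CB * Ub k) * σ) := mul_le_mul' g4 (mul_le_mul' g4 le_rfl)
        _ = ENNReal.ofReal (CB ^ 2 * Ub k ^ 2) * σ := by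
            rw [← mul_assoc, ← ENNReal.ofReal_mul (by positivity)]
            congr 2
            ring
    have q2 := ENNReal.div_le_of_le_mul' q1
    rw [← ENNReal.ofReal_div_of_pos (by positivity)] at q2
    refine le_trans (le_of_eq ?_) q2
    congr 1
    field_simp
  -- the legs
  obtain ⟨VP, hVP⟩ : ∃ VP : Pt → Pt → List Bool → Set (List Bool × List Bool), VP = fun z s K =>
    VP2 η κ h (ip s up / 3).toNat (ip (s + en K - z) up / 3).toNat (h / 16) ((ip (s + en K) up / 3).toNat - h / 16) s.1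
      (s + en K - z).1 := ⟨_, rfl⟩
  have num : ∀ z ∈ F, ∀ s K, Km e m D (1024 * 2 ^ k) (2 * 2 ^ k) s K → ∃ h1 h2 m' : ℕ, ip s up = 3 * h1 ∧
      ip (s + en K - z) up = 3 * h2 ∧ ip (s + en K) up = 3 * m' + 2 ∧
      VP z s K = VP2 η κ h h1 h2 (h / 16) (m' - h / 16) s.1 (s + en K - z).1 := by
    intro z hz s K hK
    obtain ⟨z1, z2⟩ := hF2 z hz
    obtain ⟨b1, b2, b3⟩ := kc_s hP hK.1
    obtain ⟨b4, b5⟩ := kc_t hP hK.1
    obtain ⟨b6, b7, b8⟩ := kc_u hP hK.1 (z2.trans hM1z)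
    rw [← hX] at b1 b2 b4 b5 b6 b7
    obtain ⟨q1, hq1⟩ := ip_cl s (c := 0) (by rw [hK.1.cl]; rfl)
    obtain ⟨q2, hq2⟩ := ip_cl (s + en K) (c := 2) (by rw [kc_cl hK.1]; rfl)
    obtain ⟨q3, hq3⟩ := ip_cl (s + en K - z) (c := 0) (by rw [HexObs.cl_sub, kc_cl hK.1, z1, sub_self]; rfl)
    push_cast at hq1 hq2 hq3
    have hX0 : 1000000 * (2 : ℤ) ^ k ≤ X := by linarith
    refine ⟨q1.toNat, q3.toNat, q2.toNat, by omega, by omega, by omega, ?_⟩
    rw [hVP]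
    show VP2 η κ h (ip s up / 3).toNat (ip (s + en K - z) up / 3).toNat (h / 16) ((ip (s + en K) up / 3).toNat - h / 16) s.1
      (s + en K - z).1 = _
    rw [show (ip s up / 3).toNat = q1.toNat by omega, show (ip (s + en K - z) up / 3).toNat = q3.toNat by omega,
      show (ip (s + en K) up / 3).toNat = q2.toNat by omega]
  have g6 := hp_sum hI hP (by omega : 1 ≤ m) (by linarith : (0 : ℤ) ≤ 2 * 2 ^ k) (by linarith :
    2 * (1024 * 2 ^ k) + 6 * (2 * 2 ^ k) < D) F VP (ENNReal.ofReal (c5 * (uu h / h) ^ 2)) {X | TubeQ e D (2 ^ (k + 11))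
      (m + (4 + m)) (en X) X ∧ hn (en X - pv e D (m + (4 + m))) ≤ 2 ^ k ∧ RichQ up κ k (WinQ e D (2 ^ (k + 11)) 0 (m + 1)) X}
    (fun z hz s K hK => by
      obtain ⟨h1, h2, m', e1, e2, e3, e4⟩ := num z hz s K hK
      obtain ⟨z1, z2⟩ := hF2 z hz
      obtain ⟨b1, b2, b3⟩ := kc_s hP hK.1
      obtain ⟨b4, b5⟩ := kc_t hP hK.1
      obtain ⟨b6, b7, b8⟩ := kc_u hP hK.1 (z2.trans hM1z)
      rw [← hX] at b1 b2 b4 b5 b6 b7
      rw [e1] at b1 b2
      rw [e2] at b6 b7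
      rw [e3] at b4 b5
      have hX0 : 1000000 * (2 : ℤ) ^ k ≤ X := by linarith
      rw [e4]
      have ez : ip (s + en K) up - ip z up = 3 * h2 := by
        rw [← ip_sub_left]
        exact e2
      have hz1 := abs_le.1 (ip_hn (z - pv e D (m + (4 + m))))
      have hz0 : ip (pv e D (m + (4 + m))) up = 0 := by
        rw [show m + (4 + m) = m + 3 + (m + 1) by omega, lev_dn hP D le_rfl]
        push_cast
        ring
      rw [ip_sub_left, hz0, sub_zero] at hz1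
      have hzz := z2.trans hM1z
      refine hV h h1 h2 (h / 16) (m' - h / 16) s.1 (s + en K - z).1 hht ?_ ?_ ?_ ?_ ?_ ?_ ?_ (ev_of e1) (ev_of e2) ?_ ?_
      · have : (h : ℤ) ≤ h1 := by linarith
        exact_mod_cast this
      · have : (h1 : ℤ) ≤ 2 * h := by linarith
        exact_mod_cast this
      · have : (h : ℤ) ≤ h2 := by linarith
        exact_mod_cast this
      · have : (h2 : ℤ) ≤ 2 * h := by linarith
        exact_mod_cast this
      · omega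
      · rw [e3] at ez
        omega
      · rw [e3] at ez
        omega
      · have : 3 * |s.1| ≤ 3 * h := by linarith
        push_cast
        linarith
      · have : 3 * |(s + en K - z).1| ≤ 3 * h := by linarith
        push_cast
        linarith)
    (fun z hz s K hK p hp => by
      obtain ⟨h1, h2, m', e1, e2, e3, e4⟩ := num z hz s K hK
      obtain ⟨z1, z2⟩ := hF2 z hz
      rw [e4] at hp
      rw [hX] at hh1 hh2
      obtain ⟨r1, r2, r3, r4, r5⟩ := xx_mem hI hP hm hH13 (by omega) hD1 hD2 hη hκ hh1 hh2 (z2.trans hM1z) hK e1 e2 e3 hp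
      refine ⟨r1, r2, r3, ?_, ?_, r5⟩
      · rw [r3]
        exact r4
      · rw [r3]
        exact z2.trans hM1z)
  rw [← hσ] at g6
  refine le_trans ?_ g6
  -- the numbers
  have f1 : ENNReal.ofReal (M ^ 2 * (M ^ 2 * cK / (CB ^ 2 * Ub k) * (c5 * (uu h / h) ^ 2))) ≤
      (F.card : ℝ≥0∞) * (σ * ENNReal.ofReal (c5 * (uu h / h) ^ 2)) := by
    rw [ENNReal.ofReal_mul (by positivity), ENNReal.ofReal_mul (by positivity), hF1]
    refine mul_le_mul' (le_of_eq ?_) (mul_le_mul' g5 le_rfl)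
    rw [← ENNReal.ofReal_natCast]
    push_cast
    rfl
  refine le_trans (ENNReal.ofReal_le_ofReal ?_) f1
  have hR0 : (0 : ℝ) < 2 ^ k := by positivity
  have f2 : Ub k ≤ C1 * (2 ^ k * uu (2 ^ k)) := by
    have := UU_le_mul (T := 2 ^ k) Nat.one_le_two_pow
    rw [← hC1] at this
    push_cast at this
    exact this
  have f3 : uu (2 ^ k) ≤ C2 * uu h := hcomp (2 ^ k) h Nat.one_le_two_pow hhK
  have hh0 : (0 : ℝ) < h := by
    have : 0 < h := lt_of_lt_of_le (by positivity) hhR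
    exact_mod_cast this
  have hhKr : (h : ℝ) ≤ 24 * m * H * 2 ^ k := by exact_mod_cast hhK
  have hu := uu_pos h
  have f4 : Ub k / (K3 * (2 ^ k) ^ 2) ≤ uu h / h := by
    rw [div_le_div_iff₀ (by positivity) hh0]
    calc Ub k * h ≤ C1 * (2 ^ k * (C2 * uu h)) * (24 * m * H * 2 ^ k) := by
          refine mul_le_mul ?_ hhKr hh0.le (by positivity)
          exact f2.trans (mul_le_mul_of_nonneg_left (mul_le_mul_of_nonneg_left f3 hR0.le) hC10.le)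
      _ = uu h * (K3 * (2 ^ k) ^ 2) := by
          rw [hK3]
          ring
  have f5 : (Ub k / (K3 * (2 ^ k) ^ 2)) ^ 2 ≤ (uu h / h) ^ 2 := pow_le_pow_left₀ (by positivity) f4 2
  have f6 : ((2 : ℝ) ^ k) ^ 2 / 324 ≤ M ^ 2 := by
    have : ((2 : ℝ) ^ k) ^ 2 ≤ (18 * M) ^ 2 := pow_le_pow_left₀ hR0.le hM2r 2
    rw [div_le_iff₀ (by norm_num)]
    linarith
  calc c * Ub k = ((2 : ℝ) ^ k) ^ 2 / 324 * (((2 : ℝ) ^ k) ^ 2 / 324 * cK / (CB ^ 2 * Ub k) *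
        (c5 * (Ub k / (K3 * (2 ^ k) ^ 2)) ^ 2)) := by
        rw [hc]
        field_simp
    _ ≤ _ := by gcongr

end HP

/-- **the hairpin**, the literal of ART/HairDefs -/
theorem hairpinS (n : ℕ) (hn : 10 ≤ n) : HairpinS n := by
  obtain ⟨m, rfl⟩ : ∃ m, n = m + 1 := ⟨n - 1, by omega⟩
  obtain ⟨H0, hH0, h⟩ := HP.hairpin m (by omega)
  refine ⟨H0, hH0, fun H hH => ?_⟩
  obtain ⟨c, κ, k0, hc, hκ, h⟩ := h H hH
  refine ⟨c, κ, k0, hc, hκ, fun k D e hk hD1 hD2 hI hP => ?_⟩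
  have e1 : 2 * (m + 1) + 2 = m + (4 + m) := by omega
  rw [e1] at hI ⊢
  exact h k D e hk hD1 hD2 hI ⟨hP.ups, hP.cap, hP.dns⟩

end ART

end HexObs
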