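import Pool.Agent.ARM2.TubeApp
import Pool.Agent.ARM.PlcS

/-!
# ART, block C-b (helper69): the hairpin, deterministic part

Path: m + 1 steps up, two steps over the cap, m + 1 steps down. A word along the hairpin is cut into `V1 ++ (K ++ V2)`: V1
along the first m steps, K along the steps m .. m + 3, V2 along the last m steps. `Kc`: the middle part K in its place s (the
end of V1); `Km`: no bridge can be removed at the two ends of K. `dc_uniq`: the decomposition with minimal K is unique.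
-/

set_option autoImplicit false

namespace HexObs

namespace ART

namespace HP

open Finset TIW TS SDN ARM ARM.G3 AR TIP

variable {e e' : ℕ → Pt} {m r : ℕ} {D w w' ρ : ℤ} {s z : Pt} {K Q V V1 V2 V1' V2' K' Z : List Bool}

/-- **the hairpin**: n steps up, cap, n steps down -/
structure HPt (e : ℕ → Pt) (n : ℕ) : Prop where
  ups : ∀ i, i < n → e i = up
  cap : (e n = rotR up ∧ e (n + 1) = rotR (rotR up)) ∨ (e n = rotL up ∧ e (n + 1) = rotL (rotL up))
  dns : ∀ i, i < n → e (n + 2 + i) = -up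

/-- the middle part K in the place s, absolute nodes -/
structure Kc (e : ℕ → Pt) (m : ℕ) (D w ρ : ℤ) (s : Pt) (K : List Bool) : Prop where
  cl : cl s = 0
  hs : hn (s - pv e D m) ≤ ρ
  ht : hn (s + en K - pv e D (m + 4)) ≤ ρ
  sa : K ∈ SA
  de : de K = -up
  rg : ∀ i, i ≤ K.length → ∃ j, m ≤ j ∧ j < m + 4 ∧ NS (pv e D j) (e j) D w (s + vx oo up K i)
  st : ∀ i, 1 ≤ i → i ≤ K.length → 0 < ip (vx oo up K i) up ∨
    ∃ j, m + 1 ≤ j ∧ j < m + 4 ∧ NS (pv e D j) (e j) D w (s + vx oo up K i)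
  bd : ∀ i, i ≤ K.length → ip (vx oo up K i - en K) (-up) ≤ 0 ∨
    ∃ j, m ≤ j ∧ j < m + 3 ∧ NS (pv e D j) (e j) D w (s + vx oo up K i)

/-- two-sided minimal middle parts -/
def Km (e : ℕ → Pt) (m : ℕ) (D w ρ : ℤ) (s : Pt) (K : List Bool) : Prop :=
  Kc e m D w ρ s K ∧ ∀ Z1 I Z2 : List Bool, K = Z1 ++ (I ++ Z2) → Z1 ∈ BU → Z2 ∈ BU → Kc e m D w ρ (s + en Z1) I →
    Z1 = [] ∧ Z2 = []

/-! ### 1. Tubes -/

lemma tube_mono (hw : w ≤ w') (h : TubeQ e D w r z Q) : TubeQ e D w' r z Q := by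
  refine ⟨h.sa, h.en, h.de, fun i hi => ?_, fun i h1 hi => ?_, fun i hi => ?_⟩
  · obtain ⟨j, g1, g2⟩ := h.rg i hi
    exact ⟨j, g1, NS.mono g2 hw⟩
  · rcases h.st i h1 hi with g | ⟨j, g0, g1, g2⟩
    · exact Or.inl g
    · exact Or.inr ⟨j, g0, g1, NS.mono g2 hw⟩
  · rcases h.bd i hi with g | ⟨j, g1, g2⟩
    · exact Or.inl g
    · exact Or.inr ⟨j, g1, NS.mono g2 hw⟩

lemma ps_congr {j : ℕ} (he : ∀ i, i < j → e i = e' i) : ps e j = ps e' j :=
  sum_congr rfl fun i hi => he i (mem_range.1 hi)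

lemma nr_congr {j : ℕ} {y : Pt} (he : ∀ i, i ≤ j → e i = e' i) (h : Nr e D w j y) : Nr e' D w j y := by
  unfold Nr at h ⊢
  have e1 : pv e D j = pv e' D j := by
    unfold pv
    rw [ps_congr fun i hi => he i hi.le]
  rw [e1, he j le_rfl] at h
  exact h

lemma tube_congr (hr : 1 ≤ r) (he : ∀ i, i < r → e i = e' i) (h : TubeQ e D w r z Q) : TubeQ e' D w r z Q := by
  refine ⟨h.sa, h.en, ?_, fun i hi => ?_, fun i h1 hi => ?_, fun i hi => ?_⟩
  · rw [← he (r - 1) (by omega)]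
    exact h.de
  · obtain ⟨j, g1, g2⟩ := h.rg i hi
    exact ⟨j, g1, nr_congr (fun a ha => he a (by omega)) g2⟩
  · rcases h.st i h1 hi with g | ⟨j, g0, g1, g2⟩
    · exact Or.inl g
    · exact Or.inr ⟨j, g0, g1, nr_congr (fun a ha => he a (by omega)) g2⟩
  · rcases h.bd i hi with g | ⟨j, g1, g2⟩
    · rw [he (r - 1) (by omega)] at g
      exact Or.inl g
    · exact Or.inr ⟨j, g1, nr_congr (fun a ha => he a (by omega)) g2⟩

lemma nx_bu {p : ℕ} (hV : V ∈ BU) : nx V e p = fun j => e (p + j) := by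
  funext j
  unfold nx rc
  rw [rt_bu hV, show conjE (1, 0) = (1, 0) by decide, mulE_one]

lemma pv_nx_bu {p j : ℕ} (hV : V ∈ BU) : pv (nx V e p) D j = pv e D (p + j) - pv e D p := by
  rw [← rt_pv V e D p j, rt_bu hV, mulE_one]

lemma vx_bu (hV : V ∈ BU) (A : List Bool) (i : ℕ) : vx oo up (V ++ A) (V.length + i) = en V + vx oo up A i := by
  rw [vx_app, rt_bu hV, mulE_one]

/-! ### 2. The middle part as a tube -/

lemma HPt.up0 (h : HPt e (m + 1)) {i : ℕ} (hi : i ≤ m) : e i = up := h.ups i (by omega)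

lemma HPt.dn (h : HPt e (m + 1)) {i : ℕ} (hi : i ≤ m) : e (m + 3 + i) = -up := by
  have := h.dns i (by omega)
  rwa [show m + 1 + 2 + i = m + 3 + i by omega] at this

/-- the middle part is a tube in the frame of its start -/
lemma Kc.tube (hP : HPt e (m + 1)) (hV : V ∈ BU) (h : Kc e m D w ρ (en V) K) :
    TubeQ (nx V e m) D (w + ρ) 4 (en K) K := by
  have key : ∀ {j' : ℕ} {y : Pt}, NS (pv e D (m + j')) (e (m + j')) D w (en V + y) → Nr (nx V e m) D (w + ρ) j' y := by
    intro j' y hy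
    unfold Nr
    rw [pv_nx_bu hV, nx_bu hV]
    refine NS_shift hy ?_
    have e1 : y - (pv e D (m + j') - pv e D m) - (en V + y - pv e D (m + j')) = -(en V - pv e D m) := by abel
    rw [e1, hn_neg]
    exact h.hs
  refine ⟨h.sa, rfl, ?_, fun i hi => ?_, fun i h1 hi => ?_, fun i hi => ?_⟩
  · rw [nx_bu hV, h.de]
    exact (hP.dn (i := 0) (by omega)).symm
  · obtain ⟨j, g1, g2, g3⟩ := h.rg i hi
    obtain ⟨j', rfl⟩ : ∃ j', j = m + j' := ⟨j - m, by omega⟩
    exact ⟨j', by omega, key g3⟩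
  · rcases h.st i h1 hi with g | ⟨j, g1, g2, g3⟩
    · exact Or.inl g
    · obtain ⟨j', rfl⟩ : ∃ j', j = m + j' := ⟨j - m, by omega⟩
      exact Or.inr ⟨j', by omega, by omega, key g3⟩
  · rcases h.bd i hi with g | ⟨j, g1, g2, g3⟩
    · left
      have e1 : nx V e m (4 - 1) = -up := by
        rw [nx_bu hV]
        exact hP.dn (i := 0) (by omega)
      rw [e1]
      exact g
    · obtain ⟨j', rfl⟩ : ∃ j', j = m + j' := ⟨j - m, by omega⟩
      exact Or.inr ⟨j', by omega, key g3⟩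


/-- a tube along the four steps of the middle, put at s, is a middle part -/
lemma kc_of {v a : ℤ} (hcl : cl s = 0) (hs : hn (s - pv e D m) ≤ v) (hP : HPt e (m + 1))
    (hK : TubeQ (fun j => e (m + j)) D w' 4 (en K) K) (hb : hn (en K - pv (fun j => e (m + j)) D 4) ≤ a) (hw : w' + v ≤ w)
    (hρ : v + a ≤ ρ) : Kc e m D w ρ s K := by
  have hv0 := (hn_nonneg _).trans hs
  have ha0 := (hn_nonneg _).trans hb
  have hpv : ∀ j', pv (fun j => e (m + j)) D j' = pv e D (m + j') - pv e D m := fun j' => by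
    unfold pv
    rw [ps_add', smul_sub]
  have key : ∀ {j' : ℕ} {y : Pt}, Nr (fun j => e (m + j)) D w' j' y →
      NS (pv e D (m + j')) (e (m + j')) D w (s + y) := by
    intro j' y hy
    unfold Nr at hy
    rw [hpv] at hy
    refine (NS_shift (v := v) hy ?_).mono hw
    have e1 : s + y - pv e D (m + j') - (y - (pv e D (m + j') - pv e D m)) = s - pv e D m := by abel
    rw [e1]
    exact hs
  have hde : e (m + 3) = -up := hP.dn (i := 0) (by omega)
  refine ⟨hcl, by linarith, ?_, hK.sa, ?_, fun i hi => ?_, fun i h1 hi => ?_, fun i hi => ?_⟩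
  · have e1 : s + en K - pv e D (m + 4) = (s - pv e D m) + (en K - pv (fun j => e (m + j)) D 4) := by
      rw [hpv]
      abel
    rw [e1]
    exact (hn_add _ _).trans ((add_le_add hs hb).trans hρ)
  · exact hK.de.trans hde
  · obtain ⟨j, g1, g2⟩ := hK.rg i hi
    exact ⟨m + j, by omega, by omega, key g2⟩
  · rcases hK.st i h1 hi with g | ⟨j, g0, g1, g2⟩
    · exact Or.inl g
    · exact Or.inr ⟨m + j, by omega, by omega, key g2⟩
  · rcases hK.bd i hi with g | ⟨j, g1, g2⟩
    · left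
      have e1 : e (m + (4 - 1)) = -up := hde
      rw [e1] at g
      exact g
    · exact Or.inr ⟨m + j, by omega, by omega, key g2⟩

/-! ### 3. The decomposition -/

/-- the parts of a word along the hairpin -/
structure Dc (e : ℕ → Pt) (m : ℕ) (D w ρ : ℤ) (V1 K V2 : List Bool) : Prop where
  v1 : V1 ∈ BU
  t1 : TubeQ e D w m (en V1) V1
  k : Kc e m D w ρ (en V1) K
  v2 : V2 ∈ BU
  t2 : TubeQ (fun _ => up) D w m (en V2) V2

lemma rc_dn {A : List Bool} (hA : de A = -up) : mulE (rc A) (-up) = up := by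
  refine mulE_inj (nrm_rt A) ?_
  rw [rt_rc, rt_up, hA]

lemma de_vk (hV : V ∈ BU) (hK : de K = -up) : de (V ++ K) = -up := by
  rw [de_app, rt_bu hV, mulE_one, hK]

lemma en_vk (hV : V ∈ BU) : en (V ++ K) = en V + en K := en_bu hV K

/-- the path of the downward leg in its own frame -/
lemma nx_dn (hP : HPt e (m + 1)) {A : List Bool} (hA : de A = -up) {j : ℕ} (hj : j < m) : up = nx A e (m + 4) j := by
  unfold nx
  rw [show m + 4 + j = m + 3 + (j + 1) by omega, hP.dn (by omega), rc_dn hA]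

section

variable (h : IPath e (m + (4 + m))) (hP : HPt e (m + 1)) (hm : 1 ≤ m) (hρ : 0 ≤ ρ) (hD : 2 * w + 6 * ρ < D)

include h hP hm hρ hD

lemma Dc.kv (hd : Dc e m D w ρ V1 K V2) :
    TubeQ (nx V1 e m) D (w + 2 * ρ) (4 + m) (en K + mulE (rt K) (en V2)) (K ++ V2) := by
  have hn1 : IPath (nx V1 e m) (4 + m) := nx_path h (by omega) (by rw [hP.up0 le_rfl, hP.up0 (by omega : m - 1 ≤ m)])
    (by rw [(BU_facts hd.v1).2.1, hP.up0 (by omega : m - 1 ≤ m)])
  have e4 : nx V1 e m 4 = -up := by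
    rw [nx_bu hd.v1]
    exact hP.dn (i := 1) (by omega)
  have e3 : nx V1 e m (4 - 1) = -up := by
    rw [nx_bu hd.v1]
    exact hP.dn (i := 0) (by omega)
  refine app hn1 (by norm_num) hm (by rw [e4, e3]) (tube_mono (by linarith) (hd.k.tube hP hd.v1)) (B := 2 * ρ) ?_
    (w' := w) ?_ (by linarith) le_rfl
  · rw [pv_nx_bu hd.v1]
    have e1 : en K - (pv e D (m + 4) - pv e D m) = (en V1 + en K - pv e D (m + 4)) - (en V1 - pv e D m) := by abel
    rw [e1]
    refine (hn_sub _ _).trans ?_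
    linarith [hd.k.ht, hd.k.hs]
  · refine tube_congr hm (fun i hi => ?_) hd.t2
    show up = nx K (nx V1 e m) 4 i
    unfold nx
    rw [rc, rc, rt_bu hd.v1, show conjE (1, 0) = (1, 0) by decide, mulE_one, show m + (4 + i) = m + 3 + (i + 1) by omega,
      hP.dn (by omega)]
    exact (rc_dn hd.k.de).symm

lemma Dc.x (hd : Dc e m D w ρ V1 K V2) :
    TubeQ e D (w + 3 * ρ) (m + (4 + m)) (en V1 + mulE (rt V1) (en K + mulE (rt K) (en V2))) (V1 ++ (K ++ V2)) := by
  refine app h hm (by omega) (by rw [hP.up0 le_rfl, hP.up0 (by omega : m - 1 ≤ m)]) (tube_mono (by linarith) hd.t1)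
    (B := ρ) hd.k.hs (hd.kv h hP hm hρ hD) (by linarith) (by linarith)

lemma Dc.vk (hd : Dc e m D w ρ V1 K V2) : TubeQ e D (w + 2 * ρ) (m + 4) (en V1 + en K) (V1 ++ K) := by
  have h4 : IPath e (m + 4) := ⟨fun i hi => h.dir i (by omega), fun _ => h.one (by omega), fun i hi => h.tur i (by omega),
    fun i j h1 h2 => h.ind i j h1 (by omega)⟩
  have h1 := app h4 hm (by norm_num) (by rw [hP.up0 le_rfl, hP.up0 (by omega : m - 1 ≤ m)])
    (tube_mono (by linarith : w ≤ w + 2 * ρ) hd.t1) (B := ρ) hd.k.hs (hd.k.tube hP hd.v1) (by linarith) (by linarith)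
  rw [rt_bu hd.v1, mulE_one] at h1
  exact h1

end

/-! ### 4. Factors of middle parts -/

/-- factors of self-avoiding words -/
lemma sa_suf {A : List Bool} (h : Z ++ A ∈ SA) : A ∈ SA := by
  refine ⟨fun _ _ _ => Set.mem_univ _, fun i j hij hj he => ?_⟩
  have h1 := h.inj (Z.length + i) (Z.length + j) (by omega) (by rw [List.length_append]; omega) (by
    rw [vx_app, vx_app, he])
  omega

/-- the common part of two overlapping middle parts -/
lemma kc_mid {K0 Z2 : List Bool} (hZ : Z ∈ BU) (h : Kc e m D w ρ s (Z ++ K0)) (h' : Kc e m D w ρ (s + en Z) (K0 ++ Z2)) :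
    Kc e m D w ρ (s + en Z) K0 := by
  have hlen : (Z ++ K0).length = Z.length + K0.length := List.length_append
  have hen : en (Z ++ K0) = en Z + en K0 := en_bu hZ K0
  have hvx : ∀ i, s + en Z + vx oo up K0 i = s + vx oo up (Z ++ K0) (Z.length + i) := fun i => by
    rw [vx_bu hZ, add_assoc]
  refine ⟨h'.cl, h'.hs, ?_, sa_suf h.sa, ?_, fun i hi => ?_, fun i h1 hi => ?_, fun i hi => ?_⟩
  · have := h.ht
    rw [hen, ← add_assoc] at this
    exact this
  · have := h.de
    rw [de_app, rt_bu hZ, mulE_one] at this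
    exact this
  · rw [hvx]
    exact h.rg _ (by omega)
  · have h2 := h'.st i h1 (by rw [List.length_append]; omega)
    rwa [vx_append (by omega)] at h2
  · have h2 := h.bd (Z.length + i) (by omega)
    rw [← hvx, vx_bu hZ, hen, add_sub_add_left_eq_sub] at h2
    exact h2

/-- **minimal decomposition** -/
lemma kc_min : ∀ (n : ℕ) (s : Pt) (K : List Bool), K.length = n → Kc e m D w ρ s K →
    ∃ Z1 I Z2 : List Bool, Z1 ∈ BU ∧ Z2 ∈ BU ∧ K = Z1 ++ (I ++ Z2) ∧ Km e m D w ρ (s + en Z1) I := by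
  intro n
  induction n using Nat.strong_induction_on with
  | _ n ih =>
    intro s K hn hP
    by_cases hm : Km e m D w ρ s K
    · refine ⟨[], K, [], TIP.nil_BU, TIP.nil_BU, by simp, ?_⟩
      have : en ([] : List Bool) = 0 := rfl
      rw [this, add_zero]
      exact hm
    · have h1 : ¬ ∀ Z1 I Z2 : List Bool, K = Z1 ++ (I ++ Z2) → Z1 ∈ BU → Z2 ∈ BU → Kc e m D w ρ (s + en Z1) I →
          Z1 = [] ∧ Z2 = [] := fun h => hm ⟨hP, h⟩
      push Not at h1
      obtain ⟨Z1, I, Z2, he, z1, z2, hI, h2⟩ := h1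
      have hlt : I.length < n := by
        have h3 := congrArg List.length he
        rw [List.length_append, List.length_append, hn] at h3
        rcases Nat.eq_zero_or_pos Z1.length with h4 | h4
        · have h5 := h2 (List.length_eq_zero_iff.1 h4)
          have h6 : 0 < Z2.length := List.length_pos_iff.2 h5
          omega
        · omega
      obtain ⟨Y1, J, Y2, y1, y2, he', hJ⟩ := ih I.length hlt (s + en Z1) I rfl hI
      refine ⟨Z1 ++ Y1, J, Y2 ++ Z2, TIP.BU_app z1 y1, TIP.BU_app y2 z2, ?_, ?_⟩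
      · rw [he, he']
        simp only [List.append_assoc]
      · rw [en_bu z1, ← add_assoc]
        exact hJ

/-- the heights of the two bridges -/
lemma kc_hgt {Z1 I Z2 : List Bool} (z1 : Z1 ∈ BU) (z2 : Z2 ∈ BU) (hK : Kc e m D w ρ s (Z1 ++ (I ++ Z2)))
    (hI : Kc e m D w ρ (s + en Z1) I) : 3 * (hgt Z1 : ℤ) ≤ 2 * ρ ∧ 3 * (hgt Z2 : ℤ) ≤ 2 * ρ := by
  constructor
  · have h1 := (BU_facts z1).2.2.1
    have h2 := ip_le_hn (en Z1) upd'
    have h3 : hn (en Z1) ≤ ρ + ρ := by
      have e1 : en Z1 = (s + en Z1 - pv e D m) - (s - pv e D m) := by abel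
      rw [e1]
      exact (hn_sub _ _).trans (add_le_add hI.hs hK.hs)
    linarith
  · have h1 := (BU_facts z2).2.2.1
    have h2 := ip_le_hn (en Z2) upd'
    have h3 : hn (en Z2) ≤ ρ + ρ := by
      rw [← hn_mulE (nrm_rt I)]
      have e0 : en (Z1 ++ (I ++ Z2)) = en Z1 + (en I + mulE (rt I) (en Z2)) := by
        rw [en_bu z1, en_app]
      have h6 := hK.ht
      rw [e0] at h6
      have e1 : mulE (rt I) (en Z2) = (s + (en Z1 + (en I + mulE (rt I) (en Z2))) - pv e D (m + 4)) -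
          (s + en Z1 + en I - pv e D (m + 4)) := by abel
      rw [e1]
      exact (hn_sub _ _).trans (add_le_add h6 hI.ht)
    linarith

/-! ### 5. Uniqueness -/

lemma pre_of {A A' X Y : List Bool} (h : A ++ X = A' ++ Y) (hl : A.length ≤ A'.length) : ∃ Z, A' = A ++ Z ∧ X = Z ++ Y := by
  have h1 : A <+: A' ++ Y := ⟨X, h⟩
  obtain ⟨Z, hZ⟩ := List.prefix_of_prefix_length_le h1 (List.prefix_append A' Y) hl
  refine ⟨Z, hZ.symm, ?_⟩
  rw [← hZ, List.append_assoc] at h
  exact List.append_cancel_left h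

section

variable (h : IPath e (m + (4 + m))) (hP : HPt e (m + 1)) (hm : 1 ≤ m) (hρ : 0 ≤ ρ) (hD : 2 * w + 6 * ρ < D)

include h hP hm hρ hD

/-- the first cut -/
lemma cut_one (hd : Dc e m D w ρ V1 K V2) (hd' : Dc e m D w ρ (V1 ++ Z) K' V2') (he : K ++ V2 = Z ++ (K' ++ V2')) :
    Z ∈ BU := by
  have h1 := hd.kv h hP hm hρ hD
  rw [he] at h1
  exact (zQ h (by rw [hP.up0 le_rfl, hP.up0 (by omega : m - 1 ≤ m)]) hd.t1 hd.k.hs hd'.t1 h1 (by linarith)).1

/-- the second cut -/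
lemma cut_two (hd : Dc e m D w ρ V1 K V2) (hd' : Dc e m D w ρ V1' K' V2') (he : V1' ++ K' = (V1 ++ K) ++ Z)
    (hV : V2 = Z ++ V2') : Z ∈ BU := by
  have h4 : IPath e (m + 4 + m) := by
    rw [add_assoc]
    exact h
  have hde := de_vk hd.v1 hd.k.de
  have a1 := hd.vk h hP hm hρ hD
  have a2 := hd'.vk h hP hm hρ hD
  rw [he] at a2
  have a3 : TubeQ (nx (V1 ++ K) e (m + 4)) D w m (en V2) (Z ++ V2') := by
    rw [← hV]
    exact tube_congr hm (fun i hi => nx_dn hP hde hi) hd.t2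
  refine (zQ h4 ?_ a1 (B := ρ) hd.k.ht a2 a3 (by linarith)).1
  rw [show m + 4 = m + 3 + 1 by omega, hP.dn (by omega), show m + 3 + 1 - 1 = m + 3 + 0 by omega, hP.dn (by omega)]

/-- **uniqueness of the decomposition with minimal middle part** -/
lemma dc_uniq_le (hd : Dc e m D w ρ V1 K V2) (hk : Km e m D w ρ (en V1) K) (hd' : Dc e m D w ρ V1' K' V2')
    (hk' : Km e m D w ρ (en V1') K') (he : V1 ++ (K ++ V2) = V1' ++ (K' ++ V2')) (hl : V1.length ≤ V1'.length) :
    V1 = V1' ∧ K = K' ∧ V2 = V2' := by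
  obtain ⟨Z, rfl, he1⟩ := pre_of he hl
  have hZ := cut_one h hP hm hρ hD hd hd' he1
  have hsZ : en (V1 ++ Z) = en V1 + en Z := en_bu hd.v1 Z
  rw [hsZ] at hk'
  have he2 : (V1 ++ K) ++ V2 = ((V1 ++ Z) ++ K') ++ V2' := by
    rw [List.append_assoc, he, List.append_assoc (V1 ++ Z)]
  rcases le_total (V1 ++ K).length ((V1 ++ Z) ++ K').length with hl2 | hl2
  · obtain ⟨Z2, h5, h6⟩ := pre_of he2 hl2
    have hZ2 := cut_two h hP hm hρ hD hd hd' h5 h6
    have h7 : Z ++ K' = K ++ Z2 := by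
      rw [List.append_assoc, List.append_assoc] at h5
      exact List.append_cancel_left h5
    rcases le_total Z.length K.length with hl3 | hl3
    · obtain ⟨K0, rfl, h8⟩ := pre_of h7 hl3
      rw [h8] at hk'
      have h9 := kc_mid hZ hk.1 hk'.1
      obtain ⟨z1, -⟩ := hk.2 Z K0 [] (by simp) hZ TIP.nil_BU h9
      subst z1
      have e0 : en V1 + en ([] : List Bool) = en V1 := add_zero _
      rw [e0] at hk' h9
      obtain ⟨-, z2⟩ := hk'.2 [] K0 Z2 (by simp) TIP.nil_BU hZ2 (by rw [e0]; exact h9)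
      subst z2
      refine ⟨by simp, ?_, ?_⟩
      · rw [h8]
        simp
      · rw [h6]
        simp
    · -- the end of K would be in the first leg
      exfalso
      obtain ⟨Z', h8, -⟩ := pre_of h7.symm hl3
      have h9 : vx oo up (V1 ++ Z) (V1.length + K.length) = en V1 + en K := by
        rw [vx_bu hd.v1, h8, vx_append (by omega)]
        rfl
      obtain ⟨j, g1, g2⟩ := hd'.t1.rg (V1.length + K.length) (by rw [List.length_append, h8, List.length_append]; omega)
      rw [h9] at g2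
      refine seg_ne h (i := m + 4) (j := j) (w := ρ) (w' := w) (by omega) (by omega) ?_ (x := en V1 + en K) ?_ g2
      · have := hd.k.hs
        have h10 : 0 ≤ w := by
          obtain ⟨j2, -, g4⟩ := hd.t1.rg 0 (Nat.zero_le _)
          obtain ⟨t, -, -, g5⟩ := g4
          exact (hn_nonneg _).trans g5
        linarith
      · refine ⟨0, le_rfl, ?_, ?_⟩
        · have h10 : 0 ≤ w := by
            obtain ⟨j2, -, g4⟩ := hd.t1.rg 0 (Nat.zero_le _)
            obtain ⟨t, -, -, g5⟩ := g4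
            exact (hn_nonneg _).trans g5
          linarith
        · rw [zero_smul, add_zero]
          exact hd.k.ht
  · obtain ⟨Z2, h5, h6⟩ := pre_of he2.symm hl2
    have hZ2 := cut_two h hP hm hρ hD hd' hd h5 h6
    have h7 : K = Z ++ (K' ++ Z2) := by
      rw [List.append_assoc, List.append_assoc] at h5
      exact List.append_cancel_left h5
    obtain ⟨z1, z2⟩ := hk.2 Z K' Z2 h7 hZ hZ2 hk'.1
    subst z1
    subst z2
    refine ⟨by simp, by rw [h7]; simp, by rw [h6]; simp⟩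

theorem dc_uniq (hd : Dc e m D w ρ V1 K V2) (hk : Km e m D w ρ (en V1) K) (hd' : Dc e m D w ρ V1' K' V2')
    (hk' : Km e m D w ρ (en V1') K') (he : V1 ++ (K ++ V2) = V1' ++ (K' ++ V2')) : V1 = V1' ∧ K = K' ∧ V2 = V2' := by
  rcases le_total V1.length V1'.length with hl | hl
  · exact dc_uniq_le h hP hm hρ hD hd hk hd' hk' he hl
  · obtain ⟨h1, h2, h3⟩ := dc_uniq_le h hP hm hρ hD hd' hk' hd hk he.symm hl
    exact ⟨h1.symm, h2.symm, h3.symm⟩

end

end HP

end ART

end HexObs
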