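import Pool.Agent.ART.HpA

/-!
# ART, block C-b (helper69): the hairpin, sums

* `sum_min`: the middle parts from the minimal ones; `sum_kc`: the placed middle parts from the free tubes;
* **`hp_sum`**: ends z in F, minimal middle parts (s, K), pairs of legs.
-/

set_option autoImplicit false

namespace HexObs

namespace ART

namespace HP

open Finset TIW TS SDN ARM ARM.G3 AR TIP

open scoped ENNReal

variable {e : ℕ → Pt} {m : ℕ} {D w ρ : ℤ}

/-- low bridges -/
def BLr (ρ : ℤ) : Set (List Bool) := {Z | Z ∈ BU ∧ 3 * (hgt Z : ℤ) ≤ 2 * ρ}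

/-- placed middle parts -/
def KcS (e : ℕ → Pt) (m : ℕ) (D w ρ : ℤ) : Set (Pt × List Bool) := {x | Kc e m D w ρ x.1 x.2}

/-- minimal placed middle parts -/
def KmS (e : ℕ → Pt) (m : ℕ) (D w ρ : ℤ) : Set (Pt × List Bool) := {x | Km e m D w ρ x.1 x.2}

/-- **the middle parts from the minimal ones** -/
theorem sum_min : ∑' x : KcS e m D w ρ, wE (x : Pt × List Bool).2 ≤
    gf (BLr ρ) * (gf (BLr ρ) * ∑' y : KmS e m D w ρ, wE (y : Pt × List Bool).2) := by
  classical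
  have key : ∀ x ∈ KcS e m D w ρ, ∃ Z1 I Z2 : List Bool, Z1 ∈ BU ∧ Z2 ∈ BU ∧ x.2 = Z1 ++ (I ++ Z2) ∧
      Km e m D w ρ (x.1 + en Z1) I := fun x hx => kc_min x.2.length x.1 x.2 rfl hx
  choose! f g h hf using key
  have e1 : gf (BLr ρ) * (gf (BLr ρ) * ∑' y : KmS e m D w ρ, wE (y : Pt × List Bool).2) =
      ∑' p : BLr ρ × (BLr ρ × KmS e m D w ρ), wE (p.1 : List Bool) * (wE (p.2.1 : List Bool) * wE (p.2.2 : Pt × List Bool).2) := by
    rw [ENNReal.tsum_prod']
    unfold gf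
    rw [← ENNReal.tsum_mul_right]
    refine tsum_congr fun Z1 => ?_
    show _ = ∑' b : BLr ρ × KmS e m D w ρ, wE (Z1 : List Bool) * (wE (b.1 : List Bool) * wE (b.2 : Pt × List Bool).2)
    rw [ENNReal.tsum_mul_left, ENNReal.tsum_prod', ← ENNReal.tsum_mul_right]
    congr 1
    refine tsum_congr fun Z2 => ?_
    exact (ENNReal.tsum_mul_left).symm
  rw [e1]
  have hmem : ∀ x ∈ KcS e m D w ρ, f x ∈ BLr ρ ∧ h x ∈ BLr ρ ∧ (x.1 + en (f x), g x) ∈ KmS e m D w ρ := by
    intro x hx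
    obtain ⟨z1, z2, h1, h2⟩ := hf x hx
    have hPx : Kc e m D w ρ x.1 x.2 := hx
    rw [h1] at hPx
    obtain ⟨h5, h6⟩ := kc_hgt z1 z2 hPx h2.1
    exact ⟨⟨z1, h5⟩, ⟨z2, h6⟩, h2⟩
  let φ : KcS e m D w ρ → BLr ρ × (BLr ρ × KmS e m D w ρ) := fun x =>
    (⟨f x, (hmem x x.2).1⟩, (⟨h x, (hmem x x.2).2.1⟩, ⟨((x : Pt × List Bool).1 + en (f x), g x), (hmem x x.2).2.2⟩))
  have hφ : Function.Injective φ := by
    intro x y hxy
    have a1 : f (x : Pt × List Bool) = f (y : Pt × List Bool) := congrArg (fun p => ((p.1 : BLr ρ) : List Bool)) hxy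
    have a2 : h (x : Pt × List Bool) = h (y : Pt × List Bool) := congrArg (fun p => ((p.2.1 : BLr ρ) : List Bool)) hxy
    have a3 : ((x : Pt × List Bool).1 + en (f x), g (x : Pt × List Bool)) =
        ((y : Pt × List Bool).1 + en (f y), g (y : Pt × List Bool)) :=
      congrArg (fun p => (p.2.2 : Pt × List Bool)) hxy
    rw [Prod.mk.injEq] at a3
    obtain ⟨a4, a5⟩ := a3
    apply Subtype.ext
    apply Prod.ext
    · rw [a1] at a4
      exact add_right_cancel a4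
    · rw [(hf x x.2).2.2.1, (hf y y.2).2.2.1, a1, a2, a5]
  refine le_trans (le_of_eq (tsum_congr fun x => ?_)) (ENNReal.tsum_comp_le_tsum_of_injective hφ _)
  show wE (x : Pt × List Bool).2 = wE (f x) * (wE (h x) * wE (g x))
  rw [← wE_append, ← wE_append]
  have h1 := (hf x x.2).2.2.1
  unfold wE
  rw [h1]
  simp only [List.length_append]
  congr 2
  ring

/-- **the placed middle parts from the free tubes** -/
theorem sum_kc (S : Finset Pt) (KK : Set (List Bool)) (h : ∀ s ∈ S, ∀ K ∈ KK, Kc e m D w ρ s K) :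
    (S.card : ℝ≥0∞) * gf KK ≤ ∑' x : KcS e m D w ρ, wE (x : Pt × List Bool).2 := by
  classical
  have h1 : (S.card : ℝ≥0∞) * gf KK = ∑' x : ((S : Set Pt) ×ˢ KK : Set (Pt × List Bool)), wE (x : Pt × List Bool).2 := by
    rw [tsum_subtype ((S : Set Pt) ×ˢ KK) (fun x : Pt × List Bool => wE x.2), ENNReal.tsum_prod']
    have h3 : ∀ a : Pt, ∑' w : List Bool, ((S : Set Pt) ×ˢ KK).indicator (fun x : Pt × List Bool => wE x.2) (a, w) =
        if a ∈ S then gf KK else 0 := by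
      intro a
      by_cases ha : a ∈ S
      · rw [if_pos ha, gf_ite]
        refine tsum_congr fun w => ?_
        by_cases hw : w ∈ KK
        · rw [if_pos hw, Set.indicator_of_mem]
          exact ⟨ha, hw⟩
        · rw [if_neg hw, Set.indicator_of_notMem]
          exact fun h => hw h.2
      · rw [if_neg ha, ENNReal.tsum_eq_zero]
        intro w
        rw [Set.indicator_of_notMem]
        exact fun h => ha h.1
    rw [tsum_congr h3, tsum_eq_sum (s := S) (fun a ha => if_neg ha),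
      sum_congr rfl (g := fun _ => gf KK) (fun a ha => if_pos ha), sum_const, nsmul_eq_mul]
  rw [h1]
  refine inj_sum (S := (S : Set Pt) ×ˢ KK) (T := KcS e m D w ρ) (f := fun x : Pt × List Bool => wE x.2)
    (g := fun x : Pt × List Bool => wE x.2) (fun x : Pt × List Bool => x) ?_ ?_ ?_
  · intro x hx
    exact h _ hx.1 _ hx.2
  · intro _ _ _ _ h
    exact h
  · intro _ _
    exact le_rfl

/-- **the words along the hairpin** -/
theorem hp_sum (h : IPath e (m + (4 + m))) (hP : HPt e (m + 1)) (hm : 1 ≤ m) (hρ : 0 ≤ ρ) (hD : 2 * w + 6 * ρ < D)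
    (F : Finset Pt) (VP : Pt → Pt → List Bool → Set (List Bool × List Bool)) (v : ℝ≥0∞) (XX : Set (List Bool))
    (hVP : ∀ z ∈ F, ∀ s K, Km e m D w ρ s K →
      v ≤ ∑' p : VP z s K, wE (p : List Bool × List Bool).1 * wE (p : List Bool × List Bool).2)
    (hX : ∀ z ∈ F, ∀ s K, Km e m D w ρ s K → ∀ p ∈ VP z s K, Dc e m D w ρ p.1 K p.2 ∧ en p.1 = s ∧
      en (p.1 ++ (K ++ p.2)) = z ∧ p.1 ++ (K ++ p.2) ∈ XX) :
    (F.card : ℝ≥0∞) * ((∑' y : KmS e m D w ρ, wE (y : Pt × List Bool).2) * v) ≤ gf XX := by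
  classical
  obtain ⟨T, hT⟩ : ∃ T : Set (Pt × ((Pt × List Bool) × (List Bool × List Bool))),
    T = {x | x.1 ∈ F ∧ x.2.1 ∈ KmS e m D w ρ ∧ x.2.2 ∈ VP x.1 x.2.1.1 x.2.1.2} := ⟨_, rfl⟩
  have h1 : ∑' x : T, wE (x : Pt × ((Pt × List Bool) × (List Bool × List Bool))).2.2.1 *
      (wE (x : Pt × ((Pt × List Bool) × (List Bool × List Bool))).2.1.2 *
        wE (x : Pt × ((Pt × List Bool) × (List Bool × List Bool))).2.2.2) ≤ gf XX := by
    refine inj_sum (T := XX) (f := fun x : Pt × ((Pt × List Bool) × (List Bool × List Bool)) =>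
      wE x.2.2.1 * (wE x.2.1.2 * wE x.2.2.2)) (g := wE) (fun x => x.2.2.1 ++ (x.2.1.2 ++ x.2.2.2)) ?_ ?_ ?_
    · intro x hx
      rw [hT] at hx
      exact (hX _ hx.1 _ _ hx.2.1 _ hx.2.2).2.2.2
    · rintro ⟨z, ⟨s, K⟩, ⟨V1, V2⟩⟩ hx ⟨z', ⟨s', K'⟩, ⟨V1', V2'⟩⟩ hx' he
      rw [hT] at hx hx'
      obtain ⟨a1, a2, a3⟩ := hx
      obtain ⟨b1, b2, b3⟩ := hx'
      simp only at a1 a2 a3 b1 b2 b3 he
      obtain ⟨c1, c2, c3, -⟩ := hX _ a1 _ _ a2 _ a3
      obtain ⟨d1, d2, d3, -⟩ := hX _ b1 _ _ b2 _ b3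
      simp only at c1 c2 c3 d1 d2 d3
      have a2' : Km e m D w ρ s K := a2
      have b2' : Km e m D w ρ s' K' := b2
      rw [← c2] at a2'
      rw [← d2] at b2'
      obtain ⟨q1, q2, q3⟩ := dc_uniq h hP hm hρ hD c1 a2' d1 b2' he
      subst q1
      subst q2
      subst q3
      rw [← c3, ← d3, ← c2, ← d2]
    · intro x _
      show wE x.2.2.1 * (wE x.2.1.2 * wE x.2.2.2) ≤ wE (x.2.2.1 ++ (x.2.1.2 ++ x.2.2.2))
      rw [wE_append, wE_append]
  refine le_trans ?_ h1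
  rw [tsum_subtype T (fun x : Pt × ((Pt × List Bool) × (List Bool × List Bool)) => wE x.2.2.1 * (wE x.2.1.2 * wE x.2.2.2)),
    ENNReal.tsum_prod']
  have h2 : (F.card : ℝ≥0∞) * ((∑' y : KmS e m D w ρ, wE (y : Pt × List Bool).2) * v) =
      ∑' z : Pt, if z ∈ F then (∑' y : KmS e m D w ρ, wE (y : Pt × List Bool).2) * v else 0 := by
    rw [tsum_eq_sum (s := F) (fun a ha => if_neg ha),
      sum_congr rfl (g := fun _ => (∑' y : KmS e m D w ρ, wE (y : Pt × List Bool).2) * v) (fun a ha => if_pos ha),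
      sum_const, nsmul_eq_mul]
  rw [h2]
  refine ENNReal.tsum_le_tsum fun z => ?_
  by_cases hz : z ∈ F
  · rw [if_pos hz, ENNReal.tsum_prod', ← ENNReal.tsum_mul_right,
      tsum_subtype (KmS e m D w ρ) (fun y : Pt × List Bool => wE y.2 * v)]
    refine ENNReal.tsum_le_tsum fun y => ?_
    by_cases hy : y ∈ KmS e m D w ρ
    · rw [Set.indicator_of_mem hy]
      refine (mul_le_mul' le_rfl (hVP z hz y.1 y.2 hy)).trans ?_
      rw [tsum_subtype (VP z y.1 y.2) (fun p : List Bool × List Bool => wE p.1 * wE p.2), ← ENNReal.tsum_mul_left]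
      refine ENNReal.tsum_le_tsum fun p => ?_
      by_cases hp : p ∈ VP z y.1 y.2
      · rw [Set.indicator_of_mem hp, Set.indicator_of_mem]
        · exact le_of_eq (by ring)
        · rw [hT]
          exact ⟨hz, hy, hp⟩
      · rw [Set.indicator_of_notMem hp, mul_zero]
        exact zero_le
    · rw [Set.indicator_of_notMem hy]
      exact zero_le
  · rw [if_neg hz]
    exact zero_le

end HP

end ART

end HexObs
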