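import Pool.Agent.ART.HpB

/-!
# ART, block C-b (helper69): the hairpin, levels and places
-/

set_option autoImplicit false

namespace HexObs

namespace ART

namespace HP

open Finset TIW TS SDN ARM ARM.G3 AR TIP

variable {e : ℕ → Pt} {m : ℕ} {D w ρ v : ℤ} {s z : Pt} {K : List Bool}

lemma up_up : ip up up = 2 := by decide

lemma ip_ns {c d y : Pt} {a b : ℤ} (hc : ip c up = a) (hd : ip d up = b) (h : NS c d D w y) :
    ∃ t : ℤ, 0 ≤ t ∧ t ≤ D ∧ a + t * b - w ≤ ip y up ∧ ip y up ≤ a + t * b + w := by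
  obtain ⟨t, h0, h1, h2⟩ := h
  have e1 : y = (y - (c + t • d)) + (c + t • d) := by abel
  have h3 := ip_le_hn (y - (c + t • d)) upd'
  have h4 := neg_hn_le_ip (y - (c + t • d)) upd'
  have e2 : ip y up = ip (y - (c + t • d)) up + (a + t * b) := by
    conv_lhs => rw [e1]
    rw [ip_add_left, ip_add_left, ip_smul, hc, hd]
  exact ⟨t, h0, h1, by rw [e2]; linarith, by rw [e2]; linarith⟩

/-- the upward column -/
lemma pv_up (hP : HPt e (m + 1)) (D : ℤ) : ∀ j : ℕ, j ≤ m + 1 → pv e D j = (D * j) • up := by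
  intro j
  induction j with
  | zero =>
    intro _
    unfold pv ps
    simp
  | succ j ih =>
    intro hj
    rw [pv_succ, ih (by omega), hP.ups j (by omega), ← add_smul]
    congr 1
    push_cast
    ring

lemma lev_up (hP : HPt e (m + 1)) (D : ℤ) {j : ℕ} (hj : j ≤ m + 1) : ip (pv e D j) up = 2 * (j * D) := by
  rw [pv_up hP D j hj, ip_smul, up_up]
  ring

lemma lev_c1 (hP : HPt e (m + 1)) (D : ℤ) : ip (pv e D (m + 2)) up = 2 * ((m + 1 : ℕ) * D) + D := by
  have h1 : ip (e (m + 1)) up = 1 := by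
    rcases hP.cap with ⟨h, -⟩ | ⟨h, -⟩ <;> rw [h] <;> decide
  rw [pv_succ, ip_add_left, lev_up hP D le_rfl, ip_smul, h1, mul_one]

lemma lev_c2 (hP : HPt e (m + 1)) (D : ℤ) : ip (pv e D (m + 3)) up = 2 * ((m + 1 : ℕ) * D) := by
  have h1 : ip (e (m + 2)) up = -1 := by
    rcases hP.cap with ⟨-, h⟩ | ⟨-, h⟩ <;> rw [show m + 2 = m + 1 + 1 by omega, h] <;> decide
  rw [pv_succ, ip_add_left, lev_c1 hP D, ip_smul, h1]
  ring

/-- the downward column -/
lemma pv_dn (hP : HPt e (m + 1)) (D : ℤ) : ∀ i : ℕ, i ≤ m + 1 → pv e D (m + 3 + i) = pv e D (m + 3) - (D * i) • up := by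
  intro i
  induction i with
  | zero =>
    intro _
    simp
  | succ i ih =>
    intro hj
    rw [← add_assoc, pv_succ, ih (by omega), hP.dn (by omega)]
    have e1 : D • (-up : Pt) = -(D • up) := smul_neg _ _
    have e2 : (D * ((i + 1 : ℕ) : ℤ)) • up = (D * (i : ℤ)) • up + D • up := by
      rw [← add_smul]
      congr 1
      push_cast
      ring
    rw [e1, e2]
    abel

lemma lev_dn (hP : HPt e (m + 1)) (D : ℤ) {i : ℕ} (hi : i ≤ m + 1) :
    ip (pv e D (m + 3 + i)) up = 2 * (((m + 1 : ℕ) - i : ℤ) * D) := by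
  rw [pv_dn hP D i hi, ip_sub_left, lev_c2 hP D, ip_smul, up_up]
  ring

/-- the middle part is above the columns -/
lemma kc_low (hP : HPt e (m + 1)) (hD : 0 ≤ D) (h : Kc e m D w ρ s K) {i : ℕ} (hi : i ≤ K.length) :
    2 * (m * D) - w ≤ ip (s + vx oo up K i) up := by
  obtain ⟨j, h1, h2, h3⟩ := h.rg i hi
  have hj : j = m ∨ j = m + 1 ∨ j = m + 2 ∨ j = m + 3 := by omega
  have hmD : (0 : ℤ) ≤ m * D := mul_nonneg (Int.natCast_nonneg _) hD
  rcases hj with rfl | rfl | rfl | rfl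
  · obtain ⟨t, a1, a2, a3, -⟩ := ip_ns (lev_up hP D (by omega)) (show ip (e j) up = 2 by
      rw [hP.up0 le_rfl]; exact up_up) h3
    linarith
  · obtain ⟨t, a1, a2, a3, -⟩ := ip_ns (lev_up hP D le_rfl) (show ip (e (m + 1)) up = 1 by
      rcases hP.cap with ⟨h, -⟩ | ⟨h, -⟩ <;> rw [h] <;> decide) h3
    push_cast at a3
    linarith
  · obtain ⟨t, a1, a2, a3, -⟩ := ip_ns (lev_c1 hP D) (show ip (e (m + 2)) up = -1 by
      rcases hP.cap with ⟨-, h⟩ | ⟨-, h⟩ <;> rw [show m + 2 = m + 1 + 1 by omega, h] <;> decide) h3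
    push_cast at a3
    linarith
  · obtain ⟨t, a1, a2, a3, -⟩ := ip_ns (lev_c2 hP D) (show ip (e (m + 3)) up = -2 by
      rw [show m + 3 = m + 3 + 0 by omega, hP.dn (by omega)]; decide) h3
    push_cast at a3
    linarith

lemma x_le (p : Pt) : 3 * |p.1| ≤ 2 * hn p := by
  have h1 := Lt_le upd' p
  have h2 : Lt up p = 3 * p.1 := by
    simp only [Lt, ip, rotR, rotL, up]
    ring
  rw [h2, abs_mul, abs_of_pos (by norm_num : (0 : ℤ) < 3)] at h1
  exact h1

lemma ip_hn (p : Pt) : |ip p up| ≤ hn p := by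
  rw [abs_le]
  exact ⟨neg_hn_le_ip p upd', ip_le_hn p upd'⟩

/-- the start of the middle part -/
lemma kc_s (hP : HPt e (m + 1)) (h : Kc e m D w ρ s K) :
    2 * (m * D) - ρ ≤ ip s up ∧ ip s up ≤ 2 * (m * D) + ρ ∧ 3 * |s.1| ≤ 2 * ρ := by
  have h1 := abs_le.1 (ip_hn (s - pv e D m))
  have h2 := x_le (s - pv e D m)
  have h3 := h.hs
  rw [ip_sub_left, lev_up hP D (by omega)] at h1
  have e1 : (s - pv e D m).1 = s.1 := by
    rw [pv_up hP D m (by omega)]
    simp [up]
  rw [e1] at h2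
  refine ⟨by linarith, by linarith, by linarith⟩

/-- the end of the middle part -/
lemma kc_t (hP : HPt e (m + 1)) (h : Kc e m D w ρ s K) :
    2 * (m * D) - ρ ≤ ip (s + en K) up ∧ ip (s + en K) up ≤ 2 * (m * D) + ρ := by
  have h1 := abs_le.1 (ip_hn (s + en K - pv e D (m + 4)))
  have h3 := h.ht
  rw [ip_sub_left, show m + 4 = m + 3 + 1 by omega, lev_dn hP D (by omega)] at h1
  rw [show m + 4 = m + 3 + 1 by omega] at h3
  push_cast at h1
  constructor <;> linarith

lemma kc_cl (h : Kc e m D w ρ s K) : cl (s + en K) = 2 := by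
  have h1 : ¬ Even K.length := by
    intro h2
    have h3 := cl_de K
    rw [if_pos h2, h.de] at h3
    revert h3
    decide
  rw [HexObs.cl_add, h.cl, cl_en, if_neg h1, zero_add]

/-- the displacement of the downward leg, in its own frame -/
lemma kc_u (hP : HPt e (m + 1)) (h : Kc e m D w ρ s K) (hz : hn (z - pv e D (m + (4 + m))) ≤ v) :
    2 * (m * D) - (ρ + v) ≤ ip (s + en K - z) up ∧ ip (s + en K - z) up ≤ 2 * (m * D) + (ρ + v) ∧
      3 * |(s + en K - z).1| ≤ 2 * (ρ + v) := by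
  have e0 : pv e D (m + 4) - pv e D (m + (4 + m)) = (D * m) • up := by
    rw [show m + 4 = m + 3 + 1 by omega, show m + (4 + m) = m + 3 + (m + 1) by omega, pv_dn hP D _ (by omega),
      pv_dn hP D _ le_rfl]
    have e2 : (D * ((m + 1 : ℕ) : ℤ)) • up = (D * (1 : ℕ)) • up + (D * (m : ℤ)) • up := by
      rw [← add_smul]
      congr 1
      push_cast
      ring
    rw [e2]
    abel
  have h0 : hn (s + en K - z - (D * m) • up) ≤ ρ + v := by
    have e1 : s + en K - z - (D * (m : ℤ)) • up = (s + en K - pv e D (m + 4)) - (z - pv e D (m + (4 + m))) := by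
      rw [← e0]
      abel
    rw [e1]
    exact (hn_sub _ _).trans (add_le_add h.ht hz)
  have h1 := abs_le.1 (ip_hn (s + en K - z - (D * (m : ℤ)) • up))
  have h2 := x_le (s + en K - z - (D * (m : ℤ)) • up)
  rw [ip_sub_left, ip_smul, up_up] at h1
  have e1 : (s + en K - z - (D * (m : ℤ)) • up).1 = (s + en K - z).1 := by
    simp [up]
  rw [e1] at h2
  have e3 : D * (m : ℤ) * 2 = 2 * (m * D) := by ring
  rw [e3] at h1
  refine ⟨by linarith, by linarith, by linarith⟩

lemma ip_cl (p : Pt) {c : ℕ} (h : cl p = (c : ZMod 3)) : ∃ q : ℤ, ip p up = 3 * q + c := by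
  have h1 := ip_mod p up
  have e2 : cl up = 2 := by decide
  have e3 : -((c : ZMod 3) * 2) = c := by
    have h3 : (3 : ZMod 3) = 0 := by decide
    linear_combination (-(c : ZMod 3)) * h3
  rw [h, e2, e3] at h1
  have h2 : (((ip p up - c : ℤ) : ℤ) : ZMod 3) = 0 := by
    push_cast
    rw [h1, sub_self]
  obtain ⟨q, hq⟩ := (ZMod.intCast_zmod_eq_zero_iff_dvd _ 3).1 h2
  refine ⟨q, ?_⟩
  push_cast at hq
  linarith

lemma ev_of {p : Pt} {h : ℕ} (hp : ip p up = 3 * h) : Even (p.1 - (h : ℤ)) := by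
  have h4 : 2 * p.2 + p.1 = 3 * (h : ℤ) := by
    rw [← hp]
    simp only [ip, up]
    ring
  exact ⟨h - p.2, by linarith⟩

lemma endb_of {p : Pt} {h : ℕ} {V : List Bool} (hp : ip p up = 3 * h) (hV : V ∈ RP.EndB h p.1) :
    V ∈ Brd h ∧ en V = p := by
  have h5 := TPF.EndB_ZB hp hV
  exact ⟨hV.1, h5.2⟩

end HP

end ART

end HexObs
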