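import Pool.Agent.POL.Tube
import Pool.Agent.GLow.Alpha

/-!
ART, block C-b (helper69): two vertical tubes with many common cut rows.

`Tb η h x`: bridges of height `h` from the origin to the lateral position `x` that stay within `η h` of the segment between
the two positions. `CCv h V V'`: the heights in `[h / 4, h / 2]` which are cuts of both bridges. `vpair`: the pairs of such
tubes with at least `κ √h` common cuts have mass at least `c (uu h / h) ^ 2`.
-/

set_option autoImplicit false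

namespace HexObs

namespace ART

open Finset RP BAR

open scoped ENNReal

/-- bridges of height `h` to the lateral position `x`, in a tube of width `η h` -/
def Tb (η : ℝ) (h : ℕ) (x : ℤ) : Set (List Bool) :=
  {b | b ∈ EndB h x ∧ ∀ i, i ≤ b.length → ((min 0 x : ℤ) : ℝ) - η * h ≤ lat b i ∧
    (lat b i : ℝ) ≤ ((max 0 x : ℤ) : ℝ) + η * h}

open Classical in
/-- the common cuts at the heights from `h / 4` to `h / 2` -/
noncomputable def CCv (h : ℕ) (V V' : List Bool) : Finset ℕ := (Icc (h / 4) (h / 2)).filter fun t => HCut V t ∧ HCut V' t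

/-- the pairs with many common cuts -/
def VP (η κ : ℝ) (h : ℕ) (x x' : ℤ) : Set (List Bool × List Bool) :=
  {p | p.1 ∈ Tb η h x ∧ p.2 ∈ Tb η h x' ∧ κ * Real.sqrt h ≤ ((CCv h p.1 p.2).card : ℝ)}

namespace VPx

open OneMark

/-- lower parts -/
def Aw (η : ℝ) (t : ℕ) : Set (List Bool) := {a | a ∈ Brd t ∧ ∀ j, j ≤ a.length → |(lat a j : ℝ)| ≤ η / 4 * t}

/-- upper parts -/
def Bw (η : ℝ) (h t : ℕ) (x : ℤ) : Set (List Bool) :=
  {b | b ∈ Brd (h - t) ∧ ∀ i, i ≤ b.length → ((min 0 x : ℤ) : ℝ) - 3 * η / 4 * h ≤ lat b i ∧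
    (lat b i : ℝ) ≤ ((max 0 x : ℤ) : ℝ) + 3 * η / 4 * h}

lemma gf_Brd' (n : ℕ) : gf (Brd n) = ENNReal.ofReal (uu n) := by
  rw [gf_Brd]
  exact CuLogAux.bt_eq n

lemma mk_Tb {η : ℝ} (hη : 0 < η) {h t : ℕ} {x : ℤ} (ht : t ≤ h) {w : List Bool}
    (hw : Mk (Aw η t) (Bw η h t x) x w) : w ∈ Tb η h x ∧ HCut w t := by
  obtain ⟨a, ⟨ha, ha2⟩, b, ⟨hb, hb2⟩, hx, rfl⟩ := hw
  have hd := (mem_Brd.1 ha).2.2.1
  have hth : (t : ℝ) ≤ h := by exact_mod_cast ht
  have hAw : ∀ j, j ≤ a.length → |(lat a j : ℝ)| ≤ η / 4 * h := fun j hj =>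
    (ha2 j hj).trans (mul_le_mul_of_nonneg_left hth (by positivity))
  have hmin : ((min 0 x : ℤ) : ℝ) ≤ 0 := by exact_mod_cast min_le_left (0 : ℤ) x
  have hmax : (0 : ℝ) ≤ ((max 0 x : ℤ) : ℝ) := by exact_mod_cast le_max_left (0 : ℤ) x
  have hηh : 0 ≤ η * h := by positivity
  refine ⟨⟨⟨?_, ?_⟩, ?_⟩, ⟨a, b, ha, pos_Brd hb, rfl⟩⟩
  · have := Brd_append ha hb
    rwa [Nat.add_sub_cancel' ht] at this
  · rw [latE_cat hd]
    exact hx
  · intro i hi
    rcases Nat.lt_or_ge a.length i with h2 | h2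
    · obtain ⟨j, rfl⟩ : ∃ j, i = a.length + j := ⟨i - a.length, by omega⟩
      rw [List.length_append] at hi
      have e1 : lat (a ++ b) (a.length + j) = lat a a.length + lat b j := lat_cat hd j
      rw [e1]
      obtain ⟨h3, h4⟩ := hb2 j (by omega)
      have h5 := abs_le.1 (hAw a.length le_rfl)
      push_cast
      push_cast at h3 h4 hmin hmax
      constructor <;> linarith [h5.1, h5.2]
    · have e1 : lat (a ++ b) i = lat a i := by
        unfold lat
        rw [vx_append (by omega)]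
      rw [e1]
      have h5 := abs_le.1 (hAw i h2)
      constructor <;> linarith [h5.1, h5.2]

/-- the mass of the tubes with a cut at the height t -/
lemma one_low (R : ℕ) {η : ℝ} (hη : 0 < η) (hη1 : η ≤ 1) : ∃ (c : ℝ) (t0 : ℕ), 0 < c ∧ ∀ (h : ℕ) (x : ℤ), t0 ≤ h →
    Even (x - h) → |x| ≤ R * h → ∀ t ∈ Icc (h / 4) (h / 2),
      ENNReal.ofReal (c * (uu h ^ 2 / h)) ≤ conv2 (Aw η t) (Bw η h t x) x := by
  obtain ⟨c1, t1, hc1, htube⟩ := POL.tube_low (w := η / 4) (by positivity) (by linarith)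
  obtain ⟨c2, t2, hc2, hloc⟩ := localTube (2 * R + 2) (η := η / 2) (by positivity)
  refine ⟨c1 * c2, 4 * t1 + 4 * t2 + 8, by positivity, fun h x hh hev hx t ht => ?_⟩
  rw [Finset.mem_Icc] at ht
  have ht1 : t1 ≤ t := by omega
  have ht2 : t2 ≤ h - t := by omega
  have hth : t ≤ h := by omega
  have hhr : (8 : ℝ) ≤ h := by exact_mod_cast (by omega : 8 ≤ h)
  have hthr : (t : ℝ) ≤ h := by exact_mod_cast hth
  have hsub : ((h - t : ℕ) : ℝ) = h - t := by
    rw [Nat.cast_sub hth]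
  have hhalf : (h : ℝ) ≤ 2 * ((h - t : ℕ) : ℝ) := by
    have : h ≤ 2 * (h - t) := by omega
    exact_mod_cast this
  have hpos : (0 : ℝ) < ((h - t : ℕ) : ℝ) := by linarith
  have huh := uu_pos h
  have hA : ENNReal.ofReal (c1 * uu h) ≤ gf (Aw η t) := by
    refine le_trans (ENNReal.ofReal_le_ofReal ?_) (htube t ht1)
    exact mul_le_mul_of_nonneg_left (uu_anti hth) hc1.le
  have hδ : ∀ a ∈ Aw η t, ENNReal.ofReal (c2 * (uu h / h)) ≤ gf {b | b ∈ Bw η h t x ∧ latE b = x - latE a} := by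
    rintro a ⟨ha, ha2⟩
    have hae : |((latE a : ℤ) : ℝ)| ≤ η / 4 * h :=
      (ha2 a.length le_rfl).trans (mul_le_mul_of_nonneg_left hthr (by positivity))
    have hae' := abs_le.1 hae
    have hp : Even (x - latE a - ((h - t : ℕ) : ℤ)) := by
      have h2 := latE_even ha
      have h3 : x - latE a - ((h - t : ℕ) : ℤ) = (x - h) - (latE a - t) := by
        rw [Nat.cast_sub hth]
        ring
      rw [h3]
      exact hev.sub h2
    have hy : |x - latE a| ≤ ((2 * R + 2 : ℕ) : ℤ) * ((h - t : ℕ) : ℤ) := by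
      have h3 : |((x - latE a : ℤ) : ℝ)| ≤ (2 * R + 2) * ((h - t : ℕ) : ℝ) := by
        have h4 : |((x : ℤ) : ℝ)| ≤ R * h := by exact_mod_cast hx
        have h5 : |((x - latE a : ℤ) : ℝ)| ≤ R * h + η / 4 * h := by
          push_cast
          exact (abs_sub _ _).trans (add_le_add h4 hae)
        have h6 : (R : ℝ) * h ≤ R * (2 * ((h - t : ℕ) : ℝ)) := mul_le_mul_of_nonneg_left hhalf (Nat.cast_nonneg _)
        have h7 : η / 4 * h ≤ 1 * h := mul_le_mul_of_nonneg_right (by linarith) (by linarith)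
        linarith
      have h8 : ((|x - latE a| : ℤ) : ℝ) ≤ (((2 * R + 2 : ℕ) : ℤ) * ((h - t : ℕ) : ℤ) : ℤ) := by
        push_cast at h3 ⊢
        exact h3
      exact_mod_cast h8
    refine le_trans ?_ ((hloc (h - t) (x - latE a) ht2 hp hy).trans (gf_mono ?_))
    · apply ENNReal.ofReal_le_ofReal
      refine mul_le_mul_of_nonneg_left ?_ hc2.le
      have h3 : uu h ≤ uu (h - t) := uu_anti (Nat.sub_le _ _)
      have h4 : ((h - t : ℕ) : ℝ) ≤ h := by rw [hsub]; linarith [(Nat.cast_nonneg t : (0 : ℝ) ≤ t)]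
      exact div_le_div₀ (uu_pos _).le h3 hpos h4
    · rintro b ⟨⟨hb1, hb2⟩, hb3⟩
      refine ⟨⟨hb1, fun i hi => ?_⟩, hb2⟩
      obtain ⟨h3, h4⟩ := hb3 i hi
      have h5 : ((min 0 x : ℤ) : ℝ) - η / 4 * h ≤ ((min 0 (x - latE a) : ℤ) : ℝ) := by
        push_cast
        rcases min_cases (0 : ℝ) ((x : ℝ) - latE a) with ⟨h6, _⟩ | ⟨h6, _⟩
        · rw [h6]
          have := min_le_left (0 : ℝ) (x : ℝ)
          nlinarith
        · rw [h6]
          have := min_le_right (0 : ℝ) (x : ℝ)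
          linarith [hae'.2]
      have h6 : ((max 0 (x - latE a) : ℤ) : ℝ) ≤ ((max 0 x : ℤ) : ℝ) + η / 4 * h := by
        push_cast
        rcases max_cases (0 : ℝ) ((x : ℝ) - latE a) with ⟨h6, _⟩ | ⟨h6, _⟩
        · rw [h6]
          have := le_max_left (0 : ℝ) (x : ℝ)
          nlinarith
        · rw [h6]
          have := le_max_right (0 : ℝ) (x : ℝ)
          linarith [hae'.1]
      have h7 : η / 2 * ((h - t : ℕ) : ℝ) ≤ η / 2 * h := by
        refine mul_le_mul_of_nonneg_left ?_ (by positivity)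
        rw [hsub]
        linarith [(Nat.cast_nonneg t : (0 : ℝ) ≤ t)]
      constructor
      · linarith
      · linarith
  have h1 := LocalT.conv2_ge hδ
  refine le_trans ?_ ((mul_le_mul_left hA _).trans h1)
  rw [← ENNReal.ofReal_mul (by positivity)]
  apply ENNReal.ofReal_le_ofReal
  have : c1 * uu h * (c2 * (uu h / h)) = c1 * c2 * (uu h ^ 2 / h) := by ring
  rw [this]

lemma sum_sq : ∃ C : ℝ, 0 < C ∧ ∀ h : ℕ, 1 ≤ h → ∑ j ∈ range (h + 1), uu j ^ 2 ≤ C * (h * uu h ^ 2) := by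
  obtain ⟨C1, hC1, hup⟩ := GLow.uu_up
  obtain ⟨c1, hc1, hlow⟩ := GLow.uu_low
  have hu0 := uu_pos 0
  refine ⟨(uu 0 ^ 2 + 2 * C1 ^ 2) / c1 ^ 2, by positivity, fun h hh => ?_⟩
  have hhr : (1 : ℝ) ≤ h := by exact_mod_cast hh
  have hsq : ∀ j : ℕ, 1 ≤ j → ((j : ℝ) ^ (-(1 / 4) : ℝ)) ^ 2 = 1 / Real.sqrt j := by
    intro j hj
    have hj0 : (0 : ℝ) < j := by exact_mod_cast hj
    rw [← Real.rpow_natCast, ← Real.rpow_mul hj0.le, Real.sqrt_eq_rpow, eq_div_iff (by positivity),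
      ← Real.rpow_add hj0]
    norm_num
  have hs1 : 1 ≤ Real.sqrt h := by
    rw [Real.one_le_sqrt]
    exact hhr
  have hlow' : c1 ^ 2 * Real.sqrt h ≤ h * uu h ^ 2 := by
    have h1 := hlow h hh
    have h2 : (c1 * (h : ℝ) ^ (-(1 / 4) : ℝ)) ^ 2 ≤ uu h ^ 2 :=
      pow_le_pow_left₀ (by positivity) h1 2
    rw [mul_pow, hsq h hh] at h2
    have h3 : Real.sqrt h * Real.sqrt h = h := Real.mul_self_sqrt (by linarith)
    calc c1 ^ 2 * Real.sqrt h = h * (c1 ^ 2 * (1 / Real.sqrt h)) := by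
          field_simp
          linear_combination (1 : ℝ) * h3
      _ ≤ h * uu h ^ 2 := mul_le_mul_of_nonneg_left h2 (by linarith)
  have hsum : ∀ n : ℕ, ∑ j ∈ range (n + 1), uu j ^ 2 ≤ uu 0 ^ 2 + 2 * C1 ^ 2 * Real.sqrt n := by
    intro n
    induction n with
    | zero => simp
    | succ n ih =>
      rw [Finset.sum_range_succ]
      have h1 := hup (n + 1) (by omega)
      have h2 : uu (n + 1) ^ 2 ≤ (C1 * ((n + 1 : ℕ) : ℝ) ^ (-(1 / 4) : ℝ)) ^ 2 :=
        pow_le_pow_left₀ (uu_pos _).le h1 2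
      rw [mul_pow, hsq (n + 1) (by omega)] at h2
      have h3 : 1 / Real.sqrt ((n + 1 : ℕ) : ℝ) ≤ 2 * (Real.sqrt ((n + 1 : ℕ) : ℝ) - Real.sqrt n) := by
        have hn0 : (0 : ℝ) ≤ n := Nat.cast_nonneg n
        have e1 := Real.sq_sqrt hn0
        have e2 : Real.sqrt ((n + 1 : ℕ) : ℝ) ^ 2 = n + 1 := by
          rw [Real.sq_sqrt (by positivity)]
          push_cast
          ring
        have p1 : 0 ≤ Real.sqrt n := Real.sqrt_nonneg _
        have p2 : 0 < Real.sqrt ((n + 1 : ℕ) : ℝ) := Real.sqrt_pos.2 (by positivity)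
        rw [div_le_iff₀ p2]
        nlinarith [sq_nonneg (Real.sqrt ((n + 1 : ℕ) : ℝ) - Real.sqrt n)]
      have h4 : C1 ^ 2 * (1 / Real.sqrt ((n + 1 : ℕ) : ℝ)) ≤ C1 ^ 2 * (2 * (Real.sqrt ((n + 1 : ℕ) : ℝ) - Real.sqrt n)) :=
        mul_le_mul_of_nonneg_left h3 (by positivity)
      linarith
  refine (hsum h).trans ?_
  have h5 : uu 0 ^ 2 + 2 * C1 ^ 2 * Real.sqrt h ≤ (uu 0 ^ 2 + 2 * C1 ^ 2) * Real.sqrt h := by
    nlinarith [sq_nonneg (uu 0)]
  refine h5.trans ?_
  rw [div_mul_eq_mul_div, le_div_iff₀ (by positivity)]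
  calc (uu 0 ^ 2 + 2 * C1 ^ 2) * Real.sqrt h * c1 ^ 2 = (uu 0 ^ 2 + 2 * C1 ^ 2) * (c1 ^ 2 * Real.sqrt h) := by ring
    _ ≤ _ := mul_le_mul_of_nonneg_left hlow' (by positivity)

/-- `c √h ≤ h uu h ^ 2` -/
lemma sqrt_le : ∃ c : ℝ, 0 < c ∧ ∀ h : ℕ, 1 ≤ h → c * Real.sqrt h ≤ h * uu h ^ 2 := by
  obtain ⟨c1, hc1, hlow⟩ := GLow.uu_low
  refine ⟨c1 ^ 2, by positivity, fun h hh => ?_⟩
  have hhr : (1 : ℝ) ≤ h := by exact_mod_cast hh
  have hj0 : (0 : ℝ) < h := by linarith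
  have hsq : ((h : ℝ) ^ (-(1 / 4) : ℝ)) ^ 2 = 1 / Real.sqrt h := by
    rw [← Real.rpow_natCast, ← Real.rpow_mul hj0.le, Real.sqrt_eq_rpow, eq_div_iff (by positivity),
      ← Real.rpow_add hj0]
    norm_num
  have h2 : (c1 * (h : ℝ) ^ (-(1 / 4) : ℝ)) ^ 2 ≤ uu h ^ 2 := pow_le_pow_left₀ (by positivity) (hlow h hh) 2
  rw [mul_pow, hsq] at h2
  have h3 : Real.sqrt h * Real.sqrt h = h := Real.mul_self_sqrt (by linarith)
  have hs : 0 < Real.sqrt h := Real.sqrt_pos.2 hj0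
  calc c1 ^ 2 * Real.sqrt h = h * (c1 ^ 2 * (1 / Real.sqrt h)) := by
        field_simp
        linear_combination (1 : ℝ) * h3
    _ ≤ h * uu h ^ 2 := mul_le_mul_of_nonneg_left h2 (by linarith)

/-- two cuts of one bridge -/
lemma term_le : ∃ C : ℝ, 0 < C ∧ ∀ (h : ℕ) (z : ℤ), 8 ≤ h → ∀ t ∈ Icc (h / 4) (h / 2), ∀ t' ∈ Icc (h / 4) (h / 2),
    t ≤ t' → conv3 (Brd t) (Brd (t' - t)) (Brd (h - t')) z ≤ ENNReal.ofReal (C * (uu h ^ 2 / h) * uu (t' - t)) := by
  obtain ⟨C6, hC6, hconv⟩ := conv3_le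
  obtain ⟨D, hD, hquart⟩ := Local0.uu_quarter
  refine ⟨C6 * D ^ 2 * 2, by positivity, fun h z ht c hc c' hc' _ => ?_⟩
  rw [Finset.mem_Icc] at hc hc'
  have tr : (8 : ℝ) ≤ h := by exact_mod_cast ht
  have hut := uu_pos h
  have hq := hquart h (by omega)
  refine (hconv c (c' - c) (h - c') z (by omega)).trans (ENNReal.ofReal_le_ofReal ?_)
  have h1 : uu c ≤ D * uu h := (uu_anti hc.1).trans hq
  have h2 : uu (h - c') ≤ D * uu h := (uu_anti (by omega)).trans hq
  have h3 : (h : ℝ) ≤ 2 * ((h - c' : ℕ) : ℝ) := by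
    have : h ≤ 2 * (h - c') := by omega
    exact_mod_cast this
  have h4 : (0 : ℝ) < ((h - c' : ℕ) : ℝ) := by linarith
  have h5 : uu (h - c') / ((h - c' : ℕ) : ℝ) ≤ D * uu h * (2 / h) := by
    rw [div_le_iff₀ h4]
    have h6 : 1 ≤ 2 / (h : ℝ) * ((h - c' : ℕ) : ℝ) := by
      rw [div_mul_eq_mul_div, le_div_iff₀ (by linarith)]
      linarith
    have h7 : 0 ≤ D * uu h := by positivity
    calc uu (h - c') ≤ D * uu h * 1 := by linarith
      _ ≤ D * uu h * (2 / (h : ℝ) * ((h - c' : ℕ) : ℝ)) := mul_le_mul_of_nonneg_left h6 h7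
      _ = D * uu h * (2 / h) * ((h - c' : ℕ) : ℝ) := by ring
  have h8 := uu_pos (c' - c)
  have h9 := uu_pos c
  calc C6 * (uu c * uu (c' - c) * (uu (h - c') / ((h - c' : ℕ) : ℝ)))
      ≤ C6 * (D * uu h * uu (c' - c) * (D * uu h * (2 / h))) := by
        have := uu_pos (h - c')
        gcongr
    _ = C6 * D ^ 2 * 2 * (uu h ^ 2 / h) * uu (c' - c) := by ring

/-- product of two sums -/
lemma prod_sum (f g : List Bool → ℝ≥0∞) :
    ∑' p : List Bool × List Bool, f p.1 * g p.2 = (∑' a, f a) * ∑' b, g b := by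
  rw [ENNReal.tsum_prod']
  simp_rw [ENNReal.tsum_mul_left, ENNReal.tsum_mul_right]

/-- the number of pairs of cuts -/
lemma second69 : ∃ C : ℝ, 0 < C ∧ ∀ (h : ℕ) (z z' : ℤ), 8 ≤ h → ∑ t ∈ Icc (h / 4) (h / 2),
    ∑ t' ∈ (Icc (h / 4) (h / 2)).filter (fun t' => t ≤ t'), conv3 (Brd t) (Brd (t' - t)) (Brd (h - t')) z *
      conv3 (Brd t) (Brd (t' - t)) (Brd (h - t')) z' ≤ ENNReal.ofReal (C * uu h ^ 6) := by
  obtain ⟨C1, hC1, hterm⟩ := term_le
  obtain ⟨C2, hC2, hsum⟩ := sum_sq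
  refine ⟨C1 ^ 2 * C2, by positivity, fun h z z' hh => ?_⟩
  have tr : (8 : ℝ) ≤ h := by exact_mod_cast hh
  have hut := uu_pos h
  obtain ⟨A, hA⟩ : ∃ A : ℝ, A = (C1 * (uu h ^ 2 / h)) ^ 2 := ⟨_, rfl⟩
  have hA0 : 0 ≤ A := by rw [hA]; positivity
  have hin : ∀ t ∈ Icc (h / 4) (h / 2), ∑ t' ∈ (Icc (h / 4) (h / 2)).filter (fun t' => t ≤ t'),
      conv3 (Brd t) (Brd (t' - t)) (Brd (h - t')) z * conv3 (Brd t) (Brd (t' - t)) (Brd (h - t')) z' ≤
        ENNReal.ofReal (A * (C2 * (h * uu h ^ 2))) := by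
    intro t ht
    calc ∑ t' ∈ (Icc (h / 4) (h / 2)).filter (fun t' => t ≤ t'),
        conv3 (Brd t) (Brd (t' - t)) (Brd (h - t')) z * conv3 (Brd t) (Brd (t' - t)) (Brd (h - t')) z'
        ≤ ∑ t' ∈ (Icc (h / 4) (h / 2)).filter (fun t' => t ≤ t'), ENNReal.ofReal (A * uu (t' - t) ^ 2) := by
          refine Finset.sum_le_sum fun t' ht' => ?_
          rw [Finset.mem_filter] at ht'
          refine (mul_le_mul' (hterm h z hh t ht t' ht'.1 ht'.2) (hterm h z' hh t ht t' ht'.1 ht'.2)).trans ?_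
          have h0 : 0 ≤ C1 * (uu h ^ 2 / h) * uu (t' - t) := mul_nonneg (by positivity) (uu_pos _).le
          rw [← ENNReal.ofReal_mul h0]
          apply ENNReal.ofReal_le_ofReal
          rw [hA]
          apply le_of_eq
          ring
      _ = ENNReal.ofReal (∑ t' ∈ (Icc (h / 4) (h / 2)).filter (fun t' => t ≤ t'), A * uu (t' - t) ^ 2) :=
          (ENNReal.ofReal_sum_of_nonneg (fun t' _ => by positivity)).symm
      _ ≤ _ := by
          apply ENNReal.ofReal_le_ofReal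
          rw [← Finset.mul_sum]
          refine mul_le_mul_of_nonneg_left ?_ hA0
          refine le_trans ?_ (hsum h (by omega))
          have h1 : ∑ c' ∈ (Icc (h / 4) (h / 2)).filter (fun c' => t ≤ c'), uu (c' - t) ^ 2 =
              ∑ j ∈ ((Icc (h / 4) (h / 2)).filter (fun c' => t ≤ c')).image (fun c' => c' - t), uu j ^ 2 := by
            rw [Finset.sum_image]
            intro a ha b hb hab
            have ha' := (Finset.mem_filter.1 ha).2
            have hb' := (Finset.mem_filter.1 hb).2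
            simp only at hab
            omega
          rw [h1]
          refine Finset.sum_le_sum_of_subset_of_nonneg ?_ (fun j _ _ => by positivity)
          intro j hj
          rw [Finset.mem_image] at hj
          obtain ⟨c', hc', rfl⟩ := hj
          rw [Finset.mem_filter, Finset.mem_Icc] at hc'
          rw [Finset.mem_range]
          omega
  refine (Finset.sum_le_sum hin).trans ?_
  rw [Finset.sum_const, nsmul_eq_mul, ← ENNReal.ofReal_natCast, ← ENNReal.ofReal_mul (Nat.cast_nonneg _)]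
  refine ENNReal.ofReal_le_ofReal ?_
  have h1 : ((Icc (h / 4) (h / 2)).card : ℝ) ≤ h := by
    rw [Nat.card_Icc]
    have : h / 2 + 1 - h / 4 ≤ h := by omega
    exact_mod_cast this
  calc ((Icc (h / 4) (h / 2)).card : ℝ) * (A * (C2 * (h * uu h ^ 2)))
      ≤ h * (A * (C2 * (h * uu h ^ 2))) := mul_le_mul_of_nonneg_right h1 (by positivity)
    _ = C1 ^ 2 * C2 * uu h ^ 6 := by
        rw [hA]
        field_simp

end VPx

open VPx OneMark in
/-- **two vertical tubes with many common cut rows** -/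
theorem vpair (R : ℕ) {η : ℝ} (hη : 0 < η) : ∃ (c κ : ℝ) (t0 : ℕ), 0 < c ∧ 0 < κ ∧ ∀ (h : ℕ) (x x' : ℤ), t0 ≤ h →
    Even (x - h) → Even (x' - h) → |x| ≤ R * h → |x'| ≤ R * h →
      ENNReal.ofReal (c * (uu h / h) ^ 2) ≤ ∑' p : VP η κ h x x', wE (p : List Bool × List Bool).1 *
        wE (p : List Bool × List Bool).2 := by
  classical
  -- reduction to η ≤ 1
  suffices H : ∀ η : ℝ, 0 < η → η ≤ 1 → ∃ (c κ : ℝ) (t0 : ℕ), 0 < c ∧ 0 < κ ∧ ∀ (h : ℕ) (x x' : ℤ), t0 ≤ h →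
      Even (x - h) → Even (x' - h) → |x| ≤ R * h → |x'| ≤ R * h →
        ENNReal.ofReal (c * (uu h / h) ^ 2) ≤ ∑' p : List Bool × List Bool,
          (if p ∈ VP η κ h x x' then 1 else 0) * (wE p.1 * wE p.2) by
    obtain ⟨c, κ, t0, hc, hκ, hmain⟩ := H (min η 1) (lt_min hη one_pos) (min_le_right _ _)
    refine ⟨c, κ, t0, hc, hκ, fun h x x' h1 h2 h3 h4 h5 => (hmain h x x' h1 h2 h3 h4 h5).trans ?_⟩
    rw [tsum_subtype (VP η κ h x x') (fun p : List Bool × List Bool => wE p.1 * wE p.2)]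
    refine ENNReal.tsum_le_tsum fun p => ?_
    by_cases hp : p ∈ VP (min η 1) κ h x x'
    · have hp' : p ∈ VP η κ h x x' := by
        have hTb : ∀ (y : ℤ) (b : List Bool), b ∈ Tb (min η 1) h y → b ∈ Tb η h y := by
          rintro y b ⟨h6, h7⟩
          refine ⟨h6, fun i hi => ?_⟩
          have h8 := h7 i hi
          have h9 : min η 1 * h ≤ η * h := mul_le_mul_of_nonneg_right (min_le_left _ _) (Nat.cast_nonneg _)
          exact ⟨by linarith [h8.1], by linarith [h8.2]⟩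
        exact ⟨hTb _ _ hp.1, hTb _ _ hp.2.1, hp.2.2⟩
      rw [if_pos hp, one_mul, Set.indicator_of_mem hp']
    · rw [if_neg hp, zero_mul]
      exact zero_le
  intro η hη hη1
  obtain ⟨c1, t1, hc1, hlow⟩ := one_low R hη hη1
  obtain ⟨C2, hC2, hend⟩ := anti_end
  obtain ⟨C5, hC5, hsec⟩ := second69
  obtain ⟨c3, hc3, hsqrt⟩ := sqrt_le
  obtain ⟨a1, ha1⟩ : ∃ a1 : ℝ, a1 = c1 ^ 2 / 4 := ⟨_, rfl⟩
  have ha1' : 0 < a1 := by rw [ha1]; positivity
  obtain ⟨κ, hκ⟩ : ∃ κ : ℝ, κ = a1 * c3 / (4 * C2 ^ 2) := ⟨_, rfl⟩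
  have hκ0 : 0 < κ := by rw [hκ]; positivity
  refine ⟨a1 ^ 2 / (16 * C5), κ, max t1 8, by positivity, hκ0, fun h x x' hh he he' hx hx' => ?_⟩
  have hh1 : t1 ≤ h := (le_max_left _ _).trans hh
  have hh8 : 8 ≤ h := (le_max_right _ _).trans hh
  have hhr : (8 : ℝ) ≤ h := by exact_mod_cast hh8
  have hu := uu_pos h
  set I : Finset ℕ := Icc (h / 4) (h / 2) with hI
  have hIle : ∀ t ∈ I, t ≤ h := by
    intro t ht
    rw [hI, Finset.mem_Icc] at ht
    omega
  obtain ⟨E, hE⟩ : ∃ E : ℝ, E = a1 * uu h ^ 4 / h := ⟨_, rfl⟩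
  have hE0 : 0 < E := by rw [hE]; positivity
  obtain ⟨l, hl⟩ : ∃ l : ℝ, l = 8 * C5 * (h * uu h ^ 2) / a1 := ⟨_, rfl⟩
  have hl0 : 0 < l := by rw [hl]; positivity
  set χ : ℕ → List Bool → ℝ≥0∞ := fun t w => chi (Aw η t) (Bw η h t x) x w with hχ
  set χ' : ℕ → List Bool → ℝ≥0∞ := fun t w => chi (Aw η t) (Bw η h t x') x' w with hχ'
  have hχ01 : ∀ t w, χ t w = 0 ∨ χ t w = 1 := fun t w => by
    by_cases h1 : Mk (Aw η t) (Bw η h t x) x w
    · exact Or.inr (chi_pos h1)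
    · exact Or.inl (chi_neg h1)
  have hχ01' : ∀ t w, χ' t w = 0 ∨ χ' t w = 1 := fun t w => by
    by_cases h1 : Mk (Aw η t) (Bw η h t x') x' w
    · exact Or.inr (chi_pos h1)
    · exact Or.inl (chi_neg h1)
  have hχm : ∀ t ∈ I, ∀ w, χ t w = 1 → w ∈ Tb η h x ∧ HCut w t := by
    intro t ht w h1
    refine mk_Tb hη (hIle t ht) ?_
    by_contra hm
    rw [hχ] at h1
    simp only [chi_neg hm] at h1
    exact zero_ne_one h1
  have hχm' : ∀ t ∈ I, ∀ w, χ' t w = 1 → w ∈ Tb η h x' ∧ HCut w t := by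
    intro t ht w h1
    refine mk_Tb hη (hIle t ht) ?_
    by_contra hm
    rw [hχ'] at h1
    simp only [chi_neg hm] at h1
    exact zero_ne_one h1
  have hAB : ∀ (y : ℤ), ∀ t ∈ I, Aw η t ⊆ Brd t ∧ Bw η h t y ⊆ Brd (h - t) :=
    fun y t _ => ⟨fun a ha => ha.1, fun b hb => hb.1⟩
  -- first moment
  have hfirst : ENNReal.ofReal E ≤ ∑' p : List Bool × List Bool, (∑ t ∈ I, χ t p.1 * χ' t p.2) * (wE p.1 * wE p.2) := by
    have e1 : ∑' p : List Bool × List Bool, (∑ t ∈ I, χ t p.1 * χ' t p.2) * (wE p.1 * wE p.2) =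
        ∑ t ∈ I, (∑' w, χ t w * wE w) * ∑' w, χ' t w * wE w := by
      rw [← Finset.sum_congr rfl fun t _ => prod_sum (fun w => χ t w * wE w) (fun w => χ' t w * wE w),
        ← Summable.tsum_finsetSum (fun _ _ => ENNReal.summable)]
      refine tsum_congr fun p => ?_
      rw [Finset.sum_mul]
      refine Finset.sum_congr rfl fun t _ => ?_
      ring
    rw [e1]
    have h1 : ∀ t ∈ I, ENNReal.ofReal ((c1 * (uu h ^ 2 / h)) ^ 2) ≤ (∑' w, χ t w * wE w) * ∑' w, χ' t w * wE w := by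
      intro t ht
      have b1 := (hlow h x hh1 he hx t ht).trans (conv2_le (hAB x t ht).1 (hAB x t ht).2 x)
      have b2 := (hlow h x' hh1 he' hx' t ht).trans (conv2_le (hAB x' t ht).1 (hAB x' t ht).2 x')
      rw [sq, ENNReal.ofReal_mul (by positivity)]
      exact mul_le_mul' b1 b2
    refine le_trans ?_ (Finset.sum_le_sum h1)
    rw [Finset.sum_const, nsmul_eq_mul, ← ENNReal.ofReal_natCast, ← ENNReal.ofReal_mul (Nat.cast_nonneg _)]
    refine ENNReal.ofReal_le_ofReal ?_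
    have h3 : (h : ℝ) / 4 ≤ (I.card : ℝ) := by
      rw [hI, Nat.card_Icc, div_le_iff₀ (by norm_num)]
      have : h ≤ (h / 2 + 1 - h / 4) * 4 := by omega
      exact_mod_cast this
    calc E = h / 4 * (c1 * (uu h ^ 2 / h)) ^ 2 := by
          rw [hE, ha1]
          field_simp
      _ ≤ _ := mul_le_mul_of_nonneg_right h3 (by positivity)
  -- second moment
  have hsecond : ∑' p : List Bool × List Bool, (∑ t ∈ I, ∑ t' ∈ I.filter (fun t' => t ≤ t'),
      (χ t p.1 * χ' t p.2) * (χ t' p.1 * χ' t' p.2)) * (wE p.1 * wE p.2) ≤ ENNReal.ofReal (C5 * uu h ^ 6) := by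
    have e1 : ∑' p : List Bool × List Bool, (∑ t ∈ I, ∑ t' ∈ I.filter (fun t' => t ≤ t'),
        (χ t p.1 * χ' t p.2) * (χ t' p.1 * χ' t' p.2)) * (wE p.1 * wE p.2) =
        ∑ t ∈ I, ∑ t' ∈ I.filter (fun t' => t ≤ t'), (∑' w, χ t w * χ t' w * wE w) * ∑' w, χ' t w * χ' t' w * wE w := by
      rw [← Finset.sum_congr rfl fun t _ => Finset.sum_congr rfl fun t' _ =>
        prod_sum (fun w => χ t w * χ t' w * wE w) (fun w => χ' t w * χ' t' w * wE w)]
      rw [← Finset.sum_congr rfl fun t _ => Summable.tsum_finsetSum (fun _ _ => ENNReal.summable),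
        ← Summable.tsum_finsetSum (fun _ _ => ENNReal.summable)]
      refine tsum_congr fun p => ?_
      rw [Finset.sum_mul]
      refine Finset.sum_congr rfl fun t _ => ?_
      rw [Finset.sum_mul]
      refine Finset.sum_congr rfl fun t' _ => ?_
      ring
    rw [e1]
    refine le_trans (Finset.sum_le_sum fun t ht => Finset.sum_le_sum fun t' ht' => ?_) (hsec h x x' hh8)
    obtain ⟨h1, h2⟩ := Finset.mem_filter.1 ht'
    exact mul_le_mul' (pair_le h2 (hAB x t ht).1 (hAB x t ht).2 (hAB x t' h1).1 (hAB x t' h1).2 x)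
      (pair_le h2 (hAB x' t ht).1 (hAB x' t ht).2 (hAB x' t' h1).1 (hAB x' t' h1).2 x')
  -- total mass
  have htot : ∑' p : List Bool × List Bool, (if p.1 ∈ EndB h x ∧ p.2 ∈ EndB h x' then (1 : ℝ≥0∞) else 0) *
      (wE p.1 * wE p.2) ≤ ENNReal.ofReal ((C2 * (uu h / h)) ^ 2) := by
    have e1 : ∑' p : List Bool × List Bool, (if p.1 ∈ EndB h x ∧ p.2 ∈ EndB h x' then (1 : ℝ≥0∞) else 0) *
        (wE p.1 * wE p.2) = gf (EndB h x) * gf (EndB h x') := by
      rw [gf_ind, gf_ind, ← prod_sum]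
      refine tsum_congr fun p => ?_
      by_cases h1 : p.1 ∈ EndB h x
      · by_cases h2 : p.2 ∈ EndB h x'
        · rw [if_pos ⟨h1, h2⟩, if_pos h1, if_pos h2, one_mul]
        · rw [if_neg (fun h3 => h2 h3.2), if_neg h2, mul_zero, zero_mul]
      · rw [if_neg (fun h3 => h1 h3.1), if_neg h1, zero_mul, zero_mul]
    rw [e1, sq, ENNReal.ofReal_mul (by positivity)]
    exact mul_le_mul' (hend h (by omega) x) (hend h (by omega) x')
  -- pointwise
  have hpt : ∀ p : List Bool × List Bool, ∑ t ∈ I, χ t p.1 * χ' t p.2 ≤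
      ENNReal.ofReal (κ * Real.sqrt h) * (if p.1 ∈ EndB h x ∧ p.2 ∈ EndB h x' then 1 else 0) +
        (ENNReal.ofReal l * (if p ∈ VP η κ h x x' then 1 else 0) + (ENNReal.ofReal l)⁻¹ * (2 * ∑ t ∈ I,
          ∑ t' ∈ I.filter (fun t' => t ≤ t'), (χ t p.1 * χ' t p.2) * (χ t' p.1 * χ' t' p.2))) := by
    intro p
    have h01 : ∀ t, χ t p.1 * χ' t p.2 = 0 ∨ χ t p.1 * χ' t p.2 = 1 := by
      intro t
      rcases hχ01 t p.1 with h1 | h1
      · left
        rw [h1, zero_mul]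
      · rw [h1, one_mul]
        exact hχ01' t p.2
    by_cases hp : p ∈ VP η κ h x x'
    · refine le_trans (point I (fun t => χ t p.1 * χ' t p.2) h01 (ENNReal.ofReal l) 1 (ENNReal.ofReal_pos.2 hl0).ne'
        ENNReal.ofReal_ne_top (fun _ _ _ => rfl)) ?_
      rw [if_pos hp]
      exact le_add_self
    · refine le_trans ?_ le_self_add
      by_cases hz : ∀ t ∈ I, χ t p.1 * χ' t p.2 = 0
      · rw [Finset.sum_eq_zero hz]
        exact zero_le
      · push Not at hz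
        obtain ⟨t, ht, hne⟩ := hz
        have h1 := (h01 t).resolve_left hne
        have h2 : χ t p.1 = 1 := by
          rcases hχ01 t p.1 with h3 | h3
          · rw [h3, zero_mul] at h1
            exact absurd h1 zero_ne_one
          · exact h3
        have h3 : χ' t p.2 = 1 := by
          rw [h2, one_mul] at h1
          exact h1
        have h4 := (hχm t ht p.1 h2).1
        have h5 := (hχm' t ht p.2 h3).1
        rw [if_pos ⟨h4.1, h5.1⟩, mul_one]
        have h6 : ((CCv h p.1 p.2).card : ℝ) ≤ κ * Real.sqrt h := by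
          by_contra hlt
          push Not at hlt
          exact hp ⟨h4, h5, hlt.le⟩
        calc ∑ t ∈ I, χ t p.1 * χ' t p.2 ≤ ∑ t ∈ I, (if HCut p.1 t ∧ HCut p.2 t then (1 : ℝ≥0∞) else 0) := by
              refine Finset.sum_le_sum fun s hs => ?_
              rcases h01 s with h7 | h7
              · rw [h7]
                exact zero_le
              · have h8 : χ s p.1 = 1 := by
                  rcases hχ01 s p.1 with h9 | h9
                  · rw [h9, zero_mul] at h7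
                    exact absurd h7 zero_ne_one
                  · exact h9
                have h9 : χ' s p.2 = 1 := by
                  rw [h8, one_mul] at h7
                  exact h7
                rw [h7, if_pos ⟨(hχm s hs p.1 h8).2, (hχm' s hs p.2 h9).2⟩]
          _ = ((CCv h p.1 p.2).card : ℝ≥0∞) := by
              rw [Finset.sum_ite, Finset.sum_const_zero, add_zero, Finset.sum_const, nsmul_eq_mul, mul_one]
              rfl
          _ = ENNReal.ofReal ((CCv h p.1 p.2).card : ℝ) := (ENNReal.ofReal_natCast _).symm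
          _ ≤ _ := ENNReal.ofReal_le_ofReal h6
  -- sum over the pairs
  have hall : ENNReal.ofReal E ≤ ENNReal.ofReal (E / 4) + (ENNReal.ofReal l * ∑' p : List Bool × List Bool,
      (if p ∈ VP η κ h x x' then 1 else 0) * (wE p.1 * wE p.2) + ENNReal.ofReal (E / 4)) := by
    refine hfirst.trans ?_
    refine le_trans (ENNReal.tsum_le_tsum fun p => mul_le_mul_left (hpt p) _) ?_
    simp_rw [add_mul]
    rw [ENNReal.tsum_add, ENNReal.tsum_add]
    refine add_le_add ?_ (add_le_add ?_ ?_)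
    · simp_rw [mul_assoc]
      rw [ENNReal.tsum_mul_left]
      refine (mul_le_mul_right htot _).trans ?_
      rw [← ENNReal.ofReal_mul (by positivity)]
      apply ENNReal.ofReal_le_ofReal
      have h1 := hsqrt h (by omega)
      have h2 : Real.sqrt h ≤ h * uu h ^ 2 / c3 := by
        rw [le_div_iff₀ hc3]
        linarith
      calc κ * Real.sqrt h * (C2 * (uu h / h)) ^ 2 ≤ κ * (h * uu h ^ 2 / c3) * (C2 * (uu h / h)) ^ 2 := by gcongr
        _ = E / 4 := by
            rw [hE, hκ]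
            field_simp
    · simp_rw [mul_assoc]
      rw [ENNReal.tsum_mul_left]
    · simp_rw [mul_assoc]
      rw [ENNReal.tsum_mul_left, ENNReal.tsum_mul_left]
      have e2 : ∀ p : List Bool × List Bool, (∑ t ∈ I, ∑ t' ∈ I.filter (fun t' => t ≤ t'),
          χ t p.1 * (χ' t p.2 * (χ t' p.1 * χ' t' p.2))) * (wE p.1 * wE p.2) = (∑ t ∈ I, ∑ t' ∈ I.filter (fun t' => t ≤ t'),
          (χ t p.1 * χ' t p.2) * (χ t' p.1 * χ' t' p.2)) * (wE p.1 * wE p.2) := by
        intro p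
        congr 1
        refine Finset.sum_congr rfl fun t _ => Finset.sum_congr rfl fun t' _ => ?_
        ring
      rw [tsum_congr e2]
      refine (mul_le_mul_right (mul_le_mul_right hsecond 2) _).trans ?_
      rw [← ENNReal.ofReal_inv_of_pos hl0, show (2 : ℝ≥0∞) = ENNReal.ofReal 2 by simp,
        ← ENNReal.ofReal_mul (by norm_num), ← ENNReal.ofReal_mul (by positivity)]
      apply ENNReal.ofReal_le_ofReal
      apply le_of_eq
      rw [hE, hl]
      field_simp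
      ring
  have h1 : ENNReal.ofReal (E / 2) ≤ ENNReal.ofReal l * ∑' p : List Bool × List Bool,
      (if p ∈ VP η κ h x x' then 1 else 0) * (wE p.1 * wE p.2) := by
    have h2 : ENNReal.ofReal E ≤ ENNReal.ofReal l * ∑' p : List Bool × List Bool,
        (if p ∈ VP η κ h x x' then 1 else 0) * (wE p.1 * wE p.2) + ENNReal.ofReal (E / 2) := by
      refine hall.trans (le_of_eq ?_)
      rw [add_left_comm, ← ENNReal.ofReal_add (by positivity) (by positivity)]
      congr 2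
      ring
    have h3 := Local0.sub_aux (by positivity) h2
    have h4 : E - E / 2 = E / 2 := by ring
    rwa [h4] at h3
  have h2 := ENNReal.div_le_of_le_mul' h1
  rw [← ENNReal.ofReal_div_of_pos hl0] at h2
  refine le_trans (le_of_eq ?_) h2
  congr 1
  rw [hE, hl]
  field_simp
  ring


end ART

end HexObs
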