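import Pool.Agent.ARM2.TubeApp
import Pool.Agent.ART.VPair

/-!
# ART, block C-b (helper80): a vertical tube is a tube word

* `LegT.hn_eq`, `LegT.lat_eq`: the hexagonal norm from the level and the lateral position;
* `tubeQ_congr`: `TubeQ` depends on the first r directions only;
* **`legT`**: `V ∈ Tb η h x` with `|x| ≤ η h`, `|3 h - 2 n D| ≤ B`, `8 B ≤ w`, `48 η h ≤ w` is a tube word along n steps up, the
  end is within `B + 2 η h` of the node;
* `tgt_*`: the target of a leg.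
-/

set_option autoImplicit false

namespace HexObs

namespace ART

open Finset RP TIW ARM

open scoped ENNReal

namespace LegT

lemma lat_eq (t : List Bool) (i : ℕ) : lat t i = (vx oo up t i).1 := by
  unfold lat cross up
  simp

lemma two_rotL (p : Pt) : 2 * ip p (rotL up) = ip p up - 3 * p.1 := by
  simp only [ip, rotL, up]
  ring

lemma two_rotR (p : Pt) : 2 * ip p (rotR up) = ip p up + 3 * p.1 := by
  simp only [ip, rotR, up]
  ring

/-- the norm from the level and the lateral position -/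
lemma hn_le {p : Pt} {a b M : ℤ} (h1 : |ip p up| ≤ a) (h2 : |p.1| ≤ b) (h3 : a ≤ M) (h4 : a + 3 * b ≤ 2 * M) : hn p ≤ M := by
  rw [abs_le] at h1 h2
  unfold hn
  refine max_le ?_ (max_le ?_ ?_)
  · rw [abs_le]
    constructor <;> linarith
  · rw [abs_le]
    have h := two_rotL p
    constructor <;> linarith
  · rw [abs_le]
    have h := two_rotR p
    constructor <;> linarith

lemma ip_smul_up (t : ℤ) : ip (t • up) up = 2 * t := by
  simp only [ip, up, Prod.smul_fst, Prod.smul_snd, smul_eq_mul]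
  ring

lemma fst_smul_up (t : ℤ) : (t • up : Pt).1 = 0 := by
  simp [up]

lemma pv_up (D : ℤ) (j : ℕ) : AR.pv (fun _ => up) D j = (D * j) • up := by
  unfold AR.pv AR.ps
  rw [sum_const, card_range, ← natCast_zsmul, smul_smul]

end LegT

open LegT

/-- `TubeQ` depends on the first r directions only -/
theorem tubeQ_congr {e e' : ℕ → Pt} {D w : ℤ} {r : ℕ} {z : Pt} {Q : List Bool} (hr : 1 ≤ r) (he : ∀ i, i < r → e i = e' i)
    (h : TubeQ e D w r z Q) : TubeQ e' D w r z Q := by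
  have hps : ∀ j, j ≤ r → AR.ps e j = AR.ps e' j := fun j hj =>
    sum_congr rfl fun a ha => he a (by have := mem_range.1 ha; omega)
  have hN : ∀ j, j < r → ∀ y, Nr e D w j y → Nr e' D w j y := by
    intro j hj y hy
    unfold Nr AR.pv at hy ⊢
    rw [← hps j hj.le, ← he j hj]
    exact hy
  refine ⟨h.sa, h.en, ?_, ?_, ?_, ?_⟩
  · rw [← he (r - 1) (by omega)]
    exact h.de
  · intro i hi
    obtain ⟨j, h1, h2⟩ := h.rg i hi
    exact ⟨j, h1, hN j h1 _ h2⟩
  · intro i h1 h2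
    rcases h.st i h1 h2 with g | ⟨j, g1, g2, g3⟩
    · exact Or.inl g
    · exact Or.inr ⟨j, g1, g2, hN j g2 _ g3⟩
  · intro i hi
    rw [← he (r - 1) (by omega)]
    rcases h.bd i hi with g | ⟨j, g1, g2⟩
    · exact Or.inl g
    · exact Or.inr ⟨j, g1, hN j (by omega) _ g2⟩

/-- **a vertical tube is a tube word** -/
theorem legT {η : ℝ} {h n : ℕ} {x D B w : ℤ} {V : List Bool} (hV : V ∈ Tb η h x) (hx : |(x : ℝ)| ≤ η * h) (hn1 : 1 ≤ n)
    (hD : 0 < D) (hB : |3 * (h : ℤ) - 2 * (n * D)| ≤ B) (hw0 : 16 ≤ w) (hw1 : 8 * B ≤ w) (hw2 : 48 * (η * h) ≤ (w : ℝ)) :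
    TubeQ (fun _ => up) D w n (TIW.en V) V := by
  obtain ⟨⟨hb, hl⟩, hr⟩ := hV
  have hb' := mem_Brd.1 hb
  obtain ⟨h1, h2, h3, h4⟩ := hb'
  have hηh : (0 : ℝ) ≤ η * h := (abs_nonneg _).trans hx
  have hlat : ∀ i, i ≤ V.length → 24 * |(vx oo up V i).1| ≤ w := by
    intro i hi
    obtain ⟨g1, g2⟩ := hr i hi
    rw [lat_eq] at g1 g2
    rw [abs_le] at hx
    have e1 : -(η * h) ≤ ((min 0 x : ℤ) : ℝ) := by
      push_cast
      exact le_min (by linarith) hx.1
    have e2 : ((max 0 x : ℤ) : ℝ) ≤ η * h := by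
      push_cast
      exact max_le hηh hx.2
    have e3 : |(((vx oo up V i).1 : ℤ) : ℝ)| ≤ 2 * (η * h) := by
      rw [abs_le]
      constructor <;> linarith
    have e4 : ((24 * |(vx oo up V i).1| : ℤ) : ℝ) ≤ (w : ℝ) := by
      push_cast
      linarith
    exact_mod_cast e4
  have hlev : ∀ i, i ≤ V.length → 0 ≤ ip (vx oo up V i) up ∧ ip (vx oo up V i) up ≤ 3 * h := by
    intro i hi
    rcases Nat.eq_zero_or_pos i with rfl | hi0
    · have e : ip (vx oo up V 0) up = 0 := lev_zero V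
      rw [e]
      constructor
      · exact le_rfl
      · positivity
    · exact ⟨(h1 i hi0 hi).1.le, (h1 i hi0 hi).2⟩
  refine ⟨⟨fun _ _ _ => Set.mem_univ _, fun a b hab hb he => ?_⟩, rfl, h3, ?_, ?_, ?_⟩
  · exact h2 a b hab hb he
  · intro i hi
    obtain ⟨g1, g2⟩ := hlev i hi
    have g3 := hlat i hi
    obtain ⟨y, hy⟩ : ∃ y, y = vx oo up V i := ⟨_, rfl⟩
    rw [← hy] at g1 g2 g3 ⊢
    obtain ⟨l, hl'⟩ : ∃ l, l = ip y up := ⟨_, rfl⟩
    rw [← hl'] at g1 g2
    have hnD : (0 : ℤ) ≤ n * D := by positivity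
    rw [abs_le] at hB
    -- the height in units of up
    obtain ⟨t, ht⟩ : ∃ t : ℤ, t = min (l / 2) (n * D) := ⟨_, rfl⟩
    have ht0 : 0 ≤ t := by
      rw [ht]
      exact le_min (by omega) hnD
    have ht1 : t ≤ n * D := by
      rw [ht]
      exact min_le_right _ _
    have ht2 : |l - 2 * t| ≤ B + 1 := by
      rw [abs_le, ht]
      rcases min_cases (l / 2) ((n : ℤ) * D) with ⟨e1, e2⟩ | ⟨e1, e2⟩
      · rw [e1]
        have : 0 ≤ B := by linarith [hB.1, hB.2]
        constructor <;> omega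
      · rw [e1]
        constructor
        · have : (n : ℤ) * D * 2 ≤ l := by omega
          linarith [hB.1, hB.2]
        · linarith [hB.1, hB.2]
    -- the segment
    have hfin : ∀ (j : ℕ) (s : ℤ), D * j + s = t → 0 ≤ s → s ≤ D → j < n → ∃ j, j < n ∧ Nr (fun _ => up) D w j y := by
      intro j s hjs hs0 hs1 hj
      refine ⟨j, hj, s, hs0, hs1, ?_⟩
      have e1 : y - (AR.pv (fun _ => up) D j + s • (fun _ => up : ℕ → Pt) j) = y - t • up := by
        rw [pv_up]
        show y - ((D * j) • up + s • up) = y - t • up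
        rw [← add_smul, hjs]
      rw [e1]
      refine LegT.hn_le (a := B + 1) (b := |y.1|) ?_ ?_ ?_ ?_
      · rw [AR.ip_sub_left, ip_smul_up, ← hl']
        exact ht2
      · rw [Prod.fst_sub, fst_smul_up, sub_zero]
      · linarith
      · linarith
    rcases lt_or_ge t (n * D) with hlt | hge
    · refine hfin (t / D).toNat (t % D) ?_ (Int.emod_nonneg _ hD.ne') (Int.emod_lt_of_pos _ hD).le ?_
      · have e0 : 0 ≤ t / D := Int.ediv_nonneg ht0 hD.le
        rw [Int.toNat_of_nonneg e0]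
        exact Int.mul_ediv_add_emod t D
      · have e0 : 0 ≤ t / D := Int.ediv_nonneg ht0 hD.le
        have e1 : t / D < n := Int.ediv_lt_of_lt_mul hD hlt
        omega
    · refine hfin (n - 1) D ?_ hD.le le_rfl (by omega)
      have : t = n * D := le_antisymm ht1 hge
      rw [this]
      push_cast [Nat.cast_sub hn1]
      ring
  · intro i hi0 hi
    exact Or.inl (h1 i hi0 hi).1
  · intro i hi
    left
    have e1 : ip (TIW.en V) up = 3 * h := h4
    show ip (vx oo up V i - TIW.en V) up ≤ 0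
    rw [AR.ip_sub_left, e1]
    linarith [(hlev i hi).2]

/-- the end of the leg is near the node -/
theorem legT_en {η : ℝ} {h n : ℕ} {x D B M : ℤ} {V : List Bool} (hV : V ∈ Tb η h x) (hx : |(x : ℝ)| ≤ η * h)
    (hB : |3 * (h : ℤ) - 2 * (n * D)| ≤ B) (hM : (B : ℝ) + 2 * (η * h) ≤ M) : hn (TIW.en V - AR.pv (fun _ => up) D n) ≤ M := by
  obtain ⟨⟨hb, hl⟩, -⟩ := hV
  have h4 : ip (TIW.en V) up = 3 * h := (mem_Brd.1 hb).2.2.2
  have hl' : (TIW.en V).1 = x := by
    rw [← hl]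
    exact (lat_eq V _).symm
  have hηh : (0 : ℝ) ≤ η * h := (abs_nonneg _).trans hx
  have hB0 : 0 ≤ B := (abs_nonneg _).trans hB
  have hM1 : B + 3 * |x| ≤ 2 * M := by
    have hB' : (0 : ℝ) ≤ B := by exact_mod_cast hB0
    have : ((B + 3 * |x| : ℤ) : ℝ) ≤ ((2 * M : ℤ) : ℝ) := by
      push_cast
      linarith
    exact_mod_cast this
  have hM2 : B ≤ M := by
    have : ((B : ℤ) : ℝ) ≤ (M : ℝ) := by linarith
    exact_mod_cast this
  refine LegT.hn_le (a := B) (b := |x|) ?_ ?_ hM2 hM1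
  · rw [AR.ip_sub_left, pv_up, ip_smul_up, h4]
    have e : 3 * (h : ℤ) - 2 * (D * n) = 3 * (h : ℤ) - 2 * (n * D) := by ring
    rw [e]
    exact hB
  · rw [Prod.fst_sub, pv_up, fst_smul_up, sub_zero, hl']

/-! ### the target of a leg -/

/-- the height of a target -/
lemma tgt_three {z : Pt} (hz : cl z = 0) : (3 : ℤ) ∣ ip z up := by
  have h := ip_mod z up
  rw [hz, zero_mul, neg_zero] at h
  exact (ZMod.intCast_zmod_eq_zero_iff_dvd _ 3).1 h

lemma tgt_height {z : Pt} (hz : cl z = 0) (h0 : 0 ≤ ip z up) : ∃ h : ℕ, ip z up = 3 * (h : ℤ) := by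
  obtain ⟨m, hm⟩ := tgt_three hz
  exact ⟨m.toNat, by omega⟩

/-- the parity of a target -/
lemma tgt_even {z : Pt} {h : ℕ} (hz : ip z up = 3 * (h : ℤ)) : Even (z.1 - (h : ℤ)) := by
  have e : ip z up = z.1 + 2 * z.2 := by
    simp only [ip, up]
    ring
  rw [e] at hz
  rw [Int.even_iff]
  omega

/-- the bridges to a target -/
lemma tgt_iff {z : Pt} {h : ℕ} (hz : ip z up = 3 * (h : ℤ)) (V : List Bool) : V ∈ EndB h z.1 ↔ V ∈ Brd h ∧ TIW.en V = z := by
  constructor
  · rintro ⟨h1, h2⟩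
    refine ⟨h1, ?_⟩
    have h4 : ip (TIW.en V) up = 3 * h := (mem_Brd.1 h1).2.2.2
    refine TPF.pt_of ?_ ?_
    · rw [← h2]
      exact (lat_eq V _).symm
    · rw [h4, hz]
  · rintro ⟨h1, h2⟩
    refine ⟨h1, ?_⟩
    show lat V V.length = z.1
    rw [lat_eq, ← h2]
    rfl

end ART

end HexObs
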