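import Pool.Agent.ART.VPair2
import Pool.Agent.ART.RichDefs
import Pool.Agent.ARM2.TubeApp

/-!
# ART, block C-b (helper51): common cuts of the two legs are rows which are crossed by exactly two edges

`rowX`: the hairpin X = V1 ++ (K ++ V2), V1 a bridge upwards, K stays above the row, V2 a bridge downwards. `rowsX`: the count.
-/

set_option autoImplicit false

namespace HexObs

namespace ART

open Finset TS SDN TIW BAR

variable {V1 K V2 : List Bool}

lemma mulE_negup {u : Pt} (hu : nrm u = 1) (h : mulE u up = -up) (p : Pt) : mulE u p = -p := by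
  have key : ∀ u ∈ dirs, mulE u up = -up → u = (-1, 0) := by decide
  have h1 := key u (mem_dirs.2 hu) h
  subst h1
  unfold mulE
  refine Prod.ext ?_ ?_ <;> simp

lemma lev_ge {V : List Bool} {s : ℕ} {T : ℤ} (h : 3 * T < lev V s) : 3 * T + 2 ≤ lev V s := by
  have h1 := lev_mod V s
  by_contra hc
  have h2 : lev V s = 3 * T + 1 := by omega
  rw [h2] at h1
  split_ifs at h1
  · obtain ⟨x, hx⟩ := h1
    omega
  · obtain ⟨x, hx⟩ := h1
    omega

/-- a bridge is not empty if it goes on -/
lemma cut_lt {V c s : List Bool} {h r : ℕ} (hV : V ∈ Brd h) (hc : c ∈ Brd r) (e : V = c ++ s) (hr : r < h) :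
    c.length < V.length := by
  rcases Nat.lt_or_ge c.length V.length with h1 | h1
  · exact h1
  · exfalso
    have h2 : s = [] := by
      have := congrArg List.length e
      rw [List.length_append] at this
      exact List.length_eq_zero_iff.1 (by omega)
    rw [h2, List.append_nil] at e
    rw [e] at hV
    have a := (mem_Brd.1 hV).2.2.2
    have b := (mem_Brd.1 hc).2.2.2
    omega

/-- levels before and behind a cut -/
lemma cut_le {V c s : List Bool} {r : ℕ} (hc : c ∈ Brd r) (e : V = c ++ s) {i : ℕ} (hi : i ≤ c.length) : lev V i ≤ 3 * r := by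
  rw [e, lev_append (by omega)]
  rcases Nat.eq_zero_or_pos i with h | h
  · rw [h, lev_zero]
    omega
  · exact ((mem_Brd.1 hc).1 i h hi).2

lemma cut_gt {V c s : List Bool} {r : ℕ} (hc : c ∈ Brd r) (hs : Pos s) (e : V = c ++ s) {i : ℕ} (hi : c.length < i)
    (hi' : i ≤ V.length) : 3 * (r : ℤ) < lev V i := by
  obtain ⟨t, rfl⟩ : ∃ t, i = c.length + t := ⟨i - c.length, by omega⟩
  have h1 := mem_Brd.1 hc
  rw [e] at hi' ⊢
  rw [List.length_append] at hi'
  rw [lev_cat h1.2.2.1, h1.2.2.2]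
  have := hs t (by omega) (by omega)
  linarith

lemma cut_at {V c s : List Bool} {r : ℕ} (hc : c ∈ Brd r) (e : V = c ++ s) : lev V c.length = 3 * r := by
  rw [e, lev_append (by omega)]
  exact (mem_Brd.1 hc).2.2.2

lemma cut_step {V c s : List Bool} {r : ℕ} (hc : c ∈ Brd r) (e : V = c ++ s) :
    vx oo up V (c.length + 1) = vx oo up V c.length + up := by
  have h2 : vx oo up V (c.length + 1) = vx oo up V c.length + dx up V c.length := rfl
  rw [h2, e, dx_append le_rfl, (mem_Brd.1 hc).2.2.1]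

/-- **a common cut of the two legs** -/
theorem rowX {h1 h2 m T : ℕ} (hV1 : V1 ∈ Brd h1) (hK : de K = -up) (hm : ip (en V1 + en K) up = 3 * m + 2)
    (hV2 : V2 ∈ Brd h2) (hc1 : HCut V1 T) (hc2 : HCut V2 (m - T)) (hT : T < m) (hT2 : m < h2 + T)
    (hlow : ∀ i, i ≤ K.length → 3 * (T : ℤ) + 2 ≤ ip (en V1 + vx oo up K i) up) :
    ∃ i j P P', RowC up (V1 ++ (K ++ V2)) i j P P' ∧ ip P up = 3 * T + 2 ∧ i < V1.length ∧ V1.length + K.length ≤ j ∧
      P = vx oo up V1 (i + 1) ∧ P' = vx oo up (V1 ++ (K ++ V2)) j := by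
  obtain ⟨c1, s1, hb1, hs1, e1⟩ := hc1
  obtain ⟨c2, s2, hb2, hs2, e2⟩ := hc2
  have hup : ip up up = 2 := by decide
  have hV1' := mem_Brd.1 hV1
  have hen1 : ip (en V1) up = 3 * h1 := hV1'.2.2.2
  have hTh1 : T < h1 := by
    have h3 := hlow 0 (Nat.zero_le _)
    have h4 : vx oo up K 0 = oo := rfl
    have h5 : ip oo up = 0 := by decide
    rw [ip_add_left, hen1, h4, h5] at h3
    omega
  have l1 := cut_lt hV1 hb1 e1 hTh1
  have l2 := cut_lt hV2 hb2 e2 (by omega)
  have hlen : (V1 ++ (K ++ V2)).length = V1.length + K.length + V2.length := by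
    rw [List.length_append, List.length_append]
    omega
  -- the vertices
  have vA : ∀ s, s ≤ V1.length + 1 → vx oo up (V1 ++ (K ++ V2)) s = vx oo up V1 s := fun s hs => vx_append hs
  have vB : ∀ t, t ≤ K.length + 1 → vx oo up (V1 ++ (K ++ V2)) (V1.length + t) = en V1 + vx oo up K t := by
    intro t ht
    rw [vx_cat hV1'.2.2.1, vx_append ht]
    rfl
  have hrt : mulE (rt K) up = -up := by rw [rt_up, hK]
  have vC : ∀ t, vx oo up (V1 ++ (K ++ V2)) (V1.length + K.length + t) = en V1 + en K - vx oo up V2 t := by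
    intro t
    rw [add_assoc, vx_cat hV1'.2.2.1, vx_app, mulE_negup (nrm_rt K) hrt, sub_eq_add_neg, add_assoc]
    rfl
  have lC : ∀ t, ip (vx oo up (V1 ++ (K ++ V2)) (V1.length + K.length + t)) up = 3 * m + 2 - lev V2 t := by
    intro t
    rw [vC, sub_eq_add_neg, ip_add_left, hm, ip_neg_left]
    rfl
  have hmT : ((m - T : ℕ) : ℤ) = m - T := by rw [Nat.cast_sub hT.le]
  have hP : ip (vx oo up V1 (c1.length + 1)) up = 3 * T + 2 := by
    rw [cut_step hb1 e1, ip_add_left, hup]
    have := cut_at hb1 e1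
    unfold lev at this
    rw [this]
  have hP' : ip (vx oo up (V1 ++ (K ++ V2)) (V1.length + K.length + c2.length)) up = 3 * T + 2 := by
    rw [lC, cut_at hb2 e2, hmT]
    ring
  refine ⟨c1.length, V1.length + K.length + c2.length, vx oo up V1 (c1.length + 1), _, ⟨by omega, by omega, ?_, vA _ (by omega),
    rfl, ?_, by rw [hP, hP'], fun s hs => ?_⟩, hP, l1, by omega, rfl, rfl⟩
  · rw [vA _ (by omega), cut_step hb1 e1, add_sub_cancel_right]
  · rw [add_assoc _ c2.length 1, vC, vC, cut_step hb2 e2]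
    abel
  · rw [hP]
    rw [hlen] at hs
    rcases Nat.lt_or_ge c1.length s with hc | hc
    · rcases Nat.lt_or_ge V1.length s with hc2 | hc2
      · rcases Nat.lt_or_ge (V1.length + K.length) s with hc3 | hc3
        · obtain ⟨t, rfl⟩ : ∃ t, s = V1.length + K.length + t := ⟨s - (V1.length + K.length), by omega⟩
          rw [lC]
          rcases Nat.lt_or_ge c2.length t with hc4 | hc4
          · have h3 := cut_gt hb2 hs2 e2 hc4 (by omega)
            rw [hmT] at h3
            constructor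
            · intro h4
              linarith
            · rintro ⟨-, h4⟩
              omega
          · have h3 := cut_le hb2 e2 hc4
            rw [hmT] at h3
            exact ⟨fun _ => ⟨by omega, by omega⟩, fun _ => by linarith⟩
        · obtain ⟨t, rfl⟩ : ∃ t, s = V1.length + t := ⟨s - V1.length, by omega⟩
          rw [vB t (by omega)]
          exact ⟨fun _ => ⟨by omega, by omega⟩, fun _ => hlow t (by omega)⟩
      · rw [vA s (by omega)]
        have h3 := cut_gt hb1 hs1 e1 hc hc2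
        exact ⟨fun _ => ⟨by omega, by omega⟩, fun _ => lev_ge h3⟩
    · rw [vA s (by omega)]
      have h3 := cut_le hb1 e1 hc
      constructor
      · intro h4
        have h5 : lev V1 s = ip (vx oo up V1 s) up := rfl
        rw [← h5] at h4
        linarith
      · rintro ⟨h4, -⟩
        omega

/-- **the count** -/
theorem rowsX {h1 h2 m : ℕ} (hV1 : V1 ∈ Brd h1) (hK : de K = -up) (hm : ip (en V1 + en K) up = 3 * m + 2)
    (hV2 : V2 ∈ Brd h2) (I : Finset ℕ) (hI : ∀ T ∈ I, HCut V1 T ∧ HCut V2 (m - T) ∧ T < m ∧ m < h2 + T ∧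
      ∀ i, i ≤ K.length → 3 * (T : ℤ) + 2 ≤ ip (en V1 + vx oo up K i) up) :
    ∃ S : Finset (Pt × Pt), S.card = I.card ∧ ∀ z ∈ S, ∃ T ∈ I, ip z.1 up = 3 * T + 2 ∧ ∃ i j,
      RowC up (V1 ++ (K ++ V2)) i j z.1 z.2 ∧ i < V1.length ∧ V1.length + K.length ≤ j ∧ z.1 = vx oo up V1 (i + 1) ∧
        z.2 = vx oo up (V1 ++ (K ++ V2)) j := by
  classical
  have key : ∀ T : I, ∃ i j P P', RowC up (V1 ++ (K ++ V2)) i j P P' ∧ ip P up = 3 * (T.1 : ℤ) + 2 ∧ i < V1.length ∧
      V1.length + K.length ≤ j ∧ P = vx oo up V1 (i + 1) ∧ P' = vx oo up (V1 ++ (K ++ V2)) j := fun T =>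
    rowX hV1 hK hm hV2 (hI T.1 T.2).1 (hI T.1 T.2).2.1 (hI T.1 T.2).2.2.1 (hI T.1 T.2).2.2.2.1 (hI T.1 T.2).2.2.2.2
  choose i j P P' h using key
  refine ⟨univ.image fun T : I => (P T, P' T), ?_, fun z hz => ?_⟩
  · rw [card_image_of_injective, card_univ, Fintype.card_coe]
    intro T T' hTT
    simp only [Prod.mk.injEq] at hTT
    have h3 := (h T).2.1
    have h4 := (h T').2.1
    rw [hTT.1, h4] at h3
    exact Subtype.ext (by omega)
  · rw [mem_image] at hz
    obtain ⟨T, -, rfl⟩ := hz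
    obtain ⟨h3, h4, h5, h6, h7, h8⟩ := h T
    exact ⟨T.1, T.2, h4, i T, j T, h3, h5, h6, h7, h8⟩

end ART

end HexObs
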