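import Pool.Agent.ART.VPair
import Pool.Agent.ROT.SumUU

/-!
ART, block C-b (helper69): two vertical tubes with many common cut rows, different heights, one upwards, one downwards.

`vpair2`: V upwards, from the row `- d` of the frame, V' downwards, from the row `m` (in its own frame the row t is at the
height `m - t`), heights `h1, h2` between `h` and `2 h`; at least `κ √h` of the rows `t` between `h / 4` and `h / 2` are cuts
of both.
-/

set_option autoImplicit false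

namespace HexObs

namespace ART

open Finset RP BAR

open scoped ENNReal

open Classical in
/-- the common cuts at the rows from `h / 4` to `h / 2` -/
noncomputable def CC2 (h d m : ℕ) (V V' : List Bool) : Finset ℕ :=
  (Icc (h / 4) (h / 2)).filter fun t => HCut V (t + d) ∧ HCut V' (m - t)

/-- the pairs with many common cuts -/
def VP2 (η κ : ℝ) (h h1 h2 d m : ℕ) (x x' : ℤ) : Set (List Bool × List Bool) :=
  {p | p.1 ∈ Tb η h1 x ∧ p.2 ∈ Tb η h2 x' ∧ κ * Real.sqrt h ≤ ((CC2 h d m p.1 p.2).card : ℝ)}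

namespace VPx

open OneMark

/-- the mass of the tubes with a cut at the height t -/
lemma one_low2 (R : ℕ) {η : ℝ} (hη : 0 < η) (hη1 : η ≤ 1) : ∃ (c : ℝ) (t0 : ℕ), 0 < c ∧ ∀ (h : ℕ) (x : ℤ), t0 ≤ h →
    Even (x - h) → |x| ≤ R * h → ∀ t, h ≤ 16 * t → 16 * t ≤ 15 * h →
      ENNReal.ofReal (c * (uu h ^ 2 / h)) ≤ conv2 (Aw η t) (Bw η h t x) x := by
  obtain ⟨c1, t1, hc1, htube⟩ := POL.tube_low (w := η / 4) (by positivity) (by linarith)
  obtain ⟨c2, t2, hc2, hloc⟩ := localTube (16 * R + 16) (η := η / 2) (by positivity)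
  refine ⟨c1 * c2, 16 * t1 + 16 * t2 + 16, by positivity, fun h x hh hev hx t ht ht' => ?_⟩
  have ht1 : t1 ≤ t := by omega
  have ht2 : t2 ≤ h - t := by omega
  have hth : t ≤ h := by omega
  have hhr : (16 : ℝ) ≤ h := by exact_mod_cast (by omega : 16 ≤ h)
  have hthr : (t : ℝ) ≤ h := by exact_mod_cast hth
  have hsub : ((h - t : ℕ) : ℝ) = h - t := by
    rw [Nat.cast_sub hth]
  have hhalf : (h : ℝ) ≤ 16 * ((h - t : ℕ) : ℝ) := by
    have : h ≤ 16 * (h - t) := by omega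
    exact_mod_cast this
  have hpos : (0 : ℝ) < ((h - t : ℕ) : ℝ) := by linarith
  have huh := uu_pos h
  have hA : ENNReal.ofReal (c1 * uu h) ≤ gf (Aw η t) := by
    refine le_trans (ENNReal.ofReal_le_ofReal ?_) (htube t ht1)
    exact mul_le_mul_of_nonneg_left (uu_anti hth) hc1.le
  have hδ : ∀ a ∈ Aw η t, ENNReal.ofReal (c2 * (uu h / h)) ≤ gf {b | b ∈ Bw η h t x ∧ latE b = x - latE a} := by
    rintro a ⟨ha, ha2⟩
    have hae : |((latE a : ℤ) : ℝ)| ≤ η / 4 * h :=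
      (ha2 a.length le_rfl).trans (mul_le_mul_of_nonneg_left hthr (by positivity))
    have hae' := abs_le.1 hae
    have hp : Even (x - latE a - ((h - t : ℕ) : ℤ)) := by
      have h2 := latE_even ha
      have h3 : x - latE a - ((h - t : ℕ) : ℤ) = (x - h) - (latE a - t) := by
        rw [Nat.cast_sub hth]
        ring
      rw [h3]
      exact hev.sub h2
    have hy : |x - latE a| ≤ ((16 * R + 16 : ℕ) : ℤ) * ((h - t : ℕ) : ℤ) := by
      have h3 : |((x - latE a : ℤ) : ℝ)| ≤ (16 * R + 16) * ((h - t : ℕ) : ℝ) := by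
        have h4 : |((x : ℤ) : ℝ)| ≤ R * h := by exact_mod_cast hx
        have h5 : |((x - latE a : ℤ) : ℝ)| ≤ R * h + η / 4 * h := by
          push_cast
          exact (abs_sub _ _).trans (add_le_add h4 hae)
        have h6 : (R : ℝ) * h ≤ R * (16 * ((h - t : ℕ) : ℝ)) := mul_le_mul_of_nonneg_left hhalf (Nat.cast_nonneg _)
        have h7 : η / 4 * h ≤ 1 * h := mul_le_mul_of_nonneg_right (by linarith) (by linarith)
        linarith
      have h8 : ((|x - latE a| : ℤ) : ℝ) ≤ (((16 * R + 16 : ℕ) : ℤ) * ((h - t : ℕ) : ℤ) : ℤ) := by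
        push_cast at h3 ⊢
        exact h3
      exact_mod_cast h8
    refine le_trans ?_ ((hloc (h - t) (x - latE a) ht2 hp hy).trans (gf_mono ?_))
    · apply ENNReal.ofReal_le_ofReal
      refine mul_le_mul_of_nonneg_left ?_ hc2.le
      have h3 : uu h ≤ uu (h - t) := uu_anti (Nat.sub_le _ _)
      have h4 : ((h - t : ℕ) : ℝ) ≤ h := by rw [hsub]; linarith [(Nat.cast_nonneg t : (0 : ℝ) ≤ t)]
      exact div_le_div₀ (uu_pos _).le h3 hpos h4
    · rintro b ⟨⟨hb1, hb2⟩, hb3⟩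
      refine ⟨⟨hb1, fun i hi => ?_⟩, hb2⟩
      obtain ⟨h3, h4⟩ := hb3 i hi
      have h5 : ((min 0 x : ℤ) : ℝ) - η / 4 * h ≤ ((min 0 (x - latE a) : ℤ) : ℝ) := by
        push_cast
        rcases min_cases (0 : ℝ) ((x : ℝ) - latE a) with ⟨h6, _⟩ | ⟨h6, _⟩
        · rw [h6]
          have := min_le_left (0 : ℝ) (x : ℝ)
          nlinarith
        · rw [h6]
          have := min_le_right (0 : ℝ) (x : ℝ)
          linarith [hae'.2]
      have h6 : ((max 0 (x - latE a) : ℤ) : ℝ) ≤ ((max 0 x : ℤ) : ℝ) + η / 4 * h := by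
        push_cast
        rcases max_cases (0 : ℝ) ((x : ℝ) - latE a) with ⟨h6, _⟩ | ⟨h6, _⟩
        · rw [h6]
          have := le_max_left (0 : ℝ) (x : ℝ)
          nlinarith
        · rw [h6]
          have := le_max_right (0 : ℝ) (x : ℝ)
          linarith [hae'.1]
      have h7 : η / 2 * ((h - t : ℕ) : ℝ) ≤ η / 2 * h := by
        refine mul_le_mul_of_nonneg_left ?_ (by positivity)
        rw [hsub]
        linarith [(Nat.cast_nonneg t : (0 : ℝ) ≤ t)]
      constructor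
      · linarith
      · linarith
  have h1 := LocalT.conv2_ge hδ
  refine le_trans ?_ ((mul_le_mul_left hA _).trans h1)
  rw [← ENNReal.ofReal_mul (by positivity)]
  apply ENNReal.ofReal_le_ofReal
  have : c1 * uu h * (c2 * (uu h / h)) = c1 * c2 * (uu h ^ 2 / h) := by ring
  rw [this]

/-- the same in terms of the reference height -/
lemma one_lowR (R : ℕ) {η : ℝ} (hη : 0 < η) (hη1 : η ≤ 1) : ∃ (c : ℝ) (t0 : ℕ), 0 < c ∧ ∀ (h h1 : ℕ) (x : ℤ), t0 ≤ h →
    h ≤ h1 → h1 ≤ 2 * h → Even (x - h1) → |x| ≤ R * h → ∀ t, h1 ≤ 16 * t → 16 * t ≤ 15 * h1 →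
      ENNReal.ofReal (c * (uu h ^ 2 / h)) ≤ conv2 (Aw η t) (Bw η h1 t x) x := by
  obtain ⟨c, t0, hc, hlow⟩ := one_low2 R hη hη1
  obtain ⟨C, hC, hcomp⟩ := SumUU.uu_comp 2
  refine ⟨c / (2 * C ^ 2), max t0 1, by positivity, fun h h1 x hh h2 h3 he hx t ht ht' => ?_⟩
  have hh0 : t0 ≤ h := (le_max_left _ _).trans hh
  have hh1 : 1 ≤ h := (le_max_right _ _).trans hh
  have hx' : |x| ≤ R * h1 := hx.trans (by
    have : (h : ℤ) ≤ h1 := by exact_mod_cast h2
    exact mul_le_mul_of_nonneg_left this (Int.natCast_nonneg _))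
  refine le_trans (ENNReal.ofReal_le_ofReal ?_) (hlow h1 x (hh0.trans h2) he hx' t ht ht')
  have hr : (1 : ℝ) ≤ h := by exact_mod_cast hh1
  have hr1 : (h : ℝ) ≤ h1 := by exact_mod_cast h2
  have hr2 : (h1 : ℝ) ≤ 2 * h := by exact_mod_cast h3
  have hu := uu_pos h
  have hu1 := uu_pos h1
  have hcm := hcomp h h1 hh1 h3
  have h4 : uu h ^ 2 ≤ C ^ 2 * uu h1 ^ 2 := by
    rw [← mul_pow]
    exact pow_le_pow_left₀ hu.le hcm 2
  rw [div_mul_eq_mul_div, div_le_iff₀ (by positivity)]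
  have h5 : uu h ^ 2 / h ≤ C ^ 2 * uu h1 ^ 2 / (h1 / 2) := by
    refine div_le_div₀ (by positivity) h4 (by linarith) (by linarith)
  calc c * (uu h ^ 2 / h) ≤ c * (C ^ 2 * uu h1 ^ 2 / (h1 / 2)) := mul_le_mul_of_nonneg_left h5 hc.le
    _ = c * (uu h1 ^ 2 / h1) * (2 * C ^ 2) := by
        have : (h1 : ℝ) ≠ 0 := by linarith
        field_simp

/-- two cuts of one bridge -/
lemma term_leR : ∃ C : ℝ, 0 < C ∧ ∀ (h h1 : ℕ) (z : ℤ), 16 ≤ h → h ≤ h1 → h1 ≤ 2 * h → ∀ t t', h1 ≤ 16 * t →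
    16 * t' ≤ 15 * h1 → t ≤ t' →
      conv3 (Brd t) (Brd (t' - t)) (Brd (h1 - t')) z ≤ ENNReal.ofReal (C * (uu h ^ 2 / h) * uu (t' - t)) := by
  obtain ⟨C6, hC6, hconv⟩ := conv3_le
  obtain ⟨D, hD, hcomp⟩ := SumUU.uu_comp 16
  refine ⟨C6 * D ^ 2 * 16, by positivity, fun h h1 z hh h2 h3 c c' hc hc' _ => ?_⟩
  have tr : (16 : ℝ) ≤ h := by exact_mod_cast hh
  have hut := uu_pos h
  refine (hconv c (c' - c) (h1 - c') z (by omega)).trans (ENNReal.ofReal_le_ofReal ?_)
  have g1 : uu c ≤ D * uu h := hcomp c h (by omega) (by omega)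
  have g2 : uu (h1 - c') ≤ D * uu h := hcomp (h1 - c') h (by omega) (by omega)
  have g3 : (h : ℝ) ≤ 16 * ((h1 - c' : ℕ) : ℝ) := by
    have : h ≤ 16 * (h1 - c') := by omega
    exact_mod_cast this
  have g4 : (0 : ℝ) < ((h1 - c' : ℕ) : ℝ) := by linarith
  have g5 : uu (h1 - c') / ((h1 - c' : ℕ) : ℝ) ≤ D * uu h * (16 / h) := by
    rw [div_le_iff₀ g4]
    have h6 : 1 ≤ 16 / (h : ℝ) * ((h1 - c' : ℕ) : ℝ) := by
      rw [div_mul_eq_mul_div, le_div_iff₀ (by linarith)]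
      linarith
    have h7 : 0 ≤ D * uu h := by positivity
    calc uu (h1 - c') ≤ D * uu h * 1 := by linarith
      _ ≤ D * uu h * (16 / (h : ℝ) * ((h1 - c' : ℕ) : ℝ)) := mul_le_mul_of_nonneg_left h6 h7
      _ = D * uu h * (16 / h) * ((h1 - c' : ℕ) : ℝ) := by ring
  have h8 := uu_pos (c' - c)
  have h9 := uu_pos c
  calc C6 * (uu c * uu (c' - c) * (uu (h1 - c') / ((h1 - c' : ℕ) : ℝ)))
      ≤ C6 * (D * uu h * uu (c' - c) * (D * uu h * (16 / h))) := by
        have := uu_pos (h1 - c')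
        gcongr
    _ = C6 * D ^ 2 * 16 * (uu h ^ 2 / h) * uu (c' - c) := by ring

/-- the total mass -/
lemma endR : ∃ C : ℝ, 0 < C ∧ ∀ (h h1 : ℕ) (z : ℤ), 1 ≤ h → h ≤ h1 → gf (EndB h1 z) ≤ ENNReal.ofReal (C * (uu h / h)) := by
  obtain ⟨C2, hC2, hend⟩ := anti_end
  refine ⟨C2, hC2, fun h h1 z hh h2 => (hend h1 (by omega) z).trans (ENNReal.ofReal_le_ofReal ?_)⟩
  have hr : (1 : ℝ) ≤ h := by exact_mod_cast hh
  have hr1 : (h : ℝ) ≤ h1 := by exact_mod_cast h2
  refine mul_le_mul_of_nonneg_left ?_ hC2.le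
  exact div_le_div₀ (uu_pos _).le (uu_anti h2) (by linarith) hr1

/-- the number of pairs of rows -/
lemma secondR : ∃ C : ℝ, 0 < C ∧ ∀ (h h1 h2 d m : ℕ) (z z' : ℤ), 16 ≤ h → h ≤ h1 → h1 ≤ 2 * h → h ≤ h2 → h2 ≤ 2 * h →
    8 * d ≤ h → m ≤ h2 → 8 * (h2 - m) ≤ h → ∑ t ∈ Icc (h / 4) (h / 2),
    ∑ t' ∈ (Icc (h / 4) (h / 2)).filter (fun t' => t ≤ t'),
      conv3 (Brd (t + d)) (Brd ((t' + d) - (t + d))) (Brd (h1 - (t' + d))) z *
        conv3 (Brd (m - t')) (Brd ((m - t) - (m - t'))) (Brd (h2 - (m - t))) z' ≤ ENNReal.ofReal (C * uu h ^ 6) := by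
  obtain ⟨C1, hC1, hterm⟩ := term_leR
  obtain ⟨C2, hC2, hsum⟩ := SumUU.sum_uuq
  refine ⟨C1 ^ 2 * C2, by positivity, fun h h1 h2 d m z z' hh a1 a2 a3 a4 a5 a6 a7 => ?_⟩
  have tr : (16 : ℝ) ≤ h := by exact_mod_cast hh
  have hut := uu_pos h
  obtain ⟨A, hA⟩ : ∃ A : ℝ, A = (C1 * (uu h ^ 2 / h)) ^ 2 := ⟨_, rfl⟩
  have hA0 : 0 ≤ A := by rw [hA]; positivity
  have hin : ∀ t ∈ Icc (h / 4) (h / 2), ∑ t' ∈ (Icc (h / 4) (h / 2)).filter (fun t' => t ≤ t'),
      conv3 (Brd (t + d)) (Brd ((t' + d) - (t + d))) (Brd (h1 - (t' + d))) z *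
        conv3 (Brd (m - t')) (Brd ((m - t) - (m - t'))) (Brd (h2 - (m - t))) z' ≤
        ENNReal.ofReal (A * (C2 * (h * uu h ^ 2))) := by
    intro t ht
    calc ∑ t' ∈ (Icc (h / 4) (h / 2)).filter (fun t' => t ≤ t'),
        conv3 (Brd (t + d)) (Brd ((t' + d) - (t + d))) (Brd (h1 - (t' + d))) z *
          conv3 (Brd (m - t')) (Brd ((m - t) - (m - t'))) (Brd (h2 - (m - t))) z'
        ≤ ∑ t' ∈ (Icc (h / 4) (h / 2)).filter (fun t' => t ≤ t'), ENNReal.ofReal (A * uu (t' - t) ^ 2) := by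
          refine Finset.sum_le_sum fun t' ht' => ?_
          rw [Finset.mem_filter, Finset.mem_Icc] at ht'
          rw [Finset.mem_Icc] at ht
          refine (mul_le_mul' (hterm h h1 z hh a1 a2 (t + d) (t' + d) (by omega) (by omega) (by omega))
            (hterm h h2 z' hh a3 a4 (m - t') (m - t) (by omega) (by omega) (by omega))).trans ?_
          have e1 : t' + d - (t + d) = t' - t := by omega
          have e2 : m - t - (m - t') = t' - t := by omega
          rw [e1, e2]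
          have h0 : 0 ≤ C1 * (uu h ^ 2 / h) * uu (t' - t) := mul_nonneg (by positivity) (uu_pos _).le
          rw [← ENNReal.ofReal_mul h0]
          apply ENNReal.ofReal_le_ofReal
          rw [hA]
          apply le_of_eq
          ring
      _ = ENNReal.ofReal (∑ t' ∈ (Icc (h / 4) (h / 2)).filter (fun t' => t ≤ t'), A * uu (t' - t) ^ 2) :=
          (ENNReal.ofReal_sum_of_nonneg (fun t' _ => by positivity)).symm
      _ ≤ _ := by
          apply ENNReal.ofReal_le_ofReal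
          rw [← Finset.mul_sum]
          refine mul_le_mul_of_nonneg_left ?_ hA0
          refine le_trans ?_ (hsum h (by omega))
          have h1 : ∑ c' ∈ (Icc (h / 4) (h / 2)).filter (fun c' => t ≤ c'), uu (c' - t) ^ 2 =
              ∑ j ∈ ((Icc (h / 4) (h / 2)).filter (fun c' => t ≤ c')).image (fun c' => c' - t), uu j ^ 2 := by
            rw [Finset.sum_image]
            intro a ha b hb hab
            have ha' := (Finset.mem_filter.1 ha).2
            have hb' := (Finset.mem_filter.1 hb).2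
            simp only at hab
            omega
          rw [h1]
          refine Finset.sum_le_sum_of_subset_of_nonneg ?_ (fun j _ _ => by positivity)
          intro j hj
          rw [Finset.mem_image] at hj
          obtain ⟨c', hc', rfl⟩ := hj
          rw [Finset.mem_filter, Finset.mem_Icc] at hc'
          rw [Finset.mem_range]
          omega
  refine (Finset.sum_le_sum hin).trans ?_
  rw [Finset.sum_const, nsmul_eq_mul, ← ENNReal.ofReal_natCast, ← ENNReal.ofReal_mul (Nat.cast_nonneg _)]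
  refine ENNReal.ofReal_le_ofReal ?_
  have h1 : ((Icc (h / 4) (h / 2)).card : ℝ) ≤ h := by
    rw [Nat.card_Icc]
    have : h / 2 + 1 - h / 4 ≤ h := by omega
    exact_mod_cast this
  calc ((Icc (h / 4) (h / 2)).card : ℝ) * (A * (C2 * (h * uu h ^ 2)))
      ≤ h * (A * (C2 * (h * uu h ^ 2))) := mul_le_mul_of_nonneg_right h1 (by positivity)
    _ = C1 ^ 2 * C2 * uu h ^ 6 := by
        rw [hA]
        field_simp

end VPx

open VPx OneMark in
/-- **two vertical tubes with many common cut rows**, one upwards, one downwards, different heights -/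
theorem vpair2 (R : ℕ) {η : ℝ} (hη : 0 < η) : ∃ (c κ : ℝ) (t0 : ℕ), 0 < c ∧ 0 < κ ∧ ∀ (h h1 h2 d m : ℕ) (x x' : ℤ),
    t0 ≤ h → h ≤ h1 → h1 ≤ 2 * h → h ≤ h2 → h2 ≤ 2 * h → 8 * d ≤ h → m ≤ h2 → 8 * (h2 - m) ≤ h →
    Even (x - h1) → Even (x' - h2) → |x| ≤ R * h → |x'| ≤ R * h →
      ENNReal.ofReal (c * (uu h / h) ^ 2) ≤ ∑' p : VP2 η κ h h1 h2 d m x x', wE (p : List Bool × List Bool).1 *
        wE (p : List Bool × List Bool).2 := by
  classical
  -- reduction to η ≤ 1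
  suffices H : ∀ η : ℝ, 0 < η → η ≤ 1 → ∃ (c κ : ℝ) (t0 : ℕ), 0 < c ∧ 0 < κ ∧ ∀ (h h1 h2 d m : ℕ) (x x' : ℤ),
      t0 ≤ h → h ≤ h1 → h1 ≤ 2 * h → h ≤ h2 → h2 ≤ 2 * h → 8 * d ≤ h → m ≤ h2 → 8 * (h2 - m) ≤ h →
      Even (x - h1) → Even (x' - h2) → |x| ≤ R * h → |x'| ≤ R * h →
        ENNReal.ofReal (c * (uu h / h) ^ 2) ≤ ∑' p : List Bool × List Bool,
          (if p ∈ VP2 η κ h h1 h2 d m x x' then 1 else 0) * (wE p.1 * wE p.2) by
    obtain ⟨c, κ, t0, hc, hκ, hmain⟩ := H (min η 1) (lt_min hη one_pos) (min_le_right _ _)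
    refine ⟨c, κ, t0, hc, hκ, fun h h1 h2 d m x x' a1 a2 a3 a4 a5 a6 a7 a8 a9 a10 a11 a12 =>
      (hmain h h1 h2 d m x x' a1 a2 a3 a4 a5 a6 a7 a8 a9 a10 a11 a12).trans ?_⟩
    rw [tsum_subtype (VP2 η κ h h1 h2 d m x x') (fun p : List Bool × List Bool => wE p.1 * wE p.2)]
    refine ENNReal.tsum_le_tsum fun p => ?_
    by_cases hp : p ∈ VP2 (min η 1) κ h h1 h2 d m x x'
    · have hp' : p ∈ VP2 η κ h h1 h2 d m x x' := by
        have hTb : ∀ (n : ℕ) (y : ℤ) (b : List Bool), b ∈ Tb (min η 1) n y → b ∈ Tb η n y := by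
          rintro n y b ⟨h6, h7⟩
          refine ⟨h6, fun i hi => ?_⟩
          have h8 := h7 i hi
          have h9 : min η 1 * n ≤ η * n := mul_le_mul_of_nonneg_right (min_le_left _ _) (Nat.cast_nonneg _)
          exact ⟨by linarith [h8.1], by linarith [h8.2]⟩
        exact ⟨hTb _ _ _ hp.1, hTb _ _ _ hp.2.1, hp.2.2⟩
      rw [if_pos hp, one_mul, Set.indicator_of_mem hp']
    · rw [if_neg hp, zero_mul]
      exact zero_le
  intro η hη hη1
  obtain ⟨c1, t1, hc1, hlow⟩ := one_lowR R hη hη1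
  obtain ⟨C2, hC2, hend⟩ := endR
  obtain ⟨C5, hC5, hsec⟩ := secondR
  obtain ⟨c3, hc3, hsqrt⟩ := sqrt_le
  obtain ⟨a1, ha1⟩ : ∃ a1 : ℝ, a1 = c1 ^ 2 / 4 := ⟨_, rfl⟩
  have ha1' : 0 < a1 := by rw [ha1]; positivity
  obtain ⟨κ, hκ⟩ : ∃ κ : ℝ, κ = a1 * c3 / (4 * C2 ^ 2) := ⟨_, rfl⟩
  have hκ0 : 0 < κ := by rw [hκ]; positivity
  refine ⟨a1 ^ 2 / (16 * C5), κ, max t1 16, by positivity, hκ0,
    fun h h1 h2 d m x x' hh b1 b2 b3 b4 b5 b6 b7 he he' hx hx' => ?_⟩
  have hh1 : t1 ≤ h := (le_max_left _ _).trans hh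
  have hh8 : 16 ≤ h := (le_max_right _ _).trans hh
  have hhr : (16 : ℝ) ≤ h := by exact_mod_cast hh8
  have hu := uu_pos h
  set I : Finset ℕ := Icc (h / 4) (h / 2) with hI
  have hIn : ∀ t ∈ I, h1 ≤ 16 * (t + d) ∧ 16 * (t + d) ≤ 15 * h1 ∧ h2 ≤ 16 * (m - t) ∧ 16 * (m - t) ≤ 15 * h2 ∧
      t + d ≤ h1 ∧ m - t ≤ h2 ∧ t ≤ m := by
    intro t ht
    rw [hI, Finset.mem_Icc] at ht
    refine ⟨?_, ?_, ?_, ?_, ?_, ?_, ?_⟩ <;> omega
  obtain ⟨E, hE⟩ : ∃ E : ℝ, E = a1 * uu h ^ 4 / h := ⟨_, rfl⟩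
  have hE0 : 0 < E := by rw [hE]; positivity
  obtain ⟨l, hl⟩ : ∃ l : ℝ, l = 8 * C5 * (h * uu h ^ 2) / a1 := ⟨_, rfl⟩
  have hl0 : 0 < l := by rw [hl]; positivity
  set χ : ℕ → List Bool → ℝ≥0∞ := fun t w => chi (Aw η (t + d)) (Bw η h1 (t + d) x) x w with hχ
  set χ' : ℕ → List Bool → ℝ≥0∞ := fun t w => chi (Aw η (m - t)) (Bw η h2 (m - t) x') x' w with hχ'
  have hχ01 : ∀ t w, χ t w = 0 ∨ χ t w = 1 := fun t w => by
    by_cases h1 : Mk (Aw η (t + d)) (Bw η h1 (t + d) x) x w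
    · exact Or.inr (chi_pos h1)
    · exact Or.inl (chi_neg h1)
  have hχ01' : ∀ t w, χ' t w = 0 ∨ χ' t w = 1 := fun t w => by
    by_cases h1 : Mk (Aw η (m - t)) (Bw η h2 (m - t) x') x' w
    · exact Or.inr (chi_pos h1)
    · exact Or.inl (chi_neg h1)
  have hχm : ∀ t ∈ I, ∀ w, χ t w = 1 → w ∈ Tb η h1 x ∧ HCut w (t + d) := by
    intro t ht w h1
    refine mk_Tb hη (hIn t ht).2.2.2.2.1 ?_
    by_contra hm
    rw [hχ] at h1
    simp only [chi_neg hm] at h1
    exact zero_ne_one h1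
  have hχm' : ∀ t ∈ I, ∀ w, χ' t w = 1 → w ∈ Tb η h2 x' ∧ HCut w (m - t) := by
    intro t ht w h1
    refine mk_Tb hη (hIn t ht).2.2.2.2.2.1 ?_
    by_contra hm
    rw [hχ'] at h1
    simp only [chi_neg hm] at h1
    exact zero_ne_one h1
  have hAB : ∀ (n : ℕ) (y : ℤ) (t : ℕ), Aw η t ⊆ Brd t ∧ Bw η n t y ⊆ Brd (n - t) :=
    fun n y t => ⟨fun a ha => ha.1, fun b hb => hb.1⟩
  -- first moment
  have hfirst : ENNReal.ofReal E ≤ ∑' p : List Bool × List Bool, (∑ t ∈ I, χ t p.1 * χ' t p.2) * (wE p.1 * wE p.2) := by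
    have e1 : ∑' p : List Bool × List Bool, (∑ t ∈ I, χ t p.1 * χ' t p.2) * (wE p.1 * wE p.2) =
        ∑ t ∈ I, (∑' w, χ t w * wE w) * ∑' w, χ' t w * wE w := by
      rw [← Finset.sum_congr rfl fun t _ => prod_sum (fun w => χ t w * wE w) (fun w => χ' t w * wE w),
        ← Summable.tsum_finsetSum (fun _ _ => ENNReal.summable)]
      refine tsum_congr fun p => ?_
      rw [Finset.sum_mul]
      refine Finset.sum_congr rfl fun t _ => ?_
      ring
    rw [e1]
    have g1 : ∀ t ∈ I, ENNReal.ofReal ((c1 * (uu h ^ 2 / h)) ^ 2) ≤ (∑' w, χ t w * wE w) * ∑' w, χ' t w * wE w := by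
      intro t ht
      obtain ⟨i1, i2, i3, i4, -, -, -⟩ := hIn t ht
      have q1 := (hlow h h1 x hh1 b1 b2 he hx (t + d) i1 i2).trans
        (conv2_le (hAB h1 x (t + d)).1 (hAB h1 x (t + d)).2 x)
      have q2 := (hlow h h2 x' hh1 b3 b4 he' hx' (m - t) i3 i4).trans
        (conv2_le (hAB h2 x' (m - t)).1 (hAB h2 x' (m - t)).2 x')
      rw [sq, ENNReal.ofReal_mul (by positivity)]
      exact mul_le_mul' q1 q2
    refine le_trans ?_ (Finset.sum_le_sum g1)
    rw [Finset.sum_const, nsmul_eq_mul, ← ENNReal.ofReal_natCast, ← ENNReal.ofReal_mul (Nat.cast_nonneg _)]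
    refine ENNReal.ofReal_le_ofReal ?_
    have h3 : (h : ℝ) / 4 ≤ (I.card : ℝ) := by
      rw [hI, Nat.card_Icc, div_le_iff₀ (by norm_num)]
      have : h ≤ (h / 2 + 1 - h / 4) * 4 := by omega
      exact_mod_cast this
    calc E = h / 4 * (c1 * (uu h ^ 2 / h)) ^ 2 := by
          rw [hE, ha1]
          field_simp
      _ ≤ _ := mul_le_mul_of_nonneg_right h3 (by positivity)
  -- second moment
  have hsecond : ∑' p : List Bool × List Bool, (∑ t ∈ I, ∑ t' ∈ I.filter (fun t' => t ≤ t'),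
      (χ t p.1 * χ' t p.2) * (χ t' p.1 * χ' t' p.2)) * (wE p.1 * wE p.2) ≤ ENNReal.ofReal (C5 * uu h ^ 6) := by
    have e1 : ∑' p : List Bool × List Bool, (∑ t ∈ I, ∑ t' ∈ I.filter (fun t' => t ≤ t'),
        (χ t p.1 * χ' t p.2) * (χ t' p.1 * χ' t' p.2)) * (wE p.1 * wE p.2) =
        ∑ t ∈ I, ∑ t' ∈ I.filter (fun t' => t ≤ t'), (∑' w, χ t w * χ t' w * wE w) * ∑' w, χ' t' w * χ' t w * wE w := by
      rw [← Finset.sum_congr rfl fun t _ => Finset.sum_congr rfl fun t' _ =>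
        prod_sum (fun w => χ t w * χ t' w * wE w) (fun w => χ' t' w * χ' t w * wE w)]
      rw [← Finset.sum_congr rfl fun t _ => Summable.tsum_finsetSum (fun _ _ => ENNReal.summable),
        ← Summable.tsum_finsetSum (fun _ _ => ENNReal.summable)]
      refine tsum_congr fun p => ?_
      rw [Finset.sum_mul]
      refine Finset.sum_congr rfl fun t _ => ?_
      rw [Finset.sum_mul]
      refine Finset.sum_congr rfl fun t' _ => ?_
      ring
    rw [e1]
    refine le_trans (Finset.sum_le_sum fun t ht => Finset.sum_le_sum fun t' ht' => ?_)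
      (hsec h h1 h2 d m x x' hh8 b1 b2 b3 b4 b5 b6 b7)
    obtain ⟨g1, g2⟩ := Finset.mem_filter.1 ht'
    have g3 := (hIn t' g1).2.2.2.2.2.2
    exact mul_le_mul' (pair_le (by omega : t + d ≤ t' + d) (hAB h1 x _).1 (hAB h1 x _).2 (hAB h1 x _).1 (hAB h1 x _).2 x)
      (pair_le (by omega : m - t' ≤ m - t) (hAB h2 x' _).1 (hAB h2 x' _).2 (hAB h2 x' _).1 (hAB h2 x' _).2 x')
  -- total mass
  have htot : ∑' p : List Bool × List Bool, (if p.1 ∈ EndB h1 x ∧ p.2 ∈ EndB h2 x' then (1 : ℝ≥0∞) else 0) *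
      (wE p.1 * wE p.2) ≤ ENNReal.ofReal ((C2 * (uu h / h)) ^ 2) := by
    have e1 : ∑' p : List Bool × List Bool, (if p.1 ∈ EndB h1 x ∧ p.2 ∈ EndB h2 x' then (1 : ℝ≥0∞) else 0) *
        (wE p.1 * wE p.2) = gf (EndB h1 x) * gf (EndB h2 x') := by
      rw [gf_ind, gf_ind, ← prod_sum]
      refine tsum_congr fun p => ?_
      by_cases g1 : p.1 ∈ EndB h1 x
      · by_cases g2 : p.2 ∈ EndB h2 x'
        · rw [if_pos ⟨g1, g2⟩, if_pos g1, if_pos g2, one_mul]
        · rw [if_neg (fun g3 => g2 g3.2), if_neg g2, mul_zero, zero_mul]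
      · rw [if_neg (fun g3 => g1 g3.1), if_neg g1, zero_mul, zero_mul]
    rw [e1, sq, ENNReal.ofReal_mul (by positivity)]
    exact mul_le_mul' (hend h h1 x (by omega) b1) (hend h h2 x' (by omega) b3)
  -- pointwise
  have hpt : ∀ p : List Bool × List Bool, ∑ t ∈ I, χ t p.1 * χ' t p.2 ≤
      ENNReal.ofReal (κ * Real.sqrt h) * (if p.1 ∈ EndB h1 x ∧ p.2 ∈ EndB h2 x' then 1 else 0) +
        (ENNReal.ofReal l * (if p ∈ VP2 η κ h h1 h2 d m x x' then 1 else 0) + (ENNReal.ofReal l)⁻¹ * (2 * ∑ t ∈ I,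
          ∑ t' ∈ I.filter (fun t' => t ≤ t'), (χ t p.1 * χ' t p.2) * (χ t' p.1 * χ' t' p.2))) := by
    intro p
    have h01 : ∀ t, χ t p.1 * χ' t p.2 = 0 ∨ χ t p.1 * χ' t p.2 = 1 := by
      intro t
      rcases hχ01 t p.1 with g1 | g1
      · left
        rw [g1, zero_mul]
      · rw [g1, one_mul]
        exact hχ01' t p.2
    by_cases hp : p ∈ VP2 η κ h h1 h2 d m x x'
    · refine le_trans (point I (fun t => χ t p.1 * χ' t p.2) h01 (ENNReal.ofReal l) 1 (ENNReal.ofReal_pos.2 hl0).ne'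
        ENNReal.ofReal_ne_top (fun _ _ _ => rfl)) ?_
      rw [if_pos hp]
      exact le_add_self
    · refine le_trans ?_ le_self_add
      by_cases hz : ∀ t ∈ I, χ t p.1 * χ' t p.2 = 0
      · rw [Finset.sum_eq_zero hz]
        exact zero_le
      · push Not at hz
        obtain ⟨t, ht, hne⟩ := hz
        have g1 := (h01 t).resolve_left hne
        have g2 : χ t p.1 = 1 := by
          rcases hχ01 t p.1 with g3 | g3
          · rw [g3, zero_mul] at g1
            exact absurd g1 zero_ne_one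
          · exact g3
        have g3 : χ' t p.2 = 1 := by
          rw [g2, one_mul] at g1
          exact g1
        have g4 := (hχm t ht p.1 g2).1
        have g5 := (hχm' t ht p.2 g3).1
        rw [if_pos ⟨g4.1, g5.1⟩, mul_one]
        have g6 : ((CC2 h d m p.1 p.2).card : ℝ) ≤ κ * Real.sqrt h := by
          by_contra hlt
          push Not at hlt
          exact hp ⟨g4, g5, hlt.le⟩
        calc ∑ t ∈ I, χ t p.1 * χ' t p.2 ≤ ∑ t ∈ I, (if HCut p.1 (t + d) ∧ HCut p.2 (m - t) then (1 : ℝ≥0∞) else 0) := by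
              refine Finset.sum_le_sum fun s hs => ?_
              rcases h01 s with g7 | g7
              · rw [g7]
                exact zero_le
              · have g8 : χ s p.1 = 1 := by
                  rcases hχ01 s p.1 with g9 | g9
                  · rw [g9, zero_mul] at g7
                    exact absurd g7 zero_ne_one
                  · exact g9
                have g9 : χ' s p.2 = 1 := by
                  rw [g8, one_mul] at g7
                  exact g7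
                rw [g7, if_pos ⟨(hχm s hs p.1 g8).2, (hχm' s hs p.2 g9).2⟩]
          _ = ((CC2 h d m p.1 p.2).card : ℝ≥0∞) := by
              rw [Finset.sum_ite, Finset.sum_const_zero, add_zero, Finset.sum_const, nsmul_eq_mul, mul_one]
              rfl
          _ = ENNReal.ofReal ((CC2 h d m p.1 p.2).card : ℝ) := (ENNReal.ofReal_natCast _).symm
          _ ≤ _ := ENNReal.ofReal_le_ofReal g6
  -- sum over the pairs
  have hall : ENNReal.ofReal E ≤ ENNReal.ofReal (E / 4) + (ENNReal.ofReal l * ∑' p : List Bool × List Bool,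
      (if p ∈ VP2 η κ h h1 h2 d m x x' then 1 else 0) * (wE p.1 * wE p.2) + ENNReal.ofReal (E / 4)) := by
    refine hfirst.trans ?_
    refine le_trans (ENNReal.tsum_le_tsum fun p => mul_le_mul_left (hpt p) _) ?_
    simp_rw [add_mul]
    rw [ENNReal.tsum_add, ENNReal.tsum_add]
    refine add_le_add ?_ (add_le_add ?_ ?_)
    · simp_rw [mul_assoc]
      rw [ENNReal.tsum_mul_left]
      refine (mul_le_mul_right htot _).trans ?_
      rw [← ENNReal.ofReal_mul (by positivity)]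
      apply ENNReal.ofReal_le_ofReal
      have g1 := hsqrt h (by omega)
      have g2 : Real.sqrt h ≤ h * uu h ^ 2 / c3 := by
        rw [le_div_iff₀ hc3]
        linarith
      calc κ * Real.sqrt h * (C2 * (uu h / h)) ^ 2 ≤ κ * (h * uu h ^ 2 / c3) * (C2 * (uu h / h)) ^ 2 := by gcongr
        _ = E / 4 := by
            rw [hE, hκ]
            field_simp
    · simp_rw [mul_assoc]
      rw [ENNReal.tsum_mul_left]
    · simp_rw [mul_assoc]
      rw [ENNReal.tsum_mul_left, ENNReal.tsum_mul_left]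
      have e2 : ∀ p : List Bool × List Bool, (∑ t ∈ I, ∑ t' ∈ I.filter (fun t' => t ≤ t'),
          χ t p.1 * (χ' t p.2 * (χ t' p.1 * χ' t' p.2))) * (wE p.1 * wE p.2) = (∑ t ∈ I, ∑ t' ∈ I.filter (fun t' => t ≤ t'),
          (χ t p.1 * χ' t p.2) * (χ t' p.1 * χ' t' p.2)) * (wE p.1 * wE p.2) := by
        intro p
        congr 1
        refine Finset.sum_congr rfl fun t _ => Finset.sum_congr rfl fun t' _ => ?_
        ring
      rw [tsum_congr e2]
      refine (mul_le_mul_right (mul_le_mul_right hsecond 2) _).trans ?_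
      rw [← ENNReal.ofReal_inv_of_pos hl0, show (2 : ℝ≥0∞) = ENNReal.ofReal 2 by simp,
        ← ENNReal.ofReal_mul (by norm_num), ← ENNReal.ofReal_mul (by positivity)]
      apply ENNReal.ofReal_le_ofReal
      apply le_of_eq
      rw [hE, hl]
      field_simp
      ring
  have g1 : ENNReal.ofReal (E / 2) ≤ ENNReal.ofReal l * ∑' p : List Bool × List Bool,
      (if p ∈ VP2 η κ h h1 h2 d m x x' then 1 else 0) * (wE p.1 * wE p.2) := by
    have g2 : ENNReal.ofReal E ≤ ENNReal.ofReal l * ∑' p : List Bool × List Bool,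
        (if p ∈ VP2 η κ h h1 h2 d m x x' then 1 else 0) * (wE p.1 * wE p.2) + ENNReal.ofReal (E / 2) := by
      refine hall.trans (le_of_eq ?_)
      rw [add_left_comm, ← ENNReal.ofReal_add (by positivity) (by positivity)]
      congr 2
      ring
    have g3 := Local0.sub_aux (by positivity) g2
    have g4 : E - E / 2 = E / 2 := by ring
    rwa [g4] at g3
  have g2 := ENNReal.div_le_of_le_mul' g1
  rw [← ENNReal.ofReal_div_of_pos hl0] at g2
  refine le_trans (le_of_eq ?_) g2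
  congr 1
  rw [hE, hl]
  field_simp
  ring

end ART

end HexObs
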