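import Pool.Agent.ART.HpC
import Pool.Agent.ART.RichX
import Pool.Agent.ART.VPair2
import Pool.Agent.ART.LegT

/-!
# ART, block C-b (helper69): the hairpin, the words with many double cut rows
-/

set_option autoImplicit false

namespace HexObs

namespace ART

namespace HP

open Finset TIW TS SDN ARM ARM.G3 AR TIP

variable {e : ℕ → Pt} {m : ℕ} {D w ρ v : ℤ} {s z : Pt} {K : List Bool}

lemma rt_dn {A : List Bool} (hA : de A = -up) (p : Pt) : mulE (rt A) p = -p := by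
  have h1 : rt A = (-1, 0) := by
    unfold rt
    rw [hA]
    decide
  rw [h1]
  unfold mulE
  ext <;> simp

/-- near the downward column -/
lemma ns_dn (hP : HPt e (m + 1)) {j : ℕ} (hj : j < m) {q y : Pt} (hq : hn (q - pv e D (m + 4)) ≤ ρ)
    (h : NS (pv (fun _ => up) D j) up D w y) : NS (pv e D (m + 4 + j)) (e (m + 4 + j)) D (w + ρ) (q - y) := by
  obtain ⟨t, h0, h1, h2⟩ := h
  refine ⟨t, h0, h1, ?_⟩
  have e1 : pv (fun _ : ℕ => up) D j = (D * j) • up := by
    unfold pv ps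
    rw [sum_const, card_range, ← natCast_zsmul, smul_smul]
  have e2 : pv e D (m + 4 + j) = pv e D (m + 4) - (D * j) • up := by
    rw [show m + 4 + j = m + 3 + (j + 1) by omega, show m + 4 = m + 3 + 1 by omega, pv_dn hP D _ (by omega),
      pv_dn hP D _ (by omega)]
    have e3 : (D * ((j + 1 : ℕ) : ℤ)) • up = (D * (1 : ℕ)) • up + (D * (j : ℤ)) • up := by
      rw [← add_smul]
      congr 1
      push_cast
      ring
    rw [e3]
    abel
  have e4 : e (m + 4 + j) = -up := by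
    rw [show m + 4 + j = m + 3 + (j + 1) by omega, hP.dn (by omega)]
  have e5 : q - y - (pv e D (m + 4 + j) + t • e (m + 4 + j)) =
      (q - pv e D (m + 4)) - (y - (pv (fun _ : ℕ => up) D j + t • up)) := by
    rw [e1, e2, e4, smul_neg]
    abel
  rw [e5]
  exact (hn_sub _ _).trans (by linarith)

/-- **the words along the hairpin with many double cut rows** -/
theorem xx_mem {k H h h1 h2 m' : ℕ} {η κ : ℝ} (hI : IPath e (m + (4 + m))) (hP : HPt e (m + 1)) (hm : 9 ≤ m)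
    (hH : 2 ^ 13 ≤ H) (hk : 4 ≤ k) (hD1 : 18 * (H * 2 ^ k) ≤ D) (hD2 : D ≤ 36 * (H * 2 ^ k)) (hη : η = 1 / (4 * m * H))
    (hκ : 0 < κ) (hh1 : 3 * (h : ℤ) ≤ 2 * (m * D) - 4 * 2 ^ k) (hh2 : 2 * (m * D) - 4 * 2 ^ k < 3 * (h : ℤ) + 3)
    (hzn : hn (z - pv e D (m + (4 + m))) ≤ 2 ^ k) (hK : Km e m D (1024 * 2 ^ k) (2 * 2 ^ k) s K)
    (e1 : ip s up = 3 * h1) (e2 : ip (s + en K - z) up = 3 * h2) (e3 : ip (s + en K) up = 3 * m' + 2)
    {p : List Bool × List Bool} (hp : p ∈ VP2 η κ h h1 h2 (h / 16) (m' - h / 16) s.1 (s + en K - z).1) :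
    Dc e m D (1024 * 2 ^ k) (2 * 2 ^ k) p.1 K p.2 ∧ en p.1 = s ∧ en (p.1 ++ (K ++ p.2)) = z ∧
      TubeQ e D (2 ^ (k + 11)) (m + (4 + m)) z (p.1 ++ (K ++ p.2)) ∧
      RichQ up κ k (WinQ e D (2 ^ (k + 11)) 0 (m + 1)) (p.1 ++ (K ++ p.2)) := by
  classical
  obtain ⟨V1, V2⟩ := p
  obtain ⟨a1, a2, a3⟩ := hp
  simp only at a1 a2 a3 ⊢
  have hk11 : (2 : ℤ) ^ (k + 11) = 2048 * 2 ^ k := by ring
  rw [hk11]
  obtain ⟨R, hR⟩ : ∃ R : ℤ, R = 2 ^ k := ⟨_, rfl⟩
  have hR16 : 16 ≤ R := by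
    rw [hR]
    calc (16 : ℤ) = 2 ^ 4 := by norm_num
      _ ≤ 2 ^ k := pow_le_pow_right₀ (by norm_num) hk
  rw [← hR] at hD1 hD2 hh1 hh2 hzn hK ⊢
  obtain ⟨X, hX⟩ : ∃ X : ℤ, X = m * D := ⟨_, rfl⟩
  have hHz : (8192 : ℤ) ≤ H := by
    have : 8192 ≤ H := hH
    exact_mod_cast this
  have hHR : 8192 * R ≤ H * R := mul_le_mul_of_nonneg_right hHz (by linarith)
  have hD147 : 147456 * R ≤ D := by linarith
  have hD0 : 0 ≤ D := by linarith
  have hmz : (9 : ℤ) ≤ m := by exact_mod_cast hm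
  have hX9 : 9 * D ≤ X := by
    rw [hX]
    exact mul_le_mul_of_nonneg_right hmz hD0
  have hXm : X = m * D := hX
  obtain ⟨b1, b2, b3⟩ := kc_s hP hK.1
  obtain ⟨b4, b5⟩ := kc_t hP hK.1
  obtain ⟨b6, b7, b8⟩ := kc_u hP hK.1 hzn
  rw [← hX] at b1 b2 b4 b5 b6 b7 hh1 hh2
  rw [e1] at b1 b2
  rw [e2] at b6 b7
  rw [e3] at b4 b5
  have hDc0 : 2 * (1024 * R) + 6 * (2 * R) < D := by linarith
  obtain ⟨c1, c2⟩ := endb_of e1 a1.1
  obtain ⟨c3, c4⟩ := endb_of e2 a2.1
  -- real numbers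
  have hRr : (0 : ℝ) < R := by exact_mod_cast (by linarith : 0 < R)
  have hmr : (9 : ℝ) ≤ m := by exact_mod_cast hm
  have hHr : (8192 : ℝ) ≤ H := by exact_mod_cast hH
  have hmH : (0 : ℝ) < m * H := by positivity
  have hXr1 : 18 * ((m * H : ℝ) * R) ≤ X := by
    have h5 : m * (18 * (H * R)) ≤ m * D := mul_le_mul_of_nonneg_left hD1 (by linarith)
    rw [← hX] at h5
    have : 18 * ((m * H : ℤ) * R) ≤ X := by linarith
    exact_mod_cast this
  have hXr2 : (X : ℝ) ≤ 36 * ((m * H : ℝ) * R) := by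
    have h5 : m * D ≤ m * (36 * (H * R)) := mul_le_mul_of_nonneg_left hD2 (by linarith)
    rw [← hX] at h5
    have : X ≤ 36 * ((m * H : ℤ) * R) := by linarith
    exact_mod_cast this
  have hηX : ∀ y : ℝ, η * y = y / (4 * (m * H)) := fun y => by
    rw [hη]
    ring
  have hη0 : 0 < η := by
    rw [hη]
    positivity
  have hη1 : η * (X : ℝ) ≤ 9 * R := by
    rw [hηX, div_le_iff₀ (by positivity)]
    linarith
  have hη2 : 9 / 2 * (R : ℝ) ≤ η * X := by
    rw [hηX, le_div_iff₀ (by positivity)]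
    linarith
  have hηR : η * (R : ℝ) ≤ R := by
    have h6 : η ≤ 1 := by
      rw [hη, div_le_one (by positivity)]
      nlinarith
    calc η * (R : ℝ) ≤ 1 * R := mul_le_mul_of_nonneg_right h6 hRr.le
      _ = R := one_mul _
  have hηR' : 0 ≤ η * (R : ℝ) := by positivity
  have hηR2 : η * (R : ℝ) ≤ R / 1000 := by
    have h6 : η ≤ 1 / 1000 := by
      rw [hη, div_le_div_iff₀ (by positivity) (by norm_num)]
      nlinarith
    calc η * (R : ℝ) ≤ 1 / 1000 * R := mul_le_mul_of_nonneg_right h6 hRr.le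
      _ = R / 1000 := by ring
  -- the legs
  have leg : ∀ {g : ℕ} {x : ℤ} {V : List Bool}, V ∈ Tb η g x → 2 * X - 3 * R ≤ 3 * (g : ℤ) → 3 * (g : ℤ) ≤ 2 * X + 3 * R →
      3 * |x| ≤ 6 * R → TubeQ (fun _ => up) D (1024 * R) m (en V) V := by
    intro g x V hV g1 g2 g3
    have g1' : 2 * (X : ℝ) - 3 * R ≤ 3 * (g : ℝ) := by exact_mod_cast g1
    have g2' : 3 * (g : ℝ) ≤ 2 * (X : ℝ) + 3 * R := by exact_mod_cast g2
    have g4 : η * (2 * (X : ℝ) - 3 * R) ≤ η * (3 * (g : ℝ)) := mul_le_mul_of_nonneg_left g1' hη0.le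
    have g5 : η * (3 * (g : ℝ)) ≤ η * (2 * (X : ℝ) + 3 * R) := mul_le_mul_of_nonneg_left g2' hη0.le
    have g3' : 3 * |(x : ℝ)| ≤ 6 * R := by exact_mod_cast g3
    refine legT hV ?_ (by omega) (by linarith) (B := 3 * R) ?_ (by linarith) (by linarith) ?_
    · linarith
    · rw [← hX, abs_le]
      constructor <;> linarith
    · push_cast
      linarith
  have t1' := leg a1 (by linarith) (by linarith) (by linarith)
  have t1 : TubeQ e D (1024 * R) m (en V1) V1 := tube_congr (by omega) (fun i hi => (hP.up0 (by omega)).symm) t1'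
  have t2 := leg a2 (by linarith) (by linarith) (by linarith)
  have hK1 : Kc e m D (1024 * R) (2 * R) (en V1) K := by
    rw [c2]
    exact hK.1
  have hd : Dc e m D (1024 * R) (2 * R) V1 K V2 := ⟨⟨_, c1⟩, t1, hK1, ⟨_, c3⟩, t2⟩
  have hen : en (V1 ++ (K ++ V2)) = z := by
    rw [en_bu ⟨_, c1⟩, en_app, rt_dn hK.1.de, c2, c4]
    abel
  refine ⟨hd, c2, hen, ?_, ?_⟩
  · have h5 := hd.x hI hP (by omega) (by linarith) hDc0
    have h6 := h5.en
    rw [hen] at h6
    rw [← h6] at h5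
    exact tube_mono (by linarith) h5
  -- the rows
  have hcard : ((CC2 h (h / 16) (m' - h / 16) V1 V2).image (fun t => t + h / 16)).card =
      (CC2 h (h / 16) (m' - h / 16) V1 V2).card := card_image_of_injective _ (fun a b hab => by simpa using hab)
  have hrow : ∀ t ∈ Icc (h / 4) (h / 2), 10 * X - 26 * R ≤ 48 * ((t + h / 16 : ℕ) : ℤ) ∧
      48 * ((t + h / 16 : ℕ) : ℤ) ≤ 18 * X := by
    intro t ht
    rw [mem_Icc] at ht
    have h5 : 5 * h ≤ 16 * (t + h / 16) + 27 := by omega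
    have h6 : 16 * (t + h / 16) ≤ 9 * h := by omega
    have h5' : 5 * (h : ℤ) ≤ 16 * ((t + h / 16 : ℕ) : ℤ) + 27 := by exact_mod_cast h5
    have h6' : 16 * ((t + h / 16 : ℕ) : ℤ) ≤ 9 * (h : ℤ) := by exact_mod_cast h6
    constructor <;> linarith
  have hmh : h / 2 + h / 16 ≤ m' := by
    have h5 : 16 * (h / 2 + h / 16) ≤ 9 * h := by omega
    have h5' : 16 * ((h / 2 + h / 16 : ℕ) : ℤ) ≤ 9 * (h : ℤ) := by exact_mod_cast h5
    have h6 : ((h / 2 + h / 16 : ℕ) : ℤ) ≤ m' := by linarith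
    exact_mod_cast h6
  obtain ⟨S, hS1, hS2⟩ := rowsX (m := m') c1 hK.1.de (by rw [c2]; exact e3) c3
    ((CC2 h (h / 16) (m' - h / 16) V1 V2).image (fun t => t + h / 16)) (fun T hT => by
      rw [mem_image] at hT
      obtain ⟨t, ht, rfl⟩ := hT
      unfold CC2 at ht
      rw [mem_filter] at ht
      obtain ⟨ht1, ht2, ht3⟩ := ht
      obtain ⟨r1, r2⟩ := hrow t ht1
      rw [mem_Icc] at ht1
      refine ⟨ht2, ?_, ?_, ?_, fun i hi => ?_⟩
      · rwa [show m' - h / 16 - t = m' - (t + h / 16) by omega] at ht3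
      · have h6 : ((t + h / 16 : ℕ) : ℤ) < m' := by linarith
        exact_mod_cast h6
      · have h6 : (m' : ℤ) < h2 + ((t + h / 16 : ℕ) : ℤ) := by linarith
        exact_mod_cast h6
      · have h7 := kc_low hP hD0 hK.1 hi
        rw [c2]
        rw [← hX] at h7
        linarith)
  refine ⟨S, ?_, fun y hy => ?_⟩
  · rw [hS1, hcard]
    refine le_trans (mul_le_mul_of_nonneg_left (Real.sqrt_le_sqrt ?_) hκ.le) a3
    have h5 : R ≤ (h : ℤ) := by linarith
    rw [hR] at h5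
    exact_mod_cast h5
  · obtain ⟨T, hT, hy1, i, j, hy2, hy3, hy4, hy5, hy6⟩ := hS2 y hy
    rw [mem_image] at hT
    obtain ⟨t, ht, rfl⟩ := hT
    unfold CC2 at ht
    rw [mem_filter] at ht
    obtain ⟨r1, r2⟩ := hrow t ht.1
    refine ⟨⟨?_, ?_⟩, i, j, hy2⟩
    · obtain ⟨a, g1, g2⟩ := t1.rg (i + 1) (by omega)
      rw [← hy5] at g2
      refine ⟨a, ?_, by omega, g2.mono (by linarith)⟩
      by_contra hcon
      have ha0 : a = 0 := by omega
      subst ha0
      obtain ⟨t', q1, q2, q3, q4⟩ := ip_ns (lev_up hP D (by omega)) (show ip (e 0) up = 2 by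
        rw [hP.up0 (by omega)]; exact up_up) g2
      rw [hy1] at q4
      push_cast at q4 r1
      linarith
    · obtain ⟨q, rfl⟩ : ∃ q, j = V1.length + (K.length + q) := ⟨j - (V1.length + K.length), by omega⟩
      have hlen : q ≤ V2.length := by
        have := hy2.le
        rw [List.length_append, List.length_append] at this
        omega
      obtain ⟨a, g1, g2⟩ := t2.rg q hlen
      have hy7 : y.2 = (s + en K) - vx oo up V2 q := by
        rw [hy6, vx_bu ⟨_, c1⟩, vx_app, rt_dn hK.1.de, c2]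
        abel
      have g3 := ns_dn hP g1 hK.1.ht g2
      rw [← hy7] at g3
      refine ⟨m + 4 + a, by omega, ?_, g3.mono (by linarith)⟩
      by_contra hcon
      have ha0 : a = m - 1 := by omega
      obtain ⟨t', q1, q2, q3, q4⟩ := ip_ns (show ip (pv e D (m + 4 + a)) up = 2 * D by
        rw [show m + 4 + a = m + 3 + m by omega, lev_dn hP D (by omega)]
        push_cast
        ring) (show ip (e (m + 4 + a)) up = -2 by
        rw [show m + 4 + a = m + 3 + m by omega, hP.dn le_rfl]; decide) g3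
      have hlv := hy2.lev
      rw [hy1] at hlv
      rw [← hlv] at q4
      push_cast at q4 r1
      linarith

end HP

end ART

end HexObs
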