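import Pool.Agent.ART.DefsG
import Pool.Agent.ART.CyTSt
import Pool.Agent.ARM.PlcS

/-!
# ART, row G2 (helper87), part A: the closed word rooted at its top

* `pass`: the tube passes near each vertex of the path;
* `top_inj`: the position and the direction of the top and the closed word determine the placed word and the tube;
* `sum_top`: the sum over the minimal placed words.
-/

set_option autoImplicit false

namespace HexObs

namespace ART

namespace JT

open Finset TS SDN SIM NTA TIP ARM ARM.G3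

open scoped ENNReal

variable {E : ℕ → Pt} {r : ℕ} {D : ℤ} {k : ℕ} {s : Pt} {M Q : List Bool}

/-- the position number i of the tube -/
def yq (s : Pt) (M Q : List Bool) (i : ℕ) : Pt := s + vx oo up (M ++ Q) (M.length + i)

lemma yq_zero : yq s M Q 0 = s + TIW.en M := by
  unfold yq
  rw [add_zero, vx_append (by omega : M.length ≤ M.length + 1)]
  rfl

lemma yq_last (hE : IPg E r) (hr : 3 ≤ r) (hup : E (r - 1) = up) (hD : 2 ^ (k + 12) ≤ D) (hP : Plc E r D k s M)
    (hQ : TP E r D k M Q) : yq s M Q Q.length = s := by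
  have h1 := cy_of hE hr hup hD hP hQ
  unfold yq
  rw [h1.2.1]
  exact add_zero s

lemma yq_step (i : ℕ) : TIW.hn (yq s M Q (i + 1) - yq s M Q i) ≤ 2 := by
  have e1 : yq s M Q (i + 1) - yq s M Q i = dx up (M ++ Q) (M.length + i) := by
    unfold yq
    rw [← add_assoc M.length, vx_step]
    abel
  rw [e1]
  have key : ∀ d ∈ dirs, TIW.hn d ≤ 2 := by decide
  exact key _ (dx_mem up_dirs _ _)

/-- consecutive directions -/
lemma ip_tur (hE : IPg E r) {j : ℕ} (hj : j + 1 < r) : 1 ≤ ip (E (j + 1)) (E j) := by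
  have h1 := hE.dir j (by omega)
  have key : ∀ d ∈ dirs, 1 ≤ ip d d ∧ 1 ≤ ip (rotL d) d ∧ 1 ≤ ip (rotR d) d := by decide
  obtain ⟨k1, k2, k3⟩ := key _ h1
  rcases hE.tur j hj with h | h | h <;> rw [h] <;> assumption

lemma qv_step (j : ℕ) : qv E D r (j + 1) = qv E D r j + D • E j := by
  unfold qv
  rw [AR.ps_succ, ← smul_add]
  congr 1
  abel

/-- a point near two consecutive segments is near their common vertex -/
lemma near_vertex (hE : IPg E r) {j : ℕ} (hj : j + 1 < r) {w w' : ℤ} {y : Pt}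
    (h1 : AR.NS (qv E D r j) (E j) D w y) (h2 : AR.NS (qv E D r (j + 1)) (E (j + 1)) D w' y) :
    TIW.hn (y - qv E D r (j + 1)) ≤ w + 2 * w' := by
  obtain ⟨t, t1, t2, t3⟩ := h1
  obtain ⟨u, u1, u2, u3⟩ := h2
  have hd := hE.dir j (by omega)
  have hd' := hE.dir (j + 1) hj
  have h4 := ip_tur hE hj
  have h5 : ip (E j) (E j) = 2 := ip_self_dir hd
  have h5' : ip (E (j + 1)) (E (j + 1)) = 2 := ip_self_dir hd'
  have h6 : ip (E j) (E (j + 1)) = ip (E (j + 1)) (E j) := by
    unfold ip
    ring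
  -- the difference of the two points of the segments
  have e1 : (qv E D r (j + 1) + u • E (j + 1)) - (qv E D r j + t • E j) = (D - t) • E j + u • E (j + 1) := by
    rw [qv_step, sub_smul]
    abel
  have e2 : TIW.hn ((D - t) • E j + u • E (j + 1)) ≤ w + w' := by
    rw [← e1]
    have e3 : (qv E D r (j + 1) + u • E (j + 1)) - (qv E D r j + t • E j) =
        (y - (qv E D r j + t • E j)) - (y - (qv E D r (j + 1) + u • E (j + 1))) := by abel
    rw [e3]
    exact (TIW.hn_sub _ _).trans (add_le_add t3 u3)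
  have h7 := (TIW.ip_le_hn ((D - t) • E j + u • E (j + 1)) hd').trans e2
  rw [ip_add_left, AR.ip_smul, AR.ip_smul, h5', h6] at h7
  have h8 : 0 ≤ (D - t) * ip (E (j + 1)) (E j) := mul_nonneg (by linarith) (by linarith)
  have h9 : 2 * u ≤ w + w' := by linarith
  have e4 : y - qv E D r (j + 1) = (y - (qv E D r (j + 1) + u • E (j + 1))) + u • E (j + 1) := by abel
  rw [e4]
  have h10 : TIW.hn (u • E (j + 1)) ≤ 2 * u := by
    refine TIW.hn_le fun d hd0 => ?_
    rw [AR.ip_smul]
    have key : ∀ a ∈ dirs, ∀ b ∈ dirs, ip a b ≤ 2 := by decide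
    have := key _ hd' _ hd0
    nlinarith
  have h11 := TIW.hn_add (y - (qv E D r (j + 1) + u • E (j + 1))) (u • E (j + 1))
  linarith

lemma NS_le {a d y : Pt} {D w w' : ℤ} (h : AR.NS a d D w y) (hw : w ≤ w') : AR.NS a d D w' y := h.mono hw

lemma pw2 (k : ℕ) : (2 : ℤ) ≤ 2 ^ (k + 1) := by
  have h1 : (1 : ℤ) ≤ 2 ^ k := one_le_pow₀ (by norm_num)
  rw [pow_succ]
  linarith

/-- **the tube passes near each inner vertex of the path** -/
theorem pass_in (hE : IPg E r) (hr : 3 ≤ r) (hup : E (r - 1) = up) (hD : 2 ^ (k + 12) ≤ D) (hP : Plc E r D k s M)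
    (hQ : TP E r D k M Q) {j : ℕ} (hj : j + 1 < r) : ∃ i, i ≤ Q.length ∧
      AR.NS (qv E D r (j + 1)) (E (j + 1)) D (2 ^ (k + 10)) (yq s M Q i) ∧
      TIW.hn (yq s M Q i - qv E D r (j + 1)) ≤ 3 * 2 ^ (k + 10) + 2 := by
  classical
  have hD0 : 0 ≤ D := le_trans (by positivity) hD
  have e12 : (2 : ℤ) ^ (k + 12) = 4 * 2 ^ (k + 10) := by ring
  have e10 : (2 : ℤ) ^ (k + 10) = 512 * 2 ^ (k + 1) := by ring
  have hp2 := pw2 k
  -- the first vertex near a segment after j
  have hex : ∃ i, i ≤ Q.length ∧ ∃ j', j + 1 ≤ j' ∧ j' < r ∧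
      AR.NS (qv E D r j') (E j') D (2 ^ (k + 10)) (yq s M Q i) := by
    refine ⟨Q.length, le_rfl, r - 1, by omega, by omega, ?_⟩
    rw [yq_last hE hr hup hD hP hQ]
    refine ⟨D, hD0, le_rfl, ?_⟩
    rw [qv_last E D (by omega), sub_zero]
    exact hP.hs.trans (by linarith)
  obtain ⟨i, hi⟩ : ∃ i, i = Nat.find hex := ⟨_, rfl⟩
  obtain ⟨hi1, j', hj1, hj2, hn⟩ := Nat.find_spec hex
  rw [← hi] at hi1 hn
  have hmin : ∀ i', i' < i → ∀ j', j + 1 ≤ j' → j' < r →
      ¬ AR.NS (qv E D r j') (E j') D (2 ^ (k + 10)) (yq s M Q i') := by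
    intro i' hi' j' h1 h2 h3
    rw [hi] at hi'
    exact Nat.find_min hex hi' ⟨by omega, j', h1, h2, h3⟩
  -- it is near the segment j + 1 and, up to 2, near the segment j
  have key : j' = j + 1 ∧ AR.NS (qv E D r j) (E j) D (2 ^ (k + 10) + 2) (yq s M Q i) := by
    rcases Nat.eq_zero_or_pos i with h0 | h0
    · have h1 : AR.NS (qv E D r 0) (E 0) D (2 ^ (k + 1)) (yq s M Q i) := by
        rw [h0, yq_zero]
        refine ⟨0, le_rfl, hD0, ?_⟩
        rw [zero_smul, add_zero]
        exact hP.ht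
      have h2 : j' = 1 := by
        by_contra hcon
        have h3 := ipg_sep hE (i := j') (j := 0) (by omega) hj2 hn h1
        rw [sub_self] at h3
        have h4 : TIW.hn (0 : Pt) = 0 := by decide
        rw [h4] at h3
        linarith
      have h3 : j = 0 := by omega
      subst h3
      exact ⟨by omega, h1.mono (by linarith)⟩
    · obtain ⟨j'', h1, h2⟩ := hQ.rgA hP (i := i - 1) (by omega)
      have h2' : AR.NS (qv E D r j'') (E j'') D (2 ^ (k + 10)) (yq s M Q (i - 1)) := h2
      have h3 : j'' ≤ j := by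
        by_contra hcon
        exact hmin (i - 1) (by omega) j'' (by omega) h1 h2'
      have hst := yq_step (s := s) (M := M) (Q := Q) (i - 1)
      rw [show i - 1 + 1 = i by omega] at hst
      have h4 : j' ≤ j'' + 1 := by
        by_contra hcon
        have h5 := ipg_sep hE (i := j') (j := j'') (by omega) hj2 hn h2'
        linarith
      have h5 : j'' = j := by omega
      refine ⟨by omega, ?_⟩
      rw [h5] at h2'
      refine NS_shift h2' (v := 2) (a' := qv E D r j) (y' := yq s M Q i) ?_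
      have e1 : yq s M Q i - qv E D r j - (yq s M Q (i - 1) - qv E D r j) = yq s M Q i - yq s M Q (i - 1) := by abel
      rw [e1]
      exact hst
  obtain ⟨k1, k2⟩ := key
  rw [k1] at hn
  refine ⟨i, hi1, hn, ?_⟩
  have h3 := near_vertex hE hj k2 hn
  linarith

/-- **the tube passes near each vertex of the path** -/
theorem pass (hE : IPg E r) (hr : 3 ≤ r) (hup : E (r - 1) = up) (hD : 2 ^ (k + 12) ≤ D) (hP : Plc E r D k s M)
    (hQ : TP E r D k M Q) {j : ℕ} (hj : j ≤ r) : ∃ i, i ≤ Q.length ∧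
      TIW.hn (yq s M Q i - qv E D r j) ≤ 3 * 2 ^ (k + 10) + 2 := by
  have e10 : (2 : ℤ) ^ (k + 10) = 512 * 2 ^ (k + 1) := by ring
  have hp2 := pw2 k
  rcases Nat.eq_zero_or_pos j with h0 | h0
  · refine ⟨0, Nat.zero_le _, ?_⟩
    rw [yq_zero, h0]
    exact hP.ht.trans (by linarith)
  · rcases Nat.lt_or_ge j r with h1 | h1
    · obtain ⟨i, h2, -, h3⟩ := pass_in hE hr hup hD hP hQ (j := j - 1) (by omega)
      rw [show j - 1 + 1 = j by omega] at h3
      exact ⟨i, h2, h3⟩
    · have h2 : j = r := by omega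
      refine ⟨Q.length, le_rfl, ?_⟩
      rw [yq_last hE hr hup hD hP hQ, h2]
      have h3 : qv E D r r = 0 := by
        unfold qv
        rw [sub_self, smul_zero]
      rw [h3, sub_zero]
      exact hP.hs.trans (by linarith)

/-! ### The top of the closed word -/

/-- in some direction, every vertex of the placed word is in the ball of radius R around the origin or below a vertex of the
path -/
def Jq (E : ℕ → Pt) (r : ℕ) (D : ℤ) (k : ℕ) (R : ℤ) (s : Pt) (M : List Bool) : Prop :=
  ∃ d ∈ dirs, ∃ j, j ≤ r ∧ ∀ i, i ≤ M.length →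
    TIW.hn (s + vx oo up M i) ≤ R ∨ ip (s + vx oo up M i) d + (3 * 2 ^ (k + 10) + 3) ≤ ip (qv E D r j) d

/-- the letters -/
lemma pv_mq {N : ℕ} {t : List Bool} (ht : t ∈ POL.Cy N) {i : ℕ} (hi : i ≤ N) : POL.pv t i = vx oo up t i :=
  POL.pv_eq (by rw [ht.1]; omega)

/-- **the top of the closed word is near the path** -/
theorem top_ex (hE : IPg E r) (hr : 3 ≤ r) (hup : E (r - 1) = up) (hD : 2 ^ (k + 12) ≤ D) (hP : Plc E r D k s M)
    (hQ : TP E r D k M Q) {R B : ℤ} (hJ : Jq E r D k R s M) (hRB : R ≤ B) (hB : 2 * (r + 1) * D + 2 ^ (k + 10) ≤ B) :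
    ∃ a, a < M.length + Q.length ∧ (M ++ Q).rotate a ∈ CyT (M.length + Q.length) ∧ TIW.hn (s + POL.pv (M ++ Q) a) ≤ B := by
  have hcy := cy_of hE hr hup hD hP hQ
  have hD0 : 0 ≤ D := le_trans (by positivity) hD
  obtain ⟨i1, hi1, -, -⟩ := pass_in hE hr hup hD hP hQ (j := 0) (by omega)
  obtain ⟨d, hd, j, hj, hJ⟩ := hJ
  obtain ⟨i0, hi0, hpass⟩ := pass hE hr hup hD hP hQ hj
  have hN : 0 < M.length + Q.length := by
    by_contra hcon
    have h1 : Q = [] := List.length_eq_zero_iff.1 (by omega)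
    have h2 : M = [] := List.length_eq_zero_iff.1 (by omega)
    subst h1 h2
    have h3 := hP.ht
    have h4 := hP.hs
    have h5 := hE.ind 0 2 (by omega) (by omega)
    obtain ⟨i2, hi2, -, h6⟩ := pass_in hE hr hup hD hP hQ (j := 0) (by omega)
    have h7 : i2 = 0 := by simpa using hi2
    subst h7
    rw [yq_zero] at h6
    have h8 := near_vertex hE (j := 0) (by omega) (w := 2 ^ (k + 1)) (w' := 0) (y := qv E D r 1) ⟨D, hD0, le_rfl, by
      rw [qv_step]
      have : qv E D r 0 + D • E 0 - (qv E D r 0 + D • E 0) = 0 := sub_self _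
      rw [this]
      have : TIW.hn (0 : Pt) = 0 := by decide
      rw [this]
      positivity⟩ ⟨0, le_rfl, hD0, by
      rw [zero_smul, add_zero, sub_self]
      decide⟩
    have h9 : TIW.hn (qv E D r 1 - qv E D r 0) ≤ (3 * 2 ^ (k + 10) + 2) + 2 ^ (k + 1) := by
      have e1 : qv E D r 1 - qv E D r 0 = (s + TIW.en ([] : List Bool) - qv E D r 0) - (s + TIW.en ([] : List Bool) - qv E D r (0 + 1)) := by
        abel
      rw [e1]
      refine (TIW.hn_sub _ _).trans ?_
      linarith
    have h10 : qv E D r 1 - qv E D r 0 = D • E 0 := by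
      rw [qv_step, add_sub_cancel_left]
    rw [h10] at h9
    have h11 := TIW.ip_le_hn (D • E 0) (hE.dir 0 (by omega))
    rw [AR.ip_smul, ip_self_dir (hE.dir 0 (by omega))] at h11
    have e12 : (2 : ℤ) ^ (k + 12) = 4 * 2 ^ (k + 10) := by ring
    have e10 : (2 : ℤ) ^ (k + 10) = 512 * 2 ^ (k + 1) := by ring
    have hp2 := pw2 k
    linarith
  obtain ⟨a, ha, htp⟩ := tp_ex hcy hN hd
  refine ⟨a, ha, ?_, ?_⟩
  · rw [cyT_eq]
    exact (top_iff hcy a).2 ⟨d, hd, htp⟩
  · rw [pv_mq hcy ha.le]
    rcases Nat.lt_or_ge M.length a with h1 | h1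
    · obtain ⟨i, rfl⟩ : ∃ i, a = M.length + i := ⟨a - M.length, by omega⟩
      exact (root_pos hE hD0 hP hQ (by omega)).trans hB
    · rw [vx_append (by omega : a ≤ M.length + 1)]
      rcases hJ a h1 with h2 | h2
      · exact h2.trans hRB
      · exfalso
        -- the tube is higher
        have h3 : ip (qv E D r j) d - (3 * 2 ^ (k + 10) + 2) ≤ ip (yq s M Q i0) d := by
          have h4 := TIW.neg_hn_le_ip (yq s M Q i0 - qv E D r j) hd
          rw [AR.ip_sub_left] at h4
          linarith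
        -- the top is not lower
        have h5 : ip (yq s M Q i0) d ≤ ip (s + vx oo up M a) d := by
          have h6 : ∀ v, v < M.length + Q.length → ip (vx oo up (M ++ Q) v) d ≤ ip (vx oo up M a) d := by
            intro v hv
            rcases eq_or_ne v a with h7 | h7
            · rw [h7, vx_append (by omega : a ≤ M.length + 1)]
            · have h8 : Lx d (POL.pv (M ++ Q) v) (POL.pv (M ++ Q) a) := by
                rcases Nat.lt_or_ge a v with h9 | h9
                · have := htp (v - a) (by omega) (by omega)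
                  rwa [show a + (v - a) = v by omega] at this
                · have h10 := htp (M.length + Q.length + v - a) (by omega) (by omega)
                  have h11 := POL.pv_per (POL.Cy.clo hcy) v
                  rw [hcy.1] at h11
                  rw [show a + (M.length + Q.length + v - a) = M.length + Q.length + v by omega, h11] at h10
                  exact h10
              rw [pv_mq hcy hv.le, pv_mq hcy ha.le, vx_append (by omega : a ≤ M.length + 1)] at h8
              rcases h8 with h9 | ⟨h9, -⟩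
              · exact h9.le
              · exact h9.le
          unfold yq
          rw [ip_add_left, ip_add_left]
          rcases Nat.lt_or_ge i0 Q.length with h7 | h7
          · have := h6 (M.length + i0) (by omega)
            linarith
          · have h8 : i0 = Q.length := by omega
            have h9 := h6 0 hN
            rw [h8, hcy.2.1]
            have h10 : vx oo up (M ++ Q) 0 = oo := rfl
            rw [h10] at h9
            linarith
        linarith

/-- the placed words with the top near the path -/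
def MWT (E : ℕ → Pt) (r : ℕ) (D : ℤ) (k : ℕ) (R : ℤ) (n : ℕ) (m : ℝ) : Set (Pt × List Bool) :=
  {x | x ∈ MW E r D k n m ∧ Jq E r D k R x.1 x.2}

/-- the closed words rooted at the top with n0 to n1 letters -/
def CWT (n0 n1 : ℕ) : Set (List Bool) := {w | ∃ N, n0 ≤ N ∧ N ≤ n1 ∧ w ∈ CyT N}

lemma cwt_mass (n0 n1 : ℕ) : gf (CWT n0 n1) ≤ ∑ N ∈ Icc n0 n1, gf (CyT N) := by
  classical
  refine le_trans (gf_mono ?_) (GgJumpAux.gf_biUnion_le _ _)
  rintro w ⟨N, h1, h2, h3⟩
  rw [Set.mem_iUnion₂]
  exact ⟨N, mem_Icc.2 ⟨h1, h2⟩, h3⟩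

/-- the placed words with a tube -/
def X3 (E : ℕ → Pt) (r : ℕ) (D : ℤ) (k : ℕ) (n : ℕ) (m : ℝ) (q0 q1 : ℕ) : Set ((Pt × List Bool) × List Bool) :=
  {x | x.1 ∈ MW E r D k n m ∧ x.2 ∈ QQ E r D k q0 q1 x.1.2}

/-- the position, the direction and the rotated word at the letter a -/
def rta (x : (Pt × List Bool) × List Bool) (a : ℕ) : (Pt × Pt) × List Bool :=
  ((x.1.1 + POL.pv (x.1.2 ++ x.2) a, POL.pd (x.1.2 ++ x.2) a), (x.1.2 ++ x.2).rotate a)

lemma rotate_mq (M Q : List Bool) {i : ℕ} (hi : i ≤ Q.length) : (M ++ Q).rotate (M.length + i) = Q.drop i ++ (M ++ Q.take i) := by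
  rw [List.rotate_eq_drop_append_take (by rw [List.length_append]; omega)]
  rw [List.drop_append, List.take_append, Nat.add_sub_cancel_left, List.drop_eq_nil_of_le (by omega),
    List.take_of_length_le (by omega), List.nil_append]

/-- **any root determines the placed word and the tube** -/
theorem rta_inj (hE : IPg E r) (hr : 3 ≤ r) (hup : E (r - 1) = up) (hD : 2 ^ (k + 12) ≤ D) {n : ℕ} {m : ℝ} {q0 q1 : ℕ}
    {x x' : (Pt × List Bool) × List Bool} (hx : x ∈ X3 E r D k n m q0 q1) (hx' : x' ∈ X3 E r D k n m q0 q1) {a a' : ℕ}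
    (ha : a < x.1.2.length + x.2.length) (ha' : a' < x'.1.2.length + x'.2.length) (he : rta x a = rta x' a') : x = x' := by
  obtain ⟨⟨s, M⟩, Q⟩ := x
  obtain ⟨⟨s', M'⟩, Q'⟩ := x'
  obtain ⟨hM, hQ⟩ := hx
  obtain ⟨hM', hQ'⟩ := hx'
  simp only at hM hQ hM' hQ' ha ha'
  simp only [rta, Prod.mk.injEq] at he
  obtain ⟨⟨e1, e2⟩, e3⟩ := he
  have hP := hM.1.1
  have hP' := hM'.1.1
  simp only at hP hP'
  have hcy := cy_of hE hr hup hD hP hQ.1
  have hcy' := cy_of hE hr hup hD hP' hQ'.1
  obtain ⟨t, ht⟩ : ∃ t, t = M ++ Q := ⟨_, rfl⟩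
  obtain ⟨t', ht'⟩ : ∃ t', t' = M' ++ Q' := ⟨_, rfl⟩
  obtain ⟨N, hN⟩ : ∃ N, N = M.length + Q.length := ⟨_, rfl⟩
  rw [← ht, ← hN] at hcy
  rw [← ht'] at hcy'
  rw [← ht, ← ht'] at e1 e2 e3
  rw [← hN] at ha
  have hlen : t.length = t'.length := by
    have := congrArg List.length e3
    rwa [List.length_rotate, List.length_rotate] at this
  have hN' : M'.length + Q'.length = N := by
    rw [← hcy'.1, ← hlen, hcy.1]
  rw [hN'] at hcy' ha'
  have hlt : t.length = N := hcy.1
  have hlt' : t'.length = N := hcy'.1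
  have hc := POL.Cy.clo hcy
  have hc' := POL.Cy.clo hcy'
  -- all positions and directions agree
  have hpos : ∀ b, b ≤ N → s + POL.pv t (a + b) = s' + POL.pv t' (a' + b) := by
    intro b hb
    have h1 := POL.rot_vx (s := t) (a := a) (i := b) (by omega)
    have h2 := POL.rot_vx (s := t') (a := a') (i := b) (by omega)
    rw [e3, h2, e2] at h1
    have h3 := mulE_inj (POL.nrm_rotTo_pd t' a') h1
    have h4 : s + POL.pv t (a + b) = (s + POL.pv t a) + (POL.pv t (a + b) - POL.pv t a) := by abel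
    have h5 : s' + POL.pv t' (a' + b) = (s' + POL.pv t' a') + (POL.pv t' (a' + b) - POL.pv t' a') := by abel
    rw [h4, h5, e1, h3]
  have hdir : ∀ b, b ≤ N → POL.pd t (a + b) = POL.pd t' (a' + b) := by
    intro b hb
    have h1 := POL.rot_dx (s := t) (a := a) (i := b) (by omega)
    have h2 := POL.rot_dx (s := t') (a := a') (i := b) (by omega)
    rw [e3, h2, e2] at h1
    exact (mulE_inj (POL.nrm_rotTo_pd t' a') h1).symm
  -- a vertex of the tube near the middle of the path
  obtain ⟨i, hi, hns, -⟩ := pass_in hE hr hup hD hP hQ.1 (j := 0) (by omega)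
  have hi1 : 1 ≤ i := by
    by_contra hcon
    have h0 : i = 0 := by omega
    rw [h0, yq_zero] at hns
    exact hP.mid M.length le_rfl (0 + 1) (by omega) (by omega) hns
  have hi2 : i < Q.length := by
    by_contra hcon
    have h0 : i = Q.length := by omega
    rw [h0, yq_last hE hr hup hD hP hQ.1] at hns
    refine hP.mid 0 (Nat.zero_le _) (0 + 1) (by omega) (by omega) ?_
    have h1 : s + vx oo up M 0 = s := add_zero s
    rw [h1]
    exact hns
  obtain ⟨v, hv⟩ : ∃ v, v = M.length + i := ⟨_, rfl⟩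
  have hvN : v < N := by omega
  obtain ⟨b, hb, hbv⟩ : ∃ b, b < N ∧ (a + b) % N = v := by
    rcases Nat.lt_or_ge v a with h1 | h1
    · refine ⟨N + v - a, by omega, ?_⟩
      rw [show a + (N + v - a) = N + v by omega, Nat.add_mod_left, Nat.mod_eq_of_lt hvN]
    · refine ⟨v - a, by omega, ?_⟩
      rw [show a + (v - a) = v by omega, Nat.mod_eq_of_lt hvN]
  obtain ⟨v', hv'⟩ : ∃ v', v' = (a' + b) % N := ⟨_, rfl⟩
  have hv'N : v' < N := by
    rw [hv']
    exact Nat.mod_lt _ (by omega)
  have p1 : POL.pv t (a + b) = vx oo up t v := by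
    rw [POL.pv_mod hc, hlt, hbv, pv_mq hcy hvN.le]
  have p2 : POL.pv t' (a' + b) = vx oo up t' v' := by
    rw [POL.pv_mod hc', hlt', ← hv', pv_mq hcy' hv'N.le]
  have hd1 : POL.pd t (a + b) = dx up t v := by
    have h1 : a + b = t.length * ((a + b) / t.length) + v := by
      rw [← hbv, hlt]
      exact (Nat.div_add_mod (a + b) N).symm
    have h2 : ∀ q j, POL.pd t (t.length * q + j) = POL.pd t j := by
      intro q j
      induction q with
      | zero => rw [Nat.mul_zero, Nat.zero_add]
      | succ q ih => rw [show t.length * (q + 1) + j = t.length + (t.length * q + j) by ring, POL.pd_per hc, ih]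
    rw [h1, h2, POL.pd_eq (by omega)]
  have hd2 : POL.pd t' (a' + b) = dx up t' v' := by
    have h1 : a' + b = t'.length * ((a' + b) / t'.length) + v' := by
      rw [hv', hlt']
      exact (Nat.div_add_mod (a' + b) N).symm
    have h2 : ∀ q j, POL.pd t' (t'.length * q + j) = POL.pd t' j := by
      intro q j
      induction q with
      | zero => rw [Nat.mul_zero, Nat.zero_add]
      | succ q ih => rw [show t'.length * (q + 1) + j = t'.length + (t'.length * q + j) by ring, POL.pd_per hc', ih]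
    rw [h1, h2, POL.pd_eq (by omega)]
  have q1' : s + vx oo up t v = s' + vx oo up t' v' := by
    rw [← p1, ← p2]
    exact hpos b hb.le
  have q2' : dx up t v = dx up t' v' := by
    rw [← hd1, ← hd2]
    exact hdir b hb.le
  have q3' : t.rotate v = t'.rotate v' := by
    have h1 : t.rotate v = t.rotate (a + b) := by
      rw [← hbv, ← hlt, List.rotate_mod]
    have h2 : t'.rotate v' = t'.rotate (a' + b) := by
      rw [hv', ← hlt', List.rotate_mod]
    rw [h1, h2, ← List.rotate_rotate, ← List.rotate_rotate, e3]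
  -- the root is in the second tube
  have hv'M : M'.length < v' := by
    by_contra hcon
    have h1 : vx oo up t' v' = vx oo up M' v' := by
      rw [ht', vx_append (by omega : v' ≤ M'.length + 1)]
    have h2 : yq s M Q i = s' + vx oo up M' v' := by
      unfold yq
      rw [← hv, ← ht, q1', h1]
    rw [h2] at hns
    exact hP'.mid v' (by omega) (0 + 1) (by omega) (by omega) hns
  obtain ⟨i', hi'⟩ : ∃ i', v' = M'.length + i' := ⟨v' - M'.length, by omega⟩
  have key : rtm ((s, M), (Q, i)) = rtm ((s', M'), (Q', i')) := by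
    simp only [rtm, Prod.mk.injEq]
    rw [← ht, ← ht', ← hv, ← hi']
    refine ⟨⟨q1', q2'⟩, ?_⟩
    rw [← rotate_mq M Q hi, ← rotate_mq M' Q' (by omega), ← ht, ← ht', ← hv, ← hi']
    exact q3'
  have h1 := rtm_inj hE hr hup hD (n := n) (m := m) (q0 := q0) (q1 := q1)
    (show ((s, M), (Q, i)) ∈ X4 E r D k n m q0 q1 from ⟨hM, hQ, hi1, hi⟩)
    (show ((s', M'), (Q', i')) ∈ X4 E r D k n m q0 q1 from ⟨hM', hQ', by show 1 ≤ i'; omega, by show i' ≤ Q'.length; omega⟩) key
  simp only [Prod.mk.injEq] at h1 ⊢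
  exact ⟨h1.1, h1.2.1⟩

end JT

end ART

end HexObs
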