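import Pool.Agent.ART.DCut2
import Pool.Agent.ART.HVDefs
import Pool.Agent.ART.JTopA

/-!
# ART, row IMG (helper21): the image of the surgery has many double cut rows

* `cutA_rot` : a row of a closed word K crossed twice, seen from the top of K;
* `row_state` : a row of the tube Q (`RowC`, in the frame of Q) above the word I is a double cut row of the closed word I ++ Q,
  seen from its top;
* **`img`** : I placed, lower than the feet of the columns; Q a tube with many rows crossed twice in the columns: the top of the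
  closed word I ++ Q is in the tube, and the rotation of I ++ Q at the top is rich.
-/

set_option autoImplicit false

namespace HexObs

namespace ART

open Finset TS SDN SIM NTA TIP ARM ARM.G3

open scoped ENNReal

namespace IM

/-! ### 1. Closed words and their rotation at the top -/

/-- a rotation of a closed word at its top -/
lemma rot_WT {N : ℕ} {K : List Bool} (hK : K ∈ POL.Cy N) (hN : 0 < N) {D : Pt} {u : ℕ} (hu : TR.TopV K D u) :
    K.rotate u ∈ WT (mulE (rotTo (POL.pd K u) up) D) := by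
  have hlen : (K.rotate u).length = N := by rw [List.length_rotate, hK.1]
  refine ⟨?_, (TR.topD_rot hK hN).2 hu, ?_⟩
  · rw [hlen]
    exact POL.Cy.rot hK u
  · intro h
    rw [h, List.length_nil] at hlen
    omega

lemma mulE_subr (a p q : Pt) : mulE a p - mulE a q = mulE a (p - q) := by
  unfold mulE
  refine Prod.ext ?_ ?_ <;> simp only [Prod.fst_sub, Prod.snd_sub] <;> ring

lemma mulE_negr (a p : Pt) : mulE a (-p) = -mulE a p := by
  unfold mulE
  refine Prod.ext ?_ ?_ <;> simp only [Prod.fst_neg, Prod.snd_neg] <;> ring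

/-- **a double cut row of the closed word K, seen from its top** -/
theorem cutA_rot {N : ℕ} {K : List Bool} (hK : K ∈ POL.Cy N) (hN : 0 < N) {D : Pt} (hD : D ∈ dirs) {u α β : ℕ}
    (hu : TR.TopV K D u) (h1 : 1 ≤ α) (h2 : β < N) (hαu : α ≤ u) (huβ : u ≤ β)
    (hα : POL.pv K α - POL.pv K (α - 1) = D) (hβ : POL.pv K (β + 1) - POL.pv K β = -D)
    (hl : ip (POL.pv K α) D = ip (POL.pv K β) D)
    (hr : ∀ v, v < N → (ip (POL.pv K β) D ≤ ip (POL.pv K v) D ↔ α ≤ v ∧ v ≤ β)) :
    CutA (mulE (rotTo (POL.pd K u) up) D) (K.rotate u)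
      (mulE (rotTo (POL.pd K u) up) (POL.pv K β - POL.pv K u), mulE (rotTo (POL.pd K u) up) (POL.pv K α - POL.pv K u)) := by
  obtain ⟨ρ, hρ⟩ : ∃ ρ, ρ = rotTo (POL.pd K u) up := ⟨_, rfl⟩
  have hρ1 : nrm ρ = 1 := by
    rw [hρ]
    exact POL.nrm_rotTo_pd K u
  have hlen : (K.rotate u).length = N := by rw [List.length_rotate, hK.1]
  have hc := POL.Cy.clo hK
  have hper : ∀ i, POL.pv K (N + i) = POL.pv K i := by
    intro i
    have := POL.pv_per hc i
    rwa [hK.1] at this
  have ev : ∀ s, s ≤ N + 1 → vx oo up (K.rotate u) s = mulE ρ (POL.pv K (u + s) - POL.pv K u) := by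
    intro s hs
    rw [hρ, POL.rot_vx (by rw [hK.1]; omega)]
  have hipρ : ∀ p q, ip (mulE ρ p) (mulE ρ q) = ip p q := by
    intro p q
    rw [ip_mulE, hρ1, one_mul]
  rw [← hρ]
  have hw := rot_WT hK hN hu
  rw [← hρ] at hw
  rw [cutA_iff (TR.dir_fwd hρ1 hD) hw]
  refine ⟨?_, β - u, N + α - 1 - u, by omega, by rw [hlen]; omega, ?_, ?_, ?_, ?_, ?_⟩
  · rw [hipρ, hipρ, ip_sub_left, ip_sub_left, hl]
  · rw [ev _ (by omega), show u + (β - u) = β by omega]
  · rw [ev _ (by omega), show u + (β - u + 1) = β + 1 by omega, mulE_subr]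
    congr 1
    have e1 : POL.pv K (β + 1) = POL.pv K β + (-D) := by rw [← hβ]; abel
    rw [e1]
    abel
  · rw [ev _ (by omega), show u + (N + α - 1 - u) = N + (α - 1) by omega, hper, mulE_subr]
    congr 1
    have e1 : POL.pv K α = POL.pv K (α - 1) + D := by rw [← hα]; abel
    rw [e1]
    abel
  · rw [ev _ (by omega), show u + (N + α - 1 - u + 1) = N + α by omega, hper]
  · intro s hs
    rw [hlen] at hs
    rw [ev _ (by omega), hipρ, hipρ, ip_sub_left, ip_sub_left]
    rcases Nat.lt_or_ge (u + s) N with h | h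
    · have h3 := hr (u + s) h
      constructor
      · intro h4
        by_contra hcon
        have h5 := h3.2 ⟨by omega, by omega⟩
        omega
      · rintro ⟨h4, h5⟩
        by_contra hcon
        have := (h3.1 (by omega)).2
        omega
    · obtain ⟨v, hv⟩ : ∃ v, u + s = N + v := ⟨u + s - N, by omega⟩
      rw [hv, hper]
      have hvN : v < N := by omega
      have h3 := hr v hvN
      constructor
      · intro h4
        refine ⟨by omega, ?_⟩
        by_contra hcon
        have h5 := h3.2 ⟨by omega, by omega⟩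
        omega
      · rintro ⟨h4, h5⟩
        by_contra hcon
        have := (h3.1 (by omega)).1
        omega

/-! ### 2. One row -/

variable {I Q : List Bool} {d : Pt}

/-- the vertices of Q in the frame of I -/
lemma pvQ (hK : I ++ Q ∈ POL.Cy (I.length + Q.length)) {i : ℕ} (hi : i ≤ Q.length) :
    POL.pv (I ++ Q) (I.length + i) = TIW.en I + mulE (TIW.rt I) (vx oo up Q i) := by
  rw [POL.pv_eq (by rw [hK.1]; omega), TIW.vx_app]

lemma pvI (hK : I ++ Q ∈ POL.Cy (I.length + Q.length)) {i : ℕ} (hi : i ≤ I.length) :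
    POL.pv (I ++ Q) i = vx oo up I i := by
  rw [POL.pv_eq (by rw [hK.1]; omega), vx_append (by omega)]

lemma ip_rt (I : List Bool) (p d : Pt) : ip (mulE (TIW.rt I) p) d = ip p (mulE (rc I) d) := by
  have h : mulE (TIW.rt I) (mulE (rc I) d) = d := rt_rc I d
  conv_lhs => rw [← h]
  rw [ip_mulE, TIW.nrm_rt, one_mul]

/-- **the double cut row of one row of the tube** -/
lemma row_state (hd : d ∈ dirs) (hK : I ++ Q ∈ POL.Cy (I.length + Q.length)) (hN : 0 < I.length + Q.length) {P P' : Pt}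
    {i j : ℕ} (hrow : RowC (mulE (rc I) d) Q i j P P')
    (hI : ∀ i, i ≤ I.length → ip (vx oo up I i - TIW.en I) d < ip P (mulE (rc I) d))
    {u : ℕ} (hu : TR.TopV (I ++ Q) d u) (huN : u < I.length + Q.length) :
    CutA (mulE (rotTo (POL.pd (I ++ Q) u) up) d) ((I ++ Q).rotate u)
      (mulE (rotTo (POL.pd (I ++ Q) u) up) (TIW.en I + mulE (TIW.rt I) P' - POL.pv (I ++ Q) u),
        mulE (rotTo (POL.pd (I ++ Q) u) up) (TIW.en I + mulE (TIW.rt I) P - POL.pv (I ++ Q) u)) ∧
      ∃ t, 0 < t ∧ t < Q.length ∧ u = I.length + t := by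
  obtain ⟨a1, a2, a3, a4, a5, a6, a7, a8⟩ := hrow
  have hrc : mulE (TIW.rt I) (mulE (rc I) d) = d := rt_rc I d
  have lQ : ∀ i, i ≤ Q.length → ip (POL.pv (I ++ Q) (I.length + i)) d = ip (TIW.en I) d + ip (vx oo up Q i) (mulE (rc I) d) := by
    intro i hi
    rw [pvQ hK hi, ip_add_left, ip_rt]
  have dQ : ∀ i j, i ≤ Q.length → j ≤ Q.length → POL.pv (I ++ Q) (I.length + i) - POL.pv (I ++ Q) (I.length + j) =
      mulE (TIW.rt I) (vx oo up Q i - vx oo up Q j) := by
    intro i j hi hj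
    rw [pvQ hK hi, pvQ hK hj, ← mulE_subr]
    abel
  have hr : ∀ v, v < I.length + Q.length →
      (ip (POL.pv (I ++ Q) (I.length + j)) d ≤ ip (POL.pv (I ++ Q) v) d ↔ I.length + (i + 1) ≤ v ∧ v ≤ I.length + j) := by
    intro v hv
    rw [lQ j (by omega), a5, ← a7]
    rcases Nat.lt_or_ge I.length v with h | h
    · obtain ⟨t, rfl⟩ : ∃ t, v = I.length + t := ⟨v - I.length, by omega⟩
      rw [lQ t (by omega)]
      have := a8 t (by omega)
      constructor
      · intro h1
        have := this.1 (by linarith)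
        omega
      · intro h1
        have := this.2 ⟨by omega, by omega⟩
        linarith
    · have h1 := hI v h
      rw [ip_sub_left] at h1
      rw [pvI hK h]
      constructor
      · intro h2
        exfalso
        linarith
      · intro h2
        omega
  have htop : ip (POL.pv (I ++ Q) (I.length + j)) d ≤ ip (POL.pv (I ++ Q) u) d := by
    have h1 := hu (I.length + j)
    rw [ip_sub_left] at h1
    rcases h1 with h1 | ⟨h1, -⟩ <;> omega
  have hu2 := (hr u huN).1 htop
  have hst := cutA_rot (α := I.length + (i + 1)) (β := I.length + j) hK hN hd hu (by omega) (by omega) hu2.1 hu2.2 (by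
      rw [show I.length + (i + 1) - 1 = I.length + i by omega, dQ (i + 1) i (by omega) (by omega), a4, a3, sub_sub_cancel,
        hrc]) (by
      rw [Nat.add_assoc, dQ (j + 1) j (by omega) (by omega), a6, a5]
      have e1 : P' - mulE (rc I) d - P' = -(mulE (rc I) d) := by abel
      rw [e1, mulE_negr, hrc]) (by rw [lQ (i + 1) (by omega), lQ j (by omega), a4, a5, a7]) hr
  rw [pvQ hK (by omega : j ≤ Q.length), pvQ hK (by omega : i + 1 ≤ Q.length), a5, a4] at hst
  exact ⟨hst, u - I.length, by omega, by omega, by omega⟩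

/-! ### 3. The nodes of the columns -/

variable {E : ℕ → Pt} {r : ℕ} {D : ℤ} {k N i0 : ℕ} {s : Pt} {M : List Bool}

lemma col_up (hC : ColE E r D N i0 d) : ∀ i, i ≤ N → qv E D r (i0 + i) = qv E D r i0 + (D * i) • d := by
  intro i
  induction i with
  | zero =>
    intro _
    simp
  | succ i ih =>
    intro hi
    rw [← Nat.add_assoc, JT.qv_step, ih (by omega), hC.ups i (by omega)]
    push_cast
    rw [mul_add, mul_one, add_smul]
    abel

lemma col_dn (hC : ColE E r D N i0 d) : ∀ i, i ≤ N → qv E D r (i0 + N + 2 + i) = qv E D r (i0 + N + 2) - (D * i) • d := by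
  intro i
  induction i with
  | zero =>
    intro _
    simp
  | succ i ih =>
    intro hi
    rw [← Nat.add_assoc, JT.qv_step, ih (by omega), hC.dns i (by omega)]
    push_cast
    rw [mul_add, mul_one, add_smul, smul_neg]
    abel

/-- the cap -/
lemma col_cap (hd : d ∈ dirs) (hC : ColE E r D N i0 d) : ∃ c δ : Pt, δ ∈ dirs ∧ ip c δ = 3 ∧ ip c d = 0 ∧ ip d δ = 1 ∧
    TIW.hn c ≤ 3 ∧ qv E D r (i0 + N + 2) = qv E D r i0 + (D * N) • d + D • c := by
  rcases hC.cap with ⟨h1, h2⟩ | ⟨h1, h2⟩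
  · refine ⟨rotR d + rotR (rotR d), rotR d, ?_, ?_, ?_, ?_, ?_, ?_⟩
    · clear h1 h2 hC
      revert d
      decide
    · clear h1 h2 hC
      revert d
      decide
    · clear h1 h2 hC
      revert d
      decide
    · clear h1 h2 hC
      revert d
      decide
    · clear h1 h2 hC
      revert d
      decide
    · rw [show i0 + N + 2 = (i0 + N + 1) + 1 by omega, JT.qv_step, JT.qv_step, h1, h2, col_up hC N le_rfl, smul_add]
      abel
  · refine ⟨rotL d + rotL (rotL d), rotL d, ?_, ?_, ?_, ?_, ?_, ?_⟩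
    · clear h1 h2 hC
      revert d
      decide
    · clear h1 h2 hC
      revert d
      decide
    · clear h1 h2 hC
      revert d
      decide
    · clear h1 h2 hC
      revert d
      decide
    · clear h1 h2 hC
      revert d
      decide
    · rw [show i0 + N + 2 = (i0 + N + 1) + 1 by omega, JT.qv_step, JT.qv_step, h1, h2, col_up hC N le_rfl, smul_add]
      abel

/-! ### 4. The main row -/

lemma nm1 {D i t : ℤ} (hD : 0 < D) (hi : 1 ≤ i) (ht : 0 ≤ t) : D ≤ D * i + t := by nlinarith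

lemma nm2 {D i t n : ℤ} (hD : 0 < D) (hi : i + 2 ≤ n) (ht : t ≤ D) : D * i + t ≤ D * n - D := by nlinarith

lemma nm3 {D i t n : ℤ} (hD : 0 < D) (hi : i + 1 ≤ n) (ht : t ≤ D) : D * i + t ≤ D * n := by nlinarith

/-- the levels of the points near a segment -/
lemma near_lev {a e p : Pt} {D w : ℤ} (hd : d ∈ dirs) (h : AR.NS a e D w p) : ∃ t : ℤ, 0 ≤ t ∧ t ≤ D ∧
    TIW.hn (p - (a + t • e)) ≤ w ∧ ip a d + t * ip e d - w ≤ ip p d ∧ ip p d ≤ ip a d + t * ip e d + w := by
  obtain ⟨t, h1, h2, h3⟩ := h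
  refine ⟨t, h1, h2, h3, ?_, ?_⟩
  · have h4 := TIW.neg_hn_le_ip (p - (a + t • e)) hd
    rw [ip_sub_left, ip_add_left, AR.ip_smul] at h4
    linarith
  · have h4 := TIW.ip_le_hn (p - (a + t • e)) hd
    rw [ip_sub_left, ip_add_left, AR.ip_smul] at h4
    linarith

lemma hn_smul_le {t D : ℤ} (ht : 0 ≤ t) (htD : t ≤ D) {v : Pt} {c : ℤ} (hv : TIW.hn v ≤ c) : TIW.hn (t • v) ≤ c * D := by
  have h0 := TIW.hn_nonneg v
  have h1 : TIW.hn (t • v) ≤ t * TIW.hn v := by
    refine TIW.hn_le fun d hd => ?_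
    rw [AR.ip_smul]
    exact mul_le_mul_of_nonneg_left (TIW.ip_le_hn v hd) ht
  refine h1.trans ?_
  have h2 : t * TIW.hn v ≤ D * TIW.hn v := mul_le_mul_of_nonneg_right htD h0
  have h3 : D * TIW.hn v ≤ D * c := mul_le_mul_of_nonneg_left hv (ht.trans htD)
  linarith

lemma hn_dir {e : Pt} (he : e ∈ dirs) : TIW.hn e ≤ 2 := by
  revert e
  decide

/-- the rotation of the closed word, and the direction -/
lemma rot_dir (hK : I ++ Q ∈ POL.Cy (I.length + Q.length)) {t : ℕ} (ht : t ≤ Q.length) :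
    (I ++ Q).rotate (I.length + t) = Q.drop t ++ (I ++ Q.take t) ∧
      rotTo (POL.pd (I ++ Q) (I.length + t)) up = TIW.rt (Q.drop t) := by
  have e1 := JT.rotate_mq I Q ht
  refine ⟨e1, ?_⟩
  obtain ⟨ρ, hρ⟩ : ∃ ρ, ρ = rotTo (POL.pd (I ++ Q) (I.length + t)) up := ⟨_, rfl⟩
  have hlen : (Q.drop t).length = Q.length - t := List.length_drop
  have h1 : dx up ((I ++ Q).rotate (I.length + t)) (Q.drop t).length =
      mulE ρ (POL.pd (I ++ Q) (I.length + t + (Q.drop t).length)) := by
    rw [hρ]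
    exact POL.rot_dx (by rw [hK.1, hlen]; omega)
  have h2 : POL.pd (I ++ Q) (I.length + t + (Q.drop t).length) = up := by
    have h3 := POL.pd_per (POL.Cy.clo hK) 0
    rw [hK.1, Nat.add_zero] at h3
    rw [show I.length + t + (Q.drop t).length = I.length + Q.length by rw [hlen]; omega, h3]
    rfl
  rw [e1, h2, dx_apL _ _ le_rfl] at h1
  have h3 : mulE (TIW.rt (Q.drop t)) up = mulE ρ up := by
    rw [TIW.rt_up]
    exact h1
  rw [mulE_comm _ up, mulE_comm _ up] at h3
  rw [← hρ]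
  exact (mulE_inj (mem_dirs.1 up_dirs) h3).symm

/-- **row IMG** -/
theorem imgS (N : ℕ) : ImgS N := by
  intro H hH κ k r i0 D E d s I Q hκ hD1 hD2 hr hE hup hup2 hd hC hP hI hQR
  obtain ⟨hQ, S0, hcard, hS0⟩ := hQR
  have hk0 : (0 : ℤ) < 2 ^ k := by positivity
  have e10 : (2 : ℤ) ^ (k + 10) = 1024 * 2 ^ k := by ring
  have e12 : (2 : ℤ) ^ (k + 12) = 4096 * 2 ^ k := by ring
  have hk1 : (1 : ℤ) ≤ 2 ^ k := one_le_pow₀ (by norm_num)
  have hDk : 147456 * 2 ^ k ≤ D := by
    refine le_trans ?_ hD1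
    have h1 : (2 : ℤ) ^ 13 ≤ H := by exact_mod_cast hH
    have h2 : (2 : ℤ) ^ 13 * 2 ^ k ≤ H * 2 ^ k := mul_le_mul_of_nonneg_right h1 hk0.le
    have h3 : (2 : ℤ) ^ 13 = 8192 := by norm_num
    rw [h3] at h2
    linarith
  have hD : (2 : ℤ) ^ (k + 12) ≤ D := by linarith
  have hD0 : 0 < D := by linarith
  have hr3 : 3 ≤ r := by omega
  have hK := cy_of hE hr3 hup hD hP hQ
  -- a row
  have hne : S0.Nonempty := by
    rw [← Finset.card_pos]
    have h1 : (0 : ℝ) < κ * Real.sqrt (2 ^ k) := by positivity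
    have h2 : (0 : ℝ) < (S0.card : ℝ) := lt_of_lt_of_le h1 hcard
    exact_mod_cast h2
  have hQpos : 0 < Q.length := by
    obtain ⟨z, hz⟩ := hne
    obtain ⟨-, i, j, hrow⟩ := hS0 z hz
    have := hrow.le
    omega
  have hNp : 0 < I.length + Q.length := by omega
  obtain ⟨u, huN, hu⟩ := TR.ex_top hK hNp d
  obtain ⟨F, hF⟩ : ∃ F, F = ip (qv E D r i0) d := ⟨_, rfl⟩
  have hdd : ip d d = 2 := ip_dd hd
  obtain ⟨c, δ, hδ, c1, c2, c3, c4, hcap⟩ := col_cap hd hC
  -- the levels of the nodes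
  have lup : ∀ i, i ≤ N → ip (qv E D r (i0 + i)) d = F + 2 * (D * i) := by
    intro i hi
    rw [col_up hC i hi, ip_add_left, AR.ip_smul, hdd, ← hF]
    ring
  -- the points of the window
  have hwin : ∀ z ∈ S0, (∃ q : ℤ, D ≤ q ∧ q ≤ D * N - D ∧
      TIW.hn (s + TIW.en I + mulE (TIW.rt I) z.1 - (qv E D r i0 + q • d)) ≤ 2 ^ (k + 10)) ∧
      (∃ q : ℤ, D ≤ q ∧ q ≤ D * N - D ∧ TIW.hn (s + TIW.en I + mulE (TIW.rt I) z.2 -
        (qv E D r (i0 + N + 2) - q • d)) ≤ 2 ^ (k + 10)) := by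
    intro z hz
    obtain ⟨⟨⟨j1, a1, a2, a3⟩, j2, b1, b2, b3⟩, -⟩ := hS0 z hz
    constructor
    · obtain ⟨t, h1, h2, h3⟩ := near_abs hP (j := j1) a3
      obtain ⟨i, rfl⟩ : ∃ i, j1 = i0 + i := ⟨j1 - i0, by omega⟩
      rw [hC.ups i (by omega), col_up hC i (by omega)] at h3
      refine ⟨D * i + t, ?_, ?_, ?_⟩
      · exact nm1 hD0 (by exact_mod_cast (by omega : 1 ≤ i)) h1
      · exact nm2 hD0 (by exact_mod_cast (by omega : i + 2 ≤ N)) h2
      · rw [add_smul, ← add_assoc]
        exact h3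
    · obtain ⟨t, h1, h2, h3⟩ := near_abs hP (j := j2) b3
      obtain ⟨i, rfl⟩ : ∃ i, j2 = i0 + N + 2 + i := ⟨j2 - (i0 + N + 2), by omega⟩
      rw [hC.dns i (by omega), col_dn hC i (by omega)] at h3
      refine ⟨D * i + t, ?_, ?_, ?_⟩
      · exact nm1 hD0 (by exact_mod_cast (by omega : 1 ≤ i)) h1
      · exact nm2 hD0 (by exact_mod_cast (by omega : i + 2 ≤ N)) h2
      · have e1 : qv E D r (i0 + N + 2) - (D * i + t) • d = qv E D r (i0 + N + 2) - (D * ↑i) • d + t • -d := by
          rw [add_smul, smul_neg]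
          abel
        rw [e1]
        exact h3
  -- the levels of the rows
  have hlev : ∀ z ∈ S0, F + 2 * D - 2 ^ (k + 10) ≤ ip (s + TIW.en I + mulE (TIW.rt I) z.1) d ∧
      ip (s + TIW.en I + mulE (TIW.rt I) z.1) d ≤ F + 2 * (D * N - D) + 2 ^ (k + 10) := by
    intro z hz
    obtain ⟨⟨q, h1, h2, h3⟩, -⟩ := hwin z hz
    have h4 := TIW.ip_le_hn (s + TIW.en I + mulE (TIW.rt I) z.1 - (qv E D r i0 + q • d)) hd
    have h5 := TIW.neg_hn_le_ip (s + TIW.en I + mulE (TIW.rt I) z.1 - (qv E D r i0 + q • d)) hd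
    rw [AR.ip_sub_left, ip_add_left (qv E D r i0), AR.ip_smul, hdd, ← hF] at h4 h5
    constructor <;> linarith
  have habs : ∀ p : Pt, ip (s + TIW.en I + mulE (TIW.rt I) p) d = ip (s + TIW.en I) d + ip p (mulE (rc I) d) := by
    intro p
    rw [ip_add_left, ip_rt]
  -- the states
  have hst : ∀ z ∈ S0, CutA (mulE (rotTo (POL.pd (I ++ Q) u) up) d) ((I ++ Q).rotate u)
      (mulE (rotTo (POL.pd (I ++ Q) u) up) (TIW.en I + mulE (TIW.rt I) z.2 - POL.pv (I ++ Q) u),
        mulE (rotTo (POL.pd (I ++ Q) u) up) (TIW.en I + mulE (TIW.rt I) z.1 - POL.pv (I ++ Q) u)) ∧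
      ∃ t, 0 < t ∧ t < Q.length ∧ u = I.length + t := by
    intro z hz
    obtain ⟨-, i, j, hrow⟩ := hS0 z hz
    refine row_state hd hK hNp hrow (fun i hi => ?_) hu huN
    have h1 := hI i hi
    have h2 := (hlev z hz).1
    rw [habs] at h2
    rw [AR.ip_sub_left]
    rw [← hF] at h1
    rw [ip_add_left] at h1 h2
    linarith
  obtain ⟨z0, hz0⟩ := hne
  obtain ⟨-, t, ht0, ht1, hut⟩ := hst z0 hz0
  obtain ⟨r1, r2⟩ := rot_dir hK ht1.le
  rw [hut, r1, r2] at hst
  have hWT := rot_WT hK hNp hu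
  rw [hut, r1, r2] at hWT
  -- the top in the absolute frame
  obtain ⟨Tp, hTp⟩ : ∃ Tp, Tp = s + POL.pv (I ++ Q) (I.length + t) := ⟨_, rfl⟩
  have hTp2 : Tp = JT.yq s I Q t := by
    rw [hTp, POL.pv_eq (by rw [hK.1]; omega)]
    rfl
  obtain ⟨i1, hi1, hpass⟩ := JT.pass hE hr3 hup hD hP hQ (j := i0 + N) (by have := hC.le; omega)
  have htop : F + 2 * (D * N) - (3 * 2 ^ (k + 10) + 2) ≤ ip Tp d := by
    have h1 := TIW.neg_hn_le_ip (JT.yq s I Q i1 - qv E D r (i0 + N)) hd
    rw [AR.ip_sub_left, lup N le_rfl] at h1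
    have h2 := hu (I.length + i1)
    rw [hut, AR.ip_sub_left, POL.pv_eq (by rw [hK.1]; omega)] at h2
    have h3 : ip (JT.yq s I Q i1) d = ip s d + ip (vx oo up (I ++ Q) (I.length + i1)) d := ip_add_left _ _ _
    rw [hTp, ip_add_left]
    rcases h2 with h2 | ⟨h2, -⟩ <;> linarith
  -- the top is near the columns or the cap
  have hnear : ∃ q : ℤ, 0 ≤ q ∧ q ≤ D * N ∧ (TIW.hn (Tp - (qv E D r i0 + q • d)) ≤ 4 * D + 2 ^ (k + 10) ∨
      TIW.hn (Tp - (qv E D r i0 + q • d + D • c)) ≤ 2 ^ (k + 10)) := by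
    obtain ⟨j, hj, hns⟩ := TP.rgA hP hQ (i := t) ht1.le
    have hns' : AR.NS (qv E D r j) (E j) D (2 ^ (k + 10)) Tp := by
      rw [hTp2]
      exact hns
    obtain ⟨τ, t1, t2, t3, t4, t5⟩ := near_lev hd hns'
    have hle := hC.le
    have hqj : ip (qv E D r (j + 1)) d = ip (qv E D r j) d + D * ip (E j) d := by
      rw [JT.qv_step, ip_add_left, AR.ip_smul]
    -- a convex combination of the levels of the two ends
    have hconv : ∀ L : ℤ, ip (qv E D r j) d ≤ L → ip (qv E D r (j + 1)) d ≤ L → ip (qv E D r j) d + τ * ip (E j) d ≤ L := by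
      intro L h1 h2
      rw [hqj] at h2
      rcases le_or_gt 0 (ip (E j) d) with h | h
      · have : τ * ip (E j) d ≤ D * ip (E j) d := mul_le_mul_of_nonneg_right t2 h
        linarith
      · have : τ * ip (E j) d ≤ 0 := mul_nonpos_of_nonneg_of_nonpos t1 h.le
        linarith
    have hN1 : 1 ≤ N := by
      obtain ⟨⟨q, h1, h2, -⟩, -⟩ := hwin z0 hz0
      by_contra hcon
      have h0 : N = 0 := by omega
      rw [h0] at h2
      push_cast at h2
      linarith
    have hN1' : (1 : ℤ) ≤ N := by exact_mod_cast hN1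
    have hDN : D ≤ D * N := by
      have := nm1 hD0 hN1' le_rfl
      linarith
    have hfoot : ip (qv E D r (i0 + 2 * N + 2)) d = F := by
      rw [show i0 + 2 * N + 2 = i0 + N + 2 + N by omega, col_dn hC N le_rfl, AR.ip_sub_left, AR.ip_smul, hdd, hcap,
        ip_add_left, ip_add_left, AR.ip_smul, AR.ip_smul, hdd, c2, ← hF]
      ring
    have hj1 : i0 ≤ j := by
      by_contra hcon
      have h1 := hC.lowE j (by omega) (Or.inl (by omega))
      have h2 : ip (qv E D r (j + 1)) d ≤ F := by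
        rcases Nat.lt_or_ge (j + 1) i0 with h | h
        · have h3 := hC.lowE (j + 1) (by omega) (Or.inl h)
          linarith
        · have h3 : j + 1 = i0 := by omega
          rw [h3, hF]
      have h4 := hconv F (by linarith) h2
      linarith
    have hj2 : j < i0 + 2 * N + 2 := by
      by_contra hcon
      have h1 : ip (qv E D r j) d ≤ F := by
        rcases Nat.lt_or_ge (i0 + 2 * N + 2) j with h | h
        · have h3 := hC.lowE j (by omega) (Or.inr h)
          linarith
        · have h3 : j = i0 + 2 * N + 2 := by omega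
          rw [h3, hfoot]
      have h2 := hC.lowE (j + 1) (by omega) (Or.inr (by omega))
      have h4 := hconv F h1 (by linarith)
      linarith
    rcases Nat.lt_or_ge j (i0 + N) with h | h
    · -- the upward column
      obtain ⟨i, rfl⟩ : ∃ i, j = i0 + i := ⟨j - i0, by omega⟩
      rw [hC.ups i (by omega), col_up hC i (by omega)] at t3
      have hi : (i : ℤ) + 1 ≤ N := by exact_mod_cast (by omega : i + 1 ≤ N)
      have hi0 : (0 : ℤ) ≤ i := Int.natCast_nonneg i
      refine ⟨D * i + τ, by positivity, nm3 hD0 hi t2, Or.inl ?_⟩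
      rw [add_smul, ← add_assoc]
      linarith
    · rcases Nat.lt_or_ge j (i0 + N + 2) with h' | h'
      · -- the cap
        refine ⟨D * N, by positivity, le_rfl, Or.inl ?_⟩
        have hEj : ∀ j, j < r → TIW.hn (E j) ≤ 2 := fun j hj => hn_dir (hE.dir j hj)
        have hstep : TIW.hn (qv E D r j - qv E D r (i0 + N)) ≤ 2 * D := by
          rcases Nat.lt_or_ge (i0 + N) j with h1 | h1
          · have h2 : j = (i0 + N) + 1 := by omega
            have e1 : qv E D r j - qv E D r (i0 + N) = D • E (i0 + N) := by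
              rw [h2, JT.qv_step]
              abel
            rw [e1]
            exact hn_smul_le hD0.le le_rfl (hEj _ (by omega))
          · have h2 : j = i0 + N := by omega
            rw [h2, sub_self]
            have : TIW.hn (0 : Pt) = 0 := by decide
            rw [this]
            linarith
        have h3 := hn_smul_le t1 t2 (hEj j hj)
        have e1 : Tp - (qv E D r i0 + (D * ↑N) • d) = (Tp - (qv E D r j + τ • E j)) + ((qv E D r j - qv E D r (i0 + N)) + τ • E j) := by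
          rw [col_up hC N le_rfl]
          abel
        rw [e1]
        have h4 := TIW.hn_add (Tp - (qv E D r j + τ • E j)) ((qv E D r j - qv E D r (i0 + N)) + τ • E j)
        have h5 := TIW.hn_add (qv E D r j - qv E D r (i0 + N)) (τ • E j)
        linarith
      · -- the downward column
        obtain ⟨i, rfl⟩ : ∃ i, j = i0 + N + 2 + i := ⟨j - (i0 + N + 2), by omega⟩
        rw [hC.dns i (by omega), col_dn hC i (by omega), hcap] at t3
        have hi : (i : ℤ) + 1 ≤ N := by exact_mod_cast (by omega : i + 1 ≤ N)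
        have hi0 : (0 : ℤ) ≤ i := Int.natCast_nonneg i
        refine ⟨D * N - (D * i + τ), sub_nonneg.2 (nm3 hD0 hi t2), sub_le_self _ (add_nonneg (mul_nonneg hD0.le hi0) t1),
          Or.inr ?_⟩
        have e1 : qv E D r i0 + (D * ↑N - (D * ↑i + τ)) • d + D • c =
            qv E D r i0 + (D * ↑N) • d + D • c - (D * ↑i) • d + τ • -d := by
          rw [sub_smul, add_smul, smul_neg]
          abel
        rw [e1]
        exact t3
  -- the distance between the top and the points of the window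
  have hdist : ∀ (p : Pt) (q : ℤ), D ≤ q → q ≤ D * N - D → (TIW.hn (p - (qv E D r i0 + q • d)) ≤ 2 ^ (k + 10) ∨
      TIW.hn (p - (qv E D r (i0 + N + 2) - q • d)) ≤ 2 ^ (k + 10)) → TIW.hn (p - Tp) ≤ (2 * N + 8) * D := by
    intro p q h1 h2 h3
    have eN : (2 * (N : ℤ) + 8) * D = 2 * (D * N) + 8 * D := by ring
    rw [eN]
    obtain ⟨q', h4, h5, h6⟩ := hnear
    -- p near qv i0 + q1 d + e D c, e = 0, 1
    obtain ⟨q1, g1, g2, v1, g3, g4⟩ : ∃ q1 : ℤ, 0 ≤ q1 ∧ q1 ≤ D * N ∧ ∃ v1 : Pt, TIW.hn v1 ≤ 3 * D ∧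
        TIW.hn (p - (qv E D r i0 + q1 • d + v1)) ≤ 2 ^ (k + 10) ∧ (v1 = 0 ∨ v1 = D • c) := by
      rcases h3 with h3 | h3
      · refine ⟨q, by linarith, by linarith, 0, ?_, ?_, Or.inl rfl⟩
        · have : TIW.hn (0 : Pt) = 0 := by decide
          rw [this]
          linarith
        · rw [add_zero]
          exact h3
      · refine ⟨D * N - q, by linarith, by linarith, D • c, hn_smul_le hD0.le le_rfl c4, ?_, Or.inr rfl⟩
        have e1 : qv E D r i0 + (D * ↑N - q) • d + D • c = qv E D r (i0 + N + 2) - q • d := by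
          rw [hcap, sub_smul]
          abel
        rw [e1]
        exact h3
    obtain ⟨g4, g5⟩ := g4
    have hdiff : TIW.hn ((q1 - q') • d) ≤ 2 * (D * N) := by
      rcases le_total q' q1 with h | h
      · exact hn_smul_le (by linarith) (by linarith) (hn_dir hd)
      · have e1 : (q1 - q') • d = -((q' - q1) • d) := by
          rw [← neg_smul]
          congr 1
          ring
        rw [e1, TIW.hn_neg]
        exact hn_smul_le (by linarith) (by linarith) (hn_dir hd)
    rcases h6 with h6 | h6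
    · have e1 : p - Tp = (p - (qv E D r i0 + q1 • d + v1)) + (((q1 - q') • d + v1) - (Tp - (qv E D r i0 + q' • d))) := by
        rw [sub_smul]
        abel
      rw [e1]
      have h7 := TIW.hn_add (p - (qv E D r i0 + q1 • d + v1)) (((q1 - q') • d + v1) - (Tp - (qv E D r i0 + q' • d)))
      have h8 := TIW.hn_sub ((q1 - q') • d + v1) (Tp - (qv E D r i0 + q' • d))
      have h9 := TIW.hn_add ((q1 - q') • d) v1
      linarith
    · have hv : TIW.hn (v1 - D • c) ≤ 3 * D := by
        rcases g5 with g5 | g5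
        · rw [g5, zero_sub, TIW.hn_neg]
          exact hn_smul_le hD0.le le_rfl c4
        · rw [g5, sub_self]
          have : TIW.hn (0 : Pt) = 0 := by decide
          rw [this]
          linarith
      have e1 : p - Tp = (p - (qv E D r i0 + q1 • d + v1)) + (((q1 - q') • d + (v1 - D • c)) -
          (Tp - (qv E D r i0 + q' • d + D • c))) := by
        rw [sub_smul]
        abel
      rw [e1]
      have h7 := TIW.hn_add (p - (qv E D r i0 + q1 • d + v1)) (((q1 - q') • d + (v1 - D • c)) -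
          (Tp - (qv E D r i0 + q' • d + D • c)))
      have h8 := TIW.hn_sub ((q1 - q') • d + (v1 - D • c)) (Tp - (qv E D r i0 + q' • d + D • c))
      have h9 := TIW.hn_add ((q1 - q') • d) (v1 - D • c)
      linarith
  -- conclusion
  have hrt : nrm (TIW.rt (Q.drop t)) = 1 := TIW.nrm_rt _
  obtain ⟨f, hf⟩ : ∃ f : Pt × Pt → Pt × Pt, f = fun z => (mulE (TIW.rt (Q.drop t)) (TIW.en I + mulE (TIW.rt I) z.2 -
    POL.pv (I ++ Q) (I.length + t)), mulE (TIW.rt (Q.drop t)) (TIW.en I + mulE (TIW.rt I) z.1 -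
    POL.pv (I ++ Q) (I.length + t))) := ⟨_, rfl⟩
  have hinj : Function.Injective f := by
    rintro ⟨a, b⟩ ⟨a', b'⟩ h
    rw [hf] at h
    simp only [Prod.mk.injEq] at h
    obtain ⟨h1, h2⟩ := h
    have h3 := mulE_inj hrt h1
    have h4 := mulE_inj hrt h2
    rw [sub_left_inj, add_right_inj] at h3 h4
    have h5 := mulE_inj (TIW.nrm_rt I) h3
    have h6 := mulE_inj (TIW.nrm_rt I) h4
    rw [h5, h6]
  have htt : Q = Q.take t ++ Q.drop t := (List.take_append_drop t Q).symm
  refine ⟨Q.take t, Q.drop t, mulE (TIW.rt (Q.drop t)) d, htt, ?_, TR.dir_fwd hrt hd, ?_, hWT, S0.map ⟨f, hinj⟩, ?_, ?_⟩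
  · intro h
    have h1 := congrArg List.length h
    rw [List.length_drop, List.length_nil] at h1
    omega
  · rw [mulE_assoc, mulE_comm (conjE _), mulE_conjE, hrt, mulE_one]
  · rw [Finset.card_map]
    exact hcard
  · intro z hz
    rw [Finset.mem_map] at hz
    obtain ⟨z, hz, rfl⟩ := hz
    simp only [Function.Embedding.coeFn_mk]
    obtain ⟨hcut, -⟩ := hst z hz
    obtain ⟨-, i, j, hrow⟩ := hS0 z hz
    have hl := hrow.lev
    obtain ⟨⟨q1, a1, a2, a3⟩, ⟨q2, b1, b2, b3⟩⟩ := hwin z hz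
    have e1 : ∀ p : Pt, TIW.en I + mulE (TIW.rt I) p - POL.pv (I ++ Q) (I.length + t) =
        s + TIW.en I + mulE (TIW.rt I) p - Tp := by
      intro p
      rw [hTp]
      abel
    have hlev2 : ip (s + TIW.en I + mulE (TIW.rt I) z.2) d = ip (s + TIW.en I + mulE (TIW.rt I) z.1) d := by
      rw [habs, habs, hl]
    have hup1 := (hlev z hz).2
    rw [hf]
    refine ⟨hcut, ?_, ?_, ?_, ?_⟩
    · show D ≤ -ip (mulE (TIW.rt (Q.drop t)) (TIW.en I + mulE (TIW.rt I) z.2 - POL.pv (I ++ Q) (I.length + t)))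
        (mulE (TIW.rt (Q.drop t)) d)
      rw [ip_mulE, hrt, one_mul, e1, AR.ip_sub_left, hlev2]
      linarith
    · show TIW.hn (mulE (TIW.rt (Q.drop t)) (TIW.en I + mulE (TIW.rt I) z.2 - POL.pv (I ++ Q) (I.length + t))) ≤ _
      rw [TIW.hn_mulE hrt, e1]
      exact hdist _ q2 b1 b2 (Or.inr b3)
    · show TIW.hn (mulE (TIW.rt (Q.drop t)) (TIW.en I + mulE (TIW.rt I) z.1 - POL.pv (I ++ Q) (I.length + t))) ≤ _
      rw [TIW.hn_mulE hrt, e1]
      exact hdist _ q1 a1 a2 (Or.inl a3)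
    · show D ≤ TIW.hn (mulE (TIW.rt (Q.drop t)) (TIW.en I + mulE (TIW.rt I) z.2 - POL.pv (I ++ Q) (I.length + t)) -
        mulE (TIW.rt (Q.drop t)) (TIW.en I + mulE (TIW.rt I) z.1 - POL.pv (I ++ Q) (I.length + t)))
      rw [mulE_subr, TIW.hn_mulE hrt, e1, e1]
      obtain ⟨x, hx⟩ : ∃ x, x = s + TIW.en I + mulE (TIW.rt I) z.1 := ⟨_, rfl⟩
      obtain ⟨y, hy⟩ : ∃ y, y = s + TIW.en I + mulE (TIW.rt I) z.2 := ⟨_, rfl⟩
      rw [← hx] at a3 hlev2 ⊢
      rw [← hy] at b3 hlev2 ⊢
      have e2 : y - Tp - (x - Tp) = y - x := by abel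
      rw [e2]
      have m1 := TIW.ip_le_hn (x - (qv E D r i0 + q1 • d)) hd
      have m2 := TIW.neg_hn_le_ip (x - (qv E D r i0 + q1 • d)) hd
      have m3 := TIW.ip_le_hn (y - (qv E D r (i0 + N + 2) - q2 • d)) hd
      have m4 := TIW.neg_hn_le_ip (y - (qv E D r (i0 + N + 2) - q2 • d)) hd
      rw [hcap] at m3 m4
      simp only [AR.ip_sub_left, ip_add_left, AR.ip_smul, hdd, c2] at m1 m2 m3 m4
      have n1 := TIW.ip_le_hn (x - (qv E D r i0 + q1 • d)) hδ
      have n2 := TIW.neg_hn_le_ip (x - (qv E D r i0 + q1 • d)) hδ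
      have n3 := TIW.ip_le_hn (y - (qv E D r (i0 + N + 2) - q2 • d)) hδ
      have n4 := TIW.neg_hn_le_ip (y - (qv E D r (i0 + N + 2) - q2 • d)) hδ
      have n5 := TIW.ip_le_hn (y - x) hδ
      rw [hcap] at n3 n4
      simp only [AR.ip_sub_left, ip_add_left, AR.ip_smul, c1, c3] at n1 n2 n3 n4 n5
      rw [hcap] at b3
      linarith

end IM

end ART

end HexObs
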