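import Pool.Agent.ART.JTopB
import Pool.Agent.ARM.JMassA
import Pool.Agent.ARM2.TubeF

/-!
# ART, row G2 (helper87): `jMassT : JMassT`
-/

set_option autoImplicit false

namespace HexObs

namespace ART

namespace JT

open Finset TS SDN SIM NTA TIP ARM ARM.G3

open scoped ENNReal

variable {E : ℕ → Pt} {r : ℕ} {D : ℤ} {k : ℕ}

lemma ml_p (k : ℕ) : 0 < ml k := by
  unfold ml
  positivity

lemma max_shiftT {n z : ℕ} {m : ℝ} (hm : 0 < m) :
    (max ((n - z : ℕ) : ℝ) m) ^ (-(5 / 2 : ℝ)) ≤ (max (n : ℝ) m) ^ (-(5 / 2 : ℝ)) * (1 + (z : ℝ) / m) ^ 3 := by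
  obtain ⟨a, ha⟩ : ∃ a, a = max ((n - z : ℕ) : ℝ) m := ⟨_, rfl⟩
  obtain ⟨b, hb⟩ : ∃ b, b = max (n : ℝ) m := ⟨_, rfl⟩
  rw [← ha, ← hb]
  have hma : m ≤ a := by
    rw [ha]
    exact le_max_right _ _
  have ha0 : 0 < a := lt_of_lt_of_le hm hma
  have hb0 : 0 < b := by
    rw [hb]
    exact lt_of_lt_of_le hm (le_max_right _ _)
  have hz : 0 ≤ (z : ℝ) / m := by positivity
  have hba : b ≤ a * (1 + (z : ℝ) / m) := by
    rw [hb]
    refine max_le ?_ ?_
    · have h1 : (n : ℝ) ≤ ((n - z : ℕ) : ℝ) + z := by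
        have : n ≤ (n - z) + z := by omega
        exact_mod_cast this
      have h2 : ((n - z : ℕ) : ℝ) ≤ a := by
        rw [ha]
        exact le_max_left _ _
      have h3 : (z : ℝ) ≤ a * ((z : ℝ) / m) := by
        rw [← mul_div_assoc, le_div_iff₀ hm, mul_comm]
        exact mul_le_mul_of_nonneg_right hma (by positivity)
      linarith
    · nlinarith
  have h4 : b ^ (5 / 2 : ℝ) ≤ a ^ (5 / 2 : ℝ) * (1 + (z : ℝ) / m) ^ 3 := by
    calc b ^ (5 / 2 : ℝ) ≤ (a * (1 + (z : ℝ) / m)) ^ (5 / 2 : ℝ) := Real.rpow_le_rpow hb0.le hba (by norm_num)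
      _ = a ^ (5 / 2 : ℝ) * (1 + (z : ℝ) / m) ^ (5 / 2 : ℝ) := Real.mul_rpow ha0.le (by positivity)
      _ ≤ _ := by
        refine mul_le_mul_of_nonneg_left ?_ (by positivity)
        rw [← Real.rpow_natCast (1 + (z : ℝ) / m) 3]
        refine Real.rpow_le_rpow_of_exponent_le (by linarith) ?_
        norm_num
  rw [Real.rpow_neg ha0.le, Real.rpow_neg hb0.le]
  have h5 : 0 < a ^ (5 / 2 : ℝ) := Real.rpow_pos_of_pos ha0 _
  have h6 : 0 < b ^ (5 / 2 : ℝ) := Real.rpow_pos_of_pos hb0 _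
  rw [inv_mul_eq_div, le_div_iff₀ h6, inv_mul_le_iff₀ h5]
  exact h4

/-- the closed words rooted at the top in a window -/
lemma cwt_P1 {C : ℝ} (hC : 0 < C) (hP : ∀ N : ℕ, 1 ≤ N → gf (CyT N) ≤ ENNReal.ofReal (C * (N : ℝ) ^ (-(5 / 2) : ℝ)))
    {n0 n1 : ℕ} {x : ℝ} (hx : 0 < x) (hn : 1 ≤ n0) (hx0 : x ≤ n0) :
    gf (CWT n0 n1) ≤ ENNReal.ofReal (((n1 + 1 - n0 : ℕ) : ℝ) * (C * x ^ (-(5 / 2 : ℝ)))) := by
  refine (cwt_mass n0 n1).trans ?_
  have h1 : ∀ N ∈ Icc n0 n1, gf (CyT N) ≤ ENNReal.ofReal (C * x ^ (-(5 / 2 : ℝ))) := by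
    intro N hN
    rw [mem_Icc] at hN
    refine (hP N (by omega)).trans (ENNReal.ofReal_le_ofReal ?_)
    refine mul_le_mul_of_nonneg_left ?_ hC.le
    refine Real.rpow_le_rpow_of_nonpos hx ?_ (by norm_num)
    exact hx0.trans (by exact_mod_cast hN.1)
  refine (sum_le_sum h1).trans ?_
  rw [sum_const, Nat.card_Icc, nsmul_eq_mul]
  have h6 : (((n1 + 1 - n0 : ℕ) : ℕ) : ℝ≥0∞) = ENNReal.ofReal ((n1 + 1 - n0 : ℕ) : ℝ) := (ENNReal.ofReal_natCast _).symm
  rw [h6, ← ENNReal.ofReal_mul (by positivity)]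

/-- from the word to the placed word -/
lemma jp_jq {s : Pt} {M : List Bool} {R R' : ℤ} (h : Jp E r D k R M) (hs : TIW.hn s ≤ 2 ^ k) (hR : R + 2 ^ k ≤ R') :
    Jq E r D k R' s M := by
  obtain ⟨d, hd, j, hj, h⟩ := h
  refine ⟨d, hd, j, hj, fun i hi => ?_⟩
  rcases h i hi with h1 | h1
  · left
    refine (TIW.hn_add _ _).trans ?_
    linarith
  · right
    have h2 := TIW.ip_le_hn s hd
    rw [ip_add_left]
    have e1 : (2 : ℤ) ^ (k + 12) = 3 * 2 ^ (k + 10) + 1024 * 2 ^ k := by ring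
    have h0 : (1 : ℤ) ≤ 2 ^ k := one_le_pow₀ (by norm_num)
    linarith

/-- **row G2, from the tubes and the number of the closed words rooted at the top** -/
theorem jMassT_of (hT : TubeSt) (hP : CyTSt) : JMassT := by
  classical
  obtain ⟨C1, hC1, hP⟩ := hP
  obtain ⟨C2, hC2, hmom⟩ := low_momq 3
  obtain ⟨H0, hH0, hT⟩ := hT 1 3 (by norm_num) (by norm_num)
  refine ⟨H0, hH0, fun H hH Mx K => ?_⟩
  obtain ⟨c, k0, hc, hT⟩ := hT H hH Mx
  obtain ⟨K1, hK1⟩ : ∃ K1 : ℕ, K1 = 2 * (Mx + 1) * (36 * H) + 1024 + K + 1 := ⟨_, rfl⟩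
  obtain ⟨K2, hK2⟩ : ∃ K2 : ℝ, K2 = 2400 * K1 ^ 2 * C1 / c := ⟨_, rfl⟩
  have hK1p : 0 < K1 := by omega
  have hK2p : 0 < K2 := by
    rw [hK2]
    have : (0 : ℝ) < K1 := by exact_mod_cast hK1p
    positivity
  refine ⟨36 * K2 * C2 ^ 2, max k0 2, by positivity, ?_⟩
  intro k r n D E hk hD1 hD2 hr hr' hE hup
  have hk0 : k0 ≤ k := (le_max_left _ _).trans hk
  have hk2 : 2 ≤ k := (le_max_right _ _).trans hk
  have hU : 0 < Ub k := Num2Aux.UU_pos _
  have hml := ml_p k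
  have h4k : (0 : ℝ) < 4 ^ k := by positivity
  have hm4 : 4 ≤ ml k := by
    unfold ml
    have h1 : (4 : ℝ) = (2 : ℝ) ^ (2 : ℝ) := by norm_num
    rw [h1]
    refine Real.rpow_le_rpow_of_exponent_le (by norm_num) ?_
    have h2 : (2 : ℝ) ≤ k := by exact_mod_cast hk2
    linarith
  have hH13 : 2 ^ 13 ≤ H := hH0.trans hH
  have hDD : (2 : ℤ) ^ (k + 12) ≤ D := by
    refine le_trans ?_ hD1
    have h1 : (2 : ℤ) ^ 13 ≤ H := by exact_mod_cast hH13
    have h2 : (0 : ℤ) < 2 ^ k := by positivity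
    have h3 : (2 : ℤ) ^ (k + 12) = 2 ^ 12 * 2 ^ k := by ring
    rw [h3]
    nlinarith
  obtain ⟨R, hR⟩ : ∃ R : ℤ, R = (K + 1) * 2 ^ k := ⟨_, rfl⟩
  -- the minimal words
  have hG : ∀ n' : ℕ, ∑' y : MWT E r D k R n' (ml k), wE (y : Pt × List Bool).2 ≤
      ENNReal.ofReal (K2 * (4 ^ k * (4 ^ k / Ub k)) * (ml k * (max (n' : ℝ) (ml k)) ^ (-(5 / 2 : ℝ)))) := by
    intro n'
    obtain ⟨q0, hq0⟩ : ∃ q0, q0 = ⌈ml k⌉₊ := ⟨_, rfl⟩
    obtain ⟨q1, hq1⟩ : ∃ q1, q1 = ⌊3 * ml k⌋₊ := ⟨_, rfl⟩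
    have hq0m : ml k ≤ q0 := by
      rw [hq0]
      exact Nat.le_ceil _
    have hq1m : (q1 : ℝ) ≤ 3 * ml k := by
      rw [hq1]
      exact Nat.floor_le (by positivity)
    have h0k : (0 : ℤ) < 2 ^ k := by positivity
    have hroot := sum_top hE hr hup hDD R n' (ml k) q0 q1 (K1 * 2 ^ k) (by
      rw [hR, hK1]
      push_cast
      have h1 : (0 : ℤ) ≤ 2 * ((Mx : ℤ) + 1) * (36 * H) + 1024 := by positivity
      have h2 : (2 * ((Mx : ℤ) + 1) * (36 * H) + 1024 + K + 1) * 2 ^ k =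
        (2 * ((Mx : ℤ) + 1) * (36 * H) + 1024) * 2 ^ k + (K + 1) * 2 ^ k := by ring
      rw [h2]
      have h3 := mul_nonneg h1 h0k.le
      linarith) (by
      rw [hK1]
      push_cast
      have h1 : (2 : ℤ) ^ (k + 10) = 1024 * 2 ^ k := by ring
      rw [h1]
      have h2 : (r : ℤ) ≤ Mx := by exact_mod_cast hr'
      have h3 : (0 : ℤ) ≤ D := le_trans (by positivity) hDD
      have h4 : 2 * ((r : ℤ) + 1) * D ≤ 2 * ((Mx : ℤ) + 1) * D := by
        refine mul_le_mul_of_nonneg_right ?_ h3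
        linarith
      have h5 : 2 * ((Mx : ℤ) + 1) * D ≤ 2 * ((Mx : ℤ) + 1) * (36 * (H * 2 ^ k)) := by
        refine mul_le_mul_of_nonneg_left hD2 (by positivity)
      have h6 : (2 * ((Mx : ℤ) + 1) * (36 * H) + 1024 + K + 1) * 2 ^ k =
        2 * ((Mx : ℤ) + 1) * (36 * (H * 2 ^ k)) + 1024 * 2 ^ k + (K + 1) * 2 ^ k := by ring
      rw [h6]
      have h7 : (0 : ℤ) ≤ (K + 1) * 2 ^ k := by positivity
      linarith) (n' + q0 + q1) (by
      push_cast
      linarith) (ENNReal.ofReal (c / 4 * (Ub k / 4 ^ k))) (fun x hx => by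
      rw [hq0, hq1]
      exact tube_mass hc hT hk0 hD1 hD2 (by omega) hr' hE hup hx.1.1.1 hm4)
    have hcw := cwt_P1 hC1 hP (n0 := n' + q0) (n1 := n' + q0 + q1) (x := max (n' : ℝ) (ml k))
      (lt_of_lt_of_le hml (le_max_right _ _)) (by
        have : (1 : ℝ) ≤ q0 := by linarith
        have : 1 ≤ q0 := by exact_mod_cast this
        omega) (by
        push_cast
        refine max_le (by linarith [hml]) ?_
        have : (0 : ℝ) ≤ n' := by positivity
        linarith)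
    have hcount : ((n' + q0 + q1 + 1 - (n' + q0) : ℕ) : ℝ) ≤ 4 * ml k := by
      have e1 : n' + q0 + q1 + 1 - (n' + q0) = q1 + 1 := by omega
      rw [e1]
      push_cast
      linarith
    obtain ⟨X, hX⟩ : ∃ X : ℝ, X = (max (n' : ℝ) (ml k)) ^ (-(5 / 2 : ℝ)) := ⟨_, rfl⟩
    rw [← hX] at hcw ⊢
    have hX0 : 0 ≤ X := by
      rw [hX]
      have : 0 ≤ max (n' : ℝ) (ml k) := hml.le.trans (le_max_right _ _)
      positivity
    have h1 : (∑' y : MWT E r D k R n' (ml k), wE (y : Pt × List Bool).2) * ENNReal.ofReal (c / 4 * (Ub k / 4 ^ k)) ≤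
        ENNReal.ofReal (150 * K1 ^ 2 * 4 ^ k * (4 * ml k * (C1 * X))) := by
      calc (∑' y : MWT E r D k R n' (ml k), wE (y : Pt × List Bool).2) * ENNReal.ofReal (c / 4 * (Ub k / 4 ^ k)) ≤ _ := hroot
        _ ≤ ENNReal.ofReal (150 * K1 ^ 2 * 4 ^ k) * ENNReal.ofReal (4 * ml k * (C1 * X)) := by
            refine mul_le_mul' ?_ (hcw.trans (ENNReal.ofReal_le_ofReal ?_))
            · rw [← ENNReal.ofReal_natCast]
              refine ENNReal.ofReal_le_ofReal ?_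
              push_cast
              have h2 : (1 : ℝ) ≤ K1 * 2 ^ k := by
                have : (1 : ℝ) ≤ K1 := by exact_mod_cast hK1p
                have h3 : (1 : ℝ) ≤ 2 ^ k := one_le_pow₀ (by norm_num)
                nlinarith
              have h3 : (4 : ℝ) ^ k = (2 ^ k) ^ 2 := by
                rw [← pow_mul, mul_comm, pow_mul]
                norm_num
              rw [h3]
              nlinarith
            · exact mul_le_mul_of_nonneg_right hcount (by positivity)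
        _ = _ := by
            rw [← ENNReal.ofReal_mul (by positivity)]
    have hpos : 0 < c / 4 * (Ub k / 4 ^ k) := by positivity
    have h2 : ∑' y : MWT E r D k R n' (ml k), wE (y : Pt × List Bool).2 ≤
        ENNReal.ofReal (150 * K1 ^ 2 * 4 ^ k * (4 * ml k * (C1 * X))) / ENNReal.ofReal (c / 4 * (Ub k / 4 ^ k)) := by
      rw [ENNReal.le_div_iff_mul_le (Or.inl (by simpa using hpos)) (Or.inl ENNReal.ofReal_ne_top)]
      exact h1
    refine h2.trans ?_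
    rw [← ENNReal.ofReal_div_of_pos hpos]
    refine ENNReal.ofReal_le_ofReal (le_of_eq ?_)
    rw [hK2]
    field_simp
    ring
  -- all placed words
  have hall : ∑' x : PLWT E r D k R n (ml k), wE (x : Pt × List Bool).2 ≤
      ENNReal.ofReal (K2 * (4 ^ k * (4 ^ k / Ub k)) * (ml k * (max (n : ℝ) (ml k)) ^ (-(5 / 2 : ℝ))) * (C2 * Ub k) ^ 2) := by
    refine (sum_decT R n (ml k)).trans ?_
    obtain ⟨Y, hY⟩ : ∃ Y : ℝ, Y = K2 * (4 ^ k * (4 ^ k / Ub k)) * (ml k * (max (n : ℝ) (ml k)) ^ (-(5 / 2 : ℝ))) := ⟨_, rfl⟩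
    have hY0 : 0 ≤ Y := by
      rw [hY]
      have : 0 ≤ max (n : ℝ) (ml k) := hml.le.trans (le_max_right _ _)
      positivity
    have h1 : ∀ z1 z2 : ℕ, ∑' y : MWT E r D k R (n - (z1 + z2)) (ml k), wE (y : Pt × List Bool).2 ≤
        ENNReal.ofReal Y * (ENNReal.ofReal ((1 + (z1 : ℝ) / ml k) ^ 3) * ENNReal.ofReal ((1 + (z2 : ℝ) / ml k) ^ 3)) := by
      intro z1 z2
      refine (hG _).trans ?_
      rw [← ENNReal.ofReal_mul (by positivity), ← ENNReal.ofReal_mul hY0]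
      refine ENNReal.ofReal_le_ofReal ?_
      have h2 := max_shiftT (n := n) (z := z1 + z2) hml
      have h3 : (1 + ((z1 + z2 : ℕ) : ℝ) / ml k) ^ 3 ≤ (1 + (z1 : ℝ) / ml k) ^ 3 * (1 + (z2 : ℝ) / ml k) ^ 3 := by
        rw [← mul_pow]
        refine pow_le_pow_left₀ (by positivity) ?_ 3
        push_cast
        have h4 : 0 ≤ (z1 : ℝ) / ml k := by positivity
        have h5 : 0 ≤ (z2 : ℝ) / ml k := by positivity
        rw [add_div]
        nlinarith [mul_nonneg h4 h5]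
      have h6 : 0 ≤ K2 * (4 ^ k * (4 ^ k / Ub k)) := by positivity
      have h7 : 0 ≤ (max (n : ℝ) (ml k)) ^ (-(5 / 2 : ℝ)) := by
        have : 0 ≤ max (n : ℝ) (ml k) := hml.le.trans (le_max_right _ _)
        positivity
      calc K2 * (4 ^ k * (4 ^ k / Ub k)) * (ml k * (max ((n - (z1 + z2) : ℕ) : ℝ) (ml k)) ^ (-(5 / 2 : ℝ))) ≤
          K2 * (4 ^ k * (4 ^ k / Ub k)) * (ml k * ((max (n : ℝ) (ml k)) ^ (-(5 / 2 : ℝ)) *
            ((1 + (z1 : ℝ) / ml k) ^ 3 * (1 + (z2 : ℝ) / ml k) ^ 3))) :=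
            mul_le_mul_of_nonneg_left (mul_le_mul_of_nonneg_left (h2.trans (mul_le_mul_of_nonneg_left h3 h7)) hml.le) h6
        _ = _ := by rw [hY]; ring
    have h8 : ∑' Z1 : G3.BL k, wE (Z1 : List Bool) * ∑' Z2 : G3.BL k, wE (Z2 : List Bool) *
        ∑' y : MWT E r D k R (n - ((Z1 : List Bool).length + (Z2 : List Bool).length)) (ml k), wE (y : Pt × List Bool).2 ≤
        ENNReal.ofReal Y * ((∑' Z : G3.BL k, wE (Z : List Bool) * ENNReal.ofReal ((1 + ((Z : List Bool).length : ℝ) / ml k) ^ 3)) *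
          (∑' Z : G3.BL k, wE (Z : List Bool) * ENNReal.ofReal ((1 + ((Z : List Bool).length : ℝ) / ml k) ^ 3))) := by
      rw [← ENNReal.tsum_mul_right, ← ENNReal.tsum_mul_left]
      refine ENNReal.tsum_le_tsum fun Z1 => ?_
      rw [← ENNReal.tsum_mul_left, ← ENNReal.tsum_mul_left, ← ENNReal.tsum_mul_left]
      refine ENNReal.tsum_le_tsum fun Z2 => ?_
      calc wE (Z1 : List Bool) * (wE (Z2 : List Bool) *
          ∑' y : MWT E r D k R (n - ((Z1 : List Bool).length + (Z2 : List Bool).length)) (ml k), wE (y : Pt × List Bool).2) ≤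
          wE (Z1 : List Bool) * (wE (Z2 : List Bool) * (ENNReal.ofReal Y * (ENNReal.ofReal ((1 + ((Z1 : List Bool).length : ℝ) / ml k) ^ 3) *
            ENNReal.ofReal ((1 + ((Z2 : List Bool).length : ℝ) / ml k) ^ 3)))) :=
            mul_le_mul' le_rfl (mul_le_mul' le_rfl (h1 _ _))
        _ = _ := by ring
    refine h8.trans ?_
    refine (mul_le_mul' le_rfl (mul_le_mul' (hmom k) (hmom k))).trans (le_of_eq ?_)
    rw [← ENNReal.ofReal_mul (by positivity), ← ENNReal.ofReal_mul hY0, ← hY]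
    congr 1
    ring
  -- the placements
  obtain ⟨S, hS1, hS2⟩ := small_pts k
  obtain ⟨W, hW⟩ : ∃ W : Set (List Bool), W = {M | Jn E r D k M ∧ Jp E r D k (K * 2 ^ k) M ∧ n ≤ M.length ∧
    (M.length : ℝ) < n + ml k} := ⟨_, rfl⟩
  rw [← hW]
  have h1 : (S.card : ℝ≥0∞) * gf W ≤ ∑' x : PLWT E r D k R n (ml k), wE (x : Pt × List Bool).2 := by
    have h2 : ∑' x : ((S : Set Pt) ×ˢ W : Set (Pt × List Bool)), wE (x : Pt × List Bool).2 = (S.card : ℝ≥0∞) * gf W := by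
      rw [tsum_subtype ((S : Set Pt) ×ˢ W) (fun x : Pt × List Bool => wE x.2), ENNReal.tsum_prod']
      have h3 : ∀ a : Pt, ∑' w : List Bool, ((S : Set Pt) ×ˢ W).indicator (fun x : Pt × List Bool => wE x.2) (a, w) =
          if a ∈ S then gf W else 0 := by
        intro a
        by_cases ha : a ∈ S
        · rw [if_pos ha, AR.gf_ite]
          refine tsum_congr fun w => ?_
          by_cases hw : w ∈ W
          · rw [if_pos hw, Set.indicator_of_mem]
            exact ⟨ha, hw⟩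
          · rw [if_neg hw, Set.indicator_of_notMem]
            exact fun h => hw h.2
        · rw [if_neg ha, ENNReal.tsum_eq_zero]
          intro w
          rw [Set.indicator_of_notMem]
          exact fun h => ha h.1
      rw [tsum_congr h3, tsum_eq_sum (s := S) (fun a ha => if_neg ha),
        sum_congr rfl (g := fun _ => gf W) (fun a ha => if_pos ha), sum_const, nsmul_eq_mul]
    rw [← h2]
    refine inj_sum (f := fun x : Pt × List Bool => wE x.2) (g := fun x : Pt × List Bool => wE x.2) id ?_ ?_ ?_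
    · rintro ⟨s, M⟩ ⟨hs, hM⟩
      rw [hW] at hM
      refine ⟨⟨jn_plc hM.1 (hS1 s hs), hM.2.2.1, hM.2.2.2⟩, ?_⟩
      refine jp_jq hM.2.1 (hS1 s hs) ?_
      rw [hR]
      linarith
    · exact Set.injOn_id _
    · exact fun _ _ => le_rfl
  have hScard : (0 : ℝ) < S.card := lt_of_lt_of_le (by positivity) hS2
  have h2 : gf W ≤ ENNReal.ofReal (K2 * (4 ^ k * (4 ^ k / Ub k)) * (ml k * (max (n : ℝ) (ml k)) ^ (-(5 / 2 : ℝ))) *
      (C2 * Ub k) ^ 2) / ENNReal.ofReal (4 ^ k / 36) := by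
    rw [ENNReal.le_div_iff_mul_le (Or.inl (by simp)) (Or.inl ENNReal.ofReal_ne_top), mul_comm]
    refine le_trans ?_ (h1.trans hall)
    refine mul_le_mul' ?_ le_rfl
    rw [← ENNReal.ofReal_natCast]
    exact ENNReal.ofReal_le_ofReal hS2
  refine h2.trans ?_
  rw [← ENNReal.ofReal_div_of_pos (by positivity)]
  refine ENNReal.ofReal_le_ofReal (le_of_eq ?_)
  field_simp

end JT

/-- **row G2** -/
theorem jMassT : JMassT := JT.jMassT_of AR.tubeSt cyTSt

end ART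

end HexObs
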