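import Pool.Agent.ART.JTopA
import Pool.Agent.ARM.LowMom

/-!
# ART, row G2 (helper87), part B: the sums

* `sum_top`: the minimal placed words with the top near the path, from the closed words rooted at the top;
* `sum_decT`: the placed words from the minimal ones;
* `low_momq`: the moments of the length of the low bridges.
-/

set_option autoImplicit false

namespace HexObs

namespace ART

namespace JT

open Finset TS SDN SIM NTA TIP ARM ARM.G3

open scoped ENNReal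

variable {E : ℕ → Pt} {r : ℕ} {D : ℤ} {k : ℕ}

/-- the boxes and directions -/
lemma box_sum (B : ℕ) (S : Set (List Bool)) :
    ∑' y : ((((bx B ×ˢ dirs : Finset (Pt × Pt)) : Set (Pt × Pt)) ×ˢ S : Set ((Pt × Pt) × List Bool))),
      wE (y : (Pt × Pt) × List Bool).2 = ((6 * (4 * B + 1) ^ 2 : ℕ) : ℝ≥0∞) * gf S := by
  classical
  have h10 : ∑' y : ((((bx B ×ˢ dirs : Finset (Pt × Pt)) : Set (Pt × Pt)) ×ˢ S :
        Set ((Pt × Pt) × List Bool))), wE (y : (Pt × Pt) × List Bool).2 =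
      ((bx B ×ˢ dirs : Finset (Pt × Pt)).card : ℝ≥0∞) * gf S := by
    rw [tsum_subtype (((bx B ×ˢ dirs : Finset (Pt × Pt)) : Set (Pt × Pt)) ×ˢ S)
      (fun y : (Pt × Pt) × List Bool => wE y.2), ENNReal.tsum_prod']
    have h11 : ∀ a : Pt × Pt, ∑' w : List Bool, (((bx B ×ˢ dirs : Finset (Pt × Pt)) : Set (Pt × Pt)) ×ˢ S).indicator
        (fun y : (Pt × Pt) × List Bool => wE y.2) (a, w) = if a ∈ (bx B ×ˢ dirs : Finset (Pt × Pt)) then gf S else 0 := by
      intro a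
      by_cases ha : a ∈ (bx B ×ˢ dirs : Finset (Pt × Pt))
      · rw [if_pos ha, AR.gf_ite]
        refine tsum_congr fun w => ?_
        by_cases hw : w ∈ S
        · rw [if_pos hw, Set.indicator_of_mem]
          exact ⟨ha, hw⟩
        · rw [if_neg hw, Set.indicator_of_notMem]
          exact fun h => hw h.2
      · rw [if_neg ha]
        rw [ENNReal.tsum_eq_zero]
        intro w
        rw [Set.indicator_of_notMem]
        exact fun h => ha h.1
    rw [tsum_congr h11, tsum_eq_sum (s := (bx B ×ˢ dirs : Finset (Pt × Pt))) (fun a ha => if_neg ha),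
      sum_congr rfl (g := fun _ => gf S) (fun a ha => if_pos ha), sum_const, nsmul_eq_mul]
  rw [h10, card_product, card_bx]
  have h12 : dirs.card = 6 := by decide
  rw [h12]
  congr 1
  push_cast
  ring

/-- **the sum over the minimal placed words, root at the top** -/
theorem sum_top (hE : IPg E r) (hr : 3 ≤ r) (hup : E (r - 1) = up) (hD : 2 ^ (k + 12) ≤ D) (R : ℤ) (n : ℕ) (m : ℝ)
    (q0 q1 B : ℕ) (hRB : R ≤ B) (hB : 2 * (r + 1) * D + 2 ^ (k + 10) ≤ B) (n1 : ℕ) (hn1 : (n : ℝ) + m + q1 ≤ n1) (v : ℝ≥0∞)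
    (hv : ∀ x ∈ MWT E r D k R n m, v ≤ gf (QQ E r D k q0 q1 x.2)) :
    (∑' x : MWT E r D k R n m, wE (x : Pt × List Bool).2) * v ≤
      ((6 * (4 * B + 1) ^ 2 : ℕ) : ℝ≥0∞) * gf (CWT (n + q0) n1) := by
  classical
  obtain ⟨T, hT⟩ : ∃ T : Set ((Pt × List Bool) × List Bool), T = {x | x.1 ∈ MWT E r D k R n m ∧ x.2 ∈ QQ E r D k q0 q1 x.1.2} :=
    ⟨_, rfl⟩
  -- lower bound for the sum over the triples
  have h1 : (∑' x : MWT E r D k R n m, wE (x : Pt × List Bool).2) * v ≤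
      ∑' x : T, wE (x : (Pt × List Bool) × List Bool).1.2 * wE (x : (Pt × List Bool) × List Bool).2 := by
    rw [tsum_subtype T (fun x : (Pt × List Bool) × List Bool => wE x.1.2 * wE x.2), ENNReal.tsum_prod',
      ← ENNReal.tsum_mul_right, tsum_subtype (MWT E r D k R n m) (fun x : Pt × List Bool => wE x.2 * v)]
    refine ENNReal.tsum_le_tsum fun y => ?_
    by_cases hy : y ∈ MWT E r D k R n m
    · rw [Set.indicator_of_mem hy]
      refine (mul_le_mul' le_rfl (hv y hy)).trans ?_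
      rw [AR.gf_ite, ← ENNReal.tsum_mul_left]
      refine ENNReal.tsum_le_tsum fun Q => ?_
      by_cases hQ : Q ∈ QQ E r D k q0 q1 y.2
      · rw [if_pos hQ, Set.indicator_of_mem]
        rw [hT]
        exact ⟨hy, hQ⟩
      · rw [if_neg hQ, mul_zero]
        exact zero_le
    · rw [Set.indicator_of_notMem hy]
      exact zero_le
  refine h1.trans ?_
  -- the top
  have key : ∀ x ∈ T, ∃ a, a < x.1.2.length + x.2.length ∧ (x.1.2 ++ x.2).rotate a ∈ CyT (x.1.2.length + x.2.length) ∧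
      TIW.hn (x.1.1 + POL.pv (x.1.2 ++ x.2) a) ≤ B := by
    intro x hx
    rw [hT] at hx
    exact top_ex hE hr hup hD hx.1.1.1.1 hx.2.1 hx.1.2 hRB hB
  choose! f hf using key
  have h5 : ∑' x : T, wE (x : (Pt × List Bool) × List Bool).1.2 * wE (x : (Pt × List Bool) × List Bool).2 ≤
      ∑' y : ((((bx B ×ˢ dirs : Finset (Pt × Pt)) : Set (Pt × Pt)) ×ˢ CWT (n + q0) n1 :
        Set ((Pt × Pt) × List Bool))), wE (y : (Pt × Pt) × List Bool).2 := by
    refine inj_sum (f := fun x : (Pt × List Bool) × List Bool => wE x.1.2 * wE x.2)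
      (g := fun y : (Pt × Pt) × List Bool => wE y.2) (fun x => rta x (f x)) ?_ ?_ ?_
    · intro x hx
      obtain ⟨h2, h3, h4⟩ := hf x hx
      rw [hT] at hx
      obtain ⟨⟨⟨-, hM1, hM2⟩, -⟩, -, hq0, hq1⟩ := hx
      refine ⟨?_, x.1.2.length + x.2.length, by omega, ?_, h3⟩
      · show (_, _) ∈ ((bx B ×ˢ dirs : Finset (Pt × Pt)) : Set (Pt × Pt))
        rw [mem_coe, mem_product]
        exact ⟨mem_bx h4, POL.pd_mem _ _⟩
      · have h6 : ((x.1.2.length + x.2.length : ℕ) : ℝ) ≤ n1 := by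
          push_cast
          have : (x.2.length : ℝ) ≤ q1 := by exact_mod_cast hq1
          linarith
        exact_mod_cast h6
    · intro x hx x' hx' he
      have h2 := hf x hx
      have h3 := hf x' hx'
      rw [hT] at hx hx'
      exact rta_inj hE hr hup hD (n := n) (m := m) (q0 := q0) (q1 := q1) ⟨hx.1.1, hx.2⟩ ⟨hx'.1.1, hx'.2⟩ h2.1 h3.1 he
    · intro x _
      show wE x.1.2 * wE x.2 ≤ wE ((x.1.2 ++ x.2).rotate (f x))
      rw [wE_rotate, wE_append]
  refine h5.trans ?_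
  rw [box_sum]

/-- the placed words in a window of lengths, with the top near the path -/
def PLWT (E : ℕ → Pt) (r : ℕ) (D : ℤ) (k : ℕ) (R : ℤ) (n : ℕ) (m : ℝ) : Set (Pt × List Bool) :=
  {x | x ∈ PLW E r D k n m ∧ Jq E r D k R x.1 x.2}

/-- the middle part of a placed word -/
lemma jq_mid {R : ℤ} {s : Pt} {Z1 I Z2 : List Bool} (h1 : Z1 ∈ BU) (h : Jq E r D k R s (Z1 ++ (I ++ Z2))) :
    Jq E r D k R (s + TIW.en Z1) I := by
  obtain ⟨d, hd, j, hj, h⟩ := h
  refine ⟨d, hd, j, hj, fun i hi => ?_⟩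
  have h2 := h (Z1.length + i) (by rw [List.length_append, List.length_append]; omega)
  have e1 : s + vx oo up (Z1 ++ (I ++ Z2)) (Z1.length + i) = s + TIW.en Z1 + vx oo up I i := by
    rw [TIW.vx_app, rt_bu h1, mulE_one, vx_append (by omega : i ≤ I.length + 1)]
    unfold TIW.en
    abel
  rw [e1] at h2
  exact h2

/-- **the placed words from the minimal ones** -/
theorem sum_decT (R : ℤ) (n : ℕ) (m : ℝ) : ∑' x : PLWT E r D k R n m, wE (x : Pt × List Bool).2 ≤
    ∑' Z1 : G3.BL k, wE (Z1 : List Bool) * ∑' Z2 : G3.BL k, wE (Z2 : List Bool) *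
      ∑' y : MWT E r D k R (n - ((Z1 : List Bool).length + (Z2 : List Bool).length)) m, wE (y : Pt × List Bool).2 := by
  classical
  have key : ∀ x ∈ PLWT E r D k R n m, ∃ Z1 I Z2 : List Bool, Z1 ∈ BU ∧ Z2 ∈ BU ∧ x.2 = Z1 ++ (I ++ Z2) ∧
      Wm E r D k (x.1 + TIW.en Z1) I := fun x hx => min_dec x.2.length x.1 x.2 rfl hx.1.1
  choose! f g h hf using key
  have e1 : ∑' Z1 : G3.BL k, wE (Z1 : List Bool) * ∑' Z2 : G3.BL k, wE (Z2 : List Bool) *
      ∑' y : MWT E r D k R (n - ((Z1 : List Bool).length + (Z2 : List Bool).length)) m, wE (y : Pt × List Bool).2 =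
      ∑' p : (Σ Z1 : G3.BL k, Σ Z2 : G3.BL k, MWT E r D k R (n - ((Z1 : List Bool).length + (Z2 : List Bool).length)) m),
        wE (p.1 : List Bool) * (wE (p.2.1 : List Bool) * wE (p.2.2 : Pt × List Bool).2) := by
    rw [ENNReal.tsum_sigma']
    refine tsum_congr fun Z1 => ?_
    rw [ENNReal.tsum_sigma', ← ENNReal.tsum_mul_left]
    refine tsum_congr fun Z2 => ?_
    rw [← ENNReal.tsum_mul_left, ← ENNReal.tsum_mul_left]
  rw [e1]
  have hmem : ∀ x ∈ PLWT E r D k R n m, f x ∈ G3.BL k ∧ h x ∈ G3.BL k ∧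
      (x.1 + TIW.en (f x), g x) ∈ MWT E r D k R (n - ((f x).length + (h x).length)) m := by
    intro x hx
    obtain ⟨h1, h2, h3, h4⟩ := hf x hx
    have hP := hx.1.1
    rw [h3] at hP
    obtain ⟨h5, h6⟩ := dec_hgt h1 h2 hP h4.1
    have hl := congrArg List.length h3
    rw [List.length_append, List.length_append] at hl
    refine ⟨⟨h1, h5⟩, ⟨h2, h6⟩, ⟨h4, ?_, ?_⟩, ?_⟩
    · have := hx.1.2.1
      show n - ((f x).length + (h x).length) ≤ (g x).length
      omega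
    · have h7 := hx.1.2.2
      have h8 := hx.1.2.1
      show ((g x).length : ℝ) < ((n - ((f x).length + (h x).length) : ℕ) : ℝ) + m
      rw [hl] at h7
      push_cast at h7
      rcases Nat.lt_or_ge n ((f x).length + (h x).length) with h9 | h9
      · have h10 : n - ((f x).length + (h x).length) = 0 := by omega
        rw [h10, Nat.cast_zero, zero_add]
        have h11 : (n : ℝ) < (f x).length + (h x).length := by exact_mod_cast h9
        linarith
      · rw [Nat.cast_sub h9]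
        push_cast
        linarith
    · have h7 := hx.2
      rw [h3] at h7
      exact jq_mid h1 h7
  let φ : PLWT E r D k R n m → (Σ Z1 : G3.BL k, Σ Z2 : G3.BL k,
      MWT E r D k R (n - ((Z1 : List Bool).length + (Z2 : List Bool).length)) m) := fun x =>
    ⟨⟨f x, (hmem x x.2).1⟩, ⟨h x, (hmem x x.2).2.1⟩, ⟨((x : Pt × List Bool).1 + TIW.en (f x), g x), (hmem x x.2).2.2⟩⟩
  have hφ : Function.Injective φ := by
    intro x y hxy
    have a1 : f (x : Pt × List Bool) = f (y : Pt × List Bool) := congrArg (fun p => ((p.1 : G3.BL k) : List Bool)) hxy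
    have a2 : h (x : Pt × List Bool) = h (y : Pt × List Bool) := congrArg (fun p => ((p.2.1 : G3.BL k) : List Bool)) hxy
    have a3 : ((x : Pt × List Bool).1 + TIW.en (f x), g (x : Pt × List Bool)) =
        ((y : Pt × List Bool).1 + TIW.en (f y), g (y : Pt × List Bool)) :=
      congrArg (fun p => (p.2.2 : Pt × List Bool)) hxy
    rw [Prod.mk.injEq] at a3
    obtain ⟨a4, a5⟩ := a3
    apply Subtype.ext
    apply Prod.ext
    · rw [a1] at a4
      exact add_right_cancel a4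
    · rw [(hf x x.2).2.2.1, (hf y y.2).2.2.1, a1, a2, a5]
  refine le_trans (le_of_eq (tsum_congr fun x => ?_)) (ENNReal.tsum_comp_le_tsum_of_injective hφ _)
  show wE (x : Pt × List Bool).2 = wE (f x) * (wE (h x) * wE (g x))
  rw [← wE_append, ← wE_append]
  have h1 := (hf x x.2).2.2.1
  unfold wE
  rw [h1]
  simp only [List.length_append]
  congr 2
  ring

/-! ### The moments of the low bridges -/

/-- dyadic layers of a power -/
lemma layersq (q : ℕ) {y : ℝ} (hy : 0 ≤ y) : ENNReal.ofReal ((1 + y) ^ q) ≤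
    ENNReal.ofReal (2 ^ q) + ∑' i : ℕ, (if (2 : ℝ) ^ i ≤ y then ENNReal.ofReal ((2 ^ (i + 2)) ^ q) else 0) := by
  rcases lt_or_ge y 1 with h | h
  · refine le_trans ?_ le_self_add
    exact ENNReal.ofReal_le_ofReal (pow_le_pow_left₀ (by linarith) (by linarith) q)
  · refine le_trans ?_ le_add_self
    obtain ⟨i, hi1, hi2⟩ : ∃ i : ℕ, (2 : ℝ) ^ i ≤ y ∧ y < 2 ^ (i + 1) := by
      obtain ⟨i, h1, h2⟩ := exists_nat_pow_near h (by norm_num : (1 : ℝ) < 2)
      exact ⟨i, h1, h2⟩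
    refine le_trans ?_ (ENNReal.le_tsum i)
    rw [if_pos hi1]
    refine ENNReal.ofReal_le_ofReal ?_
    have h3 : (1 : ℝ) ≤ 2 ^ i := one_le_pow₀ (by norm_num)
    have h5 : (2 : ℝ) ^ (i + 1) = 2 * 2 ^ i := by ring
    have h6 : (2 : ℝ) ^ (i + 2) = 4 * 2 ^ i := by ring
    rw [h5] at hi2
    rw [h6]
    exact pow_le_pow_left₀ (by linarith) (by linarith) q

/-- **the moments of the length of the low bridges** -/
theorem low_momq (q : ℕ) : ∃ C : ℝ, 0 < C ∧ ∀ k : ℕ, ∑' Z : G3.BL k, wE (Z : List Bool) *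
    ENNReal.ofReal ((1 + ((Z : List Bool).length : ℝ) / ml k) ^ q) ≤ ENNReal.ofReal (C * Ub k) := by
  classical
  obtain ⟨C0, hC0, hup⟩ := mz_up
  obtain ⟨A, hA, hB⟩ := tb_M (q + 1)
  refine ⟨(1 + C0) ^ q * (2 ^ q * 4 + 4 ^ q * A * 8), by positivity, fun k => ?_⟩
  obtain ⟨m, hm⟩ : ∃ m, m = PW.mZ (2 ^ (k + 2)) := ⟨_, rfl⟩
  have hm0 : 0 < m := by
    rw [hm]
    exact mlow_M.pos (k + 2)
  have hml : 0 < ml k := by
    unfold ml
    positivity
  have hmu : m ≤ C0 * ml k := by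
    rw [hm]
    exact hup k
  have hU : 0 < Ub k := Num2Aux.UU_pos _
  have hU2 : Ub (k + 2) ≤ 4 * Ub k := by
    have := TPC.Ub_pow k 2
    norm_num at this
    exact this
  -- pointwise
  have h1 : ∀ Z : List Bool, ENNReal.ofReal ((1 + (Z.length : ℝ) / ml k) ^ q) ≤ ENNReal.ofReal ((1 + C0) ^ q) *
      (ENNReal.ofReal (2 ^ q) + ∑' i : ℕ, (if (2 : ℝ) ^ i ≤ (Z.length : ℝ) / m then ENNReal.ofReal ((2 ^ (i + 2)) ^ q) else 0)) := by
    intro Z
    refine le_trans ?_ (mul_le_mul' le_rfl (layersq q (by positivity)))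
    rw [← ENNReal.ofReal_mul (by positivity), ← mul_pow]
    refine ENNReal.ofReal_le_ofReal (pow_le_pow_left₀ (by positivity) ?_ q)
    have h2 : (Z.length : ℝ) / ml k ≤ C0 * ((Z.length : ℝ) / m) := by
      rw [div_le_iff₀ hml]
      have h3 : (Z.length : ℝ) = (Z.length : ℝ) / m * m := by field_simp
      have h4 : 0 ≤ (Z.length : ℝ) / m := by positivity
      calc (Z.length : ℝ) = (Z.length : ℝ) / m * m := h3
        _ ≤ (Z.length : ℝ) / m * (C0 * ml k) := mul_le_mul_of_nonneg_left hmu h4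
        _ = _ := by ring
    have h4 : 0 ≤ (Z.length : ℝ) / m := by positivity
    nlinarith
  -- the tail
  have h2 : ∀ i : ℕ, gf {Z | Z ∈ G3.BL k ∧ (2 : ℝ) ^ i ≤ (Z.length : ℝ) / m} ≤ ENNReal.ofReal (A / (2 ^ i) ^ (q + 1) * (4 * Ub k)) := by
    intro i
    have h3 : {Z | Z ∈ G3.BL k ∧ (2 : ℝ) ^ i ≤ (Z.length : ℝ) / m} ⊆ ⋃ h ∈ range (2 ^ (k + 2) + 1),
        {Z | Z ∈ Brd h ∧ 2 ^ i * m ≤ (Z.length : ℝ)} := by
      rintro Z ⟨⟨hZ, hh⟩, hl⟩
      rw [Set.mem_iUnion₂]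
      refine ⟨hgt Z, mem_range.2 (by omega), TIP.BU_hgt hZ, ?_⟩
      rw [le_div_iff₀ hm0] at hl
      exact hl
    refine (gf_mono h3).trans ((GgJumpAux.gf_biUnion_le _ _).trans ?_)
    have h4 := hB (k + 2) (2 ^ i) (one_le_pow₀ (by norm_num))
    unfold NTm.TL at h4
    simp only [← hm] at h4
    refine h4.trans (ENNReal.ofReal_le_ofReal ?_)
    exact mul_le_mul_of_nonneg_left hU2 (by positivity)
  -- the sum
  have h5 : ∑' Z : G3.BL k, wE (Z : List Bool) * ENNReal.ofReal ((1 + ((Z : List Bool).length : ℝ) / ml k) ^ q) ≤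
      ENNReal.ofReal ((1 + C0) ^ q) * (ENNReal.ofReal (2 ^ q) * gf (G3.BL k) + ∑' i : ℕ, ENNReal.ofReal ((2 ^ (i + 2)) ^ q) *
        gf {Z | Z ∈ G3.BL k ∧ (2 : ℝ) ^ i ≤ (Z.length : ℝ) / m}) := by
    have h6 : ∀ i : ℕ, ENNReal.ofReal ((2 ^ (i + 2)) ^ q) * gf {Z | Z ∈ G3.BL k ∧ (2 : ℝ) ^ i ≤ (Z.length : ℝ) / m} =
        ∑' Z : G3.BL k, wE (Z : List Bool) * (if (2 : ℝ) ^ i ≤ ((Z : List Bool).length : ℝ) / m then
          ENNReal.ofReal ((2 ^ (i + 2)) ^ q) else 0) := by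
      intro i
      rw [AR.gf_ite, ← ENNReal.tsum_mul_left, tsum_subtype (G3.BL k) (fun Z : List Bool => wE Z *
        (if (2 : ℝ) ^ i ≤ (Z.length : ℝ) / m then ENNReal.ofReal ((2 ^ (i + 2)) ^ q) else 0))]
      refine tsum_congr fun Z => ?_
      by_cases hZ : Z ∈ G3.BL k
      · rw [Set.indicator_of_mem hZ]
        by_cases hl : (2 : ℝ) ^ i ≤ (Z.length : ℝ) / m
        · rw [if_pos ⟨hZ, hl⟩, if_pos hl, mul_comm]
        · rw [if_neg (fun h => hl h.2), if_neg hl]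
          ring
      · rw [Set.indicator_of_notMem hZ, if_neg (fun h => hZ h.1), mul_zero]
    rw [tsum_congr h6, ENNReal.tsum_comm]
    unfold gf
    rw [← ENNReal.tsum_mul_left (a := ENNReal.ofReal (2 ^ q)), ← ENNReal.tsum_add, ← ENNReal.tsum_mul_left]
    refine ENNReal.tsum_le_tsum fun Z => ?_
    rw [ENNReal.tsum_mul_left]
    calc wE (Z : List Bool) * ENNReal.ofReal ((1 + ((Z : List Bool).length : ℝ) / ml k) ^ q) ≤
        wE (Z : List Bool) * (ENNReal.ofReal ((1 + C0) ^ q) * (ENNReal.ofReal (2 ^ q) + ∑' i : ℕ,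
          (if (2 : ℝ) ^ i ≤ ((Z : List Bool).length : ℝ) / m then ENNReal.ofReal ((2 ^ (i + 2)) ^ q) else 0))) :=
          mul_le_mul' le_rfl (h1 Z)
      _ = _ := by ring
  refine h5.trans ?_
  have h7 : gf (G3.BL k) ≤ ENNReal.ofReal (4 * Ub k) :=
    (TIP.gf_low (2 ^ (k + 2))).trans (ENNReal.ofReal_le_ofReal hU2)
  have h8 : ∑' i : ℕ, ENNReal.ofReal ((2 ^ (i + 2)) ^ q) * gf {Z | Z ∈ G3.BL k ∧ (2 : ℝ) ^ i ≤ (Z.length : ℝ) / m} ≤
      ENNReal.ofReal (4 ^ q * A * 8 * Ub k) := by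
    have h9 : ∀ i : ℕ, ENNReal.ofReal ((2 ^ (i + 2)) ^ q) * gf {Z | Z ∈ G3.BL k ∧ (2 : ℝ) ^ i ≤ (Z.length : ℝ) / m} ≤
        ENNReal.ofReal (4 ^ q * A * 4 * Ub k * (1 / 2) ^ i) := by
      intro i
      refine (mul_le_mul' le_rfl (h2 i)).trans ?_
      rw [← ENNReal.ofReal_mul (by positivity)]
      refine ENNReal.ofReal_le_ofReal (le_of_eq ?_)
      have e1 : ((2 : ℝ) ^ (i + 2)) ^ q = 4 ^ q * (2 ^ i) ^ q := by
        rw [← mul_pow]
        congr 1
        ring
      have e2 : ((1 : ℝ) / 2) ^ i = 1 / 2 ^ i := by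
        rw [div_pow, one_pow]
      rw [e1, e2, pow_succ]
      have h10 : (2 : ℝ) ^ i ≠ 0 := by positivity
      have h11 : ((2 : ℝ) ^ i) ^ q ≠ 0 := by positivity
      field_simp
    refine (ENNReal.tsum_le_tsum h9).trans ?_
    rw [← ENNReal.ofReal_tsum_of_nonneg (fun i => by positivity)
      ((summable_geometric_two).mul_left _), tsum_mul_left, tsum_geometric_two]
    refine ENNReal.ofReal_le_ofReal (le_of_eq ?_)
    ring
  calc ENNReal.ofReal ((1 + C0) ^ q) * (ENNReal.ofReal (2 ^ q) * gf (G3.BL k) + ∑' i : ℕ, ENNReal.ofReal ((2 ^ (i + 2)) ^ q) *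
        gf {Z | Z ∈ G3.BL k ∧ (2 : ℝ) ^ i ≤ (Z.length : ℝ) / m}) ≤
      ENNReal.ofReal ((1 + C0) ^ q) * (ENNReal.ofReal (2 ^ q) * ENNReal.ofReal (4 * Ub k) +
        ENNReal.ofReal (4 ^ q * A * 8 * Ub k)) := by
        refine mul_le_mul' le_rfl (add_le_add (mul_le_mul' le_rfl h7) h8)
    _ = ENNReal.ofReal ((1 + C0) ^ q * (2 ^ q * 4 + 4 ^ q * A * 8) * Ub k) := by
        rw [← ENNReal.ofReal_mul (by positivity), ← ENNReal.ofReal_add (by positivity) (by positivity),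
          ← ENNReal.ofReal_mul (by positivity)]
        congr 1
        ring

end JT

end ART

end HexObs
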