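import Pool.Agent.ARM.JoinR
import Pool.Agent.ART.DefsG

/-!
# ART, row G1, the last step (helper34): from the lattice path to the joinable word

* `seg_clear`: clearance of the segments from the clearance of the nodes;
* `meshJ`: the mesh, its scale, the finite set of meshes (the numbers of `ARM.jn_of`);
* **`jn_tail`**: the tail of `ARM.jn_of` for any path with these properties.
-/

set_option autoImplicit false

namespace HexObs

namespace ART

open Finset TS SDN SIM NTA TIP ARM TIW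

/-- **clearance of the segments** (as in `ARM.exists_path`) -/
theorem seg_clear {V : Set Pt} {t dt g0 : Pt} {D ρ κ : ℤ} {n : ℕ} {f : ℕ → Pt} (hD : 0 < D) (hκ0 : 0 ≤ κ) (hκ : κ < D)
    (hdt : dt ∈ dirs) (hg : hn (t - D • g0) ≤ κ) (hV1 : ∀ p ∈ V, 0 < ip (p - t) dt → ρ ≤ hn (p - t))
    (hV2 : ∀ p ∈ V, ip p up < 0 → ρ ≤ hn p) (hρ : 5 * D ≤ ρ) (hf1 : f 1 = g0 + dt) (hfl : f (n - 1) = -up)
    (hdir : ∀ i, i < n → f (i + 1) - f i ∈ dirs)
    (hA : ∀ i, 2 ≤ i → i + 2 ≤ n → ∀ p ∈ V, 3 * D ≤ hn (p - D • f i)) :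
    ∀ i, 1 ≤ i → i + 1 < n → ∀ s : ℤ, 0 ≤ s → s ≤ D → ∀ p ∈ V,
      D - κ ≤ hn (p - (D • f i + s • (f (i + 1) - f i))) := by
  have hC : ∀ i, 1 ≤ i → i < n → ∀ p ∈ V, 2 * D - κ ≤ hn (p - D • f i) := by
    intro i h1 h2 p hp
    by_cases h3 : i = 1
    · subst h3
      by_contra hcon2
      rw [not_le] at hcon2
      have e : p - t = (p - D • f 1) + (D • dt - (t - D • g0)) := by rw [hf1, smul_add]; abel
      have k1 : 0 < ip (p - t) dt := by
        have k5 := neg_hn_le_ip (p - D • f 1) hdt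
        have k6 := ip_le_hn (t - D • g0) hdt
        have k7 : ip (D • dt - (t - D • g0)) dt = 2 * D - ip (t - D • g0) dt := by
          rw [ip_sub_left, ip_smul_left, ip_self_dir hdt]
          ring
        rw [e, ip_add_left, k7]
        linarith
      have k2 := hV1 p hp k1
      have k3 := hn_add (p - D • f 1) (D • dt - (t - D • g0))
      have k4 := hn_sub (D • dt) (t - D • g0)
      rw [hn_smul_d hdt hD.le] at k4
      rw [← e] at k3
      linarith
    · by_cases h4 : i + 1 = n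
      · have e0 : i = n - 1 := by omega
        rw [← e0] at hfl
        by_contra hcon2
        rw [not_le] at hcon2
        have e : p = (p - D • f i) - D • up := by rw [hfl, smul_neg]; abel
        have k1 : ip p up < 0 := by
          have k5 := ip_le_hn (p - D • f i) upd'
          have k7 : ip (D • up) up = 2 * D := by
            rw [ip_smul_left, ip_self_dir upd']
            ring
          rw [e, ip_sub_left _ (D • up), k7]
          linarith
        have k2 := hV2 p hp k1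
        have k3 := hn_sub (p - D • f i) (D • up)
        rw [hn_smul_d upd' hD.le, ← e] at k3
        linarith
      · have := hA i (by omega) (by omega) p hp
        linarith
  intro i h1 h2 s hs0 hsD p hp
  rcases le_total (2 * s) D with h | h
  · have k1 := hC i h1 (by omega) p hp
    have e : p - D • f i = (p - (D • f i + s • (f (i + 1) - f i))) + s • (f (i + 1) - f i) := by abel
    have k2 := hn_add (p - (D • f i + s • (f (i + 1) - f i))) (s • (f (i + 1) - f i))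
    rw [← e, hn_smul_d (hdir i (by omega)) hs0] at k2
    linarith
  · have k1 := hC (i + 1) (by omega) (by omega) p hp
    have e : p - D • f (i + 1) = (p - (D • f i + s • (f (i + 1) - f i))) - (D - s) • (f (i + 1) - f i) := by
      rw [sub_smul, smul_sub D]
      abel
    have k2 := hn_sub (p - (D • f i + s • (f (i + 1) - f i))) ((D - s) • (f (i + 1) - f i))
    rw [← e, hn_smul_d (hdir i (by omega)) (by linarith)] at k2
    linarith

/-- the path in the frame of `qv` -/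
lemma qv_of {f : ℕ → Pt} {n : ℕ} (fn : f n = 0) (D : ℤ) (i : ℕ) : qv (fun i => f (i + 1) - f i) D n i = D • f i := by
  have hps : ∀ i, AR.ps (fun i => f (i + 1) - f i) i = f i - f 0 := fun i => sum_range_sub f i
  unfold qv
  rw [hps, hps, fn]
  congr 1
  abel

/-- **the tail of `ARM.jn_of`** -/
theorem jn_tail {M : List Bool} {g : Pt} {D ρ : ℤ} {k n : ℕ} {f : ℕ → Pt} (hsa : M ∈ SA) (hD : 0 < D)
    (hgκ : hn (en M - D • g) ≤ 2 ^ k) (hκD : 72 * (2 ^ 11 * 2 ^ k) ≤ D)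
    (hV1 : ∀ i, i ≤ M.length → 0 < ip (vx oo up M i - en M) (de M) → ρ ≤ hn (vx oo up M i - en M))
    (hV2 : ∀ i, 1 ≤ i → i ≤ M.length → ip (vx oo up M i) up ≤ 0 → ρ ≤ hn (vx oo up M i)) (hρ : 5 * D ≤ ρ) (hn4 : 4 ≤ n)
    (f0 : f 0 = g) (fn : f n = 0) (f1 : f 1 = g + de M) (fl : f (n - 1) = -up) (fl2 : f (n - 2) = -up - up)
    (fdir : ∀ i, i < n → f (i + 1) - f i ∈ dirs)
    (ftur : ∀ i, i + 1 < n → f (i + 1 + 1) - f (i + 1) = f (i + 1) - f i ∨
      f (i + 1 + 1) - f (i + 1) = rotL (f (i + 1) - f i) ∨ f (i + 1 + 1) - f (i + 1) = rotR (f (i + 1) - f i))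
    (find : ∀ i j, i + 1 < j → j ≤ n → 3 ≤ nrm (f j - f i))
    (fclr : ∀ i, 1 ≤ i → i + 1 < n → ∀ s : ℤ, 0 ≤ s → s ≤ D → ∀ i', i' ≤ M.length →
      D - 2 ^ k ≤ hn (vx oo up M i' - (D • f i + s • (f (i + 1) - f i)))) :
    IPg (fun i => f (i + 1) - f i) n ∧ (fun i => f (i + 1) - f i) (n - 1) = up ∧ (fun i => f (i + 1) - f i) (n - 2) = up ∧
      Jn (fun i => f (i + 1) - f i) n D k M := by
  have hdt : de M ∈ dirs := by
    unfold de
    exact dx_mem upd' _ _
  have hκp : (0 : ℤ) < 2 ^ k := by positivity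
  have hqv := qv_of fn D
  have hps : ∀ i, AR.ps (fun i => f (i + 1) - f i) i = f i - f 0 := fun i => sum_range_sub f i
  obtain ⟨m', rfl⟩ : ∃ m', n = m' + 1 := ⟨n - 1, by omega⟩
  rw [Nat.add_sub_cancel] at fl
  obtain ⟨m'', rfl⟩ : ∃ m'', m' = m'' + 1 := ⟨m' - 1, by omega⟩
  rw [show m'' + 1 + 1 - 2 = m'' by omega] at fl2
  have hlast : f (m'' + 1 + 1) - f (m'' + 1) = up := by rw [fn, fl]; abel
  have hlast2 : f (m'' + 1) - f m'' = up := by rw [fl, fl2]; abel
  have hfst : f (0 + 1) - f 0 = de M := by rw [zero_add, f1, f0]; abel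
  refine ⟨⟨fdir, fun i hi => ftur i hi, fun i j h1 h2 => ?_⟩, ?_, ?_, ?_⟩
  · rw [hps, hps, sub_sub_sub_cancel_right]
    exact find i j h1 h2
  · rw [Nat.add_sub_cancel]
    exact hlast
  · rw [show m'' + 1 + 1 - 2 = m'' by omega]
    exact hlast2
  · refine ⟨hsa, ?_, ?_, ?_, ?_, ?_⟩
    · show de M = f (0 + 1) - f 0
      rw [hfst]
    · rw [hqv, f0]
      exact hgκ
    · rintro i hi j h1 h2 ⟨σ, s1, s2, s3⟩
      have h3 := fclr j h1 h2 σ s1 s2 _ hi
      have s4 : hn (vx oo up M i - (D • f j + σ • (f (j + 1) - f j))) ≤ 2 ^ (k + 11) := by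
        rw [← hqv j]
        exact s3
      rw [pow_add] at s4
      linarith
    · rintro i hi ⟨σ, s1, s2, s3⟩
      have s4 : hn (vx oo up M i - (D • g + σ • de M)) ≤ 2 ^ (k + 11) := by
        rw [← hfst, ← f0, ← hqv 0]
        exact s3
      show ip (vx oo up M i - en M) (f (0 + 1) - f 0) ≤ 0
      rw [hfst]
      by_contra hcon
      rw [not_le] at hcon
      have h1 := hV1 i hi hcon
      have h2 : vx oo up M i - en M = (vx oo up M i - (D • g + σ • de M)) + (σ • de M - (en M - D • g)) := by abel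
      have h3 := hn_add (vx oo up M i - (D • g + σ • de M)) (σ • de M - (en M - D • g))
      have h4 := hn_sub (σ • de M) (en M - D • g)
      rw [hn_smul_d hdt s1] at h4
      rw [← h2] at h3
      rw [pow_add] at s4
      linarith
    · rintro i h1 hi ⟨σ, s1, s2, s3⟩
      have s4 : hn (vx oo up M i - (D • -up + σ • up)) ≤ 2 ^ (k + 11) := by
        rw [← fl]
        have e1 := hqv (m'' + 1)
        rw [← e1]
        nth_rewrite 2 [← hlast]
        exact s3
      by_contra hcon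
      rw [not_lt] at hcon
      have h1' := hV2 i h1 hi hcon
      have h2 : vx oo up M i = (vx oo up M i - (D • -up + σ • up)) + (D • -up + σ • up) := by abel
      have h3 := hn_add (vx oo up M i - (D • -up + σ • up)) (D • -up + σ • up)
      have h4 := hn_add (D • -up) (σ • up)
      rw [hn_smul_d upd' s1] at h4
      rw [← h2] at h3
      rw [pow_add] at s4
      have h5 : hn (D • -up) = 2 * D := by rw [smul_neg, hn_neg, hn_smul_d upd' hD.le]
      linarith

/-- **the mesh** (the numbers of `ARM.jn_of`): margin L, D0 = 2 ^ s, j = L + s -/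
theorem meshJ (m L : ℕ) {H : ℕ} (hH : 2 ^ 13 ≤ H) : ∃ sx b0 : ℕ, ∀ j, b0 ≤ j → ∃ DD : Finset ℤ,
    DD.card ≤ (216 * H) ^ 2 + 1 ∧ ∀ t : Pt, hn t ≤ 2 ^ (j + m + 3) → ∃ (D : ℤ) (g : Pt) (k : ℕ), D ∈ DD ∧ 0 < D ∧
      D ≤ 2 ^ (j - L) ∧ 2 ^ (j - L) ≤ 2 * ((216 * H : ℕ) : ℤ) ^ 2 * D ∧ hn (t - D • g) ≤ 2 ^ k ∧
      |g.1| ≤ ((216 * H : ℕ) : ℤ) ^ 2 * 2 ^ (m + L + 3) + 1 ∧ |g.2| ≤ ((216 * H : ℕ) : ℤ) ^ 2 * 2 ^ (m + L + 3) + 1 ∧
      18 * (H * 2 ^ k) ≤ D ∧ D ≤ 36 * (H * 2 ^ k) ∧ 72 * (2 ^ 11 * 2 ^ k) ≤ D ∧ k ≤ j ∧ j ≤ k + sx := by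
  set N : ℕ := 216 * H with hN
  set T : ℕ := 2 ^ (m + L + 3) with hT
  set X : ℕ := N ^ 2 * (432 * H * (N ^ 2 * T + 3)) with hX
  have hH1 : 1 ≤ H := le_trans (by norm_num) hH
  refine ⟨L + 72 * H * N ^ 2, L + X, fun j hj => ⟨(range (N ^ 2 + 1)).image fun q : ℕ => (2 : ℤ) ^ (j - L) / q, ?_,
    fun t hle => ?_⟩⟩
  · refine card_image_le.trans ?_
    rw [card_range]
  obtain ⟨s, rfl⟩ : ∃ s, j = L + s := ⟨j - L, by omega⟩
  have hsX : X ≤ s := by omega
  have hpow : (X : ℤ) ≤ 2 ^ s := by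
    have h1 : X < 2 ^ X := Nat.lt_two_pow_self
    have h2 : 2 ^ X ≤ 2 ^ s := Nat.pow_le_pow_right (by norm_num) hsX
    exact_mod_cast h1.le.trans h2
  rw [Nat.add_sub_cancel_left] at *
  set D0 : ℤ := 2 ^ s with hD0
  have hD0p : 0 < D0 := by positivity
  have hle2 : hn t ≤ T * D0 := by
    rw [hT, hD0]
    push_cast
    rw [← pow_add, show m + L + 3 + s = L + s + m + 3 by ring]
    exact hle
  obtain ⟨c1, c2⟩ := hn_coord t
  obtain ⟨D, g, ⟨q0, hq0, hDq0⟩, hDp, hDle, hDge, hg1, hg2, hgn⟩ := mesh (H := H) (D0 := D0) (T := T) (t := t) hH1 hD0p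
    (by positivity) (by linarith [abs_nonneg t.1, hn_nonneg t]) (by linarith [abs_nonneg t.2, hn_nonneg t]) (by
      refine le_trans (le_of_eq ?_) hpow
      rw [hX, hN]
      push_cast
      ring)
  rw [← hN] at hDge hg1 hg2 hq0
  have hHz : (2 : ℤ) ^ 13 ≤ H := by exact_mod_cast hH
  have hD18 : 18 * (H : ℤ) ≤ D := by
    have h1 : (2 : ℤ) * N ^ 2 * (18 * H) ≤ 2 * N ^ 2 * D := by
      refine le_trans ?_ hDge
      refine le_trans ?_ hpow
      rw [hX]
      push_cast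
      have h2 : (0 : ℤ) ≤ (N : ℤ) ^ 2 * H := by positivity
      have h3 : (0 : ℤ) ≤ (N : ℤ) ^ 2 * T := by positivity
      nlinarith [mul_nonneg h2 h3]
    refine le_of_mul_le_mul_left h1 ?_
    have : (0 : ℤ) < N := by
      rw [hN]
      push_cast
      linarith
    positivity
  obtain ⟨k, hk1, hk2⟩ := scale hH1 hD18
  have hκp : (0 : ℤ) < 2 ^ k := by positivity
  have hκD : 72 * (2 ^ 11 * (2 : ℤ) ^ k) ≤ D := by
    refine le_trans ?_ hk1
    have : (2 : ℤ) ^ 13 * 2 ^ k ≤ H * 2 ^ k := mul_le_mul_of_nonneg_right hHz hκp.le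
    linarith
  have hgκ : hn (t - D • g) ≤ 2 ^ k := by
    have h1 : 36 * (H : ℤ) * hn (t - D • g) ≤ 36 * H * 2 ^ k := by
      rw [mul_assoc 36 (H : ℤ) (2 ^ k)]
      exact hgn.trans hk2.le
    refine le_of_mul_le_mul_left h1 (by linarith)
  refine ⟨D, g, k, ?_, hDp, hDle, hDge, hgκ, ?_, ?_, hk1, hk2.le, hκD, ?_, ?_⟩
  · rw [mem_image]
    exact ⟨q0, mem_range.2 hq0, hDq0⟩
  · refine hg1.trans (le_of_eq ?_)
    rw [hT]
    push_cast
    ring
  · refine hg2.trans (le_of_eq ?_)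
    rw [hT]
    push_cast
    ring
  · have h1 : (2 : ℤ) ^ k ≤ 2 ^ s := by
      linarith
    have h2 : k ≤ s := (pow_le_pow_iff_right₀ (by norm_num : (1 : ℤ) < 2)).1 h1
    omega
  · have h1 : (2 : ℤ) ^ s ≤ 2 * N ^ 2 * (36 * (H * 2 ^ k)) :=
      hDge.trans (mul_le_mul_of_nonneg_left hk2.le (by positivity))
    have h2 : (72 * H * N ^ 2 : ℕ) < 2 ^ (72 * H * N ^ 2) := Nat.lt_two_pow_self
    have h3 : (2 : ℤ) ^ s ≤ 2 ^ (k + 72 * H * N ^ 2) := by
      rw [pow_add]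
      refine h1.trans ?_
      have h4 : ((72 * H * N ^ 2 : ℕ) : ℤ) ≤ 2 ^ (72 * H * N ^ 2) := by exact_mod_cast h2.le
      have h5 : (2 : ℤ) * N ^ 2 * (36 * (H * 2 ^ k)) = 2 ^ k * ((72 * H * N ^ 2 : ℕ) : ℤ) := by
        push_cast
        ring
      rw [h5]
      exact mul_le_mul_of_nonneg_left h4 (by positivity)
    have h6 : s ≤ k + 72 * H * N ^ 2 := (pow_le_pow_iff_right₀ (by norm_num : (1 : ℤ) < 2)).1 h3
    omega

end ART

end HexObs
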