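import Pool.Agent.ART.JoinDefs
import Pool.Agent.ART.ChnU
import Pool.Agent.ARM.JoinR

/-!
# ART, rows G1, C-a (J5, helper39): `joinTc_of : PathTSt -> JoinTc`
-/

set_option autoImplicit false

namespace HexObs

namespace ART

open Finset TS SDN NTA TIP TIW ARM

/-- the row condition in the frame of M -/
lemma row_wv {j m : ℕ} {X M Y : List Bool} {d : Pt} (hd : d ∈ dirs) (hend : hn (en (X ++ (M ++ Y))) ≤ 2 ^ j)
    (hY : In (2 ^ (j + m)) Y) (hr : ∀ s, s ≤ (X ++ (M ++ Y)).length → ip (vx oo up (X ++ (M ++ Y)) s) d ≤ 2 ^ j) :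
    ∀ t, t ≤ M.length → ip (wv M t) (mulE (conjE (rt X)) d) ≤ 5 * 2 ^ (j + m) := by
  intro t ht
  rw [← ip_mulE_left (nrm_rt X)]
  have vM : ∀ t, t ≤ M.length + 1 → vx oo up (X ++ (M ++ Y)) (X.length + t) = en X + mulE (rt X) (vx oo up M t) := by
    intro t ht
    rw [vx_app, vx_append ht]
  have e1 : mulE (rt X) (wv M t) = vx oo up (X ++ (M ++ Y)) (X.length + t) -
      vx oo up (X ++ (M ++ Y)) (X.length + M.length) := by
    rw [vM t (by omega), vM M.length (by omega)]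
    unfold wv
    rw [mulE_sub]
    abel
  have hlen : (X ++ (M ++ Y)).length = X.length + (M.length + Y.length) := by
    rw [List.length_append, List.length_append]
  have h1 := hr (X.length + t) (by omega)
  have h2 : hn (vx oo up (X ++ (M ++ Y)) (X.length + M.length) - en (X ++ (M ++ Y))) ≤ 3 * 2 ^ (j + m) := by
    have h3 := mid_hn_In hY (i := Y.length) le_rfl
    have e2 : en (X ++ (M ++ Y)) - vx oo up (X ++ (M ++ Y)) (X.length + M.length) = mulE (rt X) (mulE (rt M) (en Y)) := by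
      rw [vM M.length (by omega), mid_en_app X (M ++ Y), mid_en_app M Y, mulE_add]
      show en X + (mulE (rt X) (en M) + mulE (rt X) (mulE (rt M) (en Y))) - (en X + mulE (rt X) (en M)) = _
      abel
    rw [hn_sub_comm, e2, hn_mulE (nrm_rt X), hn_mulE (nrm_rt M)]
    push_cast at h3
    exact h3
  have h4 := neg_hn_le_ip (vx oo up (X ++ (M ++ Y)) (X.length + M.length)) hd
  have h5 := hn_add (vx oo up (X ++ (M ++ Y)) (X.length + M.length) - en (X ++ (M ++ Y))) (en (X ++ (M ++ Y)))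
  rw [sub_add_cancel] at h5
  rw [e1, ip_sub_left]
  have h6 : (2 : ℤ) ^ j ≤ 2 ^ (j + m) := pow_le_pow_right₀ (by norm_num) (by omega)
  linarith

/-- **rows G1 + C-a, from the path of the lattice** -/
theorem joinTc_of (hP : PathTSt) : JoinTc := by
  intro η κ0 a m N hη hκ0
  refine ⟨a + 6, m + 7, fun c u e hc hcu he H hH => ?_⟩
  obtain ⟨C, hP⟩ := hP N
  obtain ⟨NN, hNN⟩ : ∃ NN : ℕ, NN = 216 * H := ⟨_, rfl⟩
  obtain ⟨T, hT⟩ : ∃ T : ℕ, T = 2 ^ (m + e + 13) := ⟨_, rfl⟩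
  obtain ⟨XX, hXX⟩ : ∃ XX : ℕ, XX = NN ^ 2 * (432 * H * (NN ^ 2 * T + 3)) := ⟨_, rfl⟩
  obtain ⟨RB, hRB⟩ : ∃ RB : ℕ, RB = C * (2 ^ (e + c + 9) * (2 * NN ^ 2) + (NN ^ 2 * T + 1) + 2 ^ (e + 10) * (2 * NN ^ 2) + 1) :=
    ⟨_, rfl⟩
  have hH1 : 1 ≤ H := le_trans (by norm_num) hH
  refine ⟨RB ^ 2 + (NN ^ 2 + 1), e + 10 + 72 * H * NN ^ 2, e + 10 + XX + c + 4, fun j hj =>
    ⟨(range (NN ^ 2 + 1)).image fun q : ℕ => (2 : ℤ) ^ (j - (e + 10)) / q, ?_, fun n hn0 X M Y hL hCut d0 hd0 hrow => ?_⟩⟩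
  · refine card_image_le.trans ?_
    rw [card_range]
    exact Nat.le_add_left _ _
  -- the middle word
  obtain ⟨σ, -, -, hM⟩ := mctx_of hη hc hcu (by omega) hL hCut
  have hMO : MidOk a m c e j M := midOk_of hη le_rfl he hc hcu (by omega) hL hCut
  have hend : hn (en (X ++ (M ++ Y))) ≤ 2 ^ j := by
    have h1 := hL.1.2.2.2
    rwa [sub_zero] at h1
  have hrw := row_wv hd0 hend hCut.1.2.1 hrow
  obtain ⟨d, hd⟩ : ∃ d : Pt, d = mulE (conjE (rt X)) d0 := ⟨_, rfl⟩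
  have hdd : d ∈ dirs := by
    rw [hd]
    exact conj_mem (nrm_rt X) hd0
  rw [← hd] at hrw ⊢
  -- scales
  obtain ⟨s, rfl⟩ : ∃ s, j = e + 10 + s := ⟨j - (e + 10), by omega⟩
  have hsX : XX ≤ s := by omega
  have hpow : (XX : ℤ) ≤ 2 ^ s := by
    have h1 : XX < 2 ^ XX := Nat.lt_two_pow_self
    have h2 : 2 ^ XX ≤ 2 ^ s := Nat.pow_le_pow_right (by norm_num) hsX
    exact_mod_cast h1.le.trans h2
  obtain ⟨D0, hD0⟩ : ∃ D0 : ℤ, D0 = 2 ^ s := ⟨_, rfl⟩
  have hD0p : 0 < D0 := by rw [hD0]; positivity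
  have hje : e + 10 + s - e = s + 10 := by omega
  obtain ⟨v, hja⟩ : ∃ v, e + 10 + s - a = s + 16 + v := ⟨e - a - 6, by omega⟩
  have hfar := hMO.far
  have hle := hMO.le
  rw [hje] at hfar
  obtain ⟨t, ht⟩ : ∃ t : Pt, t = en M := ⟨_, rfl⟩
  rw [← ht] at hfar hle
  have hle2 : hn t ≤ T * D0 := by
    rw [hT, hD0]
    push_cast
    rw [← pow_add, show m + e + 13 + s = e + 10 + s + m + 3 by ring]
    exact hle
  obtain ⟨c1, c2⟩ := hn_coord t
  obtain ⟨D, g, ⟨q0, hq0, hDq0⟩, hDp, hDle, hDge, hg1, hg2, hgn⟩ := mesh (H := H) (D0 := D0) (T := T) (t := t) hH1 hD0p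
    (by positivity) (by linarith [abs_nonneg t.1, hn_nonneg t]) (by linarith [abs_nonneg t.2, hn_nonneg t]) (by
      rw [hD0]
      refine le_trans (le_of_eq ?_) hpow
      rw [hXX, hNN]
      push_cast
      ring)
  rw [← hNN] at hDge hg1 hg2 hq0
  have hDD : D ∈ (range (NN ^ 2 + 1)).image fun q : ℕ => (2 : ℤ) ^ (e + 10 + s - (e + 10)) / q := by
    rw [Nat.add_sub_cancel_left, mem_image]
    exact ⟨q0, mem_range.2 hq0, by rw [← hD0]; exact hDq0⟩
  -- the scale k'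
  have hHz : (2 : ℤ) ^ 13 ≤ H := by exact_mod_cast hH
  have hD18 : 18 * (H : ℤ) ≤ D := by
    have h1 : (2 : ℤ) * NN ^ 2 * (18 * H) ≤ 2 * NN ^ 2 * D := by
      refine le_trans ?_ hDge
      rw [hD0]
      refine le_trans ?_ hpow
      rw [hXX]
      push_cast
      have h2 : (0 : ℤ) ≤ (NN : ℤ) ^ 2 * H := by positivity
      have h3 : (0 : ℤ) ≤ (NN : ℤ) ^ 2 * T := by positivity
      nlinarith [mul_nonneg h2 h3]
    refine le_of_mul_le_mul_left h1 ?_
    have : (0 : ℤ) < NN := by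
      rw [hNN]
      push_cast
      linarith
    positivity
  obtain ⟨k, hk1, hk2⟩ := scale hH1 hD18
  obtain ⟨κ, hκ⟩ : ∃ κ : ℤ, κ = 2 ^ k := ⟨_, rfl⟩
  rw [← hκ] at hk1 hk2
  have hκp : 0 < κ := by rw [hκ]; positivity
  have hκD : 72 * (2 ^ 11 * κ) ≤ D := by
    refine le_trans ?_ hk1
    have : (2 : ℤ) ^ 13 * κ ≤ H * κ := mul_le_mul_of_nonneg_right hHz hκp.le
    linarith
  have hgκ : hn (t - D • g) ≤ κ := by
    have h1 : 36 * (H : ℤ) * hn (t - D • g) ≤ 36 * H * κ := by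
      rw [mul_assoc 36 (H : ℤ) κ]
      exact hgn.trans hk2.le
    refine le_of_mul_le_mul_left h1 (by linarith)
  -- the powers
  obtain ⟨W, hW⟩ : ∃ W : ℤ, W = 2 ^ (s + 14 + v) := ⟨_, rfl⟩
  have hWja : (2 : ℤ) ^ (e + 10 + s - a) = 4 * W := by
    rw [hja, hW, show s + 16 + v = (s + 14 + v) + 2 by ring, pow_add _ (s + 14 + v)]
    ring
  have hWja' : ((2 ^ (e + 10 + s - a) : ℕ) : ℤ) = 4 * W := by
    push_cast
    exact hWja
  have hWD : 16384 * D ≤ W := by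
    rw [hW, show s + 14 + v = (s + v) + 14 by ring, pow_add]
    have h1 : (2 : ℤ) ^ s ≤ 2 ^ (s + v) := pow_le_pow_right₀ (by norm_num) (by omega)
    rw [← hD0] at h1
    linarith
  have hfarD : 1000 * D ≤ hn t := by
    have h1 : (2 : ℤ) ^ (s + 10) = 1024 * D0 := by
      rw [hD0, pow_add]
      ring
    rw [h1] at hfar
    linarith
  -- K
  obtain ⟨h, rfl⟩ : ∃ h : ℕ, D = h := ⟨D.toNat, by omega⟩
  have hh1 : 1 ≤ h := by exact_mod_cast hDp
  obtain ⟨Wn, hWn⟩ : ∃ Wn : ℕ, (Wn : ℤ) = W := ⟨2 ^ (s + 14 + v), by rw [hW]; push_cast; rfl⟩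
  obtain ⟨K, hK⟩ : ∃ K : ℕ, K = Wn / h := ⟨_, rfl⟩
  have hK1 : (K : ℤ) * h ≤ W := by
    rw [← hWn, hK]
    exact_mod_cast Nat.div_mul_le_self Wn h
  have hK2 : W < (K : ℤ) * h + h := by
    have := Nat.lt_mul_div_succ Wn hh1
    rw [← hK] at this
    have h2 : (Wn : ℤ) < h * (K + 1) := by exact_mod_cast this
    rw [hWn] at h2
    linarith
  have hK1000 : 1000 ≤ K := by
    have h1 : (1000 : ℤ) * h ≤ K * h := by linarith
    have h2 : (1000 : ℤ) ≤ K := le_of_mul_le_mul_right h1 hDp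
    exact_mod_cast h2
  obtain ⟨V, hV⟩ : ∃ V : Set Pt, V = {p | ∃ i, i ≤ M.length ∧ p = vx oo up M i} := ⟨_, rfl⟩
  have memV : ∀ i, i ≤ M.length → vx oo up M i ∈ V := fun i hi => by rw [hV]; exact ⟨i, hi, rfl⟩
  have h0V : (0 : Pt) ∈ V := by
    have := memV 0 (Nat.zero_le _)
    exact this
  have htV : t ∈ V := by
    rw [ht]
    exact memV _ le_rfl
  obtain ⟨dt, hdt0⟩ : ∃ dt : Pt, dt = de M := ⟨_, rfl⟩
  have hdt : dt ∈ dirs := by
    rw [hdt0]
    exact dx_mem upd' _ _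
  have hV1 : ∀ p ∈ V, 0 < ip (p - t) dt → 4 * W - 2 ≤ hn (p - t) := by
    intro p hp h1
    rw [hV] at hp
    obtain ⟨i, hi, rfl⟩ := hp
    rw [hdt0] at h1
    rw [ht] at h1 ⊢
    have h2 := hMO.fe i hi h1
    rw [hWja'] at h2
    linarith
  have hV2' : ∀ i, 1 ≤ i → i ≤ M.length → ip (vx oo up M i) up ≤ 0 → 4 * W - 2 ≤ hn (vx oo up M i) := by
    intro i h1 h2 h3
    have h4 := hMO.fr i h1 h2 (by
      rw [vx_one, ip_sub_left, ip_self_dir upd']
      linarith)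
    rw [hWja, vx_one] at h4
    have h5 := hn_sub (vx oo up M i) up
    rw [show hn up = 2 by decide] at h5
    linarith
  have hV2 : ∀ p ∈ V, ip p up < 0 → 4 * W - 2 ≤ hn p := by
    intro p hp h1
    rw [hV] at hp
    obtain ⟨i, hi, rfl⟩ := hp
    rcases Nat.eq_zero_or_pos i with h | h
    · subst h
      simp [vx, vs, oo, ip] at h1
    · exact hV2' i h hi h1.le
  obtain ⟨P, hPd⟩ : ∃ P : ℤ, P = 2 ^ (e + 10 + s + m) := ⟨_, rfl⟩
  rw [← hPd] at hrw
  have hPW : 4 * W ≤ P := by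
    rw [← hWja, hPd]
    exact pow_le_pow_right₀ (by norm_num) (by omega)
  have hWpos : 0 < W := by rw [hW]; positivity
  have hlen8 : 1 ≤ 8 * h := by omega
  have hrq : 3 * (2 * (3 : ℤ) + 3) * ((8 * h : ℕ) : ℤ) ≤ 2 ^ (e + 10 + s - e) := by
    rw [hje, pow_add, ← hD0]
    push_cast
    linarith
  have z1n : hn (((K : ℤ) * h) • dt) = 2 * (K * h) := hn_smul_d hdt (by positivity)
  have f1 : ∀ t', t' ≤ M.length → (2 : ℤ) ^ (e + 10 + s - a) ≤ 4 * hn (wv M t' - ((K : ℤ) * h) • dt) + 8 := by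
    intro t' ht'
    have key := hM.far1 (w := K * h) (by
      have h1 : (2 : ℤ) ^ (e + 10 + s - a) ≤ 8 * ((K : ℤ) * h) := by rw [hWja]; linarith
      exact_mod_cast h1) (by
      have h1 : 8 * ((K : ℤ) * h) ≤ 3 * 2 ^ (e + 10 + s - a) := by rw [hWja]; linarith
      exact_mod_cast h1) ht'
    rw [← hdt0] at key
    push_cast at key
    exact key
  have hz2 : ∀ x : Pt, x - ((h : ℤ) • (-g - (K : ℤ) • up) + t) = (x + ((K : ℤ) * h) • up) - (t - (h : ℤ) • g) := by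
    intro x
    rw [smul_sub, smul_neg, smul_smul, mul_comm (K : ℤ)]
    abel
  have f2 : ∀ t', t' ≤ M.length → (2 : ℤ) ^ (e + 10 + s - a) ≤ 4 * hn (wv M t' - (h : ℤ) • (-g - (K : ℤ) • up)) + 8 := by
    intro t' ht'
    have e1 : wv M t' - (h : ℤ) • (-g - (K : ℤ) • up) = (vx oo up M t' + ((K : ℤ) * h) • up) - (t - (h : ℤ) • g) := by
      rw [← hz2]
      unfold wv
      rw [← ht]
      abel
    have h1 : 2 * ((K : ℤ) * h) ≤ hn (vx oo up M t' + ((K : ℤ) * h) • up) ∨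
        4 * W - 2 - 2 * ((K : ℤ) * h) ≤ hn (vx oo up M t' + ((K : ℤ) * h) • up) := by
      rcases le_or_gt 0 (ip (vx oo up M t') up) with h3 | h3
      · left
        have h4 := ip_le_hn (vx oo up M t' + ((K : ℤ) * h) • up) upd'
        rw [ip_add_left, ip_smul_left, ip_self_dir upd'] at h4
        linarith
      · right
        have h4 := hV2 _ (memV t' ht') h3
        have h5 := hn_sub (vx oo up M t' + ((K : ℤ) * h) • up) (((K : ℤ) * h) • up)
        rw [add_sub_cancel_right, hn_smul_d upd' (by positivity)] at h5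
        linarith
    have h6 := hn_add ((vx oo up M t' + ((K : ℤ) * h) • up) - (t - (h : ℤ) • g)) (t - (h : ℤ) • g)
    rw [sub_add_cancel] at h6
    rw [hWja, e1]
    rcases h1 with h1 | h1 <;> linarith
  have f3 : ∀ t', t' ≤ M.length → (2 : ℤ) ^ (e + 10 + s - a) ≤ 4 * hn (wv M t' - (3 * P) • d) + 8 := by
    intro t' ht'
    have h1 := hrw t' ht'
    have h2 := neg_hn_le_ip (wv M t' - (3 * P) • d) hdd
    rw [ip_sub_left, ip_smul_left, ip_self_dir hdd] at h2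
    rw [hWja]
    linarith
  have hPpos : 0 < P := by linarith
  have n1 : hn (((K : ℤ) * h) • dt) ≤ 8 * 2 ^ (e + 10 + s + m) := by
    rw [z1n, ← hPd]
    linarith
  have n2 : hn ((h : ℤ) • (-g - (K : ℤ) • up)) ≤ 8 * 2 ^ (e + 10 + s + m) := by
    have e1 : (h : ℤ) • (-g - (K : ℤ) • up) = (t - (h : ℤ) • g) - (((K : ℤ) * h) • up + t) := by
      rw [smul_sub, smul_neg, smul_smul, mul_comm (K : ℤ)]
      abel
    have h1 := hn_sub (t - (h : ℤ) • g) (((K : ℤ) * h) • up + t)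
    have h2 := hn_add (((K : ℤ) * h) • up) t
    rw [hn_smul_d upd' (by positivity)] at h2
    have h3 := hM.sta
    rw [wv_zero, hn_neg, ← ht] at h3
    have h4 : (2 : ℤ) ^ (e + 10 + s) ≤ P := by
      rw [hPd]
      exact pow_le_pow_right₀ (by norm_num) (by omega)
    rw [← hPd] at h3
    rw [e1, ← hPd]
    linarith
  have n3 : hn ((3 * P) • d) ≤ 8 * 2 ^ (e + 10 + s + m) := by
    rw [hn_smul_d hdd (by linarith), ← hPd]
    linarith
  have fw : ∀ z : Pt, (∀ t, t ≤ M.length → (2 : ℤ) ^ (e + 10 + s - a) ≤ 4 * hn (wv M t - z) + 8) →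
      ∀ t, t ≤ M.length → 7 * (2 : ℤ) ^ (e + 10 + s - a) ≤ 32 * hn (wv M t - z) + 64 := fun z hz t ht => by
    have h1 := hz t ht
    have h2 : (0 : ℤ) < 2 ^ (e + 10 + s - a) := by positivity
    linarith
  have ch1 := chnZ hM le_rfl he hc hcu (by omega) (q := 8 * h) (r := 3) hlen8 (by norm_num) hrq n1 n2 (fw _ f1) (fw _ f2)
  have ch2 := chnZ hM le_rfl he hc hcu (by omega) (q := 8 * h) (r := 3) hlen8 (by norm_num) hrq n1 n3 (fw _ f1) (fw _ f3)
  obtain ⟨R, hR⟩ : ∃ R : ℤ, R = 2 ^ (e + 10 + s + c - 1) / ((8 * h : ℕ) : ℤ) := ⟨_, rfl⟩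
  rw [← hR] at ch1 ch2
  have hR0 : 0 ≤ R := by
    rw [hR]
    exact Int.ediv_nonneg (by positivity) (by positivity)
  have hcel : ∀ x : Pt, cel (8 * h) x = ce (8 * (h : ℤ)) x := fun x => by
    unfold cel ce
    push_cast
    rfl
  have conv : ∀ f g : ℤ × ℤ, (adj f g ∧ nr R 0 g ∧ ∀ t, t ≤ M.length → ¬ nr 3 (cel (8 * h) (wv M t)) g) →
      (adj f g ∧ nr R 0 g ∧ ∀ p ∈ V, ¬ nr 3 (ce (8 * (h : ℤ)) (p - t)) g) := by
    rintro f g ⟨g1, g2, g3⟩
    refine ⟨g1, g2, fun p hp => ?_⟩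
    rw [hV] at hp
    obtain ⟨i, hi, rfl⟩ := hp
    have := g3 i hi
    rw [hcel] at this
    rw [ht]
    exact this
  have hc1 := Relation.ReflTransGen.mono conv _ _ ch1
  have hc2 := Relation.ReflTransGen.mono conv _ _ ch2
  rw [hcel, hcel] at hc1 hc2
  obtain ⟨n, i0, f, nle, hi2, hin, f0, fn, f1', fl, fl2, fdir, ftur, find, fclr, fup, fcap, fdn, flowV, flowE⟩ :=
    hP V t dt g d ((3 * P) • d) (h : ℤ) (4 * W - 2) κ ((NN : ℤ) ^ 2 * T + 1) R (5 * P + ip t d) K hDp hκp.le (by linarith) hdt hdd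
      h0V htV hgκ hV1 hV2 hfarD hK1000 (by linarith) hg1 hg2 hR0 (by
        intro p hp
        rw [hV] at hp
        obtain ⟨i, hi, rfl⟩ := hp
        have h1 := hrw i hi
        unfold wv at h1
        rw [ip_sub_left, ← ht] at h1
        linarith) (by
        rw [ip_add_left, ip_smul_left, ip_self_dir hdd]
        linarith) hc1 hc2
  have hps : ∀ i, AR.ps (fun i => f (i + 1) - f i) i = f i - f 0 := fun i => sum_range_sub f i
  have hqv : ∀ i, qv (fun i => f (i + 1) - f i) (h : ℤ) n i = (h : ℤ) • f i := by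
    intro i
    unfold qv
    rw [hps, hps, fn]
    congr 1
    abel
  have hn4 : 4 ≤ n := by omega
  obtain ⟨m', rfl⟩ : ∃ m', n = m' + 1 := ⟨n - 1, by omega⟩
  rw [Nat.add_sub_cancel] at fl
  obtain ⟨m'', rfl⟩ : ∃ m'', m' = m'' + 1 := ⟨m' - 1, by omega⟩
  rw [show m'' + 1 + 1 - 2 = m'' by omega] at fl2
  have hlast : f (m'' + 1 + 1) - f (m'' + 1) = up := by rw [fn, fl]; abel
  have hlast2 : f (m'' + 1) - f m'' = up := by rw [fl, fl2]; abel
  have hfst : f (0 + 1) - f 0 = dt := by rw [zero_add, f1', f0]; abel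
  refine ⟨k, m'' + 1 + 1, i0, (h : ℤ), fun i => f (i + 1) - f i, hDD, ?_, ?_, by rw [← hκ]; exact hk1,
    by rw [← hκ]; exact hk2.le, hn4, ?_, ?_, ?_, ?_, ?_, ?_⟩
  · have h1 : (2 : ℤ) ^ k ≤ 2 ^ s := by
      rw [← hκ, ← hD0]
      linarith
    have h2 : k ≤ s := (pow_le_pow_iff_right₀ (by norm_num : (1 : ℤ) < 2)).1 h1
    omega
  · have h1 : (2 : ℤ) ^ s ≤ 2 * NN ^ 2 * (36 * (H * 2 ^ k)) := by
      rw [← hD0, ← hκ]
      exact hDge.trans (mul_le_mul_of_nonneg_left hk2.le (by positivity))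
    have h2 : (72 * H * NN ^ 2 : ℕ) < 2 ^ (72 * H * NN ^ 2) := Nat.lt_two_pow_self
    have h3 : (2 : ℤ) ^ s ≤ 2 ^ (k + 72 * H * NN ^ 2) := by
      rw [pow_add]
      refine h1.trans ?_
      have h4 : ((72 * H * NN ^ 2 : ℕ) : ℤ) ≤ 2 ^ (72 * H * NN ^ 2) := by exact_mod_cast h2.le
      have h5 : (2 : ℤ) * NN ^ 2 * (36 * (H * 2 ^ k)) = 2 ^ k * ((72 * H * NN ^ 2 : ℕ) : ℤ) := by
        push_cast
        ring
      rw [h5]
      exact mul_le_mul_of_nonneg_left h4 (by positivity)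
    have h6 : s ≤ k + 72 * H * NN ^ 2 := (pow_le_pow_iff_right₀ (by norm_num : (1 : ℤ) < 2)).1 h3
    omega
  · -- the number of steps
    have hhge : D0 ≤ (2 * NN ^ 2 * h : ℕ) := by
      push_cast
      exact hDge
    have b1 : R ≤ 2 ^ (e + c + 9) * (2 * NN ^ 2) := by
      rw [hR]
      refine Int.ediv_le_of_le_mul (by positivity) ?_
      have e1 : (2 : ℤ) ^ (e + 10 + s + c - 1) = 2 ^ (e + c + 9) * D0 := by
        rw [hD0, ← pow_add]
        congr 1
        omega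
      rw [e1]
      push_cast at hhge ⊢
      have h7 : (0 : ℤ) ≤ 2 ^ (e + c + 9) := by positivity
      have h8 : (0 : ℤ) ≤ 2 ^ (e + c + 9) * (2 * NN ^ 2 * h) := by positivity
      calc (2 : ℤ) ^ (e + c + 9) * D0 ≤ 2 ^ (e + c + 9) * (2 * NN ^ 2 * h) := mul_le_mul_of_nonneg_left hhge h7
        _ ≤ 8 * (2 ^ (e + c + 9) * (2 * NN ^ 2 * h)) := by linarith
        _ = _ := by ring
    have b2 : (K : ℤ) ≤ 2 ^ (e + 10) * (2 * NN ^ 2) := by
      have e1 : W ≤ 2 ^ (e + 10) * D0 := by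
        have h7 : 4 * W ≤ 2 ^ (e + 10 + s) := by
          rw [← hWja]
          exact pow_le_pow_right₀ (by norm_num) (by omega)
        rw [pow_add, ← hD0] at h7
        linarith
      have h8 : (K : ℤ) * h ≤ 2 ^ (e + 10) * (2 * NN ^ 2) * h := by
        have h7 : (0 : ℤ) ≤ 2 ^ (e + 10) := by positivity
        push_cast at hhge
        calc (K : ℤ) * h ≤ W := hK1
          _ ≤ 2 ^ (e + 10) * D0 := e1
          _ ≤ 2 ^ (e + 10) * (2 * NN ^ 2 * h) := mul_le_mul_of_nonneg_left hhge h7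
          _ = _ := by ring
      exact le_of_mul_le_mul_right h8 hDp
    have b3 : ((C : ℤ) * (R + ((NN : ℤ) ^ 2 * T + 1) + K + 1)).toNat ≤ RB := by
      rw [Int.toNat_le, hRB]
      push_cast
      refine mul_le_mul_of_nonneg_left ?_ (by positivity)
      linarith
    exact nle.trans ((Nat.pow_le_pow_left b3 2).trans (Nat.le_add_right _ _))
  · refine ⟨fdir, fun i hi => ftur i hi, fun i j h1 h2 => ?_⟩
    rw [hps, hps, sub_sub_sub_cancel_right]
    exact find i j h1 h2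
  · rw [Nat.add_sub_cancel]
    exact hlast
  · rw [show m'' + 1 + 1 - 2 = m'' by omega]
    exact hlast2
  · refine ⟨hMO.sa, ?_, ?_, ?_, ?_, ?_⟩
    · show de M = f (0 + 1) - f 0
      rw [hfst, hdt0]
    · rw [hqv, f0, ← ht, ← hκ]
      exact hgκ
    · rintro i hi j h1 h2 ⟨σ', s1, s2, s3⟩
      have h3 := fclr j h1 h2 σ' s1 s2 _ (memV i hi)
      have s4 : hn (vx oo up M i - ((h : ℤ) • f j + σ' • (f (j + 1) - f j))) ≤ 2 ^ (k + 11) := by
        rw [← hqv j]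
        exact s3
      rw [pow_add, ← hκ] at s4
      linarith
    · rintro i hi ⟨σ', s1, s2, s3⟩
      have s4 : hn (vx oo up M i - ((h : ℤ) • g + σ' • dt)) ≤ 2 ^ (k + 11) := by
        rw [← hfst, ← f0, ← hqv 0]
        exact s3
      show ip (vx oo up M i - en M) (f (0 + 1) - f 0) ≤ 0
      rw [hfst, ← ht]
      by_contra hcon
      rw [not_le] at hcon
      have h1 := hV1 _ (memV i hi) hcon
      have h2 : vx oo up M i - t = (vx oo up M i - ((h : ℤ) • g + σ' • dt)) + (σ' • dt - (t - (h : ℤ) • g)) := by abel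
      have h3 := hn_add (vx oo up M i - ((h : ℤ) • g + σ' • dt)) (σ' • dt - (t - (h : ℤ) • g))
      have h4 := hn_sub (σ' • dt) (t - (h : ℤ) • g)
      rw [hn_smul_d hdt s1] at h4
      rw [← h2] at h3
      rw [pow_add, ← hκ] at s4
      linarith
    · rintro i h1 hi ⟨σ', s1, s2, s3⟩
      have s4 : hn (vx oo up M i - ((h : ℤ) • -up + σ' • up)) ≤ 2 ^ (k + 11) := by
        rw [← fl]
        have e1 := hqv (m'' + 1)
        rw [← e1]
        nth_rewrite 2 [← hlast]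
        exact s3
      by_contra hcon
      rw [not_lt] at hcon
      have h1' := hV2' i h1 hi hcon
      have h2 : vx oo up M i = (vx oo up M i - ((h : ℤ) • -up + σ' • up)) + ((h : ℤ) • -up + σ' • up) := by abel
      have h3 := hn_add (vx oo up M i - ((h : ℤ) • -up + σ' • up)) ((h : ℤ) • -up + σ' • up)
      have h4 := hn_add ((h : ℤ) • -up) (σ' • up)
      rw [hn_smul_d upd' s1] at h4
      rw [← h2] at h3
      rw [pow_add, ← hκ] at s4
      have h5 : hn ((h : ℤ) • -up) = 2 * h := by rw [smul_neg, hn_neg, hn_smul_d upd' hDp.le]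
      linarith
  · -- the columns
    refine ⟨hi2, hin, fun i hi => ?_, ?_, fun i hi => ?_, fun i hi => ?_, fun i hi hc => ?_⟩
    · show f (i0 + i + 1) - f (i0 + i) = d
      rw [fup i hi]
      abel
    · rcases fcap with ⟨g1, g2⟩ | ⟨g1, g2⟩
      · left
        refine ⟨?_, ?_⟩
        · show f (i0 + N + 1) - f (i0 + N) = rotR d
          rw [g1]
          abel
        · show f (i0 + N + 1 + 1) - f (i0 + N + 1) = rotR (rotR d)
          rw [show i0 + N + 1 + 1 = i0 + N + 2 by ring, g2]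
          abel
      · right
        refine ⟨?_, ?_⟩
        · show f (i0 + N + 1) - f (i0 + N) = rotL d
          rw [g1]
          abel
        · show f (i0 + N + 1 + 1) - f (i0 + N + 1) = rotL (rotL d)
          rw [show i0 + N + 1 + 1 = i0 + N + 2 by ring, g2]
          abel
    · show f (i0 + N + 2 + i + 1) - f (i0 + N + 2 + i) = -d
      rw [fdn i hi]
      abel
    · rw [hqv, ip_smul_left]
      exact flowV _ (memV i hi)
    · rw [hqv, hqv, ip_smul_left, ip_smul_left]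
      have h1 := flowE i hi hc
      have h2 := mul_le_mul_of_nonneg_left h1 hDp.le
      linarith

/-- row G1 for open words (literal of helper87) -/
theorem joinT_of_c (hJ : JoinTc) : JoinT := by
  intro η κ a m hη hκ
  obtain ⟨k, c0, hJ⟩ := hJ η κ a m 1 hη hκ
  refine ⟨k, c0, fun c u e hc hcu he H hH => ?_⟩
  obtain ⟨Mx, sx, b0, hJ⟩ := hJ c u e hc hcu he H hH
  refine ⟨Mx, sx, 0, b0, fun j hj => ?_⟩
  obtain ⟨DD, hDD, hJ⟩ := hJ j hj
  refine ⟨DD, hDD, fun n hn X M Y hL hC => ?_⟩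
  obtain ⟨-, d, hd, hT⟩ := hL.1.2.2.2
  obtain ⟨k', r, i0, D, E, h1, h2, h3, h4, h5, h6, h7, h8, h9, h10, h11, h12⟩ :=
    hJ n hn X M Y (GFcT_sub (GFT_sub_GFcT hL)) hC d hd (fun s hs => by
      have := (hT s hs).1
      exact_mod_cast this)
  refine ⟨k', r, D, E, h1, h2, h3, h4, h5, h6, h7, h8, h9, h10, h11, mulE (conjE (rt X)) d, conj_mem (nrm_rt X) hd, i0,
    by have := h12.le; omega, fun i hi => Or.inr ?_⟩
  have h13 := h12.lowM i hi
  have h14 : (2 : ℤ) ^ (k' + 12) ≤ D := by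
    refine le_trans ?_ h4
    have h15 : (2 : ℤ) ^ 13 ≤ H := by exact_mod_cast hH
    have h16 : (0 : ℤ) < 2 ^ k' := by positivity
    rw [show k' + 12 = 12 + k' by ring, pow_add]
    nlinarith
  linarith

end ART

end HexObs
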