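import Pool.Agent.ART.LoopM1
import Pool.Agent.ARM.FastN
import Pool.Agent.ARM.Mom
import Pool.Agent.ARM.Conf
import Pool.Agent.NPR.TwoMid
import Pool.Agent.TIP.YBad

/-!
# ART, row E1 (helper82): the fast loops

Loops (both ends within `2 ^ r`, a vertex at distance more than `2 ^ i`) with few letters, and a good end / two good ends of the
scale b. `de_tip`: words of a box with a large displacement in a short time and a good end (`tipxJ`: after the removal of a low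
bridge that is not wide the displacement is still there; `fastW`). `de_two`: two good ends (`NPR.twoE`). **`fastLp`**.
-/

set_option autoImplicit false

namespace HexObs

namespace ART

open Finset TS SDN NTW NTA HexObs.SIM TIP TIW ARM

open scoped ENNReal

namespace LF

/-! ### geometry -/

lemma lvl_hn' (dir : Bool) (p : Pt) : |lvl dir p| ≤ hn p := by
  obtain ⟨a, b⟩ := p
  have h1 : |lvl false (a, b)| ≤ hn (a, b) := by
    unfold hn
    exact le_max_left _ _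
  have h2 : |lvl true (a, b)| ≤ hn (a, b) := by
    have e : lvl true (a, b) = -ip (a, b) (rotR up) := by
      simp only [lvl, hd, ip, up, rotR, if_true]
      ring
    rw [e, abs_neg]
    unfold hn
    exact (le_max_right _ _).trans (le_max_right _ _)
  cases dir
  · exact h1
  · exact h2

lemma lvl_sb' (dir : Bool) (p q : Pt) : lvl dir p - lvl dir q = lvl dir (p - q) := (NTF.lvl_sub dir p q).symm

/-- levels of two vertices of a word of small range -/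
lemma lvl_rng {A Z : List Bool} {D : ℕ} (hZ : Z ∉ WdR D) {s t : ℕ} (hs : s ≤ Z.length) (ht : t ≤ Z.length) (dir : Bool) :
    |lvl dir (vx oo up (A ++ Z) (A.length + s)) - lvl dir (vx oo up (A ++ Z) (A.length + t))| ≤ 3 * D := by
  have h1 : vx oo up Z s ∈ Bl (vx oo up Z t) D := by
    by_contra hcon
    exact hZ ⟨s, t, hs, ht, hcon⟩
  have h2 : vx oo up Z s - vx oo up Z t ∈ Bl oo D := by
    obtain ⟨h3, h4⟩ := h1
    refine ⟨?_, ?_⟩
    · have e : (vx oo up Z s - vx oo up Z t).1 - oo.1 = (vx oo up Z s).1 - (vx oo up Z t).1 := by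
        show (vx oo up Z s).1 - (vx oo up Z t).1 - 0 = _
        ring
      rw [e]
      exact h3
    · have e : (vx oo up Z s - vx oo up Z t).2 - oo.2 = (vx oo up Z s).2 - (vx oo up Z t).2 := by
        show (vx oo up Z s).2 - (vx oo up Z t).2 - 0 = _
        ring
      rw [e]
      exact h4
  rw [vx_app, vx_app, lvl_sb', add_sub_add_left_eq_sub, ← mulE_sub]
  refine (lvl_hn' dir _).trans ?_
  rw [hn_mulE (nrm_rt A)]
  exact hn_le_Bl h2

/-- **removal of a word of small range** -/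
lemma de_cut {l D : ℕ} {x : ℝ} (hD : 3 * (D : ℤ) ≤ 2 ^ l) {A Z1 Z2 : List Bool} (h : A ++ (Z1 ++ Z2) ∈ EN.DE (l + 1) x)
    (hZ : Z1 ++ Z2 ∉ WdR D) : A ++ Z1 ∈ EN.DE l x := by
  obtain ⟨dir, i, j, hij, hj, ht, hd⟩ := h
  have hp : (2 : ℤ) ^ (l + 1) = 2 * 2 ^ l := by rw [pow_succ]; ring
  have hp0 : (0 : ℤ) < 2 ^ l := by positivity
  have key : ∀ s, A.length ≤ s → s ≤ (A ++ (Z1 ++ Z2)).length →
      |lvl dir (vx oo up (A ++ (Z1 ++ Z2)) s) - lvl dir (vx oo up (A ++ (Z1 ++ Z2)) A.length)| ≤ 2 ^ l := by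
    intro s h1 h2
    obtain ⟨k, rfl⟩ := Nat.exists_eq_add_of_le h1
    have h3 := lvl_rng (A := A) hZ (s := k) (t := 0) (by rw [List.length_append] at h2; omega) (Nat.zero_le _) dir
    rw [Nat.add_zero] at h3
    exact h3.trans hD
  have hA : ∀ s, s ≤ A.length → vx oo up (A ++ Z1) s = vx oo up (A ++ (Z1 ++ Z2)) s := by
    intro s hs
    rw [vx_append (by omega), vx_append (by omega)]
  rcases le_or_gt j A.length with h1 | h1
  · refine ⟨dir, i, j, hij, by rw [List.length_append]; omega, ht, ?_⟩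
    rw [hA j h1, hA i (by omega)]
    linarith
  · rcases le_or_gt i A.length with h2 | h2
    · refine ⟨dir, i, A.length, h2, by rw [List.length_append]; omega, ?_, ?_⟩
      · have : (A.length : ℝ) ≤ j := by exact_mod_cast h1.le
        linarith
      · rw [hA A.length le_rfl, hA i h2]
        have h3 := key j h1.le hj
        rw [hp] at hd
        have h4 := abs_sub_abs_le_abs_sub (lvl dir (vx oo up (A ++ (Z1 ++ Z2)) j) - lvl dir (vx oo up (A ++ (Z1 ++ Z2)) i))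
          (lvl dir (vx oo up (A ++ (Z1 ++ Z2)) j) - lvl dir (vx oo up (A ++ (Z1 ++ Z2)) A.length))
        have e : lvl dir (vx oo up (A ++ (Z1 ++ Z2)) j) - lvl dir (vx oo up (A ++ (Z1 ++ Z2)) i) -
          (lvl dir (vx oo up (A ++ (Z1 ++ Z2)) j) - lvl dir (vx oo up (A ++ (Z1 ++ Z2)) A.length)) =
          lvl dir (vx oo up (A ++ (Z1 ++ Z2)) A.length) - lvl dir (vx oo up (A ++ (Z1 ++ Z2)) i) := by ring
        rw [e] at h4
        linarith
    · exfalso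
      obtain ⟨k1, rfl⟩ := Nat.exists_eq_add_of_le h1.le
      obtain ⟨k2, rfl⟩ := Nat.exists_eq_add_of_le h2.le
      rw [List.length_append] at hj
      have h3 := lvl_rng (A := A) hZ (s := k1) (t := k2) (by omega) (by omega) dir
      rw [hp] at hd
      linarith

lemma DE_mono {l : ℕ} {x y : ℝ} (h : x ≤ y) : EN.DE l x ⊆ EN.DE l y := by
  rintro t ⟨dir, i, j, h1, h2, h3, h4⟩
  exact ⟨dir, i, j, h1, h2, h3.trans h, h4⟩

lemma DE_succ {l : ℕ} {x : ℝ} : EN.DE (l + 1) x ⊆ EN.DE l x := by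
  rintro t ⟨dir, i, j, h1, h2, h3, h4⟩
  refine ⟨dir, i, j, h1, h2, h3, le_trans ?_ h4⟩
  exact_mod_cast Nat.pow_le_pow_right (show 0 < 2 by norm_num) (show l ≤ l + 1 by omega)

lemma DE_app {l : ℕ} {x : ℝ} {V : List Bool} (R : List Bool) (h : V ∈ EN.DE l x) : V ++ R ∈ EN.DE l x := by
  obtain ⟨dir, i, j, h1, h2, h3, h4⟩ := h
  refine ⟨dir, i, j, h1, by rw [List.length_append]; omega, h3, ?_⟩
  rwa [vx_append (by omega), vx_append (by omega)]

/-! ### the good end -/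

/-- **words of a box with a large displacement in a short time and a good end** -/
theorem de_tip {η : ℝ} (hη : 0 < η) : ∃ (C Lam : ℝ) (m0 : ℕ), 1 ≤ C ∧ 1 ≤ Lam ∧ 6 ≤ m0 ∧ ∀ Q : ℕ, ∃ A : ℝ, 1 ≤ A ∧
    ∀ (b m K l : ℕ) (y : ℝ), K = b + m → K = l + 4 → m0 ≤ m → 0 < y → y ≤ 1 →
    gf ({W | W ∈ WL K ∧ W ∈ EN.DE (l + 1) (y * PW.mZ (2 ^ l))} ∩ GT b η) ≤
      ENNReal.ofReal ((C * (1 / 4) ^ m + A * y ^ Q * Lam ^ m) * Ub b) * Xb b := by
  obtain ⟨C2, lam, j0, hC2, hlam, htip⟩ := tipxJ η hη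
  obtain ⟨C3, c3, hC3, hc3, hwide⟩ := wide_range
  obtain ⟨C1, hC1, hfast⟩ := fastW
  obtain ⟨D, hD, hup⟩ := EnsW.ref_up
  obtain ⟨E, hE, hXE⟩ := Xb_pow
  obtain ⟨x0, hx0⟩ : ∃ x0 : ℝ, x0 = (Xb 0).toReal := ⟨_, rfl⟩
  have hx00 : 0 ≤ x0 := by rw [hx0]; exact ENNReal.toReal_nonneg
  have hX0 : Xb 0 = ENNReal.ofReal x0 := by rw [hx0]; exact (ENNReal.ofReal_toReal (Xb_ne_top 0)).symm
  have hD0 : 0 < D := by linarith
  have hC20 : 0 < C2 := by linarith
  have hC10 : 0 < C1 := by linarith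
  have hE0 : 0 < E := by linarith
  obtain ⟨A, hA⟩ : ∃ A : ℕ, 4 * D < lam ^ A := pow_unbounded_of_one_lt _ hlam
  obtain ⟨Jw, hJw⟩ := YB.num C3 (4 * D) c3 6 hC3.le (by linarith) hc3
  obtain ⟨Lam, hLam⟩ : ∃ Lam : ℝ, Lam = (C2 * E) ^ A * D := ⟨_, rfl⟩
  have hCE : 1 ≤ C2 * E := one_le_mul_of_one_le_of_one_le hC2 hE
  have hLam1 : 1 ≤ Lam := by rw [hLam]; exact one_le_mul_of_one_le_of_one_le (one_le_pow₀ hCE) hD
  refine ⟨2 * C2, Lam, Jw + 6, by linarith, hLam1, by omega, fun Q => ?_⟩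
  obtain ⟨A1, hA1, hfast⟩ := hfast Q
  have hA10 : 0 < A1 := by linarith
  obtain ⟨A2, hA2⟩ : ∃ A2 : ℝ, A2 = 1 + (C2 * E) ^ (j0 + 1) * (1 + x0) * A1 * C1 ^ 7 * D ^ 3 := ⟨_, rfl⟩
  have hA20 : 1 ≤ A2 := by
    rw [hA2]
    have : 0 ≤ (C2 * E) ^ (j0 + 1) * (1 + x0) * A1 * C1 ^ 7 * D ^ 3 := by positivity
    linarith
  refine ⟨A2, hA20, fun b m K l y hK hl hm hy0 hy1 => ?_⟩
  have hUb : (0 : ℝ) < Ub b := Ub_pos b
  obtain ⟨W, hW⟩ : ∃ W : ℝ≥0∞, W = ENNReal.ofReal (Ub b) * Xb b ^ 2 := ⟨_, rfl⟩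
  have hup' : ∀ i, ENNReal.ofReal (Ub (b + i)) * Xb (b + i) ^ 2 ≤ ENNReal.ofReal (D ^ i) * W := by
    intro i
    rw [hW]
    exact hup b i
  obtain ⟨x, hx⟩ : ∃ x : ℝ, x = y * PW.mZ (2 ^ l) := ⟨_, rfl⟩
  rw [← hx]
  obtain ⟨P, hP⟩ : ∃ P : Set (List Bool), P = {W | W ∈ WL K ∧ W ∈ EN.DE (l + 1) x} := ⟨_, rfl⟩
  rw [← hP]
  -- the mass of the box
  have hbox : gf {t | t ∈ WL (K + 3) ∧ t ∈ EN.DE l x} ≤ ENNReal.ofReal (A1 * y ^ Q * C1 ^ 7 * D ^ (m + 3)) * W := by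
    have h1 := hfast (K + 3) l y (by omega) hy0 hy1
    rw [← hx, show K + 3 - l = 7 by omega] at h1
    have h2 := hup' (m + 3)
    rw [show b + (m + 3) = K + 3 by omega] at h2
    refine h1.trans ((mul_le_mul' le_rfl h2).trans (le_of_eq ?_))
    rw [← mul_assoc, ← ENNReal.ofReal_mul (by positivity)]
  have hmain : gf (P ∩ GT b η) * Xb b ≤ ENNReal.ofReal (2 * C2 * (1 / 4) ^ m + A2 * y ^ Q * Lam ^ m) * W := by
    by_cases hbj : A * m + 1 + j0 ≤ b
    · obtain ⟨N, hN⟩ : ∃ N : ℕ, N = 2 ^ (m - 6) := ⟨_, rfl⟩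
      have hNr : (N : ℝ) = 2 ^ (m - 6) := by rw [hN]; push_cast; rfl
      obtain ⟨w, hw⟩ : ∃ w : ℝ, w = C3 * Real.exp (-(c3 * N)) := ⟨_, rfl⟩
      have hw0 : 0 ≤ w := by rw [hw]; positivity
      have hND : 3 * ((N * 2 ^ b : ℕ) : ℤ) ≤ 2 ^ l := by
        have e1 : N * 2 ^ b = 2 ^ (l - 2) := by
          rw [hN, ← pow_add]
          congr 1
          omega
        have e2 : (2 : ℕ) ^ l = 4 * 2 ^ (l - 2) := by
          rw [show (4 : ℕ) = 2 ^ 2 by norm_num, ← pow_add]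
          congr 1
          omega
        rw [e1]
        have e3 : 3 * 2 ^ (l - 2) ≤ 2 ^ l := by
          rw [e2]
          exact Nat.mul_le_mul_right _ (by norm_num)
        exact_mod_cast e3
      have h1 := htip b (A * m + 1) K P {L | L ∈ WL K ∧ L ∈ EN.DE l x} (WdR (N * 2 ^ b)) w
        (ENNReal.ofReal (A1 * y ^ Q * C1 ^ 7 * D ^ (m + 3)) * W) (by omega) hbj (by omega)
        (by rw [hP]; exact fun L hL => hL.1)
        (fun A' Z1 Z2 hL h2 h3 h4 h5 => by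
          rw [hP] at hL
          exact ⟨YB.WL_pre (Z := Z2) (by rw [List.append_assoc]; exact hL.1), de_cut hND hL.2 h5⟩) hw0
        ((gf_mono (Q := {Z | Z ∈ BU ∧ hgt Z ≤ 2 ^ (b + 1) ∧ Z ∈ WdR (N * 2 ^ b)}) (fun Z hZ =>
          ⟨hZ.1, hZ.2.1.trans (Nat.pow_le_pow_right (by norm_num) (by omega)), hZ.2.2⟩)).trans
          (by rw [hw]; exact hwide b N))
        ((gf_mono (Q := {t | t ∈ WL (K + 3) ∧ t ∈ EN.DE l x}) (by
          rintro t ⟨ht, L, hL, z, hz, rfl⟩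
          exact ⟨EnsW.glue_WL (Nat.pow_le_pow_right (by norm_num) (by omega)) hL.1 hz ht, DE_app z hL.2⟩)).trans hbox)
      refine h1.trans ?_
      have h2 : ENNReal.ofReal (C2 * ((lam ^ (A * m + 1))⁻¹ + w) * Ub K) * Xb K ^ 2 ≤
          ENNReal.ofReal (C2 * ((lam ^ (A * m + 1))⁻¹ + w) * D ^ m) * W := by
        have hq : 0 ≤ C2 * ((lam ^ (A * m + 1))⁻¹ + w) := by positivity
        rw [hK]
        exact YB.mulW hq (hup' m)
      refine (add_le_add h2 le_rfl).trans ?_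
      rw [← mul_assoc, ← add_mul, ← ENNReal.ofReal_mul (by positivity), ← ENNReal.ofReal_add (by positivity) (by positivity)]
      refine mul_le_mul' (ENNReal.ofReal_le_ofReal ?_) le_rfl
      have t1 : (lam ^ (A * m + 1))⁻¹ * D ^ m ≤ (1 / 4) ^ m := by
        have hl0 : 0 < lam := by linarith
        have k1 : (4 * D) ^ m ≤ lam ^ (A * m + 1) := by
          calc (4 * D) ^ m ≤ (lam ^ A) ^ m := pow_le_pow_left₀ (by positivity) hA.le _
            _ = lam ^ (A * m) := (pow_mul _ _ _).symm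
            _ ≤ _ := pow_le_pow_right₀ hlam.le (by omega)
        rw [inv_mul_le_iff₀ (by positivity)]
        calc D ^ m = (4 * D) ^ m * (1 / 4) ^ m := by
              rw [← mul_pow]
              congr 1
              ring
          _ ≤ _ := mul_le_mul_of_nonneg_right k1 (by positivity)
      have t2 : w * D ^ m ≤ (1 / 4) ^ m := by
        have k1 := hJw m (by omega)
        rw [← hNr] at k1
        have e : w * D ^ m = (C3 * (4 * D) ^ m * Real.exp (-(c3 * N))) * (1 / 4) ^ m := by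
          rw [hw, mul_pow, one_div, inv_pow]
          field_simp
        rw [e]
        calc _ ≤ 1 * (1 / 4 : ℝ) ^ m := mul_le_mul_of_nonneg_right k1 (by positivity)
          _ = _ := one_mul _
      have t3 : C2 ^ (A * m + 1) * (A1 * y ^ Q * C1 ^ 7 * D ^ (m + 3)) ≤ A2 * y ^ Q * Lam ^ m := by
        have k1 : C2 ^ (A * m + 1) ≤ ((C2 * E) ^ A) ^ m * (C2 * E) ^ (j0 + 1) := by
          have : C2 ≤ C2 * E := le_mul_of_one_le_right hC20.le hE
          calc C2 ^ (A * m + 1) ≤ (C2 * E) ^ (A * m + 1) := pow_le_pow_left₀ hC20.le this _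
            _ = ((C2 * E) ^ A) ^ m * (C2 * E) ^ 1 := by rw [pow_add, pow_mul]
            _ ≤ _ := by
                refine mul_le_mul_of_nonneg_left (pow_le_pow_right₀ hCE (by omega)) (by positivity)
        have k2 : (1 : ℝ) ≤ 1 + x0 := by linarith
        calc C2 ^ (A * m + 1) * (A1 * y ^ Q * C1 ^ 7 * D ^ (m + 3))
            ≤ (((C2 * E) ^ A) ^ m * (C2 * E) ^ (j0 + 1)) * (A1 * y ^ Q * C1 ^ 7 * D ^ (m + 3)) :=
              mul_le_mul_of_nonneg_right k1 (by positivity)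
          _ = ((C2 * E) ^ (j0 + 1) * 1 * A1 * C1 ^ 7 * D ^ 3) * y ^ Q * Lam ^ m := by
              rw [hLam, mul_pow, pow_add D m 3]
              ring
          _ ≤ ((C2 * E) ^ (j0 + 1) * (1 + x0) * A1 * C1 ^ 7 * D ^ 3) * y ^ Q * Lam ^ m := by gcongr
          _ ≤ A2 * y ^ Q * Lam ^ m := by
              rw [hA2]
              have : (0 : ℝ) ≤ y ^ Q * Lam ^ m := by positivity
              nlinarith
      calc C2 * ((lam ^ (A * m + 1))⁻¹ + w) * D ^ m + C2 ^ (A * m + 1) * (A1 * y ^ Q * C1 ^ 7 * D ^ (m + 3))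
          = C2 * ((lam ^ (A * m + 1))⁻¹ * D ^ m + w * D ^ m) + C2 ^ (A * m + 1) * (A1 * y ^ Q * C1 ^ 7 * D ^ (m + 3)) := by
            ring
        _ ≤ C2 * ((1 / 4) ^ m + (1 / 4) ^ m) + A2 * y ^ Q * Lam ^ m := by
            refine add_le_add (mul_le_mul_of_nonneg_left (add_le_add t1 t2) hC20.le) t3
        _ = _ := by ring
    · -- no room
      have h1 : gf (P ∩ GT b η) ≤ ENNReal.ofReal (A1 * y ^ Q * C1 ^ 7 * D ^ (m + 3)) * W := by
        refine (gf_mono (Q := {t | t ∈ WL (K + 3) ∧ t ∈ EN.DE l x}) ?_).trans hbox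
        rintro L ⟨hL, -⟩
        rw [hP] at hL
        exact ⟨YB.WL_up (by omega) hL.1, DE_succ hL.2⟩
      have h2 : Xb b ≤ ENNReal.ofReal (E ^ (A * m + j0) * x0) := by
        have h3 := hXE 0 b
        rw [Nat.zero_add, hX0, ← ENNReal.ofReal_mul (by positivity)] at h3
        refine h3.trans (ENNReal.ofReal_le_ofReal ?_)
        exact mul_le_mul_of_nonneg_right (pow_le_pow_right₀ hE (by omega)) hx00
      refine (mul_le_mul' h1 h2).trans ?_
      rw [mul_right_comm, ← ENNReal.ofReal_mul (by positivity)]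
      refine mul_le_mul' (ENNReal.ofReal_le_ofReal ?_) le_rfl
      have k1 : E ^ (A * m + j0) ≤ ((C2 * E) ^ A) ^ m * (C2 * E) ^ (j0 + 1) := by
        have : E ≤ C2 * E := le_mul_of_one_le_left hE0.le hC2
        calc E ^ (A * m + j0) ≤ (C2 * E) ^ (A * m + j0) := pow_le_pow_left₀ hE0.le this _
          _ = ((C2 * E) ^ A) ^ m * (C2 * E) ^ j0 := by rw [pow_add, pow_mul]
          _ ≤ _ := mul_le_mul_of_nonneg_left (pow_le_pow_right₀ hCE (by omega)) (by positivity)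
      have k2 : x0 ≤ 1 + x0 := by linarith
      have k3 : A1 * y ^ Q * C1 ^ 7 * D ^ (m + 3) * (E ^ (A * m + j0) * x0) ≤ A2 * y ^ Q * Lam ^ m := by
        calc A1 * y ^ Q * C1 ^ 7 * D ^ (m + 3) * (E ^ (A * m + j0) * x0)
            ≤ A1 * y ^ Q * C1 ^ 7 * D ^ (m + 3) * ((((C2 * E) ^ A) ^ m * (C2 * E) ^ (j0 + 1)) * (1 + x0)) := by
              refine mul_le_mul_of_nonneg_left (mul_le_mul k1 k2 hx00 (by positivity)) (by positivity)
          _ = ((C2 * E) ^ (j0 + 1) * (1 + x0) * A1 * C1 ^ 7 * D ^ 3) * y ^ Q * Lam ^ m := by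
              rw [hLam, mul_pow, pow_add D m 3]
              ring
          _ ≤ A2 * y ^ Q * Lam ^ m := by
              rw [hA2]
              have : (0 : ℝ) ≤ y ^ Q * Lam ^ m := by positivity
              nlinarith
      have : (0 : ℝ) ≤ 2 * C2 * (1 / 4) ^ m := by positivity
      linarith
  have hXz : Xb b ≠ 0 := Xb_ne_zero b
  have hXt : Xb b ≠ ∞ := Xb_ne_top b
  refine (ENNReal.mul_le_mul_iff_left hXz hXt).1 (hmain.trans (le_of_eq ?_))
  rw [hW, ENNReal.ofReal_mul (by positivity)]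
  ring

/-! ### two good ends -/

/-- fast words of the displacement 2 ^ l' -/
def QF (l' : ℕ) (x : ℝ) : Set (List Bool) := {Q | (Q.length : ℝ) ≤ x ∧ 2 ^ l' ≤ hn (vx oo up Q Q.length)}

lemma fac_DE {l : ℕ} {x : ℝ} {t : List Bool} (h : t ∈ NPR.Fac (QF (l + 1) x)) : t ∈ EN.DE l x := by
  obtain ⟨X, Q, Y, h2, h3, h4⟩ := h
  have h7 : (2 : ℤ) ^ (l + 1) ≤ hn (vx oo up t (X.length + Q.length) - vx oo up t X.length) := by
    rw [h2, NPR.Fast.fac_disp]
    exact h4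
  obtain ⟨dir, h8⟩ := NPR.Fast.hn_lvl h7
  refine ⟨dir, X.length, X.length + Q.length, by omega, ?_, ?_, ?_⟩
  · rw [h2]
    simp only [List.length_append]
    omega
  · push_cast
    rw [add_sub_cancel_left]
    exact h3
  · rw [lvl_sb']
    rw [pow_succ] at h8
    linarith

/-- **words of a box with two good ends and a fast factor between them** -/
theorem de_two {η : ℝ} (E : ℕ) (hη : 0 < η) : ∃ (c Lam : ℝ), 0 < c ∧ 1 ≤ Lam ∧ ∀ Q : ℕ, ∃ A : ℝ, 1 ≤ A ∧
    ∀ (b m K l : ℕ) (y : ℝ), K = b + m → K = l + 4 → 1 ≤ b → 0 < y → A * y ^ Q ≤ 1 → y ≤ 1 →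
    gf (NPR.PCQ η E K b b (QF (l + 1) (y * PW.mZ (2 ^ l)))) ≤
      ENNReal.ofReal (Lam * (A * y ^ Q) ^ c * Lam ^ m * Ub b) := by
  obtain ⟨C0, c, hC0, hc, htwo⟩ := NPR.twoE η E hη
  obtain ⟨C1, hC1, hfast⟩ := fastW
  obtain ⟨D, hD, hup⟩ := EnsW.ref_up
  have hD0 : 0 < D := by linarith
  have hC10 : 0 < C1 := by linarith
  refine ⟨c, max D C0, hc, le_max_of_le_left hD, fun Q => ?_⟩
  obtain ⟨A1, hA1, hfast⟩ := hfast Q
  have hA10 : 0 < A1 := by linarith
  refine ⟨A1 * C1 ^ 16 * D ^ 12, one_le_mul_of_one_le_of_one_le (one_le_mul_of_one_le_of_one_le hA1 (one_le_pow₀ hC1))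
    (one_le_pow₀ hD), fun b m K l y hK hl hb hy0 hy hy1 => ?_⟩
  have hUb : (0 : ℝ) < Ub b := Ub_pos b
  obtain ⟨x, hx⟩ : ∃ x : ℝ, x = y * PW.mZ (2 ^ l) := ⟨_, rfl⟩
  rw [← hx]
  have h1 : gf {t | t ∈ WL (K + 12) ∧ t ∈ NPR.Fac (QF (l + 1) x)} ≤
      ENNReal.ofReal (A1 * C1 ^ 16 * D ^ 12 * y ^ Q) * NPR.FK K := by
    refine (gf_mono (Q := {t | t ∈ WL (K + 12) ∧ t ∈ EN.DE l x}) fun t ht => ⟨ht.1, fac_DE ht.2⟩).trans ?_
    have h2 := hfast (K + 12) l y (by omega) hy0 hy1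
    rw [← hx, show K + 12 - l = 16 by omega] at h2
    refine h2.trans ((mul_le_mul' le_rfl (hup K 12)).trans (le_of_eq ?_))
    unfold NPR.FK
    rw [← mul_assoc, ← ENNReal.ofReal_mul (by positivity)]
    congr 2
    ring
  have h2 := htwo K (QF (l + 1) x) _ (by positivity) hy h1 b b (by omega) (by omega)
  have hxw : NPR.xw b = Xb b := by
    unfold NPR.xw
    rw [if_neg (by omega)]
  rw [hxw] at h2
  have h3 : NPR.FK K ≤ ENNReal.ofReal (D ^ m * Ub b) * Xb b ^ 2 := by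
    have := hup b m
    rw [← hK] at this
    unfold NPR.FK
    refine this.trans (le_of_eq ?_)
    rw [← mul_assoc, ← ENNReal.ofReal_mul (by positivity)]
  have hXz : Xb b ≠ 0 := Xb_ne_zero b
  have hXt : Xb b ≠ ∞ := Xb_ne_top b
  refine (ENNReal.mul_le_mul_iff_left (pow_ne_zero 2 hXz) (ENNReal.pow_ne_top hXt)).1 ?_
  rw [pow_two, ← pow_two, pow_two]
  refine h2.trans ((mul_le_mul' le_rfl h3).trans ?_)
  rw [← mul_assoc, ← ENNReal.ofReal_mul (by positivity), pow_two]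
  refine mul_le_mul' (ENNReal.ofReal_le_ofReal ?_) le_rfl
  have e1 : C0 ≤ max D C0 := le_max_right _ _
  have e2 : D ^ m ≤ max D C0 ^ m := pow_le_pow_left₀ hD0.le (le_max_left _ _) _
  have e3 : (0 : ℝ) ≤ (A1 * C1 ^ 16 * D ^ 12 * y ^ Q) ^ c := by positivity
  calc C0 * (A1 * C1 ^ 16 * D ^ 12 * y ^ Q) ^ c * (D ^ m * Ub b)
      = C0 * (A1 * C1 ^ 16 * D ^ 12 * y ^ Q) ^ c * D ^ m * Ub b := by ring
    _ ≤ max D C0 * (A1 * C1 ^ 16 * D ^ 12 * y ^ Q) ^ c * max D C0 ^ m * Ub b := by gcongr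

/-! ### the loops by their extent -/

/-- the loops with the extent between 2 ^ i and 2 ^ (i + 1) and fewer than x letters -/
def Ls (r i : ℕ) (x : ℝ) : Set (List Bool) :=
  {W | W ∈ SA ∧ hn (TIW.en W) ≤ 2 ^ r ∧ (∃ s, s ≤ W.length ∧ 2 ^ i < dz W s) ∧ (∀ s, s ≤ W.length → dz W s ≤ 2 ^ (i + 1)) ∧
    (W.length : ℝ) < x}

lemma lp_cov {r i : ℕ} {x : ℝ} {T : Set (List Bool)} :
    {W | W ∈ Lp r i ∧ (W.length : ℝ) < x ∧ W ∈ T} ⊆ ⋃ v : ℕ, Ls r (i + v) x ∩ T := by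
  classical
  rintro W ⟨⟨h1, h2, s0, hs0, h3⟩, h4, h5⟩
  have hex : ∃ n : ℕ, ∀ s, s ≤ W.length → dz W s ≤ 2 ^ (i + n + 1) := by
    obtain ⟨M, hM⟩ := Finset.exists_le ((range (W.length + 1)).image fun s => dz W s)
    obtain ⟨n, hn⟩ := pow_unbounded_of_one_lt (M : ℤ) (show (1 : ℤ) < 2 by norm_num)
    refine ⟨n, fun s hs => ?_⟩
    refine (hM _ (mem_image_of_mem _ (mem_range.2 (by omega)))).trans (hn.le.trans ?_)
    exact pow_le_pow_right₀ (by norm_num) (by omega)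
  refine Set.mem_iUnion.2 ⟨Nat.find hex, ⟨h1, h2, ?_, Nat.find_spec hex, h4⟩, h5⟩
  rcases Nat.eq_zero_or_pos (Nat.find hex) with h | h
  · rw [h]
    exact ⟨s0, hs0, h3⟩
  · have h6 := Nat.find_min hex (show Nat.find hex - 1 < Nat.find hex by omega)
    push Not at h6
    obtain ⟨s, hs, h7⟩ := h6
    refine ⟨s, hs, ?_⟩
    rwa [show i + (Nat.find hex - 1) + 1 = i + Nat.find hex by omega] at h7

lemma far_st {r i : ℕ} (hr : r + 1 ≤ i) {W : List Bool} (h2 : hn (TIW.en W) ≤ 2 ^ r) {s : ℕ} (h : 2 ^ i < dz W s) :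
    2 * hn (vx oo up W s) > 2 ^ i := by
  have h3 := hn_sub (vx oo up W s) (TIW.en W)
  have h4 : (2 : ℤ) * 2 ^ r ≤ 2 ^ i := by
    rw [← pow_succ']
    exact pow_le_pow_right₀ (by norm_num) hr
  unfold dz at h
  linarith

/-- the far vertex is a fast displacement from the start -/
lemma Ls_DE {r i l : ℕ} {x x' : ℝ} (hr : r + 1 ≤ i) (hl : i = l + 3) (hx : x ≤ x') {W : List Bool} (hW : W ∈ Ls r i x) :
    W ∈ WL (i + 1) ∧ W ∈ EN.DE (l + 1) x' := by
  obtain ⟨h1, h2, ⟨s, hs, h3⟩, h4, h5⟩ := hW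
  refine ⟨conf_WL h1 h4, ?_⟩
  have h6 := far_st hr h2 h3
  have h7 : (2 : ℤ) ^ (l + 2) ≤ hn (vx oo up W s) := by
    rw [hl] at h6
    have : (2 : ℤ) ^ (l + 3) = 2 * 2 ^ (l + 2) := by rw [← pow_succ']
    linarith
  obtain ⟨dir, h8⟩ := NPR.Fast.hn_lvl h7
  have h0 : lvl dir (vx oo up W 0) = 0 := by
    rw [show vx oo up W 0 = oo from rfl]
    cases dir <;> rfl
  refine ⟨dir, 0, s, Nat.zero_le _, hs, ?_, ?_⟩
  · have : (s : ℝ) ≤ W.length := by exact_mod_cast hs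
    push_cast
    linarith
  · rw [h0, sub_zero]
    have : (2 : ℤ) ^ (l + 2) = 2 * 2 ^ (l + 1) := by rw [← pow_succ']
    linarith

/-- two good ends: the fast factor is between them -/
lemma Ls_PCQ {r i l b E : ℕ} {η x x' : ℝ} (hr : r + 1 ≤ i) (hl : i = l + 3) (hb : 1 ≤ b) (hE : 3 * (E * 2 ^ b) ≤ 2 ^ (l + 1))
    (hx : x ≤ x') {W : List Bool} (hW : W ∈ Ls r i x) (hT : W ∈ TwoG η E b) :
    W ∈ NPR.PCQ η E (i + 1) b b (QF (l + 1) x') := by
  have hWL := (Ls_DE hr hl hx hW).1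
  obtain ⟨h1, h2, ⟨s, hs, h3⟩, h4, h5⟩ := hW
  obtain ⟨S, hS, R, T, hT, rfl⟩ := hT
  have hS' : if b = 0 then S = [] else ∃ N Z3, S = N ++ Z3 ∧ N ∈ BU ∧ Z3 ∈ BU ∧ hgt N ≤ 2 ^ b ∧ 2 ^ (b + 1) ≤ hgt Z3 ∧
    η * Ub b ≤ (nc N : ℝ) ∧ In (E * 2 ^ b) S := hS
  have hT' : if b = 0 then T = [] else ∃ Z1 M, T = Z1 ++ M ∧ Z1 ∈ BU ∧ M ∈ BU ∧ hgt M ≤ 2 ^ b ∧ 2 ^ (b + 1) ≤ hgt Z1 ∧
    η * Ub b ≤ (nc M : ℝ) ∧ In (E * 2 ^ b) T := hT
  rw [if_neg (by omega)] at hS' hT'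
  obtain ⟨-, -, -, -, -, -, -, -, hIS⟩ := hS'
  obtain ⟨-, -, -, -, -, -, -, -, hIT⟩ := hT'
  have hE' : 3 * ((E * 2 ^ b : ℕ) : ℤ) ≤ 2 ^ (l + 1) := by exact_mod_cast hE
  have hp3 : (2 : ℤ) ^ i = 4 * 2 ^ (l + 1) := by rw [hl, show l + 3 = l + 1 + 2 by ring, pow_add]; ring
  have hp0 : (0 : ℤ) < 2 ^ (l + 1) := by positivity
  have hfar := far_st hr h2 h3
  have hSv : ∀ k, k ≤ S.length → hn (vx oo up (S ++ (R ++ T)) k) ≤ 2 ^ (l + 1) := by
    intro k hk
    rw [vx_append (by omega)]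
    exact (hn_le_Bl (hIS k hk)).trans hE'
  have hs1 : S.length < s := by
    by_contra hcon
    have := hSv s (by omega)
    linarith
  have hs2 : s < (S ++ R).length := by
    by_contra hcon
    obtain ⟨k, rfl⟩ := Nat.exists_eq_add_of_le (not_lt.1 hcon)
    have h6 : k ≤ T.length := by
      simp only [List.length_append] at hs ⊢
      omega
    have h7 : dz (S ++ (R ++ T)) ((S ++ R).length + k) = dz T k := by
      rw [← List.append_assoc]
      exact dz_app (S ++ R) T k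
    have h8 : dz T k ≤ hn (vx oo up T k) + hn (TIW.en T) := by
      unfold dz
      rw [sub_eq_add_neg]
      refine (hn_add _ _).trans ?_
      rw [hn_neg]
    have h9 := (hn_le_Bl (hIT k h6)).trans hE'
    have h10 : hn (TIW.en T) ≤ 2 ^ (l + 1) := (hn_le_Bl (hIT T.length le_rfl)).trans hE'
    rw [h7] at h3
    linarith
  rw [List.length_append] at hs2
  obtain ⟨k, rfl⟩ := Nat.exists_eq_add_of_le hs1.le
  refine ⟨hWL, S, hS, [], R.take k, ⟨?_, ?_⟩, R.drop k, T, hT, ?_⟩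
  · have h6 : (R.take k).length ≤ (S ++ (R ++ T)).length := by
      simp only [List.length_append, List.length_take]
      omega
    have h7 : ((R.take k).length : ℝ) ≤ ((S ++ (R ++ T)).length : ℝ) := by exact_mod_cast h6
    linarith
  · have h6 : (R.take k).length = k := by
      rw [List.length_take]
      omega
    have h7 : vx oo up (S ++ (R ++ T)) (S.length + k) = TIW.en S + mulE (rt S) (vx oo up (R.take k) (R.take k).length) := by
      rw [vx_app, h6]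
      congr 2
      rw [vx_append (by omega)]
      conv_lhs => rw [← List.take_append_drop k R]
      rw [vx_append (by omega)]
    have h8 : hn (vx oo up (S ++ (R ++ T)) (S.length + k)) ≤ hn (TIW.en S) + hn (vx oo up (R.take k) (R.take k).length) := by
      rw [h7]
      refine (hn_add _ _).trans ?_
      rw [hn_mulE (nrm_rt S)]
    have h9 : hn (TIW.en S) ≤ 2 ^ (l + 1) := (hn_le_Bl (hIS S.length le_rfl)).trans hE'
    linarith
  · rw [List.nil_append]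
    conv_lhs => rw [← List.take_append_drop k R]
    simp only [List.append_assoc]

/-! ### the sums -/

lemma sum_v {S : ℕ → Set (List Bool)} {T : Set (List Bool)} {a : ℝ} (ha : 0 ≤ a) {X : ℝ≥0∞} (hT : T ⊆ ⋃ v, S v)
    (h : ∀ v, gf (S v) ≤ ENNReal.ofReal (a * (1 / 2) ^ v) * X) : gf T ≤ ENNReal.ofReal (2 * a) * X := by
  have h1 : ∑' v : ℕ, ENNReal.ofReal (a * (1 / 2) ^ v) = ENNReal.ofReal (2 * a) := by
    rw [← ENNReal.ofReal_tsum_of_nonneg (fun k => by positivity) (summable_geometric_two.mul_left _), tsum_mul_left,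
      tsum_geometric_two, mul_comm]
  calc gf T ≤ ∑' v, gf (S v) := (gf_mono hT).trans (ENNReal.tsum_iUnion_le_tsum wE _)
    _ ≤ ∑' v : ℕ, ENNReal.ofReal (a * (1 / 2) ^ v) * X := ENNReal.tsum_le_tsum h
    _ = _ := by rw [ENNReal.tsum_mul_right, h1]

/-- the small number of the extent i + v -/
noncomputable def fzz (u v : ℕ) : ℝ := (2 : ℝ) ^ (-(1 / 6 : ℝ) * u - (4 / 3 : ℝ) * v)

lemma fzz_pos (u v : ℕ) : 0 < fzz u v := by unfold fzz; positivity

lemma fzz_pow (u v q : ℕ) : fzz u v ^ (6 * q) ≤ ((1 / 2 : ℝ) ^ q) ^ (u + v) := by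
  have e1 : ((1 / 2 : ℝ) ^ q) ^ (u + v) = (2 : ℝ) ^ (-((q : ℝ) * (u + v))) := by
    rw [← pow_mul, one_div, inv_pow, ← Real.rpow_natCast, ← Real.rpow_neg (by norm_num)]
    congr 1
    push_cast
    ring
  have e2 : fzz u v ^ (6 * q) = (2 : ℝ) ^ (-((q : ℝ) * (u + 8 * v))) := by
    unfold fzz
    rw [← Real.rpow_natCast, ← Real.rpow_mul (by norm_num)]
    congr 1
    push_cast
    ring
  rw [e1, e2]
  refine Real.rpow_le_rpow_of_exponent_le (by norm_num) ?_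
  have h1 : (0 : ℝ) ≤ q := Nat.cast_nonneg q
  have h2 : (0 : ℝ) ≤ v := Nat.cast_nonneg v
  have := mul_nonneg h1 h2
  nlinarith

/-- the number of letters against the mean length of the extent -/
lemma x_le {Cm : ℝ} (hm : ∀ k : ℕ, ml k ≤ Cm * PW.mZ (2 ^ k)) {r i u v l : ℕ} (hu : i = r + u) (hl : i + v = l + 3) :
    (2 : ℝ) ^ ((7 / 6 : ℝ) * ((i : ℝ) - r)) * ml r ≤ (16 * Cm * fzz u v) * PW.mZ (2 ^ l) := by
  have h1 := hm l
  have h2 : (2 : ℝ) ^ ((7 / 6 : ℝ) * ((i : ℝ) - r)) * ml r = 16 * fzz u v * ml l := by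
    have hl' : (l : ℝ) = r + u + v - 3 := by
      have h3 : ((i + v : ℕ) : ℝ) = ((l + 3 : ℕ) : ℝ) := by rw [hl]
      rw [hu] at h3
      push_cast at h3
      linarith
    have e16 : (16 : ℝ) = (2 : ℝ) ^ (4 : ℝ) := by
      rw [show (4 : ℝ) = ((4 : ℕ) : ℝ) by norm_num, Real.rpow_natCast]
      norm_num
    unfold ml fzz
    rw [e16, ← Real.rpow_add (by norm_num), ← Real.rpow_add (by norm_num), ← Real.rpow_add (by norm_num), hl', hu]
    congr 1
    push_cast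
    ring
  rw [h2]
  have h3 := fzz_pos u v
  calc 16 * fzz u v * ml l ≤ 16 * fzz u v * (Cm * PW.mZ (2 ^ l)) := mul_le_mul_of_nonneg_left h1 (by positivity)
    _ = _ := by ring

lemma quarter (u v : ℕ) : (1 / 4 : ℝ) ^ (u + v) ≤ (2 : ℝ) ^ (-(1 / 8 : ℝ) * (u : ℝ)) * (1 / 2) ^ v := by
  rw [pow_add]
  have h1 : (1 / 4 : ℝ) ^ u ≤ (2 : ℝ) ^ (-(1 / 8 : ℝ) * (u : ℝ)) := by
    rw [show (1 / 4 : ℝ) = (2 : ℝ) ^ (-(2 : ℝ)) by
      rw [Real.rpow_neg (by norm_num), show (2 : ℝ) ^ (2 : ℝ) = 4 by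
        rw [show (2 : ℝ) = ((2 : ℕ) : ℝ) by norm_num, Real.rpow_natCast]
        norm_num]
      norm_num, ← Real.rpow_natCast, ← Real.rpow_mul (by norm_num)]
    refine Real.rpow_le_rpow_of_exponent_le (by norm_num) ?_
    have : (0 : ℝ) ≤ u := Nat.cast_nonneg u
    linarith
  have h2 : (1 / 4 : ℝ) ^ v ≤ (1 / 2) ^ v := pow_le_pow_left₀ (by norm_num) (by norm_num) _
  exact mul_le_mul h1 h2 (by positivity) (by positivity)

end LF

open LF

/-- **the fast loops** -/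
theorem fastLp : FastLp := by
  intro η E hη
  obtain ⟨Cm, hCm, hm⟩ := ml_le_mZ
  obtain ⟨B1, hB1, hslow⟩ := slowM η E hη
  obtain ⟨C, Lam, m0, hC, hLam, hm0, htip⟩ := de_tip hη
  obtain ⟨c, Lam', hc, hLam', htwo⟩ := de_two E hη
  -- the power for the good end
  obtain ⟨q1, hq1⟩ : ∃ q : ℕ, 4 * Lam < 2 ^ q := pow_unbounded_of_one_lt _ one_lt_two
  obtain ⟨A1, hA1, htip⟩ := htip (6 * q1)
  -- the power for two good ends
  obtain ⟨q2, hq2⟩ : ∃ q : ℕ, 4 * Lam' < ((2 : ℝ) ^ c) ^ q := pow_unbounded_of_one_lt _ (Real.one_lt_rpow one_lt_two hc)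
  obtain ⟨A2, hA2, htwo⟩ := htwo (6 * (q2 + 1))
  obtain ⟨G1, hG1⟩ : ∃ G1 : ℝ, G1 = C + A1 * (16 * Cm) ^ (6 * q1) := ⟨_, rfl⟩
  obtain ⟨G2, hG2⟩ : ∃ G2 : ℝ, G2 = A2 * (16 * Cm) ^ (6 * (q2 + 1)) := ⟨_, rfl⟩
  have hCm0 : 0 < Cm := by linarith
  have hLam0 : 0 < Lam := by linarith
  have hLam0' : 0 < Lam' := by linarith
  have hA10 : 0 < A1 := by linarith
  have hA20 : 0 < A2 := by linarith
  have hG10 : 1 ≤ G1 := by
    rw [hG1]
    have : 0 ≤ A1 * (16 * Cm) ^ (6 * q1) := by positivity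
    linarith
  have hG20 : 1 ≤ G2 := by
    rw [hG2]
    exact one_le_mul_of_one_le_of_one_le hA2 (one_le_pow₀ (by linarith))
  obtain ⟨e1, he1⟩ : ∃ e : ℕ, 16 * Cm < 2 ^ e := pow_unbounded_of_one_lt _ one_lt_two
  obtain ⟨e2, he2⟩ : ∃ e : ℕ, G2 < 2 ^ e := pow_unbounded_of_one_lt _ one_lt_two
  obtain ⟨e0, he0⟩ : ∃ e0 : ℕ, e0 = 6 * e1 + e2 + m0 + 3 * E + 3 := ⟨_, rfl⟩
  obtain ⟨B, hB⟩ : ∃ B : ℝ, B = B1 * 2 ^ e0 + 2 * G1 * Lam + 2 * (Lam' * G2 ^ c) * Lam' := ⟨_, rfl⟩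
  have hG2c : 1 ≤ G2 ^ c := Real.one_le_rpow hG20 hc.le
  have hb1 : 1 ≤ B1 * 2 ^ e0 := one_le_mul_of_one_le_of_one_le hB1 (one_le_pow₀ (by norm_num))
  have hb2 : 0 ≤ 2 * G1 * Lam := by positivity
  have hb3 : 0 ≤ 2 * (Lam' * G2 ^ c) * Lam' := by positivity
  have hB1' : 1 ≤ B := by rw [hB]; linarith
  refine ⟨B, 1, hB1', fun b r i hb hbr hri => ?_⟩
  have hUb : (0 : ℝ) < Ub b := Ub_pos b
  obtain ⟨u, hu⟩ := Nat.exists_eq_add_of_le hri
  have hur : (i : ℝ) - r = u := by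
    rw [hu]
    push_cast
    ring
  obtain ⟨w, hw⟩ : ∃ w : ℝ, w = (2 : ℝ) ^ (-(1 / 8 : ℝ) * ((i : ℝ) - r)) := ⟨_, rfl⟩
  have hw0 : 0 < w := by rw [hw]; positivity
  rw [← hw]
  rcases Nat.lt_or_ge u e0 with hue | hue
  · -- a bounded number of scales
    obtain ⟨s1, s2, -, -⟩ := hslow b r i hbr hri
    have hw1 : 1 ≤ 2 ^ e0 * w := by
      have h1 : (2 : ℝ) ^ e0 * w = (2 : ℝ) ^ ((e0 : ℝ) + -(1 / 8 : ℝ) * u) := by
        rw [hw, hur, Real.rpow_add (by norm_num), Real.rpow_natCast]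
      rw [h1]
      refine Real.one_le_rpow (by norm_num) ?_
      have : (u : ℝ) ≤ e0 := by exact_mod_cast hue.le
      have : (0 : ℝ) ≤ u := Nat.cast_nonneg u
      linarith
    have hBB : B1 ^ (r - b + 1) * Ub b ≤ B ^ (r - b + 1) * w * Ub b := by
      have h1 : B1 ^ (r - b + 1) * 2 ^ e0 ≤ B ^ (r - b + 1) := by
        have h2 : (2 : ℝ) ^ e0 ≤ ((2 : ℝ) ^ e0) ^ (r - b + 1) := le_self_pow₀ (one_le_pow₀ (by norm_num)) (by omega)
        calc B1 ^ (r - b + 1) * 2 ^ e0 ≤ B1 ^ (r - b + 1) * ((2 : ℝ) ^ e0) ^ (r - b + 1) := by gcongr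
          _ = (B1 * 2 ^ e0) ^ (r - b + 1) := by rw [mul_pow]
          _ ≤ B ^ (r - b + 1) := pow_le_pow_left₀ (by positivity) (by rw [hB]; linarith) _
      have h3 : B1 ^ (r - b + 1) ≤ B ^ (r - b + 1) * w := by
        calc B1 ^ (r - b + 1) ≤ B1 ^ (r - b + 1) * (2 ^ e0 * w) := le_mul_of_one_le_right (by positivity) hw1
          _ = (B1 ^ (r - b + 1) * 2 ^ e0) * w := by ring
          _ ≤ _ := mul_le_mul_of_nonneg_right h1 hw0.le
      exact mul_le_mul_of_nonneg_right h3 hUb.le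
    refine ⟨?_, ?_⟩
    · refine (gf_mono (Q := {W | W ∈ SA ∧ TIW.hn (TIW.en W) ≤ 2 ^ r ∧ W ∈ GT b η}) ?_).trans
        (s1.trans (mul_le_mul' (ENNReal.ofReal_le_ofReal hBB) le_rfl))
      rintro W ⟨⟨h1, h2, -⟩, -, h4⟩
      exact ⟨h1, h2, h4⟩
    · refine (gf_mono (Q := {W | W ∈ SA ∧ TIW.hn (TIW.en W) ≤ 2 ^ r ∧ W ∈ TwoG η E b}) ?_).trans
        (s2.trans (ENNReal.ofReal_le_ofReal hBB))
      rintro W ⟨⟨h1, h2, -⟩, -, h4⟩
      exact ⟨h1, h2, h4⟩
  · -- many scales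
    obtain ⟨x, hx⟩ : ∃ x : ℝ, x = (2 : ℝ) ^ ((7 / 6 : ℝ) * ((i : ℝ) - r)) * ml r := ⟨_, rfl⟩
    rw [← hx]
    have hwu : w = (2 : ℝ) ^ (-(1 / 8 : ℝ) * (u : ℝ)) := by rw [hw, hur]
    -- the small number
    have hy1 : ∀ v, 16 * Cm * fzz u v ≤ 1 := by
      intro v
      have h1 : fzz u v ≤ (1 / 2) ^ e1 := by
        have h2 : fzz u v ≤ (2 : ℝ) ^ (-(e1 : ℝ)) := by
          unfold fzz
          refine Real.rpow_le_rpow_of_exponent_le (by norm_num) ?_
          have h3 : ((6 * e1 : ℕ) : ℝ) ≤ u := by exact_mod_cast (by omega : 6 * e1 ≤ u)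
          push_cast at h3
          have : (0 : ℝ) ≤ v := Nat.cast_nonneg v
          linarith
        refine h2.trans (le_of_eq ?_)
        rw [Real.rpow_neg (by norm_num), Real.rpow_natCast, one_div, inv_pow]
      calc 16 * Cm * fzz u v ≤ 2 ^ e1 * (1 / 2) ^ e1 :=
            mul_le_mul he1.le h1 (fzz_pos u v).le (by positivity)
        _ = 1 := by rw [← mul_pow]; norm_num
    refine ⟨?_, ?_⟩
    · have hv : ∀ v, gf (Ls r (i + v) x ∩ GT b η) ≤
          ENNReal.ofReal ((G1 * Lam ^ (r - b + 1) * w * Ub b) * (1 / 2) ^ v) * Xb b := by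
        intro v
        obtain ⟨l, hl⟩ : ∃ l, i + v = l + 3 := ⟨i + v - 3, by omega⟩
        have hy0 : 0 < 16 * Cm * fzz u v := mul_pos (by positivity) (fzz_pos u v)
        have hxl := x_le hm (v := v) hu hl
        rw [← hx] at hxl
        have h1 := htip b (i + v + 1 - b) (i + v + 1) l (16 * Cm * fzz u v) (by omega) (by omega) (by omega) hy0 (hy1 v)
        refine (gf_mono ?_).trans (h1.trans (mul_le_mul' (ENNReal.ofReal_le_ofReal ?_) le_rfl))
        · rintro W ⟨hW, hG⟩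
          exact ⟨Ls_DE (by omega) hl hxl hW, hG⟩
        · have e1' : i + v + 1 - b = (u + v) + (r - b + 1) := by omega
          have k1 : (16 * Cm * fzz u v) ^ (6 * q1) * Lam ^ (i + v + 1 - b) ≤
              (16 * Cm) ^ (6 * q1) * Lam ^ (r - b + 1) * (1 / 4) ^ (u + v) := by
            rw [mul_pow, e1', pow_add Lam]
            have h2 := fzz_pow u v q1
            have h3 : ((1 / 2 : ℝ) ^ q1) ^ (u + v) * Lam ^ (u + v) ≤ (1 / 4) ^ (u + v) := by
              rw [← mul_pow]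
              refine pow_le_pow_left₀ (by positivity) ?_ _
              rw [one_div, inv_pow, inv_mul_le_iff₀ (by positivity)]
              linarith
            calc (16 * Cm) ^ (6 * q1) * fzz u v ^ (6 * q1) * (Lam ^ (u + v) * Lam ^ (r - b + 1))
                ≤ (16 * Cm) ^ (6 * q1) * ((1 / 2 : ℝ) ^ q1) ^ (u + v) * (Lam ^ (u + v) * Lam ^ (r - b + 1)) := by gcongr
              _ = (16 * Cm) ^ (6 * q1) * Lam ^ (r - b + 1) * (((1 / 2 : ℝ) ^ q1) ^ (u + v) * Lam ^ (u + v)) := by ring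
              _ ≤ _ := mul_le_mul_of_nonneg_left h3 (by positivity)
          have k2 : (1 / 4 : ℝ) ^ (i + v + 1 - b) ≤ (1 / 4) ^ (u + v) :=
            pow_le_pow_of_le_one (by norm_num) (by norm_num) (by omega)
          have k3 := quarter u v
          rw [← hwu] at k3
          have k4 : 1 ≤ Lam ^ (r - b + 1) := one_le_pow₀ hLam
          have k5 : (0 : ℝ) ≤ (1 / 4) ^ (u + v) := by positivity
          calc (C * (1 / 4) ^ (i + v + 1 - b) + A1 * (16 * Cm * fzz u v) ^ (6 * q1) * Lam ^ (i + v + 1 - b)) * Ub b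
              = (C * (1 / 4) ^ (i + v + 1 - b) + A1 * ((16 * Cm * fzz u v) ^ (6 * q1) * Lam ^ (i + v + 1 - b))) * Ub b := by
                ring
            _ ≤ (C * (1 / 4) ^ (u + v) + A1 * ((16 * Cm) ^ (6 * q1) * Lam ^ (r - b + 1) * (1 / 4) ^ (u + v))) * Ub b := by
                gcongr
            _ ≤ (C * Lam ^ (r - b + 1) * (1 / 4) ^ (u + v) +
                  A1 * ((16 * Cm) ^ (6 * q1) * Lam ^ (r - b + 1) * (1 / 4) ^ (u + v))) * Ub b := by
                have : C * (1 / 4 : ℝ) ^ (u + v) ≤ C * Lam ^ (r - b + 1) * (1 / 4) ^ (u + v) := by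
                  have hC0 : 0 ≤ C := by linarith
                  have : C ≤ C * Lam ^ (r - b + 1) := le_mul_of_one_le_right hC0 k4
                  exact mul_le_mul_of_nonneg_right this k5
                gcongr
            _ = G1 * Lam ^ (r - b + 1) * (1 / 4) ^ (u + v) * Ub b := by rw [hG1]; ring
            _ ≤ G1 * Lam ^ (r - b + 1) * (w * (1 / 2) ^ v) * Ub b := by gcongr
            _ = _ := by ring
      refine (sum_v (by positivity) lp_cov hv).trans (mul_le_mul' (ENNReal.ofReal_le_ofReal ?_) le_rfl)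
      have h1 : 2 * G1 * Lam ^ (r - b + 1) ≤ B ^ (r - b + 1) := by
        have h2 : 2 * G1 ≤ (2 * G1) ^ (r - b + 1) := le_self_pow₀ (by linarith) (by omega)
        calc 2 * G1 * Lam ^ (r - b + 1) ≤ (2 * G1) ^ (r - b + 1) * Lam ^ (r - b + 1) := by gcongr
          _ = (2 * G1 * Lam) ^ (r - b + 1) := by rw [← mul_pow]
          _ ≤ B ^ (r - b + 1) := pow_le_pow_left₀ (by positivity) (by rw [hB]; linarith) _
      calc 2 * (G1 * Lam ^ (r - b + 1) * w * Ub b) = (2 * G1 * Lam ^ (r - b + 1)) * w * Ub b := by ring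
        _ ≤ B ^ (r - b + 1) * w * Ub b := by gcongr
    · have hv : ∀ v, gf (Ls r (i + v) x ∩ TwoG η E b) ≤
          ENNReal.ofReal ((Lam' * G2 ^ c * Lam' ^ (r - b + 1) * w * Ub b) * (1 / 2) ^ v) * 1 := by
        intro v
        obtain ⟨l, hl⟩ : ∃ l, i + v = l + 3 := ⟨i + v - 3, by omega⟩
        have hy0 : 0 < 16 * Cm * fzz u v := mul_pos (by positivity) (fzz_pos u v)
        have hxl := x_le hm (v := v) hu hl
        rw [← hx] at hxl
        have hyQ : A2 * (16 * Cm * fzz u v) ^ (6 * (q2 + 1)) ≤ G2 * ((1 / 2 : ℝ) ^ (q2 + 1)) ^ (u + v) := by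
          rw [mul_pow, hG2]
          have h2 := fzz_pow u v (q2 + 1)
          calc A2 * ((16 * Cm) ^ (6 * (q2 + 1)) * fzz u v ^ (6 * (q2 + 1)))
              ≤ A2 * ((16 * Cm) ^ (6 * (q2 + 1)) * ((1 / 2 : ℝ) ^ (q2 + 1)) ^ (u + v)) := by gcongr
            _ = _ := by ring
        have hyQ1 : A2 * (16 * Cm * fzz u v) ^ (6 * (q2 + 1)) ≤ 1 := by
          refine hyQ.trans ?_
          have h2 : ((1 / 2 : ℝ) ^ (q2 + 1)) ^ (u + v) ≤ (1 / 2) ^ e2 := by
            rw [← pow_mul]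
            refine pow_le_pow_of_le_one (by norm_num) (by norm_num) ?_
            calc e2 ≤ 1 * (u + v) := by omega
              _ ≤ (q2 + 1) * (u + v) := Nat.mul_le_mul_right _ (by omega)
          calc G2 * ((1 / 2 : ℝ) ^ (q2 + 1)) ^ (u + v) ≤ 2 ^ e2 * (1 / 2) ^ e2 :=
                mul_le_mul he2.le h2 (by positivity) (by positivity)
            _ = 1 := by rw [← mul_pow]; norm_num
        have hEl : 3 * (E * 2 ^ b) ≤ 2 ^ (l + 1) := by
          have h2 : 3 * E ≤ 2 ^ (3 * E) := Nat.lt_two_pow_self.le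
          calc 3 * (E * 2 ^ b) = (3 * E) * 2 ^ b := by ring
            _ ≤ 2 ^ (3 * E) * 2 ^ b := Nat.mul_le_mul_right _ h2
            _ = 2 ^ (3 * E + b) := by rw [pow_add]
            _ ≤ 2 ^ (l + 1) := Nat.pow_le_pow_right (by norm_num) (by omega)
        have h1 := htwo b (i + v + 1 - b) (i + v + 1) l (16 * Cm * fzz u v) (by omega) (by omega) hb hy0 hyQ1 (hy1 v)
        rw [mul_one]
        refine (gf_mono ?_).trans (h1.trans (ENNReal.ofReal_le_ofReal ?_))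
        · rintro W ⟨hW, hG⟩
          exact Ls_PCQ (by omega) hl hb hEl hxl hW hG
        · have e1' : i + v + 1 - b = (u + v) + (r - b + 1) := by omega
          have k1 : (A2 * (16 * Cm * fzz u v) ^ (6 * (q2 + 1))) ^ c * Lam' ^ (i + v + 1 - b) ≤
              G2 ^ c * Lam' ^ (r - b + 1) * (1 / 4) ^ (u + v) := by
            rw [e1', pow_add Lam']
            have h2 : (A2 * (16 * Cm * fzz u v) ^ (6 * (q2 + 1))) ^ c ≤ G2 ^ c * (((2 : ℝ) ^ c) ^ q2)⁻¹ ^ (u + v) := by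
              refine (Real.rpow_le_rpow (by positivity) hyQ hc.le).trans ?_
              rw [Real.mul_rpow (by linarith) (by positivity)]
              refine mul_le_mul_of_nonneg_left ?_ (by positivity)
              have h3 : (((1 / 2 : ℝ) ^ (q2 + 1)) ^ (u + v)) ^ c = ((((2 : ℝ) ^ c) ^ (q2 + 1))⁻¹) ^ (u + v) := by
                rw [← Real.rpow_natCast (((1 / 2 : ℝ) ^ (q2 + 1))), ← Real.rpow_mul (by positivity), mul_comm,
                  Real.rpow_mul (by positivity), Real.rpow_natCast]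
                congr 1
                rw [← Real.rpow_natCast (1 / 2 : ℝ), ← Real.rpow_mul (by norm_num), one_div, Real.inv_rpow (by norm_num),
                  ← Real.rpow_natCast ((2 : ℝ) ^ c), ← Real.rpow_mul (by norm_num), mul_comm]
              rw [h3]
              refine pow_le_pow_left₀ (by positivity) ?_ _
              refine inv_anti₀ (by positivity) (pow_le_pow_right₀ ?_ (by omega))
              exact (Real.one_lt_rpow one_lt_two hc).le
            have h3 : (((2 : ℝ) ^ c) ^ q2)⁻¹ ^ (u + v) * Lam' ^ (u + v) ≤ (1 / 4) ^ (u + v) := by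
              rw [← mul_pow]
              refine pow_le_pow_left₀ (by positivity) ?_ _
              rw [inv_mul_le_iff₀ (by positivity)]
              linarith
            calc (A2 * (16 * Cm * fzz u v) ^ (6 * (q2 + 1))) ^ c * (Lam' ^ (u + v) * Lam' ^ (r - b + 1))
                ≤ (G2 ^ c * (((2 : ℝ) ^ c) ^ q2)⁻¹ ^ (u + v)) * (Lam' ^ (u + v) * Lam' ^ (r - b + 1)) := by gcongr
              _ = G2 ^ c * Lam' ^ (r - b + 1) * ((((2 : ℝ) ^ c) ^ q2)⁻¹ ^ (u + v) * Lam' ^ (u + v)) := by ring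
              _ ≤ _ := mul_le_mul_of_nonneg_left h3 (by positivity)
          have k3 := quarter u v
          rw [← hwu] at k3
          calc Lam' * (A2 * (16 * Cm * fzz u v) ^ (6 * (q2 + 1))) ^ c * Lam' ^ (i + v + 1 - b) * Ub b
              = Lam' * ((A2 * (16 * Cm * fzz u v) ^ (6 * (q2 + 1))) ^ c * Lam' ^ (i + v + 1 - b)) * Ub b := by ring
            _ ≤ Lam' * (G2 ^ c * Lam' ^ (r - b + 1) * (1 / 4) ^ (u + v)) * Ub b := by gcongr
            _ ≤ Lam' * (G2 ^ c * Lam' ^ (r - b + 1) * (w * (1 / 2) ^ v)) * Ub b := by gcongr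
            _ = _ := by ring
      have h0 := sum_v (X := 1) (by positivity) lp_cov hv
      rw [mul_one] at h0
      refine h0.trans (ENNReal.ofReal_le_ofReal ?_)
      have h1 : 2 * (Lam' * G2 ^ c) * Lam' ^ (r - b + 1) ≤ B ^ (r - b + 1) := by
        have h3 : 1 ≤ 2 * (Lam' * G2 ^ c) := by
          have := one_le_mul_of_one_le_of_one_le hLam' hG2c
          linarith
        have h2 : 2 * (Lam' * G2 ^ c) ≤ (2 * (Lam' * G2 ^ c)) ^ (r - b + 1) := le_self_pow₀ h3 (by omega)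
        calc 2 * (Lam' * G2 ^ c) * Lam' ^ (r - b + 1)
            ≤ (2 * (Lam' * G2 ^ c)) ^ (r - b + 1) * Lam' ^ (r - b + 1) := by gcongr
          _ = (2 * (Lam' * G2 ^ c) * Lam') ^ (r - b + 1) := by rw [← mul_pow]
          _ ≤ B ^ (r - b + 1) := pow_le_pow_left₀ (by positivity) (by rw [hB]; linarith) _
      calc 2 * (Lam' * G2 ^ c * Lam' ^ (r - b + 1) * w * Ub b) = (2 * (Lam' * G2 ^ c) * Lam' ^ (r - b + 1)) * w * Ub b := by
            ring
        _ ≤ B ^ (r - b + 1) * w * Ub b := by gcongr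

end ART

end HexObs
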