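import Pool.Agent.ART.LoopM1
import Pool.Agent.TIP.RevM
import Pool.Agent.ARM.Rv

/-!
# ART, row E1 (helper44): `loopM_of : FastLp → LoopM`

* `rev_tr` : the class `rev W ∈ GT b η` against `GT b η` (either `rev W` is a bridge or the first letter is removed);
* `lp_rv`, `lp_rev` : the reversed loops;
* **`loopM_of`**.
-/

set_option autoImplicit false

namespace HexObs

namespace ART

open Finset TS SDN SIM NTA TIP ARM

open scoped ENNReal

/-- **the reversal**: words that start with a good tip against words with a good tip -/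
theorem rev_tr {b : ℕ} {η : ℝ} {P Q : Set (List Bool)} (h0 : ∀ Y ∈ P, rev Y ∈ BU → rev Y ∈ Q)
    (h1 : ∀ Y ∈ P, (rev Y).drop 1 ∈ Q) : gf {Y | Y ∈ P ∧ rev Y ∈ GT b η} ≤ 4 * gf {L | L ∈ Q ∧ L ∈ GT b η} := by
  obtain ⟨T, hT⟩ : ∃ T : Set (List Bool), T = {L | L ∈ Q ∧ L ∈ GT b η} := ⟨_, rfl⟩
  obtain ⟨S, hS⟩ : ∃ S : Set (List Bool), S = {Y | Y ∈ P ∧ rev Y ∈ GT b η ∧ rev Y ∉ BU} := ⟨_, rfl⟩
  have hcov : {Y | Y ∈ P ∧ rev Y ∈ GT b η} ⊆ {Y | rev Y ∈ T} ∪ S := by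
    rintro Y ⟨a1, a2⟩
    by_cases hB : rev Y ∈ BU
    · left
      show rev Y ∈ T
      rw [hT]
      exact ⟨h0 Y a1 hB, a2⟩
    · right
      rw [hS]
      exact ⟨a1, a2, hB⟩
  have k1 : gf {Y | rev Y ∈ T} = gf T := TD.gf_rev_eq T
  have k2 : gf S ≤ 1 * (gf T * gf {t : List Bool | t.length ≤ 1}) := by
    refine gf_le_pair 1 (fun Y => (rev Y).drop 1) (fun Y => (rev Y).take 1) ?_ ?_ ?_ ?_
    · intro Y hY
      rw [hS] at hY
      obtain ⟨a1, a2, a5⟩ := hY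
      rw [hT]
      refine ⟨h1 Y a1, ?_⟩
      have a6 : η * Ub b ≤ ((cs b (rev Y)).card : ℝ) := a2
      have a7 : ((cs b (rev Y)).card : ℝ) ≤ ((cs b ((rev Y).drop 1)).card : ℝ) := by exact_mod_cast RevM.cs_drop a5
      exact a6.trans a7
    · intro Y _
      show ((rev Y).take 1).length ≤ 1
      rw [List.length_take]
      omega
    · intro s _ t _ h2 h3
      have h4 : rev s = rev t := by
        rw [← List.take_append_drop 1 (rev s), ← List.take_append_drop 1 (rev t)]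
        exact congrArg₂ (· ++ ·) h3 h2
      rw [← rev_rev s, h4, rev_rev]
    · intro Y _
      rw [one_mul, mul_comm, ← wE_append, List.take_append_drop, wE_rev]
  rw [← hT]
  calc gf {Y | Y ∈ P ∧ rev Y ∈ GT b η} ≤ gf {Y | rev Y ∈ T} + gf S :=
        (gf_mono hcov).trans (gf_union_le _ _)
    _ ≤ gf T + 1 * (gf T * 3) := by
        rw [k1]
        exact add_le_add_right (k2.trans (mul_le_mul_right (mul_le_mul_right RevM.gf_short _) _)) _
    _ = 4 * gf T := by ring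

private lemma hn_dir {d : Pt} (hd : d ∈ dirs) : TIW.hn d ≤ 2 := by
  revert d
  decide

/-- the end of the reversed word -/
lemma hn_en_rev (Y : List Bool) : TIW.hn (TIW.en (rev Y)) ≤ TIW.hn (TIW.en Y) + 4 := by
  obtain ⟨c, hc, hf⟩ := RevM.rev_frame Y
  have h1 := hf Y.length (by omega)
  rw [show Y.length + 1 - Y.length = 1 by omega] at h1
  have h2 : mulE c (TIW.en (rev Y)) = vx oo up Y 1 - vx oo up Y (Y.length + 1) := by
    have e : TIW.en (rev Y) = vx oo up (rev Y) Y.length := by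
      unfold TIW.en
      rw [rev_length]
    rw [e, h1]
    abel
  have e0 : vx oo up Y (Y.length + 1) = vx oo up Y Y.length + dx up Y Y.length := vx_succ oo up Y Y.length
  rw [← hn_mulE' hc, h2, e0]
  have h3 := TIW.hn_sub (vx oo up Y 1) (vx oo up Y Y.length + dx up Y Y.length)
  have h4 := TIW.hn_add (vx oo up Y Y.length) (dx up Y Y.length)
  have h5 := hn_dir (dx_mem up_dirs Y Y.length)
  have h6 := hn_vx_one Y
  have h7 : TIW.hn (TIW.en Y) = TIW.hn (vx oo up Y Y.length) := rfl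
  rw [h7]
  linarith

/-- the distances from the start, seen from the reversed word -/
lemma dz_rev (Y : List Bool) {s : ℕ} (hs : 1 ≤ s) (hs' : s ≤ Y.length) :
    dz (rev Y) (Y.length + 1 - s) = TIW.hn (vx oo up Y s - vx oo up Y 1) := by
  obtain ⟨c, hc, hf⟩ := RevM.rev_frame Y
  have h1 := hf Y.length (by omega)
  have h2 := hf (Y.length + 1 - s) (by omega)
  rw [show Y.length + 1 - Y.length = 1 by omega] at h1
  rw [show Y.length + 1 - (Y.length + 1 - s) = s by omega] at h2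
  have e : TIW.en (rev Y) = vx oo up (rev Y) Y.length := by
    unfold TIW.en
    rw [rev_length]
  unfold dz
  rw [e, h1, h2, add_sub_add_left_eq_sub, ← mulE_sub, hn_mulE' hc]

lemma dz_rv' (Y : List Bool) {s : ℕ} (hs : 1 ≤ s) (hs' : s ≤ Y.length) :
    dz (rv Y) (Y.length - s) = TIW.hn (vx oo up Y s - vx oo up Y 1) := by
  obtain ⟨c, hc, hf⟩ := rv_vx Y
  have h1 := hf (Y.length - 1) (by omega)
  have h2 := hf (Y.length - s) (by omega)
  rw [show Y.length - (Y.length - 1) = 1 by omega] at h1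
  rw [show Y.length - (Y.length - s) = s by omega] at h2
  have e : TIW.en (rv Y) = vx oo up (rv Y) (Y.length - 1) := by
    unfold TIW.en
    rw [rv_length]
  unfold dz
  rw [e, h1, h2, add_sub_add_left_eq_sub, ← mulE_sub, hn_mulE' hc]

/-- the far vertex -/
lemma lp_far {r i : ℕ} (hr : 1 ≤ r) (hri : r + 2 ≤ i) {Y : List Bool} (hY : Y ∈ Lp r i) : ∃ s, 1 ≤ s ∧ s ≤ Y.length ∧
    2 ^ (i - 1) < TIW.hn (vx oo up Y s - vx oo up Y 1) := by
  obtain ⟨h1, h2, s, h3, h4⟩ := hY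
  have e1 : (2 : ℤ) ^ i = 4 * 2 ^ (i - 2) := by
    rw [show i = 2 + (i - 2) by omega, pow_add]
    norm_num
  have e2 : (2 : ℤ) ^ (i - 1) = 2 * 2 ^ (i - 2) := by
    rw [show i - 1 = 1 + (i - 2) by omega, pow_add]
    norm_num
  have e3 : (2 : ℤ) ^ r ≤ 2 ^ (i - 2) := pow_le_pow_right₀ (by norm_num) (by omega)
  have e4 : (2 : ℤ) ≤ 2 ^ (i - 2) := by
    calc (2 : ℤ) = 2 ^ 1 := by norm_num
      _ ≤ 2 ^ (i - 2) := pow_le_pow_right₀ (by norm_num) (by omega)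
  have hs : 1 ≤ s := by
    by_contra hcon
    have h0 : s = 0 := by omega
    rw [h0] at h4
    have h5 : dz Y 0 = TIW.hn (TIW.en Y) := by
      unfold dz
      have h6 : vx oo up Y 0 = 0 := rfl
      rw [h6, zero_sub, TIW.hn_neg]
    rw [h5] at h4
    linarith
  refine ⟨s, hs, h3, ?_⟩
  have h5 : dz Y s ≤ TIW.hn (vx oo up Y s - vx oo up Y 1) + TIW.hn (vx oo up Y 1 - TIW.en Y) := TIW.hn_tri _ _ _
  have h6 : TIW.hn (vx oo up Y 1 - TIW.en Y) ≤ TIW.hn (vx oo up Y 1) + TIW.hn (TIW.en Y) := TIW.hn_sub _ _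
  have h7 := hn_vx_one Y
  linarith

lemma pow_up2 {r : ℕ} (hr : 1 ≤ r) : (2 : ℤ) ^ r + 4 ≤ 2 ^ (r + 2) := by
  have h1 : (2 : ℤ) ^ (r + 2) = 4 * 2 ^ r := by ring
  have h2 : (2 : ℤ) ≤ 2 ^ r := by
    calc (2 : ℤ) = 2 ^ 1 := by norm_num
      _ ≤ 2 ^ r := pow_le_pow_right₀ (by norm_num) hr
  rw [h1]
  linarith

/-- words with a close end -/
def Cl (r : ℕ) : Set (List Bool) := {W | W ∈ SA ∧ TIW.hn (TIW.en W) ≤ 2 ^ r}

lemma cl_rev {r : ℕ} (hr : 1 ≤ r) {Y : List Bool} (hY : Y ∈ Cl r) (hB : rev Y ∈ BU) : rev Y ∈ Cl (r + 2) := by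
  refine ⟨RevM.BU_SA hB, (hn_en_rev Y).trans ?_⟩
  have h1 := pow_up2 hr
  have h2 := hY.2
  linarith

lemma cl_rv {r : ℕ} (hr : 1 ≤ r) {Y : List Bool} (hY : Y ∈ Cl r) : rv Y ∈ Cl (r + 2) := by
  refine ⟨rv_SA hY.1, ?_⟩
  have h1 := pow_up2 hr
  rcases Nat.eq_zero_or_pos Y.length with h | h
  · have h3 : Y = [] := List.length_eq_zero_iff.1 h
    subst h3
    have h4 : TIW.hn (TIW.en (rv [])) = 0 := by decide
    rw [h4]
    positivity
  · have h2 := hn_en_rv h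
    have h3 := hY.2
    linarith

lemma lp_rev {r i : ℕ} (hr : 1 ≤ r) (hri : r + 2 ≤ i) {Y : List Bool} (hY : Y ∈ Lp r i) (hB : rev Y ∈ BU) :
    rev Y ∈ Lp (r + 2) (i - 1) := by
  obtain ⟨h1, h2⟩ := cl_rev hr ⟨hY.1, hY.2.1⟩ hB
  obtain ⟨s, h3, h4, h5⟩ := lp_far hr hri hY
  refine ⟨h1, h2, Y.length + 1 - s, ?_, ?_⟩
  · rw [rev_length]
    omega
  · rw [dz_rev Y h3 h4]
    exact h5

lemma lp_rv {r i : ℕ} (hr : 1 ≤ r) (hri : r + 2 ≤ i) {Y : List Bool} (hY : Y ∈ Lp r i) : rv Y ∈ Lp (r + 2) (i - 1) := by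
  obtain ⟨h1, h2⟩ := cl_rv hr ⟨hY.1, hY.2.1⟩
  obtain ⟨s, h3, h4, h5⟩ := lp_far hr hri hY
  refine ⟨h1, h2, Y.length - s, ?_, ?_⟩
  · rw [rv_length]
    omega
  · rw [dz_rv' Y h3 h4]
    exact h5

/-- **row E1** -/
theorem loopM_of (hF : FastLp) : LoopM := by
  intro η E hη
  obtain ⟨B1, hB1, hS⟩ := slowM η E hη
  obtain ⟨B2, b0, hB2, hF⟩ := hF η E hη
  obtain ⟨B0, hB0⟩ : ∃ B0 : ℝ, B0 = B1 + B2 := ⟨_, rfl⟩
  have hB00 : 1 ≤ B0 := by linarith
  have hcov : ∀ (r i : ℕ) (TT : Set (List Bool)), {W | W ∈ Lp r i ∧ W ∈ TT} ⊆ {W | W ∈ Sl r i ∧ W ∈ TT} ∪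
      {W | W ∈ Lp r i ∧ (W.length : ℝ) < (2 : ℝ) ^ ((7 / 6 : ℝ) * ((i : ℝ) - r)) * ml r ∧ W ∈ TT} := by
    rintro r i TT W ⟨h1, h2⟩
    by_cases h : (W.length : ℝ) < (2 : ℝ) ^ ((7 / 6 : ℝ) * ((i : ℝ) - r)) * ml r
    · exact Or.inr ⟨h1, h, h2⟩
    · exact Or.inl ⟨⟨h1.1, h1.2.1, not_lt.1 h⟩, h2⟩
  have hadd : ∀ k : ℕ, ∀ {x : ℝ}, 0 ≤ x → B1 ^ (k + 1) * x + B2 ^ (k + 1) * x ≤ B0 ^ (k + 1) * x := by
    intro k x hx
    rw [← add_mul]
    refine mul_le_mul_of_nonneg_right ?_ hx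
    rw [hB0]
    exact pow_add_pow_le (by linarith) (by linarith) (by omega)
  have hGT : ∀ b r i : ℕ, b0 ≤ b → b ≤ r → r ≤ i → gf {W | W ∈ Lp r i ∧ W ∈ GT b η} ≤
      ENNReal.ofReal (B0 ^ (r - b + 1) * (2 : ℝ) ^ (-(1 / 8 : ℝ) * ((i : ℝ) - r)) * Ub b) * Xb b := by
    intro b r i h1 h2 h3
    have hU := TS.Ub_pos b
    refine (gf_mono (hcov r i _)).trans ((gf_union_le _ _).trans ((add_le_add (hS b r i h2 h3).2.2.1
      (hF b r i h1 h2 h3).1).trans ?_))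
    rw [← add_mul, ← ENNReal.ofReal_add (by positivity) (by positivity)]
    refine mul_le_mul' (ENNReal.ofReal_le_ofReal ?_) le_rfl
    have h4 := hadd (r - b) (x := (2 : ℝ) ^ (-(1 / 8 : ℝ) * ((i : ℝ) - r)) * Ub b) (by positivity)
    linarith
  have hTG : ∀ b r i : ℕ, b0 ≤ b → b ≤ r → r ≤ i → gf {W | W ∈ Lp r i ∧ W ∈ TwoG η E b} ≤
      ENNReal.ofReal (B0 ^ (r - b + 1) * (2 : ℝ) ^ (-(1 / 8 : ℝ) * ((i : ℝ) - r)) * Ub b) := by
    intro b r i h1 h2 h3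
    have hU := TS.Ub_pos b
    refine (gf_mono (hcov r i _)).trans ((gf_union_le _ _).trans ((add_le_add (hS b r i h2 h3).2.2.2
      (hF b r i h1 h2 h3).2).trans ?_))
    rw [← ENNReal.ofReal_add (by positivity) (by positivity)]
    refine ENNReal.ofReal_le_ofReal ?_
    have h4 := hadd (r - b) (x := (2 : ℝ) ^ (-(1 / 8 : ℝ) * ((i : ℝ) - r)) * Ub b) (by positivity)
    linarith
  -- the constant
  refine ⟨16 * B0 ^ 3, b0 + 1, ?_, fun b r i hb hbr hri => ?_⟩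
  · have : (1 : ℝ) ≤ B0 ^ 3 := one_le_pow₀ hB00
    linarith
  have hU := TS.Ub_pos b
  have hB0p : 0 < B0 := by linarith
  have hBle : B0 ^ (r - b + 1) ≤ (16 * B0 ^ 3) ^ (r - b + 1) := by
    refine pow_le_pow_left₀ (by positivity) ?_ _
    have : B0 ≤ B0 ^ 3 := by
      calc B0 = B0 ^ 1 := (pow_one _).symm
        _ ≤ B0 ^ 3 := pow_le_pow_right₀ hB00 (by norm_num)
    have h2 : (0 : ℝ) ≤ B0 ^ 3 := by positivity
    linarith
  have hBle2 : 8 * B0 ^ (r + 2 - b + 1) ≤ (16 * B0 ^ 3) ^ (r - b + 1) := by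
    have e1 : r + 2 - b + 1 = (r - b + 1) + 2 := by omega
    rw [e1, pow_add, mul_pow, ← pow_mul]
    have h1 : B0 ^ (r - b + 1) * B0 ^ 2 ≤ B0 ^ (3 * (r - b + 1)) := by
      rw [← pow_add]
      exact pow_le_pow_right₀ hB00 (by omega)
    have h2 : (8 : ℝ) ≤ 16 ^ (r - b + 1) := by
      calc (8 : ℝ) ≤ 16 ^ 1 := by norm_num
        _ ≤ 16 ^ (r - b + 1) := pow_le_pow_right₀ (by norm_num) (by omega)
    exact mul_le_mul h2 h1 (by positivity) (by positivity)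
  refine ⟨(hGT b r i (by omega) hbr hri).trans (mul_le_mul' (ENNReal.ofReal_le_ofReal ?_) le_rfl), ?_,
    (hTG b r i (by omega) hbr hri).trans (ENNReal.ofReal_le_ofReal ?_)⟩
  · gcongr
  · -- the reversed class
    obtain ⟨w, hw⟩ : ∃ w : ℝ, w = (2 : ℝ) ^ (-(1 / 8 : ℝ) * ((i : ℝ) - r)) := ⟨_, rfl⟩
    have hw0 : 0 < w := by rw [hw]; positivity
    rw [← hw]
    have hfin : ∀ {x : ℝ}, 0 ≤ x → x ≤ 2 * w → 4 * (ENNReal.ofReal (B0 ^ (r + 2 - b + 1) * x * Ub b) * Xb b) ≤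
        ENNReal.ofReal ((16 * B0 ^ 3) ^ (r - b + 1) * w * Ub b) * Xb b := by
      intro x hx hx2
      rw [← mul_assoc, show (4 : ℝ≥0∞) = ENNReal.ofReal 4 by simp, ← ENNReal.ofReal_mul (by norm_num)]
      refine mul_le_mul' (ENNReal.ofReal_le_ofReal ?_) le_rfl
      calc 4 * (B0 ^ (r + 2 - b + 1) * x * Ub b) ≤ 4 * (B0 ^ (r + 2 - b + 1) * (2 * w) * Ub b) := by gcongr
        _ = (8 * B0 ^ (r + 2 - b + 1)) * (w * Ub b) := by ring
        _ ≤ (16 * B0 ^ 3) ^ (r - b + 1) * (w * Ub b) := mul_le_mul_of_nonneg_right hBle2 (by positivity)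
        _ = _ := by ring
    rcases Nat.lt_or_ge i (r + 3) with h | h
    · have h1 := rev_tr (b := b) (η := η) (P := Cl r) (Q := Cl (r + 2)) (fun Y hY hB => cl_rev (by omega) hY hB)
        (fun Y hY => cl_rv (by omega) hY)
      have h2 := (hS b (r + 2) (r + 2) (by omega) le_rfl).1
      have h3 : gf {L | L ∈ Cl (r + 2) ∧ L ∈ GT b η} ≤ ENNReal.ofReal (B0 ^ (r + 2 - b + 1) * 1 * Ub b) * Xb b := by
        refine (gf_mono ?_).trans (h2.trans (mul_le_mul' (ENNReal.ofReal_le_ofReal ?_) le_rfl))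
        · rintro L ⟨⟨a1, a2⟩, a3⟩
          exact ⟨a1, a2, a3⟩
        · rw [mul_one]
          exact mul_le_mul_of_nonneg_right (pow_le_pow_left₀ (by linarith) (by linarith) _) hU.le
      refine (gf_mono ?_).trans (h1.trans ((mul_le_mul' le_rfl h3).trans (hfin (by norm_num) ?_)))
      · rintro L ⟨a1, a2⟩
        exact ⟨⟨a1.1, a1.2.1⟩, a2⟩
      · rw [hw]
        have h4 : (2 : ℝ) ^ (-(1 : ℝ)) ≤ (2 : ℝ) ^ (-(1 / 8 : ℝ) * ((i : ℝ) - r)) := by
          refine Real.rpow_le_rpow_of_exponent_le (by norm_num) ?_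
          have : (i : ℝ) < r + 3 := by exact_mod_cast h
          linarith
        have h5 : (2 : ℝ) ^ (-(1 : ℝ)) = 1 / 2 := by
          rw [Real.rpow_neg_one]
          norm_num
        rw [h5] at h4
        linarith
    · have h1 := rev_tr (b := b) (η := η) (P := Lp r i) (Q := Lp (r + 2) (i - 1))
        (fun Y hY hB => lp_rev (by omega) (by omega) hY hB) (fun Y hY => lp_rv (by omega) (by omega) hY)
      have h2 := hGT b (r + 2) (i - 1) (by omega) (by omega) (by omega)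
      refine h1.trans ((mul_le_mul' le_rfl h2).trans (hfin (by positivity) ?_))
      rw [hw, Nat.cast_sub (by omega)]
      have h3 : (2 : ℝ) * (2 : ℝ) ^ (-(1 / 8 : ℝ) * ((i : ℝ) - r)) = (2 : ℝ) ^ (1 + -(1 / 8 : ℝ) * ((i : ℝ) - r)) := by
        rw [Real.rpow_add (by norm_num), Real.rpow_one]
      rw [h3]
      refine Real.rpow_le_rpow_of_exponent_le (by norm_num) ?_
      push_cast
      linarith
  · gcongr

end ART

end HexObs
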