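import Pool.Agent.ARM.TipG
import Pool.Agent.ARM.T1
import Pool.Agent.NPR.Fast
import Pool.Agent.ARM.NumB
import Pool.Agent.ART.LoopDefs

/-!
# ART, row E1 (helper44), the slow loops: words with both ends within 2 ^ r and at least k ml r letters

* `slow_of` : their mass in a class TT, from the mass of TT in the windows `F n r`;
* **`slowM`** : the three classes of `LoopM` (good end, good start, both): `k ^ (- 1 / 2)`.
-/

set_option autoImplicit false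

namespace HexObs

namespace ART

open Finset TS SDN SIM NTA TIP ARM

open scoped ENNReal

/-- telescoping: the sum of (k0 + k) ^ (- 3 / 2) -/
lemma sum32_le {k0 : ℕ} (hk : 1 ≤ k0) {c : ℝ} (hc : 0 ≤ c) :
    ∑' k : ℕ, ENNReal.ofReal (c * ((k0 + k : ℕ) : ℝ) ^ (-(3 / 2) : ℝ)) ≤ ENNReal.ofReal (4 * c * (k0 : ℝ) ^ (-(1 / 2) : ℝ)) := by
  have key : ∀ x : ℝ, 1 ≤ x → x ^ (-(3 / 2) : ℝ) ≤ 4 * (x ^ (-(1 / 2) : ℝ) - (x + 1) ^ (-(1 / 2) : ℝ)) := by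
    intro x hx
    have hx0 : 0 < x := by linarith
    obtain ⟨a, ha⟩ : ∃ a : ℝ, a = Real.sqrt x := ⟨_, rfl⟩
    obtain ⟨b, hb⟩ : ∃ b : ℝ, b = Real.sqrt (x + 1) := ⟨_, rfl⟩
    have ha0 : 0 < a := by rw [ha]; exact Real.sqrt_pos.2 hx0
    have hb0 : 0 < b := by rw [hb]; exact Real.sqrt_pos.2 (by linarith)
    have ha2 : a * a = x := by rw [ha]; exact Real.mul_self_sqrt hx0.le
    have hb2 : b * b = x + 1 := by rw [hb]; exact Real.mul_self_sqrt (by linarith)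
    have e1 : x ^ (-(1 / 2) : ℝ) = a⁻¹ := by rw [Real.rpow_neg hx0.le, ← Real.sqrt_eq_rpow, ha]
    have e2 : (x + 1) ^ (-(1 / 2) : ℝ) = b⁻¹ := by rw [Real.rpow_neg (by linarith), ← Real.sqrt_eq_rpow, hb]
    have e3 : x ^ (-(3 / 2) : ℝ) = (a * x)⁻¹ := by
      rw [Real.rpow_neg hx0.le]
      congr 1
      rw [show (3 / 2 : ℝ) = 1 / 2 + 1 by norm_num, Real.rpow_add hx0, Real.rpow_one, ← Real.sqrt_eq_rpow, ha]
    rw [e1, e2, e3]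
    have hba : b ≤ 3 / 2 * a := by
      by_contra hcon
      push Not at hcon
      nlinarith
    have h1 : (b - a) * (b + a) = 1 := by nlinarith
    have h2 : a⁻¹ - b⁻¹ = (b - a) / (a * b) := by field_simp
    rw [h2, inv_eq_one_div, div_le_iff₀ (by positivity)]
    have h3 : 4 * ((b - a) / (a * b)) * (a * x) = 4 * (b - a) * x / b := by field_simp
    rw [h3, le_div_iff₀ hb0, one_mul]
    have h4 : b * (b + a) ≤ 4 * x := by nlinarith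
    have h5 : b - a > 0 := by
      by_contra hcon
      push Not at hcon
      nlinarith
    calc b = b * ((b - a) * (b + a)) := by rw [h1, mul_one]
      _ = (b - a) * (b * (b + a)) := by ring
      _ ≤ (b - a) * (4 * x) := mul_le_mul_of_nonneg_left h4 h5.le
      _ = _ := by ring
  refine ENNReal.tsum_le_of_sum_range_le fun n => ?_
  rw [← ENNReal.ofReal_sum_of_nonneg (fun k _ => by positivity)]
  refine ENNReal.ofReal_le_ofReal ?_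
  have hk0 : (1 : ℝ) ≤ k0 := by exact_mod_cast hk
  have h1 : ∀ k ∈ range n, c * ((k0 + k : ℕ) : ℝ) ^ (-(3 / 2) : ℝ) ≤
      4 * c * (((k0 + k : ℕ) : ℝ) ^ (-(1 / 2) : ℝ) - ((k0 + (k + 1) : ℕ) : ℝ) ^ (-(1 / 2) : ℝ)) := by
    intro k _
    have h2 : (1 : ℝ) ≤ ((k0 + k : ℕ) : ℝ) := by
      push_cast
      have : (0 : ℝ) ≤ k := Nat.cast_nonneg k
      linarith
    have h3 := mul_le_mul_of_nonneg_left (key _ h2) hc
    have h4 : ((k0 + (k + 1) : ℕ) : ℝ) = ((k0 + k : ℕ) : ℝ) + 1 := by push_cast; ring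
    rw [h4]
    linarith
  refine (sum_le_sum h1).trans ?_
  rw [← mul_sum, sum_range_sub' (fun k => ((k0 + k : ℕ) : ℝ) ^ (-(1 / 2) : ℝ))]
  have h2 : 0 ≤ ((k0 + n : ℕ) : ℝ) ^ (-(1 / 2) : ℝ) := by positivity
  have h3 : 0 ≤ 4 * c := by positivity
  have h4 := mul_nonneg h3 h2
  rw [Nat.add_zero, mul_sub]
  linarith

/-- **the slow words of a class TT** -/
theorem slow_of {TT : Set (List Bool)} {X : ℝ≥0∞} {C : ℝ} (hC : 0 ≤ C) {r : ℕ}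
    (hT : ∀ n : ℕ, gf (F n r ∩ TT) * X ≤ ENNReal.ofReal (C * pr n r)) {k0 : ℕ} (hk : 1 ≤ k0) :
    gf {W | W ∈ SA ∧ TIW.hn (TIW.en W) ≤ 2 ^ r ∧ (k0 : ℝ) * ml r ≤ W.length ∧ W ∈ TT} * X ≤
      ENNReal.ofReal (16 * C * (2 : ℝ) ^ ((43 / 24 : ℝ) * (r : ℝ)) * (k0 : ℝ) ^ (-(1 / 2) : ℝ)) := by
  obtain ⟨s, hs⟩ : ∃ s : ℕ, s = ⌊ml r⌋₊ := ⟨_, rfl⟩
  have h1 := one_le_ml r
  have hml := ml_pos r
  have hs1 : (s : ℝ) ≤ ml r := by rw [hs]; exact Nat.floor_le hml.le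
  have hs0 : 1 ≤ s := by
    rw [hs]
    exact Nat.le_floor (by exact_mod_cast h1)
  have hs2 : ml r ≤ 2 * s := by
    have h2 := Nat.lt_floor_add_one (ml r)
    rw [← hs] at h2
    have h3 : (1 : ℝ) ≤ s := by exact_mod_cast hs0
    linarith
  have hcov : {W | W ∈ SA ∧ TIW.hn (TIW.en W) ≤ 2 ^ r ∧ (k0 : ℝ) * ml r ≤ W.length ∧ W ∈ TT} ⊆
      ⋃ k : ℕ, F ((k0 + k) * s) r ∩ TT := by
    rintro W ⟨a1, a2, a3, a4⟩
    have h4 : k0 * s ≤ W.length := by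
      have h5 : ((k0 * s : ℕ) : ℝ) ≤ W.length := by
        push_cast
        have : (k0 : ℝ) * s ≤ k0 * ml r := mul_le_mul_of_nonneg_left hs1 (Nat.cast_nonneg _)
        linarith
      exact_mod_cast h5
    have h5 : k0 ≤ W.length / s := by
      rw [Nat.le_div_iff_mul_le (by omega)]
      exact h4
    refine Set.mem_iUnion.2 ⟨W.length / s - k0, ⟨a1, ?_, ?_, by rw [sub_zero]; exact a2⟩, a4⟩
    · rw [show k0 + (W.length / s - k0) = W.length / s by omega]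
      exact Nat.div_mul_le_self _ _
    · rw [show k0 + (W.length / s - k0) = W.length / s by omega]
      have h6 := Nat.div_add_mod W.length s
      have h7 := Nat.mod_lt W.length (show s > 0 by omega)
      have h8 : W.length < W.length / s * s + s := by
        rw [mul_comm] at h6
        omega
      have h9 : (W.length : ℝ) < ((W.length / s * s : ℕ) : ℝ) + s := by exact_mod_cast h8
      linarith
  have hpr : ∀ k : ℕ, pr ((k0 + k) * s) r ≤ 4 * (2 : ℝ) ^ ((43 / 24 : ℝ) * (r : ℝ)) * ((k0 + k : ℕ) : ℝ) ^ (-(3 / 2) : ℝ) := by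
    intro k
    obtain ⟨q, hq⟩ : ∃ q : ℝ, q = ((k0 + k : ℕ) : ℝ) := ⟨_, rfl⟩
    have hq1 : 1 ≤ q := by
      rw [hq]
      have : (1 : ℝ) ≤ k0 := by exact_mod_cast hk
      push_cast
      have h2 : (0 : ℝ) ≤ k := Nat.cast_nonneg k
      linarith
    have hq0 : 0 < q := by linarith
    have h0 : 0 < max (((k0 + k) * s : ℕ) : ℝ) (ml r) := lt_of_lt_of_le hml (le_max_right _ _)
    have h2 : ml r / max (((k0 + k) * s : ℕ) : ℝ) (ml r) ≤ 2 * q⁻¹ := by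
      rw [← div_eq_mul_inv, div_le_div_iff₀ h0 hq0]
      have h3 : (((k0 + k) * s : ℕ) : ℝ) = q * s := by rw [hq]; push_cast; ring
      calc ml r * q ≤ (2 * s) * q := mul_le_mul_of_nonneg_right hs2 hq0.le
        _ = 2 * (q * s) := by ring
        _ ≤ 2 * max (((k0 + k) * s : ℕ) : ℝ) (ml r) := by
          rw [h3]
          exact mul_le_mul_of_nonneg_left (le_max_left _ _) (by norm_num)
    have h3 : (ml r / max (((k0 + k) * s : ℕ) : ℝ) (ml r)) ^ (3 / 2 : ℝ) ≤ 4 * q ^ (-(3 / 2) : ℝ) := by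
      refine (Real.rpow_le_rpow (by positivity) h2 (by norm_num)).trans ?_
      rw [Real.mul_rpow (by norm_num) (by positivity), Real.inv_rpow hq0.le, ← Real.rpow_neg hq0.le]
      refine mul_le_mul_of_nonneg_right ?_ (by positivity)
      calc (2 : ℝ) ^ (3 / 2 : ℝ) ≤ (2 : ℝ) ^ (2 : ℝ) := Real.rpow_le_rpow_of_exponent_le (by norm_num) (by norm_num)
        _ = 4 := by norm_num
    unfold pr
    rw [← hq]
    have h4 : (0 : ℝ) < (2 : ℝ) ^ ((43 / 24 : ℝ) * (r : ℝ)) := by positivity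
    calc _ ≤ (2 : ℝ) ^ ((43 / 24 : ℝ) * (r : ℝ)) * (4 * q ^ (-(3 / 2) : ℝ)) := mul_le_mul_of_nonneg_left h3 h4.le
      _ = _ := by ring
  calc gf {W | W ∈ SA ∧ TIW.hn (TIW.en W) ≤ 2 ^ r ∧ (k0 : ℝ) * ml r ≤ W.length ∧ W ∈ TT} * X
      ≤ (∑' k : ℕ, gf (F ((k0 + k) * s) r ∩ TT)) * X :=
        mul_le_mul' ((gf_mono hcov).trans (ENNReal.tsum_iUnion_le_tsum wE _)) le_rfl
    _ = ∑' k : ℕ, gf (F ((k0 + k) * s) r ∩ TT) * X := ENNReal.tsum_mul_right.symm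
    _ ≤ ∑' k : ℕ, ENNReal.ofReal ((4 * C * (2 : ℝ) ^ ((43 / 24 : ℝ) * (r : ℝ))) * ((k0 + k : ℕ) : ℝ) ^ (-(3 / 2) : ℝ)) := by
        refine ENNReal.tsum_le_tsum fun k => (hT _).trans (ENNReal.ofReal_le_ofReal ?_)
        calc C * pr ((k0 + k) * s) r
            ≤ C * (4 * (2 : ℝ) ^ ((43 / 24 : ℝ) * (r : ℝ)) * ((k0 + k : ℕ) : ℝ) ^ (-(3 / 2) : ℝ)) :=
              mul_le_mul_of_nonneg_left (hpr k) hC
          _ = _ := by ring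
    _ ≤ _ := by
        refine (sum32_le hk (by positivity)).trans (ENNReal.ofReal_le_ofReal (le_of_eq ?_))
        ring


/-- all the words of a class TT with a close end -/
theorem tot_of {TT : Set (List Bool)} {X : ℝ≥0∞} {C : ℝ} (hC : 0 ≤ C) {r : ℕ}
    (hT : ∀ n : ℕ, gf (F n r ∩ TT) * X ≤ ENNReal.ofReal (C * pr n r)) :
    gf {W | W ∈ SA ∧ TIW.hn (TIW.en W) ≤ 2 ^ r ∧ W ∈ TT} * X ≤ ENNReal.ofReal (17 * C * (2 : ℝ) ^ ((43 / 24 : ℝ) * (r : ℝ))) := by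
  have h1 := slow_of hC hT (k0 := 1) le_rfl
  have h2 := hT 0
  rw [pr_z] at h2
  have hcov : {W | W ∈ SA ∧ TIW.hn (TIW.en W) ≤ 2 ^ r ∧ W ∈ TT} ⊆
      {W | W ∈ SA ∧ TIW.hn (TIW.en W) ≤ 2 ^ r ∧ ((1 : ℕ) : ℝ) * ml r ≤ W.length ∧ W ∈ TT} ∪ (F 0 r ∩ TT) := by
    rintro W ⟨a1, a2, a3⟩
    by_cases h : ((1 : ℕ) : ℝ) * ml r ≤ W.length
    · exact Or.inl ⟨a1, a2, h, a3⟩
    · rw [not_le, Nat.cast_one, one_mul] at h
      exact Or.inr ⟨⟨a1, Nat.zero_le _, by rw [Nat.cast_zero, zero_add]; exact h, by rw [sub_zero]; exact a2⟩, a3⟩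
  calc gf {W | W ∈ SA ∧ TIW.hn (TIW.en W) ≤ 2 ^ r ∧ W ∈ TT} * X
      ≤ (gf {W | W ∈ SA ∧ TIW.hn (TIW.en W) ≤ 2 ^ r ∧ ((1 : ℕ) : ℝ) * ml r ≤ W.length ∧ W ∈ TT} + gf (F 0 r ∩ TT)) * X :=
        mul_le_mul' ((gf_mono hcov).trans (gf_union_le _ _)) le_rfl
    _ = gf {W | W ∈ SA ∧ TIW.hn (TIW.en W) ≤ 2 ^ r ∧ ((1 : ℕ) : ℝ) * ml r ≤ W.length ∧ W ∈ TT} * X + gf (F 0 r ∩ TT) * X :=
        add_mul _ _ _
    _ ≤ ENNReal.ofReal (16 * C * (2 : ℝ) ^ ((43 / 24 : ℝ) * (r : ℝ)) * ((1 : ℕ) : ℝ) ^ (-(1 / 2) : ℝ)) +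
          ENNReal.ofReal (C * (2 : ℝ) ^ ((43 / 24 : ℝ) * (r : ℝ))) := add_le_add h1 h2
    _ = _ := by
        rw [← ENNReal.ofReal_add (by positivity) (by positivity), Nat.cast_one, Real.one_rpow]
        congr 1
        ring

/-- the words of Lp r i with at least 2 ^ ((7 / 6) (i - r)) ml r letters -/
def Sl (r i : ℕ) : Set (List Bool) :=
  {W | W ∈ SA ∧ TIW.hn (TIW.en W) ≤ 2 ^ r ∧ (2 : ℝ) ^ ((7 / 6 : ℝ) * ((i : ℝ) - r)) * ml r ≤ W.length}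

/-- the slow words, the factor 2 ^ (- (i - r) / 8) -/
theorem sl_of {TT : Set (List Bool)} {X : ℝ≥0∞} {C : ℝ} (hC : 0 ≤ C) {r i : ℕ} (hri : r ≤ i)
    (hT : ∀ n : ℕ, gf (F n r ∩ TT) * X ≤ ENNReal.ofReal (C * pr n r)) :
    gf {W | W ∈ Sl r i ∧ W ∈ TT} * X ≤
      ENNReal.ofReal (32 * C * (2 : ℝ) ^ ((43 / 24 : ℝ) * (r : ℝ)) * (2 : ℝ) ^ (-(1 / 8 : ℝ) * ((i : ℝ) - r))) := by
  obtain ⟨x, hx⟩ : ∃ x : ℝ, x = (i : ℝ) - r := ⟨_, rfl⟩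
  have hx0 : 0 ≤ x := by
    rw [hx]
    have : (r : ℝ) ≤ i := by exact_mod_cast hri
    linarith
  obtain ⟨t, ht⟩ : ∃ t : ℝ, t = (2 : ℝ) ^ ((7 / 6 : ℝ) * x) := ⟨_, rfl⟩
  have ht1 : 1 ≤ t := by
    rw [ht]
    exact Real.one_le_rpow (by norm_num) (by positivity)
  obtain ⟨k0, hk0⟩ : ∃ k0 : ℕ, k0 = ⌊t⌋₊ := ⟨_, rfl⟩
  have hk1 : 1 ≤ k0 := by
    rw [hk0]
    exact Nat.le_floor (by exact_mod_cast ht1)
  have hk2 : (k0 : ℝ) ≤ t := by rw [hk0]; exact Nat.floor_le (by linarith)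
  have hk3 : t ≤ 2 * k0 := by
    have h2 := Nat.lt_floor_add_one t
    rw [← hk0] at h2
    have h3 : (1 : ℝ) ≤ k0 := by exact_mod_cast hk1
    linarith
  have hml := ml_pos r
  have hsub : {W | W ∈ Sl r i ∧ W ∈ TT} ⊆ {W | W ∈ SA ∧ TIW.hn (TIW.en W) ≤ 2 ^ r ∧ (k0 : ℝ) * ml r ≤ W.length ∧ W ∈ TT} := by
    rintro W ⟨⟨a1, a2, a3⟩, a4⟩
    refine ⟨a1, a2, le_trans ?_ a3, a4⟩
    rw [← hx, ← ht]
    exact mul_le_mul_of_nonneg_right hk2 hml.le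
  refine (mul_le_mul' (gf_mono hsub) le_rfl).trans ((slow_of hC hT hk1).trans (ENNReal.ofReal_le_ofReal ?_))
  have hk4 : (0 : ℝ) < k0 := by exact_mod_cast hk1
  have h1 : (k0 : ℝ) ^ (-(1 / 2) : ℝ) ≤ 2 * (2 : ℝ) ^ (-(1 / 8 : ℝ) * x) := by
    have h2 : (k0 : ℝ) ^ (-(1 / 2) : ℝ) ≤ (t / 2) ^ (-(1 / 2) : ℝ) :=
      Real.rpow_le_rpow_of_nonpos (by positivity) (by linarith) (by norm_num)
    refine h2.trans ?_
    rw [Real.div_rpow (by linarith) (by norm_num), div_le_iff₀ (by positivity), ht, ← Real.rpow_mul (by norm_num)]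
    have h3 : (2 : ℝ) * (2 : ℝ) ^ (-(1 / 8 : ℝ) * x) * (2 : ℝ) ^ (-(1 / 2) : ℝ) =
        (2 : ℝ) ^ (1 + -(1 / 8 : ℝ) * x + -(1 / 2)) := by
      rw [Real.rpow_add (by norm_num), Real.rpow_add (by norm_num), Real.rpow_one]
    rw [h3]
    refine Real.rpow_le_rpow_of_exponent_le (by norm_num) ?_
    linarith
  rw [← hx]
  have h2 : (0 : ℝ) < (2 : ℝ) ^ ((43 / 24 : ℝ) * (r : ℝ)) := by positivity
  calc 16 * C * (2 : ℝ) ^ ((43 / 24 : ℝ) * (r : ℝ)) * (k0 : ℝ) ^ (-(1 / 2) : ℝ)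
      ≤ 16 * C * (2 : ℝ) ^ ((43 / 24 : ℝ) * (r : ℝ)) * (2 * (2 : ℝ) ^ (-(1 / 8 : ℝ) * x)) := by gcongr
    _ = _ := by ring

/-! ### the masses of the good tips -/

/-- the power of the level r against the mass at the level b -/
lemma pw_FK : ∃ c : ℝ, 0 < c ∧ ∀ b r : ℕ, b ≤ r → ∀ {a : ℝ}, 0 ≤ a →
    ENNReal.ofReal (a * (2 : ℝ) ^ ((43 / 24 : ℝ) * (r : ℝ))) ≤
      ENNReal.ofReal (c * 4 ^ (r - b) * a * Ub b) * Xb b ^ 2 := by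
  obtain ⟨c, hc, hFK⟩ := NPR.Fast.FK_low
  refine ⟨c⁻¹, by positivity, fun b r hbr a ha => ?_⟩
  have hU := TS.Ub_pos b
  have h1 : (2 : ℝ) ^ ((43 / 24 : ℝ) * (r : ℝ)) ≤ 4 ^ (r - b) * (2 : ℝ) ^ (43 / 24 * (b : ℝ)) := by
    have h2 : (4 : ℝ) ^ (r - b) = (2 : ℝ) ^ ((2 : ℝ) * ((r - b : ℕ) : ℝ)) := by
      rw [Real.rpow_mul (by norm_num), Real.rpow_natCast]
      norm_num
    rw [h2, ← Real.rpow_add (by norm_num), Nat.cast_sub hbr]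
    refine Real.rpow_le_rpow_of_exponent_le (by norm_num) ?_
    have : (b : ℝ) ≤ r := by exact_mod_cast hbr
    linarith
  calc ENNReal.ofReal (a * (2 : ℝ) ^ ((43 / 24 : ℝ) * (r : ℝ)))
      ≤ ENNReal.ofReal ((c⁻¹ * 4 ^ (r - b) * a) * (c * (2 : ℝ) ^ (43 / 24 * (b : ℝ)))) := by
        refine ENNReal.ofReal_le_ofReal ?_
        calc a * (2 : ℝ) ^ ((43 / 24 : ℝ) * (r : ℝ)) ≤ a * (4 ^ (r - b) * (2 : ℝ) ^ (43 / 24 * (b : ℝ))) :=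
              mul_le_mul_of_nonneg_left h1 ha
          _ = _ := by field_simp
    _ = ENNReal.ofReal (c⁻¹ * 4 ^ (r - b) * a) * ENNReal.ofReal (c * (2 : ℝ) ^ (43 / 24 * (b : ℝ))) :=
        ENNReal.ofReal_mul (by positivity)
    _ ≤ ENNReal.ofReal (c⁻¹ * 4 ^ (r - b) * a) * NPR.FK b := mul_le_mul' le_rfl (hFK b)
    _ = _ := by
        unfold NPR.FK
        rw [← mul_assoc, ← ENNReal.ofReal_mul (by positivity)]

/-- **the slow loops** (and all the words with a close end) -/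
theorem slowM : ∀ (η : ℝ) (E : ℕ), 0 < η → ∃ (B : ℝ), 1 ≤ B ∧ ∀ b r i : ℕ, b ≤ r → r ≤ i →
    gf {W | W ∈ SA ∧ TIW.hn (TIW.en W) ≤ 2 ^ r ∧ W ∈ GT b η} ≤ ENNReal.ofReal (B ^ (r - b + 1) * Ub b) * Xb b ∧
    gf {W | W ∈ SA ∧ TIW.hn (TIW.en W) ≤ 2 ^ r ∧ W ∈ TwoG η E b} ≤ ENNReal.ofReal (B ^ (r - b + 1) * Ub b) ∧
    gf {W | W ∈ Sl r i ∧ W ∈ GT b η} ≤
      ENNReal.ofReal (B ^ (r - b + 1) * (2 : ℝ) ^ (-(1 / 8 : ℝ) * ((i : ℝ) - r)) * Ub b) * Xb b ∧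
    gf {W | W ∈ Sl r i ∧ W ∈ TwoG η E b} ≤
      ENNReal.ofReal (B ^ (r - b + 1) * (2 : ℝ) ^ (-(1 / 8 : ℝ) * ((i : ℝ) - r)) * Ub b) := by
  intro η E hη
  obtain ⟨D, hD, hT1⟩ := t1
  obtain ⟨C1, hC1, hT⟩ := tipF_all η hη
  obtain ⟨C2, hC2, hT2⟩ := tipF2s η E hη
  obtain ⟨c, hc, hpw⟩ := pw_FK
  obtain ⟨C, hC⟩ : ∃ C : ℝ, C = (C1 + C2) * D := ⟨_, rfl⟩
  have hC0 : 0 < C := by rw [hC]; positivity
  have hGT : ∀ b r n : ℕ, b ≤ r → gf (F n r ∩ GT b η) * Xb b ≤ ENNReal.ofReal (C * pr n r) := by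
    intro b r n hb
    refine (hT D n r b hD.le (fun n' i'' _ _ => hT1 n' i'') hb).trans (ENNReal.ofReal_le_ofReal ?_)
    have := pr_pos n r
    rw [hC]
    gcongr
    linarith
  have hTG : ∀ b r n : ℕ, b ≤ r → gf (F n r ∩ TwoG η E b) * Xb b ^ 2 ≤ ENNReal.ofReal (C * pr n r) := by
    intro b r n hb
    refine (hT2 D n r b hD.le (fun n' i'' _ _ => hT1 n' i'') hb).trans (ENNReal.ofReal_le_ofReal ?_)
    have := pr_pos n r
    rw [hC]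
    gcongr
    linarith
  refine ⟨max 4 (c * (32 * C)), le_trans (by norm_num) (le_max_left _ _), fun b r i hb hr => ?_⟩
  obtain ⟨B, hB⟩ : ∃ B : ℝ, B = max 4 (c * (32 * C)) := ⟨_, rfl⟩
  rw [← hB]
  have hB4 : 4 ≤ B := by rw [hB]; exact le_max_left _ _
  have hBc : c * (32 * C) ≤ B := by rw [hB]; exact le_max_right _ _
  have hU := TS.Ub_pos b
  have hXz : Xb b ≠ 0 := Xb_ne_zero b
  have hXt : Xb b ≠ ∞ := Xb_ne_top b
  have hpow : ∀ {a w : ℝ}, 0 ≤ w → a ≤ 32 * C → c * 4 ^ (r - b) * (a * w) * Ub b ≤ B ^ (r - b + 1) * w * Ub b := by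
    intro a w hw ha
    have h1 : (4 : ℝ) ^ (r - b) ≤ B ^ (r - b) := pow_le_pow_left₀ (by norm_num) hB4 _
    have h0 : c * a ≤ B := le_trans (mul_le_mul_of_nonneg_left ha hc.le) hBc
    calc c * 4 ^ (r - b) * (a * w) * Ub b = (c * a) * 4 ^ (r - b) * (w * Ub b) := by ring
      _ ≤ B * 4 ^ (r - b) * (w * Ub b) := by gcongr
      _ ≤ B * B ^ (r - b) * (w * Ub b) := by gcongr
      _ = _ := by rw [pow_succ]; ring
  have c1 : ∀ {μ : ℝ≥0∞} {a w : ℝ}, 0 ≤ a → 0 ≤ w → a ≤ 32 * C →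
      μ * Xb b ≤ ENNReal.ofReal (a * w * (2 : ℝ) ^ ((43 / 24 : ℝ) * (r : ℝ))) →
      μ ≤ ENNReal.ofReal (B ^ (r - b + 1) * w * Ub b) * Xb b := by
    intro μ a w ha hw hle h
    refine (ENNReal.mul_le_mul_iff_left hXz hXt).1 (h.trans ((hpw b r hb (mul_nonneg ha hw)).trans ?_))
    rw [mul_assoc (ENNReal.ofReal (B ^ (r - b + 1) * w * Ub b)) (Xb b) (Xb b), ← pow_two]
    exact mul_le_mul' (ENNReal.ofReal_le_ofReal (hpow hw hle)) le_rfl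
  have c2 : ∀ {μ : ℝ≥0∞} {a w : ℝ}, 0 ≤ a → 0 ≤ w → a ≤ 32 * C →
      μ * Xb b ^ 2 ≤ ENNReal.ofReal (a * w * (2 : ℝ) ^ ((43 / 24 : ℝ) * (r : ℝ))) →
      μ ≤ ENNReal.ofReal (B ^ (r - b + 1) * w * Ub b) := by
    intro μ a w ha hw hle h
    refine (ENNReal.mul_le_mul_iff_left (pow_ne_zero 2 hXz) (ENNReal.pow_ne_top hXt)).1
      (h.trans ((hpw b r hb (mul_nonneg ha hw)).trans ?_))
    exact mul_le_mul' (ENNReal.ofReal_le_ofReal (hpow hw hle)) le_rfl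
  have hw0 : (0 : ℝ) ≤ (2 : ℝ) ^ (-(1 / 8 : ℝ) * ((i : ℝ) - r)) := by positivity
  refine ⟨?_, ?_, ?_, ?_⟩
  · have h := c1 (μ := gf {W | W ∈ SA ∧ TIW.hn (TIW.en W) ≤ 2 ^ r ∧ W ∈ GT b η}) (a := 17 * C) (w := 1) (by positivity)
      (by norm_num) (by linarith) (by rw [mul_one]; exact tot_of hC0.le fun n => hGT b r n hb)
    rwa [mul_one] at h
  · have h := c2 (μ := gf {W | W ∈ SA ∧ TIW.hn (TIW.en W) ≤ 2 ^ r ∧ W ∈ TwoG η E b}) (a := 17 * C) (w := 1) (by positivity)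
      (by norm_num) (by linarith) (by rw [mul_one]; exact tot_of hC0.le fun n => hTG b r n hb)
    rwa [mul_one] at h
  · refine c1 (a := 32 * C) (by positivity) hw0 le_rfl ((sl_of hC0.le hr fun n => hGT b r n hb).trans (le_of_eq ?_))
    congr 1
    ring
  · refine c2 (a := 32 * C) (by positivity) hw0 le_rfl ((sl_of hC0.le hr fun n => hTG b r n hb).trans (le_of_eq ?_))
    congr 1
    ring

/-- **the literal for the fast loops (helper82)** -/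
def FastLp : Prop := ∀ (η : ℝ) (E : ℕ), 0 < η → ∃ (B : ℝ) (b0 : ℕ), 1 ≤ B ∧ ∀ b r i : ℕ, b0 ≤ b → b ≤ r → r ≤ i →
  gf {W | W ∈ Lp r i ∧ (W.length : ℝ) < (2 : ℝ) ^ ((7 / 6 : ℝ) * ((i : ℝ) - r)) * ml r ∧ W ∈ GT b η} ≤
    ENNReal.ofReal (B ^ (r - b + 1) * (2 : ℝ) ^ (-(1 / 8 : ℝ) * ((i : ℝ) - r)) * Ub b) * Xb b ∧
  gf {W | W ∈ Lp r i ∧ (W.length : ℝ) < (2 : ℝ) ^ ((7 / 6 : ℝ) * ((i : ℝ) - r)) * ml r ∧ W ∈ TwoG η E b} ≤
    ENNReal.ofReal (B ^ (r - b + 1) * (2 : ℝ) ^ (-(1 / 8 : ℝ) * ((i : ℝ) - r)) * Ub b)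

end ART

end HexObs
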