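import Pool.Agent.ARM.UpAll
import Pool.Agent.ARM.TipG
import Pool.Agent.ARM.T2Nb
import Pool.Agent.ARM.InPt
import Pool.Agent.ARM.T1

/-!
# ART, row E1 (helper44): words with a good start of the scale b, exact end z with |z| <= 2 ^ (b + J), exact length

* `exL` : double counting in the class F for any class of first parts (`ARM.ExF` after (T1));
* **`loopU`** : the mass is at most B ^ (J + 1) Ub b / (4 ^ b ml b) (1 + y / ml b) ^ (- 3 / 2) Xb b, for every length y.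
-/

set_option autoImplicit false

namespace HexObs

namespace ART

open Finset TS SDN SIM NTA TIP ARM

open scoped ENNReal

open Classical in
/-- **double counting in the class F** for a class TT of first parts with a known mass -/
theorem exL {TT : Set (List Bool)} {X : ℝ≥0∞} {C : ℝ} (hC : 0 ≤ C) {S0 : ℝ}
    (hsum : ∑' k : ℕ, ENNReal.ofReal (1 / ((k : ℝ) + 1) ^ 2) = ENNReal.ofReal S0) {i : ℕ}
    (hT : ∀ n i' : ℕ, i ≤ i' → gf (F n i' ∩ TT) * X ≤ ENNReal.ofReal (C * pr n i')) {n j c : ℕ} (hji : j ≤ i)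
    {ρ : List Bool → List Bool → Prop} {x : ℝ≥0∞} {q : ℝ} (hρ : ∀ A Y, ρ A Y → A ∈ TT)
    (hx : ∀ A, gf {Y | ρ A Y ∧ In (2 ^ (i + c)) Y ∧ A ++ Y ∈ Fp n j} ≤ x * ENNReal.ofReal (ARM.wt n A.length i)) :
    gf {L | L ∈ Fp n j ∧ q ≤ (nD (2 ^ (i + c)) ρ L : ℝ)} * (ENNReal.ofReal q * X) ≤
      ENNReal.ofReal (16 * C * 16 ^ (c + 3) * S0 * pr n i) * x := by
  obtain ⟨i', hi'⟩ : ∃ i', i' = i + (c + 3) := ⟨_, rfl⟩
  obtain ⟨s, hs⟩ : ∃ s : ℕ, s = ⌊ml i'⌋₊ := ⟨_, rfl⟩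
  have hs1 : (s : ℝ) ≤ ml i' := by rw [hs]; exact Nat.floor_le (ml_pos _).le
  have hs2 : ml i ≤ s := by
    have h1 := Nat.lt_floor_add_one (ml i')
    rw [← hs] at h1
    have h2 := ml_two i (c + 3) (by omega)
    rw [← hi'] at h2
    have h3 := one_le_ml i
    linarith
  have hs3 : 1 ≤ s := by
    have h1 := (one_le_ml i).trans hs2
    exact_mod_cast h1
  obtain ⟨XX, hX⟩ : ∃ XX : Set (List Bool), XX = {A | A ∈ TT ∧ A ∈ SA ∧ (A.length : ℝ) < n + ml j ∧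
      TIW.hn (TIW.en A) ≤ 2 ^ i'} := ⟨_, rfl⟩
  obtain ⟨Y, hY⟩ : ∃ Y : List Bool → Set (List Bool), Y = fun A => {Y | ρ A Y ∧ In (2 ^ (i + c)) Y ∧ A ++ Y ∈ Fp n j} :=
    ⟨_, rfl⟩
  obtain ⟨W, hW⟩ : ∃ W : ℕ → Set (List Bool), W = fun k => F (n - k * s) i' ∩ TT := ⟨_, rfl⟩
  have h1 : ENNReal.ofReal q * gf {L | L ∈ Fp n j ∧ q ≤ (nD (2 ^ (i + c)) ρ L : ℝ)} ≤
      ∑' A : List Bool, if A ∈ XX then wE A * gf (Y A) else 0 := by
    refine dcs fun L hL => ?_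
    obtain ⟨S, hS, hcut⟩ := nD_cuts (2 ^ (i + c)) ρ L
    refine ⟨S, ?_, fun k hk => ?_⟩
    · rw [← ENNReal.ofReal_natCast]
      refine ENNReal.ofReal_le_ofReal (hL.2.trans ?_)
      exact_mod_cast hS
    · obtain ⟨h2, h3, h4⟩ := hcut k hk
      have h5 : L.take k ++ L.drop k ∈ Fp n j := by rw [List.take_append_drop]; exact hL.1
      obtain ⟨h6, h7, h8⟩ := fst_F hji h5 h4
      refine ⟨h2, ?_, ?_⟩
      · rw [hX]
        refine ⟨hρ _ _ h3, h6, h7, ?_⟩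
        rw [hi', ← add_assoc]
        exact h8
      · rw [hY]
        exact ⟨h3, h4, h5⟩
  have h2 : (∑' A : List Bool, if A ∈ XX then wE A * gf (Y A) else 0) ≤
      ∑' A : List Bool, ∑' k : ℕ, if A ∈ W k then wE A * (x * ENNReal.ofReal (16 / ((k : ℝ) + 1) ^ 4)) else 0 := by
    refine ENNReal.tsum_le_tsum fun A => ?_
    by_cases hA : A ∈ XX
    · rw [if_pos hA]
      obtain ⟨k, hk1, hk2, hk3⟩ := window (n := n) (a := A.length) hs3 hs2
      have hA' := hA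
      rw [hX] at hA'
      obtain ⟨g1, g2, g3, g4⟩ := hA'
      have hAW : A ∈ W k := by
        rw [hW]
        refine ⟨⟨g2, hk1, ?_, by rw [sub_zero]; exact g4⟩, g1⟩
        rcases hk2 with h3 | ⟨h3, h4⟩
        · have h5 : (A.length : ℝ) < ((n - k * s : ℕ) : ℝ) + s := by exact_mod_cast h3
          linarith
        · rw [h3, zero_mul, Nat.sub_zero]
          have := ml_mono (show j ≤ i' by omega)
          linarith
      refine le_trans ?_ (ENNReal.le_tsum k)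
      rw [if_pos hAW]
      refine mul_le_mul' le_rfl ?_
      rw [hY]
      exact (hx A).trans (mul_le_mul' le_rfl (ENNReal.ofReal_le_ofReal hk3))
    · rw [if_neg hA]
      exact zero_le
  rw [ENNReal.tsum_comm] at h2
  have h3 : ∀ k : ℕ, (∑' A : List Bool, if A ∈ W k then wE A * (x * ENNReal.ofReal (16 / ((k : ℝ) + 1) ^ 4)) else 0) * X ≤
      ENNReal.ofReal (16 * C * 16 ^ (c + 3) * pr n i) * x * ENNReal.ofReal (1 / ((k : ℝ) + 1) ^ 2) := by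
    intro k
    have e1 : (∑' A : List Bool, if A ∈ W k then wE A * (x * ENNReal.ofReal (16 / ((k : ℝ) + 1) ^ 4)) else 0) =
        gf (W k) * (x * ENNReal.ofReal (16 / ((k : ℝ) + 1) ^ 4)) := by
      rw [gf_ind (W k), ← ENNReal.tsum_mul_right]
      refine tsum_congr fun A => ?_
      by_cases hA : A ∈ W k
      · rw [if_pos hA, if_pos hA]
      · rw [if_neg hA, if_neg hA, zero_mul]
    have h4 : gf (W k) * X ≤ ENNReal.ofReal (C * pr (n - k * s) i') := by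
      rw [hW]
      exact hT (n - k * s) i' (by omega)
    have h5 : C * pr (n - k * s) i' ≤ C * (((k : ℝ) + 1) ^ 2 * (16 ^ (c + 3) * pr n i)) := by
      refine mul_le_mul_of_nonneg_left ?_ (by positivity)
      refine (pr_back hs1).trans (mul_le_mul_of_nonneg_left ?_ (by positivity))
      rw [hi']
      exact pr_up16 n i (c + 3)
    have hp := pr_nonneg n i
    rw [e1]
    calc gf (W k) * (x * ENNReal.ofReal (16 / ((k : ℝ) + 1) ^ 4)) * X
        = gf (W k) * X * ENNReal.ofReal (16 / ((k : ℝ) + 1) ^ 4) * x := by ring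
      _ ≤ ENNReal.ofReal (C * (((k : ℝ) + 1) ^ 2 * (16 ^ (c + 3) * pr n i))) *
          ENNReal.ofReal (16 / ((k : ℝ) + 1) ^ 4) * x :=
          mul_le_mul' (mul_le_mul' (h4.trans (ENNReal.ofReal_le_ofReal h5)) le_rfl) le_rfl
      _ = ENNReal.ofReal (16 * C * 16 ^ (c + 3) * pr n i) * x * ENNReal.ofReal (1 / ((k : ℝ) + 1) ^ 2) := by
          rw [← ENNReal.ofReal_mul (by positivity),
            mul_right_comm (ENNReal.ofReal (16 * C * 16 ^ (c + 3) * pr n i)) x, ← ENNReal.ofReal_mul (by positivity)]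
          congr 2
          field_simp
  calc gf {L | L ∈ Fp n j ∧ q ≤ (nD (2 ^ (i + c)) ρ L : ℝ)} * (ENNReal.ofReal q * X)
        = ENNReal.ofReal q * gf {L | L ∈ Fp n j ∧ q ≤ (nD (2 ^ (i + c)) ρ L : ℝ)} * X := by ring
      _ ≤ (∑' k : ℕ, ∑' A : List Bool, if A ∈ W k then wE A * (x * ENNReal.ofReal (16 / ((k : ℝ) + 1) ^ 4)) else 0) *
          X := mul_le_mul' (h1.trans h2) le_rfl
      _ = ∑' k : ℕ, (∑' A : List Bool, if A ∈ W k then wE A * (x * ENNReal.ofReal (16 / ((k : ℝ) + 1) ^ 4)) else 0) *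
          X := ENNReal.tsum_mul_right.symm
      _ ≤ ∑' k : ℕ, ENNReal.ofReal (16 * C * 16 ^ (c + 3) * pr n i) * x * ENNReal.ofReal (1 / ((k : ℝ) + 1) ^ 2) :=
          ENNReal.tsum_le_tsum h3
      _ = _ := by
          have hp := pr_nonneg n i
          rw [ENNReal.tsum_mul_left, hsum, mul_right_comm, ← ENNReal.ofReal_mul (by positivity)]
          congr 2
          ring


/-! ### the pairs -/

lemma gs_mono {η η' : ℝ} {D D' b : ℕ} (hb : b ≠ 0) (hη : η' ≤ η) (hD : D ≤ D') {T : List Bool} (hT : T ∈ NPR.GS η D b) :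
    T ∈ NPR.GS η' D' b := by
  obtain ⟨N, Z3, h1, h2, h3, h4, h5, h6, h7⟩ := (T2.mem_GS hb).1 hT
  refine (T2.mem_GS hb).2 ⟨N, Z3, h1, h2, h3, h4, h5, le_trans ?_ h6, fun i hi => ?_⟩
  · exact mul_le_mul_of_nonneg_right hη (Ub_pos b).le
  · exact Bl_mono _ (Nat.mul_le_mul_right _ hD) (h7 i hi)

/-- the pairs: the first part has two good ends, the second part a good start and is in BB; exact length and end -/
def PL (η : ℝ) (E b n : ℕ) (z : Pt) (BB : Set (List Bool)) (A Y : List Bool) : Prop :=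
  A ∈ TwoG η E b ∧ (Y ∈ SA ∧ rev Y ∈ GT b η) ∧ Y ∈ BB ∧ (A ++ Y).length = n ∧ TIW.en (A ++ Y) = z

/-- the parts in a box -/
def B0 (b m : ℕ) : Set (List Bool) := {Y | In (2 ^ (b + m)) Y}

/-- the parts in a box with a long factor without rich window -/
def B1 (κ : ℝ) (C b J : ℕ) : Set (List Bool) := {Y | In (2 ^ (b + J)) Y ∧ Y ∈ Bz κ C b J}

lemma in_cutpart {κ : ℝ} {C b m : ℕ} {W1 W2 W3 Y : List Bool} (hw : T2.Zd κ C b W1 W2 W3) (hC : 2 * C ≤ 2 ^ m)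
    (hY : In (2 ^ (b + m)) Y) {d : ℕ} (hdd : d ∈ Nf.cz W2) : In (2 ^ (b + (m + 1))) (W2.drop d ++ (W3 ++ Y)) := by
  obtain ⟨a1, a2, a3⟩ := Nf.mem_cz.1 hdd
  have hp := T2.hpow (b := b) hC
  rw [← List.append_assoc]
  refine Nf.in_mono (Nf.in_app (BU_dx (BU_app a3 hw.b3)) ?_ hY) hp
  refine Nf.in_mid (X := W1 ++ W2.take d) (R := []) (BU_dx (BU_app hw.b1 a2)) ?_
  have : (W1 ++ W2.take d) ++ ((W2.drop d ++ W3) ++ []) = W1 ++ (W2 ++ W3) := by
    rw [List.append_nil, List.append_assoc]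
    conv_rhs => rw [← List.take_append_drop d W2]
    simp only [List.append_assoc]
  rw [this]
  exact hw.inn

open Classical in
/-- **the covering**: a word with a good start whose rest has a rich factor -/
lemma covL {κ η : ℝ} {C b n m E : ℕ} {z : Pt} {S R : List Bool} (hb : b ≠ 0) (hκ : 0 < κ) (hη : η ≤ κ / 8) (h8 : 8 ≤ κ * Ub b)
    (hm : 2 * C ≤ 2 ^ m) (hE : 2 * C ≤ E) (hS : S ∈ NPR.GS η E b) (hL : S ++ R ∈ SA) (hn : (S ++ R).length = n)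
    (hz : TIW.en (S ++ R) = z) (hR : R ∉ Nz κ C b) {D : ℕ → ℕ} (hD : ∀ J, 2 ^ (b + (J + 1)) ≤ D J) :
    κ * Ub b / 8 ≤ (nD (D m) (PL η E b n z (B0 b (m + 1))) (S ++ R) : ℝ) ∨
      ∃ s : ℕ, κ * Ub b / 8 ≤ (nD (D (m + s + 1)) (PL η E b n z (B1 κ C b (m + s + 2))) (S ++ R) : ℝ) := by
  have hU := TS.Ub_pos b
  obtain ⟨X, Z, Y, hXY, -, hZ, hY⟩ := neW.last κ C b R hR
  obtain ⟨W1, W2, W3, rfl, hw⟩ := T2.Zd_of hZ
  obtain ⟨h, hh⟩ : ∃ h : ℕ, h = ⌈κ * Ub b / 8⌉₊ := ⟨_, rfl⟩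
  have hh1 : 1 ≤ h := by
    rw [hh, Nat.one_le_iff_ne_zero, Nat.ne_zero_iff_zero_lt, Nat.ceil_pos]
    positivity
  have hq : κ * Ub b / 8 ≤ (h : ℝ) := by
    rw [hh]
    exact Nat.le_ceil _
  have hh2 : (h : ℝ) < κ * Ub b / 8 + 1 := by
    rw [hh]
    exact Nat.ceil_lt_add_one (by positivity)
  have hηh : η * Ub b ≤ (h : ℝ) := by
    calc η * Ub b ≤ κ / 8 * Ub b := mul_le_mul_of_nonneg_right hη hU.le
      _ = κ * Ub b / 8 := by ring
      _ ≤ h := hq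
  have h4 : 4 * h ≤ nc W2 := by
    have h5 : (4 : ℝ) * h ≤ nc W2 := by
      have := hw.n2
      linarith
    exact_mod_cast h5
  obtain ⟨S1, hS1, hc1⟩ := T2.card_ix neW hh1 h4
  obtain ⟨p, hp⟩ : ∃ p : ℕ, p = (S ++ (X ++ W1)).length := ⟨_, rfl⟩
  have hpart : ∀ c ∈ S1, p + c ≤ (S ++ R).length ∧ (S ++ R).take (p + c) = S ++ (X ++ (W1 ++ W2.take c)) ∧
      (S ++ R).drop (p + c) = W2.drop c ++ (W3 ++ Y) ∧ (S ++ R).take (p + c) ∈ TwoG η E b ∧
      (S ++ R).drop (p + c) ∈ SA ∧ rev ((S ++ R).drop (p + c)) ∈ GT b η := by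
    intro c hc
    obtain ⟨e1, e2, e3⟩ := hc1 c hc
    obtain ⟨a1, a2, a3⟩ := Nf.mem_cz.1 e1
    have e4 : S ++ R = (S ++ (X ++ (W1 ++ W2.take c))) ++ (W2.drop c ++ (W3 ++ Y)) := by
      rw [hXY]
      conv_lhs => rw [← List.take_append_drop c W2]
      simp only [List.append_assoc]
    have e5 : (S ++ (X ++ (W1 ++ W2.take c))).length = p + c := by
      rw [hp]
      simp only [List.length_append, List.length_take]
      omega
    have e6 : (S ++ R).take (p + c) = S ++ (X ++ (W1 ++ W2.take c)) := by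
      rw [e4]
      exact List.take_left' e5
    have e7 : (S ++ R).drop (p + c) = W2.drop c ++ (W3 ++ Y) := by
      rw [e4]
      exact List.drop_left' e5
    have hs := Nf.rank_sum neW e1
    have g1 : W2.drop c ++ W3 ∈ NPR.GS η E b := hw.gs hb e1 hηh (by omega) hE
    have g2 : W1 ++ W2.take c ∈ NPR.GE η E b := hw.ge hb e1 hηh e2 (by omega)
    refine ⟨?_, e6, e7, ?_, SA_drop hL _, ?_⟩
    · rw [e4, List.length_append, e5]
      omega
    · rw [e6]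
      exact ⟨S, hS, X, _, g2, rfl⟩
    · rw [e7]
      exact St_GT hb ⟨_, g1, Y, by rw [List.append_assoc]⟩
  have hcnt : ∀ (J : ℕ) (BB : Set (List Bool)), In (2 ^ (b + J)) Y → 2 * C ≤ 2 ^ J →
      (∀ c ∈ S1, In (2 ^ (b + (J + 1))) (W2.drop c ++ (W3 ++ Y)) → W2.drop c ++ (W3 ++ Y) ∈ BB) →
      κ * Ub b / 8 ≤ (nD (D J) (PL η E b n z BB) (S ++ R) : ℝ) := by
    intro J BB hJ hCJ hBB
    refine hq.trans ?_
    have h1 : (S1.image fun c => p + c).card = h := by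
      rw [card_image_of_injective _ (fun x y h => Nat.add_left_cancel h : Function.Injective fun c => p + c), hS1]
    rw [← h1]
    norm_cast
    refine Nf.nD_ge fun q hq' => ?_
    obtain ⟨c, hc, rfl⟩ := mem_image.1 hq'
    obtain ⟨f1, f2, f3, f4, f5, f6⟩ := hpart c hc
    have f7 := in_cutpart hw hCJ hJ (hc1 c hc).1
    refine ⟨f1, ⟨f4, ⟨f5, f6⟩, ?_, ?_, ?_⟩, ?_⟩
    · rw [f3]
      exact hBB c hc f7
    · rw [List.take_append_drop, hn]
    · rw [List.take_append_drop, hz]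
    · rw [f3]
      exact Nf.in_mono f7 (hD J)
  have hex : ∃ J, In (2 ^ (b + J)) Y := by
    obtain ⟨J, hJ⟩ := In_len Y
    exact ⟨J, hJ b⟩
  rcases le_or_gt (Nat.find hex) m with hJ | hJ
  · left
    have h5 : In (2 ^ (b + m)) Y := Nf.in_mono (Nat.find_spec hex) (Nat.pow_le_pow_right (by norm_num) (by omega))
    exact hcnt m _ h5 hm fun c _ h6 => h6
  · right
    obtain ⟨J, hJd⟩ : ∃ J, J = Nat.find hex := ⟨_, rfl⟩
    have h5 := Nat.find_spec hex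
    have h6 := Nat.find_min hex (m := Nat.find hex - 1) (by omega)
    rw [← hJd] at h5 h6 hJ
    have h7 : ¬ In (2 ^ (J - 1) * 2 ^ b) Y := by
      rwa [← pow_add, add_comm (J - 1) b]
    refine ⟨J - m - 1, ?_⟩
    rw [show m + (J - m - 1) + 2 = J + 1 by omega, show m + (J - m - 1) + 1 = J by omega]
    refine hcnt J _ h5 (hm.trans (Nat.pow_le_pow_right (by norm_num) (by omega))) fun c hc h8 => ⟨h8, 2 ^ (J - 1), ?_, ?_⟩
    · rw [← pow_add]
      exact Nat.pow_le_pow_right (by norm_num) (by omega)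
    · exact ⟨W2.drop c ++ W3, Y, [], by rw [List.append_nil, List.append_assoc], hY, h7⟩


/-! ### the mass of the words whose rest has a rich factor -/

/-- the words with a good start, exact length and end, the rest with a rich factor -/
def LR (κ : ℝ) (C : ℕ) (η : ℝ) (E b n : ℕ) (z : Pt) : Set (List Bool) :=
  {L | L ∈ SA ∧ L.length = n ∧ TIW.en L = z ∧ ∃ S ∈ NPR.GS η E b, ∃ R, L = S ++ R ∧ R ∉ Nz κ C b}

lemma U_big {κ : ℝ} (hκ : 0 < κ) : ∃ bU : ℕ, ∀ b, bU ≤ b → 8 ≤ κ * Ub b := by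
  obtain ⟨B, hB⟩ := Ub_big
  obtain ⟨n, hn⟩ := exists_nat_ge (8 / κ)
  refine ⟨B * n, fun b hb => ?_⟩
  have h1 := hB b n hb
  have h2 : (n : ℝ) ≤ 8 ^ n := by
    exact_mod_cast (Nat.lt_pow_self (by norm_num : 1 < 8)).le
  have h3 : 8 / κ ≤ Ub b := hn.trans (h2.trans h1)
  rw [div_le_iff₀ hκ] at h3
  linarith

/-- **the words whose rest has a rich factor** -/
theorem lR_mass {κ η : ℝ} {C E : ℕ} (hκ : 0 < κ) (hη0 : 0 < η) (hη : η ≤ κ / 8) (hE : 2 * C ≤ E) (hR : RegZ κ C) :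
    ∃ (K : ℝ) (b0 : ℕ), 0 < K ∧ ∀ (n b k : ℕ) (z : Pt), b0 ≤ b → TIW.hn z ≤ 2 ^ (b + k) →
      gf (LR κ C η E b n z) * Xb b ≤ ENNReal.ofReal (K * (pr n (b + k) / (4 ^ b * ml b))) := by
  obtain ⟨J0, b4, hYB⟩ := yPtBad hR η 5 2 hη0
  obtain ⟨m, hm⟩ : ∃ m : ℕ, m = J0 + 2 * C := ⟨_, rfl⟩
  have hmC : 2 * C ≤ 2 ^ m := by
    have := (Nat.lt_two_pow_self (n := m)).le
    omega
  obtain ⟨Cy, b1, hCy, hY⟩ := yPt η (m + 1) hη0
  obtain ⟨D, hD, hT1⟩ := t1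
  obtain ⟨C1, hC1, hT2⟩ := tipF2s η E hη0
  obtain ⟨S0, hS0, hsum⟩ := sum_sq
  obtain ⟨bU, hbU⟩ := U_big hκ
  have hTT : ∀ b i n i' : ℕ, b ≤ i → i ≤ i' → gf (F n i' ∩ TwoG η E b) * Xb b ^ 2 ≤ ENNReal.ofReal (C1 * D * pr n i') := by
    intro b i n i' h1 h2
    exact hT2 D n i' b hD.le (fun n' i'' _ _ => hT1 n' i'') (by omega)
  refine ⟨8 * (16 * (C1 * D) * 16 ^ (m + 1 + 3) * S0) * Cy / κ + 8 * (16 * (C1 * D) * 16 ^ 3 * S0) / κ + 1,
    b1 + b4 + bU + 1, by positivity, fun n b k z hb hz => ?_⟩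
  have hb0 : b ≠ 0 := by omega
  have h8 := hbU b (by omega)
  have hU := TS.Ub_pos b
  have hml := ml_pos b
  have hp := pr_pos n (b + k)
  obtain ⟨i, hi⟩ : ∃ i, i = b + k := ⟨_, rfl⟩
  rw [← hi] at hz hp ⊢
  obtain ⟨ρ, hρ⟩ : ∃ ρ, ρ = PL η E b n z (B0 b (m + 1)) := ⟨_, rfl⟩
  obtain ⟨ρs, hρs⟩ : ∃ ρs : ℕ → List Bool → List Bool → Prop, ρs = fun s => PL η E b n z (B1 κ C b (m + s + 2)) := ⟨_, rfl⟩
  have hcov : LR κ C η E b n z ⊆
      {L | L ∈ Fp n i ∧ κ * Ub b / 8 ≤ (nD (2 ^ (i + (m + 1))) ρ L : ℝ)} ∪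
        ⋃ s : ℕ, {L | L ∈ Fp n i ∧ κ * Ub b / 8 ≤ (nD (2 ^ ((i + (m + s + 2)) + 0)) (ρs s) L : ℝ)} := by
    rintro L ⟨h1, h2, h3, S, hS, R, rfl, h4⟩
    have hFp : S ++ R ∈ Fp n i := by
      refine ⟨h1, h2.ge, ?_, ?_⟩
      · rw [h2]
        have := ml_pos i
        linarith
      · rw [h3]
        linarith
    rcases covL (D := fun J => 2 ^ (i + (J + 1))) hb0 hκ hη h8 hmC hE hS h1 h2 h3 h4
      (fun J => Nat.pow_le_pow_right (by norm_num) (by omega)) with h5 | ⟨s, h5⟩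
    · left
      rw [hρ]
      exact ⟨hFp, h5⟩
    · refine Or.inr (Set.mem_iUnion.2 ⟨s, hFp, ?_⟩)
      rw [hρs]
      exact h5
  have hcan : ∀ {μ : ℝ≥0∞} {x y a : ℝ}, 0 ≤ a → 0 ≤ y → 0 ≤ x → μ * (ENNReal.ofReal (κ * Ub b / 8) * Xb b ^ 2) ≤
      ENNReal.ofReal a * (ENNReal.ofReal y * Xb b) → a * y / (κ * Ub b / 8) ≤ x → μ * Xb b ≤ ENNReal.ofReal x := by
    intro μ x y a ha hy _ h h'
    have e1 : (μ * Xb b) * (ENNReal.ofReal (κ * Ub b / 8) * Xb b) ≤ ENNReal.ofReal a * (ENNReal.ofReal y * Xb b) := by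
      refine le_trans (le_of_eq ?_) h
      ring
    exact (cancelF (by positivity) ha e1).trans (ENNReal.ofReal_le_ofReal h')
  have hfst : gf {L | L ∈ Fp n i ∧ κ * Ub b / 8 ≤ (nD (2 ^ (i + (m + 1))) ρ L : ℝ)} * Xb b ≤
      ENNReal.ofReal (8 * (16 * (C1 * D) * 16 ^ (m + 1 + 3) * S0) * Cy / κ * (pr n i / (4 ^ b * ml b))) := by
    have h5 := exL (TT := TwoG η E b) (X := Xb b ^ 2) (C := C1 * D) (by positivity) hsum (i := i)
      (fun n i' h => hTT b i n i' (by omega) h) (n := n) (j := i) (c := m + 1) le_rfl (ρ := ρ)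
      (x := ENNReal.ofReal (Cy * Ub b / (4 ^ b * ml b)) * Xb b) (q := κ * Ub b / 8)
      (fun A Y h => by rw [hρ] at h; exact h.1) (fun A => ?_)
    · refine hcan (by positivity) (by positivity) (by positivity) h5 (le_of_eq ?_)
      field_simp
    · obtain ⟨w, hw⟩ := ex_w A z
      have h6 := hY b (n - A.length) w (by omega)
      have h6' : gf {Y | Y ∈ SA ∧ rev Y ∈ GT b η ∧ In (2 ^ (b + (m + 1))) Y ∧ Y.length = n - A.length ∧ TIW.en Y = w} ≤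
          ENNReal.ofReal (Cy * Ub b / (4 ^ b * ml b)) * Xb b * ENNReal.ofReal (ARM.wt n A.length i) := by
        refine h6.trans ?_
        rw [ENNReal.ofReal_mul (by positivity), mul_right_comm]
        refine mul_le_mul' le_rfl (ENNReal.ofReal_le_ofReal ?_)
        unfold ARM.wt
        have hmi := ml_pos i
        refine Real.rpow_le_rpow_of_nonpos (by positivity) ?_ (by norm_num)
        have : ((n - A.length : ℕ) : ℝ) / ml i ≤ ((n - A.length : ℕ) : ℝ) / ml b :=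
          div_le_div_of_nonneg_left (by positivity) hml (ml_mono (by omega))
        linarith
      refine (gf_mono ?_).trans h6'
      rintro Y ⟨y1, -, -⟩
      rw [hρ] at y1
      obtain ⟨-, ⟨y3, y4⟩, y2, y5, y6⟩ := y1
      refine ⟨y3, y4, y2, ?_, hw Y y6⟩
      rw [List.length_append] at y5
      omega
  have hsnd : ∀ s : ℕ, gf {L | L ∈ Fp n i ∧ κ * Ub b / 8 ≤ (nD (2 ^ ((i + (m + s + 2)) + 0)) (ρs s) L : ℝ)} * Xb b ≤
      ENNReal.ofReal ((4 * (16 * (C1 * D) * 16 ^ 3 * S0) / κ * (pr n i / (4 ^ b * ml b))) * (1 / 2) ^ s) := by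
    intro s
    obtain ⟨J, hJ⟩ : ∃ J, J = m + s + 2 := ⟨_, rfl⟩
    rw [← hJ]
    have hpJ := pr_pos n (i + J)
    have h5 := exL (TT := TwoG η E b) (X := Xb b ^ 2) (C := C1 * D) (by positivity) hsum (i := i + J)
      (fun n i' h => hTT b (i + J) n i' (by omega) h) (n := n) (j := i) (c := 0) (by omega) (ρ := ρs s)
      (x := ENNReal.ofReal (Ub b / ((2 : ℝ) ^ (5 * J) * (4 ^ b * ml b))) * Xb b) (q := κ * Ub b / 8)
      (fun A Y h => by rw [hρs] at h; exact h.1) (fun A => ?_)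
    · refine hcan (by positivity) (by positivity) (by positivity) h5 ?_
      have h7 := pr_up16 n i J
      have h8' : (2 : ℝ) ^ (5 * J) = 32 ^ J := by
        rw [pow_mul]
        norm_num
      have h9 : (16 : ℝ) ^ J / 32 ^ J = (1 / 2) ^ J := by
        rw [← div_pow]
        norm_num
      have h10 : (1 / 2 : ℝ) ^ J ≤ 1 / 2 * (1 / 2) ^ s := by
        rw [← pow_succ']
        exact pow_le_pow_of_le_one (by norm_num) (by norm_num) (by omega)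
      rw [h8', div_le_iff₀ (by positivity)]
      calc 16 * (C1 * D) * 16 ^ (0 + 3) * S0 * pr n (i + J) * (Ub b / (32 ^ J * (4 ^ b * ml b)))
          ≤ 16 * (C1 * D) * 16 ^ (0 + 3) * S0 * (16 ^ J * pr n i) * (Ub b / (32 ^ J * (4 ^ b * ml b))) := by gcongr
        _ = 8 * (16 * (C1 * D) * 16 ^ 3 * S0) / κ * (pr n i / (4 ^ b * ml b)) * (16 ^ J / 32 ^ J) * (κ * Ub b / 8) := by
            field_simp
        _ = 8 * (16 * (C1 * D) * 16 ^ 3 * S0) / κ * (pr n i / (4 ^ b * ml b)) * (1 / 2) ^ J * (κ * Ub b / 8) := by rw [h9]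
        _ ≤ 8 * (16 * (C1 * D) * 16 ^ 3 * S0) / κ * (pr n i / (4 ^ b * ml b)) * (1 / 2 * (1 / 2) ^ s) * (κ * Ub b / 8) := by
            gcongr
        _ = _ := by ring
    · obtain ⟨w, hw⟩ := ex_w A z
      have h6 := hYB b J (n - A.length) w (by omega) (by omega)
      have h6' : gf {Y | Y ∈ SA ∧ rev Y ∈ GT b η ∧ In (2 ^ (b + J)) Y ∧ (∃ n : ℕ, 2 ^ J ≤ n * 2 ^ 2 ∧ Y ∈ Lz κ C b n) ∧
          Y.length = n - A.length ∧ TIW.en Y = w} ≤
          ENNReal.ofReal (Ub b / ((2 : ℝ) ^ (5 * J) * (4 ^ b * ml b))) * Xb b * ENNReal.ofReal (ARM.wt n A.length (i + J)) := by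
        refine h6.trans ?_
        rw [ENNReal.ofReal_mul (by positivity), mul_right_comm]
        refine mul_le_mul' le_rfl (ENNReal.ofReal_le_ofReal ?_)
        unfold ARM.wt
        have hmJ := ml_pos (i + J)
        refine Real.rpow_le_rpow_of_nonpos (by positivity) ?_ (by norm_num)
        have : ((n - A.length : ℕ) : ℝ) / ml (i + J) ≤ ((n - A.length : ℕ) : ℝ) / ml b :=
          div_le_div_of_nonneg_left (by positivity) hml (ml_mono (by omega))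
        linarith
      refine (gf_mono ?_).trans h6'
      rintro Y ⟨y1, -, -⟩
      rw [hρs] at y1
      obtain ⟨-, ⟨y3, y4⟩, y7, y5, y6⟩ := y1
      rw [← hJ] at y7
      refine ⟨y3, y4, y7.1, y7.2, ?_, hw Y y6⟩
      rw [List.length_append] at y5
      omega
  calc gf (LR κ C η E b n z) * Xb b
      ≤ (gf {L | L ∈ Fp n i ∧ κ * Ub b / 8 ≤ (nD (2 ^ (i + (m + 1))) ρ L : ℝ)} +
          ∑' s : ℕ, gf {L | L ∈ Fp n i ∧ κ * Ub b / 8 ≤ (nD (2 ^ ((i + (m + s + 2)) + 0)) (ρs s) L : ℝ)}) * Xb b :=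
        mul_le_mul' ((gf_mono hcov).trans ((gf_union_le _ _).trans (add_le_add le_rfl (ENNReal.tsum_iUnion_le_tsum wE _))))
          le_rfl
    _ = gf {L | L ∈ Fp n i ∧ κ * Ub b / 8 ≤ (nD (2 ^ (i + (m + 1))) ρ L : ℝ)} * Xb b +
          ∑' s : ℕ, gf {L | L ∈ Fp n i ∧ κ * Ub b / 8 ≤ (nD (2 ^ ((i + (m + s + 2)) + 0)) (ρs s) L : ℝ)} * Xb b := by
        rw [add_mul, ENNReal.tsum_mul_right]
    _ ≤ _ := by
        refine (add_le_add hfst (ENNReal.tsum_le_tsum hsnd)).trans ?_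
        rw [tsum_half (by positivity), ← ENNReal.ofReal_add (by positivity) (by positivity)]
        refine ENNReal.ofReal_le_ofReal ?_
        have : 0 < pr n i / (4 ^ b * ml b) := by positivity
        calc _ = (8 * (16 * (C1 * D) * 16 ^ (m + 1 + 3) * S0) * Cy / κ + 8 * (16 * (C1 * D) * 16 ^ 3 * S0) / κ) *
              (pr n i / (4 ^ b * ml b)) := by ring
          _ ≤ _ := mul_le_mul_of_nonneg_right (by linarith) this.le


/-! ### the words whose rest has no rich factor -/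

/-- the words with a good start, exact length and end, the rest without a rich factor -/
def LN (κ : ℝ) (C : ℕ) (η : ℝ) (E b n : ℕ) (z : Pt) : Set (List Bool) :=
  {L | L ∈ SA ∧ L.length = n ∧ TIW.en L = z ∧ ∃ S ∈ NPR.GS η E b, ∃ R, L = S ++ R ∧ R ∈ Nz κ C b}

open Classical in
/-- **the words whose rest has no rich factor** -/
theorem lN_mass {κ η : ℝ} {C E : ℕ} (hη0 : 0 < η) (hR : RegZ κ C) :
    ∃ (K : ℝ) (b0 : ℕ), 0 < K ∧ ∀ (n b : ℕ) (z : Pt), b0 ≤ b →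
      gf (LN κ C η E b n z) ≤ ENNReal.ofReal (K * (Ub b / (4 ^ b * ml b)) * (1 + (n : ℝ) / ml b) ^ (-(4 : ℝ))) * Xb b := by
  obtain ⟨J0, b4, hYB⟩ := yPtBad hR η 1 3 hη0
  obtain ⟨m, hm⟩ : ∃ m : ℕ, m = J0 + E + 3 := ⟨_, rfl⟩
  obtain ⟨Cy, b1, hCy, hY⟩ := yPt η m hη0
  refine ⟨Cy + 1, b1 + b4 + 1, by positivity, fun n b z hb => ?_⟩
  have hb0 : b ≠ 0 := by omega
  have hU := TS.Ub_pos b
  have hml := ml_pos b
  have hcov : LN κ C η E b n z ⊆
      {Y | Y ∈ SA ∧ rev Y ∈ GT b η ∧ In (2 ^ (b + m)) Y ∧ Y.length = n ∧ TIW.en Y = z} ∪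
        ⋃ s : ℕ, {Y | Y ∈ SA ∧ rev Y ∈ GT b η ∧ In (2 ^ (b + (m + s + 1))) Y ∧
          (∃ N : ℕ, 2 ^ (m + s + 1) ≤ N * 2 ^ 3 ∧ Y ∈ Lz κ C b N) ∧ Y.length = n ∧ TIW.en Y = z} := by
    rintro L ⟨h1, h2, h3, S, hS, R, rfl, h4⟩
    have hg : rev (S ++ R) ∈ GT b η := St_GT hb0 ⟨S, hS, R, rfl⟩
    have hSE : In (E * 2 ^ b) S := by
      obtain ⟨-, -, -, -, -, -, -, -, h⟩ := (T2.mem_GS hb0).1 hS
      exact h
    have hex : ∃ J, In (2 ^ (b + J)) (S ++ R) := by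
      obtain ⟨J, hJ⟩ := In_len (S ++ R)
      exact ⟨J, hJ b⟩
    rcases le_or_gt (Nat.find hex) m with hJ | hJ
    · left
      exact ⟨h1, hg, Nf.in_mono (Nat.find_spec hex) (Nat.pow_le_pow_right (by norm_num) (by omega)), h2, h3⟩
    · right
      obtain ⟨J, hJd⟩ : ∃ J, J = Nat.find hex := ⟨_, rfl⟩
      have h5 := Nat.find_spec hex
      have h6 := Nat.find_min hex (m := Nat.find hex - 1) (by omega)
      rw [← hJd] at h5 h6 hJ
      refine Set.mem_iUnion.2 ⟨J - m - 1, ?_⟩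
      rw [show m + (J - m - 1) + 1 = J by omega]
      refine ⟨h1, hg, h5, ⟨2 ^ (J - 3), ?_, S, R, [], by rw [List.append_nil], h4, fun hI => h6 ?_⟩, h2, h3⟩
      · rw [← pow_add]
        exact Nat.pow_le_pow_right (by norm_num) (by omega)
      · refine Nf.in_mono (T2.in_app2 hSE hI) ?_
        have e1 : E ≤ 2 ^ (J - 3) := (show E ≤ J - 3 by omega).trans Nat.lt_two_pow_self.le
        have e2 : 2 ^ (b + (J - 1)) = 4 * (2 ^ (J - 3) * 2 ^ b) := by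
          rw [show b + (J - 1) = 2 + ((J - 3) + b) by omega, pow_add, pow_add]
          norm_num
        have e3 := Nat.mul_le_mul_right (2 ^ b) e1
        rw [e2]
        omega
  have hfst := hY b n z (by omega)
  have hsnd : ∀ s : ℕ, gf {Y | Y ∈ SA ∧ rev Y ∈ GT b η ∧ In (2 ^ (b + (m + s + 1))) Y ∧
      (∃ N : ℕ, 2 ^ (m + s + 1) ≤ N * 2 ^ 3 ∧ Y ∈ Lz κ C b N) ∧ Y.length = n ∧ TIW.en Y = z} ≤
      ENNReal.ofReal ((1 / 2 * (Ub b / (4 ^ b * ml b)) * (1 + (n : ℝ) / ml b) ^ (-(4 : ℝ))) * (1 / 2) ^ s) * Xb b := by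
    intro s
    obtain ⟨J, hJ⟩ : ∃ J, J = m + s + 1 := ⟨_, rfl⟩
    rw [← hJ]
    refine (hYB b J n z (by omega) (by omega)).trans (mul_le_mul' (ENNReal.ofReal_le_ofReal ?_) le_rfl)
    have h10 : ((2 : ℝ) ^ (1 * J))⁻¹ ≤ 1 / 2 * (1 / 2) ^ s := by
      rw [← pow_succ', one_div, inv_pow]
      exact inv_anti₀ (by positivity) (pow_le_pow_right₀ (by norm_num) (by omega))
    have hw : 0 ≤ (1 + (n : ℝ) / ml b) ^ (-(4 : ℝ)) := by positivity
    calc Ub b / ((2 : ℝ) ^ (1 * J) * (4 ^ b * ml b)) * (1 + (n : ℝ) / ml b) ^ (-(4 : ℝ))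
        = (((2 : ℝ) ^ (1 * J))⁻¹ * (Ub b / (4 ^ b * ml b))) * (1 + (n : ℝ) / ml b) ^ (-(4 : ℝ)) := by
          congr 1
          field_simp
      _ ≤ ((1 / 2 * (1 / 2) ^ s) * (Ub b / (4 ^ b * ml b))) * (1 + (n : ℝ) / ml b) ^ (-(4 : ℝ)) := by gcongr
      _ = _ := by ring
  refine (gf_mono hcov).trans ((gf_union_le _ _).trans ((add_le_add hfst ((ENNReal.tsum_iUnion_le_tsum wE _).trans
    (ENNReal.tsum_le_tsum hsnd))).trans ?_))
  rw [ENNReal.tsum_mul_right, tsum_half (by positivity), ← add_mul, ← ENNReal.ofReal_add (by positivity) (by positivity)]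
  refine mul_le_mul' (ENNReal.ofReal_le_ofReal (le_of_eq ?_)) le_rfl
  field_simp

/-! ### the theorem -/

/-- the predicted mass at the level b + k -/
lemma pr_lev' (n b k : ℕ) : pr n (b + k) ≤
    4 * 16 ^ k * ((2 : ℝ) ^ ((43 / 24 : ℝ) * (b : ℝ)) * (1 + (n : ℝ) / ml b) ^ (-(3 / 2) : ℝ)) := by
  have hm := ml_pos b
  refine (pr_up16 n b k).trans ?_
  unfold pr
  have h0 : 0 < max (n : ℝ) (ml b) := lt_of_lt_of_le hm (le_max_right _ _)
  have h1 : 1 + (n : ℝ) / ml b ≤ 2 * (max (n : ℝ) (ml b) / ml b) := by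
    have h2 : (n : ℝ) / ml b ≤ max (n : ℝ) (ml b) / ml b := div_le_div_of_nonneg_right (le_max_left _ _) hm.le
    have h3 : 1 ≤ max (n : ℝ) (ml b) / ml b := by
      rw [le_div_iff₀ hm, one_mul]
      exact le_max_right _ _
    linarith
  have h2 : (ml b / max (n : ℝ) (ml b)) ^ (3 / 2 : ℝ) = (max (n : ℝ) (ml b) / ml b) ^ (-(3 / 2) : ℝ) := by
    rw [Real.rpow_neg (by positivity), ← Real.inv_rpow (by positivity), inv_div]
  have h3 : (max (n : ℝ) (ml b) / ml b) ^ (-(3 / 2) : ℝ) ≤ 4 * (1 + (n : ℝ) / ml b) ^ (-(3 / 2) : ℝ) := by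
    have h4 : (2 * (max (n : ℝ) (ml b) / ml b)) ^ (-(3 / 2) : ℝ) ≤ (1 + (n : ℝ) / ml b) ^ (-(3 / 2) : ℝ) :=
      Real.rpow_le_rpow_of_nonpos (by positivity) h1 (by norm_num)
    rw [Real.mul_rpow (by norm_num) (by positivity)] at h4
    have h5 : (1 : ℝ) ≤ 4 * (2 : ℝ) ^ (-(3 / 2) : ℝ) := by
      have h6 : (2 : ℝ) ^ (-(2 : ℝ)) ≤ (2 : ℝ) ^ (-(3 / 2) : ℝ) := Real.rpow_le_rpow_of_exponent_le (by norm_num) (by norm_num)
      have h7 : (2 : ℝ) ^ (-(2 : ℝ)) = 1 / 4 := by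
        rw [Real.rpow_neg (by norm_num), show (2 : ℝ) = ((2 : ℕ) : ℝ) by norm_num, Real.rpow_natCast]
        norm_num
      rw [h7] at h6
      linarith
    have h8 : 0 ≤ (max (n : ℝ) (ml b) / ml b) ^ (-(3 / 2) : ℝ) := by positivity
    calc (max (n : ℝ) (ml b) / ml b) ^ (-(3 / 2) : ℝ) = 1 * (max (n : ℝ) (ml b) / ml b) ^ (-(3 / 2) : ℝ) := (one_mul _).symm
      _ ≤ (4 * (2 : ℝ) ^ (-(3 / 2) : ℝ)) * (max (n : ℝ) (ml b) / ml b) ^ (-(3 / 2) : ℝ) := mul_le_mul_of_nonneg_right h5 h8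
      _ = 4 * ((2 : ℝ) ^ (-(3 / 2) : ℝ) * (max (n : ℝ) (ml b) / ml b) ^ (-(3 / 2) : ℝ)) := by ring
      _ ≤ _ := mul_le_mul_of_nonneg_left h4 (by norm_num)
  rw [h2]
  have h9 : (0 : ℝ) < (2 : ℝ) ^ ((43 / 24 : ℝ) * (b : ℝ)) := by positivity
  calc (16 : ℝ) ^ k * ((2 : ℝ) ^ ((43 / 24 : ℝ) * (b : ℝ)) * (max (n : ℝ) (ml b) / ml b) ^ (-(3 / 2) : ℝ))
      ≤ 16 ^ k * ((2 : ℝ) ^ ((43 / 24 : ℝ) * (b : ℝ)) * (4 * (1 + (n : ℝ) / ml b) ^ (-(3 / 2) : ℝ))) := by gcongr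
    _ = _ := by ring

/-- **row E1, all lengths**: words with a good start of the scale b, exact length y and exact end z, |z| <= 2 ^ (b + k) -/
def LoopU : Prop := ∀ (η : ℝ) (E : ℕ), 0 < η → ∃ (B : ℝ) (b0 : ℕ), 1 ≤ B ∧ ∀ (b k y : ℕ) (z : Pt), b0 ≤ b →
  TIW.hn z ≤ 2 ^ (b + k) → gf {Y | Y ∈ SA ∧ Y ∈ ARM.St η E b ∧ Y.length = y ∧ TIW.en Y = z} ≤
    ENNReal.ofReal (B ^ (k + 1) * (Ub b / (4 ^ b * ml b)) * (1 + (y : ℝ) / ml b) ^ (-(3 / 2) : ℝ)) * Xb b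

/-- **row E1, all lengths** -/
theorem loopU : LoopU := by
  intro η E hη
  obtain ⟨κ, hκ, C, -, hR⟩ := TIP.regZ_all
  obtain ⟨η', hη'⟩ : ∃ η' : ℝ, η' = min η (κ / 8) := ⟨_, rfl⟩
  have hη0 : 0 < η' := by
    rw [hη']
    exact lt_min hη (by positivity)
  have hη1 : η' ≤ η := by rw [hη']; exact min_le_left _ _
  have hη2 : η' ≤ κ / 8 := by rw [hη']; exact min_le_right _ _
  obtain ⟨E', hE'⟩ : ∃ E' : ℕ, E' = E + 2 * C := ⟨_, rfl⟩
  obtain ⟨K1, b1, hK1, h1⟩ := lR_mass (E := E') hκ hη0 hη2 (by omega) hR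
  obtain ⟨K2, b2, hK2, h2⟩ := lN_mass (κ := κ) (C := C) (E := E') hη0 hR
  obtain ⟨c, hc, hFK⟩ := NPR.Fast.FK_low
  have hq0 : 0 ≤ 4 * K1 / c := by positivity
  refine ⟨16 + 4 * K1 / c + K2, b1 + b2 + 1, by linarith, fun b k y z hb hz => ?_⟩
  have hb0 : b ≠ 0 := by omega
  have hU := TS.Ub_pos b
  have hml := ml_pos b
  have hXz : Xb b ≠ 0 := Xb_ne_zero b
  have hXt : Xb b ≠ ∞ := Xb_ne_top b
  obtain ⟨ω, hω⟩ : ∃ ω : ℝ, ω = (1 + (y : ℝ) / ml b) ^ (-(3 / 2) : ℝ) := ⟨_, rfl⟩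
  have hω0 : 0 < ω := by rw [hω]; positivity
  have hcov : {Y | Y ∈ SA ∧ Y ∈ ARM.St η E b ∧ Y.length = y ∧ TIW.en Y = z} ⊆ LR κ C η' E' b y z ∪ LN κ C η' E' b y z := by
    rintro L ⟨g1, ⟨S, hS, R, rfl⟩, g3, g4⟩
    have hS' : S ∈ NPR.GS η' E' b := gs_mono hb0 hη1 (by omega) hS
    by_cases h : R ∈ Nz κ C b
    · exact Or.inr ⟨g1, g3, g4, S, hS', R, rfl, h⟩
    · exact Or.inl ⟨g1, g3, g4, S, hS', R, rfl, h⟩
  have h3 : gf (LR κ C η' E' b y z) ≤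
      ENNReal.ofReal (4 * K1 / c * 16 ^ k * (Ub b / (4 ^ b * ml b)) * ω) * Xb b := by
    have h4 := h1 y b k z (by omega) hz
    refine (ENNReal.mul_le_mul_iff_left hXz hXt).1 (h4.trans ?_)
    have h5 := hFK b
    have h6 := pr_lev' y b k
    rw [← hω] at h6
    have e1 : K1 * (pr y (b + k) / (4 ^ b * ml b)) ≤
        (4 * K1 / c * 16 ^ k * ω / (4 ^ b * ml b)) * (c * 2 ^ (43 / 24 * (b : ℝ))) := by
      calc K1 * (pr y (b + k) / (4 ^ b * ml b)) ≤ K1 * (4 * 16 ^ k * ((2 : ℝ) ^ ((43 / 24 : ℝ) * (b : ℝ)) * ω) /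
            (4 ^ b * ml b)) := by gcongr
        _ = _ := by
          field_simp
    calc ENNReal.ofReal (K1 * (pr y (b + k) / (4 ^ b * ml b)))
        ≤ ENNReal.ofReal ((4 * K1 / c * 16 ^ k * ω / (4 ^ b * ml b)) * (c * 2 ^ (43 / 24 * (b : ℝ)))) :=
          ENNReal.ofReal_le_ofReal e1
      _ = ENNReal.ofReal (4 * K1 / c * 16 ^ k * ω / (4 ^ b * ml b)) * ENNReal.ofReal (c * 2 ^ (43 / 24 * (b : ℝ))) :=
          ENNReal.ofReal_mul (by positivity)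
      _ ≤ ENNReal.ofReal (4 * K1 / c * 16 ^ k * ω / (4 ^ b * ml b)) * NPR.FK b := mul_le_mul' le_rfl h5
      _ = _ := by
          unfold NPR.FK
          rw [pow_two, ← mul_assoc, ← mul_assoc, ← ENNReal.ofReal_mul (by positivity)]
          congr 3
          ring
  have h7 : gf (LN κ C η' E' b y z) ≤ ENNReal.ofReal (K2 * (Ub b / (4 ^ b * ml b)) * ω) * Xb b := by
    refine (h2 y b z (by omega)).trans (mul_le_mul' (ENNReal.ofReal_le_ofReal ?_) le_rfl)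
    refine mul_le_mul_of_nonneg_left ?_ (by positivity)
    rw [hω]
    refine Real.rpow_le_rpow_of_exponent_le ?_ (by norm_num)
    have : 0 ≤ (y : ℝ) / ml b := by positivity
    linarith
  refine (gf_mono hcov).trans ((gf_union_le _ _).trans ((add_le_add h3 h7).trans ?_))
  rw [← add_mul, ← ENNReal.ofReal_add (by positivity) (by positivity)]
  refine mul_le_mul' (ENNReal.ofReal_le_ofReal ?_) le_rfl
  rw [← hω]
  obtain ⟨B, hB⟩ : ∃ B : ℝ, B = 16 + 4 * K1 / c + K2 := ⟨_, rfl⟩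
  have hq : 0 ≤ 4 * K1 / c := by positivity
  have h8 : 4 * K1 / c * 16 ^ k + K2 ≤ B ^ (k + 1) := by
    have h9 : (16 : ℝ) ^ k ≤ B ^ k := pow_le_pow_left₀ (by norm_num) (by rw [hB]; linarith) k
    have h10 : (1 : ℝ) ≤ B ^ k := one_le_pow₀ (by rw [hB]; linarith)
    calc 4 * K1 / c * 16 ^ k + K2 ≤ 4 * K1 / c * B ^ k + K2 * B ^ k := by nlinarith
      _ ≤ B * B ^ k := by nlinarith
      _ = B ^ (k + 1) := (pow_succ' _ _).symm
  rw [← hB]
  calc 4 * K1 / c * 16 ^ k * (Ub b / (4 ^ b * ml b)) * ω + K2 * (Ub b / (4 ^ b * ml b)) * ω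
      = (4 * K1 / c * 16 ^ k + K2) * ((Ub b / (4 ^ b * ml b)) * ω) := by ring
    _ ≤ B ^ (k + 1) * ((Ub b / (4 ^ b * ml b)) * ω) := mul_le_mul_of_nonneg_right h8 (by positivity)
    _ = _ := by ring

end ART

end HexObs
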