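import Pool.Agent.ART.NWinT
import Pool.Agent.ARM.NF

/-!
# ART, row T5 (helper84, after helper29's ARM.NF): many good cuts near the end, in the class FT

* **`nFT_of`**: `NFT` from `ExT`, the tail form of `YBad`, `YMassJ`, the words without a rich factor, `c0 ≤ D`.
-/

set_option autoImplicit false

namespace HexObs

namespace ART

open Finset TS SDN SIM NTA TIP TIP.Nf ARM

open scoped ENNReal

open Classical in
/-- **row N** -/
theorem nFT_of {κ : ℝ} {C : ℕ} (hκ : 0 < κ) (hE : ExT) (hY : YBadWSt κ C) (hN : NoRT κ C) (hL : HfLowT) (hYJ : YMassJ) :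
    NFT := by
  have hWB := wBT_of hκ hE hY hN hL
  intro ε hε
  obtain ⟨η, hηd⟩ : ∃ η : ℝ, η = κ / 8 := ⟨_, rfl⟩
  have hη : 0 < η := by rw [hηd]; positivity
  obtain ⟨C1, hC1, hE⟩ := hE η 0 hη
  obtain ⟨CU, κ0, r0, hCU, hκ0, hUA⟩ := uah6
  obtain ⟨CB, hCB, hB⟩ := b_tail
  obtain ⟨CJ, hCJ, hYJ⟩ := hYJ η 4 hη
  obtain ⟨m0, hWB⟩ := hWB (ε / 2) (by positivity)
  obtain ⟨m, hm⟩ : ∃ m : ℕ, m = max m0 (2 * C + 3) := ⟨_, rfl⟩
  have hm0 : m0 ≤ m := by rw [hm]; exact le_max_left _ _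
  have hmC : 2 * C + 3 ≤ m := by rw [hm]; exact le_max_right _ _
  have hm2 : 2 * C ≤ 2 ^ m := by
    have := (Nat.lt_two_pow_self (n := m)).le
    omega
  obtain ⟨b1, hWB⟩ := hWB m hm0
  -- the constants
  obtain ⟨M, hM⟩ : ∃ M : ℝ, M = CJ ^ (m + 1 + 1) := ⟨_, rfl⟩
  have hM0 : 0 < M := by rw [hM]; positivity
  obtain ⟨K1, hK1⟩ : ∃ K1 : ℝ, K1 = 16 * (CU + Real.sqrt (CU * CB)) * M * 8 / κ := ⟨_, rfl⟩
  have hK10 : 0 < K1 := by rw [hK1]; positivity
  obtain ⟨K2, hK2⟩ : ∃ K2 : ℝ, K2 = C1 * 64 ^ (m + 1) * K1 * 8 / κ := ⟨_, rfl⟩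
  have hK20 : 0 < K2 := by rw [hK2]; positivity
  obtain ⟨a, ha⟩ := ex_Ub (K := K2 ^ 2) (e := (ε / 2) ^ 2) (by positivity) (by positivity)
  obtain ⟨bU, hbU⟩ : ∃ bU : ℕ, ∀ b, bU ≤ b → 8 ≤ κ * Ub b := by
    obtain ⟨B, hB⟩ := Ub_big
    obtain ⟨n, hn⟩ := exists_nat_ge (8 / κ)
    refine ⟨B * n, fun b hb => ?_⟩
    have h1 := hB b n hb
    have h2 : (n : ℝ) ≤ 8 ^ n := by
      exact_mod_cast (Nat.lt_pow_self (by norm_num : 1 < 8)).le
    have h3 : 8 / κ ≤ Ub b := hn.trans (h2.trans h1)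
    rw [div_le_iff₀ hκ] at h3
    linarith
  refine ⟨η, κ0 / 2 ^ a, a, m + 1, b1 + bU + (a + r0 + 1), hη, by positivity, by omega, fun D n j hD hF hj hn => ?_⟩
  have h8 := hbU j (by omega)
  have hU := TS.Ub_pos j
  have hp := prT_nonneg n j
  -- the numbers
  obtain ⟨h, hh⟩ : ∃ h : ℕ, h = ⌈κ * Ub j / 8⌉₊ := ⟨_, rfl⟩
  have hh1 : 1 ≤ h := by
    rw [hh, Nat.one_le_iff_ne_zero, Nat.ne_zero_iff_zero_lt, Nat.ceil_pos]
    positivity
  have hq : κ * Ub j / 8 ≤ (h : ℝ) := by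
    rw [hh]
    exact Nat.le_ceil _
  have hh2 : (h : ℝ) < κ * Ub j / 8 + 1 := by
    rw [hh]
    exact Nat.ceil_lt_add_one (by positivity)
  have hηh : η * Ub j ≤ (h : ℝ) := by
    rw [hηd]
    calc κ / 8 * Ub j = κ * Ub j / 8 := by ring
      _ ≤ h := hq
  obtain ⟨r, hr⟩ : ∃ r : ℕ, r = 2 ^ (j - a) := ⟨_, rfl⟩
  have hr0 : r0 ≤ r := by
    rw [hr]
    have h1 : r0 ≤ j - a := by omega
    exact h1.trans Nat.lt_two_pow_self.le
  have hUr : UU r = Ub (j - a) := by rw [hr]; rfl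
  have hUr0 : 0 < UU r := by rw [hUr]; exact TS.Ub_pos _
  have hUrb : UU r ≤ Ub j := by
    unfold Ub
    exact UU_mono (by rw [hr]; exact Nat.pow_le_pow_right (by norm_num) (by omega))
  have hUj : Ub j ≤ 2 ^ a * UU r := by
    have := Ub_steps (j - a) a
    rw [Nat.sub_add_cancel (by omega)] at this
    rw [hUr]
    exact this
  have hκU : κ0 / 2 ^ a * Ub j ≤ κ0 * UU r := by
    rw [div_mul_eq_mul_div, div_le_iff₀ (by positivity)]
    nlinarith
  -- the event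
  obtain ⟨i, hi⟩ : ∃ i : ℕ, i = j + (m + 1) := ⟨_, rfl⟩
  obtain ⟨ρ, hρ⟩ : ∃ ρ : List Bool → List Bool → Prop,
    ρ = RA (κ0 * UU r) r j (C * 2 ^ j) (2 ^ (j + (m + 1))) η h := ⟨_, rfl⟩
  obtain ⟨EA, hEA⟩ : ∃ EA : Set (List Bool), EA = {L | L ∈ FTp n j ∧ κ * Ub j / 8 ≤ (nD (2 ^ (i + 0)) ρ L : ℝ)} := ⟨_, rfl⟩
  have hcov : {L | L ∈ FTp n j ∧ gc j a (m + 1) η L < κ0 / 2 ^ a * Ub j} ⊆ WBT κ C n j m ∪ EA := by
    rintro L ⟨hLF, hbad⟩
    by_cases hW : L ∈ WBT κ C n j m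
    · exact Or.inl hW
    refine Or.inr ?_
    have hNz : L ∉ Nz κ C j := fun hN => hW ⟨hLF, Or.inl hN⟩
    obtain ⟨X, Z1, Z2, Z3, Y0, hd⟩ := dt_of neW hLF.1 hNz
    have hin : In (2 ^ (j + m)) Y0 := by
      by_contra hc
      exact hW ⟨hLF, Or.inr ⟨X, Z1, Z2, Z3, Y0, hd, hc⟩⟩
    have h4 : 4 * h ≤ nc Z2 := by
      have h5 : (4 : ℝ) * h ≤ nc Z2 := by
        have := hd.n2
        linarith
      exact_mod_cast h5
    rw [hEA, hρ, hi, add_zero]
    refine ⟨hLF, hq.trans ?_⟩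
    exact_mod_cast caseA neW hd hh1 hηh h4 hin hm2 (by rw [hr]) hκU hbad
  have hA1 : gf EA ≤ ENNReal.ofReal (ε / 2 * D * prT n j) := by
    have hFi : HT D n i := fun n' i' hn' hi' => hF n' i' hn' (by omega)
    obtain ⟨x, hx⟩ : ∃ x : ℝ, x = K1 * Real.sqrt (UU r * Ub j) := ⟨_, rfl⟩
    have hx0 : 0 ≤ x := by rw [hx]; positivity
    have h5 := hE D n j i j hD hFi (by omega) (by omega) ρ (ENNReal.ofReal x * Xb j) (κ * Ub j / 8)
      (fun A Y h => by rw [hρ] at h; exact h.1.gt) (fun A => ?_) (by positivity)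
    · rw [← hEA] at h5
      have hpi := prT_nonneg n i
      refine (cancelF (by positivity) (by positivity) h5).trans (ENNReal.ofReal_le_ofReal ?_)
      have h7 := prT_up64 n j (m + 1)
      rw [← hi] at h7
      have h9 : K2 * (Real.sqrt (UU r * Ub j) / Ub j) ≤ ε / 2 := by
        have e1 : Real.sqrt (UU r * Ub j) / Ub j = Real.sqrt (UU r / Ub j) := by
          rw [Real.sqrt_mul hUr0.le, Real.sqrt_div hUr0.le, div_eq_div_iff hU.ne' (Real.sqrt_pos.2 hU).ne', mul_assoc,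
            Real.mul_self_sqrt hU.le]
        rw [e1]
        have e2 := ha j (by omega)
        rw [← hUr] at e2
        have e3 : K2 * Real.sqrt (UU r / Ub j) = Real.sqrt (K2 ^ 2 * (UU r / Ub j)) := by
          rw [Real.sqrt_mul (by positivity), Real.sqrt_sq hK20.le]
        rw [e3]
        exact Real.sqrt_le_iff.2 ⟨by positivity, e2⟩
      rw [div_le_iff₀ (by positivity)]
      have hDp : 0 ≤ D * prT n j := by positivity
      calc C1 * D * prT n i * x ≤ C1 * D * (64 ^ (m + 1) * prT n j) * x := by gcongr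
        _ = (K2 * (Real.sqrt (UU r * Ub j) / Ub j)) * (D * prT n j) * (κ * Ub j / 8) := by
            rw [hx, hK2]
            field_simp
        _ ≤ ε / 2 * (D * prT n j) * (κ * Ub j / 8) := by gcongr
        _ = _ := by ring
    · -- the mass of the second parts
      obtain ⟨y, hy⟩ : ∃ y : ℕ, y = n - A.length := ⟨_, rfl⟩
      have h6 := fw_tail (κ0 := κ0 * UU r) (η := η) (q := h) (CU := CU) (CB := CB) (M := M) (r := r) (b := j) (m := m + 1)
        (E := 2 * (C * 2 ^ j)) (D := 2 ^ (j + (m + 1))) (y := y) (A := A) hCU hCB hM0.le hUrb hUr0 (hUA r hr0 (2 ^ j) A)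
        (hB j y) (by rw [hM]; exact_mod_cast hYJ j (m + 1))
      obtain ⟨S, hS⟩ : ∃ S : Set (List Bool), S = {Y | Fw (κ0 * UU r) r j (2 * (C * 2 ^ j)) (2 ^ (j + (m + 1))) η h A Y ∧
        y ≤ Y.length} := ⟨_, rfl⟩
      rw [← hS] at h6
      have h7 : gf S ≤ ENNReal.ofReal x * Xb j * ENNReal.ofReal (ARM.wt n A.length i) := by
        have e0 : ENNReal.ofReal (κ * Ub j / 8) ≠ 0 := by
          rw [Ne, ENNReal.ofReal_eq_zero, not_le]
          positivity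
        refine (ENNReal.mul_le_mul_iff_right e0 ENNReal.ofReal_ne_top).1 ?_
        refine (mul_le_mul' (ENNReal.ofReal_le_ofReal hq) le_rfl).trans (h6.trans (le_of_eq ?_))
        rw [mul_right_comm (ENNReal.ofReal x), ← ENNReal.ofReal_mul hx0, ← mul_assoc, ← ENNReal.ofReal_mul (by positivity)]
        congr 2
        unfold ARM.wt
        rw [← hy, hi, hx, hK1]
        field_simp
      refine (gf_mono ?_).trans h7
      rintro Y ⟨y1, y2, y3⟩
      rw [hρ] at y1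
      rw [hS]
      refine ⟨y1.2, ?_⟩
      have h8 := y3.2.1
      rw [List.length_append] at h8
      omega
  have hW1 : gf (WBT κ C n j m) ≤ ENNReal.ofReal (ε / 2 * D * prT n j) := by
    refine hWB D n j hD hF (by omega) (le_trans (mul_le_mul_of_nonneg_right ?_ (ml_pos j).le) hn)
    exact pow_le_pow_right₀ (by norm_num) (by omega)
  refine (gf_mono hcov).trans ((gf_union_le _ _).trans ((add_le_add hW1 hA1).trans (le_of_eq ?_)))
  rw [← ENNReal.ofReal_add (by positivity) (by positivity)]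
  congr 1
  ring

end ART

end HexObs
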