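import Pool.Agent.ART.NumT
import Pool.Agent.ARM.NoRich

/-!
# ART (two arms at the top): words without a rich factor (helper63)

Clones of `ARM.noRich`, `ARM.noR`, `ARM.nz_mass` with the exponent 5 / 2 (row T1 with the power q = 6).

* **`noRichT`** : `NoRichT`;
* **`noRT`** : `NoRT`;
* **`nz_massT`** : all the words without a rich factor, no condition on the end.
-/

set_option autoImplicit false

namespace HexObs

namespace ART

open Finset TS SDN HexObs.SIM NTA TIP ARM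

open scoped ENNReal

/-- **words with a long factor without rich window** -/
theorem noRichT {κ : ℝ} {C : ℕ} (hR : RegZ κ C) (hC : ConfQ) : NoRichT κ C := by
  intro a c1
  obtain ⟨C1, c, b1, J1, n1, hC1, hc, hreg⟩ := hR
  obtain ⟨C2, hC2, hconf⟩ := hC 6
  obtain ⟨C3, hC3, hF⟩ := NPR.Fast.FK_up
  have hl2 : 0 < Real.log 2 := Real.log_pos one_lt_two
  obtain ⟨k, hk⟩ : ∃ k : ℝ, k = C1 ^ 3 * C3 * C2 * (2 ^ ((123 / 24 : ℝ) * 3)) ^ 2 := ⟨_, rfl⟩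
  have hk0 : 0 ≤ k := by rw [hk]; positivity
  obtain ⟨J2, hJ2⟩ := YB.num k (C1 * 4 ^ a) (c * Real.log 2) c1 hk0
    (one_le_mul_of_one_le_of_one_le hC1 (one_le_pow₀ (by norm_num))) (by positivity)
  refine ⟨J1 + J2 + n1 + c1, b1, fun b J n hb hJ => ?_⟩
  obtain ⟨N, hN⟩ : ∃ N : ℕ, N = 2 ^ (J - c1) := ⟨_, rfl⟩
  have hNn : n1 ≤ N := by
    rw [hN]
    exact (show n1 ≤ J - c1 by omega).trans Nat.lt_two_pow_self.le
  have hNr : (N : ℝ) = 2 ^ (J - c1) := by rw [hN]; push_cast; rfl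
  obtain ⟨S, hS⟩ : ∃ S : Set (List Bool), S = {L | L ∈ SA ∧ n ≤ L.length ∧ In (2 ^ (b + J)) L ∧
    ∃ N : ℕ, 2 ^ J ≤ N * 2 ^ c1 ∧ L ∈ Lz κ C b N} := ⟨_, rfl⟩
  obtain ⟨i, hi⟩ : ∃ i, i = b + J + 3 := ⟨_, rfl⟩
  obtain ⟨p, hp⟩ : ∃ p : ℝ, p = (2 : ℝ) ^ ((43 / 24 : ℝ) * (i : ℝ)) := ⟨_, rfl⟩
  have hp0 : 0 < p := by rw [hp]; positivity
  have hm := ml_pos i
  have hmax : 0 < max (n : ℝ) (ml i) := lt_max_of_lt_right hm
  obtain ⟨x, hx⟩ : ∃ x : ℝ, x = ml i / max (n : ℝ) (ml i) := ⟨_, rfl⟩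
  have hx0 : 0 < x := by rw [hx]; positivity
  have hx1 : x ≤ 1 := by
    rw [hx, div_le_one hmax]
    exact le_max_right _ _
  obtain ⟨w, hw⟩ : ∃ w : ℝ, w = (2 : ℝ) ^ (-(c * N)) := ⟨_, rfl⟩
  have hw0 : 0 < w := by rw [hw]; positivity
  have h1 : gf S ≤ ENNReal.ofReal (C1 ^ (J + 3) * w * (C3 * p)) * 1 := by
    have h2 : gf S ≤ gf {t | t ∈ WL (b + (J + 3)) ∧ t ∈ Lz κ C b N} := by
      refine gf_mono fun L hL => ?_
      rw [hS] at hL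
      obtain ⟨l1, -, l3, N', l4, l5⟩ := hL
      refine ⟨WL_In l1 l3, YB.Lz_anti ?_ l5⟩
      rw [hN]
      have h3 : 2 ^ (J - c1) * 2 ^ c1 ≤ N' * 2 ^ c1 := by
        rw [← pow_add, show J - c1 + c1 = J by omega]
        exact l4
      exact Nat.le_of_mul_le_mul_right h3 (by positivity)
    have h3 := hreg b (J + 3) N hb (by omega) hNn
    have h4 := hF (b + (J + 3))
    rw [show b + (J + 3) = i by omega] at h2 h3 h4
    refine h2.trans (h3.trans ?_)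
    rw [mul_one, hw, ENNReal.ofReal_mul (by positivity), mul_assoc]
    calc ENNReal.ofReal (C1 ^ (J + 3) * 2 ^ (-(c * (N : ℝ)))) * (ENNReal.ofReal (Ub i) * Xb i ^ 2)
        ≤ ENNReal.ofReal (C1 ^ (J + 3) * 2 ^ (-(c * (N : ℝ)))) * ENNReal.ofReal (C3 * 2 ^ (43 / 24 * (i : ℝ))) :=
          mul_le_mul' le_rfl h4
      _ = _ := by rw [← ENNReal.ofReal_mul (by positivity), hp]
  have h2 : gf S ≤ ENNReal.ofReal (C2 * (p * x ^ (6 : ℕ))) * 1 := by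
    rw [mul_one, hp, hx]
    refine (gf_mono fun L hL => ?_).trans (hconf n i)
    rw [hS] at hL
    obtain ⟨l1, l2, l3, -⟩ := hL
    refine ⟨l1, l2, fun s hs => ?_⟩
    rw [hi]
    exact dz_In l3 s hs
  have h3 := sqrt_mul (by positivity) (by positivity) h1 h2
  rw [mul_one, hS] at h3
  refine h3.trans (ENNReal.ofReal_le_ofReal ?_)
  have hpr : 0 < prT n (b + J) := prT_pos _ _
  refine Real.sqrt_le_iff.2 ⟨by positivity, ?_⟩
  have h4 : p * x ^ (5 / 2 : ℝ) ≤ 2 ^ ((123 / 24 : ℝ) * 3) * prT n (b + J) := by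
    have h5 := prT_up n (b + J) 3
    rw [← hi] at h5
    have h6 : prT n i = p * x ^ (5 / 2 : ℝ) := by rw [hp, hx]; rfl
    rw [← h6]
    push_cast at h5
    exact h5
  have h5 : p ^ 2 * x ^ 6 ≤ (2 ^ ((123 / 24 : ℝ) * 3) * prT n (b + J)) ^ 2 := by
    have h6 : (x ^ (5 / 2 : ℝ)) ^ 2 = x ^ 5 := by
      rw [← Real.rpow_natCast, ← Real.rpow_mul hx0.le, ← Real.rpow_natCast x 5]
      norm_num
    calc p ^ 2 * x ^ 6 ≤ p ^ 2 * x ^ 5 := by
          have : x ^ 6 ≤ x ^ 5 := pow_le_pow_of_le_one hx0.le hx1 (by norm_num)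
          gcongr
      _ = (p * x ^ (5 / 2 : ℝ)) ^ 2 := by rw [mul_pow, h6]
      _ ≤ _ := by gcongr
  have h6 : k * (C1 * 4 ^ a) ^ J * w ≤ 1 := by
    have h7 := hJ2 J (by omega)
    have e : w = Real.exp (-(c * Real.log 2 * 2 ^ (J - c1))) := by
      rw [hw, Real.rpow_def_of_pos (by norm_num), hNr]
      congr 1
      ring
    rw [e]
    exact h7
  have h4a : ((2 : ℝ) ^ (a * J)) ^ 2 = (4 ^ a) ^ J := by
    rw [show (4 : ℝ) = 2 ^ 2 by norm_num, ← pow_mul, ← pow_mul, ← pow_mul]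
    congr 1
    ring
  have hq : (0 : ℝ) < (4 ^ a) ^ J := by positivity
  calc C1 ^ (J + 3) * w * (C3 * p) * (C2 * (p * x ^ 6)) = C1 ^ (J + 3) * w * C3 * C2 * (p ^ 2 * x ^ 6) := by ring
    _ ≤ C1 ^ (J + 3) * w * C3 * C2 * (2 ^ ((123 / 24 : ℝ) * 3) * prT n (b + J)) ^ 2 := by gcongr
    _ = (k * (C1 * 4 ^ a) ^ J * w) * ((prT n (b + J)) ^ 2 / (4 ^ a) ^ J) := by
      rw [hk, mul_pow C1, mul_pow _ (prT n (b + J))]
      field_simp
      ring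
    _ ≤ 1 * ((prT n (b + J)) ^ 2 / (4 ^ a) ^ J) := by gcongr
    _ = (prT n (b + J) / 2 ^ (a * J)) ^ 2 := by rw [one_mul, div_pow, h4a]

/-- **row NoR** at the top: the words without a rich factor -/
theorem noRT {κ : ℝ} {C : ℕ} (hR : RegZ κ C) (hC : ConfQ) : NoRT κ C := by
  classical
  intro ε hε
  obtain ⟨J0, b1, hno⟩ := noRichT hR hC 8 1
  obtain ⟨C2, hC2, hconf⟩ := hC 4
  obtain ⟨J1, hJ1⟩ : ∃ J1 : ℕ, J0 ≤ J1 ∧ 2 * (1 / 2 : ℝ) ^ J1 ≤ ε / 2 := by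
    obtain ⟨J1, h⟩ := exists_pow_lt_of_lt_one (show 0 < ε / 4 by positivity) (show (1 / 2 : ℝ) < 1 by norm_num)
    refine ⟨J0 + J1, by omega, ?_⟩
    have h1 : (1 / 2 : ℝ) ^ (J0 + J1) ≤ (1 / 2) ^ J1 := pow_le_pow_of_le_one (by norm_num) (by norm_num) (by omega)
    linarith
  obtain ⟨hJ01, hJε⟩ := hJ1
  obtain ⟨A, hA⟩ : ∃ A : ℝ, A = C2 * (2 ^ ((123 / 24 : ℝ) * ((J1 + 3 : ℕ) : ℝ)) * 2 ^ ((4 / 3 : ℝ) * ((J1 + 3 : ℕ) : ℝ))) :=
    ⟨_, rfl⟩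
  have hA0 : 0 < A := by rw [hA]; positivity
  obtain ⟨b2, hb2⟩ : ∃ b2 : ℕ, A / 2 ^ b2 ≤ ε / 2 := by
    obtain ⟨b2, h⟩ := pow_unbounded_of_one_lt (2 * A / ε) (one_lt_two)
    refine ⟨b2, ?_⟩
    rw [div_lt_iff₀ hε] at h
    rw [div_le_div_iff₀ (by positivity) (by norm_num)]
    linarith
  refine ⟨b1 + b2, fun n j hj hn => ?_⟩
  have hpr : 0 < prT n j := prT_pos _ _
  have hmj := ml_pos j
  obtain ⟨i, hi⟩ : ∃ i, i = j + J1 + 3 := ⟨_, rfl⟩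
  -- the covering
  have hcov : {L | L ∈ FTp n j ∧ L ∈ Nz κ C j} ⊆ {L | L ∈ SA ∧ n ≤ L.length ∧ ∀ s, s ≤ L.length → dz L s ≤ 2 ^ i} ∪
      ⋃ J : ℕ, {L | L ∈ SA ∧ n ≤ L.length ∧ In (2 ^ (j + (J1 + J))) L ∧
        ∃ N : ℕ, 2 ^ (J1 + J) ≤ N * 2 ^ 1 ∧ L ∈ Lz κ C j N} := by
    rintro L ⟨⟨h1, h2, -, -⟩, h5⟩
    have hex : ∃ J, In (2 ^ (j + J)) L := by
      obtain ⟨J, hJ⟩ := In_len L
      exact ⟨J, hJ j⟩
    rcases le_or_gt (Nat.find hex) J1 with h | h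
    · refine Or.inl ⟨h1, h2, fun s hs => ?_⟩
      have h6 : In (2 ^ (j + J1)) L := Nf.in_mono (Nat.find_spec hex) (Nat.pow_le_pow_right (by norm_num) (by omega))
      rw [hi]
      exact dz_In h6 s hs
    · refine Or.inr (Set.mem_iUnion.2 ⟨Nat.find hex - J1, h1, h2, ?_, 2 ^ (Nat.find hex - 1), ?_, ?_⟩)
      · rw [show J1 + (Nat.find hex - J1) = Nat.find hex by omega]
        exact Nat.find_spec hex
      · rw [← pow_add]
        exact Nat.pow_le_pow_right (by norm_num) (by omega)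
      · refine ⟨[], L, [], by rw [List.nil_append, List.append_nil], h5, ?_⟩
        rw [← pow_add, show Nat.find hex - 1 + j = j + (Nat.find hex - 1) by omega]
        exact Nat.find_min hex (by omega)
  refine (gf_mono hcov).trans ((gf_union_le _ _).trans ?_)
  have hsplit : ENNReal.ofReal (ε * prT n j) = ENNReal.ofReal (ε / 2 * prT n j) + ENNReal.ofReal (ε / 2 * prT n j) := by
    rw [← ENNReal.ofReal_add (by positivity) (by positivity)]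
    congr 1
    ring
  rw [hsplit]
  refine add_le_add ?_ ?_
  · refine (hconf n i).trans (ENNReal.ofReal_le_ofReal ?_)
    have hm := ml_pos i
    have hmax : 0 < max (n : ℝ) (ml i) := lt_max_of_lt_right hm
    obtain ⟨x, hx⟩ : ∃ x : ℝ, x = ml i / max (n : ℝ) (ml i) := ⟨_, rfl⟩
    have hx0 : 0 < x := by rw [hx]; positivity
    have hx1 : x ≤ 1 := by
      rw [hx, div_le_one hmax]
      exact le_max_right _ _
    have hx2 : x ≤ 2 ^ ((4 / 3 : ℝ) * ((J1 + 3 : ℕ) : ℝ)) / 2 ^ b2 := by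
      rw [hx, div_le_div_iff₀ hmax (by positivity), hi, show j + J1 + 3 = j + (J1 + 3) by omega, ml_add]
      have h1 : ml j * 2 ^ b2 ≤ max (n : ℝ) ((2 : ℝ) ^ ((4 / 3 : ℝ) * ((J1 + 3 : ℕ) : ℝ)) * ml j) := by
        refine le_trans ?_ (le_max_left _ _)
        refine le_trans ?_ hn
        rw [mul_comm]
        have : (2 : ℝ) ^ b2 ≤ 2 ^ (b1 + b2) := pow_le_pow_right₀ (by norm_num) (by omega)
        gcongr
      have h2 : (0 : ℝ) < (2 : ℝ) ^ ((4 / 3 : ℝ) * ((J1 + 3 : ℕ) : ℝ)) := by positivity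
      calc (2 : ℝ) ^ ((4 / 3 : ℝ) * ((J1 + 3 : ℕ) : ℝ)) * ml j * 2 ^ b2
          = (2 : ℝ) ^ ((4 / 3 : ℝ) * ((J1 + 3 : ℕ) : ℝ)) * (ml j * 2 ^ b2) := by ring
        _ ≤ _ := mul_le_mul_of_nonneg_left h1 h2.le
    have h4 : x ^ (4 : ℕ) ≤ x ^ (5 / 2 : ℝ) * x := by
      have h5 : x ^ (5 / 2 : ℝ) * x = x ^ (7 / 2 : ℝ) := by
        rw [show (7 / 2 : ℝ) = 5 / 2 + 1 by norm_num, Real.rpow_add hx0, Real.rpow_one]
      rw [h5, ← Real.rpow_natCast]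
      exact Real.rpow_le_rpow_of_exponent_ge hx0 hx1 (by norm_num)
    have h5 := prT_up n j (J1 + 3)
    rw [show j + (J1 + 3) = i by omega] at h5
    have h6 : prT n i = (2 : ℝ) ^ ((43 / 24 : ℝ) * (i : ℝ)) * x ^ (5 / 2 : ℝ) := by rw [hx]; rfl
    rw [← hx]
    calc C2 * ((2 : ℝ) ^ ((43 / 24 : ℝ) * (i : ℝ)) * x ^ (4 : ℕ))
        ≤ C2 * ((2 : ℝ) ^ ((43 / 24 : ℝ) * (i : ℝ)) * (x ^ (5 / 2 : ℝ) * x)) := by gcongr
      _ = C2 * (prT n i * x) := by rw [h6]; ring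
      _ ≤ C2 * ((2 ^ ((123 / 24 : ℝ) * ((J1 + 3 : ℕ) : ℝ)) * prT n j) *
          (2 ^ ((4 / 3 : ℝ) * ((J1 + 3 : ℕ) : ℝ)) / 2 ^ b2)) := by gcongr
      _ = A / 2 ^ b2 * prT n j := by
        rw [hA]
        ring
      _ ≤ ε / 2 * prT n j := by gcongr
  · refine (Crw.gf_iUnion_le _).trans ?_
    have h1 : ∀ J : ℕ, gf {L | L ∈ SA ∧ n ≤ L.length ∧ In (2 ^ (j + (J1 + J))) L ∧
        ∃ N : ℕ, 2 ^ (J1 + J) ≤ N * 2 ^ 1 ∧ L ∈ Lz κ C j N} ≤
        ENNReal.ofReal (((1 / 2) ^ J1 * prT n j) * (1 / 2) ^ J) := by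
      intro J
      refine (hno j (J1 + J) n (by omega) (by omega)).trans (ENNReal.ofReal_le_ofReal ?_)
      have h2 := prT_up64 n j (J1 + J)
      have h3 : (0 : ℝ) < 2 ^ (8 * (J1 + J)) := by positivity
      rw [div_le_iff₀ h3]
      refine h2.trans ?_
      have h4 : (2 : ℝ) ^ (8 * (J1 + J)) = 256 ^ (J1 + J) := by
        rw [pow_mul]
        norm_num
      have h5 : (64 : ℝ) ^ (J1 + J) ≤ (1 / 2) ^ (J1 + J) * 256 ^ (J1 + J) := by
        rw [← mul_pow]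
        exact pow_le_pow_left₀ (by norm_num) (by norm_num) _
      rw [h4]
      calc (64 : ℝ) ^ (J1 + J) * prT n j ≤ ((1 / 2) ^ (J1 + J) * 256 ^ (J1 + J)) * prT n j := by gcongr
        _ = _ := by
          rw [pow_add (1 / 2 : ℝ)]
          ring
    refine (ENNReal.tsum_le_tsum h1).trans ?_
    rw [tsum_half (by positivity)]
    refine ENNReal.ofReal_le_ofReal ?_
    nlinarith

/-- **words without a rich factor, no condition on the end** -/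
theorem nz_massT {κ : ℝ} {C : ℕ} (hR : RegZ κ C) (hC : ConfQ) : ∃ (K : ℝ) (b0 : ℕ), 0 < K ∧ ∀ n b : ℕ, b0 ≤ b →
    gf {L | L ∈ SA ∧ n ≤ L.length ∧ L ∈ Nz κ C b} ≤ ENNReal.ofReal (K * prT n b) := by
  classical
  obtain ⟨J0, b1, hno⟩ := noRichT hR hC 8 1
  obtain ⟨C2, hC2, hconf⟩ := hC 4
  refine ⟨C2 * 64 ^ (J0 + 3) + 2, b1, by positivity, fun n b hb => ?_⟩
  have hpr : 0 < prT n b := prT_pos _ _
  obtain ⟨i, hi⟩ : ∃ i, i = b + J0 + 3 := ⟨_, rfl⟩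
  have hcov : {L | L ∈ SA ∧ n ≤ L.length ∧ L ∈ Nz κ C b} ⊆ {L | L ∈ SA ∧ n ≤ L.length ∧ ∀ s, s ≤ L.length → dz L s ≤ 2 ^ i} ∪
      ⋃ J : ℕ, {L | L ∈ SA ∧ n ≤ L.length ∧ In (2 ^ (b + (J0 + J))) L ∧
        ∃ N : ℕ, 2 ^ (J0 + J) ≤ N * 2 ^ 1 ∧ L ∈ Lz κ C b N} := by
    rintro L ⟨h1, h2, h5⟩
    have hex : ∃ J, In (2 ^ (b + J)) L := by
      obtain ⟨J, hJ⟩ := In_len L
      exact ⟨J, hJ b⟩
    rcases le_or_gt (Nat.find hex) J0 with h | h
    · refine Or.inl ⟨h1, h2, fun s hs => ?_⟩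
      have h6 : In (2 ^ (b + J0)) L := Nf.in_mono (Nat.find_spec hex) (Nat.pow_le_pow_right (by norm_num) (by omega))
      rw [hi]
      exact dz_In h6 s hs
    · refine Or.inr (Set.mem_iUnion.2 ⟨Nat.find hex - J0, h1, h2, ?_, 2 ^ (Nat.find hex - 1), ?_, ?_⟩)
      · rw [show J0 + (Nat.find hex - J0) = Nat.find hex by omega]
        exact Nat.find_spec hex
      · rw [← pow_add]
        exact Nat.pow_le_pow_right (by norm_num) (by omega)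
      · refine ⟨[], L, [], by rw [List.nil_append, List.append_nil], h5, ?_⟩
        rw [← pow_add, show Nat.find hex - 1 + b = b + (Nat.find hex - 1) by omega]
        exact Nat.find_min hex (by omega)
  refine (gf_mono hcov).trans ((gf_union_le _ _).trans ?_)
  have hsplit : ENNReal.ofReal ((C2 * 64 ^ (J0 + 3) + 2) * prT n b) = ENNReal.ofReal (C2 * 64 ^ (J0 + 3) * prT n b) +
      ENNReal.ofReal (2 * prT n b) := by
    rw [← ENNReal.ofReal_add (by positivity) (by positivity)]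
    congr 1
    ring
  rw [hsplit]
  refine add_le_add ?_ ?_
  · refine (hconf n i).trans (ENNReal.ofReal_le_ofReal ?_)
    have hm := ml_pos i
    have hmax : 0 < max (n : ℝ) (ml i) := lt_max_of_lt_right hm
    obtain ⟨x, hx⟩ : ∃ x : ℝ, x = ml i / max (n : ℝ) (ml i) := ⟨_, rfl⟩
    have hx0 : 0 < x := by rw [hx]; positivity
    have hx1 : x ≤ 1 := by
      rw [hx, div_le_one hmax]
      exact le_max_right _ _
    have h4 : x ^ (4 : ℕ) ≤ x ^ (5 / 2 : ℝ) := by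
      rw [← Real.rpow_natCast]
      exact Real.rpow_le_rpow_of_exponent_ge hx0 hx1 (by norm_num)
    have h5 := prT_up64 n b (J0 + 3)
    rw [show b + (J0 + 3) = i by omega] at h5
    have h6 : prT n i = (2 : ℝ) ^ ((43 / 24 : ℝ) * (i : ℝ)) * x ^ (5 / 2 : ℝ) := by rw [hx]; rfl
    rw [← hx]
    calc C2 * ((2 : ℝ) ^ ((43 / 24 : ℝ) * (i : ℝ)) * x ^ (4 : ℕ))
        ≤ C2 * ((2 : ℝ) ^ ((43 / 24 : ℝ) * (i : ℝ)) * x ^ (5 / 2 : ℝ)) := by gcongr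
      _ = C2 * prT n i := by rw [h6]
      _ ≤ C2 * (64 ^ (J0 + 3) * prT n b) := by gcongr
      _ = _ := by ring
  · refine (Crw.gf_iUnion_le _).trans ?_
    have h1 : ∀ J : ℕ, gf {L | L ∈ SA ∧ n ≤ L.length ∧ In (2 ^ (b + (J0 + J))) L ∧
        ∃ N : ℕ, 2 ^ (J0 + J) ≤ N * 2 ^ 1 ∧ L ∈ Lz κ C b N} ≤ ENNReal.ofReal (prT n b * (1 / 2) ^ J) := by
      intro J
      refine (hno b (J0 + J) n hb (by omega)).trans (ENNReal.ofReal_le_ofReal ?_)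
      have h2 := prT_up64 n b (J0 + J)
      have h3 : (0 : ℝ) < 2 ^ (8 * (J0 + J)) := by positivity
      rw [div_le_iff₀ h3]
      refine h2.trans ?_
      have h4 : (2 : ℝ) ^ (8 * (J0 + J)) = 256 ^ (J0 + J) := by
        rw [pow_mul]
        norm_num
      have h5 : (64 : ℝ) ^ (J0 + J) ≤ (1 / 2) ^ (J0 + J) * 256 ^ (J0 + J) := by
        rw [← mul_pow]
        exact pow_le_pow_left₀ (by norm_num) (by norm_num) _
      have h6 : (1 / 2 : ℝ) ^ (J0 + J) ≤ (1 / 2) ^ J := pow_le_pow_of_le_one (by norm_num) (by norm_num) (by omega)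
      rw [h4]
      calc (64 : ℝ) ^ (J0 + J) * prT n b ≤ ((1 / 2) ^ (J0 + J) * 256 ^ (J0 + J)) * prT n b := by gcongr
        _ ≤ ((1 / 2) ^ J * 256 ^ (J0 + J)) * prT n b := by gcongr
        _ = _ := by ring
    refine (ENNReal.tsum_le_tsum h1).trans ?_
    rw [tsum_half (by positivity)]

end ART

end HexObs
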