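import Pool.Agent.ART.Tc
import Pool.Agent.ARM.NtR

/-!
# ART, row Q (helper47): near touches at the top, **`ntT_of : ExT → YMassJ → NWinT κ C → YNSt → PlNt → NtT`**

Clone of the class part of ARM (NtT, NtW, NtE, NtR by helper65); the geometry is that of ARM.
-/

set_option autoImplicit false

namespace HexObs

namespace ART

open Finset TS SDN NTW NTA HexObs.SIM TIP TIP.Nf TIW ARM

open scoped ENNReal

/-- **double counting in the class FT**: small classes of parts behind good tips -/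
theorem efT_mass (hE : ExT) (hM : YMassJ) {η : ℝ} (hη : 0 < η) : ∃ C : ℝ, 1 ≤ C ∧ ∀ (D : ℝ) (n j b J : ℕ), 0 ≤ D →
    HT D n j → j ≤ b → ∀ (ρ : List Bool → List Bool → Prop) (δ q : ℝ), 0 ≤ δ → 0 < q →
    (∀ A Y, ρ A Y → A ∈ GT b η ∧ Y ∈ SA ∧ rev Y ∈ GT b η) →
    (∀ A, gf {Y | ρ A Y ∧ In (2 ^ (b + J)) Y} ≤ ENNReal.ofReal (δ * Ub b) * Xb b) →
    gf {L | L ∈ FTp n j ∧ q * Ub b ≤ (nD (2 ^ (b + J)) ρ L : ℝ)} ≤
      ENNReal.ofReal (C * Real.sqrt (C ^ (J + 1) * δ) / q * (D * prT n (b + J))) := by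
  obtain ⟨C1, hC1, hE⟩ := hE η 0 hη
  obtain ⟨C2, hC2, hcs⟩ := cs_len hM hη
  have hC20 : 0 < C2 := by linarith
  refine ⟨C1 + C2, by linarith, fun D n j b J hD hF hjb ρ δ q hδ hq hρ hx => ?_⟩
  have hU := Ub_pos b
  have hp := prT_nonneg n (b + J)
  have hFi : HT D n (b + J) := fun n' i hn' hi => hF n' i hn' (by omega)
  have h1 := hE D n j (b + J) b hD hFi (by omega) (by omega) ρ
    (ENNReal.ofReal (Real.sqrt (C2 ^ (J + 1) * δ) * Ub b) * Xb b) (q * Ub b) (fun A Y h => (hρ A Y h).1) (fun A => ?_)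
    (by positivity)
  · rw [add_zero] at h1
    refine (cancelF (by positivity) (by positivity) h1).trans (ENNReal.ofReal_le_ofReal ?_)
    have h2 : Real.sqrt (C2 ^ (J + 1) * δ) ≤ Real.sqrt ((C1 + C2) ^ (J + 1) * δ) := by
      apply Real.sqrt_le_sqrt
      gcongr
      linarith
    have e : C1 * D * prT n (b + J) * (Real.sqrt (C2 ^ (J + 1) * δ) * Ub b) / (q * Ub b) =
        C1 * Real.sqrt (C2 ^ (J + 1) * δ) / q * (D * prT n (b + J)) := by
      field_simp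
    rw [e]
    have h3 : 0 ≤ D * prT n (b + J) := by positivity
    refine mul_le_mul_of_nonneg_right ?_ h3
    gcongr
    linarith
  · have h2 := hcs b J (n - A.length) δ {Y | ρ A Y ∧ In (2 ^ (b + J)) Y} hδ
      (fun Y hY => ⟨(hρ A Y hY.1).2.1, (hρ A Y hY.1).2.2, hY.2⟩) (hx A)
    refine (gf_mono ?_).trans h2
    rintro Y ⟨y1, y2, y3⟩
    refine ⟨⟨y1, by rwa [add_zero] at y2⟩, ?_⟩
    have h3 := y3.2.1
    rw [List.length_append] at h3
    omega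

/-- **most words of the class FT have a window** -/
theorem winT_of {κ : ℝ} {C : ℕ} (hκ : 0 < κ) (hN : NWinT κ C) : ∀ ε : ℝ, 0 < ε → ∃ J0 : ℕ, ∀ J w : ℕ, J0 ≤ J → ∃ b0 : ℕ,
    ∀ (D : ℝ) (n j : ℕ), 0 ≤ D → HT D n j → b0 ≤ j → 2 ^ b0 * ml j ≤ n →
      gf {L | L ∈ FTp n j ∧ L ∉ Win (κ / 2) (2 * C) (j + w) J} ≤ ENNReal.ofReal (ε * D * prT n (j + w + 1)) := by
  intro ε hε
  obtain ⟨m, b1, h⟩ := hN ε hε
  refine ⟨m + 1, fun J w hJ => ⟨b1 + 2 * w + 2, fun D n j hD hF hj hn => ?_⟩⟩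
  have h1 := h D n (j + w + 1) hD (fun n' i hn' hi => hF n' i hn' (by omega)) (by omega) ?_
  · refine (gf_mono ?_).trans h1
    rintro L ⟨hL, hW⟩
    refine ⟨?_, fun hcon => hW ?_⟩
    · obtain ⟨f1, f2, f3, f4⟩ := hL
      refine ⟨f1, f2, f3.trans_le ?_, TT_mono ?_ f4⟩
      · have := ml_mono (show j ≤ j + w + 1 by omega)
        linarith
      · have : (2 : ℝ) ^ j ≤ 2 ^ (j + w + 1) := pow_le_pow_right₀ (by norm_num) (by omega)
        linarith
    · obtain ⟨X, Z, Y, e, hY, ⟨Z1, Z2, Z3, rfl, c1, c2, c3, c4, c5, c6, c7, c8⟩, hin⟩ := hcon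
      obtain ⟨P, W, R, p1, p2, p3, p4, p5, p6⟩ := half_rich (H := 2 ^ (j + w)) c2 (by rw [← pow_succ']; exact c6)
      have hU : Ub (j + w) ≤ Ub (j + w + 1) := Ub_mono (by omega)
      refine ⟨X, Z1 ++ P, W, R ++ Z3, Y, ?_, TIP.BU_app c1 p1, p2, TIP.BU_app p3 c3, ?_, ?_, p5, ?_, ?_, hY, ?_⟩
      · rw [e, p4]
        simp only [List.append_assoc]
      · rw [TIP.hgt_app c1 p1]
        have : 2 ^ (j + w + 1 + 1) = 2 ^ (j + w + 2) := rfl
        omega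
      · rw [TIP.hgt_app p3 c3]
        have : 2 ^ (j + w + 1 + 1) = 2 ^ (j + w + 2) := rfl
        omega
      · have h2 : (nc Z2 : ℝ) ≤ 2 * nc W := by exact_mod_cast p6
        have h3 : κ * Ub (j + w) ≤ κ * Ub (j + w + 1) := mul_le_mul_of_nonneg_left hU hκ.le
        linarith
      · have e2 : (Z1 ++ P) ++ (W ++ (R ++ Z3)) = Z1 ++ (Z2 ++ Z3) := by
          rw [p4]
          simp only [List.append_assoc]
        rw [e2]
        refine in_mono c8 (le_of_eq ?_)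
        rw [pow_succ]
        ring
      · refine in_mono hin (Nat.pow_le_pow_right (by norm_num) (by omega))
  · refine le_trans ?_ hn
    have e1 : ml (j + w + 1) ≤ 4 ^ (w + 1) * ml j := by
      rw [add_assoc, ml_add]
      refine mul_le_mul_of_nonneg_right ?_ (ml_pos j).le
      have : (4 : ℝ) ^ (w + 1) = (2 : ℝ) ^ ((2 : ℝ) * ((w + 1 : ℕ) : ℝ)) := by
        rw [Real.rpow_mul (by norm_num), Real.rpow_natCast]
        norm_num
      rw [this]
      refine Real.rpow_le_rpow_of_exponent_le (by norm_num) ?_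
      have : (0 : ℝ) ≤ ((w + 1 : ℕ) : ℝ) := Nat.cast_nonneg _
      linarith
    calc (2 : ℝ) ^ b1 * ml (j + w + 1) ≤ 2 ^ b1 * (4 ^ (w + 1) * ml j) := by gcongr
      _ = 2 ^ (b1 + 2 * w + 2) * ml j := by
        rw [show (4 : ℝ) = 2 ^ 2 by norm_num, ← pow_mul]
        ring

/-- **words with a window whose end part contains a word in VV** -/
theorem endEvT_mass (hE : ExT) (hM : YMassJ) {κ : ℝ} (hκ : 0 < κ) : ∃ (K1 : ℝ) (b0 : ℕ), 1 ≤ K1 ∧
    ∀ (VV : Set (List Bool)) (C b J n j : ℕ) (D δ : ℝ) (ρ : ℤ), b0 ≤ b → 2 * C ≤ 2 ^ J → 0 ≤ D → HT D n j → j ≤ b →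
    0 ≤ δ → 2 * ρ + 2 ≤ 3 * 2 ^ (b + 1) →
    gf {w | w ∈ WL (b + (J + 1) + 6) ∧ ∃ V ∈ VV, ∃ R, w = V ++ R} ≤
      ENNReal.ofReal (δ * Ub (b + (J + 1) + 6)) * Xb (b + (J + 1) + 6) ^ 2 →
    gf {L | L ∈ FTp n j ∧ L ∈ Win κ C b J ∧ L ∈ EndEv VV ρ} ≤
      ENNReal.ofReal (K1 * Real.sqrt (K1 ^ (J + 2) * δ) * (D * prT n (b + (J + 1)))) := by
  obtain ⟨η, hηd⟩ : ∃ η : ℝ, η = κ / 8 := ⟨_, rfl⟩
  have hη : 0 < η := by rw [hηd]; positivity
  obtain ⟨C1, hC1, h1⟩ := yv_mass hη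
  obtain ⟨C2, hC2, h2⟩ := efT_mass hE hM hη
  obtain ⟨b0, hb0⟩ := kU_big hκ
  have hC10 : 0 < C1 := by linarith
  have hC20 : 0 < C2 := by linarith
  refine ⟨max (C2 / η) (C1 * C2) + 1, b0, by
    have := (by positivity : 0 ≤ C1 * C2).trans (le_max_right (C2 / η) (C1 * C2))
    linarith, fun VV C b J n j D δ ρ hb hCJ hD hF hjb hδ hρ hVV => ?_⟩
  have h8 := hb0 b hb
  have hU := Ub_pos b
  have hp := prT_nonneg n (b + (J + 1))
  obtain ⟨h, hh1, hh2, hh4⟩ := h_num h8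
  have hηh : η * Ub b ≤ (h : ℝ) := by
    rw [hηd]
    calc κ / 8 * Ub b = κ * Ub b / 8 := by ring
      _ ≤ h := hh2
  have key := h2 D n j b (J + 1) hD hF hjb
    (fun A B => A ∈ GT b η ∧ B ∈ YV VV η b (J + 1) ∧ rev B ∈ GT b η ∧ B ∈ SA) (C1 ^ (J + 2) * δ) η (by positivity) hη
    (fun A B hAB => ⟨hAB.1, hAB.2.2.2, hAB.2.2.1⟩) (fun A => (gf_mono (fun B hB => hB.1.2.1)).trans (by
      have := h1 VV b (J + 1) δ hδ hVV
      exact this))
  refine (gf_mono ?_).trans (key.trans (ENNReal.ofReal_le_ofReal ?_))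
  · rintro L ⟨hLF, ⟨X, Z1, Z2, Z3, Y, hw⟩, hEv⟩
    refine ⟨hLF, ?_⟩
    obtain ⟨S, hS, hcut⟩ := slots hw hh1 (hh4 _ hw.n2)
    have h5 : S.card ≤ nD (2 ^ (b + (J + 1)))
        (fun A B => A ∈ GT b η ∧ B ∈ YV VV η b (J + 1) ∧ rev B ∈ GT b η ∧ B ∈ SA) L := by
      refine nD_ge fun c hc => ?_
      obtain ⟨c1, M, N, c2, c3, c4, c5, c6, c7, c8, -⟩ := hcut c hc
      have hhM : hgt M + hgt N = hgt Z2 := by rw [← TIP.hgt_app c3 c4, ← c2]
      have hh2' := hw.h2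
      have hnN : η * Ub b ≤ (nc N : ℝ) := hηh.trans (by exact_mod_cast c8)
      have hnM : η * Ub b ≤ (nc M : ℝ) := hηh.trans (by exact_mod_cast c7)
      have hYC : YCp η b (L.drop c) N Z3 Y := ⟨c6, hw.ne, c4, hw.b3, by omega, hw.h3, hnN⟩
      have hin : In (2 ^ (b + (J + 1))) (L.drop c) := by
        rw [c6]
        exact hw.inB c2 c3 c4 hCJ
      have hp1 : 2 ^ (b + 1) ≤ 2 ^ (b + 2) := Nat.pow_le_pow_right (by norm_num) (by omega)
      refine ⟨c1, ⟨?_, ?_, ?_, SA_drop hLF.1 c⟩, hin⟩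
      · rw [c5]
        exact ne_A hw.b1 (hp1.trans hw.h1) c3 (by omega) hnM
      · have e : L.take c ++ L.drop c = L := List.take_append_drop c L
        exact end_YV (A := L.take c) hYC (by rw [e]; exact hLF.1) hin hρ (by rw [e]; exact hEv)
      · rw [c6]
        exact ne_B c4 (by omega) hw.b3 (hp1.trans hw.h3) hnN
    have h6 : (h : ℝ) ≤ (nD (2 ^ (b + (J + 1)))
        (fun A B => A ∈ GT b η ∧ B ∈ YV VV η b (J + 1) ∧ rev B ∈ GT b η ∧ B ∈ SA) L : ℝ) := by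
      exact_mod_cast hS.trans h5
    exact hηh.trans h6
  · have h5 : 0 ≤ D * prT n (b + (J + 1)) := by positivity
    refine mul_le_mul_of_nonneg_right ?_ h5
    obtain ⟨K1, hK1⟩ : ∃ K1 : ℝ, K1 = max (C2 / η) (C1 * C2) + 1 := ⟨_, rfl⟩
    rw [← hK1]
    have h6 : C2 / η ≤ K1 := by rw [hK1]; have := le_max_left (C2 / η) (C1 * C2); linarith
    have h7 : C1 * C2 ≤ K1 := by rw [hK1]; have := le_max_right (C2 / η) (C1 * C2); linarith
    have h8 : Real.sqrt (C2 ^ (J + 1 + 1) * (C1 ^ (J + 2) * δ)) ≤ Real.sqrt (K1 ^ (J + 2) * δ) := by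
      apply Real.sqrt_le_sqrt
      calc C2 ^ (J + 1 + 1) * (C1 ^ (J + 2) * δ) = (C1 * C2) ^ (J + 2) * δ := by rw [mul_pow]; ring
        _ ≤ K1 ^ (J + 2) * δ := by gcongr
    calc C2 * Real.sqrt (C2 ^ (J + 1 + 1) * (C1 ^ (J + 2) * δ)) / η =
        C2 / η * Real.sqrt (C2 ^ (J + 1 + 1) * (C1 ^ (J + 2) * δ)) := by ring
      _ ≤ K1 * Real.sqrt (K1 ^ (J + 2) * δ) := by
        refine mul_le_mul h6 h8 (Real.sqrt_nonneg _) (le_trans (by positivity) h6)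

/-- **words with a window with a touch of the regular start part and the end part** -/
theorem mEvT_mass (hE : ExT) (hM : YMassJ) (hY : YNSt) {κ : ℝ} (hκ : 0 < κ) (C J : ℕ) (hCJ : 6 * C ≤ 2 ^ J) :
    ∀ ε : ℝ, 0 < ε → ∃ (M : ℝ) (b0 : ℕ), 0 < M ∧ ∀ (b n j i d S K : ℕ) (D : ℝ) (J' m R : ℕ → ℕ) (r : ℤ), b0 ≤ b →
    0 ≤ D → HT D n j → j ≤ b → i + 5 ≤ b → r + 2 ≤ d →
    (∀ s, s < S → 6 ≤ K - J' s ∧ 107 ≤ m s ∧ R s = 3 * m s * 2 ^ (K - J' s) ∧ R s ≤ 2 ^ i ∧ d ≤ R s) →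
    (∀ s, s + 1 < S → 80 * R (s + 1) ≤ 2 ^ (K - J' s)) → M ≤ ∑ s ∈ range S, ((2 ^ (K - J' s) : ℕ) : ℝ) / R s →
    gf {L | L ∈ FTp n j ∧ L ∈ Win κ C b J ∧ L ∈ MEv i r ∧ L ∉ StartEv (IrS S K J' m) (2 ^ (i + 3))} ≤
      ENNReal.ofReal (ε * (D * prT n (b + (J + 1)))) := by
  obtain ⟨η, hηd⟩ : ∃ η : ℝ, η = κ / 8 := ⟨_, rfl⟩
  have hη : 0 < η := by rw [hηd]; positivity
  obtain ⟨C2, hC2, h2⟩ := efT_mass hE hM hη
  have hC20 : 0 < C2 := by linarith
  intro ε hε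
  obtain ⟨δ, hδd⟩ : ∃ δ : ℝ, δ = (ε * η / C2) ^ 2 / C2 ^ (J + 2) * η := ⟨_, rfl⟩
  have hδ : 0 < δ := by rw [hδd]; positivity
  obtain ⟨M, b1, hM0, hY⟩ := hY η J (J + 1) δ hη hδ
  obtain ⟨b0, hb0⟩ := kU_big hκ
  refine ⟨M, max b0 b1, hM0, fun b n j i d S K D J' m R r hb hD hF hjb hib hrd hS hR hsum => ?_⟩
  have h8 := hb0 b ((le_max_left _ _).trans hb)
  have hU := Ub_pos b
  have hp := prT_nonneg n (b + (J + 1))
  obtain ⟨h, hh1, hh2, hh4⟩ := h_num h8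
  have hηh : η * Ub b ≤ (h : ℝ) := by
    rw [hηd]
    calc κ / 8 * Ub b = κ * Ub b / 8 := by ring
      _ ≤ h := hh2
  have hp1 : 2 ^ (b + 1) ≤ 2 ^ (b + 2) := Nat.pow_le_pow_right (by norm_num) (by omega)
  have hib2 : 2 ^ i ≤ 2 ^ (b + J) := Nat.pow_le_pow_right (by norm_num) (by omega)
  obtain ⟨ρ, hρ⟩ : ∃ ρ : List Bool → List Bool → Prop, ρ = fun A B => A ∈ GT b η ∧ B ∈ SA ∧ rev B ∈ GT b η ∧
      B ∈ YN η (η * Ub b) b J (J + 1) S d (fun s => 2 ^ (K - J' s)) R (A.drop 1) := ⟨_, rfl⟩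
  have key := h2 D n j b (J + 1) hD hF hjb ρ (δ / η) η (by positivity) hη
    (fun A B hAB => by rw [hρ] at hAB; exact ⟨hAB.1, hAB.2.1, hAB.2.2.1⟩) (fun A => by
      refine (gf_mono (Q := YN η (η * Ub b) b J (J + 1) S d (fun s => 2 ^ (K - J' s)) R (A.drop 1)) fun B hB => ?_).trans
        (hY (A.drop 1) b S d (fun s => 2 ^ (K - J' s)) R η ((le_max_right _ _).trans hb) hη (fun s hs => ?_) hR hsum)
      · have h3 := hB.1
        rw [hρ] at h3
        exact h3.2.2.2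
      · obtain ⟨s1, s2, s3, s4, s5⟩ := hS s hs
        have h3 : 2 ^ 6 ≤ 2 ^ (K - J' s) := Nat.pow_le_pow_right (by norm_num) s1
        refine ⟨h3, ?_, s5, s4.trans hib2⟩
        rw [s3]
        exact Nat.mul_le_mul_right _ (by omega))
  refine (gf_mono ?_).trans (key.trans (ENNReal.ofReal_le_ofReal ?_))
  · rintro L ⟨hLF, ⟨X, Z1, Z2, Z3, Y, hw⟩, hEv, hreg⟩
    refine ⟨hLF, ?_⟩
    obtain ⟨T, hT, hcut⟩ := slots hw hh1 (hh4 _ hw.n2)
    have h5 : T.card ≤ nD (2 ^ (b + (J + 1))) ρ L := by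
      refine nD_ge fun c hc => ?_
      obtain ⟨c1, M', N, c2, c3, c4, c5, c6, c7, c8, T2, hT2, hcut2⟩ := hcut c hc
      have hhM : hgt M' + hgt N = hgt Z2 := by rw [← TIP.hgt_app c3 c4, ← c2]
      have hh2' := hw.h2
      have hnN : η * Ub b ≤ (nc N : ℝ) := hηh.trans (by exact_mod_cast c8)
      have hnM : η * Ub b ≤ (nc M' : ℝ) := hηh.trans (by exact_mod_cast c7)
      have hin : In (2 ^ (b + (J + 1))) (L.drop c) := by
        rw [c6]
        exact hw.inB c2 c3 c4 (by omega)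
      have hc0 : 1 ≤ c := by
        have h6 := congrArg List.length c5
        rw [List.length_take, min_eq_left c1] at h6
        simp only [List.length_append] at h6
        have h7 : Z1 ≠ [] := by
          rintro rfl
          have h7 := hw.h1
          rw [TIP.hgt_nil] at h7
          have := Nat.one_le_two_pow (n := b + 2)
          omega
        have := List.length_pos_iff.2 h7
        omega
      have hA1 : (L.take c).drop 1 ++ L.drop c = L.drop 1 := by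
        have h6 : (L.take c).drop 1 = (L.drop 1).take (c - 1) := by rw [List.drop_take]
        have h7 : L.drop c = (L.drop 1).drop (c - 1) := by
          rw [List.drop_drop]
          congr 1
          omega
        rw [h6, h7, List.take_append_drop]
      have hAl : ((L.take c).drop 1).length = c - 1 := by
        rw [List.length_drop, List.length_take]
        omega
      rw [hρ]
      refine ⟨c1, ⟨?_, SA_drop hLF.1 c, ?_, T2, ?_, fun k hk => ?_⟩, hin⟩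
      · rw [c5]
        exact ne_A hw.b1 (hp1.trans hw.h1) c3 (by omega) hnM
      · rw [c6]
        exact ne_B c4 (by omega) hw.b3 (hp1.trans hw.h3) hnN
      · exact hηh.trans (by exact_mod_cast hT2)
      · obtain ⟨k1, k2, k3, k4⟩ := hcut2 k hk
        have hnk : η * Ub b ≤ (nc (N.drop k) : ℝ) := hηh.trans (by exact_mod_cast k4)
        have hhN : hgt (N.take k) + hgt (N.drop k) = hgt N := by
          rw [← TIP.hgt_app k2 k3, List.take_append_drop]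
        have htk : (L.drop c).take k = N.take k := by rw [c6, List.take_append_of_le_length k1]
        have hdk : (L.drop c).drop k = N.drop k ++ (Z3 ++ Y) := by rw [c6, List.drop_append_of_le_length k1]
        have hZ2 : Z2 = M' ++ (N.take k ++ N.drop k) := by rw [List.take_append_drop, ← c2]
        have hZ2' : Z2 = (M' ++ N.take k) ++ N.drop k := by rw [hZ2, List.append_assoc]
        refine ⟨?_, ?_, ?_, ?_, ?_, ?_, SA_drop (SA_drop hLF.1 c) k, ?_, ?_⟩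
        · rw [c6, List.length_append]
          omega
        · rw [htk]
          exact k2
        · rw [htk]
          omega
        · rw [htk]
          have h6 := hn_In (hw.inV hZ2 c3)
          refine h6.trans ?_
          have h7 : 3 * (2 * (C * 2 ^ b)) ≤ 2 ^ (b + J) := by
            rw [pow_add]
            calc 3 * (2 * (C * 2 ^ b)) = 2 ^ b * (6 * C) := by ring
              _ ≤ 2 ^ b * 2 ^ J := Nat.mul_le_mul_left _ hCJ
          exact_mod_cast h7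
        · rw [hA1]
          exact SA_drop hLF.1 1
        · rw [hA1, hAl]
          exact near_M hw c1 c2 c3 c5 c6 k1 k2 k3 hnk hib hrd
            (fun s hs => ⟨(hS s hs).1, (hS s hs).2.1, (hS s hs).2.2.1, (hS s hs).2.2.2.1⟩) hEv hreg
        · rw [hdk]
          exact ne_B k3 (by omega) hw.b3 (hp1.trans hw.h3) hnk
        · rw [hdk]
          exact hw.inB hZ2' (TIP.BU_app c3 k2) k3 (by omega)
    have h6 : (h : ℝ) ≤ (nD (2 ^ (b + (J + 1))) ρ L : ℝ) := by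
      exact_mod_cast hT.trans h5
    exact hηh.trans h6
  · have h5 : 0 ≤ D * prT n (b + (J + 1)) := by positivity
    refine mul_le_mul_of_nonneg_right (le_of_eq ?_) h5
    have e1 : C2 ^ (J + 1 + 1) * (δ / η) = (ε * η / C2) ^ 2 := by
      rw [hδd]
      field_simp
    rw [e1, Real.sqrt_sq (by positivity)]
    field_simp

/-- **row Q** -/
theorem ntT_of {κ : ℝ} {C : ℕ} (hκ : 0 < κ) (hE : ExT) (hM : YMassJ) (hN : NWinT κ C) (hY : YNSt) (hPl : PlNt) : NtT := by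
  intro u c k ε _ hε
  have hκ2 : 0 < κ / 2 := by positivity
  -- the windows
  obtain ⟨ε1, hε1d⟩ : ∃ ε1 : ℝ, ε1 = ε / (40 * 64 ^ (u + 6)) := ⟨_, rfl⟩
  have hε1 : 0 < ε1 := by rw [hε1d]; positivity
  obtain ⟨J0, hwin⟩ := winT_of hκ hN ε1 hε1
  obtain ⟨J, hJd⟩ : ∃ J, J = J0 + 6 * (2 * C) := ⟨_, rfl⟩
  have hCJ : 6 * (2 * C) ≤ 2 ^ J := by
    have h1 := (Nat.lt_two_pow_self (n := J)).le
    omega
  obtain ⟨b1, hwin1⟩ := hwin J (u + 5) (by omega)
  obtain ⟨b1', hwin2⟩ := hwin J (u + 4) (by omega)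
  obtain ⟨g, hg⟩ : ∃ g, g = u + 5 + (J + 1) + 6 := ⟨_, rfl⟩
  obtain ⟨G, hG⟩ : ∃ G : ℝ, G = 64 ^ (u + 5 + (J + 1)) := ⟨_, rfl⟩
  have hG0 : 0 < G := by rw [hG]; positivity
  -- the masses
  obtain ⟨K1, b2, hK1, hend⟩ := endEvT_mass hE hM hκ2
  have hK10 : 0 < K1 := by linarith
  obtain ⟨δ, hδd⟩ : ∃ δ : ℝ, δ = (ε / (80 * K1 * G)) ^ 2 / K1 ^ (J + 2) / 2 := ⟨_, rfl⟩
  have hδ : 0 < δ := by rw [hδd]; positivity
  have hδK : K1 * Real.sqrt (K1 ^ (J + 2) * (2 * δ)) = ε / (80 * G) := by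
    have e1 : K1 ^ (J + 2) * (2 * δ) = (ε / (80 * K1 * G)) ^ 2 := by
      rw [hδd]
      field_simp
    rw [e1, Real.sqrt_sq (by positivity)]
    field_simp
  obtain ⟨M, b3, hM0, hme⟩ := mEvT_mass hE hM hY hκ2 (2 * C) J hCJ (ε / (5 * G)) (by positivity)
  -- the plain bound
  obtain ⟨k', hk'⟩ : ∃ k', k' = k + 1 + g := ⟨_, rfl⟩
  obtain ⟨e', K0, hke, heK, hpl⟩ := hPl k' δ hδ
  obtain ⟨e1, he1⟩ : ∃ e1 : ℝ, e1 = min δ (1 / 2 ^ g) := ⟨_, rfl⟩
  have he10 : 0 < e1 := by rw [he1]; exact lt_min hδ (by positivity)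
  have he1δ : e1 ≤ δ := by rw [he1]; exact min_le_left _ _
  have he1g : e1 ≤ 1 / 2 ^ g := by rw [he1]; exact min_le_right _ _
  obtain ⟨S, J', m, K0', hS0, -, hm, hJ', h240, hr0, hMs, hK0', hoff⟩ := reg_off (e := e1) (M := M) he10 0
  have hJmono : ∀ s, s ≤ S → J' s ≤ J' S := fun s hs => (strictMono_nat_of_lt_succ hJ').monotone hs
  obtain ⟨e, he⟩ : ∃ e, e = e' + J' S + k + 3 := ⟨_, rfl⟩
  obtain ⟨b0, hb0⟩ : ∃ b0, b0 = b1 + b1' + b2 + b3 + K0 + K0' + e + 8 := ⟨_, rfl⟩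
  refine ⟨e, b0, by omega, by omega, fun D n j hD hF hj hn => ?_⟩
  have hp := prT_nonneg n j
  have hml := one_le_ml j
  obtain ⟨b, hb⟩ : ∃ b, b = j + (u + 5) := ⟨_, rfl⟩
  have hb' : j + 1 + (u + 4) = b := by omega
  obtain ⟨K, hK⟩ : ∃ K, K = b + (J + 1) + 6 := ⟨_, rfl⟩
  have hKg : K = j + g := by omega
  -- the length
  have hnb : (2 : ℝ) ^ b0 ≤ n := by
    have h1 : (2 : ℝ) ^ b0 * 1 ≤ 2 ^ b0 * ml j := mul_le_mul_of_nonneg_left hml (by positivity)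
    linarith
  have hn2 : 2 ≤ n := by
    have h1 : (2 : ℝ) ^ 1 ≤ 2 ^ b0 := pow_le_pow_right₀ (by norm_num) (by omega)
    have h2 : ((2 : ℕ) : ℝ) ≤ n := by push_cast; linarith
    exact_mod_cast h2
  have hn1 : 2 ^ b1 * ml j ≤ n := by
    refine le_trans (mul_le_mul_of_nonneg_right ?_ (by linarith)) hn
    exact pow_le_pow_right₀ (by norm_num) (by omega)
  have hn1' : 2 ^ b1' * ml (j + 1) ≤ ((n - 1 : ℕ) : ℝ) := by
    have h1 : ml (j + 1) ≤ 4 * ml j := by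
      rw [ml_add]
      refine mul_le_mul_of_nonneg_right ?_ (by linarith)
      calc (2 : ℝ) ^ ((4 / 3 : ℝ) * ((1 : ℕ) : ℝ)) ≤ 2 ^ (2 : ℝ) := by
            refine Real.rpow_le_rpow_of_exponent_le (by norm_num) ?_
            norm_num
        _ = 4 := by
            rw [show (2 : ℝ) = ((2 : ℕ) : ℝ) by norm_num, Real.rpow_natCast]
            norm_num
    have h2 : (n : ℝ) ≤ 2 * ((n - 1 : ℕ) : ℝ) := by
      have : n ≤ 2 * (n - 1) := by omega
      exact_mod_cast this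
    have h3 : (2 : ℝ) ^ (b1' + 3) * ml j ≤ n := by
      refine le_trans (mul_le_mul_of_nonneg_right ?_ (by linarith)) hn
      exact pow_le_pow_right₀ (by norm_num) (by omega)
    have h4 : (2 : ℝ) ^ b1' * ml (j + 1) ≤ 2 ^ b1' * (4 * ml j) := mul_le_mul_of_nonneg_left h1 (by positivity)
    have h5 : (2 : ℝ) ^ (b1' + 3) = 8 * 2 ^ b1' := by ring
    rw [h5] at h3
    nlinarith
  have hF' : HT D (n - 1) (j + 1) := fun n' i hn' hi => hF n' i (by omega) (by omega)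
  -- powers
  have hpw : ∀ a a' : ℕ, a ≤ a' → (2 : ℤ) ^ a ≤ 2 ^ a' := fun a a' h => pow_le_pow_right₀ (by norm_num) h
  obtain ⟨r, hr⟩ : ∃ r : ℤ, r = 2 ^ (j - e) := ⟨_, rfl⟩
  obtain ⟨R0, hR0⟩ : ∃ R0 : ℤ, R0 = 2 ^ (j - k) := ⟨_, rfl⟩
  have hrp : 1 ≤ r := by rw [hr]; exact one_le_pow₀ (by norm_num)
  have hrK : r + 2 ≤ 2 ^ (K - e') := by
    have h1 := hpw (j - e) (j - e' - 1) (by omega)
    have h2 := hpw 1 (j - e' - 1) (by omega)
    have h3 := hpw (j - e') (K - e') (by omega)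
    have h4 : (2 : ℤ) ^ (j - e') = 2 * 2 ^ (j - e' - 1) := by
      rw [← pow_succ']
      congr 1
      omega
    rw [hr]
    linarith
  have hRk : 2 ^ (K - k') ≤ R0 - r - 2 := by
    have h1 := hpw (j - e) (j - k - 3) (by omega)
    have h2 := hpw 1 (j - k - 3) (by omega)
    have h3 : K - k' = j - k - 1 := by omega
    have h4 : (2 : ℤ) ^ (j - k) = 8 * 2 ^ (j - k - 3) := by
      rw [show (8 : ℤ) = 2 ^ 3 by norm_num, ← pow_add]
      congr 1
      omega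
    have h5 : (2 : ℤ) ^ (j - k - 1) = 4 * 2 ^ (j - k - 3) := by
      rw [show (4 : ℤ) = 2 ^ 2 by norm_num, ← pow_add]
      congr 1
      omega
    rw [h3, h5, hR0, h4, hr]
    linarith
  have hR0p : 0 < R0 := by
    rw [hR0]
    positivity
  -- the bad words
  obtain ⟨VV, hVVd⟩ : ∃ VV : Set (List Bool), VV = NTp (r + 2) (R0 - r - 2) ∪ IrS S K J' m := ⟨_, rfl⟩
  have hVV : gf {w | w ∈ WL K ∧ ∃ V ∈ VV, ∃ W, w = V ++ W} ≤ ENNReal.ofReal (2 * δ * Ub K) * Xb K ^ 2 := by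
    rw [hVVd]
    refine plain_VV hδ.le hrK hRk (hpl K (by omega)) ((hoff K (by omega)).trans ?_)
    refine mul_le_mul_left (ENNReal.ofReal_le_ofReal ?_) _
    exact mul_le_mul_of_nonneg_right he1δ (Ub_pos K).le
  rw [hK] at hVV
  obtain ⟨ρ, hρ⟩ : ∃ ρ : ℤ, ρ = 2 ^ (j + u + 3) := ⟨_, rfl⟩
  have hρb : 2 * ρ + 2 ≤ 3 * 2 ^ (b + 1) := by
    have h1 : (2 : ℤ) ^ (b + 1) = 8 * 2 ^ (j + u + 3) := by
      rw [show (8 : ℤ) = 2 ^ 3 by norm_num, ← pow_add]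
      congr 1
      omega
    have h2 : (1 : ℤ) ≤ 2 ^ (j + u + 3) := one_le_pow₀ (by norm_num)
    rw [h1, hρ]
    linarith
  -- the radii
  obtain ⟨R, hR⟩ : ∃ R : ℕ → ℕ, R = fun s => 3 * m s * 2 ^ (K - J' s) := ⟨_, rfl⟩
  have hJK : ∀ s, s ≤ S → J' s + 6 ≤ K := fun s hs => by have := hJmono s hs; omega
  have hR0i : 3 * m 0 * 2 ^ (K - J' 0) ≤ 2 ^ (j + u) := by
    have h1 : 3 * (m 0 : ℝ) ≤ 1 / 2 ^ g * 2 ^ J' 0 := hr0.trans (mul_le_mul_of_nonneg_right he1g (by positivity))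
    have h2 : 3 * m 0 * 2 ^ g ≤ 2 ^ J' 0 := by
      have h3 : 3 * (m 0 : ℝ) * 2 ^ g ≤ 2 ^ J' 0 := by
        calc 3 * (m 0 : ℝ) * 2 ^ g ≤ (1 / 2 ^ g * 2 ^ J' 0) * 2 ^ g :=
              mul_le_mul_of_nonneg_right h1 (by positivity)
          _ = 2 ^ J' 0 := by field_simp
      exact_mod_cast h3
    have h4 : 3 * m 0 * 2 ^ (K - J' 0) * 2 ^ g ≤ 2 ^ j * 2 ^ g := by
      calc 3 * m 0 * 2 ^ (K - J' 0) * 2 ^ g = (3 * m 0 * 2 ^ g) * 2 ^ (K - J' 0) := by ring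
        _ ≤ 2 ^ J' 0 * 2 ^ (K - J' 0) := Nat.mul_le_mul_right _ h2
        _ = 2 ^ j * 2 ^ g := by
          rw [← pow_add, ← pow_add]
          congr 1
          have := hJK 0 (Nat.zero_le _)
          omega
    have h5 := Nat.le_of_mul_le_mul_right h4 (by positivity)
    exact h5.trans (Nat.pow_le_pow_right (by norm_num) (by omega))
  have hRi : ∀ s, s < S → R s ≤ 2 ^ (j + u) := fun s hs => by
    have h1 := (radQ (K := K) hJ' hm h240 s (by have := hJK s hs.le; omega)).1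
    rw [hR]
    exact h1.trans hR0i
  obtain ⟨d, hd⟩ : ∃ d : ℕ, d = 2 ^ (j - e) + 2 := ⟨_, rfl⟩
  have hdR : ∀ s, s < S → d ≤ R s := fun s hs => by
    have h1 : 2 ^ (j - e) ≤ 2 ^ (j - J' S - 1) := Nat.pow_le_pow_right (by norm_num) (by omega)
    have h2 : 2 ^ 1 ≤ 2 ^ (j - J' S - 1) := Nat.pow_le_pow_right (by norm_num) (by omega)
    have h3 : 2 ^ (j - J' S) = 2 * 2 ^ (j - J' S - 1) := by
      rw [← pow_succ']
      congr 1
      omega
    have h4 : 2 ^ (j - J' S) ≤ 2 ^ (K - J' s) := Nat.pow_le_pow_right (by norm_num) (by have := hJmono s hs.le; omega)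
    have h5 : 2 ^ (K - J' s) ≤ 3 * m s * 2 ^ (K - J' s) := Nat.le_mul_of_pos_left _ (by have := hm s; omega)
    rw [hR, hd]
    show 2 ^ (j - e) + 2 ≤ 3 * m s * 2 ^ (K - J' s)
    omega
  have hrd : r + 2 ≤ d := by
    rw [hr, hd]
    push_cast
    exact le_rfl
  have hRs : ∀ s, s + 1 < S → 80 * R (s + 1) ≤ 2 ^ (K - J' s) := fun s hs => by
    have h2 := (radQ (K := K) hJ' hm h240 (s + 1) (by have := hJK (s + 1) hs.le; omega)).2 (by omega)
    rw [hR]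
    exact h2
  have hsum : M ≤ ∑ s ∈ range S, ((2 ^ (K - J' s) : ℕ) : ℝ) / R s := by
    refine hMs.trans (le_of_eq (Finset.sum_congr rfl fun s _ => ?_))
    have h1 : (0 : ℝ) < m s := by
      have := hm s
      exact_mod_cast (by omega : 0 < m s)
    rw [hR]
    push_cast
    field_simp
  -- the covering
  obtain ⟨W, hW⟩ : ∃ W : Set (List Bool), W = Win (κ / 2) (2 * C) b J := ⟨_, rfl⟩
  obtain ⟨T1, hT1⟩ : ∃ T1 : Set (List Bool), T1 = {L | L ∈ FTp n j ∧ L ∉ W} := ⟨_, rfl⟩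
  obtain ⟨T2, hT2⟩ : ∃ T2 : Set (List Bool), T2 = {L | L ∈ FTp n j ∧ L ∈ W ∧ L ∈ EndEv VV ρ} := ⟨_, rfl⟩
  obtain ⟨T3, hT3⟩ : ∃ T3 : Set (List Bool), T3 = {L | L ∈ FT n (j + 1) ∧ rv L ∈ Wᶜ} := ⟨_, rfl⟩
  obtain ⟨T4, hT4⟩ : ∃ T4 : Set (List Bool), T4 = {L | L ∈ FT n (j + 1) ∧ rv L ∈ W ∩ EndEv VV ρ} := ⟨_, rfl⟩
  obtain ⟨T5, hT5⟩ : ∃ T5 : Set (List Bool), T5 = {L | L ∈ FTp n j ∧ L ∈ W ∧ L ∈ MEv (j + u) r ∧
    L ∉ StartEv (IrS S K J' m) (2 ^ (j + u + 3))} := ⟨_, rfl⟩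
  have hcov : {L | L ∈ FTp n j ∧ L ∈ NTs (j + c) (j + u) (2 ^ (j - e)) (2 ^ (j - k))} ⊆ ((T1 ∪ T2) ∪ (T3 ∪ T4)) ∪ T5 := by
    rintro L ⟨hLF, hL⟩
    rw [← hr, ← hR0] at hL
    by_cases h1 : L ∈ W
    swap
    · exact Or.inl (Or.inl (Or.inl (by rw [hT1]; exact ⟨hLF, h1⟩)))
    by_cases h2 : L ∈ EndEv VV ρ
    · exact Or.inl (Or.inl (Or.inr (by rw [hT2]; exact ⟨hLF, h1, h2⟩)))
    have hLF' : L ∈ FT n (j + 1) := FTp_sub_FT (by omega) hLF
    by_cases h3 : rv L ∈ W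
    swap
    · exact Or.inl (Or.inr (Or.inl (by rw [hT3]; exact ⟨hLF', h3⟩)))
    by_cases h4 : rv L ∈ EndEv VV ρ
    · exact Or.inl (Or.inr (Or.inr (by rw [hT4]; exact ⟨hLF', h3, h4⟩)))
    have h5 := nts_cases (κ := κ / 2) (C := 2 * C) (b := b) (J := J) (by rw [← hW]; exact h1) (by omega) (by omega) hR0p hL
    rw [← hρ] at h5
    rcases h5 with h5 | h5 | h5
    · exact (h2 (EndEv_mono (by rw [hVVd]; exact Set.subset_union_left) le_rfl h5)).elim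
    · exact (h4 (start_rv (StartEv_mono (by rw [hVVd]; exact Set.subset_union_left) le_rfl h5))).elim
    · refine Or.inr ?_
      rw [hT5]
      refine ⟨hLF, h1, h5, fun h6 => h4 (start_rv ?_)⟩
      rw [hρ]
      exact StartEv_mono (by rw [hVVd]; exact Set.subset_union_right) le_rfl h6
  -- the masses
  have hpG : prT n (b + (J + 1)) ≤ G * prT n j := by
    have h1 := prT_up64 n j (u + 5 + (J + 1))
    rw [hG]
    rw [show j + (u + 5 + (J + 1)) = b + (J + 1) by omega] at h1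
    exact h1
  have hpG' : prT (n - 1) (b + (J + 1)) ≤ 8 * (G * prT n j) := by
    refine (prT_pred n _).trans ?_
    linarith
  have hp6 : prT n (j + (u + 5) + 1) ≤ 64 ^ (u + 6) * prT n j := by
    have h1 := prT_up64 n j (u + 6)
    rw [show j + (u + 6) = j + (u + 5) + 1 by omega] at h1
    exact h1
  have hp6' : prT (n - 1) (j + 1 + (u + 4) + 1) ≤ 8 * (64 ^ (u + 6) * prT n j) := by
    refine (prT_pred n _).trans ?_
    rw [show j + 1 + (u + 4) + 1 = j + (u + 5) + 1 by omega]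
    linarith
  have h16 : (0 : ℝ) < 64 ^ (u + 6) := by positivity
  have g1 : gf T1 ≤ ENNReal.ofReal (ε / 40 * (D * prT n j)) := by
    have h1 := hwin1 D n j hD hF (by omega) hn1
    rw [hT1, hW, hb]
    refine h1.trans (ENNReal.ofReal_le_ofReal ?_)
    calc ε1 * D * prT n (j + (u + 5) + 1) ≤ ε1 * D * (64 ^ (u + 6) * prT n j) := by gcongr
      _ = ε / 40 * (D * prT n j) := by
        rw [hε1d]
        field_simp
  have g2 : gf T2 ≤ ENNReal.ofReal (ε / 80 * (D * prT n j)) := by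
    have h1 := hend VV (2 * C) b J n j D (2 * δ) ρ (by omega) (by omega) hD hF (by omega) (by positivity) hρb hVV
    rw [hT2, hW]
    refine h1.trans (ENNReal.ofReal_le_ofReal ?_)
    rw [hδK]
    calc ε / (80 * G) * (D * prT n (b + (J + 1))) ≤ ε / (80 * G) * (D * (G * prT n j)) := by gcongr
      _ = ε / 80 * (D * prT n j) := by field_simp
  have g3 : gf T3 ≤ ENNReal.ofReal (2 * ε / 5 * (D * prT n j)) := by
    have h1 := hwin2 D (n - 1) (j + 1) hD hF' (by omega) hn1'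
    rw [hb', ← hW] at h1
    have h2 := gf_rvT (n := n) (j := j + 1) (by omega) (Wᶜ)
    rw [hT3]
    refine h2.trans ((mul_le_mul_right h1 2).trans ?_)
    rw [show (2 : ℝ≥0∞) = ENNReal.ofReal 2 by simp, ← ENNReal.ofReal_mul (by norm_num)]
    refine ENNReal.ofReal_le_ofReal ?_
    rw [← hb']
    calc 2 * (ε1 * D * prT (n - 1) (j + 1 + (u + 4) + 1)) ≤ 2 * (ε1 * D * (8 * (64 ^ (u + 6) * prT n j))) := by gcongr
      _ = 2 * ε / 5 * (D * prT n j) := by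
        rw [hε1d]
        field_simp
        ring
  have g4 : gf T4 ≤ ENNReal.ofReal (ε / 5 * (D * prT n j)) := by
    have h1 := hend VV (2 * C) b J (n - 1) (j + 1) D (2 * δ) ρ (by omega) (by omega) hD hF' (by omega) (by positivity)
      hρb hVV
    rw [← hW] at h1
    have h2 := gf_rvT (n := n) (j := j + 1) (by omega) (W ∩ EndEv VV ρ)
    rw [hT4]
    refine h2.trans ((mul_le_mul_right (show gf {L | L ∈ FTp (n - 1) (j + 1) ∧ L ∈ W ∩ EndEv VV ρ} ≤ _ from h1) 2).trans ?_)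
    rw [show (2 : ℝ≥0∞) = ENNReal.ofReal 2 by simp, ← ENNReal.ofReal_mul (by norm_num)]
    refine ENNReal.ofReal_le_ofReal ?_
    rw [hδK]
    calc 2 * (ε / (80 * G) * (D * prT (n - 1) (b + (J + 1)))) ≤ 2 * (ε / (80 * G) * (D * (8 * (G * prT n j)))) := by gcongr
      _ = ε / 5 * (D * prT n j) := by
        field_simp
        ring
  have g5 : gf T5 ≤ ENNReal.ofReal (ε / 5 * (D * prT n j)) := by
    have h1 := hme b n j (j + u) d S K D J' m R r (by omega) hD hF (by omega) (by omega) hrd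
      (fun s hs => ⟨by have := hJK s hs.le; omega, hm s, by rw [hR], hRi s hs, hdR s hs⟩) hRs hsum
    rw [← hW] at h1
    rw [hT5]
    refine h1.trans (ENNReal.ofReal_le_ofReal ?_)
    calc ε / (5 * G) * (D * prT n (b + (J + 1))) ≤ ε / (5 * G) * (D * (G * prT n j)) := by gcongr
      _ = ε / 5 * (D * prT n j) := by field_simp
  obtain ⟨x, hx⟩ : ∃ x : ℝ, x = D * prT n j := ⟨_, rfl⟩
  have hx0 : 0 ≤ x := by rw [hx]; positivity
  rw [← hx] at g1 g2 g3 g4 g5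
  refine (gf_mono hcov).trans ((gf_union_le _ _).trans ((add_le_add ((gf_union_le _ _).trans (add_le_add
    ((gf_union_le _ _).trans (add_le_add g1 g2)) ((gf_union_le _ _).trans (add_le_add g3 g4)))) g5).trans ?_))
  rw [← ENNReal.ofReal_add (by positivity) (by positivity), ← ENNReal.ofReal_add (by positivity) (by positivity),
    ← ENNReal.ofReal_add (by positivity) (by positivity), ← ENNReal.ofReal_add (by positivity) (by positivity)]
  refine ENNReal.ofReal_le_ofReal ?_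
  rw [mul_assoc, ← hx]
  have : 0 ≤ ε * x := by positivity
  linarith

end ART

end HexObs
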