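import Pool.Agent.ART.CyTSt
import Pool.Agent.ARM.ConfC

/-!
# ART, row T2CT (helper91): closed words rooted at the top, in a small ball

* **`topMul`**: the restricted form of `CyTSt` (one top per direction, in a class);
* **`t2CT : T2CT`**.
-/

set_option autoImplicit false

namespace HexObs

namespace ART

open Finset TS SDN SIM NTA TIP ARM

open scoped ENNReal

/-- **one top per direction**, in a class: `N gf (CyT N ∩ P) ≤ 6 gf (Cy N ∩ P')` -/
theorem topMul (N : ℕ) (P P' : Set (List Bool)) (h : ∀ (L : List Bool) (k : ℕ), L ∈ POL.Cy N → L ∈ P → L.rotate k ∈ P') :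
    (N : ℝ≥0∞) * gf {L | L ∈ CyT N ∧ L ∈ P} ≤ 6 * gf {L | L ∈ POL.Cy N ∧ L ∈ P'} := by
  classical
  have h1 : ∀ a ∈ range N, gf {L | L ∈ CyT N ∧ L ∈ P} ≤
      gf {K | (K ∈ POL.Cy N ∧ K ∈ P') ∧ K.rotate a ∈ TopCy N} := by
    intro a ha
    rw [mem_range] at ha
    have h2 := gf_le_of_inj (P := {L | L ∈ CyT N ∧ L ∈ P}) (Q := {K | (K ∈ POL.Cy N ∧ K ∈ P') ∧ K.rotate a ∈ TopCy N})
      (fun L => L.rotate (N - a)) ?_ ?_ 1 ?_
    · rwa [one_mul] at h2
    · rintro L ⟨hL, hP⟩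
      have hC := hL.1
      rw [cyT_eq] at hL
      refine ⟨⟨POL.Cy.rot hC _, h L _ hC hP⟩, ?_⟩
      show (L.rotate (N - a)).rotate a ∈ TopCy N
      rw [List.rotate_rotate, show N - a + a = N by omega, ← hC.1, List.rotate_length, hC.1]
      exact hL
    · intro L _ L' _ he
      exact List.rotate_injective (N - a) he
    · intro L _
      rw [one_mul]
      exact le_of_eq (wE_rotate L _).symm
  have h3 : (N : ℝ≥0∞) * gf {L | L ∈ CyT N ∧ L ∈ P} ≤
      ∑ a ∈ range N, gf {K | (K ∈ POL.Cy N ∧ K ∈ P') ∧ K.rotate a ∈ TopCy N} := by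
    refine le_trans (le_of_eq ?_) (sum_le_sum h1)
    rw [sum_const, card_range, nsmul_eq_mul]
  refine h3.trans ?_
  have h2 : ∀ a, gf {K | (K ∈ POL.Cy N ∧ K ∈ P') ∧ K.rotate a ∈ TopCy N} =
      ∑' w : List Bool, if w ∈ POL.Cy N ∧ w ∈ P' then (if w.rotate a ∈ TopCy N then wE w else 0) else 0 := by
    intro a
    rw [AR.gf_ite]
    refine tsum_congr fun w => ?_
    by_cases hw : w ∈ POL.Cy N ∧ w ∈ P'
    · by_cases hw' : w.rotate a ∈ TopCy N
      · rw [if_pos (show w ∈ {w | (w ∈ POL.Cy N ∧ w ∈ P') ∧ w.rotate a ∈ TopCy N} from ⟨hw, hw'⟩), if_pos hw, if_pos hw']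
      · rw [if_neg (show ¬ w ∈ {w | (w ∈ POL.Cy N ∧ w ∈ P') ∧ w.rotate a ∈ TopCy N} from fun h => hw' h.2), if_pos hw,
          if_neg hw']
    · rw [if_neg (show ¬ w ∈ {w | (w ∈ POL.Cy N ∧ w ∈ P') ∧ w.rotate a ∈ TopCy N} from fun h => hw h.1), if_neg hw]
  simp only [h2]
  rw [← Summable.tsum_finsetSum (fun _ _ => ENNReal.summable), AR.gf_ite, ← ENNReal.tsum_mul_left]
  refine ENNReal.tsum_le_tsum fun w => ?_
  by_cases hw : w ∈ POL.Cy N ∧ w ∈ P'
  · have h4 : w ∈ {L | L ∈ POL.Cy N ∧ L ∈ P'} := hw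
    simp only [if_pos hw, if_pos h4]
    rw [← sum_filter, sum_const, nsmul_eq_mul]
    refine mul_le_mul' ?_ le_rfl
    rcases Nat.eq_zero_or_pos N with h0 | h0
    · rw [h0, range_zero, filter_empty, card_empty]
      simp
    · exact_mod_cast (top_count hw.1 h0).2
  · simp only [if_neg hw, sum_const_zero]
    exact zero_le

/-- the vertices of the closed word are within `r` of each other -/
def DmC (r : ℤ) : Set (List Bool) :=
  {w | ∀ a b : ℕ, a < w.length → b < w.length → TIW.hn (vx oo up w a - vx oo up w b) ≤ r}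

lemma dmC_rot {N : ℕ} {r : ℤ} {w : List Bool} (hw : w ∈ POL.Cy N) (h : w ∈ DmC r) (k : ℕ) : w.rotate k ∈ DmC r := by
  have hc := POL.Cy.clo hw
  intro a b ha hb
  rw [List.length_rotate] at ha hb
  have e : mulE (rotTo (POL.pd w k) up) (POL.pv w (k + a) - POL.pv w k) -
      mulE (rotTo (POL.pd w k) up) (POL.pv w (k + b) - POL.pv w k) =
      mulE (rotTo (POL.pd w k) up) (POL.pv w (k + a) - POL.pv w (k + b)) := by
    rw [← mulE_sub, sub_sub_sub_cancel_right]
  rw [POL.rot_vx (by omega), POL.rot_vx (by omega), e, TIW.hn_mulE (POL.nrm_rotTo_pd _ _), POL.pv_mod hc (k + a),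
    POL.pv_mod hc (k + b)]
  have h1 := Nat.mod_lt (k + a) (show 0 < w.length by omega)
  have h2 := Nat.mod_lt (k + b) (show 0 < w.length by omega)
  rw [POL.pv_eq (by omega), POL.pv_eq (by omega)]
  exact h _ _ h1 h2

/-- the closed words of a small diameter: remove the last letter -/
lemma dmC_rem (n i : ℕ) :
    gf {w | w ∈ POL.Cy (n + 1) ∧ w ∈ DmC (2 ^ i)} ≤ 2 * gf {L | L ∈ C0 n ∧ ∀ s, s ≤ L.length → dz L s ≤ 2 ^ i} := by
  have h1 : gf {w | w ∈ POL.Cy (n + 1) ∧ w ∈ DmC (2 ^ i)} ≤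
      gf {L | L ∈ C0 n ∧ ∀ s, s ≤ L.length → dz L s ≤ 2 ^ i} *
        gf (({[true], [false]} : Finset (List Bool)) : Set (List Bool)) := by
    refine gf_le_mul fun t ht => ?_
    have h2 : t.length = n + 1 := ht.1.1
    have h3 : t ≠ [] := by
      rintro rfl
      rw [List.length_nil] at h2
      omega
    have h4 : t.dropLast ++ [t.getLast h3] = t := List.dropLast_append_getLast h3
    have h5 : t.dropLast.length = n := by
      rw [List.length_dropLast]
      omega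
    refine ⟨t.dropLast, ⟨⟨t.getLast h3, ?_⟩, ?_⟩, [t.getLast h3], ?_, h4.symm⟩
    · rw [h4]
      exact ht.1
    · intro s hs
      unfold dz
      have h6 := ht.2 s t.dropLast.length (by omega) (by omega)
      have e0 : ∀ k, k ≤ t.dropLast.length → vx oo up t k = vx oo up t.dropLast k := by
        intro k hk
        have e3 := vx_append (v0 := oo) (d0 := up) (t := t.dropLast) (s := [t.getLast h3]) (i := k) (by omega)
        rwa [h4] at e3
      have e1 := e0 s hs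
      have e2 : vx oo up t t.dropLast.length = TIW.en t.dropLast := e0 _ le_rfl
      rw [e1, e2] at h6
      exact h6
    · cases t.getLast h3 <;> simp
  refine h1.trans ?_
  rw [mul_comm]
  refine mul_le_mul' ?_ le_rfl
  rw [gf_finset, Finset.sum_pair (by decide)]
  have h1 : (2 : ℝ≥0∞) = ENNReal.ofReal 2 := by norm_num
  rw [h1]
  refine ENNReal.ofReal_le_ofReal ?_
  have := xc_bounds.2
  simp only [List.length_singleton, pow_one]
  linarith

/-- **row T2CT** -/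
theorem t2CT : T2CT := by
  intro u ε hε
  obtain ⟨A, hA, h⟩ := conf_C0 1
  obtain ⟨b0, hb0⟩ := pow_unbounded_of_one_lt (24 * A * 2 ^ (2 * (u + 1)) / ε) (one_lt_two : (1 : ℝ) < 2)
  refine ⟨b0, fun n j _ hn => ?_⟩
  have hml : 0 < ml j := by
    unfold ml
    positivity
  have hn0 : (0 : ℝ) < n := lt_of_lt_of_le (by positivity) hn
  have hn1 : 1 ≤ n := by exact_mod_cast hn0
  -- add a letter
  have h1 : gf {L | L ∈ C0T n ∧ ∀ s, s ≤ L.length → dz L s ≤ 2 ^ (j + u)} ≤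
      2 * gf {w | w ∈ CyT (n + 1) ∧ w ∈ DmC (2 ^ (j + u + 1))} := by
    classical
    obtain ⟨φ, hφ⟩ : ∃ φ : List Bool → List Bool, φ = fun w => w ++ [if w ++ [true] ∈ CyT (n + 1) then true else false] :=
      ⟨_, rfl⟩
    refine gf_le_of_inj φ ?_ ?_ 2 ?_
    · rintro w ⟨⟨c, hc⟩, hP⟩
      have h2 : φ w ∈ CyT (n + 1) := by
        rw [hφ]
        show w ++ [_] ∈ _
        split_ifs with h1
        · exact h1
        · cases c
          · exact hc
          · exact absurd hc h1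
      refine ⟨h2, ?_⟩
      have hl : (w ++ [c]).length = n + 1 := hc.1.1
      rw [List.length_append, List.length_singleton] at hl
      have hp : ∀ a, a < (φ w).length → TIW.hn (vx oo up (φ w) a - TIW.en w) ≤ 2 ^ (j + u) := by
        intro a ha
        have h3 : (φ w).length = n + 1 := h2.1.1
        have h4 : vx oo up (φ w) a = vx oo up w a := by
          rw [hφ]
          exact vx_append (by omega)
        rw [h4]
        exact hP a (by omega)
      intro a b ha hb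
      have h5 := TIW.hn_sub (vx oo up (φ w) a - TIW.en w) (vx oo up (φ w) b - TIW.en w)
      rw [sub_sub_sub_cancel_right] at h5
      have h6 := hp a ha
      have h7 := hp b hb
      rw [pow_succ]
      linarith
    · intro a _ b _ hab
      rw [hφ] at hab
      exact (List.append_inj' hab rfl).1
    · intro w _
      rw [hφ]
      have h1 : (2 : ℝ≥0∞) = ENNReal.ofReal 2 := by norm_num
      unfold wE
      rw [h1, ← ENNReal.ofReal_mul (by norm_num)]
      refine ENNReal.ofReal_le_ofReal ?_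
      rw [List.length_append, List.length_singleton, pow_succ]
      have h2 : 0 < xc ^ w.length := pow_pos xc_pos _
      have h3 := POL.xc_half
      nlinarith
  -- one top per direction
  have h2 := topMul (n + 1) (DmC (2 ^ (j + u + 1))) (DmC (2 ^ (j + u + 1))) fun L k hL hP => dmC_rot hL hP k
  have h3 := dmC_rem n (j + u + 1)
  have h4 := h n (j + u + 1) hn1
  have h5 : (n : ℝ≥0∞) * gf {L | L ∈ C0T n ∧ ∀ s, s ≤ L.length → dz L s ≤ 2 ^ (j + u)} ≤
      24 * ENNReal.ofReal (A * (n : ℝ) ^ (-(3 / 2) : ℝ) * (ml (j + u + 1) / max (n : ℝ) (ml (j + u + 1))) ^ 1) := by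
    calc (n : ℝ≥0∞) * gf {L | L ∈ C0T n ∧ ∀ s, s ≤ L.length → dz L s ≤ 2 ^ (j + u)}
        ≤ ((n + 1 : ℕ) : ℝ≥0∞) * (2 * gf {w | w ∈ CyT (n + 1) ∧ w ∈ DmC (2 ^ (j + u + 1))}) :=
          mul_le_mul' (by exact_mod_cast Nat.le_succ n) h1
      _ = 2 * (((n + 1 : ℕ) : ℝ≥0∞) * gf {w | w ∈ CyT (n + 1) ∧ w ∈ DmC (2 ^ (j + u + 1))}) := by ring
      _ ≤ 2 * (6 * (2 * gf {L | L ∈ C0 n ∧ ∀ s, s ≤ L.length → dz L s ≤ 2 ^ (j + u + 1)})) :=
          mul_le_mul' le_rfl (h2.trans (mul_le_mul' le_rfl h3))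
      _ = 24 * gf {L | L ∈ C0 n ∧ ∀ s, s ≤ L.length → dz L s ≤ 2 ^ (j + u + 1)} := by ring
      _ ≤ _ := mul_le_mul' le_rfl h4
  have h6 : (n : ℝ≥0∞) = ENNReal.ofReal (n : ℝ) := (ENNReal.ofReal_natCast n).symm
  have h7 : (24 : ℝ≥0∞) = ENNReal.ofReal 24 := by norm_num
  have hpn : 0 < (n : ℝ) ^ (-(3 / 2) : ℝ) := by positivity
  have h8 : ml (j + u + 1) ≤ 2 ^ (2 * (u + 1)) * ml j := by
    unfold ml
    rw [← Real.rpow_natCast 2 (2 * (u + 1)), ← Real.rpow_add (by norm_num)]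
    refine Real.rpow_le_rpow_of_exponent_le (by norm_num) ?_
    push_cast
    have : (0 : ℝ) ≤ u := Nat.cast_nonneg _
    linarith
  have h9 : ml (j + u + 1) / max (n : ℝ) (ml (j + u + 1)) ≤ 2 ^ (2 * (u + 1)) / 2 ^ b0 := by
    have h3 : ml (j + u + 1) / max (n : ℝ) (ml (j + u + 1)) ≤ ml (j + u + 1) / n :=
      div_le_div_of_nonneg_left (by unfold ml; positivity) hn0 (le_max_left _ _)
    refine h3.trans ?_
    rw [div_le_div_iff₀ hn0 (by positivity)]
    calc ml (j + u + 1) * 2 ^ b0 ≤ 2 ^ (2 * (u + 1)) * ml j * 2 ^ b0 := by gcongr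
      _ = 2 ^ (2 * (u + 1)) * (2 ^ b0 * ml j) := by ring
      _ ≤ 2 ^ (2 * (u + 1)) * n := by gcongr
  have h10 : 24 * A * (2 ^ (2 * (u + 1)) / 2 ^ b0) ≤ ε := by
    rw [div_lt_iff₀ hε] at hb0
    rw [← mul_div_assoc, div_le_iff₀ (by positivity)]
    linarith
  have h11 : ENNReal.ofReal (n : ℝ) * gf {L | L ∈ C0T n ∧ ∀ s, s ≤ L.length → dz L s ≤ 2 ^ (j + u)} ≤
      ENNReal.ofReal (n : ℝ) * ENNReal.ofReal (ε * (n : ℝ) ^ (-(5 / 2) : ℝ)) := by
    rw [← h6]
    refine h5.trans ?_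
    rw [h7, ← ENNReal.ofReal_mul (by norm_num), h6, ← ENNReal.ofReal_mul hn0.le]
    refine ENNReal.ofReal_le_ofReal ?_
    have e1 : (n : ℝ) * (ε * (n : ℝ) ^ (-(5 / 2) : ℝ)) = ε * (n : ℝ) ^ (-(3 / 2) : ℝ) := by
      have e2 : (n : ℝ) ^ (-(3 / 2) : ℝ) = (n : ℝ) * (n : ℝ) ^ (-(5 / 2) : ℝ) := by
        conv_rhs => rw [← Real.rpow_one_add' hn0.le (by norm_num)]
        norm_num
      rw [e2]
      ring
    rw [e1, pow_one]
    calc 24 * (A * (n : ℝ) ^ (-(3 / 2) : ℝ) * (ml (j + u + 1) / max (n : ℝ) (ml (j + u + 1))))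
        ≤ 24 * (A * (n : ℝ) ^ (-(3 / 2) : ℝ) * (2 ^ (2 * (u + 1)) / 2 ^ b0)) := by gcongr
      _ = 24 * A * (2 ^ (2 * (u + 1)) / 2 ^ b0) * (n : ℝ) ^ (-(3 / 2) : ℝ) := by ring
      _ ≤ ε * (n : ℝ) ^ (-(3 / 2) : ℝ) := by gcongr
  exact (ENNReal.mul_le_mul_iff_right (ENNReal.ofReal_pos.2 hn0).ne' ENNReal.ofReal_ne_top).1 h11

end ART

end HexObs
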