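import Pool.Agent.ART.T2QcT
import Pool.Agent.ART.BadRootF
import Pool.Agent.ARM.T2QF

/-!
# ART, row D4 (T2QcT) from T1T, T2CT and the row BadRootT (helper88)
-/

set_option autoImplicit false

namespace HexObs

namespace ART

open ARM

/-- **row T2QcT** from `T1T`, `T2CT` and the clone of `ARM.badRoot_of` (helper4: `badRootT_of`) -/
theorem t2QcT_from (hT : T1T) (hC : T2CT) (hB : ∀ (κ : ℝ) (C : ℕ), RootBT κ C → RootNT κ C → BadRootT κ C) : T2QcT := by
  obtain ⟨κ, hκ, C, -, hR⟩ := TIP.regZ_all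
  obtain ⟨hB1, hN1⟩ := rootBNT_all hT hκ hR
  exact t2QcT_of hκ hT exCTs_all smL (pmj_of yMassJ) plNt hC (hB κ C hB1 hN1)

/-- **row T2QcT** from `T1T` and `T2CT` -/
theorem t2QcT_all (hT : T1T) (hC : T2CT) : T2QcT := by
  obtain ⟨κ, hκ, C, -, hR⟩ := TIP.regZ_all
  exact t2QcT_of hκ hT exCTs_all smL (pmj_of yMassJ) plNt hC (badRootT_all hT hκ hR)

end ART

end HexObs
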