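import Pool.Agent.ART.RootT
import Pool.Agent.ARM.RootB

/-!
# ART, row T2NT (helper94): **row RootBT** (clone of ARM.RootB for closed words rooted at the top)
-/

set_option autoImplicit false

namespace HexObs

namespace ART

open Finset TS SDN SIM NTA TIP ARM

open TIP.Nf (cz mem_cz nc_cz rank_lt rank_sum card_rank cz_split in_mid in_app in_mono Dt NeW)

open scoped ENNReal

open BM (Lb gf_Lb)

/-- closed words rooted at the top with two disjoint good factors, both ends in the box of the scale b + J, one end with a long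
factor in Nz -/
def E2FT (κ : ℝ) (C b c1 J n : ℕ) : Set (List Bool) :=
  {L | L ∈ C0T n ∧ ∃ P Z V W Y, L = P ++ (Z ++ (V ++ (W ++ Y))) ∧ Z ∈ Zc κ C b ∧ W ∈ Zc κ C b ∧ In (2 ^ (b + J)) P ∧
    In (2 ^ (b + J)) Y ∧ ∃ N, 2 ^ J ≤ N * 2 ^ c1 ∧ (P ∈ Lz κ C b N ∨ Y ∈ Lz κ C b N)}

/-- closed words rooted at the top with a good factor, the rest in the box of the scale b + J, with a long factor in Nz -/
def E1FT (κ : ℝ) (C b c1 J n : ℕ) : Set (List Bool) :=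
  {L | L ∈ C0T n ∧ ∃ X Z Y, L = X ++ (Z ++ Y) ∧ Z ∈ Zc κ C b ∧ In (2 ^ (b + J)) X ∧ In (2 ^ (b + J)) Y ∧
    ∃ b' N, (b' = b ∨ b' = b + 1) ∧ 2 ^ J ≤ N * 2 ^ c1 ∧ (X ∈ Lz κ C b' N ∨ Y ∈ Lz κ C b' N)}

/-- **row RootBT** -/
def RootBT (κ : ℝ) (C : ℕ) : Prop := ∀ a c1 : ℕ, ∃ (A : ℝ) (J0 b0 : ℕ), 0 < A ∧ ∀ n b J : ℕ, 1 ≤ n → b0 ≤ b → J0 ≤ J →
  gf (E2FT κ C b c1 J n) ≤ ENNReal.ofReal (A * (1 / 2) ^ (a * J) * (n : ℝ) ^ (-(5 / 2) : ℝ)) ∧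
  gf (E1FT κ C b c1 J n) ≤ ENNReal.ofReal (A * (1 / 2) ^ (a * J) * (n : ℝ) ^ (-(5 / 2) : ℝ))

/-- **row RootNT** -/
def RootNT (κ : ℝ) (C : ℕ) : Prop := ∀ a : ℕ, ∃ (A : ℝ) (J0 b0 : ℕ), 0 < A ∧ ∀ n b J : ℕ, 1 ≤ n → b0 ≤ b → J0 ≤ J →
  gf {L | L ∈ C0T n ∧ L ∈ Nz κ C b ∧ ¬ In (2 ^ (b + J)) L} ≤
    ENNReal.ofReal (A * (1 / 2) ^ (a * J) * (n : ℝ) ^ (-(5 / 2) : ℝ))

/-- `root_inT` without the hypothesis M ≠ [] outside of the relation -/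
lemma root_inT0 {M : List Bool} {n : ℕ} {Q : Set (List Bool)} {R : Set (List Bool × List Bool)} {X : ℝ≥0∞}
    (hne : ∀ p ∈ R, M ≠ [])
    (hR : ∀ p ∈ R, p.1 ++ (M ++ p.2) ∈ C0T n ∧ ∀ β : Bool, M ++ ((p.2 ++ [β]) ++ p.1) ∈ POL.Cy (n + 1) →
      (p.2 ++ [β]) ++ p.1 ∈ Q)
    (hX : ∀ z, gf {t | t ∈ Q ∧ t.length = n + 1 - M.length ∧ TIW.en t = z} ≤ X) :
    ∑' p : R, wE (p : List Bool × List Bool).1 * wE (p : List Bool × List Bool).2 ≤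
      ENNReal.ofReal (6 * xc⁻¹) * X := by
  rcases Set.eq_empty_or_nonempty R with h | ⟨p, hp⟩
  · subst h
    simp
  · exact root_inT (hne p hp) hR hX

lemma half_pow64 {a J : ℕ} : (1 / 2 : ℝ) ^ ((a + 6) * (J + 3)) * 64 ^ J ≤ (1 / 2) ^ (a * J) := by
  have h1 : (1 / 2 : ℝ) ^ ((a + 6) * (J + 3)) ≤ (1 / 2) ^ (a * J) * (1 / 2) ^ (6 * J) := by
    rw [← pow_add]
    refine pow_le_pow_of_le_one (by norm_num) (by norm_num) ?_
    nlinarith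
  have h2 : (1 / 2 : ℝ) ^ (6 * J) * 64 ^ J = 1 := by
    rw [pow_mul, ← mul_pow]
    norm_num
  calc (1 / 2 : ℝ) ^ ((a + 6) * (J + 3)) * 64 ^ J ≤ (1 / 2) ^ (a * J) * (1 / 2) ^ (6 * J) * 64 ^ J := by gcongr
    _ = (1 / 2) ^ (a * J) := by rw [mul_assoc, h2, mul_one]

/-- **two good factors** -/
theorem e2f_ofT {κ : ℝ} {C : ℕ} (hκ : 0 < κ) (hT : T1T) (hE : ExCTs) (hQ : QPtBad κ C) (a c1 : ℕ) :
    ∃ (A : ℝ) (J0 b0 : ℕ), 0 < A ∧ ∀ n b J : ℕ, 1 ≤ n → b0 ≤ b → J0 ≤ J →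
      gf (E2FT κ C b c1 J n) ≤ ENNReal.ofReal (A * (1 / 2) ^ (a * J) * (n : ℝ) ^ (-(5 / 2) : ℝ)) := by
  obtain ⟨D, hD, hT⟩ := hT
  obtain ⟨C1, hC1, hE⟩ := hE (κ / 8) (2 * C) 1 (by positivity)
  obtain ⟨J1, b1, hQ⟩ := hQ (κ / 8) (2 * C) (a + 6) (c1 + 3) 5 (by positivity)
  obtain ⟨K, hK, hF⟩ := final_numT TPC.xLow (κ := κ / 8) (by positivity)
  obtain ⟨b2, hb2⟩ := T2.exU hκ 8
  have hxc := xc_pos
  refine ⟨K * (C1 * D) * (6 * xc⁻¹), J1 + 2 * C, b1 + b2 + 1, by positivity, fun n b J hn hb hJ => ?_⟩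
  have hU := Ub_pos b
  have hm := ml_pos b
  have hb0 : b ≠ 0 := by omega
  obtain ⟨h, hh1, hh2, hh3⟩ := T2.hh_of hκ (hb2 b (by omega))
  obtain ⟨g, hg⟩ : ∃ g : ℝ, g = (1 / 2) ^ ((a + 6) * (J + 3)) := ⟨_, rfl⟩
  have hg0 : 0 ≤ g := by rw [hg]; positivity
  have hCJ : 2 * C ≤ 2 ^ J := (show 2 * C ≤ J by omega).trans Nat.lt_two_pow_self.le
  -- the inner bound
  have hin : ∀ M, ∑' p : {p : List Bool × List Bool | RhB κ C b (2 * C) J c1 (κ / 8) p.1 M p.2 ∧ In (2 ^ (b + J + 1)) p.1 ∧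
      In (2 ^ (b + J + 1)) p.2 ∧ p.1 ++ (M ++ p.2) ∈ C0T n}, wE (p : List Bool × List Bool).1 * wE (p : List Bool × List Bool).2 ≤
        ENNReal.ofReal (6 * xc⁻¹ * (g * (Ub b / (4 ^ b * ml b)))) * ENNReal.ofReal (ARM.wt n M.length (b + J)) := by
    intro M
    refine le_trans (root_inT0 (n := n) (M := M) (Q := W2B κ C (κ / 8) (2 * C) b (J + 3) (c1 + 3))
      (X := ENNReal.ofReal (g * (Ub b / (4 ^ b * ml b)) / (1 + ((n + 1 - M.length : ℕ) : ℝ) / ml b) ^ 5)) ?_ ?_ ?_)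
      (root_numT hg0 (Nat.le_add_right b J))
    · rintro ⟨Y2, Y1⟩ ⟨⟨hM, -⟩, -⟩
      exact T2.twoG_ne hb0 hM
    · rintro ⟨Y2, Y1⟩ ⟨⟨hM, h2, h1, N, hN, h3⟩, i2, i1, h4⟩
      refine ⟨h4, fun β hβ => ?_⟩
      exact T2.w2b_of hb0 (T2.twoG_ne hb0 hM) h2 h1 i2 i1 hβ (Or.inl rfl) hN h3
    · intro z
      rw [hg]
      exact hQ b (J + 3) _ z (by omega) (by omega)
  have h1 := hE D n (b + J) b hD.le (fun n' i _ _ => hT n' i) (Nat.le_add_right b J) (RhB κ C b (2 * C) J c1 (κ / 8))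
    (ENNReal.ofReal (6 * xc⁻¹ * (g * (Ub b / (4 ^ b * ml b))))) ((h : ℝ) * h) (fun Y2 M Y1 hr => hr.1) hin
    (by have : (0 : ℝ) < h := by exact_mod_cast hh1
        positivity)
  have h2 := hF _ b J n h (C1 * D) (6 * xc⁻¹ * g) hn (by positivity) (by positivity) hh2 (h1.trans (le_of_eq (by
    rw [mul_assoc (6 * xc⁻¹) g])))
  refine (gf_mono ?_).trans (h2.trans (ENNReal.ofReal_le_ofReal ?_))
  · rintro L ⟨hL, P, Z, V, W, Y, e1, hZ, hW', hP, hY, N, hN, hbig⟩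
    obtain ⟨Z1, Z2, Z3, rfl, hz⟩ := T2.Zd_of hZ
    obtain ⟨W1, W2, W3, rfl, hw⟩ := T2.Zd_of hW'
    have hd : T2.D2 κ C b L P Z1 Z2 Z3 V W1 W2 W3 Y := ⟨by rw [e1]; simp only [List.append_assoc], hz, hw⟩
    refine ⟨hL, ?_⟩
    have h3 := T2.tri_B TIP.neW hd hb0 hh1 hh2 (hh3 _ hz.n2) (hh3 _ hw.n2) le_rfl hCJ hP hY hN hbig
    rw [show b + J + 1 = b + (J + 1) by omega]
    exact_mod_cast h3
  · have h3 := half_pow64 (a := a) (J := J)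
    rw [← hg] at h3
    have hν : (0 : ℝ) ≤ (n : ℝ) ^ (-(5 / 2) : ℝ) := by positivity
    calc K * (C1 * D) * (6 * xc⁻¹ * g) * 64 ^ J * (n : ℝ) ^ (-(5 / 2) : ℝ)
        = K * (C1 * D) * (6 * xc⁻¹) * (g * 64 ^ J) * (n : ℝ) ^ (-(5 / 2) : ℝ) := by ring
      _ ≤ K * (C1 * D) * (6 * xc⁻¹) * (1 / 2) ^ (a * J) * (n : ℝ) ^ (-(5 / 2) : ℝ) := by gcongr

/-! ### one good factor -/

/-- the last letter of a closed word -/
lemma last_unique {n : ℕ} {L : List Bool} {b b' : Bool} (h : L ++ [b] ∈ POL.Cy (n + 1)) (h' : L ++ [b'] ∈ POL.Cy (n + 1)) :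
    b = b' := by
  have hlen := h.1
  rw [List.length_append, List.length_singleton] at hlen
  have hn : L.length = n := by omega
  have h1 := h.2.2.1
  have h2 := h'.2.2.1
  have e : ∀ c : Bool, (L ++ [c]).length = n + 1 := fun c => by rw [List.length_append, List.length_singleton, hn]
  rw [← e b, dx_append_one] at h1
  rw [← e b', dx_append_one] at h2
  have key : ∀ d ∈ dirs, ∀ b b' : Bool, turn b d = turn b' d → b = b' := by decide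
  exact key _ (dx_mem up_dirs L L.length) b b' (h1.trans h2.symm)

lemma n_numT {b n : ℕ} (hn : 1 ≤ n) : 1 / (4 ^ b * ml b) / (1 + (n : ℝ) / ml b) ^ 3 ≤ (n : ℝ) ^ (-(5 / 2) : ℝ) := by
  have hm := ml_pos b
  have hn0 : (0 : ℝ) < n := by exact_mod_cast hn
  obtain ⟨x, hx⟩ : ∃ x : ℝ, x = (n : ℝ) / ml b := ⟨_, rfl⟩
  have hx0 : 0 < x := by rw [hx]; positivity
  have hnx : (n : ℝ) = x * ml b := by rw [hx, div_mul_cancel₀ _ hm.ne']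
  rw [← hx, ← ml_rpow5 b]
  have h1 : x ^ (5 / 2 : ℝ) ≤ (1 + x) ^ 3 := by
    calc x ^ (5 / 2 : ℝ) ≤ (1 + x) ^ (5 / 2 : ℝ) := Real.rpow_le_rpow hx0.le (by linarith) (by norm_num)
      _ ≤ (1 + x) ^ (3 : ℝ) := Real.rpow_le_rpow_of_exponent_le (by linarith) (by norm_num)
      _ = (1 + x) ^ 3 := by
          rw [show (3 : ℝ) = ((3 : ℕ) : ℝ) by norm_num, Real.rpow_natCast]
  rw [div_div, div_le_iff₀ (by positivity)]
  have h2 : (n : ℝ) ^ (-(5 / 2) : ℝ) * (ml b ^ (5 / 2 : ℝ) * x ^ (5 / 2 : ℝ)) = 1 := by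
    rw [mul_comm (ml b ^ (5 / 2 : ℝ)), ← Real.mul_rpow hx0.le hm.le, ← hnx, ← Real.rpow_add hn0]
    norm_num
  calc (1 : ℝ) = (n : ℝ) ^ (-(5 / 2) : ℝ) * (ml b ^ (5 / 2 : ℝ) * x ^ (5 / 2 : ℝ)) := h2.symm
    _ ≤ (n : ℝ) ^ (-(5 / 2) : ℝ) * (ml b ^ (5 / 2 : ℝ) * (1 + x) ^ 3) := by gcongr

/-- **one good factor** -/
theorem e1f_ofT {κ : ℝ} {C : ℕ} (hκ : 0 < κ) (hQ : QPtBad κ C) (a c1 : ℕ) :
    ∃ (A : ℝ) (J0 b0 : ℕ), 0 < A ∧ ∀ n b J : ℕ, 1 ≤ n → b0 ≤ b → J0 ≤ J →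
      gf (E1FT κ C b c1 J n) ≤ ENNReal.ofReal (A * (1 / 2) ^ (a * J) * (n : ℝ) ^ (-(5 / 2) : ℝ)) := by
  obtain ⟨J1, b1, hQ⟩ := hQ (κ / 8) (2 * C) a (c1 + 3) 3 (by positivity)
  obtain ⟨Cm, hCm, hmom⟩ := buMom 3
  obtain ⟨b2, hb2⟩ := T2.exU hκ 8
  have hxc := xc_pos
  refine ⟨6 * xc⁻¹ * Cm * (8 / κ) ^ 2, J1 + 2 * C, b1 + b2 + 1, by positivity, fun n b J hn hb hJ => ?_⟩
  have hU := Ub_pos b
  have hm := ml_pos b
  have hb0 : b ≠ 0 := by omega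
  obtain ⟨h, hh1, hh2, hh3⟩ := T2.hh_of hκ (hb2 b (by omega))
  have hCJ : 2 * C ≤ 2 ^ J := (show 2 * C ≤ J by omega).trans Nat.lt_two_pow_self.le
  have h1 := rerootT (G := E1FT κ C b c1 J n) (WB := W2B κ C (κ / 8) (2 * C) b (J + 3) (c1 + 3)) (b := b) (n := n)
    (q := ((h * h : ℕ) : ℝ≥0∞)) (fun L hL => by
      obtain ⟨β, hβ, h3⟩ := T2.cnt_ge hb0 hh1 hh2 hh3 hCJ (show L ∈ E1F κ C b c1 J n from ⟨C0T_sub n hL.1, hL.2⟩)
      obtain ⟨⟨β', hβ'⟩, -⟩ := hL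
      have e := last_unique hβ hβ'.1
      subst e
      exact ⟨β, hβ', h3⟩)
  obtain ⟨g, hg⟩ : ∃ g : ℝ, g = (1 / 2) ^ (a * (J + 3)) * (Ub b / (4 ^ b * ml b)) := ⟨_, rfl⟩
  have hg0 : 0 ≤ g := by rw [hg]; positivity
  have h2 : ∑' P : Lb b, wE (P : List Bool) * gf {Q | Q ∈ W2B κ C (κ / 8) (2 * C) b (J + 3) (c1 + 3) ∧
      (P : List Bool) ++ Q ∈ POL.Cy (n + 1)} ≤ ENNReal.ofReal (g / (1 + (n : ℝ) / ml b) ^ 3 * (Cm * Ub b)) := by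
    calc ∑' P : Lb b, wE (P : List Bool) * gf {Q | Q ∈ W2B κ C (κ / 8) (2 * C) b (J + 3) (c1 + 3) ∧
          (P : List Bool) ++ Q ∈ POL.Cy (n + 1)}
        ≤ ∑' P : Lb b, ENNReal.ofReal (g / (1 + (n : ℝ) / ml b) ^ 3) * (wE (P : List Bool) *
          ENNReal.ofReal ((1 + ((P : List Bool).length : ℝ) / ml b) ^ 3 *
            (1 + ((TIW.hn (TIW.en (P : List Bool)) : ℤ) : ℝ) / 2 ^ b) ^ 3)) := by
          refine ENNReal.tsum_le_tsum fun P => ?_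
          have h3 := T2.gf_cy (M := (P : List Bool)) (Q := W2B κ C (κ / 8) (2 * C) b (J + 3) (c1 + 3)) (n := n + 1)
            (fun z => hQ b (J + 3) (n + 1 - (P : List Bool).length) z (by omega) (by omega))
          refine (mul_le_mul' le_rfl h3).trans ?_
          rw [mul_left_comm]
          refine mul_le_mul' le_rfl ?_
          rw [← ENNReal.ofReal_mul (by positivity)]
          refine ENNReal.ofReal_le_ofReal ?_
          have h4 := T2.len_num (b := b) (n := n) (p := (P : List Bool).length)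
          have h5 : (1 : ℝ) ≤ (1 + ((TIW.hn (TIW.en (P : List Bool)) : ℤ) : ℝ) / 2 ^ b) ^ 3 := by
            refine one_le_pow₀ ?_
            have : (0 : ℝ) ≤ ((TIW.hn (TIW.en (P : List Bool)) : ℤ) : ℝ) / 2 ^ b := by
              have : (0 : ℤ) ≤ TIW.hn (TIW.en (P : List Bool)) := TIW.hn_nonneg _
              positivity
            linarith
          calc (1 / 2 : ℝ) ^ (a * (J + 3)) * (Ub b / (4 ^ b * ml b)) / (1 + ((n + 1 - (P : List Bool).length : ℕ) : ℝ) / ml b) ^ 3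
              = g * (1 / (1 + ((n + 1 - (P : List Bool).length : ℕ) : ℝ) / ml b) ^ 3) := by rw [hg]; ring
            _ ≤ g * ((1 + ((P : List Bool).length : ℝ) / ml b) ^ 3 / (1 + (n : ℝ) / ml b) ^ 3) :=
                mul_le_mul_of_nonneg_left h4 hg0
            _ = g / (1 + (n : ℝ) / ml b) ^ 3 * ((1 + ((P : List Bool).length : ℝ) / ml b) ^ 3 * 1) := by ring
            _ ≤ _ := by gcongr
      _ = ENNReal.ofReal (g / (1 + (n : ℝ) / ml b) ^ 3) * _ := ENNReal.tsum_mul_left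
      _ ≤ ENNReal.ofReal (g / (1 + (n : ℝ) / ml b) ^ 3) * ENNReal.ofReal (Cm * Ub b) := mul_le_mul' le_rfl (hmom b)
      _ = _ := (ENNReal.ofReal_mul (by positivity)).symm
  have h3 : gf (E1FT κ C b c1 J n) * ENNReal.ofReal ((h : ℝ) * h) ≤
      ENNReal.ofReal (6 * xc⁻¹ * (g / (1 + (n : ℝ) / ml b) ^ 3 * (Cm * Ub b))) * 1 := by
    rw [mul_one]
    have e1 : ENNReal.ofReal ((h : ℝ) * h) = ((h * h : ℕ) : ℝ≥0∞) := by
      rw [← ENNReal.ofReal_natCast]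
      push_cast
      rfl
    rw [e1, ENNReal.ofReal_mul (by positivity)]
    exact h1.trans (mul_le_mul' le_rfl h2)
  have hh0 : (0 : ℝ) < h := by exact_mod_cast hh1
  have h4 := ARM.div_of_mul (by positivity) (by positivity) h3
  rw [mul_one] at h4
  refine h4.trans (ENNReal.ofReal_le_ofReal ?_)
  rw [div_le_iff₀ (by positivity)]
  have h5 := n_numT (b := b) hn
  have h6 : (1 / 2 : ℝ) ^ (a * (J + 3)) ≤ (1 / 2) ^ (a * J) :=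
    pow_le_pow_of_le_one (by norm_num) (by norm_num) (Nat.mul_le_mul_left _ (by omega))
  have h7 : Ub b * Ub b ≤ (8 / κ) ^ 2 * ((h : ℝ) * h) := by
    have e1 : Ub b ≤ 8 / κ * h := by
      rw [div_mul_eq_mul_div, le_div_iff₀ hκ]
      linarith
    calc Ub b * Ub b ≤ (8 / κ * h) * (8 / κ * h) := mul_le_mul e1 e1 hU.le (by positivity)
      _ = _ := by ring
  calc 6 * xc⁻¹ * (g / (1 + (n : ℝ) / ml b) ^ 3 * (Cm * Ub b))
      = 6 * xc⁻¹ * Cm * (1 / 2) ^ (a * (J + 3)) * (1 / (4 ^ b * ml b) / (1 + (n : ℝ) / ml b) ^ 3) * (Ub b * Ub b) := by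
        rw [hg]
        field_simp
    _ ≤ 6 * xc⁻¹ * Cm * (1 / 2) ^ (a * J) * ((n : ℝ) ^ (-(5 / 2) : ℝ)) * ((8 / κ) ^ 2 * ((h : ℝ) * h)) := by gcongr
    _ = _ := by ring

/-- **row RootBT** -/
theorem rootBT_of {κ : ℝ} {C : ℕ} (hκ : 0 < κ) (hT : T1T) (hE : ExCTs) (hQ : QPtBad κ C) : RootBT κ C := by
  intro a c1
  obtain ⟨A1, J1, b1, hA1, h1⟩ := e2f_ofT hκ hT hE hQ a c1
  obtain ⟨A2, J2, b2, hA2, h2⟩ := e1f_ofT hκ hQ a c1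
  refine ⟨A1 + A2, J1 + J2, b1 + b2, by positivity, fun n b J hn hb hJ => ⟨?_, ?_⟩⟩
  · refine (h1 n b J hn (by omega) (by omega)).trans (ENNReal.ofReal_le_ofReal ?_)
    have : 0 ≤ A2 * (1 / 2) ^ (a * J) * (n : ℝ) ^ (-(5 / 2) : ℝ) := by positivity
    linarith
  · refine (h2 n b J hn (by omega) (by omega)).trans (ENNReal.ofReal_le_ofReal ?_)
    have : 0 ≤ A1 * (1 / 2) ^ (a * J) * (n : ℝ) ^ (-(5 / 2) : ℝ) := by positivity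
    linarith

end ART

end HexObs
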