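import Pool.Agent.ART.DefsS
import Pool.Agent.ART.RootBT
import Pool.Agent.ARM.QX
import Pool.Agent.ARM.SmL
import Pool.Agent.ARM.T2Fin

/-!
# ART, row P2 of T2ST (helper90): **`pairT_of : SmL → PMJ → PairT`**

The two ends of a closed word rooted at its top, the middle part given: the word around the root is a root piece with exact end and
exact length (`qx_all`, the constant exponential in the number of the scales) and at most 6 places for the root (`root_inT0`).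
-/

set_option autoImplicit false

namespace HexObs

namespace ART

open Finset TS SDN HexObs.SIM NTA TIP ARM

open scoped ENNReal

/-- **row P2** -/
theorem pairT_of (hS : SmL) (hP : PMJ) : PairT := by
  intro η D hη
  obtain ⟨C, b1, hC, h⟩ := qx_all hS hP hη D 5
  have hxc := xc_pos
  obtain ⟨A, hA⟩ : ∃ A : ℝ, A = 6 * xc⁻¹ + 1 := ⟨_, rfl⟩
  have hxi : 0 < xc⁻¹ := inv_pos.2 hxc
  have hA1 : 1 ≤ A := by rw [hA]; linarith
  have hC6 : 1 ≤ C ^ 6 := one_le_pow₀ hC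
  refine ⟨A * C ^ 6, b1 + 1, one_le_mul_of_one_le_of_one_le hA1 hC6, fun n b l i s M hb => ?_⟩
  have hb0 : b ≠ 0 := by omega
  have hU := Ub_pos b
  have hm := ml_pos b
  refine (root_inT0 (n := n) (M := M) (Q := W2E η D b (s + 3 + 2))
    (X := ENNReal.ofReal (C ^ (s + 6) * (Ub b / (4 ^ b * ml b)) / (1 + ((n + 1 - M.length : ℕ) : ℝ) / ml b) ^ 5)) ?_ ?_ ?_).trans
    ((root_numT (b := b) (i := b + s) (n := n) (a := M.length) (by positivity) (Nat.le_add_right b s)).trans ?_)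
  · rintro ⟨Y2, Y1⟩ ⟨⟨⟨hM, -⟩, -, -⟩, -, -, -⟩
    exact T2.twoG_ne hb0 hM
  · rintro ⟨Y2, Y1⟩ ⟨⟨⟨hM, -⟩, h2, h1⟩, i2, i1, h4⟩
    refine ⟨h4, fun β hβ => ?_⟩
    simp only at h1 h2 i1 i2
    rw [add_assoc] at i1 i2
    exact T2.w2_of hb0 (T2.twoG_ne hb0 hM) h2 h1 i2 i1 hβ
  · intro z
    refine (h b (s + 3 + 2) (by omega) (n + 1 - M.length) z).trans (le_of_eq ?_)
    rw [show s + 3 + 2 + 1 = s + 6 by omega, div_eq_mul_inv _ ((1 + ((n + 1 - M.length : ℕ) : ℝ) / ml b) ^ 5)]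
  · refine mul_le_mul' (ENNReal.ofReal_le_ofReal ?_) le_rfl
    have h1 : C ^ (s + 6) ≤ (C ^ 6) ^ (s + 1) := by
      rw [← pow_mul]
      exact pow_le_pow_right₀ hC (by omega)
    have h2 : 6 * xc⁻¹ ≤ A ^ (s + 1) := by
      calc 6 * xc⁻¹ ≤ A := by rw [hA]; linarith
        _ ≤ A ^ (s + 1) := le_self_pow₀ hA1 (by omega)
    have hq : 0 ≤ Ub b / (4 ^ b * ml b) := by positivity
    calc 6 * xc⁻¹ * (C ^ (s + 6) * (Ub b / (4 ^ b * ml b))) = (6 * xc⁻¹) * C ^ (s + 6) * (Ub b / (4 ^ b * ml b)) := by ring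
      _ ≤ A ^ (s + 1) * (C ^ 6) ^ (s + 1) * (Ub b / (4 ^ b * ml b)) := by gcongr
      _ = (A * C ^ 6) ^ (s + 1) * (Ub b / (4 ^ b * ml b)) := by rw [mul_pow]

/-- **row P2**, no hypothesis -/
theorem pairT : PairT := pairT_of smL pMJ

end ART

end HexObs
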