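import Pool.Agent.ART.DefsS
import Pool.Agent.ARM.TwoX
import Pool.Agent.ARM.T2Nb

/-!
# ART, row P1 of T2ST (helper90): **`topCr : TopCr κ C`**

* `esw_mid` : the middle part of a closed word with an extra strand has the extra strand (wide windows), if both ends are in a box
  that is small against the strand;
* `topCr` : good cuts of the scale l on both sides of the root (`two_cross`), or a long factor without rich window near the root.
-/

set_option autoImplicit false

namespace HexObs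

namespace ART

open Finset TS SDN HexObs.SIM NTA TIP ARM

open TIP.Nf (cz mem_cz nc_cz rank_lt rank_sum card_rank cz_split in_mid in_app in_mono Dt NeW)

open HexObs.ARM.T2 HexObs.ARM.TwoX

open scoped ENNReal

lemma dz_mid {L Y2 M Y1 : List Bool} (hL : L = Y2 ++ (M ++ Y1)) {k : ℕ} (hk : k ≤ M.length) :
    dz M k = TIW.hn (vx oo up L (Y2.length + k) - vx oo up L (Y2.length + M.length)) := by
  have e : ∀ j, j ≤ M.length → vx oo up L (Y2.length + j) = vx oo up (Y2 ++ M) (Y2.length + j) := by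
    intro j hj
    rw [hL, ← List.append_assoc]
    exact vx_append (by rw [List.length_append]; omega)
  rw [← dz_app Y2 M k, e k hk, e _ le_rfl]
  unfold dz TIW.en
  rw [List.length_append]

/-- **the middle part has the extra strand** -/
lemma esw_mid {l i r : ℕ} {L Y2 M Y1 : List Bool} (hL : L = Y2 ++ (M ++ Y1)) (h0 : dz L 0 ≤ 2) (hY2 : In (2 ^ r) Y2)
    (hY1 : In (2 ^ r) Y1) (hl : l + 1 ≤ r) (hri : r + 5 ≤ i) (hE : L ∈ ESe l i) : M ∈ ESw (r + 1) i := by
  obtain ⟨t, a, b, h1, h2, h3, h4, h5, h6, h7⟩ := hE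
  have hlen : L.length = Y2.length + M.length + Y1.length := by
    rw [hL]
    simp only [List.length_append]
    omega
  obtain ⟨R, hR⟩ : ∃ R : ℤ, R = 2 ^ r := ⟨_, rfl⟩
  have hR2 : (2 : ℤ) ≤ R := by
    rw [hR]
    calc (2 : ℤ) = 2 ^ 1 := by norm_num
      _ ≤ 2 ^ r := pow_le_pow_right₀ (by norm_num) (by omega)
  have hlR : (2 : ℤ) ^ (l + 1) ≤ R := by
    rw [hR]
    exact pow_le_pow_right₀ (by norm_num) hl
  have hiR : 32 * R ≤ 2 ^ i := by
    rw [hR, show (32 : ℤ) = 2 ^ 5 by norm_num, ← pow_add]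
    exact pow_le_pow_right₀ (by norm_num) (by omega)
  have ei2 : (2 : ℤ) ^ (i + 2) = 4 * 2 ^ i := by ring
  have ei3 : (2 : ℤ) ^ (i + 3) = 8 * 2 ^ i := by ring
  have er : (2 : ℤ) ^ (r + 1 + 1) = 4 * R := by rw [hR]; ring
  -- the start part
  have q1 : ∀ s, s ≤ Y2.length → dz L s ≤ 3 * R + 2 := by
    intro s hs
    have e1 : vx oo up L s = vx oo up Y2 s := by
      rw [hL]
      exact vx_append (by omega)
    have e2 : vx oo up L 0 = 0 := rfl
    have e3 := dz_hn L s 0
    have e4 := TIW.hn_le_Bl (hY2 s hs)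
    rw [e1, e2, sub_zero] at e3
    rw [hR]
    push_cast at e4
    linarith
  -- the end part
  have q2 : ∀ k, k ≤ Y1.length → dz L (Y2.length + M.length + k) ≤ 6 * R := by
    intro k hk
    have e1 : dz L (Y2.length + M.length + k) = dz Y1 k := by
      have := dz_app (Y2 ++ M) Y1 k
      rw [List.length_append] at this
      rw [← this, hL, List.append_assoc]
    have e2 := TIW.hn_le_Bl (hY1 k hk)
    have e3 := TIW.hn_le_Bl (hY1 Y1.length le_rfl)
    have e4 : dz Y1 k ≤ TIW.hn (vx oo up Y1 k) + TIW.hn (vx oo up Y1 Y1.length) := TIW.hn_sub _ _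
    rw [e1, hR]
    push_cast at e2 e3
    linarith
  have q3 : dz L (Y2.length + M.length) ≤ 3 * R := by
    have e1 : dz L (Y2.length + M.length) = dz Y1 0 := by
      have := dz_app (Y2 ++ M) Y1 0
      rw [List.length_append] at this
      rw [← this, hL, List.append_assoc]
      rfl
    have e3 := TIW.hn_le_Bl (hY1 Y1.length le_rfl)
    have e4 : dz Y1 0 = TIW.hn (vx oo up Y1 Y1.length) := by
      have e5 : vx oo up Y1 0 = 0 := rfl
      unfold dz TIW.en
      rw [e5, zero_sub, TIW.hn_neg]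
    rw [e1, e4, hR]
    push_cast at e3
    linarith
  -- the comparison
  have q4 : ∀ k, k ≤ M.length → dz M k ≤ dz L (Y2.length + k) + 3 * R ∧ dz L (Y2.length + k) ≤ dz M k + 3 * R := by
    intro k hk
    rw [dz_mid hL hk]
    have e1 := hn_dz L (Y2.length + k) (Y2.length + M.length)
    have e2 := dz_hn L (Y2.length + k) (Y2.length + M.length)
    exact ⟨by linarith, by linarith⟩
  have ht : Y2.length < t := by
    by_contra hcon
    have := q1 t (by omega)
    linarith
  have hb : b < Y2.length + M.length := by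
    by_contra hcon
    obtain ⟨k, rfl⟩ : ∃ k, b = Y2.length + M.length + k := ⟨b - (Y2.length + M.length), by omega⟩
    have := q2 k (by omega)
    linarith
  obtain ⟨t', rfl⟩ : ∃ k, t = Y2.length + k := ⟨t - Y2.length, by omega⟩
  obtain ⟨a', rfl⟩ : ∃ k, a = Y2.length + k := ⟨a - Y2.length, by omega⟩
  obtain ⟨b', rfl⟩ : ∃ k, b = Y2.length + k := ⟨b - Y2.length, by omega⟩
  have k1 := q4 t' (by omega)
  have k2 := q4 a' (by omega)
  have k3 := q4 b' (by omega)
  refine ⟨t', a', b', by omega, by omega, by omega, by linarith [k1.2], by linarith [k2.1], by linarith [k3.2],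
    fun s hs hs' => ?_⟩
  have k4 := q4 s hs'
  have k5 := h7 (Y2.length + s) (by omega) (by omega)
  linarith [k4.1]

/-- **row P1** -/
theorem topCr {κ : ℝ} {C : ℕ} : TopCr κ C := by
  refine ⟨2 * C + 3, 1, fun n l i s h η L hs hl hsi hh hη h4 hL hE => ?_⟩
  obtain ⟨m, rfl⟩ : ∃ m, s = m + 3 := ⟨s - 3, by omega⟩
  have hfar : ∃ t, t ≤ L.length ∧ 2 ^ (l + m + 3) < dz L t := by
    obtain ⟨t, a, b, h1, h2, h3, h4, h5, h6, h7⟩ := hE
    refine ⟨t, by omega, ?_⟩
    have e : (2 : ℤ) * 2 ^ (l + m + 3) ≤ 2 ^ i := by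
      rw [← pow_succ']
      exact pow_le_pow_right₀ (by norm_num) (by omega)
    linarith
  rcases two_cross (κ := κ) (C := C) (i := l + m) (b := l) (m := m) rfl hL hfar with h5 | ⟨P, Z, V, W, Y, e1, hZ, hWz, hPi, hYi, -, -⟩
  · right
    refine ⟨2 ^ m, ?_, ?_⟩
    · rw [← pow_add]
      exact Nat.pow_le_pow_right (by norm_num) (by omega)
    · rw [show l + (m + 3) + 2 = l + (m + 5) by omega]
      exact h5
  left
  have hb0 : l ≠ 0 := by omega
  obtain ⟨Z1, Z2, Z3, rfl, hz⟩ := Zd_of hZ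
  obtain ⟨W1, W2, W3, rfl, hw⟩ := Zd_of hWz
  have hd : ARM.T2.D2 κ C l L P Z1 Z2 Z3 V W1 W2 W3 Y := ⟨by rw [e1]; simp only [List.append_assoc], hz, hw⟩
  have hnz : 4 * h ≤ nc Z2 := by exact_mod_cast h4.trans hz.n2
  have hnw : 4 * h ≤ nc W2 := by exact_mod_cast h4.trans hw.n2
  have hC : 2 * C ≤ 2 ^ (m + 5) := (show 2 * C ≤ m + 5 by omega).trans Nat.lt_two_pow_self.le
  obtain ⟨S1, hS1, hc1⟩ := card_ix TIP.neW hh hnz
  obtain ⟨S2, hS2, hc2⟩ := card_ix TIP.neW hh hnw
  have key : S1.card * S2.card ≤ (tri (2 ^ (l + (m + 3) + 3)) (RhoE η (2 * C) l (l + (m + 3) + 4) i) L).ncard := by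
    refine tri_ge (p1 := fun c => P ++ (Z1 ++ Z2.take c)) (p2 := fun d => W2.drop d ++ (W3 ++ Y)) ?_ ?_ ?_
    · intro c hc c' hc' he
      have h1 := congrArg List.length he
      have h2 := (mem_cz.1 (hc1 c hc).1).1
      have h3 := (mem_cz.1 (hc1 c' hc').1).1
      simp only [List.length_append, List.length_take] at h1
      omega
    · intro c hc c' hc' he
      have h1 := congrArg List.length he
      have h2 := (mem_cz.1 (hc2 c hc).1).1
      have h3 := (mem_cz.1 (hc2 c' hc').1).1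
      simp only [List.length_append, List.length_drop] at h1
      omega
    · intro x hx d hdd
      obtain ⟨e1, e2, e3⟩ := hc1 x hx
      obtain ⟨f1, f2, f3⟩ := hc2 d hdd
      obtain ⟨g1, g2⟩ := hd.box (c := x) hC hPi hYi f1
      rw [show l + (m + 5 + 1) = l + (m + 3) + 3 by omega] at g1 g2
      obtain ⟨i1, i2, i3, i4⟩ := hd.parts TIP.neW hb0 hη hnz hnw (E := 2 * C) le_rfl e1 e2 e3 f1 f2 f3
      exact ⟨g1, g2, _, i1, ⟨i2, esw_mid i1 (c0_dz hL).1.le g1 g2 (by omega) (by omega) hE⟩, i3, i4⟩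
  rw [hS1, hS2] at key
  rwa [pow_two]

end ART

end HexObs
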