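import Pool.Agent.ART.T2ST
import Pool.Agent.ART.TopCr
import Pool.Agent.ART.PairT
import Pool.Agent.ART.BadRootF

/-!
# ART, row D3 (helper47): T2ST from (T1) at the top and EsTL2
-/

set_option autoImplicit false

namespace HexObs

namespace ART

open Finset TS SDN HexObs.SIM NTA TIP ARM

open scoped ENNReal

/-- **row D3** (exponent 1 / 200), from T1T and EsTL2 -/
theorem t2STx_all (hT : T1T) (hE : EsTL2) :
    ∃ (C : ℝ) (b0 : ℕ), 0 < C ∧ ∀ n l i : ℕ, b0 ≤ l → l ≤ i → 1 ≤ n →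
      gf {L | L ∈ C0T n ∧ (L ∈ ESe l i ∨ rv L ∈ ESe l i)} ≤
        ENNReal.ofReal (C * (2 : ℝ) ^ (-(1 / 200 : ℝ) * ((i : ℝ) - l)) * (n : ℝ) ^ (-(5 / 2) : ℝ)) := by
  obtain ⟨κ, hκ, C, -, hR⟩ := regZ_all
  exact t2STx_of hκ hT hE topCr pairT (badRootT_all hT hκ hR)

end ART

end HexObs
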