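import Pool.Agent.ART.T1T
import Pool.Agent.ART.GoodCT
import Pool.Agent.ART.T2SF
import Pool.Agent.ART.T2QF
import Pool.Agent.ART.T2NF
import Pool.Agent.ART.T2CT
import Pool.Agent.ART.EsTL2F
import Pool.Agent.ART.LoopM

/-!
# ART (helper37): **(T2) at the top** from LoopM (row E1) and JoinT (row G1); all other rows inserted
-/

set_option autoImplicit false

namespace HexObs

namespace ART

open TIP ARM

/-- **(T2) at the top** from (T1) at the top and the row E1 -/
theorem t2T_in (hT : T1T) (hM : LoopM) : T2T := by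
  obtain ⟨C, b0, hC, h⟩ := t2STx_all hT (esTL2_all hM)
  exact t2T_of (t2NT_all hT t2CT) ⟨C, 1 / 200, b0, hC, by norm_num, h⟩ (t2QcT_all hT t2CT) t2CT

/-- **(T2) at the top** from LoopM (row E1) and JoinT (row G1) -/
theorem t2T_in2 (hM : LoopM) (hJ : JoinT) : T2T := t2T_in (t1T_in2 hM hJ) hM

/-- the same from FastLp (the open half of the row E1) and JoinT -/
theorem t1T_in3 (hF : FastLp) (hJ : JoinT) : T1T := t1T_in2 (loopM_of hF) hJ

theorem t2T_in3 (hF : FastLp) (hJ : JoinT) : T2T := t2T_in2 (loopM_of hF) hJ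

end ART

end HexObs
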