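import Pool.Agent.ART.HairDefs
import Pool.Agent.ART.HVDefs
import Pool.Agent.ART.TubeSum
import Pool.Agent.ARM2.TubeApp
import Pool.Agent.ARM2.Mass

/-!
# ART, row C-b, piece G (helper79): tubes over the top with many rich rows

* `ColV`: the column pattern for a path that starts at the origin, `colV_of`;
* `RowC.glue`: the rich rows of X are rich rows of A ++ (X ++ B) if A and B stay below;
* `back79`: hairpin, then a tube with the exact end; `front79`: tube with a free end before it;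
* **`topTubeS_of : HairpinS (N - 1) → TopTubeS N`**: the mass of the tube words that close a placed word over the top, with
  many rich rows.
-/

set_option autoImplicit false

namespace HexObs

namespace ART

open Finset TIW TS SDN ARM ARM.G3

open scoped ENNReal

/-- **the column pattern** for a path that starts at the origin -/
structure ColV (e : ℕ → Pt) (r : ℕ) (D : ℤ) (N i0 : ℕ) (d : Pt) : Prop where
  one : 2 ≤ i0
  le : i0 + 2 * N + 4 ≤ r
  ups : ∀ i, i < N → e (i0 + i) = d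
  cap : (e (i0 + N) = rotR d ∧ e (i0 + N + 1) = rotR (rotR d)) ∨ (e (i0 + N) = rotL d ∧ e (i0 + N + 1) = rotL (rotL d))
  dns : ∀ i, i < N → e (i0 + N + 2 + i) = -d
  low : ∀ i, i ≤ r → (i < i0 ∨ i0 + 2 * N + 2 < i) → ip (AR.pv e D i) d + D ≤ ip (AR.pv e D i0) d

lemma colV_of {E : ℕ → Pt} {r : ℕ} {D : ℤ} {N i0 : ℕ} {d : Pt} (h : ColE E r D N i0 d) (I : List Bool) :
    ColV (fun i => mulE (rc I) (E i)) r D N i0 (mulE (rc I) d) := by
  refine ⟨h.one, h.le, fun i hi => ?_, ?_, fun i hi => ?_, fun i hi hi' => ?_⟩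
  · show mulE (rc I) (E (i0 + i)) = _
    rw [h.ups i hi]
  · rcases h.cap with ⟨h1, h2⟩ | ⟨h1, h2⟩
    · left
      show mulE (rc I) (E (i0 + N)) = _ ∧ mulE (rc I) (E (i0 + N + 1)) = _
      rw [h1, h2, AR.rotR_mulE, AR.rotR_mulE]
      exact ⟨rfl, rfl⟩
    · right
      show mulE (rc I) (E (i0 + N)) = _ ∧ mulE (rc I) (E (i0 + N + 1)) = _
      rw [h1, h2, AR.rotL_mulE, AR.rotL_mulE]
      exact ⟨rfl, rfl⟩
  · show mulE (rc I) (E (i0 + N + 2 + i)) = _
    rw [h.dns i hi, mulE_neg]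
  · have h1 := h.lowE i hi hi'
    have key : ∀ i, ip (AR.pv (fun i => mulE (rc I) (E i)) D i) (mulE (rc I) d) = ip (qv E D r i) d - ip (qv E D r 0) d := by
      intro i
      have e1 : AR.pv (fun i => mulE (rc I) (E i)) D i = mulE (rc I) (AR.pv E D i) := by
        unfold AR.pv
        rw [ps_rot, ← mulE_smul]
      rw [e1, ip_mulE, nrm_rc, one_mul, pv_qv E D r, ip_sub_left]
    rw [key, key]
    linarith

/-! ### 1. Heights -/

/-- a point near a segment is not higher than its nodes -/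
private lemma ns_hi79 {e : ℕ → Pt} {D w h : ℤ} {j : ℕ} {y d : Pt} (hd : d ∈ dirs) (h1 : ip (AR.pv e D j) d ≤ h)
    (h2 : ip (AR.pv e D (j + 1)) d ≤ h) (hy : AR.NS (AR.pv e D j) (e j) D w y) : ip y d ≤ h + w := by
  obtain ⟨t, t0, tD, ht⟩ := hy
  have h3 := ip_le_hn (y - (AR.pv e D j + t • e j)) hd
  rw [ip_sub_left, ip_add_left, AR.ip_smul] at h3
  rw [AR.pv_succ, ip_add_left, AR.ip_smul] at h2
  rcases le_total (ip (e j) d) 0 with h4 | h4
  · have : t * ip (e j) d ≤ 0 := mul_nonpos_of_nonneg_of_nonpos t0 h4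
    linarith
  · have : t * ip (e j) d ≤ D * ip (e j) d := mul_le_mul_of_nonneg_right tD h4
    linarith

/-- a point near a segment of the upward column is not lower than its foot -/
private lemma ns_lo79 {e : ℕ → Pt} {D w : ℤ} {j : ℕ} {y d : Pt} (hd : d ∈ dirs) (he : e j = d)
    (hy : AR.NS (AR.pv e D j) (e j) D w y) : ip (AR.pv e D j) d - w ≤ ip y d := by
  obtain ⟨t, t0, tD, ht⟩ := hy
  have h3 := ip_le_hn (-(y - (AR.pv e D j + t • e j))) hd
  rw [hn_neg, ip_neg_left, ip_sub_left, ip_add_left, he, AR.ip_smul_self hd] at h3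
  rw [he] at ht
  linarith

variable {e : ℕ → Pt} {r N i0 : ℕ} {D : ℤ} {d : Pt}

/-- the nodes of the upward column -/
private lemma col_up79 (h : ColV e r D N i0 d) (hd : d ∈ dirs) : ∀ j, j ≤ N →
    ip (AR.pv e D (i0 + j)) d = ip (AR.pv e D i0) d + 2 * j * D := by
  intro j
  induction j with
  | zero => intro _; simp
  | succ j ih =>
    intro hj
    rw [← add_assoc, AR.pv_succ, ip_add_left, ih (by omega), h.ups j (by omega), AR.ip_smul_self hd]
    push_cast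
    ring

/-- the node behind the cap -/
private lemma col_cap79 (h : ColV e r D N i0 d) (hd : d ∈ dirs) :
    ip (AR.pv e D (i0 + N + 2)) d = ip (AR.pv e D i0) d + 2 * N * D := by
  have h1 := col_up79 h hd N le_rfl
  have key : ∀ d ∈ dirs, ip (rotR d) d + ip (rotR (rotR d)) d = 0 ∧ ip (rotL d) d + ip (rotL (rotL d)) d = 0 := by decide
  obtain ⟨k1, k2⟩ := key d hd
  rw [show i0 + N + 2 = i0 + N + 1 + 1 by ring, AR.pv_succ, AR.pv_succ, ip_add_left, ip_add_left, h1, AR.ip_smul, AR.ip_smul]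
  rcases h.cap with ⟨g1, g2⟩ | ⟨g1, g2⟩
  · rw [g1, g2]
    linear_combination D * k1
  · rw [g1, g2]
    linear_combination D * k2

/-- the nodes of the downward column -/
private lemma col_dn79 (h : ColV e r D N i0 d) (hd : d ∈ dirs) : ∀ j, j ≤ N →
    ip (AR.pv e D (i0 + N + 2 + j)) d = ip (AR.pv e D i0) d + 2 * (N - j) * D := by
  intro j
  induction j with
  | zero =>
    intro _
    rw [add_zero, col_cap79 h hd]
    push_cast
    ring
  | succ j ih =>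
    intro hj
    rw [← add_assoc, AR.pv_succ, ip_add_left, ih (by omega), h.dns j (by omega), smul_neg, ip_neg_left, AR.ip_smul_self hd]
    push_cast
    ring

/-- the nodes of the first part -/
private lemma col_fst79 (h : ColV e r D N i0 d) (hd : d ∈ dirs) (hD : 0 ≤ D) (hN : 1 ≤ N) {i : ℕ} (hi : i ≤ i0 + 1) :
    ip (AR.pv e D i) d ≤ ip (AR.pv e D i0) d + 2 * D := by
  have hl := h.le
  rcases Nat.lt_or_ge i i0 with h1 | h1
  · have := h.low i (by omega) (Or.inl h1)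
    linarith
  · rcases Nat.eq_or_lt_of_le h1 with h2 | h2
    · rw [← h2]
      linarith
    · have h3 : i = i0 + 1 := by omega
      rw [h3, col_up79 h hd 1 hN]
      push_cast
      linarith

/-- the nodes of the last part -/
private lemma col_lst79 (h : ColV e r D N i0 d) (hd : d ∈ dirs) (hD : 0 ≤ D) (hN : 1 ≤ N) {i : ℕ} (hi : i0 + 2 * N + 1 ≤ i)
    (hi' : i ≤ r) : ip (AR.pv e D i) d ≤ ip (AR.pv e D i0) d + 2 * D := by
  rcases Nat.lt_or_ge (i0 + 2 * N + 2) i with h1 | h1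
  · have := h.low i hi' (Or.inr h1)
    linarith
  · have h4 : i = i0 + N + 2 + (N - 1) ∨ i = i0 + N + 2 + N := by omega
    rcases h4 with h4 | h4
    · rw [h4, col_dn79 h hd (N - 1) (by omega), Nat.cast_sub hN]
      push_cast
      linarith
    · rw [h4, col_dn79 h hd N le_rfl]
      push_cast
      linarith

/-! ### 2. The rows of a part -/

/-- **the rich rows of X are rich rows of A ++ (X ++ B)** -/
lemma RowC.glue {d : Pt} {A X B : List Bool} {i j : ℕ} {P P' : Pt} (h : RowC up X i j P P') (hd : d = de A)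
    (hA : ∀ s, s ≤ A.length → ip (vx oo up A s) d < ip (en A + mulE (rt A) P) d)
    (hB : ∀ s, s ≤ B.length → ip (en A + mulE (rt A) (vx oo up (X ++ B) (X.length + s))) d < ip (en A + mulE (rt A) P) d) :
    RowC d (A ++ (X ++ B)) (A.length + i) (A.length + j) (en A + mulE (rt A) P) (en A + mulE (rt A) P') := by
  have hlt := h.lt
  have hle := h.le
  have hv : ∀ s, vx oo up (A ++ (X ++ B)) (A.length + s) = en A + mulE (rt A) (vx oo up (X ++ B) s) := fun s => vx_app A _ s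
  have hx : ∀ s, s ≤ X.length → vx oo up (X ++ B) s = vx oo up X s := fun s hs => vx_append (by omega)
  have hip : ∀ y, ip (mulE (rt A) y) d = ip y up := fun y => by rw [hd]; exact AR.ip_rt A y
  have hsub : ∀ y : Pt, en A + mulE (rt A) (y - up) = en A + mulE (rt A) y - d := fun y => by
    rw [mulE_sub, rt_up, ← hd]
    abel
  refine ⟨by omega, by rw [List.length_append, List.length_append]; omega, ?_, ?_, ?_, ?_, ?_, fun s hs => ?_⟩
  · rw [hv, hx i (by omega), h.v1, hsub]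
  · rw [add_assoc, hv, hx (i + 1) (by omega), h.v2]
  · rw [hv, hx j (by omega), h.v3]
  · rw [add_assoc, hv, hx (j + 1) (by omega), h.v4, hsub]
  · rw [ip_add_left, ip_add_left, hip, hip, h.lev]
  · rcases Nat.lt_or_ge A.length s with h1 | h1
    · obtain ⟨q, rfl⟩ : ∃ q, s = A.length + q := ⟨s - A.length, by omega⟩
      rw [List.length_append, List.length_append] at hs
      rcases Nat.lt_or_ge X.length q with h2 | h2
      · obtain ⟨q', rfl⟩ : ∃ q', q = X.length + q' := ⟨q - X.length, by omega⟩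
        have h3 := hB q' (by omega)
        rw [hv]
        constructor
        · intro h4
          exact absurd h4 (not_le.2 h3)
        · rintro ⟨_, h5⟩
          omega
      · rw [hv, hx q h2, ip_add_left, ip_add_left, hip, hip]
        have h3 := h.iff q h2
        constructor
        · intro h4
          have h5 := h3.1 (by linarith)
          omega
        · intro h4
          have h5 := h3.2 (by omega)
          linarith
    · rw [vx_append (by omega)]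
      have h3 := hA s h1
      constructor
      · intro h4
        exact absurd h4 (not_le.2 h3)
      · rintro ⟨h5, _⟩
        omega

/-! ### 3. Class conditions, the frame -/

private lemma cls79 {A : List Bool} {e : ℕ → Pt} {p j : ℕ} {z : Pt}
    (h : (cl z = 0 ∧ cl (e (p + j)) = 2) ∨ (cl z = 2 ∧ cl (e (p + j)) = 1)) :
    (cl (AR.tg A z) = 0 ∧ cl (AR.nx A e p j) = 2) ∨ (cl (AR.tg A z) = 2 ∧ cl (AR.nx A e p j) = 1) := by
  rcases h with ⟨h1, h2⟩ | ⟨h1, h2⟩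
  · have hev : Even (A.length + A.length) := ⟨_, rfl⟩
    have e1 := AR.tg_cl (A := A) (n := A.length + A.length) (b := A.length) (z1 := z) rfl (by rw [if_pos hev, h1])
    have e2 := AR.nx_cl (A := A) (e := e) (p := p) (j := j) (n := A.length + A.length) (b := A.length) rfl
      (by rw [if_pos hev, h2])
    by_cases he : Even A.length
    · rw [if_pos he] at e1 e2
      exact Or.inl ⟨e1, e2⟩
    · rw [if_neg he] at e1 e2
      exact Or.inr ⟨e1, e2⟩
  · have hev : ¬ Even (A.length + (A.length + 1)) := by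
      rw [Nat.even_iff]
      omega
    have e1 := AR.tg_cl (A := A) (n := A.length + (A.length + 1)) (b := A.length + 1) (z1 := z) rfl (by rw [if_neg hev, h1])
    have e2 := AR.nx_cl (A := A) (e := e) (p := p) (j := j) (n := A.length + (A.length + 1)) (b := A.length + 1) rfl
      (by rw [if_neg hev, h2])
    by_cases he : Even (A.length + 1)
    · rw [if_pos he] at e1 e2
      exact Or.inl ⟨e1, e2⟩
    · rw [if_neg he] at e1 e2
      exact Or.inr ⟨e1, e2⟩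

/-- the distance of the target, exact -/
private lemma tg_hn79 {A : List Bool} {e : ℕ → Pt} {p r : ℕ} {D : ℤ} {z : Pt} :
    hn (AR.tg A z - AR.pv (AR.nx A e p) D r) = hn ((z - AR.pv e D (p + r)) - (en A - AR.pv e D p)) := by
  rw [← hn_mulE (nrm_rt A)]
  congr 1
  rw [mulE_sub, AR.rt_pv]
  unfold AR.tg
  rw [rt_rc]
  abel

private lemma nx_ipg79 {e : ℕ → Pt} {r : ℕ} (h : AR.IPath e r) : IPg e r := ⟨h.dir, h.tur, h.ind⟩

/-! ### 4. One gluing -/

/-- words A with a free end near c, then words V A in the frame of the end of A -/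
private lemma glue79 {e : ℕ → Pt} {p r : ℕ} {D w w' B : ℤ} {c : Pt} {n : ℕ} {x u K : ℝ} (h : AR.IPath e (p + r))
    (hs : e p = e (p - 1)) (hw : w + (w' + B) < D) {AA : Set (List Bool)} {VV : List Bool → Set (List Bool)}
    (hA : ∀ A ∈ AA, TubeQ e D w p (en A) A ∧ hn (en A - AR.pv e D p) ≤ B ∧ hn (en A - c) ≤ n)
    (hV : ∀ A ∈ AA, ∀ V ∈ VV A, ∃ z', TubeQ (AR.nx A e p) D w' r z' V)
    (hK : 0 < K) (hx : 0 ≤ x) (hu : 0 ≤ u) (h1 : ENNReal.ofReal (x * K) ≤ gf AA)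
    (h2 : ∀ A ∈ AA, ENNReal.ofReal u ≤ gf (VV A)) (hn : UU n ≤ K) : ENNReal.ofReal (x * u) ≤ gf (AR.Pr AA VV) := by
  have h3 : gf AA * ENNReal.ofReal u ≤ gf (AR.Df AA BU) * gf (AR.Pr AA VV) := by
    refine AR.glueM TIP.FreeA.BU_nil (fun _ h _ h' => TIP.FreeA.BU_app h h') h2 fun A hA1 A' hA2 V hV1 V' hV2 he hl => ?_
    obtain ⟨Z, rfl⟩ : ∃ Z, A' = A ++ Z := by
      have h1 : A <+: A' ++ V' := ⟨V, he⟩
      have h2 : A' <+: A' ++ V' := List.prefix_append _ _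
      obtain ⟨Z, hZ⟩ := List.prefix_of_prefix_length_le h1 h2 hl
      exact ⟨Z, hZ.symm⟩
    rw [List.append_assoc] at he
    have he' := List.append_cancel_left he
    obtain ⟨z', hz'⟩ := hV A hA1 V hV1
    rw [he'] at hz'
    exact ⟨Z, (AR.zQ h hs (hA _ hA1).1 (hA _ hA1).2.1 (hA _ hA2).1 hz' hw).1, rfl⟩
  exact AR.of_step hK hx hu h3 h1 le_rfl ((AR.df_mass (d := e (p - 1)) (c := c)
    fun A hA' => ⟨(hA A hA').1.de, (hA A hA').2.2⟩).trans (ENNReal.ofReal_le_ofReal hn)) le_rfl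

/-! ### 5. The hairpin, then a tube with the exact end -/

/-- the hairpins -/
private def XX79 (e : ℕ → Pt) (D : ℤ) (l n : ℕ) (κ : ℝ) : Set (List Bool) :=
  {X | TubeQ e D (2 ^ (l + 11)) (2 * n + 2) (en X) X ∧ hn (en X - AR.pv e D (2 * n + 2)) ≤ 2 ^ l ∧
    RichQ up κ l (WinQ e D (2 ^ (l + 11)) 0 n) X}

/-- the tubes behind the hairpin -/
private def YY79 (e : ℕ → Pt) (D : ℤ) (l n r : ℕ) (z : Pt) (X : List Bool) : Set (List Bool) :=
  {B | TubeQ (AR.nx X e (2 * n + 2)) D (2 ^ (l + 12)) r (AR.tg X z) B}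

private lemma p11_79 (l : ℕ) : (2 : ℤ) ^ (l + 11) = 2048 * 2 ^ l ∧ (2 : ℤ) ^ (l + 12) = 4096 * 2 ^ l ∧
    (2 : ℤ) ^ (l + 13) = 8192 * 2 ^ l ∧ (2 : ℤ) ^ (l + 5) = 32 * 2 ^ l := by
  refine ⟨?_, ?_, ?_, ?_⟩ <;> ring

private lemma ub_pos79 (j : ℕ) : 0 < Ub j := by
  unfold Ub
  exact Num2Aux.UU_pos _

private lemma back79 {e : ℕ → Pt} {D : ℤ} {l n r : ℕ} {κ cX cB : ℝ} {z : Pt} (hcX : 0 < cX) (hcB : 0 < cB)
    (h : AR.IPath e (2 * n + 2 + r)) (hr : 1 ≤ r) (hs : e (2 * n + 2) = e (2 * n + 1)) (hD : 20000 * 2 ^ l < D)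
    (hz : hn (z - AR.pv e D (2 * n + 2 + r)) ≤ 31 * 2 ^ l)
    (hc : (cl z = 0 ∧ cl (e (2 * n + 2 + (r - 1))) = 2) ∨ (cl z = 2 ∧ cl (e (2 * n + 2 + (r - 1))) = 1))
    (mX : ENNReal.ofReal (cX * Ub l) ≤ gf (XX79 e D l n κ))
    (mB : ∀ e' : ℕ → Pt, IPg e' r → e' 0 = up → ∀ z' : Pt, hn (z' - AR.pv e' D r) ≤ 2 ^ (l + 5) →
      ((cl z' = 0 ∧ cl (e' (r - 1)) = 2) ∨ (cl z' = 2 ∧ cl (e' (r - 1)) = 1)) →
      ENNReal.ofReal (cB * (Ub (l + 3) / 4 ^ (l + 3))) ≤ gf {Q | TubeQ e' D (2 ^ (l + 12)) r z' Q}) :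
    ENNReal.ofReal (cX * (cB * (Ub (l + 3) / 4 ^ (l + 3)))) ≤ gf (AR.Pr (XX79 e D l n κ) (YY79 e D l n r z)) := by
  obtain ⟨q11, q12, q13, q5⟩ := p11_79 l
  have h0 : (0 : ℤ) < 2 ^ l := by positivity
  have hU0 := ub_pos79 l
  have hU := ub_pos79 (l + 3)
  refine glue79 (w := 2 ^ (l + 11)) (w' := 2 ^ (l + 12)) (B := 2 ^ l) (c := AR.pv e D (2 * n + 2)) (n := 2 ^ l) (K := Ub l) h hs
    (by rw [q11, q12]; linarith) (fun X hX => ⟨hX.1, hX.2.1, by push_cast; exact hX.2.1⟩) (fun X _ B hB => ⟨_, hB⟩)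
    hU0 hcX.le ?_ mX (fun X hX => ?_) le_rfl
  · positivity
  · have hp := AR.nx_path h hr hs hX.1.de
    refine mB _ (nx_ipg79 hp) (hp.one (by omega)) _ ?_ (cls79 hc)
    rw [tg_hn79, q5]
    have h1 := hn_sub (z - AR.pv e D (2 * n + 2 + r)) (en X - AR.pv e D (2 * n + 2))
    have h2 := hX.2.1
    linarith

/-- the word is a tube -/
private lemma back_tube79 {e : ℕ → Pt} {D : ℤ} {l n r : ℕ} {κ : ℝ} {z : Pt} {X B : List Bool}
    (h : AR.IPath e (2 * n + 2 + r)) (hr : 1 ≤ r) (hs : e (2 * n + 2) = e (2 * n + 1)) (hD : 20000 * 2 ^ l < D)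
    (hX : X ∈ XX79 e D l n κ) (hB : B ∈ YY79 e D l n r z X) : TubeQ e D (2 ^ (l + 12) + 2 ^ l) (2 * n + 2 + r) z (X ++ B) := by
  obtain ⟨q11, q12, q13, q5⟩ := p11_79 l
  have h0 : (0 : ℤ) < 2 ^ l := by positivity
  have h1 := AR.app (w := 2 ^ (l + 12) + 2 ^ l) (w' := 2 ^ (l + 12)) (B := 2 ^ l) h (by omega) hr hs
    (tubeQ_mono hX.1 (by rw [q11, q12]; linarith)) hX.2.1 hB (by rw [q12]; linarith) le_rfl
  rwa [AR.rt_tg] at h1

/-! ### 6. A tube with a free end before the hairpin -/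

/-- the tubes before the hairpin -/
private def AA79 (e : ℕ → Pt) (D : ℤ) (l p : ℕ) (q : Pt) : Set (List Bool) :=
  {A | TubeQ e D (2 ^ (l + 4 + 9)) p (en A) A ∧ ((hn (en A - q) : ℤ) : ℝ) ≤ 1 / 8 * 2 ^ (l + 4)}

private lemma split79 {v : Pt} {x : ℤ} (hx : 8 ≤ x) (hv : hn v ≤ 64 * x) :
    ∃ v1 : Pt, hn v1 ≤ 42 * x ∧ hn (v - v1) ≤ 28 * x := by
  obtain ⟨a, b⟩ := v
  refine ⟨(5 * (a / 8), 5 * (b / 8)), hn_le fun d hd => ?_, hn_le fun d hd => ?_⟩
  · have h1 := ip_le_hn (a, b) hd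
    have h2 := neg_hn_le_ip (a, b) hd
    simp only [dirs, mem_insert, mem_singleton] at hd
    rcases hd with rfl | rfl | rfl | rfl | rfl | rfl <;> simp only [ip] at h1 h2 ⊢ <;> omega
  · have h1 := ip_le_hn (a, b) hd
    have h2 := neg_hn_le_ip (a, b) hd
    simp only [dirs, mem_insert, mem_singleton] at hd
    rcases hd with rfl | rfl | rfl | rfl | rfl | rfl <;> simp only [ip, Prod.fst_sub, Prod.snd_sub] at h1 h2 ⊢ <;> omega

private lemma disc79 {l : ℕ} {y : Pt} (h : ((hn y : ℤ) : ℝ) ≤ 1 / 8 * 2 ^ (l + 4)) : hn y ≤ 2 * 2 ^ l := by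
  have h1 : ((hn y : ℤ) : ℝ) ≤ ((2 * 2 ^ l : ℤ) : ℝ) := by
    push_cast
    refine h.trans (le_of_eq ?_)
    ring
  exact_mod_cast h1

/-- the path in the frame of A is a hairpin path -/
private lemma hpt79 {e : ℕ → Pt} {r N i0 : ℕ} {D : ℤ} {d : Pt} (h : ColV e r D N i0 d) (hN : 2 ≤ N) {A : List Bool}
    (hA : de A = d) : HPt (AR.nx A e (i0 + 1)) (N - 1) := by
  have hu : mulE (rc A) d = up := by
    have h1 : mulE (rt A) (mulE (rc A) d) = mulE (rt A) up := by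
      rw [rt_rc, rt_up, hA]
    exact mulE_inj (nrm_rt A) h1
  refine ⟨fun i hi => ?_, ?_, fun i hi => ?_⟩
  · unfold AR.nx
    rw [add_assoc, h.ups (1 + i) (by omega), hu]
  · have e1 : i0 + 1 + (N - 1) = i0 + N := by omega
    have e2 : i0 + 1 + (N - 1 + 1) = i0 + N + 1 := by omega
    unfold AR.nx
    rw [e1, e2]
    rcases h.cap with ⟨h1, h2⟩ | ⟨h1, h2⟩
    · left
      rw [h1, h2, ← AR.rotR_mulE, ← AR.rotR_mulE, ← AR.rotR_mulE, hu]
      exact ⟨rfl, rfl⟩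
    · right
      rw [h1, h2, ← AR.rotL_mulE, ← AR.rotL_mulE, ← AR.rotL_mulE, hu]
      exact ⟨rfl, rfl⟩
  · have e1 : i0 + 1 + (N - 1 + 2 + i) = i0 + N + 2 + i := by omega
    unfold AR.nx
    rw [e1, h.dns i (by omega), mulE_neg, hu]

/-- **the rows and the window** -/
private lemma rich79 {e : ℕ → Pt} {r N i0 l r2 : ℕ} {D : ℤ} {d z : Pt} {κ : ℝ} (h : ColV e r D N i0 d) (hd : d ∈ dirs)
    (hN : 2 ≤ N) (hr : r = i0 + 1 + (2 * N + r2)) (hD : 20000 * 2 ^ l < D) {A X B : List Bool}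
    (hA : TubeQ e D (2 ^ (l + 4 + 9)) (i0 + 1) (en A) A) (hAz : hn (en A - AR.pv e D (i0 + 1)) ≤ 44 * 2 ^ l)
    (hX : X ∈ XX79 (AR.nx A e (i0 + 1)) D l (N - 1) κ) (hB : B ∈ YY79 (AR.nx A e (i0 + 1)) D l (N - 1) r2 z X) :
    RichQ d (κ / 4) (l + 4) (WinQ e D (2 ^ (l + 4 + 9)) i0 N) (A ++ (X ++ B)) := by
  classical
  obtain ⟨q11, q12, q13, q5⟩ := p11_79 l
  have q13' : (2 : ℤ) ^ (l + 4 + 9) = 8192 * 2 ^ l := by rw [← q13]
  have h0 : (0 : ℤ) < 2 ^ l := by positivity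
  have hD0 : 0 ≤ D := by linarith
  have hdA : de A = d := by
    rw [hA.de]
    have := h.ups 0 (by omega)
    exact this
  obtain ⟨S, hS1, hS2⟩ := hX.2.2
  obtain ⟨f, hf⟩ : ∃ f : Pt × Pt → Pt × Pt, f = fun z => (en A + mulE (rt A) z.1, en A + mulE (rt A) z.2) := ⟨_, rfl⟩
  have hinj : Function.Injective f := by
    rintro ⟨a, b⟩ ⟨a', b'⟩ he
    rw [hf] at he
    simp only [Prod.mk.injEq] at he
    rw [mulE_inj (nrm_rt A) (add_left_cancel he.1), mulE_inj (nrm_rt A) (add_left_cancel he.2)]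
  refine ⟨S.image f, ?_, fun z hz => ?_⟩
  · rw [card_image_of_injective _ hinj]
    refine le_trans (le_of_eq ?_) hS1
    have e1 : (2 : ℝ) ^ (l + 4) = 4 ^ 2 * 2 ^ l := by ring
    rw [e1, Real.sqrt_mul (by positivity), Real.sqrt_sq (by norm_num)]
    ring
  · rw [mem_image] at hz
    obtain ⟨y, hy, rfl⟩ := hz
    obtain ⟨⟨⟨j1, g1, g2, g3⟩, j2, g4, g5, g6⟩, i, j, hrow⟩ := hS2 y hy
    have k1 := AR.nx_near hAz g3
    have k2 := AR.nx_near hAz g6
    rw [hf]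
    refine ⟨⟨⟨i0 + 1 + j1, by omega, by omega, k1.mono ?_⟩, i0 + 1 + j2, by omega, by omega, k2.mono ?_⟩, A.length + i,
      A.length + j, RowC.glue hrow hdA.symm (fun s hs => ?_) fun s hs => ?_⟩
    · rw [q11, q13']
      linarith
    · rw [q11, q13']
      linarith
    · obtain ⟨j3, g7, g8⟩ := hA.rg s hs
      have m1 := ns_hi79 hd (col_fst79 h hd hD0 (by omega) (by omega : j3 ≤ i0 + 1))
        (col_fst79 h hd hD0 (by omega) (by omega : j3 + 1 ≤ i0 + 1)) g8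
      have m2 := ns_lo79 hd (by rw [add_assoc]; exact h.ups (1 + j1) (by omega)) k1
      rw [add_assoc, col_up79 h hd (1 + j1) (by omega)] at m2
      have m3 : 2 * D ≤ (1 + j1 : ℕ) * D := mul_le_mul_of_nonneg_right (by push_cast; omega) hD0
      rw [q13'] at m1
      rw [q11] at m2
      push_cast at m2 m3
      linarith
    · have hx := vx_app X B s
      obtain ⟨j3, g7, g8⟩ := hB.rg s hs
      have k3 := AR.nx_near hX.2.1 g8
      rw [← hx] at k3
      have k4 := AR.nx_near hAz k3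
      have m1 := ns_hi79 hd (col_lst79 h hd hD0 (by omega) (by omega : i0 + 2 * N + 1 ≤ i0 + 1 + (2 * (N - 1) + 2 + j3)) (by omega))
        (col_lst79 h hd hD0 (by omega) (by omega : i0 + 2 * N + 1 ≤ i0 + 1 + (2 * (N - 1) + 2 + j3) + 1) (by omega)) k4
      have m2 := ns_lo79 hd (by rw [add_assoc]; exact h.ups (1 + j1) (by omega)) k1
      rw [add_assoc, col_up79 h hd (1 + j1) (by omega)] at m2
      have m3 : 2 * D ≤ (1 + j1 : ℕ) * D := mul_le_mul_of_nonneg_right (by push_cast; omega) hD0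
      rw [q12] at m1
      rw [q11] at m2
      push_cast at m2 m3
      linarith

/-- **tube, hairpin, tube** -/
private lemma core79 {e : ℕ → Pt} {r N i0 l : ℕ} {D : ℤ} {d z : Pt} {κ cA cX cB : ℝ} (hcA : 0 < cA) (hcX : 0 < cX) (hcB : 0 < cB)
    (hl : 3 ≤ l) (he : AR.IPath e r) (h : ColV e r D N i0 d) (hd : d ∈ dirs) (hN : 2 ≤ N) (hD : 20000 * 2 ^ l < D)
    (hz : hn (z - AR.pv e D r) ≤ 64 * 2 ^ l)
    (hc : (cl z = 0 ∧ cl (e (r - 1)) = 2) ∨ (cl z = 2 ∧ cl (e (r - 1)) = 1))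
    (mA : ∀ q : Pt, ((hn (q - AR.pv e D (i0 + 1)) : ℤ) : ℝ) + 1 / 8 * 2 ^ (l + 4) ≤ 2 ^ (l + 4 + 2) →
      ENNReal.ofReal (cA * Ub (l + 4)) ≤ gf (AA79 e D l (i0 + 1) q))
    (mX : ∀ e' : ℕ → Pt, AR.IPath e' (2 * (N - 1) + 2) → HPt e' (N - 1) →
      ENNReal.ofReal (cX * Ub l) ≤ gf (XX79 e' D l (N - 1) κ))
    (mB : ∀ (r' : ℕ) (e' : ℕ → Pt), 1 ≤ r' → r' ≤ r → IPg e' r' → e' 0 = up → ∀ z' : Pt, hn (z' - AR.pv e' D r') ≤ 2 ^ (l + 5) →
      ((cl z' = 0 ∧ cl (e' (r' - 1)) = 2) ∨ (cl z' = 2 ∧ cl (e' (r' - 1)) = 1)) →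
      ENNReal.ofReal (cB * (Ub (l + 3) / 4 ^ (l + 3))) ≤ gf {Q | TubeQ e' D (2 ^ (l + 12)) r' z' Q}) :
    ENNReal.ofReal (cA * (cX * (cB * (Ub (l + 3) / 4 ^ (l + 3))))) ≤
      gf {Q | TubeQ e D (2 ^ (l + 4 + 9)) r z Q ∧ RichQ d (κ / 4) (l + 4) (WinQ e D (2 ^ (l + 4 + 9)) i0 N) Q} := by
  obtain ⟨q11, q12, q13, q5⟩ := p11_79 l
  have q13' : (2 : ℤ) ^ (l + 4 + 9) = 8192 * 2 ^ l := by rw [← q13]
  have h0 : (0 : ℤ) < 2 ^ l := by positivity
  have h8 : (8 : ℤ) ≤ 2 ^ l := by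
    have : (2 : ℤ) ^ 3 ≤ 2 ^ l := pow_le_pow_right₀ (by norm_num) hl
    linarith
  have hle := h.le
  obtain ⟨r2, hr2⟩ : ∃ r2 : ℕ, r = i0 + 1 + (2 * N + r2) := ⟨r - (i0 + 1 + 2 * N), by omega⟩
  have hr3 : 3 ≤ r2 := by omega
  obtain ⟨v1, hv1, hv2⟩ := split79 h8 hz
  obtain ⟨q, hq⟩ : ∃ q, q = AR.pv e D (i0 + 1) + v1 := ⟨_, rfl⟩
  have hN2 : 2 * (N - 1) + 2 = 2 * N := by omega
  have he' : AR.IPath e (i0 + 1 + (2 * (N - 1) + 2 + r2)) := by rw [hN2, ← hr2]; exact he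
  have hs : e (i0 + 1) = e (i0 + 1 - 1) := by
    have e1 := h.ups 0 (by omega)
    have e2 := h.ups 1 (by omega)
    rw [e2, Nat.add_sub_cancel]
    exact e1.symm
  have hA1 : ∀ A ∈ AA79 e D l (i0 + 1) q, TubeQ e D (2 ^ (l + 4 + 9)) (i0 + 1) (en A) A ∧
      hn (en A - AR.pv e D (i0 + 1)) ≤ 44 * 2 ^ l ∧ hn (en A - q) ≤ 2 * 2 ^ l := by
    intro A hA
    have h1 := disc79 hA.2
    refine ⟨hA.1, ?_, h1⟩
    have h2 := hn_tri (en A) q (AR.pv e D (i0 + 1))
    have h3 : q - AR.pv e D (i0 + 1) = v1 := by rw [hq]; abel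
    rw [h3] at h2
    linarith
  have hdA : ∀ A ∈ AA79 e D l (i0 + 1) q, de A = d := by
    intro A hA
    rw [hA.1.de]
    exact h.ups 0 (by omega)
  have hpath : ∀ A ∈ AA79 e D l (i0 + 1) q, AR.IPath (AR.nx A e (i0 + 1)) (2 * (N - 1) + 2 + r2) := fun A hA =>
    AR.nx_path he' (by omega) hs hA.1.de
  have hs' : ∀ A ∈ AA79 e D l (i0 + 1) q, AR.nx A e (i0 + 1) (2 * (N - 1) + 2) = AR.nx A e (i0 + 1) (2 * (N - 1) + 1) := by
    intro A hA
    have e1 : i0 + 1 + (2 * (N - 1) + 2) = i0 + N + 2 + (N - 1) := by omega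
    have e2 : i0 + 1 + (2 * (N - 1) + 1) = i0 + N + 2 + (N - 2) := by omega
    unfold AR.nx
    rw [e1, e2, h.dns _ (by omega), h.dns _ (by omega)]
  have key := glue79 (e := e) (p := i0 + 1) (r := 2 * (N - 1) + 2 + r2) (D := D) (w := 2 ^ (l + 4 + 9)) (w' := 2 ^ (l + 12) + 2 ^ l)
    (B := 44 * 2 ^ l) (c := q) (n := 2 * 2 ^ l) (x := cA) (u := cX * (cB * (Ub (l + 3) / 4 ^ (l + 3)))) (K := Ub (l + 4)) he' hs
    (by rw [q13', q12]; linarith) (AA := AA79 e D l (i0 + 1) q)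
    (VV := fun A => AR.Pr (XX79 (AR.nx A e (i0 + 1)) D l (N - 1) κ) (YY79 (AR.nx A e (i0 + 1)) D l (N - 1) r2 (AR.tg A z)))
    (fun A hA => ⟨(hA1 A hA).1, (hA1 A hA).2.1, by push_cast; exact (hA1 A hA).2.2⟩) (fun A hA V hV => ?_) (ub_pos79 _) hcA.le ?_
    (mA q ?_) (fun A hA => ?_) ?_
  · refine key.trans (gf_mono ?_)
    rintro Q ⟨A, hA, V, ⟨X, hX, B, hB, rfl⟩, rfl⟩
    obtain ⟨a1, a2, a3⟩ := hA1 A hA
    have b1 := back_tube79 (hpath A hA) (by omega) (hs' A hA) hD hX hB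
    refine ⟨?_, rich79 h hd hN hr2 hD a1 a2 hX hB⟩
    have b2 := AR.app (w := 2 ^ (l + 4 + 9)) (w' := 2 ^ (l + 12) + 2 ^ l) (B := 44 * 2 ^ l) he' (by omega) (by omega) hs a1 a2 b1
      (by rw [q13', q12]; linarith) (by rw [q13', q12]; linarith)
    rw [AR.rt_tg, hN2, ← hr2] at b2
    exact b2
  · obtain ⟨X, hX, B, hB, rfl⟩ := hV
    exact ⟨_, back_tube79 (hpath A hA) (by omega) (hs' A hA) hD hX hB⟩
  · have := ub_pos79 (l + 3)
    positivity
  · have h3 : q - AR.pv e D (i0 + 1) = v1 := by rw [hq]; abel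
    rw [h3]
    have h4 : ((hn v1 : ℤ) : ℝ) ≤ ((42 * 2 ^ l : ℤ) : ℝ) := by exact_mod_cast hv1
    push_cast at h4
    have e1 : (2 : ℝ) ^ (l + 4) = 16 * 2 ^ l := by ring
    have e2 : (2 : ℝ) ^ (l + 4 + 2) = 64 * 2 ^ l := by ring
    have h5 : (0 : ℝ) < 2 ^ l := by positivity
    rw [e1, e2]
    linarith
  · obtain ⟨a1, a2, a3⟩ := hA1 A hA
    refine back79 hcX hcB (hpath A hA) (by omega) (hs' A hA) hD ?_ (cls79 ?_) (mX _ ?_ (hpt79 h hN (hdA A hA)))
      fun e' i1 i2 z' i3 i4 => mB r2 e' (by omega) (by omega) i1 i2 z' i3 i4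
    · rw [tg_hn79, hN2, ← hr2]
      have e1 : z - AR.pv e D r - (en A - AR.pv e D (i0 + 1)) = (z - AR.pv e D r - v1) - (en A - q) := by rw [hq]; abel
      rw [e1]
      have h4 := hn_sub (z - AR.pv e D r - v1) (en A - q)
      linarith
    · rw [hN2, show i0 + 1 + (2 * N + (r2 - 1)) = r - 1 by omega]
      exact hc
    · exact ⟨fun i hi => (hpath A hA).dir i (by omega), fun _ => (hpath A hA).one (by omega),
        fun i hi => (hpath A hA).tur i (by omega), fun i j hij hj => (hpath A hA).ind i j hij (by omega)⟩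
  · unfold Ub
    refine Num2Aux.UU_mono ?_
    rw [pow_add]
    omega

/-! ### 7. The literal of the row -/

/-- the distance of the target in the frame of the end of I -/
private lemma tgt79 {E : ℕ → Pt} {r : ℕ} {D : ℤ} {k : ℕ} {s : Pt} {I : List Bool} (hP : Plc E r D k s I) :
    hn (mulE (rc I) (-(en I)) - AR.pv (fun i => mulE (rc I) (E i)) D r) ≤ 2 ^ (k + 2) := by
  have e1 : AR.pv (fun i => mulE (rc I) (E i)) D r = mulE (rc I) (AR.pv E D r) := by
    unfold AR.pv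
    rw [ps_rot, ← mulE_smul]
  have e2 : qv E D r r = 0 := by
    unfold qv
    rw [sub_self, smul_zero]
  rw [e1, ← mulE_sub, hn_mulE (nrm_rc I), pv_qv E D r, e2]
  have e3 : -(en I) - (0 - qv E D r 0) = s - (s + en I - qv E D r 0) := by abel
  rw [e3]
  have h1 := hn_sub s (s + en I - qv E D r 0)
  have h2 := hP.hs
  have h3 := hP.ht
  have p1 : (2 : ℤ) ^ (k + 2) = 2 ^ (k + 1) + 2 ^ (k + 1) := by ring
  rw [p1]
  linarith

private lemma cl_neg79 (y : Pt) : cl (-y) = -cl y := by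
  unfold cl
  push_cast
  simp only [Prod.fst_neg, Prod.snd_neg]
  push_cast
  ring

/-- the class of the target in the frame of the end of I -/
private lemma tgc79 (I : List Bool) : (cl (mulE (rc I) (-(en I))) = 0 ∧ cl (mulE (rc I) up) = 2) ∨
    (cl (mulE (rc I) (-(en I))) = 2 ∧ cl (mulE (rc I) up) = 1) := by
  rw [AR.cl_mulE, AR.cl_mulE, cl_neg79, AR.cl_en, AR.cl_up', AR.cl_rc]
  by_cases h : Even I.length
  · left
    rw [if_pos h, if_pos h]
    decide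
  · right
    rw [if_neg h, if_neg h]
    decide

/-- **TopTube**: the tubes over the top with many rich rows have the mass of all the tubes -/
theorem topTubeS_of {N : ℕ} (hN : 2 ≤ N) (hX : HairpinS (N - 1)) : TopTubeS N := by
  obtain ⟨H1, hH1, hT⟩ := tubeSumG
  obtain ⟨H2, hH2, hX⟩ := hX
  refine ⟨max H1 H2, hH1.trans (le_max_left _ _), fun H hH Mx => ?_⟩
  have hH1' : H1 ≤ H := (le_max_left _ _).trans hH
  have hH2' : H2 ≤ H := (le_max_right _ _).trans hH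
  obtain ⟨cA, kA, hcA, hA⟩ := hT H hH1' Mx (1 / 8) (by norm_num) (by norm_num)
  obtain ⟨cB, kB, hcB, hB⟩ := hT (2 * H) (by omega) Mx (1 / 8) (by norm_num) (by norm_num)
  obtain ⟨cX, κ, kX, hcX, hκ, hX⟩ := hX (16 * H) (by omega)
  refine ⟨cA * (cX * cB), κ / 4, kA + kB + kX + 8, by positivity, by positivity,
    fun k r i0 D E d s I hk hD1 hD2 h4 hr hE hup hup2 hd hC hP => ?_⟩
  obtain ⟨l, rfl⟩ : ∃ l, k = l + 4 := ⟨k - 4, by omega⟩
  have hH13 : (2 : ℤ) ^ 13 ≤ (H : ℤ) := by exact_mod_cast hH1.trans hH1'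
  have h0 : (0 : ℤ) < 2 ^ l := by positivity
  have p4 : (2 : ℤ) ^ (l + 4) = 16 * 2 ^ l := by ring
  have p3 : (2 : ℤ) ^ (l + 3) = 8 * 2 ^ l := by ring
  have hD : 20000 * 2 ^ l < D := by
    rw [p4] at hD1
    nlinarith
  have he := ipg_rot hE (nrm_rc I)
  have he0 : mulE (rc I) (E 0) = up := by
    have h1 : mulE (rt I) (mulE (rc I) (E 0)) = mulE (rt I) up := by
      rw [rt_rc, rt_up, ← hP.de]
    exact mulE_inj (nrm_rt I) h1
  have hIP := ipg_path he he0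
  have hC' := colV_of hC I
  have hd' : mulE (rc I) d ∈ dirs := mulE_mem (nrm_rc I) hd
  have hz := tgt79 hP
  have p6 : (2 : ℤ) ^ (l + 4 + 2) = 64 * 2 ^ l := by ring
  rw [p6] at hz
  have hc := tgc79 I
  rw [← hup] at hc
  have hUl := ub_pos79 (l + 3)
  have main := core79 (z := mulE (rc I) (-(en I))) (κ := κ) hcA hcX hcB (by omega) hIP hC' hd' (by omega) hD hz hc
    (fun q hq => (hA (l + 4) (i0 + 1) D _ (by omega) hD1 hD2 (by omega) (by have := hC.le; omega)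
      ⟨fun i hi => he.dir i (by have := hC.le; omega), fun i hi => he.tur i (by have := hC.le; omega),
        fun i j hij hj => he.ind i j hij (by have := hC.le; omega)⟩ he0).2 q hq)
    (fun e' i1 i2 => hX l D e' (by omega) (by push_cast; rw [p4] at hD1; linarith) (by push_cast; rw [p4] at hD2; linarith) i1 i2)
    (fun r' e' i0 i1 i2 i3 z' i4 i5 => (hB (l + 3) r' D e' (by omega) (by push_cast; rw [p3]; rw [p4] at hD1; linarith)
      (by push_cast; rw [p3]; rw [p4] at hD2; linarith) i0 (by omega) i2 i3).1 z' i4 i5)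
  refine le_trans (ENNReal.ofReal_le_ofReal ?_) main
  have h1 : Ub (l + 4) ≤ 2 * Ub (l + 3) := Ub_succ (l + 3)
  have h2 : Ub (l + 4) / 4 ^ (l + 4) ≤ Ub (l + 3) / 4 ^ (l + 3) := by
    rw [pow_succ, div_le_div_iff₀ (by positivity) (by positivity)]
    have : (0 : ℝ) < 4 ^ (l + 3) := by positivity
    nlinarith
  calc cA * (cX * cB) * (Ub (l + 4) / 4 ^ (l + 4)) ≤ cA * (cX * cB) * (Ub (l + 3) / 4 ^ (l + 3)) :=
        mul_le_mul_of_nonneg_left h2 (by positivity)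
    _ = _ := by ring

end ART

end HexObs
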