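import Pool.Agent.ART.PathTS
import Pool.Agent.ART.Hairpin
import Pool.Agent.ART.TopTube
import Pool.Agent.ART.HVt
import Pool.Agent.ART.Img
import Pool.Agent.ART.H3T
import Pool.Agent.ART.T2TF
import Pool.Agent.ART.LoopF

/-!
# ART (helper87): the chain ART closed

* `topTubeS11 : TopTubeS 11` (helper69's hairpin, helper79's topTube, helper59, 51, 80);
* **`outSt : OutSt`** (JoinTc = helper39, 90, 64, 34, 51, 15, 9, 84; ImgS = helper21; HVt = helper87);
* **`h3T : H3T`** (T2T = helper37, 82, 47, ..; h3T_of = helper4; literal H3T = helper49).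
-/

set_option autoImplicit false

namespace HexObs

namespace ART

/-- **TopTube** -/
theorem topTubeS11 : TopTubeS 11 := topTubeS_of (by norm_num) (hairpinS 10 le_rfl)

/-- **OutSt** -/
theorem outSt : OutSt := OG.outSt_of joinTc topTubeS11 (IM.imgS 11)

/-- **(H3) at the top** -/
theorem h3T : H3T := h3T_of (t2T_in3 fastLp joinT) outSt

end ART

end HexObs

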