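import Pool.Agent.ART.OutAll

/-!
# ART (helper87): `t2SX : T2SX` (helper47's `t2STx_all`, helper37, helper82), no hypothesis
-/

set_option autoImplicit false

namespace HexObs

namespace ART

open TIP ARM

/-- **T2SX** -/
theorem t2SX : T2SX := by
  obtain ⟨C, b0, hC, h⟩ := t2STx_all (t1T_in3 fastLp joinT) (esTL2_all (loopM_of fastLp))
  exact ⟨C, 1 / 200, b0, hC, by norm_num, h⟩

end ART

end HexObs
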