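import Pool.Agent.ART.OutGA
import Pool.Agent.ART.JMassT

/-!
# ART, row Cc3 (helper87): the outer glue

`out_glue`: a set W of joinable words (one path), a set A of closed words; for every confined minimal part I of a word of W, in
its place, the tubes Q such that `I ++ Q`, seen from some vertex near the path, is in A have the mass at least v. Then
`gf W * v <= C Ub k ^ 2 * gf A`.
-/

set_option autoImplicit false

namespace HexObs

namespace ART

namespace OG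

open Finset TS SDN SIM NTA TIP ARM ARM.G3 JT

open scoped ENNReal

variable {E : ℕ → Pt} {r : ℕ} {D : ℤ} {k : ℕ}

/-- the tubes that close the placed word I to a closed word which is in A when it is read from a vertex in the ball of radius B -/
def Im (E : ℕ → Pt) (r : ℕ) (D : ℤ) (k : ℕ) (B : ℤ) (A : Set (List Bool)) (s : Pt) (I : List Bool) : Set (List Bool) :=
  {Q | TP E r D k I Q ∧ ∃ a, a < I.length + Q.length ∧ (I ++ Q).rotate a ∈ A ∧ TIW.hn (s + POL.pv (I ++ Q) a) ≤ B}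

/-- **the minimal parts** -/
theorem sum_im (hE : IPg E r) (hr : 3 ≤ r) (hup : E (r - 1) = up) (hD : 2 ^ (k + 12) ≤ D) (B : ℕ) (A : Set (List Bool))
    {Z : Set (Pt × List Bool)} (hZ : ∀ x ∈ Z, Wc E r D k x.1 x.2) (v : ℝ≥0∞)
    (hv : ∀ x ∈ Z, v ≤ gf (Im E r D k B A x.1 x.2)) :
    (∑' x : Z, wE (x : Pt × List Bool).2) * v ≤ ((6 * (4 * B + 1) ^ 2 : ℕ) : ℝ≥0∞) * gf A := by
  classical
  obtain ⟨T, hT⟩ : ∃ T : Set ((Pt × List Bool) × List Bool), T = {x | x.1 ∈ Z ∧ x.2 ∈ Im E r D k B A x.1.1 x.1.2} :=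
    ⟨_, rfl⟩
  have h1 : (∑' x : Z, wE (x : Pt × List Bool).2) * v ≤
      ∑' x : T, wE (x : (Pt × List Bool) × List Bool).1.2 * wE (x : (Pt × List Bool) × List Bool).2 := by
    rw [tsum_subtype T (fun x : (Pt × List Bool) × List Bool => wE x.1.2 * wE x.2), ENNReal.tsum_prod',
      ← ENNReal.tsum_mul_right, tsum_subtype Z (fun x : Pt × List Bool => wE x.2 * v)]
    refine ENNReal.tsum_le_tsum fun y => ?_
    by_cases hy : y ∈ Z
    · rw [Set.indicator_of_mem hy]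
      refine (mul_le_mul' le_rfl (hv y hy)).trans ?_
      rw [AR.gf_ite, ← ENNReal.tsum_mul_left]
      refine ENNReal.tsum_le_tsum fun Q => ?_
      by_cases hQ : Q ∈ Im E r D k B A y.1 y.2
      · rw [if_pos hQ, Set.indicator_of_mem]
        rw [hT]
        exact ⟨hy, hQ⟩
      · rw [if_neg hQ, mul_zero]
        exact zero_le
    · rw [Set.indicator_of_notMem hy]
      exact zero_le
  refine h1.trans ?_
  have key : ∀ x ∈ T, ∃ a, a < x.1.2.length + x.2.length ∧ (x.1.2 ++ x.2).rotate a ∈ A ∧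
      TIW.hn (x.1.1 + POL.pv (x.1.2 ++ x.2) a) ≤ B := by
    intro x hx
    rw [hT] at hx
    exact hx.2.2
  choose! f hf using key
  have h5 : ∑' x : T, wE (x : (Pt × List Bool) × List Bool).1.2 * wE (x : (Pt × List Bool) × List Bool).2 ≤
      ∑' y : ((((bx B ×ˢ dirs : Finset (Pt × Pt)) : Set (Pt × Pt)) ×ˢ A : Set ((Pt × Pt) × List Bool))),
        wE (y : (Pt × Pt) × List Bool).2 := by
    refine inj_sum (f := fun x : (Pt × List Bool) × List Bool => wE x.1.2 * wE x.2)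
      (g := fun y : (Pt × Pt) × List Bool => wE y.2) (fun x => rta x (f x)) ?_ ?_ ?_
    · intro x hx
      obtain ⟨h2, h3, h4⟩ := hf x hx
      refine ⟨?_, h3⟩
      show (_, _) ∈ ((bx B ×ˢ dirs : Finset (Pt × Pt)) : Set (Pt × Pt))
      rw [mem_coe, mem_product]
      exact ⟨mem_bx h4, POL.pd_mem _ _⟩
    · intro x hx x' hx' he
      have h2 := hf x hx
      have h3 := hf x' hx'
      rw [hT] at hx hx'
      exact rta_injc hE hr hup hD (hZ _ hx.1) hx.2.1 (hZ _ hx'.1) hx'.2.1 h2.1 h3.1 he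
    · intro x _
      show wE x.1.2 * wE x.2 ≤ wE ((x.1.2 ++ x.2).rotate (f x))
      rw [wE_rotate, wE_append]
  refine h5.trans ?_
  rw [box_sum]

/-- **the placed words from the minimal ones** (no window of lengths) -/
theorem sum_decc (hD : 0 ≤ D) (hr : 1 ≤ r) {P Z : Set (Pt × List Bool)} (hP : ∀ x ∈ P, Plc E r D k x.1 x.2)
    (hPZ : ∀ x ∈ P, ∀ Z1 I Z2 : List Bool, x.2 = Z1 ++ (I ++ Z2) → Cf E r D k x.1 Z1 I Z2 →
      Wc E r D k (x.1 + TIW.en Z1) I → (x.1 + TIW.en Z1, I) ∈ Z) :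
    ∑' x : P, wE (x : Pt × List Bool).2 ≤ gf (G3.BL k) * (gf (G3.BL k) * ∑' y : Z, wE (y : Pt × List Bool).2) := by
  classical
  have key : ∀ x ∈ P, ∃ Z1 I Z2 : List Bool, x.2 = Z1 ++ (I ++ Z2) ∧ Cf E r D k x.1 Z1 I Z2 ∧
      Wc E r D k (x.1 + TIW.en Z1) I := fun x hx => min_decc hD hr x.2.length x.1 x.2 rfl (hP x hx)
  choose! f g h hf using key
  have e1 : gf (G3.BL k) * (gf (G3.BL k) * ∑' y : Z, wE (y : Pt × List Bool).2) =
      ∑' p : G3.BL k × (G3.BL k × Z), wE (p.1 : List Bool) * (wE (p.2.1 : List Bool) * wE (p.2.2 : Pt × List Bool).2) := by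
    rw [ENNReal.tsum_prod']
    unfold gf
    rw [← ENNReal.tsum_mul_right]
    refine tsum_congr fun Z1 => ?_
    show _ = ∑' b : G3.BL k × Z, wE (Z1 : List Bool) * (wE (b.1 : List Bool) * wE (b.2 : Pt × List Bool).2)
    rw [ENNReal.tsum_mul_left, ENNReal.tsum_prod', ← ENNReal.tsum_mul_right]
    congr 1
    refine tsum_congr fun Z2 => ?_
    exact (ENNReal.tsum_mul_left).symm
  rw [e1]
  have hmem : ∀ x ∈ P, f x ∈ G3.BL k ∧ h x ∈ G3.BL k ∧ (x.1 + TIW.en (f x), g x) ∈ Z := by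
    intro x hx
    obtain ⟨h1, h2, h3⟩ := hf x hx
    have hPx := hP x hx
    rw [h1] at hPx
    obtain ⟨h5, h6⟩ := cf_hgt h2 hPx h3.1
    exact ⟨⟨h2.1, h5⟩, ⟨h2.2.1, h6⟩, hPZ x hx _ _ _ h1 h2 h3⟩
  let φ : P → G3.BL k × (G3.BL k × Z) := fun x =>
    (⟨f x, (hmem x x.2).1⟩, (⟨h x, (hmem x x.2).2.1⟩, ⟨((x : Pt × List Bool).1 + TIW.en (f x), g x), (hmem x x.2).2.2⟩))
  have hφ : Function.Injective φ := by
    intro x y hxy
    have a1 : f (x : Pt × List Bool) = f (y : Pt × List Bool) := congrArg (fun p => ((p.1 : G3.BL k) : List Bool)) hxy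
    have a2 : h (x : Pt × List Bool) = h (y : Pt × List Bool) := congrArg (fun p => ((p.2.1 : G3.BL k) : List Bool)) hxy
    have a3 : ((x : Pt × List Bool).1 + TIW.en (f x), g (x : Pt × List Bool)) =
        ((y : Pt × List Bool).1 + TIW.en (f y), g (y : Pt × List Bool)) :=
      congrArg (fun p => (p.2.2 : Pt × List Bool)) hxy
    rw [Prod.mk.injEq] at a3
    obtain ⟨a4, a5⟩ := a3
    apply Subtype.ext
    apply Prod.ext
    · rw [a1] at a4
      exact add_right_cancel a4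
    · rw [(hf x x.2).1, (hf y y.2).1, a1, a2, a5]
  refine le_trans (le_of_eq (tsum_congr fun x => ?_)) (ENNReal.tsum_comp_le_tsum_of_injective hφ _)
  show wE (x : Pt × List Bool).2 = wE (f x) * (wE (h x) * wE (g x))
  rw [← wE_append, ← wE_append]
  have h1 := (hf x x.2).1
  unfold wE
  rw [h1]
  simp only [List.length_append]
  congr 2
  ring

/-- **the outer glue** -/
theorem out_glue (K : ℕ) : ∃ C : ℝ, 0 < C ∧ ∀ (k r : ℕ) (D : ℤ) (E : ℕ → Pt), 3 ≤ r → 2 ^ (k + 12) ≤ D →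
    IPg E r → E (r - 1) = up → ∀ (W A : Set (List Bool)) (v : ℝ≥0∞), (∀ M ∈ W, Jn E r D k M) →
    (∀ M ∈ W, ∀ s : Pt, TIW.hn s ≤ 2 ^ k → ∀ Z1 I Z2 : List Bool, M = Z1 ++ (I ++ Z2) → Cf E r D k s Z1 I Z2 →
      Wc E r D k (s + TIW.en Z1) I → v ≤ gf (Im E r D k (K * 2 ^ k) A (s + TIW.en Z1) I)) →
    gf W * v ≤ ENNReal.ofReal (C * Ub k ^ 2) * gf A := by
  classical
  refine ⟨36 * (4 * 4) * (150 * ((K + 1 : ℕ) : ℝ) ^ 2), by positivity, ?_⟩
  intro k r D E hr hD hE hup W A v hW hv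
  have hU : 0 < Ub k := Num2Aux.UU_pos _
  have hU2 : Ub (k + 2) ≤ 4 * Ub k := by
    have := TPC.Ub_pow k 2
    norm_num at this
    exact this
  have hD0 : 0 ≤ D := le_trans (by positivity) hD
  have hBL : gf (G3.BL k) ≤ ENNReal.ofReal (4 * Ub k) :=
    (TIP.gf_low (2 ^ (k + 2))).trans (ENNReal.ofReal_le_ofReal hU2)
  obtain ⟨S, hS1, hS2⟩ := small_pts k
  obtain ⟨P, hP⟩ : ∃ P : Set (Pt × List Bool), P = (S : Set Pt) ×ˢ W := ⟨_, rfl⟩
  obtain ⟨Z, hZ⟩ : ∃ Z : Set (Pt × List Bool), Z = {y | ∃ M ∈ W, ∃ s ∈ S, ∃ Z1 Z2 : List Bool, M = Z1 ++ (y.2 ++ Z2) ∧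
    Cf E r D k s Z1 y.2 Z2 ∧ y.1 = s + TIW.en Z1 ∧ Wc E r D k y.1 y.2} := ⟨_, rfl⟩
  have h1 : (S.card : ℝ≥0∞) * gf W = ∑' x : P, wE (x : Pt × List Bool).2 := by
    rw [hP, tsum_subtype ((S : Set Pt) ×ˢ W) (fun x : Pt × List Bool => wE x.2), ENNReal.tsum_prod']
    have h3 : ∀ a : Pt, ∑' w : List Bool, ((S : Set Pt) ×ˢ W).indicator (fun x : Pt × List Bool => wE x.2) (a, w) =
        if a ∈ S then gf W else 0 := by
      intro a
      by_cases ha : a ∈ S
      · rw [if_pos ha, AR.gf_ite]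
        refine tsum_congr fun w => ?_
        by_cases hw : w ∈ W
        · rw [if_pos hw, Set.indicator_of_mem]
          exact ⟨ha, hw⟩
        · rw [if_neg hw, Set.indicator_of_notMem]
          exact fun h => hw h.2
      · rw [if_neg ha, ENNReal.tsum_eq_zero]
        intro w
        rw [Set.indicator_of_notMem]
        exact fun h => ha h.1
    rw [tsum_congr h3, tsum_eq_sum (s := S) (fun a ha => if_neg ha),
      sum_congr rfl (g := fun _ => gf W) (fun a ha => if_pos ha), sum_const, nsmul_eq_mul]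
  have h2 : ∑' x : P, wE (x : Pt × List Bool).2 ≤ gf (G3.BL k) * (gf (G3.BL k) * ∑' y : Z, wE (y : Pt × List Bool).2) := by
    refine sum_decc (E := E) (r := r) (D := D) (k := k) hD0 (by omega : 1 ≤ r) (fun x hx => ?_) (fun x hx Z1 I Z2 a1 a2 a3 => ?_)
    · rw [hP] at hx
      exact jn_plc (hW _ hx.2) (hS1 _ hx.1)
    · rw [hP] at hx
      rw [hZ]
      exact ⟨x.2, hx.2, x.1, hx.1, Z1, Z2, a1, a2, rfl, a3⟩
  have h3 : (∑' y : Z, wE (y : Pt × List Bool).2) * v ≤ ((6 * (4 * (K * 2 ^ k) + 1) ^ 2 : ℕ) : ℝ≥0∞) * gf A := by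
    refine sum_im hE hr hup hD (K * 2 ^ k) A (fun x hx => ?_) v (fun x hx => ?_)
    · rw [hZ] at hx
      obtain ⟨M, hM, s, hs, Z1, Z2, a1, a2, a3, a4⟩ := hx
      exact a4
    · rw [hZ] at hx
      obtain ⟨M, hM, s, hs, Z1, Z2, a1, a2, a3, a4⟩ := hx
      rw [a3]
      rw [a3] at a4
      push_cast
      exact hv M hM s (hS1 s hs) Z1 x.2 Z2 a1 a2 a4
  have h4k : (0 : ℝ) < 4 ^ k := by positivity
  -- the numbers
  have h4 : ENNReal.ofReal (4 ^ k / 36) * (gf W * v) ≤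
      ENNReal.ofReal (4 ^ k / 36) * (ENNReal.ofReal (36 * (4 * 4) * (150 * ((K + 1 : ℕ) : ℝ) ^ 2) * Ub k ^ 2) * gf A) := by
    calc ENNReal.ofReal (4 ^ k / 36) * (gf W * v) ≤ ((S.card : ℝ≥0∞) * gf W) * v := by
          rw [← mul_assoc]
          refine mul_le_mul' (mul_le_mul' ?_ le_rfl) le_rfl
          rw [← ENNReal.ofReal_natCast]
          exact ENNReal.ofReal_le_ofReal hS2
      _ ≤ (gf (G3.BL k) * (gf (G3.BL k) * ∑' y : Z, wE (y : Pt × List Bool).2)) * v := by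
          rw [h1]
          exact mul_le_mul' h2 le_rfl
      _ = gf (G3.BL k) * gf (G3.BL k) * ((∑' y : Z, wE (y : Pt × List Bool).2) * v) := by ring
      _ ≤ ENNReal.ofReal (4 * Ub k) * ENNReal.ofReal (4 * Ub k) * (((6 * (4 * (K * 2 ^ k) + 1) ^ 2 : ℕ) : ℝ≥0∞) * gf A) :=
          mul_le_mul' (mul_le_mul' hBL hBL) h3
      _ ≤ ENNReal.ofReal (4 * Ub k) * ENNReal.ofReal (4 * Ub k) *
          (ENNReal.ofReal (150 * ((K + 1 : ℕ) : ℝ) ^ 2 * 4 ^ k) * gf A) := by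
          refine mul_le_mul' le_rfl (mul_le_mul' ?_ le_rfl)
          rw [← ENNReal.ofReal_natCast]
          refine ENNReal.ofReal_le_ofReal ?_
          push_cast
          have h5 : (1 : ℝ) ≤ 2 ^ k := one_le_pow₀ (by norm_num)
          have h6 : (4 : ℝ) ^ k = (2 ^ k) ^ 2 := by
            rw [← pow_mul, mul_comm, pow_mul]
            norm_num
          have h7 : 4 * ((K : ℝ) * 2 ^ k) + 1 ≤ 5 * ((K + 1) * 2 ^ k) := by
            have : (0 : ℝ) ≤ K := Nat.cast_nonneg K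
            nlinarith
          have h8 : (0 : ℝ) ≤ 4 * ((K : ℝ) * 2 ^ k) + 1 := by positivity
          calc 6 * (4 * ((K : ℝ) * 2 ^ k) + 1) ^ 2 ≤ 6 * (5 * ((K + 1) * 2 ^ k)) ^ 2 := by gcongr
            _ = 150 * ((K : ℝ) + 1) ^ 2 * 4 ^ k := by
                rw [h6]
                ring
      _ = ENNReal.ofReal (4 * Ub k * (4 * Ub k) * (150 * ((K + 1 : ℕ) : ℝ) ^ 2 * 4 ^ k)) * gf A := by
          rw [ENNReal.ofReal_mul (by positivity : (0 : ℝ) ≤ 4 * Ub k * (4 * Ub k)), ENNReal.ofReal_mul (by positivity : (0 : ℝ) ≤ 4 * Ub k)]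
          ring
      _ = _ := by
          rw [← mul_assoc (ENNReal.ofReal (4 ^ k / 36)), ← ENNReal.ofReal_mul (by positivity)]
          congr 2
          field_simp
  have hpos : ENNReal.ofReal (4 ^ k / 36) ≠ 0 := (ENNReal.ofReal_pos.2 (by positivity)).ne'
  exact (ENNReal.mul_le_mul_iff_right hpos ENNReal.ofReal_ne_top).1 h4

end OG

end ART

end HexObs
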