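import Pool.Agent.ART.JTopB

/-!
# ART, row Cc3 (helper87), part A: confined minimal words

The two bridges of the minimal decomposition of a placed word are only removed when they stay near the last and the first
segment of the path. The marking is still unique (`mark_eqc`), and every root determines the placed word and the tube (`rta_injc`).
-/

set_option autoImplicit false

namespace HexObs

namespace ART

namespace OG

open Finset TS SDN SIM NTA TIP ARM ARM.G3 JT

open scoped ENNReal

variable {E : ℕ → Pt} {r : ℕ} {D : ℤ} {k : ℕ}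

/-! ### 1. The decomposition -/

/-- the decomposition M = Z1 ++ (I ++ Z2) of a placed word is confined: the bridges are near the last and the first segment -/
def Cf (E : ℕ → Pt) (r : ℕ) (D : ℤ) (k : ℕ) (s : Pt) (Z1 I Z2 : List Bool) : Prop :=
  Z1 ∈ BU ∧ Z2 ∈ BU ∧
  (∀ i, i ≤ Z1.length → AR.NS (qv E D r (r - 1)) (E (r - 1)) D (2 ^ (k + 10)) (s + vx oo up (Z1 ++ (I ++ Z2)) i)) ∧
  (∀ i, i ≤ Z2.length → AR.NS (qv E D r 0) (E 0) D (2 ^ (k + 10))
    (s + vx oo up (Z1 ++ (I ++ Z2)) (Z1.length + I.length + i)))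

/-- minimal placed words (confined) -/
def Wc (E : ℕ → Pt) (r : ℕ) (D : ℤ) (k : ℕ) (s : Pt) (M : List Bool) : Prop :=
  Plc E r D k s M ∧ ∀ Z1 I Z2 : List Bool, M = Z1 ++ (I ++ Z2) → Cf E r D k s Z1 I Z2 → Plc E r D k (s + TIW.en Z1) I →
    Z1 = [] ∧ Z2 = []

/-- the vertices behind a bridge -/
lemma vx_bu {s : Pt} {Z1 A : List Bool} (h1 : Z1 ∈ BU) (i : ℕ) :
    s + vx oo up (Z1 ++ A) (Z1.length + i) = (s + TIW.en Z1) + vx oo up A i := by
  rw [TIW.vx_app, rt_bu h1, mulE_one, ← add_assoc]

/-- **minimal decomposition** -/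
lemma min_decc (hD : 0 ≤ D) (hr : 1 ≤ r) : ∀ (n : ℕ) (s : Pt) (M : List Bool), M.length = n → Plc E r D k s M →
    ∃ Z1 I Z2 : List Bool, M = Z1 ++ (I ++ Z2) ∧ Cf E r D k s Z1 I Z2 ∧ Wc E r D k (s + TIW.en Z1) I := by
  intro n
  induction n using Nat.strong_induction_on with
  | _ n ih =>
    intro s M hn hP
    by_cases hm : Wc E r D k s M
    · refine ⟨[], M, [], by simp, ⟨nil_BU, nil_BU, fun i hi => ?_, fun i hi => ?_⟩, ?_⟩
      · have h0 : i = 0 := by simpa using hi
        subst h0
        refine ⟨D, hD, le_rfl, ?_⟩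
        have e1 : s + vx oo up ([] ++ (M ++ [])) 0 = s := add_zero s
        rw [qv_last E D hr, sub_zero, e1]
        exact hP.hs.trans (pw_one k)
      · have h0 : i = 0 := by simpa using hi
        subst h0
        refine ⟨0, le_rfl, hD, ?_⟩
        have e1 : s + vx oo up ([] ++ (M ++ [])) (([] : List Bool).length + M.length + 0) = s + TIW.en M := by
          rw [List.nil_append, List.append_nil, List.length_nil, Nat.zero_add, Nat.add_zero]
          rfl
        rw [zero_smul, e1, add_zero]
        exact hP.ht.trans (pw_one k)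
      · have : TIW.en ([] : List Bool) = 0 := rfl
        rw [this, add_zero]
        exact hm
    · have h1 : ¬ ∀ Z1 I Z2 : List Bool, M = Z1 ++ (I ++ Z2) → Cf E r D k s Z1 I Z2 →
          Plc E r D k (s + TIW.en Z1) I → Z1 = [] ∧ Z2 = [] := fun h => hm ⟨hP, h⟩
      push Not at h1
      obtain ⟨Z1, I, Z2, he, ⟨z1, z2, z3, z4⟩, hI, h2⟩ := h1
      have hlt : I.length < n := by
        have h3 := congrArg List.length he
        rw [List.length_append, List.length_append, hn] at h3
        rcases Nat.eq_zero_or_pos Z1.length with h4 | h4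
        · have h5 := h2 (List.length_eq_zero_iff.1 h4)
          have h6 : 0 < Z2.length := List.length_pos_iff.2 h5
          omega
        · omega
      obtain ⟨Y1, J, Y2, he', ⟨y1, y2, y3, y4⟩, hJ⟩ := ih I.length hlt (s + TIW.en Z1) I rfl hI
      have e0 : (Z1 ++ Y1) ++ (J ++ (Y2 ++ Z2)) = Z1 ++ (I ++ Z2) := by
        rw [he']
        simp only [List.append_assoc]
      have hlI : I.length = Y1.length + (J.length + Y2.length) := by
        rw [he']
        simp only [List.length_append]
      refine ⟨Z1 ++ Y1, J, Y2 ++ Z2, ?_, ⟨BU_app z1 y1, BU_app y2 z2, fun i hi => ?_, fun i hi => ?_⟩, ?_⟩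
      · rw [he, e0]
      · rw [e0]
        rcases Nat.lt_or_ge Z1.length i with h3 | h3
        · obtain ⟨q, rfl⟩ : ∃ q, i = Z1.length + q := ⟨i - Z1.length, by omega⟩
          rw [List.length_append] at hi
          have h4 := y3 q (by omega)
          rw [← he'] at h4
          rw [vx_bu z1, vx_append (by omega : q ≤ I.length + 1)]
          exact h4
        · exact z3 i h3
      · rw [e0, List.length_append]
        rw [List.length_append] at hi
        rcases Nat.lt_or_ge i Y2.length with h3 | h3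
        · have h4 := y4 i h3.le
          rw [← he'] at h4
          have e1 : Z1.length + Y1.length + J.length + i = Z1.length + (Y1.length + J.length + i) := by omega
          rw [e1, vx_bu z1, vx_append (by omega : Y1.length + J.length + i ≤ I.length + 1)]
          exact h4
        · have h4 := z4 (i - Y2.length) (by omega)
          rw [show Z1.length + Y1.length + J.length + i = Z1.length + I.length + (i - Y2.length) by omega]
          exact h4
      · rw [en_bu z1, ← add_assoc]
        exact hJ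

/-- the middle part of a confined decomposition -/
lemma cf_hgt {s : Pt} {Z1 I Z2 : List Bool} (h : Cf E r D k s Z1 I Z2)
    (hP : Plc E r D k s (Z1 ++ (I ++ Z2))) (hI : Plc E r D k (s + TIW.en Z1) I) :
    hgt Z1 ≤ 2 ^ (k + 2) ∧ hgt Z2 ≤ 2 ^ (k + 2) := dec_hgt h.1 h.2.1 hP hI

/-! ### 2. Uniqueness -/

section uniq

variable {V U : ℕ → Pt} {N a b a' b' : ℕ}

/-- between two starts the word is near the last segment -/
lemma nearL (hE : IPg E r) (hr : 3 ≤ r) (hD : 2 ^ (k + 12) ≤ D) (hst : ∀ i, i < N → TIW.hn (V (i + 1) - V i) ≤ 2)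
    (h : Tr E r D k V U N a b) (h' : Tr E r D k V U N a' b') :
    ∀ i, a ≤ i → i ≤ a' → AR.NS (qv E D r (r - 1)) (E (r - 1)) D (2 ^ (k + 10)) (V i) := by
  have hD0 : 0 ≤ D := le_trans (by positivity) hD
  have hm : a' ≤ b := h.meet hE hr hD hst h'
  have h0N := h.bN
  have key : ∀ q i, a ≤ i → i + q = a' → AR.NS (qv E D r (r - 1)) (E (r - 1)) D (2 ^ (k + 10)) (V i) := by
    intro q
    induction q with
    | zero =>
      intro i _ hi
      rw [show i = a' by omega]
      exact h'.nearL hD0 (by omega)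
    | succ q ih =>
      intro i hi hi'
      have h1 := ih (i + 1) (by omega) (by omega)
      obtain ⟨j, hj, hn⟩ := h'.rg i (Or.inl (by omega))
      rcases Nat.eq_zero_or_pos j with h0 | h0
      · rw [h0] at hn
        have h2 := far_ends hE hr hD hn h1
        have h3 := hst i (by omega)
        omega
      · rcases Nat.lt_or_ge (j + 1) r with h5 | h5
        · exact absurd hn (h.mid i hi (by omega) j h0 h5)
        · have h6 : j = r - 1 := by omega
          rw [h6] at hn
          exact hn
  intro i hi hi'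
  exact key (a' - i) i hi (by omega)

/-- between two ends the word is near the first segment -/
lemma near0 (hE : IPg E r) (hr : 3 ≤ r) (hD : 2 ^ (k + 12) ≤ D) (hst : ∀ i, i < N → TIW.hn (V (i + 1) - V i) ≤ 2)
    (h : Tr E r D k V U N a b) (h' : Tr E r D k V U N a' b') :
    ∀ i, b' ≤ i → i ≤ b → AR.NS (qv E D r 0) (E 0) D (2 ^ (k + 10)) (V i) := by
  have hD0 : 0 ≤ D := le_trans (by positivity) hD
  have hm : a ≤ b' := h'.meet hE hr hD hst h
  have h0N := h.bN
  intro i hi
  induction i, hi using Nat.le_induction with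
  | base => exact fun _ => h'.near0 hD0
  | succ i hi ih =>
    intro hb
    have h1 := ih (by omega)
    obtain ⟨j, hj, hn⟩ := h'.rg (i + 1) (Or.inr ⟨by omega, by omega⟩)
    rcases Nat.eq_zero_or_pos j with h0 | h0
    · rw [h0] at hn
      exact hn
    · exfalso
      rcases Nat.lt_or_ge (j + 1) r with h5 | h5
      · exact h.mid (i + 1) (by omega) hb j h0 h5 hn
      · have h6 : j = r - 1 := by omega
        rw [h6] at hn
        have h2 := far_ends hE hr hD h1 hn
        have h3 := hst i (by omega)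
        omega

end uniq

variable {p c : Pt} {w : List Bool} {N a b a' b' : ℕ}

/-- one of two markings, minimal -/
lemma mark_lec (hE : IPg E r) (hr : 3 ≤ r) (hD : 2 ^ (k + 12) ≤ D) (hc : nrm c = 1) (hw : w ∈ POL.Cy N)
    (h : Tr E r D k (Vp w p c) (Up w c) N a b) (h' : Tr E r D k (Vp w p c) (Up w c) N a' b')
    (hm : Wc E r D k (Vp w p c a) (sl w a b)) : a' ≤ a ∧ b ≤ b' := by
  have hst : ∀ i, i < N → TIW.hn (Vp w p c (i + 1) - Vp w p c i) ≤ 2 := fun i _ => Vp_step hc i
  have hD0 : 0 ≤ D := le_trans (by positivity) hD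
  have hlw : w.length = N := hw.1
  have m1 : a' ≤ b := h.meet hE hr hD hst h'
  have m2 : a ≤ b' := h'.meet hE hr hD hst h
  have hab := h.ab
  have hab' := h'.ab
  have hbN := h.bN
  have hbN' := h'.bN
  have hI := h.inter h'
  have i1 : a ≤ max a a' := le_max_left _ _
  have i2 : max a a' ≤ min b b' := by omega
  have i3 : min b b' ≤ b := min_le_left _ _
  have hIp : Plc E r D k (Vp w p c (max a a')) (sl w (max a a') (min b b')) := hI.plc hc hw i2 (by omega)
  have z1 : sl w a (max a a') ∈ BU := by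
    rcases Nat.lt_or_ge a a' with h1 | h1
    · rw [max_eq_right h1.le]
      refine part_bu (p := p) (c := c) up_dirs hw h1.le (by omega) h.ua h'.ua ?_
      exact h.dif1 hE hr hD hst h' h1.le
    · rw [max_eq_left h1]
      unfold sl
      rw [Nat.sub_self, List.take_zero]
      exact nil_BU
  have z2 : sl w (min b b') b ∈ BU := by
    rcases Nat.lt_or_ge b' b with h1 | h1
    · rw [min_eq_right h1.le]
      refine part_bu (p := p) (c := c) (hE.dir 0 (by omega)) hw h1.le (by omega) h'.ub h.ub ?_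
      exact h.dif2 hE hr hD hst h' h1.le
    · rw [min_eq_left h1]
      unfold sl
      rw [Nat.sub_self, List.take_zero]
      exact nil_BU
  have hen : Vp w p c a + TIW.en (sl w a (max a a')) = Vp w p c (max a a') := by
    unfold TIW.en
    rw [sl_len (by omega)]
    have h1 := (part_up (w := w) (c := c) (a := a) (p := p) (m := max a a' - a) (i := max a a' - a) h.ua le_rfl
      (by omega)).1
    unfold sl
    rw [h1, show a + (max a a' - a) = max a a' by omega]
    abel
  have hcat : sl w a b = sl w a (max a a') ++ (sl w (max a a') (min b b') ++ sl w (min b b') b) := by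
    rw [← sl_cat i2 i3, ← sl_cat i1 (by omega)]
  have hpos : ∀ i, i ≤ b - a → Vp w p c a + vx oo up (sl w a b) i = Vp w p c (a + i) := by
    intro i hi
    have h1 := (part_up (w := w) (c := c) (a := a) (p := p) (m := b - a) (i := i) h.ua hi (by omega)).1
    unfold sl
    rw [h1]
    abel
  have hcf : Cf E r D k (Vp w p c a) (sl w a (max a a')) (sl w (max a a') (min b b')) (sl w (min b b') b) := by
    refine ⟨z1, z2, fun i hi => ?_, fun i hi => ?_⟩
    · rw [sl_len (by omega)] at hi
      rw [← hcat, hpos i (by omega)]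
      rcases Nat.lt_or_ge a a' with h1 | h1
      · exact nearL hE hr hD hst h h' (a + i) (by omega) (by rw [max_eq_right h1.le] at hi; omega)
      · rw [max_eq_left h1] at hi
        rw [show a + i = a by omega]
        exact h.nearL hD0 (by omega)
    · rw [sl_len (by omega)] at hi
      rw [← hcat, sl_len (by omega), sl_len (by omega), hpos _ (by omega)]
      rcases Nat.lt_or_ge b' b with h1 | h1
      · refine near0 hE hr hD hst h h' _ ?_ (by omega)
        rw [min_eq_right h1.le]
        omega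
      · rw [min_eq_left h1] at hi ⊢
        rw [show a + (max a a' - a + (b - max a a') + i) = b by omega]
        exact h.near0 hD0
  obtain ⟨e1, e2⟩ := hm.2 _ _ _ hcat hcf (by rw [hen]; exact hIp)
  have e3 := congrArg List.length e1
  have e4 := congrArg List.length e2
  rw [sl_len (by omega)] at e3 e4
  simp only [List.length_nil] at e3 e4
  omega

/-- **uniqueness** -/
theorem mark_eqc (hE : IPg E r) (hr : 3 ≤ r) (hD : 2 ^ (k + 12) ≤ D) (hc : nrm c = 1) (hw : w ∈ POL.Cy N)
    (h : Tr E r D k (Vp w p c) (Up w c) N a b) (h' : Tr E r D k (Vp w p c) (Up w c) N a' b')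
    (hm : Wc E r D k (Vp w p c a) (sl w a b)) (hm' : Wc E r D k (Vp w p c a') (sl w a' b')) : a = a' ∧ b = b' := by
  have h1 := mark_lec hE hr hD hc hw h h' hm
  have h2 := mark_lec hE hr hD hc hw h' h hm'
  omega

/-! ### 3. The roots -/

/-- **a root in the tube determines the word and the tube** -/
theorem rtm_injc (hE : IPg E r) (hr : 3 ≤ r) (hup : E (r - 1) = up) (hD : 2 ^ (k + 12) ≤ D) {s s' : Pt}
    {M M' Q Q' : List Bool} {i i' : ℕ} (hM : Wc E r D k s M) (hQ : TP E r D k M Q) (hi1 : 1 ≤ i) (hi2 : i ≤ Q.length)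
    (hM' : Wc E r D k s' M') (hQ' : TP E r D k M' Q') (hi1' : 1 ≤ i') (hi2' : i' ≤ Q'.length)
    (he : rtm ((s, M), (Q, i)) = rtm ((s', M'), (Q', i'))) : s = s' ∧ M = M' ∧ Q = Q' := by
  simp only [rtm, Prod.mk.injEq] at he
  obtain ⟨⟨e1, e2⟩, e3⟩ := he
  obtain ⟨Q1, hQ1⟩ : ∃ Q1, Q1 = Q.take i := ⟨_, rfl⟩
  obtain ⟨Q2, hQ2⟩ : ∃ Q2, Q2 = Q.drop i := ⟨_, rfl⟩
  obtain ⟨Q1', hQ1'⟩ : ∃ Q1', Q1' = Q'.take i' := ⟨_, rfl⟩
  obtain ⟨Q2', hQ2'⟩ : ∃ Q2', Q2' = Q'.drop i' := ⟨_, rfl⟩
  have hQe : Q = Q1 ++ Q2 := by rw [hQ1, hQ2, List.take_append_drop]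
  have hQe' : Q' = Q1' ++ Q2' := by rw [hQ1', hQ2', List.take_append_drop]
  have hl1 : Q1.length = i := by rw [hQ1, List.length_take]; exact min_eq_left hi2
  have hl1' : Q1'.length = i' := by rw [hQ1', List.length_take]; exact min_eq_left hi2'
  rw [← hQ1, ← hQ2, ← hQ1', ← hQ2'] at e3
  rw [hQe, hQe', ← hl1, ← hl1'] at e1 e2
  rw [hQe] at hQ
  rw [hQe'] at hQ'
  have n1 : Q1 ≠ [] := by
    intro h
    rw [h] at hl1
    simp at hl1
    omega
  have n1' : Q1' ≠ [] := by
    intro h
    rw [h] at hl1'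
    simp at hl1'
    omega
  obtain ⟨c, c1, c2, c3, c4, c5⟩ := tr_of hE hr hup hD hM.1 hQ n1
  obtain ⟨c', d1, d2, d3, d4, d5⟩ := tr_of hE hr hup hD hM'.1 hQ' n1'
  have hcc : c = c' := by
    have h1 : mulE c up = mulE c' up := by rw [c2, d2, e2]
    rw [mulE_comm c, mulE_comm c'] at h1
    exact mulE_inj (mem_dirs.1 up_dirs) h1
  rw [← hcc, ← e1, ← e3] at d4 d5
  rw [← e3] at d3
  have hN : M.length + (Q1 ++ Q2).length = M'.length + (Q1' ++ Q2').length := by rw [← c3.1, ← d3.1]
  rw [← hN] at d5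
  have s1 : sl (Q2 ++ (M ++ Q1)) Q2.length (Q2.length + M.length) = M := sl_mid
  have s1' : sl (Q2 ++ (M ++ Q1)) Q2'.length (Q2'.length + M'.length) = M' := by
    rw [e3]
    exact sl_mid
  obtain ⟨u1, u2⟩ := mark_eqc hE hr hD c1 c3 c5 d5 (by rw [c4, s1]; exact hM) (by rw [d4, s1']; exact hM')
  have hMM : M = M' := by
    calc M = sl (Q2 ++ (M ++ Q1)) Q2.length (Q2.length + M.length) := s1.symm
      _ = sl (Q2 ++ (M ++ Q1)) Q2'.length (Q2'.length + M'.length) := by rw [u2, u1]
      _ = M' := s1'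
  have hss : s = s' := by rw [← c4, ← d4, u1]
  have h3 := List.append_inj e3 u1
  have h4 : Q1 = Q1' := by
    have h5 := h3.2
    rw [hMM] at h5
    exact List.append_cancel_left h5
  exact ⟨hss, hMM, by rw [hQe, hQe', h4, h3.1]⟩

/-- **any root determines the placed word and the tube** -/
theorem rta_injc (hE : IPg E r) (hr : 3 ≤ r) (hup : E (r - 1) = up) (hD : 2 ^ (k + 12) ≤ D)
    {x x' : (Pt × List Bool) × List Bool} (hM : Wc E r D k x.1.1 x.1.2) (hQ : TP E r D k x.1.2 x.2)
    (hM' : Wc E r D k x'.1.1 x'.1.2) (hQ' : TP E r D k x'.1.2 x'.2) {a a' : ℕ}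
    (ha : a < x.1.2.length + x.2.length) (ha' : a' < x'.1.2.length + x'.2.length) (he : rta x a = rta x' a') : x = x' := by
  obtain ⟨⟨s, M⟩, Q⟩ := x
  obtain ⟨⟨s', M'⟩, Q'⟩ := x'
  simp only at hM hQ hM' hQ' ha ha'
  simp only [rta, Prod.mk.injEq] at he
  obtain ⟨⟨e1, e2⟩, e3⟩ := he
  have hP := hM.1
  have hP' := hM'.1
  have hcy := cy_of hE hr hup hD hP hQ
  have hcy' := cy_of hE hr hup hD hP' hQ'
  obtain ⟨t, ht⟩ : ∃ t, t = M ++ Q := ⟨_, rfl⟩
  obtain ⟨t', ht'⟩ : ∃ t', t' = M' ++ Q' := ⟨_, rfl⟩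
  obtain ⟨N, hN⟩ : ∃ N, N = M.length + Q.length := ⟨_, rfl⟩
  rw [← ht, ← hN] at hcy
  rw [← ht'] at hcy'
  rw [← ht, ← ht'] at e1 e2 e3
  rw [← hN] at ha
  have hlen : t.length = t'.length := by
    have := congrArg List.length e3
    rwa [List.length_rotate, List.length_rotate] at this
  have hN' : M'.length + Q'.length = N := by
    rw [← hcy'.1, ← hlen, hcy.1]
  rw [hN'] at hcy' ha'
  have hlt : t.length = N := hcy.1
  have hlt' : t'.length = N := hcy'.1
  have hc := POL.Cy.clo hcy
  have hc' := POL.Cy.clo hcy'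
  -- all positions and directions agree
  have hpos : ∀ b, b ≤ N → s + POL.pv t (a + b) = s' + POL.pv t' (a' + b) := by
    intro b hb
    have h1 := POL.rot_vx (s := t) (a := a) (i := b) (by omega)
    have h2 := POL.rot_vx (s := t') (a := a') (i := b) (by omega)
    rw [e3, h2, e2] at h1
    have h3 := mulE_inj (POL.nrm_rotTo_pd t' a') h1
    have h4 : s + POL.pv t (a + b) = (s + POL.pv t a) + (POL.pv t (a + b) - POL.pv t a) := by abel
    have h5 : s' + POL.pv t' (a' + b) = (s' + POL.pv t' a') + (POL.pv t' (a' + b) - POL.pv t' a') := by abel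
    rw [h4, h5, e1, h3]
  have hdir : ∀ b, b ≤ N → POL.pd t (a + b) = POL.pd t' (a' + b) := by
    intro b hb
    have h1 := POL.rot_dx (s := t) (a := a) (i := b) (by omega)
    have h2 := POL.rot_dx (s := t') (a := a') (i := b) (by omega)
    rw [e3, h2, e2] at h1
    exact (mulE_inj (POL.nrm_rotTo_pd t' a') h1).symm
  -- a vertex of the tube near the middle of the path
  obtain ⟨i, hi, hns, -⟩ := pass_in hE hr hup hD hP hQ (j := 0) (by omega)
  have hi1 : 1 ≤ i := by
    by_contra hcon
    have h0 : i = 0 := by omega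
    rw [h0, yq_zero] at hns
    exact hP.mid M.length le_rfl (0 + 1) (by omega) (by omega) hns
  have hi2 : i < Q.length := by
    by_contra hcon
    have h0 : i = Q.length := by omega
    rw [h0, yq_last hE hr hup hD hP hQ] at hns
    refine hP.mid 0 (Nat.zero_le _) (0 + 1) (by omega) (by omega) ?_
    have h1 : s + vx oo up M 0 = s := add_zero s
    rw [h1]
    exact hns
  obtain ⟨v, hv⟩ : ∃ v, v = M.length + i := ⟨_, rfl⟩
  have hvN : v < N := by omega
  obtain ⟨b, hb, hbv⟩ : ∃ b, b < N ∧ (a + b) % N = v := by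
    rcases Nat.lt_or_ge v a with h1 | h1
    · refine ⟨N + v - a, by omega, ?_⟩
      rw [show a + (N + v - a) = N + v by omega, Nat.add_mod_left, Nat.mod_eq_of_lt hvN]
    · refine ⟨v - a, by omega, ?_⟩
      rw [show a + (v - a) = v by omega, Nat.mod_eq_of_lt hvN]
  obtain ⟨v', hv'⟩ : ∃ v', v' = (a' + b) % N := ⟨_, rfl⟩
  have hv'N : v' < N := by
    rw [hv']
    exact Nat.mod_lt _ (by omega)
  have p1 : POL.pv t (a + b) = vx oo up t v := by
    rw [POL.pv_mod hc, hlt, hbv, pv_mq hcy hvN.le]
  have p2 : POL.pv t' (a' + b) = vx oo up t' v' := by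
    rw [POL.pv_mod hc', hlt', ← hv', pv_mq hcy' hv'N.le]
  have hd1 : POL.pd t (a + b) = dx up t v := by
    have h1 : a + b = t.length * ((a + b) / t.length) + v := by
      rw [← hbv, hlt]
      exact (Nat.div_add_mod (a + b) N).symm
    have h2 : ∀ q j, POL.pd t (t.length * q + j) = POL.pd t j := by
      intro q j
      induction q with
      | zero => rw [Nat.mul_zero, Nat.zero_add]
      | succ q ih => rw [show t.length * (q + 1) + j = t.length + (t.length * q + j) by ring, POL.pd_per hc, ih]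
    rw [h1, h2, POL.pd_eq (by omega)]
  have hd2 : POL.pd t' (a' + b) = dx up t' v' := by
    have h1 : a' + b = t'.length * ((a' + b) / t'.length) + v' := by
      rw [hv', hlt']
      exact (Nat.div_add_mod (a' + b) N).symm
    have h2 : ∀ q j, POL.pd t' (t'.length * q + j) = POL.pd t' j := by
      intro q j
      induction q with
      | zero => rw [Nat.mul_zero, Nat.zero_add]
      | succ q ih => rw [show t'.length * (q + 1) + j = t'.length + (t'.length * q + j) by ring, POL.pd_per hc', ih]
    rw [h1, h2, POL.pd_eq (by omega)]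
  have q1' : s + vx oo up t v = s' + vx oo up t' v' := by
    rw [← p1, ← p2]
    exact hpos b hb.le
  have q2' : dx up t v = dx up t' v' := by
    rw [← hd1, ← hd2]
    exact hdir b hb.le
  have q3' : t.rotate v = t'.rotate v' := by
    have h1 : t.rotate v = t.rotate (a + b) := by
      rw [← hbv, ← hlt, List.rotate_mod]
    have h2 : t'.rotate v' = t'.rotate (a' + b) := by
      rw [hv', ← hlt', List.rotate_mod]
    rw [h1, h2, ← List.rotate_rotate, ← List.rotate_rotate, e3]
  -- the root is in the second tube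
  have hv'M : M'.length < v' := by
    by_contra hcon
    have h1 : vx oo up t' v' = vx oo up M' v' := by
      rw [ht', vx_append (by omega : v' ≤ M'.length + 1)]
    have h2 : yq s M Q i = s' + vx oo up M' v' := by
      unfold yq
      rw [← hv, ← ht, q1', h1]
    rw [h2] at hns
    exact hP'.mid v' (by omega) (0 + 1) (by omega) (by omega) hns
  obtain ⟨i', hi'⟩ : ∃ i', v' = M'.length + i' := ⟨v' - M'.length, by omega⟩
  have key : rtm ((s, M), (Q, i)) = rtm ((s', M'), (Q', i')) := by
    simp only [rtm, Prod.mk.injEq]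
    rw [← ht, ← ht', ← hv, ← hi']
    refine ⟨⟨q1', q2'⟩, ?_⟩
    rw [← rotate_mq M Q hi, ← rotate_mq M' Q' (by omega), ← ht, ← ht', ← hv, ← hi']
    exact q3'
  obtain ⟨h1, h2, h3⟩ := rtm_injc hE hr hup hD hM hQ hi1 hi hM' hQ' (by omega) (by omega) key
  rw [h1, h2, h3]

end OG

end ART

end HexObs
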