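import Pool.Agent.ART.Defs

/-!
# ART, block C (helper94): the outermost level trick

A surgery at the level l that produces words whose OUTERMOST rich level is l: the image classes are disjoint, so a class E on
which the surgery is possible at every level of a block B has a small mass.
-/

set_option autoImplicit false

namespace HexObs

namespace ART

open Finset TS SDN SIM NTA TIP ARM

open scoped ENNReal

/-- the words whose outermost rich level (in the block B) is l -/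
def OutL (B : Finset ℕ) (R : ℕ → Set (List Bool)) (l : ℕ) : Set (List Bool) :=
  {w | w ∈ R l ∧ ∀ l' ∈ B, l < l' → w ∉ R l'}

lemma outL_disj {B : Finset ℕ} {R : ℕ → Set (List Bool)} {l l' : ℕ} (hl : l ∈ B) (hl' : l' ∈ B) (h : l ≠ l') :
    Disjoint (OutL B R l) (OutL B R l') := by
  rw [Set.disjoint_left]
  rintro w ⟨h1, h2⟩ ⟨h3, h4⟩
  rcases lt_or_gt_of_ne h with h5 | h5
  · exact h2 l' hl' h5 h3
  · exact h4 l hl h5 h1

/-- disjoint classes -/
lemma sum_disj {B : Finset ℕ} {A : ℕ → Set (List Bool)} {U : Set (List Bool)} (hA : ∀ l ∈ B, A l ⊆ U)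
    (hd : ∀ l ∈ B, ∀ l' ∈ B, l ≠ l' → Disjoint (A l) (A l')) : ∑ l ∈ B, gf (A l) ≤ gf U := by
  classical
  have e : ∀ S : Set (List Bool), gf S = ∑' w : List Bool, S.indicator wE w := fun S => _root_.tsum_subtype S wE
  rw [e U, sum_congr rfl (fun l _ => e (A l)), ← Summable.tsum_finsetSum (fun l _ => ENNReal.summable)]
  refine ENNReal.tsum_le_tsum fun w => ?_
  by_cases h : ∃ l ∈ B, w ∈ A l
  · obtain ⟨l, hl, hw⟩ := h
    rw [sum_eq_single l, Set.indicator_of_mem hw, Set.indicator_of_mem (hA l hl hw)]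
    · intro l' hl' hne
      exact Set.indicator_of_notMem (fun hw' => Set.disjoint_left.1 (hd l' hl' l hl hne) hw' hw) _
    · exact fun h => absurd hl h
  · rw [sum_eq_zero (fun l hl => Set.indicator_of_notMem (fun hw => h ⟨l, hl, hw⟩) _)]
    exact zero_le

/-- **the outermost level trick** -/
theorem outMost {E : Set (List Bool)} {B : Finset ℕ} {G : ℕ → Set (List Bool)} {A : Pt → ℕ → Set (List Bool)}
    {U : Pt → Set (List Bool)} {C T x y : ℝ≥0∞} (hB : B.Nonempty) (hA : ∀ d ∈ dirs, ∀ l ∈ B, A d l ⊆ U d)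
    (hdis : ∀ d ∈ dirs, ∀ l ∈ B, ∀ l' ∈ B, l ≠ l' → Disjoint (A d l) (A d l'))
    (hG : ∀ l ∈ B, gf (G l) ≤ C * ∑ d ∈ dirs, gf (A d l)) (hE : ∀ l ∈ B, gf E ≤ gf (G l) + x)
    (hU : ∑ d ∈ dirs, gf (U d) ≤ T) (hy : C * T ≤ (B.card : ℝ≥0∞) * y) : gf E ≤ x + y := by
  have h1 : (B.card : ℝ≥0∞) * gf E ≤ (B.card : ℝ≥0∞) * (x + y) := by
    calc (B.card : ℝ≥0∞) * gf E = ∑ l ∈ B, gf E := by rw [sum_const, nsmul_eq_mul]
      _ ≤ ∑ l ∈ B, (C * ∑ d ∈ dirs, gf (A d l) + x) := sum_le_sum fun l hl => (hE l hl).trans (add_le_add (hG l hl) le_rfl)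
      _ = C * ∑ d ∈ dirs, ∑ l ∈ B, gf (A d l) + (B.card : ℝ≥0∞) * x := by
          rw [sum_add_distrib, ← mul_sum, sum_comm, sum_const, nsmul_eq_mul]
      _ ≤ C * T + (B.card : ℝ≥0∞) * x := by
          refine add_le_add (mul_le_mul' le_rfl (le_trans (sum_le_sum fun d hd => ?_) hU)) le_rfl
          exact sum_disj (hA d hd) (hdis d hd)
      _ ≤ (B.card : ℝ≥0∞) * y + (B.card : ℝ≥0∞) * x := add_le_add hy le_rfl
      _ = (B.card : ℝ≥0∞) * (x + y) := by rw [mul_add, add_comm]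
  have h2 : (B.card : ℝ≥0∞) ≠ 0 := by
    rw [Nat.cast_ne_zero]
    exact (card_pos.2 hB).ne'
  exact (ENNReal.mul_le_mul_iff_right h2 (ENNReal.natCast_ne_top _)).1 h1

/-- **the trick for the outermost rich level** (R d l: rich at the level l in the direction d) -/
theorem outMostL {E : Set (List Bool)} {B : Finset ℕ} {G : ℕ → Set (List Bool)} {R : Pt → ℕ → Set (List Bool)}
    {U : Pt → Set (List Bool)} {C T x y : ℝ≥0∞} (hB : B.Nonempty)
    (hG : ∀ l ∈ B, gf (G l) ≤ C * ∑ d ∈ dirs, gf (U d ∩ OutL B (R d) l)) (hE : ∀ l ∈ B, gf E ≤ gf (G l) + x)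
    (hU : ∑ d ∈ dirs, gf (U d) ≤ T) (hy : C * T ≤ (B.card : ℝ≥0∞) * y) : gf E ≤ x + y :=
  outMost (A := fun d l => U d ∩ OutL B (R d) l) hB (fun _ _ _ _ => Set.inter_subset_left)
    (fun _ _ _ hl _ hl' hne => (outL_disj hl hl' hne).mono Set.inter_subset_right Set.inter_subset_right) hG hE hU hy

/-- the same with real constants: any number of levels that is at least C T / y -/
theorem outMostR {E : Set (List Bool)} {B : Finset ℕ} {G : ℕ → Set (List Bool)} {R : Pt → ℕ → Set (List Bool)}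
    {U : Pt → Set (List Bool)} {C T x y : ℝ} (hB : B.Nonempty) (hC : 0 ≤ C) (hx : 0 ≤ x) (hy0 : 0 ≤ y)
    (hG : ∀ l ∈ B, gf (G l) ≤ ENNReal.ofReal C * ∑ d ∈ dirs, gf (U d ∩ OutL B (R d) l))
    (hE : ∀ l ∈ B, gf E ≤ gf (G l) + ENNReal.ofReal x) (hU : ∑ d ∈ dirs, gf (U d) ≤ ENNReal.ofReal T)
    (hy : C * T ≤ B.card * y) : gf E ≤ ENNReal.ofReal (x + y) := by
  rw [ENNReal.ofReal_add hx hy0]
  refine outMostL hB hG hE hU ?_
  rw [← ENNReal.ofReal_mul hC, ← ENNReal.ofReal_natCast, ← ENNReal.ofReal_mul (Nat.cast_nonneg _)]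
  exact ENNReal.ofReal_le_ofReal hy

end ART

end HexObs
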