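import Pool.Agent.ARM.PathX

/-!
# ART, row J4 (helper9): the path over the top, from two strands and a cap

`A`: the nodes of the strand of the tip (from `g0` up to `s`), `B`: the nodes of the strand of the start (from
`s2 = s + e + e - d` down to `0`); two columns over `s`, `s2` with `N` steps in the direction `d` and the cap
(`e` = `rotL d` or `rotR d`). No node of `A` is near a node of `B`. A shortest path from `g0` to `0` passes the cap.
-/

set_option autoImplicit false

namespace HexObs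

namespace ART

open Finset TS SDN TIW ARM

/-! ### lattice -/

private lemma ip_dd {d : Pt} (hd : d ∈ dirs) : ip d d = 2 := ip_self_dir hd

private lemma ip_ed {d e : Pt} (hd : d ∈ dirs) (he : e = rotL d ∨ e = rotR d) : ip e d = 1 := by
  have key : ∀ d ∈ dirs, ip (rotL d) d = 1 ∧ ip (rotR d) d = 1 := by decide
  rcases he with rfl | rfl
  · exact (key d hd).1
  · exact (key d hd).2

private lemma ip_dir_le {x d : Pt} (hx : x ∈ dirs) (hd : d ∈ dirs) : -2 ≤ ip x d ∧ ip x d ≤ 2 := by
  have key : ∀ x ∈ dirs, ∀ d ∈ dirs, -2 ≤ ip x d ∧ ip x d ≤ 2 := by decide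
  exact key x hx d hd

private lemma nrm_combo {d e : Pt} (hd : d ∈ dirs) (he : e = rotL d ∨ e = rotR d) (a b : ℤ) :
    nrm (a • e + b • d) = a ^ 2 + a * b + b ^ 2 := by
  have h1 : nrm d = 1 := mem_dirs.1 hd
  have h2 : nrm e = 1 ∧ 2 * (e.1 * d.1 + e.2 * d.2) + e.1 * d.2 + e.2 * d.1 = 1 := by
    have key : ∀ d ∈ dirs, (nrm (rotL d) = 1 ∧
        2 * ((rotL d).1 * d.1 + (rotL d).2 * d.2) + (rotL d).1 * d.2 + (rotL d).2 * d.1 = 1) ∧
        (nrm (rotR d) = 1 ∧ 2 * ((rotR d).1 * d.1 + (rotR d).2 * d.2) + (rotR d).1 * d.2 + (rotR d).2 * d.1 = 1) := by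
      decide
    rcases he with rfl | rfl
    · exact (key d hd).1
    · exact (key d hd).2
  obtain ⟨h2, h3⟩ := h2
  unfold nrm at *
  simp only [Prod.fst_add, Prod.snd_add, Prod.smul_fst, Prod.smul_snd, smul_eq_mul]
  linear_combination a ^ 2 * h2 + b ^ 2 * h1 + a * b * h3

/-- x and y are different and not neighbours -/
def Far (x y : Pt) : Prop := y ≠ x ∧ y - x ∉ dirs ∧ x - y ∉ dirs

private lemma Far.symm {x y : Pt} (h : Far x y) : Far y x := ⟨h.1.symm, h.2.2, h.2.1⟩

private lemma far_nrm {x y : Pt} (h : 3 ≤ nrm (y - x)) : Far x y := by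
  refine ⟨fun h0 => ?_, fun h0 => ?_, fun h0 => ?_⟩
  · subst h0
    rw [sub_self] at h
    have : nrm (0 : Pt) = 0 := by decide
    omega
  · rw [mem_dirs] at h0
    omega
  · have := neg_mem_dirs h0
    rw [neg_sub, mem_dirs] at this
    omega

private lemma far_ht {x y d : Pt} (hd : d ∈ dirs) (h : ip x d + 3 ≤ ip y d) : Far x y := by
  refine ⟨fun h0 => ?_, fun h0 => ?_, fun h0 => ?_⟩
  · subst h0
    omega
  · have := (ip_dir_le h0 hd).2
    rw [ip_sub_left] at this
    omega
  · have := (ip_dir_le h0 hd).1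
    rw [ip_sub_left] at this
    omega

/-- the hypotheses of the cap -/
structure CapH (A B : Pt → Prop) (s s2 d e : Pt) : Prop where
  hd : d ∈ dirs
  he : e = rotL d ∨ e = rotR d
  es : s2 = s + e + e - d
  As : A s
  Bs : B s2
  sep : ∀ x y, A x → B y → Far x y
  Al : ∀ x, A x → x ≠ s → ip x d < ip s d
  Bl : ∀ x, B x → x ≠ s2 → ip x d < ip s2 d

/-- a strand and its column -/
def Sd (A : Pt → Prop) (s d : Pt) (N : ℕ) (x : Pt) : Prop := A x ∨ ∃ i : ℕ, i ≤ N ∧ x = s + (i : ℤ) • d

/-- the nodes -/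
def Nd (A B : Pt → Prop) (s s2 d e : Pt) (N : ℕ) (x : Pt) : Prop :=
  Sd A s d N x ∨ x = s + (N : ℤ) • d + e ∨ Sd B s2 d N x

section cap

variable {A B : Pt → Prop} {s s2 d e : Pt} {N : ℕ}

/-- the mirror image -/
lemma CapH.symm (h : CapH A B s s2 d e) : CapH B A s2 s d (d - e) := by
  refine ⟨h.hd, ?_, ?_, h.Bs, h.As, fun x y hx hy => (h.sep y x hy hx).symm, h.Bl, h.Al⟩
  · have key : ∀ d ∈ dirs, d - rotL d = rotR d ∧ d - rotR d = rotL d := by decide
    rcases h.he with h1 | h1
    · right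
      rw [h1]
      exact (key d h.hd).1
    · left
      rw [h1]
      exact (key d h.hd).2
  · rw [h.es]
    abel

lemma CapH.ht2 (h : CapH A B s s2 d e) : ip s2 d = ip s d := by
  rw [h.es, ip_sub_left, ip_add_left, ip_add_left, ip_dd h.hd, ip_ed h.hd h.he]
  ring

lemma CapH.cap2 (h : CapH A B s s2 d e) : s2 + (N : ℤ) • d + (d - e) = s + (N : ℤ) • d + e := by
  rw [h.es]
  abel

private lemma ht_col (hd : d ∈ dirs) (i : ℤ) : ip (s + i • d) d = ip s d + 2 * i := by
  rw [ip_add_left, ip_smul_left, ip_dd hd]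
  ring

private lemma CapH.le (h : CapH A B s s2 d e) {x : Pt} (hx : A x) : ip x d ≤ ip s d := by
  by_cases h1 : x = s
  · rw [h1]
  · exact (h.Al x hx h1).le

/-- the two sides are far from each other -/
lemma CapH.sepS (h : CapH A B s s2 d e) {x y : Pt} (hx : Sd A s d N x) (hy : Sd B s2 d N y) : Far x y := by
  -- a node of the strand A and the other column
  have key : ∀ {A B : Pt → Prop} {s s2 e : Pt}, CapH A B s s2 d e → ∀ {x y : Pt}, A x → ∀ i : ℕ,
      y = s2 + (i : ℤ) • d → Far x y := by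
    intro A B s s2 e h x y hx i hy
    rcases Nat.eq_zero_or_pos i with h0 | h0
    · rw [hy, h0, Nat.cast_zero, zero_smul, add_zero]
      exact h.sep _ _ hx h.Bs
    · by_cases h1 : x = s
      · refine far_nrm ?_
        have e1 : y - x = (2 : ℤ) • e + ((i : ℤ) - 1) • d := by
          rw [hy, h1, h.es, sub_smul, one_smul, two_smul]
          abel
        rw [e1, nrm_combo h.hd h.he]
        nlinarith [sq_nonneg (i : ℤ)]
      · refine far_ht h.hd ?_
        have h2 := h.Al x hx h1
        rw [hy, ht_col h.hd, h.ht2]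
        omega
  rcases hx with hx | ⟨i, hi, hx⟩
  · rcases hy with hy | ⟨j, hj, hy⟩
    · exact h.sep _ _ hx hy
    · exact key h hx j hy
  · rcases hy with hy | ⟨j, hj, hy⟩
    · exact (key h.symm hy i hx).symm
    · refine far_nrm ?_
      have e1 : y - x = (2 : ℤ) • e + ((j : ℤ) - i - 1) • d := by
        rw [hy, hx, h.es, sub_smul, sub_smul, one_smul, two_smul]
        abel
      rw [e1, nrm_combo h.hd h.he]
      nlinarith [sq_nonneg ((j : ℤ) - i)]

/-- the neighbours of the cap -/
lemma CapH.capN (h : CapH A B s s2 d e) (hN : 1 ≤ N) {x : Pt} (hx : Sd A s d N x) :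
    x = s + (N : ℤ) • d ∨ Far x (s + (N : ℤ) • d + e) := by
  have hc : ip (s + (N : ℤ) • d + e) d = ip s d + 2 * N + 1 := by
    rw [ip_add_left, ht_col h.hd, ip_ed h.hd h.he]
  rcases hx with hx | ⟨i, hi, hx⟩
  · right
    refine far_ht h.hd ?_
    have := h.le hx
    rw [hc]
    omega
  · rcases Nat.lt_or_ge i N with h1 | h1
    · right
      refine far_nrm ?_
      have e1 : s + (N : ℤ) • d + e - x = (1 : ℤ) • e + ((N : ℤ) - i) • d := by
        rw [hx, sub_smul, one_smul]
        abel
      rw [e1, nrm_combo h.hd h.he]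
      have : (1 : ℤ) ≤ N - i := by omega
      nlinarith
    · left
      rw [hx, show i = N by omega]

/-- the neighbours of a node of the column -/
lemma CapH.colN (h : CapH A B s s2 d e) {m : ℕ} (hm : 1 ≤ m) {x : Pt} (hx : Sd A s d N x) :
    x = s + (m : ℤ) • d ∨ x = s + ((m - 1 : ℕ) : ℤ) • d ∨ (m + 1 ≤ N ∧ x = s + ((m + 1 : ℕ) : ℤ) • d) ∨
      Far x (s + (m : ℤ) • d) := by
  have col : ∀ i : ℕ, i ≤ N → x = s + (i : ℤ) • d → x = s + (m : ℤ) • d ∨ x = s + ((m - 1 : ℕ) : ℤ) • d ∨
      (m + 1 ≤ N ∧ x = s + ((m + 1 : ℕ) : ℤ) • d) ∨ Far x (s + (m : ℤ) • d) := by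
    intro i hi hx
    rcases Nat.lt_trichotomy i m with h1 | h1 | h1
    · rcases Nat.lt_or_ge (i + 1) m with h2 | h2
      · right; right; right
        refine far_nrm ?_
        have e1 : s + (m : ℤ) • d - x = (0 : ℤ) • e + ((m : ℤ) - i) • d := by
          rw [hx, sub_smul, zero_smul]
          abel
        rw [e1, nrm_combo h.hd h.he]
        have : (2 : ℤ) ≤ m - i := by omega
        nlinarith
      · right; left
        rw [hx, show i = m - 1 by omega]
    · left
      rw [hx, h1]
    · rcases Nat.lt_or_ge (m + 1) i with h2 | h2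
      · right; right; right
        refine far_nrm ?_
        have e1 : s + (m : ℤ) • d - x = (0 : ℤ) • e + ((m : ℤ) - i) • d := by
          rw [hx, sub_smul, zero_smul]
          abel
        rw [e1, nrm_combo h.hd h.he]
        have : (m : ℤ) - i ≤ -2 := by omega
        nlinarith
      · right; right; left
        exact ⟨by omega, by rw [hx, show i = m + 1 by omega]⟩
  rcases hx with hx | ⟨i, hi, hx⟩
  · by_cases h1 : x = s
    · exact col 0 (Nat.zero_le _) (by rw [h1]; simp)
    · right; right; right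
      refine far_ht h.hd ?_
      have h2 := h.Al x hx h1
      rw [ht_col h.hd]
      omega
  · exact col i hi hx

/-- the part of a path in front of the cap: the column -/
lemma CapH.run (h : CapH A B s s2 d e) {f : ℕ → Pt} {i1 : ℕ} (h0 : ip (f 0) d < ip s d)
    (hS : ∀ i, i < i1 → Sd A s d N (f i)) (hst : ∀ i, i + 1 < i1 → f (i + 1) - f i ∈ dirs)
    (hne : ∀ i j, i < j → j < i1 → f i ≠ f j) (hi : 1 ≤ i1) (hl : f (i1 - 1) = s + (N : ℤ) • d) :
    ∀ m, m ≤ N → m + 2 ≤ i1 ∧ f (i1 - 1 - m) = s + ((N - m : ℕ) : ℤ) • d := by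
  have pos : ∀ m, m ≤ N → m + 1 ≤ i1 → f (i1 - 1 - m) = s + ((N - m : ℕ) : ℤ) • d → m + 2 ≤ i1 := by
    intro m _ hm1 hm2
    by_contra hc
    rw [show i1 - 1 - m = 0 by omega] at hm2
    rw [hm2, ht_col h.hd] at h0
    omega
  intro m
  induction m using Nat.strong_induction_on with
  | _ m ih =>
    intro hm
    rcases m with _ | m
    · have h1 : f (i1 - 1 - 0) = s + ((N - 0 : ℕ) : ℤ) • d := hl
      exact ⟨pos 0 (Nat.zero_le _) (by omega) h1, h1⟩
    · obtain ⟨h1, h2⟩ := ih m (by omega) (by omega)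
      have h3 := hS (i1 - 1 - (m + 1)) (by omega)
      have h4 := hst (i1 - 1 - (m + 1)) (by omega)
      rw [show i1 - 1 - (m + 1) + 1 = i1 - 1 - m by omega, h2] at h4
      have key : f (i1 - 1 - (m + 1)) = s + ((N - (m + 1) : ℕ) : ℤ) • d := by
        rcases h.colN (m := N - m) (by omega) h3 with h5 | h5 | ⟨h5, h6⟩ | h5
        · exact absurd (h5.trans h2.symm) (hne _ _ (by omega) (by omega))
        · rw [h5, show N - m - 1 = N - (m + 1) by omega]
        · obtain ⟨q, rfl⟩ : ∃ q, m = q + 1 := ⟨m - 1, by omega⟩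
          exfalso
          have h7 := (ih q (by omega) (by omega)).2
          rw [show N - (q + 1) + 1 = N - q by omega, ← h7] at h6
          exact hne _ _ (by omega) (by omega) h6
        · exact absurd h4 h5.2.1
      exact ⟨pos (m + 1) hm (by omega) key, key⟩

/-- the end of the path: neighbours of the two ends -/
structure EndH (A B : Pt → Prop) (g0 dt s s2 d : Pt) : Prop where
  A0 : A g0
  B0 : B 0
  g0l : ip g0 d < ip s d
  oo : 0 < ip s d
  nup : ip (-up) d < ip s d
  n1 : ∀ x, A x ∨ B x → x - g0 ∈ dirs → x = g0 + dt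
  n2 : ∀ x, A x ∨ B x → x ∈ dirs → x = -up
  n3 : ∀ x, A x ∨ B x → x + up ∈ dirs → x = 0 ∨ x = -up - up

/-- **row J4: the path over the top** -/
theorem cap_path {g0 dt : Pt} {RB : ℤ} (h : CapH A B s s2 d e) (hE : EndH A B g0 dt s s2 d) (hN : 1 ≤ N)
    (hwA : Relation.ReflTransGen (Sp A) g0 s) (hwB : Relation.ReflTransGen (Sp B) s2 0)
    (hbox : ∀ x, Nd A B s s2 d e N x → nr RB 0 x) :
    ∃ (n : ℕ) (f : ℕ → Pt) (i1 : ℕ), n ≤ ((2 * RB + 1).toNat) ^ 2 ∧ f 0 = g0 ∧ f n = 0 ∧ f 1 = g0 + dt ∧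
      f (n - 1) = -up ∧ f (n - 2) = -up - up ∧ (∀ i, i < n → f (i + 1) - f i ∈ dirs) ∧
      (∀ i, i + 1 < n → f (i + 1 + 1) - f (i + 1) = f (i + 1) - f i ∨
        f (i + 1 + 1) - f (i + 1) = rotL (f (i + 1) - f i) ∨ f (i + 1 + 1) - f (i + 1) = rotR (f (i + 1) - f i)) ∧
      (∀ i j, i + 1 < j → j ≤ n → 3 ≤ nrm (f j - f i)) ∧
      N + 2 ≤ i1 ∧ i1 + N + 2 ≤ n ∧ (∀ m, m ≤ N → f (i1 - 1 - m) = s + ((N - m : ℕ) : ℤ) • d) ∧
      f i1 = s + (N : ℤ) • d + e ∧ (∀ m, m ≤ N → f (i1 + 1 + m) = s2 + ((N - m : ℕ) : ℤ) • d) ∧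
      (∀ i, i ≤ n → (i + 1 + N < i1 → A (f i)) ∧ (i1 + 1 + N < i → B (f i))) := by
  classical
  obtain ⟨c, hc⟩ : ∃ c, c = s + (N : ℤ) • d + e := ⟨_, rfl⟩
  obtain ⟨P, hP⟩ : ∃ P : Pt → Prop, P = Nd A B s s2 d e N := ⟨_, rfl⟩
  have PA : ∀ x, Sd A s d N x → P x := fun x hx => by rw [hP]; exact Or.inl hx
  have PB : ∀ x, Sd B s2 d N x → P x := fun x hx => by rw [hP]; exact Or.inr (Or.inr hx)
  have Pc : P c := by rw [hP, hc]; exact Or.inr (Or.inl rfl)
  have hcap2 : s2 + (N : ℤ) • d + (d - e) = c := by rw [hc]; exact h.cap2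
  -- the walk
  have w1 : Relation.ReflTransGen (Sp P) g0 s :=
    Relation.ReflTransGen.mono (fun x y hxy => ⟨hxy.1, PA _ (Or.inl hxy.2)⟩) _ _ hwA
  have w2 : Relation.ReflTransGen (Sp P) s (s + (N : ℤ) • d) :=
    line_path h.hd N fun k _ hk => PA _ (Or.inr ⟨k, hk, rfl⟩)
  have w3 : Relation.ReflTransGen (Sp P) (s + (N : ℤ) • d) c := by
    refine Relation.ReflTransGen.single ⟨?_, Pc⟩
    rw [hc, add_sub_cancel_left]
    rcases h.he with h1 | h1 <;> rw [h1]
    · exact rotL_mem h.hd
    · exact rotR_mem h.hd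
  have w4 : Relation.ReflTransGen (Sp P) c (s2 + (N : ℤ) • d) := by
    refine Relation.ReflTransGen.single ⟨?_, PB _ (Or.inr ⟨N, le_rfl, rfl⟩)⟩
    have h1 : s2 + (N : ℤ) • d - c = -(d - e) := by
      rw [← hcap2]
      abel
    rw [h1]
    refine neg_mem_dirs ?_
    rcases h.symm.he with h1 | h1 <;> rw [h1]
    · exact rotL_mem h.hd
    · exact rotR_mem h.hd
  have w5 : Relation.ReflTransGen (Sp P) (s2 + (N : ℤ) • d) s2 := by
    have h1 := line_path (A := P) (g := s2 + (N : ℤ) • d) (neg_mem_dirs h.hd) N (by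
      intro k _ hk
      refine PB _ (Or.inr ⟨N - k, by omega, ?_⟩)
      rw [show ((N - k : ℕ) : ℤ) = (N : ℤ) - k by omega, sub_smul, smul_neg]
      abel)
    have e1 : s2 + (N : ℤ) • d + (N : ℤ) • -d = s2 := by
      rw [smul_neg]
      abel
    rwa [e1] at h1
  have w6 : Relation.ReflTransGen (Sp P) s2 0 :=
    Relation.ReflTransGen.mono (fun x y hxy => ⟨hxy.1, PB _ (Or.inl hxy.2)⟩) _ _ hwB
  obtain ⟨n, f, hf0, hfn, hstep, hne, hind⟩ := short_path (((((w1.trans w2).trans w3).trans w4).trans w5).trans w6)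
  have hdir : ∀ i, i < n → f (i + 1) - f i ∈ dirs := fun i hi => (hstep i hi).1
  have hQ : ∀ i, 1 ≤ i → i ≤ n → P (f i) := by
    intro i h1 h2
    obtain ⟨j, rfl⟩ : ∃ j, i = j + 1 := ⟨i - 1, by omega⟩
    exact (hstep j (by omega)).2
  have hQ0 : ∀ i, i ≤ n → P (f i) := by
    intro i hi
    rcases Nat.eq_zero_or_pos i with h1 | h1
    · rw [h1, hf0]
      exact PA _ (Or.inl hE.A0)
    · exact hQ i h1 hi
  have hcases : ∀ i, i ≤ n → Sd A s d N (f i) ∨ f i = c ∨ Sd B s2 d N (f i) := by
    intro i hi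
    have := hQ0 i hi
    rw [hP] at this
    unfold Nd at this
    rwa [← hc] at this
  -- the path meets the cap
  have hex : ∃ i, i ≤ n ∧ f i = c := by
    by_contra hcon
    push Not at hcon
    have key : ∀ i, i ≤ n → Sd A s d N (f i) := by
      intro i
      induction i with
      | zero =>
        intro _
        rw [hf0]
        exact Or.inl hE.A0
      | succ i ih =>
        intro hi
        have h1 := ih (by omega)
        rcases hcases (i + 1) hi with h2 | h2 | h2
        · exact h2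
        · exact absurd h2 (hcon (i + 1) hi)
        · exact absurd (hdir i (by omega)) (h.sepS h1 h2).2.1
    have h1 := key n le_rfl
    rw [hfn] at h1
    exact (h.sepS h1 (Or.inl hE.B0)).1 rfl
  obtain ⟨i1, hi1, hfi⟩ := hex
  have hnc : ∀ i, i ≤ n → i ≠ i1 → f i ≠ c := by
    intro i hi h1 h2
    rcases Nat.lt_or_gt_of_ne h1 with h3 | h3
    · exact hne i i1 h3 hi1 (h2.trans hfi.symm)
    · exact hne i1 i h3 hi (hfi.trans h2.symm)
  have hL : ∀ i, i < i1 → Sd A s d N (f i) := by
    intro i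
    induction i with
    | zero =>
      intro _
      rw [hf0]
      exact Or.inl hE.A0
    | succ i ih =>
      intro hi
      have h1 := ih (by omega)
      rcases hcases (i + 1) (by omega) with h2 | h2 | h2
      · exact h2
      · exact absurd h2 (hnc (i + 1) (by omega) (by omega))
      · exact absurd (hdir i (by omega)) (h.sepS h1 h2).2.1
  have hR : ∀ k, k + i1 < n + 0 → Sd B s2 d N (f (n - k)) := by
    intro k
    induction k with
    | zero =>
      intro _
      rw [Nat.sub_zero, hfn]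
      exact Or.inl hE.B0
    | succ k ih =>
      intro hk
      have h1 := ih (by omega)
      rcases hcases (n - (k + 1)) (by omega) with h2 | h2 | h2
      · have h3 := hdir (n - (k + 1)) (by omega)
        rw [show n - (k + 1) + 1 = n - k by omega] at h3
        exact absurd h3 (h.sepS h2 h1).2.1
      · exact absurd h2 (hnc _ (by omega) (by omega))
      · exact h2
  -- the cap is not an end
  have hcht : ip c d = ip s d + 2 * N + 1 := by
    rw [hc, ip_add_left, ht_col h.hd, ip_ed h.hd h.he]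
  have i1pos : 1 ≤ i1 := by
    by_contra hcon
    have h1 : i1 = 0 := by omega
    rw [h1, hf0] at hfi
    have := hE.g0l
    rw [hfi, hcht] at this
    omega
  have i1lt : i1 < n := by
    by_contra hcon
    have h1 : i1 = n := by omega
    rw [h1, hfn] at hfi
    have h2 := hE.oo
    rw [← hfi] at hcht
    have h3 : ip (0 : Pt) d = 0 := by simp [ip]
    omega
  -- the two neighbours of the cap
  have top1 : f (i1 - 1) = s + (N : ℤ) • d := by
    rcases h.capN hN (hL (i1 - 1) (by omega)) with h1 | h1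
    · exact h1
    · have h2 := hdir (i1 - 1) (by omega)
      rw [show i1 - 1 + 1 = i1 by omega, hfi, hc] at h2
      exact absurd h2 h1.2.1
  have top2 : f (i1 + 1) = s2 + (N : ℤ) • d := by
    have h0 := hR (n - (i1 + 1)) (by omega)
    rw [show n - (n - (i1 + 1)) = i1 + 1 by omega] at h0
    rcases h.symm.capN hN h0 with h1 | h1
    · exact h1
    · have h2 := hdir i1 (by omega)
      rw [hfi, ← hcap2] at h2
      exact absurd h2 h1.2.2
  have run1 := h.run (N := N) (f := f) (i1 := i1) (by rw [hf0]; exact hE.g0l) hL (fun i hi => hdir i (by omega))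
    (fun i j h1 h2 => hne i j h1 (by omega)) i1pos top1
  have run2 := h.symm.run (N := N) (f := fun i => f (n - i)) (i1 := n - i1) (by
      show ip (f (n - 0)) d < ip s2 d
      rw [Nat.sub_zero, hfn, h.ht2]
      have h3 : ip (0 : Pt) d = 0 := by simp [ip]
      rw [h3]
      exact hE.oo) (fun i hi => hR i (by omega)) (fun i hi => by
      have h1 := neg_mem_dirs (hdir (n - (i + 1)) (by omega))
      rw [neg_sub, show n - (i + 1) + 1 = n - i by omega] at h1
      exact h1) (fun i j h1 h2 h3 => hne (n - j) (n - i) (by omega) (by omega) h3.symm) (by omega) (by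
      show f (n - (n - i1 - 1)) = _
      rw [show n - (n - i1 - 1) = i1 + 1 by omega]
      exact top2)
  have r1 := (run1 N le_rfl).1
  have r2 := (run2 N le_rfl).1
  have run2' : ∀ m, m ≤ N → f (i1 + 1 + m) = s2 + ((N - m : ℕ) : ℤ) • d := by
    intro m hm
    obtain ⟨h1, h2⟩ := run2 m hm
    rw [← h2]
    show _ = f (n - (n - i1 - 1 - m))
    congr 1
    omega
  -- A or B
  have hAB : ∀ i, i ≤ n → (i + 1 + N < i1 → A (f i)) ∧ (i1 + 1 + N < i → B (f i)) := by
    intro i hi
    constructor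
    · intro h1
      rcases hL i (by omega) with h2 | ⟨q, hq, h2⟩
      · exact h2
      · exfalso
        have h3 := (run1 (N - q) (by omega)).2
        rw [show N - (N - q) = q by omega, ← h2] at h3
        exact hne i (i1 - 1 - (N - q)) (by omega) (by omega) h3.symm
    · intro h1
      have h0 := hR (n - i) (by omega)
      rw [show n - (n - i) = i by omega] at h0
      rcases h0 with h2 | ⟨q, hq, h2⟩
      · exact h2
      · exfalso
        have h3 := run2' (N - q) (by omega)
        rw [show N - (N - q) = q by omega, ← h2] at h3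
        exact hne (i1 + 1 + (N - q)) i (by omega) hi h3
  -- neighbours of the ends
  have far0 : ∀ i, i ≤ n → ∀ y : Pt, ip y d < ip s d → f i - y ∈ dirs → A (f i) ∨ B (f i) := by
    intro i hi y hy h1
    have h2 := (ip_dir_le h1 h.hd).2
    rw [ip_sub_left] at h2
    have hh : ip (f i) d ≤ ip s d + 1 := by omega
    rcases hcases i hi with h3 | h3 | h3
    · rcases h3 with h3 | ⟨q, hq, h3⟩
      · exact Or.inl h3
      · rw [h3, ht_col h.hd] at hh
        rw [h3, show q = 0 by omega, Nat.cast_zero, zero_smul, add_zero]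
        exact Or.inl h.As
    · rw [h3, hcht] at hh
      omega
    · rcases h3 with h3 | ⟨q, hq, h3⟩
      · exact Or.inr h3
      · rw [h3, ht_col h.hd, h.ht2] at hh
        rw [h3, show q = 0 by omega, Nat.cast_zero, zero_smul, add_zero]
        exact Or.inr h.Bs
  have f1 : f 1 = g0 + dt := by
    have h1 := hdir 0 (by omega)
    rw [zero_add, hf0] at h1
    exact hE.n1 _ (far0 1 (by omega) g0 hE.g0l h1) h1
  have fl : f (n - 1) = -up := by
    have h1 := neg_mem_dirs (hdir (n - 1) (by omega))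
    rw [show n - 1 + 1 = n by omega, hfn, neg_sub, sub_zero] at h1
    refine hE.n2 _ (far0 (n - 1) (by omega) 0 ?_ (by rw [sub_zero]; exact h1)) h1
    have h3 : ip (0 : Pt) d = 0 := by simp [ip]
    rw [h3]
    exact hE.oo
  have fl2 : f (n - 2) = -up - up := by
    have h1 := neg_mem_dirs (hdir (n - 2) (by omega))
    rw [show n - 2 + 1 = n - 1 by omega, fl, neg_sub] at h1
    have h2 := hE.n3 _ (far0 (n - 2) (by omega) (-up) hE.nup h1) (by rwa [sub_neg_eq_add] at h1)
    rcases h2 with h2 | h2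
    · exact absurd (h2.trans hfn.symm) (hne (n - 2) n (by omega) le_rfl)
    · exact h2
  -- non neighbours
  have nonadj : ∀ i j, i + 1 < j → j ≤ n → f j - f i ≠ 0 ∧ f j - f i ∉ dirs := by
    intro i j h1 h2
    refine ⟨fun h => hne i j (by omega) h2 (sub_eq_zero.1 h).symm, fun h => hind i j h1 h2 ⟨h, hQ j (by omega) h2⟩⟩
  refine ⟨n, f, i1, ?_, hf0, hfn, f1, fl, fl2, hdir, ?_, ?_, r1, by omega, fun m hm => (run1 m hm).2, hfi.trans hc, run2',
    hAB⟩
  · -- the number of steps
    have h1 : ((range n).image fun i => f (i + 1)).card = n := by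
      rw [card_image_of_injOn, card_range]
      intro i hi j hj hij
      rw [mem_coe, mem_range] at hi hj
      simp only at hij
      rcases Nat.lt_trichotomy i j with h | h | h
      · exact absurd hij (hne (i + 1) (j + 1) (by omega) (by omega))
      · exact h
      · exact absurd hij.symm (hne (j + 1) (i + 1) (by omega) (by omega))
    have h2 : (range n).image (fun i => f (i + 1)) ⊆ Icc (-RB) RB ×ˢ Icc (-RB) RB := by
      intro x hx
      rw [mem_image] at hx
      obtain ⟨i, hi, rfl⟩ := hx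
      rw [mem_range] at hi
      have h3 := hQ (i + 1) (by omega) (by omega)
      rw [hP] at h3
      have h4 := hbox _ h3
      rw [nr_zero, abs_le, abs_le] at h4
      rw [mem_product, mem_Icc, mem_Icc]
      exact h4
    have h3 := card_le_card h2
    rw [h1, card_product, Int.card_Icc] at h3
    rw [pow_two]
    refine h3.trans (le_of_eq ?_)
    congr 2 <;> ring
  · intro i hi
    refine turn_check _ (hdir i (by omega)) _ (hdir (i + 1) (by omega)) ?_ ?_
    · have := (nonadj i (i + 1 + 1) (by omega) (by omega)).1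
      rwa [show f (i + 1) - f i + (f (i + 1 + 1) - f (i + 1)) = f (i + 1 + 1) - f i by abel]
    · have := (nonadj i (i + 1 + 1) (by omega) (by omega)).2
      rwa [show f (i + 1) - f i + (f (i + 1 + 1) - f (i + 1)) = f (i + 1 + 1) - f i by abel]
  · intro i j h1 h2
    exact nrm_three (nonadj i j h1 h2).1 (nonadj i j h1 h2).2

end cap

end ART

end HexObs
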