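import Pool.Agent.ART.Rays

/-!
# ART, row J4b (helper15): the web over the highest cell

`u` = a highest cell of `S` in the direction `d`. The side `δ` of `u` is free. From the centres of its two subcells two short
paths of nodes lead to `s` and `s2 = s + e + e - d` (the feet of the columns). The nodes of the paths are within 2 of their
centre or in a cell higher than `u`; the two paths are far from each other and lower than their last nodes.
-/

set_option autoImplicit false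

namespace HexObs

namespace ART

open Finset TS SDN TIW ARM Lane

namespace Web

/-- the free side over the highest cell -/
def dl (d : Pt) : ℤ × ℤ :=
  if d = (1, 0) then (1, 0) else if d = (0, 1) then (0, 1) else if d = (-1, 1) then (0, 1) else
    if d = (-1, 0) then (-1, 0) else (0, -1)

/-- the path over the first subcell (the cell u is at the origin) -/
def pa (d : Pt) : List Pt :=
  if d = (1, 0) then [(6, 2), (7, 2), (8, 2), (9, 2), (10, 2), (11, 2), (12, 2)] else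
  if d = (0, 1) then [(2, 6), (2, 7), (2, 8), (2, 9), (2, 10), (2, 11), (2, 12)] else
  if d = (-1, 1) then [(2, 6), (1, 7), (0, 8), (-1, 9), (-2, 10)] else
  if d = (-1, 0) then [(2, 2), (1, 2), (0, 2), (-1, 3), (-2, 4), (-3, 4)] else
  if d = (0, -1) then [(2, 2), (2, 1), (2, 0), (3, -1), (4, -2), (4, -3)] else
    [(2, 2), (2, 1), (2, 0), (2, -1), (3, -1), (4, -1), (5, -1), (6, -1), (7, -1), (8, -2), (9, -3)]

/-- the path over the second subcell -/
def pb (d : Pt) : List Pt :=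
  if d = (1, 0) then [(6, 6), (7, 6), (8, 6), (9, 5), (10, 4), (11, 4)] else
  if d = (0, 1) then [(6, 6), (6, 7), (6, 8), (5, 9), (4, 10), (4, 11)] else
  if d = (-1, 1) then [(6, 6), (6, 7), (6, 8), (5, 8), (4, 8), (3, 8), (2, 8), (1, 9), (0, 10), (-1, 11)] else
  if d = (-1, 0) then [(2, 6), (1, 6), (0, 6), (-1, 6), (-2, 6), (-3, 6), (-4, 6)] else
  if d = (0, -1) then [(6, 2), (6, 1), (6, 0), (6, -1), (6, -2), (6, -3), (6, -4)] else
    [(6, 2), (7, 1), (8, 0), (9, -1), (10, -2)]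

/-- the foot over the first subcell -/
def fa (d : Pt) : Pt :=
  if d = (1, 0) then (12, 2) else if d = (0, 1) then (2, 12) else if d = (-1, 1) then (-2, 10) else
    if d = (-1, 0) then (-3, 4) else if d = (0, -1) then (4, -3) else (9, -3)

/-- the foot over the second subcell -/
def fb (d : Pt) : Pt :=
  if d = (1, 0) then (11, 4) else if d = (0, 1) then (4, 11) else if d = (-1, 1) then (-1, 11) else
    if d = (-1, 0) then (-4, 6) else if d = (0, -1) then (6, -4) else (10, -2)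

lemma dl_mem : ∀ d ∈ dirs, dl d ∈ D4 := by decide

lemma dl_up : ∀ d ∈ dirs, 0 < ip (dl d) d := by decide

/-- from the first to the second foot and back -/
lemma feet : ∀ d ∈ dirs, (∃ e, (e = rotL d ∨ e = rotR d) ∧ fb d = fa d + e + e - d) ∧
    ∃ e, (e = rotL d ∨ e = rotR d) ∧ fa d = fb d + e + e - d := by
  intro d hd
  have key : ∀ d ∈ dirs, ((fb d = fa d + rotL d + rotL d - d ∧ fa d = fb d + rotR d + rotR d - d) ∨
      (fb d = fa d + rotR d + rotR d - d ∧ fa d = fb d + rotL d + rotL d - d)) := by decide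
  rcases key d hd with ⟨h1, h2⟩ | ⟨h1, h2⟩
  · exact ⟨⟨_, Or.inl rfl, h1⟩, ⟨_, Or.inr rfl, h2⟩⟩
  · exact ⟨⟨_, Or.inr rfl, h1⟩, ⟨_, Or.inl rfl, h2⟩⟩

lemma pa_hd : ∀ d ∈ dirs, (pa d).head? = some (ctr (sa 0 (dl d))) := by decide

lemma pb_hd : ∀ d ∈ dirs, (pb d).head? = some (ctr (sb 0 (dl d))) := by decide

lemma pa_tl : ∀ d ∈ dirs, (pa d).getLast? = some (fa d) := by decide

lemma pb_tl : ∀ d ∈ dirs, (pb d).getLast? = some (fb d) := by decide

lemma pa_ch : ∀ d ∈ dirs, (pa d).IsChain (fun f g => g - f ∈ dirs) := by decide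

lemma pb_ch : ∀ d ∈ dirs, (pb d).IsChain (fun f g => g - f ∈ dirs) := by decide

/-! ### translation to the cell u -/

/-- the node 8 u -/
def org (u : ℤ × ℤ) : Pt := (8 * u.1, 8 * u.2)

/-- the nodes of a list, seen from 8 u -/
def WnT (u : ℤ × ℤ) (l : List Pt) (x : Pt) : Prop := ∃ y ∈ l, x = org u + y

lemma sa_tr (u δ : ℤ × ℤ) : ctr (sa u δ) = org u + ctr (sa 0 δ) := by
  unfold ctr sa org
  refine Prod.ext ?_ ?_ <;> simp only [Prod.fst_add, Prod.snd_add, Prod.fst_zero, Prod.snd_zero] <;> ring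

lemma sb_tr (u δ : ℤ × ℤ) : ctr (sb u δ) = org u + ctr (sb 0 δ) := by
  unfold ctr sb org
  refine Prod.ext ?_ ?_ <;> simp only [Prod.fst_add, Prod.snd_add, Prod.fst_zero, Prod.snd_zero] <;> ring

lemma c8_org (u : ℤ × ℤ) (y : Pt) : c8 (org u + y) = u + c8 y := by
  unfold c8 org
  refine Prod.ext ?_ ?_ <;> simp only [Prod.fst_add, Prod.snd_add] <;> omega

lemma ip_org (u : ℤ × ℤ) (d : Pt) : ip (org u) d = 8 * ip u d := by
  unfold ip org
  simp only
  ring

/-- a list of steps is a connection -/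
lemma conn_list {W : Pt → Prop} {u : ℤ × ℤ} : ∀ {l : List Pt} {a b : Pt}, l.IsChain (fun f g => g - f ∈ dirs) →
    l.head? = some a → l.getLast? = some b → (∀ x ∈ l, W (org u + x)) → Relation.ReflTransGen (Sp W) (org u + a) (org u + b)
  | [], a, b, _, h, _, _ => by simp at h
  | [x], a, b, _, h1, h2, _ => by
    simp only [List.head?_cons, Option.some.injEq, List.getLast?_singleton] at h1 h2
    rw [← h1, ← h2]
  | x :: y :: l, a, b, hc, h1, h2, hW => by
    rw [List.isChain_cons_cons] at hc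
    rw [List.head?_cons, Option.some.injEq] at h1
    rw [List.getLast?_cons_cons] at h2
    have ih := conn_list (W := W) (u := u) (l := y :: l) (a := y) hc.2 rfl h2 (fun z hz => hW z (List.mem_cons_of_mem _ hz))
    refine Relation.ReflTransGen.head ⟨?_, hW y (by simp)⟩ ih
    rw [← h1, add_sub_add_left_eq_sub]
    exact hc.1

end Web

/-- a path W of the web over the subcell p of the cell u, up to the foot s -/
structure WebP (u : ℤ × ℤ) (d : Pt) (p : ℤ × ℤ) (s : Pt) (W : Pt → Prop) : Prop where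
  conn : Relation.ReflTransGen (Sp W) (ctr p) s
  c0 : W (ctr p)
  Ws : W s
  near : ∀ x, W x → (|x.1 - (ctr p).1| ≤ 2 ∧ |x.2 - (ctr p).2| ≤ 2) ∨ ip u d < ip (c8 x) d
  low : ∀ x, W x → x ≠ s → ip x d < ip s d
  hgt : ∀ x, W x → 8 * ip u d ≤ ip x d + 10
  box : ∀ x, W x → |x.1 - 8 * u.1| ≤ 12 ∧ |x.2 - 8 * u.2| ≤ 12
  sub : ∀ v : ℤ × ℤ, ip v d ≤ ip u d → ∀ q : ℤ × ℤ, bl q = v → ip (ctr q) d + 8 ≤ ip s d

namespace Web

lemma near_pa : ∀ d ∈ dirs, ∀ x ∈ pa d, (|x.1 - (ctr (sa 0 (dl d))).1| ≤ 2 ∧ |x.2 - (ctr (sa 0 (dl d))).2| ≤ 2) ∨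
    0 < ip (c8 x) d := by decide

lemma near_pb : ∀ d ∈ dirs, ∀ x ∈ pb d, (|x.1 - (ctr (sb 0 (dl d))).1| ≤ 2 ∧ |x.2 - (ctr (sb 0 (dl d))).2| ≤ 2) ∨
    0 < ip (c8 x) d := by decide

lemma low_pa : ∀ d ∈ dirs, ∀ x ∈ pa d, x ≠ fa d → ip x d < ip (fa d) d := by decide

lemma low_pb : ∀ d ∈ dirs, ∀ x ∈ pb d, x ≠ fb d → ip x d < ip (fb d) d := by decide

lemma hgt_ab : ∀ d ∈ dirs, ∀ x ∈ pa d ++ pb d, 0 ≤ ip x d + 10 ∧ |x.1| ≤ 12 ∧ |x.2| ≤ 12 := by decide

lemma far_ab : ∀ d ∈ dirs, ∀ x ∈ pa d, ∀ y ∈ pb d, y ≠ x ∧ y - x ∉ dirs ∧ x - y ∉ dirs := by decide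

/-- subcells of the cell v: offsets 2, 6 -/
lemma sub_ab : ∀ d ∈ dirs, ∀ a ∈ ({2, 6} : Finset ℤ), ∀ b ∈ ({2, 6} : Finset ℤ), ip (a, b) d + 8 ≤ ip (fa d) d ∧
    ip (a, b) d + 8 ≤ ip (fb d) d := by decide

lemma ctr_bl (q : ℤ × ℤ) : ∃ a ∈ ({2, 6} : Finset ℤ), ∃ b ∈ ({2, 6} : Finset ℤ), ctr q = org (bl q) + (a, b) := by
  have key : ∀ z : ℤ, ∃ a ∈ ({2, 6} : Finset ℤ), 4 * z + 2 = 8 * (z / 2) + a := by
    intro z
    rcases Int.emod_two_eq_zero_or_one z with h | h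
    · exact ⟨2, by simp, by omega⟩
    · exact ⟨6, by simp, by omega⟩
  obtain ⟨a, ha, h1⟩ := key q.1
  obtain ⟨b, hb, h2⟩ := key q.2
  refine ⟨a, ha, b, hb, ?_⟩
  unfold ctr org bl
  exact Prod.ext h1 h2

/-- the general step: a list at the origin gives a path of the web -/
lemma webP_of {u : ℤ × ℤ} {d : Pt} {p p0 : ℤ × ℤ} {s : Pt} {l : List Pt} (hp : ctr p = org u + ctr p0)
    (hch : l.IsChain (fun f g => g - f ∈ dirs)) (hh : l.head? = some (ctr p0)) (ht : l.getLast? = some s)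
    (hn : ∀ x ∈ l, (|x.1 - (ctr p0).1| ≤ 2 ∧ |x.2 - (ctr p0).2| ≤ 2) ∨ 0 < ip (c8 x) d)
    (hl : ∀ x ∈ l, x ≠ s → ip x d < ip s d) (hb : ∀ x ∈ l, 0 ≤ ip x d + 10 ∧ |x.1| ≤ 12 ∧ |x.2| ≤ 12)
    (hs : ∀ a ∈ ({2, 6} : Finset ℤ), ∀ b ∈ ({2, 6} : Finset ℤ), ip (a, b) d + 8 ≤ ip s d) :
    WebP u d p (org u + s) (WnT u l) := by
  have mem : ∀ x ∈ l, WnT u l (org u + x) := fun x hx => ⟨x, hx, rfl⟩
  refine ⟨?_, ?_, ?_, ?_, ?_, ?_, ?_, ?_⟩
  · rw [hp]
    exact conn_list hch hh ht mem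
  · rw [hp]
    exact mem _ (List.mem_of_head? hh)
  · exact mem _ (List.mem_of_getLast? ht)
  · rintro x ⟨y, hy, rfl⟩
    rw [hp, c8_org, ip_add_left]
    simp only [Prod.fst_add, Prod.snd_add, add_sub_add_left_eq_sub]
    rcases hn y hy with h | h
    · exact Or.inl h
    · right
      linarith
  · rintro x ⟨y, hy, rfl⟩ hne
    rw [ip_add_left, ip_add_left]
    have := hl y hy (fun h => hne (by rw [h]))
    linarith
  · rintro x ⟨y, hy, rfl⟩
    rw [ip_add_left, ip_org]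
    linarith [(hb y hy).1]
  · rintro x ⟨y, hy, rfl⟩
    have e1 : (org u + y).1 - 8 * u.1 = y.1 := by simp only [org, Prod.fst_add]; ring
    have e2 : (org u + y).2 - 8 * u.2 = y.2 := by simp only [org, Prod.snd_add]; ring
    rw [e1, e2]
    exact (hb y hy).2
  · rintro v hv q rfl
    obtain ⟨a, ha, b, hb', e⟩ := ctr_bl q
    rw [e, ip_add_left, ip_add_left, ip_org, ip_org]
    have := hs a ha b hb'
    linarith

end Web

open Web in
/-- **the web over the highest cell u** -/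
theorem top_web {d : Pt} (hd : d ∈ dirs) (u : ℤ × ℤ) : dl d ∈ D4 ∧ 0 < ip (dl d) d ∧ ∀ p1 p2 : ℤ × ℤ,
    ((p1 = sa u (dl d) ∧ p2 = sb u (dl d)) ∨ (p1 = sb u (dl d) ∧ p2 = sa u (dl d))) →
    ∃ (e s s2 : Pt) (WA WB : Pt → Prop), (e = rotL d ∨ e = rotR d) ∧ s2 = s + e + e - d ∧ WebP u d p1 s WA ∧
      WebP u d p2 s2 WB ∧ ∀ x y, WA x → WB y → Far x y := by
  refine ⟨dl_mem d hd, dl_up d hd, fun p1 p2 hp => ?_⟩
  have h1 : WebP u d (sa u (dl d)) (org u + fa d) (WnT u (pa d)) :=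
    webP_of (sa_tr u (dl d)) (pa_ch d hd) (pa_hd d hd) (pa_tl d hd) (near_pa d hd) (low_pa d hd)
      (fun x hx => hgt_ab d hd x (List.mem_append_left _ hx)) fun a ha b hb => (sub_ab d hd a ha b hb).1
  have h2 : WebP u d (sb u (dl d)) (org u + fb d) (WnT u (pb d)) :=
    webP_of (sb_tr u (dl d)) (pb_ch d hd) (pb_hd d hd) (pb_tl d hd) (near_pb d hd) (low_pb d hd)
      (fun x hx => hgt_ab d hd x (List.mem_append_right _ hx)) fun a ha b hb => (sub_ab d hd a ha b hb).2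
  have hfar : ∀ x y, WnT u (pa d) x → WnT u (pb d) y → Far x y := by
    rintro x y ⟨a, ha, rfl⟩ ⟨b, hb, rfl⟩
    obtain ⟨k1, k2, k3⟩ := far_ab d hd a ha b hb
    refine ⟨fun h => k1 (add_left_cancel h), ?_, ?_⟩
    · rwa [add_sub_add_left_eq_sub]
    · rwa [add_sub_add_left_eq_sub]
  obtain ⟨⟨e, he, f1⟩, e', he', f2⟩ := feet d hd
  rcases hp with ⟨rfl, rfl⟩ | ⟨rfl, rfl⟩
  · refine ⟨e, _, _, _, _, he, ?_, h1, h2, hfar⟩
    rw [f1]
    abel
  · refine ⟨e', _, _, _, _, he', ?_, h2, h1, fun x y hx hy => ?_⟩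
    · rw [f2]
      abel
    · obtain ⟨k1, k2, k3⟩ := hfar y x hy hx
      exact ⟨k1.symm, k3, k2⟩

/-- **a path of the web is far from the strands that do not contain its subcell** -/
theorem web_far {S : Finset (ℤ × ℤ)} {u p : ℤ × ℤ} {d s : Pt} {W : Pt → Prop} (h : WebP u d p s W)
    (hS : ∀ v ∈ S, ip v d ≤ ip u d) {A : List (ℤ × ℤ)} (hA : A.IsChain ARM.adj) (hin : ∀ x ∈ A, bl x ∈ S) (hp : p ∉ A)
    {x y : Pt} (hx : W x) (hy : y ∈ SN A) : Far x y := by
  have hSN := snd_list hA hin hy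
  have key : ¬ (x - y = 0 ∨ x - y ∈ dirs) := by
    intro hc
    have hn := near_of_dir hc
    rcases h.near x hx with ⟨n1, n2⟩ | hc8
    · obtain ⟨q, q', hq, hq', hqq, i, hi, hi4, rfl⟩ := sn_list hA hy
      have h1 : p ≠ q := fun e => hp (e ▸ hq)
      have h2 : p ≠ q' := fun e => hp (e ▸ hq')
      refine edge_far (p := p) (q := p) (Or.inl rfl) hqq h1 h2 h1 h2 (i := 0) (i' := i) le_rfl (by norm_num) hi hi4 ?_
      rw [sg_zero]
      obtain ⟨m1, m2⟩ := hn
      rw [abs_le] at m1 m2 n1 n2 ⊢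
      rw [abs_le]
      constructor <;> constructor <;> linarith [m1.1, m1.2, m2.1, m2.2, n1.1, n1.2, n2.1, n2.2]
    · have h1 := sn_near hSN (m := x) hn.1 hn.2
      linarith [hS _ h1]
  refine ⟨fun hc => key (Or.inl (by rw [hc, sub_self])), fun hc => key (Or.inr ?_), fun hc => key (Or.inr hc)⟩
  have := neg_mem_dirs hc
  rwa [neg_sub] at this

/-- the strands are lower than the feet -/
theorem sn_low {S : Finset (ℤ × ℤ)} {u p : ℤ × ℤ} {d s : Pt} {W : Pt → Prop} (h : WebP u d p s W)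
    (hS : ∀ v ∈ S, ip v d ≤ ip u d) {A : List (ℤ × ℤ)} (hA : A.IsChain ARM.adj) (hin : ∀ x ∈ A, bl x ∈ S) {y : Pt}
    (hy : y ∈ SN A) : ip y d + 8 ≤ ip s d := by
  obtain ⟨q, q', hq, hq', hqq, i, hi, hi4, rfl⟩ := sn_list hA hy
  have h1 := h.sub _ (hS _ (hin q hq)) q rfl
  have h2 := h.sub _ (hS _ (hin q' hq')) q' rfl
  have e : 4 * ip (sg q q' i) d = (4 - i) * ip (ctr q) d + i * ip (ctr q') d := by
    unfold ip sg ctr
    simp only
    ring
  nlinarith

/-- a node higher than the web cannot be near a low node; a node of the web is high -/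
theorem web_high {u p : ℤ × ℤ} {d s : Pt} {W : Pt → Prop} (h : WebP u d p s W) (hd : d ∈ dirs) {x y : Pt} (hx : W x)
    (hy : ip y d + 13 ≤ 8 * ip u d) : Far x y := by
  have h1 := h.hgt x hx
  have key : ∀ a ∈ dirs, ∀ b ∈ dirs, -2 ≤ ip a b ∧ ip a b ≤ 2 := by decide
  refine ⟨fun hc => ?_, fun hc => ?_, fun hc => ?_⟩
  · rw [hc] at hy
    linarith
  · have := (key _ hc d hd).1
    rw [ip_sub_left] at this
    linarith
  · have := (key _ hc d hd).2
    rw [ip_sub_left] at this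
    linarith

end ART

end HexObs
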