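import Pool.Agent.ART.Rays
import Pool.Agent.ART.TopWeb

/-!
# ART, row G1, PathTSt (captain helper90): literal of the last piece

`TopStackSt` (helper64): from the walk of `rays_walk` to a set of cells with a stack of 20 cells over its highest cell, with a
Hamiltonian list of subcells which starts and ends at the side `(U, dl d)` of the highest cell `U` of the whole set.
-/

set_option autoImplicit false

namespace HexObs

namespace ART

open Finset TS SDN TIW ARM Lane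

/-- **piece T (helper64)**: the walk and a stack of 20 cells over its highest cell -/
def TopStackSt : Prop := ∀ (V : Set Pt) (t d zU : Pt) (D R T : ℤ) (n : ℕ) (w : ℕ → ℤ × ℤ), 0 < D → d ∈ dirs →
  (∀ p ∈ V, ip p d ≤ T) → T + 100 * D ≤ ip (t + zU) d → (∀ i, i < n → ARM.adj (w i) (w (i + 1))) →
  (∀ i, i ≤ n → nr R 0 (w i) ∧ ∀ p ∈ V, ¬ nr 3 (ce (8 * D) (p - t)) (w i)) → w n = ce (8 * D) zU →
  ∃ (S : Finset (ℤ × ℤ)) (U : ℤ × ℤ) (l : List (ℤ × ℤ)), Ham S U (Web.dl d) l ∧ U ∈ S ∧ (∀ c ∈ S, ip c d ≤ ip U d) ∧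
    (∀ i, i ≤ n → w i ∈ S) ∧ (∀ g ∈ S, nr (R + 20) 0 g ∧ ∀ p ∈ V, ¬ nr 3 (ce (8 * D) (p - t)) g) ∧
    T + 230 * D ≤ 8 * D * ip U d + ip t d

end ART

end HexObs
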