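import Pool.Agent.ART.PathTD
import Pool.Agent.ART.JnTail
import Pool.Agent.ART.TopWeb

/-!
# ART, row G1 (helper90): **`pathTSt_of : TopStackSt → PathTSt`**

Two lanes of one corridor from the two tips to the columns over the highest cell: `rays_walk`, `rays_tips` (64), `two_strands` (39), `top_web` (15),
`cap_path` (9), `seg_clear` (34).
-/

set_option autoImplicit false

namespace HexObs

namespace ART

open Finset TS SDN TIW ARM Lane

namespace PF

lemma far_symm {x y : Pt} (h : Far x y) : Far y x := ⟨h.1.symm, h.2.2, h.2.1⟩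

lemma far_tr {x y g : Pt} (h : Far (x - g) (y - g)) : Far x y := by
  obtain ⟨h1, h2, h3⟩ := h
  refine ⟨fun hc => h1 (by rw [hc]), ?_, ?_⟩
  · rwa [sub_sub_sub_cancel_right] at h2
  · rwa [sub_sub_sub_cancel_right] at h3

lemma ip_dir_le {x d : Pt} (hx : x ∈ dirs) (hd : d ∈ dirs) : -2 ≤ ip x d ∧ ip x d ≤ 2 := by
  have key : ∀ x ∈ dirs, ∀ d ∈ dirs, -2 ≤ ip x d ∧ ip x d ≤ 2 := by decide
  exact key x hx d hd

lemma far_ht {x y d : Pt} (hd : d ∈ dirs) (h : ip x d + 3 ≤ ip y d) : Far x y := by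
  refine ⟨fun h0 => ?_, fun h0 => ?_, fun h0 => ?_⟩
  · subst h0
    omega
  · have := (ip_dir_le h0 hd).2
    rw [ip_sub_left] at this
    omega
  · have := (ip_dir_le h0 hd).1
    rw [ip_sub_left] at this
    omega

lemma rtg_mono {A A' : Pt → Prop} (h : ∀ x, A x → A' x) {x y : Pt} (hxy : Relation.ReflTransGen (Sp A) x y) :
    Relation.ReflTransGen (Sp A') x y :=
  Relation.ReflTransGen.mono (fun _ _ hfg => ⟨hfg.1, h _ hfg.2⟩) _ _ hxy

lemma rtg_tr {A A' : Pt → Prop} (g : Pt) (h : ∀ x, A x → A' (g + x)) {x y : Pt} (hxy : Relation.ReflTransGen (Sp A) x y) :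
    Relation.ReflTransGen (Sp A') (g + x) (g + y) := by
  refine Relation.ReflTransGen.lift (fun x => g + x) (fun f k hfk => ⟨?_, h _ hfk.2⟩) _ _ hxy
  rw [add_sub_add_left_eq_sub]
  exact hfk.1

/-- the segment between the centres of two adjacent subcells -/
lemma seg_conn {A : Pt → Prop} {p q : ℤ × ℤ} (hpq : ARM.adj p q) (h : ∀ i : ℤ, 0 ≤ i → i ≤ 4 → A (ctr p + i • (q - p))) :
    Relation.ReflTransGen (Sp A) (ctr p) (ctr q) := by
  have h1 := line_path (A := A) (g := ctr p) (adj_dirs hpq) 4 fun k _ hk => h k (Int.natCast_nonneg _) (by exact_mod_cast hk)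
  have e : ctr p + ((4 : ℕ) : ℤ) • (q - p) = ctr q := by
    unfold ctr
    refine Prod.ext ?_ ?_ <;>
    · simp only [Prod.fst_add, Prod.snd_add, Prod.smul_fst, Prod.smul_snd, smul_eq_mul, Prod.fst_sub, Prod.snd_sub]
      push_cast
      ring
  rwa [e] at h1

lemma sn_cons {c : ℤ × ℤ} {l : List (ℤ × ℤ)} {x : Pt} (h : x ∈ SN l) : x ∈ SN (c :: l) := by
  rcases h with ⟨p, hp, hx⟩ | ⟨p, q, hpq, i, h1, h2, h3⟩
  · exact Or.inl ⟨p, List.mem_cons_of_mem _ hp, hx⟩
  · exact Or.inr ⟨p, q, hpq.app [c], i, h1, h2, h3⟩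

/-- **a strand is connected** -/
lemma sn_conn : ∀ (l : List (ℤ × ℤ)) (p q : ℤ × ℤ), l.IsChain ARM.adj → l.head? = some p → l.getLast? = some q →
    Relation.ReflTransGen (Sp (fun x => x ∈ SN l)) (ctr p) (ctr q) := by
  intro l
  induction l with
  | nil => intro p q _ h; simp at h
  | cons c l ih =>
    intro p q hl hp hq
    rw [List.head?_cons, Option.some.injEq] at hp
    subst hp
    cases l with
    | nil =>
      simp only [List.getLast?_singleton, Option.some.injEq] at hq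
      subst hq
      exact Relation.ReflTransGen.refl
    | cons c' l =>
      rw [List.isChain_cons_cons] at hl
      rw [List.getLast?_cons_cons] at hq
      have h1 := ih c' q hl.2 rfl hq
      refine (seg_conn hl.1 fun i hi hi4 => Or.inr ⟨c, c', ⟨[], l, rfl⟩, i, hi, hi4, rfl⟩).trans ?_
      exact rtg_mono (fun x hx => sn_cons hx) h1

/-- **two disjoint strands are far from each other** -/
lemma sn_sn_far {A B : List (ℤ × ℤ)} (hA : A.IsChain ARM.adj) (hB : B.IsChain ARM.adj) (hd : ∀ x ∈ A, x ∉ B) {x y : Pt}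
    (hx : x ∈ SN A) (hy : y ∈ SN B) : Far x y := by
  obtain ⟨p, q, hp, hq, hpq, i, hi, hi4, rfl⟩ := sn_list hA hx
  obtain ⟨p', q', hp', hq', hpq', i', hi', hi4', rfl⟩ := sn_list hB hy
  have ne : ∀ {x y : ℤ × ℤ}, x ∈ A → y ∈ B → x ≠ y := fun {x y} h1 h2 h3 => hd x h1 (by rw [h3]; exact h2)
  have k1 := edge_far' hpq hpq' (ne hp hp') (ne hp hq') (ne hq hp') (ne hq hq') hi hi4 hi' hi4'
  refine ⟨fun hc => k1.1 (by rw [hc, sub_self]), fun hc => k1.2 ?_, k1.2⟩
  have := neg_mem_dirs hc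
  rwa [neg_sub] at this

lemma ip_cell {d : Pt} (hd : d ∈ dirs) (n : Pt) : 8 * ip (c8 n) d ≤ ip n d + 21 ∧ ip n d ≤ 8 * ip (c8 n) d + 21 := by
  have h1 := Int.emod_add_mul_ediv n.1 8
  have h2 := Int.emod_nonneg n.1 (show (8 : ℤ) ≠ 0 by norm_num)
  have h3 := Int.emod_lt_of_pos n.1 (show (0 : ℤ) < 8 by norm_num)
  have h4 := Int.emod_add_mul_ediv n.2 8
  have h5 := Int.emod_nonneg n.2 (show (8 : ℤ) ≠ 0 by norm_num)
  have h6 := Int.emod_lt_of_pos n.2 (show (0 : ℤ) < 8 by norm_num)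
  simp only [dirs, Finset.mem_insert, Finset.mem_singleton] at hd
  unfold c8
  rcases hd with rfl | rfl | rfl | rfl | rfl | rfl <;> simp only [ip] <;> omega

lemma ip_e {d e : Pt} (hd : d ∈ dirs) (he : e = rotL d ∨ e = rotR d) : ip e d = 1 := by
  have key : ∀ d ∈ dirs, ip (rotL d) d = 1 ∧ ip (rotR d) d = 1 := by decide
  rcases he with rfl | rfl
  · exact (key d hd).1
  · exact (key d hd).2

lemma rot_rot {d : Pt} (hd : d ∈ dirs) : rotR (rotR d) = rotR d - d ∧ rotL (rotL d) = rotL d - d := by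
  have key : ∀ d ∈ dirs, rotR (rotR d) = rotR d - d ∧ rotL (rotL d) = rotL d - d := by decide
  exact key d hd

lemma head_mem {l : List (ℤ × ℤ)} {p : ℤ × ℤ} (h : l.head? = some p) : p ∈ l := by
  cases l with
  | nil => simp at h
  | cons c l =>
    rw [List.head?_cons, Option.some.injEq] at h
    rw [← h]
    exact List.mem_cons_self

lemma last_mem {l : List (ℤ × ℤ)} {p : ℤ × ℤ} (h : l.getLast? = some p) : p ∈ l := List.mem_of_getLast? h

end PF

open PF

/-- **row J4, assembly** -/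
theorem pathTSt_of (hTS : TopStackSt) : PathTSt := by
  intro N
  refine ⟨2 * N + 600, fun V t dt g0 d zU D ρ κ N0 R T K hD hκ0 hκ hdt hd h0 ht hg hV1 hV2 htt hK hρ hN1 hN2 hR hT1 hT2 hc1
    hc2 => ?_⟩
  obtain ⟨n, w, w1, w2, w3, w4, iB, w5, w6⟩ := rays_walk hD hκ.le hdt hg hV1 hV2 hK hρ hN1 hN2 hR hc1 hc2
  obtain ⟨S, U, l, hH, hUS, hUh, s1, s2, s3⟩ := hTS V t d zU D (R + N0 + K) T n w hD hd hT1 hT2 w1 w2 w4
  have hS : ∀ g ∈ S, ∀ q ∈ V, ¬ nr 3 (ce (8 * D) (q - t)) g := fun g hg => (s2 g hg).2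
  have hK3 : (1000 : ℤ) ≤ K := by exact_mod_cast hK
  have hρ1 : 1000 * D ≤ ρ := by
    have : 0 ≤ (K : ℤ) * D := by positivity
    linarith
  have hN0 : 0 ≤ N0 := (abs_nonneg _).trans hN1
  obtain ⟨sA, sB, a, δa, b, δb, a1, a2, b1, b2, ha, hb, hδa, hδb, ha', hb', hab, ea, eb, rA, rB⟩ :=
    rays_tips hD hκ.le hdt h0 ht hg htt hS (by rw [← w3]; exact s1 0 (Nat.zero_le _)) (by rw [← w6]; exact s1 iB w5)
  -- heights
  have hT0 : 0 ≤ T := by
    have := hT1 0 h0
    have e : ip (0 : Pt) d = 0 := by simp [ip]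
    rwa [e] at this
  have htT := hT1 t ht
  have hrd : |ip (t - D • g0) d| ≤ κ := by
    rw [abs_le]
    exact ⟨(neg_le_neg hg).trans (neg_hn_le_ip _ hd), (ip_le_hn _ hd).trans hg⟩
  rw [ip_sub_left, ip_smul_left, abs_le] at hrd
  obtain ⟨G, hG⟩ : ∃ G : ℤ, G = D * ip g0 d := ⟨_, rfl⟩
  rw [← hG] at hrd
  have hA49 : (sA : ℤ) ≤ 49 := by exact_mod_cast a2
  have hB49 : (sB : ℤ) ≤ 49 := by exact_mod_cast b2
  have hUa : a ≠ U := by
    intro hc
    have h1 := (ip_cell hd (g0 + (sA : ℤ) • dt - g0)).1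
    rw [← ea, hc, add_sub_cancel_left, ip_smul_left] at h1
    have h2 := (ip_dir_le hdt hd).2
    have h3 : (sA : ℤ) * ip dt d ≤ 98 := by nlinarith [(Int.natCast_nonneg sA)]
    have h4 : D * (8 * ip U d) ≤ D * 119 := mul_le_mul_of_nonneg_left (by linarith) hD.le
    linarith
  have hUb : b ≠ U := by
    intro hc
    have h1 := (ip_cell hd (0 + (sB : ℤ) • -up - g0)).1
    rw [← eb, hc, zero_add, ip_sub_left, ip_smul_left] at h1
    have h2 := (ip_dir_le (neg_mem_dirs upd') hd).2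
    have h3 : (sB : ℤ) * ip (-up) d ≤ 98 := by nlinarith [(Int.natCast_nonneg sB)]
    have h4 : D * (8 * ip U d) ≤ D * (119 - ip g0 d) := mul_le_mul_of_nonneg_left (by linarith) hD.le
    rw [mul_sub, ← hG] at h4
    linarith
  obtain ⟨A, B, hAB⟩ := two_strands hH ha hb hδa hδb ha' hb' (Or.inl hUa) (Or.inl hUb) hab
  obtain ⟨pA, hpA, hpA'⟩ : ∃ p, A.head? = some p ∧ (p = sa a δa ∨ p = sb a δa) := by
    rcases hAB.hdA with h | h
    · exact ⟨_, h, Or.inl rfl⟩
    · exact ⟨_, h, Or.inr rfl⟩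
  obtain ⟨pB, hpB, hpB'⟩ : ∃ p, B.head? = some p ∧ (p = sa b δb ∨ p = sb b δb) := by
    rcases hAB.hdB with h | h
    · exact ⟨_, h, Or.inl rfl⟩
    · exact ⟨_, h, Or.inr rfl⟩
  obtain ⟨P, Q, hP, hQ, hPQ⟩ : ∃ P Q, A.getLast? = some P ∧ B.getLast? = some Q ∧
      ((P = sa U (Web.dl d) ∧ Q = sb U (Web.dl d)) ∨ (P = sb U (Web.dl d) ∧ Q = sa U (Web.dl d))) := by
    rcases hAB.tl with h | h
    · exact ⟨_, _, h.1, h.2, Or.inl ⟨rfl, rfl⟩⟩
    · exact ⟨_, _, h.1, h.2, Or.inr ⟨rfl, rfl⟩⟩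
  have hRA := rA pA hpA'
  have hRB := rB pB hpB'
  have hpAB : pA ∉ B := by
    intro hc
    rcases hpA' with h | h
    · exact (hAB.exB _ hc).1 h
    · exact (hAB.exB _ hc).2 h
  have hpBA : pB ∉ A := by
    intro hc
    rcases hpB' with h | h
    · exact (hAB.exA _ hc).1 h
    · exact (hAB.exA _ hc).2 h
  have hPB : P ∉ B := hAB.dis P (last_mem hP)
  have hQA : Q ∉ A := fun hc => hAB.dis Q hc (last_mem hQ)
  obtain ⟨-, -, hweb⟩ := top_web hd U
  obtain ⟨e, s, s', WA, WB, he, hes, hwa, hwb, hwf⟩ := hweb P Q hPQ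
  -- heights of the web, of the connectors
  have hwh : ∀ x, (WA (x - g0) ∨ WB (x - g0)) → T + 208 * D ≤ D * ip x d := by
    intro x hx
    have h1 : 8 * ip U d ≤ ip (x - g0) d + 10 := hx.elim (hwa.hgt _) (hwb.hgt _)
    have h2 := mul_le_mul_of_nonneg_left h1 hD.le
    rw [ip_sub_left, mul_add, mul_sub, ← hG] at h2
    linarith
  have hAh : ∀ x, RC g0 g0 dt sA pA (pA + δa) x → D * ip x d ≤ T + 184 * D := by
    intro x hx
    have h1 := rc_ht hRA hd hx
    have h2 : D * ip x d ≤ D * (ip g0 d + 183) := mul_le_mul_of_nonneg_left (by linarith) hD.le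
    rw [mul_add, ← hG] at h2
    linarith
  have hBh : ∀ x, RC g0 0 (-up) sB pB (pB + δb) x → D * ip x d ≤ T + 184 * D := by
    intro x hx
    have h1 := rc_ht hRB hd hx
    have e0 : ip (0 : Pt) d = 0 := by simp [ip]
    rw [e0] at h1
    have h2 : D * ip x d ≤ D * 183 := mul_le_mul_of_nonneg_left (by linarith) hD.le
    linarith
  have cmp : ∀ {x y : Pt}, D * ip x d ≤ T + 184 * D → T + 208 * D ≤ D * ip y d → ip x d + 3 ≤ ip y d := by
    intro x y h1 h2
    by_contra hc
    have h3 : D * ip y d ≤ D * (ip x d + 2) := mul_le_mul_of_nonneg_left (by omega) hD.le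
    linarith
  obtain ⟨AA, hAA⟩ : ∃ AA : Pt → Prop, AA = fun x => RC g0 g0 dt sA pA (pA + δa) x ∨ x - g0 ∈ SN A ∨ WA (x - g0) := ⟨_, rfl⟩
  obtain ⟨BB, hBB⟩ : ∃ BB : Pt → Prop, BB = fun x => RC g0 0 (-up) sB pB (pB + δb) x ∨ x - g0 ∈ SN B ∨ WB (x - g0) := ⟨_, rfl⟩
  have es2 : ip s' d = ip s d := by
    have h1 := ip_e hd he
    have h2 : ip d d = 2 := ip_self_dir hd
    rw [hes, ip_sub_left, ip_add_left, ip_add_left, h1, h2]
    ring
  have hsh : T + 208 * D ≤ D * ip (g0 + s) d := hwh _ (Or.inl (by rw [add_sub_cancel_left]; exact hwa.Ws))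
  have hsh' : T + 208 * D ≤ D * ip (g0 + s') d := hwh _ (Or.inr (by rw [add_sub_cancel_left]; exact hwb.Ws))
  have hcap : CapH AA BB (g0 + s) (g0 + s') d e := by
    refine ⟨hd, he, ?_, ?_, ?_, ?_, ?_, ?_⟩
    · rw [hes]
      abel
    · rw [hAA]
      exact Or.inr (Or.inr (by rw [add_sub_cancel_left]; exact hwa.Ws))
    · rw [hBB]
      exact Or.inr (Or.inr (by rw [add_sub_cancel_left]; exact hwb.Ws))
    · intro x y hx hy
      rw [hAA] at hx
      rw [hBB] at hy
      rcases hx with hx | hx | hx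
      · rcases hy with hy | hy | hy
        · exact rc_rc_far hD hκ.le hg htt hRA hRB a2 b2 hx hy
        · have := rc_far_list hRA hAB.chB hAB.inB hpAB hx hy
          rwa [add_sub_cancel] at this
        · exact far_ht hd (cmp (hAh x hx) (hwh y (Or.inr hy)))
      · rcases hy with hy | hy | hy
        · have := rc_far_list hRB hAB.chA hAB.inA hpBA hy hx
          rw [add_sub_cancel] at this
          exact far_symm this
        · exact far_tr (sn_sn_far hAB.chA hAB.chB hAB.dis hx hy)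
        · exact far_tr (far_symm (web_far hwb hUh hAB.chA hAB.inA hQA hy hx))
      · rcases hy with hy | hy | hy
        · exact far_symm (far_ht hd (cmp (hBh y hy) (hwh x (Or.inl hx))))
        · exact far_tr (web_far hwa hUh hAB.chB hAB.inB hPB hx hy)
        · exact far_tr (hwf _ _ hx hy)
    · intro x hx hne
      rw [hAA] at hx
      rcases hx with hx | hx | hx
      · have := cmp (hAh x hx) hsh
        omega
      · have h1 := sn_low hwa hUh hAB.chA hAB.inA hx
        rw [ip_sub_left] at h1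
        rw [ip_add_left]
        omega
      · have h1 := hwa.low _ hx (fun hc => hne (by rw [← hc]; abel))
        rw [ip_sub_left] at h1
        rw [ip_add_left]
        omega
    · intro x hx hne
      rw [hBB] at hx
      rcases hx with hx | hx | hx
      · have := cmp (hBh x hx) hsh'
        omega
      · have h1 := sn_low hwb hUh hAB.chB hAB.inB hx
        rw [ip_sub_left] at h1
        rw [ip_add_left]
        omega
      · have h1 := hwb.low _ hx (fun hc => hne (by rw [← hc]; abel))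
        rw [ip_sub_left] at h1
        rw [ip_add_left]
        omega
  -- the clearance
  have hclh : ∀ x : Pt, T + 4 * D ≤ D * ip x d → Clr V g0 dt D x := by
    intro x hx
    refine Or.inr (Or.inr (Or.inr (Or.inr ⟨?_, fun q hq => ?_⟩)))
    · have := ip_le_hn (D • x) hd
      rw [ip_smul_left] at this
      linarith
    · have h1 := neg_hn_le_ip (q - D • x) hd
      rw [ip_sub_left, ip_smul_left] at h1
      have h2 := hT1 q hq
      linarith
  have hclA : ∀ x, AA x → Clr V g0 dt D x := by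
    intro x hx
    rw [hAA] at hx
    rcases hx with hx | hx | hx
    · rcases clearA hD hκ.le hdt h0 hg hV1 htt hρ1 hS hRA a2 hx with h | h | h
      · exact Or.inl h
      · exact Or.inr (Or.inl h)
      · exact Or.inr (Or.inr (Or.inr (Or.inr h)))
    · have := sn_clear hD hκ.le hg h0 hS (snd_list hAB.chA hAB.inA hx)
      rw [add_sub_cancel] at this
      exact Or.inr (Or.inr (Or.inr (Or.inr this)))
    · exact hclh x (by have := hwh x (Or.inl hx); linarith)
  have hclB : ∀ x, BB x → Clr V g0 dt D x := by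
    intro x hx
    rw [hBB] at hx
    rcases hx with hx | hx | hx
    · rcases clearB hD hκ.le h0 hg hV2 hρ1 hS hRB b2 hx with h | h | h
      · exact Or.inr (Or.inr (Or.inl h))
      · exact Or.inr (Or.inr (Or.inr (Or.inl h)))
      · exact Or.inr (Or.inr (Or.inr (Or.inr h)))
    · have := sn_clear hD hκ.le hg h0 hS (snd_list hAB.chB hAB.inB hx)
      rw [add_sub_cancel] at this
      exact Or.inr (Or.inr (Or.inr (Or.inr this)))
    · exact hclh x (by have := hwh x (Or.inr hx); linarith)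
  have hend : EndH AA BB g0 dt (g0 + s) (g0 + s') d := by
    have hu := (ip_dir_le (neg_mem_dirs upd') hd).2
    refine ⟨?_, ?_, ?_, ?_, ?_, ?_, ?_, ?_⟩
    · rw [hAA]
      exact Or.inl (rc_b hRA)
    · rw [hBB]
      exact Or.inl (rc_b hRB)
    · have := cmp (hAh g0 (rc_b hRA)) hsh
      omega
    · by_contra hc
      have : D * ip (g0 + s) d ≤ D * 0 := mul_le_mul_of_nonneg_left (by omega) hD.le
      linarith
    · by_contra hc
      have : D * ip (g0 + s) d ≤ D * 2 := mul_le_mul_of_nonneg_left (by omega) hD.le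
      linarith
    · intro x hx h
      exact clr_n1 hD hκ ht hg htt (hx.elim (hclA x) (hclB x)) h
    · intro x hx h
      exact clr_n2 hD hκ hdt hg htt (hx.elim (hclA x) (hclB x)) h
    · intro x hx h
      exact clr_n3 hD hκ hdt hg htt (hx.elim (hclA x) (hclB x)) h
  -- the lanes are connected
  have hwA : Relation.ReflTransGen (Sp AA) g0 (g0 + s) := by
    have c1 : Relation.ReflTransGen (Sp AA) g0 (g0 + ctr pA) := rtg_mono (fun x hx => by rw [hAA]; exact Or.inl hx) (rc_conn hRA)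
    have c2 : Relation.ReflTransGen (Sp AA) (g0 + ctr pA) (g0 + ctr P) := rtg_tr g0 (fun x hx => by
      rw [hAA]
      exact Or.inr (Or.inl (by rw [add_sub_cancel_left]; exact hx))) (sn_conn A pA P hAB.chA hpA hP)
    have c3 : Relation.ReflTransGen (Sp AA) (g0 + ctr P) (g0 + s) := rtg_tr g0 (fun x hx => by
      rw [hAA]
      exact Or.inr (Or.inr (by rw [add_sub_cancel_left]; exact hx))) hwa.conn
    exact (c1.trans c2).trans c3
  have hwB : Relation.ReflTransGen (Sp BB) (g0 + s') 0 := by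
    have c1 : Relation.ReflTransGen (Sp BB) 0 (g0 + ctr pB) := rtg_mono (fun x hx => by rw [hBB]; exact Or.inl hx) (rc_conn hRB)
    have c2 : Relation.ReflTransGen (Sp BB) (g0 + ctr pB) (g0 + ctr Q) := rtg_tr g0 (fun x hx => by
      rw [hBB]
      exact Or.inr (Or.inl (by rw [add_sub_cancel_left]; exact hx))) (sn_conn B pB Q hAB.chB hpB hQ)
    have c3 : Relation.ReflTransGen (Sp BB) (g0 + ctr Q) (g0 + s') := rtg_tr g0 (fun x hx => by
      rw [hBB]
      exact Or.inr (Or.inr (by rw [add_sub_cancel_left]; exact hx))) hwb.conn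
    exact sp_symm ((c1.trans c2).trans c3) hend.B0
  -- the box
  obtain ⟨RB, hBx⟩ : ∃ RB : ℤ, RB = 8 * R + 9 * N0 + 8 * K + 240 + N := ⟨_, rfl⟩
  obtain ⟨dc1, dc2⟩ := dir_coord d hd
  have hed : e ∈ dirs := by
    rcases he with h | h
    · rw [h]
      exact rotL_mem hd
    · rw [h]
      exact rotR_mem hd
  obtain ⟨ec1, ec2⟩ := dir_coord e hed
  have bS : ∀ g ∈ S, |g.1| ≤ R + N0 + K + 20 ∧ |g.2| ≤ R + N0 + K + 20 := fun g hg => by
    have := (s2 g hg).1
    rwa [nr_zero] at this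
  have bU := bS U hUS
  have bRC : ∀ {b x : Pt}, |b.1| ≤ N0 → |b.2| ≤ N0 → nr 61 b x → |x.1| ≤ N0 + 61 ∧ |x.2| ≤ N0 + 61 := by
    intro b x h1 h2 h3
    rw [nr_iff] at h3
    rw [abs_le] at h1 h2
    rw [abs_le, abs_le]
    omega
  have bSN : ∀ x : Pt, c8 (x - g0) ∈ S → nr (RB - N - 4) 0 x := by
    intro x hx
    obtain ⟨h1, h2⟩ := bS _ hx
    unfold c8 at h1 h2
    rw [abs_le] at h1 h2 hN1 hN2
    rw [nr_zero, abs_le, abs_le, hBx]
    simp only [Prod.fst_sub, Prod.snd_sub] at h1 h2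
    omega
  have bW : ∀ x : Pt, (WA (x - g0) ∨ WB (x - g0)) → nr (RB - N - 4) 0 x := by
    intro x hx
    obtain ⟨h1, h2⟩ : |(x - g0).1 - 8 * U.1| ≤ 12 ∧ |(x - g0).2 - 8 * U.2| ≤ 12 := hx.elim (hwa.box _) (hwb.box _)
    obtain ⟨h3, h4⟩ := bU
    rw [abs_le] at h1 h2 h3 h4 hN1 hN2
    rw [nr_zero, abs_le, abs_le, hBx]
    simp only [Prod.fst_sub, Prod.snd_sub] at h1 h2
    omega
  have bC : ∀ (x y : Pt) (i : ℕ), (WA (x - g0) ∨ WB (x - g0)) → i ≤ N + 1 → (y = x + (i : ℤ) • d ∨ y = x + (i : ℤ) • d + e) →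
      nr RB 0 y := by
    intro x y i hx hi hy
    have h1 := bW x hx
    rw [nr_zero] at h1
    have hi' : (i : ℤ) ≤ N + 1 := by exact_mod_cast hi
    have k1 : |(i : ℤ) * d.1| ≤ N + 1 ∧ |(i : ℤ) * d.2| ≤ N + 1 := by
      rw [abs_mul, abs_mul, Nat.abs_cast]
      constructor <;> nlinarith [abs_nonneg d.1, abs_nonneg d.2, Int.natCast_nonneg i]
    rw [abs_le] at ec1 ec2
    rw [abs_le, abs_le] at k1 h1
    rw [nr_zero, abs_le, abs_le]
    rcases hy with rfl | rfl <;>
    · simp only [Prod.fst_add, Prod.snd_add, Prod.smul_fst, Prod.smul_snd, smul_eq_mul]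
      omega
  have hNd : ∀ x, Nd AA BB (g0 + s) (g0 + s') d e (N + 1) x → nr RB 0 x := by
    have z1 : |(0 : Pt).1| ≤ N0 ∧ |(0 : Pt).2| ≤ N0 := by simpa using hN0
    rintro x ((hx | ⟨i, hi, hx⟩) | hx | (hx | ⟨i, hi, hx⟩))
    · rw [hAA] at hx
      rcases hx with hx | hx | hx
      · obtain ⟨h2, h3⟩ := bRC hN1 hN2 (nr_mono (by linarith) (rc_box hRA hx))
        rw [nr_zero]
        constructor <;> linarith
      · exact nr_mono (by linarith) (bSN x (sn_cell (snd_list hAB.chA hAB.inA hx)))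
      · exact nr_mono (by linarith) (bW x (Or.inl hx))
    · exact bC (g0 + s) x i (Or.inl (by rw [add_sub_cancel_left]; exact hwa.Ws)) hi (Or.inl hx)
    · exact bC (g0 + s) x (N + 1) (Or.inl (by rw [add_sub_cancel_left]; exact hwa.Ws)) le_rfl (Or.inr hx)
    · rw [hBB] at hx
      rcases hx with hx | hx | hx
      · obtain ⟨h2, h3⟩ := bRC z1.1 z1.2 (nr_mono (by linarith) (rc_box hRB hx))
        rw [nr_zero]
        constructor <;> linarith
      · exact nr_mono (by linarith) (bSN x (sn_cell (snd_list hAB.chB hAB.inB hx)))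
      · exact nr_mono (by linarith) (bW x (Or.inr hx))
    · exact bC (g0 + s') x i (Or.inr (by rw [add_sub_cancel_left]; exact hwb.Ws)) hi (Or.inl hx)
  obtain ⟨m, f, i1, m1, f0, fm, f1, fl, fl2, hdir, hturn, hind, j1, j2, j3, j4, j5, j6⟩ :=
    cap_path hcap hend (by omega) hwA hwB hNd
  have hdd : ip d d = 2 := ip_self_dir hd
  have hed1 := ip_e hd he
  have hcol : ∀ x k : ℕ, ∀ y : Pt, T + 208 * D ≤ D * ip y d → T + 4 * D ≤ D * ip (y + (k : ℤ) • d) d := by
    intro x k y hy
    rw [ip_add_left, ip_smul_left, hdd, mul_add]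
    have : 0 ≤ D * ((k : ℤ) * 2) := by positivity
    linarith
  have hcl : ∀ i, i ≤ m → Clr V g0 dt D (f i) := by
    intro i hi
    rcases Nat.lt_or_ge (i + 1 + (N + 1)) i1 with h | h
    · exact hclA _ ((j6 i hi).1 h)
    rcases Nat.lt_or_ge (i1 + 1 + (N + 1)) i with h' | h'
    · exact hclB _ ((j6 i hi).2 h')
    rcases Nat.lt_trichotomy i i1 with h2 | h2 | h2
    · have h3 := j3 (i1 - 1 - i) (by omega)
      rw [show i1 - 1 - (i1 - 1 - i) = i by omega] at h3
      rw [h3]
      exact hclh _ (hcol 0 _ _ hsh)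
    · rw [h2, j4]
      refine hclh _ ?_
      have h4 := hcol 0 (N + 1) _ hsh
      rw [ip_add_left _ e, mul_add, hed1]
      linarith
    · have h3 := j5 (i - i1 - 1) (by omega)
      rw [show i1 + 1 + (i - i1 - 1) = i by omega] at h3
      rw [h3]
      exact hclh _ (hcol 0 _ _ hsh')
  have n0 : nrm (0 : Pt) = 0 := by decide
  have z0 : (0 : Pt) ∉ dirs := by decide
  have hA3 : ∀ i, 2 ≤ i → i + 2 ≤ m → ∀ p ∈ V, 3 * D ≤ hn (p - D • f i) := by
    intro i h2 h3 p hp
    rcases hcl i (by omega) with h | h | h | h | h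
    · exfalso
      have := hind 0 i (by omega) (by omega)
      rw [h, f0, sub_self, n0] at this
      omega
    · exfalso
      rcases Nat.eq_or_lt_of_le h2 with h4 | h4
      · have := hdir 1 (by omega)
        rw [show 1 + 1 = i by omega, h, f1, sub_self] at this
        exact z0 this
      · have := hind 1 i (by omega) (by omega)
        rw [h, f1, sub_self, n0] at this
        omega
    · exfalso
      have := hind i m (by omega) le_rfl
      rw [h, fm, sub_self, n0] at this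
      omega
    · exfalso
      rcases Nat.eq_or_lt_of_le h3 with h4 | h4
      · have := hdir i (by omega)
        rw [show i + 1 = m - 1 by omega, h, fl, sub_self] at this
        exact z0 this
      · have := hind i (m - 1) (by omega) (by omega)
        rw [h, fl, sub_self, n0] at this
        omega
    · exact h.2 p hp
  have col1 : ∀ i, i ≤ N → f (i1 - 1 - N + i) = (g0 + s) + ((i + 1 : ℕ) : ℤ) • d := by
    intro i hi
    have h3 := j3 (N - i) (by omega)
    rw [show i1 - 1 - (N - i) = i1 - 1 - N + i by omega, show N + 1 - (N - i) = i + 1 by omega] at h3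
    exact h3
  have col2 : ∀ i, i ≤ N → f (i1 - 1 - N + N + 2 + i) = (g0 + s') + ((N + 1 - i : ℕ) : ℤ) • d := by
    intro i hi
    have h3 := j5 i (by omega)
    rw [show i1 + 1 + i = i1 - 1 - N + N + 2 + i by omega] at h3
    exact h3
  have cap1 : f (i1 - 1 - N + N + 1) = f (i1 - 1 - N + N) + e := by
    rw [show i1 - 1 - N + N + 1 = i1 by omega, j4, col1 N le_rfl]
  have cap2 : f (i1 - 1 - N + N + 2) = f (i1 - 1 - N + N + 1) + (e - d) := by
    have h1 := col2 0 (Nat.zero_le _)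
    rw [Nat.add_zero, Nat.sub_zero] at h1
    rw [h1, cap1, col1 N le_rfl, hes]
    abel
  have hfoot : ip (f (i1 - 1 - N)) d = ip (g0 + s) d + 2 := by
    have h1 := col1 0 (Nat.zero_le _)
    rw [Nat.add_zero] at h1
    rw [h1, ip_add_left, ip_smul_left, hdd]
    push_cast
    ring
  have hss : ip (g0 + s') d = ip (g0 + s) d := by
    rw [ip_add_left, ip_add_left, es2]
  refine ⟨m, i1 - 1 - N, f, ?_, by omega, by omega, f0, fm, f1, fl, fl2, hdir, hturn, hind,
    seg_clear hD hκ0 hκ hdt hg hV1 hV2 (by linarith) f1 fl hdir hA3, ?_, ?_, ?_, ?_, ?_⟩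
  · refine m1.trans (Nat.pow_le_pow_left (Int.toNat_le_toNat ?_) 2)
    have k1 : (0 : ℤ) ≤ N * (R + N0 + K) := by positivity
    rw [hBx]
    push_cast
    nlinarith
  · intro i hi
    have h1 := col1 (i + 1) (by omega)
    rw [← Nat.add_assoc] at h1
    rw [h1, col1 i (by omega)]
    push_cast
    rw [add_smul _ 1 d, one_smul]
    abel
  · rcases he with h | h
    · right
      rw [cap1, cap2, (rot_rot hd).2, h, cap1, h]
      exact ⟨rfl, rfl⟩
    · left
      rw [cap1, cap2, (rot_rot hd).1, h, cap1, h]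
      exact ⟨rfl, rfl⟩
  · intro i hi
    have h1 := col2 (i + 1) (by omega)
    rw [← Nat.add_assoc] at h1
    rw [h1, col2 i (by omega), show N + 1 - i = (N + 1 - (i + 1)) + 1 by omega]
    push_cast
    rw [add_smul _ 1 d, one_smul]
    abel
  · intro p hp
    have h1 := hT1 p hp
    rw [hfoot, mul_add]
    linarith
  · intro i hi hcase
    rw [hfoot]
    rcases hcase with h | h
    · rcases Nat.lt_or_ge (i + 1 + (N + 1)) i1 with h2 | h2
      · have h3 := (j6 i hi).1 h2
        by_cases h4 : f i = g0 + s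
        · rw [h4]
          omega
        · have := hcap.Al _ h3 h4
          omega
      · have h3 := j3 (N + 1) le_rfl
        rw [show i1 - 1 - (N + 1) = i by omega, Nat.sub_self, Nat.cast_zero, zero_smul, add_zero] at h3
        rw [h3]
        omega
    · rcases Nat.lt_or_ge (i1 + 1 + (N + 1)) i with h2 | h2
      · have h3 := (j6 i hi).2 h2
        by_cases h4 : f i = g0 + s'
        · rw [h4, hss]
          omega
        · have := hcap.Bl _ h3 h4
          rw [hss] at this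
          omega
      · have h3 := j5 (N + 1) le_rfl
        rw [show i1 + 1 + (N + 1) = i by omega, Nat.sub_self, Nat.cast_zero, zero_smul, add_zero] at h3
        rw [h3, hss]
        omega

end ART

end HexObs
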