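import Pool.Agent.ART.PathTD

/-!
# ART, row G1: the walk and a stack of 20 cells over its highest cell
-/

set_option autoImplicit false

namespace HexObs

namespace ART

open Finset TS SDN TIW ARM Lane

/-- heights inside of a cell -/
lemma ip_cell {D : ℤ} (hD : 0 < D) {d : Pt} (hd : d ∈ dirs) (v : Pt) :
    -(24 * D) < ip v d - 8 * D * ip (ce (8 * D) v) d ∧ ip v d - 8 * D * ip (ce (8 * D) v) d < 24 * D := by
  have hD8 : 0 < 8 * D := by linarith
  obtain ⟨⟨b1, b2⟩, b3, b4⟩ := ce_spec hD8 v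
  generalize ce (8 * D) v = c at *
  simp only [dirs, Finset.mem_insert, Finset.mem_singleton] at hd
  unfold ip
  rcases hd with rfl | rfl | rfl | rfl | rfl | rfl <;> constructor <;> simp only <;> nlinarith

/-- the difference of heights of two cells -/
lemma ip_cells {D : ℤ} (hD : 0 < D) {d : Pt} (hd : d ∈ dirs) {v v' : Pt} (h : ip v d + 100 * D ≤ ip v' d) :
    ip (ce (8 * D) v) d + 10 ≤ ip (ce (8 * D) v') d := by
  have hD8 : 0 < 8 * D := by linarith
  obtain ⟨⟨b1, b2⟩, b3, b4⟩ := ce_spec hD8 v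
  obtain ⟨⟨c1, c2⟩, c3, c4⟩ := ce_spec hD8 v'
  have key : 76 * D < 8 * D * (ip (ce (8 * D) v') d - ip (ce (8 * D) v) d) := by
    generalize ce (8 * D) v = c at *
    generalize ce (8 * D) v' = c' at *
    simp only [dirs, Finset.mem_insert, Finset.mem_singleton] at hd
    unfold ip at *
    rcases hd with rfl | rfl | rfl | rfl | rfl | rfl <;> simp only at * <;> nlinarith
  by_contra hc
  have h1 : ip (ce (8 * D) v') d - ip (ce (8 * D) v) d ≤ 9 := by omega
  have := mul_le_mul_of_nonneg_left h1 hD8.le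
  linarith

/-- **piece T of PathTSt** -/
theorem topStackSt : TopStackSt := by
  classical
  intro V t d zU D R T n w hD hd hV hz hw hgood hwn
  -- the highest cell
  obtain ⟨iu, hiu, hmax⟩ : ∃ iu, iu ≤ n ∧ ∀ i, i ≤ n → ip (w i) d ≤ ip (w iu) d := by
    obtain ⟨iu, h1, h2⟩ := (range (n + 1)).exists_max_image (fun i => ip (w i) d) ⟨0, by simp⟩
    rw [mem_range] at h1
    exact ⟨iu, by omega, fun i hi => h2 i (mem_range.2 (by omega))⟩
  obtain ⟨u, hu⟩ : ∃ u, u = w iu := ⟨_, rfl⟩
  obtain ⟨δ, hδ⟩ : ∃ δ, δ = Web.dl d := ⟨_, rfl⟩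
  have hδ4 : δ ∈ D4 := by rw [hδ]; exact Web.dl_mem d hd
  have hδu : 0 < ip δ d := by rw [hδ]; exact Web.dl_up d hd
  rw [← hδ]
  rw [← hu] at hmax
  have hst : ∀ k : ℤ, ip (u + k • δ) d = ip u d + k * ip δ d := fun k => by rw [ip_add_left, ip_smul_left]
  -- the walk
  obtain ⟨v, hv⟩ : ∃ v : ℕ → ℤ × ℤ, v = fun i : ℕ => if i ≤ 20 then u + ((20 : ℤ) - (i : ℤ)) • δ else
      if i ≤ 20 + iu then w (iu - (i - 20)) else w (i - 20 - iu) := ⟨_, rfl⟩
  have v1 : ∀ i : ℕ, i ≤ 20 → v i = u + ((20 : ℤ) - (i : ℤ)) • δ := fun i hi => by rw [hv]; simp only; rw [if_pos hi]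
  have v2 : ∀ i, 20 ≤ i → i ≤ 20 + iu → v i = w (iu - (i - 20)) := by
    intro i h1 h2
    rcases Nat.eq_or_lt_of_le h1 with h | h
    · rw [v1 i (by omega), ← h]
      simp [hu]
    · rw [hv]
      simp only
      rw [if_neg (by omega), if_pos h2]
  have v3 : ∀ i, 20 + iu ≤ i → v i = w (i - 20 - iu) := by
    intro i h1
    rcases Nat.eq_or_lt_of_le h1 with h | h
    · rw [v2 i (by omega) (by omega), ← h]
      congr 1
      omega
    · rw [hv]
      simp only
      rw [if_neg (by omega), if_neg (by omega)]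
  have hrange : ∀ i, i ≤ 20 + iu + n → (∃ k : ℤ, 0 ≤ k ∧ k ≤ 20 ∧ v i = u + k • δ) ∨ ∃ k, k ≤ n ∧ v i = w k := by
    intro i hi
    rcases Nat.lt_or_ge i 20 with h | h
    · exact Or.inl ⟨(20 : ℤ) - i, by omega, by omega, v1 i h.le⟩
    · right
      rcases Nat.lt_or_ge i (20 + iu) with h2 | h2
      · exact ⟨iu - (i - 20), by omega, v2 i h h2.le⟩
      · exact ⟨i - 20 - iu, by omega, v3 i h2⟩
  have hht : ∀ i, i ≤ 20 + iu + n → ip (v i) d ≤ ip u d + 20 * ip δ d := by
    intro i hi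
    rcases hrange i hi with ⟨k, k0, k1, hk⟩ | ⟨k, hk0, hk⟩
    · rw [hk, hst]
      have := mul_le_mul_of_nonneg_right k1 hδu.le
      linarith
    · rw [hk]
      have := hmax k hk0
      linarith
  have hU : ip (u + (20 : ℤ) • δ) d = ip u d + 20 * ip δ d := hst 20
  obtain ⟨l, hl⟩ := ham_walk (u := u + (20 : ℤ) • δ) (δ0 := δ) hδ4 (w := v) (by
      rw [v1 0 (by omega)]
      simp) (n := 20 + iu + n) (by
      intro i hi
      rcases Nat.lt_or_ge i 20 with h | h
      · rw [v1 i h.le, v1 (i + 1) (by omega), adj_sub]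
        have e1 : u + ((20 : ℤ) - ((i + 1 : ℕ) : ℤ)) • δ - (u + ((20 : ℤ) - i) • δ) = -δ := by
          push_cast
          rw [show (20 : ℤ) - (i + 1) = (20 - i) - 1 by ring, sub_smul _ (1 : ℤ), one_smul]
          abel
        rw [e1]
        rw [mem_D4] at hδ4 ⊢
        rcases hδ4 with h | h | h | h <;> rw [h] <;> decide
      · rcases Nat.lt_or_ge i (20 + iu) with h2 | h2
        · rw [v2 i h h2.le, v2 (i + 1) (by omega) (by omega)]
          obtain ⟨m, hm1, hm2⟩ : ∃ m, iu - (i - 20) = m + 1 ∧ iu - (i + 1 - 20) = m := ⟨iu - (i + 1 - 20), by omega, rfl⟩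
          rw [hm1, hm2]
          exact adj_comm (hw m (by omega))
        · rw [v3 i h2, v3 (i + 1) (by omega), show i + 1 - 20 - iu = i - 20 - iu + 1 by omega]
          exact hw _ (by omega)) (by
      intro i hi hc
      have h1 := hht i hi
      rw [hc, ip_add_left, hU] at h1
      linarith)
  have hmem : ∀ g, g ∈ (range (20 + iu + n + 1)).image v ↔ ∃ i, i ≤ 20 + iu + n ∧ v i = g := by
    intro g
    rw [mem_image]
    constructor
    · rintro ⟨i, hi, h⟩
      rw [mem_range] at hi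
      exact ⟨i, by omega, h⟩
    · rintro ⟨i, hi, h⟩
      exact ⟨i, mem_range.2 (by omega), h⟩
  -- heights of the cells of V
  have hcell : ∀ p ∈ V, ip (ce (8 * D) (p - t)) d + 10 ≤ ip u d := by
    intro p hp
    have h1 := ip_cells hD hd (v := p - t) (v' := zU) (by
      have h2 := hV p hp
      rw [ip_add_left] at hz
      rw [ip_sub_left]
      linarith)
    rw [← hwn] at h1
    exact h1.trans (hmax n le_rfl)
  refine ⟨_, u + (20 : ℤ) • δ, l, hl, ?_, ?_, ?_, ?_, ?_⟩
  · rw [hmem]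
    exact ⟨0, by omega, by rw [v1 0 (by omega)]; simp⟩
  · intro c hc
    rw [hmem] at hc
    obtain ⟨i, hi, rfl⟩ := hc
    rw [hU]
    exact hht i hi
  · intro i hi
    rw [hmem]
    refine ⟨20 + iu + i, by omega, ?_⟩
    rw [v3 _ (by omega)]
    congr 1
    omega
  · intro g hg
    rw [hmem] at hg
    obtain ⟨i, hi, rfl⟩ := hg
    rcases hrange i hi with ⟨k, k0, k1, hk⟩ | ⟨k, hk0, hk⟩
    · rw [hk]
      constructor
      · have h1 := (hgood iu hiu).1
        rw [← hu, nr_iff] at h1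
        rw [nr_iff]
        rw [mem_D4] at hδ4
        simp only [Prod.fst_zero, Prod.snd_zero] at h1 ⊢
        rcases hδ4 with h | h | h | h <;> rw [h] <;>
        · simp only [Prod.fst_add, Prod.snd_add, Prod.smul_fst, Prod.smul_snd, smul_eq_mul, mul_one, mul_zero, mul_neg]
          omega
      · intro p hp hc
        have h1 := hcell p hp
        have h2 := hn_of_nr hc
        have h3 := ip_le_hn (u + k • δ - ce (8 * D) (p - t)) hd
        rw [ip_sub_left, hst] at h3
        have := mul_nonneg k0 hδu.le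
        linarith
    · rw [hk]
      exact ⟨nr_mono (by linarith) (hgood k hk0).1, (hgood k hk0).2⟩
  · have h1 := ip_cell hD hd zU
    have h2 := mul_le_mul_of_nonneg_left (hmax n le_rfl) (show 0 ≤ 8 * D by linarith)
    rw [hwn] at h2
    rw [ip_add_left] at hz
    rw [hU]
    have h3 : 8 * D * 20 ≤ 8 * D * (20 * ip δ d) := mul_le_mul_of_nonneg_left (by linarith) (by linarith)
    linarith [h1.2]

end ART

end HexObs
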