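import Pool.Agent.ART.PathTF
import Pool.Agent.ART.TopStack
import Pool.Agent.ART.JoinRT

/-!
# ART, row G1 (helper90): `pathTSt`, `joinTc`, `joinT`, without hypotheses
-/

set_option autoImplicit false

namespace HexObs

namespace ART

/-- **G1: PathTSt** (helper90's `pathTSt_of`, helper64's `topStackSt`) -/
theorem pathTSt : PathTSt := pathTSt_of topStackSt

/-- **G1: JoinTc** (helper39's `joinTc_of`) -/
theorem joinTc : JoinTc := joinTc_of pathTSt

/-- **G1: JoinT** (helper39's `joinT_of_c`, literal of helper87) -/
theorem joinT : JoinT := joinT_of_c joinTc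

end ART

end HexObs
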