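import Pool.Agent.ART.PathT
import Pool.Agent.ART.JoinDefs

/-!
# Rays: from the coarse cells to the two tips (row G1, piece J3)

Nodes `n : Pt` of the lattice of mesh `D`, seen from the tip `t` (absolute node `g0 + n`); coarse cells of size `8 D`
(`c8 n = (n.1 / 8, n.2 / 8)`), subcells of size `4 D` with centre `ctr p = 4 p + (2, 2)`.

* `SNd S n`: n is on the segment between the centres of two equal or adjacent subcells of cells of `S`; **`sn_near`**: all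
  nodes near such a node are in cells of `S`; `edge_far`: segments without a common end are far apart;
* `RC`: the connector = ray from the tip up to the first cell of `S`, the block in front of this cell, a segment;
  `rc_conn`, `rc_far_list`, `rc_rc_far`, `clearA`, `clearB`, `sn_clear`, `rc_ht`, `rc_box`;
* **`rays_walk`**: one walk of good cells through the cells near the two tips; **`rays_tips`**: the two free sides;
* `clr_n1`, `clr_n2`, `clr_n3`: neighbours of the two ends.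
-/

set_option autoImplicit false

namespace HexObs

namespace ART

open Finset TS SDN TIW ARM Lane

/-! ### nodes, cells, subcells -/

/-- the node number i of the segment between the centres of p and q -/
def sg (p q : ℤ × ℤ) (i : ℤ) : Pt := (4 * p.1 + 2 + i * (q.1 - p.1), 4 * p.2 + 2 + i * (q.2 - p.2))

/-- n is on a segment between the centres of two equal or adjacent subcells of cells of S -/
def SNd (S : Finset (ℤ × ℤ)) (n : Pt) : Prop :=
  ∃ p q : ℤ × ℤ, bl p ∈ S ∧ bl q ∈ S ∧ (q = p ∨ adj p q) ∧ ∃ i : ℤ, 0 ≤ i ∧ i ≤ 4 ∧ n = sg p q i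

lemma sg_zero (p q : ℤ × ℤ) : sg p q 0 = ctr p := by
  simp [sg, ctr]

lemma sg_four (p q : ℤ × ℤ) : sg p q 4 = ctr q := by
  unfold sg ctr
  refine Prod.ext ?_ ?_ <;> simp only <;> ring

lemma adj_iff {f g : ℤ × ℤ} : adj f g ↔ (g.1 = f.1 + 1 ∧ g.2 = f.2) ∨ (g.1 = f.1 - 1 ∧ g.2 = f.2) ∨
    (g.1 = f.1 ∧ g.2 = f.2 + 1) ∨ (g.1 = f.1 ∧ g.2 = f.2 - 1) := by
  unfold adj
  simp only [Prod.ext_iff, Prod.fst_add, Prod.snd_add, Prod.fst_sub, Prod.snd_sub, add_zero, sub_zero]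

lemma adj_comm' {f g : ℤ × ℤ} (h : adj f g) : adj g f := by
  rw [adj_iff] at *
  omega

/-- the step of a segment -/
lemma seg_cases {p q : ℤ × ℤ} (h : q = p ∨ adj p q) {i : ℤ} :
    (q.1 = p.1 ∧ q.2 = p.2 ∧ (sg p q i).1 = 4 * p.1 + 2 ∧ (sg p q i).2 = 4 * p.2 + 2) ∨
    (q.1 = p.1 + 1 ∧ q.2 = p.2 ∧ (sg p q i).1 = 4 * p.1 + 2 + i ∧ (sg p q i).2 = 4 * p.2 + 2) ∨
    (q.1 = p.1 - 1 ∧ q.2 = p.2 ∧ (sg p q i).1 = 4 * p.1 + 2 - i ∧ (sg p q i).2 = 4 * p.2 + 2) ∨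
    (q.1 = p.1 ∧ q.2 = p.2 + 1 ∧ (sg p q i).1 = 4 * p.1 + 2 ∧ (sg p q i).2 = 4 * p.2 + 2 + i) ∨
    (q.1 = p.1 ∧ q.2 = p.2 - 1 ∧ (sg p q i).1 = 4 * p.1 + 2 ∧ (sg p q i).2 = 4 * p.2 + 2 - i) := by
  rw [adj_iff, Prod.ext_iff] at h
  unfold sg
  simp only
  rcases h with ⟨h1, h2⟩ | ⟨h1, h2⟩ | ⟨h1, h2⟩ | ⟨h1, h2⟩ | ⟨h1, h2⟩ <;> rw [h1, h2]
  · left; refine ⟨rfl, rfl, ?_, ?_⟩ <;> ring
  · right; left; refine ⟨rfl, rfl, ?_, ?_⟩ <;> ring
  · right; right; left; refine ⟨rfl, rfl, ?_, ?_⟩ <;> ring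
  · right; right; right; left; refine ⟨rfl, rfl, ?_, ?_⟩ <;> ring
  · right; right; right; right; refine ⟨rfl, rfl, ?_, ?_⟩ <;> ring

/-- **all nodes near a strand node are in cells of S** -/
theorem sn_near {S : Finset (ℤ × ℤ)} {n m : Pt} (h : SNd S n) (h1 : |m.1 - n.1| ≤ 1) (h2 : |m.2 - n.2| ≤ 1) : c8 m ∈ S := by
  obtain ⟨p, q, hp, hq, hpq, i, hi0, hi4, rfl⟩ := h
  rw [abs_le] at h1 h2
  have key : c8 m = bl p ∨ c8 m = bl q := by
    unfold c8 bl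
    rw [Prod.ext_iff, Prod.ext_iff]
    simp only
    rcases seg_cases hpq (i := i) with ⟨a1, a2, a3, a4⟩ | ⟨a1, a2, a3, a4⟩ | ⟨a1, a2, a3, a4⟩ | ⟨a1, a2, a3, a4⟩ |
      ⟨a1, a2, a3, a4⟩ <;> rw [a3] at h1 <;> rw [a4] at h2 <;> rw [a1, a2] <;> omega
  rcases key with h | h <;> rw [h] <;> assumption

/-- a strand node is in a cell of S -/
lemma sn_cell {S : Finset (ℤ × ℤ)} {n : Pt} (h : SNd S n) : c8 n ∈ S := sn_near h (by simp) (by simp)

/-- neighbours are near -/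
lemma near_of_dir {n m : Pt} (h : m - n = 0 ∨ m - n ∈ dirs) : |m.1 - n.1| ≤ 1 ∧ |m.2 - n.2| ≤ 1 := by
  rcases h with h | h
  · rw [sub_eq_zero] at h
    subst h
    simp
  · have := dir_coord _ h
    simpa using this

/-- **nodes of cells outside of S are not adjacent to strand nodes** -/
theorem sn_far {S : Finset (ℤ × ℤ)} {n m : Pt} (h : SNd S n) (hm : c8 m ∉ S) : m - n ≠ 0 ∧ m - n ∉ dirs := by
  constructor
  · intro hc
    have := near_of_dir (Or.inl hc)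
    exact hm (sn_near h this.1 this.2)
  · intro hc
    have := near_of_dir (Or.inr hc)
    exact hm (sn_near h this.1 this.2)

/-- **segments without a common end are far apart** -/
theorem edge_far {p q p' q' : ℤ × ℤ} (h : q = p ∨ adj p q) (h' : q' = p' ∨ adj p' q') (h1 : p ≠ p') (h2 : p ≠ q')
    (h3 : q ≠ p') (h4 : q ≠ q') {i i' : ℤ} (hi : 0 ≤ i) (hi4 : i ≤ 4) (hi' : 0 ≤ i') (hi4' : i' ≤ 4) :
    ¬ (|(sg p q i).1 - (sg p' q' i').1| ≤ 3 ∧ |(sg p q i).2 - (sg p' q' i').2| ≤ 3) := by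
  rintro ⟨k1, k2⟩
  rw [abs_le] at k1 k2
  rw [Ne, Prod.ext_iff] at h1 h2 h3 h4
  rcases seg_cases h (i := i) with ⟨a1, a2, a3, a4⟩ | ⟨a1, a2, a3, a4⟩ | ⟨a1, a2, a3, a4⟩ | ⟨a1, a2, a3, a4⟩ |
      ⟨a1, a2, a3, a4⟩ <;>
  rcases seg_cases h' (i := i') with ⟨b1, b2, b3, b4⟩ | ⟨b1, b2, b3, b4⟩ | ⟨b1, b2, b3, b4⟩ | ⟨b1, b2, b3, b4⟩ |
      ⟨b1, b2, b3, b4⟩ <;>
  · rw [a3, b3] at k1
    rw [a4, b4] at k2
    rw [a1, a2] at h3
    rw [b1, b2] at h2
    rw [a1, a2, b1, b2] at h4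
    omega

/-- the same for neighbours -/
lemma edge_far' {p q p' q' : ℤ × ℤ} (h : q = p ∨ adj p q) (h' : q' = p' ∨ adj p' q') (h1 : p ≠ p') (h2 : p ≠ q')
    (h3 : q ≠ p') (h4 : q ≠ q') {i i' : ℤ} (hi : 0 ≤ i) (hi4 : i ≤ 4) (hi' : 0 ≤ i') (hi4' : i' ≤ 4) :
    sg p q i - sg p' q' i' ≠ 0 ∧ sg p q i - sg p' q' i' ∉ dirs := by
  have h0 := edge_far h h' h1 h2 h3 h4 hi hi4 hi' hi4'
  have key : ¬ (sg p q i - sg p' q' i' = 0 ∨ sg p q i - sg p' q' i' ∈ dirs) := by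
    intro hc
    have := near_of_dir hc
    exact h0 ⟨by linarith [this.1], by linarith [this.2]⟩
  exact ⟨fun hc => key (Or.inl hc), fun hc => key (Or.inr hc)⟩

/-! ### cells along a ray -/

lemma ce_node {D : ℤ} (hD : 0 < D) (n : Pt) : ce (8 * D) (D • n) = c8 n := by
  unfold ce c8
  simp only [Prod.smul_fst, Prod.smul_snd, smul_eq_mul]
  rw [mul_comm 8 D, Int.mul_ediv_mul_of_pos _ _ hD, Int.mul_ediv_mul_of_pos _ _ hD]

/-- consecutive cells of a ray which starts at a corner of the grid -/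
lemma c8_dir {e : Pt} (he : e ∈ dirs) (s : ℕ) : c8 (((s + 1 : ℕ) : ℤ) • e) = c8 ((s : ℤ) • e) ∨
    adj (c8 ((s : ℤ) • e)) (c8 (((s + 1 : ℕ) : ℤ) • e)) := by
  rw [adj_iff, Prod.ext_iff]
  unfold c8
  simp only [Prod.smul_fst, Prod.smul_snd, smul_eq_mul]
  simp only [dirs, Finset.mem_insert, Finset.mem_singleton] at he
  push_cast
  rcases he with rfl | rfl | rfl | rfl | rfl | rfl <;> simp only [mul_one, mul_zero, mul_neg, and_true, true_and] <;> omega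

/-- consecutive cells of a vertical ray -/
lemma c8_up (b : Pt) (s : ℕ) : c8 (b - ((s + 1 : ℕ) : ℤ) • up) = c8 (b - (s : ℤ) • up) ∨
    adj (c8 (b - (s : ℤ) • up)) (c8 (b - ((s + 1 : ℕ) : ℤ) • up)) := by
  rw [adj_iff, Prod.ext_iff]
  unfold c8 up
  simp only [Prod.smul_fst, Prod.smul_snd, smul_eq_mul, Prod.fst_sub, Prod.snd_sub]
  push_cast
  omega

/-- a walk of cells along a sequence of nodes -/
lemma cells_walk {G : ℤ × ℤ → Prop} {p : ℕ → Pt} {a b : ℕ} (hab : a ≤ b)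
    (hs : ∀ s, a ≤ s → s < b → c8 (p (s + 1)) = c8 (p s) ∨ adj (c8 (p s)) (c8 (p (s + 1))))
    (hG : ∀ s, a ≤ s → s ≤ b → G (c8 (p s))) :
    Relation.ReflTransGen (fun f g => adj f g ∧ G g) (c8 (p a)) (c8 (p b)) := by
  induction b, hab using Nat.le_induction with
  | base => exact Relation.ReflTransGen.refl
  | succ b hab ih =>
    have h1 := ih (fun s h1 h2 => hs s h1 (by omega)) (fun s h1 h2 => hG s h1 (by omega))
    rcases hs b hab (by omega) with h | h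
    · rw [h]
      exact h1
    · exact h1.tail ⟨h, hG (b + 1) (by omega) le_rfl⟩

lemma rtg_symm {G : ℤ × ℤ → Prop} {x y : ℤ × ℤ} (h : Relation.ReflTransGen (fun f g => adj f g ∧ G g) x y) (hx : G x) :
    Relation.ReflTransGen (fun f g => adj f g ∧ G g) y x := by
  induction h with
  | refl => exact Relation.ReflTransGen.refl
  | @tail b c h1 h2 ih =>
    have hb : G b := by
      rcases h1.cases_tail with h | ⟨_, _, h⟩
      · rwa [h]
      · exact h.2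
    exact Relation.ReflTransGen.head ⟨adj_comm' h2.1, hb⟩ ih

lemma sp_symm {A : Pt → Prop} {x y : Pt} (h : Relation.ReflTransGen (Sp A) x y) (hx : A x) :
    Relation.ReflTransGen (Sp A) y x := by
  induction h with
  | refl => exact Relation.ReflTransGen.refl
  | @tail b c h1 h2 ih =>
    have hb : A b := by
      rcases h1.cases_tail with h | ⟨_, _, h⟩
      · rwa [h]
      · exact h.2
    refine Relation.ReflTransGen.head ⟨?_, hb⟩ ih
    have := neg_mem_dirs h2.1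
    rwa [neg_sub] at this

/-! ### clearance -/

section clear

variable {V : Set Pt} {t dt g0 : Pt} {D κ ρ r : ℤ}

/-- a point in a cell near the cell of a node is near the node -/
lemma hn_of_cell (hD : 0 < D) {v n : Pt} (h : nr r (ce (8 * D) v) (c8 n)) : hn (v - D • n) ≤ 24 * (r + 1) * D := by
  have hD8 : 0 < 8 * D := by linarith
  obtain ⟨⟨b1, b2⟩, b3, b4⟩ := ce_spec hD8 v
  rw [nr_iff] at h
  obtain ⟨⟨h1, h2⟩, h3, h4⟩ := h
  generalize ce (8 * D) v = c at *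
  unfold c8 at h1 h2 h3 h4
  simp only at h1 h2 h3 h4
  have m1 : 8 * (n.1 / 8) ≤ n.1 ∧ n.1 ≤ 8 * (n.1 / 8) + 7 := by omega
  have m2 : 8 * (n.2 / 8) ≤ n.2 ∧ n.2 ≤ 8 * (n.2 / 8) + 7 := by omega
  generalize n.1 / 8 = x at *
  generalize n.2 / 8 = y at *
  have k1 := mul_le_mul_of_nonneg_left m1.1 hD.le
  have k2 := mul_le_mul_of_nonneg_left m1.2 hD.le
  have k3 := mul_le_mul_of_nonneg_left m2.1 hD.le
  have k4 := mul_le_mul_of_nonneg_left m2.2 hD.le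
  have l1 := mul_le_mul_of_nonneg_left h1 hD.le
  have l2 := mul_le_mul_of_nonneg_left h2 hD.le
  have l3 := mul_le_mul_of_nonneg_left h3 hD.le
  have l4 := mul_le_mul_of_nonneg_left h4 hD.le
  have key : hn (v - D • n) ≤ 3 * (8 * (r + 1) * D) := by
    refine hn_le_coord ?_ ?_
    · simp only [Prod.fst_sub, Prod.smul_fst, smul_eq_mul]
      rw [abs_le]
      constructor <;> nlinarith
    · simp only [Prod.snd_sub, Prod.smul_snd, smul_eq_mul]
      rw [abs_le]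
      constructor <;> nlinarith
  linarith

/-- a point whose cell is far from the cell of a node is far from the node -/
lemma hn_of_not_cell (hD : 0 < D) {v n : Pt} (h : ¬ nr r (ce (8 * D) v) (c8 n)) : 12 * r * D < hn (v - D • n) := by
  have hD8 : 0 < 8 * D := by linarith
  obtain ⟨⟨b1, b2⟩, b3, b4⟩ := ce_spec hD8 v
  obtain ⟨c1, bl⟩ := hn_coord (v - D • n)
  rw [nr_iff] at h
  generalize ce (8 * D) v = c at *
  unfold c8 at h
  simp only at h
  have m1 : 8 * (n.1 / 8) ≤ n.1 ∧ n.1 ≤ 8 * (n.1 / 8) + 7 := by omega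
  have m2 : 8 * (n.2 / 8) ≤ n.2 ∧ n.2 ≤ 8 * (n.2 / 8) + 7 := by omega
  generalize n.1 / 8 = x at *
  generalize n.2 / 8 = y at *
  have k1 := mul_le_mul_of_nonneg_left m1.1 hD.le
  have k2 := mul_le_mul_of_nonneg_left m1.2 hD.le
  have k3 := mul_le_mul_of_nonneg_left m2.1 hD.le
  have k4 := mul_le_mul_of_nonneg_left m2.2 hD.le
  simp only [Prod.fst_sub, Prod.snd_sub, Prod.smul_fst, Prod.smul_snd, smul_eq_mul] at c1 bl
  have key : 8 * r * D < |v.1 - D * n.1| ∨ 8 * r * D < |v.2 - D * n.2| := by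
    by_contra hcon
    push Not at hcon
    obtain ⟨q1, q2⟩ := hcon
    rw [abs_le] at q1 q2
    apply h
    refine ⟨⟨?_, ?_⟩, ?_, ?_⟩
    · by_contra hc
      have hc' : r + 1 ≤ x - c.1 := by omega
      have := mul_le_mul_of_nonneg_left hc' hD.le
      nlinarith [q1.1, q1.2]
    · by_contra hc
      have hc' : r + 1 ≤ c.1 - x := by omega
      have := mul_le_mul_of_nonneg_left hc' hD.le
      nlinarith [q1.1, q1.2]
    · by_contra hc
      have hc' : r + 1 ≤ y - c.2 := by omega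
      have := mul_le_mul_of_nonneg_left hc' hD.le
      nlinarith [q2.1, q2.2]
    · by_contra hc
      have hc' : r + 1 ≤ c.2 - y := by omega
      have := mul_le_mul_of_nonneg_left hc' hD.le
      nlinarith [q2.1, q2.2]
  rcases key with h | h
  · nlinarith
  · nlinarith

/-- **the cells of the ray in front of the tip are free** -/
theorem ray_gd_front (hD : 0 < D) (hdt : dt ∈ dirs) (hV : ∀ p ∈ V, 0 < ip (p - t) dt → ρ ≤ hn (p - t)) {s : ℤ}
    (hs0 : 0 ≤ s) (hs : 12 * (r + 1) < s) (hρ : 2 * (s * D) + 24 * (r + 1) * D < ρ) :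
    ∀ p ∈ V, ¬ nr r (ce (8 * D) (p - t)) (c8 (s • dt)) := by
  intro p hp hc
  have h1 := hn_of_cell hD hc
  have e1 : D • s • dt = (s * D) • dt := by rw [smul_smul, mul_comm]
  rw [e1] at h1
  have hsD : 0 ≤ s * D := mul_nonneg hs0 hD.le
  have h2 : 0 < ip (p - t) dt := by
    have h3 := neg_hn_le_ip (p - t - (s * D) • dt) hdt
    rw [ip_sub_left, ip_smul_left, ip_self_dir hdt] at h3
    have h4 : 12 * (r + 1) * D < s * D := mul_lt_mul_of_pos_right hs hD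
    linarith
  have h5 := hV p hp h2
  have h6 := hn_add (p - t - (s * D) • dt) ((s * D) • dt)
  rw [sub_add_cancel, hn_smul_d hdt hsD] at h6
  linarith

/-- **the cells of the ray behind the start are free** -/
theorem ray_gd_back (hD : 0 < D) (hκ : κ ≤ D) (hg : hn (t - D • g0) ≤ κ) (hV : ∀ p ∈ V, ip p up < 0 → ρ ≤ hn p) {s : ℤ}
    (hs0 : 0 ≤ s) (hs : 12 * (r + 1) < s) (hρ : 2 * (s * D) + 24 * (r + 1) * D + κ < ρ) :
    ∀ p ∈ V, ¬ nr r (ce (8 * D) (p - t)) (c8 (-g0 - s • up)) := by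
  intro p hp hc
  have h1 := hn_of_cell hD hc
  have e1 : p + (s * D) • up = (p - t - D • (-g0 - s • up)) + (t - D • g0) := by
    rw [smul_sub, smul_neg, smul_smul, mul_comm D s]
    abel
  have h2 : hn (p + (s * D) • up) ≤ 24 * (r + 1) * D + κ := by
    rw [e1]
    have := hn_add (p - t - D • (-g0 - s • up)) (t - D • g0)
    linarith
  have hsD : 0 ≤ s * D := mul_nonneg hs0 hD.le
  have h4 : (12 * (r + 1) + 1) * D ≤ s * D := mul_le_mul_of_nonneg_right (by linarith) hD.le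
  have h3 : ip p up < 0 := by
    have h3 := ip_le_hn (p + (s * D) • up) upd'
    rw [ip_add_left, ip_smul_left, ip_self_dir upd'] at h3
    linarith
  have h5 := hV p hp h3
  have h6 := hn_sub (p + (s * D) • up) ((s * D) • up)
  rw [add_sub_cancel_right, hn_smul_d upd' hsD] at h6
  linarith

end clear

/-! ### the connector -/

/-- the connector between the tip `b` and the centre of the subcell `p`: the ray up to the step `s0 - 1`, the coarse cell of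
the subcell `p'`, the segment from `p` to `p'` -/
def RC (g0 b e : Pt) (s0 : ℕ) (p p' : ℤ × ℤ) (x : Pt) : Prop :=
  (∃ s : ℕ, s < s0 ∧ x = b + (s : ℤ) • e) ∨ c8 (x - g0) = bl p' ∨ ∃ i : ℤ, 0 ≤ i ∧ i ≤ 4 ∧ x = g0 + sg p p' i

/-- the ray meets `S` for the first time at the step `s0`, in the cell of the subcell `p`; `p'` is the subcell next to `p` in
the cell of the step `s0 - 1` -/
structure RH (S : Finset (ℤ × ℤ)) (g0 b e : Pt) (s0 : ℕ) (p p' : ℤ × ℤ) : Prop where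
  he : e ∈ dirs
  s1 : 1 ≤ s0
  out : ∀ s : ℕ, s < s0 → c8 (b + (s : ℤ) • e - g0) ∉ S
  hp' : bl p' = c8 (b + ((s0 - 1 : ℕ) : ℤ) • e - g0)
  hp : bl p ∈ S
  adj : adj p p'

section conn

variable {S : Finset (ℤ × ℤ)} {g0 b e : Pt} {s0 : ℕ} {p p' : ℤ × ℤ}

lemma c8_ctr (p : ℤ × ℤ) : c8 (ctr p) = bl p := by
  unfold c8 ctr bl
  refine Prod.ext ?_ ?_ <;> simp only <;> omega

lemma RH.out' (h : RH S g0 b e s0 p p') : bl p' ∉ S := by
  rw [h.hp']
  exact h.out _ (by have := h.s1; omega)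

/-- **the connector is connected** -/
theorem rc_conn (h : RH S g0 b e s0 p p') : Relation.ReflTransGen (Sp (RC g0 b e s0 p p')) b (g0 + ctr p) := by
  have hs1 := h.s1
  have w1 : Relation.ReflTransGen (Sp (RC g0 b e s0 p p')) b (b + ((s0 - 1 : ℕ) : ℤ) • e) :=
    line_path h.he (s0 - 1) fun k _ hk => Or.inl ⟨k, by omega, rfl⟩
  have w2 : Relation.ReflTransGen (Sp (RC g0 b e s0 p p')) (b + ((s0 - 1 : ℕ) : ℤ) • e) (g0 + ctr p') := by
    refine box_path fun x x1 x2 x3 x4 => Or.inr (Or.inl ?_)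
    have h1 := h.hp'
    generalize b + ((s0 - 1 : ℕ) : ℤ) • e = y at *
    unfold c8 bl at h1
    unfold c8 bl
    unfold ctr at x1 x2 x3 x4
    rw [Prod.ext_iff] at h1 ⊢
    simp only [Prod.fst_sub, Prod.snd_sub, Prod.fst_add, Prod.snd_add] at *
    omega
  have w3 : Relation.ReflTransGen (Sp (RC g0 b e s0 p p')) (g0 + ctr p') (g0 + ctr p) := by
    have h1 : p - p' ∈ dirs := adj_dirs (adj_comm' h.adj)
    have h2 : ∀ k : ℤ, g0 + ctr p' + k • (p - p') = g0 + sg p p' (4 - k) := by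
      intro k
      unfold sg ctr
      refine Prod.ext ?_ ?_ <;>
      · simp only [Prod.fst_add, Prod.snd_add, Prod.smul_fst, Prod.smul_snd, smul_eq_mul, Prod.fst_sub, Prod.snd_sub]
        ring
    have h3 := line_path (A := RC g0 b e s0 p p') (g := g0 + ctr p') h1 4 fun k hk1 hk2 =>
      Or.inr (Or.inr ⟨4 - k, by omega, by omega, h2 k⟩)
    rw [h2, show (4 : ℤ) - ((4 : ℕ) : ℤ) = 0 by norm_num, sg_zero] at h3
    exact h3
  exact (w1.trans w2).trans w3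

lemma rc_b (h : RH S g0 b e s0 p p') : RC g0 b e s0 p p' b := Or.inl ⟨0, h.s1, by simp⟩

lemma rc_ctr : RC g0 b e s0 p p' (g0 + ctr p) := Or.inr (Or.inr ⟨0, le_rfl, by norm_num, by rw [sg_zero]⟩)

/-- **the connector is far from the other strand** -/
theorem rc_far (h : RH S g0 b e s0 p p') {x : Pt} (hx : RC g0 b e s0 p p' x) {q q' : ℤ × ℤ} (hq : bl q ∈ S)
    (hq' : bl q' ∈ S) (hqq : q' = q ∨ ARM.adj q q') (h1 : q ≠ p) (h2 : q' ≠ p) {i : ℤ} (hi : 0 ≤ i) (hi4 : i ≤ 4) :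
    Far x (g0 + sg q q' i) := by
  have key : ¬ (x - g0 - sg q q' i = 0 ∨ x - g0 - sg q q' i ∈ dirs) := by
    have hSN : SNd S (sg q q' i) := ⟨q, q', hq, hq', hqq, i, hi, hi4, rfl⟩
    rcases hx with ⟨s, hs, rfl⟩ | hx | ⟨j, hj, hj4, rfl⟩
    · have := sn_far hSN (h.out s hs)
      tauto
    · have : c8 (x - g0) ∉ S := by
        rw [hx]
        exact h.out'
      have := sn_far hSN this
      tauto
    · rw [add_sub_cancel_left]
      have h3 : p' ≠ q := fun hc => h.out' (hc ▸ hq)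
      have h4 : p' ≠ q' := fun hc => h.out' (hc ▸ hq')
      have := edge_far' (Or.inr h.adj) hqq h1.symm h2.symm h3 h4 hj hj4 hi hi4
      tauto
  have e1 : x - (g0 + sg q q' i) = x - g0 - sg q q' i := by abel
  refine ⟨fun hc => key (Or.inl ?_), fun hc => key (Or.inr ?_), fun hc => key (Or.inr ?_)⟩
  · rw [← hc, add_sub_cancel_left, sub_self]
  · have := neg_mem_dirs hc
    rwa [neg_sub, e1] at this
  · rwa [e1] at hc

/-! ### clearance of the nodes -/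

/-- nodes of a segment are in the cells of its ends -/
lemma c8_sg {p q : ℤ × ℤ} (hpq : q = p ∨ ARM.adj p q) {i : ℤ} (hi : 0 ≤ i) (hi4 : i ≤ 4) :
    c8 (sg p q i) = bl p ∨ c8 (sg p q i) = bl q := by
  unfold c8 bl
  rw [Prod.ext_iff, Prod.ext_iff]
  simp only
  rcases seg_cases hpq (i := i) with ⟨a1, a2, a3, a4⟩ | ⟨a1, a2, a3, a4⟩ | ⟨a1, a2, a3, a4⟩ | ⟨a1, a2, a3, a4⟩ |
    ⟨a1, a2, a3, a4⟩ <;> rw [a3, a4, a1, a2] <;> omega

/-- the cells of adjacent subcells are near -/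
lemma nr_bl {p q : ℤ × ℤ} (hpq : q = p ∨ ARM.adj p q) : nr 1 (bl p) (bl q) := by
  rw [adj_iff, Prod.ext_iff] at hpq
  rw [nr_iff]
  unfold bl
  simp only
  omega

variable {V : Set Pt} {t dt : Pt} {D κ ρ : ℤ}

/-- clearance of a node from the clearance of its cell -/
lemma node_clear (hD : 0 < D) (hκ : κ ≤ D) (hg : hn (t - D • g0) ≤ κ) {x q : Pt}
    (hx : ¬ nr 1 (ce (8 * D) (q - t)) (c8 (x - g0))) : 11 * D ≤ hn (q - D • x) := by
  have h1 := hn_of_not_cell hD hx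
  have h2 := hn_sub (q - D • x) (t - D • g0)
  have e1 : q - D • x - (t - D • g0) = q - t - D • (x - g0) := by
    rw [smul_sub]
    abel
  rw [e1] at h2
  linarith

/-- the same in the form needed for a path -/
lemma node_clear' (hD : 0 < D) (hκ : κ ≤ D) (hg : hn (t - D • g0) ≤ κ) (h0 : (0 : Pt) ∈ V) {x : Pt}
    (hx : ∀ q ∈ V, ¬ nr 1 (ce (8 * D) (q - t)) (c8 (x - g0))) :
    4 * D ≤ hn (D • x) ∧ ∀ q ∈ V, 3 * D ≤ hn (q - D • x) := by
  have h1 : ∀ q ∈ V, 11 * D ≤ hn (q - D • x) := fun q hq => node_clear hD hκ hg (hx q hq)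
  refine ⟨?_, fun q hq => ?_⟩
  · have := h1 0 h0
    rw [zero_sub, hn_neg] at this
    linarith
  · have := h1 q hq
    linarith

/-- **clearance of the strand nodes** -/
theorem sn_clear (hD : 0 < D) (hκ : κ ≤ D) (hg : hn (t - D • g0) ≤ κ) (h0 : (0 : Pt) ∈ V)
    (hS : ∀ g ∈ S, ∀ q ∈ V, ¬ nr 3 (ce (8 * D) (q - t)) g) {n : Pt} (hn' : SNd S n) :
    4 * D ≤ hn (D • (g0 + n)) ∧ ∀ q ∈ V, 3 * D ≤ hn (q - D • (g0 + n)) := by
  refine node_clear' hD hκ hg h0 fun q hq hc => ?_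
  rw [add_sub_cancel_left] at hc
  exact hS _ (sn_cell hn') q hq (nr_mono (by norm_num) hc)

/-- **clearance of the connector** -/
theorem rc_clear (h : RH S g0 b e s0 p p') (hD : 0 < D) (hκ : κ ≤ D) (hg : hn (t - D • g0) ≤ κ) (h0 : (0 : Pt) ∈ V)
    (hS : ∀ g ∈ S, ∀ q ∈ V, ¬ nr 3 (ce (8 * D) (q - t)) g)
    (hray : ∀ s : ℕ, 2 ≤ s → s < s0 → 4 * D ≤ hn (D • (b + (s : ℤ) • e)) ∧
      ∀ q ∈ V, 3 * D ≤ hn (q - D • (b + (s : ℤ) • e))) {x : Pt} (hx : RC g0 b e s0 p p' x) :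
    x = b ∨ x = b + e ∨ (4 * D ≤ hn (D • x) ∧ ∀ q ∈ V, 3 * D ≤ hn (q - D • x)) := by
  have k1 : ∀ q ∈ V, ¬ nr 1 (ce (8 * D) (q - t)) (bl p) := fun q hq hc => hS _ h.hp q hq (nr_mono (by norm_num) hc)
  have k2 : ∀ q ∈ V, ¬ nr 1 (ce (8 * D) (q - t)) (bl p') := by
    intro q hq hc
    have := nr_trans hc (nr_bl (Or.inr (adj_comm' h.adj)))
    exact hS _ h.hp q hq (nr_mono (by norm_num) this)
  rcases hx with ⟨s, hs, rfl⟩ | hx | ⟨j, hj, hj4, rfl⟩
  · rcases Nat.lt_or_ge s 2 with h2 | h2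
    · rcases Nat.eq_zero_or_pos s with h3 | h3
      · left
        subst h3
        simp
      · right; left
        rw [show s = 1 by omega]
        simp
    · right; right
      exact hray s h2 hs
  · right; right
    refine node_clear' hD hκ hg h0 fun q hq => ?_
    rw [hx]
    exact k2 q hq
  · right; right
    refine node_clear' hD hκ hg h0 fun q hq => ?_
    rw [add_sub_cancel_left]
    rcases c8_sg (Or.inr h.adj) hj hj4 with h3 | h3 <;> rw [h3]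
    · exact k1 q hq
    · exact k2 q hq

/-- the nodes of the ray in front of the tip -/
lemma ray_front_clear (hD : 0 < D) (hκ : κ ≤ D) (hdt : dt ∈ dirs) (h0 : (0 : Pt) ∈ V) (htt : 10 * D ≤ hn t)
    (hg : hn (t - D • g0) ≤ κ) (hV : ∀ q ∈ V, 0 < ip (q - t) dt → ρ ≤ hn (q - t)) {s : ℕ} (hs : 2 ≤ s)
    (hρ : 2 * ((s : ℤ) * D) + 8 * D ≤ ρ) :
    4 * D ≤ hn (D • (g0 + (s : ℤ) • dt)) ∧ ∀ q ∈ V, 3 * D ≤ hn (q - D • (g0 + (s : ℤ) • dt)) := by
  have hs2 : (2 : ℤ) ≤ s := by exact_mod_cast hs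
  have hkD : 2 * D ≤ (s : ℤ) * D := mul_le_mul_of_nonneg_right hs2 hD.le
  have e : D • (g0 + (s : ℤ) • dt) - t = ((s : ℤ) * D) • dt - (t - D • g0) := by
    rw [smul_add, smul_smul, mul_comm D]
    abel
  have k1 : 2 * ((s : ℤ) * D) - κ ≤ ip (D • (g0 + (s : ℤ) • dt) - t) dt := by
    rw [e, ip_sub_left, ip_smul_left, ip_self_dir hdt]
    have := ip_le_hn (t - D • g0) hdt
    linarith
  have k2 : hn (D • (g0 + (s : ℤ) • dt) - t) ≤ 2 * ((s : ℤ) * D) + κ := by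
    rw [e]
    have h7 := hn_sub (((s : ℤ) * D) • dt) (t - D • g0)
    rw [hn_smul_d hdt (by linarith)] at h7
    linarith
  refine ⟨?_, free_front hdt hV (by linarith) (by linarith)⟩
  rcases Nat.lt_or_ge 2 s with hk3 | hk3
  · have hk3' : (3 : ℤ) ≤ s := by exact_mod_cast hk3
    have hkD3 : 3 * D ≤ (s : ℤ) * D := mul_le_mul_of_nonneg_right hk3' hD.le
    have := free_front (F := 4 * D) hdt hV (x := D • (g0 + (s : ℤ) • dt)) (by linarith) (by linarith) 0 h0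
    rwa [zero_sub, hn_neg] at this
  · have hk4 : (s : ℤ) * D ≤ 2 * D := by
      have : (s : ℤ) ≤ 2 := by exact_mod_cast hk3
      exact mul_le_mul_of_nonneg_right this hD.le
    have e2 : t = D • (g0 + (s : ℤ) • dt) - (D • (g0 + (s : ℤ) • dt) - t) := by abel
    have k3 := hn_sub (D • (g0 + (s : ℤ) • dt)) (D • (g0 + (s : ℤ) • dt) - t)
    rw [← e2] at k3
    linarith

/-- the nodes of the ray behind the start -/
lemma ray_back_clear (hD : 0 < D) (hV : ∀ q ∈ V, ip q up < 0 → ρ ≤ hn q) {s : ℕ} (hs : 2 ≤ s)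
    (hρ : 2 * ((s : ℤ) * D) + 8 * D ≤ ρ) :
    4 * D ≤ hn (D • ((0 : Pt) + (s : ℤ) • -up)) ∧ ∀ q ∈ V, 3 * D ≤ hn (q - D • ((0 : Pt) + (s : ℤ) • -up)) := by
  have hs2 : (2 : ℤ) ≤ s := by exact_mod_cast hs
  have hkD : 2 * D ≤ (s : ℤ) * D := mul_le_mul_of_nonneg_right hs2 hD.le
  have e : D • ((0 : Pt) + (s : ℤ) • -up) = -(((s : ℤ) * D) • up) := by
    rw [zero_add, smul_neg, smul_neg, smul_smul, mul_comm]
  rw [e]
  refine ⟨?_, free_back hV ?_ ?_⟩
  · rw [hn_neg, hn_smul_d upd' (by linarith)]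
    linarith
  · rw [ip_neg_left, ip_smul_left, ip_self_dir upd']
    linarith
  · rw [hn_neg, hn_smul_d upd' (by linarith)]
    linarith

/-- **the connector is near the tip** -/
lemma rc_box (h : RH S g0 b e s0 p p') {x : Pt} (hx : RC g0 b e s0 p p' x) : nr (s0 + 12) b x := by
  have hs1 := h.s1
  obtain ⟨d1, d2⟩ := dir_coord e h.he
  rw [nr_iff]
  have kd : ∀ (s : ℕ) (a : ℤ), |a| ≤ 1 → s ≤ s0 → -(s0 : ℤ) ≤ (s : ℤ) * a ∧ (s : ℤ) * a ≤ s0 := by
    intro s a ha hs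
    have h1 : |(s : ℤ) * a| ≤ s0 := by
      rw [abs_mul, Nat.abs_cast]
      have : (s : ℤ) ≤ s0 := by exact_mod_cast hs
      nlinarith [abs_nonneg a]
    exact abs_le.1 h1
  have blk : ∀ y : Pt, c8 (y - g0) = bl p' → b.1 - (s0 + 7) ≤ y.1 ∧ y.1 ≤ b.1 + (s0 + 7) ∧
      b.2 - (s0 + 7) ≤ y.2 ∧ y.2 ≤ b.2 + (s0 + 7) := by
    intro y hy
    have h1 := h.hp'
    rw [h1] at hy
    have k1 := kd (s0 - 1) e.1 d1 (by omega)
    have k2 := kd (s0 - 1) e.2 d2 (by omega)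
    unfold c8 at hy
    rw [Prod.ext_iff] at hy
    simp only [Prod.fst_sub, Prod.snd_sub, Prod.fst_add, Prod.snd_add, Prod.smul_fst, Prod.smul_snd, smul_eq_mul] at hy
    generalize ((s0 - 1 : ℕ) : ℤ) * e.1 = X at *
    generalize ((s0 - 1 : ℕ) : ℤ) * e.2 = Y at *
    omega
  rcases hx with ⟨s, hs, rfl⟩ | hx | ⟨j, hj, hj4, rfl⟩
  · have k1 := kd s e.1 d1 (by omega)
    have k2 := kd s e.2 d2 (by omega)
    simp only [Prod.fst_add, Prod.snd_add, Prod.smul_fst, Prod.smul_snd, smul_eq_mul]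
    refine ⟨⟨?_, ?_⟩, ?_, ?_⟩ <;> linarith
  · have := blk x hx
    refine ⟨⟨?_, ?_⟩, ?_, ?_⟩ <;> linarith [this.1, this.2.1, this.2.2.1, this.2.2.2]
  · have h1 := blk (g0 + ctr p') (by rw [add_sub_cancel_left, c8_ctr])
    simp only [Prod.fst_add, Prod.snd_add] at h1 ⊢
    have h2 : (ctr p').1 - 4 ≤ (sg p p' j).1 ∧ (sg p p' j).1 ≤ (ctr p').1 + 4 ∧ (ctr p').2 - 4 ≤ (sg p p' j).2 ∧
        (sg p p' j).2 ≤ (ctr p').2 + 4 := by
      unfold ctr
      simp only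
      rcases seg_cases (Or.inr h.adj) (i := j) with ⟨a1, a2, a3, a4⟩ | ⟨a1, a2, a3, a4⟩ | ⟨a1, a2, a3, a4⟩ |
        ⟨a1, a2, a3, a4⟩ | ⟨a1, a2, a3, a4⟩ <;> rw [a3, a4, a1, a2] <;> omega
    refine ⟨⟨?_, ?_⟩, ?_, ?_⟩ <;> linarith [h1.1, h1.2.1, h1.2.2.1, h1.2.2.2, h2.1, h2.2.1, h2.2.2.1, h2.2.2.2]

/-- the norm of a difference in a box -/
lemma hn_of_nr {a : ℤ} {x y : Pt} (h : nr a x y) : hn (y - x) ≤ 3 * a := hn_le_coord h.1 h.2

/-- heights in the connector -/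
lemma rc_ht (h : RH S g0 b e s0 p p') {x d : Pt} (hd : d ∈ dirs) (hx : RC g0 b e s0 p p' x) :
    ip x d ≤ ip b d + 3 * (s0 + 12) := by
  have h1 := ip_le_hn (x - b) hd
  rw [ip_sub_left] at h1
  have h2 := hn_of_nr (rc_box h hx)
  linarith

/-- strand nodes of a list -/
lemma sn_list {A : List (ℤ × ℤ)} (hA : A.IsChain ARM.adj) {y : Pt} (hy : y ∈ SN A) :
    ∃ p q, p ∈ A ∧ q ∈ A ∧ (q = p ∨ ARM.adj p q) ∧ ∃ i : ℤ, 0 ≤ i ∧ i ≤ 4 ∧ y = sg p q i := by
  rcases hy with ⟨p, hp, rfl⟩ | ⟨p, q, ⟨s, t, rfl⟩, i, hi, hi4, rfl⟩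
  · exact ⟨p, p, hp, hp, Or.inl rfl, 0, le_rfl, by norm_num, by rw [sg_zero]⟩
  · rw [List.isChain_append_cons_cons] at hA
    refine ⟨p, q, by simp, by simp, Or.inr hA.2.1, i, hi, hi4, ?_⟩
    unfold sg ctr
    refine Prod.ext ?_ ?_ <;>
    · simp only [Prod.fst_add, Prod.snd_add, Prod.smul_fst, Prod.smul_snd, smul_eq_mul, Prod.fst_sub, Prod.snd_sub]

/-- strand nodes of a list of subcells of S -/
lemma snd_list {A : List (ℤ × ℤ)} (hA : A.IsChain ARM.adj) (hS : ∀ x ∈ A, bl x ∈ S) {y : Pt} (hy : y ∈ SN A) : SNd S y := by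
  obtain ⟨p, q, hp, hq, hpq, i, hi, hi4, h⟩ := sn_list hA hy
  exact ⟨p, q, hS p hp, hS q hq, hpq, i, hi, hi4, h⟩

/-- **the connector is far from the other strand (list form)** -/
theorem rc_far_list (h : RH S g0 b e s0 p p') {B : List (ℤ × ℤ)} (hB : B.IsChain ARM.adj) (hS : ∀ x ∈ B, bl x ∈ S)
    (hp : p ∉ B) {x y : Pt} (hx : RC g0 b e s0 p p' x) (hy : y ∈ SN B) : Far x (g0 + y) := by
  obtain ⟨q, q', hq, hq', hqq, i, hi, hi4, rfl⟩ := sn_list hB hy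
  exact rc_far h hx (hS q hq) (hS q' hq') hqq (fun hc => hp (hc ▸ hq)) (fun hc => hp (hc ▸ hq')) hi hi4

end conn

/-! ### the walk -/

/-- the first cell of S on a ray -/
lemma first_cell {S : Finset (ℤ × ℤ)} {q : ℕ → ℤ × ℤ} {K : ℕ} (h0 : q 0 ∉ S) (h1 : q K ∈ S) :
    ∃ s0 : ℕ, 1 ≤ s0 ∧ s0 ≤ K ∧ q s0 ∈ S ∧ ∀ s : ℕ, s < s0 → q s ∉ S := by
  classical
  have hex : ∃ s, q s ∈ S := ⟨K, h1⟩
  refine ⟨Nat.find hex, ?_, Nat.find_min' hex h1, Nat.find_spec hex, fun s hs => Nat.find_min hex hs⟩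
  rcases Nat.eq_zero_or_pos (Nat.find hex) with h | h
  · exact absurd (h ▸ Nat.find_spec hex) h0
  · exact h

/-- **one walk through three chains with the common start q** -/
theorem walk_three {G : ℤ × ℤ → Prop} {q a z u : ℤ × ℤ} (hq : G q)
    (h1 : Relation.ReflTransGen (fun f g => ARM.adj f g ∧ G g) q a)
    (h2 : Relation.ReflTransGen (fun f g => ARM.adj f g ∧ G g) q z)
    (h3 : Relation.ReflTransGen (fun f g => ARM.adj f g ∧ G g) q u) :
    ∃ (n : ℕ) (w : ℕ → ℤ × ℤ), (∀ i, i < n → ARM.adj (w i) (w (i + 1))) ∧ (∀ i, i ≤ n → G (w i)) ∧ w 0 = a ∧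
      w n = u ∧ ∃ i, i ≤ n ∧ w i = z := by
  have hG : ∀ {x y : ℤ × ℤ}, G x → Relation.ReflTransGen (fun f g => ARM.adj f g ∧ G g) x y → G y := by
    intro x y hx h
    rcases h.cases_tail with h | ⟨_, _, h⟩
    · rwa [h]
    · exact h.2
  have k1 := (rtg_symm h1 hq).trans h2
  have k2 := (rtg_symm h2 hq).trans h3
  obtain ⟨n1, f1, a1, b1, c1⟩ := pth_of k1
  obtain ⟨n2, f2, a2, b2, bl⟩ := pth_of k2
  refine ⟨n1 + n2, fun i => if i ≤ n1 then f1 i else f2 (i - n1), ?_, ?_, ?_, ?_, n1, by omega, ?_⟩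
  · intro i hi
    rcases Nat.lt_trichotomy i n1 with h | h | h
    · simp only [h.le, if_true, Nat.succ_le_of_lt h]
      exact (c1 i h).1
    · subst h
      simp only [le_refl, if_true, Nat.not_succ_le_self, if_false]
      rw [b1, ← a2, show i + 1 - i = 0 + 1 by omega]
      exact (bl 0 (by omega)).1
    · simp only
      rw [if_neg (by omega), if_neg (by omega), show i + 1 - n1 = i - n1 + 1 by omega]
      exact (bl _ (by omega)).1
  · intro i hi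
    simp only
    by_cases h : i ≤ n1
    · rw [if_pos h]
      rcases Nat.eq_zero_or_pos i with h0 | h0
      · rw [h0, a1]
        exact hG hq h1
      · obtain ⟨j, rfl⟩ : ∃ j, i = j + 1 := ⟨i - 1, by omega⟩
        exact (c1 j (by omega)).2
    · rw [if_neg h]
      obtain ⟨j, hj⟩ : ∃ j, i - n1 = j + 1 := ⟨i - n1 - 1, by omega⟩
      rw [hj]
      exact (bl j (by omega)).2
  · simp [a1]
  · simp only
    rcases Nat.eq_zero_or_pos n2 with h | h
    · rw [if_pos (by omega), h, Nat.add_zero, b1, ← a2, ← b2, h]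
    · rw [if_neg (by omega), Nat.add_sub_cancel_left, b2]
  · simp [b1]

/-! ### sides of cells -/

lemma adj_add {p δ : ℤ × ℤ} (hδ : δ ∈ D4) : ARM.adj p (p + δ) := by
  rw [adj_sub, add_sub_cancel_left]
  exact hδ

lemma bl_sa_add {v δ : ℤ × ℤ} (hδ : δ ∈ D4) : bl (sa v δ + δ) = v + δ := by
  rw [mem_D4] at hδ
  obtain ⟨v1, v2⟩ := v
  rcases hδ with rfl | rfl | rfl | rfl <;>
  · simp only [bl, sa, lo, Prod.mk_add_mk, Prod.mk.injEq]
    norm_num
    omega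

lemma bl_sb_add {v δ : ℤ × ℤ} (hδ : δ ∈ D4) : bl (sb v δ + δ) = v + δ := by
  rw [mem_D4] at hδ
  obtain ⟨v1, v2⟩ := v
  rcases hδ with rfl | rfl | rfl | rfl <;>
  · simp only [bl, sb, hi, Prod.mk_add_mk, Prod.mk.injEq]
    norm_num
    omega

/-- **the first cell of S on a ray and its free side** -/
theorem tip_side {S : Finset (ℤ × ℤ)} {g0 b e : Pt} {K : ℕ} (he : e ∈ dirs)
    (hst : ∀ s : ℕ, c8 (b + ((s + 1 : ℕ) : ℤ) • e - g0) = c8 (b + (s : ℤ) • e - g0) ∨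
      ARM.adj (c8 (b + (s : ℤ) • e - g0)) (c8 (b + ((s + 1 : ℕ) : ℤ) • e - g0)))
    (h0 : c8 (b + ((0 : ℕ) : ℤ) • e - g0) ∉ S) (h1 : c8 (b + (K : ℤ) • e - g0) ∈ S) :
    ∃ (s0 : ℕ) (a δ : ℤ × ℤ), 1 ≤ s0 ∧ s0 ≤ K ∧ a = c8 (b + (s0 : ℤ) • e - g0) ∧ a ∈ S ∧ δ ∈ D4 ∧ a + δ ∉ S ∧
      ∀ p, p = sa a δ ∨ p = sb a δ → RH S g0 b e s0 p (p + δ) := by
  obtain ⟨s0, k1, k2, k3, k4⟩ := first_cell (S := S) (q := fun s : ℕ => c8 (b + (s : ℤ) • e - g0)) h0 h1
  obtain ⟨s1, rfl⟩ : ∃ s1, s0 = s1 + 1 := ⟨s0 - 1, by omega⟩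
  have k5 := k4 s1 (by omega)
  have k6 : ARM.adj (c8 (b + (s1 : ℤ) • e - g0)) (c8 (b + ((s1 + 1 : ℕ) : ℤ) • e - g0)) := by
    rcases hst s1 with h | h
    · rw [h] at k3
      exact absurd k3 k5
    · exact h
  have k7 := adj_sub.1 (adj_comm' k6)
  have k8 : c8 (b + ((s1 + 1 : ℕ) : ℤ) • e - g0) + (c8 (b + (s1 : ℤ) • e - g0) - c8 (b + ((s1 + 1 : ℕ) : ℤ) • e - g0)) =
      c8 (b + (s1 : ℤ) • e - g0) := by abel
  refine ⟨s1 + 1, _, _, k1, k2, rfl, k3, k7, ?_, ?_⟩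
  · rw [k8]
    exact k5
  · intro p hp
    have e1 : bl (p + (c8 (b + (s1 : ℤ) • e - g0) - c8 (b + ((s1 + 1 : ℕ) : ℤ) • e - g0))) =
        c8 (b + (s1 : ℤ) • e - g0) := by
      rcases hp with rfl | rfl
      · rw [bl_sa_add k7, k8]
      · rw [bl_sb_add k7, k8]
    have e2 : bl p = c8 (b + ((s1 + 1 : ℕ) : ℤ) • e - g0) := by
      rcases hp with rfl | rfl
      · exact bl_sa
      · exact bl_sb
    exact ⟨he, k1, k4, by rw [e1, Nat.add_sub_cancel], by rw [e2]; exact k3, adj_add k7⟩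

/-! ### the two tips -/

section tips

variable {V : Set Pt} {S : Finset (ℤ × ℤ)} {t dt g0 : Pt} {D κ ρ R N0 : ℤ} {K : ℕ}

/-- **both tips**: free sides of two cells of S and the connectors -/
theorem rays_tips (hD : 0 < D) (hκ : κ ≤ D) (hdt : dt ∈ dirs) (h0 : (0 : Pt) ∈ V) (ht : t ∈ V)
    (hg : hn (t - D • g0) ≤ κ) (htt : 1000 * D ≤ hn t) (hS : ∀ g ∈ S, ∀ q ∈ V, ¬ nr 3 (ce (8 * D) (q - t)) g)
    (hA : c8 (((49 : ℕ) : ℤ) • dt) ∈ S) (hB : c8 (-g0 - ((49 : ℕ) : ℤ) • up) ∈ S) :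
    ∃ (sA sB : ℕ) (a δa b δb : ℤ × ℤ), 1 ≤ sA ∧ sA ≤ 49 ∧ 1 ≤ sB ∧ sB ≤ 49 ∧ a ∈ S ∧ b ∈ S ∧ δa ∈ D4 ∧ δb ∈ D4 ∧
      a + δa ∉ S ∧ b + δb ∉ S ∧ a ≠ b ∧ a = c8 (g0 + (sA : ℤ) • dt - g0) ∧ b = c8 (0 + (sB : ℤ) • -up - g0) ∧
      (∀ p, p = sa a δa ∨ p = sb a δa → RH S g0 g0 dt sA p (p + δa)) ∧
      (∀ p, p = sa b δb ∨ p = sb b δb → RH S g0 0 (-up) sB p (p + δb)) := by
  have rA : ∀ s : ℕ, g0 + (s : ℤ) • dt - g0 = (s : ℤ) • dt := fun s => add_sub_cancel_left _ _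
  have rB : ∀ s : ℕ, (0 : Pt) + (s : ℤ) • -up - g0 = -g0 - (s : ℤ) • up := by
    intro s
    rw [smul_neg]
    abel
  obtain ⟨sA, a, δa, a1, a2, a3, a4, a5, a6, a7⟩ := tip_side (S := S) (g0 := g0) (b := g0) (e := dt) (K := 49) hdt (by
      intro s
      rw [rA, rA]
      exact c8_dir hdt s) (by
      intro hc
      have h1 := hS _ hc t ht
      rw [rA, sub_self, Nat.cast_zero, zero_smul] at h1
      refine h1 ?_
      have e1 : ce (8 * D) (0 : Pt) = c8 0 := by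
        have := ce_node hD (0 : Pt)
        rwa [smul_zero] at this
      rw [e1]
      exact nr_self (by norm_num) _) (by
      rw [rA]
      exact hA)
  obtain ⟨sB, b, δb, b1, b2, b3, b4, b5, b6, b7⟩ := tip_side (S := S) (g0 := g0) (b := 0) (e := -up) (K := 49)
    (neg_mem_dirs upd') (by
      intro s
      rw [rB, rB]
      exact c8_up (-g0) s) (by
      intro hc
      have h1 := hS _ hc 0 h0
      rw [rB, Nat.cast_zero, zero_smul, sub_zero] at h1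
      have h2 := hn_of_not_cell hD h1
      have e1 : (0 : Pt) - t - D • -g0 = -(t - D • g0) := by
        rw [smul_neg]
        abel
      rw [e1, hn_neg] at h2
      linarith) (by
      rw [rB]
      exact hB)
  refine ⟨sA, sB, a, δa, b, δb, a1, a2, b1, b2, a4, b4, a5, b5, a6, b6, ?_, a3, b3, a7, b7⟩
  intro hab
  rw [a3, b3, rA, rB] at hab
  unfold c8 up at hab
  rw [Prod.ext_iff] at hab
  obtain ⟨d1, d2⟩ := dir_coord dt hdt
  simp only [Prod.smul_fst, Prod.smul_snd, smul_eq_mul, Prod.fst_sub, Prod.snd_sub, Prod.fst_neg, Prod.snd_neg, mul_zero,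
    mul_one] at hab
  have k1 : |(sA : ℤ) * dt.1| ≤ 49 ∧ |(sA : ℤ) * dt.2| ≤ 49 := by
    rw [abs_mul, abs_mul, Nat.abs_cast]
    have : (sA : ℤ) ≤ 49 := by exact_mod_cast a2
    constructor <;> nlinarith [abs_nonneg dt.1, abs_nonneg dt.2]
  rw [abs_le, abs_le] at k1
  generalize (sA : ℤ) * dt.1 = X at *
  generalize (sA : ℤ) * dt.2 = Y at *
  have k2 : |g0.1| ≤ 105 ∧ |g0.2| ≤ 105 := by
    rw [abs_le, abs_le]
    omega
  have k3 : hn g0 ≤ 3 * 105 := hn_le_coord k2.1 k2.2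
  have k4 : hn (D • g0) ≤ D * (3 * 105) := by
    refine hn_le fun d hd => ?_
    rw [ip_smul_left]
    have := ip_le_hn g0 hd
    exact mul_le_mul_of_nonneg_left (by linarith) hD.le
  have k5 := hn_add (t - D • g0) (D • g0)
  rw [sub_add_cancel] at k5
  linarith

/-- the two connectors are far from each other -/
theorem rc_rc_far {p p' q q' : ℤ × ℤ} {sA sB : ℕ} (hD : 0 < D) (hκ : κ ≤ D) (hg : hn (t - D • g0) ≤ κ)
    (htt : 1000 * D ≤ hn t) (hA : RH S g0 g0 dt sA p p') (hB : RH S g0 0 (-up) sB q q') (h1 : sA ≤ 49) (h2 : sB ≤ 49)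
    {x y : Pt} (hx : RC g0 g0 dt sA p p' x) (hy : RC g0 0 (-up) sB q q' y) : Far x y := by
  have key : ¬ (y - x = 0 ∨ y - x ∈ dirs) := by
    intro hc
    have k1 := near_of_dir hc
    have k2 := rc_box hA hx
    have k3 := rc_box hB hy
    rw [nr_iff] at k2 k3
    rw [abs_le, abs_le] at k1
    simp only [Prod.fst_zero, Prod.snd_zero] at k3
    have k4 : |g0.1| ≤ 123 ∧ |g0.2| ≤ 123 := by
      rw [abs_le, abs_le]
      omega
    have k5 : hn g0 ≤ 3 * 123 := hn_le_coord k4.1 k4.2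
    have k6 : hn (D • g0) ≤ D * (3 * 123) := by
      refine hn_le fun d hd => ?_
      rw [ip_smul_left]
      have := ip_le_hn g0 hd
      exact mul_le_mul_of_nonneg_left (by linarith) hD.le
    have k7 := hn_add (t - D • g0) (D • g0)
    rw [sub_add_cancel] at k7
    linarith
  refine ⟨fun hc => key (Or.inl ?_), fun hc => key (Or.inr hc), fun hc => key (Or.inr ?_)⟩
  · rw [hc, sub_self]
  · have := neg_mem_dirs hc
    rwa [neg_sub] at this

/-- **clearance of the connector at the end of M** -/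
theorem clearA {p p' : ℤ × ℤ} {sA : ℕ} (hD : 0 < D) (hκ : κ ≤ D) (hdt : dt ∈ dirs) (h0 : (0 : Pt) ∈ V)
    (hg : hn (t - D • g0) ≤ κ) (hV : ∀ q ∈ V, 0 < ip (q - t) dt → ρ ≤ hn (q - t)) (htt : 1000 * D ≤ hn t)
    (hρ : 1000 * D ≤ ρ) (hS : ∀ g ∈ S, ∀ q ∈ V, ¬ nr 3 (ce (8 * D) (q - t)) g) (h : RH S g0 g0 dt sA p p')
    (h49 : sA ≤ 49) {x : Pt} (hx : RC g0 g0 dt sA p p' x) :
    x = g0 ∨ x = g0 + dt ∨ (4 * D ≤ hn (D • x) ∧ ∀ q ∈ V, 3 * D ≤ hn (q - D • x)) := by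
  refine rc_clear h hD hκ hg h0 hS (fun s h2 hs => ?_) hx
  refine ray_front_clear hD hκ hdt h0 (by linarith) hg hV h2 ?_
  have h3 : (s : ℤ) ≤ 49 := by omega
  have := mul_le_mul_of_nonneg_right h3 hD.le
  linarith

/-- **clearance of the connector at the start of M** -/
theorem clearB {p p' : ℤ × ℤ} {sB : ℕ} (hD : 0 < D) (hκ : κ ≤ D) (h0 : (0 : Pt) ∈ V)
    (hg : hn (t - D • g0) ≤ κ) (hV : ∀ q ∈ V, ip q up < 0 → ρ ≤ hn q)
    (hρ : 1000 * D ≤ ρ) (hS : ∀ g ∈ S, ∀ q ∈ V, ¬ nr 3 (ce (8 * D) (q - t)) g) (h : RH S g0 0 (-up) sB p p')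
    (h49 : sB ≤ 49) {x : Pt} (hx : RC g0 0 (-up) sB p p' x) :
    x = 0 ∨ x = -up ∨ (4 * D ≤ hn (D • x) ∧ ∀ q ∈ V, 3 * D ≤ hn (q - D • x)) := by
  have h1 := rc_clear h hD hκ hg h0 hS (fun s h2 hs => ?_) hx
  · rwa [zero_add] at h1
  refine ray_back_clear hD hV h2 ?_
  have h3 : (s : ℤ) ≤ 49 := by omega
  have := mul_le_mul_of_nonneg_right h3 hD.le
  linarith

/-- **the walk through the cells near the two tips and the high cell** -/
theorem rays_walk {zU : Pt} (hD : 0 < D) (hκ : κ ≤ D) (hdt : dt ∈ dirs) (hg : hn (t - D • g0) ≤ κ)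
    (hV1 : ∀ q ∈ V, 0 < ip (q - t) dt → ρ ≤ hn (q - t)) (hV2 : ∀ q ∈ V, ip q up < 0 → ρ ≤ hn q) (hK : 1000 ≤ K)
    (hρ : 2 * (K * D) + 1000 * D ≤ ρ) (hN1 : |g0.1| ≤ N0) (hN2 : |g0.2| ≤ N0) (hR : 0 ≤ R)
    (hc1 : Relation.ReflTransGen (fun f g => ARM.adj f g ∧ nr R 0 g ∧ ∀ p ∈ V, ¬ nr 3 (ce (8 * D) (p - t)) g)
      (ce (8 * D) (((K : ℤ) * D) • dt)) (ce (8 * D) (D • (-g0 - (K : ℤ) • up))))
    (hc2 : Relation.ReflTransGen (fun f g => ARM.adj f g ∧ nr R 0 g ∧ ∀ p ∈ V, ¬ nr 3 (ce (8 * D) (p - t)) g)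
      (ce (8 * D) (((K : ℤ) * D) • dt)) (ce (8 * D) zU)) :
    ∃ (n : ℕ) (w : ℕ → ℤ × ℤ), (∀ i, i < n → ARM.adj (w i) (w (i + 1))) ∧
      (∀ i, i ≤ n → nr (R + N0 + K) 0 (w i) ∧ ∀ p ∈ V, ¬ nr 3 (ce (8 * D) (p - t)) (w i)) ∧
      w 0 = c8 (((49 : ℕ) : ℤ) • dt) ∧ w n = ce (8 * D) zU ∧ ∃ i, i ≤ n ∧ w i = c8 (-g0 - ((49 : ℕ) : ℤ) • up) := by
  have hN0 : 0 ≤ N0 := (abs_nonneg _).trans hN1
  have hK' : (1000 : ℤ) ≤ K := by exact_mod_cast hK
  obtain ⟨G, hG⟩ : ∃ G : ℤ × ℤ → Prop, G = fun g => nr (R + N0 + K) 0 g ∧ ∀ p ∈ V, ¬ nr 3 (ce (8 * D) (p - t)) g := ⟨_, rfl⟩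
  have e1 : ce (8 * D) (((K : ℤ) * D) • dt) = c8 ((K : ℤ) • dt) := by
    rw [← ce_node hD, smul_smul, mul_comm (K : ℤ) D]
  rw [e1] at hc1 hc2
  rw [ce_node hD] at hc1
  have up1 : ∀ {x y : ℤ × ℤ}, Relation.ReflTransGen (fun f g => ARM.adj f g ∧ nr R 0 g ∧
      ∀ p ∈ V, ¬ nr 3 (ce (8 * D) (p - t)) g) x y → Relation.ReflTransGen (fun f g => ARM.adj f g ∧ G g) x y := by
    intro x y hxy
    refine Relation.ReflTransGen.mono (fun f g hfg => ⟨hfg.1, ?_⟩) _ _ hxy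
    rw [hG]
    exact ⟨nr_mono (by linarith) hfg.2.1, hfg.2.2⟩
  obtain ⟨d1, d2⟩ := dir_coord dt hdt
  have gA : ∀ s : ℕ, 49 ≤ s → s ≤ K → G (c8 ((s : ℤ) • dt)) := by
    intro s hs1 hs2
    have h1 : (49 : ℤ) ≤ s := by exact_mod_cast hs1
    have h2 : (s : ℤ) ≤ K := by exact_mod_cast hs2
    rw [hG]
    refine ⟨?_, ray_gd_front hD hdt hV1 (by linarith) (by linarith) ?_⟩
    · have k1 : |(s : ℤ) * dt.1| ≤ K ∧ |(s : ℤ) * dt.2| ≤ K := by
        rw [abs_mul, abs_mul, Nat.abs_cast]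
        constructor <;> nlinarith [abs_nonneg dt.1, abs_nonneg dt.2]
      rw [abs_le, abs_le] at k1
      rw [nr_zero, abs_le, abs_le]
      unfold c8
      simp only [Prod.smul_fst, Prod.smul_snd, smul_eq_mul]
      generalize (s : ℤ) * dt.1 = X at *
      generalize (s : ℤ) * dt.2 = Y at *
      omega
    · have := mul_le_mul_of_nonneg_right h2 hD.le
      linarith
  have gB : ∀ s : ℕ, 49 ≤ s → s ≤ K → G (c8 (-g0 - (s : ℤ) • up)) := by
    intro s hs1 hs2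
    have h1 : (49 : ℤ) ≤ s := by exact_mod_cast hs1
    have h2 : (s : ℤ) ≤ K := by exact_mod_cast hs2
    rw [hG]
    refine ⟨?_, ray_gd_back hD hκ hg hV2 (by linarith) (by linarith) ?_⟩
    · rw [abs_le] at hN1 hN2
      rw [nr_zero, abs_le, abs_le]
      unfold c8 up
      simp only [Prod.smul_fst, Prod.smul_snd, smul_eq_mul, Prod.fst_sub, Prod.snd_sub, Prod.fst_neg, Prod.snd_neg]
      omega
    · have := mul_le_mul_of_nonneg_right h2 hD.le
      linarith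
  -- the rays
  have wA : Relation.ReflTransGen (fun f g => ARM.adj f g ∧ G g) (c8 ((K : ℤ) • dt)) (c8 (((49 : ℕ) : ℤ) • dt)) := by
    refine rtg_symm ?_ (gA 49 le_rfl (by omega))
    exact cells_walk (G := G) (p := fun s : ℕ => (s : ℤ) • dt) (a := 49) (b := K) (by omega)
      (fun s _ _ => c8_dir hdt s) (fun s h1 h2 => gA s h1 h2)
  have wB : Relation.ReflTransGen (fun f g => ARM.adj f g ∧ G g) (c8 (-g0 - (K : ℤ) • up))
      (c8 (-g0 - ((49 : ℕ) : ℤ) • up)) := by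
    refine rtg_symm ?_ (gB 49 le_rfl (by omega))
    exact cells_walk (G := G) (p := fun s : ℕ => -g0 - (s : ℤ) • up) (a := 49) (b := K) (by omega)
      (fun s _ _ => c8_up (-g0) s) (fun s h1 h2 => gB s h1 h2)
  obtain ⟨n, w, k1, k2, k3, k4, k5⟩ := walk_three (G := G) (gA K (by omega) le_rfl) wA ((up1 hc1).trans wB) (up1 hc2)
  refine ⟨n, w, k1, fun i hi => ?_, k3, k4, k5⟩
  have := k2 i hi
  rw [hG] at this
  exact this

end tips

/-! ### neighbours of the two ends -/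

/-- the classification of the allowed nodes -/
def Clr (V : Set Pt) (g0 dt : Pt) (D : ℤ) (x : Pt) : Prop :=
  x = g0 ∨ x = g0 + dt ∨ x = 0 ∨ x = -up ∨ (4 * D ≤ hn (D • x) ∧ ∀ q ∈ V, 3 * D ≤ hn (q - D • x))

section ends

variable {V : Set Pt} {t dt g0 : Pt} {D κ : ℤ}

lemma hn_g0 (hD : 0 < D) (hκ : κ ≤ D) (hg : hn (t - D • g0) ≤ κ) (htt : 1000 * D ≤ hn t) : 999 ≤ hn g0 := by
  by_contra hc
  have h1 : hn g0 ≤ 998 := by omega
  have h2 : hn (D • g0) ≤ D * 998 := by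
    refine hn_le fun d hd => ?_
    rw [ip_smul_left]
    have := ip_le_hn g0 hd
    exact mul_le_mul_of_nonneg_left (by linarith) hD.le
  have h3 := hn_add (t - D • g0) (D • g0)
  rw [sub_add_cancel] at h3
  linarith

lemma hn_dir {x : Pt} (hx : x ∈ dirs) : hn x = 2 := by
  have := hn_smul_d hx (s := 1) (by norm_num)
  rwa [one_smul] at this

/-- **the only allowed neighbour of g0** -/
theorem clr_n1 (hD : 0 < D) (hκ : κ < D) (ht : t ∈ V) (hg : hn (t - D • g0) ≤ κ)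
    (htt : 1000 * D ≤ hn t) {x : Pt} (hx : Clr V g0 dt D x) (h : x - g0 ∈ dirs) : x = g0 + dt := by
  have hgg := hn_g0 hD hκ.le hg htt
  have h2 := hn_dir h
  have h3 : 997 ≤ hn x := by
    have := hn_sub x (x - g0)
    rw [show x - (x - g0) = g0 by abel] at this
    linarith
  rcases hx with rfl | hx | rfl | rfl | ⟨_, hx⟩
  · rw [sub_self] at h2
    have : hn (0 : Pt) = 0 := by decide
    omega
  · exact hx
  · have : hn (0 : Pt) = 0 := by decide
    omega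
  · have : hn (-up) = 2 := by decide
    omega
  · exfalso
    have h4 := hx t ht
    have h5 := hn_sub (t - D • g0) (D • (x - g0))
    have e1 : t - D • g0 - D • (x - g0) = t - D • x := by
      rw [smul_sub]
      abel
    rw [e1, hn_smul_d h hD.le] at h5
    linarith

/-- **the only allowed neighbour of 0** -/
theorem clr_n2 (hD : 0 < D) (hκ : κ < D) (hdt : dt ∈ dirs) (hg : hn (t - D • g0) ≤ κ)
    (htt : 1000 * D ≤ hn t) {x : Pt} (hx : Clr V g0 dt D x) (h : x ∈ dirs) : x = -up := by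
  have hgg := hn_g0 hD hκ.le hg htt
  have h2 := hn_dir h
  rcases hx with rfl | rfl | rfl | hx | ⟨hx, _⟩
  · omega
  · exfalso
    have h3 := hn_sub (g0 + dt) dt
    rw [add_sub_cancel_right, hn_dir hdt] at h3
    omega
  · have : hn (0 : Pt) = 0 := by decide
    omega
  · exact hx
  · exfalso
    rw [hn_smul_d h hD.le] at hx
    linarith

/-- **the allowed neighbours of -up** -/
theorem clr_n3 (hD : 0 < D) (hκ : κ < D) (hdt : dt ∈ dirs) (hg : hn (t - D • g0) ≤ κ)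
    (htt : 1000 * D ≤ hn t) {x : Pt} (hx : Clr V g0 dt D x) (h : x + up ∈ dirs) : x = 0 ∨ x = -up - up := by
  have hgg := hn_g0 hD hκ.le hg htt
  have h2 := hn_dir h
  have h3 : hn x ≤ 4 := by
    have := hn_sub (x + up) up
    rw [add_sub_cancel_right, show hn up = 2 by decide] at this
    linarith
  rcases hx with rfl | rfl | hx | rfl | ⟨hx, _⟩
  · omega
  · exfalso
    have h4 := hn_sub (g0 + dt) dt
    rw [add_sub_cancel_right, hn_dir hdt] at h4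
    omega
  · exact Or.inl hx
  · rw [neg_add_cancel] at h
    exact absurd h (by decide)
  · right
    have key : ∀ d ∈ dirs, 4 ≤ hn (-up + d) → d = -up := by decide
    have e : x = -up + (x + up) := by abel
    have h4 : 4 ≤ hn (-up + (x + up)) := by
      rw [← e]
      by_contra hc
      have h5 : hn x ≤ 3 := by omega
      have h6 : hn (D • x) ≤ D * 3 := by
        refine hn_le fun d hd => ?_
        rw [ip_smul_left]
        have := ip_le_hn x hd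
        exact mul_le_mul_of_nonneg_left (by linarith) hD.le
      linarith
    rw [e, key _ h h4]
    abel

end ends

end ART

end HexObs
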