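import Pool.Agent.ART.TopJ
import Pool.Agent.ART.CyTSt
import Pool.Agent.ART.NumT
import Pool.Agent.ARM.RootN1

/-!
# ART, block B (helper94): numbers and the two inner sums for closed words rooted at the top

* `root_numT`, `final_numT` : the numbers of ExCTs for a closed word rooted at the top;
* `shiftT_le`, **`rerootT`** : the sum over the rotations of a closed word (cuts of one bridge);
* `rev_C0T` : the reversed word.
-/

set_option autoImplicit false

namespace HexObs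

namespace ART

open Finset TS SDN SIM NTA TIP ARM

open TIP.Nf (cz mem_cz nc_cz rank_lt rank_sum card_rank cz_split in_mid in_app in_mono Dt NeW)

open scoped ENNReal

open BM (Lb gf_Lb)

/-! ### numbers -/

lemma root_numT {b i n a : ℕ} {g : ℝ} (hg : 0 ≤ g) (hbi : b ≤ i) :
    ENNReal.ofReal (6 * xc⁻¹) *
      ENNReal.ofReal (g * (Ub b / (4 ^ b * ml b)) / (1 + ((n + 1 - a : ℕ) : ℝ) / ml b) ^ 5) ≤
      ENNReal.ofReal (6 * xc⁻¹ * (g * (Ub b / (4 ^ b * ml b)))) * ENNReal.ofReal (ARM.wt n a i) := by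
  have hxc := xc_pos
  have hU := Ub_pos b
  have hm := ml_pos b
  have hmi := ml_pos i
  have hml : ml b ≤ ml i := ml_le hbi
  obtain ⟨y, hy⟩ : ∃ y : ℕ, y = n + 1 - a := ⟨_, rfl⟩
  obtain ⟨x, hx⟩ : ∃ x : ℕ, x = n - a := ⟨_, rfl⟩
  have hxy : (x : ℝ) ≤ y := by exact_mod_cast (show x ≤ y by omega)
  have hy0 : (0 : ℝ) ≤ y := Nat.cast_nonneg y
  have hx0 : (0 : ℝ) ≤ x := Nat.cast_nonneg x
  have hwt : ARM.wt n a i = ((1 + (x : ℝ) / ml i) ^ 4)⁻¹ := by
    unfold ARM.wt
    rw [← hx, Real.rpow_neg (by positivity)]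
    norm_cast
  rw [← hy, hwt, ← ENNReal.ofReal_mul (by positivity), ← ENNReal.ofReal_mul (by positivity)]
  refine ENNReal.ofReal_le_ofReal ?_
  have h2 : (1 + (x : ℝ) / ml i) ^ 4 ≤ (1 + (y : ℝ) / ml b) ^ 5 := by
    have h3 : (x : ℝ) / ml i ≤ (y : ℝ) / ml b := div_le_div₀ hy0 hxy hm hml
    have h4 : (0 : ℝ) ≤ (x : ℝ) / ml i := by positivity
    calc (1 + (x : ℝ) / ml i) ^ 4 ≤ (1 + (y : ℝ) / ml b) ^ 4 := pow_le_pow_left₀ (by positivity) (by linarith) 4
      _ ≤ (1 + (y : ℝ) / ml b) ^ 5 := pow_le_pow_right₀ (by linarith) (by norm_num)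
  calc 6 * xc⁻¹ * (g * (Ub b / (4 ^ b * ml b)) / (1 + (y : ℝ) / ml b) ^ 5)
      = 6 * xc⁻¹ * (g * (Ub b / (4 ^ b * ml b))) * ((1 + (y : ℝ) / ml b) ^ 5)⁻¹ := by ring
    _ ≤ 6 * xc⁻¹ * (g * (Ub b / (4 ^ b * ml b))) * ((1 + (x : ℝ) / ml i) ^ 4)⁻¹ := by
        refine mul_le_mul_of_nonneg_left ?_ (by positivity)
        exact inv_anti₀ (by positivity) h2

lemma ml_rpow5 (b : ℕ) : (ml b) ^ (5 / 2 : ℝ) = 4 ^ b * ml b := by
  have hm := ml_pos b
  rw [show (5 / 2 : ℝ) = 3 / 2 + 1 by norm_num, Real.rpow_add hm, Real.rpow_one, T2.ml_rpow]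

lemma prT_le {n b : ℕ} (hn : 1 ≤ n) :
    prT n b ≤ (2 : ℝ) ^ ((43 / 24 : ℝ) * (b : ℝ)) * (4 ^ b * ml b) * (n : ℝ) ^ (-(5 / 2) : ℝ) := by
  have hn0 : (0 : ℝ) < n := by exact_mod_cast hn
  have hm := ml_pos b
  unfold prT
  rw [mul_assoc]
  refine mul_le_mul_of_nonneg_left ?_ (by positivity)
  calc (ml b / max (n : ℝ) (ml b)) ^ (5 / 2 : ℝ) ≤ (ml b / n) ^ (5 / 2 : ℝ) := by
        refine Real.rpow_le_rpow (by positivity) ?_ (by norm_num)
        exact div_le_div_of_nonneg_left hm.le hn0 (le_max_left _ _)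
    _ = (4 ^ b * ml b) * (n : ℝ) ^ (-(5 / 2) : ℝ) := by
        rw [Real.div_rpow hm.le hn0.le, ml_rpow5, div_eq_mul_inv, ← Real.rpow_neg hn0.le]

lemma final_numT (hX : TPC.XLow) {κ : ℝ} (hκ : 0 < κ) : ∃ K : ℝ, 0 < K ∧ ∀ (G : ℝ≥0∞) (b J n h : ℕ) (A g : ℝ), 1 ≤ n →
    0 ≤ A → 0 ≤ g → κ * Ub b ≤ h →
    G * (ENNReal.ofReal ((h : ℝ) * h) * Xb b ^ 2) ≤ ENNReal.ofReal (A * prT n (b + J)) *
      ENNReal.ofReal (g * (Ub b / (4 ^ b * ml b))) →
    G ≤ ENNReal.ofReal (K * A * g * 64 ^ J * (n : ℝ) ^ (-(5 / 2) : ℝ)) := by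
  obtain ⟨c, hc, hX⟩ := hX
  obtain ⟨c', C', hc', -, hU2⟩ := JNT.JoT.Ub_two
  refine ⟨1 / (κ ^ 2 * c' * c), by positivity, fun G b J n h A g hn hA hg hh hG => ?_⟩
  have hU := Ub_pos b
  have hm := ml_pos b
  have hn0 : (0 : ℝ) < n := by exact_mod_cast hn
  have hh0 : 0 < (h : ℝ) := lt_of_lt_of_le (by positivity) hh
  have hx0 : (0 : ℝ) < (2 : ℝ) ^ (25 / 24 * (b : ℝ)) := by positivity
  have h1 : G * ENNReal.ofReal ((h : ℝ) * h * (c * (2 : ℝ) ^ (25 / 24 * (b : ℝ)))) ≤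
      ENNReal.ofReal (A * prT n (b + J) * (g * (Ub b / (4 ^ b * ml b)))) * 1 := by
    rw [mul_one, ENNReal.ofReal_mul (mul_nonneg hA (prT_nonneg _ _)), ENNReal.ofReal_mul (by positivity)]
    refine le_trans ?_ hG
    exact mul_le_mul' le_rfl (mul_le_mul' le_rfl (hX b))
  have h2 := ARM.div_of_mul (by positivity) (mul_nonneg (mul_nonneg hA (prT_nonneg _ _)) (by positivity)) h1
  rw [mul_one] at h2
  refine h2.trans (ENNReal.ofReal_le_ofReal ?_)
  rw [div_le_iff₀ (by positivity)]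
  have h3 := prT_up64 n b J
  have h4 := prT_le (b := b) hn
  have h5 : prT n (b + J) ≤ 64 ^ J * ((2 : ℝ) ^ ((43 / 24 : ℝ) * (b : ℝ)) * (4 ^ b * ml b) * (n : ℝ) ^ (-(5 / 2) : ℝ)) :=
    h3.trans (mul_le_mul_of_nonneg_left h4 (by positivity))
  have h6 := (hU2 b).1
  have e1 : (2 : ℝ) ^ ((43 / 24 : ℝ) * (b : ℝ)) = (2 : ℝ) ^ (3 / 4 * (b : ℝ)) * (2 : ℝ) ^ (25 / 24 * (b : ℝ)) := by
    rw [← Real.rpow_add (by norm_num)]
    congr 1
    ring
  obtain ⟨X, hXd⟩ : ∃ X : ℝ, X = (2 : ℝ) ^ (25 / 24 * (b : ℝ)) := ⟨_, rfl⟩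
  obtain ⟨V, hV⟩ : ∃ V : ℝ, V = (2 : ℝ) ^ (3 / 4 * (b : ℝ)) := ⟨_, rfl⟩
  obtain ⟨ν, hν⟩ : ∃ ν : ℝ, ν = (n : ℝ) ^ (-(5 / 2) : ℝ) := ⟨_, rfl⟩
  have hν0 : 0 < ν := by rw [hν]; positivity
  rw [← hXd] at hx0 e1 ⊢
  rw [← hV] at h6 e1
  have hV0 : 0 < V := by rw [hV]; positivity
  rw [e1, ← hν] at h5
  rw [← hν]
  calc A * prT n (b + J) * (g * (Ub b / (4 ^ b * ml b))) ≤
      A * (64 ^ J * (V * X * (4 ^ b * ml b) * ν)) * (g * (Ub b / (4 ^ b * ml b))) := by gcongr
    _ = A * g * 64 ^ J * ν * X * (Ub b * V) := by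
        field_simp
    _ ≤ A * g * 64 ^ J * ν * X * (Ub b * (Ub b / c')) := by
        have : V ≤ Ub b / c' := by
          rw [le_div_iff₀ hc']
          linarith
        gcongr
    _ = 1 / (κ ^ 2 * c' * c) * A * g * 64 ^ J * ν * ((κ * Ub b) * (κ * Ub b) * (c * X)) := by
        field_simp
    _ ≤ 1 / (κ ^ 2 * c' * c) * A * g * 64 ^ J * ν * ((h : ℝ) * h * (c * X)) := by gcongr

/-! ### the rotations -/

/-- **the rotations of the closed words rooted at the top**: every closed word is counted at most six times -/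
lemma shiftT_le (N : ℕ) (f : List Bool → ℝ≥0∞) :
    ∑' t : CyT N, wE (t : List Bool) * ∑ a ∈ range N, f ((t : List Bool).rotate a) ≤
      6 * ∑' s : POL.Cy N, wE (s : List Bool) * f s := by
  classical
  rcases Nat.eq_zero_or_pos N with hN | hN
  · subst hN
    simp
  have h1 : ∀ a ∈ range N, ∑' t : CyT N, wE (t : List Bool) * f ((t : List Bool).rotate a) ≤
      ∑' s : POL.Cy N, if (s : List Bool).rotate (N - a) ∈ CyT N then wE (s : List Bool) * f s else 0 := by
    intro a ha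
    rw [mem_range] at ha
    obtain ⟨g, hg⟩ : ∃ g : CyT N → POL.Cy N, g = fun t : CyT N => (⟨(t : List Bool).rotate a, POL.Cy.rot t.2.1 a⟩ : POL.Cy N) :=
      ⟨_, rfl⟩
    have hinj : Function.Injective g := by
      rintro ⟨t, ht⟩ ⟨t', ht'⟩ he
      rw [hg] at he
      simp only [Subtype.mk.injEq] at he
      refine Subtype.ext ?_
      show t = t'
      rw [← rotate_back ht.1.1 ha.le, he, rotate_back ht'.1.1 ha.le]
    refine le_trans (le_of_eq ?_) (ENNReal.tsum_comp_le_tsum_of_injective hinj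
      (fun s : POL.Cy N => if (s : List Bool).rotate (N - a) ∈ CyT N then wE (s : List Bool) * f s else 0))
    refine tsum_congr fun t => ?_
    rw [hg]
    simp only
    rw [rotate_back t.2.1.1 ha.le, if_pos t.2, wE_rotate]
  have h2 : ∀ s : POL.Cy N, ((range N).filter fun a => (s : List Bool).rotate (N - a) ∈ CyT N).card ≤ 6 := by
    intro s
    refine le_trans ?_ (top_count s.2 hN).2
    refine Finset.card_le_card_of_injOn (fun a => (N - a) % N) (fun a ha => ?_) (fun a ha b hb he => ?_)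
    · rw [mem_coe, mem_filter, mem_range] at ha
      rw [mem_coe, mem_filter, mem_range]
      refine ⟨Nat.mod_lt _ hN, ?_⟩
      have h3 := ha.2
      rw [cyT_eq] at h3
      have h4 : (s : List Bool).rotate ((N - a) % N) = (s : List Bool).rotate (N - a) := by
        have := List.rotate_mod (s : List Bool) (N - a)
        rwa [s.2.1] at this
      rw [h4]
      exact h3
    · rw [mem_coe, mem_filter, mem_range] at ha hb
      have ha1 := ha.1
      have hb1 := hb.1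
      simp only at he
      rcases Nat.eq_zero_or_pos a with h0 | h0
      · subst h0
        rcases Nat.eq_zero_or_pos b with h5 | h5
        · exact h5.symm
        · rw [Nat.sub_zero, Nat.mod_self, Nat.mod_eq_of_lt (by omega)] at he
          omega
      · rw [Nat.mod_eq_of_lt (by omega)] at he
        rcases Nat.eq_zero_or_pos b with h5 | h5
        · subst h5
          rw [Nat.sub_zero, Nat.mod_self] at he
          omega
        · rw [Nat.mod_eq_of_lt (by omega)] at he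
          omega
  calc ∑' t : CyT N, wE (t : List Bool) * ∑ a ∈ range N, f ((t : List Bool).rotate a)
      = ∑ a ∈ range N, ∑' t : CyT N, wE (t : List Bool) * f ((t : List Bool).rotate a) := by
        rw [← Summable.tsum_finsetSum fun _ _ => ENNReal.summable]
        exact tsum_congr fun t => Finset.mul_sum _ _ _
    _ ≤ ∑ a ∈ range N, ∑' s : POL.Cy N, (if (s : List Bool).rotate (N - a) ∈ CyT N then wE (s : List Bool) * f s else 0) :=
        Finset.sum_le_sum h1
    _ = ∑' s : POL.Cy N, ∑ a ∈ range N, (if (s : List Bool).rotate (N - a) ∈ CyT N then wE (s : List Bool) * f s else 0) := by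
        rw [Summable.tsum_finsetSum fun _ _ => ENNReal.summable]
    _ ≤ ∑' s : POL.Cy N, 6 * (wE (s : List Bool) * f s) := by
        refine ENNReal.tsum_le_tsum fun s => ?_
        rw [← Finset.sum_filter, Finset.sum_const, nsmul_eq_mul]
        refine mul_le_mul' ?_ le_rfl
        exact_mod_cast h2 s
    _ = _ := ENNReal.tsum_mul_left

/-- **re-rooting**: all the closed words of G have at least q cuts in some rotation -/
lemma rerootT {WB G : Set (List Bool)} {b n : ℕ} {q : ℝ≥0∞}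
    (hG : ∀ L ∈ G, ∃ β : Bool, L ++ [β] ∈ CyT (n + 1) ∧ q ≤ ∑ a ∈ range (n + 1), T2.cnt WB b ((L ++ [β]).rotate a)) :
    gf G * q ≤ ENNReal.ofReal (6 * xc⁻¹) *
      ∑' P : Lb b, wE (P : List Bool) * gf {Q | Q ∈ WB ∧ (P : List Bool) ++ Q ∈ POL.Cy (n + 1)} := by
  classical
  have hxc := xc_pos
  have hone : ENNReal.ofReal xc⁻¹ * ENNReal.ofReal xc = 1 := by
    rw [← ENNReal.ofReal_mul (by positivity), inv_mul_cancel₀ hxc.ne', ENNReal.ofReal_one]
  have e6 : ENNReal.ofReal (6 * xc⁻¹) = ENNReal.ofReal xc⁻¹ * 6 := by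
    rw [mul_comm, ENNReal.ofReal_mul (by positivity)]
    norm_num
  choose! β h1 h2 using hG
  obtain ⟨g, hg⟩ : ∃ g : G → CyT (n + 1), g = fun L => ⟨(L : List Bool) ++ [β L], h1 _ L.2⟩ := ⟨_, rfl⟩
  have hinj : Function.Injective g := by
    rintro ⟨L, hL⟩ ⟨L', hL'⟩ he
    rw [hg] at he
    simp only [Subtype.mk.injEq] at he
    have h3 := List.append_inj_left' he rfl
    exact Subtype.ext h3
  calc gf G * q = ∑' L : G, wE (L : List Bool) * q := by
        unfold gf
        rw [ENNReal.tsum_mul_right]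
    _ ≤ ∑' L : G, ENNReal.ofReal xc⁻¹ * (fun t : CyT (n + 1) => wE (t : List Bool) *
          ∑ a ∈ range (n + 1), T2.cnt WB b ((t : List Bool).rotate a)) (g L) := by
        refine ENNReal.tsum_le_tsum fun L => ?_
        rw [hg]
        simp only
        rw [wE_append, T2.wE_letter]
        calc wE (L : List Bool) * q = (ENNReal.ofReal xc⁻¹ * ENNReal.ofReal xc) * (wE (L : List Bool) * q) := by
              rw [hone, one_mul]
          _ ≤ (ENNReal.ofReal xc⁻¹ * ENNReal.ofReal xc) * (wE (L : List Bool) *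
              ∑ a ∈ range (n + 1), T2.cnt WB b (((L : List Bool) ++ [β L]).rotate a)) :=
              mul_le_mul' le_rfl (mul_le_mul' le_rfl (h2 _ L.2))
          _ = _ := by ring
    _ = ENNReal.ofReal xc⁻¹ * ∑' L : G, (fun t : CyT (n + 1) => wE (t : List Bool) *
          ∑ a ∈ range (n + 1), T2.cnt WB b ((t : List Bool).rotate a)) (g L) := ENNReal.tsum_mul_left
    _ ≤ ENNReal.ofReal xc⁻¹ * ∑' t : CyT (n + 1), wE (t : List Bool) *
          ∑ a ∈ range (n + 1), T2.cnt WB b ((t : List Bool).rotate a) :=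
        mul_le_mul' le_rfl (ENNReal.tsum_comp_le_tsum_of_injective hinj
          (fun t : CyT (n + 1) => wE (t : List Bool) * ∑ a ∈ range (n + 1), T2.cnt WB b ((t : List Bool).rotate a)))
    _ ≤ ENNReal.ofReal xc⁻¹ * (6 * ∑' s : POL.Cy (n + 1), wE (s : List Bool) * T2.cnt WB b s) :=
        mul_le_mul' le_rfl (shiftT_le (n + 1) (T2.cnt WB b))
    _ ≤ ENNReal.ofReal xc⁻¹ * (6 * ∑' P : Lb b, wE (P : List Bool) * gf {Q | Q ∈ WB ∧ (P : List Bool) ++ Q ∈ POL.Cy (n + 1)}) :=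
        mul_le_mul' le_rfl (mul_le_mul' le_rfl (T2.cnt_sum WB b (n + 1)))
    _ = _ := by rw [e6, mul_assoc]

/-! ### the reversed word -/

/-- the reversed closed word has the same root -/
lemma rev_C0T {n : ℕ} {L : List Bool} (h : L ∈ C0T n) : rev L ∈ C0T n := by
  obtain ⟨b, hb, d, hd, hT⟩ := h
  have h1 := T2.rev_Cy (by omega) hb
  have e : rev (L ++ [b]) = [!b] ++ rev L := by
    unfold rev
    simp
  rw [e] at h1
  have hc := POL.cy_rot h1
  have hlen : (L ++ [b]).length = n + 1 := hb.1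
  have hlen' : (rev L).length = n := by
    rw [rev_length]
    rw [List.length_append, List.length_singleton] at hlen
    omega
  refine ⟨!b, hc, ?_⟩
  -- the frame of the reversed word
  obtain ⟨c, hcd, hf⟩ := RevM.rev_frame (L ++ [b])
  rw [e, hlen] at hf
  have hcn : nrm c = 1 := mem_dirs.1 hcd
  obtain ⟨c', c1, -, f1, f2, -, -⟩ := POL.cy_frame h1
  obtain ⟨d', hd', ed⟩ := dirs_div c hcd d hd
  obtain ⟨d'', hd'', ed'⟩ := dirs_div c' (mem_dirs.2 c1) d' hd'
  refine ⟨d'', hd'', fun s hs => ?_⟩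
  -- every vertex of the new word is a vertex of the old one
  have hper : vx oo up (L ++ [b]) (n + 1) = 0 := hb.2.1
  have hdx : dx up (L ++ [b]) (n + 1) = up := hb.2.2.1
  have hup : vx oo up (L ++ [b]) (n + 1 + 1) = up := by
    rw [vx_succ, hper, hdx, zero_add]
  have g0 : ∀ i, i ≤ n + 1 + 1 → ∃ k, k ≤ n + 1 ∧ vx oo up (L ++ [b]) (n + 1 + 1 - i) = vx oo up (L ++ [b]) k := by
    intro i hi
    rcases Nat.eq_zero_or_pos i with h0 | h0
    · refine ⟨1, by omega, ?_⟩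
      rw [h0, Nat.sub_zero, hup]
      have : vx oo up (L ++ [b]) 1 = oo + up := rfl
      rw [this]
      exact (zero_add up).symm
    · exact ⟨n + 1 + 1 - i, by omega, rfl⟩
  -- the vertex number 1 of the reversed word is the root
  have g1 : vx oo up (L ++ [b]) (n + 1 + 1) + mulE c (vx oo up ([!b] ++ rev L) 1) = 0 := by
    rw [← hf 1 (by omega), show n + 1 + 1 - 1 = n + 1 by omega, hper]
  have key : ∀ i, i ≤ n + 1 → lx d' (vx oo up ([!b] ++ rev L) i - vx oo up ([!b] ++ rev L) 1) := by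
    intro i hi
    obtain ⟨k, hk, e1⟩ := g0 i (by omega)
    have h3 := hT k (by omega)
    have h4 := hf i (by omega)
    rw [e1] at h4
    have h5 : vx oo up (L ++ [b]) k = mulE c (vx oo up ([!b] ++ rev L) i - vx oo up ([!b] ++ rev L) 1) := by
      rw [h4, mulE_sub]
      have h6 : vx oo up (L ++ [b]) (n + 1 + 1) = - mulE c (vx oo up ([!b] ++ rev L) 1) := eq_neg_of_add_eq_zero_left g1
      rw [h6]
      abel
    have h7 : lx d (vx oo up (L ++ [b]) k) := h3
    rw [h5, ← ed, lxc_mulE hcn] at h7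
    exact h7
  -- the rotation
  have hlen1 : ([!b] : List Bool).length = 1 := rfl
  have r0 := f1 0 (Nat.zero_le _)
  rw [hlen1] at f1 f2
  have hsn : s ≤ n + 1 := by
    rw [List.length_append, List.length_singleton] at hs
    omega
  have hv : ∃ i, i ≤ n + 1 ∧ vx oo up ([!b] ++ rev L) i = vx oo up ([!b] ++ rev L) 1 +
      mulE c' (vx oo up (rev L ++ [!b]) s) := by
    rcases Nat.lt_or_ge n s with h3 | h3
    · refine ⟨1, by omega, ?_⟩
      have h4 := f2 1 (by omega)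
      rw [hlen', show n + 1 = s by omega] at h4
      exact h4
    · refine ⟨1 + s, by omega, ?_⟩
      exact f1 s (by omega)
  obtain ⟨i, hi, hv⟩ := hv
  have h3 := key i hi
  rw [hv, add_sub_cancel_left, ← ed', lxc_mulE c1] at h3
  exact h3

end ART

end HexObs
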