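import Pool.Agent.ART.Rays

/-!
# ART, row J4a (helper9): the nodes of a strand

* `snw`: the centres of two subcells of a strand are connected by its nodes (`snw_last`: head and last);
* **`sn_sn_far`**: strands without a common subcell are far from each other.
-/

set_option autoImplicit false

namespace HexObs

namespace ART

open Finset TS SDN TIW ARM Lane

/-- longer lists have more nodes -/
lemma sn_sub {A B : List (ℤ × ℤ)} {l : List (ℤ × ℤ)} (h : B = l ++ A) {x : Pt} (hx : x ∈ SN A) : x ∈ SN B := by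
  subst h
  rcases hx with ⟨p, hp, hx⟩ | ⟨p, q, hpq, hx⟩
  · exact Or.inl ⟨p, List.mem_append_right _ hp, hx⟩
  · exact Or.inr ⟨p, q, hpq.app l, hx⟩

/-- the step between two consecutive subcells, both directions -/
lemma snw_step {A : List (ℤ × ℤ)} {p q : ℤ × ℤ} (h : Con A p q) (hpq : ARM.adj p q) (g0 : Pt) :
    Relation.ReflTransGen (Sp fun x => ∃ y ∈ SN A, x = g0 + y) (g0 + ctr p) (g0 + ctr q) ∧
    Relation.ReflTransGen (Sp fun x => ∃ y ∈ SN A, x = g0 + y) (g0 + ctr q) (g0 + ctr p) := by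
  have hd : q - p ∈ dirs := adj_dirs hpq
  have hN : ∀ i : ℤ, 0 ≤ i → i ≤ 4 → ctr p + i • (q - p) ∈ SN A := fun i h1 h2 => Or.inr ⟨p, q, h, i, h1, h2, rfl⟩
  have e4 : ctr q = ctr p + (4 : ℤ) • (q - p) := by
    unfold ctr
    refine Prod.ext ?_ ?_ <;>
    · simp only [Prod.fst_add, Prod.snd_add, Prod.smul_fst, Prod.smul_snd, smul_eq_mul, Prod.fst_sub, Prod.snd_sub]
      ring
  constructor
  · have h1 := line_path (A := fun x => ∃ y ∈ SN A, x = g0 + y) (g := g0 + ctr p) hd 4 (fun k _ hk =>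
      ⟨ctr p + (k : ℤ) • (q - p), hN _ (by positivity) (by exact_mod_cast hk), by abel⟩)
    rw [e4, ← add_assoc]
    exact h1
  · have h1 := line_path (A := fun x => ∃ y ∈ SN A, x = g0 + y) (g := g0 + ctr q) (neg_mem_dirs hd) 4 (fun k _ hk =>
      ⟨ctr p + ((4 : ℤ) - k) • (q - p), hN _ (by omega) (by omega), by
        rw [e4, sub_smul, smul_neg]
        abel⟩)
    have e5 : g0 + ctr q + ((4 : ℕ) : ℤ) • -(q - p) = g0 + ctr p := by
      rw [e4, smul_neg]
      push_cast
      abel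
    rwa [e5] at h1

/-- **the centres of a strand are connected by its nodes**: head and every subcell, both directions -/
theorem snw {A : List (ℤ × ℤ)} (hA : A.IsChain ARM.adj) (g0 : Pt) {a p : ℤ × ℤ} (ha : A.head? = some a) (hp : p ∈ A) :
    Relation.ReflTransGen (Sp fun x => ∃ y ∈ SN A, x = g0 + y) (g0 + ctr a) (g0 + ctr p) ∧
    Relation.ReflTransGen (Sp fun x => ∃ y ∈ SN A, x = g0 + y) (g0 + ctr p) (g0 + ctr a) := by
  induction A generalizing a with
  | nil => simp at ha
  | cons b l ih =>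
    simp only [List.head?_cons, Option.some.injEq] at ha
    subst ha
    rcases l with _ | ⟨c, l⟩
    · simp only [List.mem_cons, List.not_mem_nil, or_false] at hp
      rw [hp]
      exact ⟨Relation.ReflTransGen.refl, Relation.ReflTransGen.refl⟩
    · rw [List.isChain_cons_cons] at hA
      rcases List.mem_cons.1 hp with h1 | h1
      · rw [h1]
        exact ⟨Relation.ReflTransGen.refl, Relation.ReflTransGen.refl⟩
      · obtain ⟨h2, h3⟩ := ih hA.2 (a := c) rfl h1
        have mono : ∀ x y, Sp (fun x => ∃ y ∈ SN (c :: l), x = g0 + y) x y → Sp (fun x => ∃ y ∈ SN (b :: c :: l), x = g0 + y) x y := by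
          rintro x y ⟨k1, z, k2, k3⟩
          exact ⟨k1, z, sn_sub (l := [b]) rfl k2, k3⟩
        have h4 := snw_step (A := b :: c :: l) (p := b) (q := c) ⟨[], l, rfl⟩ hA.1 g0
        exact ⟨h4.1.trans (Relation.ReflTransGen.mono mono _ _ h2),
          (Relation.ReflTransGen.mono mono _ _ h3).trans h4.2⟩

/-- head and last -/
theorem snw_last {A : List (ℤ × ℤ)} (hA : A.IsChain ARM.adj) (g0 : Pt) {a p : ℤ × ℤ} (ha : A.head? = some a)
    (hp : A.getLast? = some p) :
    Relation.ReflTransGen (Sp fun x => ∃ y ∈ SN A, x = g0 + y) (g0 + ctr a) (g0 + ctr p) ∧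
    Relation.ReflTransGen (Sp fun x => ∃ y ∈ SN A, x = g0 + y) (g0 + ctr p) (g0 + ctr a) :=
  snw hA g0 ha (List.mem_of_getLast? hp)

/-- **strands without a common subcell are far from each other** -/
theorem sn_sn_far {A B : List (ℤ × ℤ)} (hA : A.IsChain ARM.adj) (hB : B.IsChain ARM.adj) (hAB : ∀ x ∈ A, x ∉ B) (g0 : Pt)
    {x y : Pt} (hx : x ∈ SN A) (hy : y ∈ SN B) : Far (g0 + x) (g0 + y) := by
  obtain ⟨p, q, hp, hq, hpq, i, hi, hi4, rfl⟩ := sn_list hA hx
  obtain ⟨p', q', hp', hq', hpq', i', hi', hi4', rfl⟩ := sn_list hB hy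
  have ne : ∀ {a b : ℤ × ℤ}, a ∈ A → b ∈ B → a ≠ b := fun ha hb h => hAB _ ha (h ▸ hb)
  have h1 := edge_far' hpq hpq' (ne hp hp') (ne hp hq') (ne hq hp') (ne hq hq') hi hi4 hi' hi4'
  have h2 := edge_far' hpq' hpq (ne hp hp').symm (ne hq hp').symm (ne hp hq').symm (ne hq hq').symm hi' hi4' hi hi4
  have e1 : ∀ u v : Pt, (g0 + u) - (g0 + v) = u - v := fun u v => by abel
  refine ⟨fun h => h2.1 ?_, ?_, ?_⟩
  · rw [← e1, h, sub_self]
  · rw [e1]
    exact h2.2
  · rw [e1]
    exact h1.2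

end ART

end HexObs
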