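import Pool.Agent.ART.SandT
import Pool.Agent.ART.BaseT
import Pool.Agent.ART.NoRichT
import Pool.Agent.ART.NWinT
import Pool.Agent.ART.NFT
import Pool.Agent.ART.NtT
import Pool.Agent.ART.ExT
import Pool.Agent.ART.TipT
import Pool.Agent.ART.GlueT
import Pool.Agent.ART.JMassT
import Pool.Agent.ART.EsT
import Pool.Agent.ART.HfLowT
import Pool.Agent.ART.YBadG
import Pool.Agent.ARM.T1

/-!
# ART (helper37): **(T1) at the top**, assembly of the rows
-/

set_option autoImplicit false

namespace HexObs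

namespace ART

open TIP ARM

theorem exT : ExT := exT_of tipT_all

theorem nWinT {κ : ℝ} {C : ℕ} (hκ : 0 < κ) (hR : RegZ κ C) (hL : HfLowT) : NWinT κ C :=
  nWinT_of hκ exT (yBadWSt yMassJ hR) (noRT hR confQ) hL

/-- **row N** -/
theorem nFT_all (hL : HfLowT) : NFT := by
  obtain ⟨κ, hκ, C, -, hR⟩ := regZ_all
  exact nFT_of hκ exT (yBadWSt yMassJ hR) (noRT hR confQ) hL yMassJ

/-- **row Q** -/
theorem ntT_all (hL : HfLowT) : NtT := by
  obtain ⟨κ, hκ, C, -, hR⟩ := regZ_all
  exact ntT_of hκ exT yMassJ (nWinT hκ hR hL) ynSt plNt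

/-- **row G** -/
theorem goodT_all (hJ : JoinT) : GoodT := G3T.glueT hJ jMassT yMassW

/-- **row E3** (extra strands), from the row E1 -/
theorem esTL_all (hM : LoopM) : EsTL := by
  obtain ⟨κ, hκ, C, -, hR⟩ := regZ_all
  exact esTL_of_w (esTLw_of hκ tipT_all hM (yBadG hR) (noRichT hR confQ) hfLowT)

/-- **(T1) at the top** from the open rows -/
theorem t1T_in (hL : HfLowT) (hS : EsTL) (hJ : JoinT) : T1T :=
  t1T_of baseT confQ (nFT_all hL) hS (ntT_all hL) (goodT_all hJ)

/-- **(T1) at the top** from LoopM (row E1) and JoinT (row G1) -/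
theorem t1T_in2 (hM : LoopM) (hJ : JoinT) : T1T := t1T_in hfLowT (esTL_all hM) hJ

end ART

end HexObs
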