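import Pool.Agent.ART.DefsS
import Pool.Agent.ART.Tc
import Pool.Agent.ART.ExCT
import Pool.Agent.ART.RootT
import Pool.Agent.ARM.T2S

/-!
# ART, row D3 (helper47): extra strands of closed words rooted at their top

`t2ST_of : T1T → EsTL2 → TopCr κ C → PairT → BadRootT κ C → T2ST`.
-/

set_option autoImplicit false

namespace HexObs

namespace ART

open Finset TS SDN HexObs.SIM NTA TIP ARM

open scoped ENNReal

/-- the mass of the closed words rooted at the top, without the last letter -/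
lemma c0T_mass : ∃ A : ℝ, 0 < A ∧ ∀ n : ℕ, 1 ≤ n → gf (C0T n) ≤ ENNReal.ofReal (A * (n : ℝ) ^ (-(5 / 2) : ℝ)) := by
  classical
  obtain ⟨C, hC, h⟩ := cyTSt
  have hxc := xc_pos
  refine ⟨xc⁻¹ * C, by positivity, fun n hn => ?_⟩
  have hn0 : (0 : ℝ) < n := by exact_mod_cast hn
  have h1 : gf (C0T n) ≤ ENNReal.ofReal xc⁻¹ * gf (CyT (n + 1)) := by
    refine gf_le_of_inj (fun L => if L ++ [true] ∈ CyT (n + 1) then L ++ [true] else L ++ [false]) (fun L hL => ?_)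
      (fun L _ L' _ he => ?_) _ (fun L _ => ?_)
    · obtain ⟨b, hb⟩ := hL
      by_cases ht : L ++ [true] ∈ CyT (n + 1)
      · simp only [ht, if_true]
      · simp only [ht, if_false]
        rcases b with _ | _
        · exact hb
        · exact (ht hb).elim
    · have h2 : ∀ T : List Bool, (if T ++ [true] ∈ CyT (n + 1) then T ++ [true] else T ++ [false]).dropLast = T := by
        intro T
        split_ifs <;> simp
      have h3 := congrArg List.dropLast he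
      simp only at h3
      rwa [h2, h2] at h3
    · have h2 : wE (if L ++ [true] ∈ CyT (n + 1) then L ++ [true] else L ++ [false]) = ENNReal.ofReal (xc ^ (L.length + 1)) := by
        unfold wE
        split_ifs <;> simp
      rw [h2, ← ENNReal.ofReal_mul (by positivity)]
      unfold wE
      refine ENNReal.ofReal_le_ofReal (le_of_eq ?_)
      rw [pow_succ]
      field_simp
  refine h1.trans ((mul_le_mul' le_rfl (h (n + 1) (by omega))).trans ?_)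
  rw [← ENNReal.ofReal_mul (by positivity), ← mul_assoc]
  refine ENNReal.ofReal_le_ofReal (mul_le_mul_of_nonneg_left ?_ (by positivity))
  refine Real.rpow_le_rpow_of_nonpos hn0 ?_ (by norm_num)
  push_cast
  linarith

lemma ESw_mono {l l' i : ℕ} (h : l ≤ l') : ESw l i ⊆ ESw l' i := by
  rintro L ⟨t, a, b, h1, h2, h3, h4, h5, h6, h7⟩
  have : (2 : ℤ) ^ (l + 1) ≤ 2 ^ (l' + 1) := pow_le_pow_right₀ (by norm_num) (by omega)
  exact ⟨t, a, b, h1, h2, h3, h4, h5.trans this, h6, h7⟩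

/-- row T2ST, one end -/
theorem t2S1T_of {κ : ℝ} {C : ℕ} (hκ : 0 < κ) (hT : T1T) (hE : EsTL2) (hX : TopCr κ C) (hP : PairT) (hB : BadRootT κ C) :
    ∃ (A : ℝ) (b0 : ℕ), 0 < A ∧ ∀ n l i : ℕ, b0 ≤ l → l ≤ i → 1 ≤ n →
      gf {L | L ∈ C0T n ∧ L ∈ ESe l i} ≤
        ENNReal.ofReal (A * (2 : ℝ) ^ (-(1 / 200 : ℝ) * ((i : ℝ) - l)) * (n : ℝ) ^ (-(5 / 2) : ℝ)) := by
  obtain ⟨D, hD, hT⟩ := hT
  obtain ⟨Ce, Be, be, hCe, hBe, hE⟩ := hE (κ / 8) (2 * C) (by positivity)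
  obtain ⟨K, hK, hF⟩ := final_numT TPC.xLow (κ := κ / 8) (by positivity)
  obtain ⟨K3, hK3, hG⟩ := exCT_gen1 3
  obtain ⟨b2, hb2⟩ := ARM.T2.exU hκ 8
  obtain ⟨m00, b3, hX⟩ := hX
  obtain ⟨Bp, b1, hBp, hP⟩ := hP (κ / 8) (2 * C) (by positivity)
  obtain ⟨A0, hA0, hM⟩ := c0T_mass
  have hBe0 : 0 < Be := by linarith
  have hBp0 : 0 < Bp := by linarith
  -- the number q
  obtain ⟨W, hW⟩ : ∃ W : ℝ, W = Be * Bp * 64 * 2 := ⟨_, rfl⟩
  have hW0 : 0 < W := by rw [hW]; positivity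
  obtain ⟨q0, hq0⟩ := pow_unbounded_of_one_lt W (one_lt_two (α := ℝ))
  obtain ⟨q, hq⟩ : ∃ q, q = 200 * (q0 + 1) := ⟨_, rfl⟩
  have hq1 : 2 ≤ q := by omega
  have hWq : W ≤ (2 : ℝ) ^ ((q : ℝ) / 200) := by
    have e : (q : ℝ) / 200 = ((q0 + 1 : ℕ) : ℝ) := by
      rw [hq]
      push_cast
      ring
    rw [e, Real.rpow_natCast]
    exact hq0.le.trans (pow_le_pow_right₀ (by norm_num) (by omega))
  obtain ⟨A, J0, b4, hA, hB⟩ := hB q 10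
  obtain ⟨M, hMd⟩ : ∃ M, M = m00 + J0 + 8 := ⟨_, rfl⟩
  obtain ⟨A3, hA3⟩ : ∃ A3 : ℝ, A3 = A0 * (2 : ℝ) ^ ((q * M : ℕ) : ℝ) := ⟨_, rfl⟩
  have hA30 : 0 < A3 := by rw [hA3]; positivity
  obtain ⟨A1, hA1⟩ : ∃ A1 : ℝ, A1 = K * (K3 * (Ce * Be ^ 6 * 2) * D) * Bp := ⟨_, rfl⟩
  have hA10 : 0 < A1 := by rw [hA1]; positivity
  refine ⟨A3 + A + A1, b1 + b2 + b3 + b4 + be + 1, by positivity, fun n l i hl hli hn => ?_⟩
  have hν : (0 : ℝ) < (n : ℝ) ^ (-(5 / 2) : ℝ) := by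
    have : (0 : ℝ) < n := by exact_mod_cast hn
    positivity
  obtain ⟨ν, hνd⟩ : ∃ ν : ℝ, ν = (n : ℝ) ^ (-(5 / 2) : ℝ) := ⟨_, rfl⟩
  rw [← hνd] at hν ⊢
  obtain ⟨δ, hδ⟩ : ∃ δ, δ = i - l := ⟨_, rfl⟩
  have hδr : (i : ℝ) - l = δ := by
    rw [hδ, Nat.cast_sub hli]
  rw [hδr]
  obtain ⟨y, hy⟩ : ∃ y : ℝ, y = (2 : ℝ) ^ (-(1 / 200 : ℝ) * (δ : ℝ)) := ⟨_, rfl⟩
  have hy0 : 0 < y := by rw [hy]; positivity
  rw [← hy]
  by_cases hs : δ < q * M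
  · -- the difference of the levels is bounded
    refine (gf_mono (fun L h => h.1)).trans ((hM n hn).trans (ENNReal.ofReal_le_ofReal ?_))
    rw [← hνd]
    refine mul_le_mul_of_nonneg_right ?_ hν.le
    have h1 : 1 ≤ (2 : ℝ) ^ ((q * M : ℕ) : ℝ) * y := by
      rw [hy, ← Real.rpow_add (by norm_num)]
      refine Real.one_le_rpow (by norm_num) ?_
      have h2 : (δ : ℝ) ≤ ((q * M : ℕ) : ℝ) := by exact_mod_cast hs.le
      have h3 : (0 : ℝ) ≤ (δ : ℝ) := Nat.cast_nonneg _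
      linarith
    have h2 : A0 ≤ A3 * y := by
      rw [hA3]
      nlinarith
    nlinarith
  push Not at hs
  obtain ⟨s, hsd⟩ : ∃ s, s = δ / q := ⟨_, rfl⟩
  have hs1 : q * s ≤ δ := by rw [hsd]; exact Nat.mul_div_le δ q
  have hs2 : δ < q * (s + 1) := by
    have := Nat.lt_mul_div_succ δ (show 0 < q by omega)
    rw [hsd]
    exact this
  have hsM : M ≤ s := by
    rw [hsd]
    exact (Nat.le_div_iff_mul_le (by omega)).2 (by rwa [mul_comm] at hs)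
  have hs3 : 2 * s ≤ δ := le_trans (Nat.mul_le_mul_right s hq1) hs1
  have hlsi : l + s + 8 ≤ i := by omega
  obtain ⟨h, hh1, hh2, hh3⟩ : ∃ h : ℕ, 1 ≤ h ∧ κ / 8 * Ub l ≤ (h : ℝ) ∧ 4 * (h : ℝ) ≤ κ * Ub l := by
    have hU := Ub_pos l
    refine ⟨⌈κ / 8 * Ub l⌉₊, Nat.one_le_ceil_iff.2 (by positivity), Nat.le_ceil _, ?_⟩
    have h1 : (⌈κ / 8 * Ub l⌉₊ : ℝ) < κ / 8 * Ub l + 1 := Nat.ceil_lt_add_one (by positivity)
    have h2 := hb2 l (by omega)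
    linarith
  have hh0 : (0 : ℝ) < h := by exact_mod_cast hh1
  -- the middle parts
  obtain ⟨G, hGd⟩ : ∃ G : Set (List Bool), G = {M | M ∈ TwoG (κ / 8) (2 * C) l ∧ M ∈ ESw (l + s + 4) i} := ⟨_, rfl⟩
  obtain ⟨c, hc⟩ : ∃ c : ℝ, c = Ce * Be ^ (s + 6) * (2 : ℝ) ^ (-(1 / 100 : ℝ) * ((δ : ℝ) - (s + 6))) := ⟨_, rfl⟩
  have hc0 : 0 < c := by rw [hc]; positivity
  have h0 : ∀ n' : ℕ, n' ≤ n → gf {L | L ∈ FT n' (l + s + (3 + 3)) ∧ L ∈ G} * Xb l ^ 2 ≤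
      ENNReal.ofReal (c * D * prT n' (l + s + (3 + 3))) := by
    intro n' _
    have h1 := hE D n' l (l + s + (3 + 3)) i hD.le (fun n'' i' _ _ => hT n'' i') (by omega) (by omega) (by omega)
    refine le_trans (mul_le_mul' (gf_mono ?_) le_rfl) (h1.trans (ENNReal.ofReal_le_ofReal (le_of_eq ?_)))
    · rintro L ⟨g1, g2⟩
      rw [hGd] at g2
      exact ⟨FT_sub_FTp _ _ g1, g2.1, ESw_mono (by omega) g2.2⟩
    · have e1 : (i : ℝ) - ((l + s + (3 + 3) : ℕ) : ℝ) = (δ : ℝ) - (s + 6) := by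
        rw [← hδr]
        push_cast
        ring
      have e2 : l + s + (3 + 3) - l = s + 6 := by omega
      rw [e1, e2, hc]
      ring
  have h1 := hG c D n (l + s) l G hc0 hD.le h0 (RhoE (κ / 8) (2 * C) l (l + s + 4) i)
    (ENNReal.ofReal (Bp ^ (s + 1) * (Ub l / (4 ^ l * ml l)))) ((h : ℝ) * h)
    (fun Y2 M Y1 hr => by rw [hGd]; exact hr.1) (fun M => by
      exact hP n l (l + s + 4) i s M (by omega)) (by positivity)
  have h2 := hF _ l s n h (K3 * c * D) (Bp ^ (s + 1)) hn (by positivity) (by positivity) hh2 h1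
  have h3 := hB n l (s + 2) (2 ^ (s - 8)) hn (by omega) (by omega) (by
    rw [← pow_add]
    exact Nat.pow_le_pow_right (by norm_num) (by omega))
  have hsub : {L | L ∈ C0T n ∧ L ∈ ESe l i} ⊆ {L | L ∈ C0T n ∧ BadR κ C l (2 ^ (s - 8)) (2 ^ (l + (s + 2))) L} ∪
      {L | L ∈ C0T n ∧ (h : ℝ) * h ≤ ((tri (2 ^ (l + s + 3)) (RhoE (κ / 8) (2 * C) l (l + s + 4) i) L).ncard : ℝ)} := by
    rintro L ⟨hL, hL2⟩
    have hL0 : L ∈ C0 n := by
      obtain ⟨b, h1, -⟩ := hL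
      exact ⟨b, h1⟩
    rcases hX n l i s h (κ / 8) L (by omega) (by omega) hlsi hh1 hh2 hh3 hL0 hL2 with h4 | ⟨N, h4, h5⟩
    · right
      refine ⟨hL, ?_⟩
      have : ((h ^ 2 : ℕ) : ℝ) ≤ ((tri (2 ^ (l + s + 3)) (RhoE (κ / 8) (2 * C) l (l + s + 4) i) L).ncard : ℝ) := by
        exact_mod_cast h4
      calc (h : ℝ) * h = ((h ^ 2 : ℕ) : ℝ) := by
            push_cast
            ring
        _ ≤ _ := this
    · left
      refine ⟨hL, ?_⟩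
      rw [← add_assoc]
      refine ARM.S2.badR_anti ?_ h5
      by_cases h8 : 8 ≤ s
      · have h6 : 2 ^ s = 2 ^ (s - 8) * 2 ^ 8 := by
          rw [← pow_add]
          congr 1
          omega
        rw [h6] at h4
        exact Nat.le_of_mul_le_mul_right h4 (by norm_num)
      · have h6 : s - 8 = 0 := by omega
        rw [h6, pow_zero]
        by_contra h7
        have h8 : N = 0 := by omega
        rw [h8, Nat.zero_mul] at h4
        have := Nat.one_le_two_pow (n := s)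
        omega
  refine (gf_mono hsub).trans ((gf_union_le _ _).trans ((add_le_add h3 h2).trans ?_))
  rw [← hνd, ← ENNReal.ofReal_add (by positivity) (by positivity)]
  refine ENNReal.ofReal_le_ofReal ?_
  have hδ0 : (0 : ℝ) ≤ (δ : ℝ) := Nat.cast_nonneg _
  have h7 : (1 / 2 : ℝ) ^ (q * (s + 2)) ≤ y := by
    have e : (1 / 2 : ℝ) ^ (q * (s + 2)) = (2 : ℝ) ^ (-((q * (s + 2) : ℕ) : ℝ)) := by
      rw [Real.rpow_neg (by norm_num), Real.rpow_natCast, one_div, inv_pow]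
    rw [e, hy]
    refine Real.rpow_le_rpow_of_exponent_le (by norm_num) ?_
    have h8 : δ ≤ q * (s + 2) := hs2.le.trans (Nat.mul_le_mul_left q (by omega))
    have h9 : (δ : ℝ) ≤ ((q * (s + 2) : ℕ) : ℝ) := by exact_mod_cast h8
    linarith
  have h8 : K * (K3 * c * D) * Bp ^ (s + 1) * 64 ^ s ≤ A1 * y := by
    have e1 : (2 : ℝ) ^ (-(1 / 100 : ℝ) * ((δ : ℝ) - (s + 6))) ≤ 2 ^ s * 2 * (2 : ℝ) ^ (-(1 / 100 : ℝ) * (δ : ℝ)) := by
      have e2 : (2 : ℝ) ^ s * 2 * (2 : ℝ) ^ (-(1 / 100 : ℝ) * (δ : ℝ)) = (2 : ℝ) ^ ((s : ℝ) + 1 + (-(1 / 100 : ℝ) * (δ : ℝ))) := by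
        rw [Real.rpow_add (by norm_num), Real.rpow_add (by norm_num), Real.rpow_natCast, Real.rpow_one]
      rw [e2]
      refine Real.rpow_le_rpow_of_exponent_le (by norm_num) ?_
      have : (0 : ℝ) ≤ (s : ℝ) := Nat.cast_nonneg _
      linarith
    have e3 : W ^ s * (2 : ℝ) ^ (-(1 / 100 : ℝ) * (δ : ℝ)) ≤ y := by
      have h9 : W ^ s ≤ (2 : ℝ) ^ ((δ : ℝ) / 200) := by
        calc W ^ s ≤ ((2 : ℝ) ^ ((q : ℝ) / 200)) ^ s := pow_le_pow_left₀ hW0.le hWq s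
          _ = (2 : ℝ) ^ ((q : ℝ) / 200 * s) := by rw [← Real.rpow_natCast, ← Real.rpow_mul (by norm_num)]
          _ ≤ (2 : ℝ) ^ ((δ : ℝ) / 200) := by
              refine Real.rpow_le_rpow_of_exponent_le (by norm_num) ?_
              have : ((q * s : ℕ) : ℝ) ≤ (δ : ℝ) := by exact_mod_cast hs1
              push_cast at this
              linarith
      calc W ^ s * (2 : ℝ) ^ (-(1 / 100 : ℝ) * (δ : ℝ))
          ≤ (2 : ℝ) ^ ((δ : ℝ) / 200) * (2 : ℝ) ^ (-(1 / 100 : ℝ) * (δ : ℝ)) :=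
            mul_le_mul_of_nonneg_right h9 (by positivity)
        _ = y := by
            rw [hy, ← Real.rpow_add (by norm_num)]
            congr 1
            ring
    calc K * (K3 * c * D) * Bp ^ (s + 1) * 64 ^ s
        = K * (K3 * (Ce * Be ^ 6) * D) * Bp * ((Be * Bp * 64) ^ s * (2 : ℝ) ^ (-(1 / 100 : ℝ) * ((δ : ℝ) - (s + 6)))) := by
          rw [hc, pow_succ, pow_add Be, mul_pow, mul_pow]
          ring
      _ ≤ K * (K3 * (Ce * Be ^ 6) * D) * Bp * ((Be * Bp * 64) ^ s * (2 ^ s * 2 * (2 : ℝ) ^ (-(1 / 100 : ℝ) * (δ : ℝ)))) := by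
          gcongr
      _ = A1 * (W ^ s * (2 : ℝ) ^ (-(1 / 100 : ℝ) * (δ : ℝ))) := by
          rw [hA1, hW, mul_pow (Be * Bp * 64) 2]
          ring
      _ ≤ A1 * y := mul_le_mul_of_nonneg_left e3 hA10.le
  have h10 : A * (1 / 2) ^ (q * (s + 2)) * ν ≤ A * y * ν := by gcongr
  have h11 : 0 ≤ A3 * y * ν := by positivity
  calc A * (1 / 2) ^ (q * (s + 2)) * ν + K * (K3 * c * D) * Bp ^ (s + 1) * 64 ^ s * ν
      ≤ A * y * ν + A1 * y * ν := add_le_add h10 (mul_le_mul_of_nonneg_right h8 hν.le)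
    _ ≤ (A3 + A + A1) * y * ν := by nlinarith

/-- both ends -/
theorem t2ST_of_one (h : ∃ (A : ℝ) (b0 : ℕ), 0 < A ∧ ∀ n l i : ℕ, b0 ≤ l → l ≤ i → 1 ≤ n →
    gf {L | L ∈ C0T n ∧ L ∈ ESe l i} ≤
      ENNReal.ofReal (A * (2 : ℝ) ^ (-(1 / 200 : ℝ) * ((i : ℝ) - l)) * (n : ℝ) ^ (-(5 / 2) : ℝ))) :
    ∃ (C : ℝ) (b0 : ℕ), 0 < C ∧ ∀ n l i : ℕ, b0 ≤ l → l ≤ i → 1 ≤ n →
      gf {L | L ∈ C0T n ∧ (L ∈ ESe l i ∨ rv L ∈ ESe l i)} ≤
        ENNReal.ofReal (C * (2 : ℝ) ^ (-(1 / 200 : ℝ) * ((i : ℝ) - l)) * (n : ℝ) ^ (-(5 / 2) : ℝ)) := by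
  obtain ⟨A, b0, hA, h⟩ := h
  refine ⟨2 * A, b0, by positivity, fun n l i hl hli hn => ?_⟩
  obtain ⟨T, hT⟩ : ∃ T : Set (List Bool), T = {L | L ∈ C0T n ∧ L ∈ ESe l i} := ⟨_, rfl⟩
  have hTm := h n l i hl hli hn
  rw [← hT] at hTm
  have hsub : {L | L ∈ C0T n ∧ (L ∈ ESe l i ∨ rv L ∈ ESe l i)} ⊆ T ∪ {L | rev L ∈ T} := by
    rintro L ⟨h1, h2 | h2⟩
    · left
      rw [hT]
      exact ⟨h1, h2⟩
    · right
      show rev L ∈ T
      rw [hT]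
      exact ⟨rev_C0T h1, ARM.S2.ese_rv h2⟩
  calc gf {L | L ∈ C0T n ∧ (L ∈ ESe l i ∨ rv L ∈ ESe l i)}
      ≤ gf (T ∪ {L | rev L ∈ T}) := gf_mono hsub
    _ ≤ gf T + gf {L | rev L ∈ T} := gf_union_le _ _
    _ = gf T + gf T := by rw [TD.gf_rev_eq T]
    _ ≤ ENNReal.ofReal (A * (2 : ℝ) ^ (-(1 / 200 : ℝ) * ((i : ℝ) - l)) * (n : ℝ) ^ (-(5 / 2) : ℝ)) +
        ENNReal.ofReal (A * (2 : ℝ) ^ (-(1 / 200 : ℝ) * ((i : ℝ) - l)) * (n : ℝ) ^ (-(5 / 2) : ℝ)) := add_le_add hTm hTm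
    _ = _ := by
        rw [← ENNReal.ofReal_add (by positivity) (by positivity)]
        congr 1
        ring

/-- **row D3** (exponent 1 / 200), from its rows -/
theorem t2STx_of {κ : ℝ} {C : ℕ} (hκ : 0 < κ) (hT : T1T) (hE : EsTL2) (hX : TopCr κ C) (hP : PairT) (hB : BadRootT κ C) :
    ∃ (C : ℝ) (b0 : ℕ), 0 < C ∧ ∀ n l i : ℕ, b0 ≤ l → l ≤ i → 1 ≤ n →
      gf {L | L ∈ C0T n ∧ (L ∈ ESe l i ∨ rv L ∈ ESe l i)} ≤
        ENNReal.ofReal (C * (2 : ℝ) ^ (-(1 / 200 : ℝ) * ((i : ℝ) - l)) * (n : ℝ) ^ (-(5 / 2) : ℝ)) :=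
  t2ST_of_one (t2S1T_of hκ hT hE hX hP hB)

end ART

end HexObs
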