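import Pool.Agent.ART.T2TF
import Pool.Agent.ART.LoopF
import Pool.Agent.ART.PathTS

/-!
# ART: `t1T`, `t2T`, without hypotheses (fastLp: helper82; joinT: helpers 64, 39, 90; t2T_in3: helper37)
-/

set_option autoImplicit false

namespace HexObs

namespace ART

/-- **(T1) at the top** -/
theorem t1T : T1T := t1T_in3 fastLp joinT

/-- **(T2) at the top** -/
theorem t2T : T2T := t2T_in3 fastLp joinT

end ART

end HexObs
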