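import Pool.Agent.ART.Defs
import Pool.Agent.ARM.QIn
import Pool.Agent.ARM2.PathG

/-!
# ART (helper94): the root of a closed word rooted at its top is the top of the root piece

`TopJ U V`: the joint of U and V is the lexicographic top of U ++ V in some direction. A word has at most six such joints
(`topJ_card`), so a sum over the decompositions costs a constant (`pair_sumT`) and not the length.
-/

set_option autoImplicit false

namespace HexObs

namespace ART

open Finset TS SDN SIM NTA TIP ARM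

open scoped ENNReal

/-- lexicographically at most 0 in the direction d -/
def lx (d p : Pt) : Prop := ip p d < 0 ∨ (ip p d = 0 ∧ ip p (rotL d) ≤ 0)

/-- the joint of U and V is the lexicographic top of U ++ V, in some direction -/
def TopJ (U V : List Bool) : Prop := ∃ d ∈ dirs, ∀ s, s ≤ (U ++ V).length →
  lx d (vx oo up (U ++ V) s - vx oo up (U ++ V) U.length)

lemma topR_iff {L : List Bool} : TopR L ↔ ∃ d ∈ dirs, ∀ s, s ≤ L.length → lx d (vx oo up L s) := Iff.rfl

lemma lxc_mulE {c d p : Pt} (hc : nrm c = 1) : lx (mulE c d) (mulE c p) ↔ lx d p := by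
  unfold lx
  rw [AR.rotL_mulE, ip_mulE, ip_mulE, hc, one_mul, one_mul]

lemma dirs_div : ∀ c ∈ dirs, ∀ d ∈ dirs, ∃ d' ∈ dirs, mulE c d' = d := by decide

lemma dirs_mul : ∀ c ∈ dirs, ∀ d ∈ dirs, mulE c d ∈ dirs := by decide

lemma lx_refl (d : Pt) : lx d 0 := by
  right
  unfold ip
  constructor <;> simp

lemma dirs_cases : ∀ d ∈ dirs, d = (1, 0) ∨ d = (0, 1) ∨ d = (-1, 1) ∨ d = (-1, 0) ∨ d = (0, -1) ∨ d = (1, -1) := by
  decide

lemma ip_zero : ∀ d ∈ dirs, ∀ p : Pt, ip p d = 0 → ip p (rotL d) = 0 → p = 0 := by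
  intro d hd p h1 h2
  obtain ⟨x, y⟩ := p
  have hd' := dirs_cases d hd
  rcases hd' with rfl | rfl | rfl | rfl | rfl | rfl <;> simp only [ip, rotL] at h1 h2 <;> refine Prod.ext ?_ ?_ <;>
    simp only [Prod.fst_zero, Prod.snd_zero] <;> omega

lemma ip_neg (p d : Pt) : ip (-p) d = - ip p d := by
  unfold ip
  simp only [Prod.fst_neg, Prod.snd_neg]
  ring

/-- antisymmetry -/
lemma lx_anti {d p q : Pt} (hd : d ∈ dirs) (h1 : lx d (p - q)) (h2 : lx d (q - p)) : p = q := by
  have e : q - p = -(p - q) := by abel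
  rw [e] at h2
  unfold lx at h1 h2
  rw [ip_neg, ip_neg] at h2
  have h3 : ip (p - q) d = 0 := by omega
  have h4 : ip (p - q) (rotL d) = 0 := by omega
  exact sub_eq_zero.1 (ip_zero d hd _ h3 h4)

/-- a suffix of the first part -/
lemma topJ_suf {A U V : List Bool} (h : TopJ (A ++ U) V) : TopJ U V := by
  obtain ⟨d, hd, h⟩ := h
  obtain ⟨c, hc, -, hf⟩ := drop_frame' (A ++ (U ++ V)) A.length
  rw [List.drop_left] at hf
  obtain ⟨d', hd', e⟩ := dirs_div c hc d hd
  refine ⟨d', hd', fun s hs => ?_⟩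
  have hn : nrm c = 1 := mem_dirs.1 hc
  have h1 := h (A.length + s) (by simp only [List.length_append] at hs ⊢; omega)
  rw [List.append_assoc, List.length_append, hf, hf, add_sub_add_left_eq_sub, ← mulE_sub, ← e, lxc_mulE hn] at h1
  exact h1

/-- a prefix of the second part -/
lemma topJ_pre {U V B : List Bool} (h : TopJ U (V ++ B)) : TopJ U V := by
  obtain ⟨d, hd, h⟩ := h
  refine ⟨d, hd, fun s hs => ?_⟩
  have e1 : ∀ k, k ≤ (U ++ V).length → vx oo up (U ++ (V ++ B)) k = vx oo up (U ++ V) k := fun k hk => by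
    rw [← List.append_assoc]
    exact vx_append (by omega)
  have h1 := h s (by simp only [List.length_append] at hs ⊢; omega)
  rw [e1 s hs, e1 U.length (by rw [List.length_append]; omega)] at h1
  exact h1

open Classical in
/-- **a word has at most six tops** -/
lemma topJ_card {T : List Bool} (h : T ∈ SA) :
    ((range (T.length + 1)).filter (fun k => TopJ (T.take k) (T.drop k))).card ≤ 6 := by
  have h6 : dirs.card = 6 := by decide
  rw [← h6]
  have hex : ∀ k, ∃ d, k ∈ (range (T.length + 1)).filter (fun k => TopJ (T.take k) (T.drop k)) → d ∈ dirs ∧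
      ∀ s, s ≤ T.length → lx d (vx oo up T s - vx oo up T k) := by
    intro k
    by_cases hk : k ∈ (range (T.length + 1)).filter (fun k => TopJ (T.take k) (T.drop k))
    · rw [mem_filter, mem_range] at hk
      obtain ⟨hk1, d, hd, hs⟩ := hk
      rw [List.take_append_drop, List.length_take, min_eq_left (by omega)] at hs
      exact ⟨d, fun _ => ⟨hd, hs⟩⟩
    · exact ⟨0, fun h => absurd h hk⟩
  choose f hf using hex
  refine Finset.card_le_card_of_injOn f (fun k hk => (hf k (mem_coe.1 hk)).1) (fun k hk k' hk' he => ?_)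
  obtain ⟨a1, a2⟩ := hf k (mem_coe.1 hk)
  obtain ⟨b1, b2⟩ := hf k' (mem_coe.1 hk')
  have c1 := (mem_filter.1 (mem_coe.1 hk)).1
  have c2 := (mem_filter.1 (mem_coe.1 hk')).1
  rw [mem_range] at c1 c2
  rw [he] at a2
  have e := lx_anti b1 (a2 k' (by omega)) (b2 k (by omega))
  rcases lt_trichotomy k k' with h2 | h2 | h2
  · exact absurd e.symm (h.inj k k' h2 (by omega))
  · exact h2
  · exact absurd e (h.inj k' k h2 (by omega))

/-- **a word cut at its top** -/
lemma pair_sumT {R : Set (List Bool × List Bool)} {S : Set (List Bool)} (φ : List Bool → ℝ≥0∞) (hS : S ⊆ SA)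
    (h : ∀ p ∈ R, p.2 ++ p.1 ∈ S ∧ TopJ p.2 p.1) :
    ∑' p : R, wE (p : List Bool × List Bool).1 * wE (p : List Bool × List Bool).2 *
        φ ((p : List Bool × List Bool).2 ++ (p : List Bool × List Bool).1) ≤
      6 * ∑' T : S, wE (T : List Bool) * φ T := by
  classical
  obtain ⟨W, hW⟩ : ∃ W : List Bool → Finset ℕ, W = fun T => (range (T.length + 1)).filter
      (fun k => TopJ (T.take k) (T.drop k)) := ⟨_, rfl⟩
  obtain ⟨g, hg⟩ : ∃ g : R → S × ℕ, g = fun p : R =>
      ((⟨(p : List Bool × List Bool).2 ++ (p : List Bool × List Bool).1, (h _ p.2).1⟩ : S),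
        (p : List Bool × List Bool).2.length) := ⟨_, rfl⟩
  obtain ⟨F, hF⟩ : ∃ F : S × ℕ → ℝ≥0∞, F = fun x =>
      if x.2 ∈ W (x.1 : List Bool) then wE (x.1 : List Bool) * φ x.1 else 0 := ⟨_, rfl⟩
  have hinj : Function.Injective g := by
    rintro ⟨⟨a, b⟩, hp⟩ ⟨⟨a', b'⟩, hp'⟩ he
    rw [hg] at he
    simp only [Prod.mk.injEq, Subtype.mk.injEq] at he
    obtain ⟨h1, h3⟩ := he
    obtain ⟨h4, h5⟩ := List.append_inj h1 h3
    subst h4 h5
    rfl
  calc ∑' p : R, wE (p : List Bool × List Bool).1 * wE (p : List Bool × List Bool).2 *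
        φ ((p : List Bool × List Bool).2 ++ (p : List Bool × List Bool).1)
      = ∑' p : R, F (g p) := by
        refine tsum_congr fun p => ?_
        rw [hF, hg]
        simp only
        rw [if_pos, wE_append, mul_comm (wE _) (wE _)]
        rw [hW]
        simp only
        rw [mem_filter, mem_range, List.length_append, List.take_left, List.drop_left]
        exact ⟨by omega, (h _ p.2).2⟩
    _ ≤ ∑' x, F x := ENNReal.tsum_comp_le_tsum_of_injective hinj F
    _ = ∑' T : S, ∑' k : ℕ, F (T, k) := ENNReal.tsum_prod'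
    _ ≤ ∑' T : S, 6 * (wE (T : List Bool) * φ T) := by
        refine ENNReal.tsum_le_tsum fun T => ?_
        rw [hF]
        simp only
        rw [tsum_eq_sum (s := W (T : List Bool)) (fun k hk => if_neg hk),
          sum_congr rfl (fun k hk => if_pos hk), sum_const, nsmul_eq_mul]
        refine mul_le_mul' ?_ le_rfl
        rw [hW]
        exact_mod_cast topJ_card (hS T.2)
    _ = _ := ENNReal.tsum_mul_left

lemma C0T_sub (n : ℕ) : C0T n ⊆ C0 n := by
  rintro L ⟨b, hb⟩
  exact ⟨b, hb.1⟩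

/-- **the root of a closed word rooted at the top** -/
lemma topJ_C0T {n : ℕ} {Y2 M Y1 : List Bool} (h : Y2 ++ (M ++ Y1) ∈ C0T n) :
    ∃ β : Bool, M ++ ((Y1 ++ [β]) ++ Y2) ∈ POL.Cy (n + 1) ∧ TopJ (Y1 ++ [β]) Y2 := by
  obtain ⟨β, hb, d, hd, hT⟩ := h
  have e : Y2 ++ (M ++ Y1) ++ [β] = (Y2 ++ M) ++ (Y1 ++ [β]) := by simp only [List.append_assoc]
  rw [e] at hb hT
  obtain ⟨c, hc, -, f1, f2, -, -⟩ := POL.cy_frame hb
  have h1 := hb.1
  have h2 := hb.2.1
  have hr := POL.cy_rot hb
  obtain ⟨d', hd', ed⟩ := dirs_div c (mem_dirs.2 hc) d hd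
  refine ⟨β, ?_, d', hd', fun s hs => ?_⟩
  · have : (M ++ Y1 ++ [β]) ++ Y2 ∈ POL.Cy (n + 1) := by
      refine POL.cy_rot ?_
      simpa only [List.append_assoc] using hb
    simpa only [List.append_assoc] using this
  · -- the vertices of the root piece
    have hoo : (oo : Pt) = 0 := rfl
    have key : ∀ s, s ≤ ((Y1 ++ [β]) ++ Y2).length → ∃ s', s' ≤ ((Y2 ++ M) ++ (Y1 ++ [β])).length ∧
        vx oo up ((Y2 ++ M) ++ (Y1 ++ [β])) s' =
          vx oo up ((Y2 ++ M) ++ (Y1 ++ [β])) (Y2 ++ M).length + mulE c (vx oo up ((Y1 ++ [β]) ++ Y2) s) := by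
      intro s hs
      have ev : vx oo up ((Y1 ++ [β]) ++ (Y2 ++ M)) s = vx oo up ((Y1 ++ [β]) ++ Y2) s := by
        rw [← List.append_assoc]
        exact vx_append (by omega)
      rcases Nat.lt_or_ge (Y1 ++ [β]).length s with h3 | h3
      · obtain ⟨j, rfl⟩ := Nat.exists_eq_add_of_le h3.le
        have hj : j ≤ Y2.length := by
          simp only [List.length_append, List.length_singleton] at hs
          omega
        refine ⟨j, by simp only [List.length_append]; omega, ?_⟩
        rw [← ev]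
        exact f2 j (by rw [List.length_append]; omega)
      · refine ⟨(Y2 ++ M).length + s, by rw [List.length_append (as := Y2 ++ M)]; omega, ?_⟩
        rw [← ev]
        exact f1 s h3
    obtain ⟨s', hs', e1⟩ := key s hs
    have e2 := f1 (Y1 ++ [β]).length le_rfl
    have e3 : (Y2 ++ M).length + (Y1 ++ [β]).length = n + 1 := by rw [← h1, List.length_append (as := Y2 ++ M)]
    rw [e3, h2] at e2
    have ev : vx oo up ((Y1 ++ [β]) ++ (Y2 ++ M)) (Y1 ++ [β]).length = vx oo up ((Y1 ++ [β]) ++ Y2) (Y1 ++ [β]).length := by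
      rw [← List.append_assoc]
      exact vx_append (by rw [List.length_append (as := Y1 ++ [β])]; omega)
    rw [ev] at e2
    have h4 := hT s' hs'
    have e4 : vx oo up ((Y2 ++ M) ++ (Y1 ++ [β])) s' =
        mulE c (vx oo up ((Y1 ++ [β]) ++ Y2) s - vx oo up ((Y1 ++ [β]) ++ Y2) (Y1 ++ [β]).length) := by
      rw [e1, mulE_sub]
      have e5 : vx oo up ((Y2 ++ M) ++ (Y1 ++ [β])) (Y2 ++ M).length =
          -mulE c (vx oo up ((Y1 ++ [β]) ++ Y2) (Y1 ++ [β]).length) := by
        refine eq_neg_of_add_eq_zero_left ?_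
        rw [← e2, hoo]
      rw [e5]
      abel
    rw [show ip (vx oo up ((Y2 ++ M) ++ (Y1 ++ [β])) s') d < 0 ∨ (ip (vx oo up ((Y2 ++ M) ++ (Y1 ++ [β])) s') d = 0 ∧
      ip (vx oo up ((Y2 ++ M) ++ (Y1 ++ [β])) s') (rotL d) ≤ 0) ↔ lx d (vx oo up ((Y2 ++ M) ++ (Y1 ++ [β])) s') from Iff.rfl,
      e4, ← ed, lxc_mulE hc] at h4
    exact h4

/-- **the sum over the two ends of a closed word rooted at the top**, the middle word fixed, Q: any class of root pieces -/
lemma root_inT {M : List Bool} (hM : M ≠ []) {n : ℕ} {Q : Set (List Bool)} {R : Set (List Bool × List Bool)} {X : ℝ≥0∞}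
    (hR : ∀ p ∈ R, p.1 ++ (M ++ p.2) ∈ C0T n ∧ ∀ β : Bool, M ++ ((p.2 ++ [β]) ++ p.1) ∈ POL.Cy (n + 1) →
      (p.2 ++ [β]) ++ p.1 ∈ Q)
    (hX : ∀ z, gf {t | t ∈ Q ∧ t.length = n + 1 - M.length ∧ TIW.en t = z} ≤ X) :
    ∑' p : R, wE (p : List Bool × List Bool).1 * wE (p : List Bool × List Bool).2 ≤
      ENNReal.ofReal (6 * xc⁻¹) * X := by
  classical
  obtain ⟨S, hS⟩ : ∃ S : Set (List Bool), S = {t | t ∈ Q ∧ M ++ t ∈ POL.Cy (n + 1)} := ⟨_, rfl⟩
  obtain ⟨R', hR'⟩ : ∃ R' : Set (List Bool × List Bool), R' = {p | p.2 ++ p.1 ∈ S ∧ TopJ p.2 p.1} := ⟨_, rfl⟩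
  have hch : ∀ p : R, ∃ β : Bool, M ++ (((p : List Bool × List Bool).2 ++ [β]) ++ (p : List Bool × List Bool).1) ∈ POL.Cy (n + 1) ∧
      TopJ ((p : List Bool × List Bool).2 ++ [β]) (p : List Bool × List Bool).1 :=
    fun p => topJ_C0T (hR _ p.2).1
  choose β hβ hβT using hch
  obtain ⟨g, hg⟩ : ∃ g : R → R', g = fun p => ⟨((p : List Bool × List Bool).1, (p : List Bool × List Bool).2 ++ [β p]), by
      rw [hR', hS]
      exact ⟨⟨(hR _ p.2).2 _ (hβ p), hβ p⟩, hβT p⟩⟩ := ⟨_, rfl⟩
  have hinj : Function.Injective g := by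
    rintro ⟨⟨a, b⟩, hp⟩ ⟨⟨a', b'⟩, hp'⟩ he
    rw [hg] at he
    simp only [Subtype.mk.injEq, Prod.mk.injEq] at he
    obtain ⟨h1, h2⟩ := he
    have h3 : b.length = b'.length := by
      have := congrArg List.length h2
      simp only [List.length_append, List.length_singleton] at this
      omega
    obtain ⟨h4, -⟩ := List.append_inj h2 h3
    subst h1 h4
    rfl
  have hxc := xc_pos
  have hone : ENNReal.ofReal xc⁻¹ * ENNReal.ofReal xc = 1 := by
    rw [← ENNReal.ofReal_mul (by positivity), inv_mul_cancel₀ hxc.ne', ENNReal.ofReal_one]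
  have e1 : ∀ p : R, wE (p : List Bool × List Bool).1 * wE (p : List Bool × List Bool).2 =
      ENNReal.ofReal xc⁻¹ * (fun r : R' => wE (r : List Bool × List Bool).1 * wE (r : List Bool × List Bool).2 * 1) (g p) := by
    intro p
    rw [hg]
    simp only
    rw [wE_append, T2.wE_letter, mul_one]
    calc _ = (ENNReal.ofReal xc⁻¹ * ENNReal.ofReal xc) * (wE (p : List Bool × List Bool).1 * wE (p : List Bool × List Bool).2) := by
          rw [hone, one_mul]
      _ = _ := by ring
  have e6 : ENNReal.ofReal (6 * xc⁻¹) = ENNReal.ofReal xc⁻¹ * 6 := by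
    rw [mul_comm, ENNReal.ofReal_mul (by positivity)]
    norm_num
  rw [tsum_congr e1, ENNReal.tsum_mul_left, e6, mul_assoc]
  refine mul_le_mul' le_rfl ?_
  refine (ENNReal.tsum_comp_le_tsum_of_injective hinj
    (fun r : R' => wE (r : List Bool × List Bool).1 * wE (r : List Bool × List Bool).2 * 1)).trans ?_
  refine (pair_sumT (R := R') (S := S) (fun _ => 1) ?_ (fun p hp => by rw [hR'] at hp; exact hp)).trans ?_
  · intro T hT
    rw [hS] at hT
    exact POL.cy_take (POL.cy_rot hT.2) hM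
  simp only [mul_one]
  refine mul_le_mul' le_rfl ?_
  have h3 := T2.gf_cy (M := M) (Q := Q) (n := n + 1) hX
  rw [← hS] at h3
  exact h3

end ART

end HexObs
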