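import Pool.Agent.ART.Defs
import Pool.Agent.POL.Bot
import Pool.Agent.POL.Fin

/-!
# ART (helper22): the rotations of a closed word and its tops (row G4)

* `topD_rot`, `top_uniq` : a rotation of a closed word with the top at the start, seen from the closed word;
* `cnt_top` : at most 6 (and at least one) rotations of a closed word are rooted at their top;
* **`cyTSt`** : `gf (CyT N) ≤ C N ^ (-5/2)`; `cyT_ge` : `gf (Cy N) ≤ N gf (CyT N)`.
-/

set_option autoImplicit false

namespace HexObs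

namespace ART.TR

open Finset TS SDN SIM NTA TIP ARM ART

open scoped ENNReal

/-- the start is the lexicographic top in the direction d -/
def TopD (d : Pt) (L : List Bool) : Prop := ∀ s, s ≤ L.length →
  ip (vx oo up L s) d < 0 ∨ (ip (vx oo up L s) d = 0 ∧ ip (vx oo up L s) (rotL d) ≤ 0)

lemma topR_iff {L : List Bool} : TopR L ↔ ∃ d ∈ dirs, TopD d L := Iff.rfl

/-- u is the lexicographic top of the closed word K in the direction D -/
def TopV (K : List Bool) (D : Pt) (u : ℕ) : Prop := ∀ v, ip (POL.pv K v - POL.pv K u) D < 0 ∨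
  (ip (POL.pv K v - POL.pv K u) D = 0 ∧ ip (POL.pv K v - POL.pv K u) (rotL D) ≤ 0)

lemma rotL_mulE (u d : Pt) : rotL (mulE u d) = mulE u (rotL d) := (mulE_turn u true d).symm

/-- a vector orthogonal to two directions vanishes -/
lemma eq_zero_of_ip {w D : Pt} (hD : D ∈ dirs) (h1 : ip w D = 0) (h2 : ip w (rotL D) = 0) : w = 0 := by
  have k : ip w D ^ 2 - ip w D * ip w (rotL D) + ip w (rotL D) ^ 2 = 3 * nrm w * nrm D := by
    unfold ip rotL nrm
    ring
  rw [h1, h2, mem_dirs.1 hD] at k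
  have k2 : nrm w = 0 := by linarith
  obtain ⟨a, b⟩ := w
  unfold nrm at k2
  simp only at k2
  have hb : b = 0 := by
    by_contra hb
    have : 0 < b ^ 2 := by positivity
    nlinarith [sq_nonneg (2 * a + b)]
  have ha : a = 0 := by
    rw [hb] at k2
    by_contra ha
    have : 0 < a ^ 2 := by positivity
    nlinarith
  rw [ha, hb]
  rfl

/-- every vertex of the periodic continuation, from u -/
lemma ex_shift {N : ℕ} {K : List Bool} (hK : K ∈ POL.Cy N) (hN : 0 < N) (u v : ℕ) :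
    ∃ s, s ≤ N ∧ POL.pv K (u + s) = POL.pv K v := by
  refine ⟨(v + N * u - u) % N, (Nat.mod_lt _ hN).le, ?_⟩
  have hc := POL.Cy.clo hK
  rw [POL.pv_mod hc (u + _), POL.pv_mod hc v, hK.1]
  congr 1
  have h1 : u ≤ N * u := Nat.le_mul_of_pos_left u hN
  rw [Nat.add_mod_mod, show u + (v + N * u - u) = v + N * u by omega, Nat.add_mul_mod_self_left]

/-- the rotation at u has its top at the start in the direction d: u is the top of the closed word -/
lemma topD_rot {N : ℕ} {K : List Bool} (hK : K ∈ POL.Cy N) (hN : 0 < N) {u : ℕ} {D : Pt} :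
    TopD (mulE (rotTo (POL.pd K u) up) D) (K.rotate u) ↔ TopV K D u := by
  have hρ := POL.nrm_rotTo_pd K u
  have e : ∀ s, s ≤ N → ∀ x : Pt, ip (vx oo up (K.rotate u) s) (mulE (rotTo (POL.pd K u) up) x) =
      ip (POL.pv K (u + s) - POL.pv K u) x := by
    intro s hs x
    rw [POL.rot_vx (by rw [hK.1]; omega), ip_mulE, hρ, one_mul]
  constructor
  · intro h v
    obtain ⟨s, hs, hv⟩ := ex_shift hK hN u v
    have h1 := h s (by rw [List.length_rotate, hK.1]; exact hs)
    rw [rotL_mulE, e s hs, e s hs, hv] at h1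
    exact h1
  · intro h s hs
    rw [List.length_rotate, hK.1] at hs
    rw [rotL_mulE, e s hs, e s hs]
    exact h (u + s)

/-- the direction seen from the closed word -/
lemma dir_back {ρ d : Pt} (hρ : nrm ρ = 1) (hd : d ∈ dirs) : ∃ D ∈ dirs, mulE ρ D = d := by
  refine ⟨mulE (conjE ρ) d, ?_, ?_⟩
  · rw [mem_dirs, nrm_mulE, nrm_conjE, hρ, mem_dirs.1 hd, one_mul]
  · rw [mulE_assoc, mulE_conjE, hρ, mulE_one]

lemma dir_fwd {ρ d : Pt} (hρ : nrm ρ = 1) (hd : d ∈ dirs) : mulE ρ d ∈ dirs := by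
  rw [mem_dirs, nrm_mulE, hρ, mem_dirs.1 hd, one_mul]

/-- one top in every direction -/
lemma top_uniq {N : ℕ} {K : List Bool} (hK : K ∈ POL.Cy N) (hN : 0 < N) {D : Pt} (hD : D ∈ dirs) {u u' : ℕ}
    (h : TopV K D u) (h' : TopV K D u') : u % N = u' % N := by
  refine POL.Cy.pv_inj hK hN ?_
  have h1 := h u'
  have h2 := h' u
  have e : ∀ x : Pt, ip (POL.pv K u - POL.pv K u') x = -ip (POL.pv K u' - POL.pv K u) x := by
    intro x
    rw [ip_sub_left, ip_sub_left]
    ring
  rw [e, e] at h2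
  have h3 : ip (POL.pv K u' - POL.pv K u) D = 0 := by
    rcases h1 with h1 | ⟨h1, -⟩
    · rcases h2 with h2 | ⟨h2, -⟩ <;> omega
    · exact h1
  have h4 : ip (POL.pv K u' - POL.pv K u) (rotL D) = 0 := by
    rcases h1 with h1 | ⟨-, h1⟩
    · omega
    · rcases h2 with h2 | ⟨-, h2⟩ <;> omega
  exact (sub_eq_zero.1 (eq_zero_of_ip hD h3 h4)).symm

/-- every direction has a top -/
lemma ex_top {N : ℕ} {K : List Bool} (hK : K ∈ POL.Cy N) (hN : 0 < N) (D : Pt) : ∃ u, u < N ∧ TopV K D u := by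
  have hc := POL.Cy.clo hK
  -- the maximum of the first coordinate
  obtain ⟨a, ha, hmax⟩ := (range N).exists_max_image (fun u => ip (POL.pv K u) D) ⟨0, mem_range.2 hN⟩
  obtain ⟨F, hF⟩ : ∃ F : Finset ℕ, F = (range N).filter fun u => ip (POL.pv K u) D = ip (POL.pv K a) D := ⟨_, rfl⟩
  have haF : a ∈ F := by rw [hF, mem_filter]; exact ⟨ha, rfl⟩
  obtain ⟨u, hu, hmax2⟩ := F.exists_max_image (fun u => ip (POL.pv K u) (rotL D)) ⟨a, haF⟩
  rw [hF, mem_filter, mem_range] at hu
  refine ⟨u, hu.1, fun v => ?_⟩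
  have hv : POL.pv K v = POL.pv K (v % N) := by rw [POL.pv_mod hc v, hK.1]
  have hvN := Nat.mod_lt v hN
  have h1 := hmax (v % N) (mem_range.2 hvN)
  rw [hv, ip_sub_left, ip_sub_left, hu.2]
  rcases h1.lt_or_eq with h2 | h2
  · exact Or.inl (by omega)
  · right
    have h3 := hmax2 (v % N) (by rw [hF, mem_filter, mem_range]; exact ⟨hvN, h2⟩)
    exact ⟨by omega, by omega⟩

open Classical in
/-- the number of the rotations that are rooted at their top -/
lemma cnt_top {N : ℕ} {K : List Bool} (hK : K ∈ POL.Cy N) (hN : 0 < N) :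
    1 ≤ ((range N).filter fun u => TopR (K.rotate u)).card ∧ ((range N).filter fun u => TopR (K.rotate u)).card ≤ 6 := by
  constructor
  · obtain ⟨u, hu, h⟩ := ex_top hK hN up
    refine Finset.card_pos.2 ⟨u, ?_⟩
    rw [mem_filter, mem_range, topR_iff]
    exact ⟨hu, _, dir_fwd (POL.nrm_rotTo_pd K u) upd, (topD_rot hK hN).2 h⟩
  · have h1 : ∀ u, u ∈ (range N).filter (fun u => TopR (K.rotate u)) → ∃ D, D ∈ dirs ∧ TopV K D u := by
      intro u hu
      rw [mem_filter, topR_iff] at hu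
      obtain ⟨-, d, hd, h⟩ := hu
      obtain ⟨D, hD, hDd⟩ := dir_back (POL.nrm_rotTo_pd K u) hd
      rw [← hDd] at h
      exact ⟨D, hD, (topD_rot hK hN).1 h⟩
    choose! f hf hf2 using h1
    have h2 : (dirs : Finset Pt).card = 6 := by decide
    rw [← h2]
    refine Finset.card_le_card_of_injOn f (fun u hu => hf u hu) fun u hu v hv huv => ?_
    have hu' := hf2 u hu
    have hv' := hf2 v hv
    rw [← huv] at hv'
    have h3 := top_uniq hK hN (hf u hu) hu' hv'
    have h4 := mem_range.1 (mem_filter.1 (Finset.mem_coe.1 hu)).1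
    have h5 := mem_range.1 (mem_filter.1 (Finset.mem_coe.1 hv)).1
    rwa [Nat.mod_eq_of_lt h4, Nat.mod_eq_of_lt h5] at h3

open Classical in
/-- at most six rotations of a closed word are rooted at their top -/
lemma rot_card {N : ℕ} {w : List Bool} (hw : w ∈ POL.Cy N) : ((range N).filter fun a => TopR (w.rotate a)).card ≤ 6 := by
  rcases Nat.eq_zero_or_pos N with h | h
  · rw [h, range_zero, filter_empty, card_empty]
    exact Nat.zero_le _
  · exact (cnt_top hw h).2

/-- sums over the closed words are invariant under rotations -/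
lemma sum_rotS {N : ℕ} {S : Finset (List Bool)} (hS : ∀ K, K ∈ S ↔ K ∈ POL.Cy N) (u : ℕ) (g : List Bool → ℕ) :
    ∑ K ∈ S, g (K.rotate u) = ∑ K ∈ S, g K := by
  classical
  have himg : S.image (fun K => K.rotate u) = S := by
    refine Finset.eq_of_subset_of_card_le ?_ ?_
    · intro K hK
      obtain ⟨K', hK', rfl⟩ := Finset.mem_image.1 hK
      exact (hS _).2 (POL.Cy.rot ((hS _).1 hK') u)
    · rw [Finset.card_image_of_injective _ (List.rotate_injective u)]
  conv_rhs => rw [← himg]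
  rw [Finset.sum_image (fun x _ y _ h => List.rotate_injective u h)]

/-- the weight of a set of words of the same length -/
lemma gf_len {N : ℕ} {S : Set (List Bool)} {T : Finset (List Bool)} (hT : ∀ L, L ∈ T ↔ L ∈ S) (h : ∀ L ∈ S, L.length = N) :
    gf S = ENNReal.ofReal ((T.card : ℝ) * xc ^ N) := by
  classical
  have hS : S = (T : Set (List Bool)) := by
    ext L
    rw [Finset.mem_coe]
    exact (hT L).symm
  subst hS
  unfold gf
  rw [Finset.tsum_subtype' T wE]
  have h2 : ∀ t ∈ T, wE t = ENNReal.ofReal (xc ^ N) := by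
    intro t ht
    unfold wE
    rw [h t (Finset.mem_coe.2 ht)]
  rw [Finset.sum_congr rfl h2, Finset.sum_const, nsmul_eq_mul, ENNReal.ofReal_mul (Nat.cast_nonneg _), ENNReal.ofReal_natCast]

/-- **one top for every closed word and direction** -/
theorem cyT_cnt {N : ℕ} (hN : 1 ≤ N) : (N : ℝ≥0∞) * gf (CyT N) ≤ 6 * gf (POL.Cy N) ∧
    gf (POL.Cy N) ≤ (N : ℝ≥0∞) * gf (CyT N) := by
  classical
  obtain ⟨S, hS0⟩ : ∃ S : Finset (List Bool), S = (POLP.PCy_fin N).toFinset := ⟨_, rfl⟩
  have hS : ∀ K, K ∈ S ↔ K ∈ POL.Cy N := by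
    intro K
    rw [hS0, Set.Finite.mem_toFinset, POL.Cy_eq]
  obtain ⟨T, hT0⟩ : ∃ T : Finset (List Bool), T = S.filter TopR := ⟨_, rfl⟩
  have hT : ∀ K, K ∈ T ↔ K ∈ CyT N := by
    intro K
    rw [hT0, mem_filter, hS]
    rfl
  have e1 : gf (POL.Cy N) = ENNReal.ofReal ((S.card : ℝ) * xc ^ N) := gf_len hS fun L hL => hL.1
  have e2 : gf (CyT N) = ENNReal.ofReal ((T.card : ℝ) * xc ^ N) := gf_len hT fun L hL => hL.1.1
  have hcnt : N * T.card = ∑ K ∈ S, ((range N).filter fun u => TopR (K.rotate u)).card := by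
    have h1 : ∀ u ∈ range N, ∑ K ∈ S, (if TopR (K.rotate u) then 1 else 0) = T.card := by
      intro u _
      rw [sum_rotS hS u fun K => if TopR K then 1 else 0, hT0, Finset.card_filter]
    calc N * T.card = ∑ u ∈ range N, ∑ K ∈ S, (if TopR (K.rotate u) then 1 else 0) := by
          rw [Finset.sum_congr rfl h1, Finset.sum_const, card_range, smul_eq_mul]
      _ = ∑ K ∈ S, ∑ u ∈ range N, (if TopR (K.rotate u) then 1 else 0) := Finset.sum_comm
      _ = _ := Finset.sum_congr rfl fun K _ => (Finset.card_filter _ _).symm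
  have hup : N * T.card ≤ 6 * S.card := by
    rw [hcnt]
    refine (Finset.sum_le_card_nsmul S _ 6 fun K hK => (cnt_top ((hS K).1 hK) hN).2).trans (le_of_eq ?_)
    rw [smul_eq_mul, mul_comm]
  have hlo : S.card ≤ N * T.card := by
    rw [hcnt]
    have := Finset.card_nsmul_le_sum S (fun K => ((range N).filter fun u => TopR (K.rotate u)).card) 1
      fun K hK => (cnt_top ((hS K).1 hK) hN).1
    simpa using this
  have hx := xc_pos
  have e3 : (6 : ℝ≥0∞) = ENNReal.ofReal 6 := by norm_num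
  have e4 : (N : ℝ≥0∞) = ENNReal.ofReal (N : ℝ) := (ENNReal.ofReal_natCast N).symm
  constructor
  · rw [e1, e2, e3, e4, ← ENNReal.ofReal_mul (by positivity), ← ENNReal.ofReal_mul (by positivity)]
    apply ENNReal.ofReal_le_ofReal
    rw [← mul_assoc, ← mul_assoc]
    apply mul_le_mul_of_nonneg_right _ (by positivity)
    exact_mod_cast hup
  · rw [e1, e2, e4, ← ENNReal.ofReal_mul (by positivity)]
    apply ENNReal.ofReal_le_ofReal
    rw [← mul_assoc]
    apply mul_le_mul_of_nonneg_right _ (by positivity)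
    exact_mod_cast hlo

/-- every closed word has a rotation rooted at its top -/
theorem cyT_ge {N : ℕ} (hN : 1 ≤ N) : gf (POL.Cy N) ≤ (N : ℝ≥0∞) * gf (CyT N) := (cyT_cnt hN).2

/-- **row G4** -/
theorem cyTSt : CyTSt := by
  obtain ⟨C, hC, h⟩ := POL.P1
  refine ⟨6 * C, by positivity, fun N hN => ?_⟩
  have hN0 : (0 : ℝ) < N := by exact_mod_cast hN
  have h1 := (cyT_cnt hN).1
  have e4 : (N : ℝ≥0∞) = ENNReal.ofReal (N : ℝ) := (ENNReal.ofReal_natCast N).symm
  have e3 : (6 : ℝ≥0∞) = ENNReal.ofReal 6 := by norm_num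
  have h2 : (N : ℝ≥0∞) * gf (CyT N) ≤ ENNReal.ofReal (6 * (C * (N : ℝ) ^ (-(3 / 2) : ℝ))) := by
    refine h1.trans ?_
    rw [ENNReal.ofReal_mul (by norm_num), e3]
    exact mul_le_mul' le_rfl (h N hN)
  have h3 : ENNReal.ofReal ((N : ℝ)⁻¹) * ((N : ℝ≥0∞) * gf (CyT N)) = gf (CyT N) := by
    rw [← mul_assoc, e4, ← ENNReal.ofReal_mul (by positivity), inv_mul_cancel₀ hN0.ne', ENNReal.ofReal_one, one_mul]
  rw [← h3]
  refine (mul_le_mul' le_rfl h2).trans ?_
  rw [← ENNReal.ofReal_mul (by positivity)]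
  refine ENNReal.ofReal_le_ofReal (le_of_eq ?_)
  have e5 : (N : ℝ) ^ (-(5 / 2) : ℝ) = (N : ℝ)⁻¹ * (N : ℝ) ^ (-(3 / 2) : ℝ) := by
    rw [← Real.rpow_neg_one, ← Real.rpow_add hN0]
    norm_num
  rw [e5]
  ring

end ART.TR

end HexObs
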